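import Pool.Agent.Lib.MP_bc5a73_al.LeaveOut

section
set_option autoImplicit false
set_option linter.unusedSectionVars false
set_option linter.unusedVariables false
open scoped BigOperators Matrix
open Matrix
namespace Pool.Agent.BC5


variable {G : Type} [Group G] [Fintype G] [DecidableEq G]

theorem P1_markov {E : Matrix G G ℝ} (hE : IsBlock E) (hEJ : E ≠ Jm G) (p s' : ℕ) (hp : 1 ≤ p) (hs : 512 * p ≤ s') :
    frac (fun y : Fin s' → G => (1 / 16 : ℝ) ^ p * E.trace < (E * (avg fun i => Sm (y i)) ^ (2 * p)).trace)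
      ≤ (1 / 4 : ℝ) ^ p := by
  have hEJ0 : E * Jm G = 0 := (block_eq_or_mul_eq_zero hE Jm_isBlock).resolve_left hEJ
  have hE1 : 1 ≤ E.trace := one_le_trace hE.1 hE.2.2.2.1
  have hc : 0 < (1 / 16 : ℝ) ^ p * E.trace := by
    have h0 : 0 < E.trace := by linarith
    positivity
  have h3 := frac_le_avg_div
    (P := fun y : Fin s' → G => (1 / 16 : ℝ) ^ p * E.trace < (E * (avg fun i => Sm (y i)) ^ (2 * p)).trace)
    (f := fun y : Fin s' → G => (E * (avg fun i => Sm (y i)) ^ (2 * p)).trace)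
    hc (fun x => Q4_trace_nonneg hE x p) (fun x hx => hx.le)
  refine h3.trans ?_
  rw [div_le_iff₀ hc]
  refine (avg_base_trace_le' hE.1 hE.2.2.1 hEJ0 p s' hp hs).trans (le_of_eq ?_)
  have h4 : (1 / 64 : ℝ) ^ p = (1 / 4) ^ p * (1 / 16) ^ p := by
    rw [← mul_pow]
    norm_num
  rw [h4]
  ring

theorem P1_one {N : ℕ} {E : Matrix G G ℝ} (hE : IsBlock E) (hEJ : E ≠ Jm G) (v0 : ℕ) (hv0 : 1 ≤ v0)
    (R : Finset (Fin N)) :
    frac (fun x : Fin N × Fin 2560 → G => (v0 : ℝ) ≤ R.card ∧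
      (1 / 2 : ℝ) ^ (10 * v0) * E.trace < (E * spr (AR x R) (1 / 2)).trace) ≤ (1 / 4 : ℝ) ^ (5 * v0) := by
  classical
  by_cases hR : (v0 : ℝ) ≤ R.card
  · have hRn : v0 ≤ R.card := by exact_mod_cast hR
    have hcard : (cyl R : Finset (Fin N × Fin 2560)).card = R.card * 2560 := by
      unfold cyl
      rw [Finset.card_product, Finset.card_univ, Fintype.card_fin]
    obtain ⟨e, he, heU⟩ := exists_enum (cyl R : Finset (Fin N × Fin 2560))
    have hs : 512 * (5 * v0) ≤ (cyl R : Finset (Fin N × Fin 2560)).card := by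
      rw [hcard]
      omega
    have hM := P1_markov hE hEJ (5 * v0) _ (by omega) hs
    have hinj := frac_comp_injective (H := G) e he
      (fun y : Fin (cyl R : Finset (Fin N × Fin 2560)).card → G =>
        (1 / 16 : ℝ) ^ (5 * v0) * E.trace < (E * (avg fun i => Sm (y i)) ^ (2 * (5 * v0))).trace)
    refine le_trans ?_ (hinj.le.trans hM)
    refine frac_mono ?_
    intro x hx
    have hAt : (AR x R)ᵀ = AR x R := by
      have h1 : AR x R = avg (fun i => Sm (x (e i))) := by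
        unfold AR
        exact AU_eq_avg x (cyl R) e he heU
      rw [h1]
      exact Q4_transpose (fun i => x (e i))
    have h2 := spr_trace (AR x R) hAt (1 / 2) (by norm_num) E hE.1 (5 * v0)
    have h3 : AR x R = avg (fun i => Sm (x (e i))) := by
      unfold AR
      exact AU_eq_avg x (cyl R) e he heU
    have h4 : (1 / 16 : ℝ) ^ (5 * v0) = (1 / 2) ^ (2 * (5 * v0)) * (1 / 2) ^ (10 * v0) := by
      have h16 : (1 / 16 : ℝ) = (1 / 2) ^ 4 := by norm_num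
      rw [h16, ← pow_mul, ← pow_add]
      congr 1
      ring
    have h5 : (0 : ℝ) < (1 / 2) ^ (2 * (5 * v0)) := by positivity
    have h6 := mul_lt_mul_of_pos_left hx.2 h5
    have h7 : (1 / 16 : ℝ) ^ (5 * v0) * E.trace < (E * (AR x R) ^ (2 * (5 * v0))).trace := by
      rw [h4, mul_assoc]
      exact lt_of_lt_of_le h6 h2
    rw [h3] at h7
    exact h7
  · have h7 : frac (fun x : Fin N × Fin 2560 → G => False) = 0 := by
      unfold frac avg
      simp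
    have h8 : frac (fun x : Fin N × Fin 2560 → G => (v0 : ℝ) ≤ R.card ∧
        (1 / 2 : ℝ) ^ (10 * v0) * E.trace < (E * spr (AR x R) (1 / 2)).trace) ≤
        frac (fun x : Fin N × Fin 2560 → G => False) := frac_mono (fun x hx => hR hx.1)
    refine h8.trans ?_
    rw [h7]
    positivity

theorem base_start {N : ℕ} {E : Matrix G G ℝ} (hE : IsBlock E) (hEJ : E ≠ Jm G) (v0 : ℕ) (hv0 : 1 ≤ v0) :
    frac (fun x : Fin N × Fin 2560 → G => ¬ StartP x E (1 / 2) v0 ((1 / 2 : ℝ) ^ (10 * v0)))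
      ≤ 2 ^ N * (1 / 4 : ℝ) ^ (5 * v0) := by
  classical
  have h1 : frac (fun x : Fin N × Fin 2560 → G => ¬ StartP x E (1 / 2) v0 ((1 / 2 : ℝ) ^ (10 * v0))) ≤
      frac (fun x : Fin N × Fin 2560 → G => ∃ R ∈ (Finset.univ : Finset (Finset (Fin N))),
        ((v0 : ℝ) ≤ R.card ∧ (1 / 2 : ℝ) ^ (10 * v0) * E.trace < (E * spr (AR x R) (1 / 2)).trace)) := by
    refine frac_mono ?_
    intro x hx
    by_contra hcon
    apply hx
    intro R hR
    by_contra hlt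
    exact hcon ⟨R, Finset.mem_univ R, hR, not_le.1 hlt⟩
  refine h1.trans ((frac_exists_le (Finset.univ : Finset (Finset (Fin N)))
    (fun (R : Finset (Fin N)) (x : Fin N × Fin 2560 → G) => (v0 : ℝ) ≤ R.card ∧
      (1 / 2 : ℝ) ^ (10 * v0) * E.trace < (E * spr (AR x R) (1 / 2)).trace)).trans ?_)
  refine (Finset.sum_le_sum (fun R _ => P1_one hE hEJ v0 hv0 R)).trans (le_of_eq ?_)
  rw [Finset.sum_const, Finset.card_univ, Fintype.card_finset, Fintype.card_fin, nsmul_eq_mul]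
  push_cast
  ring

end Pool.Agent.BC5
end

section
set_option autoImplicit false
set_option linter.unusedSectionVars false
set_option linter.unusedVariables false
open scoped BigOperators Matrix
open Matrix
namespace Pool.Agent.BC5


variable {G : Type} [Group G] [Fintype G] [DecidableEq G]

/-- One pair (R, E): transfer of the base estimate to the coordinates in a set `U`. -/
theorem P2_one {ι : Type} [Fintype ι] [DecidableEq ι] {E : Matrix G G ℝ} (hE : IsBlock E) (hEJ : E ≠ Jm G)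
    (p : ℕ) (hp : 1 ≤ p) (U : Finset ι) (hU : 512 * p ≤ U.card) :
    frac (fun x : ι → G => 2 * (1 / 64 : ℝ) ^ p * E.trace < (E * (AU x U) ^ (2 * p)).trace)
      ≤ (64 : ℝ) ^ (2 * p) / E.trace := by
  obtain ⟨e, he, heU⟩ := exists_enum U
  have h1 : (fun x : ι → G => 2 * (1 / 64 : ℝ) ^ p * E.trace < (E * (AU x U) ^ (2 * p)).trace) =
      (fun x : ι → G => (fun y : Fin U.card → G =>
        2 * (1 / 64 : ℝ) ^ p * E.trace < (E * (avg fun i => Sm (y i)) ^ (2 * p)).trace) (fun i => x (e i))) := by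
    funext x
    rw [AU_eq_avg x U e he heU]
  rw [h1]
  have h2 := frac_comp_injective (H := G) e he (fun y : Fin U.card → G =>
        2 * (1 / 64 : ℝ) ^ p * E.trace < (E * (avg fun i => Sm (y i)) ^ (2 * p)).trace)
  rw [h2]
  exact frac_base_block_le hE hEJ p U.card hp hU

theorem base_start2 {N : ℕ} (v0 : ℕ) (hv0 : 1 ≤ v0) (D : ℝ) (hD : 0 < D)
    (hDE : ∀ E : Matrix G G ℝ, IsBlock E → E ≠ Jm G → D ≤ E.trace) :
    frac (fun x : Fin N × Fin 2560 → G => ¬ ∀ E : Matrix G G ℝ, IsBlock E → E ≠ Jm G →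
      StartP x E (1 / 2) v0 ((1 / 2 : ℝ) ^ (15 * v0))) ≤ 2 ^ N * ((kc G : ℝ) * ((64 : ℝ) ^ (10 * v0) / D)) := by
  classical
  obtain ⟨B, hB, -⟩ := exists_blocks G
  set p : ℕ := 5 * v0 with hp
  have hp1 : 1 ≤ p := by omega
  set B' : Finset (Matrix G G ℝ) := B.filter (fun E => E ≠ Jm G) with hB'
  set bad : Finset (Fin N) × Matrix G G ℝ → (Fin N × Fin 2560 → G) → Prop := fun q x =>
    v0 ≤ q.1.card ∧ 2 * (1 / 64 : ℝ) ^ p * q.2.trace < (q.2 * (AR x q.1) ^ (2 * p)).trace with hbad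
  set I : Finset (Finset (Fin N) × Matrix G G ℝ) := Finset.univ ×ˢ B' with hI
  have h1 : ∀ x : Fin N × Fin 2560 → G, (¬ ∀ E : Matrix G G ℝ, IsBlock E → E ≠ Jm G →
      StartP x E (1 / 2) v0 ((1 / 2 : ℝ) ^ (15 * v0))) → ∃ q ∈ I, bad q x := by
    intro x hx
    by_contra hcon
    push Not at hcon
    apply hx
    intro E hE hEJ R hR
    have hmem : (R, E) ∈ I := by
      rw [hI, Finset.mem_product]
      refine ⟨Finset.mem_univ _, ?_⟩
      rw [hB', Finset.mem_filter]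
      exact ⟨(hB E).2 hE, hEJ⟩
    have hRn : v0 ≤ R.card := by exact_mod_cast hR
    have hnb : ¬ bad (R, E) x := hcon (R, E) hmem
    have h2 : (E * (AR x R) ^ (2 * p)).trace ≤ 2 * (1 / 64 : ℝ) ^ p * E.trace := by
      by_contra h
      exact hnb ⟨hRn, not_le.mp h⟩
    have hsym : (AR x R)ᵀ = AR x R := AU_transpose x (cyl R)
    have h3 := spr_trace (AR x R) hsym (1 / 2) (by norm_num) E hE.1 p
    have h4 : (1 / 2 : ℝ) ^ (2 * p) * (E * spr (AR x R) (1 / 2)).trace ≤ 2 * (1 / 64 : ℝ) ^ p * E.trace :=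
      le_trans h3 h2
    have hEt : 1 ≤ E.trace := block_trace_pos hE
    have h5 : (1 / 2 : ℝ) ^ (2 * p) = (1 / 4 : ℝ) ^ p := by rw [pow_mul]; norm_num
    have h6 : (1 / 2 : ℝ) ^ (15 * v0) = (1 / 8 : ℝ) ^ p := by
      have : 15 * v0 = 3 * p := by omega
      rw [this, pow_mul]; norm_num
    rw [h5] at h4
    rw [h6]
    have h7 : (4 : ℝ) ^ p * (1 / 4 : ℝ) ^ p = 1 := by rw [← mul_pow]; norm_num
    have h8 : (4 : ℝ) ^ p * (1 / 64 : ℝ) ^ p = (1 / 16 : ℝ) ^ p := by rw [← mul_pow]; norm_num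
    have h9 : (1 / 16 : ℝ) ^ p = (1 / 2 : ℝ) ^ p * (1 / 8 : ℝ) ^ p := by rw [← mul_pow]; norm_num
    have h10 : (1 / 2 : ℝ) ^ p ≤ 1 / 2 := by
      calc (1 / 2 : ℝ) ^ p ≤ (1 / 2 : ℝ) ^ 1 := pow_le_pow_of_le_one (by norm_num) (by norm_num) hp1
        _ = 1 / 2 := pow_one _
    have h11 : (0 : ℝ) < (1 / 8 : ℝ) ^ p := by positivity
    have h12 := mul_le_mul_of_nonneg_left h4 (show (0 : ℝ) ≤ (4 : ℝ) ^ p by positivity)
    calc (E * spr (AR x R) (1 / 2)).trace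
        = (4 : ℝ) ^ p * ((1 / 4 : ℝ) ^ p * (E * spr (AR x R) (1 / 2)).trace) := by
          rw [← mul_assoc, h7, one_mul]
      _ ≤ (4 : ℝ) ^ p * (2 * (1 / 64 : ℝ) ^ p * E.trace) := h12
      _ = 2 * ((4 : ℝ) ^ p * (1 / 64 : ℝ) ^ p) * E.trace := by ring
      _ = (2 * (1 / 2 : ℝ) ^ p) * ((1 / 8 : ℝ) ^ p * E.trace) := by rw [h8, h9]; ring
      _ ≤ 1 * ((1 / 8 : ℝ) ^ p * E.trace) := by
          apply mul_le_mul_of_nonneg_right _ (by positivity)
          linarith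
      _ = (1 / 8 : ℝ) ^ p * E.trace := one_mul _
  have hK0 : (0 : ℝ) ≤ (64 : ℝ) ^ (10 * v0) / D := by positivity
  have h14 : ∀ q ∈ I, frac (bad q) ≤ (64 : ℝ) ^ (10 * v0) / D := by
    rintro ⟨R, E⟩ hq
    rw [hI, Finset.mem_product, hB', Finset.mem_filter] at hq
    have hEb := (hB E).1 hq.2.1
    by_cases hR : v0 ≤ R.card
    · have hcard : 512 * p ≤ (cyl (s := 2560) R).card := by
        unfold cyl
        rw [Finset.card_product, Finset.card_univ, Fintype.card_fin]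
        omega
      have h2 := P2_one hEb hq.2.2 p hp1 (cyl (s := 2560) R) hcard
      have h3 : frac (bad (R, E)) ≤ (64 : ℝ) ^ (2 * p) / E.trace := by
        refine le_trans (frac_mono ?_) h2
        intro x hx
        exact hx.2
      refine h3.trans ?_
      have h5 : 2 * p = 10 * v0 := by omega
      rw [h5]
      exact div_le_div_of_nonneg_left (by positivity) hD (hDE E hEb hq.2.2)
    · have h2 : frac (bad (R, E)) ≤ frac (fun _ : (Fin N × Fin 2560 → G) => False) :=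
        frac_mono fun x hx => hR hx.1
      have h3 : frac (fun _ : (Fin N × Fin 2560 → G) => False) = 0 := by
        unfold frac avg
        simp
      rw [h3] at h2
      exact h2.trans hK0
  have h15 : (B'.card : ℝ) ≤ kc G := by
    have h16 : B'.card ≤ kc G := card_blocks_le B' fun E hE => by
      rw [hB', Finset.mem_filter] at hE
      exact (hB E).1 hE.1
    exact_mod_cast h16
  have hIc : (I.card : ℝ) = 2 ^ N * (B'.card : ℝ) := by
    rw [hI, Finset.card_product, Finset.card_univ, Fintype.card_finset, Fintype.card_fin]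
    push_cast
    ring
  calc frac (fun x : Fin N × Fin 2560 → G => ¬ ∀ E : Matrix G G ℝ, IsBlock E → E ≠ Jm G →
      StartP x E (1 / 2) v0 ((1 / 2 : ℝ) ^ (15 * v0)))
      ≤ frac (fun x : Fin N × Fin 2560 → G => ∃ q ∈ I, bad q x) := frac_mono h1
    _ ≤ ∑ q ∈ I, frac (bad q) := frac_exists_le I bad
    _ ≤ ∑ q ∈ I, (64 : ℝ) ^ (10 * v0) / D := Finset.sum_le_sum h14
    _ = (I.card : ℝ) * ((64 : ℝ) ^ (10 * v0) / D) := by rw [Finset.sum_const, nsmul_eq_mul]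
    _ = 2 ^ N * ((B'.card : ℝ) * ((64 : ℝ) ^ (10 * v0) / D)) := by rw [hIc]; ring
    _ ≤ 2 ^ N * ((kc G : ℝ) * ((64 : ℝ) ^ (10 * v0) / D)) := by
        apply mul_le_mul_of_nonneg_left _ (by positivity)
        exact mul_le_mul_of_nonneg_right h15 hK0

end Pool.Agent.BC5
end

section
set_option autoImplicit false
set_option linter.unusedSectionVars false
set_option linter.unusedVariables false
open scoped BigOperators Matrix
open Matrix
namespace Pool.Agent.BC5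


variable {G : Type} [Group G] [Fintype G] [DecidableEq G]


theorem NormP.mono {N s : ℕ} {x : Fin N × Fin s → G} {E : Matrix G G ℝ} {θ θ' v v' : ℝ} (h : NormP x E θ v)
    (hθ : θ ≤ θ') (hv : v ≤ v') : NormP x E θ' v' := by
  intro R hR f hf
  have h1 := h R (hv.trans hR) f hf
  have h2 : 0 ≤ f ⬝ᵥ f := by
    unfold dotProduct
    exact Finset.sum_nonneg fun i _ => mul_self_nonneg _
  exact h1.trans (mul_le_mul_of_nonneg_right hθ h2)

theorem P3_trace_le {E : Matrix G G ℝ} (hE : IsBlock E) : E.trace ≤ (Fintype.card G : ℝ) := by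
  have h1 : IsPr (1 : Matrix G G ℝ) := ⟨Matrix.transpose_one, one_mul 1⟩
  have h2 := G7_trace_le hE.1 h1 (Commute.one_left E)
  rw [one_mul, Matrix.trace_one] at h2
  exact h2

theorem P3_num1 (N v0 : ℕ) (hv : 7 * N ≤ 8 * v0) :
    (2 : ℝ) ^ N * (1 / 4 : ℝ) ^ (5 * v0) ≤ (1 / 2 : ℝ) ^ (7 * N) := by
  have h1 : (1 / 4 : ℝ) ^ (5 * v0) = (1 / 2 : ℝ) ^ (10 * v0) := by
    rw [show (1 / 4 : ℝ) = (1 / 2) ^ 2 by norm_num, ← pow_mul]
    congr 1
    ring
  have h2 : (2 : ℝ) ^ N * (1 / 2 : ℝ) ^ N = 1 := by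
    rw [← mul_pow]; norm_num
  have h3 : (1 / 2 : ℝ) ^ (10 * v0) ≤ (1 / 2 : ℝ) ^ (N + 7 * N) :=
    pow_le_pow_of_le_one (by norm_num) (by norm_num) (by omega)
  rw [h1]
  calc (2 : ℝ) ^ N * (1 / 2 : ℝ) ^ (10 * v0) ≤ (2 : ℝ) ^ N * (1 / 2 : ℝ) ^ (N + 7 * N) :=
        mul_le_mul_of_nonneg_left h3 (by positivity)
    _ = ((2 : ℝ) ^ N * (1 / 2 : ℝ) ^ N) * (1 / 2 : ℝ) ^ (7 * N) := by rw [pow_add]; ring
    _ = (1 / 2 : ℝ) ^ (7 * N) := by rw [h2, one_mul]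

theorem P3_num2 (N v0 I : ℕ) (hN : 96 ≤ N) (hI : I ≤ N) (hv : 7 * N ≤ 8 * v0) :
    ((I : ℝ) + 1) * (4 ^ (N + 1) * (1 / 2 : ℝ) ^ (4 * 1 * (10 * v0))) ≤ (1 / 2 : ℝ) ^ (7 * N) := by
  have h1 : (I : ℝ) + 1 ≤ 2 ^ N := by
    have : I + 1 ≤ 2 ^ N := by
      have := Nat.lt_two_pow_self (n := N)
      omega
    exact_mod_cast this
  have h4 : (4 : ℝ) ^ (N + 1) = 2 ^ (2 * N + 2) := by
    rw [show (4 : ℝ) = 2 ^ 2 by norm_num, ← pow_mul]
    congr 1
  have h2 : (2 : ℝ) ^ (3 * N + 2) * (1 / 2 : ℝ) ^ (3 * N + 2) = 1 := by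
    rw [← mul_pow]; norm_num
  have h3 : (1 / 2 : ℝ) ^ (4 * 1 * (10 * v0)) ≤ (1 / 2 : ℝ) ^ ((3 * N + 2) + 7 * N) :=
    pow_le_pow_of_le_one (by norm_num) (by norm_num) (by omega)
  have h5 : (0 : ℝ) ≤ 4 ^ (N + 1) * (1 / 2 : ℝ) ^ (4 * 1 * (10 * v0)) := by positivity
  calc ((I : ℝ) + 1) * (4 ^ (N + 1) * (1 / 2 : ℝ) ^ (4 * 1 * (10 * v0)))
      ≤ 2 ^ N * (4 ^ (N + 1) * (1 / 2 : ℝ) ^ (4 * 1 * (10 * v0))) := mul_le_mul_of_nonneg_right h1 h5
    _ = 2 ^ (3 * N + 2) * (1 / 2 : ℝ) ^ (4 * 1 * (10 * v0)) := by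
        rw [h4, ← mul_assoc, ← pow_add]
        congr 2
        ring
    _ ≤ 2 ^ (3 * N + 2) * (1 / 2 : ℝ) ^ ((3 * N + 2) + 7 * N) := mul_le_mul_of_nonneg_left h3 (by positivity)
    _ = (2 ^ (3 * N + 2) * (1 / 2 : ℝ) ^ (3 * N + 2)) * (1 / 2 : ℝ) ^ (7 * N) := by rw [pow_add _ (3 * N + 2) (7 * N)]; ring
    _ = (1 / 2 : ℝ) ^ (7 * N) := by rw [h2, one_mul]

theorem P3_one (N v0 I : ℕ) (hv0 : v0 = N - N / 8) (hI : 96 * I + 96 ≤ N) (hD : Fintype.card G < 2 ^ (2 ^ I))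
    {E : Matrix G G ℝ} (hE : IsBlock E) (hEJ : E ≠ Jm G) :
    frac (fun x : Fin N × Fin 2560 → G => ¬ NormP x E (3 / 4) N) ≤ 2 * (1 / 2 : ℝ) ^ (7 * N) := by
  have hN : 96 ≤ N := by omega
  have hv : 7 * N ≤ 8 * v0 := by omega
  have hv1 : v0 + 1 + I ≤ N := by omega
  have hv2 : 84 ≤ v0 := by omega
  have hNr : (96 : ℝ) * I + 96 ≤ N := by exact_mod_cast hI
  have hN0 : (0 : ℝ) < N := by
    have : (96 : ℝ) ≤ N := by exact_mod_cast hN
    linarith
  have hvr : (7 : ℝ) * N ≤ 8 * v0 := by exact_mod_cast hv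
  have hv2r : (84 : ℝ) ≤ v0 := by exact_mod_cast hv2
  have hA := base_start (N := N) hE hEJ v0 (by omega)
  have hδ : (0 : ℝ) < 12 / N := by positivity
  have h1 : (10 : ℝ) ≤ v0 * (12 / N) := by
    rw [mul_div_assoc', le_div_iff₀ hN0]
    nlinarith
  have h0 : 10 * ((1 : ℕ) : ℝ) ≤ ((v0 : ℝ) + ((1 : ℕ) : ℝ)) * (1 / 8) := by
    push_cast
    linarith
  have hDr : E.trace < 2 ^ (2 ^ I * (2 * 1 * (10 * v0))) := by
    have a1 : E.trace ≤ (Fintype.card G : ℝ) := P3_trace_le hE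
    have a2 : (Fintype.card G : ℝ) < 2 ^ (2 ^ I) := by exact_mod_cast hD
    have a3 : (2 : ℝ) ^ (2 ^ I) ≤ 2 ^ (2 ^ I * (2 * 1 * (10 * v0))) := by
      apply pow_le_pow_right₀ (by norm_num)
      exact Nat.le_mul_of_pos_right _ (by omega)
    linarith
  have hB := block_norm (N := N) hE 1 (10 * v0) I le_rfl (by omega) (1 / 2) (1 / 8) (12 / N) v0 (by norm_num)
    (by norm_num) (by norm_num) hδ (Nat.cast_nonneg _) h0 h1 hDr
  have hn1 := P3_num1 N v0 hv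
  have hn2 := P3_num2 N v0 I hN (by omega) hv
  have hsub : frac (fun x : Fin N × Fin 2560 → G => ¬ NormP x E (3 / 4) N) ≤
      frac (fun x : Fin N × Fin 2560 → G => (¬ StartP x E (1 / 2) v0 ((1 / 2 : ℝ) ^ (10 * v0))) ∨
        (StartP x E (1 / 2) v0 ((1 / 2 : ℝ) ^ (10 * v0)) ∧
          ¬ NormP x E (1 / 2 + 1 / 8 + I * (12 / N)) (v0 + ((1 : ℕ) : ℝ) + I))) := by
    refine frac_mono fun x hx => ?_
    by_cases hS : StartP x E (1 / 2) v0 ((1 / 2 : ℝ) ^ (10 * v0))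
    · right
      refine ⟨hS, fun hNn => hx (hNn.mono ?_ ?_)⟩
      · have : (I : ℝ) * (12 / N) ≤ 1 / 8 := by
          rw [mul_div_assoc', div_le_iff₀ hN0]
          linarith
        linarith
      · have : ((v0 + 1 + I : ℕ) : ℝ) ≤ N := by exact_mod_cast hv1
        push_cast at this ⊢
        linarith
    · exact Or.inl hS
  have hor := frac_or_le (fun x : Fin N × Fin 2560 → G => ¬ StartP x E (1 / 2) v0 ((1 / 2 : ℝ) ^ (10 * v0)))
    (fun x : Fin N × Fin 2560 → G => StartP x E (1 / 2) v0 ((1 / 2 : ℝ) ^ (10 * v0)) ∧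
          ¬ NormP x E (1 / 2 + 1 / 8 + I * (12 / N)) (v0 + ((1 : ℕ) : ℝ) + I))
  linarith

theorem all_norm (N v0 I : ℕ) (hv0 : v0 = N - N / 8) (hI : 96 * I + 96 ≤ N) (hD : Fintype.card G < 2 ^ (2 ^ I)) :
    frac (fun x : Fin N × Fin 2560 → G => ¬ ∀ E : Matrix G G ℝ, IsBlock E → E ≠ Jm G → NormP x E (3 / 4) N)
      ≤ (kc G : ℝ) * (2 * (1 / 2 : ℝ) ^ (7 * N)) := by
  classical
  obtain ⟨B, hB, -⟩ := exists_blocks G
  have h1 : frac (fun x : Fin N × Fin 2560 → G =>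
      ¬ ∀ E : Matrix G G ℝ, IsBlock E → E ≠ Jm G → NormP x E (3 / 4) N) ≤
      frac (fun x : Fin N × Fin 2560 → G => ∃ E ∈ B.filter (fun E => E ≠ Jm G), ¬ NormP x E (3 / 4) N) := by
    refine frac_mono fun x hx => ?_
    push Not at hx
    obtain ⟨E, hE, hEJ, hn⟩ := hx
    exact ⟨E, Finset.mem_filter.2 ⟨(hB E).2 hE, hEJ⟩, hn⟩
  have h2 := frac_exists_le (α := Fin N × Fin 2560 → G) (B.filter (fun E => E ≠ Jm G))
    (fun E x => ¬ NormP x E (3 / 4) N)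
  have h3 : ∑ E ∈ B.filter (fun E => E ≠ Jm G), frac (fun x : Fin N × Fin 2560 → G => ¬ NormP x E (3 / 4) N) ≤
      ∑ E ∈ B.filter (fun E => E ≠ Jm G), (2 * (1 / 2 : ℝ) ^ (7 * N)) := by
    refine Finset.sum_le_sum fun E hE => ?_
    obtain ⟨hE1, hE2⟩ := Finset.mem_filter.1 hE
    exact P3_one N v0 I hv0 hI hD ((hB E).1 hE1) hE2
  rw [Finset.sum_const, nsmul_eq_mul] at h3
  have h4 : ((B.filter (fun E => E ≠ Jm G)).card : ℝ) ≤ kc G := by
    have h5 : (B.filter (fun E => E ≠ Jm G)).card ≤ kc G :=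
      (Finset.card_filter_le _ _).trans (card_blocks_le B fun E hE => (hB E).1 hE)
    exact_mod_cast h5
  have h5 : (0 : ℝ) ≤ 2 * (1 / 2 : ℝ) ^ (7 * N) := by positivity
  have h6 := mul_le_mul_of_nonneg_right h4 h5
  exact h1.trans (h2.trans (h3.trans h6))

end Pool.Agent.BC5
end

section
set_option autoImplicit false
set_option linter.unusedSectionVars false
set_option linter.unusedVariables false
open scoped BigOperators Matrix
open Matrix
namespace Pool.Agent.BC5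


variable {G : Type} [Group G] [Fintype G] [DecidableEq G]


theorem P4_exp (N v0 I : ℕ) (hv0 : v0 = N - N / 8) (hI : 96 * I + 128 ≤ N) :
    N ^ 2 / 8 + (2 * N + 2) + I ≤ 4 * (N / 128) * (15 * v0) := by
  obtain ⟨h, hh⟩ : ∃ h, h = N / 128 := ⟨_, rfl⟩
  have h1 : N ≤ 256 * h := by omega
  have h2 : 7 * N ≤ 8 * v0 := by omega
  have h3 : N * (7 * N) ≤ (256 * h) * (8 * v0) := Nat.mul_le_mul h1 h2
  have h4 : N ^ 2 / 8 * 8 ≤ N ^ 2 := Nat.div_mul_le_self _ _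
  have h5 : 128 * N ≤ N ^ 2 := by
    rw [sq]
    exact Nat.mul_le_mul_right N (by omega)
  rw [← hh]
  have e1 : N * (7 * N) = 7 * N ^ 2 := by ring
  have e2 : (256 * h) * (8 * v0) = 2048 * (h * v0) := by ring
  have e3 : 4 * h * (15 * v0) = 60 * (h * v0) := by ring
  rw [e1, e2] at h3
  rw [e3]
  generalize N ^ 2 = a at *
  generalize h * v0 = b at *
  omega

theorem P4_num (N v0 I : ℕ) (hv0 : v0 = N - N / 8) (hI : 96 * I + 128 ≤ N) :
    ((I : ℝ) + 1) * (4 ^ (N + 1) * (1 / 2 : ℝ) ^ (4 * (N / 128) * (15 * v0))) ≤ (1 / 2 : ℝ) ^ (N ^ 2 / 8) := by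
  have h1 := P4_exp N v0 I hv0 hI
  have h2 : (1 / 2 : ℝ) ^ (4 * (N / 128) * (15 * v0)) ≤ (1 / 2 : ℝ) ^ (N ^ 2 / 8 + (2 * N + 2) + I) :=
    pow_le_pow_of_le_one (by norm_num) (by norm_num) h1
  have h3 : (I : ℝ) + 1 ≤ 2 ^ I := by
    have := Nat.lt_two_pow_self (n := I)
    exact_mod_cast this
  have h4 : (4 : ℝ) ^ (N + 1) = 2 ^ (2 * N + 2) := by
    rw [show (4 : ℝ) = 2 ^ 2 by norm_num, ← pow_mul, show 2 * (N + 1) = 2 * N + 2 by ring]
  have h5 : (1 / 2 : ℝ) ^ (N ^ 2 / 8 + (2 * N + 2) + I)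
      = (1 / 2 : ℝ) ^ (N ^ 2 / 8) * (1 / 2) ^ (2 * N + 2) * (1 / 2) ^ I := by
    rw [pow_add, pow_add]
  have h6 : (2 : ℝ) ^ I * (1 / 2) ^ I = 1 := by rw [← mul_pow]; norm_num
  have h7 : (2 : ℝ) ^ (2 * N + 2) * (1 / 2) ^ (2 * N + 2) = 1 := by rw [← mul_pow]; norm_num
  have h0 : (0 : ℝ) ≤ 4 ^ (N + 1) * (1 / 2 : ℝ) ^ (4 * (N / 128) * (15 * v0)) := by positivity
  calc ((I : ℝ) + 1) * (4 ^ (N + 1) * (1 / 2 : ℝ) ^ (4 * (N / 128) * (15 * v0)))
      ≤ 2 ^ I * (4 ^ (N + 1) * (1 / 2 : ℝ) ^ (4 * (N / 128) * (15 * v0))) :=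
        mul_le_mul_of_nonneg_right h3 h0
    _ ≤ 2 ^ I * (4 ^ (N + 1) * (1 / 2 : ℝ) ^ (N ^ 2 / 8 + (2 * N + 2) + I)) :=
        mul_le_mul_of_nonneg_left (mul_le_mul_of_nonneg_left h2 (by positivity)) (by positivity)
    _ = (1 / 2 : ℝ) ^ (N ^ 2 / 8) * ((2 : ℝ) ^ (2 * N + 2) * (1 / 2) ^ (2 * N + 2)) * ((2 : ℝ) ^ I * (1 / 2) ^ I) := by
        rw [h4, h5]
        ring
    _ = (1 / 2 : ℝ) ^ (N ^ 2 / 8) := by rw [h6, h7, mul_one, mul_one]

theorem P4_trace_le {E : Matrix G G ℝ} (hE : IsBlock E) : E.trace ≤ Fintype.card G := by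
  have h := G7_trace_le hE.1 IsPr.one (Commute.one_left E)
  rw [Matrix.one_mul, Matrix.trace_one] at h
  exact h

theorem P4_block (N v0 I : ℕ) (hv0 : v0 = N - N / 8) (hI : 96 * I + 128 ≤ N) (hG : Fintype.card G < 2 ^ (2 ^ I))
    {E : Matrix G G ℝ} (hE : IsBlock E) :
    frac (fun x : Fin N × Fin 2560 → G => StartP x E (1 / 2) v0 ((1 / 2 : ℝ) ^ (15 * v0)) ∧
      ¬ NormP x E (3 / 4) N) ≤ (1 / 2 : ℝ) ^ (N ^ 2 / 8) := by
  have hN : 128 ≤ N := by omega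
  have hh : 1 ≤ N / 128 := by omega
  have hq : 640 ≤ 15 * v0 := by omega
  have hNr : (128 : ℝ) ≤ N := by exact_mod_cast hN
  have hN0 : (0 : ℝ) < N := by linarith
  have hv0r : 7 * (N : ℝ) ≤ 8 * v0 := by
    have : 7 * N ≤ 8 * v0 := by omega
    exact_mod_cast this
  have hhr : 128 * ((N / 128 : ℕ) : ℝ) ≤ N := by
    have : 128 * (N / 128) ≤ N := by omega
    exact_mod_cast this
  have hh0 : (0 : ℝ) ≤ ((N / 128 : ℕ) : ℝ) := Nat.cast_nonneg _
  have hv00 : (0 : ℝ) ≤ (v0 : ℝ) := Nat.cast_nonneg _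
  have hIr : 96 * (I : ℝ) ≤ N := by
    have : 96 * I ≤ N := by omega
    exact_mod_cast this
  have hsum : (v0 : ℝ) + ((N / 128 : ℕ) : ℝ) + I ≤ N := by
    have : v0 + N / 128 + I ≤ N := by omega
    exact_mod_cast this
  have htr : E.trace < 2 ^ (2 ^ I * (2 * (N / 128) * (15 * v0))) := by
    have h1 := P4_trace_le hE
    have h2 : (Fintype.card G : ℝ) < 2 ^ (2 ^ I) := by exact_mod_cast hG
    have h3 : (2 : ℝ) ^ (2 ^ I) ≤ 2 ^ (2 ^ I * (2 * (N / 128) * (15 * v0))) := by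
      apply pow_le_pow_right₀ (by norm_num)
      apply Nat.le_mul_of_pos_right
      have hv : 0 < v0 := by omega
      positivity
    linarith
  have hδ : (0 : ℝ) < 12 / N := by positivity
  have hvδ : (10 : ℝ) ≤ v0 * (12 / N) := by
    rw [mul_div_assoc', le_div_iff₀ hN0]
    linarith
  have key := block_norm (N := N) hE (N / 128) (15 * v0) I hh hq (1 / 2) (1 / 8) (12 / N) v0
    (by norm_num) (by norm_num) (by norm_num) hδ hv00 (by linarith) hvδ htr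
  refine (frac_mono ?_).trans (key.trans (P4_num N v0 I hv0 hI))
  intro x hx
  refine ⟨hx.1, fun hn => hx.2 ?_⟩
  refine NormP.mono hn ?_ hsum
  have h4 : (I : ℝ) * (12 / N) ≤ 1 / 8 := by
    rw [mul_div_assoc', div_le_iff₀ hN0]
    linarith
  linarith

theorem all_norm2 (N v0 I : ℕ) (hv0 : v0 = N - N / 8) (hI : 96 * I + 128 ≤ N) (hG : Fintype.card G < 2 ^ (2 ^ I))
    (D : ℝ) (hD : 0 < D) (hDE : ∀ E : Matrix G G ℝ, IsBlock E → E ≠ Jm G → D ≤ E.trace) :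
    frac (fun x : Fin N × Fin 2560 → G => ¬ ∀ E : Matrix G G ℝ, IsBlock E → E ≠ Jm G → NormP x E (3 / 4) N)
      ≤ (kc G : ℝ) * (2 ^ (61 * N) / D + (1 / 2 : ℝ) ^ (N ^ 2 / 8)) := by
  classical
  obtain ⟨B, hB, -⟩ := exists_blocks G
  have h1 := base_start2 (G := G) (N := N) v0 (by omega) D hD hDE
  have h2 : ∀ x : Fin N × Fin 2560 → G,
      (¬ ∀ E : Matrix G G ℝ, IsBlock E → E ≠ Jm G → NormP x E (3 / 4) N) →
      (¬ ∀ E : Matrix G G ℝ, IsBlock E → E ≠ Jm G → StartP x E (1 / 2) v0 ((1 / 2 : ℝ) ^ (15 * v0))) ∨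
      ∃ E ∈ B, StartP x E (1 / 2) v0 ((1 / 2 : ℝ) ^ (15 * v0)) ∧ ¬ NormP x E (3 / 4) N := by
    intro x hx
    by_cases hs : ∀ E : Matrix G G ℝ, IsBlock E → E ≠ Jm G → StartP x E (1 / 2) v0 ((1 / 2 : ℝ) ^ (15 * v0))
    · right
      by_contra hcon
      push Not at hcon
      exact hx fun E hE hEJ => hcon E ((hB E).2 hE) (hs E hE hEJ)
    · exact Or.inl hs
  have h3 : frac (fun x : Fin N × Fin 2560 → G => ∃ E ∈ B, StartP x E (1 / 2) v0 ((1 / 2 : ℝ) ^ (15 * v0)) ∧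
      ¬ NormP x E (3 / 4) N) ≤ (kc G : ℝ) * (1 / 2 : ℝ) ^ (N ^ 2 / 8) := by
    calc frac (fun x : Fin N × Fin 2560 → G => ∃ E ∈ B, StartP x E (1 / 2) v0 ((1 / 2 : ℝ) ^ (15 * v0)) ∧
          ¬ NormP x E (3 / 4) N)
        ≤ ∑ E ∈ B, frac (fun x : Fin N × Fin 2560 → G => StartP x E (1 / 2) v0 ((1 / 2 : ℝ) ^ (15 * v0)) ∧
          ¬ NormP x E (3 / 4) N) :=
          frac_exists_le B (fun E (x : Fin N × Fin 2560 → G) =>
            StartP x E (1 / 2) v0 ((1 / 2 : ℝ) ^ (15 * v0)) ∧ ¬ NormP x E (3 / 4) N)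
      _ ≤ ∑ _E ∈ B, (1 / 2 : ℝ) ^ (N ^ 2 / 8) :=
          Finset.sum_le_sum fun E hE => P4_block N v0 I hv0 hI hG ((hB E).1 hE)
      _ = (B.card : ℝ) * (1 / 2 : ℝ) ^ (N ^ 2 / 8) := by rw [Finset.sum_const, nsmul_eq_mul]
      _ ≤ (kc G : ℝ) * (1 / 2 : ℝ) ^ (N ^ 2 / 8) := by
          refine mul_le_mul_of_nonneg_right ?_ (by positivity)
          exact_mod_cast card_blocks_le B (fun E hE => (hB E).1 hE)
  have h4 : (2 : ℝ) ^ N * ((kc G : ℝ) * ((64 : ℝ) ^ (10 * v0) / D)) ≤ (kc G : ℝ) * (2 ^ (61 * N) / D) := by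
    have h5 : (2 : ℝ) ^ N * (64 : ℝ) ^ (10 * v0) ≤ 2 ^ (61 * N) := by
      rw [show (64 : ℝ) = 2 ^ 6 by norm_num, ← pow_mul, ← pow_add]
      apply pow_le_pow_right₀ (by norm_num)
      omega
    have h6 : (0 : ℝ) ≤ kc G := Nat.cast_nonneg _
    calc (2 : ℝ) ^ N * ((kc G : ℝ) * ((64 : ℝ) ^ (10 * v0) / D))
        = (kc G : ℝ) * (((2 : ℝ) ^ N * (64 : ℝ) ^ (10 * v0)) / D) := by ring
      _ ≤ (kc G : ℝ) * (2 ^ (61 * N) / D) :=
          mul_le_mul_of_nonneg_left (div_le_div_of_nonneg_right h5 hD.le) h6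
  calc frac (fun x : Fin N × Fin 2560 → G => ¬ ∀ E : Matrix G G ℝ, IsBlock E → E ≠ Jm G → NormP x E (3 / 4) N)
      ≤ frac (fun x : Fin N × Fin 2560 → G =>
        (¬ ∀ E : Matrix G G ℝ, IsBlock E → E ≠ Jm G → StartP x E (1 / 2) v0 ((1 / 2 : ℝ) ^ (15 * v0))) ∨
        ∃ E ∈ B, StartP x E (1 / 2) v0 ((1 / 2 : ℝ) ^ (15 * v0)) ∧ ¬ NormP x E (3 / 4) N) := frac_mono h2
    _ ≤ _ := frac_or_le _ _
    _ ≤ (kc G : ℝ) * (2 ^ (61 * N) / D) + (kc G : ℝ) * (1 / 2 : ℝ) ^ (N ^ 2 / 8) :=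
        add_le_add (h1.trans h4) h3
    _ = (kc G : ℝ) * (2 ^ (61 * N) / D + (1 / 2 : ℝ) ^ (N ^ 2 / 8)) := by ring

end Pool.Agent.BC5
end

section
set_option autoImplicit false
set_option linter.unusedSectionVars false
set_option linter.unusedVariables false
open scoped BigOperators Matrix
open Matrix
namespace Pool.Agent.BC5


variable {G : Type} [Group G] [Fintype G] [DecidableEq G]


theorem final_B {N m : ℕ} (hN : 1 ≤ N) (hm : 2560 * N ≤ m) {δ : ℝ}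
    (h : frac (fun x : Fin N × Fin 2560 → G => ¬ ∀ E : Matrix G G ℝ, IsBlock E → E ≠ Jm G → NormP x E (3 / 4) N) ≤ δ) :
    (1 - δ) * (Nat.card G : ℝ) ^ m ≤
        (Nat.card {x : Fin m → G // ∀ A : Set G, 2 * Nat.card A ≤ Nat.card G →
            1 / 8 * (Nat.card A : ℝ) ≤
              (Nat.card {g : G // g ∉ A ∧ ∃ a ∈ A, ∃ i : Fin m, g = a * x i ∨ g = a * (x i)⁻¹} : ℝ)} : ℝ) := by
  classical
  obtain ⟨e, he⟩ : ∃ e : Fin N × Fin 2560 → Fin m, Function.Injective e := by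
    have hc : Fintype.card (Fin N × Fin 2560) ≤ Fintype.card (Fin m) := by
      rw [Fintype.card_prod, Fintype.card_fin, Fintype.card_fin, Fintype.card_fin]
      omega
    obtain ⟨f⟩ := Function.Embedding.nonempty_of_card_le hc
    exact ⟨f, f.injective⟩
  have hne : Nonempty (Fin m → G) := ⟨fun _ => 1⟩
  obtain ⟨P, hP⟩ : ∃ P : (Fin N × Fin 2560 → G) → Prop, P = fun x => ∀ E : Matrix G G ℝ, IsBlock E →
      E ≠ Jm G → NormP x E (3 / 4) N := ⟨_, rfl⟩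
  have h0 : frac (fun x : Fin N × Fin 2560 → G => ¬ P x) ≤ δ := by rw [hP]; exact h
  have h1 : frac (fun x : Fin m → G => ¬ P (fun i => x (e i))) ≤ δ :=
    (frac_comp_injective e he (fun x => ¬ P x)).trans_le h0
  rw [frac_not] at h1
  have h2 : 1 - δ ≤ frac (fun x : Fin m → G => P (fun i => x (e i))) := by linarith
  have h3 : frac (fun x : Fin m → G => P (fun i => x (e i))) ≤ frac (fun x : Fin m → G =>
      ∀ A : Set G, 2 * Nat.card A ≤ Nat.card G →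
            1 / 8 * (Nat.card A : ℝ) ≤
              (Nat.card {g : G // g ∉ A ∧ ∃ a ∈ A, ∃ i : Fin m, g = a * x i ∨ g = a * (x i)⁻¹} : ℝ)) := by
    refine frac_mono fun x hx A hA => ?_
    rw [hP] at hx
    obtain ⟨c, hc⟩ : ∃ c : ℝ, c = ((cyl (s := 2560) (Finset.univ : Finset (Fin N))).card : ℝ) :=
      ⟨_, rfl⟩
    have hcv : c = (N : ℝ) * 2560 := by
      rw [hc]
      unfold cyl
      rw [Finset.card_product, Finset.card_univ, Finset.card_univ, Fintype.card_fin,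
        Fintype.card_fin]
      push_cast
      ring
    have hN0 : (1 : ℝ) ≤ N := by exact_mod_cast hN
    have hc0 : 0 < c := by rw [hcv]; positivity
    have hw : IsWt (fun _ : Fin N × Fin 2560 => c⁻¹) := by
      refine ⟨fun _ => (inv_pos.2 hc0).le, ?_⟩
      rw [Finset.sum_const, Finset.card_univ, Fintype.card_prod, Fintype.card_fin, Fintype.card_fin,
        nsmul_eq_mul]
      push_cast
      rw [hcv]
      have : (N : ℝ) * 2560 ≠ 0 := by positivity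
      exact mul_inv_cancel₀ this
    have hA1 : Aw (fun _ : Fin N × Fin 2560 => c⁻¹) (fun i => x (e i)) =
        AR (fun i => x (e i)) (Finset.univ : Finset (Fin N)) := by
      unfold Aw AR AU
      rw [← hc, Finset.smul_sum]
      refine Finset.sum_congr ?_ fun _ _ => rfl
      unfold cyl
      rw [Finset.univ_product_univ]
    have hexp := expansion_general (fun i => x (e i)) (fun _ : Fin N × Fin 2560 => c⁻¹) hw
      (ε := 1 / 4) (by norm_num)
      (by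
        intro E hE hEJ f hf
        have h5 := hx E hE hEJ (Finset.univ : Finset (Fin N)) (by
          rw [Finset.card_univ, Fintype.card_fin]) f hf
        rw [hA1]
        have h6 := (le_abs_self _).trans h5
        refine h6.trans (le_of_eq ?_)
        norm_num) A hA
    have hcard : (Nat.card {g : G // g ∉ A ∧ ∃ a ∈ A, ∃ i : Fin N × Fin 2560,
        g = a * x (e i) ∨ g = a * (x (e i))⁻¹} : ℝ) ≤
        (Nat.card {g : G // g ∉ A ∧ ∃ a ∈ A, ∃ i : Fin m, g = a * x i ∨ g = a * (x i)⁻¹} : ℝ) := by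
      have hpq : ∀ g : G, (g ∉ A ∧ ∃ a ∈ A, ∃ i : Fin N × Fin 2560,
          g = a * x (e i) ∨ g = a * (x (e i))⁻¹) →
          (g ∉ A ∧ ∃ a ∈ A, ∃ i : Fin m, g = a * x i ∨ g = a * (x i)⁻¹) := by
        rintro g ⟨hg, a, ha, i, hi⟩
        exact ⟨hg, a, ha, e i, hi⟩
      exact_mod_cast Nat.card_le_card_of_injective
        (fun g : {g : G // g ∉ A ∧ ∃ a ∈ A, ∃ i : Fin N × Fin 2560,
          g = a * x (e i) ∨ g = a * (x (e i))⁻¹} =>
          (⟨g.1, hpq g.1 g.2⟩ : {g : G // g ∉ A ∧ ∃ a ∈ A, ∃ i : Fin m,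
            g = a * x i ∨ g = a * (x i)⁻¹}))
        (fun a b hab => Subtype.ext (Subtype.mk.inj hab))
    refine le_trans (le_of_eq ?_) (hexp.trans hcard)
    norm_num
  have h4 := frac_eq_card (fun x : Fin m → G =>
      ∀ A : Set G, 2 * Nat.card A ≤ Nat.card G →
            1 / 8 * (Nat.card A : ℝ) ≤
              (Nat.card {g : G // g ∉ A ∧ ∃ a ∈ A, ∃ i : Fin m, g = a * x i ∨ g = a * (x i)⁻¹} : ℝ))
  have h5 : (Nat.card (Fin m → G) : ℝ) = (Nat.card G : ℝ) ^ m := by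
    rw [Nat.card_fun, Nat.card_eq_fintype_card (α := Fin m), Fintype.card_fin]
    push_cast; rfl
  rw [h5] at h4
  rw [← h4]
  exact mul_le_mul_of_nonneg_right (le_trans h2 h3) (by positivity)

end Pool.Agent.BC5
end

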