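import Pool.Agent.Lib.MP_bc5a73_al.Averages

section
set_option autoImplicit false
set_option linter.unusedSectionVars false
set_option linter.unusedVariables false
open scoped BigOperators Matrix
open Matrix
namespace Pool.Agent.BC5


theorem num_B : ∃ C : ℝ, 1 ≤ C ∧ ∀ k g m : ℕ, 2 ≤ k → k ≤ g → C * (Real.log k + Real.log (Real.log g)) ≤ m →
    ∃ N I : ℕ, 96 * I + 96 ≤ N ∧ g < 2 ^ (2 ^ I) ∧ 2560 * N ≤ m ∧
      (k : ℝ) * (2 * (1 / 2 : ℝ) ^ (7 * N)) ≤ 1 / k := by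
  refine ⟨10 ^ 7, by norm_num, ?_⟩
  intro k g m hk hkg hm
  have hl2a : (0.6931471803 : ℝ) < Real.log 2 := Real.log_two_gt_d9
  have hl2b : Real.log 2 < (0.6931471808 : ℝ) := Real.log_two_lt_d9
  have hk' : (2 : ℝ) ≤ k := by exact_mod_cast hk
  have hg' : (2 : ℝ) ≤ g := by exact_mod_cast hk.trans hkg
  have hlk : Real.log 2 ≤ Real.log k := Real.log_le_log (by norm_num) hk'
  have hlg : Real.log 2 ≤ Real.log g := Real.log_le_log (by norm_num) hg'
  have hlg0 : 0 < Real.log g := by linarith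
  have hll2 : (-0.4427 : ℝ) ≤ Real.log (Real.log 2) := by
    have h1 := Real.one_sub_inv_le_log_of_pos (show (0 : ℝ) < Real.log 2 by linarith)
    have h2 : (Real.log 2)⁻¹ ≤ 1.4427 := by
      rw [inv_le_comm₀ (by linarith) (by norm_num)]
      refine le_trans ?_ hl2a.le
      norm_num
    linarith
  have hllg : Real.log (Real.log 2) ≤ Real.log (Real.log g) :=
    Real.log_le_log (by linarith) hlg
  set X := Real.log k + Real.log (Real.log g) with hX
  have hX4 : (1 / 4 : ℝ) ≤ X := by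
    have : (0.25 : ℝ) ≤ 0.6931471803 - 0.4427 := by norm_num
    linarith
  have hlkX : Real.log k ≤ 3 * X := by
    have : (0.4427 : ℝ) ≤ 2 * (1 / 4) := by norm_num
    linarith
  have hllX : Real.log (Real.log g) ≤ X := by linarith
  set L := Nat.log 2 g + 1 with hL
  set I := Nat.log 2 L + 1 with hI
  have hg0 : g ≠ 0 := by omega
  have hL0 : L ≠ 0 := by omega
  have hLb : (L : ℝ) ≤ 3 * Real.log g := by
    have h1 : ((2 : ℕ) ^ Nat.log 2 g : ℕ) ≤ g := Nat.pow_log_le_self 2 hg0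
    have h2 : ((2 : ℝ) ^ Nat.log 2 g) ≤ g := by exact_mod_cast h1
    have h3 : (Nat.log 2 g : ℝ) * Real.log 2 ≤ Real.log g := by
      rw [← Real.log_pow]
      exact Real.log_le_log (by positivity) h2
    have h4 : (L : ℝ) = (Nat.log 2 g : ℝ) + 1 := by rw [hL]; push_cast; ring
    have h5 : (L : ℝ) * Real.log 2 ≤ 2 * Real.log g := by rw [h4]; linarith
    have h6 : (L : ℝ) * 0.69 ≤ (L : ℝ) * Real.log 2 :=
      mul_le_mul_of_nonneg_left (by linarith) (by positivity)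
    have h7 : (L : ℝ) * 0.69 ≤ 2 * Real.log g := h6.trans h5
    have h8 : (L : ℝ) ≤ (2 / 0.69) * Real.log g := by
      have : (2 / 0.69 : ℝ) * Real.log g = (2 * Real.log g) / 0.69 := by ring
      rw [this, le_div_iff₀ (by norm_num)]
      exact h7
    have h9 : (2 / 0.69 : ℝ) ≤ 3 := by norm_num
    exact h8.trans (mul_le_mul_of_nonneg_right h9 hlg0.le)
  have hIb : (I : ℝ) ≤ 4 + 3 / 2 * X := by
    have h1 : ((2 : ℕ) ^ Nat.log 2 L : ℕ) ≤ L := Nat.pow_log_le_self 2 hL0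
    have h2 : ((2 : ℝ) ^ Nat.log 2 L) ≤ L := by exact_mod_cast h1
    have h3 : (Nat.log 2 L : ℝ) * Real.log 2 ≤ Real.log L := by
      rw [← Real.log_pow]
      exact Real.log_le_log (by positivity) h2
    have h4 : (I : ℝ) = (Nat.log 2 L : ℝ) + 1 := by rw [hI]; push_cast; ring
    have h5 : Real.log L ≤ 2 + X := by
      have hLpos : (0 : ℝ) < L := by exact_mod_cast Nat.pos_of_ne_zero hL0
      have h6 : Real.log L ≤ Real.log (3 * Real.log g) := Real.log_le_log hLpos hLb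
      rw [Real.log_mul (by norm_num) hlg0.ne'] at h6
      have h7 : Real.log 3 ≤ 3 - 1 := Real.log_le_sub_one_of_pos (by norm_num)
      linarith
    have h8 : (Nat.log 2 L : ℝ) * (2 / 3) ≤ (Nat.log 2 L : ℝ) * Real.log 2 :=
      mul_le_mul_of_nonneg_left (by linarith [show (2 / 3 : ℝ) < 0.6931471803 by norm_num]) (by positivity)
    rw [h4]
    linarith
  have hglt : g < 2 ^ (2 ^ I) := by
    have h1 : g < 2 ^ L := Nat.lt_pow_succ_log_self (by norm_num) g
    have h2 : L < 2 ^ I := Nat.lt_pow_succ_log_self (by norm_num) L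
    exact h1.trans (Nat.pow_lt_pow_right (by norm_num) h2)
  set N := m / 2560 with hN
  have hNm : 2560 * N ≤ m := Nat.mul_div_le m 2560
  have hNl : (m : ℝ) < 2560 * (N + 1) := by
    have : m < 2560 * (N + 1) := Nat.lt_mul_div_succ m (by norm_num)
    exact_mod_cast this
  have hNX : 3000 * X ≤ (N : ℝ) := by
    have h1 : (10 : ℝ) ^ 7 * X < 2560 * (N + 1) := lt_of_le_of_lt hm hNl
    norm_num at h1
    linarith
  refine ⟨N, I, ?_, hglt, hNm, ?_⟩
  · have : ((96 * I + 96 : ℕ) : ℝ) ≤ (N : ℝ) := by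
      push_cast
      linarith
    exact_mod_cast this
  · have hkpos : (0 : ℝ) < k := by linarith
    rw [le_div_iff₀ hkpos]
    have h1 : (k : ℝ) ≤ Real.exp N := by
      rw [← Real.exp_log hkpos]
      exact Real.exp_le_exp.2 (by linarith)
    have h2 : Real.exp 1 ≤ 4 := by linarith [Real.exp_one_lt_d9, show (2.7182818286 : ℝ) ≤ 4 by norm_num]
    have h3 : Real.exp N ≤ 4 ^ N := by
      have : Real.exp N = Real.exp 1 ^ N := by rw [← Real.exp_nat_mul, mul_one]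
      rw [this]
      exact pow_le_pow_left₀ (Real.exp_pos _).le h2 N
    have h4 : (k : ℝ) ≤ 4 ^ N := h1.trans h3
    have hN1 : 1 ≤ N := by
      have : (1 : ℝ) ≤ (N : ℝ) := by linarith
      exact_mod_cast this
    have h5 : (k : ℝ) * k ≤ 4 ^ N * 4 ^ N := mul_le_mul h4 h4 hkpos.le (by positivity)
    have h6 : (4 : ℝ) ^ N * 4 ^ N * 2 ≤ 2 ^ (7 * N) := by
      have e1 : (4 : ℝ) ^ N * 4 ^ N * 2 = 2 ^ (4 * N + 1) := by
        rw [← mul_pow, pow_succ, pow_mul]; norm_num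
      rw [e1]
      exact pow_le_pow_right₀ (by norm_num) (by omega)
    have h7 : (k : ℝ) * (2 * (1 / 2 : ℝ) ^ (7 * N)) * k = (k * k * 2) * (1 / 2 : ℝ) ^ (7 * N) := by ring
    rw [h7]
    have h8 : (k : ℝ) * k * 2 ≤ 2 ^ (7 * N) := le_trans (mul_le_mul_of_nonneg_right h5 (by norm_num)) h6
    have h9 : (2 : ℝ) ^ (7 * N) * (1 / 2 : ℝ) ^ (7 * N) = 1 := by
      rw [← mul_pow]; norm_num
    calc (k : ℝ) * k * 2 * (1 / 2 : ℝ) ^ (7 * N) ≤ 2 ^ (7 * N) * (1 / 2 : ℝ) ^ (7 * N) :=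
          mul_le_mul_of_nonneg_right h8 (by positivity)
      _ = 1 := h9

end Pool.Agent.BC5
end

section
set_option autoImplicit false
set_option linter.unusedSectionVars false
set_option linter.unusedVariables false
open scoped BigOperators Matrix
open Matrix
namespace Pool.Agent.BC5


theorem num_C : ∃ C : ℝ, 1 ≤ C ∧ ∀ (k g m : ℕ) (D : ℝ), 2 ≤ k → k ≤ g →
    (k : ℝ) * Real.exp (C * (Real.sqrt (Real.log k) + Real.log (Real.log g))) ≤ D →
    C * (Real.sqrt (Real.log k) + Real.log (Real.log g)) ≤ m →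
    ∃ N I : ℕ, 96 * I + 128 ≤ N ∧ g < 2 ^ (2 ^ I) ∧ 2560 * N ≤ m ∧
      (k : ℝ) * (2 ^ (61 * N) / D + (1 / 2 : ℝ) ^ (N ^ 2 / 8)) ≤ Real.exp (-Real.sqrt (Real.log k)) := by
  refine ⟨10 ^ 8, by norm_num, ?_⟩
  intro k g m D hk hkg hD hm
  have hkR : (2 : ℝ) ≤ k := by exact_mod_cast hk
  have hgR : (k : ℝ) ≤ g := by exact_mod_cast hkg
  have hk0 : (0 : ℝ) < k := by linarith
  have hg0 : (0 : ℝ) < g := by linarith
  have hl2 : (0.693 : ℝ) ≤ Real.log 2 := by linarith [Real.log_two_gt_d9]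
  have hl2' : Real.log 2 ≤ (0.6932 : ℝ) := by linarith [Real.log_two_lt_d9]
  have hlk : Real.log 2 ≤ Real.log k := Real.log_le_log (by norm_num) hkR
  have hlg : Real.log k ≤ Real.log g := Real.log_le_log hk0 hgR
  set s : ℝ := Real.sqrt (Real.log k) with hs
  have hs2 : s ^ 2 = Real.log k := Real.sq_sqrt (by linarith)
  have hs0 : 0 ≤ s := Real.sqrt_nonneg _
  have hs1 : (0.83 : ℝ) ≤ s := by
    apply Real.le_sqrt_of_sq_le
    norm_num
    linarith
  set L : ℝ := Real.log (Real.log g) with hL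
  have hlg0 : 0 < Real.log g := by linarith
  have hL0 : 1 - (Real.log g)⁻¹ ≤ L := Real.one_sub_inv_le_log_of_pos hlg0
  have hL1 : (-0.4431 : ℝ) ≤ L := by
    have h1 : (Real.log g)⁻¹ ≤ (0.693 : ℝ)⁻¹ := inv_anti₀ (by norm_num) (by linarith)
    have h2 : (0.693 : ℝ)⁻¹ ≤ 1.4431 := by norm_num
    linarith
  have hL2 : 0 ≤ 3 / 4 * s + L := by
    have h1 : (Real.log g)⁻¹ ≤ (s ^ 2)⁻¹ := inv_anti₀ (by positivity) (by linarith)
    have h3 : (s ^ 2)⁻¹ ≤ 3 / 4 * s + 1 := by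
      rw [inv_le_iff_one_le_mul₀ (by positivity)]
      nlinarith
    linarith
  set X : ℝ := s + L with hX
  have hX1 : (0.386 : ℝ) ≤ X := by linarith
  have hX2 : s / 4 ≤ X := by linarith
  -- I
  set l : ℕ := Nat.log 2 g with hl
  have hl1 : 1 ≤ l := Nat.log_pos (by norm_num) (hk.trans hkg)
  set J : ℕ := Nat.log 2 l with hJ
  have hJ1 : 2 ^ J ≤ l := Nat.pow_log_le_self 2 (by omega)
  have hJ2 : l < 2 ^ (J + 1) := Nat.lt_pow_succ_log_self (by norm_num) l
  have hg1 : 2 ^ l ≤ g := Nat.pow_log_le_self 2 (by omega)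
  have hg2 : g < 2 ^ (l + 1) := Nat.lt_pow_succ_log_self (by norm_num) g
  have hlR : (l : ℝ) * Real.log 2 ≤ Real.log g := by
    have h1 : ((2 : ℝ) ^ l) ≤ g := by exact_mod_cast hg1
    have h2 := Real.log_le_log (by positivity) h1
    rwa [Real.log_pow] at h2
  have hJR : (J : ℝ) * Real.log 2 ≤ L + 0.4431 := by
    have h1 : ((2 : ℝ) ^ J) ≤ l := by exact_mod_cast hJ1
    have h2 : ((2 : ℝ) ^ J) * 0.693 ≤ Real.log g := by
      refine le_trans ?_ hlR
      exact mul_le_mul h1 hl2 (by norm_num) (by positivity)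
    have h3 := Real.log_le_log (by positivity) h2
    rw [Real.log_mul (by positivity) (by norm_num), Real.log_pow] at h3
    have h4 : 1 - (0.693 : ℝ)⁻¹ ≤ Real.log 0.693 := Real.one_sub_inv_le_log_of_pos (by norm_num)
    have h5 : (0.693 : ℝ)⁻¹ ≤ 1.4431 := by norm_num
    linarith
  have hJ0 : (0 : ℝ) ≤ J := Nat.cast_nonneg _
  have hJR2 : 0.693 * (J : ℝ) ≤ L + 0.4431 := by nlinarith
  -- N
  set N : ℕ := ⌈(10 : ℝ) ^ 4 * X⌉₊ with hN
  have hN1 : (10 : ℝ) ^ 4 * X ≤ N := Nat.le_ceil _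
  have hN2 : (N : ℝ) < (10 : ℝ) ^ 4 * X + 1 := Nat.ceil_lt_add_one (by positivity)
  have hN0 : (0 : ℝ) ≤ N := Nat.cast_nonneg _
  refine ⟨N, J + 1, ?_, ?_, ?_, ?_⟩
  · have h1 : (96 * ((J : ℝ) + 1) + 128) ≤ N := by
      refine le_trans ?_ hN1
      norm_num
      linarith
    exact_mod_cast h1
  · calc g < 2 ^ (l + 1) := hg2
      _ ≤ 2 ^ (2 ^ (J + 1)) := Nat.pow_le_pow_right (by norm_num) hJ2
  · have h1 : 2560 * (N : ℝ) ≤ m := by
      refine le_trans ?_ hm
      norm_num at hN2 ⊢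
      linarith
    exact_mod_cast h1
  · have hD0 : 0 < D := lt_of_lt_of_le (by positivity) hD
    have hexp : Real.exp (-s - Real.log 2) = Real.exp (-s) / 2 := by
      rw [Real.exp_sub, Real.exp_log (by norm_num)]
    have t1 : (k : ℝ) * (2 ^ (61 * N) / D) ≤ Real.exp (-s) / 2 := by
      have h1 : (k : ℝ) / D ≤ Real.exp (-(10 ^ 8 * X)) := by
        rw [div_le_iff₀ hD0, Real.exp_neg, inv_mul_eq_div, le_div_iff₀ (Real.exp_pos _)]
        exact hD
      have h2 : (2 : ℝ) ^ (61 * N) = Real.exp ((61 * N : ℕ) * Real.log 2) := by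
        rw [Real.exp_nat_mul, Real.exp_log (by norm_num)]
      calc (k : ℝ) * (2 ^ (61 * N) / D) = (k / D) * 2 ^ (61 * N) := by ring
        _ ≤ Real.exp (-(10 ^ 8 * X)) * Real.exp ((61 * N : ℕ) * Real.log 2) := by
          rw [h2]
          exact mul_le_mul_of_nonneg_right h1 (Real.exp_pos _).le
        _ = Real.exp (-(10 ^ 8 * X) + (61 * N : ℕ) * Real.log 2) := by rw [Real.exp_add]
        _ ≤ Real.exp (-s - Real.log 2) := by
          apply Real.exp_le_exp.2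
          push_cast
          have h3 : (61 * (N : ℝ)) * Real.log 2 ≤ (61 * N) * 0.6932 :=
            mul_le_mul_of_nonneg_left hl2' (by positivity)
          norm_num at hN2 ⊢
          linarith
        _ = Real.exp (-s) / 2 := hexp
    have t2 : (k : ℝ) * (1 / 2 : ℝ) ^ (N ^ 2 / 8) ≤ Real.exp (-s) / 2 := by
      set q : ℕ := N ^ 2 / 8 with hq
      have hq1 : N ^ 2 ≤ 8 * q + 8 := by omega
      have hq2 : (N : ℝ) ^ 2 ≤ 8 * q + 8 := by exact_mod_cast hq1
      have h1 : (1 / 2 : ℝ) ^ q = Real.exp (-(q * Real.log 2)) := by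
        rw [Real.exp_neg, Real.exp_nat_mul, Real.exp_log (by norm_num), one_div, inv_pow]
      have h2 : (k : ℝ) = Real.exp (s ^ 2) := by rw [hs2, Real.exp_log hk0]
      have h3 : (10 : ℝ) ^ 8 * (s ^ 2 / 16) ≤ (N : ℝ) ^ 2 := by
        have h4 : (10 : ℝ) ^ 4 * (s / 4) ≤ N := by
          refine le_trans ?_ hN1
          exact mul_le_mul_of_nonneg_left hX2 (by norm_num)
        have h5 := pow_le_pow_left₀ (by positivity) h4 2
        calc (10 : ℝ) ^ 8 * (s ^ 2 / 16) = ((10 : ℝ) ^ 4 * (s / 4)) ^ 2 := by ring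
          _ ≤ _ := h5
      have h6 : (q : ℝ) * 0.693 ≤ q * Real.log 2 := mul_le_mul_of_nonneg_left hl2 (Nat.cast_nonneg _)
      calc (k : ℝ) * (1 / 2 : ℝ) ^ q = Real.exp (s ^ 2 - q * Real.log 2) := by
            rw [h1, h2, ← Real.exp_add]; rfl
        _ ≤ Real.exp (-s - Real.log 2) := by
          apply Real.exp_le_exp.2
          norm_num at h3
          nlinarith
        _ = Real.exp (-s) / 2 := hexp
    calc (k : ℝ) * (2 ^ (61 * N) / D + (1 / 2 : ℝ) ^ (N ^ 2 / 8))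
        = (k : ℝ) * (2 ^ (61 * N) / D) + (k : ℝ) * (1 / 2 : ℝ) ^ (N ^ 2 / 8) := by ring
      _ ≤ Real.exp (-s) / 2 + Real.exp (-s) / 2 := add_le_add t1 t2
      _ = Real.exp (-s) := by ring

end Pool.Agent.BC5
end

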