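import Pool.Agent.Lib.MP_bc5a73_al.Regular

section
set_option autoImplicit false
set_option linter.unusedSectionVars false
set_option linter.unusedVariables false
open scoped BigOperators Matrix
open Matrix
namespace Pool.Agent.BC5

/-- The alternating group on `Fin n`. -/
abbrev Alt (n : ℕ) : Type := ↥(alternatingGroup (Fin n))

/-- The even permutations fixing all points outside `Y`. -/
def AY {n : ℕ} (Y : Finset (Fin n)) : Finset (Alt n) :=
  Finset.univ.filter (fun σ => ∀ x, x ∉ Y → (σ : Equiv.Perm (Fin n)) x = x)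

/-- The image of a set of points. -/
def img {n : ℕ} (g : Alt n) (Y : Finset (Fin n)) : Finset (Fin n) :=
  Y.image (fun x => (g : Equiv.Perm (Fin n)) x)

/-- The number of fixed points. -/
def fixc {n : ℕ} (g : Alt n) : ℕ :=
  (Finset.univ.filter (fun x : Fin n => (g : Equiv.Perm (Fin n)) x = x)).card

/-- The block `E` has level at most `k`. -/
def LevLe {n : ℕ} (k : ℕ) (E : Matrix (Alt n) (Alt n) ℝ) : Prop :=
  ∃ Y : Finset (Fin n), n ≤ Y.card + k ∧ avL (AY Y) * E ≠ 0

/-- Ordered triples of distinct points of `X`. -/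
def trip {n : ℕ} (X : Finset (Fin n)) : Finset (Fin n × Fin n × Fin n) :=
  (X ×ˢ X ×ˢ X).filter (fun t => t.1 ≠ t.2.1 ∧ t.1 ≠ t.2.2 ∧ t.2.1 ≠ t.2.2)

/-- The three-cycle `x → y → z → x` (the identity if the points are not distinct). -/
def cyc {n : ℕ} (t : Fin n × Fin n × Fin n) : Alt n :=
  if h : t.1 ≠ t.2.1 ∧ t.1 ≠ t.2.2 ∧ t.2.1 ≠ t.2.2 then
    ⟨Equiv.swap t.1 t.2.1 * Equiv.swap t.2.1 t.2.2, by
      rw [Equiv.Perm.mem_alternatingGroup, Equiv.Perm.sign_mul, Equiv.Perm.sign_swap h.1,
        Equiv.Perm.sign_swap h.2.2]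
      norm_num⟩
  else 1

/-- The average of the left translations by the three-cycles in `X`. -/
noncomputable def Delta {n : ℕ} (X : Finset (Fin n)) : Matrix (Alt n) (Alt n) ℝ :=
  (((trip X).card : ℝ))⁻¹ • ∑ t ∈ trip X, Lm (cyc t)

theorem mem_AY {n : ℕ} (Y : Finset (Fin n)) (σ : Alt n) :
    σ ∈ AY Y ↔ ∀ x, x ∉ Y → (σ : Equiv.Perm (Fin n)) x = x := by
  simp [AY]

theorem mem_trip {n : ℕ} (X : Finset (Fin n)) (t : Fin n × Fin n × Fin n) :
    t ∈ trip X ↔ (t.1 ∈ X ∧ t.2.1 ∈ X ∧ t.2.2 ∈ X) ∧ t.1 ≠ t.2.1 ∧ t.1 ≠ t.2.2 ∧ t.2.1 ≠ t.2.2 := by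
  simp [trip, Finset.mem_product]

theorem AY_isGrp {n : ℕ} (Y : Finset (Fin n)) : IsGrp (AY Y) := by
  refine ⟨by simp [mem_AY], ?_, ?_⟩
  · intro a ha b hb
    rw [mem_AY] at *
    intro x hx
    rw [Subgroup.coe_mul, Equiv.Perm.mul_apply, hb x hx, ha x hx]
  · intro a ha
    rw [mem_AY] at *
    intro x hx
    rw [Subgroup.coe_inv, Equiv.Perm.inv_eq_iff_eq]
    exact (ha x hx).symm

theorem AY_mono {n : ℕ} {Y Z : Finset (Fin n)} (h : Y ⊆ Z) : AY Y ⊆ AY Z := by
  intro a ha
  rw [mem_AY] at *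
  exact fun x hx => ha x (fun h' => hx (h h'))

theorem AY_univ (n : ℕ) : AY (Finset.univ : Finset (Fin n)) = Finset.univ := by
  ext a; simp [mem_AY]

theorem LevLe.mono {n k l : ℕ} {E : Matrix (Alt n) (Alt n) ℝ} (h : LevLe k E) (hkl : k ≤ l) : LevLe l E := by
  obtain ⟨Y, h1, h2⟩ := h
  exact ⟨Y, by omega, h2⟩

theorem avL_mul_eq_zero_of_not_levLe {n k : ℕ} {E : Matrix (Alt n) (Alt n) ℝ} (h : ¬ LevLe k E)
    (Y : Finset (Fin n)) (hY : n ≤ Y.card + k) : avL (AY Y) * E = 0 := by
  by_contra h'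
  exact h ⟨Y, hY, h'⟩

end Pool.Agent.BC5
end

section
set_option autoImplicit false
set_option linter.unusedSectionVars false
set_option linter.unusedVariables false
open scoped BigOperators Matrix
open Matrix
namespace Pool.Agent.BC5

/-
ROW B1. exists_mem_AY: there is a permutation σ of Fin n with σ (u i) = v i, supported in Y (extend the bijection range u → range v to a bijection of Y: Equiv.extendSubtype / Equiv.Perm.ofSubtype on {x // x ∈ Y}, Y \ range u and Y \ range v have the same size). If σ is odd,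
compose with a transposition of two points of Y \ range u (at least 2 points): σ * swap p q. AY_eq_of_card_le_two: an even permutation supported in ≤ 2 points is 1 (an element of the support pairs with the other point: it would be swap, odd).
-/

variable {n : ℕ}

/-- Paper 6.1: multiple transitivity of `A_Y` on `Y`. -/
theorem exists_mem_AY (Y : Finset (Fin n)) {I : Type} [Fintype I] (u v : I → Fin n) (hu : Function.Injective u)
    (hv : Function.Injective v) (huY : ∀ i, u i ∈ Y) (hvY : ∀ i, v i ∈ Y) (hc : Fintype.card I + 2 ≤ Y.card) :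
    ∃ a ∈ AY Y, ∀ i, (a : Equiv.Perm (Fin n)) (u i) = v i := by
  classical
  set u' : I → {x // x ∈ Y} := fun i => ⟨u i, huY i⟩ with hu'
  set v' : I → {x // x ∈ Y} := fun i => ⟨v i, hvY i⟩ with hv'
  have hui : Function.Injective u' := fun i j h => hu (congrArg Subtype.val h)
  have hvi : Function.Injective v' := fun i j h => hv (congrArg Subtype.val h)
  set e : {x // x ∈ Set.range u'} ≃ {x // x ∈ Set.range v'} :=
    (Equiv.ofInjective u' hui).symm.trans (Equiv.ofInjective v' hvi) with he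
  set τ : Equiv.Perm {x // x ∈ Y} := e.extendSubtype with hτ
  have hτu : ∀ i, τ (u' i) = v' i := by
    intro i
    have hm : u' i ∈ Set.range u' := ⟨i, rfl⟩
    have h1 := Equiv.extendSubtype_apply_of_mem e (u' i) hm
    rw [hτ, h1, he]
    have h2 : (Equiv.ofInjective u' hui).symm ⟨u' i, hm⟩ = i := by
      rw [Equiv.symm_apply_eq]
      rfl
    rw [Equiv.trans_apply, h2]
    rfl
  set σ : Equiv.Perm (Fin n) := Equiv.Perm.ofSubtype τ with hσ
  have hσu : ∀ i, σ (u i) = v i := by
    intro i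
    rw [hσ, Equiv.Perm.ofSubtype_apply_of_mem τ (huY i)]
    have := hτu i
    rw [hu'] at this
    simp only at this
    rw [this]
  have hσY : ∀ x, x ∉ Y → σ x = x := fun x hx => Equiv.Perm.ofSubtype_apply_of_not_mem τ hx
  rcases Int.units_eq_one_or (Equiv.Perm.sign σ) with h1 | h1
  · refine ⟨⟨σ, (Equiv.Perm.mem_alternatingGroup).mpr h1⟩, ?_, hσu⟩
    rw [mem_AY]
    exact hσY
  · have hcard : 2 ≤ (Y \ Finset.univ.image u).card := by
      have h2 := Finset.le_card_sdiff (Finset.univ.image u) Y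
      have h3 : (Finset.univ.image u).card = Fintype.card I := by
        rw [Finset.card_image_of_injective _ hu, Finset.card_univ]
      omega
    obtain ⟨p, hp, q, hq, hpq⟩ := Finset.one_lt_card.mp (by omega : 1 < (Y \ Finset.univ.image u).card)
    rw [Finset.mem_sdiff, Finset.mem_image] at hp hq
    have hs : Equiv.Perm.sign (σ * Equiv.swap p q) = 1 := by
      rw [Equiv.Perm.sign_mul, h1, Equiv.Perm.sign_swap hpq]
      norm_num
    refine ⟨⟨σ * Equiv.swap p q, (Equiv.Perm.mem_alternatingGroup).mpr hs⟩, ?_, ?_⟩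
    · rw [mem_AY]
      intro x hx
      have hxp : x ≠ p := fun h => hx (h ▸ hp.1)
      have hxq : x ≠ q := fun h => hx (h ▸ hq.1)
      show (σ * Equiv.swap p q) x = x
      rw [Equiv.Perm.mul_apply, Equiv.swap_apply_of_ne_of_ne hxp hxq, hσY x hx]
    · intro i
      have hxp : u i ≠ p := fun h => hp.2 ⟨i, Finset.mem_univ _, h⟩
      have hxq : u i ≠ q := fun h => hq.2 ⟨i, Finset.mem_univ _, h⟩
      show (σ * Equiv.swap p q) (u i) = v i
      rw [Equiv.Perm.mul_apply, Equiv.swap_apply_of_ne_of_ne hxp hxq, hσu i]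

theorem AY_eq_of_card_le_two (Y : Finset (Fin n)) (h : Y.card ≤ 2) : AY Y = {1} := by
  classical
  ext a
  rw [mem_AY, Finset.mem_singleton]
  constructor
  · intro ha
    by_contra hne
    have hne' : (a : Equiv.Perm (Fin n)) ≠ 1 := fun h' => hne (Subtype.ext h')
    have hsupp : (a : Equiv.Perm (Fin n)).support ⊆ Y := by
      intro x hx
      by_contra hxY
      exact (Equiv.Perm.mem_support.mp hx) (ha x hxY)
    have hc : (a : Equiv.Perm (Fin n)).support.card ≤ 2 := (Finset.card_le_card hsupp).trans h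
    have hc2 : 2 ≤ (a : Equiv.Perm (Fin n)).support.card := by
      have h0 : (a : Equiv.Perm (Fin n)).support.card ≠ 0 := by
        intro h0
        exact hne' (Equiv.Perm.card_support_eq_zero.mp h0)
      have h1 : (a : Equiv.Perm (Fin n)).support.card ≠ 1 := Equiv.Perm.card_support_ne_one _
      omega
    have hsw : (a : Equiv.Perm (Fin n)).IsSwap := Equiv.Perm.card_support_eq_two.mp (le_antisymm hc hc2)
    obtain ⟨x, y, hxy, hswap⟩ := hsw
    have hsign := (Equiv.Perm.mem_alternatingGroup).mp a.2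
    rw [hswap, Equiv.Perm.sign_swap hxy] at hsign
    exact absurd hsign (by decide)
  · rintro rfl x _
    rfl

end Pool.Agent.BC5
end

section
set_option autoImplicit false
set_option linter.unusedSectionVars false
set_option linter.unusedVariables false
open scoped BigOperators Matrix
open Matrix
namespace Pool.Agent.BC5

/-
ROW B2. exists_img_eq: if card Y + 2 ≤ n apply exists_mem_AY with Y := univ, u v := the enumerations of Y and Y' (I = Fin (card Y)); else card Yᶜ ≤ 1 and card Yᶜ + 2 ≤ n: apply it to the complements. Lm_conj_avL: Lm a Lm h Lm a⁻¹ = Lm (a h a⁻¹), h ↦ a h a⁻¹ is a bijection AY Y → AY (img a Y).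
-/

variable {n : ℕ}

private theorem mem_img (a : Alt n) (Y : Finset (Fin n)) (x : Fin n) :
    x ∈ img a Y ↔ ((a : Equiv.Perm (Fin n))⁻¹ : Equiv.Perm (Fin n)) x ∈ Y := by
  unfold img
  rw [Finset.mem_image]
  constructor
  · rintro ⟨y, hy, rfl⟩
    simpa using hy
  · intro h
    exact ⟨_, h, by simp⟩

private theorem exists_img_eq_aux (Y Y' : Finset (Fin n)) (h : Y.card = Y'.card) (hc : Y.card + 2 ≤ n) :
    ∃ a : Alt n, img a Y = Y' := by
  obtain ⟨a, -, ha⟩ := exists_mem_AY (Finset.univ : Finset (Fin n)) (I := Fin Y.card)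
    (fun i => (Y.equivFin.symm i : Fin n)) (fun i => (Y'.equivFin.symm (Fin.cast h i) : Fin n))
    (fun i j hij => Y.equivFin.symm.injective (Subtype.ext hij))
    (fun i j hij => (Fin.cast_injective h) (Y'.equivFin.symm.injective (Subtype.ext hij)))
    (fun i => Finset.mem_univ _) (fun i => Finset.mem_univ _) (by simpa using hc)
  refine ⟨a, ?_⟩
  apply Finset.eq_of_subset_of_card_le
  · intro y hy
    unfold img at hy
    rw [Finset.mem_image] at hy
    obtain ⟨x, hx, rfl⟩ := hy
    have h1 := ha (Y.equivFin ⟨x, hx⟩)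
    simp only [Equiv.symm_apply_apply] at h1
    rw [h1]
    exact Subtype.coe_prop _
  · unfold img
    rw [Finset.card_image_of_injective _ (a : Equiv.Perm (Fin n)).injective, h]

/-- Paper 6.1: sets of the same size are conjugate. -/
theorem exists_img_eq (hn : 3 ≤ n) (Y Y' : Finset (Fin n)) (h : Y.card = Y'.card) : ∃ a : Alt n, img a Y = Y' := by
  by_cases hc : Y.card + 2 ≤ n
  · exact exists_img_eq_aux Y Y' h hc
  · have hY : Yᶜ.card = n - Y.card := by rw [Finset.card_compl, Fintype.card_fin]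
    have hY' : Y'ᶜ.card = n - Y'.card := by rw [Finset.card_compl, Fintype.card_fin]
    obtain ⟨a, ha⟩ := exists_img_eq_aux Yᶜ Y'ᶜ (by rw [hY, hY', h]) (by omega)
    refine ⟨a, ?_⟩
    ext x
    have h1 : x ∈ img a Yᶜ ↔ x ∈ Y'ᶜ := by rw [ha]
    rw [mem_img, Finset.mem_compl, Finset.mem_compl] at h1
    rw [mem_img]
    exact not_iff_not.1 h1

theorem Lm_conj_avL (a : Alt n) (Y : Finset (Fin n)) : Lm a * avL (AY Y) * Lm a⁻¹ = avL (AY (img a Y)) := by
  have hinj : Function.Injective (fun h : Alt n => a * h * a⁻¹) := by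
    intro x y hxy
    simpa using hxy
  have hS : AY (img a Y) = (AY Y).image (fun h => a * h * a⁻¹) := by
    ext σ
    rw [Finset.mem_image]
    constructor
    · intro hσ
      refine ⟨a⁻¹ * σ * a, ?_, by group⟩
      rw [mem_AY] at hσ ⊢
      intro x hx
      have h1 : (a : Equiv.Perm (Fin n)) x ∉ img a Y := by
        rw [mem_img]
        simpa using hx
      have h2 := hσ _ h1
      simp only [Subgroup.coe_mul, Subgroup.coe_inv, Equiv.Perm.mul_apply]
      rw [h2]
      simp
    · rintro ⟨h, hh, rfl⟩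
      rw [mem_AY] at hh ⊢
      intro x hx
      rw [mem_img] at hx
      have h1 := hh _ hx
      simp only [Subgroup.coe_mul, Subgroup.coe_inv, Equiv.Perm.mul_apply]
      rw [h1]
      simp
  unfold avL
  rw [hS, Finset.card_image_of_injective _ hinj, Finset.sum_image (fun x _ y _ hxy => hinj hxy), Matrix.mul_smul,
    Matrix.smul_mul, Matrix.mul_sum, Matrix.sum_mul]
  congr 1
  refine Finset.sum_congr rfl fun h _ => ?_
  rw [Lm_mul, Lm_mul]

end Pool.Agent.BC5
end

section
set_option autoImplicit false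
set_option linter.unusedSectionVars false
set_option linter.unusedVariables false
open scoped BigOperators Matrix
open Matrix
namespace Pool.Agent.BC5

/-
ROW B3. card_maps_into: the filter is the disjoint union over the injections u : {x // x ∈ I} → Fin n with values in B of {s ∈ AY R : s x = u x on I}; by exists_mem_AY (Y := R) this set is nonempty and a coset s0 * AY (R \ I) (s0⁻¹ s fixes I pointwise and everything outside R). The number of injections I ↪ B is
descFactorial (Fintype.card_embedding_eq). E.g. Finset.card_eq_sum_card_fiberwise or card of the image of a product. card_alt_div: R = univ, I = univ \ Y, B = univ: the filter is everything; n.descFactorial k * card (AY Y) = card (Alt n).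
-/

variable {n : ℕ}

/-- Number of elements of `A_R` extending a given injection of `I` into `B ⊆ R`. -/
theorem B3_fiber (R I B : Finset (Fin n)) (hI : I ⊆ R) (hB : B ⊆ R) (hc : I.card + 2 ≤ R.card) (u : I ↪ B) :
    ((AY R).filter (fun s : Alt n => ∀ x : I, (s : Equiv.Perm (Fin n)) x = u x)).card = (AY (R \ I)).card := by
  obtain ⟨s0, hs0, h0⟩ := exists_mem_AY R (I := I) (fun i => (i : Fin n)) (fun i => (u i : Fin n))
    Subtype.val_injective (fun a b h => u.injective (Subtype.ext h)) (fun i => hI i.2) (fun i => hB (u i).2)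
    (by simpa using hc)
  symm
  apply Finset.card_bij (fun (t : Alt n) _ => s0 * t)
  · intro t ht
    rw [mem_AY] at ht
    rw [Finset.mem_filter]
    refine ⟨(AY_isGrp R).mul _ hs0 _ ?_, ?_⟩
    · rw [mem_AY]
      intro x hx
      exact ht x (fun h => hx (Finset.mem_sdiff.mp h).1)
    · intro x
      rw [Subgroup.coe_mul, Equiv.Perm.mul_apply, ht x (fun h => (Finset.mem_sdiff.mp h).2 x.2), h0 x]
  · intro t _ t' _ h
    exact mul_left_cancel h
  · intro s hs
    rw [Finset.mem_filter, mem_AY] at hs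
    rw [mem_AY] at hs0
    refine ⟨s0⁻¹ * s, ?_, by group⟩
    rw [mem_AY]
    intro x hx
    rw [Subgroup.coe_mul, Equiv.Perm.mul_apply, Subgroup.coe_inv, Equiv.Perm.inv_eq_iff_eq]
    by_cases hxI : x ∈ I
    · rw [hs.2 ⟨x, hxI⟩, h0 ⟨x, hxI⟩]
    · have hxR : x ∉ R := fun h => hx (Finset.mem_sdiff.mpr ⟨h, hxI⟩)
      rw [hs.1 x hxR, hs0 x hxR]

/-- Paper 6.1/7: number of the elements of `A_R` mapping `I` into `B`. -/
theorem card_maps_into (R I B : Finset (Fin n)) (hI : I ⊆ R) (hB : B ⊆ R) (hc : I.card + 2 ≤ R.card) :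
    ((AY R).filter (fun s : Alt n => ∀ x ∈ I, (s : Equiv.Perm (Fin n)) x ∈ B)).card
      = B.card.descFactorial I.card * (AY (R \ I)).card := by
  classical
  have h1 : ((AY R).filter (fun s : Alt n => ∀ x ∈ I, (s : Equiv.Perm (Fin n)) x ∈ B))
      = (Finset.univ : Finset (I ↪ B)).biUnion (fun u =>
        (AY R).filter (fun s : Alt n => ∀ x : I, (s : Equiv.Perm (Fin n)) x = u x)) := by
    ext s
    simp only [Finset.mem_filter, Finset.mem_biUnion, Finset.mem_univ, true_and]
    constructor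
    · rintro ⟨h, h'⟩
      exact ⟨⟨fun x => ⟨(s : Equiv.Perm (Fin n)) x, h' x x.2⟩, fun x y hxy =>
        Subtype.ext ((s : Equiv.Perm (Fin n)).injective (congrArg Subtype.val hxy))⟩, h, fun x => rfl⟩
    · rintro ⟨u, h, h'⟩
      exact ⟨h, fun x hx => by rw [h' ⟨x, hx⟩]; exact (u _).2⟩
  rw [h1, Finset.card_biUnion]
  · rw [Finset.sum_congr rfl (fun u _ => B3_fiber R I B hI hB hc u), Finset.sum_const, smul_eq_mul,
      Finset.card_univ, Fintype.card_embedding_eq]
    simp
  · intro u _ v _ huv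
    rw [Function.onFun, Finset.disjoint_left]
    intro s hs hs'
    rw [Finset.mem_filter] at hs hs'
    apply huv
    ext x
    have := (hs.2 x).symm.trans (hs'.2 x)
    rw [this]

/-- Paper 6.1: the index of `A_Y`. -/
theorem card_alt_div (Y : Finset (Fin n)) (k : ℕ) (hY : Y.card + k = n) (hk : k + 2 ≤ n) :
    (Fintype.card (Alt n) : ℝ) / ((AY Y).card : ℝ) = (n.descFactorial k : ℝ) := by
  have hI : (Finset.univ \ Y).card = k := by
    rw [Finset.card_univ_sdiff, Fintype.card_fin]; omega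
  have h := card_maps_into (Finset.univ : Finset (Fin n)) (Finset.univ \ Y) Finset.univ (Finset.subset_univ _)
    (Finset.subset_univ _) (by rw [hI, Finset.card_univ, Fintype.card_fin]; exact hk)
  have h2 : (Finset.univ : Finset (Fin n)) \ (Finset.univ \ Y) = Y := by
    ext x; simp
  rw [h2, hI, Finset.card_univ (α := Fin n), Fintype.card_fin, AY_univ, Finset.filter_true_of_mem (by simp),
    Finset.card_univ] at h
  have hpos : ((AY Y).card : ℝ) ≠ 0 := by
    have : (AY Y).Nonempty := ⟨1, (AY_isGrp Y).one⟩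
    exact_mod_cast this.card_pos.ne'
  rw [div_eq_iff hpos, h]
  push_cast
  ring

end Pool.Agent.BC5
end

section
set_option autoImplicit false
set_option linter.unusedSectionVars false
set_option linter.unusedVariables false
open scoped BigOperators Matrix
open Matrix
namespace Pool.Agent.BC5

/-
ROW B4. levLe_of_ge: Y with 2 points: AY Y = {1}, avL = 1. avL_mul_ne_zero: h gives Z with n ≤ card Z + k, avL(AY Z)*E ≠ 0; card Y ≤ n-k ≤ card Z: take Z' ⊆ Z with card Z' = card Y: avL(AY Z)*avL(AY Z') = avL(AY Z) (avL_mul_avL_of_subset), so avL(AY Z')*E ≠ 0; a with img a Z' = Y, Lm_conj_avL, E commutes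
with Lm a. eq_Jm: Z = univ, AY univ = univ, avL univ = Jm (Jm_eq_avg_Lm), block_eq_or_mul_eq_zero with Jm_isBlock.
-/

variable {n : ℕ}

/-- Paper 6.2. -/
theorem levLe_of_ge {E : Matrix (Alt n) (Alt n) ℝ} (hE : E ≠ 0) (k : ℕ) (hk : n ≤ k + 2) (hn : 2 ≤ n) : LevLe k E := by
  obtain ⟨Y, -, hY⟩ := Finset.exists_subset_card_eq (s := (Finset.univ : Finset (Fin n))) (n := 2)
    (by rw [Finset.card_univ, Fintype.card_fin]; exact hn)
  refine ⟨Y, by omega, ?_⟩
  rw [AY_eq_of_card_le_two Y hY.le]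
  have h1 : avL ({1} : Finset (Alt n)) = 1 := by
    unfold avL
    simp [Lm_one]
  rw [h1, Matrix.one_mul]
  exact hE

/-- Paper 6.2. -/
theorem avL_mul_ne_zero_of_levLe (hn : 3 ≤ n) {k : ℕ} {E : Matrix (Alt n) (Alt n) ℝ} (hE : IsBlock E)
    (h : LevLe k E) (Y : Finset (Fin n)) (hY : Y.card + k ≤ n) : avL (AY Y) * E ≠ 0 := by
  obtain ⟨Z, h1, h2⟩ := h
  obtain ⟨Z', hZ', hc⟩ := Finset.exists_subset_card_eq (s := Z) (n := Y.card) (by omega)
  obtain ⟨a, ha⟩ := exists_img_eq hn Z' Y hc
  intro h0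
  have hconj := Lm_conj_avL a Z'
  rw [ha] at hconj
  rw [← hconj] at h0
  have h3 : Lm a * (avL (AY Z') * E) * Lm a⁻¹ = 0 := by
    have e : Lm a * (avL (AY Z') * E) * Lm a⁻¹ = Lm a * avL (AY Z') * (E * Lm a⁻¹) := by
      noncomm_ring
    rw [e, (hE.2.1 a⁻¹).eq]
    have e2 : Lm a * avL (AY Z') * (Lm a⁻¹ * E) = Lm a * avL (AY Z') * Lm a⁻¹ * E := by
      noncomm_ring
    rw [e2, h0]
  have h4 : avL (AY Z') * E = 0 := by
    calc avL (AY Z') * E = (Lm a⁻¹ * Lm a) * (avL (AY Z') * E) * (Lm a⁻¹ * Lm a) := by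
          rw [Lm_inv_mul, Matrix.one_mul, Matrix.mul_one]
      _ = Lm a⁻¹ * (Lm a * (avL (AY Z') * E) * Lm a⁻¹) * Lm a := by noncomm_ring
      _ = 0 := by rw [h3, Matrix.mul_zero, Matrix.zero_mul]
  refine h2 ?_
  have h5 := (avL_mul_avL_of_subset (AY_isGrp Z') (AY_isGrp Z) (AY_mono hZ')).1
  rw [← h5, Matrix.mul_assoc, h4, Matrix.mul_zero]

/-- Paper 6.4. -/
theorem eq_Jm_of_levLe_zero {E : Matrix (Alt n) (Alt n) ℝ} (hE : IsBlock E) (h : LevLe 0 E) : E = Jm (Alt n) := by
  obtain ⟨Y, h1, h2⟩ := h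
  have hY : Y = Finset.univ := by
    apply (Finset.card_eq_iff_eq_univ Y).1
    rw [Fintype.card_fin]
    refine le_antisymm ?_ (by omega)
    have := Finset.card_le_univ Y
    rwa [Fintype.card_fin] at this
  rw [hY, AY_univ] at h2
  have h3 : avL (Finset.univ : Finset (Alt n)) = Jm (Alt n) := by
    rw [Jm_eq_avg_Lm]
    unfold avL avg
    rw [Finset.card_univ]
  rw [h3] at h2
  rcases block_eq_or_mul_eq_zero (Jm_isBlock (G := Alt n)) hE with h4 | h4
  · exact h4.symm
  · exact absurd h4 h2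

end Pool.Agent.BC5
end

section
set_option autoImplicit false
set_option linter.unusedSectionVars false
set_option linter.unusedVariables false
open scoped BigOperators Matrix
open Matrix
namespace Pool.Agent.BC5

/-
ROW B5. Paper 6.3. If k + 2 ≤ n: Y with card n-k, block_card_le/block_trace_le with S = AY Y, card_alt_div, descFactorial ≤ n^k (Nat.descFactorial_le_pow). If k + 2 > n: the same with k0 = n-2 (LevLe (n-2) by levLe_of_ge), n^(n-2) ≤ n^k.
-/

variable {n : ℕ}

theorem B5_card_le (hn : 3 ≤ n) (k : ℕ) (hk : k + 2 ≤ n) (B : Finset (Matrix (Alt n) (Alt n) ℝ))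
    (hB : ∀ E ∈ B, IsBlock E ∧ LevLe k E) : (B.card : ℝ) ≤ (n : ℝ) ^ k := by
  obtain ⟨Y, _, hY⟩ := Finset.exists_subset_card_eq (s := (Finset.univ : Finset (Fin n))) (n := n - k)
    (by simp)
  have hYk : Y.card + k = n := by omega
  have h1 := block_card_le (AY_isGrp Y) B (fun E hE =>
    ⟨(hB E hE).1, avL_mul_ne_zero_of_levLe hn (hB E hE).1 (hB E hE).2 Y hYk.le⟩)
  rw [card_alt_div Y k hYk hk] at h1
  refine h1.trans ?_
  exact_mod_cast Nat.descFactorial_le_pow n k

theorem B5_trace_le (hn : 3 ≤ n) (k : ℕ) (hk : k + 2 ≤ n) {E : Matrix (Alt n) (Alt n) ℝ} (hE : IsBlock E)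
    (h : LevLe k E) : E.trace ≤ (n : ℝ) ^ (2 * k) := by
  obtain ⟨Y, _, hY⟩ := Finset.exists_subset_card_eq (s := (Finset.univ : Finset (Fin n))) (n := n - k)
    (by simp)
  have hYk : Y.card + k = n := by omega
  have h1 := block_trace_le hE (AY_isGrp Y) (avL_mul_ne_zero_of_levLe hn hE h Y hYk.le)
  rw [card_alt_div Y k hYk hk] at h1
  refine h1.trans ?_
  rw [mul_comm 2 k, pow_mul]
  have h2 : (n.descFactorial k : ℝ) ≤ (n : ℝ) ^ k := by exact_mod_cast Nat.descFactorial_le_pow n k
  exact pow_le_pow_left₀ (Nat.cast_nonneg _) h2 2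

/-- Paper 6.3: number of blocks of level at most `k`. -/
theorem levLe_card_le (hn : 3 ≤ n) (k : ℕ) (hk : 1 ≤ k) (B : Finset (Matrix (Alt n) (Alt n) ℝ))
    (hB : ∀ E ∈ B, IsBlock E ∧ LevLe k E) : (B.card : ℝ) ≤ (n : ℝ) ^ k := by
  rcases Nat.lt_or_ge n (k + 2) with h | h
  · have h1 := B5_card_le hn (n - 2) (by omega) B (fun E hE =>
      ⟨(hB E hE).1, levLe_of_ge (hB E hE).1.2.2.2.1 (n - 2) (by omega) (by omega)⟩)
    refine h1.trans (pow_le_pow_right₀ ?_ (by omega))
    exact_mod_cast (by omega : 1 ≤ n)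
  · exact B5_card_le hn k h B hB

/-- Paper 6.3: size of the blocks of level at most `k`. -/
theorem levLe_trace_le (hn : 3 ≤ n) (k : ℕ) (hk : 1 ≤ k) {E : Matrix (Alt n) (Alt n) ℝ} (hE : IsBlock E)
    (h : LevLe k E) : E.trace ≤ (n : ℝ) ^ (2 * k) := by
  rcases Nat.lt_or_ge n (k + 2) with h' | h'
  · have h1 := B5_trace_le hn (n - 2) (by omega) hE
      (levLe_of_ge hE.2.2.2.1 (n - 2) (by omega) (by omega))
    refine h1.trans (pow_le_pow_right₀ ?_ (by omega))
    exact_mod_cast (by omega : 1 ≤ n)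
  · exact B5_trace_le hn k h' hE h

end Pool.Agent.BC5
end

section
set_option autoImplicit false
set_option linter.unusedSectionVars false
set_option linter.unusedVariables false
open scoped BigOperators Matrix
open Matrix
namespace Pool.Agent.BC5

/-
ROW B6. Paper 6.5. trace(Lm h * Rm g) = #{x : x*g*x⁻¹ = h} (entry (x,x) of Lm h * Rm g: ((Lm h * Rm g) f)(x) = f(h⁻¹*x*g)). Sum over h ∈ AY Y: #{x : x g x⁻¹ ∈ AY Y} = #{x : x⁻¹ maps univ \ Y into the fixed point set of g} = (x ↦ x⁻¹) card_maps_into with R = univ, I = univ \ Y, B = fixed points: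
= (fixc g).descFactorial k * card(AY Y).
-/

variable {n : ℕ}

theorem B6_entry {G : Type} [Group G] [Fintype G] [DecidableEq G] (h g x y : G) :
    (Lm h * Rm g) x y = if y = h⁻¹ * x * g then (1 : ℝ) else 0 := by
  rw [Matrix.mul_apply]
  simp only [Lm, Rm, Matrix.of_apply, ite_mul, one_mul, zero_mul]
  rw [Finset.sum_ite_eq']
  simp

theorem B6_trace {G : Type} [Group G] [Fintype G] [DecidableEq G] (h g : G) :
    (Lm h * Rm g).trace = ∑ s : G, if s⁻¹ * g * s = h then (1 : ℝ) else 0 := by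
  have h1 : (Lm h * Rm g).trace = ∑ x : G, if x * g * x⁻¹ = h then (1 : ℝ) else 0 := by
    unfold Matrix.trace
    refine Finset.sum_congr rfl fun x _ => ?_
    rw [Matrix.diag_apply, B6_entry]
    refine if_congr ?_ rfl rfl
    constructor
    · intro e
      have e2 : h * x = x * g := by
        calc h * x = h * (h⁻¹ * x * g) := by rw [← e]
          _ = x * g := by group
      rw [← e2]
      group
    · intro e
      rw [← e]
      group
  rw [h1, ← Equiv.sum_comp (Equiv.inv G)]
  refine Finset.sum_congr rfl fun s _ => ?_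
  rw [Equiv.inv_apply, inv_inv]

/-- Paper 6.5. -/
theorem trace_avL_mul_Rm (Y : Finset (Fin n)) (k : ℕ) (hY : Y.card + k = n) (hk : k + 2 ≤ n) (g : Alt n) :
    (avL (AY Y) * Rm g).trace = ((fixc g).descFactorial k : ℝ) := by
  have hI : (Finset.univ \ Y : Finset (Fin n)).card = k := by
    rw [Finset.card_sdiff_of_subset (Finset.subset_univ _), Finset.card_univ, Fintype.card_fin]
    omega
  have hYY : Finset.univ \ (Finset.univ \ Y : Finset (Fin n)) = Y := by
    ext x
    simp
  have hmain := card_maps_into (n := n) Finset.univ (Finset.univ \ Y)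
    (Finset.univ.filter (fun x : Fin n => (g : Equiv.Perm (Fin n)) x = x)) (Finset.subset_univ _)
    (Finset.subset_univ _) (by rw [hI, Finset.card_univ, Fintype.card_fin]; exact hk)
  rw [hI, hYY, AY_univ] at hmain
  have hset : (Finset.univ.filter (fun s : Alt n => s⁻¹ * g * s ∈ AY Y)) =
      Finset.univ.filter (fun s : Alt n => ∀ x ∈ Finset.univ \ Y, (s : Equiv.Perm (Fin n)) x ∈
        Finset.univ.filter (fun x : Fin n => (g : Equiv.Perm (Fin n)) x = x)) := by
    ext s
    simp only [Finset.mem_filter, Finset.mem_univ, true_and, Finset.mem_sdiff]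
    rw [mem_AY]
    refine forall_congr' fun x => imp_congr_right fun _ => ?_
    rw [Subgroup.coe_mul, Subgroup.coe_mul, Subgroup.coe_inv, Equiv.Perm.mul_apply,
      Equiv.Perm.mul_apply, Equiv.Perm.inv_eq_iff_eq]
  have hpos : ((AY Y).card : ℝ) ≠ 0 := by
    have : (AY Y).card ≠ 0 := Finset.card_ne_zero_of_mem (AY_isGrp Y).one
    exact_mod_cast this
  have hsum : (∑ h ∈ AY Y, (Lm h * Rm g).trace) =
      (((fixc g).descFactorial k * (AY Y).card : ℕ) : ℝ) := by
    rw [← show (Finset.univ.filter (fun s : Alt n => s⁻¹ * g * s ∈ AY Y)).card =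
      (fixc g).descFactorial k * (AY Y).card from by rw [hset]; exact hmain]
    rw [Finset.card_filter, Nat.cast_sum]
    rw [Finset.sum_congr rfl fun h _ => B6_trace h g, Finset.sum_comm]
    refine Finset.sum_congr rfl fun s _ => ?_
    rw [Finset.sum_ite_eq]
    split_ifs <;> simp
  unfold avL
  rw [Matrix.smul_mul, Matrix.trace_smul, Matrix.sum_mul, Matrix.trace_sum, hsum, Nat.cast_mul,
    smul_eq_mul]
  field_simp

end Pool.Agent.BC5
end

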