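import Mathlib

section
set_option autoImplicit false
set_option linter.unusedSectionVars false
set_option linter.unusedVariables false
open scoped BigOperators
namespace Pool.Agent.BC5

/-- Uniform average over a finite type (values in a real vector space). -/
noncomputable def avg {α : Type} [Fintype α] {E : Type} [AddCommMonoid E] [Module ℝ E] (F : α → E) : E :=
  ((Fintype.card α : ℝ))⁻¹ • ∑ a, F a

open Classical in
/-- Proportion of the elements of a finite type having the property `P`. -/
noncomputable def frac {α : Type} [Fintype α] (P : α → Prop) : ℝ :=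
  avg (fun a => if P a then (1 : ℝ) else 0)

section
variable {α β : Type} [Fintype α] [Fintype β] {E F : Type} [AddCommGroup E] [Module ℝ E] [AddCommGroup F] [Module ℝ F]

theorem avg_add (f g : α → E) : avg (fun a => f a + g a) = avg f + avg g := by
  simp [avg, Finset.sum_add_distrib]

theorem avg_sub (f g : α → E) : avg (fun a => f a - g a) = avg f - avg g := by
  simp [avg, Finset.sum_sub_distrib, smul_sub]

theorem avg_smul (c : ℝ) (f : α → E) : avg (fun a => c • f a) = c • avg f := by
  simp [avg, ← Finset.smul_sum, smul_comm c]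

theorem avg_mul_left (c : ℝ) (f : α → ℝ) : avg (fun a => c * f a) = c * avg f := avg_smul c f

theorem avg_const [Nonempty α] (c : E) : avg (fun _ : α => c) = c := by
  have : (Fintype.card α : ℝ) ≠ 0 := by exact_mod_cast Fintype.card_ne_zero
  simp only [avg, Finset.sum_const, Finset.card_univ, ← Nat.cast_smul_eq_nsmul ℝ, smul_smul]
  rw [inv_mul_cancel₀ this, one_smul]

theorem map_avg (T : E →ₗ[ℝ] F) (f : α → E) : T (avg f) = avg (fun a => T (f a)) := by
  simp [avg, map_sum]

theorem avg_mono {f g : α → ℝ} (h : ∀ a, f a ≤ g a) : avg f ≤ avg g := by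
  unfold avg
  rw [smul_eq_mul, smul_eq_mul]
  exact mul_le_mul_of_nonneg_left (Finset.sum_le_sum fun a _ => h a) (by positivity)

theorem avg_nonneg {f : α → ℝ} (h : ∀ a, 0 ≤ f a) : 0 ≤ avg f := by
  unfold avg
  rw [smul_eq_mul]
  exact mul_nonneg (by positivity) (Finset.sum_nonneg fun a _ => h a)

theorem avg_le_of_le [Nonempty α] {f : α → ℝ} {c : ℝ} (h : ∀ a, f a ≤ c) : avg f ≤ c := by
  calc avg f ≤ avg (fun _ : α => c) := avg_mono h
    _ = c := avg_const c

theorem abs_avg_le {f : α → ℝ} : |avg f| ≤ avg (fun a => |f a|) := by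
  unfold avg
  rw [smul_eq_mul, smul_eq_mul, abs_mul, abs_of_nonneg (by positivity : (0:ℝ) ≤ ((Fintype.card α : ℝ))⁻¹)]
  exact mul_le_mul_of_nonneg_left (Finset.abs_sum_le_sum_abs _ _) (by positivity)

theorem avg_equiv (e : α ≃ β) (f : β → E) : avg (fun a => f (e a)) = avg f := by
  simp only [avg, Fintype.card_congr e]
  rw [Equiv.sum_comp e f]

theorem avg_prod (f : α × β → E) : avg f = avg (fun a => avg (fun b => f (a, b))) := by
  simp only [avg, Fintype.card_prod, Nat.cast_mul, mul_inv, Fintype.sum_prod_type, ← Finset.smul_sum,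
    smul_smul]

theorem avg_sum {ι : Type} (s : Finset ι) (f : ι → α → E) :
    avg (fun a => ∑ i ∈ s, f i a) = ∑ i ∈ s, avg (f i) := by
  simp only [avg]
  rw [Finset.sum_comm, Finset.smul_sum]

end

end Pool.Agent.BC5
end

section
set_option autoImplicit false
set_option linter.unusedSectionVars false
set_option linter.unusedVariables false
open scoped BigOperators Matrix
open Matrix
namespace Pool.Agent.BC5

/-
ROW A1. avg_update: for x : ι → H the pair (x, g) ↦ Function.update x i g takes every value z exactly card H times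
(fibre over z: x = update z i h, g = z i, h arbitrary). E.g. use Equiv.piSplitAt / Equiv.funSplitAt i H : (ι → H) ≃ H × ({j // j ≠ i} → H),
avg_equiv, avg_prod and avg_const; or compute the double sum by Finset.sum_comm. avg_sumElim: Equiv.sumArrowEquivProdArrow, avg_equiv, avg_prod.
-/

variable {E : Type} [AddCommGroup E] [Module ℝ E]

/-- Averaging over functions: one may average over the value at one point first. -/
theorem avg_update {ι H : Type} [Fintype ι] [DecidableEq ι] [Fintype H] [Nonempty H] (f : (ι → H) → E) (i : ι) :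
    avg f = avg (fun x => avg (fun g => f (Function.update x i g))) := by
  let e : (ι → H) ≃ ({j // j ≠ i} → H) × H := (Equiv.funSplitAt i H).trans (Equiv.prodComm _ _)
  have h1 : avg f = avg (fun b => avg (fun g => f (e.symm (b, g)))) := by
    rw [← avg_prod (fun p => f (e.symm p)), avg_equiv e.symm f]
  have h2 : ∀ (b : {j // j ≠ i} → H) (a g : H),
      Function.update (e.symm (b, a)) i g = e.symm (b, g) := by
    intro b a g
    funext j
    by_cases hj : j = i
    · subst hj
      simp [e, Equiv.funSplitAt, Equiv.piSplitAt]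
    · rw [Function.update_of_ne hj]
      simp [e, Equiv.funSplitAt, Equiv.piSplitAt, hj]
  rw [h1, ← avg_equiv e.symm (fun x => avg (fun g => f (Function.update x i g))),
    avg_prod]
  refine congrArg avg ?_
  funext b
  have h3 : (fun a => avg (fun g => f (Function.update (e.symm (b, a)) i g)))
      = fun _ : H => avg (fun g => f (e.symm (b, g))) := by
    funext a
    simp only [h2]
  rw [h3, avg_const]

/-- Average over pairs of functions as average over functions on the disjoint union. -/
theorem avg_sumElim {ι κ H : Type} [Fintype ι] [DecidableEq ι] [Fintype κ] [DecidableEq κ] [Fintype H] (f : (ι ⊕ κ → H) → E) :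
    avg f = avg (fun x : ι → H => avg (fun y : κ → H => f (Sum.elim x y))) := by
  rw [← avg_equiv (Equiv.sumArrowEquivProdArrow ι κ H).symm f, avg_prod]
  rfl

end Pool.Agent.BC5
end

section
set_option autoImplicit false
set_option linter.unusedSectionVars false
set_option linter.unusedVariables false
open scoped BigOperators Matrix
open Matrix
namespace Pool.Agent.BC5

/-
ROW A2. All immediate from the
definition (frac P = avg of the indicator of P) with avg_mono, avg_nonneg, avg_const, avg_sub ... (frac_le_one: for empty types frac = 0).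
frac_eq_card: sum of the indicator = card of the filter = Nat.card of the subtype.
-/

variable {α β : Type} [Fintype α] [Fintype β]

theorem frac_nonneg (P : α → Prop) : 0 ≤ frac P := by
  classical
  unfold frac
  exact avg_nonneg fun a => by split_ifs <;> norm_num

theorem frac_le_one (P : α → Prop) : frac P ≤ 1 := by
  classical
  rcases isEmpty_or_nonempty α with h | h
  · simp [frac, avg]
  · unfold frac
    exact avg_le_of_le fun a => by split_ifs <;> norm_num

theorem frac_mono {P Q : α → Prop} (h : ∀ a, P a → Q a) : frac P ≤ frac Q := by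
  classical
  unfold frac
  refine avg_mono fun a => ?_
  by_cases hp : P a
  · simp [hp, h a hp]
  · by_cases hq : Q a
    · simp [hp, hq]
    · simp [hp, hq]

theorem frac_eq_card [Nonempty α] (P : α → Prop) :
    frac P * (Nat.card α : ℝ) = (Nat.card {a : α // P a} : ℝ) := by
  classical
  have hne : (Fintype.card α : ℝ) ≠ 0 := by exact_mod_cast Fintype.card_ne_zero
  rw [Nat.card_eq_fintype_card, Nat.card_eq_fintype_card, Fintype.card_subtype]
  unfold frac avg
  rw [smul_eq_mul, Finset.sum_boole, mul_comm, ← mul_assoc, mul_inv_cancel₀ hne, one_mul]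

theorem frac_not [Nonempty α] (P : α → Prop) : frac (fun a => ¬ P a) = 1 - frac P := by
  classical
  have h1 : (1:ℝ) = avg (fun _ : α => (1:ℝ)) := (avg_const (α := α) (1:ℝ)).symm
  have h2 : frac (fun a => ¬ P a) = avg (fun a => (1:ℝ) - (if P a then (1:ℝ) else 0)) := by
    unfold frac
    congr 1
    funext a
    by_cases hp : P a <;> simp [hp]
  rw [h2, avg_sub, ← h1]
  rfl

theorem frac_or_le (P Q : α → Prop) : frac (fun a => P a ∨ Q a) ≤ frac P + frac Q := by
  classical
  unfold frac
  rw [← avg_add]
  refine avg_mono fun a => ?_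
  by_cases hp : P a <;> by_cases hq : Q a <;> simp [hp, hq]

theorem frac_exists_le {ι : Type} (s : Finset ι) (P : ι → α → Prop) :
    frac (fun a => ∃ i ∈ s, P i a) ≤ ∑ i ∈ s, frac (P i) := by
  classical
  have h : ∑ i ∈ s, frac (P i) = avg (fun a => ∑ i ∈ s, (if P i a then (1:ℝ) else 0)) := by
    unfold frac
    rw [avg_sum]
  rw [h]
  unfold frac
  refine avg_mono fun a => ?_
  by_cases hp : ∃ i ∈ s, P i a
  · obtain ⟨i, hi, hpi⟩ := hp
    have hex : ∃ i ∈ s, P i a := ⟨i, hi, hpi⟩
    rw [if_pos hex]
    have h1 : (1:ℝ) = (if P i a then (1:ℝ) else 0) := by rw [if_pos hpi]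
    calc (1:ℝ) = (if P i a then (1:ℝ) else 0) := h1
      _ ≤ ∑ i ∈ s, (if P i a then (1:ℝ) else 0) :=
        Finset.single_le_sum (f := fun i => (if P i a then (1:ℝ) else 0))
          (fun j _ => by split_ifs <;> norm_num) hi
  · rw [if_neg hp]
    exact Finset.sum_nonneg fun j _ => by split_ifs <;> norm_num

/-- Markov inequality. -/
theorem frac_le_avg_div {P : α → Prop} {f : α → ℝ} {c : ℝ} (hc : 0 < c) (h0 : ∀ a, 0 ≤ f a)
    (h : ∀ a, P a → c ≤ f a) : frac P ≤ avg f / c := by
  classical
  have h1 : avg f / c = avg (fun a => c⁻¹ * f a) := by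
    rw [avg_mul_left, div_eq_mul_inv, mul_comm]
  rw [h1]
  unfold frac
  refine avg_mono fun a => ?_
  have hci : 0 < c⁻¹ := inv_pos.mpr hc
  by_cases hp : P a
  · rw [if_pos hp]
    have := mul_le_mul_of_nonneg_left (h a hp) hci.le
    rwa [inv_mul_cancel₀ hc.ne'] at this
  · rw [if_neg hp]
    exact mul_nonneg hci.le (h0 a)

theorem frac_equiv (e : α ≃ β) (P : β → Prop) : frac (fun a => P (e a)) = frac P := by
  classical
  unfold frac
  exact avg_equiv e (fun b => if P b then (1:ℝ) else 0)

end Pool.Agent.BC5
end

section
set_option autoImplicit false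
set_option linter.unusedSectionVars false
set_option linter.unusedVariables false
open scoped BigOperators Matrix
open Matrix
namespace Pool.Agent.BC5

/-
ROW A3. frac_two_stages: by avg_sumElim, frac(¬Q) = avg over x of frac_y(¬Q(x+y)); for x with P x it is ≤ b, for the others ≤ 1, so
the indicator bound [¬P x] + b. frac_comp_injective: split κ into the range of e and the complement: an Equiv (ι ⊕ {k // k ∉ range e}) ≃ κ
(Equiv.ofInjective, Equiv.sumCompl ...), then avg_equiv (Equiv.arrowCongr / Equiv.piCongrLeft), avg_sumElim, avg_const.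
-/

/-- Two stages: if all but a fraction `a` of `x` are good, and for each good `x` all but a fraction `b` of `y` are
good for `x`, then all but a fraction `a + b` of the pairs are good. -/
theorem frac_two_stages {ι κ H : Type} [Fintype ι] [DecidableEq ι] [Fintype κ] [DecidableEq κ] [Fintype H] [Nonempty H]
    (P : (ι → H) → Prop) (Q : (ι ⊕ κ → H) → Prop) (a b : ℝ)
    (h1 : frac (fun x => ¬ P x) ≤ a) (hb : 0 ≤ b)
    (h2 : ∀ x, P x → frac (fun y : κ → H => ¬ Q (Sum.elim x y)) ≤ b) :
    frac (fun z => ¬ Q z) ≤ a + b := by
  classical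
  have e1 : frac (fun z => ¬ Q z) = avg (fun x : ι → H => frac (fun y : κ → H => ¬ Q (Sum.elim x y))) := by
    unfold frac
    exact avg_sumElim _
  have e2 : avg (fun x : ι → H => frac (fun y : κ → H => ¬ Q (Sum.elim x y))) ≤
      avg (fun x : ι → H => (if ¬ P x then (1 : ℝ) else 0) + b) := by
    refine avg_mono fun x => ?_
    by_cases hx : P x
    · simpa [hx] using h2 x hx
    · have := frac_le_one (fun y : κ → H => ¬ Q (Sum.elim x y))
      rw [if_pos hx]
      linarith
  have e3 : avg (fun x : ι → H => (if ¬ P x then (1 : ℝ) else 0) + b) = frac (fun x => ¬ P x) + b := by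
    rw [avg_add (fun x : ι → H => if ¬ P x then (1 : ℝ) else 0) (fun _ => b), avg_const b]
    congr 1
    unfold frac
    refine congrArg avg (funext fun x => ?_)
    by_cases hx : P x <;> simp [hx]
  linarith

/-- A property of a subfamily of the coordinates has the same proportion. -/
theorem frac_comp_injective {ι κ H : Type} [Fintype ι] [DecidableEq ι] [Fintype κ] [DecidableEq κ] [Fintype H] [Nonempty H]
    (e : ι → κ) (he : Function.Injective e) (P : (ι → H) → Prop) :
    frac (fun x : κ → H => P (fun i => x (e i))) = frac P := by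
  classical
  let E : ι ⊕ {k // k ∉ Set.range e} ≃ κ :=
    (Equiv.sumCongr (Equiv.ofInjective e he) (Equiv.refl _)).trans (Equiv.Set.sumCompl (Set.range e))
  have hE : ∀ i, E (Sum.inl i) = e i := fun i => rfl
  rw [← frac_equiv (Equiv.arrowCongr E (Equiv.refl H)) (fun x : κ → H => P (fun i => x (e i)))]
  have h1 : ∀ z : ι ⊕ {k // k ∉ Set.range e} → H,
      (fun i => (Equiv.arrowCongr E (Equiv.refl H)) z (e i)) = fun i => z (Sum.inl i) := by
    intro z
    funext i
    rw [← hE i]
    simp [Equiv.arrowCongr]
  simp only [h1]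
  unfold frac
  rw [avg_sumElim]
  refine congrArg avg (funext fun x => ?_)
  simp only [Sum.elim_inl]
  exact avg_const (α := {k // k ∉ Set.range e} → H) (E := ℝ) (@ite ℝ (P x) (Classical.propDecidable _) 1 0)

end Pool.Agent.BC5
end

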