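import Pool.Agent.Lib.MP_bc5a73_al.AltBasic

section
set_option autoImplicit false
set_option linter.unusedSectionVars false
set_option linter.unusedVariables false
open scoped BigOperators Matrix
open Matrix
namespace Pool.Agent.BC5

/-
ROW I1. Section 7. The set is invariant under s ↦ s*h, h ∈ AY (R \ T) (h fixes T pointwise, lies in AY R): ∑ Lm s v = ∑ Lm s (Lm h v) for each such h; average over h: = ∑ Lm s (avL(AY(R\T)) v) and avL v = avL Q v = 0.
-/

variable {n : ℕ}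

theorem I1_mem (R T B : Finset (Fin n)) (h : Alt n) (hh : h ∈ AY (R \ T)) (s : Alt n) :
    s ∈ (AY R).filter (fun s : Alt n => ∀ x ∈ T, (s : Equiv.Perm (Fin n)) x ∈ B) ↔
      s * h ∈ (AY R).filter (fun s : Alt n => ∀ x ∈ T, (s : Equiv.Perm (Fin n)) x ∈ B) := by
  have hR : h ∈ AY R := AY_mono Finset.sdiff_subset hh
  have hfix : ∀ x ∈ T, (h : Equiv.Perm (Fin n)) x = x := by
    intro x hx
    rw [mem_AY] at hh
    exact hh x (fun h' => (Finset.mem_sdiff.mp h').2 hx)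
  rw [Finset.mem_filter, Finset.mem_filter]
  have h1 : (s ∈ AY R) ↔ (s * h ∈ AY R) := by
    constructor
    · intro hs
      exact (AY_isGrp R).mul s hs h hR
    · intro hs
      have := (AY_isGrp R).mul (s * h) hs h⁻¹ ((AY_isGrp R).inv h hR)
      rwa [mul_inv_cancel_right] at this
  have h2 : (∀ x ∈ T, (s : Equiv.Perm (Fin n)) x ∈ B) ↔
      (∀ x ∈ T, ((s * h : Alt n) : Equiv.Perm (Fin n)) x ∈ B) := by
    refine forall_congr' fun x => forall_congr' fun hx => ?_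
    rw [Subgroup.coe_mul, Equiv.Perm.mul_apply, hfix x hx]
  rw [h1, h2]

/-- Section 7: the constrained sums vanish (`F(T) = 0` for `T ≠ I`). -/
theorem sum_constrained_eq_zero (R T B : Finset (Fin n)) (hT : T ⊆ R) (Q : Matrix (Alt n) (Alt n) ℝ)
    (h0 : avL (AY (R \ T)) * Q = 0) (v : Alt n → ℝ) (hv : Q *ᵥ v = v) :
    ∑ s ∈ (AY R).filter (fun s : Alt n => ∀ x ∈ T, (s : Equiv.Perm (Fin n)) x ∈ B), Lm s *ᵥ v = 0 := by
  set F := (AY R).filter (fun s : Alt n => ∀ x ∈ T, (s : Equiv.Perm (Fin n)) x ∈ B) with hF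
  have h1 : ∀ h ∈ AY (R \ T), ∑ s ∈ F, Lm s *ᵥ (Lm h *ᵥ v) = ∑ s ∈ F, Lm s *ᵥ v := by
    intro h hh
    refine Finset.sum_equiv (Equiv.mulRight h) (fun s => ?_) (fun s _ => ?_)
    · exact I1_mem R T B h hh s
    · rw [Matrix.mulVec_mulVec, ← Lm_mul]
      rfl
  have hcard : ((AY (R \ T)).card : ℝ) ≠ 0 := by
    have : 0 < (AY (R \ T)).card := Finset.card_pos.mpr ⟨1, (AY_isGrp _).one⟩
    exact_mod_cast this.ne'
  have h2 : ∑ h ∈ AY (R \ T), Lm h *ᵥ v = 0 := by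
    have h3 : avL (AY (R \ T)) *ᵥ v = 0 := by
      rw [← hv, Matrix.mulVec_mulVec, h0, Matrix.zero_mulVec]
    unfold avL at h3
    rw [Matrix.smul_mulVec, Matrix.sum_mulVec] at h3
    rcases smul_eq_zero.mp h3 with h4 | h4
    · exact absurd h4 (inv_ne_zero hcard)
    · exact h4
  have h5 : ((AY (R \ T)).card : ℝ) • ∑ s ∈ F, Lm s *ᵥ v = 0 := by
    calc ((AY (R \ T)).card : ℝ) • ∑ s ∈ F, Lm s *ᵥ v
        = ∑ h ∈ AY (R \ T), ∑ s ∈ F, Lm s *ᵥ v := by
          rw [Finset.sum_const, ← Nat.cast_smul_eq_nsmul ℝ]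
      _ = ∑ h ∈ AY (R \ T), ∑ s ∈ F, Lm s *ᵥ (Lm h *ᵥ v) :=
          Finset.sum_congr rfl fun h hh => (h1 h hh).symm
      _ = ∑ s ∈ F, ∑ h ∈ AY (R \ T), Lm s *ᵥ (Lm h *ᵥ v) := Finset.sum_comm
      _ = ∑ s ∈ F, Lm s *ᵥ (∑ h ∈ AY (R \ T), Lm h *ᵥ v) :=
          Finset.sum_congr rfl fun s _ => (Matrix.mulVec_sum _ _ _).symm
      _ = 0 := by
          rw [h2]
          exact Finset.sum_eq_zero fun s _ => Matrix.mulVec_zero _
  rcases smul_eq_zero.mp h5 with h6 | h6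
  · exact absurd h6 hcard
  · exact h6

end Pool.Agent.BC5
end

section
set_option autoImplicit false
set_option linter.unusedSectionVars false
set_option linter.unusedVariables false
open scoped BigOperators Matrix
open Matrix
namespace Pool.Agent.BC5

/-
ROW I2. Section 7. The indicator of (∀ x ∈ I, s x ∉ B) is ∏_{x∈I} (1 - [s x ∈ B]) = ∑_{T ⊆ I} (-1)^|T| ∏_{x∈T}[s x ∈ B] (Finset.prod_one_sub or Finset.prod_add / Finset.sum_powerset; Mathlib: Finset.prod_one_sub_ordered..., Finset.prod_sub). Exchange the sums; only T = I survives.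
-/

variable {n : ℕ}

theorem I2_ind {α : Type} [DecidableEq α] (I : Finset α) (P : α → Prop) [DecidablePred P] :
    (if ∀ x ∈ I, ¬ P x then (1:ℝ) else 0) =
      ∑ T ∈ I.powerset, (-1) ^ T.card * (if ∀ x ∈ T, P x then (1:ℝ) else 0) := by
  have h := Finset.prod_one_add (f := fun x => (-1 : ℝ) * (if P x then (1:ℝ) else 0)) I
  have h1 : ∀ T : Finset α, ∏ x ∈ T, ((-1 : ℝ) * (if P x then (1:ℝ) else 0)) =
      (-1) ^ T.card * (if ∀ x ∈ T, P x then (1:ℝ) else 0) := by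
    intro T
    rw [Finset.prod_mul_distrib, Finset.prod_const, Finset.prod_ite_zero]
    simp
  have h2 : ∏ x ∈ I, (1 + (-1 : ℝ) * (if P x then (1:ℝ) else 0)) =
      (if ∀ x ∈ I, ¬ P x then (1:ℝ) else 0) := by
    have h3 : ∀ x, (1 + (-1 : ℝ) * (if P x then (1:ℝ) else 0)) = if ¬ P x then (1:ℝ) else 0 := by
      intro x
      by_cases hx : P x <;> simp [hx]
    simp only [h3]
    rw [Finset.prod_ite_zero]
    simp
  rw [← h2, h]
  exact Finset.sum_congr rfl fun T _ => h1 T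

/-- Section 7: inclusion-exclusion. -/
theorem sum_inclusion_exclusion (R I B : Finset (Fin n)) (φ : Alt n → ℝ)
    (h0 : ∀ T, T ⊂ I → ∑ s ∈ (AY R).filter (fun s : Alt n => ∀ x ∈ T, (s : Equiv.Perm (Fin n)) x ∈ B), φ s = 0) :
    ∑ s ∈ (AY R).filter (fun s : Alt n => ∀ x ∈ I, (s : Equiv.Perm (Fin n)) x ∉ B), φ s
      = (-1) ^ I.card * ∑ s ∈ (AY R).filter (fun s : Alt n => ∀ x ∈ I, (s : Equiv.Perm (Fin n)) x ∈ B), φ s := by
  have h1 : ∀ T : Finset (Fin n),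
      ∑ s ∈ (AY R).filter (fun s : Alt n => ∀ x ∈ T, (s : Equiv.Perm (Fin n)) x ∈ B), φ s =
      ∑ s ∈ AY R, (if ∀ x ∈ T, (s : Equiv.Perm (Fin n)) x ∈ B then (1:ℝ) else 0) * φ s := by
    intro T
    rw [Finset.sum_filter]
    refine Finset.sum_congr rfl fun s _ => ?_
    split_ifs <;> simp
  have h2 : ∑ s ∈ (AY R).filter (fun s : Alt n => ∀ x ∈ I, (s : Equiv.Perm (Fin n)) x ∉ B), φ s =
      ∑ s ∈ AY R, (if ∀ x ∈ I, (s : Equiv.Perm (Fin n)) x ∉ B then (1:ℝ) else 0) * φ s := by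
    rw [Finset.sum_filter]
    refine Finset.sum_congr rfl fun s _ => ?_
    split_ifs <;> simp
  rw [h2]
  have h3 : ∑ s ∈ AY R, (if ∀ x ∈ I, (s : Equiv.Perm (Fin n)) x ∉ B then (1:ℝ) else 0) * φ s =
      ∑ T ∈ I.powerset, (-1) ^ T.card *
        ∑ s ∈ (AY R).filter (fun s : Alt n => ∀ x ∈ T, (s : Equiv.Perm (Fin n)) x ∈ B), φ s := by
    calc ∑ s ∈ AY R, (if ∀ x ∈ I, (s : Equiv.Perm (Fin n)) x ∉ B then (1:ℝ) else 0) * φ s
        = ∑ s ∈ AY R, ∑ T ∈ I.powerset, (-1) ^ T.card *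
            ((if ∀ x ∈ T, (s : Equiv.Perm (Fin n)) x ∈ B then (1:ℝ) else 0) * φ s) := by
          refine Finset.sum_congr rfl fun s _ => ?_
          have h5 : (if ∀ x ∈ I, (s : Equiv.Perm (Fin n)) x ∉ B then (1:ℝ) else 0) =
              ∑ T ∈ I.powerset, (-1) ^ T.card *
                (if ∀ x ∈ T, (s : Equiv.Perm (Fin n)) x ∈ B then (1:ℝ) else 0) := by
            convert I2_ind I (fun x => (s : Equiv.Perm (Fin n)) x ∈ B)
          rw [h5, Finset.sum_mul]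
          exact Finset.sum_congr rfl fun T _ => mul_assoc _ _ _
      _ = ∑ T ∈ I.powerset, ∑ s ∈ AY R, (-1) ^ T.card *
            ((if ∀ x ∈ T, (s : Equiv.Perm (Fin n)) x ∈ B then (1:ℝ) else 0) * φ s) := Finset.sum_comm
      _ = _ := by
          refine Finset.sum_congr rfl fun T _ => ?_
          rw [h1 T, Finset.mul_sum]
  rw [h3]
  refine Finset.sum_eq_single_of_mem I (Finset.mem_powerset_self I) fun T hT hne => ?_
  rw [Finset.mem_powerset] at hT
  rw [h0 T (lt_of_le_of_ne hT hne), mul_zero]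

end Pool.Agent.BC5
end

section
set_option autoImplicit false
set_option linter.unusedSectionVars false
set_option linter.unusedVariables false
open scoped BigOperators Matrix
open Matrix
namespace Pool.Agent.BC5

/-
ROW I3. Section 7. I = Y'\Y, x ∈ I ⇒ s x ∈ Y ∪ Y' (s preserves the set, s ∈ AY(Y∪Y')) and s x ∉ Y\Y', so s x ∈ Y'. exists_mem_AY with Y := Y', index type {x // x ∈ I}, u = inclusion, v = s: a ∈ AY Y' with a x = s x on I. b := a⁻¹*s fixes I pointwise and all points outside Y ∪ Y', so b ∈ AY Y.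
-/

variable {n : ℕ}

/-- Section 7: the elements of `A_R` which map `I = Y' \ Y` into `Y'` are in `A_{Y'} A_Y`. -/
theorem exists_factor (Y Y' : Finset (Fin n)) (m : ℕ) (hY : Y.card = m) (hY' : Y'.card = m)
    (hi : (Y' \ Y).card + 2 ≤ m) (s : Alt n) (hs : s ∈ AY (Y ∪ Y'))
    (hsI : ∀ x ∈ Y' \ Y, (s : Equiv.Perm (Fin n)) x ∉ Y \ Y') :
    ∃ a ∈ AY Y', ∃ b ∈ AY Y, s = a * b := by
  classical
  have hmem : ∀ x ∈ Y' \ Y, (s : Equiv.Perm (Fin n)) x ∈ Y' := by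
    intro x hx
    have h1 : (s : Equiv.Perm (Fin n)) x ∈ Y ∪ Y' := by
      by_contra h
      have h2 := (mem_AY _ _).1 hs _ h
      have h3 := (s : Equiv.Perm (Fin n)).injective h2
      rw [h3] at h
      exact h (Finset.mem_union_right _ (Finset.mem_sdiff.1 hx).1)
    by_contra h
    rcases Finset.mem_union.1 h1 with h2 | h2
    · exact hsI x hx (Finset.mem_sdiff.2 ⟨h2, h⟩)
    · exact h h2
  obtain ⟨a, ha, hav⟩ := exists_mem_AY Y' (I := {x // x ∈ Y' \ Y}) (fun i => i.1)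
    (fun i => (s : Equiv.Perm (Fin n)) i.1) Subtype.val_injective
    (fun i j hij => Subtype.ext ((s : Equiv.Perm (Fin n)).injective hij))
    (fun i => (Finset.mem_sdiff.1 i.2).1) (fun i => hmem i.1 i.2)
    (by rw [Fintype.card_coe, hY']; exact hi)
  refine ⟨a, ha, a⁻¹ * s, ?_, (mul_inv_cancel_left a s).symm⟩
  rw [mem_AY]
  intro x hx
  rw [Subgroup.coe_mul, Equiv.Perm.mul_apply, Subgroup.coe_inv, Equiv.Perm.inv_eq_iff_eq]
  by_cases hx' : x ∈ Y'
  · exact (hav ⟨x, Finset.mem_sdiff.2 ⟨hx', hx⟩⟩).symm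
  · rw [(mem_AY _ _).1 ha x hx']
    exact (mem_AY _ _).1 hs x (by rw [Finset.mem_union]; tauto)

end Pool.Agent.BC5
end

section
set_option autoImplicit false
set_option linter.unusedSectionVars false
set_option linter.unusedVariables false
open scoped BigOperators Matrix
open Matrix
namespace Pool.Agent.BC5

/-
ROW I4. Section 7. R = Y ∪ Y', I = Y'\Y, B = Y\Y', i = card I = card B, card R = m+i, φ s = v' ⬝ᵥ (Lm s *ᵥ v). sum_constrained_eq_zero for T ⊂ I (card(R\T) ≥ m+1, R\T ⊆ X). LHS of sum_inclusion_exclusion: by exists_factor φ s = v'·(Lm a Lm b v) = (Lm a⁻¹ v')·v = v'·v; number of terms: s x ∉ B ⇔ s x ∈ Y' (R\B = Y'), card_maps_into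
(B := Y'): m.descFactorial i * card(AY(R\I)). RHS: |φ s| ≤ (v·v + v'·v')/2, number of terms i! * card(AY(R\I)) (Nat.descFactorial_self). R\I = Y (only card > 0 needed). m.descFactorial i = i! * C(m,i) (Nat.descFactorial_eq_factorial_mul_choose).
-/

variable {n : ℕ}

theorem I4_abs_dot {V : Type} [Fintype V] (f g : V → ℝ) : |f ⬝ᵥ g| ≤ (f ⬝ᵥ f + g ⬝ᵥ g) / 2 := by
  have h1 : 0 ≤ (f - g) ⬝ᵥ (f - g) := Finset.sum_nonneg fun i _ => mul_self_nonneg _
  have h2 : 0 ≤ (f + g) ⬝ᵥ (f + g) := Finset.sum_nonneg fun i _ => mul_self_nonneg _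
  rw [sub_dotProduct, dotProduct_sub, dotProduct_sub, dotProduct_comm g f] at h1
  rw [add_dotProduct, dotProduct_add, dotProduct_add, dotProduct_comm g f] at h2
  rw [abs_le]
  constructor
  · linarith
  · linarith

theorem I4_map_mem {R : Finset (Fin n)} {s : Alt n} (hs : s ∈ AY R) {x : Fin n} (hx : x ∈ R) :
    (s : Equiv.Perm (Fin n)) x ∈ R := by
  by_contra h
  have h1 := (mem_AY R s).1 hs _ h
  have h2 : (s : Equiv.Perm (Fin n)) x = x := (s : Equiv.Perm (Fin n)).injective h1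
  exact h (by rw [h2]; exact hx)

/-- Section 7: the inner product lemma. -/
theorem inner_lemma (X Y Y' : Finset (Fin n)) (hYX : Y ⊆ X) (hYX' : Y' ⊆ X) (m : ℕ) (hY : Y.card = m)
    (hY' : Y'.card = m) (hi : (Y' \ Y).card + 2 ≤ m) (Q : Matrix (Alt n) (Alt n) ℝ) (hQ : IsPr Q)
    (hno : ∀ Z, Z ⊆ X → m + 1 ≤ Z.card → avL (AY Z) * Q = 0)
    (v v' : Alt n → ℝ) (hv : Q *ᵥ v = v) (hv' : Q *ᵥ v' = v')
    (hvY : ∀ h ∈ AY Y, Lm h *ᵥ v = v) (hvY' : ∀ h ∈ AY Y', Lm h *ᵥ v' = v') :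
    (m.choose (Y' \ Y).card : ℝ) * |v ⬝ᵥ v'| ≤ (v ⬝ᵥ v + v' ⬝ᵥ v') / 2 := by
  obtain ⟨R, hR⟩ : ∃ R, R = Y ∪ Y' := ⟨_, rfl⟩
  obtain ⟨I, hI⟩ : ∃ I, I = Y' \ Y := ⟨_, rfl⟩
  obtain ⟨B, hB⟩ : ∃ B, B = Y \ Y' := ⟨_, rfl⟩
  rw [← hI] at hi ⊢
  have hIR : I ⊆ R := by
    rw [hI, hR]
    exact Finset.sdiff_subset.trans Finset.subset_union_right
  have hBR : B ⊆ R := by
    rw [hB, hR]
    exact Finset.sdiff_subset.trans Finset.subset_union_left
  have hY'R : Y' ⊆ R := by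
    rw [hR]
    exact Finset.subset_union_right
  have hRX : R ⊆ X := by
    rw [hR]
    exact Finset.union_subset hYX hYX'
  have hcR : R.card = m + I.card := by
    rw [hR, hI, ← hY, ← Finset.card_union_of_disjoint Finset.disjoint_sdiff,
      Finset.union_sdiff_self_eq_union]
  have hcB : B.card = I.card := by
    have h1 : (Y \ Y').card + (Y ∩ Y').card = Y.card := Finset.card_sdiff_add_card_inter Y Y'
    have h2 : (Y' \ Y).card + (Y' ∩ Y).card = Y'.card := Finset.card_sdiff_add_card_inter Y' Y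
    rw [Finset.inter_comm Y' Y] at h2
    rw [hB, hI]
    omega
  obtain ⟨φ, hφ⟩ : ∃ φ : Alt n → ℝ, φ = fun s => v' ⬝ᵥ (Lm s *ᵥ v) := ⟨_, rfl⟩
  have h0 : ∀ T, T ⊂ I → ∑ s ∈ (AY R).filter (fun s : Alt n => ∀ x ∈ T,
      (s : Equiv.Perm (Fin n)) x ∈ B), φ s = 0 := by
    intro T hT
    have hTR : T ⊆ R := hT.1.trans hIR
    have hcT : T.card < I.card := Finset.card_lt_card hT
    have hc : m + 1 ≤ (R \ T).card := by
      rw [Finset.card_sdiff_of_subset hTR]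
      omega
    have h1 := sum_constrained_eq_zero R T B hTR Q
      (hno (R \ T) (Finset.sdiff_subset.trans hRX) hc) v hv
    have h2 : ∑ s ∈ (AY R).filter (fun s : Alt n => ∀ x ∈ T, (s : Equiv.Perm (Fin n)) x ∈ B), φ s =
        v' ⬝ᵥ ∑ s ∈ (AY R).filter (fun s : Alt n => ∀ x ∈ T,
          (s : Equiv.Perm (Fin n)) x ∈ B), Lm s *ᵥ v := by
      rw [dotProduct_sum, hφ]
    rw [h2, h1, dotProduct_zero]
  have hie := sum_inclusion_exclusion R I B φ h0
  have hfil : (AY R).filter (fun s : Alt n => ∀ x ∈ I, (s : Equiv.Perm (Fin n)) x ∉ B) =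
      (AY R).filter (fun s : Alt n => ∀ x ∈ I, (s : Equiv.Perm (Fin n)) x ∈ Y') := by
    apply Finset.filter_congr
    intro s hs
    constructor
    · intro h x hx
      have h1 := h x hx
      have h2 := I4_map_mem hs (hIR hx)
      rw [hR, Finset.mem_union] at h2
      rw [hB, Finset.mem_sdiff] at h1
      by_contra h3
      rcases h2 with h2 | h2
      · exact h1 ⟨h2, h3⟩
      · exact h3 h2
    · intro h x hx h1
      rw [hB, Finset.mem_sdiff] at h1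
      exact h1.2 (h x hx)
  have hlhs : ∑ s ∈ (AY R).filter (fun s : Alt n => ∀ x ∈ I, (s : Equiv.Perm (Fin n)) x ∉ B), φ s =
      ((m.descFactorial I.card * (AY (R \ I)).card : ℕ) : ℝ) * (v' ⬝ᵥ v) := by
    have h1 : ∀ s ∈ (AY R).filter (fun s : Alt n => ∀ x ∈ I, (s : Equiv.Perm (Fin n)) x ∉ B),
        φ s = v' ⬝ᵥ v := by
      intro s hs
      rw [Finset.mem_filter] at hs
      obtain ⟨a, ha, b, hb, hab⟩ := exists_factor Y Y' m hY hY' (by rw [← hI]; exact hi) s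
        (by rw [← hR]; exact hs.1) (by rw [← hI, ← hB]; exact hs.2)
      rw [hφ]
      show v' ⬝ᵥ (Lm s *ᵥ v) = v' ⬝ᵥ v
      rw [hab, Lm_mul, ← Matrix.mulVec_mulVec, hvY b hb]
      have h2 := dot_Lm a v' v
      rw [hvY' a ha] at h2
      exact h2
    rw [Finset.sum_congr rfl h1, Finset.sum_const, nsmul_eq_mul, hfil,
      card_maps_into R I Y' hIR hY'R (by omega), hY']
  have hrhs : |∑ s ∈ (AY R).filter (fun s : Alt n => ∀ x ∈ I, (s : Equiv.Perm (Fin n)) x ∈ B), φ s| ≤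
      ((I.card.factorial * (AY (R \ I)).card : ℕ) : ℝ) * ((v ⬝ᵥ v + v' ⬝ᵥ v') / 2) := by
    refine (Finset.abs_sum_le_sum_abs _ _).trans ?_
    have h1 : ∀ s ∈ (AY R).filter (fun s : Alt n => ∀ x ∈ I, (s : Equiv.Perm (Fin n)) x ∈ B),
        |φ s| ≤ (v ⬝ᵥ v + v' ⬝ᵥ v') / 2 := by
      intro s _
      rw [hφ]
      show |v' ⬝ᵥ (Lm s *ᵥ v)| ≤ _
      have h2 := I4_abs_dot v' (Lm s *ᵥ v)
      rw [dot_Lm] at h2
      linarith
    refine (Finset.sum_le_sum h1).trans ?_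
    rw [Finset.sum_const, nsmul_eq_mul, card_maps_into R I B hIR hBR (by omega), hcB,
      Nat.descFactorial_self]
  have habs : ((m.descFactorial I.card * (AY (R \ I)).card : ℕ) : ℝ) * |v ⬝ᵥ v'| ≤
      ((I.card.factorial * (AY (R \ I)).card : ℕ) : ℝ) * ((v ⬝ᵥ v + v' ⬝ᵥ v') / 2) := by
    have h1 : ((m.descFactorial I.card * (AY (R \ I)).card : ℕ) : ℝ) * |v ⬝ᵥ v'| =
        |∑ s ∈ (AY R).filter (fun s : Alt n => ∀ x ∈ I, (s : Equiv.Perm (Fin n)) x ∈ B), φ s| := by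
      have h2 : |∑ s ∈ (AY R).filter (fun s : Alt n => ∀ x ∈ I,
          (s : Equiv.Perm (Fin n)) x ∉ B), φ s| =
          |∑ s ∈ (AY R).filter (fun s : Alt n => ∀ x ∈ I, (s : Equiv.Perm (Fin n)) x ∈ B), φ s| := by
        rw [hie, abs_mul, abs_pow, abs_neg, abs_one, one_pow, one_mul]
      rw [← h2, hlhs, abs_mul, Nat.abs_cast, dotProduct_comm v v']
    rw [h1]
    exact hrhs
  have hc0 : 0 < (AY (R \ I)).card := Finset.card_pos.2 ⟨1, (AY_isGrp _).one⟩
  have hfac : 0 < I.card.factorial := Nat.factorial_pos _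
  rw [Nat.descFactorial_eq_factorial_mul_choose] at habs
  have hpos : (0 : ℝ) < ((I.card.factorial * (AY (R \ I)).card : ℕ) : ℝ) := by
    exact_mod_cast Nat.mul_pos hfac hc0
  refine le_of_mul_le_mul_left ?_ hpos
  refine le_trans (le_of_eq ?_) habs
  push_cast
  ring

end Pool.Agent.BC5
end

section
set_option autoImplicit false
set_option linter.unusedSectionVars false
set_option linter.unusedVariables false
open scoped BigOperators Matrix
open Matrix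
namespace Pool.Agent.BC5

/-
ROW I5. Apply inner_lemma with Y' := img g Y, v' := Lm g *ᵥ v: v'·v' = v·v (dot_Lm), Q v' = v' (commutes), Y' ⊆ X because g ∈ AY X preserves X, card Y' = m, fixed by AY(img g Y): Lm_conj_avL + avL_mulVec_eq_iff.
-/

variable {n : ℕ}

/-- The inner product lemma for `v' = L(g) v`. -/
theorem inner_lemma_conj (X Y : Finset (Fin n)) (hYX : Y ⊆ X) (m : ℕ) (hY : Y.card = m) (g : Alt n) (hg : g ∈ AY X)
    (hi : (img g Y \ Y).card + 2 ≤ m) (Q : Matrix (Alt n) (Alt n) ℝ) (hQ : IsPr Q)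
    (hQX : ∀ a ∈ AY X, Commute Q (Lm a)) (hno : ∀ Z, Z ⊆ X → m + 1 ≤ Z.card → avL (AY Z) * Q = 0)
    (v : Alt n → ℝ) (hv : Q *ᵥ v = v) (hvY : avL (AY Y) *ᵥ v = v) :
    (m.choose (img g Y \ Y).card : ℝ) * |qf (Lm g) v| ≤ v ⬝ᵥ v := by
  have hYX' : img g Y ⊆ X := by
    intro y hy
    rw [img, Finset.mem_image] at hy
    obtain ⟨x, hx, rfl⟩ := hy
    by_contra hcon
    have h1 := (mem_AY X g).mp hg _ hcon
    have h2 := (g : Equiv.Perm (Fin n)).injective h1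
    rw [h2] at hcon
    exact hcon (hYX hx)
  have hY' : (img g Y).card = m := by
    rw [img, Finset.card_image_of_injective _ (g : Equiv.Perm (Fin n)).injective, hY]
  have hv' : Q *ᵥ (Lm g *ᵥ v) = Lm g *ᵥ v := by
    rw [Matrix.mulVec_mulVec, (hQX g hg).eq, ← Matrix.mulVec_mulVec, hv]
  have hdot : (Lm g *ᵥ v) ⬝ᵥ (Lm g *ᵥ v) = v ⬝ᵥ v := dot_Lm g v v
  have hfix : ∀ h ∈ AY Y, Lm h *ᵥ v = v := (avL_mulVec_eq_iff (AY_isGrp Y) v).mp hvY
  have hfix' : ∀ h ∈ AY (img g Y), Lm h *ᵥ (Lm g *ᵥ v) = Lm g *ᵥ v := by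
    rw [← avL_mulVec_eq_iff (AY_isGrp (img g Y)), ← Lm_conj_avL]
    rw [Matrix.mulVec_mulVec, Matrix.mul_assoc, Matrix.mul_assoc, Lm_inv_mul, Matrix.mul_one,
      ← Matrix.mulVec_mulVec, hvY]
  have := inner_lemma X Y (img g Y) hYX hYX' m hY hY' hi Q hQ hno v (Lm g *ᵥ v) hv hv' hfix hfix'
  rw [hdot] at this
  have e : v ⬝ᵥ (Lm g *ᵥ v) = qf (Lm g) v := rfl
  rw [e] at this
  linarith only [this]

end Pool.Agent.BC5
end

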