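import Mathlib

section
set_option autoImplicit false
set_option linter.unusedSectionVars false
set_option linter.unusedVariables false
open scoped BigOperators Matrix
open Matrix
namespace Pool.Agent.BC5


theorem K1_sum (S : Finset ℕ) : (∀ i ∈ S, 1 ≤ i) → S.card * (S.card + 1) ≤ 2 * ∑ i ∈ S, i := by
  induction S using Finset.induction_on_max with
  | empty => intro _; simp
  | insert a s hmax ih =>
    intro h
    have ha : a ∉ s := fun h1 => lt_irrefl _ (hmax a h1)
    have ih' := ih (fun i hi => h i (Finset.mem_insert_of_mem hi))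
    have hsub : s ⊆ Finset.Ico 1 a := by
      intro i hi
      rw [Finset.mem_Ico]
      exact ⟨h i (Finset.mem_insert_of_mem hi), hmax i hi⟩
    have hc : s.card ≤ a - 1 := by
      have := Finset.card_le_card hsub
      rwa [Nat.card_Ico] at this
    have ha1 : 1 ≤ a := h a (Finset.mem_insert_self a s)
    rw [Finset.card_insert_of_notMem ha, Finset.sum_insert ha]
    have hc2 : s.card + 1 ≤ a := by omega
    nlinarith

theorem K1_card {l : ℕ} (p : Nat.Partition l) : p.parts.toFinset.card ≤ Nat.sqrt (2 * l) := by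
  have h1 := K1_sum p.parts.toFinset (fun i hi => p.parts_pos (Multiset.mem_toFinset.1 hi))
  have h2 : ∑ i ∈ p.parts.toFinset, i ≤ l := by
    have h3 : p.parts.sum = l := p.parts_sum
    have h4 : ∑ i ∈ p.parts.toFinset, p.parts.count i * i = p.parts.sum := by
      rw [Finset.sum_multiset_count]
      simp
    refine le_trans ?_ (le_of_eq (h4.trans h3))
    apply Finset.sum_le_sum
    intro i hi
    have h5 : 1 ≤ p.parts.count i := Multiset.one_le_count_iff_mem.2 (Multiset.mem_toFinset.1 hi)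
    nlinarith
  rw [Nat.le_sqrt]
  nlinarith

/-- the code of a partition -/
def K1_code {l : ℕ} (p : Nat.Partition l) : Finset (ℕ × ℕ) :=
  p.parts.toFinset.image (fun i => (i, p.parts.count i))

theorem K1_code_mem {l : ℕ} (p : Nat.Partition l) (i m : ℕ) :
    (i, m) ∈ K1_code p ↔ i ∈ p.parts ∧ p.parts.count i = m := by
  unfold K1_code
  rw [Finset.mem_image]
  constructor
  · rintro ⟨j, hj, h⟩
    rw [Prod.mk.injEq] at h
    obtain ⟨rfl, rfl⟩ := h
    exact ⟨Multiset.mem_toFinset.1 hj, rfl⟩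
  · rintro ⟨h1, rfl⟩
    exact ⟨i, Multiset.mem_toFinset.2 h1, rfl⟩

theorem K1_code_inj {l : ℕ} (p q : Nat.Partition l) (h : K1_code p = K1_code q) : p = q := by
  apply Nat.Partition.ext
  apply Multiset.ext.2
  intro i
  by_cases hp : i ∈ p.parts
  · have h1 : (i, p.parts.count i) ∈ K1_code q := by
      rw [← h]
      exact (K1_code_mem p _ _).2 ⟨hp, rfl⟩
    exact ((K1_code_mem q _ _).1 h1).2.symm
  · by_cases hq : i ∈ q.parts
    · exfalso
      have h1 : (i, q.parts.count i) ∈ K1_code p := by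
        rw [h]
        exact (K1_code_mem q _ _).2 ⟨hq, rfl⟩
      exact hp ((K1_code_mem p _ _).1 h1).1
    · rw [Multiset.count_eq_zero_of_notMem hp, Multiset.count_eq_zero_of_notMem hq]

theorem K1_code_sub {l : ℕ} (p : Nat.Partition l) :
    K1_code p ⊆ Finset.Icc 1 l ×ˢ Finset.Icc 1 l := by
  rintro ⟨i, m⟩ h
  rw [K1_code_mem] at h
  obtain ⟨h1, h2⟩ := h
  have hi : 1 ≤ i := p.parts_pos h1
  have hm : 1 ≤ m := by
    rw [← h2]
    exact Multiset.one_le_count_iff_mem.2 h1
  have hle : m * i ≤ l := by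
    have h3 : p.parts.sum = l := p.parts_sum
    have h4 : Multiset.replicate m i ≤ p.parts := by
      rw [← Multiset.le_count_iff_replicate_le, h2]
    obtain ⟨t, ht⟩ := Multiset.le_iff_exists_add.1 h4
    have h5 : (Multiset.replicate m i).sum ≤ p.parts.sum := by
      rw [ht, Multiset.sum_add]
      exact Nat.le_add_right _ _
    rw [Multiset.sum_replicate, smul_eq_mul, h3] at h5
    exact h5
  rw [Finset.mem_product, Finset.mem_Icc, Finset.mem_Icc]
  refine ⟨⟨hi, ?_⟩, ⟨hm, ?_⟩⟩
  · show i ≤ l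
    nlinarith
  · show m ≤ l
    nlinarith

theorem K1_exists_fn {α : Type} (T : Finset α) (r : ℕ) (S : Finset α) (hS : S ⊆ T)
    (hr : S.card ≤ r) :
    ∃ f : Fin r → Option {x // x ∈ T}, ∀ x : {x // x ∈ T}, (∃ i, f i = some x) ↔ x.1 ∈ S := by
  classical
  let e := S.equivFin
  refine ⟨fun i => if h : i.1 < S.card then some ⟨(e.symm ⟨i.1, h⟩).1, hS (e.symm ⟨i.1, h⟩).2⟩
    else none, ?_⟩
  intro x
  constructor
  · rintro ⟨i, hi⟩
    by_cases h : i.1 < S.card
    · simp only [h, dif_pos] at hi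
      have h2 := Option.some.inj hi
      rw [← h2]
      exact (e.symm ⟨i.1, h⟩).2
    · simp only [h, dif_neg, not_false_eq_true] at hi
      exact absurd hi (by simp)
  · intro hx
    refine ⟨⟨(e ⟨x.1, hx⟩).1, lt_of_lt_of_le (e ⟨x.1, hx⟩).2 hr⟩, ?_⟩
    have h : (e ⟨x.1, hx⟩).1 < S.card := (e ⟨x.1, hx⟩).2
    simp only [h, dif_pos]
    congr 1
    apply Subtype.ext
    simp

theorem card_partition_le (l : ℕ) : Fintype.card (Nat.Partition l) ≤ (l ^ 2 + 1) ^ (Nat.sqrt (2 * l) + 1) := by
  classical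
  have hcode : ∀ p : Nat.Partition l, (K1_code p).card ≤ Nat.sqrt (2 * l) + 1 := by
    intro p
    exact (Finset.card_image_le.trans (K1_card p)).trans (Nat.le_succ _)
  have hex : ∀ p : Nat.Partition l, ∃ f : Fin (Nat.sqrt (2 * l) + 1) →
      Option {x // x ∈ Finset.Icc 1 l ×ˢ Finset.Icc 1 l},
      ∀ x : {x // x ∈ Finset.Icc 1 l ×ˢ Finset.Icc 1 l},
        (∃ i, f i = some x) ↔ x.1 ∈ K1_code p :=
    fun p => K1_exists_fn _ _ _ (K1_code_sub p) (hcode p)
  choose F hF using hex
  have hinj : Function.Injective F := by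
    intro p q hpq
    apply K1_code_inj
    ext x
    constructor
    · intro hx
      have h1 := (hF p ⟨x, K1_code_sub p hx⟩).2 hx
      rw [hpq] at h1
      exact (hF q ⟨x, K1_code_sub p hx⟩).1 h1
    · intro hx
      have h1 := (hF q ⟨x, K1_code_sub q hx⟩).2 hx
      rw [← hpq] at h1
      exact (hF p ⟨x, K1_code_sub q hx⟩).1 h1
  refine (Fintype.card_le_of_injective F hinj).trans (le_of_eq ?_)
  rw [Fintype.card_fun, Fintype.card_option, Fintype.card_coe, Finset.card_product, Nat.card_Icc,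
    Fintype.card_fin]
  congr 1
  rw [Nat.add_sub_cancel, sq]

end Pool.Agent.BC5
end

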