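import Pool.Agent.Lib.MP_bc5a73_al.General
import Pool.Agent.Lib.MP_bc5a73_al.Inner
import Pool.Agent.Lib.MP_bc5a73_al.PartitionCount

section
set_option autoImplicit false
set_option linter.unusedSectionVars false
set_option linter.unusedVariables false
open scoped BigOperators Matrix
open Matrix
namespace Pool.Agent.BC5

variable {n : ℕ}

/-- `tr(M Π_Y L(g))`. -/
noncomputable def FE (M : Matrix (Alt n) (Alt n) ℝ) (Y : Finset (Fin n)) (g : Alt n) : ℝ :=
  (M * avL (AY Y) * Lm g).trace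

open Classical in
/-- The permutation induced on the complement of `Y` (junk value 1 if `c` does not preserve `Y`). -/
noncomputable def rst (Y : Finset (Fin n)) (c : Alt n) : Equiv.Perm {x : Fin n // x ∉ Y} :=
  if h : ∀ x, (c : Equiv.Perm (Fin n)) x ∉ Y ↔ x ∉ Y then (c : Equiv.Perm (Fin n)).subtypePerm h else 1

end Pool.Agent.BC5
end

section
set_option autoImplicit false
set_option linter.unusedSectionVars false
set_option linter.unusedVariables false
open scoped BigOperators Matrix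
open Matrix
namespace Pool.Agent.BC5


variable {n : ℕ}

theorem K2_img_inv (b : Alt n) (Y : Finset (Fin n)) (hb : img b Y = Y) : img b⁻¹ Y = Y := by
  have h : img b⁻¹ (img b Y) = Y := by
    unfold img
    rw [Finset.image_image]
    have h1 : ((fun x => ((b⁻¹ : Alt n) : Equiv.Perm (Fin n)) x) ∘ fun x => (b : Equiv.Perm (Fin n)) x) = id := by
      funext x
      simp
    rw [h1, Finset.image_id]
  rw [hb] at h
  exact h

theorem FE_mul_right {M : Matrix (Alt n) (Alt n) ℝ} (hM : CommL M) (Y : Finset (Fin n)) (c a : Alt n)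
    (ha : a ∈ AY Y) : FE M Y (c * a) = FE M Y c := by
  unfold FE
  rw [Lm_mul, ← Matrix.mul_assoc, Matrix.trace_mul_comm, ← Matrix.mul_assoc, ← Matrix.mul_assoc,
    ← (hM a).eq, Matrix.mul_assoc M, Lm_mul_avL (AY_isGrp Y) ha]

theorem FE_conj {M : Matrix (Alt n) (Alt n) ℝ} (hM : CommL M) (Y : Finset (Fin n)) (b c : Alt n)
    (hb : img b Y = Y) : FE M Y (b * c * b⁻¹) = FE M Y c := by
  unfold FE
  have h1 := Lm_conj_avL b⁻¹ Y
  rw [inv_inv, K2_img_inv b Y hb] at h1
  have h2 : M * avL (AY Y) * Lm (b * c * b⁻¹) = (M * avL (AY Y) * Lm b * Lm c) * Lm b⁻¹ := by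
    rw [Lm_mul, Lm_mul]
    simp only [Matrix.mul_assoc]
  rw [h2, Matrix.trace_mul_comm]
  have h3 : Lm b⁻¹ * (M * avL (AY Y) * Lm b * Lm c) = M * (Lm b⁻¹ * avL (AY Y) * Lm b) * Lm c := by
    have h4 := (hM b⁻¹).eq
    simp only [← Matrix.mul_assoc]
    rw [h4]
  rw [h3, h1]

theorem FE_sum (B : Finset (Matrix (Alt n) (Alt n) ℝ)) (c : Matrix (Alt n) (Alt n) ℝ → ℝ) (Y : Finset (Fin n))
    (g : Alt n) : FE (∑ E ∈ B, c E • E) Y g = ∑ E ∈ B, c E * FE E Y g := by
  unfold FE
  rw [Finset.sum_mul, Finset.sum_mul, Matrix.trace_sum]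
  refine Finset.sum_congr rfl fun E _ => ?_
  rw [Matrix.smul_mul, Matrix.smul_mul, Matrix.trace_smul, smul_eq_mul]

theorem K2_trace_mul_Lm {Q : Matrix (Alt n) (Alt n) ℝ} (hQ : CommR Q) (g : Alt n) :
    (Q * Lm g).trace = (Fintype.card (Alt n) : ℝ) * Q 1 g := by
  have h1 : ∀ x : Alt n, (Q * Lm g) x x = Q 1 g := by
    intro x
    rw [Matrix.mul_apply, Finset.sum_eq_single (g * x)]
    · have h2 := G1_commR hQ 1 g x
      rw [one_mul] at h2
      rw [h2]
      simp [Lm]
    · intro y _ hy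
      have h3 : ¬ x = g⁻¹ * y := by
        intro h
        apply hy
        rw [h, mul_inv_cancel_left]
      simp [Lm, h3]
    · intro h
      exact absurd (Finset.mem_univ _) h
  unfold Matrix.trace
  simp only [Matrix.diag_apply]
  rw [Finset.sum_congr rfl fun x _ => h1 x, Finset.sum_const, Finset.card_univ, nsmul_eq_mul]

theorem FE_eq_zero {M : Matrix (Alt n) (Alt n) ℝ} (hR : CommR M) (Y : Finset (Fin n))
    (h : ∀ g, FE M Y g = 0) : M * avL (AY Y) = 0 := by
  have hQ : CommR (M * avL (AY Y)) := fun g => (hR g).mul_left (avL_commR (AY Y) g)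
  have h1 : ∀ g, (M * avL (AY Y)) 1 g = 0 := by
    intro g
    have h2 := h g
    unfold FE at h2
    rw [K2_trace_mul_Lm hQ] at h2
    have h3 : (Fintype.card (Alt n) : ℝ) ≠ 0 := by
      exact_mod_cast Fintype.card_ne_zero
    exact (mul_eq_zero.1 h2).resolve_left h3
  ext x y
  have h4 := G1_commR hQ 1 (y * x⁻¹) x
  rw [one_mul, inv_mul_cancel_right, h1] at h4
  rw [h4, Matrix.zero_apply]

end Pool.Agent.BC5
end

section
set_option autoImplicit false
set_option linter.unusedSectionVars false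
set_option linter.unusedVariables false
open scoped BigOperators Matrix
open Matrix
namespace Pool.Agent.BC5


variable {n : ℕ}

theorem K3_sumLm (R T B : Finset (Fin n)) (h : Alt n) (hh : h ∈ AY (R \ T)) :
    Lm h * ∑ s ∈ (AY R).filter (fun s : Alt n => ∀ x ∈ T, (s : Equiv.Perm (Fin n)) x ∈ B), Lm s⁻¹ =
      ∑ s ∈ (AY R).filter (fun s : Alt n => ∀ x ∈ T, (s : Equiv.Perm (Fin n)) x ∈ B), Lm s⁻¹ := by
  rw [Matrix.mul_sum]
  refine Finset.sum_equiv (Equiv.mulRight h⁻¹) (fun s => ?_) (fun s _ => ?_)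
  · exact I1_mem R T B h⁻¹ ((AY_isGrp _).inv h hh) s
  · have h1 : (Equiv.mulRight h⁻¹ s)⁻¹ = h * s⁻¹ := by
      rw [Equiv.coe_mulRight, _root_.mul_inv_rev, inv_inv]
    rw [h1, Lm_mul]

theorem K3_avL (R T B : Finset (Fin n)) :
    avL (AY (R \ T)) * ∑ s ∈ (AY R).filter (fun s : Alt n => ∀ x ∈ T, (s : Equiv.Perm (Fin n)) x ∈ B), Lm s⁻¹ =
      ∑ s ∈ (AY R).filter (fun s : Alt n => ∀ x ∈ T, (s : Equiv.Perm (Fin n)) x ∈ B), Lm s⁻¹ := by
  have hcard : ((AY (R \ T)).card : ℝ) ≠ 0 := by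
    have : 0 < (AY (R \ T)).card := Finset.card_pos.mpr ⟨1, (AY_isGrp _).one⟩
    exact_mod_cast this.ne'
  conv_lhs => rw [avL, Matrix.smul_mul, Matrix.sum_mul]
  rw [Finset.sum_congr rfl fun h hh => K3_sumLm R T B h hh, Finset.sum_const,
    ← Nat.cast_smul_eq_nsmul ℝ, smul_smul, inv_mul_cancel₀ hcard, one_smul]

theorem K3_sum_zero {M : Matrix (Alt n) (Alt n) ℝ} (hML : CommL M) (Y R T B : Finset (Fin n))
    (hYR : Y ⊆ R \ T) (hz : avL (AY (R \ T)) * M = 0) (g : Alt n) :
    ∑ s ∈ (AY R).filter (fun s : Alt n => ∀ x ∈ T, (s : Equiv.Perm (Fin n)) x ∈ B),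
      FE M Y (s⁻¹ * g) = 0 := by
  have h1 : ∑ s ∈ (AY R).filter (fun s : Alt n => ∀ x ∈ T, (s : Equiv.Perm (Fin n)) x ∈ B),
      FE M Y (s⁻¹ * g) = (M * avL (AY Y) * (∑ s ∈ (AY R).filter
        (fun s : Alt n => ∀ x ∈ T, (s : Equiv.Perm (Fin n)) x ∈ B), Lm s⁻¹) * Lm g).trace := by
    rw [Matrix.mul_sum, Matrix.sum_mul, Matrix.trace_sum]
    refine Finset.sum_congr rfl fun s _ => ?_
    rw [FE, Lm_mul, Matrix.mul_assoc, Matrix.mul_assoc, Matrix.mul_assoc]
  have h2 : avL (AY Y) * avL (AY (R \ T)) = avL (AY (R \ T)) :=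
    (avL_mul_avL_of_subset (AY_isGrp _) (AY_isGrp _) (AY_mono hYR)).2
  have h3 : M * avL (AY (R \ T)) = 0 := by
    rw [(G8_commL_avL hML _).eq, hz]
  rw [h1, ← K3_avL R T B]
  have h4 : M * avL (AY Y) * (avL (AY (R \ T)) * (∑ s ∈ (AY R).filter
        (fun s : Alt n => ∀ x ∈ T, (s : Equiv.Perm (Fin n)) x ∈ B), Lm s⁻¹)) = 0 := by
    rw [← Matrix.mul_assoc, Matrix.mul_assoc M, h2, h3, Matrix.zero_mul]
  rw [h4, Matrix.zero_mul, Matrix.trace_zero]

theorem K3_mem_of_map {R : Finset (Fin n)} {s : Alt n} (hs : s ∈ AY R) {z : Fin n}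
    (hz : (s : Equiv.Perm (Fin n)) z ∈ R) : z ∈ R := by
  by_contra h
  have h1 := (mem_AY R s).1 hs _ h
  rw [h1] at hz
  exact h hz

theorem K3_img_card (g : Alt n) (Y : Finset (Fin n)) : (img g Y).card = Y.card := by
  unfold img
  rw [Finset.card_image_of_injective _ (g : Equiv.Perm (Fin n)).injective]

theorem K3_img_eq (Y : Finset (Fin n)) (g s : Alt n) (hs : s ∈ AY (Y ∪ img g Y))
    (hB : ∀ x ∈ img g Y \ Y, (s : Equiv.Perm (Fin n)) x ∈ Y \ img g Y) : img (s⁻¹ * g) Y = Y := by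
  apply Finset.eq_of_subset_of_card_le
  · intro z hz
    unfold img at hz
    rw [Finset.mem_image] at hz
    obtain ⟨y, hy, rfl⟩ := hz
    have hgy : (g : Equiv.Perm (Fin n)) y ∈ img g Y := Finset.mem_image_of_mem _ hy
    have hsz : (s : Equiv.Perm (Fin n)) (((s⁻¹ * g : Alt n) : Equiv.Perm (Fin n)) y) =
        (g : Equiv.Perm (Fin n)) y := by
      rw [Subgroup.coe_mul, Subgroup.coe_inv, Equiv.Perm.mul_apply]; simp
    have hzR := K3_mem_of_map hs (z := ((s⁻¹ * g : Alt n) : Equiv.Perm (Fin n)) y)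
      (by rw [hsz]; exact Finset.mem_union_right _ hgy)
    by_contra hcon
    have hzI : ((s⁻¹ * g : Alt n) : Equiv.Perm (Fin n)) y ∈ img g Y \ Y := by
      rw [Finset.mem_sdiff]
      rw [Finset.mem_union] at hzR
      exact ⟨hzR.resolve_left hcon, hcon⟩
    have h2 := hB _ hzI
    rw [hsz, Finset.mem_sdiff] at h2
    exact h2.2 hgy
  · rw [K3_img_card]

theorem K3_phi {M : Matrix (Alt n) (Alt n) ℝ} (hML : CommL M) (Y : Finset (Fin n)) (g a b : Alt n)
    (ha : a ∈ AY (img g Y)) (hb : b ∈ AY Y) : FE M Y ((a * b)⁻¹ * g) = FE M Y g := by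
  have h1 : (a * b)⁻¹ * g = (b⁻¹ * g) * (g⁻¹ * a⁻¹ * g) := by group
  have h2 : g⁻¹ * a⁻¹ * g ∈ AY Y := by
    rw [mem_AY]
    intro x hx
    have h3 : (g : Equiv.Perm (Fin n)) x ∉ img g Y := by
      intro h4
      unfold img at h4
      rw [Finset.mem_image] at h4
      obtain ⟨y, hy, hyx⟩ := h4
      rw [(g : Equiv.Perm (Fin n)).injective hyx] at hy
      exact hx hy
    have h4 := (mem_AY _ _).1 ((AY_isGrp _).inv a ha) _ h3
    rw [Subgroup.coe_mul, Subgroup.coe_mul, Equiv.Perm.mul_apply, Equiv.Perm.mul_apply, h4,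
      Subgroup.coe_inv]; simp
  rw [h1, FE_mul_right hML Y _ _ h2]
  unfold FE
  have h5 : avL (AY Y) * Lm b⁻¹ = avL (AY Y) := G2_avL_mul_Lm (AY_isGrp _) ((AY_isGrp _).inv b hb)
  rw [Lm_mul, ← Matrix.mul_assoc, Matrix.mul_assoc M, h5]

theorem FE_zero_of_stab {M : Matrix (Alt n) (Alt n) ℝ} (hML : CommL M) (hMR : CommR M) (Y : Finset (Fin n))
    (l m : ℕ) (hY : Y.card = m) (hm : m + l = n) (hlm : l + 2 ≤ m)
    (hno : ∀ Z : Finset (Fin n), m + 1 ≤ Z.card → avL (AY Z) * M = 0)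
    (h : ∀ c : Alt n, img c Y = Y → FE M Y c = 0) (g : Alt n) : FE M Y g = 0 := by
  have hY' : (img g Y).card = m := by rw [K3_img_card, hY]
  have hIl : (img g Y \ Y).card ≤ l := by
    have h1 : img g Y \ Y ⊆ Yᶜ := by
      intro x hx
      rw [Finset.mem_compl]
      exact (Finset.mem_sdiff.1 hx).2
    have h2 := Finset.card_le_card h1
    rw [Finset.card_compl, Fintype.card_fin, hY] at h2
    omega
  have hcR : (Y ∪ img g Y).card = m + (img g Y \ Y).card := by
    rw [← Finset.union_sdiff_self_eq_union, Finset.card_union_of_disjoint Finset.disjoint_sdiff, hY]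
  have hie := sum_inclusion_exclusion (Y ∪ img g Y) (img g Y \ Y) (Y \ img g Y)
    (fun s => FE M Y (s⁻¹ * g)) (by
      intro T hT
      have hTR : T ⊆ Y ∪ img g Y :=
        hT.1.trans (Finset.sdiff_subset.trans Finset.subset_union_right)
      have hcT : T.card < (img g Y \ Y).card := Finset.card_lt_card hT
      apply K3_sum_zero hML
      · intro y hy
        rw [Finset.mem_sdiff]
        refine ⟨Finset.mem_union_left _ hy, fun hyT => ?_⟩
        exact (Finset.mem_sdiff.1 (hT.1 hyT)).2 hy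
      · apply hno
        rw [Finset.card_sdiff_of_subset hTR]
        omega)
  have hR0 : ∑ s ∈ (AY (Y ∪ img g Y)).filter (fun s : Alt n => ∀ x ∈ img g Y \ Y,
      (s : Equiv.Perm (Fin n)) x ∈ Y \ img g Y), FE M Y (s⁻¹ * g) = 0 := by
    apply Finset.sum_eq_zero
    intro s hs
    rw [Finset.mem_filter] at hs
    exact h _ (K3_img_eq Y g s hs.1 hs.2)
  have hL : ∑ s ∈ (AY (Y ∪ img g Y)).filter (fun s : Alt n => ∀ x ∈ img g Y \ Y,
      (s : Equiv.Perm (Fin n)) x ∉ Y \ img g Y), FE M Y (s⁻¹ * g) =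
      (((AY (Y ∪ img g Y)).filter (fun s : Alt n => ∀ x ∈ img g Y \ Y,
      (s : Equiv.Perm (Fin n)) x ∉ Y \ img g Y)).card : ℝ) * FE M Y g := by
    rw [← nsmul_eq_mul, ← Finset.sum_const]
    refine Finset.sum_congr rfl fun s hs => ?_
    rw [Finset.mem_filter] at hs
    obtain ⟨a, ha, b, hb, hab⟩ := exists_factor Y (img g Y) m hY hY' (by omega) s hs.1 hs.2
    rw [hab]
    exact K3_phi hML Y g a b ha hb
  simp only [hR0, hL, mul_zero] at hie
  have hpos : 0 < ((AY (Y ∪ img g Y)).filter (fun s : Alt n => ∀ x ∈ img g Y \ Y,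
      (s : Equiv.Perm (Fin n)) x ∉ Y \ img g Y)).card := by
    refine Finset.card_pos.2 ⟨1, ?_⟩
    rw [Finset.mem_filter]
    refine ⟨(AY_isGrp _).one, fun x hx hx' => ?_⟩
    have h1 : ((1 : Alt n) : Equiv.Perm (Fin n)) x = x := rfl
    rw [h1] at hx'
    exact (Finset.mem_sdiff.1 hx').2 (Finset.mem_sdiff.1 hx).1
  rcases mul_eq_zero.1 hie with h1 | h1
  · exact absurd h1 (by exact_mod_cast hpos.ne')
  · exact h1

end Pool.Agent.BC5
end

section
set_option autoImplicit false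
set_option linter.unusedSectionVars false
set_option linter.unusedVariables false
open scoped BigOperators Matrix
open Matrix
namespace Pool.Agent.BC5


variable {n : ℕ}

theorem FE_cycle_pres {c : Alt n} {Y : Finset (Fin n)} (hc : img c Y = Y) (x : Fin n) :
    (c : Equiv.Perm (Fin n)) x ∉ Y ↔ x ∉ Y := by
  rw [not_iff_not]
  constructor
  · intro h
    rw [← hc] at h
    obtain ⟨y, hy, hxy⟩ := Finset.mem_image.1 h
    have h2 := (c : Equiv.Perm (Fin n)).injective hxy
    exact h2 ▸ hy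
  · intro h
    rw [← hc]
    exact Finset.mem_image_of_mem _ h

theorem FE_cycle_img (b : Alt n) (Y : Finset (Fin n))
    (h : ∀ x, x ∈ Y → (b : Equiv.Perm (Fin n)) x ∈ Y) : img b Y = Y := by
  apply Finset.eq_of_subset_of_card_le
  · intro x hx
    obtain ⟨y, hy, rfl⟩ := Finset.mem_image.1 hx
    exact h y hy
  · unfold img
    rw [Finset.card_image_of_injective _ (b : Equiv.Perm (Fin n)).injective]

theorem FE_cycle_ext (Y : Finset (Fin n)) (hY : 2 ≤ Y.card) (τ : Equiv.Perm {x : Fin n // x ∉ Y}) :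
    ∃ b : Alt n, img b Y = Y ∧
      ∀ x (hx : x ∉ Y), (b : Equiv.Perm (Fin n)) x = ((τ ⟨x, hx⟩ : {x : Fin n // x ∉ Y}) : Fin n) := by
  classical
  obtain ⟨u, hu, v, hv, huv⟩ := Finset.one_lt_card.1 (by omega : 1 < Y.card)
  have hσ1 : ∀ x, x ∈ Y → (Equiv.Perm.ofSubtype τ : Equiv.Perm (Fin n)) x = x :=
    fun x hx => Equiv.Perm.ofSubtype_apply_of_not_mem τ (fun h => h hx)
  have hσ2 : ∀ x (hx : x ∉ Y),
      (Equiv.Perm.ofSubtype τ : Equiv.Perm (Fin n)) x = ((τ ⟨x, hx⟩ : {x : Fin n // x ∉ Y}) : Fin n) :=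
    fun x hx => Equiv.Perm.ofSubtype_apply_of_mem τ hx
  rcases Int.units_eq_one_or (Equiv.Perm.sign (Equiv.Perm.ofSubtype τ : Equiv.Perm (Fin n))) with h | h
  · refine ⟨⟨Equiv.Perm.ofSubtype τ, Equiv.Perm.mem_alternatingGroup.2 h⟩, ?_, ?_⟩
    · apply FE_cycle_img
      intro x hx
      show (Equiv.Perm.ofSubtype τ : Equiv.Perm (Fin n)) x ∈ Y
      rw [hσ1 x hx]
      exact hx
    · intro x hx
      exact hσ2 x hx
  · refine ⟨⟨Equiv.Perm.ofSubtype τ * Equiv.swap u v, Equiv.Perm.mem_alternatingGroup.2 ?_⟩, ?_, ?_⟩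
    · rw [Equiv.Perm.sign_mul, h, Equiv.Perm.sign_swap huv]
      norm_num
    · apply FE_cycle_img
      intro x hx
      show (Equiv.Perm.ofSubtype τ * Equiv.swap u v : Equiv.Perm (Fin n)) x ∈ Y
      rw [Equiv.Perm.mul_apply]
      have h3 : Equiv.swap u v x ∈ Y := by
        rcases eq_or_ne x u with rfl | hxu
        · rw [Equiv.swap_apply_left]; exact hv
        · rcases eq_or_ne x v with rfl | hxv
          · rw [Equiv.swap_apply_right]; exact hu
          · rw [Equiv.swap_apply_of_ne_of_ne hxu hxv]; exact hx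
      rw [hσ1 _ h3]
      exact h3
    · intro x hx
      show (Equiv.Perm.ofSubtype τ * Equiv.swap u v : Equiv.Perm (Fin n)) x = _
      rw [Equiv.Perm.mul_apply, Equiv.swap_apply_of_ne_of_ne]
      · exact hσ2 x hx
      · rintro rfl; exact hx hu
      · rintro rfl; exact hx hv

theorem FE_cycle_rst {Y : Finset (Fin n)} {c : Alt n} (hc : img c Y = Y) (x : Fin n) (hx : x ∉ Y) :
    ((rst Y c ⟨x, hx⟩ : {x : Fin n // x ∉ Y}) : Fin n) = (c : Equiv.Perm (Fin n)) x := by
  unfold rst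
  rw [dif_pos (fun x => FE_cycle_pres hc x)]
  rfl

theorem FE_cycle {M : Matrix (Alt n) (Alt n) ℝ} (hM : CommL M) (Y : Finset (Fin n)) (hY : 2 ≤ Y.card) (c c' : Alt n)
    (hc : img c Y = Y) (hc' : img c' Y = Y) (h : (rst Y c).cycleType = (rst Y c').cycleType) :
    FE M Y c = FE M Y c' := by
  obtain ⟨τ, hτ⟩ := isConj_iff.1 (Equiv.Perm.isConj_iff_cycleType_eq.2 h)
  obtain ⟨b, hb1, hb2⟩ := FE_cycle_ext Y hY τ
  have ha : (b * c * b⁻¹)⁻¹ * c' ∈ AY Y := by
    rw [mem_AY]
    intro x hx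
    have h1 : (c' : Equiv.Perm (Fin n)) x = ((b * c * b⁻¹ : Alt n) : Equiv.Perm (Fin n)) x := by
      rw [← FE_cycle_rst hc' x hx, ← hτ]
      have h2 : ((b : Equiv.Perm (Fin n)))⁻¹ x = ((τ⁻¹ ⟨x, hx⟩ : {x : Fin n // x ∉ Y}) : Fin n) := by
        rw [Equiv.Perm.inv_eq_iff_eq, hb2 _ (τ⁻¹ ⟨x, hx⟩).2]
        simp
      rw [Subgroup.coe_mul, Subgroup.coe_mul, Subgroup.coe_inv, Equiv.Perm.mul_apply, Equiv.Perm.mul_apply,
        Equiv.Perm.mul_apply, Equiv.Perm.mul_apply, h2]
      have h4 : (c : Equiv.Perm (Fin n)) ((τ⁻¹ ⟨x, hx⟩ : {x : Fin n // x ∉ Y}) : Fin n) =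
          ((rst Y c (τ⁻¹ ⟨x, hx⟩) : {x : Fin n // x ∉ Y}) : Fin n) :=
        (FE_cycle_rst hc _ (τ⁻¹ ⟨x, hx⟩).2).symm
      rw [h4, hb2 _ (rst Y c (τ⁻¹ ⟨x, hx⟩)).2]
    rw [Subgroup.coe_mul, Subgroup.coe_inv, Equiv.Perm.mul_apply, h1, Equiv.Perm.inv_eq_iff_eq]
  have h5 : c' = (b * c * b⁻¹) * ((b * c * b⁻¹)⁻¹ * c') := by group
  rw [h5, FE_mul_right hM Y _ _ ha, FE_conj hM Y b c hb1]

end Pool.Agent.BC5
end

section
set_option autoImplicit false
set_option linter.unusedSectionVars false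
set_option linter.unusedVariables false
open scoped BigOperators Matrix
open Matrix
namespace Pool.Agent.BC5


variable {n : ℕ}

/-- The linear combination with coefficients from `↥B`. -/
noncomputable def K5_ext (B : Finset (Matrix (Alt n) (Alt n) ℝ)) (c : ↥B → ℝ) :
    Matrix (Alt n) (Alt n) ℝ → ℝ :=
  fun E => open Classical in if h : E ∈ B then c ⟨E, h⟩ else 0

theorem K5_ext_of_mem (B : Finset (Matrix (Alt n) (Alt n) ℝ)) (c : ↥B → ℝ) (E : ↥B) :
    K5_ext B c E = c E := by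
  unfold K5_ext
  rw [dif_pos E.2]

theorem K5_sum (B : Finset (Matrix (Alt n) (Alt n) ℝ)) (c : ↥B → ℝ)
    (F : Matrix (Alt n) (Alt n) ℝ → ℝ) :
    ∑ E ∈ B, K5_ext B c E * F E = ∑ E : ↥B, c E * F E := by
  rw [← Finset.sum_coe_sort]
  refine Finset.sum_congr rfl (fun E _ => ?_)
  rw [K5_ext_of_mem]

theorem K5_commL (B : Finset (Matrix (Alt n) (Alt n) ℝ)) (c : Matrix (Alt n) (Alt n) ℝ → ℝ)
    (hB : ∀ E ∈ B, CommL E) : CommL (∑ E ∈ B, c E • E) := by
  intro g
  exact Commute.sum_left _ _ _ (fun E hE => (hB E hE g).smul_left _)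

theorem K5_commR (B : Finset (Matrix (Alt n) (Alt n) ℝ)) (c : Matrix (Alt n) (Alt n) ℝ → ℝ)
    (hB : ∀ E ∈ B, CommR E) : CommR (∑ E ∈ B, c E • E) := by
  intro g
  exact Commute.sum_left _ _ _ (fun E hE => (hB E hE g).smul_left _)

theorem K5_commute_avL {E : Matrix (Alt n) (Alt n) ℝ} (hE : CommL E) (S : Finset (Alt n)) :
    Commute E (avL S) := by
  unfold avL
  exact (Commute.sum_right _ _ _ (fun h _ => hE h)).smul_right _

theorem K5_block_mul_sum (B : Finset (Matrix (Alt n) (Alt n) ℝ))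
    (c : Matrix (Alt n) (Alt n) ℝ → ℝ) (hB : ∀ E ∈ B, IsBlock E)
    (E0 : Matrix (Alt n) (Alt n) ℝ) (hE0 : E0 ∈ B) :
    E0 * (∑ E ∈ B, c E • E) = c E0 • E0 := by
  rw [Finset.mul_sum, Finset.sum_eq_single E0]
  · rw [Matrix.mul_smul, (hB E0 hE0).1.2]
  · intro E hE hne
    rcases block_eq_or_mul_eq_zero (hB E0 hE0) (hB E hE) with h | h
    · exact absurd h.symm hne
    · rw [Matrix.mul_smul, h, smul_zero]
  · intro h
    exact absurd hE0 h

open Classical in
/-- The coefficients of the linear map. -/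
noncomputable def K5_a (Y : Finset (Fin n)) (E : Matrix (Alt n) (Alt n) ℝ)
    (π : Nat.Partition (Fintype.card {x : Fin n // x ∉ Y})) : ℝ :=
  if h : ∃ g : Alt n, img g Y = Y ∧ (rst Y g).partition = π then FE E Y h.choose else 0

theorem K5_a_eq (Y : Finset (Fin n)) (hY : 2 ≤ Y.card) {E : Matrix (Alt n) (Alt n) ℝ}
    (hE : CommL E) (g : Alt n) (hg : img g Y = Y) :
    K5_a Y E (rst Y g).partition = FE E Y g := by
  have h : ∃ g' : Alt n, img g' Y = Y ∧ (rst Y g').partition = (rst Y g).partition := ⟨g, hg, rfl⟩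
  unfold K5_a
  rw [dif_pos h]
  apply FE_cycle hE Y hY _ _ h.choose_spec.1 hg
  rw [← Equiv.Perm.isConj_iff_cycleType_eq]
  exact Equiv.Perm.partition_eq_of_isConj.2 h.choose_spec.2

/-- The linear map. -/
noncomputable def K5_map (B : Finset (Matrix (Alt n) (Alt n) ℝ)) (Y : Finset (Fin n)) :
    (↥B → ℝ) →ₗ[ℝ] (Nat.Partition (Fintype.card {x : Fin n // x ∉ Y}) → ℝ) where
  toFun := fun c π => ∑ E : ↥B, c E * K5_a Y (E : Matrix (Alt n) (Alt n) ℝ) π
  map_add' := by
    intro c c'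
    funext π
    simp only [Pi.add_apply, add_mul, Finset.sum_add_distrib]
  map_smul' := by
    intro r c
    funext π
    simp only [Pi.smul_apply, smul_eq_mul, RingHom.id_apply, Finset.mul_sum, mul_assoc]

theorem exact_count (l : ℕ) (hl : 1 ≤ l) (hn : 2 * l + 4 ≤ n) (B : Finset (Matrix (Alt n) (Alt n) ℝ))
    (hB : ∀ E ∈ B, IsBlock E ∧ LevLe l E ∧ ¬ LevLe (l - 1) E) : B.card ≤ Fintype.card (Nat.Partition l) := by
  obtain ⟨Y, -, hY⟩ := Finset.exists_subset_card_eq (s := (Finset.univ : Finset (Fin n)))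
    (n := n - l) (by simp)
  have hcard : Fintype.card {x : Fin n // x ∉ Y} = l := by
    rw [Fintype.card_subtype_compl, Fintype.card_fin, Fintype.card_coe, hY]
    omega
  have hinj : Function.Injective (K5_map B Y) := by
    rw [injective_iff_map_eq_zero]
    intro c hc
    have hM0 : (∑ E ∈ B, K5_ext B c E • E) * avL (AY Y) = 0 := by
      have hMR := K5_commR B (K5_ext B c) (fun E hE => (hB E hE).1.2.2.1)
      have hML := K5_commL B (K5_ext B c) (fun E hE => (hB E hE).1.2.1)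
      apply FE_eq_zero hMR Y
      apply FE_zero_of_stab hML hMR Y l (n - l) hY (by omega) (by omega)
      · intro Z hZ
        rw [Finset.mul_sum]
        apply Finset.sum_eq_zero
        intro E hE
        rw [Matrix.mul_smul, avL_mul_eq_zero_of_not_levLe (hB E hE).2.2 Z (by omega), smul_zero]
      · intro g hg
        rw [FE_sum, K5_sum B c (fun E => FE E Y g)]
        have h1 := congrFun hc (rst Y g).partition
        rw [Pi.zero_apply] at h1
        rw [← h1]
        show _ = ∑ E : ↥B, c E * K5_a Y (E : Matrix (Alt n) (Alt n) ℝ) (rst Y g).partition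
        refine Finset.sum_congr rfl (fun E _ => ?_)
        rw [K5_a_eq Y (by omega) (hB E E.2).1.2.1 g hg]
    funext E0
    have h1 : (E0 : Matrix (Alt n) (Alt n) ℝ) * ((∑ E ∈ B, K5_ext B c E • E) * avL (AY Y)) = 0 := by
      rw [hM0, Matrix.mul_zero]
    rw [← Matrix.mul_assoc, K5_block_mul_sum B (K5_ext B c) (fun E hE => (hB E hE).1) E0 E0.2,
      Matrix.smul_mul, K5_ext_of_mem, (K5_commute_avL (hB E0 E0.2).1.2.1 (AY Y)).eq] at h1
    rcases smul_eq_zero.1 h1 with h2 | h2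
    · exact h2
    · exact absurd h2 (avL_mul_ne_zero_of_levLe (by omega) (hB E0 E0.2).1 (hB E0 E0.2).2.1 Y
        (by omega))
  have h := LinearMap.finrank_le_finrank_of_injective hinj
  rw [Module.finrank_fintype_fun_eq_card, Module.finrank_fintype_fun_eq_card, Fintype.card_coe,
    hcard] at h
  exact h

end Pool.Agent.BC5
end

section
set_option autoImplicit false
set_option linter.unusedSectionVars false
set_option linter.unusedVariables false
open scoped BigOperators Matrix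
open Matrix
namespace Pool.Agent.BC5


theorem K6_conj_of_even {n : ℕ} (g h : Alt n) (σ : Equiv.Perm (Fin n)) (hs : Equiv.Perm.sign σ = 1)
    (hc : σ * (g : Equiv.Perm (Fin n)) * σ⁻¹ = h) : IsConj g h := by
  rw [isConj_iff]
  exact ⟨⟨σ, hs⟩, Subtype.ext hc⟩

noncomputable def K6_map (n : ℕ) : ConjClasses (Alt n) → Nat.Partition (Fintype.card (Fin n)) :=
  Quotient.lift (fun g : Alt n => (g : Equiv.Perm (Fin n)).partition) (by
    intro a b h
    have h' : IsConj a b := h
    obtain ⟨c, hc⟩ := isConj_iff.1 h'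
    have h2 : IsConj (a : Equiv.Perm (Fin n)) (b : Equiv.Perm (Fin n)) := by
      rw [isConj_iff]
      refine ⟨(c : Equiv.Perm (Fin n)), ?_⟩
      rw [← hc]
      simp
    exact Equiv.Perm.partition_eq_of_isConj.1 h2)

theorem kc_alt_le (n : ℕ) : kc (Alt n) ≤ 2 * Fintype.card (Nat.Partition n) := by
  classical
  have hcard : Fintype.card (Nat.Partition (Fintype.card (Fin n))) = Fintype.card (Nat.Partition n) := by
    rw [Fintype.card_fin]
  unfold kc
  rw [Nat.card_eq_fintype_card, ← hcard, ← Finset.card_univ, ← Finset.card_univ]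
  refine Finset.card_le_mul_card_image_of_maps_to (f := K6_map n) (fun a _ => Finset.mem_univ _) 2 ?_
  intro π _
  by_contra hlt
  rw [not_le] at hlt
  obtain ⟨a, ha, b, hb, c, hc, hab, hac, hbc⟩ := Finset.two_lt_card.1 hlt
  have ha' : K6_map n a = π := (Finset.mem_filter.1 ha).2
  have hb' : K6_map n b = π := (Finset.mem_filter.1 hb).2
  have hc' : K6_map n c = π := (Finset.mem_filter.1 hc).2
  obtain ⟨g1, rfl⟩ := Quotient.exists_rep a
  obtain ⟨g2, rfl⟩ := Quotient.exists_rep b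
  obtain ⟨g3, rfl⟩ := Quotient.exists_rep c
  have e1 : (g1 : Equiv.Perm (Fin n)).partition = π := ha'
  have e2 : (g2 : Equiv.Perm (Fin n)).partition = π := hb'
  have e3 : (g3 : Equiv.Perm (Fin n)).partition = π := hc'
  have c12 : IsConj (g1 : Equiv.Perm (Fin n)) (g2 : Equiv.Perm (Fin n)) :=
    Equiv.Perm.partition_eq_of_isConj.2 (e1.trans e2.symm)
  have c13 : IsConj (g1 : Equiv.Perm (Fin n)) (g3 : Equiv.Perm (Fin n)) :=
    Equiv.Perm.partition_eq_of_isConj.2 (e1.trans e3.symm)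
  obtain ⟨s, hs⟩ := isConj_iff.1 c12
  obtain ⟨t, ht⟩ := isConj_iff.1 c13
  rcases Int.units_eq_one_or (Equiv.Perm.sign s) with h1 | h1
  · exact hab (Quotient.sound (K6_conj_of_even g1 g2 s h1 hs))
  · rcases Int.units_eq_one_or (Equiv.Perm.sign t) with h2 | h2
    · exact hac (Quotient.sound (K6_conj_of_even g1 g3 t h2 ht))
    · apply hbc
      refine Quotient.sound (K6_conj_of_even g2 g3 (t * s⁻¹) ?_ ?_)
      · rw [Equiv.Perm.sign_mul, Equiv.Perm.sign_inv, h1, h2]
        decide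
      · rw [← hs, ← ht]
        group

end Pool.Agent.BC5
end

section
set_option autoImplicit false
set_option linter.unusedSectionVars false
set_option linter.unusedVariables false
open scoped BigOperators Matrix
open Matrix
namespace Pool.Agent.BC5


theorem partition_exp (l n : ℕ) (hl : 1 ≤ l) (hln : l ≤ n) (hn : 3 ≤ n) :
    (Fintype.card (Nat.Partition l) : ℝ) ≤ Real.exp (9 * Real.sqrt l * Real.log n) := by
  have hn0 : (0 : ℝ) < n := by exact_mod_cast (by omega : 0 < n)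
  have hlog : 0 ≤ Real.log n := Real.log_nonneg (by exact_mod_cast (by omega : 1 ≤ n))
  have h1 : (Fintype.card (Nat.Partition l) : ℝ) ≤
      ((n : ℝ) ^ 3) ^ (Nat.sqrt (2 * l) + 1) := by
    have h2 : l ^ 2 + 1 ≤ n ^ 3 := by
      have h3 : l ^ 2 ≤ n ^ 2 := Nat.pow_le_pow_left hln 2
      have h4 : n ^ 2 * 3 ≤ n ^ 3 := by
        rw [pow_succ n 2]
        exact Nat.mul_le_mul_left _ hn
      have h5 : 1 ≤ n ^ 2 := Nat.one_le_pow _ _ (by omega)
      omega
    have h6 : Fintype.card (Nat.Partition l) ≤ (n ^ 3) ^ (Nat.sqrt (2 * l) + 1) :=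
      (card_partition_le l).trans (Nat.pow_le_pow_left h2 _)
    exact_mod_cast h6
  have h7 : ((n : ℝ) ^ 3) ^ (Nat.sqrt (2 * l) + 1) =
      Real.exp (3 * ((Nat.sqrt (2 * l) : ℝ) + 1) * Real.log n) := by
    rw [← pow_mul]
    have h8 : (3 * ((Nat.sqrt (2 * l) : ℝ) + 1) * Real.log n) =
        ((3 * (Nat.sqrt (2 * l) + 1) : ℕ) : ℝ) * Real.log n := by push_cast; ring
    rw [h8, Real.exp_nat_mul, Real.exp_log hn0]
  rw [h7] at h1
  refine h1.trans (Real.exp_le_exp.2 ?_)
  apply mul_le_mul_of_nonneg_right _ hlog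
  have hl1 : (1 : ℝ) ≤ l := by exact_mod_cast hl
  have hs1 : (1 : ℝ) ≤ Real.sqrt l := by
    rw [show (1 : ℝ) = Real.sqrt 1 by rw [Real.sqrt_one]]
    exact Real.sqrt_le_sqrt hl1
  have hs2 : (Nat.sqrt (2 * l) : ℝ) ≤ Real.sqrt ((2 * l : ℕ) : ℝ) := Real.nat_sqrt_le_real_sqrt
  have hs3 : Real.sqrt ((2 * l : ℕ) : ℝ) ≤ 2 * Real.sqrt l := by
    rw [show (2 : ℝ) * Real.sqrt l = Real.sqrt (4 * l) by
      rw [Real.sqrt_mul (by norm_num : (0 : ℝ) ≤ 4)]
      congr 1
      rw [show (4 : ℝ) = 2 ^ 2 by norm_num, Real.sqrt_sq (by norm_num)]]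
    apply Real.sqrt_le_sqrt
    push_cast
    linarith
  linarith

theorem block_count : ∃ n0 : ℕ, ∀ n : ℕ, n0 ≤ n → ∀ k : ℕ, 1 ≤ k → ∀ B : Finset (Matrix (Alt n) (Alt n) ℝ),
    (∀ E ∈ B, IsBlock E ∧ LevLe k E) → (B.card : ℝ) ≤ Real.exp (24 * Real.sqrt k * Real.log n) := by
  refine ⟨8, fun n hn k hk B hB => ?_⟩
  have hn0 : (0 : ℝ) < n := by exact_mod_cast (by omega : 0 < n)
  have hlog : 0 ≤ Real.log n := Real.log_nonneg (by exact_mod_cast (by omega : 1 ≤ n))
  have hk1 : (1 : ℝ) ≤ k := by exact_mod_cast hk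
  have hs1 : (1 : ℝ) ≤ Real.sqrt k := by
    rw [show (1 : ℝ) = Real.sqrt 1 by rw [Real.sqrt_one]]
    exact Real.sqrt_le_sqrt hk1
  by_cases hkn : 2 * k + 4 ≤ n
  · classical
    let lev : Matrix (Alt n) (Alt n) ℝ → ℕ := fun E => if h : ∃ l, LevLe l E then Nat.find h else 0
    have hlev : ∀ E ∈ B, LevLe (lev E) E ∧ lev E ≤ k ∧ (1 ≤ lev E → ¬ LevLe (lev E - 1) E) := by
      intro E hE
      have hex : ∃ l, LevLe l E := ⟨k, (hB E hE).2⟩
      have h1 : lev E = Nat.find hex := dif_pos hex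
      rw [h1]
      refine ⟨Nat.find_spec hex, Nat.find_min' hex (hB E hE).2, fun h2 => ?_⟩
      exact Nat.find_min hex (by omega)
    have hcard : B.card = ∑ l ∈ Finset.range (k + 1), (B.filter (fun E => lev E = l)).card := by
      apply Finset.card_eq_sum_card_fiberwise
      intro E hE
      have := (hlev E (Finset.mem_coe.1 hE)).2.1
      rw [Finset.mem_coe, Finset.mem_range]
      omega
    have hexp1 : (1 : ℝ) ≤ Real.exp (9 * Real.sqrt k * Real.log n) := by
      rw [← Real.exp_zero]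
      apply Real.exp_le_exp.2
      positivity
    have hterm : ∀ l ∈ Finset.range (k + 1), ((B.filter (fun E => lev E = l)).card : ℝ) ≤
        Real.exp (9 * Real.sqrt k * Real.log n) := by
      intro l hl
      have hlk : l ≤ k := by
        rw [Finset.mem_range] at hl
        omega
      rcases Nat.eq_zero_or_pos l with h0 | hpos
      · subst h0
        have h2 : B.filter (fun E => lev E = 0) ⊆ {Jm (Alt n)} := by
          intro E hE
          rw [Finset.mem_filter] at hE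
          rw [Finset.mem_singleton]
          have h3 := (hlev E hE.1).1
          rw [hE.2] at h3
          exact eq_Jm_of_levLe_zero (hB E hE.1).1 h3
        have h4 : (B.filter (fun E => lev E = 0)).card ≤ 1 := by
          have := Finset.card_le_card h2
          rwa [Finset.card_singleton] at this
        have h5 : ((B.filter (fun E => lev E = 0)).card : ℝ) ≤ 1 := by exact_mod_cast h4
        exact h5.trans hexp1
      · have h2 : (B.filter (fun E => lev E = l)).card ≤ Fintype.card (Nat.Partition l) := by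
          apply exact_count l hpos (by omega)
          intro E hE
          rw [Finset.mem_filter] at hE
          have h3 := hlev E hE.1
          rw [hE.2] at h3
          exact ⟨(hB E hE.1).1, h3.1, h3.2.2 hpos⟩
        have h4 : ((B.filter (fun E => lev E = l)).card : ℝ) ≤ (Fintype.card (Nat.Partition l) : ℝ) := by
          exact_mod_cast h2
        refine h4.trans ((partition_exp l n hpos (by omega) (by omega)).trans (Real.exp_le_exp.2 ?_))
        apply mul_le_mul_of_nonneg_right _ hlog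
        apply mul_le_mul_of_nonneg_left _ (by norm_num)
        apply Real.sqrt_le_sqrt
        exact_mod_cast hlk
    have h6 : (B.card : ℝ) ≤ (k + 1) * Real.exp (9 * Real.sqrt k * Real.log n) := by
      rw [hcard]
      push_cast
      calc ∑ l ∈ Finset.range (k + 1), ((B.filter (fun E => lev E = l)).card : ℝ)
          ≤ ∑ _l ∈ Finset.range (k + 1), Real.exp (9 * Real.sqrt k * Real.log n) :=
            Finset.sum_le_sum hterm
        _ = (k + 1) * Real.exp (9 * Real.sqrt k * Real.log n) := by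
            rw [Finset.sum_const, Finset.card_range, nsmul_eq_mul]
            push_cast
            ring
    have h7 : ((k : ℝ) + 1) ≤ Real.exp (Real.log n) := by
      rw [Real.exp_log hn0]
      exact_mod_cast (by omega : k + 1 ≤ n)
    have h8 : (k + 1) * Real.exp (9 * Real.sqrt k * Real.log n) ≤
        Real.exp (Real.log n) * Real.exp (9 * Real.sqrt k * Real.log n) :=
      mul_le_mul_of_nonneg_right h7 (Real.exp_pos _).le
    refine h6.trans (h8.trans ?_)
    rw [← Real.exp_add]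
    apply Real.exp_le_exp.2
    have h9 : Real.log n ≤ Real.sqrt k * Real.log n := by
      nlinarith [mul_nonneg (sub_nonneg.2 hs1) hlog]
    nlinarith [mul_nonneg (le_trans zero_le_one hs1) hlog]
  · have h1 : B.card ≤ 2 * Fintype.card (Nat.Partition n) :=
      (card_blocks_le B (fun E hE => (hB E hE).1)).trans (kc_alt_le n)
    have h2 : (B.card : ℝ) ≤ 2 * (Fintype.card (Nat.Partition n) : ℝ) := by exact_mod_cast h1
    have h3 := partition_exp n n (by omega) (le_refl _) (by omega)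
    have h4 : (2 : ℝ) ≤ Real.exp (Real.log n) := by
      rw [Real.exp_log hn0]
      exact_mod_cast (by omega : 2 ≤ n)
    have h5 : (B.card : ℝ) ≤ Real.exp (Real.log n) * Real.exp (9 * Real.sqrt n * Real.log n) := by
      refine h2.trans ?_
      exact mul_le_mul h4 h3 (by positivity) (Real.exp_pos _).le
    refine h5.trans ?_
    rw [← Real.exp_add]
    apply Real.exp_le_exp.2
    have h6 : Real.sqrt n ≤ 9 / 4 * Real.sqrt k := by
      rw [show (9 / 4 : ℝ) * Real.sqrt k = Real.sqrt (81 / 16 * k) by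
        rw [Real.sqrt_mul (by norm_num : (0 : ℝ) ≤ 81 / 16)]
        congr 1
        rw [show (81 / 16 : ℝ) = (9 / 4) ^ 2 by norm_num, Real.sqrt_sq (by norm_num)]]
      apply Real.sqrt_le_sqrt
      have h7 : (n : ℝ) ≤ 5 * k := by exact_mod_cast (by omega : n ≤ 5 * k)
      linarith
    have h8 : Real.sqrt n * Real.log n ≤ 9 / 4 * Real.sqrt k * Real.log n :=
      mul_le_mul_of_nonneg_right h6 hlog
    have h9 : Real.log n ≤ Real.sqrt k * Real.log n := by
      nlinarith [mul_nonneg (sub_nonneg.2 hs1) hlog]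
    nlinarith [mul_nonneg (le_trans zero_le_one hs1) hlog]

end Pool.Agent.BC5
end

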