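import Pool.Agent.Lib.MP_bc5a73_al.Inner

section
set_option autoImplicit false
set_option linter.unusedSectionVars false
set_option linter.unusedVariables false
open scoped BigOperators Matrix
open Matrix
namespace Pool.Agent.BC5

/-
ROW C1. Paper 8.1. Pi := avL(AY Y), Q := E*Pi projection, trace Q > 0 (avL_mul_ne_zero_of_levLe). trace(E*Lm g) * trace(E*Pi)/trace E = trace((avg_h Lm h⁻¹ Pi Lm h)*E * Lm g) (schurL) = avg_h trace(E Lm h⁻¹ Pi Lm h Lm g) = avg_h trace(Q * Lm(h g h⁻¹)). For v = Q v: inner_lemma_conj with X = univ, Q := E (hno: avL_mul_eq_zero_of_not_levLe,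
n ≤ card Z + (k-1) as card Z ≥ n-k+1), i ≤ k ≤ n-k-2: |qf (Lm g') v| ≤ (C(n-k,i))⁻¹ v·v (the binomial coefficient is positive because i ≤ n-k). abs_trace_le, then divide.
-/

variable {n : ℕ}

theorem C1_trace_conj {E Pi : Matrix (Alt n) (Alt n) ℝ} (hL : CommL E) (g h : Alt n) :
    ((Lm h⁻¹ * Pi * Lm h) * E * Lm g).trace = ((Pi * E) * Lm (h * g * h⁻¹)).trace := by
  have e1 : (Lm h⁻¹ * Pi * Lm h) * E * Lm g = Lm h⁻¹ * (Pi * E * Lm h * Lm g) := by
    rw [mul_assoc (Lm h⁻¹ * Pi) (Lm h) E, ← (hL h).eq]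
    simp only [mul_assoc]
  rw [e1, Matrix.trace_mul_comm, Lm_mul, Lm_mul]
  simp only [mul_assoc]

theorem C1_card_le (Y : Finset (Fin n)) (k : ℕ) (hY : Y.card + k = n) (g : Alt n) :
    (img g Y \ Y).card ≤ k := by
  have h1 : img g Y \ Y ⊆ Yᶜ := by
    intro x hx
    rw [Finset.mem_sdiff] at hx
    exact Finset.mem_compl.mpr hx.2
  have h2 := Finset.card_le_card h1
  rw [Finset.card_compl, Fintype.card_fin] at h2
  omega

/-- Paper 8.1. -/
theorem char_le_avg_choose {E : Matrix (Alt n) (Alt n) ℝ} (hE : IsBlock E) (k : ℕ) (hk : 1 ≤ k)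
    (h1 : ¬ LevLe (k - 1) E) (h2 : LevLe k E) (hn : 2 * k + 2 ≤ n) (Y : Finset (Fin n)) (hY : Y.card + k = n)
    (g : Alt n) :
    |(E * Lm g).trace| ≤
      E.trace * avg (fun h : Alt n => (((n - k).choose (img (h * g * h⁻¹) Y \ Y).card : ℝ))⁻¹) := by
  have hPi : IsPr (avL (AY Y)) := avL_isPr (AY_isGrp Y)
  have hc : Commute (avL (AY Y)) E := commute_of_comm (avL_commR _) hE.2.1
  have hQ : IsPr (avL (AY Y) * E) := hPi.mul hE.1 hc
  have hQne : avL (AY Y) * E ≠ 0 := avL_mul_ne_zero_of_levLe (by omega) hE h2 Y (by omega)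
  have ht := one_le_trace hQ hQne
  have hE1 := block_trace_pos hE
  have hEpos : 0 < E.trace := by linarith
  have key : ∀ g' : Alt n, |((avL (AY Y) * E) * Lm g').trace|
      ≤ (((n - k).choose (img g' Y \ Y).card : ℝ))⁻¹ * (avL (AY Y) * E).trace := by
    intro g'
    refine abs_trace_le _ _ _ hQ ?_
    intro v hv
    have hEv : E *ᵥ v = v := by
      conv_lhs => rw [← hv]
      rw [Matrix.mulVec_mulVec, ← mul_assoc, ← hc.eq, mul_assoc, hE.1.2]
      exact hv
    have hPv : avL (AY Y) *ᵥ v = v := by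
      conv_lhs => rw [← hv]
      rw [Matrix.mulVec_mulVec, ← mul_assoc, hPi.2]
      exact hv
    have hile := C1_card_le Y k hY g'
    have h3 := inner_lemma_conj Finset.univ Y (Finset.subset_univ _) (n - k) (by omega) g'
      (by rw [AY_univ]; exact Finset.mem_univ _) (by omega) E hE.1 (fun a _ => hE.2.1 a)
      (fun Z _ hZ => avL_mul_eq_zero_of_not_levLe h1 Z (by omega)) v hEv hPv
    have hpos : (0 : ℝ) < ((n - k).choose (img g' Y \ Y).card : ℝ) := by
      exact_mod_cast Nat.choose_pos (by omega)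
    rw [inv_mul_eq_div, le_div_iff₀ hpos]
    linarith
  have hsch := schurL hE hPi.1 (avL_commR (AY Y))
  have e1 : (avL (AY Y) * E).trace / E.trace * (E * Lm g).trace
      = avg (fun h : Alt n => ((avL (AY Y) * E) * Lm (h * g * h⁻¹)).trace) := by
    have hlin : ∀ M : Matrix (Alt n) (Alt n) ℝ, (M * E * Lm g).trace
        = ((Matrix.traceLinearMap (Alt n) ℝ ℝ).comp
            ((LinearMap.mulRight ℝ (Lm g)).comp (LinearMap.mulRight ℝ E))) M := by
      intro M
      simp [Matrix.traceLinearMap]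
    have e2 := congrArg (fun M => (M * Lm g).trace) hsch
    simp only [Matrix.smul_mul, Matrix.trace_smul, smul_eq_mul] at e2
    rw [← e2, hlin (avg _), map_avg]
    congr 1
    funext h
    rw [← hlin]
    exact C1_trace_conj hE.2.1 g h
  have e3 : (avL (AY Y) * E).trace / E.trace * |(E * Lm g).trace|
      ≤ (avL (AY Y) * E).trace
        * avg (fun h : Alt n => (((n - k).choose (img (h * g * h⁻¹) Y \ Y).card : ℝ))⁻¹) := by
    have e4 : (avL (AY Y) * E).trace / E.trace * |(E * Lm g).trace|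
        = |(avL (AY Y) * E).trace / E.trace * (E * Lm g).trace| := by
      rw [abs_mul, abs_of_nonneg (by positivity : 0 ≤ (avL (AY Y) * E).trace / E.trace)]
    rw [e4, e1, ← avg_mul_left]
    refine le_trans abs_avg_le (avg_mono fun h => ?_)
    rw [mul_comm ((avL (AY Y) * E).trace)]
    exact key _
  have htpos : 0 < (avL (AY Y) * E).trace := by linarith
  have e5 : (avL (AY Y) * E).trace * |(E * Lm g).trace|
      ≤ (avL (AY Y) * E).trace
        * (E.trace * avg (fun h : Alt n => (((n - k).choose (img (h * g * h⁻¹) Y \ Y).card : ℝ))⁻¹)) := by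
    have e6 := mul_le_mul_of_nonneg_left e3 hEpos.le
    have e7 : E.trace * ((avL (AY Y) * E).trace / E.trace * |(E * Lm g).trace|)
        = (avL (AY Y) * E).trace * |(E * Lm g).trace| := by
      field_simp
    rw [e7] at e6
    calc _ ≤ _ := e6
      _ = _ := by ring
  exact le_of_mul_le_mul_left e5 htpos

end Pool.Agent.BC5
end

section
set_option autoImplicit false
set_option linter.unusedSectionVars false
set_option linter.unusedVariables false
open scoped BigOperators Matrix
open Matrix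
namespace Pool.Agent.BC5

/-
ROW C2. Paper 8.2. Take B ⊆ D of maximal card with Disjoint B (img g B); then D ⊆ B ∪ img g B ∪ img g⁻¹ B (otherwise insert x).
-/

variable {n : ℕ}

/-- Paper 8.2. -/
theorem indep_third (g : Alt n) (D : Finset (Fin n)) (hD : ∀ x ∈ D, (g : Equiv.Perm (Fin n)) x ≠ x) :
    ∃ B ⊆ D, D.card ≤ 3 * B.card ∧ Disjoint B (img g B) := by
  classical
  have hne : (D.powerset.filter (fun B => Disjoint B (img g B))).Nonempty :=
    ⟨∅, by simp⟩
  obtain ⟨B, hB, hmax⟩ := Finset.exists_max_image _ Finset.card hne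
  rw [Finset.mem_filter, Finset.mem_powerset] at hB
  refine ⟨B, hB.1, ?_, hB.2⟩
  have hsub : D ⊆ B ∪ img g B ∪ img g⁻¹ B := by
    intro x hx
    by_contra hx'
    rw [Finset.mem_union, Finset.mem_union] at hx'
    have h1 : x ∉ B := fun h => hx' (Or.inl (Or.inl h))
    have h2 : x ∉ img g B := fun h => hx' (Or.inl (Or.inr h))
    have h3 : (g : Equiv.Perm (Fin n)) x ∉ B := by
      intro h
      apply hx'
      right
      unfold img
      rw [Finset.mem_image]
      exact ⟨_, h, by simp⟩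
    have h4 : Disjoint (insert x B) (img g (insert x B)) := by
      rw [Finset.disjoint_left]
      intro z hz hz'
      unfold img at hz'
      rw [Finset.mem_image] at hz'
      obtain ⟨y, hy, rfl⟩ := hz'
      rw [Finset.mem_insert] at hz hy
      rcases hy with rfl | hy
      · rcases hz with hz | hz
        · exact hD _ hx hz
        · exact h3 hz
      · rcases hz with hz | hz
        · apply h2
          unfold img
          rw [Finset.mem_image]
          exact ⟨y, hy, hz⟩
        · refine Finset.disjoint_left.1 hB.2 hz ?_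
          unfold img
          exact Finset.mem_image_of_mem _ hy
    have h5 := hmax (insert x B) (by
      rw [Finset.mem_filter, Finset.mem_powerset]
      exact ⟨Finset.insert_subset hx hB.1, h4⟩)
    rw [Finset.card_insert_of_notMem h1] at h5
    omega
  have hc : ∀ h : Alt n, (img h B).card ≤ B.card := fun h => Finset.card_image_le
  calc D.card ≤ (B ∪ img g B ∪ img g⁻¹ B).card := Finset.card_le_card hsub
    _ ≤ (B ∪ img g B).card + (img g⁻¹ B).card := Finset.card_union_le _ _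
    _ ≤ B.card + (img g B).card + (img g⁻¹ B).card := by
      have := Finset.card_union_le B (img g B)
      omega
    _ ≤ 3 * B.card := by
      have h1 := hc g
      have h2 := hc g⁻¹
      omega

end Pool.Agent.BC5
end

section
set_option autoImplicit false
set_option linter.unusedSectionVars false
set_option linter.unusedVariables false
open scoped BigOperators Matrix
open Matrix
namespace Pool.Agent.BC5

/-
ROW C3. Paper 8.3. frac = card(filter)/card(Alt n); card_maps_into (R = univ, I = U, B = S) and card_alt_div (Y = univ \ U): = S.card.descFactorial u / n.descFactorial u ≤ (card S/n)^u (factorwise (s-i)/(n-i) ≤ s/n, if s < u it is 0).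
-/

variable {n : ℕ}

theorem C3_desc (s m : ℕ) (h : s ≤ m) (u : ℕ) (hu : u ≤ m) :
    (s.descFactorial u : ℝ) * (m : ℝ) ^ u ≤ (s : ℝ) ^ u * (m.descFactorial u : ℝ) := by
  induction u with
  | zero => simp
  | succ u ih =>
    have ih' := ih (by omega)
    rw [Nat.descFactorial_succ, Nat.descFactorial_succ, Nat.cast_mul, Nat.cast_mul]
    have h1 : ((s - u : ℕ) : ℝ) * (m : ℝ) ≤ (s : ℝ) * ((m - u : ℕ) : ℝ) := by
      have h2 : (s - u) * m ≤ s * (m - u) := by
        rcases le_total u s with hus | hus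
        · obtain ⟨a, rfl⟩ := Nat.exists_eq_add_of_le hus
          obtain ⟨b, rfl⟩ := Nat.exists_eq_add_of_le h
          have e1 : u + a - u = a := by omega
          have e2 : u + a + b - u = a + b := by omega
          rw [e1, e2]
          nlinarith [Nat.zero_le (u * b)]
        · rw [Nat.sub_eq_zero_of_le hus, Nat.zero_mul]
          exact Nat.zero_le _
      exact_mod_cast h2
    calc ((s - u : ℕ) : ℝ) * (s.descFactorial u : ℝ) * (m : ℝ) ^ (u + 1)
        = (((s - u : ℕ) : ℝ) * (m : ℝ)) * ((s.descFactorial u : ℝ) * (m : ℝ) ^ u) := by ring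
      _ ≤ ((s : ℝ) * ((m - u : ℕ) : ℝ)) * ((s : ℝ) ^ u * (m.descFactorial u : ℝ)) := by
          apply mul_le_mul h1 ih' (by positivity) (by positivity)
      _ = (s : ℝ) ^ (u + 1) * (((m - u : ℕ) : ℝ) * (m.descFactorial u : ℝ)) := by ring

/-- Paper 8.3. -/
theorem frac_map_into_le (U S : Finset (Fin n)) (hU : U.card + 2 ≤ n) (hS : 1 ≤ S.card) :
    frac (fun h : Alt n => ∀ x ∈ U, (h : Equiv.Perm (Fin n)) x ∈ S) ≤ ((S.card : ℝ) / (n : ℝ)) ^ U.card := by
  have hSn : S.card ≤ n := by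
    have := Finset.card_le_univ S
    simpa using this
  have h1 := frac_eq_card (fun h : Alt n => ∀ x ∈ U, (h : Equiv.Perm (Fin n)) x ∈ S)
  have h2 := card_maps_into (Finset.univ : Finset (Fin n)) U S (Finset.subset_univ _)
    (Finset.subset_univ _) (by simpa using hU)
  have hsd : (Finset.univ \ U : Finset (Fin n)).card + U.card = n := by
    rw [Finset.card_sdiff_add_card_eq_card (Finset.subset_univ _)]
    simp
  have h3 := card_alt_div (Finset.univ \ U : Finset (Fin n)) U.card hsd hU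
  rw [AY_univ] at h2
  have h4 : (Nat.card {h : Alt n // ∀ x ∈ U, (h : Equiv.Perm (Fin n)) x ∈ S} : ℝ) =
      (S.card.descFactorial U.card : ℝ) * ((AY (Finset.univ \ U : Finset (Fin n))).card : ℝ) := by
    rw [Nat.card_eq_fintype_card, Fintype.card_subtype]
    exact_mod_cast h2
  rw [h4, Nat.card_eq_fintype_card] at h1
  have hA : (0 : ℝ) < ((AY (Finset.univ \ U : Finset (Fin n))).card : ℝ) := by
    have : 0 < (AY (Finset.univ \ U : Finset (Fin n))).card :=
      Finset.card_pos.2 ⟨1, (AY_isGrp _).1⟩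
    exact_mod_cast this
  have hC : (0 : ℝ) < (Fintype.card (Alt n) : ℝ) := by
    exact_mod_cast Fintype.card_pos
  have hn : (0 : ℝ) < (n : ℝ) := by
    have : 0 < n := by omega
    exact_mod_cast this
  have hD : (0 : ℝ) < (n.descFactorial U.card : ℝ) := by
    rw [← h3]; positivity
  have h5 : (Fintype.card (Alt n) : ℝ) =
      (n.descFactorial U.card : ℝ) * ((AY (Finset.univ \ U : Finset (Fin n))).card : ℝ) := by
    rw [← h3]; field_simp
  rw [h5] at h1
  have h6 : frac (fun h : Alt n => ∀ x ∈ U, (h : Equiv.Perm (Fin n)) x ∈ S) *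
      (n.descFactorial U.card : ℝ) = (S.card.descFactorial U.card : ℝ) := by
    have h7 : (frac (fun h : Alt n => ∀ x ∈ U, (h : Equiv.Perm (Fin n)) x ∈ S) *
        (n.descFactorial U.card : ℝ)) * ((AY (Finset.univ \ U : Finset (Fin n))).card : ℝ) =
        (S.card.descFactorial U.card : ℝ) *
          ((AY (Finset.univ \ U : Finset (Fin n))).card : ℝ) := by
      rw [← h1]; ring
    exact mul_right_cancel₀ hA.ne' h7
  have h8 := C3_desc S.card n hSn U.card (by omega)
  rw [div_pow, le_div_iff₀ (pow_pos hn _)]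
  rw [← h6] at h8
  have h9 : (frac (fun h : Alt n => ∀ x ∈ U, (h : Equiv.Perm (Fin n)) x ∈ S) * (n : ℝ) ^ U.card) *
      (n.descFactorial U.card : ℝ) ≤ (S.card : ℝ) ^ U.card * (n.descFactorial U.card : ℝ) := by
    calc _ = frac (fun h : Alt n => ∀ x ∈ U, (h : Equiv.Perm (Fin n)) x ∈ S) *
          (n.descFactorial U.card : ℝ) * (n : ℝ) ^ U.card := by ring
      _ ≤ _ := h8
  exact le_of_mul_le_mul_right h9 hD

end Pool.Agent.BC5
end

section
set_option autoImplicit false
set_option linter.unusedSectionVars false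
set_option linter.unusedVariables false
open scoped BigOperators Matrix
open Matrix
namespace Pool.Agent.BC5

/-
ROW C4. Paper 8.4. S := {x : h x ∉ Y} (card k). i := card(img(hgh⁻¹) Y \ Y): [y' = hgh⁻¹ y with y ∈ Y, y' ∉ Y: z = h⁻¹y ∉ S, g z ∈ S; so i = #{z ∉ S : g z ∈ S} = #{z ∈ S: g z ∉ S} because card(g⁻¹S) = card S]. D := {x ∈ S : g x ∈ S, g x ≠ x}: card D ≥ k - i - #{x ∈ S: g x = x}, so 4 card D > k.
indep_third: B' ⊆ D, card D ≤ 3 card B', so 12 card B' > k, card B' ≥ (k+11)/12; take a subset B of that size. h x ∉ Y for x ∈ B ∪ img g B.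
-/

variable {n : ℕ}

/-- a permutation sends as many points out of `S` as into `S` -/
theorem C4_inout (σ : Equiv.Perm (Fin n)) (S : Finset (Fin n)) :
    (Finset.univ.filter (fun x : Fin n => x ∈ S ∧ σ x ∉ S)).card
      = (Finset.univ.filter (fun x : Fin n => x ∉ S ∧ σ x ∈ S)).card := by
  have h1 : (Finset.univ.filter (fun x : Fin n => σ x ∈ S)).card = S.card := by
    have : (Finset.univ.filter (fun x : Fin n => σ x ∈ S)) = S.image (σ.symm) := by
      ext x
      simp only [Finset.mem_filter, Finset.mem_univ, true_and, Finset.mem_image]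
      constructor
      · intro hx
        exact ⟨σ x, hx, σ.symm_apply_apply x⟩
      · rintro ⟨y, hy, rfl⟩
        rw [σ.apply_symm_apply]; exact hy
    rw [this, Finset.card_image_of_injective _ σ.symm.injective]
  have h2 : S.card = (Finset.univ.filter (fun x : Fin n => x ∈ S ∧ σ x ∈ S)).card
      + (Finset.univ.filter (fun x : Fin n => x ∈ S ∧ σ x ∉ S)).card := by
    have h := Finset.card_filter_add_card_filter_not (s := S) (fun x => σ x ∈ S)
    rw [← h]
    congr 2 <;> (ext x; simp)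
  have h3 : (Finset.univ.filter (fun x : Fin n => σ x ∈ S)).card
      = (Finset.univ.filter (fun x : Fin n => x ∈ S ∧ σ x ∈ S)).card
      + (Finset.univ.filter (fun x : Fin n => x ∉ S ∧ σ x ∈ S)).card := by
    have h := Finset.card_filter_add_card_filter_not
      (s := Finset.univ.filter (fun x : Fin n => σ x ∈ S)) (fun x => x ∈ S)
    rw [← h]
    congr 2 <;> (ext x; simp [and_comm])
  omega

/-- Paper 8.4, the set found in a bad `h` with few fixed points in the random set. -/
theorem exists_pairs (g h : Alt n) (Y : Finset (Fin n)) (k : ℕ) (hk : 1 ≤ k) (hY : Y.card + k = n)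
    (hfix : 4 * (Finset.univ.filter (fun x : Fin n =>
      (g : Equiv.Perm (Fin n)) x = x ∧ (h : Equiv.Perm (Fin n)) x ∉ Y)).card < k)
    (hi : 2 * (img (h * g * h⁻¹) Y \ Y).card < k) :
    ∃ B : Finset (Fin n), B.card = (k + 11) / 12 ∧ Disjoint B (img g B) ∧
      ∀ x ∈ B ∪ img g B, (h : Equiv.Perm (Fin n)) x ∈ Finset.univ \ Y := by
  classical
  set σ : Equiv.Perm (Fin n) := (g : Equiv.Perm (Fin n)) with hσ
  set τ : Equiv.Perm (Fin n) := (h : Equiv.Perm (Fin n)) with hτ
  set S : Finset (Fin n) := Finset.univ.filter (fun x => τ x ∉ Y) with hS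
  have hmS : ∀ x, x ∈ S ↔ τ x ∉ Y := fun x => by simp [hS]
  have hScard : S.card = k := by
    have h1 : S = (Finset.univ \ Y).image τ.symm := by
      ext x
      rw [hmS]
      simp only [Finset.mem_image, Finset.mem_sdiff, Finset.mem_univ, true_and]
      constructor
      · intro hx
        exact ⟨τ x, hx, τ.symm_apply_apply x⟩
      · rintro ⟨y, hy, rfl⟩
        rw [τ.apply_symm_apply]; exact hy
    rw [h1, Finset.card_image_of_injective _ τ.symm.injective, Finset.card_sdiff_of_subset (Finset.subset_univ _),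
      Finset.card_univ, Fintype.card_fin]
    omega
  have hin : (Finset.univ.filter (fun x : Fin n => x ∉ S ∧ σ x ∈ S)).card
      = (img (h * g * h⁻¹) Y \ Y).card := by
    have h1 : (img (h * g * h⁻¹) Y \ Y)
        = (Finset.univ.filter (fun x : Fin n => x ∉ S ∧ σ x ∈ S)).image (fun x => τ (σ x)) := by
      ext y
      simp only [img, Finset.mem_sdiff, Finset.mem_image, Finset.mem_filter, Finset.mem_univ, true_and, hmS,
        not_not]
      constructor
      · rintro ⟨⟨z, hz, rfl⟩, h2⟩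
        refine ⟨τ.symm z, ⟨?_, ?_⟩, ?_⟩
        · rw [τ.apply_symm_apply]; exact hz
        · exact h2
        · rfl
      · rintro ⟨x, ⟨hx, hx2⟩, rfl⟩
        refine ⟨⟨τ x, hx, ?_⟩, hx2⟩
        change τ (σ (τ.symm (τ x))) = _
        rw [τ.symm_apply_apply]
    rw [h1, Finset.card_image_of_injective]
    exact τ.injective.comp σ.injective
  have hout := C4_inout σ S
  set D : Finset (Fin n) := Finset.univ.filter (fun x => x ∈ S ∧ σ x ∈ S ∧ σ x ≠ x) with hD
  have hcov : S ⊆ (D ∪ (Finset.univ.filter (fun x : Fin n => x ∈ S ∧ σ x ∉ S)))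
      ∪ (Finset.univ.filter (fun x : Fin n => σ x = x ∧ τ x ∉ Y)) := by
    intro x hx
    simp only [Finset.mem_union, hD, Finset.mem_filter, Finset.mem_univ, true_and]
    by_cases h1 : σ x ∈ S
    · by_cases h2 : σ x = x
      · exact Or.inr ⟨h2, (hmS x).1 hx⟩
      · exact Or.inl (Or.inl ⟨hx, h1, h2⟩)
    · exact Or.inl (Or.inr ⟨hx, h1⟩)
  have hle := Finset.card_le_card hcov
  have hle2 := Finset.card_union_le (D ∪ (Finset.univ.filter (fun x : Fin n => x ∈ S ∧ σ x ∉ S)))
    (Finset.univ.filter (fun x : Fin n => σ x = x ∧ τ x ∉ Y))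
  have hle3 := Finset.card_union_le D (Finset.univ.filter (fun x : Fin n => x ∈ S ∧ σ x ∉ S))
  have hDk : k < 4 * D.card := by omega
  obtain ⟨B', hB'D, hB'c, hB'd⟩ := indep_third g D (fun x hx => by
    have := (Finset.mem_filter.1 hx).2
    exact this.2.2)
  obtain ⟨B, hBB', hBc⟩ := Finset.exists_subset_card_eq (s := B') (n := (k + 11) / 12) (by omega)
  refine ⟨B, hBc, ?_, ?_⟩
  · refine Finset.disjoint_of_subset_left hBB' (Finset.disjoint_of_subset_right ?_ hB'd)
    exact Finset.image_subset_image hBB'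
  · intro x hx
    rw [Finset.mem_sdiff]
    refine ⟨Finset.mem_univ _, ?_⟩
    rw [Finset.mem_union] at hx
    rcases hx with hx | hx
    · have := (Finset.mem_filter.1 (hB'D (hBB' hx))).2
      exact (hmS x).1 this.1
    · obtain ⟨y, hy, rfl⟩ := Finset.mem_image.1 hx
      have := (Finset.mem_filter.1 (hB'D (hBB' hy))).2
      exact (hmS _).1 this.2.1

end Pool.Agent.BC5
end

section
set_option autoImplicit false
set_option linter.unusedSectionVars false
set_option linter.unusedVariables false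
open scoped BigOperators Matrix
open Matrix
namespace Pool.Agent.BC5

/-
ROW C5. b := (k+11)/12 ≥ 1, 12b ≥ k, b ≤ k. C(n,b) ≤ n^b/b! ≤ (3n/b)^b (b^b/b! ≤ e^b ≤ 3^b: Real.pow_div_factorial_le_exp; Nat.choose_le_pow_div). So LHS ≤ (3n/b * k²/n²)^b ≤ (36 k/n)^b ≤ (1/2)^b ≤ (1/2)^(k/12) (rpow_natCast, antitone).
choose_mul_pow_le_fix: b' := (k+3)/4, 4b' ≥ k: ≤ (3F/b' * k/n)^b' ≤ (12F/n)^b' ≤ (1/2)^b' ≤ (1/2)^(k/4). inv_choose_le: m = n-k ≥ 71k ≥ 2i, so C(m,i) ≥ C(2i,i) ≥ 2^i ≥ 2^(k/2) ≥ 2^(k/12).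
-/

variable {n : ℕ}

theorem C5_choose (N b : ℕ) (hb : 1 ≤ b) : (N.choose b : ℝ) ≤ (3 * N / b) ^ b := by
  have hb0 : (0 : ℝ) < b := by exact_mod_cast hb
  have h1 : (N.choose b : ℝ) ≤ (N : ℝ) ^ b / (b.factorial : ℝ) := Nat.choose_le_pow_div b N
  have h2 : (b : ℝ) ^ b / (b.factorial : ℝ) ≤ 3 ^ b := by
    have e1 := Real.pow_div_factorial_le_exp (b : ℝ) hb0.le b
    have e2 : Real.exp b = Real.exp 1 ^ b := by rw [← Real.exp_nat_mul, mul_one]
    have e3 : Real.exp 1 ≤ 3 := by
      have := Real.exp_one_lt_d9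
      linarith only [this]
    rw [e2] at e1
    exact e1.trans (pow_le_pow_left₀ (Real.exp_pos 1).le e3 b)
  have h3 : (0 : ℝ) < (b.factorial : ℝ) := by exact_mod_cast Nat.factorial_pos b
  refine h1.trans ?_
  have e4 : (3 * (N : ℝ) / b) ^ b = (N : ℝ) ^ b / (b : ℝ) ^ b * 3 ^ b := by
    rw [div_pow, mul_pow]; ring
  have e5 : (N : ℝ) ^ b / (b.factorial : ℝ) = (N : ℝ) ^ b / (b : ℝ) ^ b * ((b : ℝ) ^ b / (b.factorial : ℝ)) := by
    field_simp
  rw [e4, e5]
  exact mul_le_mul_of_nonneg_left h2 (by positivity)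

theorem C5_half (b k c : ℕ) (hc : 0 < c) (h : k ≤ c * b) (hc12 : c ≤ 12) :
    (1 / 2 : ℝ) ^ b ≤ (1 / 2 : ℝ) ^ ((k : ℝ) / 12) := by
  rw [← Real.rpow_natCast]
  apply Real.rpow_le_rpow_of_exponent_ge (by norm_num) (by norm_num)
  rw [div_le_iff₀ (by norm_num)]
  have h1 : k ≤ b * 12 := by
    calc k ≤ c * b := h
      _ ≤ 12 * b := Nat.mul_le_mul_right b hc12
      _ = b * 12 := mul_comm _ _
  exact_mod_cast h1

/-- Paper 8.4, the numbers. -/
theorem choose_mul_pow_le (n k : ℕ) (hk : 1 ≤ k) (hn : 72 * k ≤ n) :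
    (n.choose ((k + 11) / 12) : ℝ) * ((k : ℝ) / (n : ℝ)) ^ (2 * ((k + 11) / 12)) ≤ (1 / 2 : ℝ) ^ ((k : ℝ) / 12) := by
  set b := (k + 11) / 12 with hb
  have hb1 : 1 ≤ b := by omega
  have hkb : k ≤ 12 * b := by omega
  have hb0 : (0 : ℝ) < b := by exact_mod_cast hb1
  have hn0 : (0 : ℝ) < n := by
    have : 0 < n := by omega
    exact_mod_cast this
  have hk0 : (0 : ℝ) ≤ k := Nat.cast_nonneg k
  calc (n.choose b : ℝ) * ((k : ℝ) / (n : ℝ)) ^ (2 * b)
      ≤ (3 * n / b) ^ b * ((k : ℝ) / (n : ℝ)) ^ (2 * b) :=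
        mul_le_mul_of_nonneg_right (C5_choose n b hb1) (by positivity)
    _ = (3 * n / b * ((k : ℝ) / (n : ℝ)) ^ 2) ^ b := by rw [pow_mul, ← mul_pow]
    _ ≤ (1 / 2 : ℝ) ^ b := by
        apply pow_le_pow_left₀ (by positivity)
        have e1 : 3 * (n : ℝ) / b * ((k : ℝ) / (n : ℝ)) ^ 2 = 3 * k * k / (b * n) := by
          field_simp
        rw [e1, div_le_div_iff₀ (by positivity) (by norm_num)]
        have e2 : (k : ℝ) ≤ 12 * b := by exact_mod_cast hkb
        have e3 : 72 * (k : ℝ) ≤ n := by exact_mod_cast hn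
        have e4 : k * (k : ℝ) ≤ k * (12 * b) := mul_le_mul_of_nonneg_left e2 hk0
        have e5 : b * (72 * (k : ℝ)) ≤ b * n := mul_le_mul_of_nonneg_left e3 hb0.le
        linarith only [e4, e5]
    _ ≤ (1 / 2 : ℝ) ^ ((k : ℝ) / 12) := C5_half b k 12 (by norm_num) hkb le_rfl

/-- Paper 8.4, the numbers for the fixed points. -/
theorem choose_mul_pow_le_fix (n k F : ℕ) (hk : 1 ≤ k) (hn : 72 * k ≤ n) (hF : 24 * F ≤ n) :
    (F.choose ((k + 3) / 4) : ℝ) * ((k : ℝ) / (n : ℝ)) ^ ((k + 3) / 4) ≤ (1 / 2 : ℝ) ^ ((k : ℝ) / 12) := by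
  set b := (k + 3) / 4 with hb
  have hb1 : 1 ≤ b := by omega
  have hkb : k ≤ 4 * b := by omega
  have hb0 : (0 : ℝ) < b := by exact_mod_cast hb1
  have hn0 : (0 : ℝ) < n := by
    have : 0 < n := by omega
    exact_mod_cast this
  have hk0 : (0 : ℝ) ≤ k := Nat.cast_nonneg k
  have hF0 : (0 : ℝ) ≤ F := Nat.cast_nonneg F
  calc (F.choose b : ℝ) * ((k : ℝ) / (n : ℝ)) ^ b
      ≤ (3 * F / b) ^ b * ((k : ℝ) / (n : ℝ)) ^ b :=
        mul_le_mul_of_nonneg_right (C5_choose F b hb1) (by positivity)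
    _ = (3 * F / b * ((k : ℝ) / (n : ℝ))) ^ b := by rw [← mul_pow]
    _ ≤ (1 / 2 : ℝ) ^ b := by
        apply pow_le_pow_left₀ (by positivity)
        have e1 : 3 * (F : ℝ) / b * ((k : ℝ) / (n : ℝ)) = 3 * F * k / (b * n) := by
          field_simp
        rw [e1, div_le_div_iff₀ (by positivity) (by norm_num)]
        have e2 : (k : ℝ) ≤ 4 * b := by exact_mod_cast hkb
        have e3 : 24 * (F : ℝ) ≤ n := by exact_mod_cast hF
        have e4 : F * (k : ℝ) ≤ F * (4 * b) := mul_le_mul_of_nonneg_left e2 hF0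
        have e5 : b * (24 * (F : ℝ)) ≤ b * n := mul_le_mul_of_nonneg_left e3 hb0.le
        linarith only [e4, e5]
    _ ≤ (1 / 2 : ℝ) ^ ((k : ℝ) / 12) := C5_half b k 4 (by norm_num) hkb (by norm_num)

theorem C5_central (i : ℕ) : 2 ^ i ≤ (2 * i).choose i := by
  rw [← Nat.centralBinom_eq_two_mul_choose]
  induction i with
  | zero => simp
  | succ i ih =>
    have h := Nat.succ_mul_centralBinom_succ i
    have h1 : (i + 1) * (2 * Nat.centralBinom i) ≤ (i + 1) * Nat.centralBinom (i + 1) := by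
      rw [h]
      calc (i + 1) * (2 * Nat.centralBinom i) = 2 * (i + 1) * Nat.centralBinom i := by ring
        _ ≤ 2 * (2 * i + 1) * Nat.centralBinom i := Nat.mul_le_mul_right _ (by omega)
    have h2 := Nat.le_of_mul_le_mul_left h1 (Nat.succ_pos i)
    calc 2 ^ (i + 1) = 2 * 2 ^ i := by ring
      _ ≤ 2 * Nat.centralBinom i := Nat.mul_le_mul_left 2 ih
      _ ≤ _ := h2

/-- Paper 8.4, the case of a large intersection defect. -/
theorem inv_choose_le (n k i : ℕ) (hk : 1 ≤ k) (hn : 72 * k ≤ n) (hi : k ≤ 2 * i) (hik : i ≤ k) :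
    (((n - k).choose i : ℝ))⁻¹ ≤ (1 / 2 : ℝ) ^ ((k : ℝ) / 12) := by
  have h1 : 2 ^ i ≤ (n - k).choose i :=
    (C5_central i).trans (Nat.choose_le_choose i (by omega))
  have h2 : (2 : ℝ) ^ i ≤ ((n - k).choose i : ℝ) := by exact_mod_cast h1
  calc (((n - k).choose i : ℝ))⁻¹ ≤ ((2 : ℝ) ^ i)⁻¹ := inv_anti₀ (by positivity) h2
    _ = (1 / 2 : ℝ) ^ i := by rw [one_div, inv_pow]
    _ ≤ (1 / 2 : ℝ) ^ ((k : ℝ) / 12) := C5_half i k 2 (by norm_num) hi (by norm_num)

end Pool.Agent.BC5
end

section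
set_option autoImplicit false
set_option linter.unusedSectionVars false
set_option linter.unusedVariables false
open scoped BigOperators Matrix
open Matrix
namespace Pool.Agent.BC5

/-
ROW C8. Paper 8.4. k ≤ 4 #{x : g x = x, h x ∉ Y} ⇒ there is a set U of (k+3)/4 fixed points of g with h(U) ⊆ univ \ Y. Union bound (frac_exists_le) over powersetCard ((k+3)/4) (fixed points), frac_map_into_le ((k+3)/4 + 2 ≤ n, card(univ \ Y) = k), choose_mul_pow_le_fix with F = fixc g.
-/

variable {n : ℕ}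

/-- Paper 8.4, many fixed points in the random set. -/
theorem frac_fix_le (g : Alt n) (Y : Finset (Fin n)) (k : ℕ) (hk : 1 ≤ k) (hY : Y.card + k = n) (hn : 72 * k ≤ n)
    (hfix : 24 * fixc g ≤ n) :
    frac (fun h : Alt n => k ≤ 4 * (Finset.univ.filter (fun x : Fin n =>
      (g : Equiv.Perm (Fin n)) x = x ∧ (h : Equiv.Perm (Fin n)) x ∉ Y)).card) ≤ (1 / 2 : ℝ) ^ ((k : ℝ) / 12) := by
  classical
  obtain ⟨b, hb⟩ : ∃ b, b = (k + 3) / 4 := ⟨_, rfl⟩
  obtain ⟨S, hS⟩ : ∃ S, S = Finset.univ \ Y := ⟨_, rfl⟩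
  obtain ⟨F, hF⟩ : ∃ F, F = Finset.univ.filter (fun x : Fin n => (g : Equiv.Perm (Fin n)) x = x) :=
    ⟨_, rfl⟩
  have hFc : F.card = fixc g := by rw [hF]; rfl
  have hSc : S.card = k := by
    rw [hS, Finset.card_univ_sdiff, Fintype.card_fin]
    omega
  refine (frac_mono (Q := fun h : Alt n => ∃ U ∈ F.powersetCard b,
    ∀ x ∈ U, (h : Equiv.Perm (Fin n)) x ∈ S) ?_).trans ?_
  · intro h hh
    obtain ⟨U, hU, hUc⟩ := Finset.exists_subset_card_eq (s := Finset.univ.filter (fun x : Fin n =>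
      (g : Equiv.Perm (Fin n)) x = x ∧ (h : Equiv.Perm (Fin n)) x ∉ Y)) (n := b) (by omega)
    refine ⟨U, Finset.mem_powersetCard.2 ⟨fun x hx => ?_, hUc⟩, fun x hx => ?_⟩
    · have := Finset.mem_filter.1 (hU hx)
      rw [hF]
      exact Finset.mem_filter.2 ⟨this.1, this.2.1⟩
    · have := Finset.mem_filter.1 (hU hx)
      rw [hS]
      exact Finset.mem_sdiff.2 ⟨Finset.mem_univ _, this.2.2⟩
  · refine (frac_exists_le (F.powersetCard b) (fun U (h : Alt n) =>
      ∀ x ∈ U, (h : Equiv.Perm (Fin n)) x ∈ S)).trans ?_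
    have h1 : ∀ U ∈ F.powersetCard b, frac (fun h : Alt n => ∀ x ∈ U,
        (h : Equiv.Perm (Fin n)) x ∈ S) ≤ ((k : ℝ) / (n : ℝ)) ^ b := by
      intro U hU
      have hUc := (Finset.mem_powersetCard.1 hU).2
      have h2 := frac_map_into_le U S (by omega) (by omega)
      rwa [hUc, hSc] at h2
    refine (Finset.sum_le_sum h1).trans ?_
    rw [Finset.sum_const, Finset.card_powersetCard, nsmul_eq_mul, hFc, hb]
    exact choose_mul_pow_le_fix n k (fixc g) hk hn hfix

end Pool.Agent.BC5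
end

section
set_option autoImplicit false
set_option linter.unusedSectionVars false
set_option linter.unusedVariables false
open scoped BigOperators Matrix
open Matrix
namespace Pool.Agent.BC5

/-
ROW C6. The bad h satisfy: k ≤ 4 #{x : g x = x, h x ∉ Y} (frac_fix_le), or ∃ B ∈ powersetCard b univ with Disjoint B (img g B) and h maps B ∪ img g B into univ \ Y (exists_pairs, b = (k+11)/12). frac_or_le, frac_exists_le; for each such B card(B ∪ img g B) = 2b, frac_map_into_le: ≤ (k/n)^(2b) (2b+2 ≤ n). Number of B: C(n,b). choose_mul_pow_le.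
-/

variable {n : ℕ}

/-- Paper 8.4, the union bound. -/
theorem frac_bad_le (g : Alt n) (Y : Finset (Fin n)) (k : ℕ) (hk : 1 ≤ k) (hY : Y.card + k = n) (hn : 72 * k ≤ n)
    (hfix : 24 * fixc g ≤ n) :
    frac (fun h : Alt n => 2 * (img (h * g * h⁻¹) Y \ Y).card < k) ≤ 2 * (1 / 2 : ℝ) ^ ((k : ℝ) / 12) := by
  classical
  set b := (k + 11) / 12 with hb
  have hbk : b ≤ k := by omega
  have hSc : (Finset.univ \ Y : Finset (Fin n)).card = k := by
    have h1 : (Finset.univ \ Y : Finset (Fin n)).card = (Finset.univ : Finset (Fin n)).card - Y.card :=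
      Finset.card_sdiff_of_subset (Finset.subset_univ Y)
    rw [h1, Finset.card_univ, Fintype.card_fin]
    omega
  have himg : ∀ B : Finset (Fin n), (img g B).card = B.card := by
    intro B
    exact Finset.card_image_of_injective _ (Equiv.injective _)
  set s := (Finset.powersetCard b (Finset.univ : Finset (Fin n))).filter
    (fun B => Disjoint B (img g B)) with hs
  have h1 : frac (fun h : Alt n => 2 * (img (h * g * h⁻¹) Y \ Y).card < k) ≤
      frac (fun h : Alt n => k ≤ 4 * (Finset.univ.filter (fun x : Fin n =>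
        (g : Equiv.Perm (Fin n)) x = x ∧ (h : Equiv.Perm (Fin n)) x ∉ Y)).card ∨
        ∃ B ∈ s, ∀ x ∈ B ∪ img g B, (h : Equiv.Perm (Fin n)) x ∈ Finset.univ \ Y) := by
    apply frac_mono
    intro h hbad
    by_cases hc : k ≤ 4 * (Finset.univ.filter (fun x : Fin n =>
        (g : Equiv.Perm (Fin n)) x = x ∧ (h : Equiv.Perm (Fin n)) x ∉ Y)).card
    · exact Or.inl hc
    · right
      obtain ⟨B, h2, h3, h4⟩ := exists_pairs g h Y k hk hY (not_le.1 hc) hbad
      refine ⟨B, ?_, h4⟩
      rw [hs, Finset.mem_filter, Finset.mem_powersetCard]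
      exact ⟨⟨Finset.subset_univ _, h2⟩, h3⟩
  have h2 := frac_or_le (fun h : Alt n => k ≤ 4 * (Finset.univ.filter (fun x : Fin n =>
        (g : Equiv.Perm (Fin n)) x = x ∧ (h : Equiv.Perm (Fin n)) x ∉ Y)).card)
        (fun h : Alt n => ∃ B ∈ s, ∀ x ∈ B ∪ img g B, (h : Equiv.Perm (Fin n)) x ∈ Finset.univ \ Y)
  have h3 := frac_fix_le g Y k hk hY hn hfix
  have h4 := frac_exists_le s (fun B (h : Alt n) =>
    ∀ x ∈ B ∪ img g B, (h : Equiv.Perm (Fin n)) x ∈ Finset.univ \ Y)
  have h5 : ∑ B ∈ s, frac (fun h : Alt n =>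
      ∀ x ∈ B ∪ img g B, (h : Equiv.Perm (Fin n)) x ∈ Finset.univ \ Y) ≤
      (n.choose b : ℝ) * ((k : ℝ) / (n : ℝ)) ^ (2 * b) := by
    have h6 : ∀ B ∈ s, frac (fun h : Alt n =>
        ∀ x ∈ B ∪ img g B, (h : Equiv.Perm (Fin n)) x ∈ Finset.univ \ Y) ≤
        ((k : ℝ) / (n : ℝ)) ^ (2 * b) := by
      intro B hB
      rw [hs, Finset.mem_filter, Finset.mem_powersetCard] at hB
      obtain ⟨⟨-, hBc⟩, hdis⟩ := hB
      have hU : (B ∪ img g B).card = 2 * b := by
        rw [Finset.card_union_of_disjoint hdis, himg, hBc]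
        omega
      have h7 := frac_map_into_le (B ∪ img g B) (Finset.univ \ Y) (by rw [hU]; omega)
        (by rw [hSc]; exact hk)
      rw [hU, hSc] at h7
      exact h7
    refine (Finset.sum_le_sum h6).trans ?_
    rw [Finset.sum_const, nsmul_eq_mul]
    refine mul_le_mul_of_nonneg_right ?_ (by positivity)
    have h8 : s.card ≤ n.choose b := by
      have := Finset.card_filter_le (Finset.powersetCard b (Finset.univ : Finset (Fin n)))
        (fun B => Disjoint B (img g B))
      rw [Finset.card_powersetCard, Finset.card_univ, Fintype.card_fin] at this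
      exact this
    exact_mod_cast h8
  have h6 := choose_mul_pow_le n k hk hn
  rw [← hb] at h6
  linarith [h1, h2, h3, h4.trans (h5.trans h6)]

end Pool.Agent.BC5
end

section
set_option autoImplicit false
set_option linter.unusedSectionVars false
set_option linter.unusedVariables false
open scoped BigOperators Matrix
open Matrix
namespace Pool.Agent.BC5

/-
ROW C7. Split the average: for h with 2i ≥ k use inv_choose_le (i ≤ k: img \ Y ⊆ univ \ Y), else the value is ≤ 1 and frac_bad_le. char_low: char_le_avg_choose (2k+2 ≤ n) with any Y of size n-k.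
-/

variable {n : ℕ}

/-- Paper 8.4. -/
theorem avg_choose_inv_le (g : Alt n) (Y : Finset (Fin n)) (k : ℕ) (hk : 1 ≤ k) (hY : Y.card + k = n) (hn : 72 * k ≤ n)
    (hfix : 24 * fixc g ≤ n) :
    avg (fun h : Alt n => (((n - k).choose (img (h * g * h⁻¹) Y \ Y).card : ℝ))⁻¹)
      ≤ 3 * (1 / 2 : ℝ) ^ ((k : ℝ) / 12) := by
  classical
  have h0 : (0 : ℝ) ≤ (1 / 2 : ℝ) ^ ((k : ℝ) / 12) := by positivity
  have hi : ∀ h : Alt n, (img (h * g * h⁻¹) Y \ Y).card ≤ k := by
    intro h
    have h1 : (img (h * g * h⁻¹) Y \ Y).card ≤ (Finset.univ \ Y).card :=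
      Finset.card_le_card (Finset.sdiff_subset_sdiff (Finset.subset_univ _) (Finset.Subset.refl _))
    rw [Finset.card_sdiff_of_subset (Finset.subset_univ _), Finset.card_univ, Fintype.card_fin] at h1
    omega
  have hb := frac_bad_le g Y k hk hY hn hfix
  calc avg (fun h : Alt n => (((n - k).choose (img (h * g * h⁻¹) Y \ Y).card : ℝ))⁻¹)
      ≤ avg (fun h : Alt n => (1 / 2 : ℝ) ^ ((k : ℝ) / 12) +
          (if 2 * (img (h * g * h⁻¹) Y \ Y).card < k then (1 : ℝ) else 0)) := by
        apply avg_mono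
        intro h
        split_ifs with h2
        · have := Nat.cast_inv_le_one (α := ℝ) ((n - k).choose (img (h * g * h⁻¹) Y \ Y).card)
          linarith
        · have := inv_choose_le n k _ hk hn (not_lt.1 h2) (hi h)
          linarith
    _ = (1 / 2 : ℝ) ^ ((k : ℝ) / 12) + frac (fun h : Alt n => 2 * (img (h * g * h⁻¹) Y \ Y).card < k) := by
        rw [avg_add, avg_const]
        unfold frac
        congr 2
        funext h
        congr
    _ ≤ 3 * (1 / 2 : ℝ) ^ ((k : ℝ) / 12) := by linarith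

/-- Character bound for low levels. -/
theorem char_low {E : Matrix (Alt n) (Alt n) ℝ} (hE : IsBlock E) (k : ℕ) (hk : 1 ≤ k)
    (h1 : ¬ LevLe (k - 1) E) (h2 : LevLe k E) (hn : 72 * k ≤ n) (g : Alt n) (hfix : 24 * fixc g ≤ n) :
    |(E * Lm g).trace| ≤ 3 * (1 / 2 : ℝ) ^ ((k : ℝ) / 12) * E.trace := by
  obtain ⟨Y, -, hY⟩ := Finset.exists_subset_card_eq (s := (Finset.univ : Finset (Fin n))) (n := n - k)
    (by rw [Finset.card_univ, Fintype.card_fin]; omega)
  have hY' : Y.card + k = n := by omega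
  have h3 := char_le_avg_choose hE k hk h1 h2 (by omega) Y hY' g
  have h4 := avg_choose_inv_le g Y k hk hY' hn hfix
  have h5 := block_trace_pos hE
  calc |(E * Lm g).trace| ≤ E.trace * avg (fun h : Alt n => (((n - k).choose (img (h * g * h⁻¹) Y \ Y).card : ℝ))⁻¹) := h3
    _ ≤ E.trace * (3 * (1 / 2 : ℝ) ^ ((k : ℝ) / 12)) := mul_le_mul_of_nonneg_left h4 (by linarith)
    _ = 3 * (1 / 2 : ℝ) ^ ((k : ℝ) / 12) * E.trace := by ring

end Pool.Agent.BC5
end

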