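import Pool.Agent.Lib.MP_bc5a73_al.CycMain
import Pool.Agent.Lib.MP_bc5a73_al.CharLow

section
set_option autoImplicit false
set_option linter.unusedSectionVars false
set_option linter.unusedVariables false
open scoped BigOperators Matrix
open Matrix
namespace Pool.Agent.BC5

variable {n : ℕ}

/-- The points of a triple. -/
def pts (t : Fin n × Fin n × Fin n) : Finset (Fin n) := {t.1, t.2.1, t.2.2}

/-- The triple has three distinct points. -/
def IsTrip (t : Fin n × Fin n × Fin n) : Prop := t.1 ≠ t.2.1 ∧ t.1 ≠ t.2.2 ∧ t.2.1 ≠ t.2.2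

/-- The projection on the vectors fixed by the element `c` of order three. -/
noncomputable def pr3 (c : Alt n) : Matrix (Alt n) (Alt n) ℝ := (1 / 3 : ℝ) • (1 + Lm c + Lm (c * c))

/-- Product of the projections `pr3 (e i)`, `i < j` (in the order of `i`). -/
noncomputable def prodPr {r : ℕ} (e : Fin r → Alt n) : Matrix (Alt n) (Alt n) ℝ := (List.ofFn (fun i => pr3 (e i))).prod

/-- The product of the three-cycles on two disjoint triples. -/
def cyc2 (t t' : Fin n × Fin n × Fin n) : Alt n := cyc t * cyc t'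

/-- Apply a group element to a triple. -/
def mv (g : Alt n) (t : Fin n × Fin n × Fin n) : Fin n × Fin n × Fin n :=
  ((g : Equiv.Perm (Fin n)) t.1, (g : Equiv.Perm (Fin n)) t.2.1, (g : Equiv.Perm (Fin n)) t.2.2)

/-- Reversed triple (inverse three-cycle). -/
def rv (t : Fin n × Fin n × Fin n) : Fin n × Fin n × Fin n := (t.2.2, t.2.1, t.1)

end Pool.Agent.BC5
end

section
set_option autoImplicit false
set_option linter.unusedSectionVars false
set_option linter.unusedVariables false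
open scoped BigOperators Matrix
open Matrix
namespace Pool.Agent.BC5

/-
ROW E1. Elements supported in disjoint sets commute (Equiv.Perm.Disjoint.commute or pointwise). cyc2_pow_three: (cc')³ = c³c'³ = 1. cyc_mem_AY_compl: cyc t fixes all points outside pts t (and is 1 for degenerate t).
-/

variable {n : ℕ}

theorem cyc_mem_AY_compl (t : Fin n × Fin n × Fin n) (Z : Finset (Fin n)) (h : pts t ⊆ Z) : cyc t ∈ AY Z := by
  rw [mem_AY]
  intro x hx
  by_cases ht : t.1 ≠ t.2.1 ∧ t.1 ≠ t.2.2 ∧ t.2.1 ≠ t.2.2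
  · have hx' : x ∉ pts t := fun hh => hx (h hh)
    simp only [pts, Finset.mem_insert, Finset.mem_singleton, not_or] at hx'
    exact (cyc_apply t ht).2.2.2 x hx'.1 hx'.2.1 hx'.2.2
  · unfold cyc
    rw [dif_neg ht]
    rfl

/-- Elements of `A_Y` and `A_Z` commute if `Y`, `Z` are disjoint. -/
theorem commute_of_disjoint (Y Z : Finset (Fin n)) (h : Disjoint Y Z) (a b : Alt n) (ha : a ∈ AY Y) (hb : b ∈ AY Z) :
    Commute a b := by
  rw [mem_AY] at ha hb
  have hd : Equiv.Perm.Disjoint (a : Equiv.Perm (Fin n)) (b : Equiv.Perm (Fin n)) := by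
    intro x
    by_cases hx : x ∈ Y
    · right
      exact hb x (Finset.disjoint_left.1 h hx)
    · left
      exact ha x hx
  have hc := hd.commute
  apply Subtype.ext
  exact hc

theorem cyc2_pow_three (t t' : Fin n × Fin n × Fin n) (h : Disjoint (pts t) (pts t')) :
    cyc2 t t' * cyc2 t t' * cyc2 t t' = 1 := by
  have hc : Commute (cyc t) (cyc t') :=
    commute_of_disjoint (pts t) (pts t') h _ _ (cyc_mem_AY_compl t _ (Finset.Subset.refl _))
      (cyc_mem_AY_compl t' _ (Finset.Subset.refl _))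
  have h1 : (cyc t * cyc t') ^ 3 = cyc t ^ 3 * cyc t' ^ 3 := hc.mul_pow 3
  have e1 : cyc t ^ 3 = 1 := by rw [pow_three', cyc_pow_three]
  have e2 : cyc t' ^ 3 = 1 := by rw [pow_three', cyc_pow_three]
  have e3 : cyc2 t t' * cyc2 t t' * cyc2 t t' = (cyc t * cyc t') ^ 3 := by
    rw [pow_three']
    rfl
  rw [e3, h1, e1, e2, one_mul]

end Pool.Agent.BC5
end

section
set_option autoImplicit false
set_option linter.unusedSectionVars false
set_option linter.unusedVariables false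
open scoped BigOperators Matrix
open Matrix
namespace Pool.Agent.BC5

/-
ROW E2. Paper 9.3, one step. X' := X \ pts t (card X - 3 ≥ 5), t' ∈ trip X'. trace(Q*Lm(cyc t)*Lm(cyc t'')) is the same for all t'' ∈ trip X' (exists_mem_AY for Fin 3, a ∈ AY X' with cyc t'' = a cyc t' a⁻¹; a commutes with cyc t, Q commutes with Lm a; cyclicity), so trace(Q*Lm(cyc2 t t')) = trace(Q*Lm(cyc t)*Delta X').
qf_Delta_le for X', Q with the same c and qf_Delta_ge: |qf(Delta X') v| ≤ (1-c/2) v·v on the range of Q (1/2 ≤ 1-c/2). abs_trace_le_mul (U := Lm(cyc t)). trace(Q*Lm(e*e)) = trace(Q*Lm e⁻¹) = trace(Q*Lm e) (transpose). Sum up: (1/3)(trace Q + 2(1-c/2) trace Q).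
-/

variable {n : ℕ}

/-- Paper 9.3, one step: `e = cyc t * cyc t'`, `X` the free set. -/
theorem trace_pr3_le (X : Finset (Fin n)) (t t' : Fin n × Fin n × Fin n) (ht : t ∈ trip X) (ht' : t' ∈ trip X)
    (hd : Disjoint (pts t) (pts t')) (Q : Matrix (Alt n) (Alt n) ℝ) (hQ : IsPr Q)
    (hQX : ∀ a ∈ AY X, Commute Q (Lm a)) (c : ℝ) (hc : 0 < c) (hc2 : c ≤ 1 / 2) (hX : 8 ≤ X.card)
    (hno : ∀ Y, Y ⊆ X → (1 - c) * ((X.card : ℝ) - 3) ≤ Y.card → avL (AY Y) * Q = 0) :
    (Q * pr3 (cyc2 t t')).trace ≤ (1 - c / 3) * Q.trace := by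
  classical
  obtain ⟨⟨ht1, ht2, ht3⟩, hn1, hn2, hn3⟩ := (mem_trip X t).1 ht
  obtain ⟨⟨ht1', ht2', ht3'⟩, hn'⟩ := (mem_trip X t').1 ht'
  obtain ⟨X', hX'⟩ : ∃ X', X' = X \ pts t := ⟨_, rfl⟩
  have hptsX : pts t ⊆ X := by
    intro y hy
    simp only [pts, Finset.mem_insert, Finset.mem_singleton] at hy
    rcases hy with rfl | rfl | rfl
    · exact ht1
    · exact ht2
    · exact ht3
  have hpc : (pts t).card = 3 := Finset.card_eq_three.2 ⟨_, _, _, hn1, hn2, hn3, rfl⟩
  have hcard : X'.card = X.card - 3 := by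
    rw [hX', Finset.card_sdiff_of_subset hptsX, hpc]
  have hcardR : (X'.card : ℝ) = (X.card : ℝ) - 3 := by
    rw [hcard, Nat.cast_sub (by omega)]
    norm_num
  have hX'X : X' ⊆ X := by rw [hX']; exact Finset.sdiff_subset
  have hmem' : ∀ y, y ∈ pts t' → y ∈ X → y ∈ X' := by
    intro y hy hyX
    rw [hX', Finset.mem_sdiff]
    exact ⟨hyX, fun h => (Finset.disjoint_left.1 hd h hy)⟩
  have htX' : t' ∈ trip X' := by
    rw [mem_trip]
    refine ⟨⟨hmem' _ ?_ ht1', hmem' _ ?_ ht2', hmem' _ ?_ ht3'⟩, hn'⟩ <;> simp [pts]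
  obtain ⟨e, he⟩ : ∃ e, e = cyc2 t t' := ⟨_, rfl⟩
  have he3 : e * e * e = 1 := by rw [he]; exact cyc2_pow_three t t' hd
  have hee : e * e = e⁻¹ := by
    rw [eq_inv_iff_mul_eq_one]
    exact he3
  have htr : (Q * Lm (e * e)).trace = (Q * Lm e).trace := by
    rw [hee, ← Lm_transpose, ← Matrix.trace_transpose, Matrix.transpose_mul, Matrix.transpose_transpose,
      hQ.1, Matrix.trace_mul_comm]
  have hQX' : ∀ a ∈ AY X', Commute Q (Lm a) := fun a ha => hQX a (AY_mono hX'X ha)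
  have hconst : ∀ t'' ∈ trip X', (Q * Lm (cyc t) * Lm (cyc t'')).trace = (Q * Lm e).trace := by
    intro t'' ht''
    obtain ⟨⟨hm1, hm2, hm3⟩, hnn⟩ := (mem_trip X' t'').1 ht''
    obtain ⟨⟨hk1, hk2, hk3⟩, -⟩ := (mem_trip X' t').1 htX'
    have inj : ∀ s : Fin n × Fin n × Fin n, (s.1 ≠ s.2.1 ∧ s.1 ≠ s.2.2 ∧ s.2.1 ≠ s.2.2) →
        Function.Injective ![s.1, s.2.1, s.2.2] := by
      intro s hs i j hij
      have h1 := hs.1
      have h2 := hs.2.1
      have h3 := hs.2.2
      fin_cases i <;> fin_cases j <;> simp_all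
    obtain ⟨a, ha, hau⟩ := exists_mem_AY X' ![t'.1, t'.2.1, t'.2.2] ![t''.1, t''.2.1, t''.2.2]
      (inj t' hn') (inj t'' hnn) (by
        intro i
        fin_cases i
        · exact hk1
        · exact hk2
        · exact hk3) (by
        intro i
        fin_cases i
        · exact hm1
        · exact hm2
        · exact hm3) (by rw [Fintype.card_fin, hcard]; omega)
    have h0 : (a : Equiv.Perm (Fin n)) t'.1 = t''.1 := hau 0
    have h1 : (a : Equiv.Perm (Fin n)) t'.2.1 = t''.2.1 := hau 1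
    have h2 : (a : Equiv.Perm (Fin n)) t'.2.2 = t''.2.2 := hau 2
    have hconj : a * cyc t' * a⁻¹ = cyc t'' := by
      have := cyc_conj a t'.1 t'.2.1 t'.2.2 hn'
      rw [h0, h1, h2] at this
      exact this
    have hdisj : Disjoint (pts t) X' := by
      rw [hX']
      exact Finset.disjoint_sdiff
    have hcom : Commute (cyc t) a :=
      commute_of_disjoint (pts t) X' hdisj (cyc t) a (cyc_mem_AY_compl t (pts t) (Finset.Subset.refl _)) ha
    have h5 : cyc t * cyc t'' = a * e * a⁻¹ := by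
      rw [← hconj, he, cyc2]
      calc cyc t * (a * cyc t' * a⁻¹) = (cyc t * a) * cyc t' * a⁻¹ := by group
        _ = (a * cyc t) * cyc t' * a⁻¹ := by rw [hcom.eq]
        _ = a * (cyc t * cyc t') * a⁻¹ := by group
    rw [Matrix.mul_assoc, ← Lm_mul, h5, Lm_mul, Lm_mul]
    calc (Q * (Lm a * Lm e * Lm a⁻¹)).trace = (Q * Lm a * Lm e * Lm a⁻¹).trace := by
          simp only [Matrix.mul_assoc]
      _ = (Lm a * (Q * Lm e) * Lm a⁻¹).trace := by
          rw [(hQX' a ha).eq]
          simp only [Matrix.mul_assoc]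
      _ = (Lm a⁻¹ * (Lm a * (Q * Lm e))).trace := Matrix.trace_mul_comm _ _
      _ = (Q * Lm e).trace := by rw [← Matrix.mul_assoc, Lm_inv_mul, Matrix.one_mul]
  have hcardne : ((trip X').card : ℝ) ≠ 0 := by
    have : 0 < (trip X').card := Finset.card_pos.2 ⟨t', htX'⟩
    exact_mod_cast this.ne'
  have hD : (Q * Lm (cyc t) * Delta X').trace = (Q * Lm e).trace := by
    unfold Delta
    rw [Matrix.mul_smul, Matrix.trace_smul, Matrix.mul_sum, Matrix.trace_sum,
      Finset.sum_congr rfl hconst, Finset.sum_const, nsmul_eq_mul, smul_eq_mul, ← mul_assoc,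
      inv_mul_cancel₀ hcardne, one_mul]
  have hZQ : Commute (Delta X') Q := by
    unfold Delta
    refine (Commute.smul_left ?_ _)
    refine Commute.sum_left _ _ _ (fun t'' ht'' => ?_)
    exact (hQX' _ (cyc_mem_AY ht'')).symm
  have hcc : Commute (Lm (cyc t)) Q := (hQX _ (cyc_mem_AY ht)).symm
  have hUU : (Lm (cyc t))ᵀ * Lm (cyc t) = 1 := by rw [Lm_transpose, Lm_inv_mul]
  have hb := abs_trace_le_mul Q (Lm (cyc t)) (Delta X') (1 - c / 2) (by linarith) hQ hUU hcc
    (Delta_transpose X') hZQ (by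
      intro v hv
      have h1 := qf_Delta_le c hc hc2 X' (by omega) Q hQ hQX' (by
        intro Y hY hYc
        rw [hcardR] at hYc
        exact hno Y (hY.trans hX'X) hYc) v hv
      have h2 := qf_Delta_ge X' (by omega) v
      have h3 := dot_self_nonneg v
      rw [abs_le]
      constructor
      · nlinarith
      · exact h1)
  rw [hD] at hb
  have hb' := (abs_le.1 hb).2
  have hfin : (Q * pr3 e).trace = 1 / 3 * (Q.trace + (Q * Lm e).trace + (Q * Lm (e * e)).trace) := by
    unfold pr3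
    rw [Matrix.mul_smul, Matrix.trace_smul, Matrix.mul_add, Matrix.mul_add, Matrix.mul_one,
      Matrix.trace_add, Matrix.trace_add, smul_eq_mul]
  rw [← he, hfin, htr]
  nlinarith

end Pool.Agent.BC5
end

section
set_option autoImplicit false
set_option linter.unusedSectionVars false
set_option linter.unusedVariables false
open scoped BigOperators Matrix
open Matrix
namespace Pool.Agent.BC5

/-
ROW E3. Paper 9.3. Induction on r (Fin.init / the last factor; List.ofFn_succ'): with Q := E*prodPr(first j), a projection commuting with Lm a for a ∈ AY X, X := univ \ union of the pts of the first j pairs (card n-6j): pr3(cyc2 ..) are projections (order_three_pr) which commute with each other and with Lm a (disjoint supports). trace_pr3_le with c := c0/4: hno: Y ⊆ X with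
(1-c)(card X - 3) ≤ card Y ⇒ card Y > n-k (because (1-c)(n-6j-3) ≥ (1-c-0.6c0)n - 3 ≥ (1-c0)n > n-k, 6(j+1) ≤ 6r ≤ 0.6 c0 n, 20 ≤ c0 n) ⇒ n ≤ card Y + (k-1) ⇒ avL(AY Y)*E = 0. 1 - c/3 = 1 - c0/12.
-/

variable {n : ℕ}

theorem E3_pr3_isPr (c : Alt n) (hc : c * c * c = 1) : IsPr (pr3 c) := by
  have hinv : c⁻¹ = c * c := by
    rw [inv_eq_iff_mul_eq_one, ← mul_assoc, hc]
  have hinv2 : (c * c)⁻¹ = c := by
    rw [← hinv, inv_inv]
  have h3 : Lm c * Lm (c * c) = 1 := by
    rw [← Lm_mul, ← mul_assoc, hc, Lm_one]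
  have h3' : Lm (c * c) * Lm c = 1 := by
    rw [← Lm_mul, hc, Lm_one]
  have h2 : Lm c * Lm c = Lm (c * c) := (Lm_mul c c).symm
  have h4 : Lm (c * c) * Lm (c * c) = Lm c := by
    rw [← Lm_mul]
    have : c * c * (c * c) = c := by
      calc c * c * (c * c) = (c * c * c) * c := by group
        _ = c := by rw [hc, one_mul]
    rw [this]
  refine ⟨?_, ?_⟩
  · unfold pr3
    rw [Matrix.transpose_smul, Matrix.transpose_add, Matrix.transpose_add, Matrix.transpose_one,
      Lm_transpose, Lm_transpose, hinv, hinv2, add_assoc, add_assoc, add_comm (Lm (c * c))]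
  · unfold pr3
    rw [Matrix.smul_mul, Matrix.mul_smul, smul_smul]
    have h5 : (1 + Lm c + Lm (c * c)) * (1 + Lm c + Lm (c * c)) = (3 : ℝ) • (1 + Lm c + Lm (c * c)) := by
      have h6 : (1 + Lm c + Lm (c * c)) * (1 + Lm c + Lm (c * c)) =
          1 + Lm c + Lm (c * c) + Lm c + Lm c * Lm c + Lm c * Lm (c * c) + Lm (c * c) + Lm (c * c) * Lm c
            + Lm (c * c) * Lm (c * c) := by noncomm_ring
      rw [h6, h2, h3, h3', h4]
      module
    rw [h5, smul_smul]
    norm_num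

theorem E3_pr3_commute (c a : Alt n) (h : Commute c a) : Commute (pr3 c) (Lm a) := by
  unfold pr3
  have h1 : Commute (Lm c) (Lm a) := by
    show Lm c * Lm a = Lm a * Lm c
    rw [← Lm_mul, ← Lm_mul, h.eq]
  have h2 : Commute (Lm (c * c)) (Lm a) := by
    rw [Lm_mul]
    exact h1.mul_left h1
  exact (((Commute.one_left _).add_left h1).add_left h2).smul_left _

theorem E3_pr3_pr3_commute (c d : Alt n) (h : Commute c d) : Commute (pr3 c) (pr3 d) := by
  have h1 := E3_pr3_commute c d h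
  have h2 := E3_pr3_commute c (d * d) (h.mul_right h)
  unfold pr3 at *
  exact (((Commute.one_right _).add_right h1).add_right h2).smul_right _

theorem E3_cyc2_mem (t t' : Fin n × Fin n × Fin n) : cyc2 t t' ∈ AY (pts t ∪ pts t') := by
  unfold cyc2
  exact (AY_isGrp _).mul _ (cyc_mem_AY_compl t _ Finset.subset_union_left) _
    (cyc_mem_AY_compl t' _ Finset.subset_union_right)

theorem E3_cyc2_commute (t t' : Fin n × Fin n × Fin n) (X : Finset (Fin n)) (h : Disjoint (pts t) X)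
    (h' : Disjoint (pts t') X) (a : Alt n) (ha : a ∈ AY X) : Commute (cyc2 t t') a :=
  commute_of_disjoint (pts t ∪ pts t') X (Finset.disjoint_union_left.mpr ⟨h, h'⟩) _ _ (E3_cyc2_mem t t') ha

theorem E3_prodPr_commute {r : ℕ} (t t' : Fin r → Fin n × Fin n × Fin n) (X : Finset (Fin n))
    (h : ∀ i, Disjoint (pts (t i)) X) (h' : ∀ i, Disjoint (pts (t' i)) X) (a : Alt n) (ha : a ∈ AY X) :
    Commute (prodPr (fun i => cyc2 (t i) (t' i))) (Lm a) := by
  unfold prodPr
  apply Commute.list_prod_left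
  intro x hx
  rw [List.mem_ofFn] at hx
  obtain ⟨i, rfl⟩ := hx
  exact E3_pr3_commute _ _ (E3_cyc2_commute _ _ X (h i) (h' i) a ha)

theorem E3_prodPr_pr3_commute {r : ℕ} (t t' : Fin r → Fin n × Fin n × Fin n) (X : Finset (Fin n))
    (h : ∀ i, Disjoint (pts (t i)) X) (h' : ∀ i, Disjoint (pts (t' i)) X) (a : Alt n) (ha : a ∈ AY X) :
    Commute (prodPr (fun i => cyc2 (t i) (t' i))) (pr3 a) := by
  unfold prodPr
  apply Commute.list_prod_left
  intro x hx
  rw [List.mem_ofFn] at hx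
  obtain ⟨i, rfl⟩ := hx
  exact E3_pr3_pr3_commute _ _ (E3_cyc2_commute _ _ X (h i) (h' i) a ha)

theorem E3_prodPr_succ {r : ℕ} (e : Fin (r + 1) → Alt n) :
    prodPr e = prodPr (fun i : Fin r => e i.castSucc) * pr3 (e (Fin.last r)) := by
  unfold prodPr
  rw [List.ofFn_succ', List.concat_eq_append, List.prod_append]
  simp

theorem E3_prodPr_zero (e : Fin 0 → Alt n) : prodPr e = 1 := by
  simp [prodPr]

theorem E3_card_pts (t : Fin n × Fin n × Fin n) : (pts t).card ≤ 3 := by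
  unfold pts
  exact Finset.card_le_three

/-- Numerical part of the bound. -/
theorem E3_num (n' r' y x : ℝ) (c0 : ℝ) (hc0 : 0 < c0) (hc1 : c0 ≤ 1) (hn : 20 ≤ c0 * n')
    (hr : 10 * (r' + 1) ≤ c0 * n') (hr0 : 0 ≤ r') (hx : n' - 6 * r' ≤ x) (hy : (1 - c0 / 4) * (x - 3) ≤ y) :
    n' - c0 * n' < y := by
  have h1 : n' - 6 * r' - 3 ≤ x - 3 := by linarith
  have h2 : (1 - c0 / 4) * (n' - 6 * r' - 3) ≤ y := by
    refine le_trans (mul_le_mul_of_nonneg_left h1 (by linarith)) hy
  have h3 : 6 * r' ≤ 0.6 * (c0 * n') - 6 := by linarith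
  have h4 : n' - 0.6 * (c0 * n') + 3 ≤ n' - 6 * r' - 3 := by linarith
  have h5 : (1 - c0 / 4) * (n' - 0.6 * (c0 * n') + 3) ≤ y := by
    refine le_trans (mul_le_mul_of_nonneg_left h4 (by linarith)) h2
  nlinarith [mul_nonneg hc0.le (by linarith : (0:ℝ) ≤ c0 * n')]

theorem E3_main {E : Matrix (Alt n) (Alt n) ℝ} (hE : IsBlock E) (c0 : ℝ) (hc0 : 0 < c0) (hc1 : c0 ≤ 1)
    (k : ℕ) (hk : c0 * n < k) (hlev : ¬ LevLe (k - 1) E) (hn : 20 ≤ c0 * n) (r : ℕ) :
    ∀ (hr : 10 * (r : ℝ) ≤ c0 * n)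
    (t t' : Fin r → Fin n × Fin n × Fin n) (ht : ∀ i, IsTrip (t i)) (ht' : ∀ i, IsTrip (t' i))
    (h1 : ∀ i j, Disjoint (pts (t i)) (pts (t' j))) (h2 : ∀ i j, i ≠ j → Disjoint (pts (t i)) (pts (t j)))
    (h3 : ∀ i j, i ≠ j → Disjoint (pts (t' i)) (pts (t' j))),
    IsPr (E * prodPr (fun i => cyc2 (t i) (t' i))) ∧
      (E * prodPr (fun i => cyc2 (t i) (t' i))).trace ≤ (1 - c0 / 12) ^ r * E.trace := by
  induction r with
  | zero =>
    intro hr t t' ht ht' h1 h2 h3
    rw [E3_prodPr_zero, mul_one]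
    exact ⟨hE.1, by simp⟩
  | succ r ih =>
    intro hr t t' ht ht' h1 h2 h3
    push_cast at hr
    obtain ⟨hpr, htr⟩ := ih (by linarith) (fun i => t i.castSucc) (fun i => t' i.castSucc)
      (fun i => ht _) (fun i => ht' _) (fun i j => h1 _ _)
      (fun i j hij => h2 _ _ (fun h => hij (Fin.castSucc_injective r h)))
      (fun i j hij => h3 _ _ (fun h => hij (Fin.castSucc_injective r h)))
    rw [E3_prodPr_succ, ← mul_assoc]
    set Q := E * prodPr (fun i : Fin r => cyc2 (t i.castSucc) (t' i.castSucc)) with hQ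
    have hlast : ∀ i : Fin r, i.castSucc ≠ Fin.last r := fun i => (Fin.castSucc_lt_last i).ne
    -- the free set
    set U : Finset (Fin n) := Finset.univ.biUnion
      (fun i : Fin r => pts (t i.castSucc) ∪ pts (t' i.castSucc)) with hU
    set X : Finset (Fin n) := Uᶜ with hXdef
    have hdX : ∀ i : Fin r, Disjoint (pts (t i.castSucc)) X ∧ Disjoint (pts (t' i.castSucc)) X := by
      intro i
      have hsub : pts (t i.castSucc) ∪ pts (t' i.castSucc) ⊆ U :=
        Finset.subset_biUnion_of_mem (fun i : Fin r => pts (t i.castSucc) ∪ pts (t' i.castSucc))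
          (Finset.mem_univ i)
      have hd : Disjoint U X := disjoint_compl_right
      exact ⟨Finset.disjoint_of_subset_left (Finset.subset_union_left.trans hsub) hd,
        Finset.disjoint_of_subset_left (Finset.subset_union_right.trans hsub) hd⟩
    have hsubX : pts (t (Fin.last r)) ⊆ X ∧ pts (t' (Fin.last r)) ⊆ X := by
      constructor
      · intro x hx
        rw [hXdef, Finset.mem_compl, hU, Finset.mem_biUnion]
        rintro ⟨i, -, hi⟩
        rw [Finset.mem_union] at hi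
        rcases hi with hi | hi
        · exact (Finset.disjoint_left.mp (h2 _ _ (hlast i)) hi) hx
        · exact (Finset.disjoint_left.mp (h1 (Fin.last r) i.castSucc) hx) hi
      · intro x hx
        rw [hXdef, Finset.mem_compl, hU, Finset.mem_biUnion]
        rintro ⟨i, -, hi⟩
        rw [Finset.mem_union] at hi
        rcases hi with hi | hi
        · exact (Finset.disjoint_left.mp (h1 i.castSucc (Fin.last r)) hi) hx
        · exact (Finset.disjoint_left.mp (h3 _ _ (hlast i)) hi) hx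
    have hcardU : U.card ≤ 6 * r := by
      calc U.card ≤ ∑ i : Fin r, (pts (t i.castSucc) ∪ pts (t' i.castSucc)).card := Finset.card_biUnion_le
        _ ≤ ∑ i : Fin r, 6 := Finset.sum_le_sum (fun i _ => by
            have e1 := Finset.card_union_le (pts (t i.castSucc)) (pts (t' i.castSucc))
            have e2 := E3_card_pts (t i.castSucc)
            have e3 := E3_card_pts (t' i.castSucc)
            omega)
        _ = 6 * r := by simp [mul_comm]
    have hcardX : (n : ℝ) - 6 * r ≤ (X.card : ℝ) := by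
      have e1 : U.card + X.card = n := by
        rw [hXdef, Finset.card_add_card_compl, Fintype.card_fin]
      have e2 : (U.card : ℝ) + X.card = n := by exact_mod_cast e1
      have e3 : (U.card : ℝ) ≤ 6 * r := by exact_mod_cast hcardU
      linarith
    have hnn : (20 : ℝ) ≤ n := by
      have : (0 : ℝ) ≤ n := Nat.cast_nonneg n
      nlinarith
    have hcn : c0 * n ≤ n := by
      have : (0 : ℝ) ≤ n := Nat.cast_nonneg n
      nlinarith
    have hX8 : 8 ≤ X.card := by
      have e1 : (8 : ℝ) ≤ (X.card : ℝ) := by linarith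
      exact_mod_cast e1
    have htX : t (Fin.last r) ∈ trip X := by
      rw [mem_trip]
      refine ⟨⟨hsubX.1 ?_, hsubX.1 ?_, hsubX.1 ?_⟩, ht _⟩ <;> simp [pts]
    have htX' : t' (Fin.last r) ∈ trip X := by
      rw [mem_trip]
      refine ⟨⟨hsubX.2 ?_, hsubX.2 ?_, hsubX.2 ?_⟩, ht' _⟩ <;> simp [pts]
    have hQX : ∀ a ∈ AY X, Commute Q (Lm a) := by
      intro a ha
      exact (hE.2.1 a).mul_left (E3_prodPr_commute _ _ X (fun i => (hdX i).1) (fun i => (hdX i).2) a ha)
    have hno : ∀ Y, Y ⊆ X → (1 - c0 / 4) * ((X.card : ℝ) - 3) ≤ Y.card → avL (AY Y) * Q = 0 := by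
      intro Y hYX hY
      have e1 := E3_num (n : ℝ) (r : ℝ) (Y.card : ℝ) (X.card : ℝ) c0 hc0 hc1 hn hr (Nat.cast_nonneg r) hcardX hY
      have e2 : (n : ℝ) < Y.card + k := by linarith
      have e3 : n < Y.card + k := by exact_mod_cast e2
      have e4 : n ≤ Y.card + (k - 1) := by omega
      rw [hQ, ← mul_assoc, avL_mul_eq_zero_of_not_levLe hlev Y e4, zero_mul]
    have hmem : cyc2 (t (Fin.last r)) (t' (Fin.last r)) ∈ AY X :=
      AY_mono (Finset.union_subset hsubX.1 hsubX.2) (E3_cyc2_mem _ _)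
    have hstep := trace_pr3_le X (t (Fin.last r)) (t' (Fin.last r)) htX htX' (h1 _ _) Q hpr hQX (c0 / 4)
      (by linarith) (by linarith) hX8 hno
    refine ⟨?_, ?_⟩
    · refine hpr.mul (E3_pr3_isPr _ (cyc2_pow_three _ _ (h1 _ _))) ?_
      have hEc : Commute E (pr3 (cyc2 (t (Fin.last r)) (t' (Fin.last r)))) := by
        unfold pr3
        exact (((Commute.one_right _).add_right (hE.2.1 _)).add_right (hE.2.1 _)).smul_right _
      exact hEc.mul_left (E3_prodPr_pr3_commute _ _ X (fun i => (hdX i).1) (fun i => (hdX i).2) _ hmem)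
    · refine le_trans hstep ?_
      have e5 : (1 - c0 / 4 / 3) = 1 - c0 / 12 := by ring
      rw [e5, pow_succ]
      calc (1 - c0 / 12) * Q.trace ≤ (1 - c0 / 12) * ((1 - c0 / 12) ^ r * E.trace) :=
            mul_le_mul_of_nonneg_left htr (by linarith)
        _ = (1 - c0 / 12) ^ r * (1 - c0 / 12) * E.trace := by ring

/-- Paper 9.3. -/
theorem trace_prodPr_le {E : Matrix (Alt n) (Alt n) ℝ} (hE : IsBlock E) (c0 : ℝ) (hc0 : 0 < c0) (hc1 : c0 ≤ 1)
    (k : ℕ) (hk : c0 * n < k) (hlev : ¬ LevLe (k - 1) E) (hn : 20 ≤ c0 * n) (r : ℕ) (hr : 10 * (r : ℝ) ≤ c0 * n)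
    (t t' : Fin r → Fin n × Fin n × Fin n) (ht : ∀ i, IsTrip (t i)) (ht' : ∀ i, IsTrip (t' i))
    (h1 : ∀ i j, Disjoint (pts (t i)) (pts (t' j))) (h2 : ∀ i j, i ≠ j → Disjoint (pts (t i)) (pts (t j)))
    (h3 : ∀ i j, i ≠ j → Disjoint (pts (t' i)) (pts (t' j))) :
    IsPr (E * prodPr (fun i => cyc2 (t i) (t' i))) ∧
      (E * prodPr (fun i => cyc2 (t i) (t' i))).trace ≤ (1 - c0 / 12) ^ r * E.trace := by
  exact E3_main hE c0 hc0 hc1 k hk hlev hn r hr t t' ht ht' h1 h2 h3

end Pool.Agent.BC5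
end

section
set_option autoImplicit false
set_option linter.unusedSectionVars false
set_option linter.unusedVariables false
open scoped BigOperators Matrix
open Matrix
namespace Pool.Agent.BC5

/-
ROW E4. Paper 9.4. D := non-fixed points of g (2 card D ≥ n), indep_third: B with Disjoint B (img g B), 6 card B ≥ n, so card B ≥ 3r; take an injection Fin r × Fin 3 → B (or an enumeration Fin (3r) → B) and t i := its three values. Disjoint (pts(t i)) (img g⁻¹ (pts(t j))): x ∈ B and g x ∈ B contradicts the disjointness.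
-/

variable {n : ℕ}

/-- Paper 9.4: disjoint triples `A_i` whose union `A` satisfies `A ∩ g⁻¹ A = ∅`. -/
theorem exists_triples (g : Alt n) (hfix : 2 * fixc g ≤ n) (r : ℕ) (hr : 18 * r ≤ n) :
    ∃ t : Fin r → Fin n × Fin n × Fin n, (∀ i, IsTrip (t i)) ∧ (∀ i j, i ≠ j → Disjoint (pts (t i)) (pts (t j))) ∧
      ∀ i j, Disjoint (pts (t i)) (img g⁻¹ (pts (t j))) := by
  classical
  obtain ⟨B, hBD, hcard, hdis⟩ := indep_third g
    (Finset.univ.filter (fun x : Fin n => ¬ (g : Equiv.Perm (Fin n)) x = x)) (by simp)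
  have hc : fixc g + (Finset.univ.filter (fun x : Fin n => ¬ (g : Equiv.Perm (Fin n)) x = x)).card = n := by
    have := Finset.card_filter_add_card_filter_not (s := (Finset.univ : Finset (Fin n)))
      (fun x : Fin n => (g : Equiv.Perm (Fin n)) x = x)
    simpa [fixc] using this
  have hB : 3 * r ≤ B.card := by omega
  obtain ⟨B', hB'B, hB'⟩ := Finset.exists_subset_card_eq hB
  have hmem : ∀ k : Fin (3 * r), B'.orderEmbOfFin hB' k ∈ B := fun k =>
    hB'B (Finset.orderEmbOfFin_mem B' hB' k)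
  have hinj : ∀ k l : Fin (3 * r), B'.orderEmbOfFin hB' k = B'.orderEmbOfFin hB' l → (k : ℕ) = l := by
    intro k l h
    rw [(B'.orderEmbOfFin hB').injective h]
  set e := B'.orderEmbOfFin hB' with he
  have h0 : ∀ i : Fin r, 3 * (i : ℕ) < 3 * r := fun i => by have := i.2; omega
  have h1 : ∀ i : Fin r, 3 * (i : ℕ) + 1 < 3 * r := fun i => by have := i.2; omega
  have h2 : ∀ i : Fin r, 3 * (i : ℕ) + 2 < 3 * r := fun i => by have := i.2; omega
  have hpB : ∀ i : Fin r, ∀ x ∈ pts (e ⟨_, h0 i⟩, e ⟨_, h1 i⟩, e ⟨_, h2 i⟩), x ∈ B := by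
    intro i x hx
    simp only [pts, Finset.mem_insert, Finset.mem_singleton] at hx
    rcases hx with rfl | rfl | rfl <;> exact hmem _
  refine ⟨fun i => (e ⟨_, h0 i⟩, e ⟨_, h1 i⟩, e ⟨_, h2 i⟩), ?_, ?_, ?_⟩
  · intro i
    refine ⟨?_, ?_, ?_⟩ <;>
    · intro h
      have := hinj _ _ h
      simp at this
  · intro i j hij
    have hij' : (i : ℕ) ≠ j := fun h => hij (Fin.ext h)
    rw [Finset.disjoint_left]
    intro x hx hx'
    simp only [pts, Finset.mem_insert, Finset.mem_singleton] at hx hx'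
    rcases hx with h | h | h <;> rcases hx' with h' | h' | h' <;>
    · rw [h] at h'
      have := hinj _ _ h'
      simp only at this
      omega
  · intro i j
    rw [Finset.disjoint_left]
    intro x hx hx'
    have hxB := hpB i x hx
    simp only [img, Finset.mem_image] at hx'
    obtain ⟨y, hy, hyx⟩ := hx'
    have hyB := hpB j y hy
    have hgx : (g : Equiv.Perm (Fin n)) x = y := by
      rw [← hyx]
      simp
    refine Finset.disjoint_left.1 hdis hyB ?_
    simp only [img, Finset.mem_image]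
    exact ⟨x, hxB, hgx⟩

end Pool.Agent.BC5
end

section
set_option autoImplicit false
set_option linter.unusedSectionVars false
set_option linter.unusedVariables false
open scoped BigOperators Matrix
open Matrix
namespace Pool.Agent.BC5

/-
ROW E5. Paper 9.4, by induction on r (last factor). Let Π := prodPr(first j), τ := cyc(t j), e := cyc2(mv g⁻¹ (rv (t j))) (t j) = (g⁻¹ τ⁻¹ g) τ (cyc_conj, cyc_inv). For a = 0,1,2: trace(E Lm g Π) = trace(E Lm(τ^-a) Lm g Π Lm(τ^a)) (E commutes with Lm, cyclicity) = trace(E Lm(τ^-a g τ^a) Π) (Π commutes with Lm τ: e_i, i < j, has support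
in pts(t i) ∪ g⁻¹ pts(t i), disjoint from pts(t j)), and τ^-a g τ^a = g e^a (the two factors of e commute). Average over a = 0,1,2 (1, e, e*e): = trace(E Lm g pr3(e) Π), and pr3(e) commutes with Π.
-/

variable {n : ℕ}

theorem E5_commute_pr3 (c b : Alt n) (h : Commute c b) : Commute (pr3 c) (Lm b) := by
  have h1 : Commute (Lm c) (Lm b) := by
    show Lm c * Lm b = Lm b * Lm c
    rw [← Lm_mul, ← Lm_mul, h.eq]
  have h2 : Commute (Lm (c * c)) (Lm b) := by
    rw [Lm_mul]
    exact h1.mul_left h1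
  unfold pr3
  exact (((Commute.one_left _).add_left h1).add_left h2).smul_left _

theorem E5_commute_prodPr {r : ℕ} (e : Fin r → Alt n) (b : Alt n) (h : ∀ i, Commute (e i) b) :
    Commute (prodPr e) (Lm b) := by
  unfold prodPr
  apply Commute.list_prod_left
  intro x hx
  rw [List.mem_ofFn] at hx
  obtain ⟨i, rfl⟩ := hx
  exact E5_commute_pr3 _ _ (h i)

theorem E5_pts_rv (g : Alt n) (t : Fin n × Fin n × Fin n) : pts (mv g (rv t)) = img g (pts t) := by
  ext x
  simp only [pts, mv, rv, img, Finset.mem_insert, Finset.mem_singleton, Finset.mem_image]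
  constructor
  · rintro (h | h | h)
    · exact ⟨t.2.2, by simp, h.symm⟩
    · exact ⟨t.2.1, by simp, h.symm⟩
    · exact ⟨t.1, by simp, h.symm⟩
  · rintro ⟨y, h | h | h, rfl⟩
    · right; right; rw [h]
    · right; left; rw [h]
    · left; rw [h]

theorem E5_cyc_rv (g : Alt n) (t : Fin n × Fin n × Fin n) (ht : IsTrip t) :
    cyc (mv g⁻¹ (rv t)) = g⁻¹ * (cyc t)⁻¹ * g := by
  obtain ⟨x, y, z⟩ := t
  obtain ⟨h1, h2, h3⟩ := ht
  simp only at h1 h2 h3
  rw [cyc_inv x y z ⟨h1, h2, h3⟩]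
  have h4 := cyc_conj g⁻¹ z y x ⟨h3.symm, h2.symm, h1.symm⟩
  rw [inv_inv] at h4
  rw [h4]
  rfl

theorem E5_disj_img (g : Alt n) (Y Z : Finset (Fin n)) (h : Disjoint Y Z) : Disjoint (img g Y) (img g Z) := by
  unfold img
  exact (Finset.disjoint_image (Equiv.injective (g : Equiv.Perm (Fin n)))).mpr h

/-- One averaging step. -/
theorem E5_step {E P : Matrix (Alt n) (Alt n) ℝ} (hE : CommL E) (g τ σ : Alt n) (hσ : σ = g⁻¹ * τ⁻¹ * g)
    (hc : Commute σ τ) (hP1 : Commute P (Lm τ)) (hP2 : Commute P (Lm σ)) :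
    (E * Lm g * P).trace = (E * Lm g * (P * pr3 (σ * τ))).trace := by
  have key : ∀ a : Alt n, Commute P (Lm a) → (E * Lm g * P).trace = (E * Lm g * (Lm (g⁻¹ * a⁻¹ * g * a) * P)).trace := by
    intro a ha
    have e1 : (E * Lm g * (Lm (g⁻¹ * a⁻¹ * g * a) * P)) = Lm a⁻¹ * ((E * Lm g * P) * Lm a) := by
      have e2 : Lm g * Lm (g⁻¹ * a⁻¹ * g * a) = Lm a⁻¹ * Lm g * Lm a := by
        rw [← Lm_mul, ← Lm_mul, ← Lm_mul]
        congr 1
        group
      calc E * Lm g * (Lm (g⁻¹ * a⁻¹ * g * a) * P) = E * (Lm g * Lm (g⁻¹ * a⁻¹ * g * a)) * P := by noncomm_ring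
        _ = E * (Lm a⁻¹ * Lm g * Lm a) * P := by rw [e2]
        _ = (E * Lm a⁻¹) * Lm g * (Lm a * P) := by noncomm_ring
        _ = (Lm a⁻¹ * E) * Lm g * (P * Lm a) := by rw [(hE a⁻¹).eq, ha.eq]
        _ = Lm a⁻¹ * ((E * Lm g * P) * Lm a) := by noncomm_ring
    rw [e1, Matrix.trace_mul_comm (Lm a⁻¹), mul_assoc (E * Lm g * P), Lm_mul_inv, mul_one]
  have k1 := key τ hP1
  have k2 := key (τ * τ) (by rw [Lm_mul]; exact hP1.mul_right hP1)
  have f1 : g⁻¹ * τ⁻¹ * g * τ = σ * τ := by rw [hσ]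
  have f2 : g⁻¹ * (τ * τ)⁻¹ * g * (τ * τ) = (σ * τ) * (σ * τ) := by
    have : (σ * τ) * (σ * τ) = (σ * σ) * (τ * τ) := by
      calc (σ * τ) * (σ * τ) = σ * (τ * σ) * τ := by group
        _ = σ * (σ * τ) * τ := by rw [hc.eq]
        _ = (σ * σ) * (τ * τ) := by group
    rw [this, hσ]
    group
  rw [f1] at k1
  rw [f2] at k2
  have hPe : Commute P (pr3 (σ * τ)) := by
    have h1 : Commute P (Lm (σ * τ)) := by rw [Lm_mul]; exact hP2.mul_right hP1
    have h2 : Commute P (Lm (σ * τ * (σ * τ))) := by rw [Lm_mul]; exact h1.mul_right h1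
    unfold pr3
    exact (((Commute.one_right _).add_right h1).add_right h2).smul_right _
  rw [hPe.eq]
  have e3 : E * Lm g * (pr3 (σ * τ) * P) = (1 / 3 : ℝ) • (E * Lm g * P + E * Lm g * (Lm (σ * τ) * P) +
      E * Lm g * (Lm (σ * τ * (σ * τ)) * P)) := by
    unfold pr3
    rw [Matrix.smul_mul, Matrix.mul_smul, add_mul, add_mul, mul_add, mul_add, one_mul]
  rw [e3, Matrix.trace_smul, Matrix.trace_add, Matrix.trace_add, ← k1, ← k2, smul_eq_mul]
  ring

/-- Paper 9.4: `tr(E L(g)) = tr(E L(g) Π)` by averaging over the conjugations. -/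
theorem trace_eq_trace_mul_prodPr {E : Matrix (Alt n) (Alt n) ℝ} (hE : CommL E) (g : Alt n) (r : ℕ)
    (t : Fin r → Fin n × Fin n × Fin n) (ht : ∀ i, IsTrip (t i))
    (h2 : ∀ i j, i ≠ j → Disjoint (pts (t i)) (pts (t j)))
    (h3 : ∀ i j, Disjoint (pts (t i)) (img g⁻¹ (pts (t j)))) :
    (E * Lm g).trace = (E * Lm g * prodPr (fun i => cyc2 (mv g⁻¹ (rv (t i))) (t i))).trace := by
  induction r with
  | zero =>
    have : prodPr (fun i : Fin 0 => cyc2 (mv g⁻¹ (rv (t i))) (t i)) = 1 := by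
      simp [prodPr]
    rw [this, mul_one]
  | succ r ih =>
    have ih' := ih (fun i => t i.castSucc) (fun i => ht _) (fun i j hij => h2 _ _ (fun h => hij (Fin.castSucc_injective _ h)))
      (fun i j => h3 _ _)
    rw [ih']
    have hprod : prodPr (fun i : Fin (r + 1) => cyc2 (mv g⁻¹ (rv (t i))) (t i))
        = prodPr (fun i : Fin r => cyc2 (mv g⁻¹ (rv (t i.castSucc))) (t i.castSucc)) *
          pr3 (cyc2 (mv g⁻¹ (rv (t (Fin.last r)))) (t (Fin.last r))) := by
      unfold prodPr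
      rw [List.ofFn_succ', List.concat_eq_append, List.prod_append]
      simp
    rw [hprod]
    have hne : ∀ i : Fin r, i.castSucc ≠ Fin.last r := fun i => (Fin.castSucc_lt_last i).ne
    refine E5_step hE g (cyc (t (Fin.last r))) (cyc (mv g⁻¹ (rv (t (Fin.last r))))) (E5_cyc_rv g _ (ht _)) ?_ ?_ ?_
    · refine commute_of_disjoint _ _ ?_ _ _ (cyc_mem_AY_compl _ _ (Finset.Subset.refl _))
        (cyc_mem_AY_compl _ _ (Finset.Subset.refl _))
      rw [E5_pts_rv]
      exact (h3 _ _).symm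
    · refine E5_commute_prodPr _ _ (fun i => ?_)
      unfold cyc2
      refine Commute.mul_left ?_ ?_
      · refine commute_of_disjoint _ _ ?_ _ _ (cyc_mem_AY_compl _ _ (Finset.Subset.refl _))
          (cyc_mem_AY_compl _ _ (Finset.Subset.refl _))
        rw [E5_pts_rv]
        exact (h3 _ _).symm
      · exact commute_of_disjoint _ _ (h2 _ _ (hne i)) _ _ (cyc_mem_AY_compl _ _ (Finset.Subset.refl _))
          (cyc_mem_AY_compl _ _ (Finset.Subset.refl _))
    · refine E5_commute_prodPr _ _ (fun i => ?_)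
      unfold cyc2
      refine Commute.mul_left ?_ ?_
      · refine commute_of_disjoint _ _ ?_ _ _ (cyc_mem_AY_compl _ _ (Finset.Subset.refl _))
          (cyc_mem_AY_compl _ _ (Finset.Subset.refl _))
        rw [E5_pts_rv, E5_pts_rv]
        exact E5_disj_img _ _ _ (h2 _ _ (hne i))
      · refine commute_of_disjoint _ _ ?_ _ _ (cyc_mem_AY_compl _ _ (Finset.Subset.refl _))
          (cyc_mem_AY_compl _ _ (Finset.Subset.refl _))
        rw [E5_pts_rv]
        exact h3 _ _

end Pool.Agent.BC5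
end

section
set_option autoImplicit false
set_option linter.unusedSectionVars false
set_option linter.unusedVariables false
open scoped BigOperators Matrix
open Matrix
namespace Pool.Agent.BC5

/-
ROW E6. Paper 9.4: exists_triples (18r ≤ n from 10 r ≤ c0 n ≤ n/2), trace_eq_trace_mul_prodPr, trace_prodPr_le with t := mv g⁻¹ (rv (t i)), t' := t i; |trace(E*Lm g*Π)| = |trace((E*Π)*Lm g)| ≤ trace(E*Π) (abs_trace_le, |qf(Lm g) v| ≤ v·v; E*Π is a projection, E commutes with Π).
-/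

variable {n : ℕ}

theorem E6_abs_qf_Lm_le (g : Alt n) (v : Alt n → ℝ) : |qf (Lm g) v| ≤ v ⬝ᵥ v := by
  have h1 : 0 ≤ (v + Lm g *ᵥ v) ⬝ᵥ (v + Lm g *ᵥ v) := dot_self_nonneg _
  have h2 : 0 ≤ (v - Lm g *ᵥ v) ⬝ᵥ (v - Lm g *ᵥ v) := dot_self_nonneg _
  have h3 : (Lm g *ᵥ v) ⬝ᵥ (Lm g *ᵥ v) = v ⬝ᵥ v := dot_Lm g v v
  have h4 : (Lm g *ᵥ v) ⬝ᵥ v = v ⬝ᵥ (Lm g *ᵥ v) := dotProduct_comm _ _
  rw [add_dotProduct, dotProduct_add, dotProduct_add, h3, h4] at h1
  rw [sub_dotProduct, dotProduct_sub, dotProduct_sub, h3, h4] at h2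
  rw [abs_le]
  unfold qf
  constructor <;> linarith

theorem E6_pts_mv (g : Alt n) (t : Fin n × Fin n × Fin n) : pts (mv g (rv t)) = img g (pts t) := by
  ext x
  simp only [pts, mv, rv, img, Finset.mem_insert, Finset.mem_singleton, Finset.mem_image, exists_eq_or_imp,
    exists_eq_left]
  constructor
  · rintro (h | h | h)
    · exact Or.inr (Or.inr h.symm)
    · exact Or.inr (Or.inl h.symm)
    · exact Or.inl h.symm
  · rintro (h | h | h)
    · exact Or.inr (Or.inr h.symm)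
    · exact Or.inr (Or.inl h.symm)
    · exact Or.inl h.symm

theorem E6_isTrip_mv (g : Alt n) {t : Fin n × Fin n × Fin n} (h : IsTrip t) : IsTrip (mv g (rv t)) := by
  obtain ⟨h1, h2, h3⟩ := h
  have hinj := (g : Equiv.Perm (Fin n)).injective
  exact ⟨fun h => h3 (hinj h).symm, fun h => h2 (hinj h).symm, fun h => h1 (hinj h).symm⟩

/-- Paper 9.4. -/
theorem char_high {E : Matrix (Alt n) (Alt n) ℝ} (hE : IsBlock E) (c0 : ℝ) (hc0 : 0 < c0) (hc1 : c0 ≤ 1 / 2)
    (k : ℕ) (hk : c0 * n < k) (hlev : ¬ LevLe (k - 1) E) (hn : 20 ≤ c0 * n) (r : ℕ) (hr : 10 * (r : ℝ) ≤ c0 * n)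
    (g : Alt n) (hfix : 2 * fixc g ≤ n) :
    |(E * Lm g).trace| ≤ (1 - c0 / 12) ^ r * E.trace := by
  have hn0 : (0 : ℝ) ≤ (n : ℝ) := Nat.cast_nonneg n
  have h18 : 18 * r ≤ n := by
    have h : (18 : ℝ) * (r : ℝ) ≤ (n : ℝ) := by
      have : c0 * n ≤ 1 / 2 * n := mul_le_mul_of_nonneg_right hc1 hn0
      linarith
    exact_mod_cast h
  obtain ⟨t, ht, hd1, hd2⟩ := exists_triples g hfix r h18
  have h2 : ∀ i j, i ≠ j → Disjoint (pts (mv g⁻¹ (rv (t i)))) (pts (mv g⁻¹ (rv (t j)))) := by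
    intro i j hij
    rw [E6_pts_mv, E6_pts_mv]
    unfold img
    exact (Finset.disjoint_image (g⁻¹ : Alt n).1.injective).2 (hd1 i j hij)
  have h1 : ∀ i j, Disjoint (pts (mv g⁻¹ (rv (t i)))) (pts (t j)) := by
    intro i j
    rw [E6_pts_mv]
    exact (hd2 j i).symm
  obtain ⟨hPr, hle⟩ := trace_prodPr_le hE c0 hc0 (by linarith) k hk hlev hn r hr
    (fun i => mv g⁻¹ (rv (t i))) t (fun i => E6_isTrip_mv _ (ht i)) ht h1 h2 hd1
  rw [trace_eq_trace_mul_prodPr hE.2.1 g r t ht hd1 hd2]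
  set W := prodPr (fun i => cyc2 (mv g⁻¹ (rv (t i))) (t i)) with hW
  have hcomm : E * Lm g * W = Lm g * (E * W) := by
    rw [(hE.2.1 g).eq, mul_assoc]
  rw [hcomm, Matrix.trace_mul_comm]
  refine (abs_trace_le (E * W) (Lm g) 1 hPr (fun v _ => ?_)).trans ?_
  · rw [one_mul]; exact E6_abs_qf_Lm_le g v
  · rw [one_mul]; exact hle

end Pool.Agent.BC5
end

section
set_option autoImplicit false
set_option linter.unusedSectionVars false
set_option linter.unusedVariables false
open scoped BigOperators Matrix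
open Matrix
namespace Pool.Agent.BC5

/-
ROW E7. Paper 9.5: κ := 1/(720*864), n0 := 1440. trace(E*Rm g) = trace(E*Lm g) (trace_mul_Rm). k := the least number with LevLe k E (exists, ≤ n: levLe_of_ge); k > l, k ≥ 1, ¬LevLe(k-1) E. If 72k ≤ n: char_low, (1/2)^(k/12) ≤ exp(-κ l). If 72 k > n: char_high with c0 := 1/72 (c0*n < k), r := n/720 (ℕ division), 2 fixc g ≤ n:
(1-1/864)^r ≤ exp(-r/864) ≤ exp(-(n/720-1)/864) ≤ 3 exp(-κ n) ≤ 3 exp(-κ l).
-/

variable {n : ℕ}

theorem E7_low {k l : ℕ} (hlk : l < k) : (1 / 2 : ℝ) ^ ((k : ℝ) / 12) ≤ Real.exp (-((1 / (720 * 864)) * (l : ℝ))) := by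
  rw [Real.rpow_def_of_pos (by norm_num : (0 : ℝ) < 1 / 2), one_div, Real.log_inv]
  refine Real.exp_le_exp.2 ?_
  have h1 : (0.69 : ℝ) < Real.log 2 := by linarith [Real.log_two_gt_d9]
  have h2 : (l : ℝ) ≤ k := by exact_mod_cast hlk.le
  have h3 : (0 : ℝ) ≤ l := Nat.cast_nonneg l
  have h4 : (0.69 : ℝ) * ((k : ℝ) / 12) ≤ Real.log 2 * ((k : ℝ) / 12) :=
    mul_le_mul_of_nonneg_right h1.le (by linarith)
  linarith

theorem E7_high {n l r : ℕ} (hln : l < n) (hr : n < 720 * (r + 1)) :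
    (1 - (1 / 72 : ℝ) / 12) ^ r ≤ 3 * Real.exp (-((1 / (720 * 864)) * (l : ℝ))) := by
  have h1 : (1 - (1 / 72 : ℝ) / 12) ≤ Real.exp (-(1 / 864)) := by
    have := Real.add_one_le_exp (-(1 / 864) : ℝ)
    linarith
  have h2 : (1 - (1 / 72 : ℝ) / 12) ^ r ≤ Real.exp (-(1 / 864)) ^ r :=
    pow_le_pow_left₀ (by norm_num) h1 r
  rw [← Real.exp_nat_mul] at h2
  have h3 : (n : ℝ) < 720 * ((r : ℝ) + 1) := by exact_mod_cast hr
  have h4 : (l : ℝ) < n := by exact_mod_cast hln
  have h5 : Real.exp ((r : ℝ) * (-(1 / 864))) ≤ Real.exp (1 + -((1 / (720 * 864)) * (l : ℝ))) := by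
    refine Real.exp_le_exp.2 ?_
    have h6 : (l : ℝ) / 720 < (r : ℝ) + 1 := by linarith
    linarith
  have h6 : Real.exp 1 ≤ 3 := by linarith [Real.exp_one_lt_d9]
  rw [Real.exp_add] at h5
  have h7 := mul_le_mul_of_nonneg_right h6 (Real.exp_pos (-((1 / (720 * 864)) * (l : ℝ)))).le
  linarith

/-- Paper 9.5: THE CHARACTER BOUND. -/
theorem char_bound : ∃ κ : ℝ, 0 < κ ∧ κ ≤ 1 / 20 ∧ ∃ n0 : ℕ, ∀ n : ℕ, n0 ≤ n → ∀ l : ℕ,
    ∀ E : Matrix (Alt n) (Alt n) ℝ, IsBlock E → ¬ LevLe l E → ∀ g : Alt n, 24 * fixc g ≤ n →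
      |(E * Rm g).trace| ≤ 3 * Real.exp (-(κ * l)) * E.trace := by
  classical
  refine ⟨1 / (720 * 864), by norm_num, by norm_num, 1440, ?_⟩
  intro n hn l E hE hl g hg
  have hE0 : E ≠ 0 := hE.2.2.2.1
  have htr : 0 ≤ E.trace := by
    have := block_trace_pos hE
    linarith
  rw [trace_mul_Rm hE.1.1 hE.2.1 hE.2.2.1]
  have hex : ∃ k, LevLe k E := ⟨n, levLe_of_ge hE0 n (by omega) (by omega)⟩
  obtain ⟨k, hk, hmin⟩ : ∃ k, LevLe k E ∧ ∀ j, j < k → ¬ LevLe j E :=
    ⟨Nat.find hex, Nat.find_spec hex, fun j hj => Nat.find_min hex hj⟩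
  have hlk : l < k := by
    by_contra h
    exact hl (hk.mono (not_lt.1 h))
  have hkn : k ≤ n := by
    by_contra h
    exact hmin n (not_le.1 h) (levLe_of_ge hE0 n (by omega) (by omega))
  by_cases h72 : 72 * k ≤ n
  · have h1 := char_low hE k (by omega) (hmin (k - 1) (by omega)) hk h72 g hg
    have h2 := mul_le_mul_of_nonneg_right (E7_low hlk) htr
    refine h1.trans ?_
    have e1 : 3 * (1 / 2 : ℝ) ^ ((k : ℝ) / 12) * E.trace = 3 * ((1 / 2 : ℝ) ^ ((k : ℝ) / 12) * E.trace) := by ring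
    have e2 : 3 * Real.exp (-((1 / (720 * 864)) * (l : ℝ))) * E.trace
        = 3 * (Real.exp (-((1 / (720 * 864)) * (l : ℝ))) * E.trace) := by ring
    rw [e1, e2]
    linarith
  · have hnk : (n : ℝ) < 72 * (k : ℝ) := by exact_mod_cast not_le.1 h72
    have hn' : (1440 : ℝ) ≤ n := by exact_mod_cast hn
    have hr1 : 720 * (n / 720) ≤ n := Nat.mul_div_le n 720
    have hr1' : 720 * ((n / 720 : ℕ) : ℝ) ≤ n := by exact_mod_cast hr1
    have hr2 : n < 720 * (n / 720 + 1) := Nat.lt_mul_div_succ n (by norm_num)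
    have h1 := char_high hE (1 / 72) (by norm_num) (by norm_num) k (by linarith)
      (hmin (k - 1) (by omega)) (by linarith) (n / 720) (by linarith) g (by omega)
    exact h1.trans (mul_le_mul_of_nonneg_right (E7_high (by omega) hr2) htr)

end Pool.Agent.BC5
end

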