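import Pool.Agent.Lib.MP_bc5a73_al.Averages

section
set_option autoImplicit false
set_option linter.unusedSectionVars false
set_option linter.unusedVariables false
open scoped BigOperators Matrix
open Matrix
namespace Pool.Agent.BC5


theorem T4_exp_four : (48 : ℝ) ≤ Real.exp 4 := by
  have h1 := Real.exp_one_gt_d9
  have h2 : Real.exp 4 = Real.exp 1 ^ 4 := by
    rw [← Real.exp_nat_mul]; norm_num
  rw [h2]
  have h3 : (2.7 : ℝ) ^ 4 ≤ Real.exp 1 ^ 4 := pow_le_pow_left₀ (by norm_num) (by linarith) 4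
  exact le_trans (by norm_num) h3

theorem T4_pow_lower (t K : ℝ) (T : ℕ) (ht : 5 / 8 ≤ t) (hT : (T : ℝ) ≤ K / 3) :
    Real.exp (-(K / 3)) ≤ t ^ (2 * T) := by
  have h1 : Real.exp (-1) ≤ 25 / 64 := by
    rw [Real.exp_neg]
    have h2 := Real.exp_one_gt_d9
    have h3 : (64 / 25 : ℝ) ≤ Real.exp 1 := by linarith
    calc (Real.exp 1)⁻¹ ≤ (64 / 25 : ℝ)⁻¹ := inv_anti₀ (by norm_num) h3
      _ = 25 / 64 := by norm_num
  have h4 : (25 / 64 : ℝ) ≤ t ^ 2 := by nlinarith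
  calc Real.exp (-(K / 3)) ≤ Real.exp ((T : ℝ) * (-1)) := Real.exp_le_exp.2 (by linarith)
    _ = Real.exp (-1) ^ T := Real.exp_nat_mul _ _
    _ ≤ (t ^ 2) ^ T := pow_le_pow_left₀ (Real.exp_pos _).le (h1.trans h4) T
    _ = t ^ (2 * T) := (pow_mul _ _ _).symm

theorem moment_numbers (κ : ℝ) (hκ : 0 < κ) (hκ1 : κ ≤ 1 / 20) : ∃ n0 : ℕ, ∀ n : ℕ, n0 ≤ n → ∀ (k : ℕ) (θ d : ℝ),
    k ≤ n → 5 / 8 ≤ θ → θ ≤ 3 / 4 → 0 < d → d ≤ 1 / 8 → 24 ≤ d * Real.log n → 46 ≤ d * κ * k →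
    ∃ k' T : ℕ, 1 ≤ k' ∧ k' ≤ k ∧ 48 * k' ≤ n ∧
      (1 + θ ^ (2 * T) * (n : ℝ) ^ k') * (48 / (n : ℝ)) ^ k' + 3 * Real.exp (-(κ * k)) ≤
        (θ + d) ^ (2 * T) * Real.exp (-(d * κ * k / 8)) := by
  refine ⟨1, fun n hn k θ d hk hθ1 hθ2 hd0 hd1 hdL hdK => ?_⟩
  have hn0 : (0 : ℝ) < n := by exact_mod_cast hn
  have hkn : (k : ℝ) ≤ n := by exact_mod_cast hk
  have hk0 : (0 : ℝ) ≤ k := Nat.cast_nonneg k
  obtain ⟨K, hK⟩ : ∃ K : ℝ, K = κ * k := ⟨_, rfl⟩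
  obtain ⟨L, hL⟩ : ∃ L : ℝ, L = Real.log n := ⟨_, rfl⟩
  have e1 : d * κ * k = d * K := by rw [hK]; ring
  rw [e1] at hdK ⊢
  rw [← hK]
  rw [← hL] at hdL
  have hK0 : 0 ≤ K := by rw [hK]; positivity
  have hL0 : 0 < L := by
    by_contra h
    have h1 : d * L ≤ 0 := mul_nonpos_of_nonneg_of_nonpos hd0.le (not_lt.1 h)
    linarith
  have hdK8 : d * K ≤ K / 8 := by nlinarith
  have hK368 : 368 ≤ K := by linarith
  have hdL8 : d * L ≤ L / 8 := by nlinarith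
  have hL192 : 192 ≤ L := by linarith
  have hkK : 20 * K ≤ k := by rw [hK]; nlinarith
  have hnL : (n : ℝ) = Real.exp L := by rw [hL, Real.exp_log hn0]
  -- the two integers
  obtain ⟨T, hTd⟩ : ∃ T : ℕ, T = ⌊K / 3⌋₊ := ⟨_, rfl⟩
  have hT1 : (T : ℝ) ≤ K / 3 := by rw [hTd]; exact Nat.floor_le (by positivity)
  have hT2 : K / 3 < (T : ℝ) + 1 := by rw [hTd]; exact Nat.lt_floor_add_one _
  obtain ⟨k', hkd⟩ : ∃ k' : ℕ, k' = ⌊K / (2 * L)⌋₊ + 1 := ⟨_, rfl⟩
  have hq0 : 0 ≤ K / (2 * L) := by positivity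
  have hk1 : K / (2 * L) < (k' : ℝ) := by
    rw [hkd]; push_cast; exact Nat.lt_floor_add_one _
  have hk2 : (k' : ℝ) ≤ K / (2 * L) + 1 := by
    rw [hkd]; push_cast
    have := Nat.floor_le hq0
    linarith
  have hq1 : K / (2 * L) ≤ K / 384 :=
    div_le_div_of_nonneg_left hK0 (by norm_num) (by linarith)
  have hk3 : K ≤ 2 * (L * k') := by
    have h1 : K < (k' : ℝ) * (2 * L) := (div_lt_iff₀ (by positivity)).1 hk1
    nlinarith
  have hq2 : K / (2 * L) ≤ d * K / 48 := by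
    rw [div_le_div_iff₀ (by positivity) (by norm_num)]
    nlinarith
  refine ⟨k', T, by omega, ?_, ?_, ?_⟩
  · have : (k' : ℝ) ≤ k := by linarith
    exact_mod_cast this
  · have : ((48 * k' : ℕ) : ℝ) ≤ n := by push_cast; linarith
    exact_mod_cast this
  have hk'0 : (0 : ℝ) ≤ k' := Nat.cast_nonneg k'
  have hLHS : (1 + θ ^ (2 * T) * (n : ℝ) ^ k') * (48 / (n : ℝ)) ^ k'
      = (48 / (n : ℝ)) ^ k' + θ ^ (2 * T) * 48 ^ k' := by
    rw [add_mul, one_mul, div_pow]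
    have : (n : ℝ) ^ k' ≠ 0 := by positivity
    field_simp
  rw [hLHS]
  -- lower bound for the right hand side
  have hR : Real.exp (-(67 / 192 * K)) ≤ (θ + d) ^ (2 * T) * Real.exp (-(d * K / 8)) := by
    have h1 := T4_pow_lower (θ + d) K T (by linarith) hT1
    calc Real.exp (-(67 / 192 * K)) ≤ Real.exp (-(K / 3) + -(d * K / 8)) :=
          Real.exp_le_exp.2 (by linarith)
      _ = Real.exp (-(K / 3)) * Real.exp (-(d * K / 8)) := Real.exp_add _ _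
      _ ≤ _ := mul_le_mul_of_nonneg_right h1 (Real.exp_pos _).le
  -- (i)
  have hi : (48 / (n : ℝ)) ^ k' ≤ 1 / 4 * Real.exp (-(67 / 192 * K)) := by
    have h1 : 48 / (n : ℝ) ≤ Real.exp (4 - L) := by
      rw [Real.exp_sub, hnL]
      exact div_le_div_of_nonneg_right T4_exp_four (Real.exp_pos _).le
    have h2 : (48 / (n : ℝ)) ^ k' ≤ Real.exp ((k' : ℝ) * (4 - L)) :=
      (pow_le_pow_left₀ (by positivity) h1 k').trans_eq (Real.exp_nat_mul _ _).symm
    have h3 : (k' : ℝ) * (4 - L) ≤ -(94 / 192 * K) := by nlinarith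
    have h4 : (4 : ℝ) ≤ Real.exp (27 / 192 * K) := by
      have := Real.add_one_le_exp (27 / 192 * K)
      linarith
    have h5 : Real.exp (-(94 / 192 * K)) * Real.exp (27 / 192 * K) = Real.exp (-(67 / 192 * K)) := by
      rw [← Real.exp_add]; congr 1; ring
    have h6 : Real.exp (-(94 / 192 * K)) * 4 ≤ Real.exp (-(67 / 192 * K)) := by
      rw [← h5]; exact mul_le_mul_of_nonneg_left h4 (Real.exp_pos _).le
    have h7 := h2.trans (Real.exp_le_exp.2 h3)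
    linarith
  -- (iii)
  have hiii : 3 * Real.exp (-K) ≤ 1 / 4 * Real.exp (-(67 / 192 * K)) := by
    have h4 : (12 : ℝ) ≤ Real.exp (125 / 192 * K) := by
      have := Real.add_one_le_exp (125 / 192 * K)
      linarith
    have h5 : Real.exp (-K) * Real.exp (125 / 192 * K) = Real.exp (-(67 / 192 * K)) := by
      rw [← Real.exp_add]; congr 1; ring
    have h6 : Real.exp (-K) * 12 ≤ Real.exp (-(67 / 192 * K)) := by
      rw [← h5]; exact mul_le_mul_of_nonneg_left h4 (Real.exp_pos _).le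
    linarith
  -- (ii)
  have hii : θ ^ (2 * T) * 48 ^ k' ≤ 1 / 2 * ((θ + d) ^ (2 * T) * Real.exp (-(d * K / 8))) := by
    have h1 : θ * Real.exp d ≤ θ + d := by
      have h2 := Real.abs_exp_sub_one_sub_id_le (x := d) (by rw [abs_of_pos hd0]; linarith)
      have h3 := (abs_le.1 h2).2
      have h4 : Real.exp d ≤ 1 + d + d ^ 2 := by linarith
      have h5 : θ * Real.exp d ≤ θ * (1 + d + d ^ 2) := mul_le_mul_of_nonneg_left h4 (by linarith)
      nlinarith [mul_pos hd0 hd0]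
    have h2 : (θ * Real.exp d) ^ (2 * T) ≤ (θ + d) ^ (2 * T) :=
      pow_le_pow_left₀ (mul_nonneg (by linarith) (Real.exp_pos _).le) h1 _
    have h3 : (θ * Real.exp d) ^ (2 * T) = θ ^ (2 * T) * Real.exp (2 * T * d) := by
      rw [mul_pow, ← Real.exp_nat_mul]
      push_cast
      rfl
    have h4 : (48 : ℝ) ^ k' ≤ Real.exp ((k' : ℝ) * 4) :=
      (pow_le_pow_left₀ (by norm_num) T4_exp_four k').trans_eq (Real.exp_nat_mul _ _).symm
    have h5 : (2 : ℝ) ≤ Real.exp 1 := by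
      have := Real.add_one_le_exp (1 : ℝ)
      linarith
    have h6 : 1 + (k' : ℝ) * 4 ≤ 2 * T * d + -(d * K / 8) := by
      have h7 : (K / 3 - 1) * d ≤ T * d := mul_le_mul_of_nonneg_right (by linarith) hd0.le
      nlinarith
    have h7 : 2 * Real.exp ((k' : ℝ) * 4) ≤ Real.exp (2 * T * d) * Real.exp (-(d * K / 8)) := by
      calc 2 * Real.exp ((k' : ℝ) * 4) ≤ Real.exp 1 * Real.exp ((k' : ℝ) * 4) :=
            mul_le_mul_of_nonneg_right h5 (Real.exp_pos _).le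
        _ = Real.exp (1 + (k' : ℝ) * 4) := (Real.exp_add _ _).symm
        _ ≤ Real.exp (2 * T * d + -(d * K / 8)) := Real.exp_le_exp.2 h6
        _ = _ := Real.exp_add _ _
    have hθT : 0 ≤ θ ^ (2 * T) := pow_nonneg (by linarith) _
    calc θ ^ (2 * T) * 48 ^ k' ≤ θ ^ (2 * T) * Real.exp ((k' : ℝ) * 4) :=
          mul_le_mul_of_nonneg_left h4 hθT
      _ = 1 / 2 * (θ ^ (2 * T) * (2 * Real.exp ((k' : ℝ) * 4))) := by ring
      _ ≤ 1 / 2 * (θ ^ (2 * T) * (Real.exp (2 * T * d) * Real.exp (-(d * K / 8)))) :=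
          mul_le_mul_of_nonneg_left (mul_le_mul_of_nonneg_left h7 hθT) (by norm_num)
      _ = 1 / 2 * ((θ * Real.exp d) ^ (2 * T) * Real.exp (-(d * K / 8))) := by rw [h3]; ring
      _ ≤ _ := mul_le_mul_of_nonneg_left (mul_le_mul_of_nonneg_right h2 (Real.exp_pos _).le)
          (by norm_num)
  linarith

end Pool.Agent.BC5
end

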