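import Pool.Agent.Lib.MP_bc5a73_al.LeaveOut
import Pool.Agent.Lib.MP_bc5a73_al.MomentsNum
import Pool.Agent.Lib.MP_bc5a73_al.CharHigh

section
set_option autoImplicit false
set_option linter.unusedSectionVars false
set_option linter.unusedVariables false
open scoped BigOperators Matrix
open Matrix
namespace Pool.Agent.BC5


variable {G : Type} [Group G] [Fintype G] [DecidableEq G]


theorem T1_PC_AU {ι : Type} (x : ι → G) (U : Finset ι) (hU : U.Nonempty) :
    H2_PC (AU x U) := by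
  have hc : (U.card : ℝ) ≠ 0 := by
    have := hU.card_pos
    positivity
  have hw : IsWt (fun _ : {u // u ∈ U} => ((U.card : ℝ))⁻¹) := by
    refine ⟨fun _ => by positivity, ?_⟩
    rw [Finset.sum_const, Finset.card_univ, Fintype.card_coe, nsmul_eq_mul]
    exact mul_inv_cancel₀ hc
  have key : AU x U = ∑ i : {u // u ∈ U}, ((U.card : ℝ))⁻¹ • Sm (x i) := by
    unfold AU
    rw [Finset.smul_sum]
    exact (Finset.sum_coe_sort U (fun u => ((U.card : ℝ))⁻¹ • Sm (x u))).symm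
  rw [key]
  exact H2_PC_sum hw fun i => H2_PC_half (H2_PC_Rm _) (H2_PC_Rm _)

theorem exists_prob_AU {ι : Type} [DecidableEq ι] (x : ι → G) (U : Finset ι) (hU : U.Nonempty) (q : ℕ) :
    ∃ α : G → ℝ, IsWt α ∧ (AU x U) ^ q = ∑ g, α g • Rm g := by
  change H2_PC ((AU x U) ^ q)
  have hone : H2_PC (1 : Matrix G G ℝ) := by rw [← Rm_one]; exact H2_PC_Rm 1
  have hA : H2_PC (AU x U) := T1_PC_AU x U hU
  induction q with
  | zero => rw [pow_zero]; exact hone
  | succ q ih => rw [pow_succ]; exact H2_PC_mul ih hA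

end Pool.Agent.BC5
end

section
set_option autoImplicit false
set_option linter.unusedSectionVars false
set_option linter.unusedVariables false
open scoped BigOperators Matrix
open Matrix
namespace Pool.Agent.BC5


variable {n : ℕ}

theorem sum_fix_le {A : Matrix (Alt n) (Alt n) ℝ} (hAt : Aᵀ = A)
    (hAc : ∀ X : Matrix (Alt n) (Alt n) ℝ, CommR X → Commute X A) (θ : ℝ) (hθ : 0 ≤ θ) (k : ℕ) (hk : 1 ≤ k)
    (hkn : k + 2 ≤ n)
    (hg : ∀ E, IsBlock E → E ≠ Jm (Alt n) → LevLe k E → ∀ f, E *ᵥ f = f → |qf A f| ≤ θ * (f ⬝ᵥ f)) (T : ℕ)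
    (α : Alt n → ℝ) (hα : IsWt α) (h : A ^ (2 * T) = ∑ g, α g • Rm g) :
    ∑ g, α g * ((fixc g).descFactorial k : ℝ) ≤ 1 + θ ^ (2 * T) * (n : ℝ) ^ k := by
  classical
  obtain ⟨Y, -, hY⟩ := Finset.exists_subset_card_eq (s := (Finset.univ : Finset (Fin n))) (n := n - k)
    (by rw [Finset.card_univ, Fintype.card_fin]; omega)
  have hYk : Y.card + k = n := by omega
  obtain ⟨P, hP⟩ : ∃ P, P = avL (AY Y) := ⟨_, rfl⟩
  have hPpr : IsPr P := by rw [hP]; exact avL_isPr (AY_isGrp Y)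
  have hPR : CommR P := by rw [hP]; exact avL_commR _
  -- the left side
  have e1 : ∑ g, α g * ((fixc g).descFactorial k : ℝ) = (P * A ^ (2 * T)).trace := by
    rw [h, Matrix.mul_sum, Matrix.trace_sum]
    refine Finset.sum_congr rfl (fun g _ => ?_)
    rw [Matrix.mul_smul, Matrix.trace_smul, smul_eq_mul, hP, trace_avL_mul_Rm Y k hYk hkn g]
  obtain ⟨B, hB, hB1⟩ := exists_blocks (Alt n)
  have e2 : (P * A ^ (2 * T)).trace = ∑ E ∈ B, (E * P * A ^ (2 * T)).trace := by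
    conv_lhs => rw [← Matrix.one_mul P, ← hB1]
    rw [Finset.sum_mul, Finset.sum_mul, Matrix.trace_sum]
  have hJB : Jm (Alt n) ∈ B := (hB _).2 Jm_isBlock
  have hJ : (Jm (Alt n) * P * A ^ (2 * T)).trace = 1 := by
    have h1 : Jm (Alt n) * P = Jm (Alt n) := by
      rw [(commute_of_comm hPR Jm_isBlock.2.1).symm.eq, hP]
      exact avL_mul_Jm (AY_isGrp Y)
    rw [h1, h, Matrix.mul_sum, Matrix.trace_sum]
    have h2 : ∀ g : Alt n, (Jm (Alt n) * α g • Rm g).trace = α g := by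
      intro g
      rw [Matrix.mul_smul, H3_Jm_mul_Rm, Matrix.trace_smul, trace_Jm, smul_eq_mul, mul_one]
    rw [Finset.sum_congr rfl (fun g _ => h2 g)]
    exact hα.2
  have hPE : ∀ E, IsBlock E → Commute E P := fun E hE => (commute_of_comm hPR hE.2.1).symm
  have hQpr : ∀ E, IsBlock E → IsPr (E * P) := fun E hE => hE.1.mul hPpr (hPE E hE)
  have hoth : ∀ E ∈ B.erase (Jm (Alt n)), (E * P * A ^ (2 * T)).trace ≤ θ ^ (2 * T) * (E * P).trace := by
    intro E hE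
    have hne := Finset.ne_of_mem_erase hE
    have hEb := (hB E).1 (Finset.mem_of_mem_erase hE)
    refine (le_abs_self _).trans (abs_trace_pow_le (E * P) A θ hθ (hQpr E hEb) hAt
      ((hAc E hEb.2.2.1).symm.mul_right (hAc P hPR).symm) ?_ (2 * T))
    intro v hv
    have hEv : E *ᵥ v = v := by
      conv_lhs => rw [← hv, Matrix.mulVec_mulVec, ← Matrix.mul_assoc, hEb.1.2]
      exact hv
    by_cases hz : E * P = 0
    · rw [hz, Matrix.zero_mulVec] at hv
      rw [← hv]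
      simp [qf]
    · have hlev : LevLe k E := by
        refine ⟨Y, by omega, ?_⟩
        rw [← hP, ← (hPE E hEb).eq]
        exact hz
      exact hg E hEb hne hlev v hEv
  have hPt : P.trace ≤ (n : ℝ) ^ k := by
    have h1 := trace_avL_mul_Rm Y k hYk hkn 1
    rw [Rm_one, Matrix.mul_one, ← hP] at h1
    rw [h1]
    have h2 : fixc (1 : Alt n) = n := by
      unfold fixc
      simp
    rw [h2]
    exact_mod_cast Nat.descFactorial_le_pow n k
  have hPs : ∑ E ∈ B, (E * P).trace = P.trace := by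
    rw [← Matrix.trace_sum, ← Finset.sum_mul, hB1, Matrix.one_mul]
  have hle : ∑ E ∈ B.erase (Jm (Alt n)), (E * P).trace ≤ P.trace := by
    rw [← hPs]
    exact Finset.sum_le_sum_of_subset_of_nonneg (Finset.erase_subset _ _)
      (fun E hE _ => trace_pr_nonneg (hQpr E ((hB E).1 hE)))
  have hpow : 0 ≤ θ ^ (2 * T) := pow_nonneg hθ _
  rw [e1, e2, ← Finset.add_sum_erase B _ hJB, hJ]
  have hsum : ∑ E ∈ B.erase (Jm (Alt n)), (E * P * A ^ (2 * T)).trace ≤ θ ^ (2 * T) * (n : ℝ) ^ k := by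
    calc ∑ E ∈ B.erase (Jm (Alt n)), (E * P * A ^ (2 * T)).trace
        ≤ ∑ E ∈ B.erase (Jm (Alt n)), θ ^ (2 * T) * (E * P).trace := Finset.sum_le_sum hoth
      _ = θ ^ (2 * T) * ∑ E ∈ B.erase (Jm (Alt n)), (E * P).trace := by rw [Finset.mul_sum]
      _ ≤ θ ^ (2 * T) * (n : ℝ) ^ k := mul_le_mul_of_nonneg_left (hle.trans hPt) hpow
  linarith

theorem sum_many_fix_le (k : ℕ) (hk : 1 ≤ k) (hl : 48 * k ≤ n) (B : ℝ) (α : Alt n → ℝ) (hα : IsWt α)
    (h : ∑ g, α g * ((fixc g).descFactorial k : ℝ) ≤ B) :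
    ∑ g ∈ Finset.univ.filter (fun g : Alt n => n < 24 * fixc g), α g ≤ B * (48 / (n : ℝ)) ^ k := by
  have hn : (0 : ℝ) < (n : ℝ) := by
    have : 0 < n := by omega
    exact_mod_cast this
  have hc : (0 : ℝ) < ((n : ℝ) / 48) ^ k := by positivity
  have h1 : ∀ g ∈ Finset.univ.filter (fun g : Alt n => n < 24 * fixc g),
      α g * ((n : ℝ) / 48) ^ k ≤ α g * ((fixc g).descFactorial k : ℝ) := by
    intro g hg
    have hg' : n < 24 * fixc g := (Finset.mem_filter.mp hg).2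
    apply mul_le_mul_of_nonneg_left _ (hα.1 g)
    have h2 : (fixc g + 1 - k) ^ k ≤ (fixc g).descFactorial k := Nat.pow_sub_le_descFactorial _ _
    have h3 : n ≤ 48 * (fixc g + 1 - k) := by omega
    have h4 : (n : ℝ) ≤ 48 * ((fixc g + 1 - k : ℕ) : ℝ) := by exact_mod_cast h3
    calc ((n : ℝ) / 48) ^ k ≤ ((fixc g + 1 - k : ℕ) : ℝ) ^ k := by
          apply pow_le_pow_left₀ (by positivity)
          linarith
      _ ≤ ((fixc g).descFactorial k : ℝ) := by exact_mod_cast h2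
  have h5 : (∑ g ∈ Finset.univ.filter (fun g : Alt n => n < 24 * fixc g), α g) * ((n : ℝ) / 48) ^ k ≤ B := by
    rw [Finset.sum_mul]
    refine le_trans (Finset.sum_le_sum h1) (le_trans ?_ h)
    apply Finset.sum_le_sum_of_subset_of_nonneg (Finset.filter_subset _ _)
    intro g _ _
    exact mul_nonneg (hα.1 g) (Nat.cast_nonneg _)
  have h6 : (48 / (n : ℝ)) ^ k = (((n : ℝ) / 48) ^ k)⁻¹ := by
    rw [← inv_pow, inv_div]
  rw [h6, ← div_eq_mul_inv, le_div_iff₀ hc]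
  exact h5

end Pool.Agent.BC5
end

section
set_option autoImplicit false
set_option linter.unusedSectionVars false
set_option linter.unusedVariables false
open scoped BigOperators Matrix
open Matrix
namespace Pool.Agent.BC5


variable {n : ℕ}

theorem moment_explicit {N s : ℕ} (hs : 1 ≤ s) (x : Fin N × Fin s → Alt n) (R : Finset (Fin N)) (hR : R.Nonempty)
    {E : Matrix (Alt n) (Alt n) ℝ} (hE : IsBlock E) (θ t b : ℝ) (k k' T : ℕ) (hθ : 0 ≤ θ) (ht : 0 ≤ t) (hb0 : 0 ≤ b)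
    (hk' : 1 ≤ k') (hk'k : k' ≤ k) (hn : 48 * k' ≤ n)
    (hg : ∀ E', IsBlock E' → E' ≠ Jm (Alt n) → LevLe k E' → ∀ f, E' *ᵥ f = f → |qf (AR x R) f| ≤ θ * (f ⬝ᵥ f))
    (hchar : ∀ g : Alt n, 24 * fixc g ≤ n → |(E * Rm g).trace| ≤ b * E.trace) :
    t ^ (2 * T) * (E * spr (AR x R) t).trace ≤
      ((1 + θ ^ (2 * T) * (n : ℝ) ^ k') * (48 / (n : ℝ)) ^ k' + b) * E.trace := by
  have hU : (cyl R : Finset (Fin N × Fin s)).Nonempty := by
    obtain ⟨a, ha⟩ := hR
    exact ⟨(a, ⟨0, by omega⟩), Finset.mem_product.mpr ⟨ha, Finset.mem_univ _⟩⟩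
  have hAt : (AR x R)ᵀ = AR x R := AU_transpose x (cyl R)
  obtain ⟨α, hα, hA⟩ := exists_prob_AU x (cyl R) hU (2 * T)
  have hA' : (AR x R) ^ (2 * T) = ∑ g, α g • Rm g := hA
  have h1 := spr_trace (AR x R) hAt t ht E hE.1 T
  have h2 := sum_fix_le hAt (fun X hX => commute_AU x (cyl R) hX) θ hθ k' hk' (by omega)
    (fun E' hE' hJ hL f hf => hg E' hE' hJ (hL.mono hk'k) f hf) T α hα hA'
  have h3 := sum_many_fix_le k' hk' hn _ α hα h2
  refine h1.trans ?_
  rw [hA']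
  exact H5_sum hE _ b α hα h3 hchar hb0

end Pool.Agent.BC5
end

section
set_option autoImplicit false
set_option linter.unusedSectionVars false
set_option linter.unusedVariables false
open scoped BigOperators Matrix
open Matrix
namespace Pool.Agent.BC5


theorem start_of_norm : ∃ κ : ℝ, 0 < κ ∧ κ ≤ 1 / 20 ∧ ∃ n0 : ℕ, ∀ n : ℕ, n0 ≤ n → ∀ (N s k : ℕ) (θ d v : ℝ),
    1 ≤ s → k ≤ n → 5 / 8 ≤ θ → θ ≤ 3 / 4 → 0 < d → d ≤ 1 / 8 → 24 ≤ d * Real.log n → 46 ≤ d * κ * k → 1 ≤ v →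
    ∀ x : Fin N × Fin s → Alt n,
      (∀ E', IsBlock E' → E' ≠ Jm (Alt n) → LevLe k E' → NormP x E' θ v) →
      ∀ E, IsBlock E → ¬ LevLe k E → StartP x E (θ + d) v ((1 / 2 : ℝ) ^ ⌊d * κ * k / 8⌋₊) := by
  obtain ⟨κ, hκ, hκ1, n1, hc⟩ := char_bound
  obtain ⟨n2, hm⟩ := moment_numbers κ hκ hκ1
  refine ⟨κ, hκ, hκ1, max n1 n2, ?_⟩
  intro n hn N s k θ d v hs hkn hθ1 hθ2 hd0 hd1 hdl hdk hv x hx E hE hEk R hR
  obtain ⟨k', T, hk1, hk2, hk3, hnum⟩ := hm n (le_trans (le_max_right _ _) hn) k θ d hkn hθ1 hθ2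
    hd0 hd1 hdl hdk
  have hRne : R.Nonempty := by
    rw [← Finset.card_pos]
    have : (1 : ℝ) ≤ R.card := hv.trans hR
    exact_mod_cast (by linarith : (0 : ℝ) < R.card)
  have hθ0 : 0 ≤ θ := by linarith
  have ht0 : 0 < θ + d := by linarith
  have htr : 0 ≤ E.trace := by
    have := block_trace_pos hE
    linarith
  have h1 := moment_explicit hs x R hRne hE θ (θ + d) (3 * Real.exp (-(κ * k))) k k' T hθ0 ht0.le
    (by positivity) hk1 hk2 hk3
    (fun E' hE' hJ hL f hf => hx E' hE' hJ hL R hR f hf)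
    (fun g hg => hc n (le_trans (le_max_left _ _) hn) k E hE hEk g hg)
  have hpow : 0 < (θ + d) ^ (2 * T) := by positivity
  have h2 := h1.trans (mul_le_mul_of_nonneg_right hnum htr)
  rw [mul_assoc] at h2
  have h3 := le_of_mul_le_mul_left h2 hpow
  refine h3.trans (mul_le_mul_of_nonneg_right ?_ htr)
  set z : ℝ := d * κ * k / 8 with hz
  have hz0 : 0 ≤ z := by positivity
  have hfl : ((⌊z⌋₊ : ℕ) : ℝ) ≤ z := Nat.floor_le hz0
  have hlog : Real.exp (-1) ≤ 1 / 2 := by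
    have h4 : (2 : ℝ) ≤ Real.exp 1 := by
      have := Real.add_one_le_exp (1 : ℝ)
      linarith
    rw [Real.exp_neg]
    rw [one_div]
    exact inv_anti₀ (by norm_num) h4
  calc Real.exp (-z) ≤ Real.exp (-((⌊z⌋₊ : ℕ) : ℝ)) := Real.exp_le_exp.2 (by linarith)
    _ = (Real.exp (-1)) ^ ⌊z⌋₊ := by
        rw [← Real.exp_nat_mul]
        congr 1
        ring
    _ ≤ (1 / 2 : ℝ) ^ ⌊z⌋₊ := pow_le_pow_left₀ (Real.exp_pos _).le hlog _

end Pool.Agent.BC5
end

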