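import Pool.Agent.Lib.MP_bc5a73_al.WordWalks
import Pool.Agent.Lib.MP_bc5a73_al.Moments

section
set_option autoImplicit false
set_option linter.unusedSectionVars false
set_option linter.unusedVariables false
open scoped BigOperators Matrix
open Matrix
namespace Pool.Agent.BC5


variable {G : Type} [Group G] [Fintype G] [DecidableEq G]

theorem VD1_trace {E : Matrix G G ℝ} (hL : CommL E) (g : G) :
    (E * Rm g).trace = (Fintype.card G : ℝ) * E 1 g⁻¹ := by
  unfold Matrix.trace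
  have h : ∀ x : G, (E * Rm g).diag x = E 1 g⁻¹ := by
    intro x
    rw [Matrix.diag_apply]
    have h1 : (E * Rm g) x x = E x (x * g⁻¹) := by
      have := G6_mul_Rm E g x (x * g⁻¹)
      rwa [inv_mul_cancel_right] at this
    have h2 : E x (x * g⁻¹) = E 1 g⁻¹ := by
      have := G6_L hL x 1 g⁻¹
      rwa [mul_one] at this
    rw [h1, h2]
  rw [Finset.sum_congr rfl fun x _ => h x, Finset.sum_const, Finset.card_univ, nsmul_eq_mul]

theorem avg_trace_sq {E : Matrix G G ℝ} (hE : IsBlock E) :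
    avg (fun g : G => (E * Rm g).trace ^ 2) = E.trace := by
  obtain ⟨hP, hL, hR, -, -⟩ := hE
  have hc : (Fintype.card G : ℝ) ≠ 0 := by exact_mod_cast Fintype.card_ne_zero
  have hT : E.trace = (Fintype.card G : ℝ) * E 1 1 := by
    have := VD1_trace hL (1 : G)
    have h1 : Rm (1 : G) = 1 := by
      ext x y
      simp only [Rm, Matrix.of_apply, mul_one, Matrix.one_apply]
      exact if_congr eq_comm rfl rfl
    rwa [h1, mul_one, inv_one] at this
  have hS : ∑ g : G, (E 1 g) ^ 2 = E 1 1 := by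
    have h1 : (E * E) 1 1 = E 1 1 := by rw [hP.2]
    rw [← h1, Matrix.mul_apply]
    refine Finset.sum_congr rfl fun g _ => ?_
    have h2 : E g 1 = E 1 g := by
      have := congrFun (congrFun hP.1 1) g
      rwa [Matrix.transpose_apply] at this
    rw [h2, sq]
  have hS' : ∑ g : G, (E 1 g⁻¹) ^ 2 = E 1 1 := by
    rw [← hS]
    exact Equiv.sum_comp (Equiv.inv G) (fun g => (E 1 g) ^ 2)
  have hs : ∑ g : G, (E * Rm g).trace ^ 2 = (Fintype.card G : ℝ) ^ 2 * E 1 1 := by
    rw [← hS', Finset.mul_sum]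
    refine Finset.sum_congr rfl fun g _ => ?_
    rw [VD1_trace hL g, mul_pow]
  unfold avg
  rw [hs, hT, smul_eq_mul]
  field_simp

theorem frac_fixc_ge {n b : ℕ} (hb : b + 2 ≤ n) : frac (fun g : Alt n => b ≤ fixc g) ≤ 1 / (b.factorial : ℝ) := by
  obtain ⟨Y, -, hY⟩ := Finset.exists_subset_card_eq (s := (Finset.univ : Finset (Fin n))) (n := n - b)
    (by rw [Finset.card_univ, Fintype.card_fin]; omega)
  have hYb : Y.card + b = n := by omega
  have hav : avg (fun g : Alt n => ((fixc g).descFactorial b : ℝ)) = 1 := by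
    have h1 : (fun g : Alt n => ((fixc g).descFactorial b : ℝ)) =
        fun g : Alt n => Matrix.traceLinearMap (Alt n) ℝ ℝ (avL (AY Y) * Rm g) := by
      funext g
      exact (trace_avL_mul_Rm Y b hYb hb g).symm
    rw [h1, ← map_avg, ← G4_mul_avg, ← Jm_eq_avg_Rm, avL_mul_Jm (AY_isGrp Y)]
    exact trace_Jm
  have hf : (0 : ℝ) < (b.factorial : ℝ) := by exact_mod_cast b.factorial_pos
  have := frac_le_avg_div (P := fun g : Alt n => b ≤ fixc g)
    (f := fun g : Alt n => ((fixc g).descFactorial b : ℝ)) hf (fun g => Nat.cast_nonneg _) ?_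
  · rwa [hav] at this
  · intro g hg
    rw [← Nat.descFactorial_self]
    exact_mod_cast Nat.descFactorial_le b hg

end Pool.Agent.BC5
end

section
set_option autoImplicit false
set_option linter.unusedSectionVars false
set_option linter.unusedVariables false
open scoped BigOperators Matrix
open Matrix
namespace Pool.Agent.BC5


theorem VD2_factorial (b : ℕ) (hb : 100 ≤ b) : 27 ^ (b + 1) ≤ b.factorial := by
  induction b, hb using Nat.le_induction with
  | base => norm_num [Nat.factorial]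
  | succ b hb ih =>
    rw [Nat.factorial_succ, pow_succ, mul_comm]
    exact Nat.mul_le_mul (by omega) ih

theorem VD2_exp_le (n : ℕ) (hn : 2424 ≤ n) :
    Real.exp ((n : ℝ) / 10) ≤ ((n / 24).factorial : ℝ) := by
  set b := n / 24 with hbdef
  have hb : 100 ≤ b := by omega
  have h1 : n ≤ 24 * (b + 1) := by omega
  have h2 : (n : ℝ) ≤ 24 * ((b : ℝ) + 1) := by exact_mod_cast h1
  have h3 : (n : ℝ) / 10 ≤ ((b + 1 : ℕ) : ℝ) * 3 := by
    push_cast
    nlinarith
  have h4 : Real.exp 3 ≤ 27 := by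
    have h5 : Real.exp 3 = Real.exp 1 ^ 3 := by
      rw [← Real.exp_nat_mul]
      norm_num
    rw [h5]
    have h6 : Real.exp 1 ≤ 3 := by linarith [Real.exp_one_lt_d9]
    calc Real.exp 1 ^ 3 ≤ 3 ^ 3 := pow_le_pow_left₀ (Real.exp_pos _).le h6 3
      _ = 27 := by norm_num
  calc Real.exp ((n : ℝ) / 10) ≤ Real.exp (((b + 1 : ℕ) : ℝ) * 3) := Real.exp_le_exp.2 h3
    _ = Real.exp 3 ^ (b + 1) := Real.exp_nat_mul 3 (b + 1)
    _ ≤ (27 : ℝ) ^ (b + 1) := pow_le_pow_left₀ (Real.exp_pos _).le h4 _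
    _ ≤ (b.factorial : ℝ) := by exact_mod_cast VD2_factorial b hb

theorem VD2_abs_trace_le {n : ℕ} {E : Matrix (Alt n) (Alt n) ℝ} (hE : IsBlock E) (g : Alt n) :
    |(E * Rm g).trace| ≤ E.trace := by
  rw [trace_mul_Rm hE.1.1 hE.2.1 hE.2.2.1]
  have h := abs_trace_le E (Lm g) 1 hE.1 (fun v _ => ?_)
  · rwa [one_mul] at h
  · rw [one_mul]
    exact E6_abs_qf_Lm_le g v

theorem trace_lower : ∃ κ : ℝ, 0 < κ ∧ ∃ n0 : ℕ, ∀ n : ℕ, n0 ≤ n → ∀ K : ℕ, K ≤ n →
    ∀ E : Matrix (Alt n) (Alt n) ℝ, IsBlock E → ¬ LevLe K E → Real.exp (κ * K) ≤ 10 * E.trace := by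
  classical
  obtain ⟨κ0, hκ0, hκ1, n1, hc⟩ := char_bound
  refine ⟨2 * κ0, by positivity, max n1 2424, ?_⟩
  intro n hn K hK E hE hlev
  have hn1 : n1 ≤ n := le_trans (le_max_left _ _) hn
  have hn2 : 2424 ≤ n := le_trans (le_max_right _ _) hn
  set D := E.trace with hD
  have hD1 : 1 ≤ D := block_trace_pos hE
  set b := n / 24 with hb
  set e : ℝ := Real.exp (-(κ0 * K)) with he
  have he0 : 0 < e := Real.exp_pos _
  have hpt : ∀ g : Alt n, (E * Rm g).trace ^ 2 ≤ D ^ 2 * (9 * e ^ 2 + (if b ≤ fixc g then (1 : ℝ) else 0)) := by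
    intro g
    by_cases hg : 24 * fixc g ≤ n
    · have h1 := hc n hn1 K E hE hlev g hg
      have h2 : (E * Rm g).trace ^ 2 ≤ (3 * e * D) ^ 2 := by
        rw [← sq_abs]
        exact pow_le_pow_left₀ (abs_nonneg _) h1 2
      have h3 : (0 : ℝ) ≤ (if b ≤ fixc g then (1 : ℝ) else 0) := by split_ifs <;> norm_num
      have h4 : 0 ≤ D ^ 2 * (if b ≤ fixc g then (1 : ℝ) else 0) := mul_nonneg (sq_nonneg _) h3
      calc (E * Rm g).trace ^ 2 ≤ (3 * e * D) ^ 2 := h2
        _ = D ^ 2 * (9 * e ^ 2) := by ring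
        _ ≤ D ^ 2 * (9 * e ^ 2 + (if b ≤ fixc g then (1 : ℝ) else 0)) := by
            rw [mul_add]
            linarith
    · have h1 : b ≤ fixc g := by omega
      rw [if_pos h1]
      have h2 : (E * Rm g).trace ^ 2 ≤ D ^ 2 := by
        rw [← sq_abs]
        exact pow_le_pow_left₀ (abs_nonneg _) (VD2_abs_trace_le hE g) 2
      have h3 : 0 ≤ D ^ 2 * (9 * e ^ 2) := by positivity
      rw [mul_add]
      linarith
  have h1 := avg_mono hpt
  rw [avg_trace_sq hE, avg_mul_left, avg_add, avg_const] at h1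
  have h2 : avg (fun g : Alt n => if b ≤ fixc g then (1 : ℝ) else 0) ≤ 1 / (b.factorial : ℝ) := by
    have h := frac_fixc_ge (n := n) (b := b) (by omega)
    unfold frac at h
    convert h
  have h3 : 1 / (b.factorial : ℝ) ≤ Real.exp (-((n : ℝ) / 10)) := by
    rw [Real.exp_neg, one_div]
    exact inv_anti₀ (Real.exp_pos _) (VD2_exp_le n hn2)
  have hKn : (K : ℝ) ≤ n := by exact_mod_cast hK
  have h4 : Real.exp (-((n : ℝ) / 10)) ≤ e ^ 2 := by
    rw [he, ← Real.exp_nat_mul]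
    apply Real.exp_le_exp.2
    push_cast
    have hK0 : (0 : ℝ) ≤ K := Nat.cast_nonneg _
    nlinarith
  have h5 : D ≤ D ^ 2 * (10 * e ^ 2) := by
    refine h1.trans (mul_le_mul_of_nonneg_left ?_ (sq_nonneg _))
    linarith
  have h6 : 1 ≤ D * (10 * e ^ 2) := by
    have h7 : D * 1 ≤ D * (D * (10 * e ^ 2)) := by
      calc D * 1 = D := mul_one _
        _ ≤ D ^ 2 * (10 * e ^ 2) := h5
        _ = D * (D * (10 * e ^ 2)) := by ring
    exact le_of_mul_le_mul_left h7 (by linarith)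
  have h7 : Real.exp (2 * κ0 * K) * e ^ 2 = 1 := by
    rw [he, ← Real.exp_nat_mul, ← Real.exp_add]
    have : 2 * κ0 * (K : ℝ) + ((2 : ℕ) : ℝ) * -(κ0 * K) = 0 := by push_cast; ring
    rw [this, Real.exp_zero]
  have h8 := mul_le_mul_of_nonneg_left h6 (Real.exp_pos (2 * κ0 * K)).le
  calc Real.exp (2 * κ0 * K) = Real.exp (2 * κ0 * K) * 1 := (mul_one _).symm
    _ ≤ Real.exp (2 * κ0 * K) * (D * (10 * e ^ 2)) := h8
    _ = 10 * D * (Real.exp (2 * κ0 * K) * e ^ 2) := by ring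
    _ = 10 * D := by rw [h7, mul_one]

theorem subF_isGrp {G : Type} [Group G] [Fintype G] [DecidableEq G] (H : Subgroup G) : IsGrp (subF H) := by
  refine ⟨?_, ?_, ?_⟩
  · rw [mem_subF]; exact H.one_mem
  · intro a ha b hb
    rw [mem_subF] at *
    exact H.mul_mem ha hb
  · intro a ha
    rw [mem_subF] at *
    exact H.inv_mem ha

theorem card_div_subF {G : Type} [Group G] [Fintype G] [DecidableEq G] (H : Subgroup G) :
    (Fintype.card G : ℝ) / ((subF H).card : ℝ) = H.index := by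
  have h1 : Nat.card H = (subF H).card := Nat.subtype_card (subF H) (mem_subF H)
  have h2 := H.card_mul_index
  rw [h1, Nat.card_eq_fintype_card] at h2
  have h3 : ((subF H).card : ℝ) ≠ 0 := by
    have h4 : (subF H).Nonempty := ⟨1, by rw [mem_subF]; exact H.one_mem⟩
    exact_mod_cast h4.card_pos.ne'
  rw [div_eq_iff h3, ← h2]
  push_cast
  ring

theorem level_of_subgroup (c c1 : ℝ) (hc : c < c1) (hc0 : 0 < c1) (hc1 : c1 ≤ 1) :
    ∃ n0 : ℕ, ∀ n : ℕ, n0 ≤ n → ∀ H : Subgroup (Alt n), (H.index : ℝ) ≤ Real.exp ((n : ℝ) ^ c) →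
      ∀ E : Matrix (Alt n) (Alt n) ℝ, IsBlock E → avL (subF H) * E ≠ 0 → LevLe ⌊(n : ℝ) ^ c1⌋₊ E := by
  obtain ⟨κ, hκ, n1, htl⟩ := trace_lower
  have t1 : Filter.Tendsto (fun n : ℕ => (n : ℝ) ^ c1) Filter.atTop Filter.atTop :=
    (tendsto_rpow_atTop hc0).comp tendsto_natCast_atTop_atTop
  have t2 : Filter.Tendsto (fun n : ℕ => (n : ℝ) ^ (-(c1 - c))) Filter.atTop (nhds 0) :=
    (tendsto_rpow_neg_atTop (by linarith : 0 < c1 - c)).comp tendsto_natCast_atTop_atTop
  have e1 := t1.eventually_ge_atTop ((2 / κ) * (κ + Real.log 10 + 1))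
  have e2 : ∀ᶠ n : ℕ in Filter.atTop, (n : ℝ) ^ (-(c1 - c)) < κ / 4 :=
    t2.eventually_lt_const (by positivity)
  obtain ⟨n2, hn2⟩ := Filter.eventually_atTop.1 (e1.and e2)
  refine ⟨max (max n1 n2) 1, ?_⟩
  intro n hn H hH E hE hne
  have hnn1 : n1 ≤ n := le_trans (le_max_left _ _) (le_trans (le_max_left _ _) hn)
  have hnn2 : n2 ≤ n := le_trans (le_max_right _ _) (le_trans (le_max_left _ _) hn)
  have hnn3 : 1 ≤ n := le_trans (le_max_right _ _) hn
  obtain ⟨h1, h2⟩ := hn2 n hnn2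
  by_contra hlev
  have hnR : (1 : ℝ) ≤ n := by exact_mod_cast hnn3
  have hnpos : (0 : ℝ) < n := by linarith
  have hKn : ⌊(n : ℝ) ^ c1⌋₊ ≤ n := by
    apply Nat.floor_le_of_le
    calc (n : ℝ) ^ c1 ≤ (n : ℝ) ^ (1 : ℝ) := Real.rpow_le_rpow_of_exponent_le hnR hc1
      _ = n := Real.rpow_one _
  have h3 := htl n hnn1 _ hKn E hE hlev
  have h4 := block_trace_le hE (subF_isGrp H) hne
  rw [card_div_subF] at h4
  have hidx : ((H.index : ℝ)) ^ 2 ≤ Real.exp ((n : ℝ) ^ c) ^ 2 :=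
    pow_le_pow_left₀ (Nat.cast_nonneg _) hH 2
  have h5 : Real.exp (κ * (⌊(n : ℝ) ^ c1⌋₊ : ℕ)) ≤ Real.exp (Real.log 10 + 2 * (n : ℝ) ^ c) := by
    rw [Real.exp_add, Real.exp_log (by norm_num : (0 : ℝ) < 10)]
    have h6 : Real.exp (2 * (n : ℝ) ^ c) = Real.exp ((n : ℝ) ^ c) ^ 2 := by
      rw [← Real.exp_nat_mul]
      norm_num
    rw [h6]
    linarith
  have h7 := Real.exp_le_exp.1 h5
  have h8 : (n : ℝ) ^ c1 - 1 < (⌊(n : ℝ) ^ c1⌋₊ : ℝ) := by
    have := Nat.lt_floor_add_one ((n : ℝ) ^ c1)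
    linarith
  have h9 : (n : ℝ) ^ c = (n : ℝ) ^ c1 * (n : ℝ) ^ (-(c1 - c)) := by
    rw [← Real.rpow_add hnpos]
    congr 1
    ring
  have hp : 0 < (n : ℝ) ^ c1 := Real.rpow_pos_of_pos hnpos _
  have h10 : (n : ℝ) ^ c ≤ (n : ℝ) ^ c1 * (κ / 4) := by
    rw [h9]
    exact mul_le_mul_of_nonneg_left h2.le hp.le
  have h11 : κ + Real.log 10 + 1 ≤ κ / 2 * (n : ℝ) ^ c1 := by
    have h12 := mul_le_mul_of_nonneg_left h1 (by positivity : 0 ≤ κ / 2)
    have h13 : κ / 2 * (2 / κ * (κ + Real.log 10 + 1)) = κ + Real.log 10 + 1 := by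
      field_simp
    rw [h13] at h12
    exact h12
  have h14 := mul_lt_mul_of_pos_left h8 hκ
  nlinarith

end Pool.Agent.BC5
end

section
set_option autoImplicit false
set_option linter.unusedSectionVars false
set_option linter.unusedVariables false
open scoped BigOperators Matrix
open Matrix
namespace Pool.Agent.BC5


variable {G : Type} [Group G] [Fintype G] [DecidableEq G]

theorem inv_expand_isGrp (H : Subgroup G) : IsGrp (subF H) :=
  ⟨(mem_subF H 1).2 H.one_mem,
    fun a ha b hb => (mem_subF H _).2 (H.mul_mem ((mem_subF H a).1 ha) ((mem_subF H b).1 hb)),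
    fun a ha => (mem_subF H _).2 (H.inv_mem ((mem_subF H a).1 ha))⟩

theorem inv_expand {N s : ℕ} (hN : 1 ≤ N) (hs : 1 ≤ s) (x : Fin N × Fin s → G) (H : Subgroup G)
    (hx : ∀ E : Matrix G G ℝ, IsBlock E → E ≠ Jm G → avL (subF H) * E ≠ 0 → ∀ f : G → ℝ, E *ᵥ f = f →
      qf (AR x Finset.univ) f ≤ 3 / 4 * (f ⬝ᵥ f))
    (B : Finset G) (hB : ∀ h ∈ H, ∀ g ∈ B, h * g ∈ B) (hcard : 2 * B.card ≤ Fintype.card G) :
    1 / 8 * (B.card : ℝ) ≤ avg (fun i : Fin N × Fin s => ((B.image (fun g => g * x i) \ B).card : ℝ)) := by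
  classical
  have : NeZero N := ⟨by omega⟩
  have : NeZero s := ⟨by omega⟩
  obtain ⟨A, hA⟩ : ∃ A : Set G, ∀ y, y ∈ A ↔ y ∈ B := ⟨(↑B : Set G), fun y => Finset.mem_coe⟩
  obtain ⟨𝓑, h𝓑, hsum⟩ := exists_blocks G
  obtain ⟨a, ha⟩ : ∃ a : ℝ, a = ∑ y : G, (if y ∈ A then (1 : ℝ) else 0) := ⟨_, rfl⟩
  obtain ⟨M, hM⟩ : ∃ M : ℝ, M = Fintype.card G := ⟨_, rfl⟩
  have hM0 : 0 < M := by
    rw [hM]; exact_mod_cast Fintype.card_pos
  have hcardB : (B.card : ℝ) = a := by
    rw [ha, Finset.sum_boole]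
    congr 2
    ext y
    rw [Finset.mem_filter, hA]
    simp
  have h2a : 2 * a ≤ M := by
    rw [← hcardB, hM]; exact_mod_cast hcard
  have ha0 : 0 ≤ a := by
    rw [← hcardB]; positivity
  obtain ⟨hff, hJ⟩ := H8_norm A a M ha hM
  obtain ⟨f, hf⟩ : ∃ f : G → ℝ, f = fun y : G => (if y ∈ A then (1 : ℝ) else 0) - a / M := ⟨_, rfl⟩
  rw [← hf] at hff hJ
  -- lower bound of the norm
  have hlow : a / 2 ≤ f ⬝ᵥ f := by
    rw [hff]
    have : a * a / M ≤ a / 2 := by
      rw [div_le_div_iff₀ hM0 (by norm_num)]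
      nlinarith
    linarith
  -- invariance
  have hBinv : ∀ h ∈ H, ∀ y : G, (h⁻¹ * y ∈ B ↔ y ∈ B) := by
    intro h hh y
    constructor
    · intro h1
      have := hB h hh _ h1
      rwa [mul_inv_cancel_left] at this
    · intro h1
      exact hB _ (H.inv_mem hh) _ h1
  have hav : avL (subF H) *ᵥ f = f := by
    rw [avL_mulVec_eq_iff (inv_expand_isGrp H)]
    intro h hh
    rw [mem_subF] at hh
    funext y
    rw [Lm_mulVec, hf]
    simp only [hA, hBinv h hh y]
  -- the gap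
  have hMc : ∀ E ∈ 𝓑, Commute E (AR x Finset.univ) := fun E hE =>
    commute_AU x _ ((h𝓑 E).mp hE).2.2.1
  have hPr : ∀ E ∈ 𝓑, IsPr E := fun E hE => ((h𝓑 E).mp hE).1
  have hs1 := H8_split 𝓑 hPr hsum (AR x Finset.univ) hMc f
  have hs2 := H8_split 𝓑 hPr hsum 1 (fun E _ => Commute.one_right E) f
  have hterm : ∀ E ∈ 𝓑, qf (AR x Finset.univ) (E *ᵥ f) ≤ 3 / 4 * qf 1 (E *ᵥ f) := by
    intro E hE
    have hblk := (h𝓑 E).mp hE
    by_cases hEJ : E = Jm G
    · rw [hEJ, hJ]
      simp [qf]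
    · by_cases hEH : avL (subF H) * E = 0
      · have h1 : E *ᵥ f = 0 := by
          rw [← hav, Matrix.mulVec_mulVec, (G8_commL_avL hblk.2.1 (subF H)).eq, hEH,
            Matrix.zero_mulVec]
        rw [h1]
        simp [qf]
      · rw [qf_one]
        refine hx E hblk hEJ hEH _ ?_
        rw [Matrix.mulVec_mulVec, hblk.1.2]
  have hgapf : qf (AR x Finset.univ) f ≤ 3 / 4 * (f ⬝ᵥ f) := by
    rw [hs1, ← qf_one, hs2, Finset.mul_sum]
    exact Finset.sum_le_sum hterm
  -- the boundary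
  have hup : ∀ i : Fin N × Fin s, ((B.image (fun g => g * x i) \ B).card : ℝ) = f ⬝ᵥ f - qf (Sm (x i)) f := by
    intro i
    rw [qf_Sm, hf, H8_half]
    norm_cast
    congr 1
    ext y
    simp only [Finset.mem_sdiff, Finset.mem_image, Finset.mem_filter, Finset.mem_univ, true_and, hA]
    constructor
    · rintro ⟨⟨g, hg, rfl⟩, h2⟩
      exact ⟨h2, by rwa [mul_inv_cancel_right]⟩
    · rintro ⟨h2, h1⟩
      exact ⟨⟨_, h1, by group⟩, h2⟩
  have hcyl : cyl (s := s) (Finset.univ : Finset (Fin N)) = Finset.univ := by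
    unfold cyl
    exact Finset.univ_product_univ
  have hAR : qf (AR x Finset.univ) f = avg (fun i : Fin N × Fin s => qf (Sm (x i)) f) := by
    unfold AR AU avg
    rw [hcyl, qf_smul, qf_sum, Finset.card_univ, smul_eq_mul]
  have hfin : avg (fun i : Fin N × Fin s => ((B.image (fun g => g * x i) \ B).card : ℝ))
      = f ⬝ᵥ f - qf (AR x Finset.univ) f := by
    rw [hAR]
    simp_rw [hup]
    rw [avg_sub, avg_const]
  rw [hfin, hcardB]
  linarith

end Pool.Agent.BC5
end

section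
set_option autoImplicit false
set_option linter.unusedSectionVars false
set_option linter.unusedVariables false
open scoped BigOperators Matrix
open Matrix
namespace Pool.Agent.BC5


variable {G : Type} [Group G] [Fintype G] [DecidableEq G]

theorem coarea_dc (S C : Finset G) :
    ∑ g : G, (S.filter (fun h => h * g ∈ C)).card = S.card * C.card := by
  simp only [Finset.card_filter]
  rw [Finset.sum_comm, Finset.sum_congr rfl (g := fun _ => C.card)]
  · rw [Finset.sum_const, smul_eq_mul]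
  · intro h _
    rw [← Finset.card_filter]
    refine Finset.card_nbij' (fun g => h * g) (fun c => h⁻¹ * c) ?_ ?_ ?_ ?_
    · intro g hg
      simpa using hg
    · intro c hc
      simpa using hc
    · intro g _
      simp
    · intro c _
      simp

theorem coarea_lvl (k a b : ℕ) (ha : a ≤ k) :
    ((Finset.Icc 1 k).filter (fun t => t ≤ a ∧ b < t)).card = a - b := by
  have h : (Finset.Icc 1 k).filter (fun t => t ≤ a ∧ b < t) = Finset.Ioc b a := by
    ext t
    simp only [Finset.mem_filter, Finset.mem_Icc, Finset.mem_Ioc]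
    constructor
    · rintro ⟨_, h1, h2⟩
      exact ⟨h2, h1⟩
    · rintro ⟨h1, h2⟩
      exact ⟨⟨by omega, by omega⟩, h2, h1⟩
  rw [h, Nat.card_Ioc]

theorem coarea_mem (B : Finset G) (y g : G) : g ∈ B.image (fun g => g * y) ↔ g * y⁻¹ ∈ B := by
  rw [Finset.mem_image]
  constructor
  · rintro ⟨a, ha, rfl⟩
    simpa using ha
  · intro h
    exact ⟨g * y⁻¹, h, by simp⟩

theorem coarea (H : Subgroup G) {ι : Type} [Fintype ι] (x : ι → G)
    (hinv : ∀ B : Finset G, (∀ h ∈ H, ∀ g ∈ B, h * g ∈ B) → 2 * B.card ≤ Fintype.card G →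
      1 / 8 * (B.card : ℝ) ≤ avg (fun i => ((B.image (fun g => g * x i) \ B).card : ℝ)))
    (A : Finset G) (hA : 2 * Nat.card {g : G // ∃ h ∈ H, h * g ∈ A} ≤ Fintype.card G) :
    1 / 8 * (A.card : ℝ) ≤ avg (fun i => ((A.image (fun g => g * x i) \ A).card : ℝ)) := by
  obtain ⟨S, hS⟩ : ∃ S : Finset G, S = subF H := ⟨_, rfl⟩
  have hmS : ∀ g, g ∈ S ↔ g ∈ H := fun g => by rw [hS, mem_subF]
  obtain ⟨F, hF⟩ : ∃ F : G → ℕ, F = fun g => (S.filter (fun h => h * g ∈ A)).card := ⟨_, rfl⟩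
  have hF' : ∀ g, F g = (S.filter (fun h => h * g ∈ A)).card := fun g => by rw [hF]
  have hk : 0 < S.card := Finset.card_pos.mpr ⟨1, (hmS 1).2 H.one_mem⟩
  have hFk : ∀ g, F g ≤ S.card := fun g => by rw [hF']; exact Finset.card_filter_le _ _
  have hFinv : ∀ h ∈ H, ∀ g, F (h * g) = F g := by
    intro h hh g
    rw [hF', hF']
    refine Finset.card_nbij' (fun u => u * h) (fun u => u * h⁻¹) ?_ ?_ ?_ ?_
    · intro u hu
      simp only [Finset.coe_filter, Set.mem_ofPred_eq] at hu ⊢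
      exact ⟨(hmS _).2 (H.mul_mem ((hmS _).1 hu.1) hh), by rw [mul_assoc]; exact hu.2⟩
    · intro u hu
      simp only [Finset.coe_filter, Set.mem_ofPred_eq] at hu ⊢
      exact ⟨(hmS _).2 (H.mul_mem ((hmS _).1 hu.1) (H.inv_mem hh)), by
        rw [← mul_assoc, inv_mul_cancel_right]; exact hu.2⟩
    · intro u _
      simp
    · intro u _
      simp
  obtain ⟨B, hB⟩ : ∃ B : ℕ → Finset G, B = fun t => Finset.univ.filter (fun g => t ≤ F g) :=
    ⟨_, rfl⟩
  have hmB : ∀ t g, g ∈ B t ↔ t ≤ F g := fun t g => by rw [hB]; simp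
  have hcB : ∀ t, (B t).card = ∑ g : G, if t ≤ F g then 1 else 0 := fun t => by
    rw [hB, Finset.card_filter]
  -- sizes
  have h1 : ∑ t ∈ Finset.Icc 1 S.card, (B t).card = S.card * A.card := by
    rw [← coarea_dc S A, Finset.sum_congr rfl (fun t _ => hcB t), Finset.sum_comm]
    refine Finset.sum_congr rfl fun g _ => ?_
    rw [← Finset.card_filter, ← hF' g]
    have := coarea_lvl S.card (F g) 0 (hFk g)
    rw [Nat.sub_zero] at this
    refine Eq.trans ?_ this
    congr 1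
    ext t
    simp only [Finset.mem_filter, Finset.mem_Icc]
    constructor
    · rintro ⟨h1, h2⟩
      exact ⟨h1, h2, by omega⟩
    · rintro ⟨h1, h2, _⟩
      exact ⟨h1, h2⟩
  have h2 : ∀ y : G, ∑ t ∈ Finset.Icc 1 S.card, ((B t).image (fun g => g * y) \ B t).card ≤
      S.card * (A.image (fun g => g * y) \ A).card := by
    intro y
    have e : ∀ t, ((B t).image (fun g => g * y) \ B t).card =
        ∑ g : G, if t ≤ F (g * y⁻¹) ∧ F g < t then 1 else 0 := by
      intro t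
      rw [← Finset.card_filter]
      congr 1
      ext g
      rw [Finset.mem_sdiff, coarea_mem, hmB, hmB, Finset.mem_filter]
      simp
    rw [← coarea_dc S (A.image (fun g => g * y) \ A), Finset.sum_congr rfl (fun t _ => e t),
      Finset.sum_comm]
    refine Finset.sum_le_sum fun g _ => ?_
    rw [← Finset.card_filter, coarea_lvl S.card _ _ (hFk _), hF', hF', tsub_le_iff_right]
    refine (Finset.card_le_card ?_).trans (Finset.card_union_le
      (S.filter (fun h => h * g ∈ A.image (fun g => g * y) \ A)) (S.filter (fun h => h * g ∈ A)))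
    intro h hh
    rw [Finset.mem_filter] at hh
    rw [Finset.mem_union, Finset.mem_filter, Finset.mem_filter, Finset.mem_sdiff, coarea_mem]
    by_cases hc : h * g ∈ A
    · exact Or.inr ⟨hh.1, hc⟩
    · exact Or.inl ⟨hh.1, by rw [mul_assoc]; exact hh.2, hc⟩
  -- invariance and smallness
  have h3 : ∀ t ∈ Finset.Icc 1 S.card, 1 / 8 * ((B t).card : ℝ) ≤
      avg (fun i => (((B t).image (fun g => g * x i) \ B t).card : ℝ)) := by
    intro t ht
    rw [Finset.mem_Icc] at ht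
    refine hinv (B t) ?_ ?_
    · intro h hh g hg
      rw [hmB] at hg ⊢
      rw [hFinv h hh g]
      exact hg
    · refine le_trans ?_ hA
      refine Nat.mul_le_mul_left 2 ?_
      classical
      rw [Nat.card_eq_fintype_card, Fintype.card_subtype]
      refine Finset.card_le_card ?_
      intro g hg
      rw [hmB, hF'] at hg
      have hpos : 0 < (S.filter (fun h => h * g ∈ A)).card := by omega
      obtain ⟨h, hh⟩ := Finset.card_pos.mp hpos
      rw [Finset.mem_filter] at hh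
      rw [Finset.mem_filter]
      exact ⟨Finset.mem_univ _, h, (hmS h).1 hh.1, hh.2⟩
  have h4 : 1 / 8 * (∑ t ∈ Finset.Icc 1 S.card, ((B t).card : ℝ)) ≤
      avg (fun i => (∑ t ∈ Finset.Icc 1 S.card,
        (((B t).image (fun g => g * x i) \ B t).card : ℝ))) := by
    rw [avg_sum, Finset.mul_sum]
    exact Finset.sum_le_sum h3
  have h5 : avg (fun i => (∑ t ∈ Finset.Icc 1 S.card,
        (((B t).image (fun g => g * x i) \ B t).card : ℝ))) ≤
      avg (fun i => (S.card : ℝ) * ((A.image (fun g => g * x i) \ A).card : ℝ)) := by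
    refine avg_mono fun i => ?_
    have := h2 (x i)
    exact_mod_cast this
  rw [avg_mul_left] at h5
  have h6 : (∑ t ∈ Finset.Icc 1 S.card, ((B t).card : ℝ)) = (S.card : ℝ) * (A.card : ℝ) := by
    exact_mod_cast h1
  rw [h6] at h4
  have hk' : (0 : ℝ) < (S.card : ℝ) := by exact_mod_cast hk
  have h7 : (S.card : ℝ) * (1 / 8 * (A.card : ℝ)) ≤
      (S.card : ℝ) * avg (fun i => ((A.image (fun g => g * x i) \ A).card : ℝ)) := by
    calc (S.card : ℝ) * (1 / 8 * (A.card : ℝ)) = 1 / 8 * ((S.card : ℝ) * (A.card : ℝ)) := by ring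
      _ ≤ _ := h4.trans h5
  exact le_of_mul_le_mul_left h7 hk'

end Pool.Agent.BC5
end

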