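import Mathlib

/-!
# Expansion of the sets whose saturation under a subgroup of small index is at most half of the group
-/

set_option autoImplicit false

namespace Pool.Agent.BC5

/-- Tuples `x` for which every set `A`, whose saturation `H A` under some subgroup `H` of index at most `X` covers at most half
of the group, satisfies `|A S \ A| ≥ ε |A|`, `S = {x_i, x_i⁻¹}`. -/
def SatExpd (G : Type) [Group G] (m : ℕ) (X ε : ℝ) : Set (Fin m → G) :=
  {x | ∀ H : Subgroup G, (H.index : ℝ) ≤ X → ∀ A : Set G, 2 * Nat.card {g : G // ∃ h ∈ H, h * g ∈ A} ≤ Nat.card G →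
    ε * (Nat.card A : ℝ) ≤ (Nat.card {g : G // g ∉ A ∧ ∃ a ∈ A, ∃ i : Fin m, g = a * x i ∨ g = a * (x i)⁻¹} : ℝ)}

end Pool.Agent.BC5
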