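import Pool.Agent.Lib.MP_bc5a73_al.WordNorm
import Pool.Agent.Lib.MP_bc5a73_al.SmallIndex
import Pool.Agent.Lib.MP_bc5a73_al.StatementSat

section
set_option autoImplicit false
set_option linter.unusedSectionVars false
set_option linter.unusedVariables false
open scoped BigOperators Matrix
open Matrix
namespace Pool.Agent.BC5


theorem final_m {n N m K : ℕ} (hN : 1 ≤ N) (hm : 2560 * N ≤ m) (X δ' : ℝ)
    (hlev : ∀ H : Subgroup (Alt n), (H.index : ℝ) ≤ X → ∀ E : Matrix (Alt n) (Alt n) ℝ, IsBlock E →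
      avL (subF H) * E ≠ 0 → LevLe K E)
    (h : frac (fun x : Fin N × Fin 2560 → Alt n => ¬ ∀ E : Matrix (Alt n) (Alt n) ℝ, IsBlock E → E ≠ Jm (Alt n) →
      LevLe K E → NormP x E (3 / 4) N) ≤ δ') :
    (1 - δ') * (Nat.card (Alt n) : ℝ) ^ m ≤ (Nat.card (SatExpd (Alt n) m X (1 / 8)) : ℝ) := by
  classical
  obtain ⟨e, he⟩ : ∃ e : Fin N × Fin 2560 → Fin m, Function.Injective e := by
    have hc : Fintype.card (Fin N × Fin 2560) ≤ Fintype.card (Fin m) := by
      rw [Fintype.card_prod, Fintype.card_fin, Fintype.card_fin, Fintype.card_fin]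
      omega
    obtain ⟨f⟩ := Function.Embedding.nonempty_of_card_le hc
    exact ⟨f, f.injective⟩
  have hne : Nonempty (Fin m → Alt n) := ⟨fun _ => 1⟩
  obtain ⟨P, hP⟩ : ∃ P : (Fin N × Fin 2560 → Alt n) → Prop, P = fun x =>
      ∀ E : Matrix (Alt n) (Alt n) ℝ, IsBlock E → E ≠ Jm (Alt n) → LevLe K E → NormP x E (3 / 4) N := ⟨_, rfl⟩
  have h0 : frac (fun x : Fin N × Fin 2560 → Alt n => ¬ P x) ≤ δ' := by rw [hP]; exact h
  have h1 : frac (fun x : Fin m → Alt n => ¬ P (fun i => x (e i))) ≤ δ' :=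
    (frac_comp_injective e he (fun x => ¬ P x)).trans_le h0
  rw [frac_not] at h1
  have h2 : 1 - δ' ≤ frac (fun x : Fin m → Alt n => P (fun i => x (e i))) := by linarith
  have h3 : frac (fun x : Fin m → Alt n => P (fun i => x (e i))) ≤ frac (fun x : Fin m → Alt n =>
      x ∈ SatExpd (Alt n) m X (1 / 8)) := by
    refine frac_mono fun x hx => ?_
    rw [hP] at hx
    intro H hH A hA
    have hne2 : Nonempty (Fin N × Fin 2560) := ⟨(⟨0, by omega⟩, ⟨0, by norm_num⟩)⟩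
    have hinv : ∀ B : Finset (Alt n), (∀ h ∈ H, ∀ g ∈ B, h * g ∈ B) → 2 * B.card ≤ Fintype.card (Alt n) →
        1 / 8 * (B.card : ℝ) ≤
          avg (fun i : Fin N × Fin 2560 => ((B.image (fun g => g * x (e i)) \ B).card : ℝ)) := by
      intro B hB hcard
      refine inv_expand hN (by norm_num) (fun i => x (e i)) H ?_ B hB hcard
      intro E hE hEJ hav f hf
      have h5 := hx E hE hEJ (hlev H hH E hE hav) (Finset.univ : Finset (Fin N)) (by
        rw [Finset.card_univ, Fintype.card_fin]) f hf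
      exact (le_abs_self _).trans h5
    have hmem : ∀ g : Alt n, g ∈ A.toFinset ↔ g ∈ A := fun g => Set.mem_toFinset
    have hco := coarea H (fun i : Fin N × Fin 2560 => x (e i)) hinv A.toFinset (by
      rw [Nat.card_eq_fintype_card (α := Alt n)] at hA
      have hAA : Nat.card {g : Alt n // ∃ h ∈ H, h * g ∈ A.toFinset} = Nat.card {g : Alt n // ∃ h ∈ H, h * g ∈ A} := by
        refine Nat.card_congr (Equiv.subtypeEquivRight fun g => ?_)
        simp only [hmem]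
      rw [hAA]
      exact hA)
    have hcA : (Nat.card A : ℝ) = (A.toFinset.card : ℝ) := by
      rw [Nat.card_eq_fintype_card, Set.toFinset_card]
    rw [hcA]
    refine hco.trans (avg_le_of_le fun i => ?_)
    have hT : (Nat.card {g : Alt n // g ∉ A ∧ ∃ a ∈ A, ∃ i : Fin m, g = a * x i ∨ g = a * (x i)⁻¹}) =
        (Finset.univ.filter (fun g : Alt n => g ∉ A ∧ ∃ a ∈ A, ∃ i : Fin m, g = a * x i ∨ g = a * (x i)⁻¹)).card := by
      rw [Nat.card_eq_fintype_card, Fintype.card_subtype]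
    rw [hT]
    refine Nat.cast_le.2 (Finset.card_le_card fun g hg => ?_)
    rw [Finset.mem_sdiff, Finset.mem_image] at hg
    obtain ⟨⟨a, ha, rfl⟩, hg2⟩ := hg
    rw [Finset.mem_filter]
    exact ⟨Finset.mem_univ _, fun h => hg2 ((hmem _).2 h), a, (hmem a).1 ha, e i, Or.inl rfl⟩
  have h4 := frac_eq_card (fun x : Fin m → Alt n => x ∈ SatExpd (Alt n) m X (1 / 8))
  have h5 : (Nat.card (Fin m → Alt n) : ℝ) = (Nat.card (Alt n) : ℝ) ^ m := by
    rw [Nat.card_fun, Nat.card_eq_fintype_card (α := Fin m), Fintype.card_fin]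
    push_cast; rfl
  rw [h5] at h4
  have h6 : (Nat.card (SatExpd (Alt n) m X (1 / 8)) : ℝ) =
      (Nat.card {x : Fin m → Alt n // x ∈ SatExpd (Alt n) m X (1 / 8)} : ℝ) := rfl
  rw [h6, ← h4]
  exact mul_le_mul_of_nonneg_right (le_trans h2 h3) (by positivity)

theorem alt_bounded (c : ℝ) (hc : c < 1 / 3) : ∃ m0 n0 : ℕ, ∃ η : ℝ, 0 < η ∧ ∀ n m : ℕ, n0 ≤ n → m0 ≤ m →
    (1 - (n : ℝ) ^ (-η)) * (Nat.card (Alt n) : ℝ) ^ m ≤
      (Nat.card (SatExpd (Alt n) m (Real.exp ((n : ℝ) ^ c)) (1 / 8)) : ℝ) := by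
  have hM : max c (1 / 4) < 1 / 3 := max_lt hc (by norm_num)
  have hM1 : c ≤ max c (1 / 4) := le_max_left _ _
  have hM2 : (1 / 4 : ℝ) ≤ max c (1 / 4) := le_max_right _ _
  obtain ⟨c1, hc1⟩ : ∃ c1 : ℝ, c1 = (max c (1 / 4) + 1 / 3) / 2 := ⟨_, rfl⟩
  have h1 : c < c1 := by rw [hc1]; linarith
  have h2 : 0 < c1 := by rw [hc1]; linarith
  have h3 : c1 < 1 / 3 := by rw [hc1]; linarith
  obtain ⟨δ, hδ⟩ : ∃ δ : ℝ, δ = min (1 / 100) ((1 - 3 * c1) / 2) := ⟨_, rfl⟩
  have hδ0 : 0 < δ := by rw [hδ]; exact lt_min (by norm_num) (by linarith)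
  have hδ1 : δ ≤ 1 / 100 := by rw [hδ]; exact min_le_left _ _
  have hδ2 : δ ≤ (1 - 3 * c1) / 2 := by rw [hδ]; exact min_le_right _ _
  obtain ⟨N, hN, n1, hn1⟩ := norm_low c1 δ h2 hδ0 hδ1 (by linarith)
  obtain ⟨n2, hn2⟩ := level_of_subgroup c c1 h1 h2 (by linarith)
  refine ⟨2560 * N, max n1 n2, δ / 30, by positivity, fun n m hn hm => ?_⟩
  exact final_m hN hm _ _ (fun H hH E hE hav => hn2 n (le_of_max_le_right hn) H hH E hE hav)
    (hn1 n (le_of_max_le_left hn))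

end Pool.Agent.BC5
end

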