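import Pool.Agent.Lib.MP_bc5a73_al.CharLow

section
set_option autoImplicit false
set_option linter.unusedSectionVars false
set_option linter.unusedVariables false
open scoped BigOperators Matrix
open Matrix
namespace Pool.Agent.BC5

variable {n : ℕ}

theorem VC_base {n l F : ℕ} (hl : 1 ≤ l) (hlF : l ≤ F) (hF : 36 * F ≤ n) :
    0 < (36 * (F : ℝ) / n) ∧ (36 * (F : ℝ) / n) ≤ 1 := by
  have hF0 : (1 : ℝ) ≤ F := by exact_mod_cast hl.trans hlF
  have hn : 36 * (F : ℝ) ≤ n := by exact_mod_cast hF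
  have hn0 : (0 : ℝ) < n := by linarith
  refine ⟨by positivity, ?_⟩
  rw [div_le_one hn0]
  exact hn

theorem VC_pow {β : ℝ} (h0 : 0 < β) (h1 : β ≤ 1) (b k c : ℕ) (h : k ≤ c * b) (hc12 : c ≤ 12) :
    β ^ b ≤ β ^ ((k : ℝ) / 12) := by
  rw [← Real.rpow_natCast]
  apply Real.rpow_le_rpow_of_exponent_ge h0 h1
  rw [div_le_iff₀ (by norm_num)]
  have h1 : k ≤ b * 12 := by
    calc k ≤ c * b := h
      _ ≤ 12 * b := Nat.mul_le_mul_right b hc12
      _ = b * 12 := mul_comm _ _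
  exact_mod_cast h1

theorem VC_pairs (n k F : ℕ) (hk : 1 ≤ k) (hkF : k ≤ F) (hF : 36 * F ≤ n) :
    (n.choose ((k + 11) / 12) : ℝ) * ((k : ℝ) / (n : ℝ)) ^ (2 * ((k + 11) / 12)) ≤
      (36 * (F : ℝ) / n) ^ ((k : ℝ) / 12) := by
  obtain ⟨hβ0, hβ1⟩ := VC_base hk hkF hF
  set b := (k + 11) / 12 with hb
  have hb1 : 1 ≤ b := by omega
  have hkb : k ≤ 12 * b := by omega
  have hb0 : (0 : ℝ) < b := by exact_mod_cast hb1
  have hn0 : (0 : ℝ) < n := by
    have : 0 < n := by omega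
    exact_mod_cast this
  have hk0 : (0 : ℝ) ≤ k := Nat.cast_nonneg k
  calc (n.choose b : ℝ) * ((k : ℝ) / (n : ℝ)) ^ (2 * b)
      ≤ (3 * n / b) ^ b * ((k : ℝ) / (n : ℝ)) ^ (2 * b) :=
        mul_le_mul_of_nonneg_right (C5_choose n b hb1) (by positivity)
    _ = (3 * n / b * ((k : ℝ) / (n : ℝ)) ^ 2) ^ b := by rw [pow_mul, ← mul_pow]
    _ ≤ (36 * (F : ℝ) / n) ^ b := by
        apply pow_le_pow_left₀ (by positivity)
        have e1 : 3 * (n : ℝ) / b * ((k : ℝ) / (n : ℝ)) ^ 2 = 3 * k * k / b / n := by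
          field_simp
        rw [e1]
        apply div_le_div_of_nonneg_right _ hn0.le
        rw [div_le_iff₀ hb0]
        have e2 : (k : ℝ) ≤ 12 * b := by exact_mod_cast hkb
        have e3 : (k : ℝ) ≤ F := by exact_mod_cast hkF
        nlinarith
    _ ≤ _ := VC_pow hβ0 hβ1 b k 12 hkb le_rfl

theorem VC_fix (n k F f : ℕ) (hk : 1 ≤ k) (hkF : k ≤ F) (hF : 36 * F ≤ n) (hf : f ≤ F) :
    (f.choose ((k + 3) / 4) : ℝ) * ((k : ℝ) / (n : ℝ)) ^ ((k + 3) / 4) ≤
      (36 * (F : ℝ) / n) ^ ((k : ℝ) / 12) := by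
  obtain ⟨hβ0, hβ1⟩ := VC_base hk hkF hF
  set b := (k + 3) / 4 with hb
  have hb1 : 1 ≤ b := by omega
  have hkb : k ≤ 4 * b := by omega
  have hb0 : (0 : ℝ) < b := by exact_mod_cast hb1
  have hn0 : (0 : ℝ) < n := by
    have : 0 < n := by omega
    exact_mod_cast this
  have hk0 : (0 : ℝ) ≤ k := Nat.cast_nonneg k
  have hF0 : (0 : ℝ) ≤ F := Nat.cast_nonneg F
  have hf' : (f : ℝ) ≤ F := by exact_mod_cast hf
  have hf0 : (0 : ℝ) ≤ f := Nat.cast_nonneg f
  calc (f.choose b : ℝ) * ((k : ℝ) / (n : ℝ)) ^ b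
      ≤ (3 * f / b) ^ b * ((k : ℝ) / (n : ℝ)) ^ b :=
        mul_le_mul_of_nonneg_right (C5_choose f b hb1) (by positivity)
    _ = (3 * f / b * ((k : ℝ) / (n : ℝ))) ^ b := by rw [← mul_pow]
    _ ≤ (36 * (F : ℝ) / n) ^ b := by
        apply pow_le_pow_left₀ (by positivity)
        have e1 : 3 * (f : ℝ) / b * ((k : ℝ) / (n : ℝ)) = 3 * f * k / b / n := by
          field_simp
        rw [e1]
        apply div_le_div_of_nonneg_right _ hn0.le
        rw [div_le_iff₀ hb0]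
        have e2 : (k : ℝ) ≤ 4 * b := by exact_mod_cast hkb
        have e4 : 3 * (f : ℝ) * k ≤ 3 * F * (4 * b) := by gcongr
        have e5 : 0 ≤ (F : ℝ) * b := by positivity
        linarith
    _ ≤ _ := VC_pow hβ0 hβ1 b k 4 hkb (by norm_num)

theorem VC_inv (n k i F : ℕ) (hk : 1 ≤ k) (hkF : k ≤ F) (hF : 36 * F ≤ n) (hi : k ≤ 2 * i) (hik : i ≤ k) :
    (((n - k).choose i : ℝ))⁻¹ ≤ (36 * (F : ℝ) / n) ^ ((k : ℝ) / 12) := by
  obtain ⟨hβ0, hβ1⟩ := VC_base hk hkF hF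
  have hi1 : 1 ≤ i := by omega
  have hn0 : (0 : ℝ) < n := by
    have : 0 < n := by omega
    exact_mod_cast this
  have hi0 : (0 : ℝ) < i := by exact_mod_cast hi1
  have hc : (((n : ℝ) / 4) / i) ^ i ≤ ((n - k).choose i : ℝ) := by
    refine le_trans ?_ (Nat.pow_le_choose (α := ℝ) i (n - k))
    rw [div_pow]
    have h1 : (n : ℝ) / 4 ≤ ((n - k + 1 - i : ℕ) : ℝ) := by
      have h1 : n ≤ 4 * (n - k + 1 - i) := by omega
      have h2 : (n : ℝ) ≤ 4 * ((n - k + 1 - i : ℕ) : ℝ) := by exact_mod_cast h1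
      linarith
    have h2 : ((i.factorial : ℕ) : ℝ) ≤ (i : ℝ) ^ i := by exact_mod_cast Nat.factorial_le_pow i
    have h3 : (0 : ℝ) < ((i.factorial : ℕ) : ℝ) := by exact_mod_cast Nat.factorial_pos i
    have h4 : ((n : ℝ) / 4) ^ i ≤ ((n - k + 1 - i : ℕ) : ℝ) ^ i := pow_le_pow_left₀ (by positivity) h1 i
    exact div_le_div₀ (by positivity) h4 h3 h2
  have hb : (36 * (F : ℝ) / n)⁻¹ ≤ ((n : ℝ) / 4) / i := by
    rw [inv_div, div_le_div_iff₀ (by
      have : (1 : ℝ) ≤ F := by exact_mod_cast hk.trans hkF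
      linarith) hi0]
    have e1 : (i : ℝ) ≤ F := by exact_mod_cast hik.trans hkF
    have e3 : (0 : ℝ) ≤ F := Nat.cast_nonneg _
    nlinarith
  calc (((n - k).choose i : ℝ))⁻¹ ≤ ((((n : ℝ) / 4) / i) ^ i)⁻¹ := by
        apply inv_anti₀ _ hc
        have : 0 < ((n : ℝ) / 4) / i := lt_of_lt_of_le (inv_pos.2 hβ0) hb
        positivity
    _ = ((((n : ℝ) / 4) / i)⁻¹) ^ i := by rw [inv_pow]
    _ ≤ (36 * (F : ℝ) / n) ^ i := by
        apply pow_le_pow_left₀ (by positivity)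
        exact inv_le_of_inv_le₀ hβ0 hb
    _ ≤ _ := VC_pow hβ0 hβ1 i k 2 hi (by norm_num)

/-- Many fixed points in the random set. -/
theorem VC_frac_fix (g : Alt n) (Y : Finset (Fin n)) (k F0 : ℕ) (hk : 1 ≤ k) (hY : Y.card + k = n) (hkF : k ≤ F0)
    (hF0 : 36 * F0 ≤ n) (hfix : fixc g ≤ F0) :
    frac (fun h : Alt n => k ≤ 4 * (Finset.univ.filter (fun x : Fin n =>
      (g : Equiv.Perm (Fin n)) x = x ∧ (h : Equiv.Perm (Fin n)) x ∉ Y)).card) ≤ (36 * (F0 : ℝ) / n) ^ ((k : ℝ) / 12) := by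
  classical
  obtain ⟨b, hb⟩ : ∃ b, b = (k + 3) / 4 := ⟨_, rfl⟩
  obtain ⟨S, hS⟩ : ∃ S, S = Finset.univ \ Y := ⟨_, rfl⟩
  obtain ⟨F, hF⟩ : ∃ F, F = Finset.univ.filter (fun x : Fin n => (g : Equiv.Perm (Fin n)) x = x) :=
    ⟨_, rfl⟩
  have hFc : F.card = fixc g := by rw [hF]; rfl
  have hSc : S.card = k := by
    rw [hS, Finset.card_univ_sdiff, Fintype.card_fin]
    omega
  refine (frac_mono (Q := fun h : Alt n => ∃ U ∈ F.powersetCard b,
    ∀ x ∈ U, (h : Equiv.Perm (Fin n)) x ∈ S) ?_).trans ?_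
  · intro h hh
    obtain ⟨U, hU, hUc⟩ := Finset.exists_subset_card_eq (s := Finset.univ.filter (fun x : Fin n =>
      (g : Equiv.Perm (Fin n)) x = x ∧ (h : Equiv.Perm (Fin n)) x ∉ Y)) (n := b) (by omega)
    refine ⟨U, Finset.mem_powersetCard.2 ⟨fun x hx => ?_, hUc⟩, fun x hx => ?_⟩
    · have := Finset.mem_filter.1 (hU hx)
      rw [hF]
      exact Finset.mem_filter.2 ⟨this.1, this.2.1⟩
    · have := Finset.mem_filter.1 (hU hx)
      rw [hS]
      exact Finset.mem_sdiff.2 ⟨Finset.mem_univ _, this.2.2⟩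
  · refine (frac_exists_le (F.powersetCard b) (fun U (h : Alt n) =>
      ∀ x ∈ U, (h : Equiv.Perm (Fin n)) x ∈ S)).trans ?_
    have h1 : ∀ U ∈ F.powersetCard b, frac (fun h : Alt n => ∀ x ∈ U,
        (h : Equiv.Perm (Fin n)) x ∈ S) ≤ ((k : ℝ) / (n : ℝ)) ^ b := by
      intro U hU
      have hUc := (Finset.mem_powersetCard.1 hU).2
      have h2 := frac_map_into_le U S (by omega) (by omega)
      rwa [hUc, hSc] at h2
    refine (Finset.sum_le_sum h1).trans ?_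
    rw [Finset.sum_const, Finset.card_powersetCard, nsmul_eq_mul, hFc, hb]
    exact VC_fix n k F0 (fixc g) hk hkF hF0 hfix

/-- The union bound. -/
theorem VC_frac_bad (g : Alt n) (Y : Finset (Fin n)) (k F0 : ℕ) (hk : 1 ≤ k) (hY : Y.card + k = n) (hkF : k ≤ F0)
    (hF0 : 36 * F0 ≤ n) (hfix : fixc g ≤ F0) :
    frac (fun h : Alt n => 2 * (img (h * g * h⁻¹) Y \ Y).card < k) ≤ 2 * (36 * (F0 : ℝ) / n) ^ ((k : ℝ) / 12) := by
  classical
  set b := (k + 11) / 12 with hb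
  have hbk : b ≤ k := by omega
  have hSc : (Finset.univ \ Y : Finset (Fin n)).card = k := by
    have h1 : (Finset.univ \ Y : Finset (Fin n)).card = (Finset.univ : Finset (Fin n)).card - Y.card :=
      Finset.card_sdiff_of_subset (Finset.subset_univ Y)
    rw [h1, Finset.card_univ, Fintype.card_fin]
    omega
  have himg : ∀ B : Finset (Fin n), (img g B).card = B.card := by
    intro B
    exact Finset.card_image_of_injective _ (Equiv.injective _)
  set s := (Finset.powersetCard b (Finset.univ : Finset (Fin n))).filter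
    (fun B => Disjoint B (img g B)) with hs
  have h1 : frac (fun h : Alt n => 2 * (img (h * g * h⁻¹) Y \ Y).card < k) ≤
      frac (fun h : Alt n => k ≤ 4 * (Finset.univ.filter (fun x : Fin n =>
        (g : Equiv.Perm (Fin n)) x = x ∧ (h : Equiv.Perm (Fin n)) x ∉ Y)).card ∨
        ∃ B ∈ s, ∀ x ∈ B ∪ img g B, (h : Equiv.Perm (Fin n)) x ∈ Finset.univ \ Y) := by
    apply frac_mono
    intro h hbad
    by_cases hc : k ≤ 4 * (Finset.univ.filter (fun x : Fin n =>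
        (g : Equiv.Perm (Fin n)) x = x ∧ (h : Equiv.Perm (Fin n)) x ∉ Y)).card
    · exact Or.inl hc
    · right
      obtain ⟨B, h2, h3, h4⟩ := exists_pairs g h Y k hk hY (not_le.1 hc) hbad
      refine ⟨B, ?_, h4⟩
      rw [hs, Finset.mem_filter, Finset.mem_powersetCard]
      exact ⟨⟨Finset.subset_univ _, h2⟩, h3⟩
  have h2 := frac_or_le (fun h : Alt n => k ≤ 4 * (Finset.univ.filter (fun x : Fin n =>
        (g : Equiv.Perm (Fin n)) x = x ∧ (h : Equiv.Perm (Fin n)) x ∉ Y)).card)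
        (fun h : Alt n => ∃ B ∈ s, ∀ x ∈ B ∪ img g B, (h : Equiv.Perm (Fin n)) x ∈ Finset.univ \ Y)
  have h3 := VC_frac_fix g Y k F0 hk hY hkF hF0 hfix
  have h4 := frac_exists_le s (fun B (h : Alt n) =>
    ∀ x ∈ B ∪ img g B, (h : Equiv.Perm (Fin n)) x ∈ Finset.univ \ Y)
  have h5 : ∑ B ∈ s, frac (fun h : Alt n =>
      ∀ x ∈ B ∪ img g B, (h : Equiv.Perm (Fin n)) x ∈ Finset.univ \ Y) ≤
      (n.choose b : ℝ) * ((k : ℝ) / (n : ℝ)) ^ (2 * b) := by
    have h6 : ∀ B ∈ s, frac (fun h : Alt n =>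
        ∀ x ∈ B ∪ img g B, (h : Equiv.Perm (Fin n)) x ∈ Finset.univ \ Y) ≤
        ((k : ℝ) / (n : ℝ)) ^ (2 * b) := by
      intro B hB
      rw [hs, Finset.mem_filter, Finset.mem_powersetCard] at hB
      obtain ⟨⟨-, hBc⟩, hdis⟩ := hB
      have hU : (B ∪ img g B).card = 2 * b := by
        rw [Finset.card_union_of_disjoint hdis, himg, hBc]
        omega
      have h7 := frac_map_into_le (B ∪ img g B) (Finset.univ \ Y) (by rw [hU]; omega)
        (by rw [hSc]; exact hk)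
      rw [hU, hSc] at h7
      exact h7
    refine (Finset.sum_le_sum h6).trans ?_
    rw [Finset.sum_const, nsmul_eq_mul]
    refine mul_le_mul_of_nonneg_right ?_ (by positivity)
    have h8 : s.card ≤ n.choose b := by
      have := Finset.card_filter_le (Finset.powersetCard b (Finset.univ : Finset (Fin n)))
        (fun B => Disjoint B (img g B))
      rw [Finset.card_powersetCard, Finset.card_univ, Fintype.card_fin] at this
      exact this
    exact_mod_cast h8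
  have h6 := VC_pairs n k F0 hk hkF hF0
  rw [← hb] at h6
  linarith [h1, h2, h3, h4.trans (h5.trans h6)]

theorem VC_avg (g : Alt n) (Y : Finset (Fin n)) (k F0 : ℕ) (hk : 1 ≤ k) (hY : Y.card + k = n) (hkF : k ≤ F0)
    (hF0 : 36 * F0 ≤ n) (hfix : fixc g ≤ F0) :
    avg (fun h : Alt n => (((n - k).choose (img (h * g * h⁻¹) Y \ Y).card : ℝ))⁻¹)
      ≤ 3 * (36 * (F0 : ℝ) / n) ^ ((k : ℝ) / 12) := by
  classical
  have h0 : (0 : ℝ) ≤ (36 * (F0 : ℝ) / n) ^ ((k : ℝ) / 12) := by positivity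
  have hi : ∀ h : Alt n, (img (h * g * h⁻¹) Y \ Y).card ≤ k := by
    intro h
    have h1 : (img (h * g * h⁻¹) Y \ Y).card ≤ (Finset.univ \ Y).card :=
      Finset.card_le_card (Finset.sdiff_subset_sdiff (Finset.subset_univ _) (Finset.Subset.refl _))
    rw [Finset.card_sdiff_of_subset (Finset.subset_univ _), Finset.card_univ, Fintype.card_fin] at h1
    omega
  have hb := VC_frac_bad g Y k F0 hk hY hkF hF0 hfix
  calc avg (fun h : Alt n => (((n - k).choose (img (h * g * h⁻¹) Y \ Y).card : ℝ))⁻¹)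
      ≤ avg (fun h : Alt n => (36 * (F0 : ℝ) / n) ^ ((k : ℝ) / 12) +
          (if 2 * (img (h * g * h⁻¹) Y \ Y).card < k then (1 : ℝ) else 0)) := by
        apply avg_mono
        intro h
        split_ifs with h2
        · have := Nat.cast_inv_le_one (α := ℝ) ((n - k).choose (img (h * g * h⁻¹) Y \ Y).card)
          linarith
        · have := VC_inv n k _ F0 hk hkF hF0 (not_lt.1 h2) (hi h)
          linarith
    _ = (36 * (F0 : ℝ) / n) ^ ((k : ℝ) / 12) + frac (fun h : Alt n => 2 * (img (h * g * h⁻¹) Y \ Y).card < k) := by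
        rw [avg_add, avg_const]
        unfold frac
        congr 2
        funext h
        congr
    _ ≤ 3 * (36 * (F0 : ℝ) / n) ^ ((k : ℝ) / 12) := by linarith

/-- Character bound for the exact level `l`, with few fixed points. -/
theorem char_exact {E : Matrix (Alt n) (Alt n) ℝ} (hE : IsBlock E) (l F : ℕ) (hl : 1 ≤ l)
    (h1 : ¬ LevLe (l - 1) E) (h2 : LevLe l E) (hlF : l ≤ F) (hF : 36 * F ≤ n) (g : Alt n) (hfix : fixc g ≤ F) :
    |(E * Rm g).trace| ≤ 3 * (36 * (F : ℝ) / n) ^ ((l : ℝ) / 12) * E.trace := by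
  obtain ⟨Y, -, hY⟩ := Finset.exists_subset_card_eq (s := (Finset.univ : Finset (Fin n))) (n := n - l)
    (by rw [Finset.card_univ, Fintype.card_fin]; omega)
  have hY' : Y.card + l = n := by omega
  have h3 := char_le_avg_choose hE l hl h1 h2 (by omega) Y hY' g
  have h4 := VC_avg g Y l F hl hY' hlF hF hfix
  have h5 := block_trace_pos hE
  rw [trace_mul_Rm hE.1.1 hE.2.1 hE.2.2.1]
  calc |(E * Lm g).trace| ≤ E.trace * avg (fun h : Alt n => (((n - l).choose (img (h * g * h⁻¹) Y \ Y).card : ℝ))⁻¹) := h3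
    _ ≤ E.trace * (3 * (36 * (F : ℝ) / n) ^ ((l : ℝ) / 12)) := mul_le_mul_of_nonneg_left h4 (by linarith)
    _ = 3 * (36 * (F : ℝ) / n) ^ ((l : ℝ) / 12) * E.trace := by ring

end Pool.Agent.BC5
end

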