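import Pool.Agent.Lib.MP_bc5a73_al.Gap

section
set_option autoImplicit false
set_option linter.unusedSectionVars false
set_option linter.unusedVariables false
open scoped BigOperators Matrix
open Matrix
namespace Pool.Agent.BC5

/-- On every block other than the constants, each left-invariant subspace on which `A ≥ 1 - ε` has relative
dimension at most `2^(-q)`. -/
def GoodThr {G : Type} [Group G] [Fintype G] [DecidableEq G] (A : Matrix G G ℝ) (ε : ℝ) (q : ℕ) : Prop :=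
  ∀ E : Matrix G G ℝ, IsBlock E → E ≠ Jm G → ∀ P : Matrix G G ℝ, IsPr P → CommL P → E * P = P →
    (∀ f, P *ᵥ f = f → (1 - ε) * (f ⬝ᵥ f) ≤ qf A f) → P.trace ≤ (1 / 2 : ℝ) ^ q * E.trace

/-- Some weighted average over the tuple satisfies `GoodThr`. -/
def GoodTuple {G : Type} [Group G] [Fintype G] [DecidableEq G] {ι : Type} [Fintype ι] (x : ι → G) (ε : ℝ) (q : ℕ) : Prop :=
  ∃ w : ι → ℝ, IsWt w ∧ GoodThr (Aw w x) ε q

/-- Number of conjugacy classes. -/
noncomputable def kc (G : Type) [Group G] : ℕ := Nat.card (ConjClasses G)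

end Pool.Agent.BC5
end

section
set_option autoImplicit false
set_option linter.unusedSectionVars false
set_option linter.unusedVariables false
open scoped BigOperators Matrix
open Matrix
namespace Pool.Agent.BC5

/-
ROW Q3. Bi-invariant symmetric E: E x y = e(x*y⁻¹), e x := E x 1 a class function (see row G6). The map E ↦ (class ↦ e) into (ConjClasses G → ℝ) is injective linear; the blocks in B are linearly independent: multiply ∑ c_E E = 0 by F ∈ B (block_eq_or_mul_eq_zero: E*F = 0 for E ≠ F, F*F = F ≠ 0).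
So B.card ≤ finrank ℝ (ConjClasses G → ℝ) = card (ConjClasses G) (LinearIndependent.fintype_card_le_finrank; Module.finrank_fintype_fun_eq_card), kc G = Nat.card.
-/

variable {G : Type} [Group G] [Fintype G] [DecidableEq G]

theorem Q3_right {E : Matrix G G ℝ} (hR : CommR E) (x y g : G) : E (x * g) (y * g) = E x y := by
  have h := congrFun (congrFun (hR g).eq x) (y * g)
  simp only [Matrix.mul_apply, Rm, Matrix.of_apply, mul_left_inj, mul_ite, mul_one, mul_zero,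
    ite_mul, one_mul, zero_mul, Finset.sum_ite_eq, Finset.sum_ite_eq', Finset.mem_univ,
    if_true] at h
  exact h.symm

theorem Q3_left {E : Matrix G G ℝ} (hL : CommL E) (x y g : G) : E (g * x) (g * y) = E x y := by
  have h := congrFun (congrFun (hL g).eq (g * x)) y
  simp only [Matrix.mul_apply, Lm, Matrix.of_apply, eq_inv_mul_iff_mul_eq, inv_mul_cancel_left,
    mul_ite, mul_one, mul_zero, mul_right_inj,
    ite_mul, one_mul, zero_mul, Finset.sum_ite_eq, Finset.sum_ite_eq', Finset.mem_univ,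
    if_true] at h
  exact h

theorem Q3_conj {E : Matrix G G ℝ} (hL : CommL E) (hR : CommR E) {x y : G} (h : IsConj x y) :
    E x 1 = E y 1 := by
  obtain ⟨g, hg⟩ := isConj_iff.1 h
  have h1 := Q3_left hL x 1 g
  have h2 := Q3_right hR (g * x) (g * 1) g⁻¹
  rw [mul_one, mul_inv_cancel, hg] at h2
  rw [mul_one] at h1
  rw [← h1, h2]

theorem Q3_zero {M : Matrix G G ℝ} (hL : CommL M) (hR : CommR M)
    (h : ∀ c : ConjClasses G, M (Quotient.out c) 1 = 0) : M = 0 := by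
  have h1 : ∀ x : G, M x 1 = 0 := by
    intro x
    have h2 : IsConj (Quotient.out (ConjClasses.mk x)) x :=
      ConjClasses.mk_eq_mk_iff_isConj.1 (Quotient.out_eq (ConjClasses.mk x))
    rw [← Q3_conj hL hR h2]
    exact h _
  ext x y
  have h3 := Q3_right hR x y y⁻¹
  rw [mul_inv_cancel, h1] at h3
  rw [← h3, Matrix.zero_apply]

/-- The number of blocks is at most the number of conjugacy classes. -/
theorem card_blocks_le (B : Finset (Matrix G G ℝ)) (hB : ∀ E ∈ B, IsBlock E) : B.card ≤ kc G := by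
  classical
  haveI : Fintype (ConjClasses G) := Fintype.ofFinite _
  have hli : LinearIndependent ℝ
      (fun E : B => (fun c : ConjClasses G => (E : Matrix G G ℝ) (Quotient.out c) 1)) := by
    rw [Fintype.linearIndependent_iff]
    intro a ha
    set M : Matrix G G ℝ := ∑ E : B, a E • (E : Matrix G G ℝ) with hM
    have hML : CommL M := by
      intro g
      exact Commute.sum_left _ _ _ fun E _ => ((hB E.1 E.2).2.1 g).smul_left (a E)
    have hMR : CommR M := by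
      intro g
      exact Commute.sum_left _ _ _ fun E _ => ((hB E.1 E.2).2.2.1 g).smul_left (a E)
    have hM0 : M = 0 := by
      apply Q3_zero hML hMR
      intro c
      have h1 := congrFun ha c
      simp only [Finset.sum_apply, Pi.smul_apply, Pi.zero_apply] at h1
      rw [hM, Matrix.sum_apply]
      simpa only [Matrix.smul_apply] using h1
    intro F
    have h2 : M * (F : Matrix G G ℝ) = a F • (F : Matrix G G ℝ) := by
      rw [hM, Finset.sum_mul, Finset.sum_eq_single F]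
      · rw [Matrix.smul_mul, (hB F.1 F.2).1.2]
      · intro E _ hEF
        rw [Matrix.smul_mul]
        rcases block_eq_or_mul_eq_zero (hB E.1 E.2) (hB F.1 F.2) with h | h
        · exact absurd (Subtype.ext h) hEF
        · rw [h, smul_zero]
      · intro h
        exact absurd (Finset.mem_univ F) h
    rw [hM0, Matrix.zero_mul] at h2
    rcases smul_eq_zero.1 h2.symm with h | h
    · exact h
    · exact absurd h (hB F.1 F.2).2.2.2.1
  have h1 := hli.fintype_card_le_finrank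
  rw [Fintype.card_coe, Module.finrank_fintype_fun_eq_card] at h1
  unfold kc
  rw [Nat.card_eq_fintype_card]
  exact h1

end Pool.Agent.BC5
end

section
set_option autoImplicit false
set_option linter.unusedSectionVars false
set_option linter.unusedVariables false
open scoped BigOperators Matrix
open Matrix
namespace Pool.Agent.BC5

/-
ROW Q4. avg_base_trace_le': the same proof as row S5 (copy bc5_S5.lean when it is there) with Q general: (avg Sm)^(2p) = s^(-2p) ∑_a wp a; words with a singleton letter average to 0 (avg_word_eq_zero), the others ≤ trace Q (abs_trace_word_le); their number ≤ (8ps)^p (card_no_single).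
base_good: for a block E ≠ Jm: E*Jm = 0 (block_eq_or_mul_eq_zero), Markov: frac((1/8)^p trace E < trace(E A^(2p))) ≤ (1/8)^p (trace(E A^(2p)) ≥ 0). Union over the finset of all blocks (exists_blocks, card ≤ kc G). If x is good for all E then GoodTuple with w = (s)⁻¹ (Aw w x = avg Sm): for P as in GoodThr, pow_mul_trace_le (M := A, Q := E, c := 1/2): (1/4)^p trace P ≤ (1/8)^p trace E.
-/

variable {G : Type} [Group G] [Fintype G] [DecidableEq G]

theorem Q4_expand (Q : Matrix G G ℝ) (s p : ℕ) (x : Fin s → G) :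
    (Q * (avg fun i => Sm (x i)) ^ p).trace
      = ((s : ℝ)⁻¹) ^ p * ∑ a : Fin p → Fin s, (Q * wp (fun i => Sm (x i)) a).trace := by
  have h1 : (avg fun i => Sm (x i)) = ((s : ℝ)⁻¹) • ∑ i : Fin s, Sm (x i) := by
    unfold avg
    rw [Fintype.card_fin]
  rw [h1, smul_pow, sum_pow_eq_wp, Matrix.mul_smul, Matrix.trace_smul, smul_eq_mul, Finset.mul_sum,
    Matrix.trace_sum]

/-- Base, average trace (any bi-invariant projection orthogonal to the constants). -/
theorem avg_base_trace_le' {Q : Matrix G G ℝ} (hQ : IsPr Q) (hQR : CommR Q) (hQJ : Q * Jm G = 0) (p s : ℕ)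
    (hp : 1 ≤ p) (hs : 512 * p ≤ s) :
    avg (fun x : Fin s → G => (Q * (avg fun i => Sm (x i)) ^ (2 * p)).trace) ≤ Q.trace * (1 / 64 : ℝ) ^ p := by
  classical
  have htr0 : 0 ≤ Q.trace := trace_pr_nonneg hQ
  have hspos : 0 < s := by omega
  have hsR : (0 : ℝ) < (s : ℝ) := by exact_mod_cast hspos
  have e1 : avg (fun x : Fin s → G => (Q * (avg fun i => Sm (x i)) ^ (2 * p)).trace)
      = ((s : ℝ)⁻¹) ^ (2 * p) * ∑ a : Fin (2 * p) → Fin s,
          avg (fun x : Fin s → G => (Q * wp (fun i => Sm (x i)) a).trace) := by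
    simp_rw [Q4_expand]
    rw [avg_mul_left, avg_sum]
  have e2 : ∀ a : Fin (2 * p) → Fin s,
      avg (fun x : Fin s → G => (Q * wp (fun i => Sm (x i)) a).trace)
        ≤ if (∀ i, ∃ j, j ≠ i ∧ a j = a i) then Q.trace else 0 := by
    intro a
    split_ifs with h
    · exact avg_le_of_le fun x => le_trans (le_abs_self _) (abs_trace_word_le hQ hQR a x)
    · push Not at h
      exact le_of_eq (avg_word_eq_zero hQR hQJ a h)
  have e3 : (∑ a : Fin (2 * p) → Fin s,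
      avg (fun x : Fin s → G => (Q * wp (fun i => Sm (x i)) a).trace))
        ≤ ((8 * p * s : ℕ) : ℝ) ^ p * Q.trace := by
    refine le_trans (Finset.sum_le_sum fun a _ => e2 a) ?_
    rw [← Finset.sum_filter, Finset.sum_const, nsmul_eq_mul]
    refine mul_le_mul_of_nonneg_right ?_ htr0
    have := card_no_single s p hp (by omega)
    exact_mod_cast this
  have e4 : ((s : ℝ)⁻¹) ^ (2 * p) * ((8 * p * s : ℕ) : ℝ) ^ p ≤ (1 / 64 : ℝ) ^ p := by
    rw [pow_mul, ← mul_pow]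
    refine pow_le_pow_left₀ (by positivity) ?_ p
    have hps : (512 : ℝ) * (p : ℝ) ≤ (s : ℝ) := by exact_mod_cast hs
    have h2 : ((s : ℝ)⁻¹) ^ 2 * ((8 * p * s : ℕ) : ℝ) = 8 * (p : ℝ) / (s : ℝ) := by
      push_cast
      field_simp
    rw [h2, div_le_div_iff₀ hsR (by norm_num)]
    linarith
  rw [e1]
  calc ((s : ℝ)⁻¹) ^ (2 * p) * ∑ a : Fin (2 * p) → Fin s,
          avg (fun x : Fin s → G => (Q * wp (fun i => Sm (x i)) a).trace)
      ≤ ((s : ℝ)⁻¹) ^ (2 * p) * (((8 * p * s : ℕ) : ℝ) ^ p * Q.trace) :=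
        mul_le_mul_of_nonneg_left e3 (by positivity)
    _ = (((s : ℝ)⁻¹) ^ (2 * p) * ((8 * p * s : ℕ) : ℝ) ^ p) * Q.trace := by ring
    _ ≤ (1 / 64 : ℝ) ^ p * Q.trace := mul_le_mul_of_nonneg_right e4 htr0
    _ = Q.trace * (1 / 64 : ℝ) ^ p := by ring

theorem Q4_comm {E : Matrix G G ℝ} (hE : CommR E) {s : ℕ} (x : Fin s → G) :
    Commute (avg fun i => Sm (x i)) E := by
  have h1 : ∀ g : G, Commute (Sm g) E := by
    intro g
    unfold Sm
    exact (((hE g).symm.add_left (hE g⁻¹).symm)).smul_left _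
  unfold avg
  refine Commute.smul_left ?_ _
  exact Commute.sum_left _ _ _ (fun i _ => h1 (x i))

theorem Q4_transpose {s : ℕ} (x : Fin s → G) :
    (avg fun i => Sm (x i))ᵀ = avg fun i => Sm (x i) := by
  unfold avg
  rw [Matrix.transpose_smul, Matrix.transpose_sum]
  simp_rw [Sm_transpose]

theorem Q4_trace_nonneg {E : Matrix G G ℝ} (hE : IsBlock E) {s : ℕ} (x : Fin s → G) (p : ℕ) :
    0 ≤ (E * (avg fun i => Sm (x i)) ^ (2 * p)).trace := by
  have h1 := pow_mul_trace_le (avg fun i => Sm (x i)) E 0 0 le_rfl (Q4_transpose x) hE.1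
    (Q4_comm hE.2.2.1 x) ⟨by simp, by simp⟩ (by simp) (fun f hf => by
      rw [Matrix.zero_mulVec] at hf
      rw [← hf]
      simp [qf]) p
  simpa using h1

theorem Q4_good {s : ℕ} (hs : 0 < s) (x : Fin s → G) (p : ℕ)
    (h : ∀ E : Matrix G G ℝ, IsBlock E → E ≠ Jm G →
      (E * (avg fun i => Sm (x i)) ^ (2 * p)).trace ≤ (1 / 8 : ℝ) ^ p * E.trace) :
    GoodTuple x (1 / 2) p := by
  have hsR : (0 : ℝ) < (s : ℝ) := by exact_mod_cast hs
  refine ⟨fun _ => ((s : ℝ))⁻¹, ⟨fun i => by positivity, ?_⟩, ?_⟩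
  · rw [Finset.sum_const, Finset.card_univ, Fintype.card_fin, nsmul_eq_mul,
      mul_inv_cancel₀ hsR.ne']
  · have hA : Aw (fun _ : Fin s => ((s : ℝ))⁻¹) x = avg fun i => Sm (x i) := by
      unfold Aw avg
      rw [Fintype.card_fin, Finset.smul_sum]
    rw [hA]
    intro E hE hEJ P hP hPL hEP hf
    have h1 := pow_mul_trace_le (avg fun i => Sm (x i)) E P (1 / 2) (by norm_num) (Q4_transpose x)
      hE.1 (Q4_comm hE.2.2.1 x) hP hEP (fun f hPf => by
        have h2 := hf f hPf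
        linarith) p
    have h2 := h E hE hEJ
    have h3 : ((1 : ℝ) / 2) ^ (2 * p) = (1 / 4) ^ p := by
      rw [pow_mul]
      norm_num
    rw [h3] at h1
    have h4 : (1 / 8 : ℝ) ^ p = (1 / 4) ^ p * (1 / 2) ^ p := by
      rw [← mul_pow]
      norm_num
    have h5 : (0 : ℝ) < (1 / 4) ^ p := by positivity
    refine le_of_mul_le_mul_left ?_ h5
    calc (1 / 4 : ℝ) ^ p * P.trace ≤ (1 / 8 : ℝ) ^ p * E.trace := h1.trans h2
      _ = (1 / 4 : ℝ) ^ p * ((1 / 2) ^ p * E.trace) := by rw [h4]; ring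

/-- Base for all blocks. -/
theorem base_good (p s : ℕ) (hp : 1 ≤ p) (hs : 512 * p ≤ s) :
    frac (fun x : Fin s → G => ¬ GoodTuple x (1 / 2) p) ≤ (kc G : ℝ) * (1 / 8 : ℝ) ^ p := by
  classical
  obtain ⟨B, hB, -⟩ := exists_blocks G
  have hspos : 0 < s := by omega
  have h1 : ∀ x : Fin s → G, ¬ GoodTuple x (1 / 2) p →
      ∃ E ∈ B, E ≠ Jm G ∧
        (1 / 8 : ℝ) ^ p * E.trace < (E * (avg fun i => Sm (x i)) ^ (2 * p)).trace := by
    intro x hx
    by_contra hcon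
    push Not at hcon
    exact hx (Q4_good hspos x p (fun E hE hEJ => hcon E ((hB E).2 hE) hEJ))
  have h2 : ∀ E ∈ B, frac (fun x : Fin s → G => E ≠ Jm G ∧
      (1 / 8 : ℝ) ^ p * E.trace < (E * (avg fun i => Sm (x i)) ^ (2 * p)).trace) ≤ (1 / 8 : ℝ) ^ p := by
    intro E hEB
    have hE : IsBlock E := (hB E).1 hEB
    have htr : 0 < E.trace := lt_of_lt_of_le one_pos (block_trace_pos hE)
    by_cases hEJ : E = Jm G
    · have h3 : frac (fun x : Fin s → G => E ≠ Jm G ∧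
          (1 / 8 : ℝ) ^ p * E.trace < (E * (avg fun i => Sm (x i)) ^ (2 * p)).trace) ≤
          avg (fun _ : Fin s → G => (0 : ℝ)) / 1 :=
        frac_le_avg_div one_pos (fun _ => le_rfl) (fun x hx => absurd hEJ hx.1)
      refine h3.trans ?_
      rw [avg_const, div_one]
      positivity
    · have hEJ0 : E * Jm G = 0 := by
        rcases block_eq_or_mul_eq_zero hE (Jm_isBlock (G := G)) with h | h
        · exact absurd h hEJ
        · exact h
      have hc : 0 < (1 / 8 : ℝ) ^ p * E.trace := by positivity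
      have h3 : frac (fun x : Fin s → G => E ≠ Jm G ∧
          (1 / 8 : ℝ) ^ p * E.trace < (E * (avg fun i => Sm (x i)) ^ (2 * p)).trace) ≤
          avg (fun x : Fin s → G => (E * (avg fun i => Sm (x i)) ^ (2 * p)).trace) /
            ((1 / 8 : ℝ) ^ p * E.trace) :=
        frac_le_avg_div hc (fun x => Q4_trace_nonneg hE x p) (fun x hx => hx.2.le)
      refine h3.trans ?_
      rw [div_le_iff₀ hc]
      refine (avg_base_trace_le' hE.1 hE.2.2.1 hEJ0 p s hp hs).trans (le_of_eq ?_)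
      have h4 : (1 / 64 : ℝ) ^ p = (1 / 8) ^ p * (1 / 8) ^ p := by
        rw [← mul_pow]
        norm_num
      rw [h4]
      ring
  calc frac (fun x : Fin s → G => ¬ GoodTuple x (1 / 2) p)
      ≤ frac (fun x : Fin s → G => ∃ E ∈ B, E ≠ Jm G ∧
        (1 / 8 : ℝ) ^ p * E.trace < (E * (avg fun i => Sm (x i)) ^ (2 * p)).trace) := frac_mono h1
    _ ≤ ∑ E ∈ B, frac (fun x : Fin s → G => E ≠ Jm G ∧
        (1 / 8 : ℝ) ^ p * E.trace < (E * (avg fun i => Sm (x i)) ^ (2 * p)).trace) :=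
        frac_exists_le B (fun E (x : Fin s → G) => E ≠ Jm G ∧
          (1 / 8 : ℝ) ^ p * E.trace < (E * (avg fun i => Sm (x i)) ^ (2 * p)).trace)
    _ ≤ ∑ _E ∈ B, (1 / 8 : ℝ) ^ p := Finset.sum_le_sum h2
    _ = (B.card : ℝ) * (1 / 8 : ℝ) ^ p := by rw [Finset.sum_const, nsmul_eq_mul]
    _ ≤ (kc G : ℝ) * (1 / 8 : ℝ) ^ p := by
        refine mul_le_mul_of_nonneg_right ?_ (by positivity)
        exact_mod_cast card_blocks_le B (fun E hE => (hB E).1 hE)

end Pool.Agent.BC5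
end

section
set_option autoImplicit false
set_option linter.unusedSectionVars false
set_option linter.unusedVariables false
open scoped BigOperators Matrix
open Matrix
namespace Pool.Agent.BC5

/-
ROW Q5. Letter i0 = a i occurs only at position i: wp = W1 * Sm(x i0) * W2, W1, W2 independent of x i0 and products of Sm's. trace(E W1 S W2) = trace(M S), M := W2 E W1. Average over x i0 = g first (avg_update): for a matrix M commuting with all Lm: M x y = m(x⁻¹*y), trace(M * Rm g) = card G * m(g⁻¹), and avg_g (trace(M Rm g))² = card G ∑ m² = hs M.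
With S = (Rm g + Rm g⁻¹)/2: ((u+v)/2)² ≤ (u²+v²)/2, so avg ≤ hs M. hs(W2 E W1) ≤ hs E = trace E because the W's are contractions ((Sm g u)·(Sm g u) ≤ u·u, so hs(S M) ≤ hs M and hs(M S) ≤ hs M).
-/

variable {G : Type} [Group G] [Fintype G] [DecidableEq G]

/-- Product of the matrices `Sm (x c)` along a list of letters. -/
noncomputable def Q5_W {s : ℕ} (L : List (Fin s)) (x : Fin s → G) : Matrix G G ℝ :=
  (L.map (fun c => Sm (x c))).prod

theorem Q5_hs_half (A B M : Matrix G G ℝ) (hA : hs A = hs M) (hB : hs B = hs M) :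
    hs ((1 / 2 : ℝ) • (A + B)) ≤ hs M := by
  have h1 := hs_nonneg (A - B)
  have h2 : hs (A + B) + hs (A - B) = 2 * hs A + 2 * hs B := by
    unfold hs
    rw [Matrix.transpose_add, Matrix.transpose_sub]
    have e1 : (Aᵀ + Bᵀ) * (A + B) = Aᵀ * A + Bᵀ * B + (Aᵀ * B + Bᵀ * A) := by noncomm_ring
    have e2 : (Aᵀ - Bᵀ) * (A - B) = Aᵀ * A + Bᵀ * B - (Aᵀ * B + Bᵀ * A) := by noncomm_ring
    rw [e1, e2, Matrix.trace_add, Matrix.trace_sub, Matrix.trace_add]
    ring
  rw [hs_smul]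
  nlinarith

theorem Q5_hs_left (g : G) (M : Matrix G G ℝ) : hs (Sm g * M) ≤ hs M := by
  unfold Sm
  rw [Matrix.smul_mul, Matrix.add_mul]
  have h : ∀ g : G, hs (Rm g * M) = hs M := by
    intro g
    unfold hs
    rw [Matrix.transpose_mul, Rm_transpose, Matrix.mul_assoc, ← Matrix.mul_assoc (Rm g⁻¹), Rm_inv_mul,
      Matrix.one_mul]
  exact Q5_hs_half _ _ M (h g) (h g⁻¹)

theorem Q5_hs_right (g : G) (M : Matrix G G ℝ) : hs (M * Sm g) ≤ hs M := by
  unfold Sm
  rw [Matrix.mul_smul, Matrix.mul_add]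
  have h : ∀ g : G, hs (M * Rm g) = hs M := by
    intro g
    unfold hs
    rw [Matrix.transpose_mul, Rm_transpose, Matrix.mul_assoc, Matrix.trace_mul_comm, Matrix.mul_assoc,
      Matrix.mul_assoc, Rm_mul_inv, Matrix.mul_one]
  exact Q5_hs_half _ _ M (h g) (h g⁻¹)

theorem Q5_hs_W_left {s : ℕ} (L : List (Fin s)) (x : Fin s → G) (M : Matrix G G ℝ) :
    hs (Q5_W L x * M) ≤ hs M := by
  induction L with
  | nil => simp [Q5_W]
  | cons c L ih =>
    have e : Q5_W (c :: L) x = Sm (x c) * Q5_W L x := by simp [Q5_W]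
    rw [e, Matrix.mul_assoc]
    exact (Q5_hs_left _ _).trans ih

theorem Q5_hs_W_right {s : ℕ} (L : List (Fin s)) (x : Fin s → G) (M : Matrix G G ℝ) :
    hs (M * Q5_W L x) ≤ hs M := by
  induction L generalizing M with
  | nil => simp [Q5_W]
  | cons c L ih =>
    have e : Q5_W (c :: L) x = Sm (x c) * Q5_W L x := by simp [Q5_W]
    rw [e, ← Matrix.mul_assoc]
    exact (ih _).trans (Q5_hs_right _ _)

theorem Q5_commL_W {s : ℕ} (L : List (Fin s)) (x : Fin s → G) : CommL (Q5_W L x) := by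
  intro g
  induction L with
  | nil => simp [Q5_W]
  | cons c L ih =>
    have e : Q5_W (c :: L) x = Sm (x c) * Q5_W L x := by simp [Q5_W]
    rw [e]
    exact (commL_Sm (x c) g).mul_left ih

theorem Q5_W_update {s : ℕ} (L : List (Fin s)) (x : Fin s → G) (c : Fin s) (hc : c ∉ L) (g : G) :
    Q5_W L (Function.update x c g) = Q5_W L x := by
  unfold Q5_W
  congr 1
  refine List.map_congr_left (fun d hd => ?_)
  rw [Function.update_of_ne]
  rintro rfl
  exact hc hd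

/-- Entries of a matrix commuting with the left translations. -/
theorem Q5_entry {M : Matrix G G ℝ} (hM : CommL M) (h x y : G) : M (h * x) (h * y) = M x y := by
  have h1 := hM h⁻¹
  have h2 : (M * Lm h⁻¹) x (h * y) = (Lm h⁻¹ * M) x (h * y) := by rw [h1.eq]
  have e1 : (M * Lm h⁻¹) x (h * y) = M x y := by
    simp only [Matrix.mul_apply, Lm, Matrix.of_apply, inv_inv, mul_ite, mul_one, mul_zero]
    have : ∀ z, (h * y = h * z) = (y = z) := fun z => by rw [mul_right_inj]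
    simp only [this, Finset.sum_ite_eq, Finset.mem_univ, if_true]
  have e2 : (Lm h⁻¹ * M) x (h * y) = M (h * x) (h * y) := by
    simp only [Matrix.mul_apply, Lm, Matrix.of_apply, inv_inv, ite_mul, one_mul, zero_mul,
      Finset.sum_ite_eq', Finset.mem_univ, if_true]
  rw [← e1, ← e2, h2]

theorem Q5_trace_Rm {M : Matrix G G ℝ} (hM : CommL M) (g : G) :
    (M * Rm g).trace = (Fintype.card G : ℝ) * M 1 g⁻¹ := by
  have h1 : ∀ x : G, (M * Rm g) x x = M 1 g⁻¹ := by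
    intro x
    have : ∀ z : G, (x = z * g) = (x * g⁻¹ = z) := fun z => by
      rw [eq_iff_iff]
      constructor
      · intro h; rw [h]; group
      · intro h; rw [← h]; group
    simp only [Matrix.mul_apply, Rm, Matrix.of_apply, mul_ite, mul_one, mul_zero, this,
      Finset.sum_ite_eq, Finset.mem_univ, if_true]
    have := Q5_entry hM x 1 g⁻¹
    rw [mul_one] at this
    exact this
  unfold Matrix.trace
  simp only [Matrix.diag_apply, h1, Finset.sum_const, Finset.card_univ, nsmul_eq_mul]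

theorem Q5_hs_eq {M : Matrix G G ℝ} (hM : CommL M) : hs M = (Fintype.card G : ℝ) * ∑ h, M 1 h ^ 2 := by
  have h1 : hs M = ∑ x, ∑ y, M x y ^ 2 := by
    unfold hs Matrix.trace
    simp only [Matrix.diag_apply, Matrix.mul_apply, Matrix.transpose_apply]
    rw [Finset.sum_comm]
    refine Finset.sum_congr rfl (fun x _ => Finset.sum_congr rfl (fun y _ => ?_))
    ring
  have h2 : ∀ x : G, ∑ y, M x y ^ 2 = ∑ h, M 1 h ^ 2 := by
    intro x
    rw [← Equiv.sum_comp (Equiv.mulLeft x) (fun y => M x y ^ 2)]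
    refine Finset.sum_congr rfl (fun h _ => ?_)
    have := Q5_entry hM x 1 h
    rw [mul_one] at this
    show M x (x * h) ^ 2 = M 1 h ^ 2
    rw [this]
  rw [h1]
  simp only [h2, Finset.sum_const, Finset.card_univ, nsmul_eq_mul]

theorem Q5_avg_sq {M : Matrix G G ℝ} (hM : CommL M) : avg (fun g : G => (M * Rm g).trace ^ 2) = hs M := by
  rw [Q5_hs_eq hM]
  simp only [Q5_trace_Rm hM]
  unfold avg
  rw [smul_eq_mul]
  have hc : (Fintype.card G : ℝ) ≠ 0 := by exact_mod_cast Fintype.card_ne_zero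
  have h1 : ∑ g : G, ((Fintype.card G : ℝ) * M 1 g⁻¹) ^ 2 = (Fintype.card G : ℝ) ^ 2 * ∑ h, M 1 h ^ 2 := by
    rw [Finset.mul_sum, ← Equiv.sum_comp (Equiv.inv G)]
    refine Finset.sum_congr rfl (fun g _ => ?_)
    simp only [Equiv.inv_apply, inv_inv]
    ring
  rw [h1]
  field_simp

theorem Q5_avg_sq_Sm {M : Matrix G G ℝ} (hM : CommL M) : avg (fun g : G => (M * Sm g).trace ^ 2) ≤ hs M := by
  have h1 : ∀ g : G, (M * Sm g).trace ^ 2 ≤
      1 / 2 * (M * Rm g).trace ^ 2 + 1 / 2 * (M * Rm g⁻¹).trace ^ 2 := by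
    intro g
    have e : (M * Sm g).trace = 1 / 2 * ((M * Rm g).trace + (M * Rm g⁻¹).trace) := by
      unfold Sm
      rw [Matrix.mul_smul, Matrix.trace_smul, Matrix.mul_add, Matrix.trace_add, smul_eq_mul]
    rw [e]
    nlinarith [sq_nonneg ((M * Rm g).trace - (M * Rm g⁻¹).trace)]
  have h2 := avg_mono h1
  have h3 : avg (fun g : G => (M * Rm g⁻¹).trace ^ 2) = hs M := by
    rw [← Q5_avg_sq hM]
    exact avg_equiv (Equiv.inv G) (fun g : G => (M * Rm g).trace ^ 2)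
  rw [avg_add, avg_mul_left, avg_mul_left, Q5_avg_sq hM, h3] at h2
  linarith

/-- Second moment of the trace along a word in which some letter occurs once. -/
theorem avg_sq_word_le {E : Matrix G G ℝ} (hE : IsPr E) (hER : CommR E) (hEL : CommL E) {s N : ℕ} (a : Fin N → Fin s)
    (ha : ∃ i, ∀ j, j ≠ i → a j ≠ a i) :
    avg (fun x : Fin s → G => (E * wp (fun i => Sm (x i)) a).trace ^ 2) ≤ E.trace := by
  obtain ⟨i, hi⟩ := ha
  obtain ⟨L1, hL1⟩ : ∃ L1, L1 = (List.ofFn a).take i := ⟨_, rfl⟩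
  obtain ⟨L2, hL2⟩ : ∃ L2, L2 = (List.ofFn a).drop (i + 1) := ⟨_, rfl⟩
  have hlen : (i : ℕ) < (List.ofFn a).length := by rw [List.length_ofFn]; exact i.2
  have hsplit : List.ofFn a = L1 ++ a i :: L2 := by
    rw [hL1, hL2]
    conv_lhs => rw [← List.take_append_drop (i : ℕ) (List.ofFn a), List.drop_eq_getElem_cons hlen]
    rw [List.getElem_ofFn]
  have hn1 : a i ∉ L1 := by
    rw [hL1, List.mem_take_iff_getElem]
    rintro ⟨j, hj, hja⟩
    rw [List.getElem_ofFn] at hja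
    have hj' : j < (i : ℕ) := lt_of_lt_of_le hj (min_le_left _ _)
    refine hi ⟨j, by omega⟩ ?_ hja
    intro h
    rw [Fin.ext_iff] at h
    simp only at h
    omega
  have hn2 : a i ∉ L2 := by
    rw [hL2, List.mem_drop_iff_getElem]
    rintro ⟨j, hj, hja⟩
    rw [List.getElem_ofFn] at hja
    refine hi _ ?_ hja
    intro h
    rw [Fin.ext_iff] at h
    simp only at h
    omega
  have hwp : ∀ x : Fin s → G, wp (fun i => Sm (x i)) a = Q5_W L1 x * Sm (x (a i)) * Q5_W L2 x := by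
    intro x
    have e1 : wp (fun i => Sm (x i)) a = Q5_W (List.ofFn a) x := by
      unfold wp Q5_W
      rw [List.map_ofFn]
      rfl
    rw [e1, hsplit]
    simp only [Q5_W, List.map_append, List.map_cons, List.prod_append, List.prod_cons, Matrix.mul_assoc]
  simp only [hwp]
  rw [avg_update _ (a i)]
  refine avg_le_of_le (fun x => ?_)
  simp only [Q5_W_update L1 x (a i) hn1, Q5_W_update L2 x (a i) hn2, Function.update_self]
  obtain ⟨M, hM⟩ : ∃ M, M = Q5_W L2 x * E * Q5_W L1 x := ⟨_, rfl⟩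
  have hML : CommL M := by
    intro g
    rw [hM]
    exact ((Q5_commL_W L2 x g).mul_left (hEL g)).mul_left (Q5_commL_W L1 x g)
  have htr : ∀ g : G, (E * (Q5_W L1 x * Sm g * Q5_W L2 x)).trace = (M * Sm g).trace := by
    intro g
    rw [hM]
    calc (E * (Q5_W L1 x * Sm g * Q5_W L2 x)).trace = (E * Q5_W L1 x * Sm g * Q5_W L2 x).trace := by
          simp only [Matrix.mul_assoc]
      _ = (Q5_W L2 x * (E * Q5_W L1 x * Sm g)).trace := Matrix.trace_mul_comm _ _
      _ = _ := by simp only [Matrix.mul_assoc]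
  simp only [htr]
  refine (Q5_avg_sq_Sm hML).trans ?_
  rw [hM]
  refine (Q5_hs_W_right L1 x _).trans ((Q5_hs_W_left L2 x _).trans ?_)
  unfold hs
  rw [hE.1, hE.2]

end Pool.Agent.BC5
end

section
set_option autoImplicit false
set_option linter.unusedSectionVars false
set_option linter.unusedVariables false
open scoped BigOperators Matrix
open Matrix
namespace Pool.Agent.BC5

/-
ROW Q6. trace(E A^(2p)) = s^(-2p) (∑ over words without singleton letter + X), the first sum ≤ (8ps)^p trace E (card_no_single, abs_trace_word_le) ≤ (1/64)^p s^(2p) trace E; X = ∑ over words with a singleton: avg (s^(-2p) X)² ≤ trace E (Cauchy-Schwarz for the sum over ≤ s^(2p) words, avg_sq_word_le). Markov for the square: bad ⇒ (s^(-2p)X)² > ((1/64)^p trace E)², so frac ≤ trace E/((1/64)^(2p) trace E²) = 64^(2p)/trace E.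
base_good2: union bound (64^(2p)/trace E ≤ 64^(2p)/D); good x: pow_mul_trace_le with c = 1/2: (1/4)^p trace P ≤ 2 (1/64)^p trace E, so trace P ≤ 2 (1/16)^p trace E ≤ (1/2)^(3p) trace E.
-/

variable {G : Type} [Group G] [Fintype G] [DecidableEq G]

theorem Q6_avg_eq {s : ℕ} (x : Fin s → G) :
    (avg fun i => Sm (x i)) = (s : ℝ)⁻¹ • ∑ i, Sm (x i) := by
  unfold avg
  rw [Fintype.card_fin]

theorem Q6_trace_eq (E : Matrix G G ℝ) (p s : ℕ) (x : Fin s → G) :
    (E * (avg fun i => Sm (x i)) ^ (2 * p)).trace =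
      ((s : ℝ)⁻¹) ^ (2 * p) * ∑ a : Fin (2 * p) → Fin s, (E * wp (fun i => Sm (x i)) a).trace := by
  rw [Q6_avg_eq, smul_pow, sum_pow_eq_wp, Matrix.mul_smul, Matrix.trace_smul, Finset.mul_sum,
    Matrix.trace_sum, smul_eq_mul]

/-- Base by second moments, one block. -/
theorem frac_base_block_le {E : Matrix G G ℝ} (hE : IsBlock E) (hEJ : E ≠ Jm G) (p s : ℕ) (hp : 1 ≤ p)
    (hs : 512 * p ≤ s) :
    frac (fun x : Fin s → G => 2 * (1 / 64 : ℝ) ^ p * E.trace < (E * (avg fun i => Sm (x i)) ^ (2 * p)).trace)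
      ≤ (64 : ℝ) ^ (2 * p) / E.trace := by
  classical
  have hEt : 1 ≤ E.trace := block_trace_pos hE
  have hEt0 : 0 < E.trace := lt_of_lt_of_le one_pos hEt
  have hs1 : 0 < s := by omega
  have hs0 : (0 : ℝ) < (s : ℝ) := by exact_mod_cast hs1
  have hsp : (512 : ℝ) * p ≤ s := by exact_mod_cast hs
  set NS : Finset (Fin (2 * p) → Fin s) :=
    Finset.univ.filter (fun a => ∀ i, ∃ j, j ≠ i ∧ a j = a i) with hNS
  set SG : Finset (Fin (2 * p) → Fin s) :=
    Finset.univ.filter (fun a => ¬ ∀ i, ∃ j, j ≠ i ∧ a j = a i) with hSG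
  set t : (Fin (2 * p) → Fin s) → (Fin s → G) → ℝ := fun a x => (E * wp (fun i => Sm (x i)) a).trace with ht
  set c : ℝ := ((s : ℝ)⁻¹) ^ (2 * p) with hc
  have hc0 : 0 < c := by positivity
  set X : (Fin s → G) → ℝ := fun x => ∑ a ∈ SG, t a x with hX
  have hcs : c * (s : ℝ) ^ (2 * p) = 1 := by
    rw [hc, ← mul_pow, inv_mul_cancel₀ hs0.ne', one_pow]
  -- first part
  have hNSc : (NS.card : ℝ) ≤ (8 * p * s : ℝ) ^ p := by
    have := card_no_single s p hp (by omega)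
    have h2 : (NS.card : ℝ) ≤ (((8 * p * s) ^ p : ℕ) : ℝ) := by exact_mod_cast this
    simpa using h2
  have h1 : ∀ x, ∑ a ∈ NS, t a x ≤ (8 * p * s : ℝ) ^ p * E.trace := by
    intro x
    calc ∑ a ∈ NS, t a x ≤ ∑ a ∈ NS, E.trace :=
          Finset.sum_le_sum fun a _ => le_trans (le_abs_self _) (abs_trace_word_le hE.1 hE.2.2.1 a x)
      _ = (NS.card : ℝ) * E.trace := by rw [Finset.sum_const, nsmul_eq_mul]
      _ ≤ _ := mul_le_mul_of_nonneg_right hNSc hEt0.le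
  have h2 : c * ((8 * p * s : ℝ) ^ p * E.trace) ≤ (1 / 64 : ℝ) ^ p * E.trace := by
    have h3 : c * (8 * p * s : ℝ) ^ p ≤ (1 / 64 : ℝ) ^ p := by
      have h4 : c * (8 * p * s : ℝ) ^ p = (8 * p / s : ℝ) ^ p := by
        rw [hc, pow_mul, ← mul_pow]
        congr 1
        field_simp
      rw [h4]
      apply pow_le_pow_left₀ (by positivity)
      rw [div_le_iff₀ hs0]
      linarith
    calc c * ((8 * p * s : ℝ) ^ p * E.trace) = (c * (8 * p * s : ℝ) ^ p) * E.trace := by ring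
      _ ≤ _ := mul_le_mul_of_nonneg_right h3 hEt0.le
  -- splitting
  have h5 : ∀ x : Fin s → G, (E * (avg fun i => Sm (x i)) ^ (2 * p)).trace ≤
      (1 / 64 : ℝ) ^ p * E.trace + c * X x := by
    intro x
    rw [Q6_trace_eq]
    have h6 : ∑ a : Fin (2 * p) → Fin s, (E * wp (fun i => Sm (x i)) a).trace =
        ∑ a ∈ NS, t a x + X x := by
      rw [hNS, hX, hSG]
      exact (Finset.sum_filter_add_sum_filter_not _ _ _).symm
    rw [h6, mul_add]
    have := mul_le_mul_of_nonneg_left (h1 x) hc0.le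
    linarith
  -- second moment
  have hSGc : (SG.card : ℝ) ≤ (s : ℝ) ^ (2 * p) := by
    have h7 : SG.card ≤ (Finset.univ : Finset (Fin (2 * p) → Fin s)).card := Finset.card_le_univ _
    rw [Finset.card_univ, Fintype.card_fun, Fintype.card_fin, Fintype.card_fin] at h7
    exact_mod_cast h7
  have h8 : ∀ a ∈ SG, avg (fun x : Fin s → G => t a x ^ 2) ≤ E.trace := by
    intro a ha
    have ha' : ∃ i, ∀ j, j ≠ i → a j ≠ a i := by
      rw [hSG, Finset.mem_filter] at ha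
      have h9 := ha.2
      push Not at h9
      exact h9
    exact avg_sq_word_le hE.1 hE.2.2.1 hE.2.1 a ha'
  have h10 : ∀ x : Fin s → G, (c * X x) ^ 2 ≤ c ^ 2 * (SG.card : ℝ) * ∑ a ∈ SG, t a x ^ 2 := by
    intro x
    have h11 : X x ^ 2 ≤ (SG.card : ℝ) * ∑ a ∈ SG, t a x ^ 2 := sq_sum_le_card_mul_sum_sq
    calc (c * X x) ^ 2 = c ^ 2 * X x ^ 2 := by ring
      _ ≤ c ^ 2 * ((SG.card : ℝ) * ∑ a ∈ SG, t a x ^ 2) := mul_le_mul_of_nonneg_left h11 (by positivity)
      _ = _ := by ring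
  have h12 : avg (fun x : Fin s → G => (c * X x) ^ 2) ≤ E.trace := by
    have h13 : avg (fun x : Fin s → G => c ^ 2 * (SG.card : ℝ) * ∑ a ∈ SG, t a x ^ 2) =
        c ^ 2 * (SG.card : ℝ) * ∑ a ∈ SG, avg (fun x : Fin s → G => t a x ^ 2) := by
      rw [avg_mul_left]
      congr 1
      exact avg_sum SG (fun (a : Fin (2 * p) → Fin s) (x : Fin s → G) => t a x ^ 2)
    have h14 : ∑ a ∈ SG, avg (fun x : Fin s → G => t a x ^ 2) ≤ (SG.card : ℝ) * E.trace := by
      calc ∑ a ∈ SG, avg (fun x : Fin s → G => t a x ^ 2) ≤ ∑ a ∈ SG, E.trace := Finset.sum_le_sum h8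
        _ = _ := by rw [Finset.sum_const, nsmul_eq_mul]
    calc avg (fun x : Fin s → G => (c * X x) ^ 2)
        ≤ avg (fun x : Fin s → G => c ^ 2 * (SG.card : ℝ) * ∑ a ∈ SG, t a x ^ 2) := avg_mono h10
      _ = c ^ 2 * (SG.card : ℝ) * ∑ a ∈ SG, avg (fun x : Fin s → G => t a x ^ 2) := h13
      _ ≤ c ^ 2 * (SG.card : ℝ) * ((SG.card : ℝ) * E.trace) :=
          mul_le_mul_of_nonneg_left h14 (by positivity)
      _ = (c * (SG.card : ℝ)) ^ 2 * E.trace := by ring
      _ ≤ 1 ^ 2 * E.trace := by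
          apply mul_le_mul_of_nonneg_right _ hEt0.le
          apply pow_le_pow_left₀ (by positivity)
          rw [← hcs]
          exact mul_le_mul_of_nonneg_left hSGc hc0.le
      _ = E.trace := by ring
  -- Markov
  have hK : 0 < ((1 / 64 : ℝ) ^ p * E.trace) ^ 2 := by positivity
  have h15 : frac (fun x : Fin s → G => 2 * (1 / 64 : ℝ) ^ p * E.trace <
      (E * (avg fun i => Sm (x i)) ^ (2 * p)).trace) ≤
      avg (fun x : Fin s → G => (c * X x) ^ 2) / ((1 / 64 : ℝ) ^ p * E.trace) ^ 2 := by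
    apply frac_le_avg_div hK (fun x => sq_nonneg _)
    intro x hx
    have h16 : (1 / 64 : ℝ) ^ p * E.trace ≤ c * X x := by
      have := h5 x
      nlinarith [this, hx]
    exact pow_le_pow_left₀ (by positivity) h16 2
  refine le_trans h15 ?_
  rw [div_le_div_iff₀ hK hEt0]
  have h17 : (64 : ℝ) ^ (2 * p) * ((1 / 64 : ℝ) ^ p * E.trace) ^ 2 = E.trace ^ 2 := by
    rw [mul_pow, ← pow_mul, mul_comm p 2, ← mul_assoc, ← mul_pow]
    norm_num
  rw [h17, pow_two]
  exact mul_le_mul_of_nonneg_right h12 hEt0.le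

theorem Q6_Sm_symm (g : G) : (Sm g)ᵀ = Sm g := by
  unfold Sm
  rw [Matrix.transpose_smul, Matrix.transpose_add, Rm_transpose, Rm_transpose, inv_inv, add_comm]

theorem Q6_Sm_comm {E : Matrix G G ℝ} (hE : CommR E) (g : G) : Commute (Sm g) E := by
  unfold Sm
  exact ((hE g).symm.add_left (hE g⁻¹).symm).smul_left _

theorem Q6_avg_symm {s : ℕ} (x : Fin s → G) : (avg fun i => Sm (x i))ᵀ = avg fun i => Sm (x i) := by
  rw [Q6_avg_eq, Matrix.transpose_smul, Matrix.transpose_sum]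
  congr 1
  exact Finset.sum_congr rfl fun i _ => Q6_Sm_symm _

theorem Q6_avg_comm {E : Matrix G G ℝ} (hE : CommR E) {s : ℕ} (x : Fin s → G) :
    Commute (avg fun i => Sm (x i)) E := by
  rw [Q6_avg_eq]
  exact (Commute.sum_left _ _ _ fun i _ => Q6_Sm_comm hE _).smul_left _

/-- Base by second moments, all blocks. -/
theorem base_good2 (p s : ℕ) (hp : 1 ≤ p) (hs : 512 * p ≤ s) (D : ℝ) (hD : 0 < D)
    (hDE : ∀ E : Matrix G G ℝ, IsBlock E → E ≠ Jm G → D ≤ E.trace) :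
    frac (fun x : Fin s → G => ¬ GoodTuple x (1 / 2) (3 * p)) ≤ (kc G : ℝ) * ((64 : ℝ) ^ (2 * p) / D) := by
  classical
  obtain ⟨B, hB, -⟩ := exists_blocks G
  have hs1 : 0 < s := by omega
  have hs0 : (0 : ℝ) < (s : ℝ) := by exact_mod_cast hs1
  set B' : Finset (Matrix G G ℝ) := B.filter (fun E => E ≠ Jm G) with hB'
  set bad : Matrix G G ℝ → (Fin s → G) → Prop := fun E x =>
    2 * (1 / 64 : ℝ) ^ p * E.trace < (E * (avg fun i => Sm (x i)) ^ (2 * p)).trace with hbad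
  have h1 : ∀ x : Fin s → G, ¬ GoodTuple x (1 / 2) (3 * p) → ∃ E ∈ B', bad E x := by
    intro x hx
    by_contra hcon
    push Not at hcon
    apply hx
    refine ⟨fun _ => (s : ℝ)⁻¹, ⟨fun _ => by positivity, ?_⟩, ?_⟩
    · rw [Finset.sum_const, Finset.card_univ, Fintype.card_fin, nsmul_eq_mul, mul_inv_cancel₀ hs0.ne']
    · intro E hE hEJ P hP hPL hEP hf
      have hA : Aw (fun _ => (s : ℝ)⁻¹) x = avg fun i => Sm (x i) := by
        unfold Aw
        rw [Q6_avg_eq, Finset.smul_sum]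
      rw [hA] at hf
      have hEt : 1 ≤ E.trace := block_trace_pos hE
      have hmem : E ∈ B' := by
        rw [hB', Finset.mem_filter]
        exact ⟨(hB E).2 hE, hEJ⟩
      have h2 : (E * (avg fun i => Sm (x i)) ^ (2 * p)).trace ≤ 2 * (1 / 64 : ℝ) ^ p * E.trace :=
        not_lt.mp (hcon E hmem)
      have h3 := pow_mul_trace_le (avg fun i => Sm (x i)) E P (1 / 2) (by norm_num) (Q6_avg_symm x) hE.1
        (Q6_avg_comm hE.2.2.1 x) hP hEP (fun f hPf => by
          have := hf f hPf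
          norm_num at this ⊢
          exact this) p
      have h4 : (1 / 2 : ℝ) ^ (2 * p) * P.trace ≤ 2 * (1 / 64 : ℝ) ^ p * E.trace := le_trans h3 h2
      have h5 : (1 / 2 : ℝ) ^ (2 * p) = (1 / 4 : ℝ) ^ p := by rw [pow_mul]; norm_num
      have h6 : (1 / 2 : ℝ) ^ (3 * p) = (1 / 8 : ℝ) ^ p := by rw [pow_mul]; norm_num
      rw [h5] at h4
      rw [h6]
      have h7 : (4 : ℝ) ^ p * (1 / 4 : ℝ) ^ p = 1 := by rw [← mul_pow]; norm_num
      have h8 : (4 : ℝ) ^ p * (1 / 64 : ℝ) ^ p = (1 / 16 : ℝ) ^ p := by rw [← mul_pow]; norm_num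
      have h9 : (1 / 16 : ℝ) ^ p = (1 / 2 : ℝ) ^ p * (1 / 8 : ℝ) ^ p := by rw [← mul_pow]; norm_num
      have h10 : (1 / 2 : ℝ) ^ p ≤ 1 / 2 := by
        calc (1 / 2 : ℝ) ^ p ≤ (1 / 2 : ℝ) ^ 1 := pow_le_pow_of_le_one (by norm_num) (by norm_num) hp
          _ = 1 / 2 := pow_one _
      have h11 : (0 : ℝ) < (1 / 8 : ℝ) ^ p := by positivity
      have h12 := mul_le_mul_of_nonneg_left h4 (show (0 : ℝ) ≤ (4 : ℝ) ^ p by positivity)
      calc P.trace = (4 : ℝ) ^ p * ((1 / 4 : ℝ) ^ p * P.trace) := by rw [← mul_assoc, h7, one_mul]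
        _ ≤ (4 : ℝ) ^ p * (2 * (1 / 64 : ℝ) ^ p * E.trace) := h12
        _ = 2 * ((4 : ℝ) ^ p * (1 / 64 : ℝ) ^ p) * E.trace := by ring
        _ = (2 * (1 / 2 : ℝ) ^ p) * ((1 / 8 : ℝ) ^ p * E.trace) := by rw [h8, h9]; ring
        _ ≤ 1 * ((1 / 8 : ℝ) ^ p * E.trace) := by
            apply mul_le_mul_of_nonneg_right _ (by positivity)
            linarith
        _ = (1 / 8 : ℝ) ^ p * E.trace := one_mul _
  have h13 : frac (fun x : Fin s → G => ∃ E ∈ B', bad E x) ≤ ∑ E ∈ B', frac (bad E) :=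
    frac_exists_le B' bad
  have h14 : ∀ E ∈ B', frac (bad E) ≤ (64 : ℝ) ^ (2 * p) / D := by
    intro E hE
    rw [hB', Finset.mem_filter] at hE
    have hEb := (hB E).1 hE.1
    refine le_trans (frac_base_block_le hEb hE.2 p s hp hs) ?_
    exact div_le_div_of_nonneg_left (by positivity) hD (hDE E hEb hE.2)
  have h15 : (B'.card : ℝ) ≤ kc G := by
    have h16 : B'.card ≤ kc G := card_blocks_le B' fun E hE => by
      rw [hB', Finset.mem_filter] at hE
      exact (hB E).1 hE.1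
    exact_mod_cast h16
  calc frac (fun x : Fin s → G => ¬ GoodTuple x (1 / 2) (3 * p))
      ≤ frac (fun x : Fin s → G => ∃ E ∈ B', bad E x) := frac_mono h1
    _ ≤ ∑ E ∈ B', frac (bad E) := h13
    _ ≤ ∑ E ∈ B', (64 : ℝ) ^ (2 * p) / D := Finset.sum_le_sum h14
    _ = (B'.card : ℝ) * ((64 : ℝ) ^ (2 * p) / D) := by rw [Finset.sum_const, nsmul_eq_mul]
    _ ≤ _ := mul_le_mul_of_nonneg_right h15 (by positivity)

end Pool.Agent.BC5
end

section
set_option autoImplicit false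
set_option linter.unusedSectionVars false
set_option linter.unusedVariables false
open scoped BigOperators Matrix
open Matrix
namespace Pool.Agent.BC5

/-
ROW Q7. Like row H6 (bc5_H6.lean): a = f·f, z = a - qf P0 f, eo = a - qf A f ≥ 0, en = a - qf(avg Sm) f ≥ 0, T := qf(avg(conjR (E*P0) y)) f: a - z ≤ 2T + 4 en, ε z ≤ eo, (1-ρ) eo + ρ en ≤ ε' a (this is hf2). Suppose T < τ a (so a > 0): (1-2τ) a < eo/ε + 4 en ≤ (1/μ)((1-ρ)eo + ρ en) ≤ ε' a/μ with μ = min((1-ρ)ε, ρ/4) > 0, so (1-2τ) μ < ε', contradiction to h1, h2.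
-/

variable {G : Type} [Group G] [Fintype G] [DecidableEq G]

theorem Q7_dot_add_le {V : Type} [Fintype V] (f g : V → ℝ) :
    (f + g) ⬝ᵥ (f + g) ≤ 2 * (f ⬝ᵥ f) + 2 * (g ⬝ᵥ g) := by
  have h1 : 0 ≤ (f - g) ⬝ᵥ (f - g) := Finset.sum_nonneg fun i _ => mul_self_nonneg _
  rw [sub_dotProduct, dotProduct_sub, dotProduct_sub, dotProduct_comm g f] at h1
  rw [add_dotProduct, dotProduct_add, dotProduct_add, dotProduct_comm g f]
  linarith

theorem Q7_qf_pr_le {V : Type} [Fintype V] [DecidableEq V] {P : Matrix V V ℝ} (hP : IsPr P) (f : V → ℝ) :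
    qf P f ≤ f ⬝ᵥ f := by
  have h1 := qf_pr_nonneg hP.compl f
  rw [qf_sub, qf_one] at h1
  linarith

theorem Q7_conj {G : Type} [Group G] [Fintype G] [DecidableEq G] {E P0 : Matrix G G ℝ} (hE : IsBlock E)
    {s : ℕ} (y : Fin s → G) (f : G → ℝ) (hf : E *ᵥ f = f) (i : Fin s) :
    qf (conjR (E * P0) y i) f = qf P0 (Rm (y i)⁻¹ *ᵥ f) := by
  have hEu : E *ᵥ (Rm (y i)⁻¹ *ᵥ f) = Rm (y i)⁻¹ *ᵥ f := by
    rw [Matrix.mulVec_mulVec, (hE.2.2.1 (y i)⁻¹).eq, ← Matrix.mulVec_mulVec, hf]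
  have hEt : Eᵀ = E := hE.1.1
  unfold qf conjR
  rw [← Matrix.mulVec_mulVec, ← Matrix.mulVec_mulVec, ← Matrix.mulVec_mulVec]
  have h1 := dot_Rm (y i)⁻¹ f (Rm (y i) *ᵥ (E *ᵥ (P0 *ᵥ (Rm (y i)⁻¹ *ᵥ f))))
  rw [← h1]
  rw [Matrix.mulVec_mulVec _ (Rm (y i)⁻¹) (Rm (y i)), Rm_inv_mul, Matrix.one_mulVec,
    Matrix.dotProduct_mulVec, ← Matrix.mulVec_transpose, hEt, hEu]

theorem Q7_real {a p A S T ε ε' ρ τ : ℝ} (hε : 0 < ε) (hρ0 : 0 < ρ) (hρ1 : ρ < 1)
    (hτ1 : τ < 1 / 2) (h1 : ε' ≤ (1 - 2 * τ) * ((1 - ρ) * ε))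
    (h2 : ε' ≤ (1 - 2 * τ) * (ρ / 4)) (hav : p ≤ 2 * T + 4 * (a - S))
    (hth : ε * (a - p) ≤ a - A) (hp : p ≤ a) (hA : A ≤ a) (hS : S ≤ a)
    (ha : 0 ≤ a) (hf : (1 - ε') * a ≤ (1 - ρ) * A + ρ * S) : τ * a ≤ T := by
  by_contra hcon
  rw [not_le] at hcon
  obtain ⟨z, hz'⟩ : ∃ z, z = a - p := ⟨_, rfl⟩
  obtain ⟨eo, heo'⟩ : ∃ eo, eo = a - A := ⟨_, rfl⟩
  obtain ⟨en, hen'⟩ : ∃ en, en = a - S := ⟨_, rfl⟩
  have hz : 0 ≤ z := by linarith
  have heo : 0 ≤ eo := by linarith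
  have hen : 0 ≤ en := by linarith
  rw [← hz', ← heo'] at hth
  rw [← hen'] at hav
  have hkey : (1 - 2 * τ) * a < z + 4 * en := by linarith
  have hρ' : 0 < 1 - ρ := by linarith
  have ht : 0 < 1 - 2 * τ := by linarith
  have hf' : (1 - ρ) * eo + ρ * en ≤ ε' * a := by
    rw [heo', hen']
    linarith
  rcases le_or_gt ε' 0 with hneg | hpos
  · have h3 : ε' * a ≤ 0 := mul_nonpos_of_nonpos_of_nonneg hneg ha
    have h4 : 0 ≤ (1 - ρ) * eo := mul_nonneg hρ'.le heo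
    have h5 : 0 ≤ ρ * en := mul_nonneg hρ0.le hen
    have h6 : (1 - ρ) * eo ≤ 0 := by linarith
    have h7 : ρ * en ≤ 0 := by linarith
    have h8 : eo ≤ 0 := nonpos_of_mul_nonpos_right h6 hρ'
    have h9 : en ≤ 0 := nonpos_of_mul_nonpos_right h7 hρ0
    have h10 : z ≤ 0 := nonpos_of_mul_nonpos_right (hth.trans h8) hε
    have h11 : 0 ≤ (1 - 2 * τ) * a := mul_nonneg ht.le ha
    linarith
  · obtain ⟨κ, hκ⟩ : ∃ κ, κ = ε' / (1 - 2 * τ) := ⟨_, rfl⟩
    have hκ1 : ε' = κ * (1 - 2 * τ) := by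
      rw [hκ]
      field_simp
    have hκ0 : 0 < κ := by
      rw [hκ]
      positivity
    have hκ2 : κ ≤ (1 - ρ) * ε := by
      rw [hκ, div_le_iff₀ ht]
      linarith
    have hκ3 : κ ≤ ρ / 4 := by
      rw [hκ, div_le_iff₀ ht]
      linarith
    have h5 : ε' * a < κ * (z + 4 * en) := by
      rw [hκ1, mul_assoc]
      exact mul_lt_mul_of_pos_left hkey hκ0
    have h6 : κ * z ≤ (1 - ρ) * ε * z := mul_le_mul_of_nonneg_right hκ2 hz
    have h7 : κ * en ≤ ρ / 4 * en := mul_le_mul_of_nonneg_right hκ3 hen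
    have h9 : (1 - ρ) * (ε * z) ≤ (1 - ρ) * eo := mul_le_mul_of_nonneg_left hth hρ'.le
    have h10 : (1 - ρ) * ε * z = (1 - ρ) * (ε * z) := by ring
    linarith

/-- If `A'` is large on `f` then `T` is large on `f`. -/
theorem qf_T_ge {E P0 A : Matrix G G ℝ} (hE : IsBlock E) (hP0 : IsPr P0) (hP0L : CommL P0) (hEP : Commute E P0)
    {s : ℕ} (hs : 1 ≤ s) (y : Fin s → G) (ε ε' ρ τ : ℝ) (hε : 0 < ε) (hρ0 : 0 < ρ) (hρ1 : ρ < 1)
    (hτ0 : 0 < τ) (hτ1 : τ < 1 / 2) (h1 : ε' ≤ (1 - 2 * τ) * ((1 - ρ) * ε)) (h2 : ε' ≤ (1 - 2 * τ) * (ρ / 4))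
    (hthr : ∀ f, ε * (f ⬝ᵥ f - qf P0 f) ≤ f ⬝ᵥ f - qf A f) (hA : ∀ f, qf A f ≤ f ⬝ᵥ f) (f : G → ℝ)
    (hf : E *ᵥ f = f) (hf2 : (1 - ε') * (f ⬝ᵥ f) ≤ qf ((1 - ρ) • A + ρ • avg (fun i => Sm (y i))) f) :
    τ * (f ⬝ᵥ f) ≤ qf (avg (conjR (E * P0) y)) f := by
  have : Nonempty (Fin s) := ⟨⟨0, hs⟩⟩
  have hpt : ∀ i : Fin s, qf P0 f ≤
      2 * qf (conjR (E * P0) y i) f + 4 * (f ⬝ᵥ f - qf (Sm (y i)) f) := by
    intro i
    rw [Q7_conj hE y f hf i, qf_Sm]
    obtain ⟨u, hu⟩ : ∃ u, u = Rm (y i)⁻¹ *ᵥ f := ⟨_, rfl⟩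
    rw [← hu]
    have h3 : P0 *ᵥ f = P0 *ᵥ u + P0 *ᵥ (f - u) := by
      rw [← Matrix.mulVec_add]
      congr 1
      abel
    have h4 : qf P0 f ≤ 2 * qf P0 u + 2 * qf P0 (f - u) := by
      rw [qf_pr hP0, qf_pr hP0, qf_pr hP0, h3]
      exact Q7_dot_add_le _ _
    have h5 := Q7_qf_pr_le hP0 (f - u)
    have h6 : (f - u) ⬝ᵥ (f - u) = (u - f) ⬝ᵥ (u - f) := by
      have h7 : f - u = -(u - f) := by abel
      rw [h7, neg_dotProduct, dotProduct_neg, neg_neg]
    linarith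
  have hav : qf P0 f ≤ 2 * qf (avg (conjR (E * P0) y)) f +
      4 * (f ⬝ᵥ f - qf (avg (fun i => Sm (y i))) f) := by
    have h3 := avg_mono hpt
    rw [avg_const, avg_add, avg_mul_left, avg_mul_left, avg_sub, avg_const] at h3
    rw [qf_avg, qf_avg]
    exact h3
  have hen : 0 ≤ f ⬝ᵥ f - qf (avg (fun i => Sm (y i))) f := by
    rw [qf_avg]
    have h3 : avg (fun i => qf (Sm (y i)) f) ≤ f ⬝ᵥ f :=
      avg_le_of_le (fun i => (le_abs_self _).trans (abs_qf_Sm_le (y i) f))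
    linarith
  have hz : 0 ≤ f ⬝ᵥ f - qf P0 f := by
    have := Q7_qf_pr_le hP0 f
    linarith
  have heo : 0 ≤ f ⬝ᵥ f - qf A f := by
    have := hA f
    linarith
  have hth := hthr f
  have ha : 0 ≤ f ⬝ᵥ f := dot_self_nonneg f
  rw [qf_add, qf_smul, qf_smul] at hf2
  exact Q7_real hε hρ0 hρ1 hτ1 h1 h2 hav hth (by linarith) (by linarith) (by linarith) ha hf2


end Pool.Agent.BC5
end

section
set_option autoImplicit false
set_option linter.unusedSectionVars false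
set_option linter.unusedVariables false
open scoped BigOperators Matrix
open Matrix
namespace Pool.Agent.BC5

/-
ROW Q8. avg_trace_pow_le with β = τ/2, Markov (frac_le_avg_div) with c = (1/2)^p τ^(2p) trace E: 4 trace E (τ/2)^(2p)/c = 4 (1/2)^p. (trace T^(2p) = hs(T^p) ≥ 0.)
-/

variable {G : Type} [Group G] [Fintype G] [DecidableEq G]

/-- One stage, one block. -/
theorem frac_stage_block_le {E P : Matrix G G ℝ} (hE : IsBlock E) (hP : IsPr P) (hPL : CommL P) (hPE : E * P = P)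
    (s p b : ℕ) (hs : 1 ≤ s) (hp : 1 ≤ p) (φ τ : ℝ) (hφ0 : 0 < φ) (hφ1 : φ ≤ 1) (hτ : 0 < τ)
    (htr : P.trace ≤ φ ^ 2 * E.trace)
    (h1 : (2 : ℝ) ^ s * (b : ℝ) ^ p ≤ (τ / 2) ^ p * (s : ℝ) ^ p) (h2 : φ ^ (b + 1) ≤ (τ / 2) ^ p) :
    frac (fun y : Fin s → G => (1 / 2 : ℝ) ^ p * τ ^ (2 * p) * E.trace < ((avg (conjR P y)) ^ (2 * p)).trace)
      ≤ 4 * (1 / 2 : ℝ) ^ p := by
  have hT : ∀ g : Fin s → G, (avg (conjR P g))ᵀ = avg (conjR P g) := by
    intro g
    unfold avg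
    rw [Matrix.transpose_smul, Matrix.transpose_sum]
    congr 1
    exact Finset.sum_congr rfl fun i _ => (conjR_isPr hP g i).1
  have hEt : 1 ≤ E.trace := one_le_trace hE.1 hE.2.2.2.1
  have hE0 : 0 < E.trace := by linarith
  have hc : 0 < (1 / 2 : ℝ) ^ p * τ ^ (2 * p) * E.trace := by positivity
  have hM := frac_le_avg_div
    (P := fun y : Fin s → G => (1 / 2 : ℝ) ^ p * τ ^ (2 * p) * E.trace < ((avg (conjR P y)) ^ (2 * p)).trace)
    (f := fun y : Fin s → G => ((avg (conjR P y)) ^ (2 * p)).trace) hc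
    (fun g => by
      rw [trace_pow_two_mul _ (hT g)]
      exact hs_nonneg _)
    (fun g hg => hg.le)
  have hA := avg_trace_pow_le hE hP hPL hPE s p b hs hp φ (τ / 2) hφ0 hφ1 (by positivity) htr h1 h2
  refine hM.trans ?_
  rw [div_le_iff₀ hc]
  refine hA.trans (le_of_eq ?_)
  have h3 : (τ / 2) ^ (2 * p) = ((1 / 2 : ℝ) ^ p * (1 / 2 : ℝ) ^ p) * τ ^ (2 * p) := by
    rw [div_pow, ← pow_add, div_pow, one_pow, two_mul]
    ring
  rw [h3]
  ring

end Pool.Agent.BC5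
end

section
set_option autoImplicit false
set_option linter.unusedSectionVars false
set_option linter.unusedVariables false
open scoped BigOperators Matrix
open Matrix
namespace Pool.Agent.BC5

/-
ROW Q9. mono: (1-ε') ≥ (1-ε), (1/2)^q ≤ (1/2)^q'. comp: push the weights forward as in HasGap.comp (row H1).
-/

variable {G : Type} [Group G] [Fintype G] [DecidableEq G]

theorem GoodTuple_trace_nonneg {E : Matrix G G ℝ} (hE : IsPr E) : 0 ≤ E.trace := by
  unfold Matrix.trace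
  refine Finset.sum_nonneg fun i _ => ?_
  have h1 : E i i = qf E (Pi.single i 1) := by
    simp [qf]
  rw [Matrix.diag_apply, h1]
  exact qf_pr_nonneg hE _

theorem GoodTuple.mono {ι : Type} [Fintype ι] {x : ι → G} {ε ε' : ℝ} {q q' : ℕ} (h : GoodTuple x ε q)
    (hε : ε' ≤ ε) (hq : q' ≤ q) : GoodTuple x ε' q' := by
  obtain ⟨w, hw, hg⟩ := h
  refine ⟨w, hw, ?_⟩
  intro E hE hE1 P hP hPL hEP hf
  have h1 : P.trace ≤ (1 / 2 : ℝ) ^ q * E.trace := by
    refine hg E hE hE1 P hP hPL hEP fun f hfP => ?_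
    refine le_trans ?_ (hf f hfP)
    exact mul_le_mul_of_nonneg_right (by linarith only [hε]) (dot_self_nonneg f)
  refine le_trans h1 ?_
  refine mul_le_mul_of_nonneg_right ?_ (GoodTuple_trace_nonneg hE.1)
  exact pow_le_pow_of_le_one (by norm_num) (by norm_num) hq

theorem GoodTuple.comp {ι κ : Type} [Fintype ι] [Fintype κ] [DecidableEq κ] {x : κ → G} {ε : ℝ} {q : ℕ} (e : ι → κ)
    (h : GoodTuple (fun i => x (e i)) ε q) : GoodTuple x ε q := by
  classical
  obtain ⟨w, hw, hg⟩ := h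
  refine ⟨fun k => ∑ i ∈ Finset.univ.filter (fun i => e i = k), w i, ⟨?_, ?_⟩, ?_⟩
  · intro k
    exact Finset.sum_nonneg fun i _ => hw.1 i
  · rw [Finset.sum_fiberwise Finset.univ e w]
    exact hw.2
  · have h1 : Aw (fun k => ∑ i ∈ Finset.univ.filter (fun i => e i = k), w i) x = Aw w (fun i => x (e i)) := by
      unfold Aw
      rw [← Finset.sum_fiberwise Finset.univ e (fun i => w i • Sm (x (e i)))]
      refine Finset.sum_congr rfl fun k _ => ?_
      rw [Finset.sum_smul]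
      refine Finset.sum_congr rfl fun i hi => ?_
      rw [(Finset.mem_filter.mp hi).2]
    rw [h1]
    exact hg

end Pool.Agent.BC5
end

section
set_option autoImplicit false
set_option linter.unusedSectionVars false
set_option linter.unusedVariables false
open scoped BigOperators Matrix
open Matrix
namespace Pool.Agent.BC5

/-
ROW Q10. w for x; A := Aw w x; P0 from exists_thr2 (A, ε) commutes with everything commuting with A (so CommL, and with every block E as CommR E). For a block E ≠ Jm: P := E*P0 is a projection ≤ E with qf A ≥ (1-ε) on its range, so trace P ≤ (1/2)^q trace E ≤ φ² trace E. frac_stage_block_le. Union over all blocks (exists_blocks, card_blocks_le).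
If y is good for all E ≠ Jm: weights joinWt w ρ s, Aw = (1-ρ)•A + ρ•avg Sm (Aw_joinWt). For P' as in GoodThr A' ε' p: every f = P' f satisfies τ f·f ≤ qf T f (qf_T_ge), pow_mul_trace_le (M := T, Q := 1, c := τ): τ^(2p) trace P' ≤ trace T^(2p) ≤ (1/2)^p τ^(2p) trace E.
-/

variable {G : Type} [Group G] [Fintype G] [DecidableEq G]

theorem Q10_avg_transpose {s : ℕ} (M : Fin s → Matrix G G ℝ) (hM : ∀ i, (M i)ᵀ = M i) : (avg M)ᵀ = avg M := by
  unfold avg
  rw [Matrix.transpose_smul, Matrix.transpose_sum]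
  simp only [hM]

theorem Q10_conjR_transpose {P : Matrix G G ℝ} (hP : Pᵀ = P) {s : ℕ} (y : Fin s → G) (i : Fin s) :
    (conjR P y i)ᵀ = conjR P y i := by
  unfold conjR
  rw [Matrix.transpose_mul, Matrix.transpose_mul, hP, Rm_transpose, Rm_transpose, inv_inv, Matrix.mul_assoc]

/-- One stage, all blocks. -/
theorem stage_good {ι : Type} [Fintype ι] [DecidableEq ι] (x : ι → G) (ε ε' ρ τ φ : ℝ) (q s p b : ℕ) (hs : 1 ≤ s)
    (hp : 1 ≤ p) (hε : 0 < ε) (hρ0 : 0 < ρ) (hρ1 : ρ < 1) (hτ0 : 0 < τ) (hτ1 : τ < 1 / 2)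
    (h1 : ε' ≤ (1 - 2 * τ) * ((1 - ρ) * ε)) (h2 : ε' ≤ (1 - 2 * τ) * (ρ / 4)) (hφ0 : 0 < φ) (hφ1 : φ ≤ 1)
    (hφ : (1 / 2 : ℝ) ^ q ≤ φ ^ 2)
    (h3 : (2 : ℝ) ^ s * (b : ℝ) ^ p ≤ (τ / 2) ^ p * (s : ℝ) ^ p) (h4 : φ ^ (b + 1) ≤ (τ / 2) ^ p)
    (hx : GoodTuple x ε q) :
    frac (fun y : Fin s → G => ¬ GoodTuple (Sum.elim x y) ε' p) ≤ (kc G : ℝ) * (4 * (1 / 2 : ℝ) ^ p) := by
  classical
  obtain ⟨w, hw, hgood⟩ := hx
  obtain ⟨A, hA⟩ : ∃ A, A = Aw w x := ⟨_, rfl⟩
  rw [← hA] at hgood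
  have hAt : Aᵀ = A := by rw [hA]; exact Aw_transpose w x
  have hAle : ∀ f, qf A f ≤ f ⬝ᵥ f := fun f => by
    rw [hA]; exact (le_abs_self _).trans (abs_qf_Aw_le hw x f)
  obtain ⟨P0, hP0, hP0c, hthr, hthr2⟩ := exists_thr2 A hAt hAle ε hε
  have hP0L : CommL P0 := by
    intro g
    refine (hP0c _ ?_).symm
    rw [hA]
    exact (commL_Aw w x g).symm
  have hEP0 : ∀ E, IsBlock E → Commute E P0 := by
    intro E hE
    refine hP0c _ ?_
    rw [hA]
    exact commute_Aw w x hE.2.2.1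
  have hPpr : ∀ E, IsBlock E → IsPr (E * P0) := fun E hE => hE.1.mul hP0 (hEP0 E hE)
  -- one block
  have hone : ∀ E, IsBlock E → E ≠ Jm G →
      frac (fun y : Fin s → G => (1 / 2 : ℝ) ^ p * τ ^ (2 * p) * E.trace <
        ((avg (conjR (E * P0) y)) ^ (2 * p)).trace) ≤ 4 * (1 / 2 : ℝ) ^ p := by
    intro E hE hne
    have hPL : CommL (E * P0) := fun g => (hE.2.1 g).mul_left (hP0L g)
    have hPE : E * (E * P0) = E * P0 := by rw [← Matrix.mul_assoc, hE.1.2]
    refine frac_stage_block_le hE (hPpr E hE) hPL hPE s p b hs hp φ τ hφ0 hφ1 hτ0 ?_ h3 h4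
    have htr := hgood E hE hne (E * P0) (hPpr E hE) hPL hPE (by
      intro f hf
      refine hthr2 f ?_
      have h5 : P0 * (E * P0) = E * P0 := by
        rw [← Matrix.mul_assoc, ← (hEP0 E hE).eq, Matrix.mul_assoc, hP0.2]
      conv_lhs => rw [← hf, Matrix.mulVec_mulVec, h5]
      exact hf)
    have hEt : 0 ≤ E.trace := by linarith [block_trace_pos hE]
    exact htr.trans (mul_le_mul_of_nonneg_right hφ hEt)
  obtain ⟨B, hB, -⟩ := exists_blocks G
  -- good y
  have hgoody : ∀ y : Fin s → G, ¬ GoodTuple (Sum.elim x y) ε' p →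
      ∃ E ∈ B.erase (Jm G), (1 / 2 : ℝ) ^ p * τ ^ (2 * p) * E.trace <
        ((avg (conjR (E * P0) y)) ^ (2 * p)).trace := by
    intro y hy
    by_contra hcon
    apply hy
    refine ⟨joinWt w ρ s, isWt_joinWt hw hρ0.le hρ1.le hs, ?_⟩
    rw [Aw_joinWt, ← hA]
    intro E hE hne P' hP' hP'L hEP' hf'
    have hle : ((avg (conjR (E * P0) y)) ^ (2 * p)).trace ≤ (1 / 2 : ℝ) ^ p * τ ^ (2 * p) * E.trace := by
      by_contra h'
      exact hcon ⟨E, Finset.mem_erase.2 ⟨hne, (hB E).2 hE⟩, not_le.1 h'⟩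
    have hTt : (avg (conjR (E * P0) y))ᵀ = avg (conjR (E * P0) y) :=
      Q10_avg_transpose _ (fun i => Q10_conjR_transpose (hPpr E hE).1 y i)
    have hpow := pow_mul_trace_le (avg (conjR (E * P0) y)) 1 P' τ hτ0.le hTt IsPr.one
      (Commute.one_right _) hP' (Matrix.one_mul P') (by
        intro f hf
        have hEf : E *ᵥ f = f := by
          conv_lhs => rw [← hf, Matrix.mulVec_mulVec, hEP']
          exact hf
        exact qf_T_ge hE hP0 hP0L (hEP0 E hE) hs y ε ε' ρ τ hε hρ0 hρ1 hτ0 hτ1 h1 h2 hthr hAle f hEf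
          (hf' f hf)) p
    rw [Matrix.one_mul] at hpow
    have hτp : 0 < τ ^ (2 * p) := by positivity
    have h6 : τ ^ (2 * p) * P'.trace ≤ τ ^ (2 * p) * ((1 / 2 : ℝ) ^ p * E.trace) := by
      calc τ ^ (2 * p) * P'.trace ≤ (1 / 2 : ℝ) ^ p * τ ^ (2 * p) * E.trace := hpow.trans hle
        _ = _ := by ring
    exact le_of_mul_le_mul_left h6 hτp
  have hBk : ((B.erase (Jm G)).card : ℝ) ≤ (kc G : ℝ) := by
    have h7 := card_blocks_le (B.erase (Jm G)) (fun E hE => (hB E).1 (Finset.mem_of_mem_erase hE))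
    exact_mod_cast h7
  calc frac (fun y : Fin s → G => ¬ GoodTuple (Sum.elim x y) ε' p)
      ≤ frac (fun y : Fin s → G => ∃ E ∈ B.erase (Jm G), (1 / 2 : ℝ) ^ p * τ ^ (2 * p) * E.trace <
        ((avg (conjR (E * P0) y)) ^ (2 * p)).trace) := frac_mono hgoody
    _ ≤ ∑ E ∈ B.erase (Jm G), frac (fun y : Fin s → G => (1 / 2 : ℝ) ^ p * τ ^ (2 * p) * E.trace <
        ((avg (conjR (E * P0) y)) ^ (2 * p)).trace) := frac_exists_le _ _
    _ ≤ ∑ E ∈ B.erase (Jm G), 4 * (1 / 2 : ℝ) ^ p :=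
        Finset.sum_le_sum (fun E hE => hone E ((hB E).1 (Finset.mem_of_mem_erase hE)) (Finset.ne_of_mem_erase hE))
    _ = ((B.erase (Jm G)).card : ℝ) * (4 * (1 / 2 : ℝ) ^ p) := by rw [Finset.sum_const, nsmul_eq_mul]
    _ ≤ (kc G : ℝ) * (4 * (1 / 2 : ℝ) ^ p) := mul_le_mul_of_nonneg_right hBk (by positivity)

end Pool.Agent.BC5
end

section
set_option autoImplicit false
set_option linter.unusedSectionVars false
set_option linter.unusedVariables false
open scoped BigOperators Matrix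
open Matrix
namespace Pool.Agent.BC5

/-
ROW Q11. stage_good with ρ = 1/(4N), τ = 1/(8N), ε' = (1-1/(4N))² ε (h1 equality, h2: ε' ≤ (1-1/(4N))/(32N)·... ≤ (1-1/(4N)) (1/(16N))), s = 1024N²R, b = 16NR, p = Rq, φ = sqrt((1/2)^q). h3: s = 64N·b·..: (τ/2) s = 64NR = 4b, so it is 2^s ≤ 4^p, i.e. 1024N²R ≤ 2Rq. h4: φ^(b+1) ≤ φ^(16NR) = (1/2)^(8NRq) = ((1/2)^(8N))^(Rq) ≤ (1/(16N))^(Rq) since 16N ≤ 2^(8N).
-/

variable {G : Type} [Group G] [Fintype G] [DecidableEq G]

/-- One stage with the numbers: `N` rounds are planned, the exponent is multiplied by `R`. -/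
theorem stage_numbers {ι : Type} [Fintype ι] [DecidableEq ι] (x : ι → G) (N R q : ℕ) (hN : 1 ≤ N) (hR : 1 ≤ R)
    (hq : 512 * N ^ 2 ≤ q) (ε : ℝ) (hε : 0 < ε) (hε1 : ε ≤ 1 / (32 * N)) (hx : GoodTuple x ε q) :
    frac (fun y : Fin (1024 * N ^ 2 * R) → G =>
        ¬ GoodTuple (Sum.elim x y) ((1 - 1 / (4 * (N : ℝ))) ^ 2 * ε) (R * q))
      ≤ (kc G : ℝ) * (4 * (1 / 2 : ℝ) ^ (R * q)) := by
  have hn : (1 : ℝ) ≤ (N : ℝ) := by exact_mod_cast hN
  have hn0 : (0 : ℝ) < (N : ℝ) := by linarith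
  have hr : (1 : ℝ) ≤ (R : ℝ) := by exact_mod_cast hR
  have hN2 : 1 ≤ N ^ 2 := Nat.one_le_pow _ _ hN
  have hρ : (1 : ℝ) / (4 * N) ≤ 1 / 4 := by
    apply one_div_le_one_div_of_le <;> linarith
  have hρ0 : (0 : ℝ) < 1 / (4 * N) := by positivity
  have hq0 : (0 : ℝ) < (1 / 2 : ℝ) ^ q := by positivity
  have hq1 : (1 / 2 : ℝ) ^ q ≤ 1 := pow_le_one₀ (by norm_num) (by norm_num)
  have hφ0 : 0 < Real.sqrt ((1 / 2 : ℝ) ^ q) := Real.sqrt_pos.2 hq0
  have hφ1 : Real.sqrt ((1 / 2 : ℝ) ^ q) ≤ 1 := Real.sqrt_le_one.mpr hq1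
  have hφ2 : Real.sqrt ((1 / 2 : ℝ) ^ q) ^ 2 = (1 / 2 : ℝ) ^ q := Real.sq_sqrt hq0.le
  have hτ : (1 : ℝ) / (8 * N) = 1 / (4 * N) / 2 := by
    field_simp
    norm_num
  refine stage_good x ε _ (1 / (4 * (N : ℝ))) (1 / (8 * (N : ℝ))) (Real.sqrt ((1 / 2 : ℝ) ^ q)) q
    (1024 * N ^ 2 * R) (R * q) (16 * N * R) ?_ ?_ hε hρ0 (by linarith) (by positivity) ?_ ?_ ?_ hφ0 hφ1
    hφ2.ge ?_ ?_ hx
  · exact Nat.one_le_iff_ne_zero.2 (by positivity)
  · have : 1 ≤ q := by nlinarith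
    exact Nat.one_le_iff_ne_zero.2 (by positivity)
  · rw [hτ]
    linarith
  · rw [hτ]
    apply le_of_eq
    ring
  · rw [hτ]
    have h1 : (1 : ℝ) / (32 * N) = 1 / (4 * N) / 8 := by
      field_simp
      norm_num
    rw [h1] at hε1
    set r : ℝ := 1 / (4 * N) with hr'
    have h2 : (1 - r) * ε ≤ r / 4 := by nlinarith
    have h3 : (1 - r) ^ 2 * ε = (1 - r) * ((1 - r) * ε) := by ring
    have h4 : 1 - 2 * (r / 2) = 1 - r := by ring
    rw [h3, h4]
    exact mul_le_mul_of_nonneg_left h2 (by linarith)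
  · have h1 : (1 : ℝ) / (8 * N) / 2 * ((1024 * N ^ 2 * R : ℕ) : ℝ) = 4 * ((16 * N * R : ℕ) : ℝ) := by
      push_cast
      field_simp
      norm_num
    rw [← mul_pow, h1, mul_pow]
    have h2 : (2 : ℝ) ^ (1024 * N ^ 2 * R) ≤ 4 ^ (R * q) := by
      have h3 : (4 : ℝ) = 2 ^ 2 := by norm_num
      rw [h3, ← pow_mul]
      apply pow_le_pow_right₀ (by norm_num)
      nlinarith [Nat.mul_le_mul_left R hq]
    exact mul_le_mul_of_nonneg_right h2 (by positivity)
  · have h1 : Real.sqrt ((1 / 2 : ℝ) ^ q) ^ (16 * N * R + 1) ≤ Real.sqrt ((1 / 2 : ℝ) ^ q) ^ (16 * N * R) :=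
      pow_le_pow_of_le_one hφ0.le hφ1 (Nat.le_succ _)
    refine h1.trans ?_
    have h2 : 16 * N * R = 2 * (8 * N * R) := by ring
    rw [h2, pow_mul, hφ2, ← pow_mul]
    have h3 : q * (8 * N * R) = (8 * N) * (R * q) := by ring
    rw [h3, pow_mul]
    apply pow_le_pow_left₀ (by positivity)
    have h4 : (16 * N : ℝ) ≤ 2 ^ (8 * N) := by
      have h5 : N ≤ 2 ^ N := Nat.lt_two_pow_self.le
      have h6 : 16 * N ≤ 2 ^ (8 * N) := by
        calc 16 * N ≤ 16 * 2 ^ N := Nat.mul_le_mul_left _ h5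
          _ = 2 ^ (4 + N) := by rw [pow_add]; norm_num
          _ ≤ 2 ^ (8 * N) := Nat.pow_le_pow_right (by norm_num) (by omega)
      exact_mod_cast h6
    have h5 : (1 : ℝ) / (8 * N) / 2 = 1 / (16 * N) := by
      field_simp
      norm_num
    rw [h5, _root_.one_div_pow]
    exact one_div_le_one_div_of_le (by positivity) h4

end Pool.Agent.BC5
end

section
set_option autoImplicit false
set_option linter.unusedSectionVars false
set_option linter.unusedVariables false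
open scoped BigOperators Matrix
open Matrix
namespace Pool.Agent.BC5

/-
ROW Q12. Induction on j: ι ≃ ι' ⊕ Fin s with ι' := Fin (s0 + j*s) (card equality; j+1: s0 + (j+1)*s = (s0 + j*s) + s), frac_two_stages with P := GoodTuple · ε_j (R^j q), stage_numbers (512N² ≤ R^j q, ε_j ≤ 1/(32N)), R*(R^j*q) = R^(j+1)*q (ring), 4 (1/2)^(R^(j+1) q) ≤ 4 (1/2)^q. Relabelling: frac_equiv and GoodTuple.comp in both directions.
-/

variable {G : Type} [Group G] [Fintype G] [DecidableEq G]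

/-- Iteration of the stage. -/
theorem iterate_good (N R q s0 : ℕ) (hN : 1 ≤ N) (hR : 1 ≤ R) (hq : 512 * N ^ 2 ≤ q) (ε δ : ℝ) (hε : 0 < ε)
    (hε1 : ε ≤ 1 / (32 * N))
    (h0 : ∀ (ι : Type) [Fintype ι] [DecidableEq ι], Fintype.card ι = s0 →
      frac (fun z : ι → G => ¬ GoodTuple z ε q) ≤ δ) (j : ℕ) :
    ∀ (ι : Type) [Fintype ι] [DecidableEq ι], Fintype.card ι = s0 + j * (1024 * N ^ 2 * R) →
      frac (fun z : ι → G => ¬ GoodTuple z (((1 - 1 / (4 * (N : ℝ))) ^ 2) ^ j * ε) (R ^ j * q))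
        ≤ δ + j * ((kc G : ℝ) * (4 * (1 / 2 : ℝ) ^ q)) := by
  classical
  have hN0 : (1 : ℝ) ≤ (N : ℝ) := by exact_mod_cast hN
  have hc0 : 0 < 1 - 1 / (4 * (N : ℝ)) := by
    have : 1 / (4 * (N : ℝ)) ≤ 1 / 4 := by
      apply one_div_le_one_div_of_le <;> linarith
    linarith
  have hc1 : 1 - 1 / (4 * (N : ℝ)) ≤ 1 := by
    have : 0 ≤ 1 / (4 * (N : ℝ)) := by positivity
    linarith
  have hkc : (0 : ℝ) ≤ (kc G : ℝ) := Nat.cast_nonneg _
  induction j with
  | zero =>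
    intro ι _ _ hcard
    have h := h0 ι (by rw [hcard]; ring)
    simpa using h
  | succ j ih =>
    intro ι _ _ hcard
    have hs : Fintype.card (Fin (s0 + j * (1024 * N ^ 2 * R)) ⊕ Fin (1024 * N ^ 2 * R)) = Fintype.card ι := by
      rw [Fintype.card_sum, Fintype.card_fin, Fintype.card_fin, hcard]
      ring
    have e : Fin (s0 + j * (1024 * N ^ 2 * R)) ⊕ Fin (1024 * N ^ 2 * R) ≃ ι := Fintype.equivOfCardEq hs
    have hεj : 0 < ((1 - 1 / (4 * (N : ℝ))) ^ 2) ^ j * ε := by positivity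
    have hεj1 : ((1 - 1 / (4 * (N : ℝ))) ^ 2) ^ j * ε ≤ 1 / (32 * N) := by
      have h1 : ((1 - 1 / (4 * (N : ℝ))) ^ 2) ^ j ≤ 1 := by
        apply pow_le_one₀ (by positivity)
        exact pow_le_one₀ hc0.le hc1
      calc ((1 - 1 / (4 * (N : ℝ))) ^ 2) ^ j * ε ≤ 1 * ε := mul_le_mul_of_nonneg_right h1 hε.le
        _ ≤ 1 / (32 * N) := by rw [one_mul]; exact hε1
    have hRj : 1 ≤ R ^ j := Nat.one_le_pow _ _ hR
    have hqj : 512 * N ^ 2 ≤ R ^ j * q := hq.trans (Nat.le_mul_of_pos_left q hRj)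
    have hqq : q ≤ R * (R ^ j * q) :=
      (Nat.le_mul_of_pos_left q hRj).trans (Nat.le_mul_of_pos_left _ hR)
    have key := frac_two_stages (H := G)
      (P := fun x : Fin (s0 + j * (1024 * N ^ 2 * R)) → G =>
        GoodTuple x (((1 - 1 / (4 * (N : ℝ))) ^ 2) ^ j * ε) (R ^ j * q))
      (Q := fun z : Fin (s0 + j * (1024 * N ^ 2 * R)) ⊕ Fin (1024 * N ^ 2 * R) → G =>
        GoodTuple z (((1 - 1 / (4 * (N : ℝ))) ^ 2) ^ (j + 1) * ε) (R ^ (j + 1) * q))
      (δ + j * ((kc G : ℝ) * (4 * (1 / 2 : ℝ) ^ q))) ((kc G : ℝ) * (4 * (1 / 2 : ℝ) ^ q))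
      (ih (Fin (s0 + j * (1024 * N ^ 2 * R))) (Fintype.card_fin _)) (by positivity)
      (by
        intro x hx
        have h := stage_numbers x N R (R ^ j * q) hN hR hqj _ hεj hεj1 hx
        have e1 : ((1 - 1 / (4 * (N : ℝ))) ^ 2) ^ (j + 1) * ε =
            (1 - 1 / (4 * (N : ℝ))) ^ 2 * (((1 - 1 / (4 * (N : ℝ))) ^ 2) ^ j * ε) := by
          rw [pow_succ]; ring
        have e2 : R ^ (j + 1) * q = R * (R ^ j * q) := by rw [pow_succ]; ring
        rw [e1, e2]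
        refine h.trans ?_
        apply mul_le_mul_of_nonneg_left _ hkc
        apply mul_le_mul_of_nonneg_left _ (by norm_num)
        exact pow_le_pow_of_le_one (by norm_num) (by norm_num) hqq)
    rw [← frac_equiv (Equiv.arrowCongr e (Equiv.refl G))
      (fun z : ι → G => ¬ GoodTuple z (((1 - 1 / (4 * (N : ℝ))) ^ 2) ^ (j + 1) * ε) (R ^ (j + 1) * q))]
    refine (frac_mono ?_).trans (key.trans (le_of_eq ?_))
    · intro w hw hgood
      apply hw
      apply GoodTuple.comp e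
      have : (fun i => (Equiv.arrowCongr e (Equiv.refl G)) w (e i)) = w := by
        funext i
        simp [Equiv.arrowCongr]
      rw [this]
      exact hgood
    · push_cast
      ring

end Pool.Agent.BC5
end

section
set_option autoImplicit false
set_option linter.unusedSectionVars false
set_option linter.unusedVariables false
open scoped BigOperators Matrix
open Matrix
namespace Pool.Agent.BC5

/-
ROW Q13. exists_top (A, E): lam, P ≠ 0. If lam ≥ 1-ε then P is as in GoodThr (CommL: P commutes with what commutes with A and E), so 1 ≤ trace P ≤ (1/2)^q trace E ≤ (1/2)^q card G < 1 (trace E ≤ card G = trace 1, as 1-E is a projection), contradiction. So lam < 1-ε and qf A f ≤ lam f·f.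
-/

variable {G : Type} [Group G] [Fintype G] [DecidableEq G]

/-- From relative dimension smaller than `1/|G|` to the gap. -/
theorem gap_of_good {A : Matrix G G ℝ} (hA : Aᵀ = A) (hAL : CommL A)
    (hAc : ∀ X : Matrix G G ℝ, CommR X → Commute X A) {ε : ℝ} {q : ℕ} (h : GoodThr A ε q)
    (hq : Fintype.card G < 2 ^ q) :
    ∀ E, IsBlock E → E ≠ Jm G → ∀ f, E *ᵥ f = f → qf A f ≤ (1 - ε) * (f ⬝ᵥ f) := by
  intro E hE hEJ f hf
  obtain ⟨lam, P, hP, hP0, hQP, hMP, hle, hcomm⟩ :=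
    exists_top A E hA hE.1 hE.2.2.2.1 (hAc E hE.2.2.1).symm
  have hlam : lam ≤ 1 - ε := by
    by_contra hcon
    rw [not_le] at hcon
    have hPL : CommL P := fun g => (hcomm (Lm g) (hAL g).symm (hE.2.1 g).symm).symm
    have h1 := h E hE hEJ P hP hPL hQP (fun v hv => by
      have hAv : A *ᵥ v = lam • v := by
        calc A *ᵥ v = A *ᵥ (P *ᵥ v) := by rw [hv]
          _ = (A * P) *ᵥ v := by rw [Matrix.mulVec_mulVec]
          _ = (lam • P) *ᵥ v := by rw [hMP]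
          _ = lam • (P *ᵥ v) := by rw [Matrix.smul_mulVec]
          _ = lam • v := by rw [hv]
      have : qf A v = lam * (v ⬝ᵥ v) := by
        unfold qf
        rw [hAv, dotProduct_smul, smul_eq_mul]
      rw [this]
      exact mul_le_mul_of_nonneg_right hcon.le (dot_self_nonneg v))
    have h2 := one_le_trace hP hP0
    have h3 : E.trace ≤ (Fintype.card G : ℝ) := by
      have h4 := trace_pr_nonneg (IsPr.compl hE.1)
      rw [Matrix.trace_sub, Matrix.trace_one] at h4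
      linarith
    have h5 : (Fintype.card G : ℝ) < 2 ^ q := by exact_mod_cast hq
    have h6 : (1 / 2 : ℝ) ^ q * E.trace ≤ (1 / 2 : ℝ) ^ q * (Fintype.card G : ℝ) :=
      mul_le_mul_of_nonneg_left h3 (by positivity)
    have h7 : (1 / 2 : ℝ) ^ q * (Fintype.card G : ℝ) < (1 / 2 : ℝ) ^ q * 2 ^ q :=
      mul_lt_mul_of_pos_left h5 (by positivity)
    have h8 : (1 / 2 : ℝ) ^ q * 2 ^ q = 1 := by
      rw [← mul_pow]
      norm_num
    linarith
  exact (hle f hf).trans (mul_le_mul_of_nonneg_right hlam (dot_self_nonneg f))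

end Pool.Agent.BC5
end

section
set_option autoImplicit false
set_option linter.unusedSectionVars false
set_option linter.unusedVariables false
open scoped BigOperators Matrix
open Matrix
namespace Pool.Agent.BC5

/-
ROW Q14. The same as row H8 (expansion_of_hasGap, bc5_H8.lean) for a general group. f := indicator of A - card A/card G. f·f ≥ |A|/2; Jm f = 0. With the blocks (exists_blocks): f = ∑ E f over E ≠ Jm, qf (Aw w x) f = ∑ qf (Aw w x) (E f) ≤ (1-ε) ∑ (Ef)·(Ef) = (1-ε) f·f. So ∑ w i (f·f - qf(Sm(x i)) f) ≥ ε|A|/2, so some i has f·f - qf(Sm(x i)) f ≥ ε|A|/2, = #{y ∉ A : y*(x i)⁻¹ ∈ A} (or with x i).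
-/

variable {G : Type} [Group G] [Fintype G] [DecidableEq G]

/-- From the gap to the vertex expansion, any finite group. -/
theorem expansion_general {ι : Type} [Fintype ι] (x : ι → G) (w : ι → ℝ) (hw : IsWt w) {ε : ℝ} (hε : 0 < ε)
    (h : ∀ E, IsBlock E → E ≠ Jm G → ∀ f, E *ᵥ f = f → qf (Aw w x) f ≤ (1 - ε) * (f ⬝ᵥ f)) (A : Set G)
    (hA : 2 * Nat.card A ≤ Nat.card G) :
    ε / 2 * (Nat.card A : ℝ) ≤ (Nat.card {g : G // g ∉ A ∧ ∃ a ∈ A, ∃ i : ι, g = a * x i ∨ g = a * (x i)⁻¹} : ℝ) := by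
  classical
  obtain ⟨B, hB, hsum⟩ := exists_blocks G
  obtain ⟨a, ha⟩ : ∃ a : ℝ, a = ∑ y : G, (if y ∈ A then (1 : ℝ) else 0) := ⟨_, rfl⟩
  obtain ⟨N, hN⟩ : ∃ N : ℝ, N = Fintype.card G := ⟨_, rfl⟩
  have hN0 : 0 < N := by
    rw [hN]; exact_mod_cast Fintype.card_pos
  have hcard : (Nat.card A : ℝ) = a := by
    rw [ha, Nat.card_eq_fintype_card, Finset.sum_boole]
    congr 1
    rw [Fintype.card_subtype]
  have hNc : (Nat.card G : ℝ) = N := by
    rw [hN, Nat.card_eq_fintype_card]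
  have h2a : 2 * a ≤ N := by
    rw [← hcard, ← hNc]; exact_mod_cast hA
  have ha0 : 0 ≤ a := by
    rw [← hcard]; positivity
  obtain ⟨hff, hJ⟩ := H8_norm A a N ha hN
  obtain ⟨f, hf⟩ : ∃ f : G → ℝ, f = fun y : G => (if y ∈ A then (1 : ℝ) else 0) - a / N := ⟨_, rfl⟩
  rw [← hf] at hff hJ
  -- lower bound of the norm
  have hlow : a / 2 ≤ f ⬝ᵥ f := by
    rw [hff]
    have : a * a / N ≤ a / 2 := by
      rw [div_le_div_iff₀ hN0 (by norm_num)]
      nlinarith
    linarith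
  -- the gap
  have hM : ∀ E ∈ B, Commute E (Aw w x) := fun E hE => commute_Aw w x ((hB E).mp hE).2.2.1
  have hPr : ∀ E ∈ B, IsPr E := fun E hE => ((hB E).mp hE).1
  have hs1 := H8_split B hPr hsum (Aw w x) hM f
  have hs2 := H8_split B hPr hsum 1 (fun E _ => Commute.one_right E) f
  have hterm : ∀ E ∈ B, qf (Aw w x) (E *ᵥ f) ≤ (1 - ε) * qf 1 (E *ᵥ f) := by
    intro E hE
    by_cases hEJ : E = Jm G
    · rw [hEJ, hJ]
      simp [qf]
    · have hblk := (hB E).mp hE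
      rw [qf_one]
      refine h E hblk hEJ _ ?_
      rw [Matrix.mulVec_mulVec, hblk.1.2]
  have hgapf : qf (Aw w x) f ≤ (1 - ε) * (f ⬝ᵥ f) := by
    rw [hs1, ← qf_one, hs2, Finset.mul_sum]
    exact Finset.sum_le_sum hterm
  -- upper bound by the boundary
  obtain ⟨K, hK⟩ : ∃ K : ℕ, K = Nat.card {g : G // g ∉ A ∧ ∃ a ∈ A, ∃ i : ι, g = a * x i ∨ g = a * (x i)⁻¹} :=
    ⟨_, rfl⟩
  have hup : ∀ i : ι, f ⬝ᵥ f - qf (Sm (x i)) f ≤ K := by
    intro i
    rw [qf_Sm, hf, H8_half]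
    rw [hK, Nat.card_eq_fintype_card, Fintype.card_subtype]
    norm_cast
    refine Finset.card_le_card ?_
    intro y hy
    rw [Finset.mem_filter] at hy ⊢
    refine ⟨Finset.mem_univ _, hy.2.1, y * (x i)⁻¹, hy.2.2, i, Or.inl ?_⟩
    group
  rw [← hK, hcard]
  have hsumt : f ⬝ᵥ f - qf (Aw w x) f = ∑ i, w i * (f ⬝ᵥ f - qf (Sm (x i)) f) := by
    have e1 : ∑ i, w i * (f ⬝ᵥ f - qf (Sm (x i)) f) = (∑ i, w i) * (f ⬝ᵥ f) - ∑ i, w i * qf (Sm (x i)) f := by
      rw [Finset.sum_mul, ← Finset.sum_sub_distrib]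
      exact Finset.sum_congr rfl fun i _ => by ring
    rw [e1, hw.2, one_mul]
    congr 1
    unfold Aw
    rw [qf_sum]
    exact Finset.sum_congr rfl fun i _ => qf_smul _ _ _
  have hfin : f ⬝ᵥ f - qf (Aw w x) f ≤ K := by
    rw [hsumt]
    calc ∑ i, w i * (f ⬝ᵥ f - qf (Sm (x i)) f) ≤ ∑ i, w i * (K : ℝ) :=
          Finset.sum_le_sum fun i _ => mul_le_mul_of_nonneg_left (hup i) (hw.1 i)
      _ = K := by rw [← Finset.sum_mul, hw.2, one_mul]
  have : ε * (a / 2) ≤ ε * (f ⬝ᵥ f) := mul_le_mul_of_nonneg_left hlow hε.le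
  linarith

end Pool.Agent.BC5
end

section
set_option autoImplicit false
set_option linter.unusedSectionVars false
set_option linter.unusedVariables false
open scoped BigOperators Matrix
open Matrix
namespace Pool.Agent.BC5

/-
ROW Q15. expansion_of_good: gap_of_good for A := Aw w x (Aw_transpose, commL_Aw, commute_Aw), expansion_general. trace_ge_of_submodules: W := {f | E *ᵥ f = f} (or LinearMap.range of mulVecLin E); finrank W = rank = trace E for the idempotent E (see row L1, one_le_trace); W ≠ ⊥; Jm*E = 0 (E ≠ Jm) gives ∑ f = 0; translations are Rm g, Lm g⁻¹.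
-/

variable {G : Type} [Group G] [Fintype G] [DecidableEq G]

/-- Expansion of good tuples. -/
theorem expansion_of_good {ι : Type} [Fintype ι] {x : ι → G} {ε : ℝ} (hε : 0 < ε) {q : ℕ} (h : GoodTuple x ε q)
    (hq : Fintype.card G < 2 ^ q) (A : Set G) (hA : 2 * Nat.card A ≤ Nat.card G) :
    ε / 2 * (Nat.card A : ℝ) ≤ (Nat.card {g : G // g ∉ A ∧ ∃ a ∈ A, ∃ i : ι, g = a * x i ∨ g = a * (x i)⁻¹} : ℝ) := by
  obtain ⟨w, hw, hg⟩ := h
  exact expansion_general x w hw hε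
    (gap_of_good (Aw_transpose w x) (commL_Aw w x) (fun X hX => commute_Aw w x hX) hg hq) A hA

/-- The dimension of a block in terms of invariant subspaces. -/
theorem trace_ge_of_submodules (D : ℕ)
    (hD : ∀ W : Submodule ℝ (G → ℝ), W ≠ ⊥ → (∀ f ∈ W, ∑ x, f x = 0) →
      (∀ f ∈ W, ∀ g : G, (fun x => f (x * g)) ∈ W ∧ (fun x => f (g * x)) ∈ W) → D ≤ Module.finrank ℝ W)
    {E : Matrix G G ℝ} (hE : IsBlock E) (hEJ : E ≠ Jm G) : (D : ℝ) ≤ E.trace := by
  classical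
  set T : (G → ℝ) →ₗ[ℝ] (G → ℝ) := Matrix.toLin' E with hT
  have hTa : ∀ f, T f = E *ᵥ f := fun f => Matrix.toLin'_apply E f
  have hTT : ∀ f, T (T f) = T f := by
    intro f
    rw [hTa, hTa, Matrix.mulVec_mulVec, hE.1.2]
  have hproj : LinearMap.IsProj (LinearMap.range T) T := by
    refine ⟨fun f => LinearMap.mem_range_self T f, ?_⟩
    rintro f ⟨g, rfl⟩
    exact hTT g
  have htr : E.trace = (Module.finrank ℝ (LinearMap.range T) : ℝ) := by
    rw [← hproj.trace, hT, Matrix.trace_toLin'_eq]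
  have hfix : ∀ f ∈ LinearMap.range T, E *ᵥ f = f := by
    rintro f ⟨g, rfl⟩
    rw [← hTa, hTT]
  have hmem : ∀ f, E *ᵥ f = f → f ∈ LinearMap.range T := by
    intro f hf
    exact ⟨f, by rw [hTa, hf]⟩
  have hJE : Jm G * E = 0 := by
    rcases block_eq_or_mul_eq_zero (Jm_isBlock (G := G)) hE with h | h
    · exact absurd h.symm hEJ
    · exact h
  have h := hD (LinearMap.range T) ?_ ?_ ?_
  · rw [htr]
    exact_mod_cast h
  · intro hbot
    apply hE.2.2.2.1
    apply Matrix.ext_of_mulVec_single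
    intro i
    have h1 : T (Pi.single i 1) ∈ LinearMap.range T := LinearMap.mem_range_self T _
    rw [hbot, Submodule.mem_bot, hTa] at h1
    rw [h1, Matrix.zero_mulVec]
  · intro f hf
    have h1 : Jm G *ᵥ f = 0 := by
      rw [← hfix f hf, Matrix.mulVec_mulVec, hJE, Matrix.zero_mulVec]
    have h2 := congrFun h1 1
    simp only [Jm, Matrix.mulVec, dotProduct, Matrix.of_apply, Pi.zero_apply] at h2
    rw [← Finset.mul_sum] at h2
    have h3 : ((Fintype.card G : ℝ))⁻¹ ≠ 0 := by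
      apply inv_ne_zero
      exact_mod_cast Fintype.card_ne_zero
    exact (mul_eq_zero.1 h2).resolve_left h3
  · intro f hf g
    constructor
    · have h1 : (fun x => f (x * g)) = Rm g *ᵥ f := by
        funext x
        rw [Rm_mulVec]
      rw [h1]
      apply hmem
      rw [Matrix.mulVec_mulVec, (hE.2.2.1 g).eq, ← Matrix.mulVec_mulVec, hfix f hf]
    · have h1 : (fun x => f (g * x)) = Lm g⁻¹ *ᵥ f := by
        funext x
        rw [Lm_mulVec, inv_inv]
      rw [h1]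
      apply hmem
      rw [Matrix.mulVec_mulVec, (hE.2.1 g⁻¹).eq, ← Matrix.mulVec_mulVec, hfix f hf]

end Pool.Agent.BC5
end

section
set_option autoImplicit false
set_option linter.unusedSectionVars false
set_option linter.unusedVariables false
open scoped BigOperators Matrix
open Matrix
namespace Pool.Agent.BC5

/-
ROW Q16. general_explicit: h0 := base_good with p := q, s := 512q on ι ≃ Fin s0 (mono: ε = 1/(32J)), δ = kc (1/8)^q; iterate_good with N := J, j := J; ((1-1/(4J))²)^J ≥ 1 - 2J/(4J) = 1/2 (one_add_mul_le_pow): ε ≥ 1/(64J); restrict to the first coordinates: e : Fin (s0 + J*s) → Fin m, GoodTuple.comp, frac_comp_injective.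
general2_explicit: N := J+1: base_good2 (q = 3p), iterate_good with R := R1, j := 1 gives a new h0 (s0' = 512p + 1024N²R1, q' = R1*(3p), δ' = ...), then iterate_good with R, j := J. Total factor ((1-1/(4N))²)^(J+1) ≥ 1/2, 1/(64(J+1)) ≥ 1/(128J).
-/

variable {G : Type} [Group G] [Fintype G] [DecidableEq G]

theorem Q16_factor (N j : ℕ) (hN : 1 ≤ N) (hj : j ≤ N) :
    (1 / 2 : ℝ) ≤ ((1 - 1 / (4 * (N : ℝ))) ^ 2) ^ j := by
  have hN' : (1 : ℝ) ≤ N := by exact_mod_cast hN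
  have hj' : (j : ℝ) ≤ N := by exact_mod_cast hj
  have h1 : 1 / (4 * (N : ℝ)) ≤ 1 := by
    rw [div_le_one (by positivity)]
    linarith
  have h2 := one_add_mul_le_pow (a := -(1 / (4 * (N : ℝ)))) (by linarith) (2 * j)
  rw [← pow_mul]
  have h3 : (1 : ℝ) + ((2 * j : ℕ) : ℝ) * -(1 / (4 * (N : ℝ))) = 1 - (j : ℝ) / (2 * N) := by
    push_cast
    field_simp
    ring
  have h4 : (j : ℝ) / (2 * N) ≤ 1 / 2 := by
    rw [div_le_div_iff₀ (by positivity) (by norm_num)]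
    linarith
  have h5 : (1 - 1 / (4 * (N : ℝ))) = 1 + -(1 / (4 * (N : ℝ))) := by ring
  rw [h5]
  calc (1 / 2 : ℝ) ≤ 1 - (j : ℝ) / (2 * N) := by linarith
    _ = 1 + ((2 * j : ℕ) : ℝ) * -(1 / (4 * (N : ℝ))) := h3.symm
    _ ≤ _ := h2

/-- Transfer of a bound to a larger index set. -/
theorem Q16_transfer {ι κ : Type} [Fintype ι] [DecidableEq ι] [Fintype κ] [DecidableEq κ] (e : ι → κ)
    (he : Function.Injective e) (ε ε' : ℝ) (q q' : ℕ) (hε : ε' ≤ ε) (hq : q' ≤ q) :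
    frac (fun x : κ → G => ¬ GoodTuple x ε' q') ≤ frac (fun x : ι → G => ¬ GoodTuple x ε q) := by
  rw [← frac_comp_injective e he (fun x : ι → G => ¬ GoodTuple x ε q)]
  refine frac_mono ?_
  intro x hx h
  exact hx ((h.comp e).mono hε hq)

/-- One round. -/
theorem Q16_round (N R q s0 : ℕ) (hN : 1 ≤ N) (hR : 1 ≤ R) (hq : 512 * N ^ 2 ≤ q) (ε δ : ℝ) (hε : 0 < ε)
    (hε1 : ε ≤ 1 / (32 * N))
    (h0 : ∀ (ι : Type) [Fintype ι] [DecidableEq ι], Fintype.card ι = s0 →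
      frac (fun z : ι → G => ¬ GoodTuple z ε q) ≤ δ) :
    ∀ (ι : Type) [Fintype ι] [DecidableEq ι], Fintype.card ι = s0 + 1024 * N ^ 2 * R →
      frac (fun z : ι → G => ¬ GoodTuple z ((1 - 1 / (4 * (N : ℝ))) ^ 2 * ε) (R * q))
        ≤ δ + (kc G : ℝ) * (4 * (1 / 2 : ℝ) ^ (R * q)) := by
  intro ι _ _ hc
  have e : Fin s0 ⊕ Fin (1024 * N ^ 2 * R) ≃ ι := Fintype.equivOfCardEq (by simp [hc])
  refine (Q16_transfer e e.injective _ _ _ _ le_rfl le_rfl).trans ?_
  refine frac_two_stages (fun x : Fin s0 → G => GoodTuple x ε q)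
    (fun z : Fin s0 ⊕ Fin (1024 * N ^ 2 * R) → G =>
      GoodTuple z ((1 - 1 / (4 * (N : ℝ))) ^ 2 * ε) (R * q)) _ _
    (h0 (Fin s0) (by simp)) (by positivity) ?_
  intro x hx
  exact stage_numbers x N R q hN hR hq ε hε hε1 hx

/-- Theorem P1 with integer parameters. -/
theorem general_explicit (J R q m : ℕ) (hJ : 1 ≤ J) (hR : 1 ≤ R) (hq : 512 * J ^ 2 ≤ q) (hk : 1 ≤ kc G)
    (hG : Fintype.card G < 2 ^ (R ^ J * q)) (hm : 512 * q + J * (1024 * J ^ 2 * R) ≤ m) :
    frac (fun x : Fin m → G => ¬ GoodTuple x (1 / (64 * J)) (R ^ J * q))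
      ≤ (kc G : ℝ) * (4 * ((J : ℝ) + 1) * (1 / 2 : ℝ) ^ q) := by
  have hJ' : (1 : ℝ) ≤ J := by exact_mod_cast hJ
  have hq1 : 1 ≤ q := by
    have : 1 ≤ J ^ 2 := Nat.one_le_pow _ _ hJ
    omega
  have h0 : ∀ (ι : Type) [Fintype ι] [DecidableEq ι], Fintype.card ι = 512 * q →
      frac (fun z : ι → G => ¬ GoodTuple z (1 / (32 * (J : ℝ))) q) ≤ (kc G : ℝ) * (1 / 8 : ℝ) ^ q := by
    intro ι _ _ hc
    have e : Fin (512 * q) ≃ ι := Fintype.equivOfCardEq (by simp [hc])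
    refine (Q16_transfer e e.injective (1 / 2) _ q _ ?_ le_rfl).trans (base_good q (512 * q) hq1 le_rfl)
    rw [div_le_div_iff₀ (by positivity) (by norm_num)]
    linarith
  have h1 := iterate_good J R q (512 * q) hJ hR hq (1 / (32 * (J : ℝ))) _ (by positivity) le_rfl h0 J
    (Fin (512 * q + J * (1024 * J ^ 2 * R))) (by simp)
  have hf := Q16_factor J J hJ le_rfl
  have h2 : (1 : ℝ) / (64 * J) ≤ ((1 - 1 / (4 * (J : ℝ))) ^ 2) ^ J * (1 / (32 * (J : ℝ))) := by
    calc (1 : ℝ) / (64 * J) = 1 / 2 * (1 / (32 * (J : ℝ))) := by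
          field_simp
          ring
      _ ≤ _ := mul_le_mul_of_nonneg_right hf (by positivity)
  refine (Q16_transfer (Fin.castLE hm) (Fin.castLE_injective hm) _ _ _ _ h2 le_rfl).trans (h1.trans ?_)
  have h8 : (1 / 8 : ℝ) ^ q ≤ (1 / 2 : ℝ) ^ q := pow_le_pow_left₀ (by norm_num) (by norm_num) q
  have hp : (0 : ℝ) ≤ (1 / 2 : ℝ) ^ q := by positivity
  have hk0 : (0 : ℝ) ≤ (kc G : ℝ) := Nat.cast_nonneg _
  have e1 : (kc G : ℝ) * (4 * ((J : ℝ) + 1) * (1 / 2 : ℝ) ^ q)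
      = (kc G : ℝ) * (4 * (1 / 2 : ℝ) ^ q) + J * ((kc G : ℝ) * (4 * (1 / 2 : ℝ) ^ q)) := by ring
  rw [e1]
  have e2 : (kc G : ℝ) * (1 / 8 : ℝ) ^ q ≤ (kc G : ℝ) * (4 * (1 / 2 : ℝ) ^ q) :=
    mul_le_mul_of_nonneg_left (by linarith) hk0
  linarith

/-- Theorem P2 with integer parameters (`N = J + 1` rounds, the first one with `R1`). -/
theorem general2_explicit (J R R1 p m : ℕ) (hJ : 1 ≤ J) (hR : 1 ≤ R) (hR1 : 1 ≤ R1) (hp : 512 * (J + 1) ^ 2 ≤ 3 * p)
    (hk : 1 ≤ kc G) (D : ℝ) (hD : 0 < D) (hDE : ∀ E : Matrix G G ℝ, IsBlock E → E ≠ Jm G → D ≤ E.trace)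
    (hm : 512 * p + 1024 * (J + 1) ^ 2 * R1 + J * (1024 * (J + 1) ^ 2 * R) ≤ m) :
    frac (fun x : Fin m → G => ¬ GoodTuple x (1 / (128 * J)) (R ^ J * (R1 * (3 * p))))
      ≤ (kc G : ℝ) * ((64 : ℝ) ^ (2 * p) / D) + (kc G : ℝ) * (4 * ((J : ℝ) + 1) * (1 / 2 : ℝ) ^ (R1 * (3 * p))) := by
  have hJ' : (1 : ℝ) ≤ J := by exact_mod_cast hJ
  have hp1 : 1 ≤ p := by
    have : 1 ≤ (J + 1) ^ 2 := Nat.one_le_pow _ _ (by omega)
    omega
  have hN : 1 ≤ J + 1 := by omega
  have hN' : (1 : ℝ) ≤ ((J + 1 : ℕ) : ℝ) := by exact_mod_cast hN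
  have h0 : ∀ (ι : Type) [Fintype ι] [DecidableEq ι], Fintype.card ι = 512 * p →
      frac (fun z : ι → G => ¬ GoodTuple z (1 / (32 * ((J + 1 : ℕ) : ℝ))) (3 * p))
        ≤ (kc G : ℝ) * ((64 : ℝ) ^ (2 * p) / D) := by
    intro ι _ _ hc
    have e : Fin (512 * p) ≃ ι := Fintype.equivOfCardEq (by simp [hc])
    refine (Q16_transfer e e.injective (1 / 2) _ (3 * p) _ ?_ le_rfl).trans
      (base_good2 p (512 * p) hp1 le_rfl D hD hDE)
    rw [div_le_div_iff₀ (by positivity) (by norm_num)]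
    linarith
  have h1 := Q16_round (J + 1) R1 (3 * p) (512 * p) hN hR1 hp (1 / (32 * ((J + 1 : ℕ) : ℝ))) _
    (by positivity) le_rfl h0
  have hfac0 : (0 : ℝ) < (1 - 1 / (4 * ((J + 1 : ℕ) : ℝ))) ^ 2 := by
    have : 1 / (4 * ((J + 1 : ℕ) : ℝ)) < 1 := by
      rw [div_lt_one (by positivity)]
      linarith
    have h3 : 0 < 1 - 1 / (4 * ((J + 1 : ℕ) : ℝ)) := by linarith
    positivity
  have hfac1 : (1 - 1 / (4 * ((J + 1 : ℕ) : ℝ))) ^ 2 ≤ 1 := by
    have h4 : 0 ≤ 1 / (4 * ((J + 1 : ℕ) : ℝ)) := by positivity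
    have h5 : 1 / (4 * ((J + 1 : ℕ) : ℝ)) ≤ 1 := by
      rw [div_le_one (by positivity)]
      linarith
    exact pow_le_one₀ (by linarith) (by linarith)
  have hε1 : (1 - 1 / (4 * ((J + 1 : ℕ) : ℝ))) ^ 2 * (1 / (32 * ((J + 1 : ℕ) : ℝ)))
      ≤ 1 / (32 * ((J + 1 : ℕ) : ℝ)) := mul_le_of_le_one_left (by positivity) hfac1
  have hq2 : 512 * (J + 1) ^ 2 ≤ R1 * (3 * p) := hp.trans (Nat.le_mul_of_pos_left _ (by omega))
  have h2 := iterate_good (J + 1) R (R1 * (3 * p)) (512 * p + 1024 * (J + 1) ^ 2 * R1) hN hR hq2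
    ((1 - 1 / (4 * ((J + 1 : ℕ) : ℝ))) ^ 2 * (1 / (32 * ((J + 1 : ℕ) : ℝ)))) _
    (mul_pos hfac0 (by positivity)) hε1 h1 J
    (Fin (512 * p + 1024 * (J + 1) ^ 2 * R1 + J * (1024 * (J + 1) ^ 2 * R))) (by simp)
  have hf := Q16_factor (J + 1) (J + 1) hN le_rfl
  have h3 : (1 : ℝ) / (128 * J) ≤ ((1 - 1 / (4 * ((J + 1 : ℕ) : ℝ))) ^ 2) ^ J
      * ((1 - 1 / (4 * ((J + 1 : ℕ) : ℝ))) ^ 2 * (1 / (32 * ((J + 1 : ℕ) : ℝ)))) := by
    rw [← mul_assoc, ← pow_succ]
    calc (1 : ℝ) / (128 * J) ≤ 1 / 2 * (1 / (32 * ((J + 1 : ℕ) : ℝ))) := by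
          rw [one_div_mul_one_div, div_le_div_iff₀ (by positivity) (by positivity)]
          push_cast
          linarith
      _ ≤ _ := mul_le_mul_of_nonneg_right hf (by positivity)
  refine (Q16_transfer (Fin.castLE hm) (Fin.castLE_injective hm) _ _ _ _ h3 le_rfl).trans (h2.trans ?_)
  have e1 : (kc G : ℝ) * ((64 : ℝ) ^ (2 * p) / D) + (kc G : ℝ) * (4 * ((J : ℝ) + 1) * (1 / 2 : ℝ) ^ (R1 * (3 * p)))
      = (kc G : ℝ) * ((64 : ℝ) ^ (2 * p) / D) + (kc G : ℝ) * (4 * (1 / 2 : ℝ) ^ (R1 * (3 * p)))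
        + J * ((kc G : ℝ) * (4 * (1 / 2 : ℝ) ^ (R1 * (3 * p)))) := by ring
  rw [e1]

end Pool.Agent.BC5
end

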