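import Pool.Agent.Lib.MP_bc5a73_al.WordWalks
import Pool.Agent.Lib.MP_bc5a73_al.AllNorm
import Pool.Agent.Lib.MP_bc5a73_al.General

section
set_option autoImplicit false
set_option linter.unusedSectionVars false
set_option linter.unusedVariables false
open scoped BigOperators Matrix
open Matrix
namespace Pool.Agent.BC5


variable {G : Type} [Group G] [Fintype G] [DecidableEq G]


theorem SE1_avg_comm {α β : Type} [Fintype α] [Fintype β] (f : α → β → ℝ) :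
    avg (fun a => avg (fun b => f a b)) = avg (fun b => avg (fun a => f a b)) := by
  rw [← avg_prod (fun p : α × β => f p.1 p.2), ← avg_prod (fun p : β × α => f p.2 p.1),
    ← avg_equiv (Equiv.prodComm α β) (fun p : β × α => f p.2 p.1)]
  rfl

theorem SE1_trace_avg {α : Type} [Fintype α] (E : Matrix G G ℝ)
    (f : α → Matrix G G ℝ) :
    (E * avg f).trace = avg (fun a => (E * f a).trace) := by
  unfold avg
  rw [Matrix.mul_smul, Matrix.trace_smul, Finset.mul_sum, Matrix.trace_sum]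

theorem SE1_avg_ite {α : Type} [Fintype α] (P : α → Prop) (inst : DecidablePred P) :
    avg (fun a => (if P a then (1 : ℝ) else 0)) = frac P := by
  have h : (fun a => if P a then (1 : ℝ) else 0) =
      fun a => @ite ℝ (P a) (Classical.propDecidable (P a)) 1 0 := by
    funext a
    by_cases hp : P a <;> simp [hp]
  rw [h]
  rfl

theorem avg_frac_bad {M : ℕ} (T : ℕ) (Bad : G → Prop) (P : ℝ) (hP : 0 ≤ P)
    (h : ∀ γ : FreeGroup (Fin M), γ ≠ 1 → γ.norm ≤ 2 * T → frac (fun x : Fin M → G => Bad (FreeGroup.lift x γ)) ≤ P) :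
    avg (fun x : Fin M → G => frac (fun a : Fin (2 * T) → Fin M × Bool =>
      FreeGroup.mk (List.ofFn a) ≠ 1 ∧ Bad (FreeGroup.lift x (FreeGroup.mk (List.ofFn a))))) ≤ P := by
  classical
  have e : avg (fun x : Fin M → G => frac (fun a : Fin (2 * T) → Fin M × Bool =>
      FreeGroup.mk (List.ofFn a) ≠ 1 ∧ Bad (FreeGroup.lift x (FreeGroup.mk (List.ofFn a))))) =
      avg (fun a : Fin (2 * T) → Fin M × Bool => frac (fun x : Fin M → G =>
      FreeGroup.mk (List.ofFn a) ≠ 1 ∧ Bad (FreeGroup.lift x (FreeGroup.mk (List.ofFn a))))) :=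
    SE1_avg_comm _
  rw [e]
  have key : ∀ a : Fin (2 * T) → Fin M × Bool, frac (fun x : Fin M → G =>
      FreeGroup.mk (List.ofFn a) ≠ 1 ∧ Bad (FreeGroup.lift x (FreeGroup.mk (List.ofFn a)))) ≤ P := by
    intro a
    by_cases ha : FreeGroup.mk (List.ofFn a) = 1
    · have e2 : frac (fun x : Fin M → G =>
          FreeGroup.mk (List.ofFn a) ≠ 1 ∧ Bad (FreeGroup.lift x (FreeGroup.mk (List.ofFn a)))) = 0 := by
        unfold frac
        refine Eq.trans (congrArg avg (funext fun x => ?_)) (avg_const (0 : ℝ))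
        exact if_neg (fun hh => hh.1 ha)
      rw [e2]
      exact hP
    · refine le_trans (frac_mono fun x hx => hx.2) (h _ ha ?_)
      refine FreeGroup.norm_mk_le.trans ?_
      rw [List.length_ofFn]
  rcases isEmpty_or_nonempty (Fin (2 * T) → Fin M × Bool) with hE | hN
  · refine le_trans (le_of_eq ?_) hP
    unfold avg
    rw [Finset.univ_eq_empty, Finset.sum_empty, smul_zero]
  · exact avg_le_of_le key

theorem trace_words_le {M : ℕ} (hM : 1 ≤ M) (x : Fin M → G) {E : Matrix G G ℝ} (hE : IsBlock E) (T : ℕ) (Bad : G → Prop)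
    (β : ℝ) (hβ : 0 ≤ β) (h2 : ∀ g : G, ¬ Bad g → |(E * Rm g).trace| ≤ β * E.trace) :
    (E * (avg fun i => Sm (x i)) ^ (2 * T)).trace ≤
      ((2 / (M : ℝ)) ^ T + frac (fun a : Fin (2 * T) → Fin M × Bool =>
        FreeGroup.mk (List.ofFn a) ≠ 1 ∧ Bad (FreeGroup.lift x (FreeGroup.mk (List.ofFn a)))) + β) * E.trace := by
  classical
  have hτ : 0 ≤ E.trace := trace_pr_nonneg hE.1
  have : Nonempty (Fin M) := ⟨⟨0, hM⟩⟩
  rw [pow_eq_avg_words hM x (2 * T), SE1_trace_avg]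
  have key : ∀ a : Fin (2 * T) → Fin M × Bool,
      (E * Rm (FreeGroup.lift x (FreeGroup.mk (List.ofFn a)))).trace ≤
      E.trace * (if FreeGroup.mk (List.ofFn a) = 1 then (1 : ℝ) else 0) +
      E.trace * (if (FreeGroup.mk (List.ofFn a) ≠ 1 ∧ Bad (FreeGroup.lift x (FreeGroup.mk (List.ofFn a))))
        then (1 : ℝ) else 0) + β * E.trace := by
    intro a
    have h4 : 0 ≤ β * E.trace := mul_nonneg hβ hτ
    by_cases ha : FreeGroup.mk (List.ofFn a) = 1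
    · rw [if_pos ha, if_neg (fun hh => hh.1 ha), ha, map_one, Rm_one, Matrix.mul_one]
      linarith only [h4]
    · rw [if_neg ha]
      by_cases hb : Bad (FreeGroup.lift x (FreeGroup.mk (List.ofFn a)))
      · rw [if_pos ⟨ha, hb⟩]
        have h3 := (abs_le.mp (H5_abs hE.1 (FreeGroup.lift x (FreeGroup.mk (List.ofFn a))))).2
        linarith only [h3, h4]
      · rw [if_neg (fun hh => hb hh.2)]
        have h3 := (abs_le.mp (h2 _ hb)).2
        linarith only [h3]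
  refine (avg_mono key).trans ?_
  rw [avg_add, avg_add, avg_const, avg_mul_left, avg_mul_left, SE1_avg_ite, SE1_avg_ite]
  have h8 := trivial_words hM T
  have h9 := mul_le_mul_of_nonneg_left h8 hτ
  have h10 : ((2 / (M : ℝ)) ^ T + frac (fun a : Fin (2 * T) → Fin M × Bool =>
        FreeGroup.mk (List.ofFn a) ≠ 1 ∧ Bad (FreeGroup.lift x (FreeGroup.mk (List.ofFn a)))) + β) * E.trace =
      E.trace * (2 / (M : ℝ)) ^ T + E.trace * frac (fun a : Fin (2 * T) → Fin M × Bool =>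
        FreeGroup.mk (List.ofFn a) ≠ 1 ∧ Bad (FreeGroup.lift x (FreeGroup.mk (List.ofFn a)))) + β * E.trace := by ring
  rw [h10]
  exact add_le_add (add_le_add h9 le_rfl) le_rfl

end Pool.Agent.BC5
end

section
set_option autoImplicit false
set_option linter.unusedSectionVars false
set_option linter.unusedVariables false
open scoped BigOperators Matrix
open Matrix
namespace Pool.Agent.BC5


variable {G : Type} [Group G] [Fintype G] [DecidableEq G]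


/-- the property that the letters `y` have many bad words -/
def SE2_many {M : ℕ} (T : ℕ) (Bad : G → Prop) (b : ℝ) (y : Fin M → G) : Prop :=
  b < frac (fun a : Fin (2 * T) → Fin M × Bool =>
    FreeGroup.mk (List.ofFn a) ≠ 1 ∧ Bad (FreeGroup.lift y (FreeGroup.mk (List.ofFn a))))

theorem SE2_markov {M : ℕ} (T : ℕ) (Bad : G → Prop) (P b : ℝ) (hP : 0 ≤ P) (hb : 0 < b)
    (h1 : ∀ γ : FreeGroup (Fin M), γ ≠ 1 → γ.norm ≤ 2 * T →
      frac (fun x : Fin M → G => Bad (FreeGroup.lift x γ)) ≤ P) :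
    frac (fun y : Fin M → G => SE2_many T Bad b y) ≤ P / b := by
  have h3 := frac_le_avg_div
    (P := fun y : Fin M → G => SE2_many T Bad b y)
    (f := fun y : Fin M → G => frac (fun a : Fin (2 * T) → Fin M × Bool =>
      FreeGroup.mk (List.ofFn a) ≠ 1 ∧ Bad (FreeGroup.lift y (FreeGroup.mk (List.ofFn a)))))
    hb (fun x => frac_nonneg _) (fun x hx => le_of_lt hx)
  refine h3.trans ?_
  exact div_le_div_of_nonneg_right (avg_frac_bad T Bad P hP h1) hb.le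

theorem SE2_one {N : ℕ} (T q : ℕ) (Bad : G → Prop) (P β b : ℝ) (hP : 0 ≤ P) (hβ : 0 ≤ β) (hb : 0 < b)
    (h1 : ∀ M : ℕ, ∀ γ : FreeGroup (Fin M), γ ≠ 1 → γ.norm ≤ 2 * T →
      frac (fun x : Fin M → G => Bad (FreeGroup.lift x γ)) ≤ P)
    (h2 : ∀ E : Matrix G G ℝ, IsBlock E → E ≠ Jm G → ∀ g : G, ¬ Bad g → |(E * Rm g).trace| ≤ β * E.trace)
    (hq : 4 ^ T * ((1 / 1280 : ℝ) ^ T + b + β) ≤ (1 / 2 : ℝ) ^ q) (R : Finset (Fin N)) :
    frac (fun x : Fin N × Fin 2560 → G => (1 : ℝ) ≤ R.card ∧ ∃ E : Matrix G G ℝ, IsBlock E ∧ E ≠ Jm G ∧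
      (1 / 2 : ℝ) ^ q * E.trace < (E * spr (AR x R) (1 / 2)).trace) ≤ P / b := by
  classical
  by_cases hR : (1 : ℝ) ≤ R.card
  · have hRn : 1 ≤ R.card := by exact_mod_cast hR
    have hcard : (cyl R : Finset (Fin N × Fin 2560)).card = R.card * 2560 := by
      unfold cyl
      rw [Finset.card_product, Finset.card_univ, Fintype.card_fin]
    obtain ⟨e, he, heU⟩ := exists_enum (cyl R : Finset (Fin N × Fin 2560))
    have hs : 2560 ≤ (cyl R : Finset (Fin N × Fin 2560)).card := by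
      rw [hcard]
      omega
    have hM := SE2_markov (M := (cyl R : Finset (Fin N × Fin 2560)).card) T Bad P b hP hb (h1 _)
    have hinj := frac_comp_injective (H := G) e he
      (fun y : Fin (cyl R : Finset (Fin N × Fin 2560)).card → G => SE2_many T Bad b y)
    refine le_trans ?_ (hinj.le.trans hM)
    refine frac_mono ?_
    rintro x ⟨-, E, hE, hEJ, hlt⟩
    by_contra hcon
    have hcon' : frac (fun a : Fin (2 * T) → Fin (cyl R : Finset (Fin N × Fin 2560)).card × Bool =>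
        FreeGroup.mk (List.ofFn a) ≠ 1 ∧ Bad (FreeGroup.lift (fun i => x (e i)) (FreeGroup.mk (List.ofFn a)))) ≤ b :=
      not_lt.mp hcon
    have hτ : 0 ≤ E.trace := trace_pr_nonneg hE.1
    have h3 : AR x R = avg (fun i => Sm (x (e i))) := by
      unfold AR
      exact AU_eq_avg x (cyl R) e he heU
    have hAt : (AR x R)ᵀ = AR x R := by
      rw [h3]
      exact Q4_transpose (fun i => x (e i))
    have h4 := spr_trace (AR x R) hAt (1 / 2) (by norm_num) E hE.1 T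
    have h5 := trace_words_le (by omega : 1 ≤ (cyl R : Finset (Fin N × Fin 2560)).card) (fun i => x (e i)) hE T Bad β hβ
      (h2 E hE hEJ)
    rw [← h3] at h5
    have h6 : (2 / ((cyl R : Finset (Fin N × Fin 2560)).card : ℝ)) ^ T ≤ (1 / 1280 : ℝ) ^ T := by
      refine pow_le_pow_left₀ (by positivity) ?_ T
      have hM' : (2560 : ℝ) ≤ ((cyl R : Finset (Fin N × Fin 2560)).card : ℝ) := by exact_mod_cast hs
      rw [div_le_div_iff₀ (by linarith) (by norm_num)]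
      linarith
    have h7 : (1 / 2 : ℝ) ^ (2 * T) * (E * spr (AR x R) (1 / 2)).trace ≤ ((1 / 1280 : ℝ) ^ T + b + β) * E.trace :=
      h4.trans (h5.trans (mul_le_mul_of_nonneg_right (by linarith) hτ))
    have h8 : (4 : ℝ) ^ T * (1 / 2 : ℝ) ^ (2 * T) = 1 := by
      rw [pow_mul, ← mul_pow]
      norm_num
    have h9 : (E * spr (AR x R) (1 / 2)).trace ≤ (1 / 2 : ℝ) ^ q * E.trace := by
      calc (E * spr (AR x R) (1 / 2)).trace
          = (4 : ℝ) ^ T * ((1 / 2 : ℝ) ^ (2 * T) * (E * spr (AR x R) (1 / 2)).trace) := by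
            rw [← mul_assoc, h8, one_mul]
        _ ≤ (4 : ℝ) ^ T * (((1 / 1280 : ℝ) ^ T + b + β) * E.trace) :=
            mul_le_mul_of_nonneg_left h7 (by positivity)
        _ = (4 ^ T * ((1 / 1280 : ℝ) ^ T + b + β)) * E.trace := by ring
        _ ≤ (1 / 2 : ℝ) ^ q * E.trace := mul_le_mul_of_nonneg_right hq hτ
    linarith
  · have h7 : frac (fun x : Fin N × Fin 2560 → G => False) = 0 := by
      unfold frac avg
      simp
    have h8 : frac (fun x : Fin N × Fin 2560 → G => (1 : ℝ) ≤ R.card ∧ ∃ E : Matrix G G ℝ, IsBlock E ∧ E ≠ Jm G ∧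
        (1 / 2 : ℝ) ^ q * E.trace < (E * spr (AR x R) (1 / 2)).trace) ≤
        frac (fun x : Fin N × Fin 2560 → G => False) := frac_mono (fun x hx => hR hx.1)
    refine h8.trans ?_
    rw [h7]
    positivity

theorem start_all {N : ℕ} (T q : ℕ) (Bad : G → Prop) (P β b : ℝ) (hP : 0 ≤ P) (hβ : 0 ≤ β) (hb : 0 < b)
    (h1 : ∀ M : ℕ, ∀ γ : FreeGroup (Fin M), γ ≠ 1 → γ.norm ≤ 2 * T →
      frac (fun x : Fin M → G => Bad (FreeGroup.lift x γ)) ≤ P)
    (h2 : ∀ E : Matrix G G ℝ, IsBlock E → E ≠ Jm G → ∀ g : G, ¬ Bad g → |(E * Rm g).trace| ≤ β * E.trace)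
    (hq : 4 ^ T * ((1 / 1280 : ℝ) ^ T + b + β) ≤ (1 / 2 : ℝ) ^ q) :
    frac (fun x : Fin N × Fin 2560 → G => ¬ ∀ E : Matrix G G ℝ, IsBlock E → E ≠ Jm G →
      StartP x E (1 / 2) 1 ((1 / 2 : ℝ) ^ q)) ≤ 2 ^ N * (P / b) := by
  classical
  have h3 : frac (fun x : Fin N × Fin 2560 → G => ¬ ∀ E : Matrix G G ℝ, IsBlock E → E ≠ Jm G →
      StartP x E (1 / 2) 1 ((1 / 2 : ℝ) ^ q)) ≤
      frac (fun x : Fin N × Fin 2560 → G => ∃ R ∈ (Finset.univ : Finset (Finset (Fin N))),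
        ((1 : ℝ) ≤ R.card ∧ ∃ E : Matrix G G ℝ, IsBlock E ∧ E ≠ Jm G ∧
          (1 / 2 : ℝ) ^ q * E.trace < (E * spr (AR x R) (1 / 2)).trace)) := by
    refine frac_mono ?_
    intro x hx
    by_contra hcon
    apply hx
    intro E hE hEJ R hR
    by_contra hlt
    exact hcon ⟨R, Finset.mem_univ R, hR, E, hE, hEJ, not_le.1 hlt⟩
  refine h3.trans ((frac_exists_le (Finset.univ : Finset (Finset (Fin N)))
    (fun (R : Finset (Fin N)) (x : Fin N × Fin 2560 → G) => (1 : ℝ) ≤ R.card ∧ ∃ E : Matrix G G ℝ, IsBlock E ∧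
      E ≠ Jm G ∧ (1 / 2 : ℝ) ^ q * E.trace < (E * spr (AR x R) (1 / 2)).trace)).trans ?_)
  refine (Finset.sum_le_sum (fun R _ => SE2_one T q Bad P β b hP hβ hb h1 h2 hq R)).trans (le_of_eq ?_)
  rw [Finset.sum_const, Finset.card_univ, Fintype.card_finset, Fintype.card_fin, nsmul_eq_mul]
  push_cast
  ring

end Pool.Agent.BC5
end

section
set_option autoImplicit false
set_option linter.unusedSectionVars false
set_option linter.unusedVariables false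
open scoped BigOperators Matrix
open Matrix
namespace Pool.Agent.BC5


theorem crit_num1 (κ K : ℝ) (hκ : 0 < κ) (hκ1 : κ ≤ 1) (hK : 1 ≤ K) : ∃ n0 : ℕ, ∀ n q : ℕ, n0 ≤ n → 2 ≤ q →
    4 ^ ⌊κ * n / 8⌋₊ * ((1 / 1280 : ℝ) ^ ⌊κ * n / 8⌋₊ + (2 : ℝ) ^ (-(κ * n / 2)) + Real.exp (-(κ * n))) ≤
      (1 / 2 : ℝ) ^ ⌊κ * n / 8⌋₊ ∧ 640 ≤ ⌊κ * n / 8⌋₊ := by
  refine ⟨⌈5120 / κ⌉₊, fun n q hn hq => ?_⟩
  have hn1 : 5120 / κ ≤ (n : ℝ) := (Nat.le_ceil _).trans (by exact_mod_cast hn)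
  have hx : 640 ≤ κ * n / 8 := by
    rw [div_le_iff₀ hκ] at hn1
    linarith
  have hT640 : 640 ≤ ⌊κ * n / 8⌋₊ := Nat.le_floor (by exact_mod_cast hx)
  have hTx : (⌊κ * n / 8⌋₊ : ℝ) ≤ κ * n / 8 := Nat.floor_le (by linarith)
  generalize ⌊κ * n / 8⌋₊ = T at hT640 hTx
  refine ⟨?_, hT640⟩
  have hb : (2 : ℝ) ^ (-(κ * n / 2)) ≤ (1 / 16 : ℝ) ^ T := by
    have h1 : (2 : ℝ) ^ (-(κ * n / 2)) ≤ (2 : ℝ) ^ (-(4 * (T : ℝ))) :=
      Real.rpow_le_rpow_of_exponent_le (by norm_num) (by linarith)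
    have h2 : (2 : ℝ) ^ (-(4 * (T : ℝ))) = (1 / 16 : ℝ) ^ T := by
      rw [Real.rpow_neg (by norm_num), Real.rpow_mul (by norm_num), Real.rpow_natCast, one_div, inv_pow]
      norm_num
    rw [← h2]
    exact h1
  have hc : Real.exp (-(κ * n)) ≤ (1 / 16 : ℝ) ^ T := by
    have h1 : Real.exp (-(κ * n)) ≤ Real.exp ((T : ℝ) * (-4)) := Real.exp_le_exp.2 (by
      have : (0 : ℝ) ≤ T := Nat.cast_nonneg T
      linarith)
    have h2 : Real.exp ((T : ℝ) * (-4)) = Real.exp (-4) ^ T := by rw [Real.exp_nat_mul]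
    have h3 : Real.exp (-4) ≤ 1 / 16 := by
      rw [Real.exp_neg, one_div]
      apply inv_anti₀ (by norm_num)
      have h4 : Real.exp 4 = Real.exp 1 ^ 4 := by
        rw [← Real.exp_nat_mul]
        norm_num
      have h5 : (2 : ℝ) ≤ Real.exp 1 := by
        have := Real.add_one_le_exp (1 : ℝ)
        linarith
      rw [h4]
      calc (16 : ℝ) = 2 ^ 4 := by norm_num
        _ ≤ Real.exp 1 ^ 4 := pow_le_pow_left₀ (by norm_num) h5 4
    rw [h2] at h1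
    exact h1.trans (pow_le_pow_left₀ (Real.exp_pos _).le h3 T)
  have ha : (1 / 1280 : ℝ) ^ T ≤ (1 / 16 : ℝ) ^ T := pow_le_pow_left₀ (by norm_num) (by norm_num) T
  have hd : (1 / 2 : ℝ) ^ T ≤ 1 / 4 := by
    calc (1 / 2 : ℝ) ^ T ≤ (1 / 2 : ℝ) ^ 2 := pow_le_pow_of_le_one (by norm_num) (by norm_num) (by omega)
      _ = 1 / 4 := by norm_num
  have hp : (0 : ℝ) < (1 / 2 : ℝ) ^ T := by positivity
  have h4 : (4 : ℝ) ^ T * (1 / 16 : ℝ) ^ T = (1 / 2 : ℝ) ^ T * (1 / 2 : ℝ) ^ T := by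
    rw [← mul_pow, ← mul_pow]
    norm_num
  have h5 : (0 : ℝ) < 4 ^ T := by positivity
  calc (4 : ℝ) ^ T * ((1 / 1280 : ℝ) ^ T + (2 : ℝ) ^ (-(κ * n / 2)) + Real.exp (-(κ * n)))
      ≤ 4 ^ T * ((1 / 16 : ℝ) ^ T + (1 / 16 : ℝ) ^ T + (1 / 16 : ℝ) ^ T) :=
        mul_le_mul_of_nonneg_left (add_le_add (add_le_add ha hb) hc) h5.le
    _ = 3 * ((4 : ℝ) ^ T * (1 / 16 : ℝ) ^ T) := by ring
    _ = 3 * ((1 / 2 : ℝ) ^ T * (1 / 2 : ℝ) ^ T) := by rw [h4]
    _ ≤ (1 / 2 : ℝ) ^ T := by nlinarith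

theorem SE3_pow {a : ℝ} (ha : 0 < a) (m : ℕ) : a ^ m = Real.exp (m * Real.log a) := by
  rw [← Real.rpow_natCast, Real.rpow_def_of_pos ha, mul_comm]

theorem SE3_rpow {a : ℝ} (ha : 0 < a) (x : ℝ) : a ^ x = Real.exp (x * Real.log a) := by
  rw [Real.rpow_def_of_pos ha, mul_comm]

/-- the facts on `n`, `q` used below: `y = log (n q) = L + M` -/
theorem SE3_clog (n : ℕ) (hn : 100 ≤ n) : ((Nat.clog 2 n : ℕ) : ℝ) ≤ 2 * Real.log n + 1 := by
  have hc : 1 ≤ Nat.clog 2 n := Nat.clog_pos (by norm_num) (by omega)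
  have h1 : 2 ^ (Nat.clog 2 n - 1) < n := Nat.pow_pred_clog_lt_self (by norm_num) (by omega)
  have h2 : ((2 : ℝ) ^ (Nat.clog 2 n - 1)) ≤ n := by exact_mod_cast h1.le
  have h3 := Real.log_le_log (by positivity) h2
  rw [Real.log_pow] at h3
  have h4 := Real.log_two_gt_d9
  have h5 : ((Nat.clog 2 n - 1 : ℕ) : ℝ) = (Nat.clog 2 n : ℝ) - 1 := by
    rw [Nat.cast_sub hc, Nat.cast_one]
  rw [h5] at h3
  have h6 : (1 : ℝ) ≤ (Nat.clog 2 n : ℝ) := by exact_mod_cast hc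
  nlinarith

theorem crit_num2 (κ K : ℝ) (hκ : 0 < κ) (hκ1 : κ ≤ 1) (hK : 1 ≤ K) : ∃ C : ℝ, 1 ≤ C ∧ ∃ n0 : ℕ, ∀ n q : ℕ, n0 ≤ n → 2 ≤ q →
    ∃ h I N : ℕ, 1 ≤ h ∧ N = 81 * (h + I + 1) ∧ (N : ℝ) ≤ C * Real.log ((n : ℝ) * q) ∧
      (q : ℝ) ^ (K * (n : ℝ) ^ 2) < 2 ^ (2 ^ I * (2 * h * ⌊κ * n / 8⌋₊)) ∧
      ((n : ℝ) * q) ^ (K * n) * (((I : ℝ) + 1) * (4 ^ (N + 1) * (1 / 2 : ℝ) ^ (4 * h * ⌊κ * n / 8⌋₊))) ≤
        1 / 2 * (q : ℝ) ^ (-(κ * n / 8)) ∧
      2 ^ N * ((q : ℝ) ^ (-(κ * n)) / (2 : ℝ) ^ (-(κ * n / 2))) ≤ 1 / 2 * (q : ℝ) ^ (-(κ * n / 8)) := by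
  have hl1 := Real.log_two_gt_d9
  have hl2 := Real.log_two_lt_d9
  obtain ⟨A, hA⟩ : ∃ A, A = 100 * (K + 1) / κ := ⟨_, rfl⟩
  have hA0 : 0 < A := by rw [hA]; positivity
  have hAκ : κ * A = 100 * (K + 1) := by rw [hA]; field_simp
  obtain ⟨C, hC⟩ : ∃ C, C = 81 * (A + 5) := ⟨_, rfl⟩
  have hC1 : 1 ≤ C := by rw [hC]; linarith
  refine ⟨C, hC1, ⌈600 / κ⌉₊ + ⌈6 * C / κ⌉₊ + ⌈(5 * (2 * C + 1) / κ) ^ 2⌉₊ + 100, fun n q hn hq => ?_⟩
  have hn1 : 600 / κ ≤ (n : ℝ) := (Nat.le_ceil _).trans (by exact_mod_cast (by omega : ⌈600 / κ⌉₊ ≤ n))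
  have hn2 : 6 * C / κ ≤ (n : ℝ) := (Nat.le_ceil _).trans (by exact_mod_cast (by omega : ⌈6 * C / κ⌉₊ ≤ n))
  have hn3 : (5 * (2 * C + 1) / κ) ^ 2 ≤ (n : ℝ) :=
    (Nat.le_ceil _).trans (by exact_mod_cast (by omega : ⌈(5 * (2 * C + 1) / κ) ^ 2⌉₊ ≤ n))
  have hn4 : 100 ≤ n := by omega
  have hn4' : (100 : ℝ) ≤ n := by exact_mod_cast hn4
  rw [div_le_iff₀ hκ] at hn1 hn2
  have hn0 : (0 : ℝ) < n := by linarith
  have hq2 : (2 : ℝ) ≤ q := by exact_mod_cast hq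
  have hq0 : (0 : ℝ) < q := by linarith
  -- logarithms
  obtain ⟨L, hL⟩ : ∃ L, L = Real.log n := ⟨_, rfl⟩
  obtain ⟨M, hM⟩ : ∃ M, M = Real.log q := ⟨_, rfl⟩
  have hy : Real.log ((n : ℝ) * q) = L + M := by rw [Real.log_mul hn0.ne' hq0.ne', hL, hM]
  have hM2 : Real.log 2 ≤ M := by rw [hM]; exact Real.log_le_log (by norm_num) hq2
  have hL1 : 1 ≤ L := by
    rw [hL, Real.le_log_iff_exp_le hn0]
    have := Real.exp_one_lt_d9
    linarith
  have hLs : L ≤ 2 * Real.sqrt n := by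
    have h1 : Real.log (Real.sqrt n) ≤ Real.sqrt n - 1 := Real.log_le_sub_one_of_pos (Real.sqrt_pos.2 hn0)
    rw [Real.log_sqrt hn0.le, ← hL] at h1
    linarith
  have hs1 : 5 * (2 * C + 1) ≤ κ * Real.sqrt n := by
    have h1 : 5 * (2 * C + 1) / κ ≤ Real.sqrt n := Real.le_sqrt_of_sq_le hn3
    rw [div_le_iff₀ hκ] at h1
    linarith
  have hss : Real.sqrt n * Real.sqrt n = n := Real.mul_self_sqrt hn0.le
  have hsp : 1 ≤ Real.sqrt n := by
    rw [Real.one_le_sqrt]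
    linarith
  -- h
  obtain ⟨h, hh⟩ : ∃ h, h = ⌈A * (L + M)⌉₊ := ⟨_, rfl⟩
  have hAy : 0 < A * (L + M) := by
    apply mul_pos hA0
    linarith
  have hh1 : A * (L + M) ≤ h := by rw [hh]; exact Nat.le_ceil _
  have hh2 : (h : ℝ) ≤ A * (L + M) + 1 := by rw [hh]; exact (Nat.ceil_lt_add_one hAy.le).le
  have hh3 : 1 ≤ h := by rw [hh]; exact Nat.one_le_ceil_iff.2 hAy
  -- I
  obtain ⟨I, hI⟩ : ∃ I, I = Nat.clog 2 n := ⟨_, rfl⟩
  have hI1 : (I : ℝ) ≤ 2 * L + 1 := by rw [hI, hL]; exact SE3_clog n hn4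
  have hI2 : (n : ℝ) ≤ 2 ^ I := by
    rw [hI]
    exact_mod_cast Nat.le_pow_clog (by norm_num) n
  -- N
  obtain ⟨N, hN⟩ : ∃ N, N = 81 * (h + I + 1) := ⟨_, rfl⟩
  have hNr : (N : ℝ) = 81 * (h + I + 1) := by rw [hN]; push_cast; ring
  have hNC : (N : ℝ) ≤ C * (L + M) := by
    rw [hNr, hC]
    nlinarith
  -- T
  have hTf : κ * n / 9 ≤ (⌊κ * n / 8⌋₊ : ℝ) := by
    have h1 := Nat.lt_floor_add_one (κ * n / 8)
    linarith
  generalize ⌊κ * n / 8⌋₊ = T at hTf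
  have hT0 : (0 : ℝ) ≤ T := Nat.cast_nonneg T
  have hκn : 0 < κ * n := by positivity
  refine ⟨h, I, N, hh3, hN, by rw [hy]; exact hNC, ?_, ?_, ?_⟩
  · -- first
    rw [SE3_rpow hq0, SE3_pow (by norm_num : (0 : ℝ) < 2), Real.exp_lt_exp, ← hM]
    push_cast
    have h1 : A * (L + M) * (κ * n / 9) ≤ (h : ℝ) * T :=
      mul_le_mul hh1 hTf (by positivity) (Nat.cast_nonneg h)
    have h2 : (n : ℝ) * (A * (L + M) * (κ * n / 9)) ≤ 2 ^ I * ((h : ℝ) * T) :=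
      mul_le_mul hI2 h1 (by positivity) (by positivity)
    have h3 : (n : ℝ) * (A * (L + M) * (κ * n / 9)) = (100 / 9 * (K + 1)) * ((n : ℝ) ^ 2 * (L + M)) := by
      have : (n : ℝ) * (A * (L + M) * (κ * n / 9)) = (κ * A) / 9 * ((n : ℝ) ^ 2 * (L + M)) := by ring
      rw [this, hAκ]
      ring
    rw [h3] at h2
    have h4 : 0 < (n : ℝ) ^ 2 := by positivity
    have h5 : (n : ℝ) ^ 2 * M ≤ (n : ℝ) ^ 2 * (L + M) := mul_le_mul_of_nonneg_left (by linarith) h4.le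
    have h6 : 0 < (n : ℝ) ^ 2 * (L + M) := mul_pos h4 (by linarith)
    have h7 : (2 ^ I * (2 * (h : ℝ) * T)) * Real.log 2 = 2 * Real.log 2 * (2 ^ I * ((h : ℝ) * T)) := by ring
    rw [h7]
    have h8 : K * (n : ℝ) ^ 2 * M ≤ K * ((n : ℝ) ^ 2 * (L + M)) := by
      rw [mul_assoc]
      exact mul_le_mul_of_nonneg_left h5 (by linarith)
    have h9 : 2 * Real.log 2 * (100 / 9 * (K + 1) * ((n : ℝ) ^ 2 * (L + M))) ≤
        2 * Real.log 2 * (2 ^ I * ((h : ℝ) * T)) :=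
      mul_le_mul_of_nonneg_left h2 (by linarith)
    have h10 : K * ((n : ℝ) ^ 2 * (L + M)) < 2 * Real.log 2 * (100 / 9 * (K + 1) * ((n : ℝ) ^ 2 * (L + M))) := by
      have : K < 2 * Real.log 2 * (100 / 9 * (K + 1)) := by nlinarith
      calc K * ((n : ℝ) ^ 2 * (L + M)) < (2 * Real.log 2 * (100 / 9 * (K + 1))) * ((n : ℝ) ^ 2 * (L + M)) :=
            mul_lt_mul_of_pos_right this h6
        _ = _ := by ring
    linarith
  · -- second
    have hI0 : (0 : ℝ) ≤ I := Nat.cast_nonneg I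
    have hnq : (0 : ℝ) < (n : ℝ) * q := by positivity
    have e1 : ((I : ℝ) + 1) ≤ Real.exp I := Real.add_one_le_exp _
    have e2 : (1 / 2 : ℝ) ^ (4 * h * T) = Real.exp (-(4 * h * T * Real.log 2)) := by
      rw [SE3_pow (by norm_num : (0 : ℝ) < 1 / 2), one_div, Real.log_inv]
      push_cast
      ring_nf
    have e3 : (4 : ℝ) ^ (N + 1) = Real.exp ((N + 1) * (2 * Real.log 2)) := by
      rw [SE3_pow (by norm_num : (0 : ℝ) < 4)]
      have : Real.log 4 = 2 * Real.log 2 := by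
        rw [show (4 : ℝ) = 2 ^ 2 by norm_num, Real.log_pow]
        norm_num
      rw [this]
      push_cast
      ring_nf
    have e4 : (1 / 2 : ℝ) * (q : ℝ) ^ (-(κ * n / 8)) = Real.exp (-Real.log 2 + -(κ * n / 8) * M) := by
      rw [Real.exp_add, Real.exp_neg, Real.exp_log (by norm_num), SE3_rpow hq0, ← hM]
      norm_num
    rw [e2, e3, e4, SE3_rpow hnq, hy]
    refine le_trans (mul_le_mul_of_nonneg_left (mul_le_mul_of_nonneg_right e1 (by positivity)) (Real.exp_pos _).le) ?_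
    rw [← Real.exp_add, ← Real.exp_add, ← Real.exp_add, Real.exp_le_exp]
    -- K n y + I + ((N+1) 2 log 2 - 4 h T log 2) ≤ - log 2 - κ n / 8 M
    have hy0 : 0 < L + M := by linarith
    have f1 : κ * n * h * (4 * Real.log 2 / 9) ≤ 4 * h * T * Real.log 2 := by
      have h1 : κ * n / 9 * h ≤ T * h := mul_le_mul_of_nonneg_right hTf (Nat.cast_nonneg h)
      have h2 : κ * n / 9 * h * (4 * Real.log 2) ≤ T * h * (4 * Real.log 2) :=
        mul_le_mul_of_nonneg_right h1 (by linarith)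
      linarith
    have hκnh : 0 ≤ κ * n * h := by positivity
    have f2 : 0.3 * (κ * n * h) ≤ 4 * h * T * Real.log 2 := by
      refine le_trans ?_ f1
      have h1 : κ * n * h * 0.3 ≤ κ * n * h * (4 * Real.log 2 / 9) := mul_le_mul_of_nonneg_left (by linarith) hκnh
      linarith
    have f3 : 10 * (K + 1) * (n * (L + M)) ≤ 0.1 * (κ * n * h) := by
      have : A * (L + M) * (κ * n) ≤ h * (κ * n) := mul_le_mul_of_nonneg_right hh1 hκn.le
      have h2 : A * (L + M) * (κ * n) = 100 * (K + 1) * (n * (L + M)) := by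
        have : A * (L + M) * (κ * n) = (κ * A) * (n * (L + M)) := by ring
        rw [this, hAκ]
      rw [h2] at this
      linarith
    have f4 : 120 * (h : ℝ) ≤ 0.2 * (κ * n * h) := by
      have : 600 * (h : ℝ) ≤ n * κ * h := mul_le_mul_of_nonneg_right hn1 (Nat.cast_nonneg h)
      linarith
    have f5 : ((N : ℝ) + 1) * (2 * Real.log 2) ≤ 114 * h + 228 * L + 230 := by
      have h1 : ((N : ℝ) + 1) ≤ 81 * h + 162 * L + 163 := by rw [hNr]; linarith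
      have h2 : 0 ≤ (N : ℝ) + 1 := by positivity
      have h3 : ((N : ℝ) + 1) * (2 * Real.log 2) ≤ (N + 1) * 1.4 := mul_le_mul_of_nonneg_left (by linarith) h2
      have h4 : (0 : ℝ) ≤ h := Nat.cast_nonneg h
      linarith
    have f6 : κ * n / 8 * M ≤ n * (L + M) := by
      have h1 : κ * n ≤ 1 * n := mul_le_mul_of_nonneg_right hκ1 hn0.le
      have h2 : κ * n / 8 ≤ n := by linarith
      have h3 : M ≤ L + M := by linarith
      exact mul_le_mul h2 h3 (by linarith) hn0.le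
    have f7 : 100 * (L + M) ≤ n * (L + M) := mul_le_mul_of_nonneg_right hn4' hy0.le
    have f8 : 0 ≤ K * (n * (L + M)) := by positivity
    have f9 : 10 * (K + 1) * (n * (L + M)) = 10 * (K * (n * (L + M))) + 10 * (n * (L + M)) := by ring
    rw [f9] at f3
    have f10 : K * n * (L + M) = K * (n * (L + M)) := by ring
    linarith
  · -- third
    have e4 : (1 / 2 : ℝ) * (q : ℝ) ^ (-(κ * n / 8)) = Real.exp (-Real.log 2 + -(κ * n / 8) * M) := by
      rw [Real.exp_add, Real.exp_neg, Real.exp_log (by norm_num), SE3_rpow hq0, ← hM]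
      norm_num
    rw [e4, SE3_pow (by norm_num : (0 : ℝ) < 2), SE3_rpow hq0, SE3_rpow (by norm_num : (0 : ℝ) < 2), ← Real.exp_sub,
      ← Real.exp_add, Real.exp_le_exp, ← hM]
    have hM0 : 0 < M := by linarith
    have g1 : κ * n / 2 * Real.log 2 ≤ κ * n / 2 * M := mul_le_mul_of_nonneg_left hM2 (by positivity)
    have g2 : 6 * C * M ≤ κ * n * M := by
      have := mul_le_mul_of_nonneg_right hn2 hM0.le
      linarith
    have g3 : C * L + 1 ≤ 0.2 * (κ * n) := by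
      have h1 : C * L ≤ C * (2 * Real.sqrt n) := mul_le_mul_of_nonneg_left hLs (by linarith)
      have h2 : 5 * (2 * C + 1) * Real.sqrt n ≤ κ * Real.sqrt n * Real.sqrt n :=
        mul_le_mul_of_nonneg_right hs1 (by linarith)
      have h3 : κ * Real.sqrt n * Real.sqrt n = κ * n := by rw [mul_assoc, hss]
      rw [h3] at h2
      have h4 : 5 * (2 * C + 1) * Real.sqrt n = 5 * (C * (2 * Real.sqrt n)) + 5 * Real.sqrt n := by ring
      rw [h4] at h2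
      linarith
    have g4 : 0.2 * (κ * n) * 0.69 ≤ 0.2 * (κ * n) * M := mul_le_mul_of_nonneg_left (by linarith) (by positivity)
    have hN0 : (0 : ℝ) ≤ N := Nat.cast_nonneg N
    have g5 : (N : ℝ) * Real.log 2 ≤ 0.7 * (C * L) + 0.7 * (C * M) := by
      have h1 : (N : ℝ) * Real.log 2 ≤ N * 0.7 := mul_le_mul_of_nonneg_left (by linarith) hN0
      have h2 : C * (L + M) = C * L + C * M := by ring
      linarith
    have g6 : 0.7 * (C * L + 1) ≤ 0.7 * (0.2 * (κ * n)) := by linarith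
    have g7 : 0 ≤ κ * n * M := by positivity
    have g8 : C * M * 6 ≤ κ * n * M := by linarith
    linarith

end Pool.Agent.BC5
end

section
set_option autoImplicit false
set_option linter.unusedSectionVars false
set_option linter.unusedVariables false
open scoped BigOperators Matrix
open Matrix
namespace Pool.Agent.BC5


/-- One block. -/
theorem SE4_one {G : Type} [Group G] [Fintype G] [DecidableEq G] (h I N q0 : ℕ) (hh : 1 ≤ h) (hN : N = 81 * (h + I + 1))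
    (hq0 : 640 ≤ q0) (hD : (Fintype.card G : ℝ) < 2 ^ (2 ^ I * (2 * h * q0))) {E : Matrix G G ℝ} (hE : IsBlock E) :
    frac (fun x : Fin N × Fin 2560 → G => StartP x E (1 / 2) 1 ((1 / 2 : ℝ) ^ q0) ∧ ¬ NormP x E (3 / 4) N) ≤
      ((I : ℝ) + 1) * (4 ^ (N + 1) * (1 / 2 : ℝ) ^ (4 * h * q0)) := by
  have hI0 : (0 : ℝ) ≤ I := Nat.cast_nonneg I
  have hh1 : (1 : ℝ) ≤ h := by exact_mod_cast hh
  have hI1 : (0 : ℝ) < (I : ℝ) + 1 := by linarith
  have hv : (1 : ℝ) ≤ 80 * ((h : ℝ) + I + 1) := by linarith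
  have h0 : 10 * (h : ℝ) ≤ (80 * ((h : ℝ) + I + 1) + h) * (1 / 8) := by linarith
  have h1 : 10 ≤ 80 * ((h : ℝ) + I + 1) * (1 / (8 * ((I : ℝ) + 1))) := by
    rw [mul_one_div, le_div_iff₀ (by positivity)]
    linarith
  have hDr : E.trace < 2 ^ (2 ^ I * (2 * h * q0)) := lt_of_le_of_lt (P3_trace_le hE) hD
  have hB := block_norm (N := N) hE h q0 I hh hq0 (1 / 2) (1 / 8) (1 / (8 * ((I : ℝ) + 1))) (80 * ((h : ℝ) + I + 1)) (by norm_num)
    (by norm_num) (by norm_num) (by positivity) (by positivity) h0 h1 hDr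
  refine (frac_mono fun x hx => ?_).trans hB
  refine ⟨fun R hR => hx.1 R (hv.trans hR), fun hNn => hx.2 (hNn.mono ?_ ?_)⟩
  · have : (I : ℝ) * (1 / (8 * ((I : ℝ) + 1))) ≤ 1 / 8 := by
      rw [mul_one_div, div_le_div_iff₀ (by positivity) (by norm_num)]
      linarith
    linarith
  · rw [hN]
    push_cast
    linarith

/-- All blocks. -/
theorem SE4_all {G : Type} [Group G] [Fintype G] [DecidableEq G] (h I N q0 : ℕ) (hh : 1 ≤ h) (hN : N = 81 * (h + I + 1))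
    (hq0 : 640 ≤ q0) (hD : (Fintype.card G : ℝ) < 2 ^ (2 ^ I * (2 * h * q0))) {δ1 : ℝ}
    (hst : frac (fun x : Fin N × Fin 2560 → G => ¬ ∀ E : Matrix G G ℝ, IsBlock E → E ≠ Jm G →
      StartP x E (1 / 2) 1 ((1 / 2 : ℝ) ^ q0)) ≤ δ1) :
    frac (fun x : Fin N × Fin 2560 → G => ¬ ∀ E : Matrix G G ℝ, IsBlock E → E ≠ Jm G → NormP x E (3 / 4) N)
      ≤ δ1 + (kc G : ℝ) * (((I : ℝ) + 1) * (4 ^ (N + 1) * (1 / 2 : ℝ) ^ (4 * h * q0))) := by
  classical
  obtain ⟨B, hB, -⟩ := exists_blocks G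
  have h1 : frac (fun x : Fin N × Fin 2560 → G =>
      ¬ ∀ E : Matrix G G ℝ, IsBlock E → E ≠ Jm G → NormP x E (3 / 4) N) ≤
      frac (fun x : Fin N × Fin 2560 → G => (¬ ∀ E : Matrix G G ℝ, IsBlock E → E ≠ Jm G →
        StartP x E (1 / 2) 1 ((1 / 2 : ℝ) ^ q0)) ∨ ∃ E ∈ B.filter (fun E => E ≠ Jm G),
          (StartP x E (1 / 2) 1 ((1 / 2 : ℝ) ^ q0) ∧ ¬ NormP x E (3 / 4) N)) := by
    refine frac_mono fun x hx => ?_
    by_cases hS : ∀ E : Matrix G G ℝ, IsBlock E → E ≠ Jm G → StartP x E (1 / 2) 1 ((1 / 2 : ℝ) ^ q0)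
    · right
      push Not at hx
      obtain ⟨E, hE, hEJ, hn⟩ := hx
      exact ⟨E, Finset.mem_filter.2 ⟨(hB E).2 hE, hEJ⟩, hS E hE hEJ, hn⟩
    · exact Or.inl hS
  have h2 := frac_exists_le (α := Fin N × Fin 2560 → G) (B.filter (fun E => E ≠ Jm G))
    (fun E x => StartP x E (1 / 2) 1 ((1 / 2 : ℝ) ^ q0) ∧ ¬ NormP x E (3 / 4) N)
  have h3 : ∑ E ∈ B.filter (fun E => E ≠ Jm G), frac (fun x : Fin N × Fin 2560 → G =>
      StartP x E (1 / 2) 1 ((1 / 2 : ℝ) ^ q0) ∧ ¬ NormP x E (3 / 4) N) ≤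
      ∑ E ∈ B.filter (fun E => E ≠ Jm G), (((I : ℝ) + 1) * (4 ^ (N + 1) * (1 / 2 : ℝ) ^ (4 * h * q0))) := by
    refine Finset.sum_le_sum fun E hE => ?_
    obtain ⟨hE1, hE2⟩ := Finset.mem_filter.1 hE
    exact SE4_one h I N q0 hh hN hq0 hD ((hB E).1 hE1)
  rw [Finset.sum_const, nsmul_eq_mul] at h3
  have h4 : ((B.filter (fun E => E ≠ Jm G)).card : ℝ) ≤ kc G := by
    have h5 : (B.filter (fun E => E ≠ Jm G)).card ≤ kc G :=
      (Finset.card_filter_le _ _).trans (card_blocks_le B fun E hE => (hB E).1 hE)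
    exact_mod_cast h5
  have h5 : (0 : ℝ) ≤ ((I : ℝ) + 1) * (4 ^ (N + 1) * (1 / 2 : ℝ) ^ (4 * h * q0)) := by positivity
  have h6 := mul_le_mul_of_nonneg_right h4 h5
  refine h1.trans ((frac_or_le _ _).trans (add_le_add hst (h2.trans (h3.trans h6))))

theorem criterion (κ K : ℝ) (hκ : 0 < κ) (hκ1 : κ ≤ 1) (hK : 1 ≤ K) : ∃ C : ℝ, 1 ≤ C ∧ ∃ n0 : ℕ, ∀ n q : ℕ, n0 ≤ n → 2 ≤ q →
    ∀ (G : Type) [Group G] [Fintype G] [DecidableEq G], (Fintype.card G : ℝ) ≤ (q : ℝ) ^ (K * (n : ℝ) ^ 2) →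
      (kc G : ℝ) ≤ ((n : ℝ) * q) ^ (K * n) → ∀ Bad : G → Prop,
      (∀ E : Matrix G G ℝ, IsBlock E → E ≠ Jm G → ∀ g : G, ¬ Bad g → |(E * Rm g).trace| ≤ Real.exp (-(κ * n)) * E.trace) →
      (∀ M : ℕ, ∀ γ : FreeGroup (Fin M), γ ≠ 1 → (γ.norm : ℝ) ≤ κ * n →
        frac (fun x : Fin M → G => Bad (FreeGroup.lift x γ)) ≤ (q : ℝ) ^ (-(κ * n))) →
      ∀ m : ℕ, C * Real.log ((n : ℝ) * q) ≤ m →
        (1 - (q : ℝ) ^ (-(κ * n / 8))) * (Nat.card G : ℝ) ^ m ≤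
          (Nat.card {x : Fin m → G // ∀ A : Set G, 2 * Nat.card A ≤ Nat.card G →
            1 / 8 * (Nat.card A : ℝ) ≤
              (Nat.card {g : G // g ∉ A ∧ ∃ a ∈ A, ∃ i : Fin m, g = a * x i ∨ g = a * (x i)⁻¹} : ℝ)} : ℝ) := by
  obtain ⟨n1, hn1⟩ := crit_num1 κ K hκ hκ1 hK
  obtain ⟨C', hC', n2, hn2⟩ := crit_num2 κ K hκ hκ1 hK
  refine ⟨2560 * C', by linarith, max n1 n2, fun n q hn hq G _ _ _ hcard hkc Bad hchar hfr m hm => ?_⟩
  obtain ⟨hnum, hq0⟩ := hn1 n q ((le_max_left _ _).trans hn) hq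
  obtain ⟨h, I, N, hh, hN, hNC, hD, hnum1, hnum2⟩ := hn2 n q ((le_max_right _ _).trans hn) hq
  have hκn : (0 : ℝ) ≤ κ * n := by positivity
  have hfl : ((⌊κ * n / 8⌋₊ : ℕ) : ℝ) ≤ κ * n / 8 := Nat.floor_le (by positivity)
  have hqp : (0 : ℝ) < q := by
    have : (2 : ℝ) ≤ q := by exact_mod_cast hq
    linarith
  have hst := start_all (N := N) (G := G) ⌊κ * n / 8⌋₊ ⌊κ * n / 8⌋₊ Bad ((q : ℝ) ^ (-(κ * n))) (Real.exp (-(κ * n)))
    ((2 : ℝ) ^ (-(κ * n / 2))) (Real.rpow_nonneg hqp.le _) (Real.exp_pos _).le (Real.rpow_pos_of_pos (by norm_num) _)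
    (fun M γ hγ hle => hfr M γ hγ (by
      have h1 : ((γ.norm : ℕ) : ℝ) ≤ ((2 * ⌊κ * n / 8⌋₊ : ℕ) : ℝ) := by exact_mod_cast hle
      push_cast at h1
      linarith))
    (fun E hE hEJ g hg => hchar E hE hEJ g hg) hnum
  have hall := SE4_all (G := G) h I N ⌊κ * n / 8⌋₊ hh hN hq0 (lt_of_le_of_lt hcard hD) hst
  have hN1 : 1 ≤ N := by omega
  have hm' : 2560 * N ≤ m := by
    have h1 : (2560 : ℝ) * N ≤ m := by
      refine le_trans ?_ hm
      rw [mul_assoc]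
      exact mul_le_mul_of_nonneg_left hNC (by norm_num)
    exact_mod_cast h1
  refine final_B hN1 hm' (hall.trans ?_)
  have h5 : (0 : ℝ) ≤ ((I : ℝ) + 1) * (4 ^ (N + 1) * (1 / 2 : ℝ) ^ (4 * h * ⌊κ * n / 8⌋₊)) := by positivity
  have h6 := (mul_le_mul_of_nonneg_right hkc h5).trans hnum1
  linarith

end Pool.Agent.BC5
end

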