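import Pool.Agent.Lib.MP_bc5a73_al.Inner

section
set_option autoImplicit false
set_option linter.unusedSectionVars false
set_option linter.unusedVariables false
open scoped BigOperators Matrix
open Matrix
namespace Pool.Agent.BC5

/-
ROW D1. Computations with swaps. cyc_pow_three also for a degenerate triple (cyc = 1).
-/

variable {n : ℕ}

theorem cyc_apply (t : Fin n × Fin n × Fin n) (h : t.1 ≠ t.2.1 ∧ t.1 ≠ t.2.2 ∧ t.2.1 ≠ t.2.2) :
    (cyc t : Equiv.Perm (Fin n)) t.1 = t.2.1 ∧ (cyc t : Equiv.Perm (Fin n)) t.2.1 = t.2.2 ∧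
      (cyc t : Equiv.Perm (Fin n)) t.2.2 = t.1 ∧
      ∀ x, x ≠ t.1 → x ≠ t.2.1 → x ≠ t.2.2 → (cyc t : Equiv.Perm (Fin n)) x = x := by
  obtain ⟨x, y, z⟩ := t
  have h' : x ≠ y ∧ x ≠ z ∧ y ≠ z := h
  have hc : ((cyc (x, y, z) : Alt n) : Equiv.Perm (Fin n)) = Equiv.swap x y * Equiv.swap y z := by
    unfold cyc
    rw [dif_pos h]
  refine ⟨?_, ?_, ?_, ?_⟩
  · show ((cyc (x, y, z) : Alt n) : Equiv.Perm (Fin n)) x = y
    rw [hc, Equiv.Perm.mul_apply, Equiv.swap_apply_of_ne_of_ne h'.1 h'.2.1, Equiv.swap_apply_left]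
  · show ((cyc (x, y, z) : Alt n) : Equiv.Perm (Fin n)) y = z
    rw [hc, Equiv.Perm.mul_apply, Equiv.swap_apply_left,
      Equiv.swap_apply_of_ne_of_ne h'.2.1.symm h'.2.2.symm]
  · show ((cyc (x, y, z) : Alt n) : Equiv.Perm (Fin n)) z = x
    rw [hc, Equiv.Perm.mul_apply, Equiv.swap_apply_right, Equiv.swap_apply_right]
  · intro w h1 h2 h3
    show ((cyc (x, y, z) : Alt n) : Equiv.Perm (Fin n)) w = w
    rw [hc, Equiv.Perm.mul_apply, Equiv.swap_apply_of_ne_of_ne h2 h3,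
      Equiv.swap_apply_of_ne_of_ne h1 h2]

theorem cyc_mem_AY {X : Finset (Fin n)} {t : Fin n × Fin n × Fin n} (ht : t ∈ trip X) : cyc t ∈ AY X := by
  rw [mem_trip] at ht
  rw [mem_AY]
  intro x hx
  refine (cyc_apply t ht.2).2.2.2 x ?_ ?_ ?_
  · rintro rfl; exact hx ht.1.1
  · rintro rfl; exact hx ht.1.2.1
  · rintro rfl; exact hx ht.1.2.2

/-- Extensionality for three-cycles: an even permutation with the right values is the cycle. -/
theorem D1_eq_cyc (g : Alt n) (x y z : Fin n) (h : x ≠ y ∧ x ≠ z ∧ y ≠ z)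
    (hx : (g : Equiv.Perm (Fin n)) x = y) (hy : (g : Equiv.Perm (Fin n)) y = z)
    (hz : (g : Equiv.Perm (Fin n)) z = x)
    (hw : ∀ w, w ≠ x → w ≠ y → w ≠ z → (g : Equiv.Perm (Fin n)) w = w) :
    g = cyc (x, y, z) := by
  obtain ⟨c1, c2, c3, c4⟩ := cyc_apply (x, y, z) h
  apply Subtype.ext
  apply Equiv.ext
  intro w
  by_cases h1 : w = x
  · subst h1; rw [hx]; exact c1.symm
  by_cases h2 : w = y
  · subst h2; rw [hy]; exact c2.symm
  by_cases h3 : w = z
  · subst h3; rw [hz]; exact c3.symm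
  · rw [hw w h1 h2 h3]; exact (c4 w h1 h2 h3).symm

theorem cyc_pow_three (t : Fin n × Fin n × Fin n) : cyc t * cyc t * cyc t = 1 := by
  by_cases h : t.1 ≠ t.2.1 ∧ t.1 ≠ t.2.2 ∧ t.2.1 ≠ t.2.2
  · obtain ⟨c1, c2, c3, c4⟩ := cyc_apply t h
    apply Subtype.ext
    apply Equiv.ext
    intro w
    show (cyc t : Equiv.Perm (Fin n)) ((cyc t : Equiv.Perm (Fin n))
      ((cyc t : Equiv.Perm (Fin n)) w)) = w
    by_cases h1 : w = t.1
    · rw [h1, c1, c2, c3]
    by_cases h2 : w = t.2.1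
    · rw [h2, c2, c3, c1]
    by_cases h3 : w = t.2.2
    · rw [h3, c3, c1, c2]
    · rw [c4 w h1 h2 h3, c4 w h1 h2 h3, c4 w h1 h2 h3]
  · have : cyc t = 1 := by
      unfold cyc
      rw [dif_neg h]
    rw [this, mul_one, mul_one]

theorem cyc_inv (x y z : Fin n) (h : x ≠ y ∧ x ≠ z ∧ y ≠ z) : (cyc (x, y, z))⁻¹ = cyc (z, y, x) := by
  obtain ⟨c1, c2, c3, c4⟩ := cyc_apply (x, y, z) h
  refine D1_eq_cyc _ z y x ⟨h.2.2.symm, h.2.1.symm, h.1.symm⟩ ?_ ?_ ?_ ?_
  · rw [Subgroup.coe_inv, Equiv.Perm.inv_eq_iff_eq]; exact c2.symm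
  · rw [Subgroup.coe_inv, Equiv.Perm.inv_eq_iff_eq]; exact c1.symm
  · rw [Subgroup.coe_inv, Equiv.Perm.inv_eq_iff_eq]; exact c3.symm
  · intro w h1 h2 h3
    rw [Subgroup.coe_inv, Equiv.Perm.inv_eq_iff_eq]
    exact (c4 w h3 h2 h1).symm

theorem cyc_conj (a : Alt n) (x y z : Fin n) (h : x ≠ y ∧ x ≠ z ∧ y ≠ z) :
    a * cyc (x, y, z) * a⁻¹ = cyc ((a : Equiv.Perm (Fin n)) x, (a : Equiv.Perm (Fin n)) y, (a : Equiv.Perm (Fin n)) z) := by
  obtain ⟨c1, c2, c3, c4⟩ := cyc_apply (x, y, z) h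
  have key : ∀ w, ((a * cyc (x, y, z) * a⁻¹ : Alt n) : Equiv.Perm (Fin n))
      ((a : Equiv.Perm (Fin n)) w) = (a : Equiv.Perm (Fin n))
        ((cyc (x, y, z) : Equiv.Perm (Fin n)) w) := by
    intro w
    have hinv : (a : Equiv.Perm (Fin n))⁻¹ ((a : Equiv.Perm (Fin n)) w) = w := by
      rw [Equiv.Perm.inv_eq_iff_eq]
    rw [Subgroup.coe_mul, Subgroup.coe_mul, Subgroup.coe_inv, Equiv.Perm.mul_apply,
      Equiv.Perm.mul_apply, hinv]
  have inj := (a : Equiv.Perm (Fin n)).injective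
  refine D1_eq_cyc _ _ _ _ ⟨fun e => h.1 (inj e), fun e => h.2.1 (inj e), fun e => h.2.2 (inj e)⟩
    ?_ ?_ ?_ ?_
  · rw [key]; exact congrArg _ c1
  · rw [key]; exact congrArg _ c2
  · rw [key]; exact congrArg _ c3
  · intro w h1 h2 h3
    obtain ⟨v, rfl⟩ := (a : Equiv.Perm (Fin n)).surjective w
    rw [key]
    exact congrArg _ (c4 v (fun e => h1 (congrArg _ e)) (fun e => h2 (congrArg _ e))
      (fun e => h3 (congrArg _ e)))

end Pool.Agent.BC5
end

section
set_option autoImplicit false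
set_option linter.unusedSectionVars false
set_option linter.unusedVariables false
open scoped BigOperators Matrix
open Matrix
namespace Pool.Agent.BC5

/-
ROW D2. Count: choose t.1 ∈ X, t.2.1 ∈ X.erase t.1, t.2.2 ∈ (X.erase t.1).erase t.2.1 (Finset.card_sigma or card_eq_sum_card_fiberwise), or Fintype.card_embedding for Fin 3 ↪ X. ℕ-subtraction as stated.
-/

variable {n : ℕ}

theorem card_trip (X : Finset (Fin n)) : (trip X).card = X.card * (X.card - 1) * (X.card - 2) := by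
  classical
  have h1 : (trip X).card
      = (X.sigma (fun a => (X.erase a).sigma (fun b => (X.erase a).erase b))).card := by
    refine Finset.card_nbij' (fun t => ⟨t.1, ⟨t.2.1, t.2.2⟩⟩) (fun s => (s.1, s.2.1, s.2.2)) ?_ ?_ ?_ ?_
    · intro t ht
      have ht' := (mem_trip X t).1 ht
      obtain ⟨⟨ha, hb, hc⟩, hab, hac, hbc⟩ := ht'
      simp only [Finset.coe_sigma, Set.mem_sigma_iff, Finset.mem_coe, Finset.mem_erase, ne_eq]
      exact ⟨ha, ⟨fun h => hab h.symm, hb⟩, fun h => hbc h.symm, fun h => hac h.symm, hc⟩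
    · rintro ⟨a, b, c⟩ hs
      simp only [Finset.coe_sigma, Set.mem_sigma_iff, Finset.mem_coe, Finset.mem_erase, ne_eq] at hs
      obtain ⟨ha, ⟨hab, hb⟩, hcb, hca, hc⟩ := hs
      have : (a, b, c) ∈ trip X := (mem_trip X (a, b, c)).2
        ⟨⟨ha, hb, hc⟩, fun h => hab h.symm, fun h => hca h.symm, fun h => hcb h.symm⟩
      exact this
    · intro t _
      rfl
    · rintro ⟨a, b, c⟩ _
      rfl
  rw [h1, Finset.card_sigma]
  have h2 : ∀ a ∈ X, ((X.erase a).sigma (fun b => (X.erase a).erase b)).card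
      = (X.card - 1) * (X.card - 2) := by
    intro a ha
    rw [Finset.card_sigma]
    have h3 : ∀ b ∈ X.erase a, ((X.erase a).erase b).card = X.card - 2 := by
      intro b hb
      rw [Finset.card_erase_of_mem hb, Finset.card_erase_of_mem ha]
      omega
    rw [Finset.sum_congr rfl h3, Finset.sum_const, Finset.card_erase_of_mem ha, smul_eq_mul]
  rw [Finset.sum_congr rfl h2, Finset.sum_const, smul_eq_mul, mul_assoc]

end Pool.Agent.BC5
end

section
set_option autoImplicit false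
set_option linter.unusedSectionVars false
set_option linter.unusedVariables false
open scoped BigOperators Matrix
open Matrix
namespace Pool.Agent.BC5

/-
ROW D3. Delta_transpose: Lm(cyc t)ᵀ = Lm(cyc t)⁻¹ = Lm(cyc (reversed t)), reindex. Delta_comm_Lm: Lm a * Delta * Lm a⁻¹ = Delta: cyc_conj, reindex trip X by a (a ∈ AY X maps X to X).
-/

variable {n : ℕ}

theorem Delta_transpose (X : Finset (Fin n)) : (Delta X)ᵀ = Delta X := by
  unfold Delta
  rw [Matrix.transpose_smul, Matrix.transpose_sum]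
  congr 1
  refine Finset.sum_nbij' (fun t => (t.2.2, t.2.1, t.1)) (fun t => (t.2.2, t.2.1, t.1)) ?_ ?_ ?_ ?_ ?_
  · intro t ht
    rw [mem_trip] at ht ⊢
    exact ⟨⟨ht.1.2.2, ht.1.2.1, ht.1.1⟩, Ne.symm ht.2.2.2, Ne.symm ht.2.2.1, Ne.symm ht.2.1⟩
  · intro t ht
    rw [mem_trip] at ht ⊢
    exact ⟨⟨ht.1.2.2, ht.1.2.1, ht.1.1⟩, Ne.symm ht.2.2.2, Ne.symm ht.2.2.1, Ne.symm ht.2.1⟩
  · intro t _; rfl
  · intro t _; rfl
  · intro t ht
    rw [mem_trip] at ht
    obtain ⟨x, y, z⟩ := t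
    rw [Lm_transpose, cyc_inv x y z ht.2]

theorem Delta_commR (X : Finset (Fin n)) : CommR (Delta X) := by
  intro g
  unfold Delta
  exact (Commute.sum_left _ _ _ (fun t _ => commR_Lm (cyc t) g)).smul_left _

theorem D3_map_mem (X : Finset (Fin n)) (a : Alt n) (ha : a ∈ AY X) (x : Fin n) (hx : x ∈ X) :
    (a : Equiv.Perm (Fin n)) x ∈ X := by
  by_contra h
  have h1 := (mem_AY X a).mp ha _ h
  have h2 : (a : Equiv.Perm (Fin n)) x = x := (a : Equiv.Perm (Fin n)).injective h1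
  exact h (h2.symm ▸ hx)

theorem Delta_comm_Lm (X : Finset (Fin n)) (a : Alt n) (ha : a ∈ AY X) : Commute (Delta X) (Lm a) := by
  have hinv : a⁻¹ ∈ AY X := (AY_isGrp X).inv a ha
  have hsum : (∑ t ∈ trip X, Lm (cyc t)) * Lm a = Lm a * ∑ t ∈ trip X, Lm (cyc t) := by
    rw [Finset.sum_mul, Finset.mul_sum]
    symm
    refine Finset.sum_nbij'
      (fun t => ((a : Equiv.Perm (Fin n)) t.1, (a : Equiv.Perm (Fin n)) t.2.1, (a : Equiv.Perm (Fin n)) t.2.2))
      (fun t => ((a⁻¹ : Equiv.Perm (Fin n)) t.1, (a⁻¹ : Equiv.Perm (Fin n)) t.2.1, (a⁻¹ : Equiv.Perm (Fin n)) t.2.2))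
      ?_ ?_ ?_ ?_ ?_
    · intro t ht
      rw [mem_trip] at ht ⊢
      refine ⟨⟨D3_map_mem X a ha _ ht.1.1, D3_map_mem X a ha _ ht.1.2.1, D3_map_mem X a ha _ ht.1.2.2⟩, ?_, ?_, ?_⟩
      · exact fun h => ht.2.1 ((a : Equiv.Perm (Fin n)).injective h)
      · exact fun h => ht.2.2.1 ((a : Equiv.Perm (Fin n)).injective h)
      · exact fun h => ht.2.2.2 ((a : Equiv.Perm (Fin n)).injective h)
    · intro t ht
      rw [mem_trip] at ht ⊢
      refine ⟨⟨D3_map_mem X a⁻¹ hinv _ ht.1.1, D3_map_mem X a⁻¹ hinv _ ht.1.2.1, D3_map_mem X a⁻¹ hinv _ ht.1.2.2⟩, ?_, ?_, ?_⟩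
      · exact fun h => ht.2.1 ((a⁻¹ : Equiv.Perm (Fin n)).injective h)
      · exact fun h => ht.2.2.1 ((a⁻¹ : Equiv.Perm (Fin n)).injective h)
      · exact fun h => ht.2.2.2 ((a⁻¹ : Equiv.Perm (Fin n)).injective h)
    · intro t _
      simp
    · intro t _
      simp
    · intro t ht
      rw [mem_trip] at ht
      obtain ⟨x, y, z⟩ := t
      show Lm a * Lm (cyc (x, y, z)) = Lm (cyc ((a : Equiv.Perm (Fin n)) x, (a : Equiv.Perm (Fin n)) y, (a : Equiv.Perm (Fin n)) z)) * Lm a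
      rw [← cyc_conj a x y z ht.2, ← Lm_mul, ← Lm_mul]
      congr 1
      group
  show Delta X * Lm a = Lm a * Delta X
  unfold Delta
  rw [Matrix.smul_mul, Matrix.mul_smul, hsum]

end Pool.Agent.BC5
end

section
set_option autoImplicit false
set_option linter.unusedSectionVars false
set_option linter.unusedVariables false
open scoped BigOperators Matrix
open Matrix
namespace Pool.Agent.BC5

/-
ROW D4. order_three_pr: the transpose exchanges Lm c and Lm(c*c) (= Lm c⁻¹); the square: (1+c+c²)² = 3(1+c+c²). qf_order_three_ge: 0 ≤ qf(1+Lm c+Lm(cc)) v = v·v + 2 qf(Lm c) v (qf(Mᵀ) = qf M). qf_Delta_ge: average over trip X (nonempty for card ≥ 3).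
-/

variable {n : ℕ}

theorem D4_qf_transpose {V : Type} [Fintype V] [DecidableEq V] (M : Matrix V V ℝ) (f : V → ℝ) :
    qf Mᵀ f = qf M f := by
  unfold qf
  rw [Matrix.mulVec_transpose, dotProduct_comm, ← Matrix.dotProduct_mulVec]

/-- For an element of order three `(1 + L(c) + L(c)²)/3` is a projection. -/
theorem order_three_pr (c : Alt n) (hc : c * c * c = 1) : IsPr ((1 / 3 : ℝ) • (1 + Lm c + Lm (c * c))) := by
  have h1 : c⁻¹ = c * c := (eq_inv_of_mul_eq_one_left hc).symm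
  have h2 : (c * c)⁻¹ = c := by rw [← h1, inv_inv]
  have e1 : (Lm c)ᵀ = Lm (c * c) := by rw [Lm_transpose, h1]
  have e2 : (Lm (c * c))ᵀ = Lm c := by rw [Lm_transpose, h2]
  have f1 : Lm c * Lm c = Lm (c * c) := (Lm_mul c c).symm
  have f2 : Lm (c * c) * Lm c = 1 := by rw [← Lm_mul, hc, Lm_one]
  have f3 : Lm c * Lm (c * c) = 1 := by rw [← Lm_mul, ← mul_assoc, hc, Lm_one]
  have f4 : Lm (c * c) * Lm (c * c) = Lm c := by
    rw [← Lm_mul, ← mul_assoc, hc, one_mul]
  constructor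
  · rw [Matrix.transpose_smul, Matrix.transpose_add, Matrix.transpose_add, Matrix.transpose_one,
      e1, e2, add_assoc, add_assoc, add_comm (Lm (c * c)) (Lm c)]
  · rw [Matrix.smul_mul, Matrix.mul_smul, smul_smul]
    have h3 : (1 + Lm c + Lm (c * c)) * (1 + Lm c + Lm (c * c)) =
        (3 : ℝ) • (1 + Lm c + Lm (c * c)) := by
      rw [mul_add, mul_add, mul_one, add_mul, add_mul, one_mul, add_mul, add_mul, one_mul, f1, f2,
        f3, f4]
      module
    rw [h3, smul_smul]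
    norm_num

theorem qf_order_three_ge (c : Alt n) (hc : c * c * c = 1) (v : Alt n → ℝ) : -(1 / 2) * (v ⬝ᵥ v) ≤ qf (Lm c) v := by
  have h0 := qf_pr_nonneg (order_three_pr c hc) v
  rw [qf_smul, qf_add, qf_add, qf_one] at h0
  have h1 : c⁻¹ = c * c := (eq_inv_of_mul_eq_one_left hc).symm
  have e1 : (Lm c)ᵀ = Lm (c * c) := by rw [Lm_transpose, h1]
  have h2 : qf (Lm (c * c)) v = qf (Lm c) v := by rw [← e1, D4_qf_transpose]
  rw [h2] at h0
  linarith

/-- Paper 9.1. -/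
theorem qf_Delta_ge (X : Finset (Fin n)) (hX : 3 ≤ X.card) (v : Alt n → ℝ) : -(1 / 2) * (v ⬝ᵥ v) ≤ qf (Delta X) v := by
  obtain ⟨a, b, c, ha, hb, hc, hab, hac, hbc⟩ := Finset.two_lt_card_iff.1 (by omega : 2 < X.card)
  have hne : (a, b, c) ∈ trip X := (mem_trip X (a, b, c)).2 ⟨⟨ha, hb, hc⟩, hab, hac, hbc⟩
  have hpos : (0 : ℝ) < ((trip X).card : ℝ) := by
    exact_mod_cast Finset.card_pos.2 ⟨_, hne⟩
  unfold Delta
  rw [qf_smul, qf_sum]
  have h1 : ((trip X).card : ℝ) * (-(1 / 2) * (v ⬝ᵥ v)) ≤ ∑ t ∈ trip X, qf (Lm (cyc t)) v := by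
    rw [← nsmul_eq_mul]
    exact Finset.card_nsmul_le_sum _ _ _ fun t _ => qf_order_three_ge (cyc t) (cyc_pow_three t) v
  rw [← div_eq_inv_mul, le_div_iff₀ hpos]
  linarith

end Pool.Agent.BC5
end

section
set_option autoImplicit false
set_option linter.unusedSectionVars false
set_option linter.unusedVariables false
open scoped BigOperators Matrix
open Matrix
namespace Pool.Agent.BC5

/-
ROW D5. For t ∈ trip X, Y = {the three points}: AY Y = {1, c, c*c}, c = cyc t (an even permutation of 3 points: the only ones are the powers of c), so avL(AY Y) = (1/3)(1+Lm c+Lm(cc)) and applied to v = P v it is 0: v·v + 2 qf(Lm c) v = 0. Average over trip X (nonempty).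
-/

variable {n : ℕ}

theorem D5_two (τ : Alt n) (y z : Fin n) (hyz : y ≠ z)
    (h : ∀ w, w ≠ y → w ≠ z → (τ : Equiv.Perm (Fin n)) w = w) : τ = 1 := by
  have inj := (τ : Equiv.Perm (Fin n)).injective
  have hfix : ∀ w u, (τ : Equiv.Perm (Fin n)) w = u → u ≠ w → u = y ∨ u = z := by
    intro w u h1 h2
    by_contra h3
    rw [not_or] at h3
    exact h2 (inj ((h u h3.1 h3.2).trans h1.symm))
  by_cases hy : (τ : Equiv.Perm (Fin n)) y = y
  · have hz : (τ : Equiv.Perm (Fin n)) z = z := by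
      by_contra hz
      rcases hfix z _ rfl hz with h1 | h1
      · exact hyz (inj (hy.trans h1.symm))
      · exact hz h1
    apply Subtype.ext
    apply Equiv.ext
    intro w
    by_cases h1 : w = y
    · rw [h1, hy]; rfl
    · by_cases h2 : w = z
      · rw [h2, hz]; rfl
      · rw [h w h1 h2]; rfl
  · exfalso
    have hyz' : (τ : Equiv.Perm (Fin n)) y = z := by
      rcases hfix y _ rfl hy with h1 | h1
      · exact absurd h1 hy
      · exact h1
    have hzy' : (τ : Equiv.Perm (Fin n)) z = y := by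
      have hz : (τ : Equiv.Perm (Fin n)) z ≠ z := fun h' => hyz (inj (hyz'.trans h'.symm))
      rcases hfix z _ rfl hz with h1 | h1
      · exact h1
      · exact absurd h1 hz
    have hsw : (τ : Equiv.Perm (Fin n)) = Equiv.swap y z := by
      apply Equiv.ext
      intro w
      by_cases h1 : w = y
      · rw [h1, hyz', Equiv.swap_apply_left]
      · by_cases h2 : w = z
        · rw [h2, hzy', Equiv.swap_apply_right]
        · rw [h w h1 h2, Equiv.swap_apply_of_ne_of_ne h1 h2]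
    have h1 := Equiv.Perm.mem_alternatingGroup.1 τ.2
    rw [hsw, Equiv.Perm.sign_swap hyz] at h1
    exact absurd h1 (by decide)

theorem D5_AY (x y z : Fin n) (h : x ≠ y ∧ x ≠ z ∧ y ≠ z) :
    AY ({x, y, z} : Finset (Fin n)) = {1, cyc (x, y, z), cyc (x, y, z) * cyc (x, y, z)} := by
  obtain ⟨c1, c2, c3, c4⟩ := cyc_apply (x, y, z) h
  simp only at c1 c2 c3 c4
  have hgrp := AY_isGrp ({x, y, z} : Finset (Fin n))
  have hc : cyc (x, y, z) ∈ AY ({x, y, z} : Finset (Fin n)) := by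
    rw [mem_AY]
    intro w hw
    simp only [Finset.mem_insert, Finset.mem_singleton, not_or] at hw
    exact c4 w hw.1 hw.2.1 hw.2.2
  have key : ∀ τ ∈ AY ({x, y, z} : Finset (Fin n)), (τ : Equiv.Perm (Fin n)) x = x → τ = 1 := by
    intro τ hτ hx
    refine D5_two τ y z h.2.2 fun w h1 h2 => ?_
    by_cases h3 : w = x
    · rw [h3, hx]
    · exact (mem_AY _ _).1 hτ w (by simp [h1, h2, h3])
  ext σ
  simp only [Finset.mem_insert, Finset.mem_singleton]
  constructor
  · intro hσ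
    by_cases h0 : (σ : Equiv.Perm (Fin n)) x = x
    · exact Or.inl (key σ hσ h0)
    · have h1 : (σ : Equiv.Perm (Fin n)) x = y ∨ (σ : Equiv.Perm (Fin n)) x = z := by
        by_contra h1
        rw [not_or] at h1
        have h2 := (mem_AY _ _).1 hσ ((σ : Equiv.Perm (Fin n)) x) (by simp [h0, h1.1, h1.2])
        exact h0 ((σ : Equiv.Perm (Fin n)).injective h2)
      rcases h1 with h1 | h1
      · right; left
        have h2 := key ((cyc (x, y, z))⁻¹ * σ) (hgrp.mul _ (hgrp.inv _ hc) _ hσ) (by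
          rw [Subgroup.coe_mul, Equiv.Perm.mul_apply, h1, Subgroup.coe_inv,
            Equiv.Perm.inv_eq_iff_eq]
          exact c1.symm)
        exact (inv_mul_eq_one.1 h2).symm
      · right; right
        have h2 := key ((cyc (x, y, z) * cyc (x, y, z))⁻¹ * σ)
          (hgrp.mul _ (hgrp.inv _ (hgrp.mul _ hc _ hc)) _ hσ) (by
          have h3 : ((cyc (x, y, z) * cyc (x, y, z) : Alt n) : Equiv.Perm (Fin n)) x = z := by
            rw [Subgroup.coe_mul, Equiv.Perm.mul_apply, c1, c2]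
          rw [Subgroup.coe_mul, Equiv.Perm.mul_apply, h1, Subgroup.coe_inv,
            Equiv.Perm.inv_eq_iff_eq]
          exact h3.symm)
        exact (inv_mul_eq_one.1 h2).symm
  · rintro (h1 | h1 | h1)
    · rw [h1]; exact hgrp.one
    · rw [h1]; exact hc
    · rw [h1]; exact hgrp.mul _ hc _ hc

theorem D5_one (t : Fin n × Fin n × Fin n) (ht : t.1 ≠ t.2.1 ∧ t.1 ≠ t.2.2 ∧ t.2.1 ≠ t.2.2)
    (v : Alt n → ℝ) (hv : avL (AY ({t.1, t.2.1, t.2.2} : Finset (Fin n))) *ᵥ v = 0) :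
    qf (Lm (cyc t)) v = -(1 / 2) * (v ⬝ᵥ v) := by
  obtain ⟨x, y, z⟩ := t
  obtain ⟨c1, c2, c3, c4⟩ := cyc_apply (x, y, z) ht
  simp only at c1 c2 c3 c4 ht hv
  rw [D5_AY x y z ht] at hv
  have n1 : cyc (x, y, z) ≠ 1 := by
    intro h
    rw [h] at c1
    exact ht.1 c1
  have n3 : cyc (x, y, z) ≠ cyc (x, y, z) * cyc (x, y, z) := fun h => n1 (by
    have := mul_left_cancel (a := cyc (x, y, z)) (b := 1) (c := cyc (x, y, z)) (by rw [mul_one]; exact h)
    exact this.symm)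
  have n2 : (1 : Alt n) ≠ cyc (x, y, z) * cyc (x, y, z) := by
    intro h
    have h3 : ((cyc (x, y, z) * cyc (x, y, z) : Alt n) : Equiv.Perm (Fin n)) x = z := by
      rw [Subgroup.coe_mul, Equiv.Perm.mul_apply, c1, c2]
    rw [← h] at h3
    exact ht.2.1 h3
  have h3 : cyc (x, y, z) * cyc (x, y, z) = (cyc (x, y, z))⁻¹ :=
    eq_inv_of_mul_eq_one_left (cyc_pow_three (x, y, z))
  have hq : qf (avL ({1, cyc (x, y, z), cyc (x, y, z) * cyc (x, y, z)} : Finset (Alt n))) v = 0 := by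
    rw [qf, hv, dotProduct_zero]
  have hcard : ({1, cyc (x, y, z), cyc (x, y, z) * cyc (x, y, z)} : Finset (Alt n)).card = 3 :=
    Finset.card_eq_three.2 ⟨_, _, _, n1.symm, n2, n3, rfl⟩
  rw [avL, qf_smul, qf_sum, hcard, Finset.sum_insert (by simp [n1.symm, n2]),
    Finset.sum_insert (by simp [n3]), Finset.sum_singleton, Lm_one, qf_one, h3] at hq
  have hqi : qf (Lm (cyc (x, y, z))⁻¹) v = qf (Lm (cyc (x, y, z))) v := by
    rw [← Lm_transpose, qf, qf, Matrix.mulVec_transpose, dotProduct_comm, Matrix.dotProduct_mulVec]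
  rw [hqi] at hq
  norm_num at hq
  linarith

/-- Paper 9.2 (i): no vector in the range of `P` is fixed by a three-cycle of `X`. -/
theorem Delta_of_no_fixed (X : Finset (Fin n)) (hX : 3 ≤ X.card) (P : Matrix (Alt n) (Alt n) ℝ) (hP : IsPr P)
    (hPX : ∀ a ∈ AY X, Commute P (Lm a)) (hno : ∀ Y, Y ⊆ X → 3 ≤ Y.card → avL (AY Y) * P = 0)
    (v : Alt n → ℝ) (hv : P *ᵥ v = v) : qf (Delta X) v = -(1 / 2) * (v ⬝ᵥ v) := by
  have hne : (trip X).Nonempty := by
    obtain ⟨a, ha, b, hb, c, hc, h1, h2, h3⟩ := Finset.two_lt_card.1 (by omega : 2 < X.card)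
    exact ⟨(a, b, c), (mem_trip X _).2 ⟨⟨ha, hb, hc⟩, h1, h2, h3⟩⟩
  have hcard : ((trip X).card : ℝ) ≠ 0 := by
    exact_mod_cast hne.card_pos.ne'
  have h1 : ∀ t ∈ trip X, qf (Lm (cyc t)) v = -(1 / 2) * (v ⬝ᵥ v) := by
    intro t ht
    obtain ⟨⟨ha, hb, hc⟩, hd⟩ := (mem_trip X t).1 ht
    refine D5_one t hd v ?_
    have h2 := hno ({t.1, t.2.1, t.2.2} : Finset (Fin n)) (by
      intro w hw
      simp only [Finset.mem_insert, Finset.mem_singleton] at hw
      rcases hw with h | h | h <;> rw [h] <;> assumption)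
      (le_of_eq (Finset.card_eq_three.2 ⟨_, _, _, hd.1, hd.2.1, hd.2.2, rfl⟩).symm)
    rw [← hv, Matrix.mulVec_mulVec, h2, Matrix.zero_mulVec]
  rw [Delta, qf_smul, qf_sum, Finset.sum_congr rfl h1, Finset.sum_const, nsmul_eq_mul,
    ← mul_assoc, inv_mul_cancel₀ hcard, one_mul]

end Pool.Agent.BC5
end

section
set_option autoImplicit false
set_option linter.unusedSectionVars false
set_option linter.unusedVariables false
open scoped BigOperators Matrix
open Matrix
namespace Pool.Agent.BC5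

/-
ROW D6. card(trip X) * qf(Delta X) v = ∑_{t ∈ trip X} qf(Lm(cyc t)) v (both sides 0 if trip X is empty), split into trip Y, trip(X\Y) (disjoint subsets of trip X) and the rest.
-/

variable {n : ℕ}

theorem D6_card_qf (X : Finset (Fin n)) (v : Alt n → ℝ) :
    ((trip X).card : ℝ) * qf (Delta X) v = ∑ t ∈ trip X, qf (Lm (cyc t)) v := by
  rcases Nat.eq_zero_or_pos (trip X).card with h | h
  · have h1 : trip X = ∅ := Finset.card_eq_zero.1 h
    rw [h1]
    simp
  · have h1 : ((trip X).card : ℝ) ≠ 0 := by exact_mod_cast h.ne'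
    unfold Delta
    rw [qf_smul, qf_sum, ← mul_assoc, mul_inv_cancel₀ h1, one_mul]

theorem D6_trip_mono {X Y : Finset (Fin n)} (h : Y ⊆ X) : trip Y ⊆ trip X := by
  intro t ht
  rw [mem_trip] at *
  exact ⟨⟨h ht.1.1, h ht.1.2.1, h ht.1.2.2⟩, ht.2⟩

/-- The triples inside `Y`, inside `S = X \ Y`, and the others. -/
theorem qf_Delta_split (X Y : Finset (Fin n)) (hY : Y ⊆ X) (v : Alt n → ℝ) (β : ℝ) (w : ℝ)
    (h1 : ∀ t ∈ trip Y, qf (Lm (cyc t)) v ≤ w)
    (h2 : ∀ t ∈ trip X, t ∉ trip Y → t ∉ trip (X \ Y) → qf (Lm (cyc t)) v ≤ β) :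
    ((trip X).card : ℝ) * qf (Delta X) v ≤ ((trip Y).card : ℝ) * w + ((trip (X \ Y)).card : ℝ) * qf (Delta (X \ Y)) v
      + (((trip X).card : ℝ) - (trip Y).card - (trip (X \ Y)).card) * β := by
  have hd : Disjoint (trip Y) (trip (X \ Y)) := by
    rw [Finset.disjoint_left]
    intro t ht ht'
    rw [mem_trip] at ht ht'
    exact (Finset.mem_sdiff.1 ht'.1.1).2 ht.1.1
  have hsub : trip Y ∪ trip (X \ Y) ⊆ trip X :=
    Finset.union_subset (D6_trip_mono hY) (D6_trip_mono Finset.sdiff_subset)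
  rw [D6_card_qf X, D6_card_qf (X \ Y), ← Finset.sum_sdiff hsub, Finset.sum_union hd]
  have hc : ((trip X \ (trip Y ∪ trip (X \ Y))).card : ℝ) =
      ((trip X).card : ℝ) - (trip Y).card - (trip (X \ Y)).card := by
    have h3 := Finset.card_sdiff_add_card_eq_card hsub
    rw [Finset.card_union_of_disjoint hd] at h3
    have h4 : ((trip X \ (trip Y ∪ trip (X \ Y))).card : ℝ) +
        ((trip Y).card + (trip (X \ Y)).card) = (trip X).card := by exact_mod_cast h3
    linarith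
  have h5 : ∑ t ∈ trip X \ (trip Y ∪ trip (X \ Y)), qf (Lm (cyc t)) v ≤
      (((trip X).card : ℝ) - (trip Y).card - (trip (X \ Y)).card) * β := by
    rw [← hc, ← nsmul_eq_mul, ← Finset.sum_const]
    apply Finset.sum_le_sum
    intro t ht
    rw [Finset.mem_sdiff, Finset.mem_union, not_or] at ht
    exact h2 t ht.1 ht.2.1 ht.2.2
  have h6 : ∑ t ∈ trip Y, qf (Lm (cyc t)) v ≤ ((trip Y).card : ℝ) * w := by
    rw [← nsmul_eq_mul, ← Finset.sum_const]
    exact Finset.sum_le_sum h1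
  linarith

end Pool.Agent.BC5
end

section
set_option autoImplicit false
set_option linter.unusedSectionVars false
set_option linter.unusedVariables false
open scoped BigOperators Matrix
open Matrix
namespace Pool.Agent.BC5

/-
ROW D7. Mixed triple: one or two of its three points are in Y. cyc t only moves the three points. If exactly one point y is in Y: img \ Y = {cyc y}. If exactly two, say y → y' → s → y (cyclic): img(Y) \ Y = {s}. Finite case analysis (6 cases).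
-/

variable {n : ℕ}

/-- A mixed three-cycle moves exactly one point of `Y` out of `Y`. -/
theorem card_img_mixed (X Y : Finset (Fin n)) (hY : Y ⊆ X) (t : Fin n × Fin n × Fin n) (ht : t ∈ trip X)
    (h1 : t ∉ trip Y) (h2 : t ∉ trip (X \ Y)) : (img (cyc t) Y \ Y).card = 1 := by
  obtain ⟨a, b, c⟩ := t
  rw [mem_trip] at ht h1 h2
  obtain ⟨⟨haX, hbX, hcX⟩, hab, hac, hbc⟩ := ht
  simp only at haX hbX hcX hab hac hbc
  obtain ⟨ca, cb, cc, co⟩ := cyc_apply (a, b, c) ⟨hab, hac, hbc⟩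
  simp only at ca cb cc co
  have h1' : ¬ (a ∈ Y ∧ b ∈ Y ∧ c ∈ Y) := fun h => h1 ⟨h, hab, hac, hbc⟩
  have h2' : ¬ (a ∉ Y ∧ b ∉ Y ∧ c ∉ Y) := fun h => h2
    ⟨⟨Finset.mem_sdiff.2 ⟨haX, h.1⟩, Finset.mem_sdiff.2 ⟨hbX, h.2.1⟩, Finset.mem_sdiff.2 ⟨hcX, h.2.2⟩⟩,
      hab, hac, hbc⟩
  have key : ∀ x, x ∈ img (cyc (a, b, c)) Y \ Y ↔
      ((x = b ∧ a ∈ Y) ∨ (x = c ∧ b ∈ Y) ∨ (x = a ∧ c ∈ Y)) ∧ x ∉ Y := by
    intro x
    rw [Finset.mem_sdiff, img, Finset.mem_image]
    constructor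
    · rintro ⟨⟨y, hy, rfl⟩, hx⟩
      refine ⟨?_, hx⟩
      by_cases h1 : y = a
      · subst h1; exact Or.inl ⟨ca, hy⟩
      by_cases h2 : y = b
      · subst h2; exact Or.inr (Or.inl ⟨cb, hy⟩)
      by_cases h3 : y = c
      · subst h3; exact Or.inr (Or.inr ⟨cc, hy⟩)
      exfalso
      rw [co y h1 h2 h3] at hx
      exact hx hy
    · rintro ⟨h, hx⟩
      refine ⟨?_, hx⟩
      rcases h with ⟨rfl, h⟩ | ⟨rfl, h⟩ | ⟨rfl, h⟩
      · exact ⟨a, h, ca⟩
      · exact ⟨b, h, cb⟩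
      · exact ⟨c, h, cc⟩
  rw [Finset.card_eq_one]
  by_cases ha : a ∈ Y
  · by_cases hb : b ∈ Y
    · have hc : c ∉ Y := fun hc => h1' ⟨ha, hb, hc⟩
      refine ⟨c, ?_⟩
      ext x
      rw [key, Finset.mem_singleton]
      constructor
      · rintro ⟨h | h | h, hx⟩
        · exact absurd (h.1 ▸ hb) hx
        · exact h.1
        · exact absurd h.2 hc
      · rintro rfl
        exact ⟨Or.inr (Or.inl ⟨rfl, hb⟩), hc⟩
    · refine ⟨b, ?_⟩
      ext x
      rw [key, Finset.mem_singleton]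
      constructor
      · rintro ⟨h | h | h, hx⟩
        · exact h.1
        · exact absurd h.2 hb
        · exact absurd (h.1 ▸ ha) hx
      · rintro rfl
        exact ⟨Or.inl ⟨rfl, ha⟩, hb⟩
  · by_cases hc : c ∈ Y
    · refine ⟨a, ?_⟩
      ext x
      rw [key, Finset.mem_singleton]
      constructor
      · rintro ⟨h | h | h, hx⟩
        · exact absurd h.2 ha
        · exact absurd (h.1 ▸ hc) hx
        · exact h.1
      · rintro rfl
        exact ⟨Or.inr (Or.inr ⟨rfl, hc⟩), ha⟩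
    · have hb : b ∈ Y := by
        by_contra hb
        exact h2' ⟨ha, hb, hc⟩
      refine ⟨c, ?_⟩
      ext x
      rw [key, Finset.mem_singleton]
      constructor
      · rintro ⟨h | h | h, hx⟩
        · exact absurd h.2 ha
        · exact h.1
        · exact absurd h.2 hc
      · rintro rfl
        exact ⟨Or.inr (Or.inl ⟨rfl, hb⟩), hc⟩

end Pool.Agent.BC5
end

section
set_option autoImplicit false
set_option linter.unusedSectionVars false
set_option linter.unusedVariables false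
open scoped BigOperators Matrix
open Matrix
namespace Pool.Agent.BC5

/-
ROW D9. The finite set of Y ⊆ X with 2 ≤ card Y, avL(AY Y)*P ≠ 0 is nonempty (a 2-element subset: AY = {1}, avL = 1); take one of maximal card.
-/

variable {n : ℕ}

/-- Paper 9.2: choice of the maximal `Y` in the top eigenspace. -/
theorem exists_max_fixed (X : Finset (Fin n)) (hX : 2 ≤ X.card) (P : Matrix (Alt n) (Alt n) ℝ) (hP : P ≠ 0) :
    ∃ Y, Y ⊆ X ∧ 2 ≤ Y.card ∧ avL (AY Y) * P ≠ 0 ∧ ∀ Z, Z ⊆ X → Y.card + 1 ≤ Z.card → avL (AY Z) * P = 0 := by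
  classical
  obtain ⟨Y0, hY0, hc⟩ := Finset.exists_subset_card_eq hX
  have h1 : avL (AY Y0) * P = P := by
    rw [AY_eq_of_card_le_two Y0 hc.le]
    simp [avL, Lm_one]
  let F : Finset (Finset (Fin n)) := X.powerset.filter (fun Y => 2 ≤ Y.card ∧ avL (AY Y) * P ≠ 0)
  have hF : F.Nonempty := ⟨Y0, by
    rw [Finset.mem_filter, Finset.mem_powerset]
    exact ⟨hY0, hc.ge, by rwa [h1]⟩⟩
  obtain ⟨Y, hY, hmax⟩ := Finset.exists_max_image F (fun Y => Y.card) hF
  rw [Finset.mem_filter, Finset.mem_powerset] at hY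
  refine ⟨Y, hY.1, hY.2.1, hY.2.2, fun Z hZ hZc => ?_⟩
  by_contra hne
  have h2 : Z ∈ F := by
    rw [Finset.mem_filter, Finset.mem_powerset]
    exact ⟨hZ, by have := hY.2.1; omega, hne⟩
  have h3 := hmax Z h2
  omega

end Pool.Agent.BC5
end

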