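import Mathlib

section
set_option autoImplicit false
set_option linter.unusedSectionVars false
set_option linter.unusedVariables false
open scoped BigOperators Matrix
open Matrix
namespace Pool.Agent.BC5

/-
ROW D8. Real numbers N, m, k := N-m. (N)(N-1)(N-2) - (m)(m-1)(m-2) - (k)(k-1)(k-2) = 3mk(N-2) =: X3. From h: N(N-1)(N-2)(1-lam) ≥ (2/3) X3 in case 1: 1-lam ≥ 2mk/(N(N-1)) ≥ 2(m/N)(k/N); with x = k/N ∈ (c, 3/4]: 2x(1-x) ≥ c/2: (x ≤ 3/4 ⇒ 1-x ≥ 1/4, x > c ⇒ 2x(1-x) ≥ c/2 directly!). Case 2: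
N(N-1)(N-2)(1-lam) ≥ (2/3)X3 + (c/2) k(k-1)(k-2) and N(N-1)(N-2) = X3 + m(m-1)(m-2) + k(k-1)(k-2), so it is enough that (2/3)X3 ≥ (c/2)(X3 + m(m-1)(m-2)), and m(m-1)(m-2) ≤ X3 = 3mk(N-2) since (m-1)(m-2) ≤ 3k(N-2) (m < N/4 < k). Mind the ℕ-subtractions (N ≥ m ≥ 3, in case 1 N-m ≥ 1 because c*N < N-m; in case 2
N-m ≥ 3): push_cast [Nat.cast_sub]; treat N-m-1, N-m-2 for N-m = 1, 2 separately (the products are 0 in both readings).
-/

variable {n : ℕ}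

theorem D8_cast (a : ℕ) : ((a * (a - 1) * (a - 2) : ℕ) : ℝ) = (a : ℝ) * ((a : ℝ) - 1) * ((a : ℝ) - 2) := by
  rcases a with _ | _ | a
  · simp
  · simp
  · have e1 : a + 1 + 1 - 1 = a + 1 := by omega
    have e2 : a + 1 + 1 - 2 = a := by omega
    rw [e1, e2]
    push_cast
    ring

theorem D8_pos (N m : ℕ) (hm : 3 ≤ m) (hmN : m ≤ N) : 0 < (N : ℝ) * ((N : ℝ) - 1) * ((N : ℝ) - 2) := by
  have h3 : (3 : ℝ) ≤ N := by exact_mod_cast le_trans hm hmN
  have h1 : (0 : ℝ) < (N : ℝ) - 1 := by linarith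
  have h2 : (0 : ℝ) < (N : ℝ) - 2 := by linarith
  positivity

/-- Paper 9.2, the numbers in the first case. -/
theorem num_case1 (c : ℝ) (hc : 0 < c) (hc2 : c ≤ 1 / 2) (N m : ℕ) (hm : 3 ≤ m) (hmN : m ≤ N)
    (hk : c * N < (N : ℝ) - m) (hk2 : 4 * (N - m) ≤ 3 * N) (lam : ℝ)
    (h : ((N * (N - 1) * (N - 2) : ℕ) : ℝ) * lam ≤ ((m * (m - 1) * (m - 2) : ℕ) : ℝ)
      + (((N - m) * (N - m - 1) * (N - m - 2) : ℕ) : ℝ)
      + (((N * (N - 1) * (N - 2) : ℕ) : ℝ) - ((m * (m - 1) * (m - 2) : ℕ) : ℝ)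
        - (((N - m) * (N - m - 1) * (N - m - 2) : ℕ) : ℝ)) * (1 / 3)) : lam ≤ 1 - c / 2 := by
  have hP := D8_pos N m hm hmN
  obtain ⟨k, rfl⟩ : ∃ k, N = m + k := ⟨N - m, by omega⟩
  have ek : m + k - m = k := by omega
  rw [ek] at h hk2
  rw [D8_cast, D8_cast, D8_cast] at h
  have hM : (3 : ℝ) ≤ m := by exact_mod_cast hm
  have hk2' : 4 * (k : ℝ) ≤ 3 * ((m : ℝ) + k) := by exact_mod_cast hk2
  push_cast at h hk hP
  have hk0 : (0 : ℝ) ≤ k := Nat.cast_nonneg k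
  generalize (m : ℝ) = M at *
  generalize (k : ℝ) = K at *
  have hk' : c * (M + K) ≤ K := by linarith
  have h4 : M + K ≤ 4 * M := by linarith
  have h5 : c * (M + K) * (M + K) ≤ K * (4 * M) :=
    mul_le_mul hk' h4 (by linarith) hk0
  have h6 : 0 ≤ M + K - 2 := by linarith
  have h7 : c / 2 * ((M + K) * (M + K - 1)) ≤ 2 * M * K := by
    have h8 : c * ((M + K) * (M + K - 1)) ≤ c * (M + K) * (M + K) := by nlinarith
    linarith
  have h9 : c / 2 * ((M + K) * (M + K - 1)) * (M + K - 2) ≤ 2 * M * K * (M + K - 2) :=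
    mul_le_mul_of_nonneg_right h7 h6
  have h10 : (M + K) * (M + K - 1) * (M + K - 2) * lam
      ≤ (M + K) * (M + K - 1) * (M + K - 2) * (1 - c / 2) := by
    nlinarith [h, h9]
  exact le_of_mul_le_mul_left h10 hP

/-- Paper 9.2, the numbers in the second case. -/
theorem num_case2 (c : ℝ) (hc : 0 < c) (hc2 : c ≤ 1 / 2) (N m : ℕ) (hm : 3 ≤ m) (hmN : m ≤ N)
    (hk2 : 3 * N < 4 * (N - m)) (lam : ℝ)
    (h : ((N * (N - 1) * (N - 2) : ℕ) : ℝ) * lam ≤ ((m * (m - 1) * (m - 2) : ℕ) : ℝ)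
      + (((N - m) * (N - m - 1) * (N - m - 2) : ℕ) : ℝ) * (1 - c / 2)
      + (((N * (N - 1) * (N - 2) : ℕ) : ℝ) - ((m * (m - 1) * (m - 2) : ℕ) : ℝ)
        - (((N - m) * (N - m - 1) * (N - m - 2) : ℕ) : ℝ)) * (1 / 3)) : lam ≤ 1 - c / 2 := by
  have hP := D8_pos N m hm hmN
  obtain ⟨k, rfl⟩ : ∃ k, N = m + k := ⟨N - m, by omega⟩
  have ek : m + k - m = k := by omega
  rw [ek] at h hk2
  rw [D8_cast, D8_cast, D8_cast] at h
  have hM : (3 : ℝ) ≤ m := by exact_mod_cast hm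
  have hk2' : 3 * ((m : ℝ) + k) < 4 * k := by exact_mod_cast hk2
  push_cast at h hP
  have hk0 : (0 : ℝ) ≤ k := Nat.cast_nonneg k
  generalize (m : ℝ) = M at *
  generalize (k : ℝ) = K at *
  have hX : M * (M - 1) * (M - 2) ≤ 3 * M * K * (M + K - 2) := by
    have h1 : M - 1 ≤ 3 * K := by linarith
    have h2 : M - 2 ≤ M + K - 2 := by linarith
    have h3 : (M - 1) * (M - 2) ≤ 3 * K * (M + K - 2) :=
      mul_le_mul h1 h2 (by linarith) (by linarith)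
    have h4 : M * ((M - 1) * (M - 2)) ≤ M * (3 * K * (M + K - 2)) :=
      mul_le_mul_of_nonneg_left h3 (by linarith)
    linarith
  have hX0 : 0 ≤ 3 * M * K * (M + K - 2) := by
    have : 0 ≤ M + K - 2 := by linarith
    have : 0 ≤ M := by linarith
    positivity
  have hA0 : 0 ≤ M * (M - 1) * (M - 2) := by
    have h1 : 0 ≤ M - 1 := by linarith
    have h2 : 0 ≤ M - 2 := by linarith
    have : 0 ≤ M := by linarith
    positivity
  have hXA : c / 2 * (3 * M * K * (M + K - 2) + M * (M - 1) * (M - 2))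
      ≤ 1 / 4 * (3 * M * K * (M + K - 2) + M * (M - 1) * (M - 2)) :=
    mul_le_mul_of_nonneg_right (by linarith) (by linarith)
  have h10 : (M + K) * (M + K - 1) * (M + K - 2) * lam
      ≤ (M + K) * (M + K - 1) * (M + K - 2) * (1 - c / 2) := by
    have e1 : (M + K) * (M + K - 1) * (M + K - 2) = 3 * M * K * (M + K - 2) + M * (M - 1) * (M - 2)
        + K * (K - 1) * (K - 2) := by ring
    have e2 : (M + K) * (M + K - 1) * (M + K - 2) * (1 - c / 2)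
        = (M + K) * (M + K - 1) * (M + K - 2)
          - c / 2 * (3 * M * K * (M + K - 2) + M * (M - 1) * (M - 2))
          - c / 2 * (K * (K - 1) * (K - 2)) := by rw [e1]; ring
    rw [e2]
    nlinarith [h, hXA, hX, hX0, e1]
  exact le_of_mul_le_mul_left h10 hP

end Pool.Agent.BC5
end

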