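import Pool.Agent.Lib.MP_bc5a73_al.Cyc
import Pool.Agent.Lib.MP_bc5a73_al.CycNum

section
set_option autoImplicit false
set_option linter.unusedSectionVars false
set_option linter.unusedVariables false
open scoped BigOperators Matrix
open Matrix
namespace Pool.Agent.BC5

/-
ROW D10. Paper 9.2, strong induction on card X (generalise X, Q). If Q = 0 trivial (v = 0). exists_top (M := Delta X, Q): lam, P ≠ 0, P commutes with Lm a, a ∈ AY X; enough: lam ≤ 1 - c/2. exists_max_fixed gives Y, m := card Y; avL(AY Y)*P ≠ 0 and hno ⇒ m < (1-c) N (avL*Q*P = avL*P). If m = 2: Delta_of_no_fixed on a nonzero vector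
of the range of P: lam = -1/2. If m ≥ 3: take v ≠ 0 with P v = v and avL(AY Y) v = v (P and avL(AY Y) commute), N := card X, k := N-m. qf_Delta_split with w = v·v, β = (1/3) v·v (mixed: card_img_mixed, inner_lemma_conj with Q := P, i = 1: m |qf| ≤ v·v, m ≥ 3), qf(Delta X) v = lam v·v, card_trip. If 4k ≤ 3N: bound qf(Delta(X\Y)) v ≤ v·v, num_case1
(divide by v·v). Else: induction hypothesis for X\Y (card k ≥ 3, k < N) and Q' := P*avL(AY Y) (projection, commutes with Lm a, a ∈ AY(X\Y), which commutes with AY Y elementwise; for Z ⊆ X\Y with (1-c)k ≤ card Z: card Z ≥ m+1, so avL(AY Z)*P = 0): qf(Delta(X\Y)) v ≤ (1-c/2) v·v; num_case2.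
-/

variable {n : ℕ}

theorem D10_qf_Lm_le (g : Alt n) (v : Alt n → ℝ) : qf (Lm g) v ≤ v ⬝ᵥ v := by
  have h1 := dot_self_nonneg (Lm g *ᵥ v - v)
  have h2 : (Lm g *ᵥ v - v) ⬝ᵥ (Lm g *ᵥ v - v)
      = (Lm g *ᵥ v) ⬝ᵥ (Lm g *ᵥ v) - 2 * (v ⬝ᵥ (Lm g *ᵥ v)) + v ⬝ᵥ v := by
    rw [sub_dotProduct, dotProduct_sub, dotProduct_sub, dotProduct_comm (Lm g *ᵥ v) v]
    ring
  rw [h2, dot_Lm] at h1
  unfold qf
  linarith

theorem D10_qf_Delta_le (S : Finset (Fin n)) (v : Alt n → ℝ) :
    ((trip S).card : ℝ) * qf (Delta S) v ≤ ((trip S).card : ℝ) * (v ⬝ᵥ v) := by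
  by_cases h0 : ((trip S).card : ℝ) = 0
  · rw [h0]; simp
  · have h1 : ((trip S).card : ℝ) * qf (Delta S) v = ∑ t ∈ trip S, qf (Lm (cyc t)) v := by
      unfold Delta
      rw [qf_smul, qf_sum, ← mul_assoc, mul_inv_cancel₀ h0, one_mul]
    rw [h1, ← nsmul_eq_mul]
    exact Finset.sum_le_card_nsmul _ _ _ (fun t _ => D10_qf_Lm_le _ _)

theorem D10_comm_elem {X Y : Finset (Fin n)} (hd : Disjoint X Y) {a b : Alt n} (ha : a ∈ AY X) (hb : b ∈ AY Y) :
    a * b = b * a := by
  rw [mem_AY] at ha hb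
  apply Subtype.ext
  rw [Subgroup.coe_mul, Subgroup.coe_mul]
  have hdis : Equiv.Perm.Disjoint (a : Equiv.Perm (Fin n)) (b : Equiv.Perm (Fin n)) := by
    intro x
    by_cases hx : x ∈ X
    · right
      exact hb x (fun hy => (Finset.disjoint_left.mp hd hx hy))
    · left
      exact ha x hx
  exact hdis.commute.eq

theorem D10_comm_avL {X Y : Finset (Fin n)} (hd : Disjoint X Y) {a : Alt n} (ha : a ∈ AY X) :
    Commute (avL (AY Y)) (Lm a) := by
  unfold avL
  apply Commute.smul_left
  apply Commute.sum_left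
  intro b hb
  show Lm b * Lm a = Lm a * Lm b
  rw [← Lm_mul, ← Lm_mul, D10_comm_elem hd ha hb]

/-- Paper 9.2. -/
theorem qf_Delta_le (c : ℝ) (hc : 0 < c) (hc2 : c ≤ 1 / 2) (X : Finset (Fin n)) (hX : 3 ≤ X.card)
    (Q : Matrix (Alt n) (Alt n) ℝ) (hQ : IsPr Q) (hQX : ∀ a ∈ AY X, Commute Q (Lm a))
    (hno : ∀ Y, Y ⊆ X → (1 - c) * X.card ≤ Y.card → avL (AY Y) * Q = 0)
    (v : Alt n → ℝ) (hv : Q *ᵥ v = v) : qf (Delta X) v ≤ (1 - c / 2) * (v ⬝ᵥ v) := by
  obtain ⟨N, hN⟩ : ∃ N, X.card = N := ⟨_, rfl⟩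
  induction N using Nat.strong_induction_on generalizing X Q v with
  | _ N ih =>
    subst hN
    by_cases hQ0 : Q = 0
    · have hv0 : v = 0 := by rw [← hv, hQ0, Matrix.zero_mulVec]
      rw [hv0]; simp [qf]
    have hDQ : Commute (Delta X) Q := by
      unfold Delta
      apply Commute.smul_left
      apply Commute.sum_left
      intro t ht
      exact (hQX _ (cyc_mem_AY ht)).symm
    obtain ⟨lam, P, hP, hPne, hQP, hMP, htop, hcomm⟩ := exists_top (Delta X) Q (Delta_transpose X) hQ hQ0 hDQ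
    have hvv : 0 ≤ v ⬝ᵥ v := dot_self_nonneg v
    suffices hlam : lam ≤ 1 - c / 2 from
      (htop v hv).trans (mul_le_mul_of_nonneg_right hlam hvv)
    clear hv hvv
    clear v
    have hPL : ∀ a ∈ AY X, Commute P (Lm a) := by
      intro a ha
      exact (hcomm (Lm a) (Delta_comm_Lm X a ha).symm (hQX a ha).symm).symm
    have hPno : ∀ Z, Z ⊆ X → (1 - c) * X.card ≤ Z.card → avL (AY Z) * P = 0 := by
      intro Z hZ hZc
      rw [← hQP, ← Matrix.mul_assoc, hno Z hZ hZc, Matrix.zero_mul]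
    obtain ⟨Y, hYX, hY2, hYne, hYmax⟩ := exists_max_fixed X (by omega) P hPne
    have hmlt : (Y.card : ℝ) < (1 - c) * X.card := by
      by_contra hcon
      push Not at hcon
      exact hYne (hPno Y hYX hcon)
    have hmN : Y.card ≤ X.card := Finset.card_le_card hYX
    have hcomY : Commute P (avL (AY Y)) := by
      unfold avL
      apply Commute.smul_right
      apply Commute.sum_right
      intro b hb
      exact hPL b (AY_mono hYX hb)
    have hAY := avL_isPr (AY_isGrp Y)
    obtain ⟨f, hf⟩ : ∃ f, (avL (AY Y) * P) *ᵥ f ≠ 0 := by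
      by_contra hcon
      push Not at hcon
      apply hYne
      apply ext_mulVec
      intro f
      rw [hcon f, Matrix.zero_mulVec]
    obtain ⟨v, hvdef⟩ : ∃ v, v = (avL (AY Y) * P) *ᵥ f := ⟨_, rfl⟩
    have hvne : v ≠ 0 := by rw [hvdef]; exact hf
    have hPv : P *ᵥ v = v := by
      rw [hvdef, Matrix.mulVec_mulVec, ← Matrix.mul_assoc, hcomY.eq, Matrix.mul_assoc, hP.2]
    have hAv : avL (AY Y) *ᵥ v = v := by
      rw [hvdef, Matrix.mulVec_mulVec, ← Matrix.mul_assoc, hAY.2]
    have hvpos : 0 < v ⬝ᵥ v := dot_self_pos hvne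
    have hqf : qf (Delta X) v = lam * (v ⬝ᵥ v) := by
      unfold qf
      rw [← hPv, Matrix.mulVec_mulVec, hMP, Matrix.smul_mulVec, hPv, dotProduct_smul, smul_eq_mul]
    by_cases hm : Y.card = 2
    · have h1 := Delta_of_no_fixed X hX P hP hPL (fun Z hZ hZc => hYmax Z hZ (by omega)) v hPv
      rw [hqf] at h1
      have h2 : lam = -(1 / 2) := mul_right_cancel₀ hvpos.ne' h1
      rw [h2]; linarith
    · have hm3 : 3 ≤ Y.card := by omega
      have hfix : ∀ h ∈ AY Y, Lm h *ᵥ v = v := (avL_mulVec_eq_iff (AY_isGrp Y) v).mp hAv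
      have hsplit := qf_Delta_split X Y hYX v ((1 / 3) * (v ⬝ᵥ v)) (v ⬝ᵥ v)
        (by
          intro t ht
          unfold qf
          rw [hfix _ (cyc_mem_AY ht)])
        (by
          intro t ht h1 h2
          have hcard := card_img_mixed X Y hYX t ht h1 h2
          have hin := inner_lemma_conj X Y hYX Y.card rfl (cyc t) (cyc_mem_AY ht) (by omega) P hP hPL hYmax v hPv hAv
          rw [hcard, Nat.choose_one_right] at hin
          have h3 : (3 : ℝ) ≤ (Y.card : ℝ) := by exact_mod_cast hm3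
          have h4 := le_abs_self (qf (Lm (cyc t)) v)
          have h5 : 3 * |qf (Lm (cyc t)) v| ≤ (Y.card : ℝ) * |qf (Lm (cyc t)) v| :=
            mul_le_mul_of_nonneg_right h3 (abs_nonneg _)
          linarith)
      have hcd : (X \ Y).card = X.card - Y.card := Finset.card_sdiff_of_subset hYX
      rw [hqf] at hsplit
      have htX := card_trip X
      have htY := card_trip Y
      have htS := card_trip (X \ Y)
      rw [hcd] at htS
      have hkey : ∀ d : ℝ, ((trip (X \ Y)).card : ℝ) * qf (Delta (X \ Y)) v ≤ ((trip (X \ Y)).card : ℝ) * d * (v ⬝ᵥ v) →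
          ((trip X).card : ℝ) * lam ≤ ((trip Y).card : ℝ) + ((trip (X \ Y)).card : ℝ) * d
            + (((trip X).card : ℝ) - (trip Y).card - (trip (X \ Y)).card) * (1 / 3) := by
        intro d hd
        have h1 : (((trip X).card : ℝ) * lam) * (v ⬝ᵥ v) ≤ (((trip Y).card : ℝ) + ((trip (X \ Y)).card : ℝ) * d
            + (((trip X).card : ℝ) - (trip Y).card - (trip (X \ Y)).card) * (1 / 3)) * (v ⬝ᵥ v) := by
          nlinarith [hsplit, hd]
        exact le_of_mul_le_mul_right h1 hvpos
      by_cases hk : 4 * (X.card - Y.card) ≤ 3 * X.card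
      · have h1 := hkey 1 (by rw [mul_one]; exact D10_qf_Delta_le _ _)
        rw [htX, htY, htS, mul_one] at h1
        exact num_case1 c hc hc2 X.card Y.card hm3 hmN (by linarith) hk lam h1
      · push Not at hk
        have hcomA : ∀ a ∈ AY (X \ Y), Commute (avL (AY Y)) (Lm a) := fun a ha =>
          D10_comm_avL Finset.sdiff_disjoint ha
        have hkR : 3 * (X.card : ℝ) < 4 * ((X.card : ℝ) - Y.card) := by
          have : ((3 * X.card : ℕ) : ℝ) < ((4 * (X.card - Y.card) : ℕ) : ℝ) := by exact_mod_cast hk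
          push_cast [Nat.cast_sub hmN] at this
          exact this
        have hIH := ih (X \ Y).card (by omega) (X \ Y) (by omega) (P * avL (AY Y)) (hP.mul hAY hcomY)
          (fun a ha => (hPL a (AY_mono Finset.sdiff_subset ha)).mul_left (hcomA a ha))
          (by
            intro Z hZ hZc
            have hZX : Z ⊆ X := hZ.trans Finset.sdiff_subset
            rw [hcd, Nat.cast_sub hmN] at hZc
            have hZm : Y.card + 1 ≤ Z.card := by
              have h3 : (Y.card : ℝ) < (Z.card : ℝ) := by nlinarith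
              have h4 : Y.card < Z.card := by exact_mod_cast h3
              omega
            rw [← Matrix.mul_assoc, hYmax Z hZX hZm, Matrix.zero_mul])
          v (by rw [← Matrix.mulVec_mulVec, hAv, hPv]) rfl
        have h1 := hkey (1 - c / 2) (by
          rw [mul_assoc]
          exact mul_le_mul_of_nonneg_left hIH (by positivity))
        rw [htX, htY, htS] at h1
        exact num_case2 c hc hc2 X.card Y.card hm3 hmN hk lam h1

end Pool.Agent.BC5
end

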