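import Pool.Agent.Lib.MP_bc5a73_al.AllNorm
import Pool.Agent.Lib.MP_bc5a73_al.AllNormNum

section
set_option autoImplicit false
set_option linter.unusedSectionVars false
set_option linter.unusedVariables false
open scoped BigOperators Matrix
open Matrix
namespace Pool.Agent.BC5

/-- Every finite group: `C (log k(G) + log log |G|)` random elements are `1/8`-expanding. -/
theorem general_log : ∃ C : ℝ, 1 ≤ C ∧ ∀ (G : Type) [Group G] [Finite G] (m : ℕ),
    2 ≤ Nat.card (ConjClasses G) →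
    C * (Real.log (Nat.card (ConjClasses G)) + Real.log (Real.log (Nat.card G))) ≤ m →
    (1 - 1 / (Nat.card (ConjClasses G) : ℝ)) * (Nat.card G : ℝ) ^ m ≤
        (Nat.card {x : Fin m → G // ∀ A : Set G, 2 * Nat.card A ≤ Nat.card G →
            1 / 8 * (Nat.card A : ℝ) ≤
              (Nat.card {g : G // g ∉ A ∧ ∃ a ∈ A, ∃ i : Fin m, g = a * x i ∨ g = a * (x i)⁻¹} : ℝ)} : ℝ) := by
  obtain ⟨C, hC, h⟩ := num_B
  refine ⟨C, hC, ?_⟩
  intro G _ _ m hk hm
  classical
  have : Fintype G := Fintype.ofFinite G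
  have hkg : Nat.card (ConjClasses G) ≤ Nat.card G :=
    Nat.card_le_card_of_surjective (ConjClasses.mk (α := G)) ConjClasses.mk_surjective
  obtain ⟨N, I, hI, hg, hNm, hfr⟩ := h _ _ m hk hkg hm
  have hg' : Fintype.card G < 2 ^ (2 ^ I) := by rwa [← Nat.card_eq_fintype_card]
  exact final_B (by omega) hNm (le_trans (all_norm (G := G) N _ I rfl hI hg') hfr)

/-- Groups whose nontrivial representations are large: `C (√(log k(G)) + log log |G|)` random elements. -/
theorem general_log2 : ∃ C : ℝ, 1 ≤ C ∧ ∀ (G : Type) [Group G] [Finite G] (m D : ℕ),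
    2 ≤ Nat.card (ConjClasses G) →
    (∀ W : Submodule ℝ (G → ℝ), W ≠ ⊥ → (∀ f ∈ W, ∑ᶠ x, f x = 0) →
      (∀ f ∈ W, ∀ g : G, (fun x => f (x * g)) ∈ W ∧ (fun x => f (g * x)) ∈ W) → D ≤ Module.finrank ℝ W) →
    (Nat.card (ConjClasses G) : ℝ) * Real.exp (C * (Real.sqrt (Real.log (Nat.card (ConjClasses G))) +
      Real.log (Real.log (Nat.card G)))) ≤ D →
    C * (Real.sqrt (Real.log (Nat.card (ConjClasses G))) + Real.log (Real.log (Nat.card G))) ≤ m →
    (1 - Real.exp (-Real.sqrt (Real.log (Nat.card (ConjClasses G))))) * (Nat.card G : ℝ) ^ m ≤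
        (Nat.card {x : Fin m → G // ∀ A : Set G, 2 * Nat.card A ≤ Nat.card G →
            1 / 8 * (Nat.card A : ℝ) ≤
              (Nat.card {g : G // g ∉ A ∧ ∃ a ∈ A, ∃ i : Fin m, g = a * x i ∨ g = a * (x i)⁻¹} : ℝ)} : ℝ) := by
  obtain ⟨C, hC, h⟩ := num_C
  refine ⟨C, hC, ?_⟩
  intro G _ _ m D hk hW hD hm
  classical
  have : Fintype G := Fintype.ofFinite G
  have hkg : Nat.card (ConjClasses G) ≤ Nat.card G :=
    Nat.card_le_card_of_surjective (ConjClasses.mk (α := G)) ConjClasses.mk_surjective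
  obtain ⟨N, I, hI, hg, hNm, hfr⟩ := h _ _ m D hk hkg hD hm
  have hg' : Fintype.card G < 2 ^ (2 ^ I) := by rwa [← Nat.card_eq_fintype_card]
  have hD0 : (0 : ℝ) < D := lt_of_lt_of_le (by have : (0 : ℝ) < Nat.card (ConjClasses G) := by
                                                exact_mod_cast (by omega : 0 < Nat.card (ConjClasses G))
                                               positivity) hD
  have hW' : ∀ W : Submodule ℝ (G → ℝ), W ≠ ⊥ → (∀ f ∈ W, ∑ x, f x = 0) →
      (∀ f ∈ W, ∀ g : G, (fun x => f (x * g)) ∈ W ∧ (fun x => f (g * x)) ∈ W) → D ≤ Module.finrank ℝ W := by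
    intro W h1 h2 h3
    refine hW W h1 (fun f hf => ?_) h3
    rw [finsum_eq_sum_of_fintype]
    exact h2 f hf
  exact final_B (by omega) hNm (le_trans (all_norm2 (G := G) N _ I rfl hI hg' D hD0
    (fun E hE hEJ => trace_ge_of_submodules D hW' hE hEJ)) hfr)

end Pool.Agent.BC5
end

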