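import Pool.Agent.Lib.MP_bc5a73_al.LogRounds

section
set_option autoImplicit false
set_option linter.unusedSectionVars false
set_option linter.unusedVariables false
open scoped BigOperators Matrix
open Matrix
namespace Pool.Agent.BC5

/-- `C log n` random elements of `Alt(n)` are `1/8`-expanding with probability at least `1 - 1/n`. -/
theorem alt_log : ∃ C : ℝ, 1 ≤ C ∧ ∃ n1 : ℕ, ∀ n : ℕ, n1 ≤ n → ∀ m : ℕ, C * Real.log n ≤ m →
      (1 - 1 / (n : ℝ)) * (Nat.card (Alt n) : ℝ) ^ m ≤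
        (Nat.card {x : Fin m → Alt n // ∀ A : Set (Alt n), 2 * Nat.card A ≤ Nat.card (Alt n) →
            1 / 8 * (Nat.card A : ℝ) ≤
              (Nat.card {g : Alt n // g ∉ A ∧ ∃ a ∈ A, ∃ i : Fin m, g = a * x i ∨ g = a * (x i)⁻¹} : ℝ)} : ℝ) := by
  obtain ⟨a0, ha0, C1, hC1, n0, h1⟩ := one_round_log
  obtain ⟨C2, hC2, n0', h2⟩ := base_log a0
  obtain ⟨n2, h3⟩ := tauA_bounds
  refine ⟨2560 * (C1 + C2 + 1), by linarith, max (max n0 n0') (max n2 (2 ^ a0 + 3)), ?_⟩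
  intro n hn m hm
  have hn0 : n0 ≤ n := le_trans (le_trans (le_max_left _ _) (le_max_left _ _)) hn
  have hn0' : n0' ≤ n := le_trans (le_trans (le_max_right _ _) (le_max_left _ _)) hn
  have hn2 : n2 ≤ n := le_trans (le_trans (le_max_left _ _) (le_max_right _ _)) hn
  have hna : 2 ^ a0 + 3 ≤ n := le_trans (le_trans (le_max_right _ _) (le_max_right _ _)) hn
  have hn3 : 3 ≤ n := le_trans (Nat.le_add_left 3 (2 ^ a0)) hna
  have hlt : 2 ^ a0 < n := Nat.lt_of_lt_of_le (Nat.lt_add_of_pos_right (by norm_num)) hna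
  have hnr : (3 : ℝ) ≤ n := by exact_mod_cast hn3
  have hL : 1 ≤ Real.log n := by
    rw [Real.le_log_iff_exp_le (by linarith)]
    have := Real.exp_one_lt_d9
    linarith
  obtain ⟨N, hN⟩ : ∃ N, N = m / 2560 := ⟨_, rfl⟩
  have hNm : 2560 * N ≤ m := by omega
  have hNm' : (m : ℝ) < 2560 * ((N : ℝ) + 1) := by
    have : m < 2560 * (N + 1) := by omega
    exact_mod_cast this
  have hN1 : (C1 + C2) * Real.log n ≤ N := by
    have h5 : 2560 * (C1 + C2 + 1) * Real.log n < 2560 * ((N : ℝ) + 1) := lt_of_le_of_lt hm hNm'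
    nlinarith
  have hNC1 : C1 * Real.log n ≤ N := by nlinarith
  have hNC2 : C2 * Real.log n ≤ N := by nlinarith
  have hN0 : (0 : ℝ) < N := by nlinarith
  have hN0' : 1 ≤ N := by
    have : (0 : ℝ) < (N : ℝ) := hN0
    exact_mod_cast this
  have hb0 : (0 : ℝ) ≤ 1 / (n : ℝ) ^ 3 := by positivity
  obtain ⟨a, ha, haL, hfr⟩ := rounds_iter (n := n) (N := N) hn3 a0 ha0 hlt (fun a => tauA n a)
    (fun a => N * (tauA n a + 1 / 4)) (1 / (n : ℝ) ^ 3) hb0 (h2 n N hn0' hNC2)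
    (fun a h4 h5 => h1 n N a hn0 hNC1 h4 h5)
  obtain ⟨ht1, ht2⟩ := h3 n a hn2 haL
  have hfr2 : frac (fun x : Fin N × Fin 2560 → Alt n =>
      ¬ ∀ E : Matrix (Alt n) (Alt n) ℝ, IsBlock E → E ≠ Jm (Alt n) → NormP x E (3 / 4) N) ≤ 1 / (n : ℝ) := by
    refine le_trans (frac_mono ?_) (le_trans hfr ?_)
    · intro x hx hNL
      apply hx
      intro E hE hEJ
      refine (hNL E hE hEJ ?_).mono ht2 ?_
      · exact levLe_of_ge hE.2.2.2.1 _ (by omega) (by omega)
      · show (N : ℝ) * (tauA n a + 1 / 4) ≤ N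
        nlinarith
    · have hn1 : (0 : ℝ) < n := by linarith
      have : (n : ℝ) * (1 / (n : ℝ) ^ 3) = 1 / (n : ℝ) * (1 / (n : ℝ)) := by
        field_simp
      rw [this]
      have h6 : 1 / (n : ℝ) ≤ 1 := by
        rw [div_le_one hn1]; linarith
      have h7 : 0 ≤ 1 / (n : ℝ) := by positivity
      nlinarith
  exact final_B hN0' hNm hfr2

end Pool.Agent.BC5
end

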