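import Pool.Agent.Lib.MP_bc5a73_al.Stage
import Pool.Agent.Lib.MP_bc5a73_al.AltBasic

section
set_option autoImplicit false
set_option linter.unusedSectionVars false
set_option linter.unusedVariables false
open scoped BigOperators Matrix
open Matrix
namespace Pool.Agent.BC5

variable {n : ℕ}

/-- Weighted average of the symmetrised right translations. -/
noncomputable def Aw {G : Type} [Group G] [Fintype G] [DecidableEq G] {ι : Type} [Fintype ι] (w : ι → ℝ) (x : ι → G) :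
    Matrix G G ℝ := ∑ i, w i • Sm (x i)

/-- Probability weights. -/
def IsWt {ι : Type} [Fintype ι] (w : ι → ℝ) : Prop := (∀ i, 0 ≤ w i) ∧ ∑ i, w i = 1

/-- The matrix `A` has gap `ε` on the blocks of level at most `k`. -/
def GapOn (A : Matrix (Alt n) (Alt n) ℝ) (ε : ℝ) (k : ℕ) : Prop :=
  ∀ E, IsBlock E → E ≠ Jm (Alt n) → LevLe k E → ∀ f, E *ᵥ f = f → qf A f ≤ (1 - ε) * (f ⬝ᵥ f)

/-- Some weighted average over the tuple has gap `ε` on the blocks of level at most `k`. -/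
def HasGap {ι : Type} [Fintype ι] (x : ι → Alt n) (ε : ℝ) (k : ℕ) : Prop :=
  ∃ w : ι → ℝ, IsWt w ∧ GapOn (Aw w x) ε k

/-- The weights for the union of two families. -/
noncomputable def joinWt {ι : Type} (w : ι → ℝ) (ρ : ℝ) (s : ℕ) : ι ⊕ Fin s → ℝ :=
  Sum.elim (fun i => (1 - ρ) * w i) (fun _ => ρ * ((s : ℝ))⁻¹)

end Pool.Agent.BC5
end

section
set_option autoImplicit false
set_option linter.unusedSectionVars false
set_option linter.unusedVariables false
open scoped BigOperators Matrix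
open Matrix
namespace Pool.Agent.BC5

/-
ROW H1. Easy. HasGap.mono: (1-ε) ≤ (1-ε') and f·f ≥ 0, LevLe.mono. HasGap.comp: push the weights forward: w' k = ∑ over i with e i = k of w i; Aw w' x = Aw w (x ∘ e).
-/

variable {n : ℕ}

theorem Aw_transpose {G : Type} [Group G] [Fintype G] [DecidableEq G] {ι : Type} [Fintype ι] (w : ι → ℝ) (x : ι → G) :
    (Aw w x)ᵀ = Aw w x := by
  unfold Aw
  rw [Matrix.transpose_sum]
  refine Finset.sum_congr rfl fun i _ => ?_
  rw [Matrix.transpose_smul, Sm_transpose]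

theorem commL_Aw {G : Type} [Group G] [Fintype G] [DecidableEq G] {ι : Type} [Fintype ι] (w : ι → ℝ) (x : ι → G) :
    CommL (Aw w x) := by
  intro g
  unfold Aw
  exact Commute.sum_left _ _ _ (fun i _ => (commL_Sm (x i) g).smul_left _)

/-- `Aw w x` commutes with everything that commutes with all right translations. -/
theorem commute_Aw {G : Type} [Group G] [Fintype G] [DecidableEq G] {ι : Type} [Fintype ι] (w : ι → ℝ) (x : ι → G)
    {X : Matrix G G ℝ} (hX : CommR X) : Commute X (Aw w x) :=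
  commute_of_comm hX (commL_Aw w x)

theorem abs_qf_Aw_le {G : Type} [Group G] [Fintype G] [DecidableEq G] {ι : Type} [Fintype ι] {w : ι → ℝ} (hw : IsWt w)
    (x : ι → G) (f : G → ℝ) : |qf (Aw w x) f| ≤ f ⬝ᵥ f := by
  unfold Aw
  rw [qf_sum]
  refine le_trans (Finset.abs_sum_le_sum_abs _ _) ?_
  calc ∑ i, |qf (w i • Sm (x i)) f| ≤ ∑ i, w i * (f ⬝ᵥ f) := by
        refine Finset.sum_le_sum fun i _ => ?_
        rw [qf_smul, abs_mul, abs_of_nonneg (hw.1 i)]
        exact mul_le_mul_of_nonneg_left (abs_qf_Sm_le (x i) f) (hw.1 i)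
    _ = f ⬝ᵥ f := by rw [← Finset.sum_mul, hw.2, one_mul]

theorem HasGap.mono {ι : Type} [Fintype ι] {x : ι → Alt n} {ε ε' : ℝ} {k k' : ℕ} (h : HasGap x ε k) (hε : ε' ≤ ε)
    (hk : k' ≤ k) : HasGap x ε' k' := by
  obtain ⟨w, hw, hg⟩ := h
  refine ⟨w, hw, ?_⟩
  intro E hE hE1 hL f hf
  refine le_trans (hg E hE hE1 (hL.mono hk) f hf) ?_
  exact mul_le_mul_of_nonneg_right (by linarith only [hε]) (dot_self_nonneg f)

/-- Monotone in the family (unused elements get weight zero). -/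
theorem HasGap.comp {ι κ : Type} [Fintype ι] [Fintype κ] [DecidableEq κ] {x : κ → Alt n} {ε : ℝ} {k : ℕ} (e : ι → κ)
    (h : HasGap (fun i => x (e i)) ε k) : HasGap x ε k := by
  classical
  obtain ⟨w, hw, hg⟩ := h
  refine ⟨fun k => ∑ i ∈ Finset.univ.filter (fun i => e i = k), w i, ⟨?_, ?_⟩, ?_⟩
  · intro k
    exact Finset.sum_nonneg fun i _ => hw.1 i
  · rw [Finset.sum_fiberwise Finset.univ e w]
    exact hw.2
  · have h1 : Aw (fun k => ∑ i ∈ Finset.univ.filter (fun i => e i = k), w i) x = Aw w (fun i => x (e i)) := by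
      unfold Aw
      rw [← Finset.sum_fiberwise Finset.univ e (fun i => w i • Sm (x (e i)))]
      refine Finset.sum_congr rfl fun k _ => ?_
      rw [Finset.sum_smul]
      refine Finset.sum_congr rfl fun i hi => ?_
      rw [(Finset.mem_filter.mp hi).2]
    rw [h1]
    exact hg

end Pool.Agent.BC5
end

section
set_option autoImplicit false
set_option linter.unusedSectionVars false
set_option linter.unusedVariables false
open scoped BigOperators Matrix
open Matrix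
namespace Pool.Agent.BC5

/-
ROW H2. Induction on q: q = 0: α = indicator of 1 (Rm 1 = 1). (1/2)(1 + Aw w x) = ∑ β g • Rm g with probability weights β (1/2 at 1, and w i/4 at x i and (x i)⁻¹); product of two convex combinations of Rm's is a convex combination (convolution, Rm_mul): α' u = ∑ over g*h = u of α g β h.
-/

variable {n : ℕ}

/-- `M` is a convex combination of right translations. -/
def H2_PC {G : Type} [Group G] [Fintype G] [DecidableEq G] (M : Matrix G G ℝ) : Prop :=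
  ∃ α : G → ℝ, IsWt α ∧ M = ∑ g, α g • Rm g

section
variable {G : Type} [Group G] [Fintype G] [DecidableEq G]

theorem H2_PC_Rm (g : G) : H2_PC (Rm g) := by
  refine ⟨Pi.single g 1, ⟨fun i => ?_, by simp⟩, ?_⟩
  · by_cases h : i = g
    · subst h; simp
    · simp [h]
  · rw [Finset.sum_eq_single g]
    · simp
    · intro b _ hb
      simp [hb]
    · intro h; exact absurd (Finset.mem_univ g) h

theorem H2_PC_sum {ι : Type} [Fintype ι] {w : ι → ℝ} (hw : IsWt w) {M : ι → Matrix G G ℝ}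
    (hM : ∀ i, H2_PC (M i)) : H2_PC (∑ i, w i • M i) := by
  choose α hα hM' using hM
  refine ⟨fun g => ∑ i, w i * α i g, ⟨fun g => Finset.sum_nonneg fun i _ => mul_nonneg (hw.1 i) ((hα i).1 g), ?_⟩, ?_⟩
  · rw [Finset.sum_comm]
    simp only [← Finset.mul_sum, (hα _).2, mul_one]
    exact hw.2
  · calc ∑ i, w i • M i = ∑ i, w i • ∑ g, α i g • Rm g :=
          Finset.sum_congr rfl fun i _ => by rw [← hM' i]
      _ = ∑ i, ∑ g, (w i * α i g) • Rm g := by simp only [Finset.smul_sum, smul_smul]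
      _ = ∑ g, ∑ i, (w i * α i g) • Rm g := Finset.sum_comm
      _ = ∑ g, (∑ i, w i * α i g) • Rm g := by simp only [Finset.sum_smul]

theorem H2_PC_half {M N : Matrix G G ℝ} (hM : H2_PC M) (hN : H2_PC N) : H2_PC ((1 / 2 : ℝ) • (M + N)) := by
  have h : (1 / 2 : ℝ) • (M + N) = ∑ i : Bool, (fun _ => (1 / 2 : ℝ)) i • (Bool.rec M N i : Matrix G G ℝ) := by
    rw [Fintype.sum_bool, smul_add, add_comm]
  rw [h]
  refine H2_PC_sum ⟨fun _ => by norm_num, by simp⟩ ?_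
  intro i
  cases i
  · exact hM
  · exact hN

theorem H2_PC_mul {M N : Matrix G G ℝ} (hM : H2_PC M) (hN : H2_PC N) : H2_PC (M * N) := by
  obtain ⟨α, hα, rfl⟩ := hM
  obtain ⟨β, hβ, rfl⟩ := hN
  have h : (∑ g, α g • Rm g) * ∑ g, β g • Rm g = ∑ g, α g • ∑ h, β h • Rm (g * h) := by
    rw [Finset.sum_mul]
    refine Finset.sum_congr rfl fun g _ => ?_
    rw [smul_mul_assoc, Finset.mul_sum]
    congr 1
    refine Finset.sum_congr rfl fun h _ => ?_
    rw [mul_smul_comm, Rm_mul]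
  rw [h]
  exact H2_PC_sum hα fun g => H2_PC_sum hβ fun h => H2_PC_Rm _

end

/-- Powers of `(1 + A)/2` are convex combinations of right translations. -/
theorem exists_prob_pow {G : Type} [Group G] [Fintype G] [DecidableEq G] {ι : Type} [Fintype ι] {w : ι → ℝ}
    (hw : IsWt w) (x : ι → G) (q : ℕ) :
    ∃ α : G → ℝ, IsWt α ∧ ((1 / 2 : ℝ) • (1 + Aw w x)) ^ q = ∑ g, α g • Rm g := by
  change H2_PC (((1 / 2 : ℝ) • (1 + Aw w x)) ^ q)
  have hone : H2_PC (1 : Matrix G G ℝ) := by rw [← Rm_one]; exact H2_PC_Rm 1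
  have hA : H2_PC (Aw w x) := H2_PC_sum hw fun i => H2_PC_half (H2_PC_Rm _) (H2_PC_Rm _)
  induction q with
  | zero => rw [pow_zero]; exact hone
  | succ q ih => rw [pow_succ]; exact H2_PC_mul ih (H2_PC_half hone hA)

end Pool.Agent.BC5
end

section
set_option autoImplicit false
set_option linter.unusedSectionVars false
set_option linter.unusedVariables false
open scoped BigOperators Matrix
open Matrix
namespace Pool.Agent.BC5

/-
ROW H3. Paper 10.1. T := (1/2)(1+Aw), Y with card n-k, Pi := avL(AY Y). ∑ α g (fixc g).descFactorial k = trace(Pi*T^q) (trace_avL_mul_Rm). With the blocks B (exists_blocks, ∑ = 1): = ∑_E trace(E*Pi*T^q). E = Jm: Jm*Pi*T^q = Jm (Jm*Rm g = Jm; T^q = ∑ α Rm), trace 1. Other E: Q := E*Pi is a projection commuting with T (both factors CommR); if Q = 0 the term is 0; else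
LevLe k E and 0 ≤ qf T v ≤ (1-ε/2) v·v for v = Q v, abs_trace_pow_le: ≤ (1-ε/2)^q trace Q; ∑ trace Q ≤ trace Pi = n.descFactorial k ≤ n^k; (1-ε/2)^q ≤ exp(-ε q/2) ≤ exp(-k log n) = n^(-k).
-/

variable {n : ℕ}

theorem H3_Jm_mul_Rm {G : Type} [Group G] [Fintype G] [DecidableEq G] (g : G) : Jm G * Rm g = Jm G := by
  ext x z
  have h1 : ∀ y : G, (z = y * g) = (z * g⁻¹ = y) := fun y => by
    rw [eq_iff_iff]
    constructor
    · intro h; rw [h]; group
    · intro h; rw [← h]; group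
  simp only [Matrix.mul_apply, Jm, Rm, Matrix.of_apply, mul_ite, mul_one, mul_zero, h1,
    Finset.sum_ite_eq, Finset.mem_univ, if_true]

theorem H3_num (n k q : ℕ) (ε : ℝ) (hε : 0 < ε) (hε1 : ε ≤ 1) (hn : 1 ≤ n)
    (hq : 2 / ε * (k * Real.log n) ≤ q) : (1 - ε / 2) ^ q * (n : ℝ) ^ k ≤ 1 := by
  have hn0 : (0 : ℝ) < n := by exact_mod_cast hn
  have h1 : (1 - ε / 2) ≤ Real.exp (-(ε / 2)) := Real.one_sub_le_exp_neg _
  have h2 : (1 - ε / 2) ^ q ≤ Real.exp (-(ε / 2)) ^ q := pow_le_pow_left₀ (by linarith) h1 q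
  have h3 : Real.exp (-(ε / 2)) ^ q = Real.exp (-(ε / 2 * q)) := by
    rw [← Real.exp_nat_mul]
    congr 1
    ring
  have h4 : (n : ℝ) ^ k = Real.exp (k * Real.log n) := by
    rw [Real.exp_nat_mul, Real.exp_log hn0]
  have h5 : (k : ℝ) * Real.log n ≤ ε / 2 * q := by
    have := mul_le_mul_of_nonneg_left hq (by positivity : (0 : ℝ) ≤ ε / 2)
    calc (k : ℝ) * Real.log n = ε / 2 * (2 / ε * (k * Real.log n)) := by field_simp
      _ ≤ _ := this
  calc (1 - ε / 2) ^ q * (n : ℝ) ^ k ≤ Real.exp (-(ε / 2 * q)) * Real.exp (k * Real.log n) := by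
        rw [← h3, ← h4]
        exact mul_le_mul_of_nonneg_right h2 (by positivity)
    _ = Real.exp (-(ε / 2 * q) + k * Real.log n) := (Real.exp_add _ _).symm
    _ ≤ 1 := by
        rw [Real.exp_le_one_iff]
        linarith

/-- Paper 10.1. -/
theorem sum_prob_fix_le {ι : Type} [Fintype ι] {w : ι → ℝ} (hw : IsWt w) (x : ι → Alt n) (ε : ℝ) (hε : 0 < ε)
    (hε1 : ε ≤ 1) (k : ℕ) (hk : 1 ≤ k) (hkn : k + 2 ≤ n) (hg : GapOn (Aw w x) ε k) (q : ℕ)
    (hq : 2 / ε * (k * Real.log n) ≤ q) (α : Alt n → ℝ) (hα : IsWt α)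
    (h : ((1 / 2 : ℝ) • (1 + Aw w x)) ^ q = ∑ g, α g • Rm g) :
    ∑ g, α g * ((fixc g).descFactorial k : ℝ) ≤ 2 := by
  classical
  obtain ⟨T, hT⟩ : ∃ T, T = (1 / 2 : ℝ) • (1 + Aw w x) := ⟨_, rfl⟩
  rw [← hT] at h
  obtain ⟨Y, -, hY⟩ := Finset.exists_subset_card_eq (s := (Finset.univ : Finset (Fin n))) (n := n - k)
    (by rw [Finset.card_univ, Fintype.card_fin]; omega)
  have hYk : Y.card + k = n := by omega
  obtain ⟨P, hP⟩ : ∃ P, P = avL (AY Y) := ⟨_, rfl⟩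
  have hPpr : IsPr P := by rw [hP]; exact avL_isPr (AY_isGrp Y)
  have hPR : CommR P := by rw [hP]; exact avL_commR _
  have hTt : Tᵀ = T := by
    rw [hT, Matrix.transpose_smul, Matrix.transpose_add, Matrix.transpose_one, Aw_transpose]
  have hTc : ∀ X : Matrix (Alt n) (Alt n) ℝ, CommR X → Commute T X := by
    intro X hX
    rw [hT]
    exact ((Commute.one_left X).add_left (commute_Aw w x hX).symm).smul_left _
  have hqT : ∀ v, qf T v = 1 / 2 * (v ⬝ᵥ v + qf (Aw w x) v) := by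
    intro v
    rw [hT, qf_smul, qf_add, qf_one]
  -- the left side
  have e1 : ∑ g, α g * ((fixc g).descFactorial k : ℝ) = (P * T ^ q).trace := by
    rw [h, Matrix.mul_sum, Matrix.trace_sum]
    refine Finset.sum_congr rfl (fun g _ => ?_)
    rw [Matrix.mul_smul, Matrix.trace_smul, smul_eq_mul, hP, trace_avL_mul_Rm Y k hYk hkn g]
  obtain ⟨B, hB, hB1⟩ := exists_blocks (Alt n)
  have e2 : (P * T ^ q).trace = ∑ E ∈ B, (E * P * T ^ q).trace := by
    conv_lhs => rw [← Matrix.one_mul P, ← hB1]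
    rw [Finset.sum_mul, Finset.sum_mul, Matrix.trace_sum]
  have hJB : Jm (Alt n) ∈ B := (hB _).2 Jm_isBlock
  have hJ : (Jm (Alt n) * P * T ^ q).trace = 1 := by
    have h1 : Jm (Alt n) * P = Jm (Alt n) := by
      rw [(commute_of_comm hPR Jm_isBlock.2.1).symm.eq, hP]
      exact avL_mul_Jm (AY_isGrp Y)
    rw [h1, h, Matrix.mul_sum, Matrix.trace_sum]
    have h2 : ∀ g : Alt n, (Jm (Alt n) * α g • Rm g).trace = α g := by
      intro g
      rw [Matrix.mul_smul, H3_Jm_mul_Rm, Matrix.trace_smul, trace_Jm, smul_eq_mul, mul_one]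
    rw [Finset.sum_congr rfl (fun g _ => h2 g)]
    exact hα.2
  have hPE : ∀ E, IsBlock E → Commute E P := fun E hE => (commute_of_comm hPR hE.2.1).symm
  have hQpr : ∀ E, IsBlock E → IsPr (E * P) := fun E hE => hE.1.mul hPpr (hPE E hE)
  have hoth : ∀ E ∈ B.erase (Jm (Alt n)), (E * P * T ^ q).trace ≤ (1 - ε / 2) ^ q * (E * P).trace := by
    intro E hE
    have hne := Finset.ne_of_mem_erase hE
    have hEb := (hB E).1 (Finset.mem_of_mem_erase hE)
    refine (le_abs_self _).trans (abs_trace_pow_le (E * P) T (1 - ε / 2) (by linarith) (hQpr E hEb) hTt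
      ((hTc E hEb.2.2.1).mul_right (hTc P hPR)) ?_ q)
    intro v hv
    have hEv : E *ᵥ v = v := by
      conv_lhs => rw [← hv, Matrix.mulVec_mulVec, ← Matrix.mul_assoc, hEb.1.2]
      exact hv
    by_cases hz : E * P = 0
    · rw [hz, Matrix.zero_mulVec] at hv
      rw [← hv]
      simp [qf]
    · have hlev : LevLe k E := by
        refine ⟨Y, by omega, ?_⟩
        rw [← hP, ← (hPE E hEb).eq]
        exact hz
      have h1 := hg E hEb hne hlev v hEv
      have h2 := abs_le.1 (abs_qf_Aw_le hw x v)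
      have h3 := dot_self_nonneg v
      rw [hqT v, abs_le]
      constructor
      · nlinarith [h2.1]
      · nlinarith
  have hPt : P.trace ≤ (n : ℝ) ^ k := by
    have h1 := trace_avL_mul_Rm Y k hYk hkn 1
    rw [Rm_one, Matrix.mul_one, ← hP] at h1
    rw [h1]
    have h2 : fixc (1 : Alt n) = n := by
      unfold fixc
      simp
    rw [h2]
    exact_mod_cast Nat.descFactorial_le_pow n k
  have hPs : ∑ E ∈ B, (E * P).trace = P.trace := by
    rw [← Matrix.trace_sum, ← Finset.sum_mul, hB1, Matrix.one_mul]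
  have hle : ∑ E ∈ B.erase (Jm (Alt n)), (E * P).trace ≤ P.trace := by
    rw [← hPs]
    exact Finset.sum_le_sum_of_subset_of_nonneg (Finset.erase_subset _ _)
      (fun E hE _ => trace_pr_nonneg (hQpr E ((hB E).1 hE)))
  have hpow : 0 ≤ (1 - ε / 2) ^ q := pow_nonneg (by linarith) q
  rw [e1, e2, ← Finset.add_sum_erase B _ hJB, hJ]
  have hsum : ∑ E ∈ B.erase (Jm (Alt n)), (E * P * T ^ q).trace ≤ 1 := by
    calc ∑ E ∈ B.erase (Jm (Alt n)), (E * P * T ^ q).trace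
        ≤ ∑ E ∈ B.erase (Jm (Alt n)), (1 - ε / 2) ^ q * (E * P).trace := Finset.sum_le_sum hoth
      _ = (1 - ε / 2) ^ q * ∑ E ∈ B.erase (Jm (Alt n)), (E * P).trace := by rw [Finset.mul_sum]
      _ ≤ (1 - ε / 2) ^ q * (n : ℝ) ^ k := mul_le_mul_of_nonneg_left (hle.trans hPt) hpow
      _ ≤ 1 := H3_num n k q ε hε hε1 (by omega) hq
  linarith

end Pool.Agent.BC5
end

section
set_option autoImplicit false
set_option linter.unusedSectionVars false
set_option linter.unusedVariables false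
open scoped BigOperators Matrix
open Matrix
namespace Pool.Agent.BC5

/-
ROW H4. Paper 10.1: if n < 24 fixc g then (fixc g).descFactorial k ≥ (fixc g + 1 - k)^k ≥ (n/48)^k (Nat.pow_sub_le_descFactorial). Markov.
-/

variable {n : ℕ}

/-- Paper 10.1, Markov: the weight of the elements with more than `n/24` fixed points. -/
theorem sum_prob_many_fix_le (k : ℕ) (hk : 1 ≤ k) (hl : 48 * k ≤ n) (α : Alt n → ℝ) (hα : IsWt α)
    (h : ∑ g, α g * ((fixc g).descFactorial k : ℝ) ≤ 2) :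
    ∑ g ∈ Finset.univ.filter (fun g : Alt n => n < 24 * fixc g), α g ≤ 2 * (48 / (n : ℝ)) ^ k := by
  have hn : (0 : ℝ) < (n : ℝ) := by
    have : 0 < n := by omega
    exact_mod_cast this
  have hc : (0 : ℝ) < ((n : ℝ) / 48) ^ k := by positivity
  have h1 : ∀ g ∈ Finset.univ.filter (fun g : Alt n => n < 24 * fixc g),
      α g * ((n : ℝ) / 48) ^ k ≤ α g * ((fixc g).descFactorial k : ℝ) := by
    intro g hg
    have hg' : n < 24 * fixc g := (Finset.mem_filter.mp hg).2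
    apply mul_le_mul_of_nonneg_left _ (hα.1 g)
    have h2 : (fixc g + 1 - k) ^ k ≤ (fixc g).descFactorial k := Nat.pow_sub_le_descFactorial _ _
    have h3 : n ≤ 48 * (fixc g + 1 - k) := by omega
    have h4 : (n : ℝ) ≤ 48 * ((fixc g + 1 - k : ℕ) : ℝ) := by exact_mod_cast h3
    calc ((n : ℝ) / 48) ^ k ≤ ((fixc g + 1 - k : ℕ) : ℝ) ^ k := by
          apply pow_le_pow_left₀ (by positivity)
          linarith
      _ ≤ ((fixc g).descFactorial k : ℝ) := by exact_mod_cast h2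
  have h5 : (∑ g ∈ Finset.univ.filter (fun g : Alt n => n < 24 * fixc g), α g) * ((n : ℝ) / 48) ^ k ≤ 2 := by
    rw [Finset.sum_mul]
    refine le_trans (Finset.sum_le_sum h1) (le_trans ?_ h)
    apply Finset.sum_le_sum_of_subset_of_nonneg (Finset.filter_subset _ _)
    intro g _ _
    exact mul_nonneg (hα.1 g) (Nat.cast_nonneg _)
  have h6 : (48 / (n : ℝ)) ^ k = (((n : ℝ) / 48) ^ k)⁻¹ := by
    rw [← inv_pow, inv_div]
  rw [h6, ← div_eq_mul_inv, le_div_iff₀ hc]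
  exact h5

end Pool.Agent.BC5
end

section
set_option autoImplicit false
set_option linter.unusedSectionVars false
set_option linter.unusedVariables false
open scoped BigOperators Matrix
open Matrix
namespace Pool.Agent.BC5

/-
ROW H5. (1-η)^t trace(EP) ≤ trace(E T^t) = ∑ α g trace(E Rm g) ≤ ∑_{many} α g trace E + ∑_{few} α g b trace E ≤ (a+b) trace E (|trace(E Rm g)| ≤ trace E by abs_trace_le, |qf (Rm g) v| ≤ v·v). (1-η) ≥ exp(-(η+η²)) for 0 ≤ η ≤ 1/2 (e.g. (1-η) exp(η+η²) ≥ (1-η)(1+η+η²+(η+η²)²/2) ≥ 1: Real.quadratic_le_exp_of_nonneg). The case trace(EP) ≤ 0 is trivial (a ≥ 0 as it bounds a sum of nonnegative numbers).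
-/

variable {n : ℕ}

theorem H5_abs {G : Type} [Group G] [Fintype G] [DecidableEq G] {E : Matrix G G ℝ} (hE : IsPr E) (g : G) :
    |(E * Rm g).trace| ≤ E.trace := by
  have h := abs_trace_le E (Rm g) 1 hE (fun v _ => ?_)
  · rwa [one_mul] at h
  · rw [one_mul]
    have e1 := dot_Rm g v v
    have h1 := dot_self_nonneg (v - Rm g *ᵥ v)
    have h2 := dot_self_nonneg (v + Rm g *ᵥ v)
    rw [sub_dotProduct, dotProduct_sub, dotProduct_sub, e1, dotProduct_comm (Rm g *ᵥ v) v] at h1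
    rw [add_dotProduct, dotProduct_add, dotProduct_add, e1, dotProduct_comm (Rm g *ᵥ v) v] at h2
    unfold qf
    rw [abs_le]
    constructor
    · linarith only [h2]
    · linarith only [h1]

theorem H5_exp (η : ℝ) (hη : 0 < η) (hη1 : η ≤ 1 / 2) : 1 ≤ (1 - η) * Real.exp (η + η ^ 2) := by
  have h1 : 1 + (η + η ^ 2) + (η + η ^ 2) ^ 2 / 2 ≤ Real.exp (η + η ^ 2) :=
    Real.quadratic_le_exp_of_nonneg (by positivity)
  have h0 : 0 ≤ 1 - η := by linarith only [hη1]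
  refine le_trans ?_ (mul_le_mul_of_nonneg_left h1 h0)
  have h2 : (1 - η) * (1 + (η + η ^ 2) + (η + η ^ 2) ^ 2 / 2) =
      1 + η ^ 2 / 2 * ((1 - η ^ 2) * (1 + η) - 2 * η) := by ring
  rw [h2]
  have h3 : η ^ 2 ≤ 1 / 4 := by nlinarith only [hη, hη1]
  have h4 : 3 / 4 * (1 + η) ≤ (1 - η ^ 2) * (1 + η) :=
    mul_le_mul_of_nonneg_right (by linarith only [h3]) (by linarith only [hη])
  have h5 : 0 ≤ (1 - η ^ 2) * (1 + η) - 2 * η := by linarith only [h4, hη1]
  have h6 : 0 ≤ η ^ 2 / 2 * ((1 - η ^ 2) * (1 + η) - 2 * η) := by positivity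
  linarith only [h6]

theorem H5_sum {E : Matrix (Alt n) (Alt n) ℝ} (hE : IsBlock E) (a b : ℝ) (α : Alt n → ℝ) (hα : IsWt α)
    (ha : ∑ g ∈ Finset.univ.filter (fun g : Alt n => n < 24 * fixc g), α g ≤ a)
    (hb : ∀ g : Alt n, 24 * fixc g ≤ n → |(E * Rm g).trace| ≤ b * E.trace) (hb0 : 0 ≤ b) :
    (E * ∑ g, α g • Rm g).trace ≤ (a + b) * E.trace := by
  have hτ : 0 < E.trace := lt_of_lt_of_le one_pos (block_trace_pos hE)
  have e1 : (E * ∑ g, α g • Rm g).trace = ∑ g, α g * (E * Rm g).trace := by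
    rw [Finset.mul_sum, Matrix.trace_sum]
    refine Finset.sum_congr rfl fun g _ => ?_
    rw [Matrix.mul_smul, Matrix.trace_smul, smul_eq_mul]
  rw [e1, ← Finset.sum_filter_add_sum_filter_not Finset.univ (fun g : Alt n => n < 24 * fixc g)]
  have h1 : ∑ g ∈ Finset.univ.filter (fun g : Alt n => n < 24 * fixc g), α g * (E * Rm g).trace ≤
      a * E.trace := by
    refine le_trans (Finset.sum_le_sum (g := fun g => α g * E.trace) fun g _ =>
      mul_le_mul_of_nonneg_left ((le_abs_self _).trans (H5_abs hE.1 g)) (hα.1 g)) ?_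
    rw [← Finset.sum_mul]
    exact mul_le_mul_of_nonneg_right ha hτ.le
  have h2 : ∑ g ∈ Finset.univ.filter (fun g : Alt n => ¬ n < 24 * fixc g), α g * (E * Rm g).trace ≤
      b * E.trace := by
    refine le_trans (Finset.sum_le_sum (g := fun g => α g * (b * E.trace)) fun g hg =>
      mul_le_mul_of_nonneg_left ((le_abs_self _).trans
        (hb g (not_lt.mp (Finset.mem_filter.mp hg).2))) (hα.1 g)) ?_
    rw [← Finset.sum_mul]
    have h3 : ∑ g ∈ Finset.univ.filter (fun g : Alt n => ¬ n < 24 * fixc g), α g ≤ 1 := by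
      rw [← hα.2]
      exact Finset.sum_le_sum_of_subset_of_nonneg (Finset.filter_subset _ _) fun g _ _ => hα.1 g
    calc (∑ g ∈ Finset.univ.filter (fun g : Alt n => ¬ n < 24 * fixc g), α g) * (b * E.trace)
        ≤ 1 * (b * E.trace) := mul_le_mul_of_nonneg_right h3 (mul_nonneg hb0 hτ.le)
      _ = b * E.trace := one_mul _
  calc _ ≤ a * E.trace + b * E.trace := add_le_add h1 h2
    _ = (a + b) * E.trace := by ring

/-- Section 10: trace of the threshold projection on a block. -/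
theorem trace_thr_le {ι : Type} [Fintype ι] {w : ι → ℝ} (hw : IsWt w) (x : ι → Alt n) {E P : Matrix (Alt n) (Alt n) ℝ}
    (hE : IsBlock E) (t : ℕ) (η a b : ℝ) (hη : 0 < η) (hη1 : η ≤ 1 / 2) (α : Alt n → ℝ) (hα : IsWt α)
    (h : ((1 / 2 : ℝ) • (1 + Aw w x)) ^ t = ∑ g, α g • Rm g)
    (hP : (1 - η) ^ t * (E * P).trace ≤ (E * ((1 / 2 : ℝ) • (1 + Aw w x)) ^ t).trace)
    (ha : ∑ g ∈ Finset.univ.filter (fun g : Alt n => n < 24 * fixc g), α g ≤ a)
    (hb : ∀ g : Alt n, 24 * fixc g ≤ n → |(E * Rm g).trace| ≤ b * E.trace) (hb0 : 0 ≤ b) :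
    (E * P).trace ≤ Real.exp (t * (η + η ^ 2)) * (a + b) * E.trace := by
  have hτ : 0 < E.trace := lt_of_lt_of_le one_pos (block_trace_pos hE)
  have ha0 : 0 ≤ a := le_trans (Finset.sum_nonneg fun g _ => hα.1 g) ha
  have h1 : (1 - η) ^ t * (E * P).trace ≤ (a + b) * E.trace := by
    refine hP.trans ?_
    rw [h]
    exact H5_sum hE a b α hα ha hb hb0
  have hR : 0 ≤ (a + b) * E.trace := mul_nonneg (add_nonneg ha0 hb0) hτ.le
  have h2 : 1 ≤ (1 - η) ^ t * Real.exp (t * (η + η ^ 2)) := by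
    rw [Real.exp_nat_mul, ← mul_pow]
    exact one_le_pow₀ (H5_exp η hη hη1)
  have hq : 0 < (1 - η) ^ t := pow_pos (by linarith only [hη1]) t
  rw [mul_assoc]
  refine le_of_mul_le_mul_left ?_ hq
  refine h1.trans ?_
  rw [← mul_assoc]
  exact le_mul_of_one_le_left hR h2

end Pool.Agent.BC5
end

section
set_option autoImplicit false
set_option linter.unusedSectionVars false
set_option linter.unusedVariables false
open scoped BigOperators Matrix
open Matrix
namespace Pool.Agent.BC5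

/-
ROW H6. Section 11 end. u_i := Rm (y i)⁻¹ f, E u_i = u_i. qf(conjR (E*P0) y i) f = qf (E*P0) u_i = qf P0 u_i = (P0 u_i)·(P0 u_i). P0 f = P0 u_i + P0(f - u_i), so (P0 f)·(P0 f) ≤ 2 qf P0 u_i + 2 (u_i-f)·(u_i-f), and (u_i-f)·(u_i-f) = 2(f·f - qf(Sm(y i)) f) (qf_Sm). Average (hT): with a = f·f, z = a - qf P0 f, eo = a - qf A f ≥ 0,
en = a - qf(avg Sm) f ≥ 0: a - z ≤ 2τ a + 4 en, and (1-d) ε z ≤ eo (hthr), so (1-2τ) a ≤ eo/((1-d)ε) + 4 en. Then ε' a ≤ (1-ρ) eo + ρ en: if ε' ≤ 0 trivial; else multiply by ε'/(1-2τ) and use h1, h2.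
-/

variable {n : ℕ}

theorem H6_dot_add_le {V : Type} [Fintype V] (f g : V → ℝ) :
    (f + g) ⬝ᵥ (f + g) ≤ 2 * (f ⬝ᵥ f) + 2 * (g ⬝ᵥ g) := by
  have h1 : 0 ≤ (f - g) ⬝ᵥ (f - g) := Finset.sum_nonneg fun i _ => mul_self_nonneg _
  rw [sub_dotProduct, dotProduct_sub, dotProduct_sub, dotProduct_comm g f] at h1
  rw [add_dotProduct, dotProduct_add, dotProduct_add, dotProduct_comm g f]
  linarith

theorem H6_qf_pr_le {V : Type} [Fintype V] [DecidableEq V] {P : Matrix V V ℝ} (hP : IsPr P) (f : V → ℝ) :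
    qf P f ≤ f ⬝ᵥ f := by
  have h1 := qf_pr_nonneg hP.compl f
  rw [qf_sub, qf_one] at h1
  linarith

theorem H6_conj {G : Type} [Group G] [Fintype G] [DecidableEq G] {E P0 : Matrix G G ℝ} (hE : IsBlock E)
    {s : ℕ} (y : Fin s → G) (f : G → ℝ) (hf : E *ᵥ f = f) (i : Fin s) :
    qf (conjR (E * P0) y i) f = qf P0 (Rm (y i)⁻¹ *ᵥ f) := by
  have hEu : E *ᵥ (Rm (y i)⁻¹ *ᵥ f) = Rm (y i)⁻¹ *ᵥ f := by
    rw [Matrix.mulVec_mulVec, (hE.2.2.1 (y i)⁻¹).eq, ← Matrix.mulVec_mulVec, hf]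
  have hEt : Eᵀ = E := hE.1.1
  unfold qf conjR
  rw [← Matrix.mulVec_mulVec, ← Matrix.mulVec_mulVec, ← Matrix.mulVec_mulVec]
  have h1 := dot_Rm (y i)⁻¹ f (Rm (y i) *ᵥ (E *ᵥ (P0 *ᵥ (Rm (y i)⁻¹ *ᵥ f))))
  rw [← h1]
  rw [Matrix.mulVec_mulVec _ (Rm (y i)⁻¹) (Rm (y i)), Rm_inv_mul, Matrix.one_mulVec,
    Matrix.dotProduct_mulVec, ← Matrix.mulVec_transpose, hEt, hEu]

theorem H6_real {a p A S T ε ε' d ρ τ : ℝ} (hε : 0 < ε) (hd1 : d < 1) (hρ0 : 0 < ρ) (hρ1 : ρ < 1)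
    (hτ1 : τ < 1 / 2) (h1 : ε' ≤ (1 - 2 * τ) * ((1 - ρ) * ((1 - d) * ε)))
    (h2 : ε' ≤ (1 - 2 * τ) * (ρ / 4)) (hav : p ≤ 2 * T + 4 * (a - S)) (hT : T ≤ τ * a)
    (hth : ε / 2 * (1 - d) * (a - p) ≤ 1 / 2 * (a - A)) (hp : p ≤ a) (hA : A ≤ a) (hS : S ≤ a)
    (ha : 0 ≤ a) : (1 - ρ) * A + ρ * S ≤ (1 - ε') * a := by
  obtain ⟨z, hz'⟩ : ∃ z, z = a - p := ⟨_, rfl⟩
  obtain ⟨eo, heo'⟩ : ∃ eo, eo = a - A := ⟨_, rfl⟩
  obtain ⟨en, hen'⟩ : ∃ en, en = a - S := ⟨_, rfl⟩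
  have hz : 0 ≤ z := by linarith
  have heo : 0 ≤ eo := by linarith
  have hen : 0 ≤ en := by linarith
  rw [← hz', ← heo'] at hth
  rw [← hen'] at hav
  have hkey : (1 - 2 * τ) * a ≤ z + 4 * en := by linarith
  have hgoal : ε' * a ≤ (1 - ρ) * eo + ρ * en := by
    have hρ' : 0 < 1 - ρ := by linarith
    have hr : 0 ≤ (1 - ρ) * eo + ρ * en :=
      add_nonneg (mul_nonneg hρ'.le heo) (mul_nonneg hρ0.le hen)
    rcases le_or_gt ε' 0 with hneg | hpos
    · exact (mul_nonpos_of_nonpos_of_nonneg hneg ha).trans hr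
    · have ht : 0 < 1 - 2 * τ := by linarith
      obtain ⟨κ, hκ⟩ : ∃ κ, κ = ε' / (1 - 2 * τ) := ⟨_, rfl⟩
      have hκ1 : ε' = κ * (1 - 2 * τ) := by
        rw [hκ]
        field_simp
      have hκ0 : 0 < κ := by
        rw [hκ]
        positivity
      have hκ2 : κ ≤ (1 - ρ) * ((1 - d) * ε) := by
        rw [hκ, div_le_iff₀ ht]
        linarith
      have hκ3 : κ ≤ ρ / 4 := by
        rw [hκ, div_le_iff₀ ht]
        linarith
      have h5 : ε' * a ≤ κ * (z + 4 * en) := by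
        rw [hκ1, mul_assoc]
        exact mul_le_mul_of_nonneg_left hkey hκ0.le
      have h6 : κ * z ≤ (1 - ρ) * ((1 - d) * ε) * z := mul_le_mul_of_nonneg_right hκ2 hz
      have h7 : κ * en ≤ ρ / 4 * en := mul_le_mul_of_nonneg_right hκ3 hen
      have h8 : (1 - d) * ε * z ≤ eo := by linarith
      have h9 : (1 - ρ) * ((1 - d) * ε * z) ≤ (1 - ρ) * eo := mul_le_mul_of_nonneg_left h8 hρ'.le
      have h10 : (1 - ρ) * ((1 - d) * ε) * z = (1 - ρ) * ((1 - d) * ε * z) := by ring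
      linarith
  have h11 : A = a - eo := by linarith
  have h12 : S = a - en := by linarith
  rw [h11, h12]
  linarith

/-- Section 11: how the new elements give a gap on a block `E`. -/
theorem gap_of_stage {G : Type} [Group G] [Fintype G] [DecidableEq G] {E P0 A : Matrix G G ℝ} (hE : IsBlock E) (hP0 : IsPr P0)
    (hP0L : CommL P0) (hEP : Commute E P0) {s : ℕ} (hs : 1 ≤ s) (y : Fin s → G) (ε ε' d ρ τ : ℝ) (hε : 0 < ε)
    (hd0 : 0 < d) (hd1 : d < 1) (hρ0 : 0 < ρ) (hρ1 : ρ < 1) (hτ0 : 0 < τ) (hτ1 : τ < 1 / 2)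
    (h1 : ε' ≤ (1 - 2 * τ) * ((1 - ρ) * ((1 - d) * ε))) (h2 : ε' ≤ (1 - 2 * τ) * (ρ / 4))
    (hthr : ∀ f, ε / 2 * (1 - d) * (f ⬝ᵥ f - qf P0 f) ≤ (1 / 2) * (f ⬝ᵥ f - qf A f)) (hA : ∀ f, qf A f ≤ f ⬝ᵥ f)
    (hT : ∀ f, qf (avg (conjR (E * P0) y)) f ≤ τ * (f ⬝ᵥ f)) (f : G → ℝ) (hf : E *ᵥ f = f) :
    qf ((1 - ρ) • A + ρ • avg (fun i => Sm (y i))) f ≤ (1 - ε') * (f ⬝ᵥ f) := by
  have : Nonempty (Fin s) := ⟨⟨0, hs⟩⟩
  have hpt : ∀ i : Fin s, qf P0 f ≤
      2 * qf (conjR (E * P0) y i) f + 4 * (f ⬝ᵥ f - qf (Sm (y i)) f) := by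
    intro i
    rw [H6_conj hE y f hf i, qf_Sm]
    obtain ⟨u, hu⟩ : ∃ u, u = Rm (y i)⁻¹ *ᵥ f := ⟨_, rfl⟩
    rw [← hu]
    have h3 : P0 *ᵥ f = P0 *ᵥ u + P0 *ᵥ (f - u) := by
      rw [← Matrix.mulVec_add]
      congr 1
      abel
    have h4 : qf P0 f ≤ 2 * qf P0 u + 2 * qf P0 (f - u) := by
      rw [qf_pr hP0, qf_pr hP0, qf_pr hP0, h3]
      exact H6_dot_add_le _ _
    have h5 := H6_qf_pr_le hP0 (f - u)
    have h6 : (f - u) ⬝ᵥ (f - u) = (u - f) ⬝ᵥ (u - f) := by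
      have h7 : f - u = -(u - f) := by abel
      rw [h7, neg_dotProduct, dotProduct_neg, neg_neg]
    linarith
  have hav : qf P0 f ≤ 2 * qf (avg (conjR (E * P0) y)) f +
      4 * (f ⬝ᵥ f - qf (avg (fun i => Sm (y i))) f) := by
    have h3 := avg_mono hpt
    rw [avg_const, avg_add, avg_mul_left, avg_mul_left, avg_sub, avg_const] at h3
    rw [qf_avg, qf_avg]
    exact h3
  have hen : 0 ≤ f ⬝ᵥ f - qf (avg (fun i => Sm (y i))) f := by
    rw [qf_avg]
    have h3 : avg (fun i => qf (Sm (y i)) f) ≤ f ⬝ᵥ f :=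
      avg_le_of_le (fun i => (le_abs_self _).trans (abs_qf_Sm_le (y i) f))
    linarith
  have hT1 := hT f
  have hz : 0 ≤ f ⬝ᵥ f - qf P0 f := by
    have := H6_qf_pr_le hP0 f
    linarith
  have heo : 0 ≤ f ⬝ᵥ f - qf A f := by
    have := hA f
    linarith
  have hth := hthr f
  have ha : 0 ≤ f ⬝ᵥ f := dot_self_nonneg f
  rw [qf_add, qf_smul, qf_smul]
  exact H6_real hε hd1 hρ0 hρ1 hτ1 h1 h2 hav hT1 hth (by linarith) (by linarith) (by linarith) ha

end Pool.Agent.BC5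
end

section
set_option autoImplicit false
set_option linter.unusedSectionVars false
set_option linter.unusedVariables false
open scoped BigOperators Matrix
open Matrix
namespace Pool.Agent.BC5

/-
ROW H7. E ≠ Jm block with LevLe k E: avL(AY Y)*E ≠ 0 (avL_mul_ne_zero_of_levLe), transfer with c = 1/2: for f = E f = avL f we have Jm f = Jm E f = 0 (block_eq_or_mul_eq_zero). CommR E gives Commute A E.
-/

variable {n : ℕ}

/-- Section 12, base round (deterministic part): the base event gives gap 1/2. -/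
theorem gapOn_of_base (hn : 3 ≤ n) {A : Matrix (Alt n) (Alt n) ℝ} (hAt : Aᵀ = A) (hAL : CommL A)
    (hAc : ∀ X : Matrix (Alt n) (Alt n) ℝ, CommR X → Commute X A) (Y : Finset (Fin n)) (k : ℕ) (hY : Y.card + k = n)
    (h : ∀ f : Alt n → ℝ, avL (AY Y) *ᵥ f = f → Jm (Alt n) *ᵥ f = 0 → qf A f ≤ 1 / 2 * (f ⬝ᵥ f)) :
    GapOn A (1 / 2) k := by
  intro E hE hEJ hlev f hf
  have h1 : avL (AY Y) * E ≠ 0 := avL_mul_ne_zero_of_levLe hn hE hlev Y (by omega)
  have hc : Commute A E := (hAc E hE.2.2.1).symm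
  have h3 : Jm (Alt n) * E = 0 := by
    rcases block_eq_or_mul_eq_zero Jm_isBlock hE with h3 | h3
    · exact absurd h3.symm hEJ
    · exact h3
  have h2 := transfer (T := A) (c := 1 / 2) hE (AY_isGrp Y) h1 hAt hAL hc (fun g hg hgY => by
    apply h g hgY
    rw [← hg, Matrix.mulVec_mulVec, h3, Matrix.zero_mulVec]) f hf
  have h4 : (1 - 1 / 2 : ℝ) = 1 / 2 := by norm_num
  rw [h4]
  exact h2

end Pool.Agent.BC5
end

section
set_option autoImplicit false
set_option linter.unusedSectionVars false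
set_option linter.unusedVariables false
open scoped BigOperators Matrix
open Matrix
namespace Pool.Agent.BC5

/-
ROW H8. Section 12. f := indicator of A - card A/card G. f·f = |A|(1-|A|/|G|) ≥ |A|/2; Jm f = 0. With the blocks (exists_blocks): f = ∑ E f over E ≠ Jm, qf (Aw w x) f = ∑ qf (Aw w x) (E f) (E commutes with Aw, E*F = 0) ≤ (1-ε) ∑ (Ef)·(Ef) = (1-ε) f·f (all blocks have LevLe n: levLe_of_ge). So ∑ w i (f·f - qf(Sm(x i)) f) ≥ ε f·f ≥ ε|A|/2, so some i with f·f - qf(Sm(x i)) f ≥ ε|A|/2.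
By qf_Sm (with g, or g⁻¹) this is (1/2)#{y : exactly one of y, y*(x i)⁻¹ is in A} = #{y ∉ A : y*(x i)⁻¹ ∈ A} (equal cardinalities of A and A*(x i)). Those y are y = a * x i with a ∈ A. Compare Nat.card.
-/

variable {n : ℕ}

/-- The form of a matrix commuting with all blocks splits along the blocks. -/
theorem H8_split {G : Type} [Group G] [Fintype G] [DecidableEq G] (B : Finset (Matrix G G ℝ))
    (hB : ∀ E ∈ B, IsPr E) (hsum : ∑ E ∈ B, E = 1) (M : Matrix G G ℝ) (hM : ∀ E ∈ B, Commute E M) (f : G → ℝ) :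
    qf M f = ∑ E ∈ B, qf M (E *ᵥ f) := by
  have h1 : M = ∑ E ∈ B, E * M := by
    rw [← Finset.sum_mul, hsum, one_mul]
  have h2 : ∀ E ∈ B, qf (E * M) f = qf M (E *ᵥ f) := by
    intro E hE
    have e1 : E * M = E * (M * E) := by
      rw [← (hM E hE).eq, ← mul_assoc, (hB E hE).2]
    rw [e1]
    unfold qf
    rw [← Matrix.mulVec_mulVec, Matrix.dotProduct_mulVec, ← Matrix.mulVec_transpose, (hB E hE).1,
      ← Matrix.mulVec_mulVec]
  calc qf M f = qf (∑ E ∈ B, E * M) f := by rw [← h1]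
    _ = ∑ E ∈ B, qf (E * M) f := qf_sum _ _ _
    _ = ∑ E ∈ B, qf M (E *ᵥ f) := Finset.sum_congr rfl h2

open Classical in
/-- The boundary form of a centred indicator function. -/
theorem H8_half {G : Type} [Group G] [Fintype G] [DecidableEq G] (A : Set G) (c : ℝ) (g : G) :
    (1 / 2 : ℝ) * ((Rm g⁻¹ *ᵥ (fun y => (if y ∈ A then (1 : ℝ) else 0) - c) - fun y => (if y ∈ A then (1 : ℝ) else 0) - c) ⬝ᵥ
      (Rm g⁻¹ *ᵥ (fun y => (if y ∈ A then (1 : ℝ) else 0) - c) - fun y => (if y ∈ A then (1 : ℝ) else 0) - c))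
      = ((Finset.univ.filter (fun y : G => y ∉ A ∧ y * g⁻¹ ∈ A)).card : ℝ) := by
  have hre : ∑ y : G, (if y * g⁻¹ ∈ A then (1 : ℝ) else 0) = ∑ y : G, (if y ∈ A then (1 : ℝ) else 0) :=
    Equiv.sum_comp (Equiv.mulRight g⁻¹) (fun y => if y ∈ A then (1 : ℝ) else 0)
  have h1 : (Rm g⁻¹ *ᵥ (fun y => (if y ∈ A then (1 : ℝ) else 0) - c) - fun y => (if y ∈ A then (1 : ℝ) else 0) - c)
      = fun y => (if y * g⁻¹ ∈ A then (1 : ℝ) else 0) - (if y ∈ A then (1 : ℝ) else 0) := by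
    funext y
    simp only [Pi.sub_apply, Rm_mulVec]
    ring
  rw [h1]
  have h2 : (((Finset.univ.filter (fun y : G => y ∉ A ∧ y * g⁻¹ ∈ A)).card : ℕ) : ℝ)
      = ∑ y : G, (if y * g⁻¹ ∈ A then (1 : ℝ) else 0) * (1 - (if y ∈ A then (1 : ℝ) else 0)) := by
    rw [Finset.card_filter]
    push_cast
    refine Finset.sum_congr rfl fun y _ => ?_
    by_cases ha : y ∈ A <;> by_cases hb : y * g⁻¹ ∈ A <;> simp [ha, hb]
  rw [h2]
  have h3 : ∀ y : G, ((if y * g⁻¹ ∈ A then (1 : ℝ) else 0) - (if y ∈ A then (1 : ℝ) else 0))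
      * ((if y * g⁻¹ ∈ A then (1 : ℝ) else 0) - (if y ∈ A then (1 : ℝ) else 0))
      = 2 * ((if y * g⁻¹ ∈ A then (1 : ℝ) else 0) * (1 - (if y ∈ A then (1 : ℝ) else 0)))
        - (if y * g⁻¹ ∈ A then (1 : ℝ) else 0) + (if y ∈ A then (1 : ℝ) else 0) := by
    intro y
    by_cases ha : y ∈ A <;> by_cases hb : y * g⁻¹ ∈ A <;> simp [ha, hb] <;> norm_num
  have h4 : ((fun y => (if y * g⁻¹ ∈ A then (1 : ℝ) else 0) - (if y ∈ A then (1 : ℝ) else 0)) ⬝ᵥ
      (fun y => (if y * g⁻¹ ∈ A then (1 : ℝ) else 0) - (if y ∈ A then (1 : ℝ) else 0)))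
      = 2 * ∑ y : G, (if y * g⁻¹ ∈ A then (1 : ℝ) else 0) * (1 - (if y ∈ A then (1 : ℝ) else 0)) := by
    unfold dotProduct
    rw [Finset.sum_congr rfl (fun y _ => h3 y), Finset.sum_add_distrib, Finset.sum_sub_distrib, hre,
      Finset.mul_sum]
    ring
  rw [h4]
  ring

open Classical in
/-- The norm of a centred indicator function. -/
theorem H8_norm {G : Type} [Group G] [Fintype G] [DecidableEq G] (A : Set G) (a N : ℝ)
    (ha : a = ∑ y : G, (if y ∈ A then (1 : ℝ) else 0)) (hN : N = Fintype.card G) :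
    (fun y : G => (if y ∈ A then (1 : ℝ) else 0) - a / N) ⬝ᵥ (fun y : G => (if y ∈ A then (1 : ℝ) else 0) - a / N)
      = a - a * a / N ∧ Jm G *ᵥ (fun y : G => (if y ∈ A then (1 : ℝ) else 0) - a / N) = 0 := by
  have hN0 : N ≠ 0 := by
    rw [hN]; exact_mod_cast Fintype.card_ne_zero
  constructor
  · unfold dotProduct
    have h3 : ∀ y : G, ((if y ∈ A then (1 : ℝ) else 0) - a / N) * ((if y ∈ A then (1 : ℝ) else 0) - a / N)
        = (1 - 2 * (a / N)) * (if y ∈ A then (1 : ℝ) else 0) + (a / N) * (a / N) := by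
      intro y
      by_cases hy : y ∈ A <;> simp [hy] <;> ring
    rw [Finset.sum_congr rfl (fun y _ => h3 y), Finset.sum_add_distrib, ← Finset.mul_sum, ← ha,
      Finset.sum_const, Finset.card_univ, nsmul_eq_mul, ← hN]
    field_simp
    ring
  · funext x
    simp only [Jm, Matrix.mulVec, dotProduct, Matrix.of_apply, Pi.zero_apply]
    rw [← Finset.mul_sum, Finset.sum_sub_distrib, ← ha, Finset.sum_const, Finset.card_univ, nsmul_eq_mul, ← hN]
    field_simp
    ring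

/-- Section 12: from the gap to the vertex expansion. -/
theorem expansion_of_hasGap (hn : 3 ≤ n) {ι : Type} [Fintype ι] {x : ι → Alt n} {ε : ℝ} (hε : 0 < ε)
    (h : HasGap x ε n) (A : Set (Alt n)) (hA : 2 * Nat.card A ≤ Nat.card (Alt n)) :
    ε / 2 * (Nat.card A : ℝ) ≤
      (Nat.card {g : Alt n // g ∉ A ∧ ∃ a ∈ A, ∃ i : ι, g = a * x i ∨ g = a * (x i)⁻¹} : ℝ) := by
  classical
  obtain ⟨w, hw, hgap⟩ := h
  obtain ⟨B, hB, hsum⟩ := exists_blocks (Alt n)
  obtain ⟨a, ha⟩ : ∃ a : ℝ, a = ∑ y : Alt n, (if y ∈ A then (1 : ℝ) else 0) := ⟨_, rfl⟩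
  obtain ⟨N, hN⟩ : ∃ N : ℝ, N = Fintype.card (Alt n) := ⟨_, rfl⟩
  have hN0 : 0 < N := by
    rw [hN]; exact_mod_cast Fintype.card_pos
  have hcard : (Nat.card A : ℝ) = a := by
    rw [ha, Nat.card_eq_fintype_card, Finset.sum_boole]
    congr 1
    rw [Fintype.card_subtype]
  have hNc : (Nat.card (Alt n) : ℝ) = N := by
    rw [hN, Nat.card_eq_fintype_card]
  have h2a : 2 * a ≤ N := by
    rw [← hcard, ← hNc]; exact_mod_cast hA
  have ha0 : 0 ≤ a := by
    rw [← hcard]; positivity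
  obtain ⟨hff, hJ⟩ := H8_norm A a N ha hN
  obtain ⟨f, hf⟩ : ∃ f : Alt n → ℝ, f = fun y : Alt n => (if y ∈ A then (1 : ℝ) else 0) - a / N := ⟨_, rfl⟩
  rw [← hf] at hff hJ
  -- lower bound of the norm
  have hlow : a / 2 ≤ f ⬝ᵥ f := by
    rw [hff]
    have : a * a / N ≤ a / 2 := by
      rw [div_le_div_iff₀ hN0 (by norm_num)]
      nlinarith
    linarith
  -- the gap
  have hM : ∀ E ∈ B, Commute E (Aw w x) := fun E hE => commute_Aw w x ((hB E).mp hE).2.2.1
  have hPr : ∀ E ∈ B, IsPr E := fun E hE => ((hB E).mp hE).1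
  have hs1 := H8_split B hPr hsum (Aw w x) hM f
  have hs2 := H8_split B hPr hsum 1 (fun E _ => Commute.one_right E) f
  have hterm : ∀ E ∈ B, qf (Aw w x) (E *ᵥ f) ≤ (1 - ε) * qf 1 (E *ᵥ f) := by
    intro E hE
    by_cases hEJ : E = Jm (Alt n)
    · rw [hEJ, hJ]
      simp [qf]
    · have hblk := (hB E).mp hE
      rw [qf_one]
      refine hgap E hblk hEJ (levLe_of_ge hblk.2.2.2.1 n (by omega) (by omega)) _ ?_
      rw [Matrix.mulVec_mulVec, hblk.1.2]
  have hgapf : qf (Aw w x) f ≤ (1 - ε) * (f ⬝ᵥ f) := by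
    rw [hs1, ← qf_one, hs2, Finset.mul_sum]
    exact Finset.sum_le_sum hterm
  -- upper bound by the boundary
  obtain ⟨K, hK⟩ : ∃ K : ℕ, K = Nat.card {g : Alt n // g ∉ A ∧ ∃ a ∈ A, ∃ i : ι, g = a * x i ∨ g = a * (x i)⁻¹} :=
    ⟨_, rfl⟩
  have hup : ∀ i : ι, f ⬝ᵥ f - qf (Sm (x i)) f ≤ K := by
    intro i
    rw [qf_Sm, hf, H8_half]
    rw [hK, Nat.card_eq_fintype_card, Fintype.card_subtype]
    norm_cast
    refine Finset.card_le_card ?_
    intro y hy
    rw [Finset.mem_filter] at hy ⊢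
    refine ⟨Finset.mem_univ _, hy.2.1, y * (x i)⁻¹, hy.2.2, i, Or.inl ?_⟩
    group
  rw [← hK, hcard]
  have hsumt : f ⬝ᵥ f - qf (Aw w x) f = ∑ i, w i * (f ⬝ᵥ f - qf (Sm (x i)) f) := by
    have e1 : ∑ i, w i * (f ⬝ᵥ f - qf (Sm (x i)) f) = (∑ i, w i) * (f ⬝ᵥ f) - ∑ i, w i * qf (Sm (x i)) f := by
      rw [Finset.sum_mul, ← Finset.sum_sub_distrib]
      exact Finset.sum_congr rfl fun i _ => by ring
    rw [e1, hw.2, one_mul]
    congr 1
    unfold Aw
    rw [qf_sum]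
    exact Finset.sum_congr rfl fun i _ => qf_smul _ _ _
  have hfin : f ⬝ᵥ f - qf (Aw w x) f ≤ K := by
    rw [hsumt]
    calc ∑ i, w i * (f ⬝ᵥ f - qf (Sm (x i)) f) ≤ ∑ i, w i * (K : ℝ) :=
          Finset.sum_le_sum fun i _ => mul_le_mul_of_nonneg_left (hup i) (hw.1 i)
      _ = K := by rw [← Finset.sum_mul, hw.2, one_mul]
  have : ε * (a / 2) ≤ ε * (f ⬝ᵥ f) := mul_le_mul_of_nonneg_left hlow hε.le
  linarith

end Pool.Agent.BC5
end

section
set_option autoImplicit false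
set_option linter.unusedSectionVars false
set_option linter.unusedVariables false
open scoped BigOperators Matrix
open Matrix
namespace Pool.Agent.BC5

/-
ROW R1. Fintype.sum_sum_type, Finset.sum_const; avg over Fin s is (s)⁻¹ • ∑.
-/

variable {n : ℕ}

theorem isWt_joinWt {ι : Type} [Fintype ι] {w : ι → ℝ} (hw : IsWt w) {ρ : ℝ} (hρ0 : 0 ≤ ρ) (hρ1 : ρ ≤ 1) {s : ℕ}
    (hs : 1 ≤ s) : IsWt (joinWt w ρ s) := by
  obtain ⟨hw0, hw1⟩ := hw
  have hs0 : (s : ℝ) ≠ 0 := by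
    have : (0 : ℝ) < (s : ℝ) := by exact_mod_cast hs
    exact this.ne'
  constructor
  · intro i
    rcases i with i | i
    · exact mul_nonneg (by linarith) (hw0 i)
    · exact mul_nonneg hρ0 (by positivity)
  · rw [Fintype.sum_sum_type]
    simp only [joinWt, Sum.elim_inl, Sum.elim_inr]
    rw [← Finset.mul_sum, hw1, Finset.sum_const, Finset.card_univ, Fintype.card_fin, nsmul_eq_mul]
    field_simp
    ring

theorem Aw_joinWt {G : Type} [Group G] [Fintype G] [DecidableEq G] {ι : Type} [Fintype ι] (w : ι → ℝ) (x : ι → G) (ρ : ℝ)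
    {s : ℕ} (y : Fin s → G) :
    Aw (joinWt w ρ s) (Sum.elim x y) = (1 - ρ) • Aw w x + ρ • avg (fun i => Sm (y i)) := by
  unfold Aw avg
  rw [Fintype.sum_sum_type]
  simp only [joinWt, Sum.elim_inl, Sum.elim_inr, Fintype.card_fin]
  rw [Finset.smul_sum, smul_smul, Finset.smul_sum]
  congr 1
  refine Finset.sum_congr rfl fun i _ => ?_
  rw [smul_smul]

end Pool.Agent.BC5
end

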