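import Pool.Agent.Lib.MP_bc5a73_al.LinearAlgebra

section
set_option autoImplicit false
set_option linter.unusedSectionVars false
set_option linter.unusedVariables false
open scoped BigOperators Matrix
open Matrix
namespace Pool.Agent.BC5


/-- trace of an idempotent matrix = dimension of its range. -/
theorem SA1_trace {V : Type} [Fintype V] [DecidableEq V] (A : Matrix V V ℝ) (hA : A * A = A) :
    A.trace = (Module.finrank ℝ (LinearMap.range (Matrix.toLin' A)) : ℝ) := by
  have hi : IsIdempotentElem (Matrix.toLin' A) := by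
    unfold IsIdempotentElem
    rw [Module.End.mul_eq_comp, ← Matrix.toLin'_mul, hA]
  rw [← Matrix.trace_toLin'_eq A]
  exact (LinearMap.IsIdempotentElem.isProj_range _ hi).trace

theorem SA1_mem {V : Type} [Fintype V] [DecidableEq V] (A : Matrix V V ℝ) (hA : A * A = A) (f : V → ℝ) :
    f ∈ LinearMap.range (Matrix.toLin' A) ↔ A *ᵥ f = f := by
  constructor
  · rintro ⟨g, rfl⟩
    simp only [Matrix.toLin'_apply, Matrix.mulVec_mulVec, hA]
  · intro h
    exact ⟨f, by simp [Matrix.toLin'_apply, h]⟩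

theorem trace_inter {V : Type} [Fintype V] [DecidableEq V] (A A1 A2 C : Matrix V V ℝ) (hA : IsPr A) (h1 : IsPr A1)
    (h2 : IsPr A2) (hC : IsPr C) (hA1 : A * A1 = A1) (hA2 : A * A2 = A2)
    (h : ∀ f, A1 *ᵥ f = f → A2 *ᵥ f = f → C *ᵥ f = f) : A1.trace + A2.trace ≤ A.trace + C.trace := by
  rw [SA1_trace A hA.2, SA1_trace A1 h1.2, SA1_trace A2 h2.2, SA1_trace C hC.2]
  have hs := Submodule.finrank_sup_add_finrank_inf_eq (LinearMap.range (Matrix.toLin' A1))
    (LinearMap.range (Matrix.toLin' A2))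
  have h3 : LinearMap.range (Matrix.toLin' A1) ⊔ LinearMap.range (Matrix.toLin' A2) ≤
      LinearMap.range (Matrix.toLin' A) := by
    apply sup_le
    · intro f hf
      rw [SA1_mem A1 h1.2] at hf
      rw [SA1_mem A hA.2, ← hf, Matrix.mulVec_mulVec, hA1]
    · intro f hf
      rw [SA1_mem A2 h2.2] at hf
      rw [SA1_mem A hA.2, ← hf, Matrix.mulVec_mulVec, hA2]
  have h4 : LinearMap.range (Matrix.toLin' A1) ⊓ LinearMap.range (Matrix.toLin' A2) ≤
      LinearMap.range (Matrix.toLin' C) := by
    intro f hf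
    rw [Submodule.mem_inf, SA1_mem A1 h1.2, SA1_mem A2 h2.2] at hf
    rw [SA1_mem C hC.2]
    exact h f hf.1 hf.2
  have h5 := Submodule.finrank_mono h3
  have h6 := Submodule.finrank_mono h4
  exact_mod_cast (by omega : Module.finrank ℝ (LinearMap.range (Matrix.toLin' A1)) +
    Module.finrank ℝ (LinearMap.range (Matrix.toLin' A2)) ≤
    Module.finrank ℝ (LinearMap.range (Matrix.toLin' A)) +
    Module.finrank ℝ (LinearMap.range (Matrix.toLin' C)))

end Pool.Agent.BC5
end

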