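import Pool.Agent.Lib.MP_bc5a73_al.SlDefsM
import Pool.Agent.Lib.MP_bc5a73_al.TraceInter

section
set_option autoImplicit false
set_option linter.unusedSectionVars false
set_option linter.unusedVariables false
open scoped BigOperators Matrix
open Matrix
namespace Pool.Agent.BC5


variable {G : Type} [Group G] [Fintype G] [DecidableEq G]


theorem SA2_isGrp (H : Subgroup G) : IsGrp (subF H) := by
  refine ⟨?_, ?_, ?_⟩
  · rw [mem_subF]; exact H.one_mem
  · intro a ha b hb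
    rw [mem_subF] at *
    exact H.mul_mem ha hb
  · intro a ha
    rw [mem_subF] at *
    exact H.inv_mem ha

/-- `range P' ⊆ range P` gives the inequality of the traces on the range of a commuting projection `Q`. -/
theorem SA2_gen {P P' Q : Matrix G G ℝ} (hP : IsPr P) (hP' : IsPr P') (hQ : IsPr Q) (h : P * P' = P')
    (c : Commute P Q) (c' : Commute P' Q) : (P' * Q).trace ≤ (P * Q).trace := by
  have h' : P' * P = P' := by
    have e := congrArg Matrix.transpose h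
    rw [Matrix.transpose_mul, hP.1, hP'.1] at e
    exact e
  have h1 : IsPr (P - P') := by
    refine ⟨by rw [Matrix.transpose_sub, hP.1, hP'.1], ?_⟩
    rw [sub_mul, mul_sub, mul_sub, hP.2, hP'.2, h, h', sub_self, sub_zero]
  have h2 : IsPr ((P - P') * Q) := h1.mul hQ (c.sub_left c')
  have h3 := trace_pr_nonneg h2
  rw [sub_mul, Matrix.trace_sub] at h3
  linarith

theorem PK_isPr (K : Subgroup G) : IsPr (PK K) := avL_isPr (SA2_isGrp K)

theorem PK_fix (K : Subgroup G) (f : G → ℝ) : PK K *ᵥ f = f ↔ ∀ k ∈ K, Lm k *ᵥ f = f := by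
  unfold PK
  rw [avL_mulVec_eq_iff (SA2_isGrp K)]
  exact ⟨fun h k hk => h k ((mem_subF K k).2 hk), fun h k hk => h k ((mem_subF K k).1 hk)⟩

theorem PK_mul_left (K : Subgroup G) (k : G) (hk : k ∈ K) : Lm k * PK K = PK K ∧ PK K * Lm k = PK K :=
  ⟨G2_Lm_mul_avL (SA2_isGrp K) ((mem_subF K k).2 hk), G2_avL_mul_Lm (SA2_isGrp K) ((mem_subF K k).2 hk)⟩

theorem PK_commute {Q : Matrix G G ℝ} (K : Subgroup G) (h : ∀ k ∈ K, Commute Q (Lm k)) : Commute Q (PK K) := by
  unfold PK avL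
  exact (Commute.sum_right _ _ _ fun k hk => h k ((mem_subF K k).1 hk)).smul_right _

theorem PK_anti {K K' : Subgroup G} (h : K ≤ K') {Q : Matrix G G ℝ} (hQ : IsPr Q) (hc : ∀ k ∈ K', Commute Q (Lm k)) :
    (PK K' * Q).trace ≤ (PK K * Q).trace := by
  refine SA2_gen (PK_isPr K) (PK_isPr K') hQ ?_ (PK_commute K fun k hk => hc k (h hk)).symm (PK_commute K' hc).symm
  refine (avL_mul_avL_of_subset (SA2_isGrp K) (SA2_isGrp K') ?_).2
  intro k hk
  rw [mem_subF] at *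
  exact h hk

/-- The functions fixed by `K1` and `K2` are fixed by every element of `K1 ⊔ K2`. -/
theorem SA2_stab {K1 K2 : Subgroup G} {f : G → ℝ} (h1 : ∀ k ∈ K1, Lm k *ᵥ f = f) (h2 : ∀ k ∈ K2, Lm k *ᵥ f = f) :
    ∀ k ∈ K1 ⊔ K2, Lm k *ᵥ f = f := by
  let S : Subgroup G :=
    { carrier := {k | Lm k *ᵥ f = f}
      mul_mem' := by
        intro a b ha hb
        show Lm (a * b) *ᵥ f = f
        have ha' : Lm a *ᵥ f = f := ha
        have hb' : Lm b *ᵥ f = f := hb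
        rw [Lm_mul, ← Matrix.mulVec_mulVec, hb', ha']
      one_mem' := by
        show Lm 1 *ᵥ f = f
        rw [Lm_one, Matrix.one_mulVec]
      inv_mem' := by
        intro a ha
        show Lm a⁻¹ *ᵥ f = f
        have ha' : Lm a *ᵥ f = f := ha
        calc Lm a⁻¹ *ᵥ f = Lm a⁻¹ *ᵥ (Lm a *ᵥ f) := by rw [ha']
          _ = f := by rw [Matrix.mulVec_mulVec, Lm_inv_mul, Matrix.one_mulVec] }
  have hS : K1 ⊔ K2 ≤ S := sup_le h1 h2
  exact fun k hk => hS hk

theorem PK_sup {K1 K2 K0 : Subgroup G} (h : K0 ≤ K1 ⊔ K2) {Q : Matrix G G ℝ} (hQ : IsPr Q)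
    (hc : ∀ k ∈ K1 ⊔ K2, Commute Q (Lm k)) :
    Q.trace - (PK K0 * Q).trace ≤ (Q.trace - (PK K1 * Q).trace) + (Q.trace - (PK K2 * Q).trace) := by
  have c0 : Commute (PK K0) Q := (PK_commute K0 fun k hk => hc k (h hk)).symm
  have c1 : Commute (PK K1) Q := (PK_commute K1 fun k hk => hc k (le_sup_left (a := K1) hk)).symm
  have c2 : Commute (PK K2) Q := (PK_commute K2 fun k hk => hc k (le_sup_right (a := K1) hk)).symm
  have hA : ∀ P : Matrix G G ℝ, Commute P Q → Q * (P * Q) = P * Q := by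
    intro P hP
    rw [← mul_assoc, ← hP.eq, mul_assoc, hQ.2]
  have hB : ∀ K : Subgroup G, PK K * (PK K * Q) = PK K * Q := by
    intro K
    rw [← mul_assoc, (PK_isPr K).2]
  have hk := trace_inter Q (PK K1 * Q) (PK K2 * Q) (PK K0 * Q) hQ ((PK_isPr K1).mul hQ c1) ((PK_isPr K2).mul hQ c2)
    ((PK_isPr K0).mul hQ c0) (hA _ c1) (hA _ c2) ?_
  · linarith
  · intro f f1 f2
    have e0 : Q *ᵥ f = f := by
      calc Q *ᵥ f = Q *ᵥ ((PK K1 * Q) *ᵥ f) := by rw [f1]
        _ = f := by rw [Matrix.mulVec_mulVec, hA _ c1, f1]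
    have e1 : PK K1 *ᵥ f = f := by
      calc PK K1 *ᵥ f = PK K1 *ᵥ ((PK K1 * Q) *ᵥ f) := by rw [f1]
        _ = f := by rw [Matrix.mulVec_mulVec, hB, f1]
    have e2 : PK K2 *ᵥ f = f := by
      calc PK K2 *ᵥ f = PK K2 *ᵥ ((PK K2 * Q) *ᵥ f) := by rw [f2]
        _ = f := by rw [Matrix.mulVec_mulVec, hB, f2]
    have e3 : PK K0 *ᵥ f = f :=
      (PK_fix K0 f).2 fun k hk => SA2_stab ((PK_fix K1 f).1 e1) ((PK_fix K2 f).1 e2) k (h hk)
    rw [← Matrix.mulVec_mulVec, e0, e3]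

theorem PK_conj {Q : Matrix G G ℝ} (hQ : IsPr Q) (h : G) (hh : Commute Q (Lm h)) (K K' : Subgroup G)
    (hc : ∀ k ∈ K', Commute Q (Lm k)) (hK : ∀ k ∈ K, h * k * h⁻¹ ∈ K') : (PK K' * Q).trace ≤ (PK K * Q).trace := by
  have hh' : Commute Q (Lm h⁻¹) := by
    show Q * Lm h⁻¹ = Lm h⁻¹ * Q
    calc Q * Lm h⁻¹ = Lm h⁻¹ * (Lm h * Q) * Lm h⁻¹ := by rw [← mul_assoc, Lm_inv_mul, one_mul]
      _ = Lm h⁻¹ * (Q * Lm h) * Lm h⁻¹ := by rw [hh.eq]
      _ = Lm h⁻¹ * Q := by rw [mul_assoc, mul_assoc, Lm_mul_inv, mul_one]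
  have hKQ : Commute Q (PK K) := by
    refine PK_commute K fun k hk => ?_
    have e : Lm k = Lm h⁻¹ * (Lm (h * k * h⁻¹) * Lm h) := by
      rw [← Lm_mul, ← Lm_mul]
      congr 1
      group
    rw [e]
    exact hh'.mul_right ((hc _ (hK k hk)).mul_right hh)
  have hP : IsPr (Lm h * PK K * Lm h⁻¹) := by
    constructor
    · rw [Matrix.transpose_mul, Matrix.transpose_mul, (PK_isPr K).1, Lm_transpose, Lm_transpose, inv_inv, mul_assoc]
    · calc Lm h * PK K * Lm h⁻¹ * (Lm h * PK K * Lm h⁻¹) = Lm h * PK K * (Lm h⁻¹ * Lm h) * PK K * Lm h⁻¹ := by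
            simp only [mul_assoc]
        _ = Lm h * (PK K * PK K) * Lm h⁻¹ := by rw [Lm_inv_mul, mul_one, mul_assoc (Lm h)]
        _ = Lm h * PK K * Lm h⁻¹ := by rw [(PK_isPr K).2]
  have hm : Lm h * PK K * Lm h⁻¹ * PK K' = PK K' := by
    have e : Lm h * PK K * Lm h⁻¹ * PK K' =
        (((subF K).card : ℝ))⁻¹ • ∑ k ∈ subF K, Lm (h * k * h⁻¹) * PK K' := by
      generalize PK K' = P'
      unfold PK avL
      rw [Matrix.mul_smul, Matrix.smul_mul, Matrix.smul_mul, Matrix.mul_sum, Matrix.sum_mul, Matrix.sum_mul]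
      congr 1
      refine Finset.sum_congr rfl fun k _ => ?_
      rw [Lm_mul, Lm_mul]
    rw [e]
    refine G2_const (SA2_isGrp K) _ _ fun k hk => ?_
    exact (PK_mul_left K' _ (hK k ((mem_subF K k).1 hk))).1
  have hcP : Commute (Lm h * PK K * Lm h⁻¹) Q :=
    ((hh.mul_right hKQ).mul_right hh').symm
  refine (SA2_gen hP (PK_isPr K') hQ hm hcP (PK_commute K' hc).symm).trans (le_of_eq ?_)
  calc (Lm h * PK K * Lm h⁻¹ * Q).trace = (Lm h * (PK K * Q) * Lm h⁻¹).trace := by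
        rw [mul_assoc (Lm h * PK K), ← hh'.eq]
        simp only [mul_assoc]
    _ = (Lm h⁻¹ * (Lm h * (PK K * Q))).trace := Matrix.trace_mul_comm _ _
    _ = (PK K * Q).trace := by rw [← mul_assoc, Lm_inv_mul, one_mul]

end Pool.Agent.BC5
end

section
set_option autoImplicit false
set_option linter.unusedSectionVars false
set_option linter.unusedVariables false
open scoped BigOperators Matrix
open Matrix
namespace Pool.Agent.BC5


variable {G : Type} [Group G] [Fintype G] [DecidableEq G]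


theorem SA3_card (U : Subgroup G) : (subF U).card = Nat.card U :=
  (Nat.subtype_card (subF U) (fun g => mem_subF U g)).symm

/-- The sum of the left translations by the elements of `U`. -/
theorem SA3_sum (U : Subgroup G) : ∑ u ∈ subF U, Lm u = (Nat.card U : ℝ) • PK U := by
  have hc : (subF U).card = Nat.card U := SA3_card U
  have hpos : ((subF U).card : ℝ) ≠ 0 := by
    rw [hc]
    exact Nat.cast_ne_zero.mpr Nat.card_pos.ne'
  unfold PK avL
  rw [← hc, smul_smul, mul_inv_cancel₀ hpos, one_smul]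

/-- `H` normalises `U`. -/
theorem SA3_comm_Lm (H U : Subgroup G) (hN : ∀ h ∈ H, ∀ u ∈ U, h * u * h⁻¹ ∈ U) {h : G} (hh : h ∈ H) :
    Commute (PK U) (Lm h) := by
  have key : (∑ u ∈ subF U, Lm u) * Lm h = Lm h * ∑ u ∈ subF U, Lm u := by
    rw [Finset.sum_mul, Finset.mul_sum]
    refine Finset.sum_bij' (fun u _ => h⁻¹ * u * h) (fun u _ => h * u * h⁻¹) ?_ ?_ ?_ ?_ ?_
    · intro u hu
      rw [mem_subF] at hu ⊢
      have := hN h⁻¹ (H.inv_mem hh) u hu
      rwa [inv_inv] at this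
    · intro u hu
      rw [mem_subF] at hu ⊢
      exact hN h hh u hu
    · intro u _
      group
    · intro u _
      group
    · intro u _
      rw [← Lm_mul, ← Lm_mul]
      congr 1
      group
  rw [SA3_sum, smul_mul_assoc, mul_smul_comm] at key
  have hne : (Nat.card U : ℝ) ≠ 0 := Nat.cast_ne_zero.mpr Nat.card_pos.ne'
  exact smul_right_injective _ hne key

theorem core_bound (H U : Subgroup G) (hN : ∀ h ∈ H, ∀ u ∈ U, h * u * h⁻¹ ∈ U)
    (hT : ∀ u ∈ U, ∀ u' ∈ U, u ≠ 1 → u' ≠ 1 → ∃ h ∈ H, h * u * h⁻¹ = u') {Q : Matrix G G ℝ} (hQ : IsPr Q)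
    (hcH : ∀ h ∈ H, Commute Q (Lm h)) (hcU : ∀ u ∈ U, Commute Q (Lm u)) :
    IsPr (PK H * PK U * Q) ∧ ((Nat.card U : ℝ) - 1) * ((PK H * Q).trace - (PK H * PK U * Q).trace) ≤ Q.trace := by
  have hPH : IsPr (PK H) := PK_isPr H
  have hPU : IsPr (PK U) := PK_isPr U
  have hUH : Commute (PK U) (PK H) := PK_commute H (fun h hh => SA3_comm_Lm H U hN hh)
  have hQH : Commute Q (PK H) := PK_commute H hcH
  have hQU : Commute Q (PK U) := PK_commute U hcU
  refine ⟨(hPH.mul hPU hUH.symm).mul hQ ((hQH.mul_right hQU).symm), ?_⟩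
  -- the projection A'
  obtain ⟨A, hA⟩ : ∃ A, A = PK H * (1 - PK U) * Q := ⟨_, rfl⟩
  have hApr : IsPr A := by
    rw [hA]
    refine (hPH.mul hPU.compl ?_).mul hQ ?_
    · exact (Commute.one_right _).sub_right hUH.symm
    · exact (hQH.mul_right ((Commute.one_right _).sub_right hQU)).symm
  have hAtr : A.trace = (PK H * Q).trace - (PK H * PK U * Q).trace := by
    rw [hA, mul_sub, mul_one, sub_mul, Matrix.trace_sub]
  have hUA : PK U * A = 0 := by
    rw [hA, ← mul_assoc, ← mul_assoc, hUH.eq, mul_assoc (PK H), mul_sub, mul_one, hPU.2, sub_self, mul_zero,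
      zero_mul]
  have hAU : A * PK U = 0 := by
    have h1 : (PK U * A)ᵀ = 0 := by rw [hUA, Matrix.transpose_zero]
    rw [Matrix.transpose_mul, hPU.1, hApr.1] at h1
    exact h1
  have hLA : ∀ h ∈ H, Lm h * A = A := by
    intro h hh
    rw [hA, ← mul_assoc, ← mul_assoc, (PK_mul_left H h hh).1]
  have hAL : ∀ h ∈ H, A * Lm h = A := by
    intro h hh
    have h1 : (Lm h⁻¹ * A)ᵀ = Aᵀ := by rw [hLA h⁻¹ (H.inv_mem hh)]
    rw [Matrix.transpose_mul, Lm_transpose, inv_inv, hApr.1] at h1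
    exact h1
  have hQA : Q * A = A := by
    rw [hA, ← mul_assoc, (hQH.mul_right ((Commute.one_right _).sub_right hQU)).eq, mul_assoc, hQ.2]
  have hmpos : (1 : ℝ) ≤ (Nat.card U : ℝ) := by
    have : 0 < Nat.card U := Nat.card_pos
    exact_mod_cast this
  rw [← hAtr]
  rcases eq_or_lt_of_le hmpos with hm1 | hm1
  · rw [← hm1, sub_self, zero_mul]
    exact trace_pr_nonneg hQ
  have hmU : (Nat.card U : ℝ) - 1 ≠ 0 := by linarith
  have hm0 : (Nat.card U : ℝ) ≠ 0 := by linarith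
  -- the constant Z
  have hU1 : ∃ u0 ∈ U, u0 ≠ 1 := by
    by_contra hcon
    push Not at hcon
    have h1 : U = ⊥ := by
      rw [eq_bot_iff]
      intro u hu
      rw [Subgroup.mem_bot]
      exact hcon u hu
    rw [h1] at hm1
    simp at hm1
  obtain ⟨u0, hu0, hu01⟩ := hU1
  have hZ : ∀ u ∈ U, u ≠ 1 → A * Lm u * A = A * Lm u0 * A := by
    intro u hu hu1
    obtain ⟨h, hh, hhu⟩ := hT u0 hu0 u hu hu01 hu1
    rw [← hhu, Lm_mul, Lm_mul]
    calc A * (Lm h * Lm u0 * Lm h⁻¹) * A = (A * Lm h) * Lm u0 * (Lm h⁻¹ * A) := by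
          simp only [mul_assoc]
      _ = A * Lm u0 * A := by rw [hAL h hh, hLA _ (H.inv_mem hh)]
  have hsum0 : ∑ u ∈ subF U, A * Lm u * A = 0 := by
    rw [← Finset.sum_mul, ← Finset.mul_sum, SA3_sum, mul_smul_comm, hAU, smul_zero, zero_mul]
  have h1mem : (1 : G) ∈ subF U := by rw [mem_subF]; exact U.one_mem
  have hcard : (subF U).card = Nat.card U := SA3_card U
  have hZ2 : ((Nat.card U : ℝ) - 1) • (A * Lm u0 * A) = -A := by
    rw [← Finset.add_sum_erase _ _ h1mem, Lm_one, mul_one, hApr.2] at hsum0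
    have h2 : ∑ u ∈ (subF U).erase 1, A * Lm u * A = ∑ u ∈ (subF U).erase 1, A * Lm u0 * A := by
      apply Finset.sum_congr rfl
      intro u hu
      rw [Finset.mem_erase, mem_subF] at hu
      exact hZ u hu.2 hu.1
    rw [h2, Finset.sum_const, Finset.card_erase_of_mem h1mem, hcard, ← Nat.cast_smul_eq_nsmul ℝ,
      Nat.cast_sub Nat.card_pos, Nat.cast_one] at hsum0
    exact eq_neg_of_add_eq_zero_right hsum0
  obtain ⟨c, hc⟩ : ∃ c : ℝ, c = -((Nat.card U : ℝ) - 1)⁻¹ := ⟨_, rfl⟩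
  have hZ3 : A * Lm u0 * A = c • A := by
    rw [hc, neg_smul, ← smul_neg, ← hZ2, smul_smul, inv_mul_cancel₀ hmU, one_smul]
  have hZ4 : ∀ u ∈ U, A * Lm u * A = ((if u = 1 then (1 - c) else 0) + c) • A := by
    intro u hu
    by_cases hu1 : u = 1
    · rw [if_pos hu1, hu1, Lm_one, mul_one, hApr.2, sub_add_cancel, one_smul]
    · rw [if_neg hu1, zero_add, hZ u hu hu1, hZ3]
  -- the sum T
  obtain ⟨T, hTd⟩ : ∃ T, T = ∑ u ∈ subF U, Lm u * A * Lm u⁻¹ := ⟨_, rfl⟩
  have hinv : ∑ u ∈ subF U, Lm u⁻¹ = (Nat.card U : ℝ) • PK U := by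
    rw [← SA3_sum]
    refine Finset.sum_bij' (fun u _ => u⁻¹) (fun u _ => u⁻¹) ?_ ?_ ?_ ?_ ?_
    · intro u hu
      rw [mem_subF] at hu ⊢
      exact U.inv_mem hu
    · intro u hu
      rw [mem_subF] at hu ⊢
      exact U.inv_mem hu
    · intro u _
      exact inv_inv u
    · intro u _
      exact inv_inv u
    · intro u _
      rfl
  have hAT : ∀ u ∈ U, A * Lm u⁻¹ * T = (1 - c) • (A * Lm u⁻¹) := by
    intro u hu
    have h2 : A * Lm u⁻¹ * T = ∑ v ∈ subF U, ((if v = u then (1 - c) else 0) + c) • (A * Lm v⁻¹) := by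
      rw [hTd, Finset.mul_sum]
      apply Finset.sum_congr rfl
      intro v hv
      rw [mem_subF] at hv
      have h3 := hZ4 (u⁻¹ * v) (U.mul_mem (U.inv_mem hu) hv)
      have h4 : (u⁻¹ * v = 1) ↔ v = u := by
        rw [inv_mul_eq_one, eq_comm]
      rw [Lm_mul, if_congr h4 rfl rfl] at h3
      calc A * Lm u⁻¹ * (Lm v * A * Lm v⁻¹) = (A * (Lm u⁻¹ * Lm v) * A) * Lm v⁻¹ := by
            simp only [mul_assoc]
        _ = _ := by rw [h3, smul_mul_assoc]
    rw [h2]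
    simp only [add_smul]
    rw [Finset.sum_add_distrib, ← Finset.smul_sum, ← Finset.mul_sum, hinv, mul_smul_comm, hAU, smul_zero, smul_zero,
      add_zero]
    simp only [ite_smul, zero_smul]
    rw [Finset.sum_ite_eq']
    rw [if_pos ((mem_subF U u).2 hu)]
  have hTT : T * T = (1 - c) • T := by
    have h2 : T * T = ∑ u ∈ subF U, Lm u * (A * Lm u⁻¹ * T) := by
      conv_lhs => rw [hTd, Finset.sum_mul]
      rw [← hTd]
      apply Finset.sum_congr rfl
      intro u _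
      simp only [mul_assoc]
    rw [h2]
    conv_rhs => rw [hTd, Finset.smul_sum]
    apply Finset.sum_congr rfl
    intro u hu
    rw [hAT u ((mem_subF U u).1 hu), mul_smul_comm, mul_assoc]
  have hTt : Tᵀ = T := by
    rw [hTd, Matrix.transpose_sum]
    apply Finset.sum_congr rfl
    intro u _
    rw [Matrix.transpose_mul, Matrix.transpose_mul, Lm_transpose, Lm_transpose, inv_inv, hApr.1, mul_assoc]
  have hQT : Q * T = T := by
    rw [hTd, Finset.mul_sum]
    apply Finset.sum_congr rfl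
    intro u hu
    have h2 := (hcU u ((mem_subF U u).1 hu)).eq
    calc Q * (Lm u * A * Lm u⁻¹) = (Q * Lm u) * A * Lm u⁻¹ := by simp only [mul_assoc]
      _ = Lm u * (Q * A) * Lm u⁻¹ := by rw [h2]; simp only [mul_assoc]
      _ = _ := by rw [hQA]
  have hTtr : T.trace = (Nat.card U : ℝ) * A.trace := by
    rw [hTd, Matrix.trace_sum]
    have h2 : ∀ u ∈ subF U, (Lm u * A * Lm u⁻¹).trace = A.trace := by
      intro u _
      rw [Matrix.trace_mul_comm, ← mul_assoc, Lm_inv_mul, one_mul]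
    rw [Finset.sum_congr rfl h2, Finset.sum_const, hcard, nsmul_eq_mul]
  have h1c : (1 - c) = (Nat.card U : ℝ) / ((Nat.card U : ℝ) - 1) := by
    rw [hc]
    field_simp
    ring
  have h1c0 : (1 - c) ≠ 0 := by
    rw [h1c]
    exact div_ne_zero hm0 hmU
  obtain ⟨P, hP⟩ : ∃ P, P = (1 - c)⁻¹ • T := ⟨_, rfl⟩
  have hPpr : IsPr P := by
    refine ⟨?_, ?_⟩
    · rw [hP, Matrix.transpose_smul, hTt]
    · rw [hP, smul_mul_assoc, mul_smul_comm, hTT, smul_smul, smul_smul, mul_assoc, inv_mul_cancel₀ h1c0, mul_one]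
  have hQP : Q * P = P := by rw [hP, mul_smul_comm, hQT]
  have hPQ : P * Q = P := by
    have h2 : (Q * P)ᵀ = Pᵀ := by rw [hQP]
    rw [Matrix.transpose_mul, hQ.1, hPpr.1] at h2
    exact h2
  have hQP' : IsPr (Q - P) := by
    refine ⟨by rw [Matrix.transpose_sub, hQ.1, hPpr.1], ?_⟩
    rw [sub_mul, mul_sub, mul_sub, hQ.2, hQP, hPQ, hPpr.2, sub_self, sub_zero]
  have hfin := trace_pr_nonneg hQP'
  rw [Matrix.trace_sub, hP, Matrix.trace_smul, hTtr, h1c, smul_eq_mul, inv_div] at hfin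
  have h5 : ((Nat.card U : ℝ) - 1) / (Nat.card U : ℝ) * ((Nat.card U : ℝ) * A.trace) = ((Nat.card U : ℝ) - 1) * A.trace := by
    field_simp
  rw [h5] at hfin
  linarith

theorem two_step (H U1 U2 K : Subgroup G) (hN1 : ∀ h ∈ H, ∀ u ∈ U1, h * u * h⁻¹ ∈ U1)
    (hT1 : ∀ u ∈ U1, ∀ u' ∈ U1, u ≠ 1 → u' ≠ 1 → ∃ h ∈ H, h * u * h⁻¹ = u')
    (hN2 : ∀ h ∈ H, ∀ u ∈ U2, h * u * h⁻¹ ∈ U2)
    (hT2 : ∀ u ∈ U2, ∀ u' ∈ U2, u ≠ 1 → u' ≠ 1 → ∃ h ∈ H, h * u * h⁻¹ = u')
    (hK : K ≤ H ⊔ U1 ⊔ U2) (c : ℝ) (hc : 0 < c) (h1 : c ≤ (Nat.card U1 : ℝ) - 1) (h2 : c ≤ (Nat.card U2 : ℝ) - 1)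
    {Q : Matrix G G ℝ} (hQ : IsPr Q) (hcQ : ∀ k ∈ H ⊔ U1 ⊔ U2, Commute Q (Lm k)) :
    (PK H * Q).trace ≤ (PK K * Q).trace + 2 / c * Q.trace := by
  have hleH : H ≤ H ⊔ U1 ⊔ U2 := le_sup_left.trans le_sup_left
  have hleU1 : U1 ≤ H ⊔ U1 ⊔ U2 := le_sup_right.trans le_sup_left
  have hleU2 : U2 ≤ H ⊔ U1 ⊔ U2 := le_sup_right
  have hcH : ∀ h ∈ H, Commute Q (Lm h) := fun h hh => hcQ h (hleH hh)
  have hcU1 : ∀ h ∈ U1, Commute Q (Lm h) := fun h hh => hcQ h (hleU1 hh)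
  have hcU2 : ∀ h ∈ U2, Commute Q (Lm h) := fun h hh => hcQ h (hleU2 hh)
  have hQH : Commute Q (PK H) := PK_commute H hcH
  have hQU1 : Commute Q (PK U1) := PK_commute U1 hcU1
  have hQU2 : Commute Q (PK U2) := PK_commute U2 hcU2
  have hQK : Commute Q (PK K) := PK_commute K (fun k hk => hcQ k (hK hk))
  obtain ⟨p1, b1⟩ := core_bound H U1 hN1 hT1 hQ hcH hcU1
  obtain ⟨p2, b2⟩ := core_bound H U2 hN2 hT2 hQ hcH hcU2
  have hA : IsPr (PK H * Q) := (PK_isPr H).mul hQ hQH.symm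
  have hC : IsPr (PK K * Q) := (PK_isPr K).mul hQ hQK.symm
  have e1 : PK H * Q * (PK H * PK U1 * Q) = PK H * PK U1 * Q := by
    calc PK H * Q * (PK H * PK U1 * Q) = PK H * (Q * (PK H * PK U1)) * Q := by simp only [mul_assoc]
      _ = PK H * ((PK H * PK U1) * Q) * Q := by rw [(hQH.mul_right hQU1).eq]
      _ = (PK H * PK H) * PK U1 * (Q * Q) := by simp only [mul_assoc]
      _ = _ := by rw [(PK_isPr H).2, hQ.2]
  have e2 : PK H * Q * (PK H * PK U2 * Q) = PK H * PK U2 * Q := by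
    calc PK H * Q * (PK H * PK U2 * Q) = PK H * (Q * (PK H * PK U2)) * Q := by simp only [mul_assoc]
      _ = PK H * ((PK H * PK U2) * Q) * Q := by rw [(hQH.mul_right hQU2).eq]
      _ = (PK H * PK H) * PK U2 * (Q * Q) := by simp only [mul_assoc]
      _ = _ := by rw [(PK_isPr H).2, hQ.2]
  have hUH1 : Commute (PK U1) (PK H) := PK_commute H (fun h hh => SA3_comm_Lm H U1 hN1 hh)
  have hUH2 : Commute (PK U2) (PK H) := PK_commute H (fun h hh => SA3_comm_Lm H U2 hN2 hh)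
  have key := trace_inter (PK H * Q) (PK H * PK U1 * Q) (PK H * PK U2 * Q) (PK K * Q) hA p1 p2 hC e1 e2 ?_
  · have hQ0 := trace_pr_nonneg hQ
    have g1 : (PK H * Q).trace - (PK H * PK U1 * Q).trace ≤ Q.trace / c := by
      rw [le_div_iff₀ hc]
      rcases le_or_gt 0 ((PK H * Q).trace - (PK H * PK U1 * Q).trace) with h0 | h0
      · nlinarith
      · nlinarith
    have g2 : (PK H * Q).trace - (PK H * PK U2 * Q).trace ≤ Q.trace / c := by
      rw [le_div_iff₀ hc]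
      rcases le_or_gt 0 ((PK H * Q).trace - (PK H * PK U2 * Q).trace) with h0 | h0
      · nlinarith
      · nlinarith
    have g3 : 2 / c * Q.trace = Q.trace / c + Q.trace / c := by ring
    rw [g3]
    linarith
  · intro f hf1 hf2
    have fQ : Q *ᵥ f = f := by
      have h3 : Q * (PK H * PK U1 * Q) = PK H * PK U1 * Q := by
        rw [← mul_assoc, (hQH.mul_right hQU1).eq, mul_assoc, hQ.2]
      calc Q *ᵥ f = Q *ᵥ ((PK H * PK U1 * Q) *ᵥ f) := by rw [hf1]
        _ = (Q * (PK H * PK U1 * Q)) *ᵥ f := by rw [Matrix.mulVec_mulVec]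
        _ = f := by rw [h3, hf1]
    let St : Subgroup G :=
      { carrier := {g | Lm g *ᵥ f = f}
        mul_mem' := by
          intro a b ha hb
          change Lm (a * b) *ᵥ f = f
          rw [Lm_mul, ← Matrix.mulVec_mulVec]
          have ha' : Lm a *ᵥ f = f := ha
          have hb' : Lm b *ᵥ f = f := hb
          rw [hb', ha']
        one_mem' := by
          change Lm (1 : G) *ᵥ f = f
          rw [Lm_one, Matrix.one_mulVec]
        inv_mem' := by
          intro a ha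
          change Lm a⁻¹ *ᵥ f = f
          have ha' : Lm a *ᵥ f = f := ha
          calc Lm a⁻¹ *ᵥ f = Lm a⁻¹ *ᵥ (Lm a *ᵥ f) := by rw [ha']
            _ = f := by rw [Matrix.mulVec_mulVec, Lm_inv_mul, Matrix.one_mulVec] }
    have hStH : H ≤ St := by
      intro h hh
      change Lm h *ᵥ f = f
      calc Lm h *ᵥ f = Lm h *ᵥ ((PK H * PK U1 * Q) *ᵥ f) := by rw [hf1]
        _ = (Lm h * PK H * PK U1 * Q) *ᵥ f := by rw [Matrix.mulVec_mulVec]; simp only [mul_assoc]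
        _ = f := by rw [(PK_mul_left H h hh).1, hf1]
    have hStU1 : U1 ≤ St := by
      intro u hu
      change Lm u *ᵥ f = f
      have h3 : PK H * PK U1 * Q = PK U1 * PK H * Q := by rw [hUH1.eq]
      calc Lm u *ᵥ f = Lm u *ᵥ ((PK H * PK U1 * Q) *ᵥ f) := by rw [hf1]
        _ = (Lm u * PK U1 * PK H * Q) *ᵥ f := by rw [Matrix.mulVec_mulVec, h3]; simp only [mul_assoc]
        _ = f := by rw [(PK_mul_left U1 u hu).1, ← h3, hf1]
    have hStU2 : U2 ≤ St := by
      intro u hu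
      change Lm u *ᵥ f = f
      have h3 : PK H * PK U2 * Q = PK U2 * PK H * Q := by rw [hUH2.eq]
      calc Lm u *ᵥ f = Lm u *ᵥ ((PK H * PK U2 * Q) *ᵥ f) := by rw [hf2]
        _ = (Lm u * PK U2 * PK H * Q) *ᵥ f := by rw [Matrix.mulVec_mulVec, h3]; simp only [mul_assoc]
        _ = f := by rw [(PK_mul_left U2 u hu).1, ← h3, hf2]
    have hKS : K ≤ St := hK.trans (sup_le (sup_le hStH hStU1) hStU2)
    rw [← Matrix.mulVec_mulVec, fQ]
    exact (PK_fix K f).2 (fun k hk => hKS hk)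

end Pool.Agent.BC5
end

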