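import Pool.Agent.Lib.MP_bc5a73_al.Spectral

section
set_option autoImplicit false
set_option linter.unusedSectionVars false
set_option linter.unusedVariables false
open scoped BigOperators Matrix
open Matrix
namespace Pool.Agent.BC5


variable {G : Type} [Group G] [Fintype G] [DecidableEq G]


variable {ι : Type}

theorem AU_transpose (x : ι → G) (U : Finset ι) : (AU x U)ᵀ = AU x U := by
  unfold AU
  rw [Matrix.transpose_smul, Matrix.transpose_sum]
  congr 1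
  exact Finset.sum_congr rfl fun u _ => Sm_transpose (x u)

theorem AU_commL (x : ι → G) (U : Finset ι) : CommL (AU x U) := by
  intro g
  unfold AU
  exact Commute.smul_left (Commute.sum_left U _ _ fun u _ => commL_Sm (x u) g) _

theorem commute_AU (x : ι → G) (U : Finset ι) {X : Matrix G G ℝ} (hX : CommR X) : Commute X (AU x U) := by
  exact commute_of_comm hX (AU_commL x U)

theorem AU_contract (x : ι → G) (U : Finset ι) (v : G → ℝ) : (AU x U *ᵥ v) ⬝ᵥ (AU x U *ᵥ v) ≤ v ⬝ᵥ v := by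
  have hvv : 0 ≤ v ⬝ᵥ v := by
    unfold dotProduct
    exact Finset.sum_nonneg fun i _ => mul_self_nonneg _
  rcases U.eq_empty_or_nonempty with hU | hU
  · have h0 : AU x U = 0 := by
      unfold AU
      rw [hU, Finset.sum_empty, smul_zero]
    rw [h0, Matrix.zero_mulVec, zero_dotProduct]
    exact hvv
  · have hn : (0 : ℝ) < (U.card : ℝ) := by exact_mod_cast hU.card_pos
    have hAU : ∀ y, (AU x U *ᵥ v) y = (U.card : ℝ)⁻¹ * ∑ u ∈ U, (Sm (x u) *ᵥ v) y := by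
      intro y
      unfold AU
      rw [Matrix.smul_mulVec, Matrix.sum_mulVec, Pi.smul_apply, Finset.sum_apply, smul_eq_mul]
    have h1 : (AU x U *ᵥ v) ⬝ᵥ (AU x U *ᵥ v)
        ≤ ∑ y, (U.card : ℝ)⁻¹ * ∑ u ∈ U, (Sm (x u) *ᵥ v) y ^ 2 := by
      unfold dotProduct
      refine Finset.sum_le_sum fun y _ => ?_
      rw [hAU]
      have h2 := sq_sum_le_card_mul_sum_sq (s := U) (f := fun u => (Sm (x u) *ᵥ v) y)
      have h3 : ((U.card : ℝ)⁻¹ * ∑ u ∈ U, (Sm (x u) *ᵥ v) y)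
          * ((U.card : ℝ)⁻¹ * ∑ u ∈ U, (Sm (x u) *ᵥ v) y)
          = ((U.card : ℝ)⁻¹ * (U.card : ℝ)⁻¹) * (∑ u ∈ U, (Sm (x u) *ᵥ v) y) ^ 2 := by ring
      calc ((U.card : ℝ)⁻¹ * ∑ u ∈ U, (Sm (x u) *ᵥ v) y)
          * ((U.card : ℝ)⁻¹ * ∑ u ∈ U, (Sm (x u) *ᵥ v) y)
          = ((U.card : ℝ)⁻¹ * (U.card : ℝ)⁻¹) * (∑ u ∈ U, (Sm (x u) *ᵥ v) y) ^ 2 := h3
        _ ≤ ((U.card : ℝ)⁻¹ * (U.card : ℝ)⁻¹)
            * ((U.card : ℝ) * ∑ u ∈ U, (Sm (x u) *ᵥ v) y ^ 2) :=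
            mul_le_mul_of_nonneg_left h2 (by positivity)
        _ = (U.card : ℝ)⁻¹ * ∑ u ∈ U, (Sm (x u) *ᵥ v) y ^ 2 := by
            field_simp
    have h4 : ∑ y, (U.card : ℝ)⁻¹ * ∑ u ∈ U, (Sm (x u) *ᵥ v) y ^ 2
        = (U.card : ℝ)⁻¹ * ∑ u ∈ U, (Sm (x u) *ᵥ v) ⬝ᵥ (Sm (x u) *ᵥ v) := by
      rw [← Finset.mul_sum, Finset.sum_comm]
      congr 1
      refine Finset.sum_congr rfl fun u _ => ?_
      unfold dotProduct
      exact Finset.sum_congr rfl fun y _ => by ring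
    have h5 : ∑ u ∈ U, (Sm (x u) *ᵥ v) ⬝ᵥ (Sm (x u) *ᵥ v) ≤ (U.card : ℝ) * (v ⬝ᵥ v) := by
      calc ∑ u ∈ U, (Sm (x u) *ᵥ v) ⬝ᵥ (Sm (x u) *ᵥ v) ≤ ∑ _u ∈ U, v ⬝ᵥ v :=
            Finset.sum_le_sum fun u _ => S4_contr (x u) v
        _ = (U.card : ℝ) * (v ⬝ᵥ v) := by rw [Finset.sum_const, nsmul_eq_mul]
    rw [h4] at h1
    refine h1.trans ?_
    calc (U.card : ℝ)⁻¹ * ∑ u ∈ U, (Sm (x u) *ᵥ v) ⬝ᵥ (Sm (x u) *ᵥ v)
        ≤ (U.card : ℝ)⁻¹ * ((U.card : ℝ) * (v ⬝ᵥ v)) :=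
          mul_le_mul_of_nonneg_left h5 (by positivity)
      _ = v ⬝ᵥ v := by field_simp

theorem TU_transpose (x : ι → G) {P : Matrix G G ℝ} (hP : IsPr P) (U : Finset ι) : (TU x P U)ᵀ = TU x P U := by
  unfold TU
  rw [Matrix.transpose_smul, Matrix.transpose_sum]
  congr 1
  exact Finset.sum_congr rfl fun u _ => (S1_conj_isPr hP (x u)).1

theorem TU_nonneg (x : ι → G) {P : Matrix G G ℝ} (hP : IsPr P) (U : Finset ι) (v : G → ℝ) : 0 ≤ qf (TU x P U) v := by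
  unfold TU
  rw [qf_smul, qf_sum]
  exact mul_nonneg (by positivity)
    (Finset.sum_nonneg fun u _ => qf_pr_nonneg (S1_conj_isPr hP (x u)) v)

end Pool.Agent.BC5
end

section
set_option autoImplicit false
set_option linter.unusedSectionVars false
set_option linter.unusedVariables false
open scoped BigOperators Matrix
open Matrix
namespace Pool.Agent.BC5


variable {G : Type} [Group G] [Fintype G] [DecidableEq G]


variable {ι : Type} [DecidableEq ι]

theorem exists_enum (U : Finset ι) : ∃ e : Fin U.card → ι, Function.Injective e ∧ Finset.univ.image e = U := by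
  refine ⟨fun i => (U.equivFin.symm i : ι), ?_, ?_⟩
  · intro i i' h
    exact U.equivFin.symm.injective (Subtype.ext h)
  · ext a
    simp only [Finset.mem_image, Finset.mem_univ, true_and]
    constructor
    · rintro ⟨i, rfl⟩
      exact (U.equivFin.symm i).2
    · intro ha
      exact ⟨U.equivFin ⟨a, ha⟩, by simp⟩

theorem AU_eq_avg (x : ι → G) (U : Finset ι) (e : Fin U.card → ι) (he : Function.Injective e)
    (heU : Finset.univ.image e = U) : AU x U = avg (fun i => Sm (x (e i))) := by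
  have h : ∑ u ∈ U, Sm (x u) = ∑ i, Sm (x (e i)) := by
    conv_lhs => rw [← heU]
    exact Finset.sum_image (fun i _ i' _ h => he h)
  unfold AU avg
  rw [h, Fintype.card_fin]

theorem TU_eq_avg (x : ι → G) (P : Matrix G G ℝ) (U : Finset ι) (e : Fin U.card → ι) (he : Function.Injective e)
    (heU : Finset.univ.image e = U) : TU x P U = avg (conjR P (fun i => x (e i))) := by
  have h : ∑ u ∈ U, Rm (x u) * P * Rm (x u)⁻¹ = ∑ i, conjR P (fun i => x (e i)) i := by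
    conv_lhs => rw [← heU]
    rw [Finset.sum_image (fun i _ i' _ h => he h)]
    rfl
  unfold TU avg
  rw [h, Fintype.card_fin]

end Pool.Agent.BC5
end

section
set_option autoImplicit false
set_option linter.unusedSectionVars false
set_option linter.unusedVariables false
open scoped BigOperators Matrix
open Matrix
namespace Pool.Agent.BC5


variable {G : Type} [Group G] [Fintype G] [DecidableEq G]


theorem N4_card_mul {N s : ℕ} (x : Fin N × Fin s → G) (R : Finset (Fin N)) :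
    (R.card : ℝ) • AR x R = ((s : ℝ))⁻¹ • ∑ a ∈ R, ∑ i, Sm (x (a, i)) := by
  unfold AR AU cyl
  rw [Finset.sum_product, Finset.card_product, Finset.card_univ, Fintype.card_fin, smul_smul]
  by_cases hR : R.card = 0
  · rw [Finset.card_eq_zero] at hR
    subst hR
    simp
  · congr 1
    have h0 : (R.card : ℝ) ≠ 0 := Nat.cast_ne_zero.2 hR
    push_cast
    rw [mul_inv, ← mul_assoc, mul_inv_cancel₀ h0, one_mul]

theorem AR_split {N s : ℕ} (x : Fin N × Fin s → G) (R ρ : Finset (Fin N)) (h : ρ ⊆ R) :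
    (R.card : ℝ) • AR x R = ((R.card : ℝ) - ρ.card) • AR x (R \ ρ) + (ρ.card : ℝ) • AR x ρ := by
  have h1 : ((R.card : ℝ) - ρ.card) = ((R \ ρ).card : ℝ) := by
    rw [Finset.card_sdiff_of_subset h, Nat.cast_sub (Finset.card_le_card h)]
  rw [h1, N4_card_mul, N4_card_mul, N4_card_mul, ← smul_add, Finset.sum_sdiff h]

theorem N4_qf {N s : ℕ} (x : Fin N × Fin s → G) (R : Finset (Fin N)) (f : G → ℝ) :
    (R.card : ℝ) * qf (AR x R) f = ((s : ℝ))⁻¹ * ∑ a ∈ R, ∑ i, qf (Sm (x (a, i))) f := by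
  rw [← qf_smul, N4_card_mul, qf_smul, qf_sum]
  congr 1
  exact Finset.sum_congr rfl fun a _ => qf_sum _ _ _

theorem N4_card_filter {α : Type} [DecidableEq α] (R : Finset α) (h : ℕ) (hh : 1 ≤ h) (a : α) (ha : a ∈ R) :
    ((R.powersetCard h).filter (fun ρ => a ∈ ρ)).card = (R.card - 1).choose (h - 1) := by
  have h1 : (R.powersetCard h).filter (fun ρ => ¬ a ∈ ρ) = (R.erase a).powersetCard h := by
    ext ρ
    rw [Finset.mem_filter, Finset.mem_powersetCard, Finset.mem_powersetCard, Finset.subset_erase]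
    tauto
  have h2 := Finset.card_filter_add_card_filter_not (s := R.powersetCard h) (fun ρ => a ∈ ρ)
  rw [h1, Finset.card_powersetCard, Finset.card_powersetCard, Finset.card_erase_of_mem ha] at h2
  obtain ⟨n, hn⟩ : ∃ n, R.card = n + 1 := ⟨R.card - 1, by
    have := Finset.card_pos.2 ⟨a, ha⟩
    omega⟩
  obtain ⟨k, hk⟩ : ∃ k, h = k + 1 := ⟨h - 1, by omega⟩
  rw [hn, hk] at h2
  rw [hn, hk]
  simp only [Nat.add_sub_cancel] at h2 ⊢
  rw [Nat.choose_succ_succ, Nat.succ_eq_add_one] at h2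
  omega

theorem sum_qf_AR {N s : ℕ} (x : Fin N × Fin s → G) (R : Finset (Fin N)) (h : ℕ) (hh : 1 ≤ h) (hR : h ≤ R.card)
    (f : G → ℝ) :
    ∑ ρ ∈ R.powersetCard h, qf (AR x ρ) f = (R.card.choose h : ℝ) * qf (AR x R) f := by
  set g : Fin N → ℝ := fun a => ∑ i, qf (Sm (x (a, i))) f with hg
  have hh0 : (h : ℝ) ≠ 0 := Nat.cast_ne_zero.2 (by omega)
  have hR0 : (R.card : ℝ) ≠ 0 := Nat.cast_ne_zero.2 (by omega)
  have e1 : ∀ ρ ∈ R.powersetCard h, qf (AR x ρ) f = (h : ℝ)⁻¹ * (((s : ℝ))⁻¹ * ∑ a ∈ ρ, g a) := by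
    intro ρ hρ
    have hc := (Finset.mem_powersetCard.1 hρ).2
    have := N4_qf x ρ f
    rw [hc] at this
    rw [← this, ← mul_assoc, inv_mul_cancel₀ hh0, one_mul]
  have e2 : qf (AR x R) f = (R.card : ℝ)⁻¹ * (((s : ℝ))⁻¹ * ∑ a ∈ R, g a) := by
    have := N4_qf x R f
    rw [← this, ← mul_assoc, inv_mul_cancel₀ hR0, one_mul]
  have e3 : ∑ ρ ∈ R.powersetCard h, ∑ a ∈ ρ, g a = ((R.card - 1).choose (h - 1) : ℝ) * ∑ a ∈ R, g a := by
    rw [Finset.sum_comm' (s := R.powersetCard h) (t := fun ρ => ρ) (t' := R)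
      (s' := fun a => (R.powersetCard h).filter (fun ρ => a ∈ ρ))]
    · rw [Finset.mul_sum]
      refine Finset.sum_congr rfl fun a ha => ?_
      rw [Finset.sum_const, N4_card_filter R h hh a ha, nsmul_eq_mul]
    · intro ρ a
      rw [Finset.mem_filter]
      constructor
      · rintro ⟨g1, g2⟩
        exact ⟨⟨g1, g2⟩, (Finset.mem_powersetCard.1 g1).1 g2⟩
      · rintro ⟨⟨g1, g2⟩, _⟩
        exact ⟨g1, g2⟩
  have e4 : (h : ℝ) * (R.card.choose h : ℝ) = (R.card : ℝ) * ((R.card - 1).choose (h - 1) : ℝ) := by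
    obtain ⟨n, hn⟩ : ∃ n, R.card = n + 1 := ⟨R.card - 1, by omega⟩
    obtain ⟨k, hk⟩ : ∃ k, h = k + 1 := ⟨h - 1, by omega⟩
    rw [hn, hk]
    simp only [Nat.add_sub_cancel]
    have := Nat.add_one_mul_choose_eq n k
    rw [mul_comm]
    exact_mod_cast this.symm
  rw [Finset.sum_congr rfl e1, ← Finset.mul_sum, ← Finset.mul_sum, e3, e2]
  have e5 : (h : ℝ)⁻¹ * ((R.card - 1).choose (h - 1) : ℝ) = (R.card.choose h : ℝ) * (R.card : ℝ)⁻¹ := by
    field_simp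
    linarith
  calc (h : ℝ)⁻¹ * ((s : ℝ)⁻¹ * (((R.card - 1).choose (h - 1) : ℝ) * ∑ a ∈ R, g a))
      = ((h : ℝ)⁻¹ * ((R.card - 1).choose (h - 1) : ℝ)) * ((s : ℝ)⁻¹ * ∑ a ∈ R, g a) := by ring
    _ = _ := by rw [e5]; ring

end Pool.Agent.BC5
end

section
set_option autoImplicit false
set_option linter.unusedSectionVars false
set_option linter.unusedVariables false
open scoped BigOperators Matrix
open Matrix
namespace Pool.Agent.BC5


variable {G : Type} [Group G] [Fintype G] [DecidableEq G]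


theorem frac_extend_le {ι : Type} [Fintype ι] [DecidableEq ι] {s' : ℕ} (e : Fin s' → ι) (he : Function.Injective e)
    (Bad : (ι → G) → Prop) (b : ℝ) (hb : 0 ≤ b)
    (h : ∀ x : ι → G, frac (fun y : Fin s' → G => Bad (Function.extend e y x)) ≤ b) : frac Bad ≤ b := by
  classical
  let E : {k // k ∉ Set.range e} ⊕ Fin s' ≃ ι :=
    ((Equiv.sumComm _ _).trans (Equiv.sumCongr (Equiv.ofInjective e he) (Equiv.refl _))).trans
      (Equiv.Set.sumCompl (Set.range e))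
  have hE1 : ∀ i, E (Sum.inr i) = e i := fun i => rfl
  have hE2 : ∀ k : {k // k ∉ Set.range e}, E (Sum.inl k) = k.1 := fun k => rfl
  rw [← frac_equiv (Equiv.arrowCongr E (Equiv.refl G)) Bad]
  unfold frac
  rw [avg_sumElim]
  refine avg_le_of_le fun w => ?_
  let x : ι → G := fun k => if hk : k ∉ Set.range e then w ⟨k, hk⟩ else 1
  have hx : ∀ y : Fin s' → G, (Equiv.arrowCongr E (Equiv.refl G)) (Sum.elim w y) = Function.extend e y x := by
    intro y
    funext k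
    obtain ⟨z, rfl⟩ := E.surjective k
    have h0 : (Equiv.arrowCongr E (Equiv.refl G)) (Sum.elim w y) (E z) = Sum.elim w y z := by
      simp [Equiv.arrowCongr]
    rw [h0]
    rcases z with k | i
    · rw [Sum.elim_inl, hE2 k, Function.extend_apply' _ _ _ (by
        rintro ⟨i, hi⟩
        exact k.2 ⟨i, hi⟩)]
      simp only [x]
      rw [dif_pos k.2]
    · rw [Sum.elim_inr, hE1 i, he.extend_apply]
  have h1 := h x
  unfold frac at h1
  simp only [hx]
  exact h1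

theorem AU_extend {ι : Type} [DecidableEq ι] {s' : ℕ} (e : Fin s' → ι) (he : Function.Injective e) (x : ι → G)
    (y : Fin s' → G) (U : Finset ι) (hU : ∀ u ∈ U, ∀ i, e i ≠ u) : AU (Function.extend e y x) U = AU x U := by
  unfold AU
  congr 1
  refine Finset.sum_congr rfl fun u hu => ?_
  rw [Function.extend_apply' _ _ _ (by
    rintro ⟨i, hi⟩
    exact hU u hu i hi)]

theorem TU_extend {ι : Type} [DecidableEq ι] (U : Finset ι) (e : Fin U.card → ι) (he : Function.Injective e)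
    (heU : Finset.univ.image e = U) (x : ι → G) (y : Fin U.card → G) (P : Matrix G G ℝ) :
    TU (Function.extend e y x) P U = avg (conjR P y) := by
  have h : ∑ u ∈ U, Rm (Function.extend e y x u) * P * Rm (Function.extend e y x u)⁻¹ = ∑ i, conjR P y i := by
    have h2 : ∀ F : ι → Matrix G G ℝ, ∑ u ∈ U, F u = ∑ i, F (e i) := by
      intro F
      have h3 : ∑ u ∈ Finset.univ.image e, F u = ∑ i, F (e i) := Finset.sum_image (fun i _ i' _ h => he h)
      rw [heU] at h3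
      exact h3
    rw [h2]
    refine Finset.sum_congr rfl fun i _ => ?_
    rw [he.extend_apply]
    rfl
  unfold TU avg
  rw [h, Fintype.card_fin]

end Pool.Agent.BC5
end

section
set_option autoImplicit false
set_option linter.unusedSectionVars false
set_option linter.unusedVariables false
open scoped BigOperators Matrix
open Matrix
namespace Pool.Agent.BC5


variable {G : Type} [Group G] [Fintype G] [DecidableEq G]


variable {ι : Type}

private theorem N3_move (A : Matrix G G ℝ) (v w : G → ℝ) : v ⬝ᵥ (A *ᵥ w) = (Aᵀ *ᵥ v) ⬝ᵥ w := by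
  rw [Matrix.dotProduct_mulVec, Matrix.mulVec_transpose]

private theorem N3_one (g : G) {P : Matrix G G ℝ} (hP : IsPr P) (u : G → ℝ) (hu : P *ᵥ u = u) :
    (qf (Sm g) u) ^ 2 ≤ qf (Rm g * P * Rm g⁻¹) u * (u ⬝ᵥ u) := by
  have h1 : qf (Sm g) u = u ⬝ᵥ (P *ᵥ (Rm g⁻¹ *ᵥ u)) := by
    rw [G1_qf_Sm, N3_move P, hP.1, hu]
  have h2 : qf (Rm g * P * Rm g⁻¹) u =
      (P *ᵥ (Rm g⁻¹ *ᵥ u)) ⬝ᵥ (P *ᵥ (Rm g⁻¹ *ᵥ u)) := by
    rw [← qf_pr hP]
    unfold qf
    rw [← Matrix.mulVec_mulVec, ← Matrix.mulVec_mulVec, N3_move (Rm g), Rm_transpose]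
  rw [h1, h2]
  have h4 := L1_dot_cs u (P *ᵥ (Rm g⁻¹ *ᵥ u))
  rw [mul_comm] at h4
  exact h4

theorem qf_AU_sq_le (x : ι → G) {P : Matrix G G ℝ} (hP : IsPr P) (U : Finset ι) (u : G → ℝ) (hu : P *ᵥ u = u) :
    (qf (AU x U) u) ^ 2 ≤ qf (TU x P U) u * (u ⬝ᵥ u) := by
  have h1 : qf (AU x U) u = ((U.card : ℝ))⁻¹ * ∑ i ∈ U, qf (Sm (x i)) u := by
    unfold AU
    rw [qf_smul, qf_sum]
  have h2 : qf (TU x P U) u =
      ((U.card : ℝ))⁻¹ * ∑ i ∈ U, qf (Rm (x i) * P * Rm (x i)⁻¹) u := by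
    unfold TU
    rw [qf_smul, qf_sum]
  rw [h1, h2]
  rcases U.eq_empty_or_nonempty with hU | hU
  · subst hU
    simp
  · have hc : (0 : ℝ) < U.card := by exact_mod_cast hU.card_pos
    have h3 : (∑ i ∈ U, qf (Sm (x i)) u) ^ 2 ≤ U.card * ∑ i ∈ U, (qf (Sm (x i)) u) ^ 2 :=
      sq_sum_le_card_mul_sum_sq
    have h4 : ∑ i ∈ U, (qf (Sm (x i)) u) ^ 2 ≤
        (∑ i ∈ U, qf (Rm (x i) * P * Rm (x i)⁻¹) u) * (u ⬝ᵥ u) := by
      rw [Finset.sum_mul]
      exact Finset.sum_le_sum (fun i _ => N3_one (x i) hP u hu)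
    calc (((U.card : ℝ))⁻¹ * ∑ i ∈ U, qf (Sm (x i)) u) ^ 2
        = ((U.card : ℝ))⁻¹ ^ 2 * (∑ i ∈ U, qf (Sm (x i)) u) ^ 2 := by ring
      _ ≤ ((U.card : ℝ))⁻¹ ^ 2 * (U.card * ((∑ i ∈ U, qf (Rm (x i) * P * Rm (x i)⁻¹) u) *
          (u ⬝ᵥ u))) := by
        apply mul_le_mul_of_nonneg_left _ (by positivity)
        exact h3.trans (mul_le_mul_of_nonneg_left h4 hc.le)
      _ = ((U.card : ℝ))⁻¹ * (∑ i ∈ U, qf (Rm (x i) * P * Rm (x i)⁻¹) u) * (u ⬝ᵥ u) := by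
        field_simp

end Pool.Agent.BC5
end

section
set_option autoImplicit false
set_option linter.unusedSectionVars false
set_option linter.unusedVariables false
open scoped BigOperators Matrix
open Matrix
namespace Pool.Agent.BC5


variable {G : Type} [Group G] [Fintype G] [DecidableEq G]

theorem N6_good {N s : ℕ} (x : Fin N × Fin s → G) {E : Matrix G G ℝ} (hE : IsBlock E) (R : Finset (Fin N))
    (h : ℕ) (hh : 1 ≤ h) (hhR : h ≤ R.card) (θ θ' : ℝ) (hθ : 0 ≤ θ) (hθθ : θ < θ')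
    (hR : 10 * (h : ℝ) ≤ R.card * (θ' - θ)) (ρ : Finset (Fin N)) (hρ : ρ ∈ R.powersetCard h)
    (f : G → ℝ) (hf : f ⬝ᵥ f = 1) (hEf : E *ᵥ f = f) (lam : ℝ) (hAf : AR x R *ᵥ f = lam • f)
    (hlam : θ' ≤ |lam|)
    (hT : qf (TU x (E * spr (AR x (R \ ρ)) θ) (cyl ρ)) ((E * spr (AR x (R \ ρ)) θ) *ᵥ f) ≤ 1 / 16) :
    |qf (AR x ρ) f| ≤ 1 / 2 := by
  obtain ⟨hρR, hρh⟩ := Finset.mem_powersetCard.1 hρ
  have hBt : (AR x (R \ ρ))ᵀ = AR x (R \ ρ) := AU_transpose x _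
  have hQ : IsPr (spr (AR x (R \ ρ)) θ) := spr_isPr _ hBt θ
  have hcQ : Commute (AR x (R \ ρ)) (spr (AR x (R \ ρ)) θ) := spr_comm _ hBt θ _ (Commute.refl _)
  have hEQ : Commute E (spr (AR x (R \ ρ)) θ) := spr_comm _ hBt θ _ (commute_AU x _ hE.2.2.1)
  have hP : IsPr (E * spr (AR x (R \ ρ)) θ) := hE.1.mul hQ hEQ
  have hPf : (E * spr (AR x (R \ ρ)) θ) *ᵥ f = spr (AR x (R \ ρ)) θ *ᵥ f := by
    rw [hEQ.eq, ← Matrix.mulVec_mulVec, hEf]
  have hPP : (E * spr (AR x (R \ ρ)) θ) *ᵥ ((E * spr (AR x (R \ ρ)) θ) *ᵥ f) =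
      (E * spr (AR x (R \ ρ)) θ) *ᵥ f := by
    rw [Matrix.mulVec_mulVec, hP.2]
  have hle : ((E * spr (AR x (R \ ρ)) θ) *ᵥ f) ⬝ᵥ ((E * spr (AR x (R \ ρ)) θ) *ᵥ f) ≤ 1 := by
    rw [← qf_pr hP, ← hf]
    exact Q7_qf_pr_le hP f
  have hT0 := TU_nonneg x hP (cyl (s := s) ρ) ((E * spr (AR x (R \ ρ)) θ) *ᵥ f)
  have h1 := qf_AU_sq_le x hP (cyl (s := s) ρ) _ hPP
  have h2 : (qf (AR x ρ) ((E * spr (AR x (R \ ρ)) θ) *ᵥ f)) ^ 2 ≤ (1 / 4) ^ 2 := by
    refine h1.trans ?_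
    have h0 := dot_self_nonneg ((E * spr (AR x (R \ ρ)) θ) *ᵥ f)
    nlinarith
  have hu : |qf (AR x ρ) ((E * spr (AR x (R \ ρ)) θ) *ᵥ f)| ≤ 1 / 4 :=
    abs_le_of_sq_le_sq h2 (by norm_num)
  refine abs_qf_le_half (AR x ρ) _ (AU_transpose x _) (AU_contract x _) hP f hf ?_ hu
  rw [hPf]
  have hc1 : (0 : ℝ) < R.card := by
    have : 0 < R.card := by omega
    exact_mod_cast this
  have hsplit := congrArg (fun M => M *ᵥ f) (AR_split x R ρ hρR)
  simp only [Matrix.add_mulVec, Matrix.smul_mulVec] at hsplit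
  rw [hAf, smul_smul, hρh] at hsplit
  have h3 := leave_vec (AR x (R \ ρ)) (AR x ρ) (spr (AR x (R \ ρ)) θ) hQ hcQ.symm θ θ' (R.card : ℝ) (h : ℝ)
    lam hθ (fun v hv => spr_compl _ hBt θ hθ v hv) (AU_contract x _) hc1 (by positivity)
    (by exact_mod_cast hhR) hθθ hlam hR f hsplit
  rw [hf, mul_one] at h3
  exact h3

theorem N6_bad {N s : ℕ} (x : Fin N × Fin s → G) (ρ : Finset (Fin N)) (f : G → ℝ) (hf : f ⬝ᵥ f = 1) :
    |qf (AR x ρ) f| ≤ 1 := by
  have h1 := L1_dot_cs f (AR x ρ *ᵥ f)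
  have h2 := AU_contract x (cyl (s := s) ρ) f
  have h3 : (qf (AR x ρ) f) ^ 2 ≤ 1 ^ 2 := by
    have h4 : qf (AR x ρ) f = f ⬝ᵥ (AR x ρ *ᵥ f) := rfl
    rw [h4]
    refine h1.trans ?_
    rw [hf, one_mul, one_pow]
    rw [hf] at h2
    exact h2
  exact abs_le_of_sq_le_sq h3 (by norm_num)

theorem leave_out {N s : ℕ} (x : Fin N × Fin s → G) {E : Matrix G G ℝ} (hE : IsBlock E) (R : Finset (Fin N))
    (h p : ℕ) (hh : 1 ≤ h) (hp : 1 ≤ p) (hhR : h ≤ R.card) (θ θ' β : ℝ) (hθ : 0 ≤ θ) (hθθ : θ < θ') (hθ' : 5 / 8 ≤ θ')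
    (hR : 10 * (h : ℝ) ≤ R.card * (θ' - θ)) (hβ : 0 ≤ β)
    (hT : ∀ ρ ∈ R.powersetCard h, ((TU x (E * spr (AR x (R \ ρ)) θ) (cyl ρ)) ^ (2 * p)).trace
      ≤ β * (1 / 16 : ℝ) ^ (2 * p) * E.trace) :
    (E * spr (AR x R) θ').trace ≤ 8 * β * E.trace := by
  classical
  have hAt : (AR x R)ᵀ = AR x R := AU_transpose x _
  obtain ⟨r, f, lam, hON, hEf, hAf, hlam, htr⟩ :=
    spr_eig (AR x R) hAt θ' (by linarith) E hE.1 (commute_AU x _ hE.2.2.1)
  rw [htr]
  have hff : ∀ i, f i ⬝ᵥ f i = 1 := fun i => by rw [hON i i, if_pos rfl]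
  set Bd : Finset (Fin N) → Finset (Fin r) := fun ρ => Finset.univ.filter (fun i =>
    (1 / 16 : ℝ) < qf (TU x (E * spr (AR x (R \ ρ)) θ) (cyl ρ)) ((E * spr (AR x (R \ ρ)) θ) *ᵥ f i)) with hBd
  have htrE : 0 ≤ E.trace := trace_pr_nonneg hE.1
  have hcard : ∀ ρ ∈ R.powersetCard h, ((Bd ρ).card : ℝ) ≤ β * E.trace := by
    intro ρ hρ
    have hBt : (AR x (R \ ρ))ᵀ = AR x (R \ ρ) := AU_transpose x _
    have hQ : IsPr (spr (AR x (R \ ρ)) θ) := spr_isPr _ hBt θ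
    have hEQ : Commute E (spr (AR x (R \ ρ)) θ) := spr_comm _ hBt θ _ (commute_AU x _ hE.2.2.1)
    have hP : IsPr (E * spr (AR x (R \ ρ)) θ) := hE.1.mul hQ hEQ
    have h1 := ON_count_le f hON (E * spr (AR x (R \ ρ)) θ) (TU x (E * spr (AR x (R \ ρ)) θ) (cyl ρ)) hP
      (TU_transpose x hP _) (TU_nonneg x hP _) (1 / 16) (by norm_num) p hp
    have h2 := h1.trans (hT ρ hρ)
    have h3 : ((Bd ρ).card : ℝ) * (1 / 16 : ℝ) ^ (2 * p) ≤ (β * E.trace) * (1 / 16 : ℝ) ^ (2 * p) := by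
      refine h2.trans (le_of_eq ?_)
      ring
    exact le_of_mul_le_mul_right h3 (by positivity)
  set C : ℝ := (R.card.choose h : ℝ) with hC
  have hCpos : 0 < C := by
    rw [hC]
    exact_mod_cast Nat.choose_pos hhR
  have hCc : ((R.powersetCard h).card : ℝ) = C := by
    rw [Finset.card_powersetCard]
  have hi : ∀ i, C / 8 ≤ ∑ ρ ∈ R.powersetCard h, if i ∈ Bd ρ then (1 : ℝ) else 0 := by
    intro i
    have h1 := sum_qf_AR x R h hh hhR (f i)
    have h2 : qf (AR x R) (f i) = lam i := by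
      unfold qf
      rw [hAf i, dotProduct_smul, hff i, smul_eq_mul, mul_one]
    rw [h2] at h1
    have h3 : C * (5 / 8) ≤ |∑ ρ ∈ R.powersetCard h, qf (AR x ρ) (f i)| := by
      rw [h1, abs_mul, abs_of_pos hCpos]
      exact mul_le_mul_of_nonneg_left (hθ'.trans (hlam i)) hCpos.le
    have h4 : ∀ ρ ∈ R.powersetCard h, |qf (AR x ρ) (f i)| ≤
        1 / 2 + if i ∈ Bd ρ then (1 : ℝ) else 0 := by
      intro ρ hρ
      by_cases hb : i ∈ Bd ρ
      · rw [if_pos hb]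
        have := N6_bad x ρ (f i) (hff i)
        linarith
      · rw [if_neg hb, add_zero]
        refine N6_good x hE R h hh hhR θ θ' hθ hθθ hR ρ hρ (f i) (hff i) (hEf i) (lam i) (hAf i) (hlam i) ?_
        by_contra hcon
        exact hb (Finset.mem_filter.2 ⟨Finset.mem_univ _, lt_of_not_ge hcon⟩)
    have h5 := (Finset.abs_sum_le_sum_abs (fun ρ => qf (AR x ρ) (f i)) (R.powersetCard h)).trans
      (Finset.sum_le_sum h4)
    rw [Finset.sum_add_distrib, Finset.sum_const, nsmul_eq_mul, hCc] at h5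
    linarith
  have hsum : (r : ℝ) * (C / 8) ≤ C * (β * E.trace) := by
    have h1 : ∑ i : Fin r, C / 8 ≤ ∑ i : Fin r, ∑ ρ ∈ R.powersetCard h, if i ∈ Bd ρ then (1 : ℝ) else 0 :=
      Finset.sum_le_sum fun i _ => hi i
    rw [Finset.sum_const, Finset.card_univ, Fintype.card_fin, nsmul_eq_mul, Finset.sum_comm] at h1
    refine h1.trans ?_
    have h2 : ∀ ρ ∈ R.powersetCard h, (∑ i : Fin r, if i ∈ Bd ρ then (1 : ℝ) else 0) ≤ β * E.trace := by
      intro ρ hρ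
      rw [← Finset.sum_filter, Finset.sum_const, nsmul_eq_mul, mul_one]
      have h3 : (Finset.univ.filter (fun i => i ∈ Bd ρ)) = Bd ρ := by
        ext i; simp
      rw [h3]
      exact hcard ρ hρ
    refine (Finset.sum_le_sum h2).trans (le_of_eq ?_)
    rw [Finset.sum_const, nsmul_eq_mul, hCc]
  have h6 : C * (r : ℝ) ≤ C * (8 * β * E.trace) := by nlinarith
  exact le_of_mul_le_mul_left h6 hCpos

end Pool.Agent.BC5
end

section
set_option autoImplicit false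
set_option linter.unusedSectionVars false
set_option linter.unusedVariables false
open scoped BigOperators Matrix
open Matrix
namespace Pool.Agent.BC5


variable {G : Type} [Group G] [Fintype G] [DecidableEq G]

theorem N7_card {N s : ℕ} (ρ : Finset (Fin N)) : (cyl ρ : Finset (Fin N × Fin s)).card = ρ.card * s := by
  unfold cyl
  rw [Finset.card_product, Finset.card_univ, Fintype.card_fin]

theorem frac_pair_le {N s : ℕ} (hs : 1 ≤ s) {E : Matrix G G ℝ} (hE : IsBlock E) (R ρ : Finset (Fin N))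
    (hρ : 1 ≤ ρ.card) (hd : Disjoint R ρ) (p b : ℕ) (hp : 1 ≤ p) (φ θ w : ℝ) (hφ0 : 0 < φ) (hφ1 : φ ≤ 1)
    (hw : w ≤ φ ^ 2)
    (h1 : (2 : ℝ) ^ (ρ.card * s) * (b : ℝ) ^ p ≤ (1 / 16 / 2 : ℝ) ^ p * ((ρ.card * s : ℕ) : ℝ) ^ p)
    (h2 : φ ^ (b + 1) ≤ (1 / 16 / 2 : ℝ) ^ p) :
    frac (fun x : Fin N × Fin s → G => (E * spr (AR x R) θ).trace ≤ w * E.trace ∧
      (1 / 2 : ℝ) ^ p * (1 / 16 : ℝ) ^ (2 * p) * E.trace <
        ((TU x (E * spr (AR x R) θ) (cyl ρ)) ^ (2 * p)).trace) ≤ 4 * (1 / 2 : ℝ) ^ p := by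
  classical
  have hcard : (cyl ρ : Finset (Fin N × Fin s)).card = ρ.card * s := N7_card ρ
  obtain ⟨e, he, heU⟩ := exists_enum (cyl ρ : Finset (Fin N × Fin s))
  refine frac_extend_le e he _ _ (by positivity) ?_
  intro x
  have hAR : ∀ y : Fin (cyl ρ : Finset (Fin N × Fin s)).card → G,
      AR (Function.extend e y x) R = AR x R := by
    intro y
    unfold AR
    refine AU_extend e he x y (cyl R) ?_
    intro u hu i hi
    have h3 : u ∈ (cyl ρ : Finset (Fin N × Fin s)) := by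
      rw [← heU, ← hi]
      exact Finset.mem_image_of_mem e (Finset.mem_univ i)
    unfold cyl at hu h3
    rw [Finset.mem_product] at hu h3
    exact Finset.disjoint_left.1 hd hu.1 h3.1
  have hAt : (AR x R)ᵀ = AR x R := by
    unfold AR
    exact AU_transpose x (cyl R)
  obtain ⟨hEpr, hEL, hER, hE0, hEmin⟩ := hE
  have hES : Commute E (spr (AR x R) θ) := by
    refine spr_comm (AR x R) hAt θ E ?_
    unfold AR
    exact commute_AU x (cyl R) hER
  have hSpr : IsPr (spr (AR x R) θ) := spr_isPr (AR x R) hAt θ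
  have hPpr : IsPr (E * spr (AR x R) θ) := by
    constructor
    · rw [Matrix.transpose_mul, hSpr.1, hEpr.1, hES.eq]
    · calc E * spr (AR x R) θ * (E * spr (AR x R) θ)
          = E * (spr (AR x R) θ * E) * spr (AR x R) θ := by simp only [Matrix.mul_assoc]
        _ = E * (E * spr (AR x R) θ) * spr (AR x R) θ := by rw [hES.eq]
        _ = (E * E) * (spr (AR x R) θ * spr (AR x R) θ) := by simp only [Matrix.mul_assoc]
        _ = E * spr (AR x R) θ := by rw [hEpr.2, hSpr.2]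
  have hPL : CommL (E * spr (AR x R) θ) := by
    intro g
    have h4 : Commute (spr (AR x R) θ) (Lm g) := by
      refine (spr_comm (AR x R) hAt θ (Lm g) ?_).symm
      have h5 := AU_commL x (cyl R) g
      unfold AR
      exact h5.symm
    exact (hEL g).mul_left h4
  have hPE : E * (E * spr (AR x R) θ) = E * spr (AR x R) θ := by
    rw [← Matrix.mul_assoc, hEpr.2]
  have hE1 : 1 ≤ E.trace := one_le_trace hEpr hE0
  by_cases htr : (E * spr (AR x R) θ).trace ≤ w * E.trace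
  · have hs' : 1 ≤ (cyl ρ : Finset (Fin N × Fin s)).card := by
      rw [hcard]
      exact Nat.mul_pos hρ hs
    have htr2 : (E * spr (AR x R) θ).trace ≤ φ ^ 2 * E.trace :=
      htr.trans (mul_le_mul_of_nonneg_right hw (by linarith))
    have h1' : (2 : ℝ) ^ (cyl ρ : Finset (Fin N × Fin s)).card * (b : ℝ) ^ p ≤
        (1 / 16 / 2 : ℝ) ^ p * (((cyl ρ : Finset (Fin N × Fin s)).card : ℕ) : ℝ) ^ p := by
      rw [hcard]
      exact h1
    have hmain := frac_stage_block_le (E := E) (P := E * spr (AR x R) θ) ⟨hEpr, hEL, hER, hE0, hEmin⟩ hPpr hPL hPE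
      (cyl ρ : Finset (Fin N × Fin s)).card p b hs' hp φ (1 / 16) hφ0 hφ1 (by norm_num) htr2 h1' h2
    refine (frac_mono ?_).trans hmain
    intro y hy
    have h6 := hy.2
    rw [hAR y, TU_extend (cyl ρ) e he heU x y (E * spr (AR x R) θ)] at h6
    exact h6
  · have hz : frac (fun y : Fin (cyl ρ : Finset (Fin N × Fin s)).card → G => False) ≤ 4 * (1 / 2 : ℝ) ^ p := by
      have h7 : frac (fun y : Fin (cyl ρ : Finset (Fin N × Fin s)).card → G => False) = 0 := by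
        unfold frac avg
        simp
      rw [h7]
      positivity
    refine (frac_mono ?_).trans hz
    intro y hy
    have h8 := hy.1
    rw [hAR y] at h8
    exact htr h8

end Pool.Agent.BC5
end

section
set_option autoImplicit false
set_option linter.unusedSectionVars false
set_option linter.unusedVariables false
open scoped BigOperators Matrix
open Matrix
namespace Pool.Agent.BC5

variable {G : Type} [Group G] [Fintype G] [DecidableEq G]

theorem step_start {N s : ℕ} (hs : 1 ≤ s) {E : Matrix G G ℝ} (hE : IsBlock E) (h p b : ℕ) (hh : 1 ≤ h) (hp : 1 ≤ p)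
    (φ θ θ' v v' w : ℝ) (hφ0 : 0 < φ) (hφ1 : φ ≤ 1) (hw : w ≤ φ ^ 2) (hθ : 0 ≤ θ) (hθθ : θ < θ') (hθ' : 5 / 8 ≤ θ')
    (hv0 : 0 ≤ v) (hv : v + h ≤ v') (hv' : 10 * (h : ℝ) ≤ v' * (θ' - θ))
    (h1 : (2 : ℝ) ^ (h * s) * (b : ℝ) ^ p ≤ (1 / 16 / 2 : ℝ) ^ p * ((h * s : ℕ) : ℝ) ^ p)
    (h2 : φ ^ (b + 1) ≤ (1 / 16 / 2 : ℝ) ^ p) :
    frac (fun x : Fin N × Fin s → G => StartP x E θ v w ∧ ¬ StartP x E θ' v' (8 * (1 / 2 : ℝ) ^ p))
      ≤ 4 ^ N * (4 * (1 / 2 : ℝ) ^ p) := by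
  classical
  obtain ⟨Q, hQ⟩ : ∃ Q : Finset (Fin N) × Finset (Fin N) → (Fin N × Fin s → G) → Prop,
      Q = fun q x => (q.2.card = h ∧ q.2 ⊆ q.1) ∧ ((E * spr (AR x (q.1 \ q.2)) θ).trace ≤ w * E.trace ∧
      (1 / 2 : ℝ) ^ p * (1 / 16 : ℝ) ^ (2 * p) * E.trace <
        ((TU x (E * spr (AR x (q.1 \ q.2)) θ) (cyl q.2)) ^ (2 * p)).trace) := ⟨_, rfl⟩
  have hsub : ∀ x : Fin N × Fin s → G, StartP x E θ v w ∧ ¬ StartP x E θ' v' (8 * (1 / 2 : ℝ) ^ p) →
      ∃ q ∈ (Finset.univ : Finset (Finset (Fin N) × Finset (Fin N))), Q q x := by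
    rintro x ⟨hx1, hx2⟩
    unfold StartP at hx2
    push_neg at hx2
    obtain ⟨R, hR, hR2⟩ := hx2
    have hhR : h ≤ R.card := by
      have : (h : ℝ) ≤ R.card := by linarith
      exact_mod_cast this
    by_contra hcon
    push_neg at hcon
    have hR' : 10 * (h : ℝ) ≤ R.card * (θ' - θ) := by nlinarith
    have := leave_out x hE R h p hh hp hhR θ θ' ((1 / 2 : ℝ) ^ p) hθ hθθ hθ' hR' (by positivity) ?_
    · linarith
    · intro ρ hρ
      rw [Finset.mem_powersetCard] at hρ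
      have h3 := hcon (R, ρ) (Finset.mem_univ _)
      rw [hQ] at h3
      simp only at h3
      by_contra h4
      push_neg at h4
      apply h3
      refine ⟨⟨hρ.2, hρ.1⟩, hx1 (R \ ρ) ?_, h4⟩
      have h5 : (R \ ρ).card = R.card - h := by rw [Finset.card_sdiff_of_subset hρ.1, hρ.2]
      rw [h5, Nat.cast_sub hhR]
      linarith
  have hone : ∀ q : Finset (Fin N) × Finset (Fin N), frac (Q q) ≤ 4 * (1 / 2 : ℝ) ^ p := by
    rintro ⟨R, ρ⟩
    by_cases hc : ρ.card = h ∧ ρ ⊆ R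
    · have h6 := frac_pair_le (N := N) (s := s) hs hE (R \ ρ) ρ (by omega) (Finset.sdiff_disjoint) p b hp φ θ w hφ0 hφ1 hw
        (by rw [hc.1]; exact h1) h2
      refine le_trans (frac_mono ?_) h6
      intro x hx
      rw [hQ] at hx
      exact hx.2
    · have h7 : frac (Q (R, ρ)) ≤ frac (fun _ : Fin N × Fin s → G => False) := by
        apply frac_mono
        intro x hx
        rw [hQ] at hx
        exact hc hx.1
      have h8 : frac (fun _ : Fin N × Fin s → G => False) = 0 := by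
        unfold frac avg
        simp
      rw [h8] at h7
      exact le_trans h7 (by positivity)
  calc frac (fun x : Fin N × Fin s → G => StartP x E θ v w ∧ ¬ StartP x E θ' v' (8 * (1 / 2 : ℝ) ^ p))
      ≤ frac (fun x => ∃ q ∈ (Finset.univ : Finset (Finset (Fin N) × Finset (Fin N))), Q q x) := frac_mono hsub
    _ ≤ ∑ q ∈ (Finset.univ : Finset (Finset (Fin N) × Finset (Fin N))), frac (Q q) := frac_exists_le _ _
    _ ≤ ∑ q ∈ (Finset.univ : Finset (Finset (Fin N) × Finset (Fin N))), 4 * (1 / 2 : ℝ) ^ p :=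
        Finset.sum_le_sum fun q _ => hone q
    _ = 4 ^ N * (4 * (1 / 2 : ℝ) ^ p) := by
        rw [Finset.sum_const, Finset.card_univ, Fintype.card_prod, Fintype.card_finset, Fintype.card_fin, nsmul_eq_mul]
        push_cast
        rw [← mul_pow]
        norm_num

end Pool.Agent.BC5
end

section
set_option autoImplicit false
set_option linter.unusedSectionVars false
set_option linter.unusedVariables false
open scoped BigOperators Matrix
open Matrix
namespace Pool.Agent.BC5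


variable {G : Type} [Group G] [Fintype G] [DecidableEq G]

theorem N9_StartP_mono {N s : ℕ} {x : Fin N × Fin s → G} {E : Matrix G G ℝ} (hE : IsBlock E) {θ v w w' : ℝ}
    (hw : w ≤ w') (h : StartP x E θ v w) : StartP x E θ v w' := fun R hR =>
  le_trans (h R hR) (mul_le_mul_of_nonneg_right hw (le_trans zero_le_one (block_trace_pos hE)))

theorem step_q {N : ℕ} {E : Matrix G G ℝ} (hE : IsBlock E) (h q : ℕ) (hh : 1 ≤ h) (hq : 640 ≤ q)
    (θ θ' v v' : ℝ) (hθ : 0 ≤ θ) (hθθ : θ < θ') (hθ' : 5 / 8 ≤ θ')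
    (hv0 : 0 ≤ v) (hv : v + h ≤ v') (hv' : 10 * (h : ℝ) ≤ v' * (θ' - θ)) :
    frac (fun x : Fin N × Fin 2560 → G => StartP x E θ v ((1 / 2 : ℝ) ^ q) ∧
      ¬ StartP x E θ' v' ((1 / 2 : ℝ) ^ (2 * h * q))) ≤ 4 ^ (N + 1) * (1 / 2 : ℝ) ^ (4 * h * q) := by
  have hφ2 : Real.sqrt ((1 / 2 : ℝ) ^ q) ^ 2 = (1 / 2 : ℝ) ^ q := Real.sq_sqrt (by positivity)
  have hφ1 : Real.sqrt ((1 / 2 : ℝ) ^ q) ≤ 1 := by
    rw [Real.sqrt_le_one]
    exact pow_le_one₀ (by norm_num) (by norm_num)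
  have hφ0 : 0 < Real.sqrt ((1 / 2 : ℝ) ^ q) := Real.sqrt_pos.2 (by positivity)
  have hhq : 640 ≤ h * q := le_trans hq (Nat.le_mul_of_pos_left q hh)
  have h1 : (2 : ℝ) ^ (h * 2560) * ((40 * h : ℕ) : ℝ) ^ (4 * h * q)
      ≤ (1 / 16 / 2 : ℝ) ^ (4 * h * q) * ((h * 2560 : ℕ) : ℝ) ^ (4 * h * q) := by
    have e1 : (1 / 16 / 2 : ℝ) ^ (4 * h * q) * ((h * 2560 : ℕ) : ℝ) ^ (4 * h * q)
        = (2 : ℝ) ^ (4 * h * q) * ((40 * h : ℕ) : ℝ) ^ (4 * h * q) := by
      rw [← mul_pow, ← mul_pow]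
      congr 1
      push_cast
      ring
    rw [e1]
    refine mul_le_mul_of_nonneg_right (pow_le_pow_right₀ (by norm_num) ?_) (by positivity)
    nlinarith
  have h2 : Real.sqrt ((1 / 2 : ℝ) ^ q) ^ (40 * h + 1) ≤ (1 / 16 / 2 : ℝ) ^ (4 * h * q) := by
    refine le_trans (pow_le_pow_of_le_one hφ0.le hφ1 (Nat.le_succ _)) (le_of_eq ?_)
    have e2 : 40 * h = 2 * (20 * h) := by ring
    rw [e2, pow_mul, hφ2, ← pow_mul]
    have e3 : (1 / 16 / 2 : ℝ) = (1 / 2) ^ 5 := by norm_num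
    rw [e3, ← pow_mul]
    congr 1
    ring
  have hs := step_start (N := N) (s := 2560) (by norm_num) hE h (4 * h * q) (40 * h) hh
    (by nlinarith) (Real.sqrt ((1 / 2 : ℝ) ^ q)) θ θ' v v' ((1 / 2 : ℝ) ^ q) hφ0 hφ1 hφ2.ge hθ hθθ hθ' hv0 hv hv' h1 h2
  have h8 : 8 * (1 / 2 : ℝ) ^ (4 * h * q) ≤ (1 / 2 : ℝ) ^ (2 * h * q) := by
    have e4 : 4 * h * q = 2 * h * q + 2 * h * q := by ring
    have e5 : (1 / 2 : ℝ) ^ (2 * h * q) ≤ (1 / 2 : ℝ) ^ 3 :=
      pow_le_pow_of_le_one (by norm_num) (by norm_num) (by nlinarith)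
    rw [e4, pow_add]
    have e6 : 0 < (1 / 2 : ℝ) ^ (2 * h * q) := by positivity
    nlinarith
  refine le_trans (frac_mono fun x hx => ⟨hx.1, fun hc => hx.2 (N9_StartP_mono hE h8 hc)⟩) (le_trans hs (le_of_eq ?_))
  ring

end Pool.Agent.BC5
end

section
set_option autoImplicit false
set_option linter.unusedSectionVars false
set_option linter.unusedVariables false
open scoped BigOperators Matrix
open Matrix
namespace Pool.Agent.BC5


variable {G : Type} [Group G] [Fintype G] [DecidableEq G]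


/-- a sum of two failures -/
theorem N10_chain {α : Type} [Fintype α] (A B C : α → Prop) (a b : ℝ)
    (h1 : frac (fun x => A x ∧ ¬ B x) ≤ a) (h2 : frac (fun x => B x ∧ ¬ C x) ≤ b) :
    frac (fun x => A x ∧ ¬ C x) ≤ a + b := by
  refine le_trans (frac_mono (Q := fun x => (A x ∧ ¬ B x) ∨ (B x ∧ ¬ C x)) ?_)
    ((frac_or_le _ _).trans (add_le_add h1 h2))
  intro x hx
  by_cases hB : B x
  · exact Or.inr ⟨hB, hx.2⟩
  · exact Or.inl ⟨hx.1, hB⟩

theorem N10_false {α : Type} [Fintype α] : frac (fun _ : α => False) = 0 := by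
  classical
  unfold frac avg
  simp

theorem N10_pow (N a b : ℕ) (h : a ≤ b) :
    (4 : ℝ) ^ (N + 1) * (1 / 2 : ℝ) ^ b ≤ 4 ^ (N + 1) * (1 / 2 : ℝ) ^ a :=
  mul_le_mul_of_nonneg_left (pow_le_pow_of_le_one (by norm_num) (by norm_num) h) (by positivity)

theorem iter_steps {N : ℕ} {E : Matrix G G ℝ} (hE : IsBlock E) (q : ℕ) (hq : 640 ≤ q) (θ δ v : ℝ) (hθ : 5 / 8 ≤ θ)
    (hδ : 0 < δ) (hv0 : 0 ≤ v) (hv : 10 ≤ v * δ) (I : ℕ) :
    frac (fun x : Fin N × Fin 2560 → G => StartP x E θ v ((1 / 2 : ℝ) ^ q) ∧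
      ¬ StartP x E (θ + I * δ) (v + I) ((1 / 2 : ℝ) ^ (2 ^ I * q))) ≤ I * (4 ^ (N + 1) * (1 / 2 : ℝ) ^ (4 * q)) := by
  induction I with
  | zero =>
    have h0 : frac (fun x : Fin N × Fin 2560 → G => StartP x E θ v ((1 / 2 : ℝ) ^ q) ∧
        ¬ StartP x E (θ + (0 : ℕ) * δ) (v + (0 : ℕ)) ((1 / 2 : ℝ) ^ (2 ^ 0 * q))) ≤
        frac (fun _ : Fin N × Fin 2560 → G => False) := by
      refine frac_mono fun x hx => ?_
      have e1 : θ + ((0 : ℕ) : ℝ) * δ = θ := by rw [Nat.cast_zero, zero_mul, add_zero]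
      have e2 : v + ((0 : ℕ) : ℝ) = v := by rw [Nat.cast_zero, add_zero]
      rw [e1, e2, pow_zero, one_mul] at hx
      exact hx.2 hx.1
    rw [N10_false] at h0
    refine h0.trans (le_of_eq ?_)
    rw [Nat.cast_zero, zero_mul]
  | succ I ih =>
    have hI : (0 : ℝ) ≤ I := Nat.cast_nonneg I
    have hq2 : q ≤ 2 ^ I * q := Nat.le_mul_of_pos_left q (by positivity)
    have hIδ : 0 ≤ (I : ℝ) * δ := mul_nonneg hI hδ.le
    have hs := step_q (N := N) hE 1 (2 ^ I * q) (le_refl 1) (hq.trans hq2) (θ + I * δ)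
      (θ + ((I + 1 : ℕ) : ℝ) * δ) (v + I) (v + ((I + 1 : ℕ) : ℝ))
      (by linarith only [hθ, hIδ])
      (by
        push_cast
        linarith only [hδ])
      (by
        push_cast
        linarith only [hθ, hδ, hIδ])
      (by linarith only [hv0, hI])
      (by
        push_cast
        linarith only)
      (by
        push_cast
        nlinarith only [hv, hδ, hIδ])
    have e1 : 2 * 1 * (2 ^ I * q) = 2 ^ (I + 1) * q := by ring
    have e2 : 4 * q ≤ 4 * 1 * (2 ^ I * q) := by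
      rw [mul_one]
      exact Nat.mul_le_mul_left 4 hq2
    rw [e1] at hs
    have h := N10_chain _ _ _ _ _ ih (hs.trans (N10_pow N _ _ e2))
    refine h.trans (le_of_eq ?_)
    push_cast
    ring

theorem block_norm {N : ℕ} {E : Matrix G G ℝ} (hE : IsBlock E) (h q I : ℕ) (hh : 1 ≤ h) (hq : 640 ≤ q)
    (θ δ0 δ v : ℝ) (hθ : 0 ≤ θ) (hδ0 : 0 < δ0) (hθδ : 5 / 8 ≤ θ + δ0) (hδ : 0 < δ) (hv0 : 0 ≤ v)
    (h0 : 10 * (h : ℝ) ≤ (v + h) * δ0) (h1 : 10 ≤ v * δ) (hD : E.trace < 2 ^ (2 ^ I * (2 * h * q))) :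
    frac (fun x : Fin N × Fin 2560 → G => StartP x E θ v ((1 / 2 : ℝ) ^ q) ∧
      ¬ NormP x E (θ + δ0 + I * δ) (v + h + I)) ≤ ((I : ℝ) + 1) * (4 ^ (N + 1) * (1 / 2 : ℝ) ^ (4 * h * q)) := by
  have hI : (0 : ℝ) ≤ I := Nat.cast_nonneg I
  have hh1 : (1 : ℝ) ≤ h := by exact_mod_cast hh
  have hIδ : 0 ≤ (I : ℝ) * δ := mul_nonneg hI hδ.le
  have hhq : q ≤ 2 * h * q := Nat.le_mul_of_pos_left q (by omega)
  have h2 : frac (fun x : Fin N × Fin 2560 → G => StartP x E θ v ((1 / 2 : ℝ) ^ q) ∧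
      ¬ StartP x E (θ + δ0) (v + h) ((1 / 2 : ℝ) ^ (2 * h * q))) ≤
      4 ^ (N + 1) * (1 / 2 : ℝ) ^ (4 * h * q) :=
    step_q hE h q hh hq θ (θ + δ0) v (v + h) hθ (by linarith only [hδ0]) hθδ hv0 (le_refl _)
      (by
        have e : θ + δ0 - θ = δ0 := by ring
        rw [e]
        exact h0)
  have h3 := iter_steps (N := N) hE (2 * h * q) (hq.trans hhq) (θ + δ0) δ (v + h) hθδ hδ
    (by linarith only [hv0, hh1]) (by nlinarith only [h1, hδ, hh1]) I
  have e3 : 4 * h * q ≤ 4 * (2 * h * q) := by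
    have e : 4 * (2 * h * q) = 4 * h * q + 4 * h * q := by ring
    omega
  have h4 : frac (fun x : Fin N × Fin 2560 → G =>
      StartP x E (θ + δ0) (v + h) ((1 / 2 : ℝ) ^ (2 * h * q)) ∧
      ¬ NormP x E (θ + δ0 + I * δ) (v + h + I)) ≤
      I * (4 ^ (N + 1) * (1 / 2 : ℝ) ^ (4 * (2 * h * q))) := by
    refine le_trans (frac_mono fun x hx => ⟨hx.1, fun hS => hx.2 ?_⟩) h3
    intro R hR f hf
    have htr := hS R hR
    have hθ' : 0 ≤ θ + δ0 + I * δ := by linarith only [hθδ, hIδ]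
    refine spr_abs_qf_le (AR x R) (AU_transpose x (cyl R)) _ hθ' E hE.1
      (commute_AU x (cyl R) hE.2.2.1) (lt_of_le_of_lt htr ?_) f hf
    have hp : (0 : ℝ) < (1 / 2 : ℝ) ^ (2 ^ I * (2 * h * q)) := by positivity
    have h5 := mul_lt_mul_of_pos_left hD hp
    refine h5.trans_eq ?_
    rw [← mul_pow]
    norm_num
  have h6 := N10_chain _ _ _ _ _ h2 (h4.trans (mul_le_mul_of_nonneg_left (N10_pow N _ _ e3) hI))
  refine h6.trans (le_of_eq ?_)
  ring

end Pool.Agent.BC5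
end

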