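import Pool.Agent.Lib.MP_bc5a73_al.Averages

section
set_option autoImplicit false
set_option linter.unusedSectionVars false
set_option linter.unusedVariables false
open scoped BigOperators Matrix
open Matrix
namespace Pool.Agent.BC5

variable {V : Type} [Fintype V] [DecidableEq V]

/-- The quadratic form `⟨M f, f⟩`. -/
def qf (M : Matrix V V ℝ) (f : V → ℝ) : ℝ := f ⬝ᵥ (M *ᵥ f)

/-- `P` is an orthogonal projection (symmetric idempotent). -/
def IsPr (P : Matrix V V ℝ) : Prop := Pᵀ = P ∧ P * P = P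

/-- Squared Hilbert-Schmidt norm. -/
def hs (M : Matrix V V ℝ) : ℝ := (Mᵀ * M).trace

theorem qf_add (M N : Matrix V V ℝ) (f : V → ℝ) : qf (M + N) f = qf M f + qf N f := by
  simp [qf, Matrix.add_mulVec]

theorem qf_sub (M N : Matrix V V ℝ) (f : V → ℝ) : qf (M - N) f = qf M f - qf N f := by
  simp [qf, Matrix.sub_mulVec]

theorem qf_smul (c : ℝ) (M : Matrix V V ℝ) (f : V → ℝ) : qf (c • M) f = c * qf M f := by
  simp [qf, Matrix.smul_mulVec]

theorem qf_one (f : V → ℝ) : qf (1 : Matrix V V ℝ) f = f ⬝ᵥ f := by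
  simp [qf]

theorem qf_sum {ι : Type} (s : Finset ι) (M : ι → Matrix V V ℝ) (f : V → ℝ) :
    qf (∑ i ∈ s, M i) f = ∑ i ∈ s, qf (M i) f := by
  simp [qf, Matrix.sum_mulVec, dotProduct_sum]

theorem qf_avg {α : Type} [Fintype α] (M : α → Matrix V V ℝ) (f : V → ℝ) :
    qf (avg M) f = avg (fun a => qf (M a) f) := by
  simp [avg, qf_smul, qf_sum]

theorem dot_self_nonneg (f : V → ℝ) : 0 ≤ f ⬝ᵥ f :=
  Finset.sum_nonneg fun i _ => mul_self_nonneg (f i)

theorem dot_self_pos {f : V → ℝ} (hf : f ≠ 0) : 0 < f ⬝ᵥ f := by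
  rcases lt_or_eq_of_le (dot_self_nonneg f) with h | h
  · exact h
  · exact absurd (dotProduct_self_eq_zero.mp h.symm) hf

theorem IsPr.one : IsPr (1 : Matrix V V ℝ) := ⟨by simp, by simp⟩

theorem IsPr.compl {P : Matrix V V ℝ} (h : IsPr P) : IsPr (1 - P) := by
  refine ⟨by simp [h.1], ?_⟩
  have : (1 - P) * (1 - P) = 1 - P - P + P * P := by noncomm_ring
  rw [this, h.2]; abel

theorem IsPr.mul {P Q : Matrix V V ℝ} (hP : IsPr P) (hQ : IsPr Q) (h : Commute P Q) : IsPr (P * Q) := by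
  refine ⟨by rw [Matrix.transpose_mul, hP.1, hQ.1]; exact h.symm, ?_⟩
  calc P * Q * (P * Q) = P * (Q * P) * Q := by noncomm_ring
    _ = P * (P * Q) * Q := by rw [h.eq]
    _ = (P * P) * (Q * Q) := by noncomm_ring
    _ = P * Q := by rw [hP.2, hQ.2]

theorem qf_pr {P : Matrix V V ℝ} (h : IsPr P) (f : V → ℝ) : qf P f = (P *ᵥ f) ⬝ᵥ (P *ᵥ f) := by
  have h1 : P *ᵥ f = (P * P) *ᵥ f := by rw [h.2]
  unfold qf
  rw [h1, ← Matrix.mulVec_mulVec, Matrix.dotProduct_mulVec, ← Matrix.mulVec_transpose, h.1, Matrix.mulVec_mulVec, h.2]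

theorem qf_pr_nonneg {P : Matrix V V ℝ} (h : IsPr P) (f : V → ℝ) : 0 ≤ qf P f := by
  rw [qf_pr h]; exact dot_self_nonneg _

end Pool.Agent.BC5
end

section
set_option autoImplicit false
set_option linter.unusedSectionVars false
set_option linter.unusedVariables false
open scoped BigOperators Matrix
open Matrix
namespace Pool.Agent.BC5

/-
ROW L1. trace_nonneg_of_qf: qf N (Pi.single i 1) = N i i. trace_pr_nonneg: qf_pr_nonneg.
one_le_trace: for an idempotent matrix the trace is the rank (LinearMap.IsIdempotentElem / LinearMap.IsProj.trace, Matrix.toLin', or: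
eigenvalues); alternative elementary proof: P symmetric idempotent ≠ 0, trace P = sum P_ij^2 ... (only gives > 0), so use the rank.
abs_trace_le: the matrices c•Q ± Q*M*Q have nonnegative form (v = Q f satisfies Q v = v, qf (QMQ) f = qf M (Q f), qf Q f = Qf·Qf), so the
traces are nonnegative; trace (Q*M*Q) = trace (Q*M) (trace_mul_cycle, Q*Q = Q).
-/

variable {V : Type} [Fintype V] [DecidableEq V]

/-- The trace is the sum of the values of the form at the unit vectors. -/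
theorem trace_nonneg_of_qf (N : Matrix V V ℝ) (h : ∀ f, 0 ≤ qf N f) : 0 ≤ N.trace := by
  unfold Matrix.trace
  refine Finset.sum_nonneg fun i _ => ?_
  have h1 := h (Pi.single i 1)
  have h2 : qf N (Pi.single i 1) = N i i := by
    unfold qf
    rw [Matrix.mulVec_single_one, single_dotProduct]
    simp
  rw [h2] at h1
  exact h1

theorem trace_pr_nonneg {P : Matrix V V ℝ} (hP : IsPr P) : 0 ≤ P.trace :=
  trace_nonneg_of_qf P (qf_pr_nonneg hP)

theorem L1_dot_cs (u f : V → ℝ) : (u ⬝ᵥ f) ^ 2 ≤ (u ⬝ᵥ u) * (f ⬝ᵥ f) := by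
  have := Finset.sum_mul_sq_le_sq_mul_sq (Finset.univ : Finset V) u f
  simpa [dotProduct, sq] using this

/-- Paper 1.4. -/
theorem one_le_trace {P : Matrix V V ℝ} (hP : IsPr P) (hne : P ≠ 0) : 1 ≤ P.trace := by
  have hex : ∃ f, P *ᵥ f ≠ 0 := by
    by_contra hcon
    push Not at hcon
    apply hne
    apply Matrix.ext_of_mulVec_single
    intro i
    rw [hcon, Matrix.zero_mulVec]
  obtain ⟨f, hf⟩ := hex
  obtain ⟨v, hv⟩ : ∃ v, v = P *ᵥ f := ⟨_, rfl⟩
  rw [← hv] at hf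
  have hPv : P *ᵥ v = v := by rw [hv, Matrix.mulVec_mulVec, hP.2]
  have hpos : 0 < v ⬝ᵥ v := dot_self_pos hf
  obtain ⟨c, hc⟩ : ∃ c, c = v ⬝ᵥ v := ⟨_, rfl⟩
  rw [← hc] at hpos
  have key : ∀ g, 0 ≤ qf (P - c⁻¹ • Matrix.vecMulVec v v) g := by
    intro g
    rw [qf_sub, qf_smul, qf_pr hP]
    have h1 : qf (Matrix.vecMulVec v v) g = (v ⬝ᵥ (P *ᵥ g)) ^ 2 := by
      unfold qf
      have e1 : Matrix.vecMulVec v v *ᵥ g = (v ⬝ᵥ g) • v := by
        rw [Matrix.vecMulVec_mulVec]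
        ext i
        simp [mul_comm]
      have e2 : v ⬝ᵥ (P *ᵥ g) = v ⬝ᵥ g := by
        rw [Matrix.dotProduct_mulVec, ← Matrix.mulVec_transpose, hP.1, hPv]
      rw [e1, dotProduct_smul, e2, smul_eq_mul, dotProduct_comm g v, sq]
    rw [h1]
    have h2 := L1_dot_cs v (P *ᵥ g)
    rw [← hc] at h2
    have h3 : c⁻¹ * (v ⬝ᵥ (P *ᵥ g)) ^ 2 ≤ c⁻¹ * (c * ((P *ᵥ g) ⬝ᵥ (P *ᵥ g))) :=
      mul_le_mul_of_nonneg_left h2 (inv_nonneg.mpr hpos.le)
    rw [← mul_assoc, inv_mul_cancel₀ hpos.ne', one_mul] at h3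
    linarith only [h3]
  have h4 := trace_nonneg_of_qf _ key
  rw [Matrix.trace_sub, Matrix.trace_smul, Matrix.trace_vecMulVec, ← hc, smul_eq_mul,
    inv_mul_cancel₀ hpos.ne'] at h4
  linarith only [h4]

/-- Paper 1.5. -/
theorem abs_trace_le (Q M : Matrix V V ℝ) (c : ℝ) (hQ : IsPr Q)
    (h : ∀ v, Q *ᵥ v = v → |qf M v| ≤ c * (v ⬝ᵥ v)) : |(Q * M).trace| ≤ c * Q.trace := by
  have htr : (Q * M * Q).trace = (Q * M).trace := by
    rw [Matrix.trace_mul_comm (Q * M) Q, ← Matrix.mul_assoc, hQ.2]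
  have hqf : ∀ f, qf (Q * M * Q) f = qf M (Q *ᵥ f) := by
    intro f
    unfold qf
    rw [← Matrix.mulVec_mulVec, ← Matrix.mulVec_mulVec, Matrix.dotProduct_mulVec,
      ← Matrix.mulVec_transpose, hQ.1]
  have hb : ∀ f, |qf (Q * M * Q) f| ≤ c * qf Q f := by
    intro f
    rw [hqf, qf_pr hQ]
    apply h
    rw [Matrix.mulVec_mulVec, hQ.2]
  have h1 : 0 ≤ (c • Q - Q * M * Q).trace := by
    apply trace_nonneg_of_qf
    intro f
    rw [qf_sub, qf_smul]
    have := (abs_le.mp (hb f)).2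
    linarith only [this]
  have h2 : 0 ≤ (c • Q + Q * M * Q).trace := by
    apply trace_nonneg_of_qf
    intro f
    rw [qf_add, qf_smul]
    have := (abs_le.mp (hb f)).1
    linarith only [this]
  rw [Matrix.trace_sub, Matrix.trace_smul, htr, smul_eq_mul] at h1
  rw [Matrix.trace_add, Matrix.trace_smul, htr, smul_eq_mul] at h2
  rw [abs_le]
  constructor
  · linarith only [h2]
  · linarith only [h1]

end Pool.Agent.BC5
end

section
set_option autoImplicit false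
set_option linter.unusedSectionVars false
set_option linter.unusedVariables false
open scoped BigOperators Matrix
open Matrix
namespace Pool.Agent.BC5

/-
ROW L2. Paper 1.2. The symmetric matrix N = Q*M*Q - t•(1-Q) with t > the norm of M (say all |eigenvalues of QMQ| < t). Spectral theorem
(Matrix.IsHermitian.spectral_theorem over ℝ, conjTranspose = transpose by Matrix.conjTranspose_eq_transpose_of_trivial) and Lagrange interpolation: lambda = the
largest eigenvalue of N, P = the projection on its eigenspace = polynomial p(N), where p = 1 at lambda and 0 at the other eigenvalues (so P commutes with all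
X commuting with N; if X commutes with M and Q it commutes with N). Since Q ≠ 0 and t is large, lambda > -t, the eigenvectors v of N for lambda satisfy
Q v = v (N commutes with Q, on the range of 1-Q it is -t). Alternatively: linear-algebra route with the restriction of M to the range of Q (finite
dimensional inner product space, LinearMap.IsSymmetric, sup of the Rayleigh quotient), then P = orthogonal projection on the eigenspace; commuting X (and Xᵀ is
not assumed!) so the polynomial form is better: P = p(N) with p a real polynomial. You may prove first a lemma: for symmetric N and a finite set of its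
eigenvalues there are projections p_i(N) with sum 1 and N p_i(N) = λ_i p_i(N); row L3 needs the same lemma (talk to its taker or each prove it, prefix L2_).
-/

variable {V : Type} [Fintype V] [DecidableEq V]

/-- spectral theorem for real symmetric matrices -/
theorem L2_spec (T : Matrix V V ℝ) (hT : Tᵀ = T) :
    ∃ (U : Matrix V V ℝ) (d : V → ℝ), U * Uᵀ = 1 ∧ Uᵀ * U = 1 ∧ T = U * diagonal d * Uᵀ := by
  have hA : T.IsHermitian := by
    rw [Matrix.IsHermitian, Matrix.conjTranspose_eq_transpose_of_trivial]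
    exact hT
  refine ⟨(hA.eigenvectorUnitary : Matrix V V ℝ), hA.eigenvalues, ?_, ?_, ?_⟩
  · have := Unitary.mul_star_self_of_mem hA.eigenvectorUnitary.2
    rwa [Matrix.star_eq_conjTranspose, Matrix.conjTranspose_eq_transpose_of_trivial] at this
  · have := Unitary.star_mul_self_of_mem hA.eigenvectorUnitary.2
    rwa [Matrix.star_eq_conjTranspose, Matrix.conjTranspose_eq_transpose_of_trivial] at this
  · have := hA.spectral_theorem
    rw [Unitary.conjStarAlgAut_apply, Matrix.star_eq_conjTranspose,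
      Matrix.conjTranspose_eq_transpose_of_trivial] at this
    exact this

theorem L2_qf (U : Matrix V V ℝ) (e : V → ℝ) (f : V → ℝ) :
    qf (U * diagonal e * Uᵀ) f = ∑ i, e i * (Uᵀ *ᵥ f) i ^ 2 := by
  unfold qf
  rw [← Matrix.mulVec_mulVec, ← Matrix.mulVec_mulVec, Matrix.dotProduct_mulVec,
    ← Matrix.mulVec_transpose]
  simp only [dotProduct, Matrix.mulVec_diagonal]
  exact Finset.sum_congr rfl fun i _ => by ring

theorem L2_dot {U : Matrix V V ℝ} (hU : U * Uᵀ = 1) (f : V → ℝ) :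
    f ⬝ᵥ f = ∑ i, (Uᵀ *ᵥ f) i ^ 2 := by
  have h := L2_qf U (fun _ => 1) f
  have h1 : U * diagonal (fun _ => (1 : ℝ)) * Uᵀ = 1 := by
    rw [Matrix.diagonal_one, mul_one, hU]
  rw [h1, qf_one] at h
  rw [h]
  exact Finset.sum_congr rfl fun i _ => one_mul _

theorem L2_mul {U : Matrix V V ℝ} (hU : Uᵀ * U = 1) (e e' : V → ℝ) :
    U * diagonal e * Uᵀ * (U * diagonal e' * Uᵀ) = U * diagonal (fun i => e i * e' i) * Uᵀ := by
  calc U * diagonal e * Uᵀ * (U * diagonal e' * Uᵀ)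
      = U * diagonal e * (Uᵀ * U) * diagonal e' * Uᵀ := by simp only [mul_assoc]
    _ = U * (diagonal e * diagonal e') * Uᵀ := by rw [hU, mul_one]; simp only [mul_assoc]
    _ = U * diagonal (fun i => e i * e' i) * Uᵀ := by rw [Matrix.diagonal_mul_diagonal]

/-- the quadratic form of a symmetric matrix is bounded below -/
theorem L2_lower (M : Matrix V V ℝ) (hM : Mᵀ = M) : ∃ t : ℝ, ∀ f : V → ℝ, -t * (f ⬝ᵥ f) ≤ qf M f := by
  obtain ⟨U, d, h1, h2, h3⟩ := L2_spec M hM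
  refine ⟨∑ i, |d i|, fun f => ?_⟩
  rw [h3, L2_qf, L2_dot h1 f, Finset.mul_sum]
  refine Finset.sum_le_sum fun i _ => ?_
  apply mul_le_mul_of_nonneg_right _ (sq_nonneg _)
  have h4 : |d i| ≤ ∑ j, |d j| := Finset.single_le_sum (f := fun j => |d j|) (fun j _ => abs_nonneg _) (Finset.mem_univ i)
  have h5 := neg_abs_le (d i)
  linarith

/-- a matrix which commutes with `U D Uᵀ` commutes with the spectral projections -/
theorem L2_comm {U : Matrix V V ℝ} (hU' : U * Uᵀ = 1) (hU : Uᵀ * U = 1) (d : V → ℝ) (g : ℝ → ℝ) (X : Matrix V V ℝ)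
    (h : Commute X (U * diagonal d * Uᵀ)) : Commute X (U * diagonal (fun i => g (d i)) * Uᵀ) := by
  set Y : Matrix V V ℝ := Uᵀ * X * U with hY
  have hXY : X = U * Y * Uᵀ := by
    rw [hY]
    calc X = 1 * X * 1 := by simp
      _ = (U * Uᵀ) * X * (U * Uᵀ) := by rw [hU']
      _ = U * (Uᵀ * X * U) * Uᵀ := by simp only [mul_assoc]
  have h1 : Y * diagonal d = diagonal d * Y := by
    have h2 : X * (U * diagonal d * Uᵀ) = (U * diagonal d * Uᵀ) * X := h.eq
    calc Y * diagonal d = Uᵀ * X * U * diagonal d * (Uᵀ * U) := by rw [hU, mul_one]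
      _ = Uᵀ * (X * (U * diagonal d * Uᵀ)) * U := by simp only [mul_assoc]
      _ = Uᵀ * ((U * diagonal d * Uᵀ) * X) * U := by rw [h2]
      _ = (Uᵀ * U) * diagonal d * (Uᵀ * X * U) := by simp only [mul_assoc]
      _ = diagonal d * Y := by rw [hU, one_mul]
  have h3 : Y * diagonal (fun i => g (d i)) = diagonal (fun i => g (d i)) * Y := by
    ext i j
    have h4 := congrFun (congrFun h1 i) j
    rw [Matrix.mul_diagonal, Matrix.diagonal_mul] at h4
    rw [Matrix.mul_diagonal, Matrix.diagonal_mul]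
    by_cases hd : d i = d j
    · rw [hd, mul_comm]
    · have h5 : Y i j = 0 := by
        have h6 : (d j - d i) * Y i j = 0 := by linarith
        rcases mul_eq_zero.mp h6 with h7 | h7
        · exact absurd (by linarith : d i = d j) hd
        · exact h7
      rw [h5]; simp
  show X * (U * diagonal (fun i => g (d i)) * Uᵀ) = (U * diagonal (fun i => g (d i)) * Uᵀ) * X
  rw [hXY]
  calc U * Y * Uᵀ * (U * diagonal (fun i => g (d i)) * Uᵀ)
      = U * Y * (Uᵀ * U) * diagonal (fun i => g (d i)) * Uᵀ := by simp only [mul_assoc]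
    _ = U * (Y * diagonal (fun i => g (d i))) * Uᵀ := by rw [hU, mul_one]; simp only [mul_assoc]
    _ = U * (diagonal (fun i => g (d i)) * Y) * Uᵀ := by rw [h3]
    _ = U * diagonal (fun i => g (d i)) * 1 * Y * Uᵀ := by simp only [mul_assoc, one_mul]
    _ = U * diagonal (fun i => g (d i)) * (Uᵀ * U) * Y * Uᵀ := by rw [hU]
    _ = U * diagonal (fun i => g (d i)) * Uᵀ * (U * Y * Uᵀ) := by simp only [mul_assoc]

/-- Paper 1.2: top eigenprojection of a symmetric matrix on the range of a projection commuting with it. -/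
theorem exists_top (M Q : Matrix V V ℝ) (hM : Mᵀ = M) (hQ : IsPr Q) (hne : Q ≠ 0) (hc : Commute M Q) :
    ∃ (lam : ℝ) (P : Matrix V V ℝ), IsPr P ∧ P ≠ 0 ∧ Q * P = P ∧ M * P = lam • P ∧
      (∀ f, Q *ᵥ f = f → qf M f ≤ lam * (f ⬝ᵥ f)) ∧
      (∀ X, Commute X M → Commute X Q → Commute X P) := by
  obtain ⟨t0, ht0⟩ := L2_lower M hM
  set t : ℝ := t0 + 1 with ht
  set N : Matrix V V ℝ := Q * M * Q - t • (1 - Q) with hN
  have hNT : Nᵀ = N := by
    rw [hN]
    simp only [Matrix.transpose_sub, Matrix.transpose_mul, Matrix.transpose_smul, Matrix.transpose_one, hM, hQ.1, mul_assoc]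
  have hQMQ : Q * M * Q = M * Q := by
    rw [← hc.eq, mul_assoc, hQ.2]
  have hNQ : N * Q = M * Q := by
    rw [hN, hQMQ, sub_mul, smul_mul_assoc, sub_mul, one_mul, hQ.2, sub_self, smul_zero, sub_zero, mul_assoc, hQ.2]
  have hQN : Q * N = M * Q := by
    rw [hN, hQMQ, mul_sub, mul_smul_comm, mul_sub, mul_one, hQ.2, sub_self, smul_zero, sub_zero, ← mul_assoc, ← hc.eq,
      mul_assoc, hQ.2]
  obtain ⟨U, d, h1, h2, h3⟩ := L2_spec N hNT
  have hVne : Nonempty V := by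
    by_contra hcon
    rw [not_nonempty_iff] at hcon
    exact hne (by ext i; exact (hcon.false i).elim)
  obtain ⟨i0, hi0⟩ := Finite.exists_max d
  set lam : ℝ := d i0 with hlam
  set e : V → ℝ := fun i => if d i = lam then 1 else 0 with he
  set P : Matrix V V ℝ := U * diagonal e * Uᵀ with hP
  have hPpr : IsPr P := by
    refine ⟨?_, ?_⟩
    · rw [hP]
      simp only [Matrix.transpose_mul, Matrix.transpose_transpose, Matrix.diagonal_transpose, mul_assoc]
    · rw [hP, L2_mul h2]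
      congr 2
      congr 1
      funext i
      simp only [he]
      split_ifs <;> simp
  have hPne : P ≠ 0 := by
    intro h0
    have h4 : Uᵀ * P * U = diagonal e := by
      rw [hP]
      calc Uᵀ * (U * diagonal e * Uᵀ) * U = (Uᵀ * U) * diagonal e * (Uᵀ * U) := by simp only [mul_assoc]
        _ = diagonal e := by rw [h2, one_mul, mul_one]
    rw [h0, mul_zero, zero_mul] at h4
    have h5 := congrFun (congrFun h4 i0) i0
    rw [Matrix.diagonal_apply_eq] at h5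
    simp only [he, hlam, if_true, Matrix.zero_apply] at h5
    exact one_ne_zero h5.symm
  have hNP : N * P = lam • P := by
    rw [h3, hP, L2_mul h2]
    have h6 : (fun i => d i * e i) = fun i => lam * e i := by
      funext i
      simp only [he]
      split_ifs with h
      · rw [h]
      · simp
    rw [h6]
    have h7 : diagonal (fun i => lam * e i) = lam • diagonal e := by
      ext i j
      by_cases hij : i = j
      · subst hij; simp
      · simp [hij]
    rw [h7, mul_smul_comm, smul_mul_assoc]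
  have hmax : ∀ f, qf N f ≤ lam * (f ⬝ᵥ f) := by
    intro f
    rw [h3, L2_qf, L2_dot h1 f, Finset.mul_sum]
    exact Finset.sum_le_sum fun i _ => mul_le_mul_of_nonneg_right (hi0 i) (sq_nonneg _)
  have hNf : ∀ f, Q *ᵥ f = f → N *ᵥ f = M *ᵥ f := by
    intro f hf
    calc N *ᵥ f = N *ᵥ (Q *ᵥ f) := by rw [hf]
      _ = (N * Q) *ᵥ f := by rw [Matrix.mulVec_mulVec]
      _ = (M * Q) *ᵥ f := by rw [hNQ]
      _ = M *ᵥ (Q *ᵥ f) := by rw [Matrix.mulVec_mulVec]
      _ = M *ᵥ f := by rw [hf]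
  have hqf : ∀ f, Q *ᵥ f = f → qf M f ≤ lam * (f ⬝ᵥ f) := by
    intro f hf
    have h8 := hmax f
    unfold qf at h8 ⊢
    rwa [hNf f hf] at h8
  have hlamt : lam + t ≠ 0 := by
    have h9 : ∃ v : V → ℝ, Q *ᵥ v ≠ 0 := by
      by_contra hcon
      push Not at hcon
      apply hne
      ext i j
      have h10 := congrFun (hcon (Pi.single j 1)) i
      rw [Matrix.mulVec_single_one] at h10
      exact h10
    obtain ⟨v, hv⟩ := h9
    set f := Q *ᵥ v with hf
    have hQf : Q *ᵥ f = f := by rw [hf, Matrix.mulVec_mulVec, hQ.2]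
    have h11 := hqf f hQf
    have h12 := ht0 f
    have h13 := dot_self_pos hv
    have h14 : -t0 * (f ⬝ᵥ f) ≤ lam * (f ⬝ᵥ f) := h12.trans h11
    have h15 : -t0 ≤ lam := le_of_mul_le_mul_right h14 h13
    rw [ht]
    intro h16
    linarith
  have hQP : Q * P = P := by
    have h17 : (1 - Q) * N = -t • (1 - Q) := by
      rw [sub_mul, one_mul, hQN, hN, hQMQ, neg_smul]
      abel
    have h18 : (lam + t) • ((1 - Q) * P) = 0 := by
      have h19 : (1 - Q) * (N * P) = -t • ((1 - Q) * P) := by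
        rw [← mul_assoc, h17, smul_mul_assoc]
      rw [hNP, mul_smul_comm] at h19
      rw [add_smul, h19, neg_smul]
      abel
    have h20 : (1 - Q) * P = 0 := (smul_eq_zero.mp h18).resolve_left hlamt
    rw [sub_mul, one_mul] at h20
    exact (sub_eq_zero.mp h20).symm
  have hMP : M * P = lam • P := by
    rw [← hNP]
    calc M * P = M * (Q * P) := by rw [hQP]
      _ = (M * Q) * P := by rw [mul_assoc]
      _ = (N * Q) * P := by rw [hNQ]
      _ = N * (Q * P) := by rw [mul_assoc]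
      _ = N * P := by rw [hQP]
  refine ⟨lam, P, hPpr, hPne, hQP, hMP, hqf, fun X hXM hXQ => ?_⟩
  have hXN : Commute X (U * diagonal d * Uᵀ) := by
    rw [← h3, hN]
    apply Commute.sub_right
    · exact (hXQ.mul_right hXM).mul_right hXQ
    · apply Commute.smul_right
      exact (Commute.one_right X).sub_right hXQ
  exact L2_comm h1 h2 d (fun x => if x = lam then 1 else 0) X hXN

end Pool.Agent.BC5
end

section
set_option autoImplicit false
set_option linter.unusedSectionVars false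
set_option linter.unusedVariables false
open scoped BigOperators Matrix
open Matrix
namespace Pool.Agent.BC5

/-
ROW L3. Paper 1.3. T = sum of λ_i P_i (spectral theorem, P_i = p_i(T) polynomials in T, orthogonal projections with sum 1, T P_i = λ_i P_i, 0 ≤ λ_i ≤ 1), P = sum of the
P_i with λ_i ≥ θ. (i) f·f - qf T f = sum (1-λ_i) qf P_i f ≥ sum over λ_i < θ of (1-θ) qf P_i f = (1-θ)(f·f - qf P f). (ii) E commutes with the P_i
(polynomials in T), E*P_i is a projection with nonnegative trace; trace(E T^q) = sum λ_i^q trace(E P_i) ≥ sum over λ_i ≥ θ. Prefix extra lemmas with L3_.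
-/

variable {V : Type} [Fintype V] [DecidableEq V]

/-- spectral theorem for real symmetric matrices -/
theorem L3_spec (T : Matrix V V ℝ) (hT : Tᵀ = T) :
    ∃ (U : Matrix V V ℝ) (d : V → ℝ), U * Uᵀ = 1 ∧ Uᵀ * U = 1 ∧ T = U * diagonal d * Uᵀ := by
  have hA : T.IsHermitian := by
    rw [Matrix.IsHermitian, Matrix.conjTranspose_eq_transpose_of_trivial]
    exact hT
  refine ⟨(hA.eigenvectorUnitary : Matrix V V ℝ), hA.eigenvalues, ?_, ?_, ?_⟩
  · have := Unitary.mul_star_self_of_mem hA.eigenvectorUnitary.2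
    rwa [Matrix.star_eq_conjTranspose, Matrix.conjTranspose_eq_transpose_of_trivial] at this
  · have := Unitary.star_mul_self_of_mem hA.eigenvectorUnitary.2
    rwa [Matrix.star_eq_conjTranspose, Matrix.conjTranspose_eq_transpose_of_trivial] at this
  · have := hA.spectral_theorem
    rw [Unitary.conjStarAlgAut_apply, Matrix.star_eq_conjTranspose,
      Matrix.conjTranspose_eq_transpose_of_trivial] at this
    exact this

theorem L3_qf (U : Matrix V V ℝ) (e : V → ℝ) (f : V → ℝ) :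
    qf (U * diagonal e * Uᵀ) f = ∑ i, e i * (Uᵀ *ᵥ f) i ^ 2 := by
  unfold qf
  rw [← Matrix.mulVec_mulVec, ← Matrix.mulVec_mulVec, Matrix.dotProduct_mulVec,
    ← Matrix.mulVec_transpose]
  simp only [dotProduct, Matrix.mulVec_diagonal]
  exact Finset.sum_congr rfl fun i _ => by ring

theorem L3_dot {U : Matrix V V ℝ} (hU : U * Uᵀ = 1) (f : V → ℝ) :
    f ⬝ᵥ f = ∑ i, (Uᵀ *ᵥ f) i ^ 2 := by
  have h := L3_qf U (fun _ => 1) f
  have h1 : U * diagonal (fun _ => (1 : ℝ)) * Uᵀ = 1 := by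
    rw [Matrix.diagonal_one, mul_one, hU]
  rw [h1, qf_one] at h
  rw [h]
  exact Finset.sum_congr rfl fun i _ => one_mul _

theorem L3_mul {U : Matrix V V ℝ} (hU : Uᵀ * U = 1) (e e' : V → ℝ) :
    U * diagonal e * Uᵀ * (U * diagonal e' * Uᵀ) = U * diagonal (fun i => e i * e' i) * Uᵀ := by
  calc U * diagonal e * Uᵀ * (U * diagonal e' * Uᵀ)
      = U * diagonal e * (Uᵀ * U) * diagonal e' * Uᵀ := by simp only [mul_assoc]
    _ = U * (diagonal e * diagonal e') * Uᵀ := by rw [hU, mul_one]; simp only [mul_assoc]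
    _ = U * diagonal (fun i => e i * e' i) * Uᵀ := by rw [Matrix.diagonal_mul_diagonal]

theorem L3_pow {U : Matrix V V ℝ} (hU : Uᵀ * U = 1) (hU' : U * Uᵀ = 1) (e : V → ℝ) (q : ℕ) :
    (U * diagonal e * Uᵀ) ^ q = U * diagonal (fun i => e i ^ q) * Uᵀ := by
  induction q with
  | zero => simp only [pow_zero, Matrix.diagonal_one, mul_one, hU']
  | succ q ih =>
    rw [pow_succ, ih, L3_mul hU]
    simp only [pow_succ]

theorem L3_trace (U E : Matrix V V ℝ) (e : V → ℝ) :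
    (E * (U * diagonal e * Uᵀ)).trace = ∑ i, (Uᵀ * E * U) i i * e i := by
  have h1 : E * (U * diagonal e * Uᵀ) = (E * U * diagonal e) * Uᵀ := by simp only [mul_assoc]
  rw [h1, Matrix.trace_mul_comm]
  have h2 : Uᵀ * (E * U * diagonal e) = (Uᵀ * E * U) * diagonal e := by simp only [mul_assoc]
  rw [h2, Matrix.trace]
  exact Finset.sum_congr rfl fun i _ => by rw [Matrix.diag_apply, Matrix.mul_diagonal]

theorem L3_diag {U E : Matrix V V ℝ} (hU' : U * Uᵀ = 1) (hE : IsPr E) (i : V) :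
    0 ≤ (Uᵀ * E * U) i i := by
  have h1 : Uᵀ * E * U = (E * U)ᵀ * (E * U) := by
    rw [Matrix.transpose_mul, hE.1]
    calc Uᵀ * E * U = Uᵀ * (E * E) * U := by rw [hE.2]
      _ = Uᵀ * E * (E * U) := by simp only [mul_assoc]
  rw [h1, Matrix.mul_apply]
  exact Finset.sum_nonneg fun j _ => by
    rw [Matrix.transpose_apply]
    exact mul_self_nonneg _

/-- Paper 1.3: threshold projection. -/
theorem exists_thr (T : Matrix V V ℝ) (hT : Tᵀ = T) (h0 : ∀ f, 0 ≤ qf T f) (h1 : ∀ f, qf T f ≤ f ⬝ᵥ f)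
    (θ : ℝ) (hθ : 0 < θ) (hθ1 : θ ≤ 1) :
    ∃ P : Matrix V V ℝ, IsPr P ∧ (∀ X, Commute X T → Commute X P) ∧
      (∀ f, (1 - θ) * (f ⬝ᵥ f - qf P f) ≤ f ⬝ᵥ f - qf T f) ∧
      (∀ (q : ℕ) (E : Matrix V V ℝ), IsPr E → Commute E T → θ ^ q * (E * P).trace ≤ (E * T ^ q).trace) := by
  classical
  obtain ⟨U, d, hU', hU, hTd⟩ := L3_spec T hT
  -- the eigenvalues lie in [0, 1]
  have hcol : ∀ i, Uᵀ *ᵥ (U *ᵥ Pi.single i 1) = Pi.single i 1 := by
    intro i
    rw [Matrix.mulVec_mulVec, hU, Matrix.one_mulVec]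
  have hqd : ∀ i, qf T (U *ᵥ Pi.single i 1) = d i := by
    intro i
    rw [hTd, L3_qf, hcol, Finset.sum_eq_single i]
    · simp
    · intro j _ hj
      simp [Pi.single_eq_of_ne hj]
    · intro h
      exact absurd (Finset.mem_univ _) h
  have hdd : ∀ i, (U *ᵥ Pi.single i (1 : ℝ)) ⬝ᵥ (U *ᵥ Pi.single i 1) = 1 := by
    intro i
    rw [L3_dot hU', hcol, Finset.sum_eq_single i]
    · simp
    · intro j _ hj
      simp [Pi.single_eq_of_ne hj]
    · intro h
      exact absurd (Finset.mem_univ _) h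
  have hd0 : ∀ i, 0 ≤ d i := fun i => by rw [← hqd i]; exact h0 _
  have hd1 : ∀ i, d i ≤ 1 := fun i => by
    have := h1 (U *ᵥ Pi.single i 1)
    rwa [hqd i, hdd i] at this
  obtain ⟨χ, hχ⟩ : ∃ χ : V → ℝ, ∀ i, χ i = if θ ≤ d i then 1 else 0 := ⟨_, fun i => rfl⟩
  refine ⟨U * diagonal χ * Uᵀ, ⟨?_, ?_⟩, ?_, ?_, ?_⟩
  · rw [Matrix.transpose_mul, Matrix.transpose_mul, Matrix.transpose_transpose,
      Matrix.diagonal_transpose, mul_assoc]
  · rw [L3_mul hU]
    congr 3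
    funext i
    rw [hχ]
    split_ifs <;> simp
  · intro X hX
    have e1 : (Uᵀ * X * U) * diagonal d = diagonal d * (Uᵀ * X * U) := by
      have h2 : X * T = T * X := hX
      rw [hTd] at h2
      calc (Uᵀ * X * U) * diagonal d = Uᵀ * (X * (U * diagonal d * Uᵀ)) * U := by
            simp only [mul_assoc, hU, mul_one]
        _ = Uᵀ * (U * diagonal d * Uᵀ * X) * U := by rw [h2]
        _ = (Uᵀ * U) * diagonal d * (Uᵀ * X * U) := by simp only [mul_assoc]
        _ = diagonal d * (Uᵀ * X * U) := by rw [hU, one_mul]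
    have e2 : (Uᵀ * X * U) * diagonal χ = diagonal χ * (Uᵀ * X * U) := by
      ext i j
      have h3 := congrFun (congrFun e1 i) j
      rw [Matrix.mul_diagonal, Matrix.diagonal_mul] at h3 ⊢
      by_cases hx : (Uᵀ * X * U) i j = 0
      · rw [hx]; ring
      · have h4 : d j = d i := by
          apply mul_left_cancel₀ hx
          rw [h3, mul_comm]
        rw [hχ, hχ, h4, mul_comm]
    show X * (U * diagonal χ * Uᵀ) = (U * diagonal χ * Uᵀ) * X
    calc X * (U * diagonal χ * Uᵀ) = (U * Uᵀ) * X * (U * diagonal χ * Uᵀ) := by rw [hU', one_mul]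
      _ = U * ((Uᵀ * X * U) * diagonal χ) * Uᵀ := by simp only [mul_assoc]
      _ = U * (diagonal χ * (Uᵀ * X * U)) * Uᵀ := by rw [e2]
      _ = U * diagonal χ * Uᵀ * X * (U * Uᵀ) := by simp only [mul_assoc]
      _ = (U * diagonal χ * Uᵀ) * X := by rw [hU', mul_one]
  · intro f
    rw [hTd, L3_dot hU', L3_qf, L3_qf, ← Finset.sum_sub_distrib, ← Finset.sum_sub_distrib,
      Finset.mul_sum]
    refine Finset.sum_le_sum fun i _ => ?_
    have hg : 0 ≤ (Uᵀ *ᵥ f) i ^ 2 := sq_nonneg _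
    rw [hχ]
    split_ifs with h
    · have := mul_nonneg (sub_nonneg.2 (hd1 i)) hg
      linarith
    · have h2 : 0 ≤ (θ - d i) * (Uᵀ *ᵥ f) i ^ 2 := mul_nonneg (by linarith [not_le.1 h]) hg
      linarith
  · intro q E hE _
    rw [hTd, L3_pow hU hU', L3_trace, L3_trace, Finset.mul_sum]
    refine Finset.sum_le_sum fun i _ => ?_
    have hg := L3_diag hU' hE i
    rw [hχ]
    split_ifs with h
    · have h2 : θ ^ q ≤ d i ^ q := pow_le_pow_left₀ hθ.le h q
      have := mul_le_mul_of_nonneg_left h2 hg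
      linarith
    · have h2 : 0 ≤ d i ^ q := pow_nonneg (hd0 i) q
      have := mul_nonneg hg h2
      linarith

end Pool.Agent.BC5
end

section
set_option autoImplicit false
set_option linter.unusedSectionVars false
set_option linter.unusedVariables false
open scoped BigOperators Matrix
open Matrix
namespace Pool.Agent.BC5

/-
ROW L4. norm_mulVec_le: for u, v in the range of Q: 4⟨Zu,v⟩ = qf Z (u+v) - qf Z (u-v) ≤ z((u+v)·(u+v) + (u-v)·(u-v)) = 2z(u·u + v·v). With v := t Zu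
(in the range, Q Z u = Z Q u = Z u): 4 t Zu·Zu ≤ 2z(u·u + t² Zu·Zu) for all real t: optimise, or: if a = u·u, b = Zu·Zu, take t = sqrt(a/b) or use discriminant
(for all t: z b t² - 2 b t + z a ≥ 0 ⇒ b² ≤ z² a b ⇒ b ≤ z² a; the case z ≤ 0 or b = 0 separately). abs_trace_le_mul: trace(Q*U*Z) and qf (U*Z) v = v·(U(Zv)),
|.|² ≤ (v·v)(Zv·Zv) ≤ z² (v·v)² (Cauchy-Schwarz; U orthogonal: (Uw)·(Uw) = w·w), then abs_trace_le. (U commutes with Q is not really needed.)
abs_trace_pow_le: induction: (T^q v)·(T^q v) ≤ c^(2q) v·v by norm_mulVec_le (T^q v is in the range of Q), Cauchy-Schwarz, abs_trace_le.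
-/

variable {V : Type} [Fintype V] [DecidableEq V]

theorem L4_cs (v x : V → ℝ) : (v ⬝ᵥ x) ^ 2 ≤ (v ⬝ᵥ v) * (x ⬝ᵥ x) := by
  have h := Finset.sum_mul_sq_le_sq_mul_sq Finset.univ v x
  simpa [dotProduct, pow_two] using h

theorem L4_symm (Z : Matrix V V ℝ) (hZ : Zᵀ = Z) (v w : V → ℝ) : v ⬝ᵥ (Z *ᵥ w) = w ⬝ᵥ (Z *ᵥ v) := by
  rw [Matrix.dotProduct_mulVec, ← Matrix.mulVec_transpose, hZ, dotProduct_comm]

/-- Polarisation: a bound for the form of a symmetric matrix on the range of a commuting projection bounds the norm. -/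
theorem norm_mulVec_le (Q Z : Matrix V V ℝ) (z : ℝ) (hQ : IsPr Q) (hZ : Zᵀ = Z) (hc : Commute Z Q)
    (h : ∀ v, Q *ᵥ v = v → |qf Z v| ≤ z * (v ⬝ᵥ v)) (v : V → ℝ) (hv : Q *ᵥ v = v) :
    (Z *ᵥ v) ⬝ᵥ (Z *ᵥ v) ≤ z ^ 2 * (v ⬝ᵥ v) := by
  have hQw : ∀ t : ℝ, Q *ᵥ (t • (Z *ᵥ v)) = t • (Z *ᵥ v) := by
    intro t
    rw [Matrix.mulVec_smul, Matrix.mulVec_mulVec, ← hc.eq, ← Matrix.mulVec_mulVec, hv]
  have key : ∀ t : ℝ, 4 * (t * ((Z *ᵥ v) ⬝ᵥ (Z *ᵥ v))) ≤
      2 * z * (v ⬝ᵥ v + t ^ 2 * ((Z *ᵥ v) ⬝ᵥ (Z *ᵥ v))) := by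
    intro t
    have h1 := h (v + t • (Z *ᵥ v)) (by rw [Matrix.mulVec_add, hv, hQw])
    have h2 := h (v - t • (Z *ᵥ v)) (by rw [Matrix.mulVec_sub, hv, hQw])
    have h3 : (t • (Z *ᵥ v)) ⬝ᵥ (Z *ᵥ v) = t * ((Z *ᵥ v) ⬝ᵥ (Z *ᵥ v)) := by
      rw [smul_dotProduct, smul_eq_mul]
    have h4 := L4_symm Z hZ v (t • (Z *ᵥ v))
    have e1 : qf Z (v + t • (Z *ᵥ v)) - qf Z (v - t • (Z *ᵥ v)) =
        4 * (t * ((Z *ᵥ v) ⬝ᵥ (Z *ᵥ v))) := by
      rw [← h3]
      simp only [qf, Matrix.mulVec_add, Matrix.mulVec_sub, dotProduct_add, dotProduct_sub,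
        add_dotProduct, sub_dotProduct, h4]
      ring
    have e2 : z * ((v + t • (Z *ᵥ v)) ⬝ᵥ (v + t • (Z *ᵥ v))) +
        z * ((v - t • (Z *ᵥ v)) ⬝ᵥ (v - t • (Z *ᵥ v))) =
        2 * z * (v ⬝ᵥ v + t ^ 2 * ((Z *ᵥ v) ⬝ᵥ (Z *ᵥ v))) := by
      simp only [dotProduct_add, dotProduct_sub, add_dotProduct, sub_dotProduct, smul_dotProduct,
        dotProduct_smul, smul_eq_mul]
      ring
    rw [← e1, ← e2]
    have a1 := le_abs_self (qf Z (v + t • (Z *ᵥ v)))
    have a2 := neg_abs_le (qf Z (v - t • (Z *ᵥ v)))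
    linarith
  have ha : 0 ≤ v ⬝ᵥ v := dot_self_nonneg v
  have hb : 0 ≤ (Z *ᵥ v) ⬝ᵥ (Z *ᵥ v) := dot_self_nonneg _
  generalize (Z *ᵥ v) ⬝ᵥ (Z *ᵥ v) = b at *
  generalize v ⬝ᵥ v = a at *
  rcases hb.lt_or_eq with hb | hb
  · rcases le_or_gt z 0 with hz | hz
    · have k1 := key 1
      have : 2 * z * (a + 1 ^ 2 * b) ≤ 0 := by
        apply mul_nonpos_of_nonpos_of_nonneg
        · linarith
        · linarith
      linarith
    · have k1 := key (1 / z)
      have e : 2 * z * (a + (1 / z) ^ 2 * b) = 2 * (z * a) + 2 * (b / z) := by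
        field_simp
      have e' : 4 * (1 / z * b) = 4 * (b / z) := by ring
      rw [e, e'] at k1
      have k2 : b / z ≤ z * a := by linarith
      rw [div_le_iff₀ hz] at k2
      calc b ≤ z * a * z := k2
        _ = z ^ 2 * a := by ring
  · rw [← hb]
    positivity

/-- Paper 1.6. -/
theorem abs_trace_le_mul (Q U Z : Matrix V V ℝ) (z : ℝ) (hz : 0 ≤ z) (hQ : IsPr Q) (hU : Uᵀ * U = 1)
    (hUQ : Commute U Q) (hZ : Zᵀ = Z) (hZQ : Commute Z Q)
    (h : ∀ v, Q *ᵥ v = v → |qf Z v| ≤ z * (v ⬝ᵥ v)) : |(Q * U * Z).trace| ≤ z * Q.trace := by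
  rw [Matrix.mul_assoc]
  apply abs_trace_le Q (U * Z) z hQ
  intro v hv
  have h1 := norm_mulVec_le Q Z z hQ hZ hZQ h v hv
  have h2 := L4_cs v ((U * Z) *ᵥ v)
  have h3 : ((U * Z) *ᵥ v) ⬝ᵥ ((U * Z) *ᵥ v) = (Z *ᵥ v) ⬝ᵥ (Z *ᵥ v) := by
    rw [← Matrix.mulVec_mulVec, Matrix.dotProduct_mulVec, ← Matrix.mulVec_transpose,
      Matrix.mulVec_mulVec, hU, Matrix.one_mulVec]
  have ha : 0 ≤ v ⬝ᵥ v := dot_self_nonneg v
  rw [h3] at h2
  apply abs_le_of_sq_le_sq _ (mul_nonneg hz ha)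
  calc (qf (U * Z) v) ^ 2 ≤ (v ⬝ᵥ v) * ((Z *ᵥ v) ⬝ᵥ (Z *ᵥ v)) := h2
    _ ≤ (v ⬝ᵥ v) * (z ^ 2 * (v ⬝ᵥ v)) := mul_le_mul_of_nonneg_left h1 ha
    _ = (z * (v ⬝ᵥ v)) ^ 2 := by ring

/-- Powers: a symmetric matrix with `|⟨Tv,v⟩| ≤ c⟨v,v⟩` on the range of a commuting projection. -/
theorem abs_trace_pow_le (Q T : Matrix V V ℝ) (c : ℝ) (hc : 0 ≤ c) (hQ : IsPr Q) (hT : Tᵀ = T) (hcm : Commute T Q)
    (h : ∀ v, Q *ᵥ v = v → |qf T v| ≤ c * (v ⬝ᵥ v)) (q : ℕ) : |(Q * T ^ q).trace| ≤ c ^ q * Q.trace := by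
  have key : ∀ q : ℕ, ∀ v : V → ℝ, Q *ᵥ v = v →
      ((T ^ q) *ᵥ v) ⬝ᵥ ((T ^ q) *ᵥ v) ≤ (c ^ q) ^ 2 * (v ⬝ᵥ v) := by
    intro q
    induction q with
    | zero => intro v _; simp
    | succ q ih =>
      intro v hv
      have h1 : Q *ᵥ ((T ^ q) *ᵥ v) = (T ^ q) *ᵥ v := by
        rw [Matrix.mulVec_mulVec, ← (hcm.pow_left q).eq, ← Matrix.mulVec_mulVec, hv]
      have h2 := norm_mulVec_le Q T c hQ hT hcm h _ h1
      rw [pow_succ', ← Matrix.mulVec_mulVec]
      calc (T *ᵥ (T ^ q) *ᵥ v) ⬝ᵥ (T *ᵥ (T ^ q) *ᵥ v)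
          ≤ c ^ 2 * (((T ^ q) *ᵥ v) ⬝ᵥ ((T ^ q) *ᵥ v)) := h2
        _ ≤ c ^ 2 * ((c ^ q) ^ 2 * (v ⬝ᵥ v)) := mul_le_mul_of_nonneg_left (ih v hv) (by positivity)
        _ = (c ^ (q + 1)) ^ 2 * (v ⬝ᵥ v) := by ring
  apply abs_trace_le Q (T ^ q) (c ^ q) hQ
  intro v hv
  have h1 := key q v hv
  have h2 := L4_cs v ((T ^ q) *ᵥ v)
  have ha : 0 ≤ v ⬝ᵥ v := dot_self_nonneg v
  apply abs_le_of_sq_le_sq _ (mul_nonneg (pow_nonneg hc q) ha)
  calc (qf (T ^ q) v) ^ 2 ≤ (v ⬝ᵥ v) * (((T ^ q) *ᵥ v) ⬝ᵥ ((T ^ q) *ᵥ v)) := h2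
    _ ≤ (v ⬝ᵥ v) * ((c ^ q) ^ 2 * (v ⬝ᵥ v)) := mul_le_mul_of_nonneg_left h1 ha
    _ = (c ^ q * (v ⬝ᵥ v)) ^ 2 := by ring

end Pool.Agent.BC5
end

section
set_option autoImplicit false
set_option linter.unusedSectionVars false
set_option linter.unusedVariables false
open scoped BigOperators Matrix
open Matrix
namespace Pool.Agent.BC5

variable {V : Type} [Fintype V] [DecidableEq V]

theorem L5_trace_nonneg (X : Matrix V V ℝ) : 0 ≤ (Xᵀ * X).trace := by
  rw [Matrix.trace]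
  refine Finset.sum_nonneg fun i _ => ?_
  rw [Matrix.diag_apply, Matrix.mul_apply]
  exact Finset.sum_nonneg fun j _ => by rw [Matrix.transpose_apply]; exact mul_self_nonneg _

/-- Paper 1.7. -/
theorem lt_trace_pow (M Q : Matrix V V ℝ) (c : ℝ) (hc : 0 < c) (hM : Mᵀ = M) (hQ : IsPr Q) (hcm : Commute M Q)
    (v : V → ℝ) (hv : Q *ᵥ v = v) (hv2 : c * (v ⬝ᵥ v) < qf M v) (p : ℕ) (hp : 1 ≤ p) :
    c ^ (2 * p) < (Q * M ^ (2 * p)).trace := by
  have hv0 : v ≠ 0 := by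
    rintro rfl
    simp [qf] at hv2
  have hQne : Q ≠ 0 := by
    rintro rfl
    rw [Matrix.zero_mulVec] at hv
    exact hv0 hv.symm
  obtain ⟨lam, P, hP, hPne, hQP, hMP, htop, hcomm⟩ := exists_top M Q hM hQ hQne hcm
  have hlam : c < lam := by
    have h1 := lt_of_lt_of_le hv2 (htop v hv)
    exact lt_of_mul_lt_mul_right h1 (dot_self_nonneg v)
  have hMPc : Commute M P := hcomm M (Commute.refl M) hcm
  have hpow : ∀ k : ℕ, M ^ k * P = lam ^ k • P := by
    intro k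
    induction k with
    | zero => simp
    | succ k ih => rw [pow_succ', mul_assoc, ih, Matrix.mul_smul, hMP, smul_smul, pow_succ]
  have hPQ : P * Q = P := by
    have := congrArg Matrix.transpose hQP
    rwa [Matrix.transpose_mul, hP.1, hQ.1] at this
  have hRt : (Q - P)ᵀ = Q - P := by rw [Matrix.transpose_sub, hQ.1, hP.1]
  have hRR : (Q - P) * (Q - P) = Q - P := by
    have : (Q - P) * (Q - P) = Q * Q - Q * P - P * Q + P * P := by noncomm_ring
    rw [this, hQ.2, hQP, hPQ, hP.2]; abel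
  have hRM : Commute (M ^ p) (Q - P) := (hcm.sub_right hMPc).pow_left p
  have h0 : 0 ≤ ((Q - P) * M ^ (2 * p)).trace := by
    have h1 := L5_trace_nonneg (M ^ p * (Q - P))
    have h2 : (M ^ p * (Q - P))ᵀ * (M ^ p * (Q - P)) = (Q - P) * M ^ (2 * p) := by
      rw [Matrix.transpose_mul, hRt, Matrix.transpose_pow, hM]
      calc (Q - P) * M ^ p * (M ^ p * (Q - P)) = (Q - P) * M ^ p * ((Q - P) * M ^ p) := by rw [hRM.eq]
        _ = (Q - P) * (M ^ p * (Q - P)) * M ^ p := by noncomm_ring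
        _ = (Q - P) * ((Q - P) * M ^ p) * M ^ p := by rw [hRM.eq]
        _ = ((Q - P) * (Q - P)) * (M ^ p * M ^ p) := by noncomm_ring
        _ = (Q - P) * M ^ (2 * p) := by rw [hRR, ← pow_add, two_mul]
    rwa [h2] at h1
  have h3 : (P * M ^ (2 * p)).trace = lam ^ (2 * p) * P.trace := by
    rw [Matrix.trace_mul_comm, hpow, Matrix.trace_smul, smul_eq_mul]
  have h4 : (Q * M ^ (2 * p)).trace = ((Q - P) * M ^ (2 * p)).trace + (P * M ^ (2 * p)).trace := by
    rw [← Matrix.trace_add, ← add_mul, sub_add_cancel]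
  have h5 : 1 ≤ P.trace := one_le_trace hP hPne
  have h6 : c ^ (2 * p) < lam ^ (2 * p) := pow_lt_pow_left₀ hlam hc.le (by omega)
  have h7 : (0 : ℝ) ≤ lam ^ (2 * p) := by
    have : 0 < lam := hc.trans hlam
    positivity
  rw [h4, h3]
  nlinarith

end Pool.Agent.BC5
end

section
set_option autoImplicit false
set_option linter.unusedSectionVars false
set_option linter.unusedVariables false
open scoped BigOperators Matrix
open Matrix
namespace Pool.Agent.BC5

/-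
ROW L6. hs M = sum of the squares of the entries. hs_sum_le entrywise: (sum_i m_i)^2 ≤ (sum w_i)(sum m_i^2/w_i) (Finset.inner_mul_le_norm_mul_norm / div_add_div_same... ;
Mathlib: Finset.sum_sq_le_sum_mul_sum_of_sq_eq_mul or div form inner_mul_le). hs_mul_le: trace((MQ)ᵀ(MQ)) = trace(Mᵀ M Q) (cyclic, Q*Q = Q), hs M - hs(MQ) = hs(M(1-Q)) ≥ 0.
trace_pow_two_mul: T^(2p) = (T^p)ᵀ T^p.
-/

variable {V : Type} [Fintype V] [DecidableEq V]

theorem L6_hs_eq (M : Matrix V V ℝ) : hs M = ∑ j, ∑ i, M i j ^ 2 := by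
  unfold hs Matrix.trace
  refine Finset.sum_congr rfl fun j _ => ?_
  rw [Matrix.diag_apply, Matrix.mul_apply]
  refine Finset.sum_congr rfl fun i _ => ?_
  rw [Matrix.transpose_apply, sq]

theorem hs_nonneg (M : Matrix V V ℝ) : 0 ≤ hs M := by
  rw [L6_hs_eq]
  exact Finset.sum_nonneg fun j _ => Finset.sum_nonneg fun i _ => sq_nonneg _

theorem hs_smul (c : ℝ) (M : Matrix V V ℝ) : hs (c • M) = c ^ 2 * hs M := by
  rw [L6_hs_eq, L6_hs_eq, Finset.mul_sum]
  refine Finset.sum_congr rfl fun j _ => ?_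
  rw [Finset.mul_sum]
  refine Finset.sum_congr rfl fun i _ => ?_
  rw [Matrix.smul_apply, smul_eq_mul, mul_pow]

/-- Paper 1.8 (Cauchy-Schwarz with weights). -/
theorem hs_sum_le {ι : Type} (s : Finset ι) (w : ι → ℝ) (hw : ∀ i ∈ s, 0 < w i) (M : ι → Matrix V V ℝ) :
    hs (∑ i ∈ s, M i) ≤ (∑ i ∈ s, w i) * ∑ i ∈ s, hs (M i) / w i := by
  have h1 : ∑ i ∈ s, hs (M i) / w i = ∑ j, ∑ k, ∑ i ∈ s, (M i k j) ^ 2 / w i := by
    have e : ∀ i ∈ s, hs (M i) / w i = ∑ j, ∑ k, (M i k j) ^ 2 / w i := by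
      intro i _
      rw [L6_hs_eq, Finset.sum_div]
      exact Finset.sum_congr rfl fun j _ => Finset.sum_div _ _ _
    rw [Finset.sum_congr rfl e, Finset.sum_comm]
    exact Finset.sum_congr rfl fun j _ => Finset.sum_comm
  rw [h1, L6_hs_eq, Finset.mul_sum]
  refine Finset.sum_le_sum fun j _ => ?_
  rw [Finset.mul_sum]
  refine Finset.sum_le_sum fun k _ => ?_
  rw [Matrix.sum_apply]
  refine Finset.sum_sq_le_sum_mul_sum_of_sq_le_mul s (fun i hi => (hw i hi).le)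
    (fun i hi => div_nonneg (sq_nonneg _) (hw i hi).le) (fun i hi => le_of_eq ?_)
  rw [mul_div_cancel₀]
  exact (hw i hi).ne'

theorem L6_hs_mul (M Q : Matrix V V ℝ) (hQ : IsPr Q) : hs (M * Q) = (Mᵀ * M * Q).trace := by
  unfold hs
  rw [Matrix.transpose_mul, hQ.1, Matrix.mul_assoc, Matrix.trace_mul_comm, ← Matrix.mul_assoc Mᵀ M Q,
    Matrix.mul_assoc, hQ.2]

theorem hs_mul_le (M Q : Matrix V V ℝ) (hQ : IsPr Q) : hs (M * Q) ≤ hs M := by
  have h1 := hs_nonneg (M * (1 - Q))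
  rw [L6_hs_mul M (1 - Q) hQ.compl, Matrix.mul_sub, Matrix.mul_one, Matrix.trace_sub] at h1
  rw [L6_hs_mul M Q hQ]
  have h2 : hs M = (Mᵀ * M).trace := rfl
  linarith only [h1, h2]

theorem trace_pow_two_mul (T : Matrix V V ℝ) (hT : Tᵀ = T) (p : ℕ) : (T ^ (2 * p)).trace = hs (T ^ p) := by
  unfold hs
  rw [Matrix.transpose_pow, hT, ← pow_add, two_mul]

end Pool.Agent.BC5
end

section
set_option autoImplicit false
set_option linter.unusedSectionVars false
set_option linter.unusedVariables false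
open scoped BigOperators Matrix
open Matrix
namespace Pool.Agent.BC5

/-
ROW Q1. Like row L3 (same spectral decomposition A = sum of λ_i P_i with P_i polynomials in A; copy from bc5_L3.lean / bc5_L2.lean if they are in the store): P = sum of the P_i with λ_i ≥ 1-ε.
f·f - qf A f = sum (1-λ_i) qf P_i f, all 1-λ_i ≥ 0 by h1 (P_i ≠ 0), and > ε where λ_i < 1-ε. On the range of P all λ_i ≥ 1-ε.
-/

variable {V : Type} [Fintype V] [DecidableEq V]

/-- spectral theorem for real symmetric matrices -/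
theorem Q1_spec (T : Matrix V V ℝ) (hT : Tᵀ = T) :
    ∃ (U : Matrix V V ℝ) (d : V → ℝ), U * Uᵀ = 1 ∧ Uᵀ * U = 1 ∧ T = U * diagonal d * Uᵀ := by
  have hA : T.IsHermitian := by
    rw [Matrix.IsHermitian, Matrix.conjTranspose_eq_transpose_of_trivial]
    exact hT
  refine ⟨(hA.eigenvectorUnitary : Matrix V V ℝ), hA.eigenvalues, ?_, ?_, ?_⟩
  · have := Unitary.mul_star_self_of_mem hA.eigenvectorUnitary.2
    rwa [Matrix.star_eq_conjTranspose, Matrix.conjTranspose_eq_transpose_of_trivial] at this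
  · have := Unitary.star_mul_self_of_mem hA.eigenvectorUnitary.2
    rwa [Matrix.star_eq_conjTranspose, Matrix.conjTranspose_eq_transpose_of_trivial] at this
  · have := hA.spectral_theorem
    rw [Unitary.conjStarAlgAut_apply, Matrix.star_eq_conjTranspose,
      Matrix.conjTranspose_eq_transpose_of_trivial] at this
    exact this

theorem Q1_qf (U : Matrix V V ℝ) (e : V → ℝ) (f : V → ℝ) :
    qf (U * diagonal e * Uᵀ) f = ∑ i, e i * (Uᵀ *ᵥ f) i ^ 2 := by
  unfold qf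
  rw [← Matrix.mulVec_mulVec, ← Matrix.mulVec_mulVec, Matrix.dotProduct_mulVec,
    ← Matrix.mulVec_transpose]
  simp only [dotProduct, Matrix.mulVec_diagonal]
  exact Finset.sum_congr rfl fun i _ => by ring

theorem Q1_dot {U : Matrix V V ℝ} (hU : U * Uᵀ = 1) (f : V → ℝ) :
    f ⬝ᵥ f = ∑ i, (Uᵀ *ᵥ f) i ^ 2 := by
  have h := Q1_qf U (fun _ => 1) f
  have h1 : U * diagonal (fun _ => (1 : ℝ)) * Uᵀ = 1 := by
    rw [Matrix.diagonal_one, mul_one, hU]
  rw [h1, qf_one] at h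
  rw [h]
  exact Finset.sum_congr rfl fun i _ => one_mul _

theorem Q1_mul {U : Matrix V V ℝ} (hU : Uᵀ * U = 1) (e e' : V → ℝ) :
    U * diagonal e * Uᵀ * (U * diagonal e' * Uᵀ) = U * diagonal (fun i => e i * e' i) * Uᵀ := by
  calc U * diagonal e * Uᵀ * (U * diagonal e' * Uᵀ)
      = U * diagonal e * (Uᵀ * U) * diagonal e' * Uᵀ := by simp only [mul_assoc]
    _ = U * (diagonal e * diagonal e') * Uᵀ := by rw [hU, mul_one]; simp only [mul_assoc]
    _ = U * diagonal (fun i => e i * e' i) * Uᵀ := by rw [Matrix.diagonal_mul_diagonal]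

/-- a matrix which commutes with `U D Uᵀ` commutes with the spectral projections -/
theorem Q1_comm {U : Matrix V V ℝ} (hU' : U * Uᵀ = 1) (hU : Uᵀ * U = 1) (d : V → ℝ) (g : ℝ → ℝ) (X : Matrix V V ℝ)
    (h : Commute X (U * diagonal d * Uᵀ)) : Commute X (U * diagonal (fun i => g (d i)) * Uᵀ) := by
  set Y : Matrix V V ℝ := Uᵀ * X * U with hY
  have hXY : X = U * Y * Uᵀ := by
    rw [hY]
    calc X = 1 * X * 1 := by simp
      _ = (U * Uᵀ) * X * (U * Uᵀ) := by rw [hU']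
      _ = U * (Uᵀ * X * U) * Uᵀ := by simp only [mul_assoc]
  have h1 : Y * diagonal d = diagonal d * Y := by
    have h2 : X * (U * diagonal d * Uᵀ) = (U * diagonal d * Uᵀ) * X := h.eq
    calc Y * diagonal d = Uᵀ * X * U * diagonal d * (Uᵀ * U) := by rw [hU, mul_one]
      _ = Uᵀ * (X * (U * diagonal d * Uᵀ)) * U := by simp only [mul_assoc]
      _ = Uᵀ * ((U * diagonal d * Uᵀ) * X) * U := by rw [h2]
      _ = (Uᵀ * U) * diagonal d * (Uᵀ * X * U) := by simp only [mul_assoc]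
      _ = diagonal d * Y := by rw [hU, one_mul]
  have h3 : Y * diagonal (fun i => g (d i)) = diagonal (fun i => g (d i)) * Y := by
    ext i j
    have h4 := congrFun (congrFun h1 i) j
    rw [Matrix.mul_diagonal, Matrix.diagonal_mul] at h4
    rw [Matrix.mul_diagonal, Matrix.diagonal_mul]
    by_cases hd : d i = d j
    · rw [hd, mul_comm]
    · have h5 : Y i j = 0 := by
        have h6 : (d j - d i) * Y i j = 0 := by linarith
        rcases mul_eq_zero.mp h6 with h7 | h7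
        · exact absurd (by linarith : d i = d j) hd
        · exact h7
      rw [h5]; simp
  show X * (U * diagonal (fun i => g (d i)) * Uᵀ) = (U * diagonal (fun i => g (d i)) * Uᵀ) * X
  rw [hXY]
  calc U * Y * Uᵀ * (U * diagonal (fun i => g (d i)) * Uᵀ)
      = U * Y * (Uᵀ * U) * diagonal (fun i => g (d i)) * Uᵀ := by simp only [mul_assoc]
    _ = U * (Y * diagonal (fun i => g (d i))) * Uᵀ := by rw [hU, mul_one]; simp only [mul_assoc]
    _ = U * (diagonal (fun i => g (d i)) * Y) * Uᵀ := by rw [h3]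
    _ = U * diagonal (fun i => g (d i)) * 1 * Y * Uᵀ := by simp only [mul_assoc, one_mul]
    _ = U * diagonal (fun i => g (d i)) * (Uᵀ * U) * Y * Uᵀ := by rw [hU]
    _ = U * diagonal (fun i => g (d i)) * Uᵀ * (U * Y * Uᵀ) := by simp only [mul_assoc]

/-- Threshold projection, second form. -/
theorem exists_thr2 {V : Type} [Fintype V] [DecidableEq V] (A : Matrix V V ℝ) (hA : Aᵀ = A)
    (h1 : ∀ f, qf A f ≤ f ⬝ᵥ f) (ε : ℝ) (hε : 0 < ε) :
    ∃ P : Matrix V V ℝ, IsPr P ∧ (∀ X, Commute X A → Commute X P) ∧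
      (∀ f, ε * (f ⬝ᵥ f - qf P f) ≤ f ⬝ᵥ f - qf A f) ∧
      (∀ f, P *ᵥ f = f → (1 - ε) * (f ⬝ᵥ f) ≤ qf A f) := by
  obtain ⟨U, d, u1, u2, u3⟩ := Q1_spec A hA
  set e : V → ℝ := fun i => if 1 - ε ≤ d i then 1 else 0 with he
  set P : Matrix V V ℝ := U * diagonal e * Uᵀ with hP
  have hd1 : ∀ i, d i ≤ 1 := by
    intro i
    have h2 := h1 (U *ᵥ Pi.single i 1)
    rw [u3, Q1_qf, Q1_dot u1] at h2
    have h3 : Uᵀ *ᵥ (U *ᵥ Pi.single i 1) = Pi.single i 1 := by
      rw [Matrix.mulVec_mulVec, u2, Matrix.one_mulVec]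
    rw [h3] at h2
    have h4 : ∑ j, d j * (Pi.single i 1 : V → ℝ) j ^ 2 = d i := by
      rw [Finset.sum_eq_single i]
      · simp
      · intro j _ hj
        simp [hj]
      · simp
    have h5 : ∑ j, (Pi.single i 1 : V → ℝ) j ^ 2 = 1 := by
      rw [Finset.sum_eq_single i]
      · simp
      · intro j _ hj
        simp [hj]
      · simp
    rwa [h4, h5] at h2
  have hPpr : IsPr P := by
    refine ⟨?_, ?_⟩
    · rw [hP]
      simp only [Matrix.transpose_mul, Matrix.transpose_transpose, Matrix.diagonal_transpose, mul_assoc]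
    · rw [hP, Q1_mul u2]
      congr 2
      congr 1
      funext i
      simp only [he]
      split_ifs <;> simp
  refine ⟨P, hPpr, ?_, ?_, ?_⟩
  · intro X hX
    rw [u3] at hX
    exact Q1_comm u1 u2 d (fun x => if 1 - ε ≤ x then 1 else 0) X hX
  · intro f
    rw [u3, hP, Q1_qf, Q1_qf, Q1_dot u1 f, ← Finset.sum_sub_distrib, ← Finset.sum_sub_distrib, Finset.mul_sum]
    refine Finset.sum_le_sum fun i _ => ?_
    simp only [he]
    have h6 := sq_nonneg ((Uᵀ *ᵥ f) i)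
    split_ifs with h
    · have h7 := hd1 i
      nlinarith
    · push Not at h
      nlinarith
  · intro f hf
    have h8 : ∀ i, (Uᵀ *ᵥ f) i = e i * (Uᵀ *ᵥ f) i := by
      intro i
      have h9 : Uᵀ *ᵥ f = (diagonal e * Uᵀ) *ᵥ f := by
        conv_lhs => rw [← hf, hP, Matrix.mulVec_mulVec, ← mul_assoc, ← mul_assoc, u2, one_mul]
      have h10 := congrFun h9 i
      rw [← Matrix.mulVec_mulVec, Matrix.mulVec_diagonal] at h10
      exact h10
    rw [u3, Q1_qf, Q1_dot u1 f, Finset.mul_sum]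
    refine Finset.sum_le_sum fun i _ => ?_
    by_cases h : 1 - ε ≤ d i
    · exact mul_le_mul_of_nonneg_right h (sq_nonneg _)
    · have h11 := h8 i
      simp only [he, if_neg h, zero_mul] at h11
      rw [h11]
      simp

end Pool.Agent.BC5
end

section
set_option autoImplicit false
set_option linter.unusedSectionVars false
set_option linter.unusedVariables false
open scoped BigOperators Matrix
open Matrix
namespace Pool.Agent.BC5

/-
ROW Q2. a_j := (M^j f)·(M^j f) for f = P f with f·f = 1: a_j² ≤ a_{j-1} a_{j+1} (Cauchy-Schwarz: a_j = M^{j-1}f · M^{j+1}f, M symmetric), a_0 = 1, a_1 ≥ (qf M f)² ≥ c², so a_p ≥ c^(2p) (induction: a_{j+1}/a_j ≥ a_j/a_{j-1} ≥ ... ≥ c²; the case some a_j = 0 only if c = 0).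
So for all f: qf (M^(2p)) (P f) ≥ c^(2p) (Pf)·(Pf) (homogeneity), hence trace(P M^(2p) P) ≥ c^(2p) trace P (trace_nonneg_of_qf applied to P M^(2p) P - c^(2p) P), trace(P M^(2p) P) = trace(P M^(2p)) and trace((Q-P) M^(2p)) = trace of (M^p (Q-P))ᵀ(M^p (Q-P)) ≥ 0 (Q - P is a projection; P*Q = P by transposing).
-/

theorem Q2_symm {V : Type} [Fintype V] [DecidableEq V] (A : Matrix V V ℝ) (hA : Aᵀ = A) (v w : V → ℝ) :
    v ⬝ᵥ (A *ᵥ w) = (A *ᵥ v) ⬝ᵥ w := by
  rw [Matrix.dotProduct_mulVec, ← Matrix.mulVec_transpose, hA]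

theorem Q2_cs {V : Type} [Fintype V] [DecidableEq V] (u f : V → ℝ) :
    (u ⬝ᵥ f) ^ 2 ≤ (u ⬝ᵥ u) * (f ⬝ᵥ f) := by
  have := Finset.sum_mul_sq_le_sq_mul_sq (Finset.univ : Finset V) u f
  simpa [dotProduct, sq] using this

theorem Q2_qf {V : Type} [Fintype V] [DecidableEq V] (M R : Matrix V V ℝ) (hM : Mᵀ = M) (hR : IsPr R) (p : ℕ)
    (f : V → ℝ) :
    qf (R * M ^ (2 * p) * R) f = (M ^ p *ᵥ (R *ᵥ f)) ⬝ᵥ (M ^ p *ᵥ (R *ᵥ f)) := by
  have hMp : (M ^ p)ᵀ = M ^ p := by rw [Matrix.transpose_pow, hM]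
  unfold qf
  rw [two_mul, pow_add, ← Matrix.mulVec_mulVec, ← Matrix.mulVec_mulVec, ← Matrix.mulVec_mulVec,
    Q2_symm R hR.1, Q2_symm (M ^ p) hMp]

theorem Q2_step {V : Type} [Fintype V] [DecidableEq V] (M : Matrix V V ℝ) (hM : Mᵀ = M) (c : ℝ) (hc : 0 ≤ c)
    (f : V → ℝ) (h : c * (f ⬝ᵥ f) ≤ qf M f) (j : ℕ) :
    c ^ 2 * ((M ^ j *ᵥ f) ⬝ᵥ (M ^ j *ᵥ f)) ≤ (M ^ (j + 1) *ᵥ f) ⬝ᵥ (M ^ (j + 1) *ᵥ f) := by
  induction j with
  | zero =>
    rw [pow_zero, Matrix.one_mulVec, zero_add, pow_one]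
    have h0 : 0 ≤ f ⬝ᵥ f := dot_self_nonneg f
    have h1 := Q2_cs f (M *ᵥ f)
    have h2 : qf M f = f ⬝ᵥ (M *ᵥ f) := rfl
    rw [← h2] at h1
    have h3 : (c * (f ⬝ᵥ f)) ^ 2 ≤ (qf M f) ^ 2 := pow_le_pow_left₀ (mul_nonneg hc h0) h 2
    rcases h0.lt_or_eq with hpos | hzero
    · have h4 : (c ^ 2 * (f ⬝ᵥ f)) * (f ⬝ᵥ f) ≤ ((M *ᵥ f) ⬝ᵥ (M *ᵥ f)) * (f ⬝ᵥ f) := by
        calc (c ^ 2 * (f ⬝ᵥ f)) * (f ⬝ᵥ f) = (c * (f ⬝ᵥ f)) ^ 2 := by ring
          _ ≤ (qf M f) ^ 2 := h3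
          _ ≤ (f ⬝ᵥ f) * ((M *ᵥ f) ⬝ᵥ (M *ᵥ f)) := h1
          _ = ((M *ᵥ f) ⬝ᵥ (M *ᵥ f)) * (f ⬝ᵥ f) := mul_comm _ _
      exact le_of_mul_le_mul_right h4 hpos
    · rw [← hzero, mul_zero]
      exact dot_self_nonneg _
  | succ j ih =>
    have hMp : (M ^ (j + 1))ᵀ = M ^ (j + 1) := by rw [Matrix.transpose_pow, hM]
    obtain ⟨x, hx⟩ : ∃ x, x = (M ^ j *ᵥ f) ⬝ᵥ (M ^ j *ᵥ f) := ⟨_, rfl⟩
    obtain ⟨y, hy⟩ : ∃ y, y = (M ^ (j + 1) *ᵥ f) ⬝ᵥ (M ^ (j + 1) *ᵥ f) := ⟨_, rfl⟩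
    obtain ⟨z, hz⟩ : ∃ z, z = (M ^ (j + 1 + 1) *ᵥ f) ⬝ᵥ (M ^ (j + 1 + 1) *ᵥ f) := ⟨_, rfl⟩
    have hcs := Q2_cs (M ^ j *ᵥ f) (M ^ (j + 1 + 1) *ᵥ f)
    have e : (M ^ j *ᵥ f) ⬝ᵥ (M ^ (j + 1 + 1) *ᵥ f) = (M ^ (j + 1) *ᵥ f) ⬝ᵥ (M ^ (j + 1) *ᵥ f) := by
      rw [pow_succ' M (j + 1), ← Matrix.mulVec_mulVec, Q2_symm M hM, Matrix.mulVec_mulVec, ← pow_succ']
    rw [e] at hcs
    have hy0 : 0 ≤ y := by rw [hy]; exact dot_self_nonneg _
    have hz0 : 0 ≤ z := by rw [hz]; exact dot_self_nonneg _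
    rw [← hx, ← hy] at ih
    rw [← hx, ← hy, ← hz] at hcs
    rw [← hy, ← hz]
    rcases hy0.lt_or_eq with hpos | hzero
    · have h4 : (c ^ 2 * y) * y ≤ z * y := by
        calc (c ^ 2 * y) * y = c ^ 2 * y ^ 2 := by ring
          _ ≤ c ^ 2 * (x * z) := mul_le_mul_of_nonneg_left hcs (sq_nonneg c)
          _ = (c ^ 2 * x) * z := by ring
          _ ≤ y * z := mul_le_mul_of_nonneg_right ih hz0
          _ = z * y := mul_comm _ _
      exact le_of_mul_le_mul_right h4 hpos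
    · rw [← hzero, mul_zero]
      exact hz0

theorem Q2_pow {V : Type} [Fintype V] [DecidableEq V] (M : Matrix V V ℝ) (hM : Mᵀ = M) (c : ℝ) (hc : 0 ≤ c)
    (f : V → ℝ) (h : c * (f ⬝ᵥ f) ≤ qf M f) (p : ℕ) :
    c ^ (2 * p) * (f ⬝ᵥ f) ≤ (M ^ p *ᵥ f) ⬝ᵥ (M ^ p *ᵥ f) := by
  induction p with
  | zero => simp
  | succ p ih =>
    refine le_trans ?_ (Q2_step M hM c hc f h p)
    calc c ^ (2 * (p + 1)) * (f ⬝ᵥ f) = c ^ 2 * (c ^ (2 * p) * (f ⬝ᵥ f)) := by ring
      _ ≤ _ := mul_le_mul_of_nonneg_left ih (sq_nonneg c)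

/-- A subspace on which the form of `M` is at least `c` has dimension at most `c^(-2p) tr(Q M^(2p))`. -/
theorem pow_mul_trace_le {V : Type} [Fintype V] [DecidableEq V] (M Q P : Matrix V V ℝ) (c : ℝ) (hc : 0 ≤ c)
    (hM : Mᵀ = M) (hQ : IsPr Q) (hcm : Commute M Q) (hP : IsPr P) (hPQ : Q * P = P)
    (h : ∀ f, P *ᵥ f = f → c * (f ⬝ᵥ f) ≤ qf M f) (p : ℕ) :
    c ^ (2 * p) * P.trace ≤ (Q * M ^ (2 * p)).trace := by
  have hPQ' : P * Q = P := by
    have := congrArg Matrix.transpose hPQ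
    rwa [Matrix.transpose_mul, hQ.1, hP.1] at this
  have hR : IsPr (Q - P) := by
    refine ⟨by rw [Matrix.transpose_sub, hQ.1, hP.1], ?_⟩
    rw [Matrix.sub_mul, Matrix.mul_sub, Matrix.mul_sub, hQ.2, hP.2, hPQ, hPQ', sub_self, sub_zero]
  have hcyc : ∀ R : Matrix V V ℝ, IsPr R → (R * M ^ (2 * p) * R).trace = (R * M ^ (2 * p)).trace := by
    intro R hR
    rw [Matrix.trace_mul_comm (R * M ^ (2 * p)) R, ← Matrix.mul_assoc, hR.2]
  have h1 : 0 ≤ (P * M ^ (2 * p) * P - c ^ (2 * p) • P).trace := by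
    apply trace_nonneg_of_qf
    intro f
    rw [qf_sub, qf_smul, Q2_qf M P hM hP, qf_pr hP]
    have hPf : P *ᵥ (P *ᵥ f) = P *ᵥ f := by rw [Matrix.mulVec_mulVec, hP.2]
    have := Q2_pow M hM c hc (P *ᵥ f) (h _ hPf) p
    linarith only [this]
  have h2 : 0 ≤ ((Q - P) * M ^ (2 * p) * (Q - P)).trace := by
    apply trace_nonneg_of_qf
    intro f
    rw [Q2_qf M (Q - P) hM hR]
    exact dot_self_nonneg _
  rw [Matrix.trace_sub, Matrix.trace_smul, smul_eq_mul, hcyc P hP] at h1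
  rw [hcyc (Q - P) hR, Matrix.sub_mul, Matrix.trace_sub] at h2
  linarith only [h1, h2]

end Pool.Agent.BC5
end

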