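import Pool.Agent.Lib.MP_bc5a73_al.Spectral

section
set_option autoImplicit false
set_option linter.unusedSectionVars false
set_option linter.unusedVariables false
open scoped BigOperators Matrix
open Matrix
namespace Pool.Agent.BC5

/-- The bound for the norm on the blocks of level at most `2^a`. -/
noncomputable def tauA (n a : ℕ) : ℝ := 11 / 16 - (2 : ℝ) ^ (-(a : ℝ) / 16) / 16 + a / (64 * Real.log n)

/-- Norm bound on the blocks of level at most `2^a`. -/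
def NL {n N : ℕ} (x : Fin N × Fin 2560 → Alt n) (a : ℕ) (θ v : ℝ) : Prop :=
  ∀ E, IsBlock E → E ≠ Jm (Alt n) → LevLe (2 ^ a) E → NormP x E θ v

end Pool.Agent.BC5
end

section
set_option autoImplicit false
set_option linter.unusedSectionVars false
set_option linter.unusedVariables false
open scoped BigOperators Matrix
open Matrix
namespace Pool.Agent.BC5


theorem U3_log {n : ℕ} (hn : 3 ≤ n) : 1 ≤ Real.log n := by
  have h3 : (3 : ℝ) ≤ n := by exact_mod_cast hn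
  rw [Real.le_log_iff_exp_le (by linarith)]
  exact (Real.exp_one_lt_d9.le.trans (by norm_num)).trans h3

theorem tauA_bounds : ∃ n0 : ℕ, ∀ n a : ℕ, n0 ≤ n → (a : ℝ) ≤ 3 / 2 * (Real.log n / Real.log 2) →
    5 / 8 ≤ tauA n a ∧ tauA n a ≤ 3 / 4 := by
  refine ⟨3, fun n a hn ha => ?_⟩
  have hL : 1 ≤ Real.log n := U3_log hn
  have hL0 : 0 < Real.log n := by linarith
  have h2 : 0.6931471803 < Real.log 2 := Real.log_two_gt_d9
  have h20 : 0 < Real.log 2 := by linarith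
  have ha0 : (0 : ℝ) ≤ a := Nat.cast_nonneg a
  have hr0 : (0 : ℝ) < (2 : ℝ) ^ (-(a : ℝ) / 16) := Real.rpow_pos_of_pos (by norm_num) _
  have hr1 : (2 : ℝ) ^ (-(a : ℝ) / 16) ≤ 1 :=
    Real.rpow_le_one_of_one_le_of_nonpos (by norm_num) (by linarith)
  have hq0 : 0 ≤ (a : ℝ) / (64 * Real.log n) := by positivity
  have hq1 : (a : ℝ) / (64 * Real.log n) ≤ 1 / 16 := by
    rw [div_le_iff₀ (by positivity)]
    have h3 : Real.log n / Real.log 2 ≤ Real.log n * (8 / 3) := by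
      rw [div_le_iff₀ h20]
      nlinarith
    linarith
  unfold tauA
  constructor <;> linarith

theorem round_cost : ∃ a1 : ℕ, 32 ≤ a1 ∧ ∃ C1 : ℝ, 1 ≤ C1 ∧ ∃ n0 : ℕ, ∀ n N a h : ℕ, n0 ≤ n → C1 * Real.log n ≤ N →
    a1 ≤ a → 1 ≤ h → (h : ℝ) ≤ N * (2 : ℝ) ^ (-(a : ℝ) / 16) / 1024 + 1 →
    tauA n a + ((2 : ℝ) ^ (-(a : ℝ) / 16) / 64 + 24 / Real.log n) + 12 * h / N + ((a + a / 2 + 1 : ℕ) : ℝ) * (12 / N)
      ≤ tauA n (a + a / 2) ∧
    N * (tauA n a + 1 / 4) + h + ((a + a / 2 + 1 : ℕ) : ℝ) ≤ N * (tauA n (a + a / 2) + 1 / 4) := by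
  refine ⟨6200, by norm_num, 4608, by norm_num, 3, fun n N a h hn hN ha hh hhN => ?_⟩
  have hL : 1 ≤ Real.log n := U3_log hn
  have hL0 : 0 < Real.log n := by linarith
  have hN0 : (0 : ℝ) < N := by nlinarith
  have har : (6200 : ℝ) ≤ a := by exact_mod_cast ha
  have hr0 : (0 : ℝ) < (2 : ℝ) ^ (-(a : ℝ) / 16) := Real.rpow_pos_of_pos (by norm_num) _
  set r := (2 : ℝ) ^ (-(a : ℝ) / 16) with hr
  have hb1 : 16 ≤ a / 2 := by omega
  have hb1r : (16 : ℝ) ≤ ((a / 2 : ℕ) : ℝ) := by exact_mod_cast hb1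
  have hb2 : (a : ℝ) - 1 ≤ 2 * ((a / 2 : ℕ) : ℝ) := by
    have : a ≤ 2 * (a / 2) + 1 := by omega
    have h' : (a : ℝ) ≤ 2 * ((a / 2 : ℕ) : ℝ) + 1 := by exact_mod_cast this
    linarith
  have hb3 : 2 * ((a / 2 : ℕ) : ℝ) ≤ a := by
    have : 2 * (a / 2) ≤ a := by omega
    exact_mod_cast this
  have hr' : (2 : ℝ) ^ (-((a + a / 2 : ℕ) : ℝ) / 16) ≤ r / 2 := by
    have h1 : -((a + a / 2 : ℕ) : ℝ) / 16 = -(a : ℝ) / 16 + (-((a / 2 : ℕ) : ℝ) / 16) := by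
      push_cast
      ring
    rw [h1, Real.rpow_add (by norm_num)]
    have h2 : (2 : ℝ) ^ (-((a / 2 : ℕ) : ℝ) / 16) ≤ (2 : ℝ) ^ (-1 : ℝ) :=
      Real.rpow_le_rpow_of_exponent_le (by norm_num) (by linarith)
    have h3 : (2 : ℝ) ^ (-1 : ℝ) = 1 / 2 := by
      rw [Real.rpow_neg_one]; norm_num
    rw [h3] at h2
    rw [← hr]
    nlinarith
  have hdiff : r / 32 + ((a : ℝ) - 1) / (128 * Real.log n) ≤ tauA n (a + a / 2) - tauA n a := by
    unfold tauA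
    rw [← hr]
    have h1 : ((a + a / 2 : ℕ) : ℝ) / (64 * Real.log n) - (a : ℝ) / (64 * Real.log n) =
        (2 * ((a / 2 : ℕ) : ℝ)) / (128 * Real.log n) := by
      push_cast
      field_simp
      ring
    have h2 : ((a : ℝ) - 1) / (128 * Real.log n) ≤ (2 * ((a / 2 : ℕ) : ℝ)) / (128 * Real.log n) := by
      apply div_le_div_of_nonneg_right hb2 (by positivity)
    linarith
  have hc1 : 12 * (h : ℝ) / N ≤ 12 * r / 1024 + 12 / N := by
    rw [div_le_iff₀ hN0]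
    have : (12 * r / 1024 + 12 / (N : ℝ)) * N = 12 * (N * r / 1024) + 12 := by
      field_simp
      try ring
    rw [this]
    linarith
  have hc2 : ((a + a / 2 + 1 : ℕ) : ℝ) * (12 / N) ≤ (18 * (a : ℝ) + 12) / N := by
    rw [mul_div_assoc', div_le_div_iff_of_pos_right hN0]
    push_cast
    linarith
  have hc3 : (18 * (a : ℝ) + 24) / N ≤ (18 * (a : ℝ) + 24) / (4608 * Real.log n) := by
    apply div_le_div_of_nonneg_left (by positivity) (by positivity) hN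
  have hc4 : 24 / Real.log n + (18 * (a : ℝ) + 24) / (4608 * Real.log n) ≤
      ((a : ℝ) - 1) / (128 * Real.log n) := by
    have h1 : 24 / Real.log n + (18 * (a : ℝ) + 24) / (4608 * Real.log n) =
        (24 + (18 * (a : ℝ) + 24) / 4608) / Real.log n := by
      field_simp
    have h2 : ((a : ℝ) - 1) / (128 * Real.log n) = (((a : ℝ) - 1) / 128) / Real.log n := by
      field_simp
    rw [h1, h2]
    apply div_le_div_of_nonneg_right _ hL0.le
    linarith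
  have hc5 : 12 / (N : ℝ) + (18 * (a : ℝ) + 12) / N = (18 * (a : ℝ) + 24) / N := by
    rw [← add_div]
    ring
  have hfirst : tauA n a + (r / 64 + 24 / Real.log n) + 12 * h / N + ((a + a / 2 + 1 : ℕ) : ℝ) * (12 / N)
      ≤ tauA n (a + a / 2) := by
    linarith
  refine ⟨hfirst, ?_⟩
  have h1 := mul_le_mul_of_nonneg_left hfirst hN0.le
  have h2 : (N : ℝ) * (tauA n a + (r / 64 + 24 / Real.log n) + 12 * h / N + ((a + a / 2 + 1 : ℕ) : ℝ) * (12 / N)) =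
      N * tauA n a + N * (r / 64 + 24 / Real.log n) + 12 * h + 12 * ((a + a / 2 + 1 : ℕ) : ℝ) := by
    field_simp
    try ring
  rw [h2] at h1
  have h3 : 0 ≤ (N : ℝ) * (r / 64 + 24 / Real.log n) := by positivity
  have h4 : (0 : ℝ) ≤ ((a + a / 2 + 1 : ℕ) : ℝ) := Nat.cast_nonneg _
  have h5 : (0 : ℝ) ≤ h := Nat.cast_nonneg _
  nlinarith

end Pool.Agent.BC5
end

section
set_option autoImplicit false
set_option linter.unusedSectionVars false
set_option linter.unusedVariables false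
open scoped BigOperators Matrix
open Matrix
namespace Pool.Agent.BC5


theorem U4_large (C : ℝ) : ∃ a1 : ℕ, ∀ a : ℕ, a1 ≤ a → C ≤ (2 : ℝ) ^ ((a : ℝ) / 16) := by
  refine ⟨16 * ⌈C⌉₊, fun a ha => ?_⟩
  have h1 : C ≤ (⌈C⌉₊ : ℝ) := Nat.le_ceil C
  have h2 : (⌈C⌉₊ : ℝ) ≤ (2 : ℝ) ^ (⌈C⌉₊ : ℕ) := by
    exact_mod_cast (Nat.lt_two_pow_self (n := ⌈C⌉₊)).le
  have h3 : (⌈C⌉₊ : ℝ) ≤ (a : ℝ) / 16 := by
    have : ((16 * ⌈C⌉₊ : ℕ) : ℝ) ≤ (a : ℝ) := by exact_mod_cast ha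
    push_cast at this
    linarith
  calc C ≤ (2 : ℝ) ^ (⌈C⌉₊ : ℕ) := h1.trans h2
    _ = (2 : ℝ) ^ ((⌈C⌉₊ : ℕ) : ℝ) := by rw [Real.rpow_natCast]
    _ ≤ (2 : ℝ) ^ ((a : ℝ) / 16) := Real.rpow_le_rpow_of_exponent_le (by norm_num) h3

theorem U4_X16 (a : ℕ) : ((2 : ℝ) ^ ((a : ℝ) / 16)) ^ 16 = (2 : ℝ) ^ a := by
  rw [← Real.rpow_natCast, ← Real.rpow_mul (by norm_num : (0 : ℝ) ≤ 2), ← Real.rpow_natCast]
  congr 1
  push_cast
  ring

theorem U4_sqrt (a : ℕ) : Real.sqrt ((2 ^ (a + a / 2) : ℕ) : ℝ) ≤ ((2 : ℝ) ^ ((a : ℝ) / 16)) ^ 12 := by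
  have hX0 : (0 : ℝ) < (2 : ℝ) ^ ((a : ℝ) / 16) := Real.rpow_pos_of_pos (by norm_num) _
  set X : ℝ := (2 : ℝ) ^ ((a : ℝ) / 16) with hX
  have h16 : X ^ 16 = (2 : ℝ) ^ a := U4_X16 a
  rw [Real.sqrt_le_iff]
  refine ⟨by positivity, ?_⟩
  have h24 : ((2 ^ (a + a / 2) : ℕ) : ℝ) ^ 2 ≤ ((X ^ 12) ^ 2) ^ 2 := by
    have e1 : ((X ^ 12) ^ 2) ^ 2 = (2 : ℝ) ^ (3 * a) := by
      calc ((X ^ 12) ^ 2) ^ 2 = (X ^ 16) ^ 3 := by ring
        _ = (2 : ℝ) ^ (3 * a) := by rw [h16, ← pow_mul]; ring_nf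
    rw [e1]
    push_cast
    rw [← pow_mul]
    exact pow_le_pow_right₀ (by norm_num) (by omega)
  exact (pow_le_pow_iff_left₀ (by positivity) (by positivity) (by norm_num)).1 h24

theorem round_failure (κ : ℝ) (hκ : 0 < κ) (hκ1 : κ ≤ 1 / 20) : ∃ a1 : ℕ, ∃ n0 : ℕ, ∀ n N a : ℕ, n0 ≤ n →
    Real.log n ≤ N → a1 ≤ a → 2 ^ a < n → ∀ (h q : ℕ), N * (2 : ℝ) ^ (-(a : ℝ) / 16) / 1024 ≤ h →
    q = ⌊((2 : ℝ) ^ (-(a : ℝ) / 16) / 64 + 24 / Real.log n) * κ * ((2 ^ a : ℕ) : ℝ) / 8⌋₊ →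
    640 ≤ q ∧ 46 ≤ ((2 : ℝ) ^ (-(a : ℝ) / 16) / 64 + 24 / Real.log n) * κ * ((2 ^ a : ℕ) : ℝ) ∧
    (2 : ℝ) ^ (-(a : ℝ) / 16) / 64 + 24 / Real.log n ≤ 1 / 8 ∧
    (n : ℝ) ^ (2 * 2 ^ (a + a / 2)) < 2 ^ (2 ^ (a + a / 2 + 1) * (2 * h * q)) ∧
    Real.exp (24 * Real.sqrt ((2 ^ (a + a / 2) : ℕ) : ℝ) * Real.log n) *
      ((((a + a / 2 + 1 : ℕ) : ℝ) + 1) * (4 ^ (N + 1) * (1 / 2 : ℝ) ^ (4 * h * q))) ≤ 1 / (n : ℝ) ^ 3 := by
  obtain ⟨a1, ha1⟩ := U4_large (72 * 2 ^ 18 / κ)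
  refine ⟨a1, ⌈Real.exp 240⌉₊, ?_⟩
  intro n N a hn hN haa h2a h q hh hq
  have hX := ha1 a haa
  have h16 := U4_X16 a
  have hsq := U4_sqrt a
  have hX0 : (0 : ℝ) < (2 : ℝ) ^ ((a : ℝ) / 16) := Real.rpow_pos_of_pos (by norm_num) _
  have hr : (2 : ℝ) ^ (-(a : ℝ) / 16) = ((2 : ℝ) ^ ((a : ℝ) / 16))⁻¹ := by
    rw [neg_div, Real.rpow_neg (by norm_num)]
  have hcast : ((2 ^ a : ℕ) : ℝ) = ((2 : ℝ) ^ ((a : ℝ) / 16)) ^ 16 := by rw [h16]; push_cast; rfl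
  rw [hr] at hh hq ⊢
  rw [hcast] at hq ⊢
  generalize (2 : ℝ) ^ ((a : ℝ) / 16) = X at *
  -- size of X
  have hκX : 72 * 2 ^ 18 ≤ X * κ := (div_le_iff₀ hκ).1 hX
  have hX1 : (1 : ℝ) ≤ X := by
    have := mul_le_mul_of_nonneg_left hκ1 hX0.le
    linarith
  -- size of log n
  have hnpos : (0 : ℝ) < n := by
    have : 0 < n := lt_of_le_of_lt (Nat.zero_le _) h2a
    exact_mod_cast this
  have hexp : Real.exp 240 ≤ n := (Nat.le_ceil _).trans (by exact_mod_cast hn)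
  have hL : (240 : ℝ) ≤ Real.log n := by
    rw [Real.le_log_iff_exp_le hnpos]; exact hexp
  have haL : (a : ℝ) * Real.log 2 ≤ Real.log n := by
    rw [← Real.log_pow]
    apply Real.log_le_log (by positivity)
    exact_mod_cast h2a.le
  have hl2 : (0.6931 : ℝ) < Real.log 2 := by linarith [Real.log_two_gt_d9]
  have hl2' : Real.log 2 < (0.6932 : ℝ) := by linarith [Real.log_two_lt_d9]
  generalize hLd : Real.log (n : ℝ) = L at *
  have hN0 : (240 : ℝ) ≤ N := hL.trans hN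
  -- powers of X
  have hX2 : X ≤ X ^ 2 := by
    have := mul_le_mul_of_nonneg_left hX1 hX0.le
    rw [sq]; linarith
  have hX12 : 1 ≤ X ^ 12 := one_le_pow₀ hX1
  have hX14 : κ * X ^ 14 ≥ 72 * 2 ^ 18 * X ^ 12 := by
    have : κ * X ^ 14 = (X ^ 2 * κ) * X ^ 12 := by ring
    rw [this]
    have h2 : 72 * 2 ^ 18 ≤ X ^ 2 * κ := hκX.trans (mul_le_mul_of_nonneg_right hX2 hκ.le)
    exact mul_le_mul_of_nonneg_right h2 (by positivity)
  have hX15 : κ * X ^ 15 ≥ κ * X ^ 14 := by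
    have : κ * X ^ 15 = κ * X ^ 14 * X := by ring
    rw [this]
    exact le_mul_of_one_le_right (by positivity) hX1
  have hX14' : κ * X ^ 14 ≥ 72 * 2 ^ 18 := by linarith
  have h24 : (0 : ℝ) ≤ 24 / L := by positivity
  have hA : κ * X ^ 15 / 64 ≤ (X⁻¹ / 64 + 24 / L) * κ * X ^ 16 := by
    have e : (X⁻¹ / 64 + 24 / L) * κ * X ^ 16 = κ * X ^ 15 / 64 + 24 / L * κ * X ^ 16 := by
      field_simp
    rw [e]
    have : 0 ≤ 24 / L * κ * X ^ 16 := by positivity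
    linarith
  have hq1 : κ * X ^ 15 / 512 - 1 ≤ q := by
    have : (X⁻¹ / 64 + 24 / L) * κ * X ^ 16 / 8 < q + 1 := by
      rw [hq]; exact Nat.lt_floor_add_one _
    linarith
  have hq2 : κ * X ^ 15 / 1024 ≤ q := by linarith
  have hhq : N * (κ * X ^ 14) / 2 ^ 20 ≤ (h : ℝ) * q := by
    have e : N * (κ * X ^ 14) / 2 ^ 20 = (N * X⁻¹ / 1024) * (κ * X ^ 15 / 1024) := by
      field_simp
      norm_num
    rw [e]
    exact mul_le_mul hh hq2 (by positivity) (by positivity)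
  refine ⟨?_, ?_, ?_, ?_, ?_⟩
  · have : (640 : ℝ) ≤ q := by linarith
    exact_mod_cast this
  · linarith
  · have h1 : X⁻¹ ≤ 1 := inv_le_one_of_one_le₀ hX1
    have h2 : 24 / L ≤ 1 / 10 := by
      rw [div_le_div_iff₀ (by linarith) (by norm_num)]; linarith
    linarith
  · have hlt : (2 * 2 ^ (a + a / 2) : ℝ) * L < (2 ^ (a + a / 2 + 1) * (2 * h * q) : ℝ) * Real.log 2 := by
      have hP : (0 : ℝ) < 2 ^ (a + a / 2) := by positivity
      have e1 : (2 ^ (a + a / 2 + 1) * (2 * h * q) : ℝ) * Real.log 2 = (2 * 2 ^ (a + a / 2)) * ((2 * (h * q)) * Real.log 2) := by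
        rw [pow_succ]; ring
      rw [e1]
      apply mul_lt_mul_of_pos_left _ (by positivity)
      have h1 : (N : ℝ) * 18 ≤ h * q := by
        refine le_trans ?_ hhq
        have : (N : ℝ) * (72 * 2 ^ 18) ≤ N * (κ * X ^ 14) := mul_le_mul_of_nonneg_left hX14' (by linarith)
        linarith
      have h2 : (h * q : ℝ) * 0.6931 ≤ h * q * Real.log 2 := mul_le_mul_of_nonneg_left hl2.le (by positivity)
      linarith
    rw [← Real.log_lt_log_iff (by positivity) (by positivity), Real.log_pow, Real.log_pow, hLd]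
    push_cast
    linarith
  · have hmain : 24 * Real.sqrt ((2 ^ (a + a / 2) : ℕ) : ℝ) * L + ((a + a / 2 + 1 : ℕ) : ℝ) + ((N : ℝ) + 1) * (2 * Real.log 2) + 3 * L
        ≤ (4 * h * q) * Real.log 2 := by
      have hn0 : (0 : ℝ) ≤ N := by linarith
      have t1 : 24 * Real.sqrt ((2 ^ (a + a / 2) : ℕ) : ℝ) * L ≤ 24 * X ^ 12 * N := by
        have : Real.sqrt ((2 ^ (a + a / 2) : ℕ) : ℝ) * L ≤ X ^ 12 * N :=
          mul_le_mul hsq hN (by linarith) (by positivity)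
        linarith
      have t2 : ((a + a / 2 + 1 : ℕ) : ℝ) ≤ 4 * N := by
        have hdiv : ((a / 2 : ℕ) : ℝ) ≤ (a : ℝ) / 2 := Nat.cast_div_le
        push_cast
        have : (a : ℝ) * 0.6931 ≤ L := by
          refine le_trans ?_ haL
          exact mul_le_mul_of_nonneg_left hl2.le (by positivity)
        linarith
      have t3 : ((N : ℝ) + 1) * (2 * Real.log 2) ≤ 3 * N := by
        have : ((N : ℝ) + 1) * (2 * Real.log 2) ≤ ((N : ℝ) + 1) * (2 * 0.6932) := by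
          apply mul_le_mul_of_nonneg_left _ (by linarith)
          linarith
        linarith
      have t4 : (4 * h * q : ℝ) * Real.log 2 ≥ 2 * (h * q) := by
        have : (h * q : ℝ) * 0.6931 ≤ h * q * Real.log 2 := mul_le_mul_of_nonneg_left hl2.le (by positivity)
        have h0 : (0 : ℝ) ≤ h * q := by positivity
        linarith
      have t5 : (N : ℝ) * (72 * 2 ^ 18 * X ^ 12) ≤ N * (κ * X ^ 14) := mul_le_mul_of_nonneg_left hX14 hn0
      have t6 : (N : ℝ) ≤ X ^ 12 * N := le_mul_of_one_le_left hn0 hX12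
      linarith
    have hlogle : ((a + a / 2 + 1 : ℕ) : ℝ) + 1 ≤ Real.exp ((a + a / 2 + 1 : ℕ) : ℝ) := Real.add_one_le_exp _
    have h4 : (4 : ℝ) ^ (N + 1) = Real.exp (((N : ℝ) + 1) * (2 * Real.log 2)) := by
      have : (4 : ℝ) = Real.exp (2 * Real.log 2) := by
        rw [two_mul, Real.exp_add, Real.exp_log (by norm_num)]; norm_num
      rw [this, ← Real.exp_nat_mul]
      push_cast; rfl
    have hhalf : (1 / 2 : ℝ) ^ (4 * h * q) = Real.exp (-((4 * h * q) * Real.log 2)) := by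
      have : (1 / 2 : ℝ) = Real.exp (-Real.log 2) := by
        rw [Real.exp_neg, Real.exp_log (by norm_num)]; norm_num
      rw [this, ← Real.exp_nat_mul]
      push_cast; ring_nf
    have hn3 : 1 / (n : ℝ) ^ 3 = Real.exp (-(3 * L)) := by
      rw [Real.exp_neg, one_div]
      congr 1
      have : (n : ℝ) = Real.exp L := by rw [← hLd, Real.exp_log hnpos]
      rw [this, ← Real.exp_nat_mul]
      norm_num
    rw [h4, hhalf, hn3]
    calc Real.exp (24 * Real.sqrt ((2 ^ (a + a / 2) : ℕ) : ℝ) * L) *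
        ((((a + a / 2 + 1 : ℕ) : ℝ) + 1) * (Real.exp (((N : ℝ) + 1) * (2 * Real.log 2)) * Real.exp (-((4 * h * q) * Real.log 2))))
        ≤ Real.exp (24 * Real.sqrt ((2 ^ (a + a / 2) : ℕ) : ℝ) * L) *
        (Real.exp ((a + a / 2 + 1 : ℕ) : ℝ) * (Real.exp (((N : ℝ) + 1) * (2 * Real.log 2)) * Real.exp (-((4 * h * q) * Real.log 2)))) := by
          gcongr
      _ = Real.exp (24 * Real.sqrt ((2 ^ (a + a / 2) : ℕ) : ℝ) * L + ((a + a / 2 + 1 : ℕ) : ℝ) + ((N : ℝ) + 1) * (2 * Real.log 2)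
          - (4 * h * q) * Real.log 2) := by
          rw [← Real.exp_add, ← Real.exp_add, ← Real.exp_add]
          congr 1
          ring
      _ ≤ Real.exp (-(3 * L)) := by
          apply Real.exp_le_exp.2
          linarith

end Pool.Agent.BC5
end

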