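import Pool.Agent.Lib.MP_bc5a73_al.AllNorm
import Pool.Agent.Lib.MP_bc5a73_al.Moments
import Pool.Agent.Lib.MP_bc5a73_al.BlockCount
import Pool.Agent.Lib.MP_bc5a73_al.LogNum

section
set_option autoImplicit false
set_option linter.unusedSectionVars false
set_option linter.unusedVariables false
open scoped BigOperators Matrix
open Matrix
namespace Pool.Agent.BC5


theorem base_level {n N : ℕ} (hn : 3 ≤ n) (k v0 : ℕ) (hk : 1 ≤ k) (hv0 : 1 ≤ v0)
    (hD : (n : ℝ) ^ (2 * k) < 2 ^ (10 * v0)) :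
    frac (fun x : Fin N × Fin 2560 → Alt n => ¬ ∀ E, IsBlock E → E ≠ Jm (Alt n) → LevLe k E → NormP x E (1 / 2) v0)
      ≤ (n : ℝ) ^ k * (2 ^ N * (1 / 4 : ℝ) ^ (5 * v0)) := by
  classical
  obtain ⟨B, hB, -⟩ := exists_blocks (Alt n)
  let B' : Finset (Matrix (Alt n) (Alt n) ℝ) := B.filter (fun E => E ≠ Jm (Alt n) ∧ LevLe k E)
  have hB' : ∀ E ∈ B', IsBlock E ∧ E ≠ Jm (Alt n) ∧ LevLe k E := by
    intro E hE
    obtain ⟨h1, h2⟩ := Finset.mem_filter.1 hE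
    exact ⟨(hB E).1 h1, h2⟩
  have h1 : ∀ x : Fin N × Fin 2560 → Alt n,
      (¬ ∀ E, IsBlock E → E ≠ Jm (Alt n) → LevLe k E → NormP x E (1 / 2) v0) →
      ∃ E ∈ B', ¬ StartP x E (1 / 2) v0 ((1 / 2 : ℝ) ^ (10 * v0)) := by
    intro x hx
    by_contra hcon
    apply hx
    intro E hE hEJ hEL R hR f hf
    have hEB : E ∈ B' := Finset.mem_filter.2 ⟨(hB E).2 hE, hEJ, hEL⟩
    have hS : StartP x E (1 / 2) v0 ((1 / 2 : ℝ) ^ (10 * v0)) := by
      by_contra hS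
      exact hcon ⟨E, hEB, hS⟩
    have htr : (E * spr (AR x R) (1 / 2)).trace < 1 := by
      have h2 := hS R hR
      have h3 := levLe_trace_le hn k hk hE hEL
      have h4 : (0 : ℝ) < (1 / 2 : ℝ) ^ (10 * v0) := by positivity
      have h5 : (1 / 2 : ℝ) ^ (10 * v0) * E.trace ≤ (1 / 2 : ℝ) ^ (10 * v0) * (n : ℝ) ^ (2 * k) :=
        mul_le_mul_of_nonneg_left h3 h4.le
      have h6 : (1 / 2 : ℝ) ^ (10 * v0) * (n : ℝ) ^ (2 * k) < (1 / 2 : ℝ) ^ (10 * v0) * 2 ^ (10 * v0) :=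
        mul_lt_mul_of_pos_left hD h4
      have h7 : (1 / 2 : ℝ) ^ (10 * v0) * 2 ^ (10 * v0) = 1 := by
        rw [← mul_pow]; norm_num
      linarith
    exact spr_abs_qf_le (AR x R) (AU_transpose x (cyl R)) (1 / 2) (by norm_num) E hE.1
      (commute_AU x (cyl R) hE.2.2.1) htr f hf
  have h2 : ((B'.card : ℕ) : ℝ) ≤ (n : ℝ) ^ k :=
    levLe_card_le hn k hk B' (fun E hE => ⟨(hB' E hE).1, (hB' E hE).2.2⟩)
  calc frac (fun x : Fin N × Fin 2560 → Alt n =>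
        ¬ ∀ E, IsBlock E → E ≠ Jm (Alt n) → LevLe k E → NormP x E (1 / 2) v0)
      ≤ frac (fun x : Fin N × Fin 2560 → Alt n => ∃ E ∈ B', ¬ StartP x E (1 / 2) v0 ((1 / 2 : ℝ) ^ (10 * v0))) :=
        frac_mono h1
    _ ≤ ∑ E ∈ B', frac (fun x : Fin N × Fin 2560 → Alt n => ¬ StartP x E (1 / 2) v0 ((1 / 2 : ℝ) ^ (10 * v0))) :=
        frac_exists_le B' _
    _ ≤ ∑ E ∈ B', (2 ^ N * (1 / 4 : ℝ) ^ (5 * v0)) :=
        Finset.sum_le_sum (fun E hE => base_start (hB' E hE).1 (hB' E hE).2.1 v0 hv0)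
    _ = (B'.card : ℝ) * (2 ^ N * (1 / 4 : ℝ) ^ (5 * v0)) := by
        rw [Finset.sum_const, nsmul_eq_mul]
    _ ≤ (n : ℝ) ^ k * (2 ^ N * (1 / 4 : ℝ) ^ (5 * v0)) :=
        mul_le_mul_of_nonneg_right h2 (by positivity)

end Pool.Agent.BC5
end

section
set_option autoImplicit false
set_option linter.unusedSectionVars false
set_option linter.unusedVariables false
open scoped BigOperators Matrix
open Matrix
namespace Pool.Agent.BC5


theorem round_leave {n N : ℕ} (hn : 3 ≤ n) (k k' h q I : ℕ) (hk' : 1 ≤ k') (K θ d δ0 δ v : ℝ) (hh : 1 ≤ h)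
    (hq : 640 ≤ q) (hkk : k ≤ k') (hθ : 0 ≤ θ) (hd : 0 ≤ d) (hδ0 : 0 < δ0) (hθδ : 5 / 8 ≤ θ + d + δ0) (hδ : 0 < δ) (hv0 : 0 ≤ v)
    (h0 : 10 * (h : ℝ) ≤ (v + h) * δ0) (h1 : 10 ≤ v * δ)
    (hstart : ∀ x : Fin N × Fin 2560 → Alt n,
      (∀ E', IsBlock E' → E' ≠ Jm (Alt n) → LevLe k E' → NormP x E' θ v) →
      ∀ E, IsBlock E → ¬ LevLe k E → StartP x E (θ + d) v ((1 / 2 : ℝ) ^ q))
    (hD : (n : ℝ) ^ (2 * k') < 2 ^ (2 ^ I * (2 * h * q)))
    (hcount : ∀ B : Finset (Matrix (Alt n) (Alt n) ℝ), (∀ E ∈ B, IsBlock E ∧ LevLe k' E) → (B.card : ℝ) ≤ K) :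
    frac (fun x : Fin N × Fin 2560 → Alt n =>
      (∀ E', IsBlock E' → E' ≠ Jm (Alt n) → LevLe k E' → NormP x E' θ v) ∧
      ¬ ∀ E', IsBlock E' → E' ≠ Jm (Alt n) → LevLe k' E' → NormP x E' (θ + d + δ0 + I * δ) (v + h + I))
      ≤ K * (((I : ℝ) + 1) * (4 ^ (N + 1) * (1 / 2 : ℝ) ^ (4 * h * q))) := by
  classical
  obtain ⟨B0, hB0, _⟩ := exists_blocks (Alt n)
  obtain ⟨B, hB⟩ : ∃ B : Finset (Matrix (Alt n) (Alt n) ℝ),
      B = B0.filter (fun E => LevLe k' E ∧ ¬ LevLe k E) := ⟨_, rfl⟩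
  have hBm : ∀ E, E ∈ B ↔ IsBlock E ∧ LevLe k' E ∧ ¬ LevLe k E := by
    intro E
    rw [hB, Finset.mem_filter, hB0]
  obtain ⟨bd, hbd⟩ : ∃ bd : ℝ, bd = ((I : ℝ) + 1) * (4 ^ (N + 1) * (1 / 2 : ℝ) ^ (4 * h * q)) :=
    ⟨_, rfl⟩
  have hbd0 : 0 ≤ bd := by rw [hbd]; positivity
  rw [← hbd]
  have hIδ : 0 ≤ (I : ℝ) * δ := mul_nonneg (Nat.cast_nonneg I) hδ.le
  have hI : (0 : ℝ) ≤ I := Nat.cast_nonneg I
  have hh0 : (0 : ℝ) ≤ h := Nat.cast_nonneg h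
  have h2 : frac (fun x : Fin N × Fin 2560 → Alt n =>
      (∀ E', IsBlock E' → E' ≠ Jm (Alt n) → LevLe k E' → NormP x E' θ v) ∧
      ¬ ∀ E', IsBlock E' → E' ≠ Jm (Alt n) → LevLe k' E' →
        NormP x E' (θ + d + δ0 + I * δ) (v + h + I)) ≤
      frac (fun x : Fin N × Fin 2560 → Alt n => ∃ E ∈ B,
        (StartP x E (θ + d) v ((1 / 2 : ℝ) ^ q) ∧ ¬ NormP x E (θ + d + δ0 + I * δ) (v + h + I))) := by
    refine frac_mono fun x hx => ?_
    obtain ⟨hx1, hx2⟩ := hx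
    push Not at hx2
    obtain ⟨E, hE, hEJ, hEk', hEn⟩ := hx2
    have hEk : ¬ LevLe k E := fun hk => hEn
      (NormP.mono (hx1 E hE hEJ hk) (by linarith only [hd, hδ0, hIδ]) (by linarith only [hh0, hI]))
    exact ⟨E, (hBm E).2 ⟨hE, hEk', hEk⟩, hstart x hx1 E hE hEk, hEn⟩
  refine h2.trans ((frac_exists_le B _).trans ?_)
  have h3 : ∀ E ∈ B, frac (fun x : Fin N × Fin 2560 → Alt n =>
      StartP x E (θ + d) v ((1 / 2 : ℝ) ^ q) ∧
        ¬ NormP x E (θ + d + δ0 + I * δ) (v + h + I)) ≤ bd := by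
    intro E hEB
    obtain ⟨hE, hEk', _⟩ := (hBm E).1 hEB
    rw [hbd]
    exact block_norm hE h q I hh hq (θ + d) δ0 δ v (add_nonneg hθ hd) hδ0 hθδ hδ hv0 h0 h1
      (lt_of_le_of_lt (levLe_trace_le hn k' hk' hE hEk') hD)
  have h4 := Finset.sum_le_card_nsmul B _ bd h3
  rw [nsmul_eq_mul] at h4
  refine h4.trans (mul_le_mul_of_nonneg_right (hcount B fun E hE => ?_) hbd0)
  exact ⟨((hBm E).1 hE).1, ((hBm E).1 hE).2.1⟩

end Pool.Agent.BC5
end

section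
set_option autoImplicit false
set_option linter.unusedSectionVars false
set_option linter.unusedVariables false
open scoped BigOperators Matrix
open Matrix
namespace Pool.Agent.BC5


theorem one_round_log : ∃ a0 : ℕ, 2 ≤ a0 ∧ ∃ C1 : ℝ, 1 ≤ C1 ∧ ∃ n0 : ℕ, ∀ n N a : ℕ, n0 ≤ n → C1 * Real.log n ≤ N →
    a0 ≤ a → 2 ^ a < n →
    frac (fun x : Fin N × Fin 2560 → Alt n => NL x a (tauA n a) (N * (tauA n a + 1 / 4)) ∧
      ¬ NL x (a + a / 2) (tauA n (a + a / 2)) (N * (tauA n (a + a / 2) + 1 / 4))) ≤ 1 / (n : ℝ) ^ 3 := by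
  obtain ⟨κ, hκ, hκ1, ns, hstart⟩ := start_of_norm
  obtain ⟨a1, nf, hfail⟩ := round_failure κ hκ hκ1
  obtain ⟨nb, hblk⟩ := block_count
  obtain ⟨a2, ha2, C1, hC1, nc, hcost⟩ := round_cost
  obtain ⟨nt, htau⟩ := tauA_bounds
  refine ⟨max a1 a2 + 2, by omega, C1 + 1, by linarith, max ns (max nf (max nb (max nc (max nt 3)))),
    fun n N a hn hN ha han => ?_⟩
  have hns : ns ≤ n := by omega
  have hnf : nf ≤ n := by omega
  have hnb : nb ≤ n := by omega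
  have hnc : nc ≤ n := by omega
  have hnt : nt ≤ n := by omega
  have hn3 : 3 ≤ n := by omega
  have ha1 : a1 ≤ a := by omega
  have ha2' : a2 ≤ a := by omega
  have hL : 1 ≤ Real.log n := U3_log hn3
  have hL0 : 0 < Real.log n := by linarith
  have hNC : C1 * Real.log n ≤ N := by nlinarith
  have hNL : Real.log n ≤ N := by nlinarith
  have hN2 : (2 : ℝ) ≤ N := by nlinarith
  have hN0 : (0 : ℝ) < N := by linarith
  have h20 : 0 < Real.log 2 := Real.log_pos (by norm_num)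
  have haL : (a : ℝ) ≤ Real.log n / Real.log 2 := by
    rw [le_div_iff₀ h20, ← Real.log_pow]
    apply Real.log_le_log (by positivity)
    exact_mod_cast han.le
  have haL1 : (a : ℝ) ≤ 3 / 2 * (Real.log n / Real.log 2) := by
    have : 0 ≤ Real.log n / Real.log 2 := by positivity
    linarith
  obtain ⟨ht1, ht2⟩ := htau n a hnt haL1
  have hr0 : (0 : ℝ) < (2 : ℝ) ^ (-(a : ℝ) / 16) := Real.rpow_pos_of_pos (by norm_num) _
  obtain ⟨h, hh⟩ : ∃ h : ℕ, h = ⌈(N : ℝ) * (2 : ℝ) ^ (-(a : ℝ) / 16) / 1024⌉₊ := ⟨_, rfl⟩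
  have hpos : 0 < (N : ℝ) * (2 : ℝ) ^ (-(a : ℝ) / 16) / 1024 := by positivity
  have hh1 : 1 ≤ h := by
    rw [hh]
    exact Nat.one_le_iff_ne_zero.2 (Nat.ceil_pos.2 hpos).ne'
  have hh2 : (N : ℝ) * (2 : ℝ) ^ (-(a : ℝ) / 16) / 1024 ≤ h := by
    rw [hh]; exact Nat.le_ceil _
  have hh3 : (h : ℝ) ≤ (N : ℝ) * (2 : ℝ) ^ (-(a : ℝ) / 16) / 1024 + 1 := by
    rw [hh]; exact (Nat.ceil_lt_add_one hpos.le).le
  obtain ⟨q, hq⟩ : ∃ q : ℕ, q = ⌊((2 : ℝ) ^ (-(a : ℝ) / 16) / 64 + 24 / Real.log n) * κ * ((2 ^ a : ℕ) : ℝ) / 8⌋₊ :=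
    ⟨_, rfl⟩
  obtain ⟨f1, f2, f3, f4, f5⟩ := hfail n N a hnf hNL ha1 han h q hh2 hq
  obtain ⟨c1, c2⟩ := hcost n N a h hnc hNC ha2' hh1 hh3
  set d := (2 : ℝ) ^ (-(a : ℝ) / 16) / 64 + 24 / Real.log n with hd
  have hd0 : 0 < d := by positivity
  have hdL : 24 ≤ d * Real.log n := by
    rw [hd, add_mul, div_mul_cancel₀ _ hL0.ne']
    have : 0 ≤ (2 : ℝ) ^ (-(a : ℝ) / 16) / 64 * Real.log n := by positivity
    linarith
  have hv78 : 7 / 8 * (N : ℝ) ≤ N * (tauA n a + 1 / 4) := by nlinarith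
  have hv1 : 1 ≤ (N : ℝ) * (tauA n a + 1 / 4) := by linarith
  have hhr : (1 : ℝ) ≤ h := by exact_mod_cast hh1
  have hδ0 : 0 < 12 * (h : ℝ) / N := by positivity
  have hδ : 0 < 12 / (N : ℝ) := by positivity
  have key := round_leave (n := n) (N := N) hn3 (2 ^ a) (2 ^ (a + a / 2)) h q (a + a / 2 + 1)
    Nat.one_le_two_pow (Real.exp (24 * Real.sqrt ((2 ^ (a + a / 2) : ℕ) : ℝ) * Real.log n))
    (tauA n a) d (12 * h / N) (12 / N) (N * (tauA n a + 1 / 4)) hh1 f1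
    (Nat.pow_le_pow_right (by norm_num) (Nat.le_add_right _ _)) (by linarith) hd0.le hδ0
    (by linarith) hδ (by linarith)
    (by
      have h1 : 7 / 8 * (N : ℝ) * (12 * h / N) = 10.5 * h := by
        field_simp
        norm_num
      have h2 : 7 / 8 * (N : ℝ) * (12 * h / N) ≤ (N * (tauA n a + 1 / 4) + h) * (12 * h / N) := by
        apply mul_le_mul_of_nonneg_right _ hδ0.le
        linarith
      linarith)
    (by
      have h1 : 7 / 8 * (N : ℝ) * (12 / N) = 10.5 := by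
        field_simp
        norm_num
      have h2 : 7 / 8 * (N : ℝ) * (12 / N) ≤ (N * (tauA n a + 1 / 4)) * (12 / N) :=
        mul_le_mul_of_nonneg_right hv78 hδ.le
      linarith)
    (by
      intro x hx E hE hlev
      have := hstart n hns N 2560 (2 ^ a) (tauA n a) d (N * (tauA n a + 1 / 4)) (by norm_num) han.le
        ht1 ht2 hd0 f3 hdL f2 hv1 x hx E hE hlev
      rw [← hq] at this
      exact this)
    f4
    (fun B hB => hblk n hnb (2 ^ (a + a / 2)) Nat.one_le_two_pow B hB)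
  refine (frac_mono ?_).trans (key.trans f5)
  intro x hx
  refine ⟨hx.1, fun hall => hx.2 ?_⟩
  intro E hE hJ hlev
  exact (hall E hE hJ hlev).mono c1 c2

end Pool.Agent.BC5
end

section
set_option autoImplicit false
set_option linter.unusedSectionVars false
set_option linter.unusedVariables false
open scoped BigOperators Matrix
open Matrix
namespace Pool.Agent.BC5


theorem U6_mono {G : Type} [Group G] [Fintype G] [DecidableEq G] {N s : ℕ} {x : Fin N × Fin s → G}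
    {E : Matrix G G ℝ} {θ θ' v v' : ℝ} (h : NormP x E θ v)
    (hθ : θ ≤ θ') (hv : v ≤ v') : NormP x E θ' v' := by
  intro R hR f hf
  refine (h R (hv.trans hR) f hf).trans ?_
  apply mul_le_mul_of_nonneg_right hθ
  unfold dotProduct
  exact Finset.sum_nonneg fun i _ => mul_self_nonneg _

theorem base_log (a0 : ℕ) : ∃ C2 : ℝ, 1 ≤ C2 ∧ ∃ n0 : ℕ, ∀ n N : ℕ, n0 ≤ n → C2 * Real.log n ≤ N →
    frac (fun x : Fin N × Fin 2560 → Alt n => ¬ NL x a0 (tauA n a0) (N * (tauA n a0 + 1 / 4))) ≤ 1 / (n : ℝ) ^ 3 := by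
  obtain ⟨n1, hn1⟩ := tauA_bounds
  refine ⟨2 * (2 : ℝ) ^ a0 + 4, by nlinarith [show (0:ℝ) < (2 : ℝ) ^ a0 by positivity], max (max n1 3) (2 ^ a0), ?_⟩
  intro n N hn hN
  have hn3 : 3 ≤ n := le_trans (le_trans (le_max_right _ _) (le_max_left _ _)) hn
  have hn1' : n1 ≤ n := le_trans (le_trans (le_max_left _ _) (le_max_left _ _)) hn
  have hna : 2 ^ a0 ≤ n := le_trans (le_max_right _ _) hn
  have hnR : (3 : ℝ) ≤ n := by exact_mod_cast hn3
  have hnpos : (0 : ℝ) < n := by linarith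
  have hL1 : 1 ≤ Real.log n := by
    rw [Real.le_log_iff_exp_le hnpos]
    have := Real.exp_one_lt_d9
    linarith
  have hlog2 : (0.6931471803 : ℝ) < Real.log 2 := Real.log_two_gt_d9
  have hlog2' : Real.log 2 < (0.6931471808 : ℝ) := Real.log_two_lt_d9
  have hpow1 : (1 : ℝ) ≤ (2 : ℝ) ^ a0 := one_le_pow₀ (by norm_num)
  -- n ≥ 2 ^ a0
  have ha0 : (a0 : ℝ) * Real.log 2 ≤ Real.log n := by
    rw [← Real.log_pow]
    apply Real.log_le_log (by positivity)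
    exact_mod_cast hna
  have hta := hn1 n a0 hn1' (by
    rw [← mul_div_assoc, le_div_iff₀ (by linarith)]
    nlinarith)
  -- N large
  have hN6 : 6 ≤ N := by
    have h1 : (6 : ℝ) ≤ N := by
      refine le_trans ?_ hN
      nlinarith
    exact_mod_cast h1
  set v0 : ℕ := 7 * N / 8 with hv0
  have hv01 : 1 ≤ v0 := by omega
  have hv0N : (v0 : ℝ) ≤ N * (7 / 8) := by
    have h1 : v0 * 8 ≤ 7 * N := Nat.div_mul_le_self _ _
    have h2 : (v0 : ℝ) * 8 ≤ 7 * N := by exact_mod_cast h1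
    linarith
  -- n ^ e ≤ 4 ^ N
  have key : ∀ e : ℕ, (e : ℝ) ≤ 2 * (2 : ℝ) ^ a0 + 4 → (n : ℝ) ^ e ≤ 2 ^ (2 * N) := by
    intro e he
    have h1 : (n : ℝ) ^ e = Real.exp (e * Real.log n) := by
      rw [mul_comm, Real.exp_mul, Real.exp_log hnpos, Real.rpow_natCast]
    have h2 : (2 : ℝ) ^ (2 * N) = Real.exp (((2 * N : ℕ) : ℝ) * Real.log 2) := by
      rw [mul_comm ((2 * N : ℕ) : ℝ) (Real.log 2), Real.exp_mul, Real.exp_log (by norm_num : (0:ℝ) < 2),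
        Real.rpow_natCast]
    rw [h1, h2, Real.exp_le_exp]
    have h3 : (e : ℝ) * Real.log n ≤ N := le_trans (mul_le_mul_of_nonneg_right he (by linarith)) hN
    have h4 : (N : ℝ) ≤ ((2 * N : ℕ) : ℝ) * Real.log 2 := by
      push_cast
      have : (0 : ℝ) ≤ N := Nat.cast_nonneg _
      nlinarith
    exact h3.trans h4
  have hk : 1 ≤ 2 ^ a0 := Nat.one_le_two_pow
  have hD : (n : ℝ) ^ (2 * 2 ^ a0) < 2 ^ (10 * v0) := by
    refine lt_of_le_of_lt (key (2 * 2 ^ a0) (by push_cast; linarith)) ?_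
    exact pow_lt_pow_right₀ (by norm_num) (by omega)
  have hb := base_level (N := N) hn3 (2 ^ a0) v0 hk hv01 hD
  refine le_trans (frac_mono ?_) (le_trans hb ?_)
  · intro x hx hall
    apply hx
    intro E hE hEJ hlev
    refine U6_mono (hall E hE hEJ hlev) (by linarith [hta.1]) ?_
    refine hv0N.trans ?_
    apply mul_le_mul_of_nonneg_left _ (Nat.cast_nonneg _)
    linarith [hta.1]
  · rw [le_div_iff₀ (by positivity)]
    have h1 := key (2 ^ a0 + 3) (by push_cast; linarith)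
    have h2 : (1 / 4 : ℝ) ^ (5 * v0) * 2 ^ (10 * v0) = 1 := by
      have : (2 : ℝ) ^ (10 * v0) = 4 ^ (5 * v0) := by
        rw [show (4 : ℝ) = 2 ^ 2 by norm_num, ← pow_mul]
        congr 1
        ring
      rw [this, ← mul_pow]
      norm_num
    have h3 : (2 : ℝ) ^ (2 * N) * 2 ^ N ≤ 2 ^ (10 * v0) := by
      rw [← pow_add]
      exact pow_le_pow_right₀ (by norm_num) (by omega)
    calc (n : ℝ) ^ (2 ^ a0) * (2 ^ N * (1 / 4) ^ (5 * v0)) * n ^ 3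
        = (n : ℝ) ^ (2 ^ a0 + 3) * (2 ^ N * (1 / 4) ^ (5 * v0)) := by rw [pow_add]; ring
      _ ≤ 2 ^ (2 * N) * (2 ^ N * (1 / 4) ^ (5 * v0)) := by gcongr
      _ = (2 ^ (2 * N) * 2 ^ N) * (1 / 4) ^ (5 * v0) := by ring
      _ ≤ 2 ^ (10 * v0) * (1 / 4) ^ (5 * v0) := by gcongr
      _ = 1 := by rw [mul_comm]; exact h2

end Pool.Agent.BC5
end

section
set_option autoImplicit false
set_option linter.unusedSectionVars false
set_option linter.unusedVariables false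
open scoped BigOperators Matrix
open Matrix
namespace Pool.Agent.BC5


theorem U7_step {X : Type} [Fintype X] (S : ℕ → X → Prop) (n a0 : ℕ) (ha0 : 2 ≤ a0) (b : ℝ) (hb : 0 ≤ b)
    (h2 : ∀ a, a0 ≤ a → 2 ^ a < n → frac (fun x : X => S a x ∧ ¬ S (a + a / 2) x) ≤ b) (m : ℕ) :
    ∀ a, a0 ≤ a → 2 ^ a < n → n - a = m → ∀ c : ℝ, frac (fun x : X => ¬ S a x) ≤ c →
      ∃ a' : ℕ, n ≤ 2 ^ a' ∧ (a' : ℝ) ≤ 3 / 2 * (Real.log n / Real.log 2) ∧
        frac (fun x : X => ¬ S a' x) ≤ c + m * b := by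
  induction m using Nat.strong_induction_on with
  | _ m ih =>
    intro a ha h2a hm c hc
    have han : a < n := lt_trans (Nat.lt_two_pow_self) h2a
    have hstep : frac (fun x : X => ¬ S (a + a / 2) x) ≤ c + b := by
      have h3 : frac (fun x : X => ¬ S (a + a / 2) x) ≤
          frac (fun x : X => (¬ S a x) ∨ (S a x ∧ ¬ S (a + a / 2) x)) := by
        refine frac_mono fun x hx => ?_
        by_cases h : S a x
        · exact Or.inr ⟨h, hx⟩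
        · exact Or.inl h
      have h4 := frac_or_le (fun x : X => ¬ S a x) (fun x : X => S a x ∧ ¬ S (a + a / 2) x)
      have h5 := h2 a ha h2a
      linarith
    by_cases hlt : 2 ^ (a + a / 2) < n
    · have ha' : a + a / 2 < n := lt_trans (Nat.lt_two_pow_self) hlt
      have hlt' : n - (a + a / 2) < m := by omega
      obtain ⟨a', h6, h7, h8⟩ := ih (n - (a + a / 2)) hlt' (a + a / 2) (by omega) hlt rfl (c + b) hstep
      refine ⟨a', h6, h7, h8.trans ?_⟩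
      have h9 : ((n - (a + a / 2) : ℕ) : ℝ) + 1 ≤ m := by exact_mod_cast hlt'
      nlinarith
    · refine ⟨a + a / 2, not_lt.1 hlt, ?_, hstep.trans ?_⟩
      · have hl2 : 0 < Real.log 2 := Real.log_pos (by norm_num)
        have h10 : (a : ℝ) * Real.log 2 ≤ Real.log n := by
          rw [← Real.log_pow]
          refine Real.log_le_log (by positivity) ?_
          exact_mod_cast h2a.le
        have h11 : (a : ℝ) ≤ Real.log n / Real.log 2 := by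
          rw [le_div_iff₀ hl2]; exact h10
        have h12 : ((a + a / 2 : ℕ) : ℝ) ≤ 3 / 2 * a := by
          have h13 : 2 * (a + a / 2) ≤ 3 * a := by omega
          have h14 : (2 : ℝ) * ((a + a / 2 : ℕ) : ℝ) ≤ 3 * a := by exact_mod_cast h13
          linarith
        linarith
      · have h15 : 1 ≤ m := by omega
        have h16 : (1 : ℝ) ≤ m := by exact_mod_cast h15
        nlinarith

theorem U7_core {X : Type} [Fintype X] (S : ℕ → X → Prop) (n a0 : ℕ) (ha0 : 2 ≤ a0) (ha0n : 2 ^ a0 < n)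
    (b : ℝ) (hb : 0 ≤ b) (h1 : frac (fun x : X => ¬ S a0 x) ≤ b)
    (h2 : ∀ a, a0 ≤ a → 2 ^ a < n → frac (fun x : X => S a x ∧ ¬ S (a + a / 2) x) ≤ b) :
    ∃ a : ℕ, n ≤ 2 ^ a ∧ (a : ℝ) ≤ 3 / 2 * (Real.log n / Real.log 2) ∧
      frac (fun x : X => ¬ S a x) ≤ n * b := by
  obtain ⟨a, h3, h4, h5⟩ := U7_step S n a0 ha0 b hb h2 (n - a0) a0 le_rfl ha0n rfl b h1
  refine ⟨a, h3, h4, h5.trans ?_⟩
  have han : a0 < n := lt_trans (Nat.lt_two_pow_self) ha0n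
  have h6 : (n - a0) + 1 ≤ n := by omega
  have h7 : ((n - a0 : ℕ) : ℝ) + 1 ≤ n := by exact_mod_cast h6
  nlinarith

theorem rounds_iter {n N : ℕ} (hn : 3 ≤ n) (a0 : ℕ) (ha0 : 2 ≤ a0) (ha0n : 2 ^ a0 < n) (τ v : ℕ → ℝ) (b : ℝ)
    (hb : 0 ≤ b) (h1 : frac (fun x : Fin N × Fin 2560 → Alt n => ¬ NL x a0 (τ a0) (v a0)) ≤ b)
    (h2 : ∀ a, a0 ≤ a → 2 ^ a < n → frac (fun x : Fin N × Fin 2560 → Alt n => NL x a (τ a) (v a) ∧
      ¬ NL x (a + a / 2) (τ (a + a / 2)) (v (a + a / 2))) ≤ b) :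
    ∃ a : ℕ, n ≤ 2 ^ a ∧ (a : ℝ) ≤ 3 / 2 * (Real.log n / Real.log 2) ∧
      frac (fun x : Fin N × Fin 2560 → Alt n => ¬ NL x a (τ a) (v a)) ≤ n * b :=
  U7_core (fun a (x : Fin N × Fin 2560 → Alt n) => NL x a (τ a) (v a)) n a0 ha0 ha0n b hb h1 h2

end Pool.Agent.BC5
end

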