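import Pool.Agent.Lib.MP_bc5a73_al.QuasiVar
import Pool.Agent.Lib.MP_bc5a73_al.LeaveOut

section
set_option autoImplicit false
set_option linter.unusedSectionVars false
set_option linter.unusedVariables false
open scoped BigOperators Matrix
open Matrix
namespace Pool.Agent.BC5


variable {G : Type} [Group G] [Fintype G] [DecidableEq G]


theorem QC1_good {N s : ℕ} (x : Fin N × Fin s → G) {E : Matrix G G ℝ} (hE : IsBlock E) (R : Finset (Fin N))
    (h : ℕ) (hh : 1 ≤ h) (hhR : h ≤ R.card) (θ θ' : ℝ) (hθ : 0 ≤ θ) (hθθ : θ < θ')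
    (hR : 10 * (h : ℝ) ≤ R.card * (θ' - θ)) (ρ : Finset (Fin N)) (hρ : ρ ∈ R.powersetCard h)
    (f : G → ℝ) (hf : f ⬝ᵥ f = 1) (hEf : E *ᵥ f = f) (lam : ℝ) (hAf : AR x R *ᵥ f = lam • f)
    (hlam : θ' ≤ |lam|)
    (hu : |qf (AR x ρ) ((E * spr (AR x (R \ ρ)) θ) *ᵥ f)| ≤ 1 / 4) :
    |qf (AR x ρ) f| ≤ 1 / 2 := by
  obtain ⟨hρR, hρh⟩ := Finset.mem_powersetCard.1 hρ
  have hBt : (AR x (R \ ρ))ᵀ = AR x (R \ ρ) := AU_transpose x _
  have hQ : IsPr (spr (AR x (R \ ρ)) θ) := spr_isPr _ hBt θ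
  have hcQ : Commute (AR x (R \ ρ)) (spr (AR x (R \ ρ)) θ) := spr_comm _ hBt θ _ (Commute.refl _)
  have hEQ : Commute E (spr (AR x (R \ ρ)) θ) := spr_comm _ hBt θ _ (commute_AU x _ hE.2.2.1)
  have hP : IsPr (E * spr (AR x (R \ ρ)) θ) := hE.1.mul hQ hEQ
  have hPf : (E * spr (AR x (R \ ρ)) θ) *ᵥ f = spr (AR x (R \ ρ)) θ *ᵥ f := by
    rw [hEQ.eq, ← Matrix.mulVec_mulVec, hEf]
  refine abs_qf_le_half (AR x ρ) _ (AU_transpose x _) (AU_contract x _) hP f hf ?_ hu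
  rw [hPf]
  have hc1 : (0 : ℝ) < R.card := by
    have : 0 < R.card := by omega
    exact_mod_cast this
  have hsplit := congrArg (fun M => M *ᵥ f) (AR_split x R ρ hρR)
  simp only [Matrix.add_mulVec, Matrix.smul_mulVec] at hsplit
  rw [hAf, smul_smul, hρh] at hsplit
  have h3 := leave_vec (AR x (R \ ρ)) (AR x ρ) (spr (AR x (R \ ρ)) θ) hQ hcQ.symm θ θ' (R.card : ℝ) (h : ℝ)
    lam hθ (fun v hv => spr_compl _ hBt θ hθ v hv) (AU_contract x _) hc1 (by positivity)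
    (by exact_mod_cast hhR) hθθ hlam hR f hsplit
  rw [hf, mul_one] at h3
  exact h3

theorem leave_out_gen {N s : ℕ} (x : Fin N × Fin s → G) {E : Matrix G G ℝ} (hE : IsBlock E) (R : Finset (Fin N))
    (h : ℕ) (hh : 1 ≤ h) (hhR : h ≤ R.card) (θ θ' β : ℝ) (hθ : 0 ≤ θ) (hθθ : θ < θ') (hθ' : 5 / 8 ≤ θ')
    (hR : 10 * (h : ℝ) ≤ R.card * (θ' - θ)) (hβ : 0 ≤ β)
    (hT : ∀ ρ ∈ R.powersetCard h, ∀ (r : ℕ) (f : Fin r → G → ℝ), ON f → ∃ S : Finset (Fin r),
      (S.card : ℝ) ≤ β * E.trace ∧ ∀ i, i ∉ S → |qf (AR x ρ) ((E * spr (AR x (R \ ρ)) θ) *ᵥ f i)| ≤ 1 / 4) :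
    (E * spr (AR x R) θ').trace ≤ 8 * β * E.trace := by
  classical
  have hAt : (AR x R)ᵀ = AR x R := AU_transpose x _
  obtain ⟨r, f, lam, hON, hEf, hAf, hlam, htr⟩ :=
    spr_eig (AR x R) hAt θ' (by linarith) E hE.1 (commute_AU x _ hE.2.2.1)
  rw [htr]
  have hff : ∀ i, f i ⬝ᵥ f i = 1 := fun i => by rw [hON i i, if_pos rfl]
  have hex : ∀ ρ : Finset (Fin N), ∃ S : Finset (Fin r), ρ ∈ R.powersetCard h → ((S.card : ℝ) ≤ β * E.trace ∧
      ∀ i, i ∉ S → |qf (AR x ρ) ((E * spr (AR x (R \ ρ)) θ) *ᵥ f i)| ≤ 1 / 4) := by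
    intro ρ
    by_cases hρ : ρ ∈ R.powersetCard h
    · obtain ⟨S, hS⟩ := hT ρ hρ r f hON
      exact ⟨S, fun _ => hS⟩
    · exact ⟨∅, fun h' => absurd h' hρ⟩
  choose Bd hBd using hex
  have htrE : 0 ≤ E.trace := trace_pr_nonneg hE.1
  have hcard : ∀ ρ ∈ R.powersetCard h, ((Bd ρ).card : ℝ) ≤ β * E.trace := fun ρ hρ => (hBd ρ hρ).1
  set C : ℝ := (R.card.choose h : ℝ) with hC
  have hCpos : 0 < C := by
    rw [hC]
    exact_mod_cast Nat.choose_pos hhR
  have hCc : ((R.powersetCard h).card : ℝ) = C := by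
    rw [Finset.card_powersetCard]
  have hi : ∀ i, C / 8 ≤ ∑ ρ ∈ R.powersetCard h, if i ∈ Bd ρ then (1 : ℝ) else 0 := by
    intro i
    have h1 := sum_qf_AR x R h hh hhR (f i)
    have h2 : qf (AR x R) (f i) = lam i := by
      unfold qf
      rw [hAf i, dotProduct_smul, hff i, smul_eq_mul, mul_one]
    rw [h2] at h1
    have h3 : C * (5 / 8) ≤ |∑ ρ ∈ R.powersetCard h, qf (AR x ρ) (f i)| := by
      rw [h1, abs_mul, abs_of_pos hCpos]
      exact mul_le_mul_of_nonneg_left (hθ'.trans (hlam i)) hCpos.le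
    have h4 : ∀ ρ ∈ R.powersetCard h, |qf (AR x ρ) (f i)| ≤
        1 / 2 + if i ∈ Bd ρ then (1 : ℝ) else 0 := by
      intro ρ hρ
      by_cases hb : i ∈ Bd ρ
      · rw [if_pos hb]
        have := N6_bad x ρ (f i) (hff i)
        linarith
      · rw [if_neg hb, add_zero]
        exact QC1_good x hE R h hh hhR θ θ' hθ hθθ hR ρ hρ (f i) (hff i) (hEf i) (lam i) (hAf i) (hlam i)
          ((hBd ρ hρ).2 i hb)
    have h5 := (Finset.abs_sum_le_sum_abs (fun ρ => qf (AR x ρ) (f i)) (R.powersetCard h)).trans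
      (Finset.sum_le_sum h4)
    rw [Finset.sum_add_distrib, Finset.sum_const, nsmul_eq_mul, hCc] at h5
    linarith
  have hsum : (r : ℝ) * (C / 8) ≤ C * (β * E.trace) := by
    have h1 : ∑ i : Fin r, C / 8 ≤ ∑ i : Fin r, ∑ ρ ∈ R.powersetCard h, if i ∈ Bd ρ then (1 : ℝ) else 0 :=
      Finset.sum_le_sum fun i _ => hi i
    rw [Finset.sum_const, Finset.card_univ, Fintype.card_fin, nsmul_eq_mul, Finset.sum_comm] at h1
    refine h1.trans ?_
    have h2 : ∀ ρ ∈ R.powersetCard h, (∑ i : Fin r, if i ∈ Bd ρ then (1 : ℝ) else 0) ≤ β * E.trace := by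
      intro ρ hρ
      rw [← Finset.sum_filter, Finset.sum_const, nsmul_eq_mul, mul_one]
      have h3 : (Finset.univ.filter (fun i => i ∈ Bd ρ)) = Bd ρ := by
        ext i; simp
      rw [h3]
      exact hcard ρ hρ
    refine (Finset.sum_le_sum h2).trans (le_of_eq ?_)
    rw [Finset.sum_const, nsmul_eq_mul, hCc]
  have h6 : C * (r : ℝ) ≤ C * (8 * β * E.trace) := by nlinarith
  exact le_of_mul_le_mul_left h6 hCpos

end Pool.Agent.BC5
end

section
set_option autoImplicit false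
set_option linter.unusedSectionVars false
set_option linter.unusedVariables false
open scoped BigOperators Matrix
open Matrix
namespace Pool.Agent.BC5


variable {G : Type} [Group G] [Fintype G] [DecidableEq G]

theorem QC2_move (A : Matrix G G ℝ) (v w : G → ℝ) : v ⬝ᵥ (A *ᵥ w) = (Aᵀ *ᵥ v) ⬝ᵥ w := by
  rw [Matrix.dotProduct_mulVec, Matrix.mulVec_transpose]

theorem QC2_one (g : G) {P : Matrix G G ℝ} (hP : IsPr P) (u : G → ℝ) (hu : P *ᵥ u = u) :
    (qf (Sm g) u) ^ 2 ≤ qf (Rm g * P * Rm g⁻¹) u * (u ⬝ᵥ u) := by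
  have h1 : qf (Sm g) u = u ⬝ᵥ (P *ᵥ (Rm g⁻¹ *ᵥ u)) := by
    rw [G1_qf_Sm, QC2_move P, hP.1, hu]
  have h2 : qf (Rm g * P * Rm g⁻¹) u =
      (P *ᵥ (Rm g⁻¹ *ᵥ u)) ⬝ᵥ (P *ᵥ (Rm g⁻¹ *ᵥ u)) := by
    rw [← qf_pr hP]
    unfold qf
    rw [← Matrix.mulVec_mulVec, ← Matrix.mulVec_mulVec, QC2_move (Rm g), Rm_transpose]
  rw [h1, h2]
  have h4 := L1_dot_cs u (P *ᵥ (Rm g⁻¹ *ᵥ u))
  rw [mul_comm] at h4
  exact h4

theorem QC2_trace {P T : Matrix G G ℝ} (hP : IsPr P) (hT : IsPr T) {r : ℕ} (f : Fin r → G → ℝ) (hf : ON f) :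
    ∑ i, qf T (P *ᵥ f i) ≤ (P * T).trace := by
  have h1 : (P * T * P)ᵀ = P * T * P := by
    rw [Matrix.transpose_mul, Matrix.transpose_mul, hP.1, hT.1, Matrix.mul_assoc]
  have h2 : ∀ v, 0 ≤ qf (P * T * P) v := by
    intro v
    rw [M8_qf_conj P T hP.1]
    exact qf_pr_nonneg hT _
  have h3 := ON_sum_le f hf (P * T * P) h1 h2
  have h4 : (P * T * P).trace = (P * T).trace := by
    rw [Matrix.trace_mul_comm, ← Matrix.mul_assoc, hP.2]
  rw [h4] at h3
  refine le_trans (le_of_eq ?_) h3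
  refine Finset.sum_congr rfl fun i _ => ?_
  rw [M8_qf_conj P T hP.1]

theorem good_count {ι : Type} [Fintype ι] [DecidableEq ι] (x : ι → G) {P : Matrix G G ℝ} (hP : IsPr P)
    (U B : Finset ι) (hBU : B ⊆ U) (hU : 1 ≤ U.card) (hB : 8 * B.card ≤ U.card) (c : ℝ) (hc : 0 ≤ c)
    (hgood : ∀ u ∈ U \ B, (P * (Rm (x u) * P * Rm (x u)⁻¹)).trace ≤ c) {r : ℕ} (f : Fin r → G → ℝ) (hf : ON f) :
    ∃ S : Finset (Fin r), (S.card : ℝ) ≤ 64 * c ∧ ∀ i, i ∉ S → |qf (AU x U) (P *ᵥ f i)| ≤ 1 / 4 := by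
  classical
  have hn : (0 : ℝ) < (U.card : ℝ) := by exact_mod_cast hU
  have hBn : 8 * (B.card : ℝ) ≤ (U.card : ℝ) := by exact_mod_cast hB
  set q : ι → Fin r → ℝ := fun j i => qf (Rm (x j) * P * Rm (x j)⁻¹) (P *ᵥ f i) with hq
  have hq0 : ∀ j i, 0 ≤ q j i := fun j i => qf_pr_nonneg (S1_conj_isPr hP (x j)) _
  have hsum : ∑ i, ∑ j ∈ U \ B, q j i ≤ (U.card : ℝ) * c := by
    rw [Finset.sum_comm]
    calc ∑ j ∈ U \ B, ∑ i, q j i ≤ ∑ j ∈ U \ B, c :=
          Finset.sum_le_sum fun j hj => (QC2_trace hP (S1_conj_isPr hP (x j)) f hf).trans (hgood j hj)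
      _ = ((U \ B).card : ℝ) * c := by rw [Finset.sum_const, nsmul_eq_mul]
      _ ≤ (U.card : ℝ) * c := by
          refine mul_le_mul_of_nonneg_right ?_ hc
          exact_mod_cast Finset.card_le_card Finset.sdiff_subset
  refine ⟨Finset.univ.filter (fun i => (U.card : ℝ) / 64 < ∑ j ∈ U \ B, q j i), ?_, ?_⟩
  · set S := Finset.univ.filter (fun i => (U.card : ℝ) / 64 < ∑ j ∈ U \ B, q j i) with hS
    have h1 : (S.card : ℝ) * ((U.card : ℝ) / 64) ≤ ∑ i ∈ S, ∑ j ∈ U \ B, q j i := by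
      rw [← nsmul_eq_mul, ← Finset.sum_const]
      refine Finset.sum_le_sum fun i hi => ?_
      rw [hS, Finset.mem_filter] at hi
      exact hi.2.le
    have h2 : ∑ i ∈ S, ∑ j ∈ U \ B, q j i ≤ ∑ i, ∑ j ∈ U \ B, q j i :=
      Finset.sum_le_sum_of_subset_of_nonneg (Finset.subset_univ _)
        fun i _ _ => Finset.sum_nonneg fun j _ => hq0 j i
    have h3 : (S.card : ℝ) * ((U.card : ℝ) / 64) ≤ (U.card : ℝ) * c := h1.trans (h2.trans hsum)
    have h4 : (U.card : ℝ) * (S.card : ℝ) ≤ (U.card : ℝ) * (64 * c) := by linarith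
    exact le_of_mul_le_mul_left h4 hn
  · intro i hi
    have hi2 : ∑ j ∈ U \ B, q j i ≤ (U.card : ℝ) / 64 := by
      by_contra hcon
      exact hi (Finset.mem_filter.2 ⟨Finset.mem_univ _, not_le.1 hcon⟩)
    set u := P *ᵥ f i with hu
    have hPu : P *ᵥ u = u := by rw [hu, Matrix.mulVec_mulVec, hP.2]
    have huu : u ⬝ᵥ u ≤ 1 := by
      have h1 := M8_qf_dot_le hP (f i)
      have h2 := hf i i
      rw [if_pos rfl] at h2
      rw [h2] at h1
      exact h1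
    set a : ι → ℝ := fun j => |qf (Sm (x j)) u| with ha
    have ha0 : ∀ j, 0 ≤ a j := fun j => abs_nonneg _
    have ha1 : ∀ j, a j ≤ 1 := fun j => (abs_qf_Sm_le (x j) u).trans huu
    have ha2 : ∀ j, a j ^ 2 ≤ q j i := by
      intro j
      have h1 := QC2_one (x j) hP u hPu
      have h2 : a j ^ 2 = qf (Sm (x j)) u ^ 2 := by
        rw [ha]
        exact sq_abs _
      rw [h2]
      refine h1.trans ?_
      exact mul_le_of_le_one_right (hq0 j i) huu
    have hs1 : ∑ j ∈ B, a j ≤ (U.card : ℝ) / 8 := by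
      calc ∑ j ∈ B, a j ≤ ∑ j ∈ B, (1 : ℝ) := Finset.sum_le_sum fun j _ => ha1 j
        _ = (B.card : ℝ) := by rw [Finset.sum_const, nsmul_eq_mul, mul_one]
        _ ≤ (U.card : ℝ) / 8 := by linarith
    have hs2 : ∑ j ∈ U \ B, a j ≤ (U.card : ℝ) / 8 := by
      have h1 : (∑ j ∈ U \ B, a j) ^ 2 ≤ ((U \ B).card : ℝ) * ∑ j ∈ U \ B, a j ^ 2 :=
        sq_sum_le_card_mul_sum_sq
      have h2 : ∑ j ∈ U \ B, a j ^ 2 ≤ (U.card : ℝ) / 64 :=
        (Finset.sum_le_sum fun j _ => ha2 j).trans hi2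
      have h3 : ((U \ B).card : ℝ) ≤ (U.card : ℝ) := by
        exact_mod_cast Finset.card_le_card Finset.sdiff_subset
      have h4 : (∑ j ∈ U \ B, a j) ^ 2 ≤ ((U.card : ℝ) / 8) ^ 2 := by
        refine h1.trans ?_
        calc ((U \ B).card : ℝ) * ∑ j ∈ U \ B, a j ^ 2 ≤ (U.card : ℝ) * ((U.card : ℝ) / 64) :=
              mul_le_mul h3 h2 (Finset.sum_nonneg fun j _ => sq_nonneg _) hn.le
          _ = ((U.card : ℝ) / 8) ^ 2 := by ring
      exact le_of_sq_le_sq h4 (by positivity)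
    have h5 : qf (AU x U) u = ((U.card : ℝ))⁻¹ * ∑ j ∈ U, qf (Sm (x j)) u := by
      unfold AU
      rw [qf_smul, qf_sum]
    have h6 : |∑ j ∈ U, qf (Sm (x j)) u| ≤ (U.card : ℝ) / 4 := by
      calc |∑ j ∈ U, qf (Sm (x j)) u| ≤ ∑ j ∈ U, a j := Finset.abs_sum_le_sum_abs _ _
        _ = ∑ j ∈ U \ B, a j + ∑ j ∈ B, a j := (Finset.sum_sdiff hBU).symm
        _ ≤ (U.card : ℝ) / 8 + (U.card : ℝ) / 8 := add_le_add hs2 hs1
        _ = (U.card : ℝ) / 4 := by ring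
    rw [h5, abs_mul, abs_of_pos (inv_pos.2 hn)]
    calc ((U.card : ℝ))⁻¹ * |∑ j ∈ U, qf (Sm (x j)) u| ≤ ((U.card : ℝ))⁻¹ * ((U.card : ℝ) / 4) :=
          mul_le_mul_of_nonneg_left h6 (inv_pos.2 hn).le
      _ = 1 / 4 := by field_simp

end Pool.Agent.BC5
end

section
set_option autoImplicit false
set_option linter.unusedSectionVars false
set_option linter.unusedVariables false
open scoped BigOperators Matrix
open Matrix
namespace Pool.Agent.BC5


variable {G : Type} [Group G] [Fintype G] [DecidableEq G]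


theorem frac_pair_early {N : ℕ} {d : ℝ} (hd : QR G d) (hd0 : 0 < d) {E : Matrix G G ℝ} (hE : IsBlock E)
    (R ρ : Finset (Fin N)) (hRρ : Disjoint R ρ) (θ W : ℝ) (hW : 0 < W) :
    frac (fun x : Fin N × Fin 2560 → G => (E * spr (AR x R) θ).trace ≤ W * E.trace ∧
      ∃ B : Finset (Fin N × Fin 2560), B ⊆ cyl ρ ∧ B.card = 320 * ρ.card ∧ ∀ u ∈ B, 2 * W ^ 2 * E.trace <
        ((E * spr (AR x R) θ) * (Rm (x u) * (E * spr (AR x R) θ) * Rm (x u)⁻¹)).trace)
      ≤ 2 ^ (2560 * ρ.card) * (1 / (d * W ^ 2)) ^ (320 * ρ.card) := by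
  classical
  have hcard : (cyl ρ : Finset (Fin N × Fin 2560)).card = ρ.card * 2560 := N7_card ρ
  obtain ⟨e, he, heU⟩ := exists_enum (cyl ρ : Finset (Fin N × Fin 2560))
  refine frac_extend_le e he _ _ (by positivity) ?_
  intro x
  have hAR : ∀ y : Fin (cyl ρ : Finset (Fin N × Fin 2560)).card → G,
      AR (Function.extend e y x) R = AR x R := by
    intro y
    unfold AR
    refine AU_extend e he x y (cyl R) ?_
    intro u hu i hi
    have h3 : u ∈ (cyl ρ : Finset (Fin N × Fin 2560)) := by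
      rw [← heU, ← hi]
      exact Finset.mem_image_of_mem e (Finset.mem_univ i)
    unfold cyl at hu h3
    rw [Finset.mem_product] at hu h3
    exact Finset.disjoint_left.1 hRρ hu.1 h3.1
  have hAt : (AR x R)ᵀ = AR x R := by
    unfold AR
    exact AU_transpose x (cyl R)
  have hEb := hE
  obtain ⟨hEpr, hEL, hER, hE0, hEmin⟩ := hE
  have hES : Commute E (spr (AR x R) θ) := by
    refine spr_comm (AR x R) hAt θ E ?_
    unfold AR
    exact commute_AU x (cyl R) hER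
  have hSpr : IsPr (spr (AR x R) θ) := spr_isPr (AR x R) hAt θ
  have hPpr : IsPr (E * spr (AR x R) θ) := IsPr.mul hEpr hSpr hES
  have hPL : CommL (E * spr (AR x R) θ) := by
    intro g
    have h4 : Commute (spr (AR x R) θ) (Lm g) := by
      refine (spr_comm (AR x R) hAt θ (Lm g) ?_).symm
      have h5 := AU_commL x (cyl R) g
      unfold AR
      exact h5.symm
    exact (hEL g).mul_left h4
  have hPE : E * (E * spr (AR x R) θ) = E * spr (AR x R) θ := by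
    rw [← Matrix.mul_assoc, hEpr.2]
  by_cases htr : (E * spr (AR x R) θ).trace ≤ W * E.trace
  · have hgood := conj_good hd hd0 hEb hPpr hPL hPE W hW htr
    have hcount := count_indep (n := (cyl ρ : Finset (Fin N × Fin 2560)).card)
      (fun g : G => 2 * W ^ 2 * E.trace <
        ((E * spr (AR x R) θ) * (Rm g * (E * spr (AR x R) θ) * Rm g⁻¹)).trace) (1 / (d * W ^ 2))
      (by positivity) hgood (320 * ρ.card)
    refine (frac_mono ?_).trans (hcount.trans (le_of_eq ?_))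
    · rintro y ⟨hy1, B, hB1, hB2, hB3⟩
      refine ⟨Finset.univ.filter (fun j => e j ∈ B), ?_, ?_⟩
      · have him : (Finset.univ.filter (fun j => e j ∈ B)).image e = B := by
          ext u
          simp only [Finset.mem_image, Finset.mem_filter, Finset.mem_univ, true_and]
          constructor
          · rintro ⟨j, hj, rfl⟩
            exact hj
          · intro hu
            have hu2 : u ∈ Finset.univ.image e := by
              rw [heU]
              exact hB1 hu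
            obtain ⟨j, -, hj⟩ := Finset.mem_image.1 hu2
            exact ⟨j, by rw [hj]; exact hu, hj⟩
        rw [← hB2, ← Finset.card_image_of_injective _ he, him]
      · intro j hj
        have hj' := (Finset.mem_filter.1 hj).2
        have h6 := hB3 (e j) hj'
        rw [hAR y, he.extend_apply] at h6
        exact h6
    · rw [hcard, mul_comm ρ.card 2560]
  · have hz : frac (fun y : Fin (cyl ρ : Finset (Fin N × Fin 2560)).card → G => False) ≤
        2 ^ (2560 * ρ.card) * (1 / (d * W ^ 2)) ^ (320 * ρ.card) := by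
      have h7 : frac (fun y : Fin (cyl ρ : Finset (Fin N × Fin 2560)).card → G => False) = 0 := by
        unfold frac avg
        simp
      rw [h7]
      positivity
    refine (frac_mono ?_).trans hz
    intro y hy
    have h8 := hy.1
    rw [hAR y] at h8
    exact htr h8

end Pool.Agent.BC5
end

section
set_option autoImplicit false
set_option linter.unusedSectionVars false
set_option linter.unusedVariables false
open scoped BigOperators Matrix
open Matrix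
namespace Pool.Agent.BC5


variable {G : Type} [Group G] [Fintype G] [DecidableEq G]


theorem early_step {N : ℕ} {d : ℝ} (hd : QR G d) (hd0 : 0 < d) {E : Matrix G G ℝ} (hE : IsBlock E) (h : ℕ)
    (hh : 1 ≤ h) (W θ θ' v v' : ℝ) (hW : 0 < W) (hθ : 0 ≤ θ) (hθθ : θ < θ') (hθ' : 5 / 8 ≤ θ') (hv0 : 0 ≤ v)
    (hv : v + h ≤ v') (hv' : 10 * (h : ℝ) ≤ v' * (θ' - θ)) :
    frac (fun x : Fin N × Fin 2560 → G => StartP x E θ v W ∧ ¬ StartP x E θ' v' (1024 * W ^ 2))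
      ≤ 4 ^ N * (2 ^ (2560 * h) * (1 / (d * W ^ 2)) ^ (320 * h)) := by
  classical
  have hE1 : 1 ≤ E.trace := block_trace_pos hE
  obtain ⟨Q, hQ⟩ : ∃ Q : Finset (Fin N) × Finset (Fin N) → (Fin N × Fin 2560 → G) → Prop,
      Q = fun q x => (q.2.card = h ∧ q.2 ⊆ q.1) ∧ ((E * spr (AR x (q.1 \ q.2)) θ).trace ≤ W * E.trace ∧
      ∃ B : Finset (Fin N × Fin 2560), B ⊆ cyl q.2 ∧ B.card = 320 * q.2.card ∧ ∀ u ∈ B, 2 * W ^ 2 * E.trace <
        ((E * spr (AR x (q.1 \ q.2)) θ) * (Rm (x u) * (E * spr (AR x (q.1 \ q.2)) θ) * Rm (x u)⁻¹)).trace) :=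
    ⟨_, rfl⟩
  have hsub : ∀ x : Fin N × Fin 2560 → G, StartP x E θ v W ∧ ¬ StartP x E θ' v' (1024 * W ^ 2) →
      ∃ q ∈ (Finset.univ : Finset (Finset (Fin N) × Finset (Fin N))), Q q x := by
    rintro x ⟨hx1, hx2⟩
    unfold StartP at hx2
    push_neg at hx2
    obtain ⟨R, hR, hR2⟩ := hx2
    have hhR : h ≤ R.card := by
      have : (h : ℝ) ≤ R.card := by linarith
      exact_mod_cast this
    by_contra hcon
    push_neg at hcon
    have hR' : 10 * (h : ℝ) ≤ R.card * (θ' - θ) := by nlinarith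
    have := leave_out_gen x hE R h hh hhR θ θ' (128 * W ^ 2) hθ hθθ hθ' hR' (by positivity) ?_
    · linarith
    · intro ρ hρ r f hf
      rw [Finset.mem_powersetCard] at hρ
      have h3 := hcon (R, ρ) (Finset.mem_univ _)
      rw [hQ] at h3
      simp only at h3
      have h5 : (R \ ρ).card = R.card - h := by rw [Finset.card_sdiff_of_subset hρ.1, hρ.2]
      have h6 : (E * spr (AR x (R \ ρ)) θ).trace ≤ W * E.trace := by
        apply hx1 (R \ ρ)
        rw [h5, Nat.cast_sub hhR]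
        linarith
      have hAt : (AR x (R \ ρ))ᵀ = AR x (R \ ρ) := AU_transpose x (cyl (R \ ρ))
      have hP : IsPr (E * spr (AR x (R \ ρ)) θ) :=
        IsPr.mul hE.1 (spr_isPr _ hAt θ) (spr_comm _ hAt θ _ (commute_AU x _ hE.2.2.1))
      have hcard : (cyl ρ : Finset (Fin N × Fin 2560)).card = h * 2560 := by rw [N7_card, hρ.2]
      have h7 : (Finset.filter (fun u => 2 * W ^ 2 * E.trace <
        ((E * spr (AR x (R \ ρ)) θ) * (Rm (x u) * (E * spr (AR x (R \ ρ)) θ) * Rm (x u)⁻¹)).trace)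
          (cyl ρ)).card < 320 * h := by
        by_contra h8
        push_neg at h8
        obtain ⟨B, hB1, hB2⟩ := Finset.exists_subset_card_eq h8
        apply h3
        refine ⟨⟨hρ.2, hρ.1⟩, h6, B, hB1.trans (Finset.filter_subset _ _), by rw [hB2, hρ.2], ?_⟩
        intro u hu
        exact (Finset.mem_filter.mp (hB1 hu)).2
      obtain ⟨S, hS1, hS2⟩ := good_count x hP (cyl ρ) (Finset.filter (fun u => 2 * W ^ 2 * E.trace <
        ((E * spr (AR x (R \ ρ)) θ) * (Rm (x u) * (E * spr (AR x (R \ ρ)) θ) * Rm (x u)⁻¹)).trace) (cyl ρ))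
        (Finset.filter_subset _ _) (by omega) (by omega) (2 * W ^ 2 * E.trace) (by positivity)
        (by
          intro u hu
          rw [Finset.mem_sdiff, Finset.mem_filter] at hu
          by_contra h9
          push_neg at h9
          exact hu.2 ⟨hu.1, h9⟩) f hf
      refine ⟨S, ?_, hS2⟩
      nlinarith [hS1]
  have hone : ∀ q : Finset (Fin N) × Finset (Fin N),
      frac (Q q) ≤ 2 ^ (2560 * h) * (1 / (d * W ^ 2)) ^ (320 * h) := by
    rintro ⟨R, ρ⟩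
    by_cases hc : ρ.card = h ∧ ρ ⊆ R
    · have h6 := frac_pair_early (N := N) hd hd0 hE (R \ ρ) ρ Finset.sdiff_disjoint θ W hW
      rw [hc.1] at h6
      refine le_trans (frac_mono ?_) h6
      intro x hx
      rw [hQ] at hx
      obtain ⟨_, h7, B, h8, h9, h10⟩ := hx
      exact ⟨h7, B, h8, by rw [h9]; simp only [hc.1], h10⟩
    · have h7 : frac (Q (R, ρ)) ≤ frac (fun _ : Fin N × Fin 2560 → G => False) := by
        apply frac_mono
        intro x hx
        rw [hQ] at hx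
        exact hc hx.1
      have h8 : frac (fun _ : Fin N × Fin 2560 → G => False) = 0 := by
        unfold frac avg
        simp
      rw [h8] at h7
      exact le_trans h7 (by positivity)
  calc frac (fun x : Fin N × Fin 2560 → G => StartP x E θ v W ∧ ¬ StartP x E θ' v' (1024 * W ^ 2))
      ≤ frac (fun x => ∃ q ∈ (Finset.univ : Finset (Finset (Fin N) × Finset (Fin N))), Q q x) := frac_mono hsub
    _ ≤ ∑ q ∈ (Finset.univ : Finset (Finset (Fin N) × Finset (Fin N))), frac (Q q) := frac_exists_le _ _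
    _ ≤ ∑ q ∈ (Finset.univ : Finset (Finset (Fin N) × Finset (Fin N))),
          2 ^ (2560 * h) * (1 / (d * W ^ 2)) ^ (320 * h) :=
        Finset.sum_le_sum fun q _ => hone q
    _ = 4 ^ N * (2 ^ (2560 * h) * (1 / (d * W ^ 2)) ^ (320 * h)) := by
        rw [Finset.sum_const, Finset.card_univ, Fintype.card_prod, Fintype.card_finset, Fintype.card_fin, nsmul_eq_mul]
        push_cast
        rw [← mul_pow]
        norm_num

end Pool.Agent.BC5
end

section
set_option autoImplicit false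
set_option linter.unusedSectionVars false
set_option linter.unusedVariables false
open scoped BigOperators Matrix
open Matrix
namespace Pool.Agent.BC5


variable {G : Type} [Group G] [Fintype G] [DecidableEq G]

/-- the numerical bound of one step -/
theorem QC5_num {d : ℝ} (lam h a : ℕ) (hlam : 32 ≤ lam) (hdl : (2 : ℝ) ^ lam ≤ d) (ha : 2 * a ≤ lam) :
    (2 : ℝ) ^ (2560 * h) * (1 / (d * (1 / 2 : ℝ) ^ a)) ^ (320 * h) ≤ (1 / 2 : ℝ) ^ (80 * h * lam) := by
  have hd0 : 0 < d := lt_of_lt_of_le (by positivity) hdl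
  obtain ⟨c, hc⟩ := Nat.exists_eq_add_of_le (show a ≤ lam by omega)
  have h1 : 1 / (d * (1 / 2 : ℝ) ^ a) ≤ (1 / 2 : ℝ) ^ c := by
    rw [div_le_iff₀ (by positivity)]
    have e : (1 / 2 : ℝ) ^ c * (2 ^ lam * (1 / 2 : ℝ) ^ a) = 1 := by
      rw [hc, pow_add]
      have e1 : (1 / 2 : ℝ) ^ a * 2 ^ a = 1 := by rw [← mul_pow]; norm_num
      have e2 : (1 / 2 : ℝ) ^ c * 2 ^ c = 1 := by rw [← mul_pow]; norm_num
      calc (1 / 2 : ℝ) ^ c * (2 ^ a * 2 ^ c * (1 / 2 : ℝ) ^ a)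
          = ((1 / 2 : ℝ) ^ a * 2 ^ a) * ((1 / 2 : ℝ) ^ c * 2 ^ c) := by ring
        _ = 1 := by rw [e1, e2, one_mul]
    calc (1 : ℝ) = (1 / 2 : ℝ) ^ c * (2 ^ lam * (1 / 2 : ℝ) ^ a) := e.symm
      _ ≤ (1 / 2 : ℝ) ^ c * (d * (1 / 2 : ℝ) ^ a) := by
          refine mul_le_mul_of_nonneg_left ?_ (by positivity)
          exact mul_le_mul_of_nonneg_right hdl (by positivity)
  have h2 : (1 / (d * (1 / 2 : ℝ) ^ a)) ^ (320 * h) ≤ (1 / 2 : ℝ) ^ (160 * h * lam) := by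
    refine (pow_le_pow_left₀ (by positivity) h1 _).trans ?_
    rw [← pow_mul]
    refine pow_le_pow_of_le_one (by norm_num) (by norm_num) ?_
    have h3 : lam ≤ 2 * c := by omega
    calc 160 * h * lam ≤ 160 * h * (2 * c) := Nat.mul_le_mul_left _ h3
      _ = c * (320 * h) := by ring
  have h4 : (2 : ℝ) ^ (2560 * h) ≤ 2 ^ (80 * h * lam) := by
    refine pow_le_pow_right₀ (by norm_num) ?_
    calc 2560 * h = 80 * h * 32 := by ring
      _ ≤ 80 * h * lam := Nat.mul_le_mul_left _ hlam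
  calc (2 : ℝ) ^ (2560 * h) * (1 / (d * (1 / 2 : ℝ) ^ a)) ^ (320 * h)
      ≤ 2 ^ (80 * h * lam) * (1 / 2 : ℝ) ^ (160 * h * lam) :=
        mul_le_mul h4 h2 (by positivity) (by positivity)
    _ = (2 ^ (80 * h * lam) * (1 / 2 : ℝ) ^ (80 * h * lam)) * (1 / 2 : ℝ) ^ (80 * h * lam) := by
        have e : 160 * h * lam = 80 * h * lam + 80 * h * lam := by ring
        rw [e, pow_add]
        ring
    _ = (1 / 2 : ℝ) ^ (80 * h * lam) := by
        rw [← mul_pow]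
        norm_num

/-- one step -/
theorem QC5_step {N : ℕ} {d : ℝ} (hd : QR G d) (lam : ℕ) (hlam : 32 ≤ lam) (hdl : (2 : ℝ) ^ lam ≤ d)
    {E : Matrix G G ℝ} (hE : IsBlock E) (h : ℕ) (hh : 1 ≤ h) (θ δ v : ℝ) (hθ : 5 / 8 ≤ θ) (hδ : 0 < δ) (hv0 : 0 ≤ v)
    (hv : 10 * (h : ℝ) ≤ v * δ) (j : ℕ) (hj : 40 * 2 ^ j + 40 ≤ lam) :
    frac (fun x : Fin N × Fin 2560 → G => StartP x E (θ + j * δ) (v + j * h) ((1 / 2 : ℝ) ^ (10 * 2 ^ j + 10)) ∧
      ¬ StartP x E (θ + (j + 1) * δ) (v + (j + 1) * h) ((1 / 2 : ℝ) ^ (10 * 2 ^ (j + 1) + 10)))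
      ≤ 4 ^ N * (1 / 2 : ℝ) ^ (80 * h * lam) := by
  have hd0 : 0 < d := lt_of_lt_of_le (by positivity) hdl
  have hj0 : (0 : ℝ) ≤ j := Nat.cast_nonneg j
  have hh0 : (0 : ℝ) ≤ h := Nat.cast_nonneg h
  have hjδ : 0 ≤ (j : ℝ) * δ := mul_nonneg hj0 hδ.le
  have hjh : 0 ≤ (j : ℝ) * h := mul_nonneg hj0 hh0
  have hhδ : 0 ≤ (h : ℝ) * δ := mul_nonneg hh0 hδ.le
  have hs := early_step (N := N) hd hd0 hE h hh ((1 / 2 : ℝ) ^ (10 * 2 ^ j + 10)) (θ + j * δ)
    (θ + (j + 1) * δ) (v + j * h) (v + (j + 1) * h) (by positivity) (by linarith) (by linarith)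
    (by linarith) (by linarith) (by linarith)
    (by
      have e : θ + ((j : ℝ) + 1) * δ - (θ + j * δ) = δ := by ring
      rw [e]
      have h1 : 0 ≤ (((j : ℝ) + 1) * h) * δ := by positivity
      linarith [add_mul v (((j : ℝ) + 1) * h) δ])
  have e1 : 1024 * ((1 / 2 : ℝ) ^ (10 * 2 ^ j + 10)) ^ 2 = (1 / 2 : ℝ) ^ (10 * 2 ^ (j + 1) + 10) := by
    have e2 : 10 * 2 ^ (j + 1) + 10 = 10 * 2 ^ j + 10 * 2 ^ j + 10 := by ring
    rw [e2, pow_add, pow_add, pow_add]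
    ring
  have e3 : ((1 / 2 : ℝ) ^ (10 * 2 ^ j + 10)) ^ 2 = (1 / 2 : ℝ) ^ (20 * 2 ^ j + 20) := by
    rw [← pow_mul]
    congr 1
    ring
  rw [e1, e3] at hs
  refine hs.trans ?_
  refine mul_le_mul_of_nonneg_left ?_ (by positivity)
  exact QC5_num lam h _ hlam hdl (by omega)

theorem early_iter {N : ℕ} {d : ℝ} (hd : QR G d) (lam : ℕ) (hlam : 32 ≤ lam) (hdl : (2 : ℝ) ^ lam ≤ d)
    {E : Matrix G G ℝ} (hE : IsBlock E) (h : ℕ) (hh : 1 ≤ h) (θ δ v : ℝ) (hθ : 5 / 8 ≤ θ) (hδ : 0 < δ) (hv0 : 0 ≤ v)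
    (hv : 10 * (h : ℝ) ≤ v * δ) (J : ℕ) (hJ : 40 * 2 ^ J + 40 ≤ lam) :
    frac (fun x : Fin N × Fin 2560 → G => StartP x E θ v ((1 / 2 : ℝ) ^ 20) ∧
      ¬ StartP x E (θ + (J + 1) * δ) (v + (J + 1) * h) ((1 / 2 : ℝ) ^ (10 * 2 ^ (J + 1) + 10)))
      ≤ ((J : ℝ) + 1) * (4 ^ N * (1 / 2 : ℝ) ^ (80 * h * lam)) := by
  induction J with
  | zero =>
    have hs := QC5_step (N := N) hd lam hlam hdl hE h hh θ δ v hθ hδ hv0 hv 0 hJ
    have e1 : θ + ((0 : ℕ) : ℝ) * δ = θ := by rw [Nat.cast_zero, zero_mul, add_zero]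
    have e2 : v + ((0 : ℕ) : ℝ) * h = v := by rw [Nat.cast_zero, zero_mul, add_zero]
    have e3 : 10 * 2 ^ 0 + 10 = 20 := by norm_num
    rw [e1, e2, e3] at hs
    have e4 : (((0 : ℕ) : ℝ) + 1) * (4 ^ N * (1 / 2 : ℝ) ^ (80 * h * lam)) = 4 ^ N * (1 / 2 : ℝ) ^ (80 * h * lam) := by
      rw [Nat.cast_zero, zero_add, one_mul]
    rw [e4]
    exact hs
  | succ J ih =>
    have hJ' : 40 * 2 ^ J + 40 ≤ lam := by
      have : 2 ^ J ≤ 2 ^ (J + 1) := Nat.pow_le_pow_right (by norm_num) (Nat.le_succ J)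
      omega
    have hs := QC5_step (N := N) hd lam hlam hdl hE h hh θ δ v hθ hδ hv0 hv (J + 1) hJ
    have e1 : (((J + 1 : ℕ) : ℝ)) = (J : ℝ) + 1 := by push_cast; ring
    rw [e1] at hs ⊢
    have hc := N10_chain _ _ _ _ _ (ih hJ') hs
    refine hc.trans (le_of_eq ?_)
    ring

end Pool.Agent.BC5
end

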