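import Pool.Agent.Lib.MP_bc5a73_al.QuasiStart
import Pool.Agent.Lib.MP_bc5a73_al.QuasiStep
import Pool.Agent.Lib.MP_bc5a73_al.AllNorm

section
set_option autoImplicit false
set_option linter.unusedSectionVars false
set_option linter.unusedVariables false
open scoped BigOperators Matrix
open Matrix
namespace Pool.Agent.BC5


variable {G : Type} [Group G] [Fintype G] [DecidableEq G]


theorem QC6_start_mono {N s : ℕ} {x : Fin N × Fin s → G} {E : Matrix G G ℝ} (hE : IsBlock E) {θ θ' v w : ℝ}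
    (h : StartP x E θ v w) (hθ : θ ≤ θ') : StartP x E θ' v w := by
  intro R hR
  exact (spr_trace_anti (AR x R) (AU_transpose x (cyl R)) θ θ' hθ E hE.1).trans (h R hR)

theorem quasi_block {N : ℕ} {d : ℝ} (hd : QR G d) (lam : ℕ) (hlam : 2600 ≤ lam) (hdl : (2 : ℝ) ^ lam ≤ d)
    {E : Matrix G G ℝ} (hE : IsBlock E) (hEJ : E ≠ Jm G) (h I J v0 t : ℕ) (hh : 1 ≤ h) (hv0 : v0 = N - N / 8)
    (hv1 : 4096 ≤ v0) (hJ1 : 40 * 2 ^ J + 40 ≤ lam) (hJ2 : lam < 40 * 2 ^ (J + 1) + 40)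
    (hN : 96 * (h * (J + 2) + I) ≤ N) (ht : 2 ^ 25 * t ≤ 2560 * v0) (hG : Fintype.card G < 2 ^ (2 ^ I)) :
    frac (fun x : Fin N × Fin 2560 → G => ¬ NormP x E (3 / 4) N)
      ≤ 2 ^ N * (2 ^ (2560 * N) * (2 ^ 50 / 2 ^ lam) ^ t) + (((J : ℝ) + 1) * (4 ^ N * (1 / 2 : ℝ) ^ (80 * h * lam)) +
        ((I : ℝ) + 1) * (4 ^ (N + 1) * (1 / 2 : ℝ) ^ (h * lam))) := by
  have hEJ0 : E * Jm G = 0 := (block_eq_or_mul_eq_zero hE Jm_isBlock).resolve_left hEJ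
  have hdE : d ≤ E.trace := hd E hE.1 hE.2.1 hE.2.2.2.1 hEJ0
  have hlE : (2 : ℝ) ^ lam ≤ E.trace := hdl.trans hdE
  obtain ⟨q, hq⟩ : ∃ q : ℕ, q = 10 * 2 ^ (J + 1) + 10 := ⟨_, rfl⟩
  have hq4 : lam < 4 * q := by omega
  have hq640 : 640 ≤ q := by omega
  obtain ⟨a, ha⟩ : ∃ a : ℕ, a = h * (J + 2) := ⟨_, rfl⟩
  rw [← ha] at hN
  have hv8 : 7 * N ≤ 8 * v0 := by omega
  have hvN : v0 + a + I ≤ N := by omega
  have hvr : 7 * (N : ℝ) ≤ 8 * v0 := by exact_mod_cast hv8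
  have hN1 : 1 ≤ N := by omega
  have hN0 : (0 : ℝ) < N := by exact_mod_cast hN1
  have hh1 : (1 : ℝ) ≤ h := by exact_mod_cast hh
  have hh0 : (0 : ℝ) ≤ h := by linarith
  have hv00 : (0 : ℝ) ≤ (v0 : ℝ) := Nat.cast_nonneg _
  have hJ0 : (0 : ℝ) ≤ (J : ℝ) := Nat.cast_nonneg _
  have hI0 : (0 : ℝ) ≤ (I : ℝ) := Nat.cast_nonneg _
  have har : (a : ℝ) = h * (J + 2) := by
    rw [ha]; push_cast; ring
  have hNr : 96 * ((a : ℝ) + I) ≤ N := by exact_mod_cast hN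
  obtain ⟨δ, hδ⟩ : ∃ δ : ℝ, δ = 12 * h / N := ⟨_, rfl⟩
  have hδ0 : 0 < δ := by
    rw [hδ]
    have : (0 : ℝ) < 12 * h := by linarith
    positivity
  have hη0 : (0 : ℝ) < 12 / N := by positivity
  have hvδ : 10 * (h : ℝ) ≤ v0 * δ := by
    rw [hδ, mul_div_assoc', le_div_iff₀ hN0]
    nlinarith
  have hvη : (10 : ℝ) ≤ v0 * (12 / N) := by
    rw [mul_div_assoc', le_div_iff₀ hN0]
    linarith
  -- the three estimates
  have hA := start_two (N := N) hE v0 t hv1 ht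
  have hB := early_iter (N := N) hd lam (by omega) hdl hE h hh (5 / 8) δ v0 le_rfl hδ0 hv00 hvδ J hJ1
  rw [← hq] at hB
  have hJh : (0 : ℝ) ≤ ((J : ℝ) + 1) * h := by positivity
  have hJδ : (0 : ℝ) ≤ ((J : ℝ) + 1) * δ := by positivity
  have htr : E.trace < 2 ^ (2 ^ I * (2 * h * q)) := by
    have h1 := P3_trace_le hE
    have h2 : (Fintype.card G : ℝ) < 2 ^ (2 ^ I) := by exact_mod_cast hG
    have h3 : (2 : ℝ) ^ (2 ^ I) ≤ 2 ^ (2 ^ I * (2 * h * q)) := by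
      apply pow_le_pow_right₀ (by norm_num)
      apply Nat.le_mul_of_pos_right
      have : 0 < q := by omega
      positivity
    linarith
  have hC := block_norm (N := N) hE h q I hh hq640 (5 / 8 + (J + 1) * δ) δ (12 / N) (v0 + (J + 1) * h)
    (by linarith) hδ0 (by linarith) hη0 (by linarith)
    (by
      have : 0 ≤ (((J : ℝ) + 1) * h + h) * δ := by positivity
      nlinarith)
    (by
      have : 0 ≤ (((J : ℝ) + 1) * h) * (12 / N) := by positivity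
      nlinarith)
    htr
  -- numerical comparison of the first and the last bound
  have hA2 : (2 : ℝ) ^ N * (2 ^ (2560 * N) * (2 ^ 50 / E.trace) ^ t) ≤
      2 ^ N * (2 ^ (2560 * N) * (2 ^ 50 / 2 ^ lam) ^ t) := by
    have h1 : (2 : ℝ) ^ 50 / E.trace ≤ 2 ^ 50 / 2 ^ lam :=
      div_le_div_of_nonneg_left (by positivity) (by positivity) hlE
    have hE0 : (0 : ℝ) ≤ 2 ^ 50 / E.trace := by
      have : 1 ≤ E.trace := block_trace_pos hE
      positivity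
    have h2 := pow_le_pow_left₀ hE0 h1 t
    exact mul_le_mul_of_nonneg_left (mul_le_mul_of_nonneg_left h2 (by positivity)) (by positivity)
  have hC2 : ((I : ℝ) + 1) * (4 ^ (N + 1) * (1 / 2 : ℝ) ^ (4 * h * q)) ≤
      ((I : ℝ) + 1) * (4 ^ (N + 1) * (1 / 2 : ℝ) ^ (h * lam)) := by
    have h1 : h * lam ≤ 4 * h * q := by
      calc h * lam ≤ h * (4 * q) := Nat.mul_le_mul_left h hq4.le
        _ = 4 * h * q := by ring
    have h2 : (1 / 2 : ℝ) ^ (4 * h * q) ≤ (1 / 2 : ℝ) ^ (h * lam) :=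
      pow_le_pow_of_le_one (by norm_num) (by norm_num) h1
    exact mul_le_mul_of_nonneg_left (mul_le_mul_of_nonneg_left h2 (by positivity)) (by positivity)
  -- the union
  have hsub : frac (fun x : Fin N × Fin 2560 → G => ¬ NormP x E (3 / 4) N) ≤
      frac (fun x : Fin N × Fin 2560 → G => (¬ StartP x E (1 / 2) v0 ((1 / 2 : ℝ) ^ 20)) ∨
        ((StartP x E (5 / 8) v0 ((1 / 2 : ℝ) ^ 20) ∧
          ¬ StartP x E (5 / 8 + (J + 1) * δ) (v0 + (J + 1) * h) ((1 / 2 : ℝ) ^ q)) ∨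
        (StartP x E (5 / 8 + (J + 1) * δ) (v0 + (J + 1) * h) ((1 / 2 : ℝ) ^ q) ∧
          ¬ NormP x E (5 / 8 + (J + 1) * δ + δ + I * (12 / N)) (v0 + (J + 1) * h + h + I)))) := by
    refine frac_mono fun x hx => ?_
    by_cases hS : StartP x E (1 / 2) v0 ((1 / 2 : ℝ) ^ 20)
    · right
      by_cases hS1 : StartP x E (5 / 8 + (J + 1) * δ) (v0 + (J + 1) * h) ((1 / 2 : ℝ) ^ q)
      · right
        refine ⟨hS1, fun hNn => hx (hNn.mono ?_ ?_)⟩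
        · have h1 : 5 / 8 + ((J : ℝ) + 1) * δ + δ + I * (12 / N) = 5 / 8 + 12 * (a + I) / N := by
            rw [hδ, har]
            field_simp
            ring
          rw [h1]
          have h2 : 12 * ((a : ℝ) + I) / N ≤ 1 / 8 := by
            rw [div_le_iff₀ hN0]
            linarith
          linarith
        · have h1 : ((v0 + a + I : ℕ) : ℝ) ≤ N := by exact_mod_cast hvN
          push_cast at h1
          rw [har] at h1
          linarith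
      · left
        exact ⟨QC6_start_mono hE hS (by norm_num), hS1⟩
    · exact Or.inl hS
  have hor1 := frac_or_le (fun x : Fin N × Fin 2560 → G => ¬ StartP x E (1 / 2) v0 ((1 / 2 : ℝ) ^ 20))
    (fun x : Fin N × Fin 2560 → G => ((StartP x E (5 / 8) v0 ((1 / 2 : ℝ) ^ 20) ∧
          ¬ StartP x E (5 / 8 + (J + 1) * δ) (v0 + (J + 1) * h) ((1 / 2 : ℝ) ^ q)) ∨
        (StartP x E (5 / 8 + (J + 1) * δ) (v0 + (J + 1) * h) ((1 / 2 : ℝ) ^ q) ∧
          ¬ NormP x E (5 / 8 + (J + 1) * δ + δ + I * (12 / N)) (v0 + (J + 1) * h + h + I))))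
  have hor2 := frac_or_le (fun x : Fin N × Fin 2560 → G => StartP x E (5 / 8) v0 ((1 / 2 : ℝ) ^ 20) ∧
          ¬ StartP x E (5 / 8 + (J + 1) * δ) (v0 + (J + 1) * h) ((1 / 2 : ℝ) ^ q))
    (fun x : Fin N × Fin 2560 → G => StartP x E (5 / 8 + (J + 1) * δ) (v0 + (J + 1) * h) ((1 / 2 : ℝ) ^ q) ∧
          ¬ NormP x E (5 / 8 + (J + 1) * δ + δ + I * (12 / N)) (v0 + (J + 1) * h + h + I))
  exact hsub.trans (hor1.trans (add_le_add (hA.trans hA2) (hor2.trans (add_le_add hB (hC.trans hC2)))))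

theorem quasi_all {N : ℕ} {d : ℝ} (hd : QR G d) (lam : ℕ) (hlam : 2600 ≤ lam) (hdl : (2 : ℝ) ^ lam ≤ d)
    (h I J v0 t : ℕ) (hh : 1 ≤ h) (hv0 : v0 = N - N / 8)
    (hv1 : 4096 ≤ v0) (hJ1 : 40 * 2 ^ J + 40 ≤ lam) (hJ2 : lam < 40 * 2 ^ (J + 1) + 40)
    (hN : 96 * (h * (J + 2) + I) ≤ N) (ht : 2 ^ 25 * t ≤ 2560 * v0) (hG : Fintype.card G < 2 ^ (2 ^ I)) :
    frac (fun x : Fin N × Fin 2560 → G => ¬ ∀ E : Matrix G G ℝ, IsBlock E → E ≠ Jm G → NormP x E (3 / 4) N)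
      ≤ (kc G : ℝ) * (2 ^ N * (2 ^ (2560 * N) * (2 ^ 50 / 2 ^ lam) ^ t) +
        (((J : ℝ) + 1) * (4 ^ N * (1 / 2 : ℝ) ^ (80 * h * lam)) +
        ((I : ℝ) + 1) * (4 ^ (N + 1) * (1 / 2 : ℝ) ^ (h * lam)))) := by
  classical
  obtain ⟨K, hK⟩ : ∃ K : ℝ, K = 2 ^ N * (2 ^ (2560 * N) * (2 ^ 50 / 2 ^ lam) ^ t) +
        (((J : ℝ) + 1) * (4 ^ N * (1 / 2 : ℝ) ^ (80 * h * lam)) +
        ((I : ℝ) + 1) * (4 ^ (N + 1) * (1 / 2 : ℝ) ^ (h * lam))) := ⟨_, rfl⟩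
  have hK0 : 0 ≤ K := by
    rw [hK]
    positivity
  rw [← hK]
  obtain ⟨B, hB, -⟩ := exists_blocks G
  have h1 : frac (fun x : Fin N × Fin 2560 → G =>
      ¬ ∀ E : Matrix G G ℝ, IsBlock E → E ≠ Jm G → NormP x E (3 / 4) N) ≤
      frac (fun x : Fin N × Fin 2560 → G => ∃ E ∈ B.filter (fun E => E ≠ Jm G), ¬ NormP x E (3 / 4) N) := by
    refine frac_mono fun x hx => ?_
    push Not at hx
    obtain ⟨E, hE, hEJ, hn⟩ := hx
    exact ⟨E, Finset.mem_filter.2 ⟨(hB E).2 hE, hEJ⟩, hn⟩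
  have h2 := frac_exists_le (α := Fin N × Fin 2560 → G) (B.filter (fun E => E ≠ Jm G))
    (fun E x => ¬ NormP x E (3 / 4) N)
  have h3 : ∑ E ∈ B.filter (fun E => E ≠ Jm G), frac (fun x : Fin N × Fin 2560 → G => ¬ NormP x E (3 / 4) N) ≤
      ∑ E ∈ B.filter (fun E => E ≠ Jm G), K := by
    refine Finset.sum_le_sum fun E hE => ?_
    obtain ⟨hE1, hE2⟩ := Finset.mem_filter.1 hE
    rw [hK]
    exact quasi_block hd lam hlam hdl ((hB E).1 hE1) hE2 h I J v0 t hh hv0 hv1 hJ1 hJ2 hN ht hG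
  rw [Finset.sum_const, nsmul_eq_mul] at h3
  have h4 : ((B.filter (fun E => E ≠ Jm G)).card : ℝ) ≤ kc G := by
    have h5 : (B.filter (fun E => E ≠ Jm G)).card ≤ kc G :=
      (Finset.card_filter_le _ _).trans (card_blocks_le B fun E hE => (hB E).1 hE)
    exact_mod_cast h5
  have h6 := mul_le_mul_of_nonneg_right h4 hK0
  exact h1.trans (h2.trans (h3.trans h6))

end Pool.Agent.BC5
end

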