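import Pool.Agent.Lib.MP_bc5a73_al.Regular

section
set_option autoImplicit false
set_option linter.unusedSectionVars false
set_option linter.unusedVariables false
open scoped BigOperators Matrix
open Matrix
namespace Pool.Agent.BC5

/-- Every nonzero projection which commutes with the left translations and kills the constants has rank at least `d`;
equivalently, every nontrivial real representation without invariant vectors has dimension at least `d`. -/
def QR (G : Type) [Group G] [Fintype G] [DecidableEq G] (d : ℝ) : Prop :=
  ∀ P : Matrix G G ℝ, IsPr P → CommL P → P ≠ 0 → P * Jm G = 0 → d ≤ P.trace

/-- The block companion matrix: the blocks end at the elements of `S`; the last column of a block is given by `c`. -/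
def nf2 {n : ℕ} {F : Type} [Field F] (S : Finset (Fin n)) (c : Fin n → F) : Matrix (Fin n) (Fin n) F := by
  classical
  exact Matrix.of fun i j => if j ∈ S then (if i ≤ j ∧ ∀ k ∈ S, k < j → k < i then c i else 0)
    else (if i.val = j.val + 1 then 1 else 0)

end Pool.Agent.BC5
end
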