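import Mathlib

/-!
# Random Cayley graphs: the set `Expd(G, m, ε)` and the probability `P_G(m, ε)`
-/

set_option autoImplicit false

namespace Pool.Agent.BC5

/-- `Expd(G, m, ε)`: the tuples `x` in `G^m` for which the Cayley graph of `G` with respect to `S = {x₁^{±1}, …, x_m^{±1}}`
is `ε`-expanding: every `A ⊆ G` with `|A| ≤ |G|/2` satisfies `|A S \ A| ≥ ε |A|`. -/
def Expd (G : Type) [Group G] (m : ℕ) (ε : ℝ) : Set (Fin m → G) :=
  {x | ∀ A : Set G, 2 * Nat.card A ≤ Nat.card G →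
    ε * (Nat.card A : ℝ) ≤ (Nat.card {g : G // g ∉ A ∧ ∃ a ∈ A, ∃ i : Fin m, g = a * x i ∨ g = a * (x i)⁻¹} : ℝ)}

/-- `P_G(m, ε) = |Expd(G, m, ε)| / |G|^m`. -/
noncomputable def probExpd (G : Type) [Group G] (m : ℕ) (ε : ℝ) : ℝ :=
  (Nat.card (Expd G m ε) : ℝ) / (Nat.card G : ℝ) ^ m

theorem le_probExpd {G : Type} [Group G] [Finite G] {m : ℕ} {ε c : ℝ}
    (h : c * (Nat.card G : ℝ) ^ m ≤ (Nat.card {x : Fin m → G // ∀ A : Set G, 2 * Nat.card A ≤ Nat.card G →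
    ε * (Nat.card A : ℝ) ≤ (Nat.card {g : G // g ∉ A ∧ ∃ a ∈ A, ∃ i : Fin m, g = a * x i ∨ g = a * (x i)⁻¹} : ℝ)} : ℝ)) :
    c ≤ probExpd G m ε := by
  unfold probExpd
  have hG : (0 : ℝ) < (Nat.card G : ℝ) ^ m := by
    have : 0 < Nat.card G := Nat.card_pos
    have : (0 : ℝ) < (Nat.card G : ℝ) := by exact_mod_cast this
    positivity
  rw [le_div_iff₀ hG]
  exact h

end Pool.Agent.BC5
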