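import Pool.Agent.Lib.MP_bc5a73_al.QuasiNum
import Pool.Agent.Lib.MP_bc5a73_al.QuasiBlock
import Pool.Agent.Lib.MP_bc5a73_al.FinalGen
import Pool.Agent.Lib.MP_bc5a73_al.Statement
import Pool.Agent.Lib.MP_bc5a73_al.General
import Pool.Agent.Lib.MP_bc5a73_al.TraceInter

section
set_option autoImplicit false
set_option linter.unusedSectionVars false
set_option linter.unusedVariables false
open scoped BigOperators Matrix
open Matrix
namespace Pool.Agent.BC5


theorem QF1_trace {G : Type} [Group G] [Fintype G] [DecidableEq G] {d : ℝ} (hd : QR G d) (hG : 2 ≤ Fintype.card G) :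
    d ≤ (Fintype.card G : ℝ) - 1 := by
  have hB := Jm_isBlock (G := G)
  have htr : (1 - Jm G : Matrix G G ℝ).trace = (Fintype.card G : ℝ) - 1 := by
    rw [Matrix.trace_sub, Matrix.trace_one, trace_Jm]
  have h := hd (1 - Jm G) (IsPr.compl hB.1) (fun g => (Commute.one_left _).sub_left (hB.2.1 g)) ?_ ?_
  · rw [htr] at h
    exact h
  · intro h0
    rw [h0, Matrix.trace_zero] at htr
    have : (2 : ℝ) ≤ (Fintype.card G : ℝ) := by exact_mod_cast hG
    linarith
  · rw [sub_mul, one_mul, hB.1.2, sub_self]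

theorem QF1_two {G : Type} [Group G] [Fintype G] (hG : 2 ≤ Nat.card G) : 2 ≤ Nat.card (ConjClasses G) := by
  classical
  by_contra hcon
  have h1 : Nat.card (ConjClasses G) ≤ 1 := by omega
  have hs : Subsingleton (ConjClasses G) := by
    rw [← Finite.card_le_one_iff_subsingleton]
    exact h1
  have hs2 : Subsingleton G := by
    refine ⟨fun a b => ?_⟩
    have ha : ConjClasses.mk a = ConjClasses.mk (1 : G) := Subsingleton.elim _ _
    have hb : ConjClasses.mk b = ConjClasses.mk (1 : G) := Subsingleton.elim _ _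
    rw [ConjClasses.mk_eq_mk_iff_isConj] at ha hb
    have ha' : a = 1 := isConj_one_left.1 ha
    have hb' : b = 1 := isConj_one_left.1 hb
    rw [ha', hb']
  have := Finite.card_le_one_iff_subsingleton.2 hs2
  omega

theorem QF1_fin (k d n : ℕ) (hk : 2 ≤ k) (hd : 1 ≤ d) (hdn : (d : ℝ) ≤ 2 ^ n) (X : ℝ) (hX : 0 ≤ X) {Y : ℝ}
    (h : (1 - 1 / ((k : ℝ) * 2 ^ n)) * X ≤ Y) : (1 - 1 / ((k : ℝ) * d)) * X ≤ Y := by
  refine le_trans (mul_le_mul_of_nonneg_right ?_ hX) h
  have hk0 : (0 : ℝ) < k := by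
    have : (0 : ℕ) < k := by omega
    exact_mod_cast this
  have hd0 : (0 : ℝ) < d := by
    have : (0 : ℕ) < d := by omega
    exact_mod_cast this
  have : 1 / ((k : ℝ) * 2 ^ n) ≤ 1 / ((k : ℝ) * d) := by
    apply one_div_le_one_div_of_le (by positivity)
    exact mul_le_mul_of_nonneg_left hdn hk0.le
  linarith

theorem quasi_main : ∃ C : ℝ, 1 ≤ C ∧ ∀ (G : Type) [Group G] [Fintype G] [DecidableEq G] (d m : ℕ), 3 ≤ Nat.card G →
    1 ≤ d → QR G d →
    C * (Real.log (Real.log (Nat.card G)) + Real.log (Nat.card (ConjClasses G)) *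
      (Real.log (Real.log ((d : ℝ) + 2)) / Real.log ((d : ℝ) + 2))) ≤ m →
    (1 - 1 / ((Nat.card (ConjClasses G) : ℝ) * d)) * (Nat.card G : ℝ) ^ m ≤
        (Nat.card {x : Fin m → G // ∀ A : Set G, 2 * Nat.card A ≤ Nat.card G →
            1 / 8 * (Nat.card A : ℝ) ≤
              (Nat.card {g : G // g ∉ A ∧ ∃ a ∈ A, ∃ i : Fin m, g = a * x i ∨ g = a * (x i)⁻¹} : ℝ)} : ℝ) := by
  obtain ⟨C1, hC1, L0, hL0, h1⟩ := quasi_num
  obtain ⟨C2, hC2, h2⟩ := small_num (L0 + 1)
  obtain ⟨c, hc0, hc1, h3⟩ := phi_small L0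
  have hC2c : 0 ≤ C2 / c := by positivity
  refine ⟨2 * C1 + C2 / c, by linarith, ?_⟩
  intro G _ _ _ d m hG hd1 hQ hm
  have hGF : Nat.card G = Fintype.card G := Nat.card_eq_fintype_card
  have hk2 : 2 ≤ Nat.card (ConjClasses G) := QF1_two (by omega)
  have hkg : Nat.card (ConjClasses G) ≤ Nat.card G :=
    Nat.card_le_card_of_surjective (ConjClasses.mk (α := G)) ConjClasses.mk_surjective
  have hkR : (2 : ℝ) ≤ (Nat.card (ConjClasses G) : ℝ) := by exact_mod_cast hk2
  have hgR : (3 : ℝ) ≤ (Nat.card G : ℝ) := by exact_mod_cast hG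
  have hlog3 : 1 < Real.log 3 := by
    rw [Real.lt_log_iff_exp_lt (by norm_num)]
    exact lt_trans Real.exp_one_lt_d9 (by norm_num)
  have hll : 0 ≤ Real.log (Real.log (Nat.card G)) := by
    apply Real.log_nonneg
    have := Real.log_le_log (by norm_num) hgR
    linarith
  have hlk : 0 ≤ Real.log (Nat.card (ConjClasses G)) := Real.log_nonneg (by linarith)
  have hcard0 : (0 : ℝ) ≤ (Nat.card G : ℝ) ^ m := by positivity
  rcases lt_or_ge d (2 ^ L0) with hdL | hdL
  · have hphi := h3 d hd1 hdL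
    have hm' : C2 * (Real.log (Nat.card (ConjClasses G)) + Real.log (Real.log (Nat.card G))) ≤ m := by
      refine le_trans ?_ hm
      have e1 : C2 * (Real.log (Nat.card (ConjClasses G)) + Real.log (Real.log (Nat.card G)))
          = C2 / c * (c * Real.log (Real.log (Nat.card G)) + Real.log (Nat.card (ConjClasses G)) * c) := by
        field_simp
        ring
      have e2 : c * Real.log (Real.log (Nat.card G)) + Real.log (Nat.card (ConjClasses G)) * c
          ≤ Real.log (Real.log (Nat.card G)) + Real.log (Nat.card (ConjClasses G)) *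
            (Real.log (Real.log ((d : ℝ) + 2)) / Real.log ((d : ℝ) + 2)) := by
        apply add_le_add
        · nlinarith
        · exact mul_le_mul_of_nonneg_left hphi hlk
      have e3 : 0 ≤ Real.log (Real.log (Nat.card G)) + Real.log (Nat.card (ConjClasses G)) *
            (Real.log (Real.log ((d : ℝ) + 2)) / Real.log ((d : ℝ) + 2)) :=
        le_trans (by positivity) e2
      rw [e1]
      calc _ ≤ C2 / c * (Real.log (Real.log (Nat.card G)) + Real.log (Nat.card (ConjClasses G)) *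
            (Real.log (Real.log ((d : ℝ) + 2)) / Real.log ((d : ℝ) + 2))) :=
            mul_le_mul_of_nonneg_left e2 hC2c
        _ ≤ _ := mul_le_mul_of_nonneg_right (by linarith) e3
    obtain ⟨N, I, hI, hg, hNm, hfr⟩ := h2 _ _ m hk2 hkg hm'
    have hg' : Fintype.card G < 2 ^ (2 ^ I) := by rwa [← hGF]
    have hfin := final_B (G := G) (by omega) hNm (le_trans (all_norm (G := G) N _ I rfl hI hg') hfr)
    refine QF1_fin _ d (L0 + 1) hk2 hd1 ?_ _ hcard0 hfin
    have hx : (d : ℝ) < 2 ^ L0 := by exact_mod_cast hdL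
    have hy : (2 : ℝ) ^ (L0 + 1) = 2 * 2 ^ L0 := by ring
    have hz : (0 : ℝ) < 2 ^ L0 := by positivity
    linarith
  · obtain ⟨lam, hlam⟩ : ∃ lam : ℕ, lam = Nat.log 2 d := ⟨_, rfl⟩
    have hl1 : 2 ^ lam ≤ d := by rw [hlam]; exact Nat.pow_log_le_self 2 (by omega)
    have hl2 : d < 2 ^ (lam + 1) := by rw [hlam]; exact Nat.lt_pow_succ_log_self (by norm_num) d
    have hlL : L0 ≤ lam := by rw [hlam]; exact Nat.le_log_of_pow_le (by norm_num) hdL
    have hdR : (2 : ℝ) ^ lam ≤ (d : ℝ) := by exact_mod_cast hl1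
    have hdg : d ≤ Nat.card G := by
      have := QF1_trace hQ (by omega)
      have h5 : (d : ℝ) ≤ (Nat.card G : ℝ) := by rw [hGF]; linarith
      exact_mod_cast h5
    have hphi := phi_num d lam (by omega) hl1 hl2
    have hlamR : (2600 : ℝ) ≤ lam := by exact_mod_cast (by omega : 2600 ≤ lam)
    have hlog0 : 0 ≤ Real.log lam / lam := div_nonneg (Real.log_nonneg (by linarith)) (by linarith)
    have hphi0 : 0 ≤ Real.log (Real.log ((d : ℝ) + 2)) / Real.log ((d : ℝ) + 2) := by linarith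
    have hm' : C1 * (Real.log (Real.log (Nat.card G)) + Real.log (Nat.card (ConjClasses G)) * (Real.log lam / lam)) ≤ m := by
      refine le_trans ?_ hm
      have e2 : Real.log (Real.log (Nat.card G)) + Real.log (Nat.card (ConjClasses G)) * (Real.log lam / lam)
          ≤ 2 * (Real.log (Real.log (Nat.card G)) + Real.log (Nat.card (ConjClasses G)) *
            (Real.log (Real.log ((d : ℝ) + 2)) / Real.log ((d : ℝ) + 2))) := by
        have := mul_le_mul_of_nonneg_left hphi hlk
        linarith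
      have e3 : 0 ≤ Real.log (Real.log (Nat.card G)) + Real.log (Nat.card (ConjClasses G)) *
            (Real.log (Real.log ((d : ℝ) + 2)) / Real.log ((d : ℝ) + 2)) := by positivity
      calc C1 * (Real.log (Real.log (Nat.card G)) + Real.log (Nat.card (ConjClasses G)) * (Real.log lam / lam))
          ≤ C1 * (2 * (Real.log (Real.log (Nat.card G)) + Real.log (Nat.card (ConjClasses G)) *
            (Real.log (Real.log ((d : ℝ) + 2)) / Real.log ((d : ℝ) + 2)))) :=
            mul_le_mul_of_nonneg_left e2 (by linarith)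
        _ = (2 * C1) * (Real.log (Real.log (Nat.card G)) + Real.log (Nat.card (ConjClasses G)) *
            (Real.log (Real.log ((d : ℝ) + 2)) / Real.log ((d : ℝ) + 2))) := by ring
        _ ≤ _ := mul_le_mul_of_nonneg_right (by linarith) e3
    obtain ⟨N, h, I, J, t, hh, hN1, hJ1, hJ2, hN2, ht, hg, hNm, hfr⟩ :=
      h1 _ _ m lam hk2 hkg hlL (hl1.trans hdg) hm'
    have hg' : Fintype.card G < 2 ^ (2 ^ I) := by rwa [← hGF]
    have hfin := final_B (G := G) (by omega) hNm (le_trans (quasi_all (G := G) (N := N) hQ lam (by omega) hdR h I J _ t hh rfl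
      hN1 hJ1 hJ2 hN2 ht hg') hfr)
    refine QF1_fin _ d (lam + 1) hk2 hd1 ?_ _ hcard0 hfin
    have hx : (d : ℝ) < 2 ^ (lam + 1) := by exact_mod_cast hl2
    exact hx.le

end Pool.Agent.BC5
end

section
set_option autoImplicit false
set_option linter.unusedSectionVars false
set_option linter.unusedVariables false
open scoped BigOperators Matrix
open Matrix
namespace Pool.Agent.BC5


theorem QF2_Jm_transpose {G : Type} [Group G] [Fintype G] [DecidableEq G] : (Jm G)ᵀ = Jm G := by
  ext x y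
  simp [Jm, Matrix.transpose_apply]

theorem QR_of_submodule {G : Type} [Group G] [Fintype G] [DecidableEq G] (d : ℕ)
    (hW : ∀ W : Submodule ℝ (G → ℝ), W ≠ ⊥ → (∀ f ∈ W, ∑ᶠ x, f x = 0) →
      (∀ f ∈ W, ∀ g : G, (fun x => f (g * x)) ∈ W) → d ≤ Module.finrank ℝ W) : QR G d := by
  intro P hP hPL hP0 hPJ
  set T : (G → ℝ) →ₗ[ℝ] (G → ℝ) := Matrix.toLin' P with hT
  have hTa : ∀ f, T f = P *ᵥ f := fun f => Matrix.toLin'_apply P f
  have hTT : ∀ f, T (T f) = T f := by
    intro f
    rw [hTa, hTa, Matrix.mulVec_mulVec, hP.2]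
  have hproj : LinearMap.IsProj (LinearMap.range T) T := by
    refine ⟨fun f => LinearMap.mem_range_self T f, ?_⟩
    rintro f ⟨g, rfl⟩
    exact hTT g
  have htr : P.trace = (Module.finrank ℝ (LinearMap.range T) : ℝ) := by
    rw [← hproj.trace, hT, Matrix.trace_toLin'_eq]
  have hfix : ∀ f ∈ LinearMap.range T, P *ᵥ f = f := by
    rintro f ⟨g, rfl⟩
    rw [← hTa, hTT]
  have hmem : ∀ f, P *ᵥ f = f → f ∈ LinearMap.range T := by
    intro f hf
    exact ⟨f, by rw [hTa, hf]⟩
  have hJP : Jm G * P = 0 := by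
    have h1 := congrArg Matrix.transpose hPJ
    rw [Matrix.transpose_mul, QF2_Jm_transpose, hP.1, Matrix.transpose_zero] at h1
    exact h1
  have h := hW (LinearMap.range T) ?_ ?_ ?_
  · rw [htr]
    exact_mod_cast h
  · intro hbot
    apply hP0
    apply Matrix.ext_of_mulVec_single
    intro i
    have h1 : T (Pi.single i 1) ∈ LinearMap.range T := LinearMap.mem_range_self T _
    rw [hbot, Submodule.mem_bot, hTa] at h1
    rw [h1, Matrix.zero_mulVec]
  · intro f hf
    have h1 : Jm G *ᵥ f = 0 := by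
      rw [← hfix f hf, Matrix.mulVec_mulVec, hJP, Matrix.zero_mulVec]
    have h2 := congrFun h1 1
    simp only [Jm, Matrix.mulVec, dotProduct, Matrix.of_apply, Pi.zero_apply] at h2
    rw [← Finset.mul_sum] at h2
    have h3 : ((Fintype.card G : ℝ))⁻¹ ≠ 0 := by
      apply inv_ne_zero
      exact_mod_cast Fintype.card_ne_zero
    rw [finsum_eq_sum_of_fintype]
    exact (mul_eq_zero.1 h2).resolve_left h3
  · intro f hf g
    have h1 : (fun x => f (g * x)) = Lm g⁻¹ *ᵥ f := by
      funext x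
      rw [Lm_mulVec, inv_inv]
    rw [h1]
    apply hmem
    rw [Matrix.mulVec_mulVec, (hPL g⁻¹).eq, ← Matrix.mulVec_mulVec, hfix f hf]

theorem quasi_general : ∃ C : ℝ, ∀ (G : Type) [Group G] [Finite G] (d m : ℕ), 3 ≤ Nat.card G → 1 ≤ d →
    (∀ W : Submodule ℝ (G → ℝ), W ≠ ⊥ → (∀ f ∈ W, ∑ᶠ x, f x = 0) →
      (∀ f ∈ W, ∀ g : G, (fun x => f (g * x)) ∈ W) → d ≤ Module.finrank ℝ W) →
    C * (Real.log (Real.log (Nat.card G)) + Real.log (Nat.card (ConjClasses G)) *
      (Real.log (Real.log ((d : ℝ) + 2)) / Real.log ((d : ℝ) + 2))) ≤ m →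
    1 - 1 / ((Nat.card (ConjClasses G) : ℝ) * d) ≤ probExpd G m (1 / 8) := by
  obtain ⟨C, _, hC⟩ := quasi_main
  refine ⟨C, ?_⟩
  intro G _ _ d m hG hd hW hm
  classical
  have : Fintype G := Fintype.ofFinite G
  exact le_probExpd (hC G d m hG hd (QR_of_submodule d hW) hm)

end Pool.Agent.BC5
end

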