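import Pool.Agent.Lib.MP_bc5a73_al.Averages

section
set_option autoImplicit false
set_option linter.unusedSectionVars false
set_option linter.unusedVariables false
open scoped BigOperators Matrix
open Matrix
namespace Pool.Agent.BC5


theorem QN3_pow (a c : ℕ) (h : a + 2 ≤ c) : (2 : ℝ) ^ a * (1 / 2 : ℝ) ^ c ≤ 1 / 4 := by
  obtain ⟨e, rfl⟩ := Nat.exists_eq_add_of_le h
  have h1 : (2 : ℝ) ^ a * (1 / 2 : ℝ) ^ a = 1 := by
    rw [← mul_pow]
    norm_num
  have h2 : (1 / 2 : ℝ) ^ e ≤ 1 := pow_le_one₀ (by norm_num) (by norm_num)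
  calc (2 : ℝ) ^ a * (1 / 2 : ℝ) ^ (a + 2 + e)
      = ((2 : ℝ) ^ a * (1 / 2 : ℝ) ^ a) * (1 / 2 : ℝ) ^ 2 * (1 / 2 : ℝ) ^ e := by
        rw [pow_add, pow_add]
        ring
    _ = (1 / 4 : ℝ) * (1 / 2 : ℝ) ^ e := by
        rw [h1]
        norm_num
    _ ≤ 1 / 4 := by
        nlinarith [h2]

theorem QN3_mul (K x : ℝ) (a b c : ℕ) (hK : K ≤ 2 ^ a) (hx0 : 0 ≤ x) (hx : x ≤ 2 ^ b * (1 / 2 : ℝ) ^ c)
    (h : a + b + 2 ≤ c) : K * x ≤ 1 / 4 := by
  calc K * x ≤ 2 ^ a * x := mul_le_mul_of_nonneg_right hK hx0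
    _ ≤ 2 ^ a * (2 ^ b * (1 / 2 : ℝ) ^ c) := mul_le_mul_of_nonneg_left hx (by positivity)
    _ = 2 ^ (a + b) * (1 / 2 : ℝ) ^ c := by
        rw [pow_add]
        ring
    _ ≤ 1 / 4 := QN3_pow _ _ h

theorem quasi_fail (k lam N h I J t κ : ℕ) (hk : 1 ≤ k) (hκ : k ≤ 2 ^ κ) (hJ : J + 1 ≤ 2 ^ N) (hI : I + 1 ≤ 2 ^ N)
    (h1 : 2561 * N + 2 * κ + lam + 3 + 50 * t ≤ lam * t) (h3 : 3 * N + 2 * κ + 5 + lam ≤ h * lam) :
    (k : ℝ) * (2 ^ N * (2 ^ (2560 * N) * (2 ^ 50 / 2 ^ lam) ^ t) +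
        (((J : ℝ) + 1) * (4 ^ N * (1 / 2 : ℝ) ^ (80 * h * lam)) +
        ((I : ℝ) + 1) * (4 ^ (N + 1) * (1 / 2 : ℝ) ^ (h * lam)))) ≤ 1 / ((k : ℝ) * 2 ^ (lam + 1)) := by
  have hk0 : (0 : ℝ) < k := by exact_mod_cast hk
  have hkκ : (k : ℝ) ≤ 2 ^ κ := by exact_mod_cast hκ
  have hJ' : (J : ℝ) + 1 ≤ 2 ^ N := by exact_mod_cast hJ
  have hI' : (I : ℝ) + 1 ≤ 2 ^ N := by exact_mod_cast hI
  have hK : (k : ℝ) * k * 2 ^ (lam + 1) ≤ 2 ^ (2 * κ + (lam + 1)) := by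
    have e1 : (2 : ℝ) ^ (2 * κ + (lam + 1)) = 2 ^ κ * 2 ^ κ * 2 ^ (lam + 1) := by
      rw [← pow_add, ← pow_add]
      congr 1
      ring
    have e2 : (0 : ℝ) ≤ 2 ^ (lam + 1) := by positivity
    rw [e1]
    exact mul_le_mul_of_nonneg_right (mul_le_mul hkκ hkκ hk0.le (by positivity)) e2
  have h4 : (4 : ℝ) = 2 ^ 2 := by norm_num
  have hA : (2 : ℝ) ^ N * (2 ^ (2560 * N) * (2 ^ 50 / 2 ^ lam) ^ t) =
      2 ^ (2561 * N + 50 * t) * (1 / 2 : ℝ) ^ (lam * t) := by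
    have e1 : (2 : ℝ) ^ (2561 * N + 50 * t) = 2 ^ N * 2 ^ (2560 * N) * 2 ^ (50 * t) := by
      rw [← pow_add, ← pow_add]
      congr 1
      ring
    rw [e1, div_pow, ← pow_mul, ← pow_mul, one_div, inv_pow, div_eq_mul_inv]
    ring
  have hB : ((J : ℝ) + 1) * (4 ^ N * (1 / 2 : ℝ) ^ (80 * h * lam)) ≤
      2 ^ (3 * N) * (1 / 2 : ℝ) ^ (80 * h * lam) := by
    have e1 : (2 : ℝ) ^ (3 * N) = 2 ^ N * 4 ^ N := by
      rw [h4, ← pow_mul, ← pow_add]
      congr 1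
      ring
    have e2 : (0 : ℝ) ≤ 4 ^ N * (1 / 2 : ℝ) ^ (80 * h * lam) := by positivity
    have e3 := mul_le_mul_of_nonneg_right hJ' e2
    rw [e1]
    linarith [mul_assoc ((2 : ℝ) ^ N) (4 ^ N) ((1 / 2 : ℝ) ^ (80 * h * lam))]
  have hC : ((I : ℝ) + 1) * (4 ^ (N + 1) * (1 / 2 : ℝ) ^ (h * lam)) ≤
      2 ^ (3 * N + 2) * (1 / 2 : ℝ) ^ (h * lam) := by
    have e1 : (2 : ℝ) ^ (3 * N + 2) = 2 ^ N * 4 ^ (N + 1) := by
      rw [h4, ← pow_mul, ← pow_add]
      congr 1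
      ring
    have e2 : (0 : ℝ) ≤ 4 ^ (N + 1) * (1 / 2 : ℝ) ^ (h * lam) := by positivity
    have e3 := mul_le_mul_of_nonneg_right hI' e2
    rw [e1]
    linarith [mul_assoc ((2 : ℝ) ^ N) (4 ^ (N + 1)) ((1 / 2 : ℝ) ^ (h * lam))]
  have h80 : h * lam ≤ 80 * h * lam := by
    rw [mul_assoc]
    exact Nat.le_mul_of_pos_left _ (by norm_num)
  have tA := QN3_mul ((k : ℝ) * k * 2 ^ (lam + 1)) _ _ _ _ hK (by positivity) (le_of_eq hA) (by omega)
  have tB := QN3_mul ((k : ℝ) * k * 2 ^ (lam + 1)) _ _ _ _ hK (by positivity) hB (by omega)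
  have tC := QN3_mul ((k : ℝ) * k * 2 ^ (lam + 1)) _ _ _ _ hK (by positivity) hC (by omega)
  rw [le_div_iff₀ (by positivity)]
  have e : (k : ℝ) * (2 ^ N * (2 ^ (2560 * N) * (2 ^ 50 / 2 ^ lam) ^ t) +
        (((J : ℝ) + 1) * (4 ^ N * (1 / 2 : ℝ) ^ (80 * h * lam)) +
        ((I : ℝ) + 1) * (4 ^ (N + 1) * (1 / 2 : ℝ) ^ (h * lam)))) * ((k : ℝ) * 2 ^ (lam + 1)) =
      ((k : ℝ) * k * 2 ^ (lam + 1)) * (2 ^ N * (2 ^ (2560 * N) * (2 ^ 50 / 2 ^ lam) ^ t)) +
      (((k : ℝ) * k * 2 ^ (lam + 1)) * (((J : ℝ) + 1) * (4 ^ N * (1 / 2 : ℝ) ^ (80 * h * lam))) +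
      ((k : ℝ) * k * 2 ^ (lam + 1)) * (((I : ℝ) + 1) * (4 ^ (N + 1) * (1 / 2 : ℝ) ^ (h * lam)))) := by
    ring
  rw [e]
  linarith

end Pool.Agent.BC5
end

section
set_option autoImplicit false
set_option linter.unusedSectionVars false
set_option linter.unusedVariables false
open scoped BigOperators Matrix
open Matrix
namespace Pool.Agent.BC5


theorem QN4_pow (l : ℕ) (hl : 30 ≤ l) : 2 ^ 24 * l ≤ 2 ^ (l - 1) := by
  obtain ⟨k, rfl⟩ := Nat.exists_eq_add_of_le hl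
  induction k with
  | zero => norm_num
  | succ k ih =>
    have h1 := ih (by omega)
    have h2 : 30 + (k + 1) - 1 = (30 + k - 1) + 1 := by omega
    rw [h2, pow_succ]
    have h3 : (2 : ℕ) ^ 24 ≤ 2 ^ (30 + k - 1) := Nat.pow_le_pow_right (by norm_num) (by omega)
    calc 2 ^ 24 * (30 + (k + 1)) = 2 ^ 24 * (30 + k) + 2 ^ 24 := by ring
      _ ≤ 2 ^ (30 + k - 1) + 2 ^ (30 + k - 1) := Nat.add_le_add h1 h3
      _ = 2 ^ (30 + k - 1) * 2 := by ring

theorem quasi_choice (lam κ I : ℕ) (hlam : 2 ^ 30 ≤ lam) : ∃ N h J t : ℕ,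
    N = 2 ^ 19 * (κ * Nat.clog 2 lam / lam + 1 + Nat.clog 2 lam + I) ∧ 1 ≤ h ∧ 4096 ≤ N - N / 8 ∧
    40 * 2 ^ J + 40 ≤ lam ∧ lam < 40 * 2 ^ (J + 1) + 40 ∧ 96 * (h * (J + 2) + I) ≤ N ∧
    2 ^ 25 * t ≤ 2560 * (N - N / 8) ∧ J + 1 ≤ 2 ^ N ∧ I + 1 ≤ 2 ^ N ∧
    2561 * N + 2 * κ + lam + 3 + 50 * t ≤ lam * t ∧ 3 * N + 2 * κ + 5 + lam ≤ h * lam := by
  have hlam' : 1073741824 ≤ lam := by norm_num at hlam; exact hlam
  set l := Nat.clog 2 lam with hl
  have hle : lam ≤ 2 ^ l := Nat.le_pow_clog (by norm_num) lam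
  have hl30 : 30 ≤ l := by
    by_contra hc
    have h1 : l ≤ 29 := by omega
    have h2 : (2 : ℕ) ^ l ≤ 2 ^ 29 := Nat.pow_le_pow_right (by norm_num) h1
    have h3 : (2 : ℕ) ^ 29 = 536870912 := by norm_num
    omega
  have hlt : 2 ^ (l - 1) < lam := by
    have := Nat.pow_pred_clog_lt_self (b := 2) (by norm_num) (x := lam) (by omega)
    simpa [hl, Nat.pred_eq_sub_one] using this
  have hlaml : 16777216 * l ≤ lam := by
    have h1 := QN4_pow l hl30
    have h2 : (2 : ℕ) ^ 24 = 16777216 := by norm_num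
    rw [h2] at h1
    omega
  set q := κ * l / lam with hq
  have hq1 : κ * l < lam * (q + 1) := by
    have := Nat.lt_mul_div_succ (κ * l) (b := lam) (by omega)
    simpa [hq, Nat.mul_comm] using this
  set A := q + 1 + l + I with hA
  clear_value A q l
  have hlampos : 0 < lam := by omega
  -- J
  set M := (lam - 40) / 40 with hM
  have hMpos : M ≠ 0 := by omega
  set J := Nat.log 2 M with hJ
  have hJ1 : 2 ^ J ≤ M := Nat.pow_log_le_self 2 hMpos
  have hJ2 : M < 2 ^ (J + 1) := Nat.lt_pow_succ_log_self (by norm_num) M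
  have hJ3 : 40 * 2 ^ J + 40 ≤ lam := by
    have : 40 * M ≤ lam - 40 := by
      have := Nat.mul_div_le (lam - 40) 40
      simpa [hM] using this
    omega
  have hJ4 : lam < 40 * 2 ^ (J + 1) + 40 := by
    have : lam - 40 < 40 * (M + 1) := by
      have := Nat.lt_mul_div_succ (lam - 40) (b := 40) (by norm_num)
      simpa [hM] using this
    omega
  have hJl : J + 2 ≤ l := by
    have h1 : (2 : ℕ) ^ (J + 2) < 2 ^ l := by
      have : (2 : ℕ) ^ (J + 2) = 4 * 2 ^ J := by ring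
      omega
    exact le_of_lt ((Nat.pow_lt_pow_iff_right (by norm_num)).1 h1)
  obtain ⟨h, hh⟩ : ∃ h, h = (3 * (524288 * A) + 2 * κ + 5) / lam + 2 := ⟨_, rfl⟩
  have hh1 : 3 * (524288 * A) + 2 * κ + 5 + lam ≤ h * lam := by
    have h1 := Nat.lt_mul_div_succ (3 * (524288 * A) + 2 * κ + 5) (b := lam) hlampos
    rw [hh]
    have h2 : ((3 * (524288 * A) + 2 * κ + 5) / lam + 2) * lam
        = lam * ((3 * (524288 * A) + 2 * κ + 5) / lam + 1) + lam := by ring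
    rw [h2]
    have h3 : lam * ((3 * (524288 * A) + 2 * κ + 5) / lam + 1) = lam * ((3 * (524288 * A) + 2 * κ + 5) / lam).succ := rfl
    omega
  have hh2 : h * lam ≤ 3 * (524288 * A) + 2 * κ + 5 + 2 * lam := by
    have h1 := Nat.div_mul_le_self (3 * (524288 * A) + 2 * κ + 5) lam
    rw [hh, Nat.add_mul]
    omega
  have hh0 : 1 ≤ h := by
    rw [hh]
    exact le_trans (by norm_num) (Nat.le_add_left 2 _)
  have hκ : κ ≤ κ * l := Nat.le_mul_of_pos_right _ (by omega)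
  have hqA : q + 1 ≤ A := by omega
  have hlA : l ≤ A := by omega
  have hIA : I ≤ A := by omega
  have hlamA1 : lam * (q + 1) ≤ lam * A := Nat.mul_le_mul_left _ hqA
  have hlamA2 : lam * l ≤ lam * A := Nat.mul_le_mul_left _ hlA
  have hlamA3 : lam * I ≤ lam * A := Nat.mul_le_mul_left _ hIA
  have hlamA4 : lam ≤ lam * A := Nat.le_mul_of_pos_right _ (by omega)
  have hlamA5 : 1073741824 * A ≤ lam * A := Nat.mul_le_mul_right _ hlam'
  have hlamA6 : 16777216 * l * A ≤ lam * A := Nat.mul_le_mul_right _ hlaml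
  have hNpow : 524288 * A < 2 ^ (524288 * A) := Nat.lt_two_pow_self
  refine ⟨524288 * A, h, J, 35 * A, by rw [hA]; norm_num, hh0, by omega, hJ3, hJ4, ?_, ?_, by omega, by omega, ?_, hh1⟩
  · have key : lam * (96 * (h * (J + 2) + I)) ≤ lam * (524288 * A) := by
      have e1 : h * (J + 2) * lam ≤ h * l * lam := by
        apply Nat.mul_le_mul_right; exact Nat.mul_le_mul_left _ hJl
      have e2 : h * l * lam = (h * lam) * l := by ring
      have e3 : (h * lam) * l ≤ (3 * (524288 * A) + 2 * κ + 5 + 2 * lam) * l := Nat.mul_le_mul_right _ hh2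
      have e4 : (3 * (524288 * A) + 2 * κ + 5 + 2 * lam) * l
          = 1572864 * (l * A) + 2 * (κ * l) + 5 * l + 2 * (lam * l) := by ring
      have e5 : lam * (96 * (h * (J + 2) + I)) = 96 * (h * (J + 2) * lam) + 96 * (lam * I) := by ring
      have e6 : lam * (524288 * A) = 524288 * (lam * A) := by ring
      have e7 : 16777216 * l * A = 16777216 * (l * A) := by ring
      rw [e5, e6]
      rw [e7] at hlamA6
      have e8 : l ≤ lam := by omega
      omega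
    exact Nat.le_of_mul_le_mul_left key hlampos
  · have e1 : 524288 * A - 524288 * A / 8 = 458752 * A := by omega
    rw [e1]
    have e2 : (2 : ℕ) ^ 25 = 33554432 := by norm_num
    rw [e2]
    omega
  · have e1 : lam * (35 * A) = 35 * (lam * A) := by ring
    rw [e1]
    omega

end Pool.Agent.BC5
end

section
set_option autoImplicit false
set_option linter.unusedSectionVars false
set_option linter.unusedVariables false
open scoped BigOperators Matrix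
open Matrix
namespace Pool.Agent.BC5


theorem QN1_clog (n : ℕ) (hn : 2 ≤ n) : (Nat.clog 2 n : ℝ) ≤ Real.log n / Real.log 2 + 1 := by
  have hl2 : 0 < Real.log 2 := Real.log_pos (by norm_num)
  have h1 : 2 ^ (Nat.clog 2 n).pred < n := Nat.pow_pred_clog_lt_self (by norm_num) (by omega)
  have hpos : 0 < Nat.clog 2 n := Nat.clog_pos (by norm_num) hn
  have h2 : ((2 : ℝ)) ^ (Nat.clog 2 n - 1) < n := by
    have : ((2 ^ (Nat.clog 2 n).pred : ℕ) : ℝ) < n := by exact_mod_cast h1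
    simpa [Nat.pred_eq_sub_one] using this
  have h3 := Real.log_lt_log (by positivity) h2
  rw [Real.log_pow, Nat.cast_sub hpos] at h3
  have h4 : (Nat.clog 2 n : ℝ) - 1 ≤ Real.log n / Real.log 2 := by
    rw [le_div_iff₀ hl2]
    push_cast at h3
    exact h3.le
  linarith

theorem quasi_num : ∃ C : ℝ, 1 ≤ C ∧ ∃ L0 : ℕ, 2600 ≤ L0 ∧ ∀ k g m lam : ℕ, 2 ≤ k → k ≤ g → L0 ≤ lam → 2 ^ lam ≤ g →
    C * (Real.log (Real.log g) + Real.log k * (Real.log lam / lam)) ≤ m →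
    ∃ N h I J t : ℕ, 1 ≤ h ∧ 4096 ≤ N - N / 8 ∧ 40 * 2 ^ J + 40 ≤ lam ∧ lam < 40 * 2 ^ (J + 1) + 40 ∧
      96 * (h * (J + 2) + I) ≤ N ∧ 2 ^ 25 * t ≤ 2560 * (N - N / 8) ∧ g < 2 ^ (2 ^ I) ∧ 2560 * N ≤ m ∧
      (k : ℝ) * (2 ^ N * (2 ^ (2560 * N) * (2 ^ 50 / 2 ^ lam) ^ t) +
        (((J : ℝ) + 1) * (4 ^ N * (1 / 2 : ℝ) ^ (80 * h * lam)) +
        ((I : ℝ) + 1) * (4 ^ (N + 1) * (1 / 2 : ℝ) ^ (h * lam)))) ≤ 1 / ((k : ℝ) * 2 ^ (lam + 1)) := by
  refine ⟨2560 * 2 ^ 19 * 9, by norm_num, ?_⟩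
  obtain ⟨L0, hL0⟩ : ∃ L : ℕ, L = 2 ^ 30 := ⟨_, rfl⟩
  have hL1 : 2600 ≤ L0 := by rw [hL0]; norm_num
  refine ⟨L0, hL1, ?_⟩
  intro k g m lam hk hkg hlam hg hm
  have hl2 : 0 < Real.log 2 := Real.log_pos (by norm_num)
  have hl2a : (0.69 : ℝ) < Real.log 2 := by have := Real.log_two_gt_d9; linarith
  have hl2b : Real.log 2 < (0.7 : ℝ) := by have := Real.log_two_lt_d9; linarith
  have hlamN : 2 ^ 30 ≤ lam := hL0 ▸ hlam
  have hlamR : (2 : ℝ) ^ 30 ≤ lam := by exact_mod_cast hlamN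
  have hlampos : (0 : ℝ) < lam := lt_of_lt_of_le (by positivity) hlamR
  have hlam2 : 2 ≤ lam := by omega
  have hloglam : 30 * Real.log 2 ≤ Real.log lam := by
    have h := Real.log_le_log (by positivity) hlamR
    rw [Real.log_pow] at h
    exact_mod_cast h
  have hlogg : (lam : ℝ) * Real.log 2 ≤ Real.log g := by
    have h0 : (2 : ℝ) ^ lam ≤ g := by exact_mod_cast hg
    have h := Real.log_le_log (by positivity) h0
    rwa [Real.log_pow] at h
  have hloggpos : 0 < Real.log g := lt_of_lt_of_le (by positivity) hlogg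
  -- log lam ≤ 2 log log g
  set x := Real.log (Real.log g) with hx
  have hlamlog : Real.log lam ≤ Real.log 2 + x := by
    have h1 : (lam : ℝ) ≤ 2 * Real.log g := by nlinarith
    have h := Real.log_le_log hlampos h1
    rwa [Real.log_mul (by norm_num) hloggpos.ne'] at h
  have hx1 : 19 ≤ x := by linarith
  have hkpos : (0 : ℝ) < k := by exact_mod_cast (by omega : 0 < k)
  have hlogk : Real.log 2 ≤ Real.log k := Real.log_le_log (by norm_num) (by exact_mod_cast hk)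
  -- clog bounds
  have hκ : (Nat.clog 2 k : ℝ) ≤ 4 * Real.log k := by
    have h := QN1_clog k hk
    have h2 : Real.log k / Real.log 2 ≤ 1.5 * Real.log k := by
      rw [div_le_iff₀ hl2]
      nlinarith
    linarith
  have hℓ : (Nat.clog 2 lam : ℝ) ≤ 2 * Real.log lam := by
    have h := QN1_clog lam hlam2
    have h2 : Real.log lam / Real.log 2 ≤ 1.5 * Real.log lam := by
      rw [div_le_iff₀ hl2]
      nlinarith
    linarith
  have hg1 : 1 ≤ g := by omega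
  have hg4 : 2 ≤ Nat.log 2 g + 1 := by
    have h1 : lam ≤ Nat.log 2 g := Nat.le_log_of_pow_le (by norm_num) hg
    omega
  have hI : (Nat.clog 2 (Nat.log 2 g + 1) : ℝ) ≤ 4 * x := by
    have h := QN1_clog (Nat.log 2 g + 1) hg4
    have h1 : ((Nat.log 2 g : ℕ) : ℝ) * Real.log 2 ≤ Real.log g := by
      have h0 : (2 : ℝ) ^ (Nat.log 2 g) ≤ g := by exact_mod_cast Nat.pow_log_le_self 2 (by omega)
      have h := Real.log_le_log (by positivity) h0
      rwa [Real.log_pow] at h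
    have hlogg1 : 1 ≤ Real.log g := by nlinarith
    have h2 : ((Nat.log 2 g + 1 : ℕ) : ℝ) ≤ 4 * Real.log g := by
      push_cast
      nlinarith
    have h3 : Real.log ((Nat.log 2 g + 1 : ℕ) : ℝ) ≤ 2 * Real.log 2 + x := by
      have h4 := Real.log_le_log (by positivity) h2
      rw [Real.log_mul (by norm_num) hloggpos.ne', show (4 : ℝ) = 2 ^ 2 by norm_num, Real.log_pow] at h4
      exact_mod_cast h4
    have h5 : Real.log ((Nat.log 2 g + 1 : ℕ) : ℝ) / Real.log 2 ≤ 1.5 * (2 * Real.log 2 + x) := by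
      rw [div_le_iff₀ hl2]
      nlinarith
    linarith
  obtain ⟨N, h, J, t, hN, hh, hN2, hJ1, hJ2, h96, h25, hJN, hIN, h1, h3⟩ :=
    quasi_choice lam (Nat.clog 2 k) (Nat.clog 2 (Nat.log 2 g + 1)) (hL0 ▸ hlam)
  refine ⟨N, h, Nat.clog 2 (Nat.log 2 g + 1), J, t, hh, hN2, hJ1, hJ2, h96, h25, ?_, ?_, ?_⟩
  · exact lt_of_lt_of_le (Nat.lt_pow_succ_log_self (by norm_num) g)
      (Nat.pow_le_pow_right (by norm_num) (Nat.le_pow_clog (by norm_num) _))
  · have hNR : (N : ℝ) ≤ 2 ^ 19 * ((Nat.clog 2 k : ℝ) * (Nat.clog 2 lam : ℝ) / lam + 1 + (Nat.clog 2 lam : ℝ) +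
        (Nat.clog 2 (Nat.log 2 g + 1) : ℝ)) := by
      rw [hN]
      push_cast
      have hd : ((Nat.clog 2 k * Nat.clog 2 lam / lam : ℕ) : ℝ) ≤ (Nat.clog 2 k : ℝ) * (Nat.clog 2 lam : ℝ) / lam := by
        have := @Nat.cast_div_le ℝ _ _ _ (Nat.clog 2 k * Nat.clog 2 lam) lam
        simpa using this
      linarith
    have hprod : (Nat.clog 2 k : ℝ) * (Nat.clog 2 lam : ℝ) / lam ≤ 8 * (Real.log k * (Real.log lam / lam)) := by
      have h0 : (Nat.clog 2 k : ℝ) * (Nat.clog 2 lam : ℝ) ≤ (4 * Real.log k) * (2 * Real.log lam) :=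
        mul_le_mul hκ hℓ (by positivity) (by linarith)
      calc (Nat.clog 2 k : ℝ) * (Nat.clog 2 lam : ℝ) / lam ≤ (4 * Real.log k) * (2 * Real.log lam) / lam := by gcongr
        _ = 8 * (Real.log k * (Real.log lam / lam)) := by ring
    have hy : 0 ≤ Real.log k * (Real.log lam / lam) := by
      apply mul_nonneg (by linarith)
      apply div_nonneg (by linarith) hlampos.le
    have hfin : (2560 * N : ℝ) ≤ m := by
      refine le_trans ?_ hm
      have e1 : (Nat.clog 2 k : ℝ) * (Nat.clog 2 lam : ℝ) / lam + 1 + (Nat.clog 2 lam : ℝ) +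
        (Nat.clog 2 (Nat.log 2 g + 1) : ℝ) ≤ 9 * (x + Real.log k * (Real.log lam / lam)) := by
        linarith
      calc (2560 * N : ℝ) ≤ 2560 * (2 ^ 19 * (9 * (x + Real.log k * (Real.log lam / lam)))) := by
            gcongr
            exact hNR.trans (by gcongr)
        _ = 2560 * 2 ^ 19 * 9 * (x + Real.log k * (Real.log lam / lam)) := by ring
    exact_mod_cast hfin
  · exact quasi_fail k lam N h _ J t (Nat.clog 2 k) (by omega) (Nat.le_pow_clog (by norm_num) _) hJN hIN h1 h3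

end Pool.Agent.BC5
end

section
set_option autoImplicit false
set_option linter.unusedSectionVars false
set_option linter.unusedVariables false
open scoped BigOperators Matrix
open Matrix
namespace Pool.Agent.BC5


theorem QN2_small (L0 : ℕ) : ∃ C : ℝ, 1 ≤ C ∧ ∀ k g m : ℕ, 2 ≤ k → k ≤ g → C * (Real.log k + Real.log (Real.log g)) ≤ m →
    ∃ N I : ℕ, 96 * I + 96 ≤ N ∧ g < 2 ^ (2 ^ I) ∧ 2560 * N ≤ m ∧
      (k : ℝ) * (2 * (1 / 2 : ℝ) ^ (7 * N)) ≤ 1 / ((k : ℝ) * 2 ^ L0) := by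
  refine ⟨10 ^ 7 * ((L0 : ℝ) + 1), ?_, ?_⟩
  · have : (0 : ℝ) ≤ L0 := Nat.cast_nonneg _
    norm_num
    linarith
  intro k g m hk hkg hm
  have hl2a : (0.6931471803 : ℝ) < Real.log 2 := Real.log_two_gt_d9
  have hl2b : Real.log 2 < (0.6931471808 : ℝ) := Real.log_two_lt_d9
  have hk' : (2 : ℝ) ≤ k := by exact_mod_cast hk
  have hg' : (2 : ℝ) ≤ g := by exact_mod_cast hk.trans hkg
  have hlk : Real.log 2 ≤ Real.log k := Real.log_le_log (by norm_num) hk'
  have hlg : Real.log 2 ≤ Real.log g := Real.log_le_log (by norm_num) hg'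
  have hlg0 : 0 < Real.log g := by linarith
  have hll2 : (-0.4427 : ℝ) ≤ Real.log (Real.log 2) := by
    have h1 := Real.one_sub_inv_le_log_of_pos (show (0 : ℝ) < Real.log 2 by linarith)
    have h2 : (Real.log 2)⁻¹ ≤ 1.4427 := by
      rw [inv_le_comm₀ (by linarith) (by norm_num)]
      refine le_trans ?_ hl2a.le
      norm_num
    linarith
  have hllg : Real.log (Real.log 2) ≤ Real.log (Real.log g) :=
    Real.log_le_log (by linarith) hlg
  set X := Real.log k + Real.log (Real.log g) with hX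
  have hX4 : (1 / 4 : ℝ) ≤ X := by
    have : (0.25 : ℝ) ≤ 0.6931471803 - 0.4427 := by norm_num
    linarith
  have hlkX : Real.log k ≤ 3 * X := by
    have : (0.4427 : ℝ) ≤ 2 * (1 / 4) := by norm_num
    linarith
  have hllX : Real.log (Real.log g) ≤ X := by linarith
  set L := Nat.log 2 g + 1 with hL
  set I := Nat.log 2 L + 1 with hI
  have hg0 : g ≠ 0 := by omega
  have hL0 : L ≠ 0 := by omega
  have hLb : (L : ℝ) ≤ 3 * Real.log g := by
    have h1 : ((2 : ℕ) ^ Nat.log 2 g : ℕ) ≤ g := Nat.pow_log_le_self 2 hg0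
    have h2 : ((2 : ℝ) ^ Nat.log 2 g) ≤ g := by exact_mod_cast h1
    have h3 : (Nat.log 2 g : ℝ) * Real.log 2 ≤ Real.log g := by
      rw [← Real.log_pow]
      exact Real.log_le_log (by positivity) h2
    have h4 : (L : ℝ) = (Nat.log 2 g : ℝ) + 1 := by rw [hL]; push_cast; ring
    have h5 : (L : ℝ) * Real.log 2 ≤ 2 * Real.log g := by rw [h4]; linarith
    have h6 : (L : ℝ) * 0.69 ≤ (L : ℝ) * Real.log 2 :=
      mul_le_mul_of_nonneg_left (by linarith) (by positivity)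
    have h7 : (L : ℝ) * 0.69 ≤ 2 * Real.log g := h6.trans h5
    have h8 : (L : ℝ) ≤ (2 / 0.69) * Real.log g := by
      have : (2 / 0.69 : ℝ) * Real.log g = (2 * Real.log g) / 0.69 := by ring
      rw [this, le_div_iff₀ (by norm_num)]
      exact h7
    have h9 : (2 / 0.69 : ℝ) ≤ 3 := by norm_num
    exact h8.trans (mul_le_mul_of_nonneg_right h9 hlg0.le)
  have hIb : (I : ℝ) ≤ 4 + 3 / 2 * X := by
    have h1 : ((2 : ℕ) ^ Nat.log 2 L : ℕ) ≤ L := Nat.pow_log_le_self 2 hL0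
    have h2 : ((2 : ℝ) ^ Nat.log 2 L) ≤ L := by exact_mod_cast h1
    have h3 : (Nat.log 2 L : ℝ) * Real.log 2 ≤ Real.log L := by
      rw [← Real.log_pow]
      exact Real.log_le_log (by positivity) h2
    have h4 : (I : ℝ) = (Nat.log 2 L : ℝ) + 1 := by rw [hI]; push_cast; ring
    have h5 : Real.log L ≤ 2 + X := by
      have hLpos : (0 : ℝ) < L := by exact_mod_cast Nat.pos_of_ne_zero hL0
      have h6 : Real.log L ≤ Real.log (3 * Real.log g) := Real.log_le_log hLpos hLb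
      rw [Real.log_mul (by norm_num) hlg0.ne'] at h6
      have h7 : Real.log 3 ≤ 3 - 1 := Real.log_le_sub_one_of_pos (by norm_num)
      linarith
    have h8 : (Nat.log 2 L : ℝ) * (2 / 3) ≤ (Nat.log 2 L : ℝ) * Real.log 2 :=
      mul_le_mul_of_nonneg_left (by linarith [show (2 / 3 : ℝ) < 0.6931471803 by norm_num]) (by positivity)
    rw [h4]
    linarith
  have hglt : g < 2 ^ (2 ^ I) := by
    have h1 : g < 2 ^ L := Nat.lt_pow_succ_log_self (by norm_num) g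
    have h2 : L < 2 ^ I := Nat.lt_pow_succ_log_self (by norm_num) L
    exact h1.trans (Nat.pow_lt_pow_right (by norm_num) h2)
  set N := m / 2560 with hN
  have hNm : 2560 * N ≤ m := Nat.mul_div_le m 2560
  have hNl : (m : ℝ) < 2560 * (N + 1) := by
    have : m < 2560 * (N + 1) := Nat.lt_mul_div_succ m (by norm_num)
    exact_mod_cast this
  have hL0R : (0 : ℝ) ≤ L0 := Nat.cast_nonneg _
  have hNX' : 3000 * (((L0 : ℝ) + 1) * X) ≤ (N : ℝ) := by
    have h1 : (10 : ℝ) ^ 7 * ((L0 : ℝ) + 1) * X < 2560 * (N + 1) := lt_of_le_of_lt hm hNl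
    have h2 : (1 / 4 : ℝ) ≤ ((L0 : ℝ) + 1) * X := by nlinarith
    have h3 : (10 : ℝ) ^ 7 * ((L0 : ℝ) + 1) * X = 10 ^ 7 * (((L0 : ℝ) + 1) * X) := by ring
    rw [h3] at h1
    norm_num at h1
    linarith
  have hNX : 3000 * X ≤ (N : ℝ) := by
    have : X ≤ ((L0 : ℝ) + 1) * X := by nlinarith
    linarith
  have hNL : L0 ≤ N := by
    have : (L0 : ℝ) ≤ (N : ℝ) := by nlinarith
    exact_mod_cast this
  refine ⟨N, I, ?_, hglt, hNm, ?_⟩
  · have : ((96 * I + 96 : ℕ) : ℝ) ≤ (N : ℝ) := by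
      push_cast
      linarith
    exact_mod_cast this
  · have hkpos : (0 : ℝ) < k := by linarith
    rw [le_div_iff₀ (by positivity)]
    have h1 : (k : ℝ) ≤ Real.exp N := by
      rw [← Real.exp_log hkpos]
      exact Real.exp_le_exp.2 (by linarith)
    have h2 : Real.exp 1 ≤ 4 := by linarith [Real.exp_one_lt_d9, show (2.7182818286 : ℝ) ≤ 4 by norm_num]
    have h3 : Real.exp N ≤ 4 ^ N := by
      have : Real.exp N = Real.exp 1 ^ N := by rw [← Real.exp_nat_mul, mul_one]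
      rw [this]
      exact pow_le_pow_left₀ (Real.exp_pos _).le h2 N
    have h4 : (k : ℝ) ≤ 4 ^ N := h1.trans h3
    have hN1 : 1 ≤ N := by
      have : (1 : ℝ) ≤ (N : ℝ) := by linarith
      exact_mod_cast this
    have h5 : (k : ℝ) * k ≤ 4 ^ N * 4 ^ N := mul_le_mul h4 h4 hkpos.le (by positivity)
    have h6 : (4 : ℝ) ^ N * 4 ^ N * (2 * 2 ^ L0) ≤ 2 ^ (7 * N) := by
      have e1 : (4 : ℝ) ^ N * 4 ^ N * (2 * 2 ^ L0) = 2 ^ (4 * N + 1 + L0) := by
        rw [← mul_pow, pow_add, pow_succ, pow_mul]; norm_num; ring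
      rw [e1]
      exact pow_le_pow_right₀ (by norm_num) (by omega)
    have h7 : (k : ℝ) * (2 * (1 / 2 : ℝ) ^ (7 * N)) * (k * 2 ^ L0) = (k * k * (2 * 2 ^ L0)) * (1 / 2 : ℝ) ^ (7 * N) := by ring
    rw [h7]
    have h8 : (k : ℝ) * k * (2 * 2 ^ L0) ≤ 2 ^ (7 * N) := le_trans (mul_le_mul_of_nonneg_right h5 (by positivity)) h6
    have h9 : (2 : ℝ) ^ (7 * N) * (1 / 2 : ℝ) ^ (7 * N) = 1 := by
      rw [← mul_pow]; norm_num
    calc (k : ℝ) * k * (2 * 2 ^ L0) * (1 / 2 : ℝ) ^ (7 * N) ≤ 2 ^ (7 * N) * (1 / 2 : ℝ) ^ (7 * N) :=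
          mul_le_mul_of_nonneg_right h8 (by positivity)
      _ = 1 := h9

theorem small_num (L : ℕ) : ∃ C : ℝ, 1 ≤ C ∧ ∀ k g m : ℕ, 2 ≤ k → k ≤ g → C * (Real.log k + Real.log (Real.log g)) ≤ m →
    ∃ N I : ℕ, 96 * I + 96 ≤ N ∧ g < 2 ^ (2 ^ I) ∧ 2560 * N ≤ m ∧
      (k : ℝ) * (2 * (1 / 2 : ℝ) ^ (7 * N)) ≤ 1 / ((k : ℝ) * 2 ^ L) := QN2_small L

theorem phi_num : ∀ d lam : ℕ, 2600 ≤ lam → 2 ^ lam ≤ d → d < 2 ^ (lam + 1) →
    1 / 2 * (Real.log lam / lam) ≤ Real.log (Real.log ((d : ℝ) + 2)) / Real.log ((d : ℝ) + 2) := by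
  intro d lam hlam h1 h2
  have hl2a : (0.6931471803 : ℝ) < Real.log 2 := Real.log_two_gt_d9
  have hl2b : Real.log 2 < (0.6931471808 : ℝ) := Real.log_two_lt_d9
  have hlR : (2600 : ℝ) ≤ lam := by exact_mod_cast hlam
  have hl0 : (0 : ℝ) < lam := by linarith
  have hd1 : (2 : ℝ) ^ lam ≤ d := by exact_mod_cast h1
  have hd2 : (d : ℝ) < 2 ^ (lam + 1) := by exact_mod_cast h2
  have hp2 : (2 : ℝ) ≤ 2 ^ (lam + 1) := by
    have : (2 : ℝ) ^ 1 ≤ 2 ^ (lam + 1) := pow_le_pow_right₀ (by norm_num) (by omega)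
    simpa using this
  have hup : (d : ℝ) + 2 ≤ 2 ^ (lam + 2) := by
    have : (2 : ℝ) ^ (lam + 2) = 2 ^ (lam + 1) + 2 ^ (lam + 1) := by ring
    rw [this]
    linarith
  have hd0 : (0 : ℝ) < (d : ℝ) + 2 := by positivity
  have hlogup : Real.log ((d : ℝ) + 2) ≤ lam := by
    have h3 := Real.log_le_log hd0 hup
    rw [Real.log_pow] at h3
    push_cast at h3
    nlinarith
  have hloglo : (lam : ℝ) * 0.69 ≤ Real.log ((d : ℝ) + 2) := by
    have h3 : Real.log ((2 : ℝ) ^ lam) ≤ Real.log ((d : ℝ) + 2) :=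
      Real.log_le_log (by positivity) (by linarith)
    rw [Real.log_pow] at h3
    nlinarith
  have hsq : Real.sqrt lam ≤ Real.log ((d : ℝ) + 2) := by
    refine le_trans ?_ hloglo
    have h4 : Real.sqrt lam * Real.sqrt lam = lam := Real.mul_self_sqrt hl0.le
    have h5 : (50 : ℝ) ≤ Real.sqrt lam := by
      apply Real.le_sqrt_of_sq_le
      norm_num
      linarith
    nlinarith
  have hs0 : 0 < Real.sqrt lam := Real.sqrt_pos.2 hl0
  have hll : 1 / 2 * Real.log lam ≤ Real.log (Real.log ((d : ℝ) + 2)) := by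
    have h6 := Real.log_le_log hs0 hsq
    rw [Real.log_sqrt hl0.le] at h6
    linarith
  have hlogpos : 0 < Real.log ((d : ℝ) + 2) := by linarith
  have hloglam : 0 ≤ Real.log lam := Real.log_nonneg (by linarith)
  rw [show (1 / 2 * (Real.log lam / lam) : ℝ) = (1 / 2 * Real.log lam) / lam by ring]
  calc (1 / 2 * Real.log lam) / (lam : ℝ) ≤ (1 / 2 * Real.log lam) / Real.log ((d : ℝ) + 2) := by
        apply div_le_div_of_nonneg_left (by linarith) hlogpos hlogup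
    _ ≤ _ := div_le_div_of_nonneg_right hll hlogpos.le

theorem phi_small (L : ℕ) : ∃ c : ℝ, 0 < c ∧ c ≤ 1 ∧ ∀ d : ℕ, 1 ≤ d → d < 2 ^ L →
    c ≤ Real.log (Real.log ((d : ℝ) + 2)) / Real.log ((d : ℝ) + 2) := by
  have hl2b : Real.log 2 < (0.6931471808 : ℝ) := Real.log_two_lt_d9
  have hlog3 : 1 < Real.log 3 := by
    rw [Real.lt_log_iff_exp_lt (by norm_num)]
    exact lt_trans Real.exp_one_lt_d9 (by norm_num)
  have hll3 : 0 < Real.log (Real.log 3) := Real.log_pos hlog3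
  have hLR : (0 : ℝ) ≤ L := Nat.cast_nonneg _
  refine ⟨min 1 (Real.log (Real.log 3) / (L + 2)), lt_min one_pos (by positivity), min_le_left _ _, ?_⟩
  intro d hd1 hd2
  refine (min_le_right _ _).trans ?_
  have hdR : (1 : ℝ) ≤ d := by exact_mod_cast hd1
  have hdR2 : (d : ℝ) < 2 ^ L := by exact_mod_cast hd2
  have hd3 : Real.log 3 ≤ Real.log ((d : ℝ) + 2) := Real.log_le_log (by norm_num) (by linarith)
  have hp1 : (1 : ℝ) ≤ 2 ^ L := one_le_pow₀ (by norm_num)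
  have hup : (d : ℝ) + 2 ≤ 2 ^ (L + 2) := by
    have : (2 : ℝ) ^ (L + 2) = 4 * 2 ^ L := by ring
    rw [this]
    linarith
  have hlogup : Real.log ((d : ℝ) + 2) ≤ L + 2 := by
    have h3 := Real.log_le_log (by positivity) hup
    rw [Real.log_pow] at h3
    push_cast at h3
    nlinarith
  have hlogpos : 0 < Real.log ((d : ℝ) + 2) := by linarith
  have h4 : Real.log (Real.log 3) ≤ Real.log (Real.log ((d : ℝ) + 2)) :=
    Real.log_le_log (by linarith) hd3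
  calc Real.log (Real.log 3) / ((L : ℝ) + 2) ≤ Real.log (Real.log 3) / Real.log ((d : ℝ) + 2) :=
        div_le_div_of_nonneg_left hll3.le hlogpos hlogup
    _ ≤ _ := div_le_div_of_nonneg_right h4 hlogpos.le

end Pool.Agent.BC5
end

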