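import Pool.Agent.Lib.MP_bc5a73_al.LinearAlgebra

section
set_option autoImplicit false
set_option linter.unusedSectionVars false
set_option linter.unusedVariables false
open scoped BigOperators Matrix
open Matrix
namespace Pool.Agent.BC5

/-- The set of letters of a word. -/
def letters {s p : ℕ} (a : Fin p → Fin s) : Finset (Fin s) := Finset.univ.image a

/-- The product of the matrices along a word. -/
noncomputable def wp {V : Type} [Fintype V] [DecidableEq V] {s p : ℕ} (Q : Fin s → Matrix V V ℝ) (a : Fin p → Fin s) :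
    Matrix V V ℝ := (List.ofFn (fun j => Q (a j))).prod

theorem wp_zero {V : Type} [Fintype V] [DecidableEq V] {s : ℕ} (Q : Fin s → Matrix V V ℝ) (a : Fin 0 → Fin s) :
    wp Q a = 1 := by
  simp [wp]

theorem wp_snoc {V : Type} [Fintype V] [DecidableEq V] {s p : ℕ} (Q : Fin s → Matrix V V ℝ) (a : Fin p → Fin s)
    (i : Fin s) : wp Q (Fin.snoc (α := fun _ => Fin s) a i : Fin (p + 1) → Fin s) = wp Q a * Q i := by
  unfold wp
  rw [List.ofFn_succ', List.concat_eq_append, List.prod_append]
  simp [Fin.snoc_castSucc, Fin.snoc_last]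

end Pool.Agent.BC5
end

section
set_option autoImplicit false
set_option linter.unusedSectionVars false
set_option linter.unusedVariables false
open scoped BigOperators Matrix
open Matrix
namespace Pool.Agent.BC5

/-
ROW W1. Every word with ≤ b letters (b ≤ s) has its letters in some b-subset (Finset.exists_superset_card_eq): the filter is contained in the union over powersetCard b univ of the words with letters in C
(Fintype.piFinset (fun _ => C), card b^N). card_biUnion_le. card_few: if b ≤ s: choose ≤ 2^s (Nat.choose_le_two_pow); if b > s: card ≤ s^p ≤ 2^s b^p.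
-/

/-- Words with at most `b` distinct letters. -/
theorem card_few_choose (s N b : ℕ) (hb : b ≤ s) :
    ((Finset.univ : Finset (Fin N → Fin s)).filter (fun a => (letters a).card ≤ b)).card ≤ s.choose b * b ^ N := by
  classical
  have hsub : (Finset.univ : Finset (Fin N → Fin s)).filter (fun a => (letters a).card ≤ b) ⊆
      (Finset.powersetCard b (Finset.univ : Finset (Fin s))).biUnion
        (fun C => Fintype.piFinset (fun _ : Fin N => C)) := by
    intro a ha
    rw [Finset.mem_filter] at ha
    obtain ⟨C, hC1, hC2, hC3⟩ := Finset.exists_subsuperset_card_eq (Finset.subset_univ (letters a)) ha.2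
      (by simpa using hb)
    rw [Finset.mem_biUnion]
    refine ⟨C, ?_, ?_⟩
    · rw [Finset.mem_powersetCard]
      exact ⟨Finset.subset_univ _, hC3⟩
    · rw [Fintype.mem_piFinset]
      intro i
      exact hC1 (Finset.mem_image_of_mem a (Finset.mem_univ i))
  refine (Finset.card_le_card hsub).trans ?_
  have h := Finset.card_biUnion_le_card_mul (Finset.powersetCard b (Finset.univ : Finset (Fin s)))
    (fun C => Fintype.piFinset (fun _ : Fin N => C)) (b ^ N) (fun C hC => by
      rw [Finset.mem_powersetCard] at hC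
      rw [Fintype.card_piFinset]
      simp [hC.2])
  rw [Finset.card_powersetCard, Finset.card_univ, Fintype.card_fin] at h
  exact h

/-- Paper 3.1. -/
theorem card_few (s p b : ℕ) :
    ((Finset.univ : Finset (Fin p → Fin s)).filter (fun a => (letters a).card ≤ b)).card ≤ 2 ^ s * b ^ p := by
  rcases le_or_gt b s with hb | hb
  · exact (card_few_choose s p b hb).trans (Nat.mul_le_mul_right _ (Nat.choose_le_two_pow s b))
  · calc ((Finset.univ : Finset (Fin p → Fin s)).filter (fun a => (letters a).card ≤ b)).card
        ≤ (Finset.univ : Finset (Fin p → Fin s)).card := Finset.card_filter_le _ _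
      _ = s ^ p := by simp
      _ ≤ b ^ p := Nat.pow_le_pow_left hb.le p
      _ = 1 * b ^ p := (one_mul _).symm
      _ ≤ 2 ^ s * b ^ p := Nat.mul_le_mul_right _ Nat.one_le_two_pow

end Pool.Agent.BC5
end

section
set_option autoImplicit false
set_option linter.unusedSectionVars false
set_option linter.unusedVariables false
open scoped BigOperators Matrix
open Matrix
namespace Pool.Agent.BC5

/-
ROW W2. No letter occurs exactly once ⇒ 2 * #letters ≤ 2p (each fibre has ≥ 2 elements: Finset.card_nsmul_le_card or sum over the letters of the fibre sizes = 2p). So card_few_choose with N = 2p, b = p: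
≤ C(s,p) p^(2p), C(s,p) ≤ s^p/p! (Nat.choose_le_pow_div or Nat.choose_mul_factorial: C(s,p) p! ≤ s^p), p^p ≤ 4^p p! (induction, or p^p/p! ≤ exp p: Real.pow_div_factorial_le_exp, exp 1 < 3; or
(2p choose p)-type bound), so C(s,p) p^(2p) ≤ 4^p (s p)^p ≤ (8ps)^p.
-/

theorem W2_pow_le (p : ℕ) : p ^ p ≤ 4 ^ p * p.factorial := by
  have h1 := Real.pow_div_factorial_le_exp (x := (p:ℝ)) (Nat.cast_nonneg p) p
  have h2 : Real.exp (p:ℝ) ≤ 4 ^ p := by
    have h3 : Real.exp (p:ℝ) = Real.exp 1 ^ p := by
      rw [← Real.exp_nat_mul, mul_one]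
    rw [h3]
    have h4 : Real.exp 1 ≤ 4 := by
      have := Real.exp_one_lt_d9
      linarith
    exact pow_le_pow_left₀ (Real.exp_pos 1).le h4 p
  have hf : (0:ℝ) < (p.factorial : ℝ) := by exact_mod_cast Nat.factorial_pos p
  have h5 : (p:ℝ) ^ p ≤ 4 ^ p * (p.factorial : ℝ) := by
    rw [div_le_iff₀ hf] at h1
    exact h1.trans (mul_le_mul_of_nonneg_right h2 hf.le)
  exact_mod_cast h5

theorem W2_letters (s p : ℕ) (a : Fin (2 * p) → Fin s) (ha : ∀ i, ∃ j, j ≠ i ∧ a j = a i) :
    (letters a).card ≤ p := by
  classical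
  have h := Finset.mul_card_image_le_card (f := a) (Finset.univ : Finset (Fin (2 * p))) 2 (by
    intro b hb
    rw [Finset.mem_image] at hb
    obtain ⟨i, _, hi⟩ := hb
    obtain ⟨j, hj, hji⟩ := ha i
    have h2 : ({j, i} : Finset (Fin (2 * p))).card = 2 := Finset.card_pair hj
    refine h2.symm.le.trans ?_
    apply Finset.card_le_card
    intro x hx
    rw [Finset.mem_filter]
    refine ⟨Finset.mem_univ _, ?_⟩
    rw [Finset.mem_insert, Finset.mem_singleton] at hx
    rcases hx with hx | hx
    · rw [hx, hji, hi]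
    · rw [hx, hi])
  rw [Finset.card_univ, Fintype.card_fin] at h
  have h3 : (letters a).card = (Finset.univ.image a).card := rfl
  omega

theorem W2_choose (s p : ℕ) : s.choose p * p ^ (2 * p) ≤ (8 * p * s) ^ p := by
  have hf : 0 < p.factorial := Nat.factorial_pos p
  have h1 : p.factorial * s.choose p ≤ s ^ p := by
    rw [← Nat.descFactorial_eq_factorial_mul_choose]
    exact Nat.descFactorial_le_pow s p
  have h2 := W2_pow_le p
  have h3 : p.factorial * (s.choose p * p ^ (2 * p)) ≤ p.factorial * ((8 * p * s) ^ p) := by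
    calc p.factorial * (s.choose p * p ^ (2 * p))
        = (p.factorial * s.choose p) * (p ^ p * p ^ p) := by rw [two_mul, pow_add]; ring
      _ ≤ s ^ p * (p ^ p * (4 ^ p * p.factorial)) :=
          Nat.mul_le_mul h1 (Nat.mul_le_mul_left _ h2)
      _ = p.factorial * ((4 * p * s) ^ p) := by rw [mul_pow, mul_pow]; ring
      _ ≤ p.factorial * ((8 * p * s) ^ p) := by
          apply Nat.mul_le_mul_left
          apply Nat.pow_le_pow_left
          apply Nat.mul_le_mul_right
          apply Nat.mul_le_mul_right
          norm_num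
  exact Nat.le_of_mul_le_mul_left h3 hf

/-- Paper 3.2: words in which no letter occurs exactly once. -/
theorem card_no_single (s p : ℕ) (hp : 1 ≤ p) (hps : p ≤ s) :
    ((Finset.univ : Finset (Fin (2 * p) → Fin s)).filter (fun a => ∀ i, ∃ j, j ≠ i ∧ a j = a i)).card
      ≤ (8 * p * s) ^ p := by
  classical
  refine le_trans (Finset.card_le_card ?_) ((card_few_choose s (2 * p) p hps).trans (W2_choose s p))
  intro a ha
  rw [Finset.mem_filter] at ha ⊢
  exact ⟨ha.1, W2_letters s p a ha.2⟩

end Pool.Agent.BC5
end

section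
set_option autoImplicit false
set_option linter.unusedSectionVars false
set_option linter.unusedVariables false
open scoped BigOperators Matrix
open Matrix
namespace Pool.Agent.BC5

/-
ROW W3. Induction on p: pow_succ, the equivalence Fin.snocEquiv / (Fin (p+1) → Fin s) ≃ (Fin p → Fin s) × Fin s (Fin.snoc, Fin.init), wp_snoc, Finset.sum_mul_sum / Finset.sum_product.
-/

theorem sum_pow_eq_wp {V : Type} [Fintype V] [DecidableEq V] {s : ℕ} (Q : Fin s → Matrix V V ℝ) (p : ℕ) :
    (∑ i, Q i) ^ p = ∑ a : Fin p → Fin s, wp Q a := by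
  induction p with
  | zero =>
    rw [pow_zero, Fintype.sum_unique, wp_zero]
  | succ p ih =>
    rw [pow_succ, ih, Finset.sum_mul_sum]
    rw [← Equiv.sum_comp (Fin.snocEquiv (fun _ : Fin (p + 1) => Fin s)) (fun a => wp Q a)]
    rw [Fintype.sum_prod_type, Finset.sum_comm]
    refine Finset.sum_congr rfl fun i _ => Finset.sum_congr rfl fun a _ => ?_
    exact (wp_snoc Q a i).symm

end Pool.Agent.BC5
end

section
set_option autoImplicit false
set_option linter.unusedSectionVars false
set_option linter.unusedVariables false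
open scoped BigOperators Matrix
open Matrix
namespace Pool.Agent.BC5

/-
ROW W4. Section 5. Split the words: those with ≤ b letters have weight ≤ 1 (φ ≤ 1) and there are ≤ 2^s b^p of them (card_few; h1), the others have weight ≤ φ^(b+1) ≤ β^p (h2, antitone power) and there are ≤ s^p of them.
-/

/-- The weights in the stage lemma (paper section 5). -/
theorem weight_sum_le (s p b : ℕ) (φ β : ℝ) (hφ0 : 0 ≤ φ) (hφ1 : φ ≤ 1) (hβ : 0 ≤ β)
    (h1 : (2 : ℝ) ^ s * (b : ℝ) ^ p ≤ β ^ p * (s : ℝ) ^ p) (h2 : φ ^ (b + 1) ≤ β ^ p) :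
    ∑ a : Fin p → Fin s, φ ^ (letters a).card ≤ 2 * β ^ p * (s : ℝ) ^ p := by
  have hpt : ∀ a : Fin p → Fin s,
      φ ^ (letters a).card ≤ (if (letters a).card ≤ b then (1 : ℝ) else 0) + β ^ p := by
    intro a
    have hβp : 0 ≤ β ^ p := pow_nonneg hβ p
    by_cases h : (letters a).card ≤ b
    · rw [if_pos h]
      have := pow_le_one₀ hφ0 hφ1 (n := (letters a).card)
      linarith only [this, hβp]
    · rw [if_neg h, zero_add]
      exact (pow_le_pow_of_le_one hφ0 hφ1 (by omega)).trans h2
  have hcard : (((Finset.univ : Finset (Fin p → Fin s)).filter (fun a => (letters a).card ≤ b)).card : ℝ) ≤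
      (2 : ℝ) ^ s * (b : ℝ) ^ p := by
    have := card_few s p b
    exact_mod_cast this
  calc ∑ a : Fin p → Fin s, φ ^ (letters a).card
      ≤ ∑ a : Fin p → Fin s, ((if (letters a).card ≤ b then (1 : ℝ) else 0) + β ^ p) :=
        Finset.sum_le_sum fun a _ => hpt a
    _ = (((Finset.univ : Finset (Fin p → Fin s)).filter (fun a => (letters a).card ≤ b)).card : ℝ) +
        (s : ℝ) ^ p * β ^ p := by
        rw [Finset.sum_add_distrib, Finset.sum_boole, Finset.sum_const, Finset.card_univ,
          Fintype.card_fun, Fintype.card_fin, Fintype.card_fin, nsmul_eq_mul, Nat.cast_pow]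
    _ ≤ 2 * β ^ p * (s : ℝ) ^ p := by
        have := hcard.trans h1
        linarith only [this, mul_comm ((s : ℝ) ^ p) (β ^ p)]

end Pool.Agent.BC5
end

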