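import Pool.Agent.Lib.MP_bc5a73_al.Regular
import Pool.Agent.Lib.MP_bc5a73_al.Words

section
set_option autoImplicit false
set_option linter.unusedSectionVars false
set_option linter.unusedVariables false
open scoped BigOperators Matrix
open Matrix
namespace Pool.Agent.BC5

variable {G : Type} [Group G] [Fintype G] [DecidableEq G]

/-- The conjugates of `P` by the right translations `g i`. -/
def conjR {s : ℕ} (P : Matrix G G ℝ) (g : Fin s → G) (i : Fin s) : Matrix G G ℝ := Rm (g i) * P * Rm (g i)⁻¹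

end Pool.Agent.BC5
end

section
set_option autoImplicit false
set_option linter.unusedSectionVars false
set_option linter.unusedVariables false
open scoped BigOperators Matrix
open Matrix
namespace Pool.Agent.BC5

/-
ROW S1. Section 5. Induction on p (a = Fin.snoc a' i, wp_snoc; letters (snoc a' i) = insert i (letters a')). p = 0: hs(E*1) = trace E. Step, M := E * wp (conjR P g) a': if i ∈ letters a': hs(M*Q) ≤ hs M (hs_mul_le, conjR_isPr).
If i ∉ letters a': M does not depend on g i; avg_update at i, then for fixed g: avg over h of hs(M * (Rm h P Rm h⁻¹)) = trace(Mᵀ M * avg(Rm h P Rm h⁻¹)) (hs(MQ) = trace(MᵀM Q) for a projection Q); and avg(Rm h P Rm h⁻¹) =: Z satisfies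
Z*E = Z (P*E = P, E commutes with Rm) so Z = (trace(P*E)/trace E)•E by schurR, = (trace P/trace E)•E; trace(MᵀM E) ≤ hs M (hs_mul_le). So ≤ θ hs M (θ ≥ trace P/trace E ≥ 0; if E.trace > 0: block_trace_pos). Then the induction hypothesis, θ ≥ 0.
-/

variable {G : Type} [Group G] [Fintype G] [DecidableEq G]

theorem S1_conj_isPr {P : Matrix G G ℝ} (hP : IsPr P) (h : G) : IsPr (Rm h * P * Rm h⁻¹) := by
  refine ⟨?_, ?_⟩
  · rw [Matrix.transpose_mul, Matrix.transpose_mul, Rm_transpose, Rm_transpose, hP.1, inv_inv, mul_assoc]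
  · calc Rm h * P * Rm h⁻¹ * (Rm h * P * Rm h⁻¹) = Rm h * P * (Rm h⁻¹ * Rm h) * P * Rm h⁻¹ := by
          noncomm_ring
      _ = Rm h * (P * P) * Rm h⁻¹ := by rw [Rm_inv_mul]; noncomm_ring
      _ = Rm h * P * Rm h⁻¹ := by rw [hP.2]

theorem conjR_isPr {s : ℕ} {P : Matrix G G ℝ} (hP : IsPr P) (g : Fin s → G) (i : Fin s) : IsPr (conjR P g i) := by
  exact S1_conj_isPr hP (g i)

theorem S1_hs_mul_pr (M Q : Matrix G G ℝ) (hQ : IsPr Q) : hs (M * Q) = (Mᵀ * M * Q).trace := by
  unfold hs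
  rw [Matrix.transpose_mul, hQ.1]
  have h1 : Q * Mᵀ * (M * Q) = Q * (Mᵀ * M * Q) := by noncomm_ring
  rw [h1, Matrix.trace_mul_comm, mul_assoc, hQ.2]

theorem S1_letters_snoc {s p : ℕ} (a : Fin p → Fin s) (i : Fin s) :
    letters (Fin.snoc (α := fun _ => Fin s) a i : Fin (p + 1) → Fin s) = insert i (letters a) := by
  ext j
  simp only [letters, Finset.mem_image, Finset.mem_univ, true_and, Finset.mem_insert]
  constructor
  · rintro ⟨x, hx⟩
    refine Fin.lastCases (motive := fun x => (Fin.snoc (α := fun _ => Fin s) a i : Fin (p + 1) → Fin s) x = j → _) ?_ ?_ x hx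
    · intro h
      left
      rw [Fin.snoc_last] at h
      exact h.symm
    · intro y h
      right
      rw [Fin.snoc_castSucc] at h
      exact ⟨y, h⟩
  · rintro (h | ⟨y, h⟩)
    · exact ⟨Fin.last p, by rw [Fin.snoc_last]; exact h.symm⟩
    · exact ⟨y.castSucc, by rw [Fin.snoc_castSucc]; exact h⟩

theorem S1_wp_congr {V : Type} [Fintype V] [DecidableEq V] {s p : ℕ} (Q Q' : Fin s → Matrix V V ℝ) (a : Fin p → Fin s)
    (h : ∀ j, Q (a j) = Q' (a j)) : wp Q a = wp Q' a := by
  unfold wp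
  have : (fun j => Q (a j)) = (fun j => Q' (a j)) := funext h
  rw [this]

theorem S1_trace_avg {α : Type} [Fintype α] (N : Matrix G G ℝ) (X : α → Matrix G G ℝ) :
    avg (fun x => (N * X x).trace) = (N * avg X).trace := by
  unfold avg
  rw [Matrix.mul_smul, Matrix.trace_smul, Matrix.mul_sum, Matrix.trace_sum]

/-- One step of the induction when the letter is new. -/
theorem S1_step {E P : Matrix G G ℝ} (hE : IsBlock E) (hP : IsPr P) (hPL : CommL P) (hPE : E * P = P)
    (θ : ℝ) (hθ : P.trace ≤ θ * E.trace) (M : Matrix G G ℝ) :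
    avg (fun h : G => hs (M * (Rm h * P * Rm h⁻¹))) ≤ θ * hs M := by
  have hpos : (0 : ℝ) < E.trace := lt_of_lt_of_le one_pos (block_trace_pos hE)
  have hPE' : P * E = P := by
    have h1 := congrArg Matrix.transpose hPE
    rw [Matrix.transpose_mul, hP.1, hE.1.1] at h1
    exact h1
  have h1 : avg (fun h : G => hs (M * (Rm h * P * Rm h⁻¹)))
      = (Mᵀ * M * avg (fun h : G => Rm h * P * Rm h⁻¹)).trace := by
    rw [← S1_trace_avg]
    congr 1
    funext h
    exact S1_hs_mul_pr M _ (S1_conj_isPr hP h)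
  have h2 : avg (fun h : G => Rm h * P * Rm h⁻¹) * E = avg (fun h : G => Rm h * P * Rm h⁻¹) := by
    unfold avg
    rw [Matrix.smul_mul, Finset.sum_mul]
    congr 1
    apply Finset.sum_congr rfl
    intro h _
    have hc := (hE.2.2.1 h⁻¹).eq
    calc Rm h * P * Rm h⁻¹ * E = Rm h * P * (Rm h⁻¹ * E) := by noncomm_ring
      _ = Rm h * P * (E * Rm h⁻¹) := by rw [hc]
      _ = Rm h * (P * E) * Rm h⁻¹ := by noncomm_ring
      _ = Rm h * P * Rm h⁻¹ := by rw [hPE']
  have h3 := schurR hE hP.1 hPL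
  rw [h2, hPE'] at h3
  rw [h1, h3, Matrix.mul_smul, Matrix.trace_smul, smul_eq_mul, ← S1_hs_mul_pr M E hE.1]
  have h4 : P.trace / E.trace ≤ θ := by
    rw [div_le_iff₀ hpos]; exact hθ
  have h5 : 0 ≤ P.trace / E.trace := div_nonneg (trace_pr_nonneg hP) hpos.le
  have h6 := hs_mul_le M E hE.1
  exact mul_le_mul h4 h6 (hs_nonneg _) (h5.trans h4)

/-- Section 5: average of the Hilbert-Schmidt norm along a word. -/
theorem avg_hs_word_le {E P : Matrix G G ℝ} (hE : IsBlock E) (hP : IsPr P) (hPL : CommL P) (hPE : E * P = P)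
    (θ : ℝ) (hθ : P.trace ≤ θ * E.trace) {s : ℕ} (p : ℕ) (a : Fin p → Fin s) :
    avg (fun g : Fin s → G => hs (E * wp (conjR P g) a)) ≤ E.trace * θ ^ (letters a).card := by
  have hpos : (0 : ℝ) < E.trace := lt_of_lt_of_le one_pos (block_trace_pos hE)
  have hθ0 : 0 ≤ θ := by
    by_contra hneg
    push Not at hneg
    have h1 := trace_pr_nonneg hP
    have h2 : θ * E.trace < 0 := mul_neg_of_neg_of_pos hneg hpos
    linarith
  induction p with
  | zero =>
    have h1 : (fun g : Fin s → G => hs (E * wp (conjR P g) a)) = fun _ => E.trace := by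
      funext g
      rw [wp_zero, mul_one]
      unfold hs
      rw [hE.1.1, hE.1.2]
    rw [h1, avg_const]
    have h2 : letters a = ∅ := by
      simp [letters]
    rw [h2]
    simp
  | succ p ih =>
    have ha : a = Fin.snoc (α := fun _ => Fin s) (Fin.init a) (a (Fin.last p)) :=
      (Fin.snoc_init_self a).symm
    set a' : Fin p → Fin s := Fin.init a with ha'
    set i : Fin s := a (Fin.last p) with hi
    have hlet : letters a = insert i (letters a') := by
      rw [ha]; exact S1_letters_snoc a' i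
    have hwp : ∀ g : Fin s → G, E * wp (conjR P g) a = E * wp (conjR P g) a' * conjR P g i := by
      intro g
      rw [ha, wp_snoc, mul_assoc]
    have hfun : (fun g : Fin s → G => hs (E * wp (conjR P g) a)) =
        fun g => hs (E * wp (conjR P g) a' * conjR P g i) := by
      funext g; rw [hwp]
    rw [hfun, hlet]
    by_cases hmem : i ∈ letters a'
    · rw [Finset.insert_eq_of_mem hmem]
      refine le_trans (avg_mono ?_) (ih a')
      intro g
      exact hs_mul_le _ _ (conjR_isPr hP g i)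
    · rw [Finset.card_insert_of_notMem hmem, avg_update _ i]
      have hne : ∀ j, a' j ≠ i := by
        intro j hj
        apply hmem
        rw [← hj]
        exact Finset.mem_image_of_mem _ (Finset.mem_univ j)
      have hstep : ∀ x : Fin s → G,
          avg (fun h : G => hs (E * wp (conjR P (Function.update x i h)) a' * conjR P (Function.update x i h) i))
            ≤ θ * hs (E * wp (conjR P x) a') := by
        intro x
        have h1 : (fun h : G => hs (E * wp (conjR P (Function.update x i h)) a' * conjR P (Function.update x i h) i))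
            = fun h : G => hs (E * wp (conjR P x) a' * (Rm h * P * Rm h⁻¹)) := by
          funext h
          have h2 : wp (conjR P (Function.update x i h)) a' = wp (conjR P x) a' := by
            apply S1_wp_congr
            intro j
            unfold conjR
            rw [Function.update_of_ne (hne j)]
          have h3 : conjR P (Function.update x i h) i = Rm h * P * Rm h⁻¹ := by
            unfold conjR
            rw [Function.update_self]
          rw [h2, h3]
        rw [h1]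
        exact S1_step hE hP hPL hPE θ hθ _
      refine le_trans (avg_mono hstep) ?_
      rw [avg_mul_left]
      calc θ * avg (fun g : Fin s → G => hs (E * wp (conjR P g) a'))
          ≤ θ * (E.trace * θ ^ (letters a').card) := mul_le_mul_of_nonneg_left (ih a') hθ0
        _ = E.trace * θ ^ ((letters a').card + 1) := by ring

end Pool.Agent.BC5
end

section
set_option autoImplicit false
set_option linter.unusedSectionVars false
set_option linter.unusedVariables false
open scoped BigOperators Matrix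
open Matrix
namespace Pool.Agent.BC5

/-
ROW S2. Section 5. T := avg (conjR P g) = (s)⁻¹ • ∑ i, conjR P g i, E*T = T (each conjR P g i ≤ E), so T^p = E*T^p (p ≥ 1). T^p = s^(-p) ∑_a E*wp a (sum_pow_eq_wp). trace T^(2p) = hs(T^p) (trace_pow_two_mul, T symmetric). hs_sum_le with
w_a = φ^(#letters a) and hs_smul; average over g (avg_mono, avg_sum, avg_mul_left), avg_hs_word_le with θ = φ²: avg hs / w_a ≤ trace E * φ^(2b)/φ^b = trace E * w_a. So ≤ s^(-2p) trace E (∑ w_a)² ≤ s^(-2p) trace E (2 β^p s^p)² (weight_sum_le).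
-/

variable {G : Type} [Group G] [Fintype G] [DecidableEq G]

theorem S2_conj {E P : Matrix G G ℝ} (hE : CommR E) (hPE : E * P = P) {s : ℕ} (g : Fin s → G) (i : Fin s) :
    E * conjR P g i = conjR P g i := by
  unfold conjR
  calc E * (Rm (g i) * P * Rm (g i)⁻¹) = (E * Rm (g i)) * P * Rm (g i)⁻¹ := by noncomm_ring
    _ = (Rm (g i) * E) * P * Rm (g i)⁻¹ := by rw [(hE (g i)).eq]
    _ = Rm (g i) * (E * P) * Rm (g i)⁻¹ := by noncomm_ring
    _ = Rm (g i) * P * Rm (g i)⁻¹ := by rw [hPE]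

theorem S2_pow {E P : Matrix G G ℝ} (hE : CommR E) (hPE : E * P = P) {s : ℕ} (p : ℕ) (hp : 1 ≤ p)
    (g : Fin s → G) :
    (avg (conjR P g)) ^ p = ((s : ℝ)⁻¹) ^ p • ∑ a : Fin p → Fin s, E * wp (conjR P g) a := by
  have hT : avg (conjR P g) = (s : ℝ)⁻¹ • ∑ i, conjR P g i := by
    unfold avg
    rw [Fintype.card_fin]
  have hET : E * avg (conjR P g) = avg (conjR P g) := by
    rw [hT, Matrix.mul_smul, Finset.mul_sum]
    congr 1
    exact Finset.sum_congr rfl fun i _ => S2_conj hE hPE g i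
  have h1 : (avg (conjR P g)) ^ p = E * (avg (conjR P g)) ^ p := by
    obtain ⟨q, rfl⟩ : ∃ q, p = q + 1 := ⟨p - 1, by omega⟩
    rw [pow_succ', ← mul_assoc, hET]
  rw [h1, hT, smul_pow, sum_pow_eq_wp, Matrix.mul_smul, Finset.mul_sum]

theorem S2_symm {P : Matrix G G ℝ} (hP : IsPr P) {s : ℕ} (g : Fin s → G) :
    (avg (conjR P g))ᵀ = avg (conjR P g) := by
  unfold avg
  rw [Matrix.transpose_smul, Matrix.transpose_sum]
  congr 1
  exact Finset.sum_congr rfl fun i _ => (conjR_isPr hP g i).1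

/-- Section 5: average of the trace of the power. -/
theorem avg_trace_pow_le {E P : Matrix G G ℝ} (hE : IsBlock E) (hP : IsPr P) (hPL : CommL P) (hPE : E * P = P)
    (s p b : ℕ) (hs : 1 ≤ s) (hp : 1 ≤ p) (φ β : ℝ) (hφ0 : 0 < φ) (hφ1 : φ ≤ 1) (hβ : 0 ≤ β)
    (htr : P.trace ≤ φ ^ 2 * E.trace)
    (h1 : (2 : ℝ) ^ s * (b : ℝ) ^ p ≤ β ^ p * (s : ℝ) ^ p) (h2 : φ ^ (b + 1) ≤ β ^ p) :
    avg (fun g : Fin s → G => ((avg (conjR P g)) ^ (2 * p)).trace) ≤ 4 * E.trace * β ^ (2 * p) := by
  have hEt : 0 ≤ E.trace := le_trans zero_le_one (block_trace_pos hE)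
  have hs0 : (0 : ℝ) < (s : ℝ) := by exact_mod_cast hs
  clear hs
  set W : ℝ := ∑ a : Fin p → Fin s, φ ^ (letters a).card with hW
  set c : ℝ := (((s : ℝ)⁻¹) ^ p) ^ 2 with hc
  have hc0 : 0 ≤ c := by positivity
  have hW0 : 0 ≤ W := Finset.sum_nonneg fun a _ => by positivity
  have hW1 : W ≤ 2 * β ^ p * (s : ℝ) ^ p := weight_sum_le s p b φ β hφ0.le hφ1 hβ h1 h2
  -- pointwise bound
  have hpt : ∀ g : Fin s → G, ((avg (conjR P g)) ^ (2 * p)).trace ≤
      c * W * ∑ a : Fin p → Fin s, (φ ^ (letters a).card)⁻¹ * hs (E * wp (conjR P g) a) := by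
    intro g
    rw [trace_pow_two_mul _ (S2_symm hP g), S2_pow hE.2.2.1 hPE p hp g, hs_smul]
    have h3 := hs_sum_le (Finset.univ : Finset (Fin p → Fin s)) (fun a => φ ^ (letters a).card)
      (fun a _ => pow_pos hφ0 _) (fun a => E * wp (conjR P g) a)
    have h4 : ∑ a : Fin p → Fin s, hs (E * wp (conjR P g) a) / φ ^ (letters a).card =
        ∑ a : Fin p → Fin s, (φ ^ (letters a).card)⁻¹ * hs (E * wp (conjR P g) a) :=
      Finset.sum_congr rfl fun a _ => by rw [div_eq_inv_mul]
    rw [h4] at h3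
    calc c * hs (∑ a : Fin p → Fin s, E * wp (conjR P g) a)
        ≤ c * (W * ∑ a : Fin p → Fin s,
            (φ ^ (letters a).card)⁻¹ * hs (E * wp (conjR P g) a)) :=
          mul_le_mul_of_nonneg_left h3 hc0
      _ = _ := by ring
  have h5 : avg (fun g : Fin s → G => c * W * ∑ a : Fin p → Fin s,
      (φ ^ (letters a).card)⁻¹ * hs (E * wp (conjR P g) a)) =
      c * W * ∑ a : Fin p → Fin s, (φ ^ (letters a).card)⁻¹ *
        avg (fun g : Fin s → G => hs (E * wp (conjR P g) a)) := by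
    rw [avg_mul_left]
    congr 1
    have h6 := avg_sum (Finset.univ : Finset (Fin p → Fin s))
      (fun (a : Fin p → Fin s) (g : Fin s → G) =>
        (φ ^ (letters a).card)⁻¹ * hs (E * wp (conjR P g) a))
    rw [h6]
    exact Finset.sum_congr rfl fun a _ => avg_mul_left _ _
  have h7 : ∀ a : Fin p → Fin s, (φ ^ (letters a).card)⁻¹ *
      avg (fun g : Fin s → G => hs (E * wp (conjR P g) a)) ≤ E.trace * φ ^ (letters a).card := by
    intro a
    have h8 := avg_hs_word_le hE hP hPL hPE (φ ^ 2) htr p a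
    have hφa : 0 < φ ^ (letters a).card := pow_pos hφ0 _
    calc (φ ^ (letters a).card)⁻¹ * avg (fun g : Fin s → G => hs (E * wp (conjR P g) a))
        ≤ (φ ^ (letters a).card)⁻¹ * (E.trace * (φ ^ 2) ^ (letters a).card) :=
          mul_le_mul_of_nonneg_left h8 (by positivity)
      _ = E.trace * φ ^ (letters a).card := by
          have h9 : (φ ^ 2) ^ (letters a).card = φ ^ (letters a).card * φ ^ (letters a).card := by
            rw [← pow_mul, mul_comm 2, pow_mul, pow_two]
          rw [h9]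
          field_simp
  have h10 : ∑ a : Fin p → Fin s, (φ ^ (letters a).card)⁻¹ *
      avg (fun g : Fin s → G => hs (E * wp (conjR P g) a)) ≤ E.trace * W := by
    rw [hW, Finset.mul_sum]
    exact Finset.sum_le_sum fun a _ => h7 a
  have hcW : 0 ≤ c * W := mul_nonneg hc0 hW0
  calc avg (fun g : Fin s → G => ((avg (conjR P g)) ^ (2 * p)).trace)
      ≤ avg (fun g : Fin s → G => c * W * ∑ a : Fin p → Fin s,
          (φ ^ (letters a).card)⁻¹ * hs (E * wp (conjR P g) a)) := avg_mono hpt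
    _ = c * W * ∑ a : Fin p → Fin s, (φ ^ (letters a).card)⁻¹ *
        avg (fun g : Fin s → G => hs (E * wp (conjR P g) a)) := h5
    _ ≤ c * W * (E.trace * W) := mul_le_mul_of_nonneg_left h10 hcW
    _ = c * E.trace * W ^ 2 := by ring
    _ ≤ c * E.trace * (2 * β ^ p * (s : ℝ) ^ p) ^ 2 := by
        apply mul_le_mul_of_nonneg_left _ (mul_nonneg hc0 hEt)
        exact pow_le_pow_left₀ hW0 hW1 2
    _ = 4 * E.trace * β ^ (2 * p) * (c * ((s : ℝ) ^ p) ^ 2) := by
        rw [mul_comm 2 p, pow_mul β p 2]; ring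
    _ = 4 * E.trace * β ^ (2 * p) := by
        have : c * ((s : ℝ) ^ p) ^ 2 = 1 := by
          rw [hc, ← mul_pow, ← mul_pow, inv_mul_cancel₀ hs0.ne', one_pow, one_pow]
        rw [this, mul_one]

end Pool.Agent.BC5
end

section
set_option autoImplicit false
set_option linter.unusedSectionVars false
set_option linter.unusedVariables false
open scoped BigOperators Matrix
open Matrix
namespace Pool.Agent.BC5

/-
ROW S3. avg_trace_pow_le with β = τ/2, then Markov (frac_le_avg_div with c = τ^(2p), f g = trace T^(2p) = hs(T^p) ≥ 0): if some f has qf T f > τ f·f, lt_trace_pow (Q := 1, c := τ) gives trace T^(2p) > τ^(2p). 4 trace E (τ/2)^(2p)/τ^(2p) = 4 trace E (1/4)^p.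
-/

variable {G : Type} [Group G] [Fintype G] [DecidableEq G]

/-- Section 5: the stage lemma. -/
theorem stage_lemma {E P : Matrix G G ℝ} (hE : IsBlock E) (hP : IsPr P) (hPL : CommL P) (hPE : E * P = P)
    (s p b : ℕ) (hs : 1 ≤ s) (hp : 1 ≤ p) (φ τ : ℝ) (hφ0 : 0 < φ) (hφ1 : φ ≤ 1) (hτ : 0 < τ)
    (htr : P.trace ≤ φ ^ 2 * E.trace)
    (h1 : (2 : ℝ) ^ s * (b : ℝ) ^ p ≤ (τ / 2) ^ p * (s : ℝ) ^ p) (h2 : φ ^ (b + 1) ≤ (τ / 2) ^ p) :
    frac (fun g : Fin s → G => ¬ ∀ f : G → ℝ, qf (avg (conjR P g)) f ≤ τ * (f ⬝ᵥ f))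
      ≤ 4 * E.trace * (1 / 4 : ℝ) ^ p := by
  have hT : ∀ g : Fin s → G, (avg (conjR P g))ᵀ = avg (conjR P g) := by
    intro g
    unfold avg
    rw [Matrix.transpose_smul, Matrix.transpose_sum]
    congr 1
    exact Finset.sum_congr rfl fun i _ => (conjR_isPr hP g i).1
  have hτp : 0 < τ ^ (2 * p) := pow_pos hτ _
  have hM := frac_le_avg_div
    (P := fun g : Fin s → G => ¬ ∀ f : G → ℝ, qf (avg (conjR P g)) f ≤ τ * (f ⬝ᵥ f))
    (f := fun g : Fin s → G => ((avg (conjR P g)) ^ (2 * p)).trace) hτp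
    (fun g => by
      rw [trace_pow_two_mul _ (hT g)]
      exact hs_nonneg _)
    (fun g hg => by
      push Not at hg
      obtain ⟨f, hf⟩ := hg
      have := lt_trace_pow (avg (conjR P g)) 1 τ hτ (hT g) IsPr.one (Commute.one_right _) f
        (Matrix.one_mulVec f) hf p hp
      rw [Matrix.one_mul] at this
      exact this.le)
  have hA := avg_trace_pow_le hE hP hPL hPE s p b hs hp φ (τ / 2) hφ0 hφ1 (by positivity) htr h1 h2
  refine hM.trans ?_
  rw [div_le_iff₀ hτp]
  refine hA.trans (le_of_eq ?_)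
  rw [mul_assoc (4 * E.trace)]
  congr 1
  rw [pow_mul, pow_mul, ← mul_pow]
  congr 1
  ring

end Pool.Agent.BC5
end

section
set_option autoImplicit false
set_option linter.unusedSectionVars false
set_option linter.unusedVariables false
open scoped BigOperators Matrix
open Matrix
namespace Pool.Agent.BC5

/-
ROW S4. avg_word_eq_zero: letter i0 = a i occurs only at position i. Split the word at i: wp = W1 * Sm(x i0) * W2 with W1, W2 independent of x i0 (List.ofFn split; or prove by induction a general lemma: the product is affine in the factor). avg_update at i0, avg over g of Sm g = Jm G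
(Jm_eq_avg_Rm and inversion), so the average is trace(Q W1 J W2) and Q W1 J = W1 Q J = 0 (Q commutes with all Rm, so with Sm and W1). abs_trace_word_le: abs_trace_le: |v·(wp v)| ≤ v·v because each Sm is a contraction ((Sm g u)·(Sm g u) ≤ u·u: convexity, dot_Rm).
-/

variable {G : Type} [Group G] [Fintype G] [DecidableEq G]

theorem S4_split {R : Type} [Ring R] (Q : R) : ∀ (N : ℕ) (F : Fin N → R) (i : Fin N), (∀ j, Commute Q (F j)) →
    ∃ W1 W2 : R, Commute Q W1 ∧ ∀ m : R, (List.ofFn (Function.update F i m)).prod = W1 * m * W2 := by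
  intro N
  induction N with
  | zero => intro F i; exact i.elim0
  | succ N ih =>
    intro F i hF
    refine Fin.cases ?_ ?_ i
    · refine ⟨1, (List.ofFn (fun j : Fin N => F j.succ)).prod, Commute.one_right Q, fun m => ?_⟩
      rw [List.ofFn_succ, List.prod_cons]
      simp
    · intro i
      obtain ⟨W1, W2, h1, h2⟩ := ih (fun j => F j.succ) i (fun j => hF j.succ)
      refine ⟨F 0 * W1, W2, (hF 0).mul_right h1, fun m => ?_⟩
      rw [List.ofFn_succ, List.prod_cons]
      have h3 : (fun j : Fin N => Function.update F i.succ m j.succ) = Function.update (fun j => F j.succ) i m := by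
        funext j
        by_cases hj : j = i
        · subst hj; simp
        · rw [Function.update_of_ne hj, Function.update_of_ne (fun h => hj (Fin.succ_injective _ h))]
      rw [h3, h2, Function.update_of_ne (Fin.succ_ne_zero i).symm]
      noncomm_ring

theorem S4_avg_Sm : avg (fun g : G => Sm g) = Jm G := by
  have h1 : avg (fun g : G => Rm g⁻¹) = Jm G := by
    rw [Jm_eq_avg_Rm]
    exact avg_equiv (Equiv.inv G) (fun g : G => Rm g)
  have h2 : (fun g : G => Sm g) = fun g : G => (1 / 2 : ℝ) • (Rm g + Rm g⁻¹) := rfl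
  rw [h2, avg_smul, avg_add, h1, ← Jm_eq_avg_Rm, ← two_smul ℝ, smul_smul]
  norm_num

theorem S4_commute_Sm {Q : Matrix G G ℝ} (hQR : CommR Q) (g : G) : Commute Q (Sm g) := by
  unfold Sm
  exact ((hQR g).add_right (hQR g⁻¹)).smul_right _

/-- Section 4: a word with a letter occurring once averages to zero. -/
theorem avg_word_eq_zero {Q : Matrix G G ℝ} (hQR : CommR Q) (hQJ : Q * Jm G = 0) {s N : ℕ} (a : Fin N → Fin s)
    (ha : ∃ i, ∀ j, j ≠ i → a j ≠ a i) :
    avg (fun x : Fin s → G => (Q * wp (fun i => Sm (x i)) a).trace) = 0 := by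
  obtain ⟨i, hi⟩ := ha
  rw [avg_update _ (a i)]
  have hz : ∀ x : Fin s → G, avg (fun g : G => (Q * wp (fun j => Sm (Function.update x (a i) g j)) a).trace) = 0 := by
    intro x
    obtain ⟨W1, W2, h1, h2⟩ := S4_split Q N (fun j => Sm (x (a j))) i (fun j => S4_commute_Sm hQR _)
    have h3 : ∀ g : G, wp (fun j => Sm (Function.update x (a i) g j)) a = W1 * Sm g * W2 := by
      intro g
      rw [← h2 (Sm g)]
      unfold wp
      congr 2
      funext j
      by_cases hj : j = i
      · subst hj; simp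
      · rw [Function.update_of_ne hj]
        show Sm (Function.update x (a i) g (a j)) = Sm (x (a j))
        rw [Function.update_of_ne (hi j hj)]
    have h4 : avg (fun g : G => (Q * wp (fun j => Sm (Function.update x (a i) g j)) a).trace)
        = (Q * (W1 * avg (fun g : G => Sm g) * W2)).trace := by
      have h5 := map_avg (α := G) (((Matrix.traceLinearMap G ℝ ℝ).comp ((LinearMap.mulLeft ℝ Q).comp
        ((LinearMap.mulRight ℝ W2).comp (LinearMap.mulLeft ℝ W1))))) (fun g : G => Sm g)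
      simp only [LinearMap.comp_apply, LinearMap.mulLeft_apply, LinearMap.mulRight_apply,
        Matrix.traceLinearMap_apply] at h5
      rw [h5]
      congr 1
      funext g
      rw [h3]
    rw [h4, S4_avg_Sm]
    have h6 : Q * (W1 * Jm G * W2) = W1 * (Q * Jm G) * W2 := by
      calc Q * (W1 * Jm G * W2) = (Q * W1) * Jm G * W2 := by noncomm_ring
        _ = (W1 * Q) * Jm G * W2 := by rw [h1.eq]
        _ = W1 * (Q * Jm G) * W2 := by noncomm_ring
    rw [h6, hQJ]
    simp
  have : (fun x : Fin s → G => avg (fun g : G => (Q * wp (fun j => Sm (Function.update x (a i) g j)) a).trace))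
      = fun _ => (0 : ℝ) := funext hz
  rw [this]
  simp [avg]

theorem S4_contr (g : G) (v : G → ℝ) : (Sm g *ᵥ v) ⬝ᵥ (Sm g *ᵥ v) ≤ v ⬝ᵥ v := by
  have h1 : Sm g *ᵥ v = (1 / 2 : ℝ) • (Rm g *ᵥ v + Rm g⁻¹ *ᵥ v) := by
    unfold Sm
    rw [Matrix.smul_mulVec, Matrix.add_mulVec]
  set u := Rm g *ᵥ v with hu
  set w := Rm g⁻¹ *ᵥ v with hw
  have h2 : u ⬝ᵥ u = v ⬝ᵥ v := dot_Rm g v v
  have h3 : w ⬝ᵥ w = v ⬝ᵥ v := dot_Rm g⁻¹ v v
  have h4 : 0 ≤ (u - w) ⬝ᵥ (u - w) := dot_self_nonneg _
  rw [h1]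
  simp only [smul_dotProduct, dotProduct_smul, add_dotProduct, dotProduct_add, sub_dotProduct, dotProduct_sub,
    smul_eq_mul] at *
  have h5 : w ⬝ᵥ u = u ⬝ᵥ w := dotProduct_comm _ _
  rw [h5] at h4 ⊢
  nlinarith

theorem S4_contr_list : ∀ (l : List (Matrix G G ℝ)), (∀ M ∈ l, ∀ v : G → ℝ, (M *ᵥ v) ⬝ᵥ (M *ᵥ v) ≤ v ⬝ᵥ v) →
    ∀ v : G → ℝ, (l.prod *ᵥ v) ⬝ᵥ (l.prod *ᵥ v) ≤ v ⬝ᵥ v := by
  intro l
  induction l with
  | nil => intro _ v; simp
  | cons M l ih =>
    intro h v
    rw [List.prod_cons, ← Matrix.mulVec_mulVec]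
    exact (h M (by simp) _).trans (ih (fun N hN => h N (by simp [hN])) v)

theorem abs_trace_word_le {Q : Matrix G G ℝ} (hQ : IsPr Q) (hQR : CommR Q) {s N : ℕ} (a : Fin N → Fin s)
    (x : Fin s → G) : |(Q * wp (fun i => Sm (x i)) a).trace| ≤ Q.trace := by
  have h := abs_trace_le Q (wp (fun i => Sm (x i)) a) 1 hQ ?_
  · rwa [one_mul] at h
  · intro v _
    set w := wp (fun i => Sm (x i)) a *ᵥ v with hw
    have h1 : w ⬝ᵥ w ≤ v ⬝ᵥ v := by
      apply S4_contr_list
      intro M hM u
      rw [List.mem_ofFn] at hM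
      obtain ⟨j, rfl⟩ := hM
      exact S4_contr _ _
    have h2 : 0 ≤ (v - w) ⬝ᵥ (v - w) := dot_self_nonneg _
    have h3 : 0 ≤ (v + w) ⬝ᵥ (v + w) := dot_self_nonneg _
    have h5 : w ⬝ᵥ v = v ⬝ᵥ w := dotProduct_comm _ _
    simp only [add_dotProduct, dotProduct_add, sub_dotProduct, dotProduct_sub, h5] at h2 h3
    unfold qf
    rw [← hw, one_mul, abs_le]
    constructor <;> linarith

end Pool.Agent.BC5
end

section
set_option autoImplicit false
set_option linter.unusedSectionVars false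
set_option linter.unusedVariables false
open scoped BigOperators Matrix
open Matrix
namespace Pool.Agent.BC5

/-
ROW S5. Section 4. Q := avL S - Jm G is a projection (avL_mul_Jm and its transpose), CommR, Q*Jm = 0, trace Q ≤ card G/card S. (avg Sm)^(2p) = s^(-2p) ∑_a wp a (avg over Fin s = (s)⁻¹ • ∑). avg over x of the trace: words with a singleton letter give 0, the others ≤ trace Q;
their number ≤ (8ps)^p (card_no_single, p ≤ s). s^(-2p) (8ps)^p = (8p/s)^p ≤ (1/64)^p.
-/

variable {G : Type} [Group G] [Fintype G] [DecidableEq G]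

theorem S5_Jm_mul_avL {S : Finset G} (hS : IsGrp S) : Jm G * avL S = Jm G := by
  have h := congrArg Matrix.transpose (avL_mul_Jm hS)
  rw [Matrix.transpose_mul, (Jm_isBlock (G := G)).1.1, (avL_isPr hS).1] at h
  exact h

theorem S5_Q_isPr {S : Finset G} (hS : IsGrp S) : IsPr (avL S - Jm G) := by
  constructor
  · rw [Matrix.transpose_sub, (Jm_isBlock (G := G)).1.1, (avL_isPr hS).1]
  · have h1 : (avL S - Jm G) * (avL S - Jm G)
        = avL S * avL S - avL S * Jm G - Jm G * avL S + Jm G * Jm G := by noncomm_ring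
    rw [h1, (avL_isPr hS).2, avL_mul_Jm hS, S5_Jm_mul_avL hS, (Jm_isBlock (G := G)).1.2]
    abel

theorem S5_Q_commR (S : Finset G) : CommR (avL S - Jm G) := by
  intro g
  exact (avL_commR S g).sub_left ((Jm_isBlock (G := G)).2.2.1 g)

theorem S5_Q_mul_Jm {S : Finset G} (hS : IsGrp S) : (avL S - Jm G) * Jm G = 0 := by
  rw [Matrix.sub_mul, avL_mul_Jm hS, (Jm_isBlock (G := G)).1.2, sub_self]

theorem S5_trace_Q_le {S : Finset G} (hS : IsGrp S) :
    (avL S - Jm G).trace ≤ (Fintype.card G : ℝ) / (S.card : ℝ) := by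
  rw [Matrix.trace_sub, trace_avL hS, trace_Jm]
  linarith

theorem S5_expand (Q : Matrix G G ℝ) (s p : ℕ) (x : Fin s → G) :
    (Q * (avg fun i => Sm (x i)) ^ p).trace
      = ((s : ℝ)⁻¹) ^ p * ∑ a : Fin p → Fin s, (Q * wp (fun i => Sm (x i)) a).trace := by
  have h1 : (avg fun i => Sm (x i)) = ((s : ℝ)⁻¹) • ∑ i : Fin s, Sm (x i) := by
    unfold avg
    rw [Fintype.card_fin]
  rw [h1, smul_pow, sum_pow_eq_wp, Matrix.mul_smul, Matrix.trace_smul, smul_eq_mul, Finset.mul_sum,
    Matrix.trace_sum]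

/-- Section 4: average of the trace of the power. -/
theorem avg_base_trace_le {S : Finset G} (hS : IsGrp S) (p s : ℕ) (hp : 1 ≤ p) (hs : 512 * p ≤ s) :
    avg (fun x : Fin s → G => ((avL S - Jm G) * (avg fun i => Sm (x i)) ^ (2 * p)).trace)
      ≤ (Fintype.card G : ℝ) / (S.card : ℝ) * (1 / 64 : ℝ) ^ p := by
  classical
  set Q : Matrix G G ℝ := avL S - Jm G with hQdef
  have hQ : IsPr Q := S5_Q_isPr hS
  have hQR : CommR Q := S5_Q_commR S
  have hQJ : Q * Jm G = 0 := S5_Q_mul_Jm hS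
  have htr : Q.trace ≤ (Fintype.card G : ℝ) / (S.card : ℝ) := S5_trace_Q_le hS
  have htr0 : 0 ≤ Q.trace := trace_pr_nonneg hQ
  have hspos : 0 < s := by omega
  have hsR : (0 : ℝ) < (s : ℝ) := by exact_mod_cast hspos
  have hc0 : (0 : ℝ) ≤ ((s : ℝ)⁻¹) ^ (2 * p) := by positivity
  have e1 : avg (fun x : Fin s → G => (Q * (avg fun i => Sm (x i)) ^ (2 * p)).trace)
      = ((s : ℝ)⁻¹) ^ (2 * p) * ∑ a : Fin (2 * p) → Fin s,
          avg (fun x : Fin s → G => (Q * wp (fun i => Sm (x i)) a).trace) := by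
    simp_rw [S5_expand]
    rw [avg_mul_left, avg_sum]
  have e2 : ∀ a : Fin (2 * p) → Fin s,
      avg (fun x : Fin s → G => (Q * wp (fun i => Sm (x i)) a).trace)
        ≤ if (∀ i, ∃ j, j ≠ i ∧ a j = a i) then Q.trace else 0 := by
    intro a
    split_ifs with h
    · exact avg_le_of_le fun x => le_trans (le_abs_self _) (abs_trace_word_le hQ hQR a x)
    · push Not at h
      exact le_of_eq (avg_word_eq_zero hQR hQJ a h)
  have e3 : (∑ a : Fin (2 * p) → Fin s,
      avg (fun x : Fin s → G => (Q * wp (fun i => Sm (x i)) a).trace))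
        ≤ ((8 * p * s : ℕ) : ℝ) ^ p * Q.trace := by
    refine le_trans (Finset.sum_le_sum fun a _ => e2 a) ?_
    rw [← Finset.sum_filter, Finset.sum_const, nsmul_eq_mul]
    refine mul_le_mul_of_nonneg_right ?_ htr0
    have := card_no_single s p hp (by omega)
    exact_mod_cast this
  have e4 : ((s : ℝ)⁻¹) ^ (2 * p) * ((8 * p * s : ℕ) : ℝ) ^ p ≤ (1 / 64 : ℝ) ^ p := by
    rw [pow_mul, ← mul_pow]
    refine pow_le_pow_left₀ (by positivity) ?_ p
    have hps : (512 : ℝ) * (p : ℝ) ≤ (s : ℝ) := by exact_mod_cast hs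
    have h2 : ((s : ℝ)⁻¹) ^ 2 * ((8 * p * s : ℕ) : ℝ) = 8 * (p : ℝ) / (s : ℝ) := by
      push_cast
      field_simp
    rw [h2, div_le_div_iff₀ hsR (by norm_num)]
    linarith
  rw [e1]
  calc ((s : ℝ)⁻¹) ^ (2 * p) * ∑ a : Fin (2 * p) → Fin s,
          avg (fun x : Fin s → G => (Q * wp (fun i => Sm (x i)) a).trace)
      ≤ ((s : ℝ)⁻¹) ^ (2 * p) * (((8 * p * s : ℕ) : ℝ) ^ p * Q.trace) :=
        mul_le_mul_of_nonneg_left e3 hc0
    _ = (((s : ℝ)⁻¹) ^ (2 * p) * ((8 * p * s : ℕ) : ℝ) ^ p) * Q.trace := by ring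
    _ ≤ (1 / 64 : ℝ) ^ p * Q.trace := mul_le_mul_of_nonneg_right e4 htr0
    _ ≤ (1 / 64 : ℝ) ^ p * ((Fintype.card G : ℝ) / (S.card : ℝ)) :=
        mul_le_mul_of_nonneg_left htr (by positivity)
    _ = (Fintype.card G : ℝ) / (S.card : ℝ) * (1 / 64 : ℝ) ^ p := by ring

end Pool.Agent.BC5
end

section
set_option autoImplicit false
set_option linter.unusedSectionVars false
set_option linter.unusedVariables false
open scoped BigOperators Matrix
open Matrix
namespace Pool.Agent.BC5

/-
ROW S6. Section 4. Q as in S5. Bad x: some f with avL f = f, J f = 0 (so Q f = f) and qf A f > 1/2 f·f ⇒ lt_trace_pow (A symmetric, commutes with Q as Q is CommR): trace(Q A^(2p)) > (1/4)^p. Markov with f x = trace(Q A^(2p)) ≥ 0 (= hs-like: Q A^(2p) = (A^p Q)ᵀ(A^p Q)). (1/64)^p/(1/4)^p = (1/16)^p.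
-/

variable {G : Type} [Group G] [Fintype G] [DecidableEq G]

theorem S6_Q_isPr {S : Finset G} (hS : IsGrp S) : IsPr (avL S - Jm G) := by
  have h1 := avL_isPr hS
  have h2 : IsPr (Jm G) := (Jm_isBlock (G := G)).1
  have h3 := avL_mul_Jm hS
  have h4 : Jm G * avL S = Jm G := by
    have := congrArg Matrix.transpose h3
    rwa [Matrix.transpose_mul, h1.1, h2.1] at this
  refine ⟨by rw [Matrix.transpose_sub, h1.1, h2.1], ?_⟩
  rw [Matrix.sub_mul, Matrix.mul_sub, Matrix.mul_sub, h1.2, h2.2, h3, h4]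
  abel

theorem S6_Q_commR (S : Finset G) : CommR (avL S - Jm G) := by
  intro g
  exact (avL_commR S g).sub_left ((Jm_isBlock (G := G)).2.2.1 g)

theorem S6_A_commL {s : ℕ} (x : Fin s → G) : CommL (avg fun i => Sm (x i)) := by
  intro g
  unfold avg
  exact (Commute.sum_left _ _ _ (fun i _ => commL_Sm (x i) g)).smul_left _

theorem S6_A_transpose {s : ℕ} (x : Fin s → G) : (avg fun i => Sm (x i))ᵀ = avg fun i => Sm (x i) := by
  unfold avg
  rw [Matrix.transpose_smul, Matrix.transpose_sum]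
  simp only [Sm_transpose]

theorem S6_trace_nonneg {Q A : Matrix G G ℝ} (hQ : IsPr Q) (hA : Aᵀ = A) (hc : Commute Q A) (p : ℕ) :
    0 ≤ (Q * A ^ (2 * p)).trace := by
  have hAp : (A ^ p)ᵀ = A ^ p := by rw [Matrix.transpose_pow, hA]
  have hcp : Commute Q (A ^ p) := hc.pow_right p
  have h : Q * A ^ (2 * p) = (A ^ p * Q)ᵀ * (A ^ p * Q) := by
    rw [Matrix.transpose_mul, hAp, hQ.1, two_mul, pow_add]
    calc Q * (A ^ p * A ^ p) = (Q * Q) * (A ^ p * A ^ p) := by rw [hQ.2]
      _ = Q * (Q * A ^ p) * A ^ p := by noncomm_ring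
      _ = Q * (A ^ p * Q) * A ^ p := by rw [hcp.eq]
      _ = Q * A ^ p * (Q * A ^ p) := by noncomm_ring
      _ = Q * A ^ p * (A ^ p * Q) := by rw [hcp.eq]
  rw [h, Matrix.trace]
  refine Finset.sum_nonneg fun i _ => ?_
  rw [Matrix.diag_apply, Matrix.mul_apply]
  exact Finset.sum_nonneg fun j _ => mul_self_nonneg _

/-- Section 4: the base lemma. -/
theorem base_lemma {S : Finset G} (hS : IsGrp S) (p s : ℕ) (hp : 1 ≤ p) (hs : 512 * p ≤ s) :
    frac (fun x : Fin s → G => ¬ ∀ f : G → ℝ, avL S *ᵥ f = f → Jm G *ᵥ f = 0 →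
        qf (avg fun i => Sm (x i)) f ≤ 1 / 2 * (f ⬝ᵥ f))
      ≤ (Fintype.card G : ℝ) / (S.card : ℝ) * (1 / 16 : ℝ) ^ p := by
  have hQ := S6_Q_isPr hS
  have hQR := S6_Q_commR S
  have hcomm : ∀ x : Fin s → G, Commute (avL S - Jm G) (avg fun i => Sm (x i)) :=
    fun x => commute_of_comm hQR (S6_A_commL x)
  have hc4 : (0 : ℝ) < (1 / 4 : ℝ) ^ p := by positivity
  have key := frac_le_avg_div (P := fun x : Fin s → G => ¬ ∀ f : G → ℝ, avL S *ᵥ f = f → Jm G *ᵥ f = 0 →
        qf (avg fun i => Sm (x i)) f ≤ 1 / 2 * (f ⬝ᵥ f))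
      (f := fun x : Fin s → G => ((avL S - Jm G) * (avg fun i => Sm (x i)) ^ (2 * p)).trace)
      (c := (1 / 4 : ℝ) ^ p) hc4
      (fun x => S6_trace_nonneg hQ (S6_A_transpose x) (hcomm x) p)
      (by
        intro x hx
        push Not at hx
        obtain ⟨f, hf1, hf2, hf3⟩ := hx
        have hQf : (avL S - Jm G) *ᵥ f = f := by
          rw [Matrix.sub_mulVec, hf1, hf2, sub_zero]
        have := lt_trace_pow (avg fun i => Sm (x i)) (avL S - Jm G) (1 / 2) (by norm_num)
          (S6_A_transpose x) hQ (hcomm x).symm f hQf hf3 p hp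
        have h4 : (1 / 2 : ℝ) ^ (2 * p) = (1 / 4 : ℝ) ^ p := by
          rw [pow_mul]; norm_num
        rw [h4] at this
        exact this.le)
  refine key.trans ?_
  rw [div_le_iff₀ hc4]
  refine (avg_base_trace_le hS p s hp hs).trans (le_of_eq ?_)
  rw [mul_assoc, ← mul_pow]
  norm_num

end Pool.Agent.BC5
end

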