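import Pool.Agent.Lib.MP_bc5a73_al.QuasiVar
import Pool.Agent.Lib.MP_bc5a73_al.Stage
import Pool.Agent.Lib.MP_bc5a73_al.General
import Pool.Agent.Lib.MP_bc5a73_al.LeaveOut

section
set_option autoImplicit false
set_option linter.unusedSectionVars false
set_option linter.unusedVariables false
open scoped BigOperators Matrix
open Matrix
namespace Pool.Agent.BC5


variable {G : Type} [Group G] [Fintype G] [DecidableEq G]

theorem QB1_commL_transpose {B : Matrix G G ℝ} (hB : CommL B) : CommL Bᵀ := by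
  intro g
  have h : (B * Lm g⁻¹)ᵀ = (Lm g⁻¹ * B)ᵀ := by rw [(hB g⁻¹).eq]
  rw [Matrix.transpose_mul, Matrix.transpose_mul, Lm_transpose, inv_inv] at h
  exact h.symm

theorem QB1_hs_transpose (B : Matrix G G ℝ) : hs Bᵀ = hs B := by
  rw [L6_hs_eq, L6_hs_eq, Finset.sum_comm]
  rfl

theorem avg_trace_Rm_sq (B : Matrix G G ℝ) (hB : CommL B) : avg (fun x : G => (Bᵀ * Rm x).trace ^ 2) = hs B := by
  rw [Q5_avg_sq (QB1_commL_transpose hB), QB1_hs_transpose]

theorem avg_trace_Sm_sq (B : Matrix G G ℝ) (hB : CommL B) : avg (fun x : G => (Bᵀ * Sm x).trace ^ 2) ≤ hs B := by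
  rw [← QB1_hs_transpose B]
  exact Q5_avg_sq_Sm (QB1_commL_transpose hB)

theorem QB1_trace_le {E : Matrix G G ℝ} (hE : IsBlock E) (g h : G) :
    |(E * (Sm g * Sm h)).trace| ≤ E.trace := by
  have h1 := abs_trace_word_le hE.1 hE.2.2.1 (s := 2) (N := 2) (fun i => i) ![g, h]
  have h2 : wp (fun i => Sm ((![g, h] : Fin 2 → G) i)) (fun i : Fin 2 => i) = Sm g * Sm h := by
    simp [wp, List.ofFn_succ]
  rwa [h2] at h1

theorem QB1_hs_ESm_le {E : Matrix G G ℝ} (hE : IsBlock E) (g : G) : hs (E * Sm g) ≤ E.trace := by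
  rw [(S4_commute_Sm hE.2.2.1 g).eq, L6_hs_mul (Sm g) E hE.1, Sm_transpose, Matrix.trace_mul_comm]
  exact (le_abs_self _).trans (QB1_trace_le hE g g)

theorem hs_sum_ESm_le {E : Matrix G G ℝ} (hE : IsBlock E) {M : ℕ} (x : Fin M → G) (T : Finset (Fin M)) :
    hs (∑ i ∈ T, E * Sm (x i)) ≤ (T.card : ℝ) ^ 2 * E.trace := by
  have h1 := hs_sum_le T (fun _ => (1 : ℝ)) (fun _ _ => one_pos) (fun i => E * Sm (x i))
  have h2 : ∑ i ∈ T, hs (E * Sm (x i)) / (1 : ℝ) ≤ (T.card : ℝ) * E.trace := by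
    rw [← nsmul_eq_mul]
    refine Finset.sum_le_card_nsmul T _ _ fun i _ => ?_
    rw [div_one]
    exact QB1_hs_ESm_le hE (x i)
  have h3 : (∑ i ∈ T, (1 : ℝ)) = (T.card : ℝ) := by simp
  calc hs (∑ i ∈ T, E * Sm (x i)) ≤ (∑ i ∈ T, (1 : ℝ)) * ∑ i ∈ T, hs (E * Sm (x i)) / (1 : ℝ) := h1
    _ ≤ (T.card : ℝ) * ((T.card : ℝ) * E.trace) := by
        rw [h3]
        exact mul_le_mul_of_nonneg_left h2 (Nat.cast_nonneg _)
    _ = (T.card : ℝ) ^ 2 * E.trace := by ring

theorem QB1_symm {E : Matrix G G ℝ} (hE : IsBlock E) (g h : G) :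
    (E * (Sm g * Sm h)).trace = (E * (Sm h * Sm g)).trace := by
  rw [← Matrix.trace_transpose (E * (Sm g * Sm h)), Matrix.transpose_mul, Matrix.transpose_mul, hE.1.1,
    Sm_transpose, Sm_transpose, Matrix.trace_mul_comm]

theorem QB1_split {M : ℕ} (t : Fin M → Fin M → ℝ) (ht : ∀ i j, t i j = t j i) :
    ∑ i, ∑ j, t i j = ∑ j, t j j + 2 * ∑ j, ∑ i ∈ Finset.univ.filter (fun i => i < j), t i j := by
  have h1 : ∀ i j : Fin M, t i j = (if i < j then t i j else 0) + ((if i = j then t i j else 0) +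
      (if j < i then t i j else 0)) := by
    intro i j
    rcases lt_trichotomy i j with h | h | h
    · rw [if_pos h, if_neg h.ne, if_neg h.not_gt, add_zero, add_zero]
    · subst h
      simp
    · rw [if_neg h.not_gt, if_neg h.ne', if_pos h, zero_add, zero_add]
  have h2 : ∑ i, ∑ j, t i j = ∑ i, ∑ j, (if i < j then t i j else 0) +
      (∑ i, ∑ j, (if i = j then t i j else 0) + ∑ i, ∑ j, (if j < i then t i j else 0)) := by
    rw [← Finset.sum_add_distrib, ← Finset.sum_add_distrib]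
    refine Finset.sum_congr rfl fun i _ => ?_
    rw [← Finset.sum_add_distrib, ← Finset.sum_add_distrib]
    exact Finset.sum_congr rfl fun j _ => h1 i j
  have h3 : ∑ i, ∑ j, (if i < j then t i j else 0) =
      ∑ j, ∑ i ∈ Finset.univ.filter (fun i => i < j), t i j := by
    rw [Finset.sum_comm]
    refine Finset.sum_congr rfl fun j _ => ?_
    rw [Finset.sum_filter]
  have h4 : ∑ i, ∑ j, (if j < i then t i j else 0) =
      ∑ j, ∑ i ∈ Finset.univ.filter (fun i => i < j), t i j := by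
    refine Finset.sum_congr rfl fun j _ => ?_
    rw [Finset.sum_filter]
    exact Finset.sum_congr rfl fun i _ => by rw [ht j i]
  have h5 : ∑ i, ∑ j, (if i = j then t i j else 0) = ∑ j, t j j := by
    refine Finset.sum_congr rfl fun j _ => ?_
    rw [Finset.sum_ite_eq]
    simp
  rw [h2, h3, h4, h5]
  ring

theorem trace_decomp {E : Matrix G G ℝ} (hE : IsBlock E) {M : ℕ} (x : Fin M → G) :
    (E * (∑ i, Sm (x i)) ^ 2).trace ≤ M * E.trace +
      2 * ∑ j : Fin M, |((∑ i ∈ Finset.univ.filter (fun i => i < j), E * Sm (x i))ᵀ * Sm (x j)).trace| := by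
  have h1 : (E * (∑ i, Sm (x i)) ^ 2).trace = ∑ i, ∑ j, (E * (Sm (x i) * Sm (x j))).trace := by
    rw [sq, Finset.sum_mul, Finset.mul_sum, Matrix.trace_sum]
    refine Finset.sum_congr rfl fun i _ => ?_
    rw [Finset.mul_sum, Finset.mul_sum, Matrix.trace_sum]
  have h2 : ∀ j : Fin M, ((∑ i ∈ Finset.univ.filter (fun i => i < j), E * Sm (x i))ᵀ * Sm (x j)).trace =
      ∑ i ∈ Finset.univ.filter (fun i => i < j), (E * (Sm (x i) * Sm (x j))).trace := by
    intro j
    rw [Matrix.transpose_sum, Finset.sum_mul, Matrix.trace_sum]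
    refine Finset.sum_congr rfl fun i _ => ?_
    rw [Matrix.transpose_mul, hE.1.1, Sm_transpose, QB1_symm hE (x i) (x j), Matrix.mul_assoc,
      Matrix.trace_mul_comm, Matrix.mul_assoc]
  rw [h1, QB1_split (fun i j => (E * (Sm (x i) * Sm (x j))).trace) (fun i j => QB1_symm hE (x i) (x j))]
  have h3 : ∑ j : Fin M, (E * (Sm (x j) * Sm (x j))).trace ≤ (M : ℝ) * E.trace := by
    have h4 := Finset.sum_le_card_nsmul (Finset.univ : Finset (Fin M))
      (fun j => (E * (Sm (x j) * Sm (x j))).trace) E.trace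
      (fun j _ => (le_abs_self _).trans (QB1_trace_le hE (x j) (x j)))
    rwa [Finset.card_univ, Fintype.card_fin, nsmul_eq_mul] at h4
  have h5 : ∑ j : Fin M, ∑ i ∈ Finset.univ.filter (fun i => i < j), (E * (Sm (x i) * Sm (x j))).trace ≤
      ∑ j : Fin M, |((∑ i ∈ Finset.univ.filter (fun i => i < j), E * Sm (x i))ᵀ * Sm (x j)).trace| := by
    refine Finset.sum_le_sum fun j _ => ?_
    rw [← h2 j]
    exact le_abs_self _
  exact add_le_add h3 (mul_le_mul_of_nonneg_left h5 (by norm_num))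

end Pool.Agent.BC5
end

section
set_option autoImplicit false
set_option linter.unusedSectionVars false
set_option linter.unusedVariables false
open scoped BigOperators Matrix
open Matrix
namespace Pool.Agent.BC5


variable {G : Type} [Group G] [Fintype G] [DecidableEq G]


theorem QB2_two {E : Matrix G G ℝ} (hE : IsBlock E) {M : ℕ} (x : Fin M → G) (i j : Fin M) :
    |((E * Sm (x i))ᵀ * Sm (x j)).trace| ≤ E.trace := by
  have h := abs_trace_word_le hE.1 hE.2.2.1 (![i, j] : Fin 2 → Fin M) x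
  have h1 : wp (fun i => Sm (x i)) (![i, j] : Fin 2 → Fin M) = Sm (x i) * Sm (x j) := by
    simp [wp]
  rw [h1] at h
  have h2 : (E * Sm (x i))ᵀ * Sm (x j) = E * (Sm (x i) * Sm (x j)) := by
    rw [Matrix.transpose_mul, Sm_transpose, hE.1.1, ← (S4_commute_Sm hE.2.2.1 (x i)).eq, mul_assoc]
  rw [h2]
  exact h

theorem QB2_bound {E : Matrix G G ℝ} (hE : IsBlock E) {M : ℕ} (x : Fin M → G) (j : Fin M) (T : Finset (Fin M)) :
    |((∑ i ∈ T, E * Sm (x i))ᵀ * Sm (x j)).trace| ≤ M * E.trace := by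
  have h0 : 0 ≤ E.trace := trace_pr_nonneg hE.1
  rw [Matrix.transpose_sum, Finset.sum_mul, Matrix.trace_sum]
  calc |∑ i ∈ T, ((E * Sm (x i))ᵀ * Sm (x j)).trace| ≤ ∑ i ∈ T, |((E * Sm (x i))ᵀ * Sm (x j)).trace| :=
        Finset.abs_sum_le_sum_abs _ _
    _ ≤ ∑ i ∈ T, E.trace := Finset.sum_le_sum fun i _ => QB2_two hE x i j
    _ = T.card * E.trace := by rw [Finset.sum_const, nsmul_eq_mul]
    _ ≤ M * E.trace := by
        apply mul_le_mul_of_nonneg_right _ h0
        have := Finset.card_le_univ T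
        rw [Fintype.card_fin] at this
        exact_mod_cast this

theorem QB2_commL {E : Matrix G G ℝ} (hE : IsBlock E) {M : ℕ} (x : Fin M → G) (T : Finset (Fin M)) :
    CommL (∑ i ∈ T, E * Sm (x i)) := by
  intro g
  exact Commute.sum_left _ _ _ fun i _ => (hE.2.1 g).mul_left (commL_Sm (x i) g)

theorem seq_trace {E : Matrix G G ℝ} (hE : IsBlock E) (M t : ℕ) (hM : 1 ≤ M) (ε : ℝ) (hε : 0 < ε) :
    frac (fun x : Fin M → G => (1 / M + 2 * t / M + 2 * ε) * E.trace < (E * (avg fun i => Sm (x i)) ^ 2).trace)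
      ≤ 2 ^ M * (1 / (ε ^ 2 * E.trace)) ^ t := by
  classical
  have hD : 1 ≤ E.trace := block_trace_pos hE
  have hD0 : 0 < E.trace := by linarith
  have hM0 : (0 : ℝ) < M := by
    have : (1 : ℝ) ≤ M := by exact_mod_cast hM
    linarith
  set D := E.trace with hDdef
  let Bad : Fin M → (Fin M → G) → Prop := fun j x =>
    ε * M * D < |((∑ i ∈ Finset.univ.filter (fun i => i < j), E * Sm (x i))ᵀ * Sm (x j)).trace|
  have hdep : ∀ (j : Fin M) (x x' : Fin M → G), (∀ i, i ≤ j → x i = x' i) → Bad j x → Bad j x' := by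
    intro j x x' h hb
    have h1 : (∑ i ∈ Finset.univ.filter (fun i => i < j), E * Sm (x i)) =
        ∑ i ∈ Finset.univ.filter (fun i => i < j), E * Sm (x' i) := by
      apply Finset.sum_congr rfl
      intro i hi
      rw [h i (le_of_lt (Finset.mem_filter.mp hi).2)]
    show ε * M * D < _
    rw [← h1, ← h j le_rfl]
    exact hb
  have hf : ∀ (j : Fin M) (x : Fin M → G), frac (fun g : G => Bad j (Function.update x j g)) ≤ 1 / (ε ^ 2 * D) := by
    intro j x
    set B := ∑ i ∈ Finset.univ.filter (fun i => i < j), E * Sm (x i) with hB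
    have h1 : ∀ g : G, (∑ i ∈ Finset.univ.filter (fun i => i < j), E * Sm (Function.update x j g i)) = B := by
      intro g
      rw [hB]
      apply Finset.sum_congr rfl
      intro i hi
      rw [Function.update_of_ne (ne_of_lt (Finset.mem_filter.mp hi).2)]
    have h2 : frac (fun g : G => Bad j (Function.update x j g)) ≤
        avg (fun g : G => (Bᵀ * Sm g).trace ^ 2) / (ε * M * D) ^ 2 := by
      apply frac_le_avg_div
      · positivity
      · intro a
        positivity
      · intro g hg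
        have h3 : ε * M * D < |(Bᵀ * Sm g).trace| := by
          have h4 : ε * M * D < |((∑ i ∈ Finset.univ.filter (fun i => i < j), E * Sm (Function.update x j g i))ᵀ *
              Sm (Function.update x j g j)).trace| := hg
          rw [h1 g, Function.update_self] at h4
          exact h4
        rw [← sq_abs (Bᵀ * Sm g).trace]
        apply pow_le_pow_left₀ (by positivity) h3.le
    refine h2.trans ?_
    have h3 := avg_trace_Sm_sq B (QB2_commL hE x _)
    have h4 := hs_sum_ESm_le hE x (Finset.univ.filter (fun i => i < j))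
    have h5 : ((Finset.univ.filter (fun i : Fin M => i < j)).card : ℝ) ≤ M := by
      have := Finset.card_le_univ (Finset.univ.filter (fun i : Fin M => i < j))
      rw [Fintype.card_fin] at this
      exact_mod_cast this
    have h6 : hs B ≤ (M : ℝ) ^ 2 * D := by
      refine h4.trans ?_
      apply mul_le_mul_of_nonneg_right _ hD0.le
      exact pow_le_pow_left₀ (by positivity) h5 2
    have h7 : avg (fun g : G => (Bᵀ * Sm g).trace ^ 2) / (ε * M * D) ^ 2 ≤ ((M : ℝ) ^ 2 * D) / (ε * M * D) ^ 2 :=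
      div_le_div_of_nonneg_right (h3.trans h6) (by positivity)
    refine h7.trans (le_of_eq ?_)
    field_simp
  have hmain := count_adapt Bad hdep (1 / (ε ^ 2 * D)) (by positivity) hf t
  refine le_trans (frac_mono ?_) hmain
  intro x hx
  by_contra hno
  have hcard : (Finset.univ.filter (fun j => Bad j x)).card < t := by
    by_contra hc
    obtain ⟨B, hB1, hB2⟩ := Finset.exists_subset_card_eq (not_lt.mp hc)
    exact hno ⟨B, hB2, fun j hj => (Finset.mem_filter.mp (hB1 hj)).2⟩
  have hsum : (∑ j : Fin M, |((∑ i ∈ Finset.univ.filter (fun i => i < j), E * Sm (x i))ᵀ * Sm (x j)).trace|) ≤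
      t * (M * D) + M * (ε * M * D) := by
    have h1 : ∀ j : Fin M, |((∑ i ∈ Finset.univ.filter (fun i => i < j), E * Sm (x i))ᵀ * Sm (x j)).trace| ≤
        (if Bad j x then M * D else 0) + ε * M * D := by
      intro j
      by_cases hb : Bad j x
      · rw [if_pos hb]
        have := QB2_bound hE x j (Finset.univ.filter (fun i => i < j))
        have h2 : 0 ≤ ε * M * D := by positivity
        linarith
      · rw [if_neg hb, zero_add]
        exact not_lt.mp hb
    refine (Finset.sum_le_sum fun j _ => h1 j).trans ?_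
    rw [Finset.sum_add_distrib, Finset.sum_const, Finset.card_univ, Fintype.card_fin, nsmul_eq_mul,
      ← Finset.sum_filter, Finset.sum_const, nsmul_eq_mul]
    have h2 : ((Finset.univ.filter (fun j => Bad j x)).card : ℝ) ≤ t := by exact_mod_cast hcard.le
    have h3 : ((Finset.univ.filter (fun j => Bad j x)).card : ℝ) * (M * D) ≤ t * (M * D) :=
      mul_le_mul_of_nonneg_right h2 (by positivity)
    linarith
  have htd := trace_decomp hE x
  have havg : (E * (avg fun i => Sm (x i)) ^ 2).trace = ((M : ℝ)⁻¹) ^ 2 * (E * (∑ i, Sm (x i)) ^ 2).trace := by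
    unfold avg
    rw [Fintype.card_fin, smul_pow, mul_smul_comm, Matrix.trace_smul, smul_eq_mul]
  rw [havg] at hx
  have h8 : (E * (∑ i, Sm (x i)) ^ 2).trace ≤ M * D + 2 * (t * (M * D) + M * (ε * M * D)) := by
    refine htd.trans ?_
    linarith
  have h9 : ((M : ℝ)⁻¹) ^ 2 * (E * (∑ i, Sm (x i)) ^ 2).trace ≤
      ((M : ℝ)⁻¹) ^ 2 * (M * D + 2 * (t * (M * D) + M * (ε * M * D))) :=
    mul_le_mul_of_nonneg_left h8 (by positivity)
  have h10 : ((M : ℝ)⁻¹) ^ 2 * (M * D + 2 * (t * (M * D) + M * (ε * M * D))) = (1 / M + 2 * t / M + 2 * ε) * D := by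
    field_simp
    ring
  rw [h10] at h9
  exact absurd hx (not_lt.mpr h9)

end Pool.Agent.BC5
end

section
set_option autoImplicit false
set_option linter.unusedSectionVars false
set_option linter.unusedVariables false
open scoped BigOperators Matrix
open Matrix
namespace Pool.Agent.BC5


variable {G : Type} [Group G] [Fintype G] [DecidableEq G]

theorem start_two_num (M t v0 : ℕ) (hv0 : 4096 ≤ v0) (ht : 2 ^ 25 * t ≤ 2560 * v0) (hM : 2560 * v0 ≤ M) :
    (1 / (M : ℝ) + 2 * t / M + 2 * (1 / 2 : ℝ) ^ 25) ≤ (1 / 2) ^ 2 * (1 / 2 : ℝ) ^ 20 := by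
  have hM1 : (2 : ℝ) ^ 23 ≤ M := by
    have : 2 ^ 23 ≤ M := by omega
    exact_mod_cast this
  have hM0 : (0 : ℝ) < M := lt_of_lt_of_le (by norm_num) hM1
  have h1 : 1 / (M : ℝ) ≤ 1 / 2 ^ 23 := one_div_le_one_div_of_le (by norm_num) hM1
  have h2 : 2 * (t : ℝ) / M ≤ 1 / 2 ^ 24 := by
    rw [div_le_div_iff₀ hM0 (by norm_num)]
    have h3 : 2 ^ 25 * (t : ℝ) ≤ M := by
      have : 2 ^ 25 * t ≤ M := ht.trans hM
      exact_mod_cast this
    norm_num at h3 ⊢
    linarith
  have h4 : (1 / 2 ^ 23 : ℝ) + 1 / 2 ^ 24 + 2 * (1 / 2 : ℝ) ^ 25 = (1 / 2) ^ 2 * (1 / 2 : ℝ) ^ 20 := by norm_num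
  linarith

theorem start_two_one {N : ℕ} {E : Matrix G G ℝ} (hE : IsBlock E) (v0 t : ℕ) (hv0 : 4096 ≤ v0)
    (ht : 2 ^ 25 * t ≤ 2560 * v0) (R : Finset (Fin N)) :
    frac (fun x : Fin N × Fin 2560 → G => (v0 : ℝ) ≤ R.card ∧
      (1 / 2 : ℝ) ^ 20 * E.trace < (E * spr (AR x R) (1 / 2)).trace)
      ≤ 2 ^ (2560 * N) * (2 ^ 50 / E.trace) ^ t := by
  classical
  have hE1 : 1 ≤ E.trace := one_le_trace hE.1 hE.2.2.2.1
  have hE0 : 0 < E.trace := by linarith
  by_cases hR : (v0 : ℝ) ≤ R.card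
  · have hRn : v0 ≤ R.card := by exact_mod_cast hR
    have hRN : R.card ≤ N := by
      have := Finset.card_le_univ R
      rwa [Fintype.card_fin] at this
    have hcard : (cyl R : Finset (Fin N × Fin 2560)).card = R.card * 2560 := by
      unfold cyl
      rw [Finset.card_product, Finset.card_univ, Fintype.card_fin]
    obtain ⟨e, he, heU⟩ := exists_enum (cyl R : Finset (Fin N × Fin 2560))
    obtain ⟨M, hMdef⟩ : ∃ M, M = (cyl R : Finset (Fin N × Fin 2560)).card := ⟨_, rfl⟩
    have hM1 : 2560 * v0 ≤ (cyl R : Finset (Fin N × Fin 2560)).card := by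
      rw [hcard]; omega
    have hS := seq_trace hE (cyl R : Finset (Fin N × Fin 2560)).card t (by omega) ((1 / 2 : ℝ) ^ 25) (by positivity)
    have hnum := start_two_num (cyl R : Finset (Fin N × Fin 2560)).card t v0 hv0 ht hM1
    have hinj := frac_comp_injective (H := G) e he
      (fun y : Fin (cyl R : Finset (Fin N × Fin 2560)).card → G =>
        (1 / ((cyl R : Finset (Fin N × Fin 2560)).card : ℝ) + 2 * t / (cyl R : Finset (Fin N × Fin 2560)).card
          + 2 * (1 / 2 : ℝ) ^ 25) * E.trace < (E * (avg fun i => Sm (y i)) ^ 2).trace)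
    have hb : (2 : ℝ) ^ (cyl R : Finset (Fin N × Fin 2560)).card * (1 / (((1 / 2 : ℝ) ^ 25) ^ 2 * E.trace)) ^ t ≤
        2 ^ (2560 * N) * (2 ^ 50 / E.trace) ^ t := by
      have h1 : (1 / (((1 / 2 : ℝ) ^ 25) ^ 2 * E.trace)) = 2 ^ 50 / E.trace := by
        field_simp
      rw [h1]
      apply mul_le_mul_of_nonneg_right _ (by positivity)
      apply pow_le_pow_right₀ (by norm_num)
      rw [hcard]
      calc R.card * 2560 ≤ N * 2560 := Nat.mul_le_mul_right _ hRN
        _ = 2560 * N := Nat.mul_comm _ _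
    refine le_trans ?_ ((hinj.le.trans hS).trans hb)
    refine frac_mono ?_
    intro x hx
    have h3 : AR x R = avg (fun i => Sm (x (e i))) := by
      unfold AR
      exact AU_eq_avg x (cyl R) e he heU
    have hAt : (AR x R)ᵀ = AR x R := by
      rw [h3]
      exact Q4_transpose (fun i => x (e i))
    have h2 := spr_trace (AR x R) hAt (1 / 2) (by norm_num) E hE.1 1
    rw [mul_one] at h2
    have h6 := mul_lt_mul_of_pos_left hx.2 (show (0 : ℝ) < (1 / 2) ^ 2 by norm_num)
    have h7 : (1 / ((cyl R : Finset (Fin N × Fin 2560)).card : ℝ) + 2 * t / (cyl R : Finset (Fin N × Fin 2560)).card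
          + 2 * (1 / 2 : ℝ) ^ 25) * E.trace < (E * (AR x R) ^ 2).trace := by
      refine lt_of_le_of_lt (mul_le_mul_of_nonneg_right hnum hE0.le) ?_
      rw [mul_assoc]
      exact lt_of_lt_of_le h6 h2
    rw [h3] at h7
    exact h7
  · have h7 : frac (fun x : Fin N × Fin 2560 → G => False) = 0 := by
      unfold frac avg
      simp
    have h8 : frac (fun x : Fin N × Fin 2560 → G => (v0 : ℝ) ≤ R.card ∧
        (1 / 2 : ℝ) ^ 20 * E.trace < (E * spr (AR x R) (1 / 2)).trace) ≤
        frac (fun x : Fin N × Fin 2560 → G => False) := frac_mono (fun x hx => hR hx.1)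
    refine h8.trans ?_
    rw [h7]
    positivity

theorem start_two {N : ℕ} {E : Matrix G G ℝ} (hE : IsBlock E) (v0 t : ℕ) (hv0 : 4096 ≤ v0)
    (ht : 2 ^ 25 * t ≤ 2560 * v0) :
    frac (fun x : Fin N × Fin 2560 → G => ¬ StartP x E (1 / 2) v0 ((1 / 2 : ℝ) ^ 20))
      ≤ 2 ^ N * (2 ^ (2560 * N) * (2 ^ 50 / E.trace) ^ t) := by
  classical
  have h1 : frac (fun x : Fin N × Fin 2560 → G => ¬ StartP x E (1 / 2) v0 ((1 / 2 : ℝ) ^ 20)) ≤
      frac (fun x : Fin N × Fin 2560 → G => ∃ R ∈ (Finset.univ : Finset (Finset (Fin N))),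
        ((v0 : ℝ) ≤ R.card ∧ (1 / 2 : ℝ) ^ 20 * E.trace < (E * spr (AR x R) (1 / 2)).trace)) := by
    refine frac_mono ?_
    intro x hx
    by_contra hcon
    apply hx
    intro R hR
    by_contra hlt
    exact hcon ⟨R, Finset.mem_univ R, hR, not_le.1 hlt⟩
  refine h1.trans ((frac_exists_le (Finset.univ : Finset (Finset (Fin N)))
    (fun (R : Finset (Fin N)) (x : Fin N × Fin 2560 → G) => (v0 : ℝ) ≤ R.card ∧
      (1 / 2 : ℝ) ^ 20 * E.trace < (E * spr (AR x R) (1 / 2)).trace)).trans ?_)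
  refine (Finset.sum_le_sum (fun R _ => start_two_one hE v0 t hv0 ht R)).trans (le_of_eq ?_)
  rw [Finset.sum_const, Finset.card_univ, Fintype.card_finset, Fintype.card_fin, nsmul_eq_mul]
  push_cast
  ring

end Pool.Agent.BC5
end

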