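import Pool.Agent.Lib.MP_bc5a73_al.General

section
set_option autoImplicit false
set_option linter.unusedSectionVars false
set_option linter.unusedVariables false
open scoped BigOperators Matrix
open Matrix
namespace Pool.Agent.BC5

variable {V : Type} [Fintype V] [DecidableEq V]


/-- Spectral projection of the symmetric matrix `A` for the eigenvalues of absolute value at least `θ`. -/
noncomputable def spr (A : Matrix V V ℝ) (θ : ℝ) : Matrix V V ℝ :=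
  if h : Aᵀ = A then
    (L2_spec A h).choose * diagonal (fun i => if θ ≤ |(L2_spec A h).choose_spec.choose i| then (1 : ℝ) else 0) *
      ((L2_spec A h).choose)ᵀ
  else 0

/-- Orthonormal family. -/
def ON {V : Type} [Fintype V] {r : ℕ} (f : Fin r → V → ℝ) : Prop :=
  ∀ i j, f i ⬝ᵥ f j = if i = j then (1 : ℝ) else 0

/-- Average of the symmetrised right translations by `x u`, `u ∈ U`. -/
noncomputable def AU {G ι : Type} [Group G] [Fintype G] [DecidableEq G] (x : ι → G) (U : Finset ι) : Matrix G G ℝ :=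
  ((U.card : ℝ))⁻¹ • ∑ u ∈ U, Sm (x u)

/-- Average of the conjugates of `P` by the right translations by `x u`, `u ∈ U`. -/
noncomputable def TU {G ι : Type} [Group G] [Fintype G] [DecidableEq G] (x : ι → G) (P : Matrix G G ℝ) (U : Finset ι) :
    Matrix G G ℝ :=
  ((U.card : ℝ))⁻¹ • ∑ u ∈ U, Rm (x u) * P * Rm (x u)⁻¹

/-- The indices in the parts `a ∈ R`. -/
def cyl {N s : ℕ} (R : Finset (Fin N)) : Finset (Fin N × Fin s) := R ×ˢ Finset.univ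

/-- Average over the parts in `R`. -/
noncomputable def AR {G : Type} [Group G] [Fintype G] [DecidableEq G] {N s : ℕ} (x : Fin N × Fin s → G)
    (R : Finset (Fin N)) : Matrix G G ℝ := AU x (cyl R)

/-- The spectral projections for `{|λ| ≥ θ}` of all the `A_R`, `|R| ≥ v`, have relative trace at most `w` on `E`. -/
def StartP {G : Type} [Group G] [Fintype G] [DecidableEq G] {N s : ℕ} (x : Fin N × Fin s → G) (E : Matrix G G ℝ)
    (θ v w : ℝ) : Prop :=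
  ∀ R : Finset (Fin N), v ≤ R.card → (E * spr (AR x R) θ).trace ≤ w * E.trace

/-- All the `A_R`, `|R| ≥ v`, have norm at most `θ` on the range of `E`. -/
def NormP {G : Type} [Group G] [Fintype G] [DecidableEq G] {N s : ℕ} (x : Fin N × Fin s → G) (E : Matrix G G ℝ)
    (θ v : ℝ) : Prop :=
  ∀ R : Finset (Fin N), v ≤ R.card → ∀ f : G → ℝ, E *ᵥ f = f → |qf (AR x R) f| ≤ θ * (f ⬝ᵥ f)

theorem spr_data (A : Matrix V V ℝ) (hA : Aᵀ = A) :
    ∃ (U : Matrix V V ℝ) (d : V → ℝ), U * Uᵀ = 1 ∧ Uᵀ * U = 1 ∧ A = U * diagonal d * Uᵀ ∧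
      ∀ θ : ℝ, spr A θ = U * diagonal (fun i => if θ ≤ |d i| then (1 : ℝ) else 0) * Uᵀ := by
  refine ⟨(L2_spec A hA).choose, (L2_spec A hA).choose_spec.choose, (L2_spec A hA).choose_spec.choose_spec.1,
    (L2_spec A hA).choose_spec.choose_spec.2.1, (L2_spec A hA).choose_spec.choose_spec.2.2, fun θ => ?_⟩
  unfold spr
  rw [dif_pos hA]

end Pool.Agent.BC5
end

section
set_option autoImplicit false
set_option linter.unusedSectionVars false
set_option linter.unusedVariables false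
open scoped BigOperators Matrix
open Matrix
namespace Pool.Agent.BC5


variable {V : Type} [Fintype V] [DecidableEq V]


theorem spr_isPr (A : Matrix V V ℝ) (hA : Aᵀ = A) (θ : ℝ) : IsPr (spr A θ) := by
  obtain ⟨U, d, -, h2, -, h4⟩ := spr_data A hA
  rw [h4 θ]
  refine ⟨?_, ?_⟩
  · rw [Matrix.transpose_mul, Matrix.transpose_mul, Matrix.transpose_transpose,
      Matrix.diagonal_transpose, mul_assoc]
  · rw [L2_mul h2]
    congr 3
    funext i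
    split_ifs <;> simp

theorem spr_comm (A : Matrix V V ℝ) (hA : Aᵀ = A) (θ : ℝ) (X : Matrix V V ℝ) (h : Commute X A) :
    Commute X (spr A θ) := by
  obtain ⟨U, d, h1, h2, h3, h4⟩ := spr_data A hA
  rw [h4 θ]
  rw [h3] at h
  exact L2_comm h1 h2 d (fun t => if θ ≤ |t| then (1 : ℝ) else 0) X h

end Pool.Agent.BC5
end

section
set_option autoImplicit false
set_option linter.unusedSectionVars false
set_option linter.unusedVariables false
open scoped BigOperators Matrix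
open Matrix
namespace Pool.Agent.BC5


variable {V : Type} [Fintype V] [DecidableEq V]


theorem spr_compl (A : Matrix V V ℝ) (hA : Aᵀ = A) (θ : ℝ) (hθ : 0 ≤ θ) (v : V → ℝ) (hv : spr A θ *ᵥ v = 0) :
    (A *ᵥ v) ⬝ᵥ (A *ᵥ v) ≤ θ ^ 2 * (v ⬝ᵥ v) := by
  obtain ⟨U, d, hU, hU', hAd, hs⟩ := spr_data A hA
  have e1 : (A *ᵥ v) ⬝ᵥ (A *ᵥ v) = qf (A * A) v := by
    unfold qf
    rw [← Matrix.mulVec_mulVec, Matrix.dotProduct_mulVec v A, ← Matrix.mulVec_transpose, hA]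
  have e2 : A * A = U * diagonal (fun i => d i * d i) * Uᵀ := by
    have h := L2_mul hU' d d
    rw [← hAd] at h
    exact h
  have e3 : ∑ i, (if θ ≤ |d i| then (1 : ℝ) else 0) * (Uᵀ *ᵥ v) i ^ 2 = 0 := by
    have h := L2_qf U (fun i => if θ ≤ |d i| then (1 : ℝ) else 0) v
    rw [← hs θ] at h
    rw [← h]
    unfold qf
    rw [hv, dotProduct_zero]
  have e4 : ∀ i, (if θ ≤ |d i| then (1 : ℝ) else 0) * (Uᵀ *ᵥ v) i ^ 2 = 0 := by
    have h0 : ∀ i ∈ (Finset.univ : Finset V), 0 ≤ (if θ ≤ |d i| then (1 : ℝ) else 0) * (Uᵀ *ᵥ v) i ^ 2 := by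
      intro i _
      split_ifs <;> positivity
    intro i
    exact (Finset.sum_eq_zero_iff_of_nonneg h0).1 e3 i (Finset.mem_univ i)
  rw [e1, e2, L2_qf, L2_dot hU v, Finset.mul_sum]
  refine Finset.sum_le_sum fun i _ => ?_
  by_cases hi : θ ≤ |d i|
  · have h := e4 i
    rw [if_pos hi, one_mul] at h
    rw [h, mul_zero, mul_zero]
  · have h1 : |d i| ≤ θ := (not_le.1 hi).le
    have h2 : d i * d i ≤ θ ^ 2 := by
      have h3 : |d i| ^ 2 ≤ θ ^ 2 := pow_le_pow_left₀ (abs_nonneg _) h1 2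
      rw [sq_abs] at h3
      nlinarith
    exact mul_le_mul_of_nonneg_right h2 (sq_nonneg _)

end Pool.Agent.BC5
end

section
set_option autoImplicit false
set_option linter.unusedSectionVars false
set_option linter.unusedVariables false
open scoped BigOperators Matrix
open Matrix
namespace Pool.Agent.BC5


variable {V : Type} [Fintype V] [DecidableEq V]


theorem spr_trace (A : Matrix V V ℝ) (hA : Aᵀ = A) (θ : ℝ) (hθ : 0 ≤ θ) (E : Matrix V V ℝ) (hE : IsPr E) (T : ℕ) :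
    θ ^ (2 * T) * (E * spr A θ).trace ≤ (E * A ^ (2 * T)).trace := by
  obtain ⟨U, d, hU', hU, hAd, hs⟩ := spr_data A hA
  have hp : A ^ (2 * T) = U * diagonal (fun i => d i ^ (2 * T)) * Uᵀ := by
    calc A ^ (2 * T) = (U * diagonal d * Uᵀ) ^ (2 * T) := by rw [← hAd]
      _ = _ := L3_pow hU hU' d (2 * T)
  rw [hs θ, hp, L3_trace, L3_trace, Finset.mul_sum]
  refine Finset.sum_le_sum fun i _ => ?_
  have hg := L3_diag hU' hE i
  by_cases h : θ ≤ |d i|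
  · rw [if_pos h]
    have h1 : θ ^ (2 * T) ≤ d i ^ (2 * T) := by
      calc θ ^ (2 * T) ≤ |d i| ^ (2 * T) := pow_le_pow_left₀ hθ h _
        _ = d i ^ (2 * T) := by rw [pow_mul, pow_mul, sq_abs]
    calc θ ^ (2 * T) * ((Uᵀ * E * U) i i * 1) = (Uᵀ * E * U) i i * θ ^ (2 * T) := by ring
      _ ≤ (Uᵀ * E * U) i i * d i ^ (2 * T) := mul_le_mul_of_nonneg_left h1 hg
  · rw [if_neg h]
    have h2 : 0 ≤ d i ^ (2 * T) := by
      rw [pow_mul]
      exact pow_nonneg (sq_nonneg _) _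
    calc θ ^ (2 * T) * ((Uᵀ * E * U) i i * 0) = 0 := by ring
      _ ≤ (Uᵀ * E * U) i i * d i ^ (2 * T) := mul_nonneg hg h2

theorem spr_trace_anti (A : Matrix V V ℝ) (hA : Aᵀ = A) (θ θ' : ℝ) (h : θ ≤ θ') (E : Matrix V V ℝ) (hE : IsPr E) :
    (E * spr A θ').trace ≤ (E * spr A θ).trace := by
  obtain ⟨U, d, hU', hU, hAd, hs⟩ := spr_data A hA
  rw [hs θ, hs θ', L3_trace, L3_trace]
  refine Finset.sum_le_sum fun i _ => ?_
  have hg := L3_diag hU' hE i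
  refine mul_le_mul_of_nonneg_left ?_ hg
  by_cases h1 : θ' ≤ |d i|
  · rw [if_pos h1, if_pos (h.trans h1)]
  · rw [if_neg h1]
    split_ifs
    · exact zero_le_one
    · exact le_refl _

theorem spr_trace_nonneg (A : Matrix V V ℝ) (hA : Aᵀ = A) (θ : ℝ) (E : Matrix V V ℝ) (hE : IsPr E) :
    0 ≤ (E * spr A θ).trace := by
  obtain ⟨U, d, hU', hU, hAd, hs⟩ := spr_data A hA
  rw [hs θ, L3_trace]
  refine Finset.sum_nonneg fun i _ => mul_nonneg (L3_diag hU' hE i) ?_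
  split_ifs
  · exact zero_le_one
  · exact le_refl _

end Pool.Agent.BC5
end

section
set_option autoImplicit false
set_option linter.unusedSectionVars false
set_option linter.unusedVariables false
open scoped BigOperators Matrix
open Matrix
namespace Pool.Agent.BC5


variable {V : Type} [Fintype V] [DecidableEq V]


theorem ON_sum_le {r : ℕ} (f : Fin r → V → ℝ) (hf : ON f) (M : Matrix V V ℝ) (hM : Mᵀ = M) (h0 : ∀ v, 0 ≤ qf M v) :
    ∑ i, qf M (f i) ≤ M.trace := by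
  classical
  set F : Matrix V V ℝ := ∑ i, vecMulVec (f i) (f i) with hF
  have hFt : Fᵀ = F := by
    rw [hF, transpose_sum]
    refine Finset.sum_congr rfl fun i _ => ?_
    ext a b
    simp [vecMulVec_apply, mul_comm]
  have hFF : F * F = F := by
    rw [hF, Finset.sum_mul]
    refine Finset.sum_congr rfl fun i _ => ?_
    rw [Finset.mul_sum]
    rw [Finset.sum_eq_single i]
    · rw [vecMulVec_mul_vecMulVec, hf i i, if_pos rfl, one_smul]
    · intro j _ hji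
      rw [vecMulVec_mul_vecMulVec, hf i j, if_neg (Ne.symm hji), zero_smul]
      ext a b; simp [vecMulVec_apply]
    · intro h; exact absurd (Finset.mem_univ i) h
  have hFM : (F * M).trace = ∑ i, qf M (f i) := by
    rw [hF, Finset.sum_mul, trace_sum]
    refine Finset.sum_congr rfl fun i _ => ?_
    unfold qf
    simp only [trace, diag_apply, mul_apply, vecMulVec_apply, dotProduct, mulVec]
    rw [Finset.sum_congr rfl (fun a _ => Finset.mul_sum _ _ _), Finset.sum_comm]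
    rw [Finset.sum_comm]
    refine Finset.sum_congr rfl fun a _ => Finset.sum_congr rfl fun b _ => ?_
    have : M b a = M a b := by
      conv_lhs => rw [← hM]
      rfl
    rw [this]; ring
  set G : Matrix V V ℝ := 1 - F with hG
  have hGt : Gᵀ = G := by rw [hG, transpose_sub, transpose_one, hFt]
  have hGG : G * G = G := by
    rw [hG, mul_sub, mul_one, sub_mul, one_mul, hFF, sub_self, sub_zero]
  have hN : 0 ≤ (G * M * G).trace := by
    refine trace_nonneg_of_qf _ fun v => ?_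
    have h1 := h0 (G *ᵥ v)
    unfold qf at h1 ⊢
    have h2 : v ⬝ᵥ ((G * M * G) *ᵥ v) = (G *ᵥ v) ⬝ᵥ (M *ᵥ (G *ᵥ v)) := by
      rw [← mulVec_mulVec, ← mulVec_mulVec, dotProduct_mulVec, ← mulVec_transpose, hGt]
    rw [h2]; exact h1
  have h3 : (G * M * G).trace = M.trace - ∑ i, qf M (f i) := by
    rw [trace_mul_comm, ← mul_assoc, hGG, hG, sub_mul, one_mul, trace_sub, hFM]
  linarith

end Pool.Agent.BC5
end

section
set_option autoImplicit false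
set_option linter.unusedSectionVars false
set_option linter.unusedVariables false
open scoped BigOperators Matrix
open Matrix
namespace Pool.Agent.BC5


variable {V : Type} [Fintype V] [DecidableEq V]


theorem qf_pow_le (T : Matrix V V ℝ) (hT : Tᵀ = T) (h0 : ∀ v, 0 ≤ qf T v) (u : V → ℝ) (hu : u ⬝ᵥ u ≤ 1) (p : ℕ)
    (hp : 1 ≤ p) : (qf T u) ^ (2 * p) ≤ qf (T ^ (2 * p)) u := by
  obtain ⟨U, d, hU1, hU2, hTU⟩ := L2_spec T hT
  have hd : ∀ i, 0 ≤ d i := by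
    intro i
    have h1 := h0 (U *ᵥ (Pi.single i 1))
    rw [hTU, L2_qf, Matrix.mulVec_mulVec, hU2, Matrix.one_mulVec] at h1
    have h2 : ∑ j, d j * (Pi.single i (1 : ℝ) : V → ℝ) j ^ 2 = d i := by
      rw [Finset.sum_eq_single i]
      · simp
      · intro j _ hj
        rw [Pi.single_eq_of_ne hj]
        ring
      · intro h
        exact absurd (Finset.mem_univ i) h
    rwa [h2] at h1
  have hc : ∑ i, (Uᵀ *ᵥ u) i ^ 2 = u ⬝ᵥ u := by
    have h1 := L2_qf U (fun _ => (1 : ℝ)) u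
    have h2 : diagonal (fun _ : V => (1 : ℝ)) = 1 := Matrix.diagonal_one
    rw [h2, mul_one, hU1] at h1
    unfold qf at h1
    rw [Matrix.one_mulVec] at h1
    rw [h1]
    exact Finset.sum_congr rfl fun i _ => by ring
  rw [hTU, L3_pow hU2 hU1, L2_qf, L2_qf]
  have hJ := Real.pow_arith_mean_le_arith_mean_pow (Finset.univ : Finset (Option V))
    (fun o => o.elim (1 - u ⬝ᵥ u) (fun i => (Uᵀ *ᵥ u) i ^ 2)) (fun o => o.elim 0 d)
    (by
      intro o _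
      cases o with
      | none => simp only [Option.elim_none]; linarith
      | some i => simp only [Option.elim_some]; positivity)
    (by
      rw [Fintype.sum_option]
      simp only [Option.elim_none, Option.elim_some]
      rw [hc]
      ring)
    (by
      intro o _
      cases o with
      | none => simp
      | some i => exact hd i)
    (2 * p)
  rw [Fintype.sum_option, Fintype.sum_option] at hJ
  simp only [Option.elim_none, Option.elim_some, mul_zero, zero_add] at hJ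
  rw [zero_pow (by omega), mul_zero, zero_add] at hJ
  have e1 : ∑ i, d i * (Uᵀ *ᵥ u) i ^ 2 = ∑ i, (Uᵀ *ᵥ u) i ^ 2 * d i :=
    Finset.sum_congr rfl fun i _ => mul_comm _ _
  have e2 : ∑ i, d i ^ (2 * p) * (Uᵀ *ᵥ u) i ^ 2 = ∑ i, (Uᵀ *ᵥ u) i ^ 2 * d i ^ (2 * p) :=
    Finset.sum_congr rfl fun i _ => mul_comm _ _
  rw [e1, e2]
  exact hJ

end Pool.Agent.BC5
end

section
set_option autoImplicit false
set_option linter.unusedSectionVars false
set_option linter.unusedVariables false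
open scoped BigOperators Matrix
open Matrix
namespace Pool.Agent.BC5


variable {V : Type} [Fintype V] [DecidableEq V]


theorem M9_tri (p q : V → ℝ) (a b : ℝ) (ha : 0 ≤ a) (hb : 0 ≤ b) (hp : p ⬝ᵥ p ≤ a ^ 2) (hq : q ⬝ᵥ q ≤ b ^ 2) :
    (p + q) ⬝ᵥ (p + q) ≤ (a + b) ^ 2 := by
  have h1 : (p ⬝ᵥ q) ^ 2 ≤ (a * b) ^ 2 := by
    calc (p ⬝ᵥ q) ^ 2 ≤ (p ⬝ᵥ p) * (q ⬝ᵥ q) := L1_dot_cs p q
      _ ≤ a ^ 2 * b ^ 2 := mul_le_mul hp hq (dot_self_nonneg q) (sq_nonneg a)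
      _ = (a * b) ^ 2 := by ring
  have h2 : p ⬝ᵥ q ≤ a * b := abs_le_of_sq_le_sq' h1 (mul_nonneg ha hb) |>.2
  have h3 : (p + q) ⬝ᵥ (p + q) = p ⬝ᵥ p + 2 * (p ⬝ᵥ q) + q ⬝ᵥ q := by
    rw [add_dotProduct, dotProduct_add, dotProduct_add, dotProduct_comm q p]; ring
  rw [h3]
  nlinarith

theorem M9_smul (c : ℝ) (p : V → ℝ) : (c • p) ⬝ᵥ (c • p) = c ^ 2 * (p ⬝ᵥ p) := by
  rw [smul_dotProduct, dotProduct_smul, smul_eq_mul, smul_eq_mul]; ring

/-- A projection does not increase the norm. -/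
theorem M9_pr_le {Q : Matrix V V ℝ} (hQ : IsPr Q) (g : V → ℝ) : (Q *ᵥ g) ⬝ᵥ (Q *ᵥ g) ≤ g ⬝ᵥ g := by
  have h1 := qf_pr_nonneg hQ.compl g
  rw [qf_sub, qf_one, qf_pr hQ] at h1
  linarith

theorem M9_compl (Q : Matrix V V ℝ) (g : V → ℝ) : (1 - Q) *ᵥ g = g - Q *ᵥ g := by
  rw [Matrix.sub_mulVec, Matrix.one_mulVec]

theorem leave_vec (B C Q : Matrix V V ℝ) (hQ : IsPr Q) (hc : Commute Q B) (θ θ' n1 h lam : ℝ) (hθ : 0 ≤ θ)
    (hb : ∀ v, Q *ᵥ v = 0 → (B *ᵥ v) ⬝ᵥ (B *ᵥ v) ≤ θ ^ 2 * (v ⬝ᵥ v))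
    (hC : ∀ v, (C *ᵥ v) ⬝ᵥ (C *ᵥ v) ≤ v ⬝ᵥ v) (hn : 0 < n1) (hh : 0 ≤ h) (hhn : h ≤ n1) (hθθ : θ < θ')
    (hlam : θ' ≤ |lam|) (hn2 : 10 * h ≤ n1 * (θ' - θ)) (f : V → ℝ)
    (hf : (n1 * lam) • f = (n1 - h) • (B *ᵥ f) + h • (C *ᵥ f)) :
    (f - Q *ᵥ f) ⬝ᵥ (f - Q *ᵥ f) ≤ 1 / 100 * (f ⬝ᵥ f) := by
  obtain ⟨v, hv⟩ : ∃ v, v = f - Q *ᵥ f := ⟨_, rfl⟩
  rw [← hv]
  have hQv : Q *ᵥ v = 0 := by
    rw [hv, Matrix.mulVec_sub, Matrix.mulVec_mulVec, hQ.2, sub_self]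
  obtain ⟨g, hg⟩ : ∃ g, g = (1 - Q) *ᵥ (C *ᵥ f) := ⟨_, rfl⟩
  have hgn : g ⬝ᵥ g ≤ f ⬝ᵥ f := by
    rw [hg]
    exact (M9_pr_le hQ.compl (C *ᵥ f)).trans (hC f)
  have hBv : (1 - Q) *ᵥ (B *ᵥ f) = B *ᵥ v := by
    rw [hv, M9_compl, Matrix.mulVec_sub, Matrix.mulVec_mulVec, Matrix.mulVec_mulVec, hc.eq]
  have heq : (n1 * lam) • v = (n1 - h) • (B *ᵥ v) + h • g := by
    have h1 := congrArg (fun w => (1 - Q) *ᵥ w) hf
    simp only [Matrix.mulVec_add, Matrix.mulVec_smul] at h1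
    rw [hBv, ← hg, M9_compl, ← hv] at h1
    exact h1
  obtain ⟨N, hN⟩ : ∃ N, N = Real.sqrt (v ⬝ᵥ v) := ⟨_, rfl⟩
  obtain ⟨F, hF⟩ : ∃ F, F = Real.sqrt (f ⬝ᵥ f) := ⟨_, rfl⟩
  have hN0 : 0 ≤ N := by rw [hN]; exact Real.sqrt_nonneg _
  have hF0 : 0 ≤ F := by rw [hF]; exact Real.sqrt_nonneg _
  have hN2 : N ^ 2 = v ⬝ᵥ v := by rw [hN]; exact Real.sq_sqrt (dot_self_nonneg v)
  have hF2 : F ^ 2 = f ⬝ᵥ f := by rw [hF]; exact Real.sq_sqrt (dot_self_nonneg f)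
  have hn1h : 0 ≤ n1 - h := by linarith
  have hp : ((n1 - h) • (B *ᵥ v)) ⬝ᵥ ((n1 - h) • (B *ᵥ v)) ≤ ((n1 - h) * θ * N) ^ 2 := by
    rw [M9_smul]
    calc (n1 - h) ^ 2 * ((B *ᵥ v) ⬝ᵥ (B *ᵥ v)) ≤ (n1 - h) ^ 2 * (θ ^ 2 * (v ⬝ᵥ v)) :=
          mul_le_mul_of_nonneg_left (hb v hQv) (sq_nonneg _)
      _ = ((n1 - h) * θ * N) ^ 2 := by rw [← hN2]; ring
  have hq : (h • g) ⬝ᵥ (h • g) ≤ (h * F) ^ 2 := by
    rw [M9_smul]
    calc h ^ 2 * (g ⬝ᵥ g) ≤ h ^ 2 * (f ⬝ᵥ f) := mul_le_mul_of_nonneg_left hgn (sq_nonneg _)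
      _ = (h * F) ^ 2 := by rw [← hF2]; ring
  have hmain := M9_tri _ _ _ _ (mul_nonneg (mul_nonneg hn1h hθ) hN0) (mul_nonneg hh hF0) hp hq
  rw [← heq, M9_smul, ← hN2] at hmain
  have hθ' : 0 ≤ θ' := hθ.trans hθθ.le
  have hlow : (n1 * θ' * N) ^ 2 ≤ (n1 * lam) ^ 2 * N ^ 2 := by
    have h1 : θ' ^ 2 ≤ lam ^ 2 := by
      rw [← sq_abs lam]
      exact pow_le_pow_left₀ hθ' hlam 2
    calc (n1 * θ' * N) ^ 2 = (n1 ^ 2 * N ^ 2) * θ' ^ 2 := by ring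
      _ ≤ (n1 ^ 2 * N ^ 2) * lam ^ 2 := mul_le_mul_of_nonneg_left h1 (by positivity)
      _ = (n1 * lam) ^ 2 * N ^ 2 := by ring
  have hR0 : 0 ≤ (n1 - h) * θ * N + h * F :=
    add_nonneg (mul_nonneg (mul_nonneg hn1h hθ) hN0) (mul_nonneg hh hF0)
  have h1 : n1 * θ' * N ≤ (n1 - h) * θ * N + h * F :=
    (abs_le_of_sq_le_sq' (hlow.trans hmain) hR0).2
  have h2 : h * θ * N ≥ 0 := mul_nonneg (mul_nonneg hh hθ) hN0
  have h3 : n1 * (θ' - θ) * N ≤ h * F := by nlinarith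
  have hpos : 0 < n1 * (θ' - θ) := mul_pos hn (by linarith)
  have h4 : 10 * h * F ≤ n1 * (θ' - θ) * F := mul_le_mul_of_nonneg_right hn2 hF0
  have h5 : n1 * (θ' - θ) * (10 * N) ≤ n1 * (θ' - θ) * F := by nlinarith
  have h6 : 10 * N ≤ F := le_of_mul_le_mul_left h5 hpos
  rw [← hN2, ← hF2]
  nlinarith

theorem abs_qf_le_half (C P : Matrix V V ℝ) (hCt : Cᵀ = C) (hC : ∀ v, (C *ᵥ v) ⬝ᵥ (C *ᵥ v) ≤ v ⬝ᵥ v) (hP : IsPr P)
    (f : V → ℝ) (hf : f ⬝ᵥ f = 1) (hv : (f - P *ᵥ f) ⬝ᵥ (f - P *ᵥ f) ≤ 1 / 100)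
    (hu : |qf C (P *ᵥ f)| ≤ 1 / 4) : |qf C f| ≤ 1 / 2 := by
  obtain ⟨u, hu'⟩ : ∃ u, u = P *ᵥ f := ⟨_, rfl⟩
  obtain ⟨v, hv'⟩ : ∃ v, v = f - P *ᵥ f := ⟨_, rfl⟩
  have hun : u ⬝ᵥ u ≤ 1 := by rw [hu', ← hf]; exact M9_pr_le hP f
  rw [← hv'] at hv
  rw [← hu'] at hu
  have hfuv : f = u + v := by rw [hu', hv']; abel
  have hsym : u ⬝ᵥ (C *ᵥ v) = (C *ᵥ u) ⬝ᵥ v := by
    rw [Matrix.dotProduct_mulVec, ← Matrix.mulVec_transpose, hCt]
  have hexp : qf C f = qf C u + 2 * ((C *ᵥ u) ⬝ᵥ v) + qf C v := by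
    unfold qf
    rw [hfuv, Matrix.mulVec_add, add_dotProduct, dotProduct_add, dotProduct_add, hsym,
      dotProduct_comm v (C *ᵥ u)]
    ring
  have h1 : ((C *ᵥ u) ⬝ᵥ v) ^ 2 ≤ (1 / 10 : ℝ) ^ 2 := by
    calc ((C *ᵥ u) ⬝ᵥ v) ^ 2 ≤ ((C *ᵥ u) ⬝ᵥ (C *ᵥ u)) * (v ⬝ᵥ v) := L1_dot_cs _ _
      _ ≤ 1 * (1 / 100) := mul_le_mul ((hC u).trans hun) hv (dot_self_nonneg v) zero_le_one
      _ = (1 / 10 : ℝ) ^ 2 := by norm_num
  have h2 := abs_le_of_sq_le_sq' h1 (by norm_num)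
  have h3 : (qf C v) ^ 2 ≤ (1 / 100 : ℝ) ^ 2 := by
    unfold qf
    calc (v ⬝ᵥ (C *ᵥ v)) ^ 2 ≤ (v ⬝ᵥ v) * ((C *ᵥ v) ⬝ᵥ (C *ᵥ v)) := L1_dot_cs _ _
      _ ≤ (1 / 100) * (1 / 100) :=
          mul_le_mul hv ((hC v).trans hv) (dot_self_nonneg _) (by norm_num)
      _ = (1 / 100 : ℝ) ^ 2 := by norm_num
  have h4 := abs_le_of_sq_le_sq' h3 (by norm_num)
  have h5 := abs_le.1 hu
  rw [hexp, abs_le]
  constructor
  · linarith [h2.1, h4.1, h5.1]
  · linarith [h2.2, h4.2, h5.2]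

end Pool.Agent.BC5
end

section
set_option autoImplicit false
set_option linter.unusedSectionVars false
set_option linter.unusedVariables false
open scoped BigOperators Matrix
open Matrix
namespace Pool.Agent.BC5


variable {V : Type} [Fintype V] [DecidableEq V]


theorem M4_ge (A : Matrix V V ℝ) (hA : Aᵀ = A) (θ : ℝ) (v : V → ℝ) (c : ℝ) (hv : spr A θ *ᵥ v = v)
    (hc : A *ᵥ v = c • v) (hne : v ≠ 0) : θ ≤ |c| := by
  obtain ⟨U, d, hU, hU', hAd, hS⟩ := spr_data A hA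
  have hw : ∃ j, (Uᵀ *ᵥ v) j ≠ 0 := by
    by_contra hcon
    push Not at hcon
    apply hne
    have h0 : Uᵀ *ᵥ v = 0 := funext hcon
    calc v = (U * Uᵀ) *ᵥ v := by rw [hU, Matrix.one_mulVec]
      _ = 0 := by rw [← Matrix.mulVec_mulVec, h0, Matrix.mulVec_zero]
  obtain ⟨j, hj⟩ := hw
  have h1 : diagonal (fun i => if θ ≤ |d i| then (1 : ℝ) else 0) *ᵥ (Uᵀ *ᵥ v) = Uᵀ *ᵥ v := by
    have h2 : Uᵀ *ᵥ (spr A θ *ᵥ v) = Uᵀ *ᵥ v := by rw [hv]
    rw [hS θ, ← Matrix.mulVec_mulVec, ← Matrix.mulVec_mulVec,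
      Matrix.mulVec_mulVec (diagonal (fun i => if θ ≤ |d i| then (1 : ℝ) else 0) *ᵥ (Uᵀ *ᵥ v)) Uᵀ U,
      hU', Matrix.one_mulVec] at h2
    exact h2
  have h3 : diagonal d *ᵥ (Uᵀ *ᵥ v) = c • (Uᵀ *ᵥ v) := by
    have h4 : Uᵀ *ᵥ (A *ᵥ v) = Uᵀ *ᵥ (c • v) := by rw [hc]
    rw [Matrix.mulVec_smul] at h4
    rw [← h4]
    conv_rhs => rw [hAd]
    rw [← Matrix.mulVec_mulVec, ← Matrix.mulVec_mulVec, Matrix.mulVec_mulVec (diagonal d *ᵥ (Uᵀ *ᵥ v)) Uᵀ U, hU', Matrix.one_mulVec]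
  have h5 := congrFun h1 j
  have h6 := congrFun h3 j
  rw [Matrix.mulVec_diagonal] at h5 h6
  rw [Pi.smul_apply, smul_eq_mul] at h6
  have h7 : d j = c := mul_right_cancel₀ hj h6
  by_cases h8 : θ ≤ |d j|
  · rwa [h7] at h8
  · rw [if_neg h8, zero_mul] at h5
    exact absurd h5.symm hj

theorem spr_eig (A : Matrix V V ℝ) (hA : Aᵀ = A) (θ : ℝ) (hθ : 0 < θ) (E : Matrix V V ℝ) (hE : IsPr E)
    (hc : Commute E A) :
    ∃ (r : ℕ) (f : Fin r → V → ℝ) (lam : Fin r → ℝ), ON f ∧ (∀ i, E *ᵥ f i = f i) ∧ (∀ i, A *ᵥ f i = lam i • f i) ∧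
      (∀ i, θ ≤ |lam i|) ∧ (E * spr A θ).trace = r := by
  classical
  have hS : IsPr (spr A θ) := spr_isPr A hA θ
  have hES : Commute E (spr A θ) := spr_comm A hA θ E hc
  have hAS : Commute A (spr A θ) := spr_comm A hA θ A (Commute.refl A)
  obtain ⟨S, hSdef⟩ : ∃ S, S = spr A θ := ⟨_, rfl⟩
  rw [← hSdef] at hS hES hAS ⊢
  have hQ : IsPr (E * S) := hE.mul hS hES
  have hQA : Commute (E * S) A := hc.mul_left hAS.symm
  obtain ⟨Q, hQdef⟩ : ∃ Q, Q = E * S := ⟨_, rfl⟩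
  rw [← hQdef] at hQ hQA ⊢
  have hEQ : E * Q = Q := by rw [hQdef, ← Matrix.mul_assoc, hE.2]
  have hSQ : S * Q = Q := by
    rw [hQdef, ← Matrix.mul_assoc, ← hES.eq, Matrix.mul_assoc, hS.2]
  have hBsym : (A * Q)ᵀ = A * Q := by
    rw [Matrix.transpose_mul, hQ.1, hA, hQA.eq]
  obtain ⟨U, b, hU, hU', hB⟩ := L2_spec (A * Q) hBsym
  have hBU : (A * Q) * U = U * diagonal b := by
    conv_lhs => rw [hB]
    rw [Matrix.mul_assoc, hU', mul_one]
  have hBu : ∀ i, (A * Q) *ᵥ (Uᵀ i) = b i • Uᵀ i := by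
    intro i
    funext j
    have h1 : ((A * Q) * U) j i = (U * diagonal b) j i := by rw [hBU]
    rw [Matrix.mul_diagonal] at h1
    have h2 : ((A * Q) * U) j i = ((A * Q) *ᵥ (Uᵀ i)) j := rfl
    rw [← h2, h1, Pi.smul_apply, smul_eq_mul, Matrix.transpose_apply, mul_comm]
  have hON : ∀ i j, Uᵀ i ⬝ᵥ Uᵀ j = if i = j then (1 : ℝ) else 0 := by
    intro i j
    have h1 : (Uᵀ * U) i j = Uᵀ i ⬝ᵥ Uᵀ j := rfl
    rw [← h1, hU', Matrix.one_apply]
  have hAQu : ∀ i, A *ᵥ (Q *ᵥ Uᵀ i) = b i • Uᵀ i := by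
    intro i
    rw [Matrix.mulVec_mulVec]
    exact hBu i
  have hQne : ∀ i, b i ≠ 0 → Q *ᵥ Uᵀ i = Uᵀ i := by
    intro i hi
    have h1 : Q *ᵥ ((A * Q) *ᵥ Uᵀ i) = (A * Q) *ᵥ Uᵀ i := by
      rw [Matrix.mulVec_mulVec]
      congr 1
      rw [← hQA.eq, ← Matrix.mul_assoc, hQ.2]
    rw [hBu i, Matrix.mulVec_smul] at h1
    have h2 := congrArg (fun z => (b i)⁻¹ • z) h1
    simp only [smul_smul, inv_mul_cancel₀ hi, one_smul] at h2
    exact h2
  have hQz : ∀ i, b i = 0 → Q *ᵥ Uᵀ i = 0 := by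
    intro i hi
    by_contra hne
    have h1 := M4_ge A hA θ (Q *ᵥ Uᵀ i) 0 (by rw [← hSdef, Matrix.mulVec_mulVec, hSQ])
      (by rw [hAQu i, hi, zero_smul, zero_smul]) hne
    rw [abs_zero] at h1
    linarith
  have htr : Q.trace = ∑ i, Uᵀ i ⬝ᵥ (Q *ᵥ Uᵀ i) := by
    have h1 : (Uᵀ * (Q * U)).trace = Q.trace := by
      rw [Matrix.trace_mul_comm, Matrix.mul_assoc, hU, mul_one]
    rw [← h1]
    rfl
  have htr2 : Q.trace = (Fintype.card {i // b i ≠ 0} : ℝ) := by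
    rw [htr, Fintype.card_subtype, Finset.card_filter]
    push_cast
    refine Finset.sum_congr rfl (fun i _ => ?_)
    by_cases hi : b i = 0
    · rw [hQz i hi, dotProduct_zero, if_neg (by simpa using hi)]
    · rw [hQne i hi, hON i i, if_pos rfl, if_pos hi]
  obtain ⟨e⟩ : Nonempty (Fin (Fintype.card {i // b i ≠ 0}) ≃ {i // b i ≠ 0}) :=
    ⟨(Fintype.equivFin {i // b i ≠ 0}).symm⟩
  refine ⟨Fintype.card {i // b i ≠ 0}, fun k => Uᵀ (e k).1, fun k => b (e k).1, ?_, ?_, ?_, ?_, htr2⟩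
  · intro i j
    show Uᵀ (e i).1 ⬝ᵥ Uᵀ (e j).1 = _
    rw [hON]
    by_cases hij : i = j
    · rw [if_pos (by rw [hij]), if_pos hij]
    · rw [if_neg (fun h => hij (e.injective (Subtype.ext h))), if_neg hij]
  · intro i
    show E *ᵥ Uᵀ (e i).1 = Uᵀ (e i).1
    have h1 := hQne (e i).1 (e i).2
    calc E *ᵥ Uᵀ (e i).1 = E *ᵥ (Q *ᵥ Uᵀ (e i).1) := by rw [h1]
      _ = Q *ᵥ Uᵀ (e i).1 := by rw [Matrix.mulVec_mulVec, hEQ]
      _ = Uᵀ (e i).1 := h1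
  · intro i
    show A *ᵥ Uᵀ (e i).1 = b (e i).1 • Uᵀ (e i).1
    have h1 := hQne (e i).1 (e i).2
    have h2 := hAQu (e i).1
    rwa [h1] at h2
  · intro i
    show θ ≤ |b (e i).1|
    have h1 := hQne (e i).1 (e i).2
    have h2 := hAQu (e i).1
    rw [h1] at h2
    refine M4_ge A hA θ (Uᵀ (e i).1) _ ?_ h2 ?_
    · rw [← hSdef]
      calc S *ᵥ Uᵀ (e i).1 = S *ᵥ (Q *ᵥ Uᵀ (e i).1) := by rw [h1]
        _ = Q *ᵥ Uᵀ (e i).1 := by rw [Matrix.mulVec_mulVec, hSQ]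
        _ = Uᵀ (e i).1 := h1
    · intro h3
      have h4 := hON (e i).1 (e i).1
      rw [h3, dotProduct_zero, if_pos rfl] at h4
      exact zero_ne_one h4

end Pool.Agent.BC5
end

section
set_option autoImplicit false
set_option linter.unusedSectionVars false
set_option linter.unusedVariables false
open scoped BigOperators Matrix
open Matrix
namespace Pool.Agent.BC5


variable {V : Type} [Fintype V] [DecidableEq V]


theorem spr_abs_qf_le (A : Matrix V V ℝ) (hA : Aᵀ = A) (θ : ℝ) (hθ : 0 ≤ θ) (E : Matrix V V ℝ) (hE : IsPr E)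
    (hc : Commute E A) (h : (E * spr A θ).trace < 1) (f : V → ℝ) (hf : E *ᵥ f = f) :
    |qf A f| ≤ θ * (f ⬝ᵥ f) := by
  have hcs : Commute E (spr A θ) := spr_comm A hA θ E hc
  have hpr : IsPr (E * spr A θ) := IsPr.mul hE (spr_isPr A hA θ) hcs
  have h0 : E * spr A θ = 0 := by
    by_contra hne
    exact absurd (one_le_trace hpr hne) (not_le.2 h)
  have h1 : spr A θ *ᵥ f = 0 := by
    have h2 : spr A θ * E = 0 := by rw [← hcs.eq, h0]
    calc spr A θ *ᵥ f = spr A θ *ᵥ (E *ᵥ f) := by rw [hf]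
      _ = 0 := by rw [Matrix.mulVec_mulVec, h2, Matrix.zero_mulVec]
  have h3 := spr_compl A hA θ hθ f h1
  have h4 := L1_dot_cs f (A *ᵥ f)
  have h5 : 0 ≤ f ⬝ᵥ f := by
    simp only [dotProduct]
    exact Finset.sum_nonneg fun i _ => mul_self_nonneg _
  have h6 : (qf A f) ^ 2 ≤ (θ * (f ⬝ᵥ f)) ^ 2 := by
    unfold qf
    calc (f ⬝ᵥ (A *ᵥ f)) ^ 2 ≤ (f ⬝ᵥ f) * ((A *ᵥ f) ⬝ᵥ (A *ᵥ f)) := h4
      _ ≤ (f ⬝ᵥ f) * (θ ^ 2 * (f ⬝ᵥ f)) := mul_le_mul_of_nonneg_left h3 h5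
      _ = (θ * (f ⬝ᵥ f)) ^ 2 := by ring
  exact abs_le_of_sq_le_sq h6 (mul_nonneg hθ h5)

end Pool.Agent.BC5
end

section
set_option autoImplicit false
set_option linter.unusedSectionVars false
set_option linter.unusedVariables false
open scoped BigOperators Matrix
open Matrix
namespace Pool.Agent.BC5


variable {V : Type} [Fintype V] [DecidableEq V]

theorem M8_qf_conj (P M : Matrix V V ℝ) (hP : Pᵀ = P) (f : V → ℝ) : qf (P * M * P) f = qf M (P *ᵥ f) := by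
  unfold qf
  rw [← mulVec_mulVec, ← mulVec_mulVec, dotProduct_mulVec f P, ← mulVec_transpose, hP]

theorem M8_qf_dot_le {P : Matrix V V ℝ} (hP : IsPr P) (f : V → ℝ) : (P *ᵥ f) ⬝ᵥ (P *ᵥ f) ≤ f ⬝ᵥ f := by
  have h1 := qf_pr_nonneg hP.compl f
  rw [qf_sub, qf_one, qf_pr hP] at h1
  linarith

theorem M8_even_nonneg (T : Matrix V V ℝ) (hT : Tᵀ = T) (p : ℕ) (w : V → ℝ) : 0 ≤ qf (T ^ (2 * p)) w := by
  have h1 : (T ^ p)ᵀ = T ^ p := by rw [transpose_pow, hT]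
  have h2 : T ^ (2 * p) = T ^ p * 1 * T ^ p := by rw [mul_one, ← pow_add, two_mul]
  rw [h2, M8_qf_conj _ _ h1, qf_one]
  exact dot_self_nonneg _

theorem ON_count_le {r : ℕ} (f : Fin r → V → ℝ) (hf : ON f) (P T : Matrix V V ℝ) (hP : IsPr P) (hT : Tᵀ = T)
    (h0 : ∀ v, 0 ≤ qf T v) (τ : ℝ) (hτ : 0 < τ) (p : ℕ) (hp : 1 ≤ p) :
    (((Finset.univ : Finset (Fin r)).filter (fun i => τ < qf T (P *ᵥ f i))).card : ℝ) * τ ^ (2 * p)
      ≤ (T ^ (2 * p)).trace := by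
  have hTp : (T ^ (2 * p))ᵀ = T ^ (2 * p) := by rw [transpose_pow, hT]
  have hsym : (P * T ^ (2 * p) * P)ᵀ = P * T ^ (2 * p) * P := by
    rw [transpose_mul, transpose_mul, hTp, hP.1, Matrix.mul_assoc]
  have hnn : ∀ v, 0 ≤ qf (P * T ^ (2 * p) * P) v := fun v => by
    rw [M8_qf_conj _ _ hP.1]
    exact M8_even_nonneg T hT p _
  have h1 : ∑ i, qf (P * T ^ (2 * p) * P) (f i) ≤ (P * T ^ (2 * p) * P).trace := ON_sum_le f hf _ hsym hnn
  have h2 : (((Finset.univ : Finset (Fin r)).filter (fun i => τ < qf T (P *ᵥ f i))).card : ℝ) * τ ^ (2 * p)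
      ≤ ∑ i, qf (P * T ^ (2 * p) * P) (f i) := by
    rw [← nsmul_eq_mul, ← Finset.sum_const]
    refine le_trans (Finset.sum_le_sum fun i hi => ?_)
      (Finset.sum_le_sum_of_subset_of_nonneg (Finset.filter_subset _ _) fun i _ _ => hnn (f i))
    rw [Finset.mem_filter] at hi
    rw [M8_qf_conj _ _ hP.1]
    have hu : (P *ᵥ f i) ⬝ᵥ (P *ᵥ f i) ≤ 1 := by
      refine le_trans (M8_qf_dot_le hP (f i)) ?_
      rw [hf i i, if_pos rfl]
    exact le_trans (pow_le_pow_left₀ hτ.le hi.2.le _) (qf_pow_le T hT h0 _ hu p hp)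
  have h3 : (P * T ^ (2 * p) * P).trace ≤ (T ^ (2 * p)).trace := by
    have h4 : 0 ≤ ((1 - P) * T ^ (2 * p) * (1 - P)).trace :=
      trace_nonneg_of_qf _ fun v => by
        rw [M8_qf_conj _ _ hP.compl.1]
        exact M8_even_nonneg T hT p _
    rw [Matrix.mul_assoc, Matrix.trace_mul_comm, Matrix.mul_assoc, hP.2]
    rw [Matrix.mul_assoc, Matrix.trace_mul_comm, Matrix.mul_assoc, hP.compl.2, Matrix.mul_sub, Matrix.mul_one,
      Matrix.trace_sub] at h4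
    linarith
  linarith

end Pool.Agent.BC5
end

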