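import Pool.Agent.Lib.MP_bc5a73_al.QuasiDefs
import Pool.Agent.Lib.MP_bc5a73_al.Spectral
import Pool.Agent.Lib.MP_bc5a73_al.Averages

section
set_option autoImplicit false
set_option linter.unusedSectionVars false
set_option linter.unusedVariables false
open scoped BigOperators Matrix
open Matrix
namespace Pool.Agent.BC5


variable {G : Type} [Group G] [Fintype G] [DecidableEq G]


theorem QA1_tr {U : Matrix G G ℝ} (h2 : Uᵀ * U = 1) (f : G → ℝ) : (U * diagonal f * Uᵀ).trace = ∑ j, f j := by
  rw [Matrix.trace_mul_comm, ← Matrix.mul_assoc, h2, Matrix.one_mul, Matrix.trace_diagonal]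

theorem QA1_mul {U : Matrix G G ℝ} (h2 : Uᵀ * U = 1) (f g : G → ℝ) :
    (U * diagonal f * Uᵀ) * (U * diagonal g * Uᵀ) = U * diagonal (fun j => f j * g j) * Uᵀ := by
  have h : (U * diagonal f * Uᵀ) * (U * diagonal g * Uᵀ) = U * diagonal f * (Uᵀ * U) * diagonal g * Uᵀ := by
    simp only [Matrix.mul_assoc]
  rw [h, h2, Matrix.mul_one, Matrix.mul_assoc U, Matrix.diagonal_mul_diagonal]

theorem QA1_nonneg {U : Matrix G G ℝ} (h2 : Uᵀ * U = 1) (e : G → ℝ) (A : Matrix G G ℝ) (h3 : A = U * diagonal e * Uᵀ)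
    (h0 : ∀ v, 0 ≤ qf A v) (i : G) : 0 ≤ e i := by
  have h4 : Uᵀ * (A * U) = diagonal e := by
    have h : Uᵀ * (A * U) = (Uᵀ * U) * diagonal e * (Uᵀ * U) := by
      rw [h3]
      simp only [Matrix.mul_assoc]
    rw [h, h2, Matrix.one_mul, Matrix.mul_one]
  have h5 : qf A (fun x => U x i) = (Uᵀ * (A * U)) i i := by
    simp only [qf, dotProduct, mulVec, Matrix.mul_apply, Matrix.transpose_apply]
  have h6 := h0 (fun x => U x i)
  rw [h5, h4, Matrix.diagonal_apply_eq] at h6
  exact h6

theorem QA1_key {d : ℝ} (hd : QR G d) {U : Matrix G G ℝ} (h1 : U * Uᵀ = 1) (h2 : Uᵀ * U = 1) (e : G → ℝ)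
    (A : Matrix G G ℝ) (h3 : A = U * diagonal e * Uᵀ) (he : ∀ i, 0 ≤ e i) (hL : CommL A) (hJ : A * Jm G = 0) (i : G) :
    d * e i ≤ ∑ j, e j := by
  classical
  rcases eq_or_lt_of_le (he i) with h | h
  · rw [← h, mul_zero]
    exact Finset.sum_nonneg fun j _ => he j
  · set f : G → ℝ := fun j => if e j = e i then (1 : ℝ) else 0 with hf
    have hff : (fun j => f j * f j) = f := by
      funext j
      simp only [hf]
      split_ifs <;> simp
    have hfe : (fun j => f j * e j) = fun j => e i * f j := by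
      funext j
      simp only [hf]
      split_ifs with h' <;> simp [h']
    have hPr : IsPr (U * diagonal f * Uᵀ) := by
      refine ⟨?_, ?_⟩
      · rw [Matrix.transpose_mul, Matrix.transpose_mul, Matrix.transpose_transpose, Matrix.diagonal_transpose,
          Matrix.mul_assoc]
      · rw [QA1_mul h2, hff]
    have hPL : CommL (U * diagonal f * Uᵀ) := by
      intro g
      have h4 : Commute (Lm g) (U * diagonal e * Uᵀ) := by
        rw [← h3]
        exact (hL g).symm
      exact (L2_comm h1 h2 e (fun t => if t = e i then (1 : ℝ) else 0) (Lm g) h4).symm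
    have htr : (U * diagonal f * Uᵀ).trace = ∑ j, f j := QA1_tr h2 f
    have hf0 : ∀ j, 0 ≤ f j := by
      intro j
      simp only [hf]
      split_ifs <;> norm_num
    have hne : U * diagonal f * Uᵀ ≠ 0 := by
      intro h4
      rw [h4, Matrix.trace_zero] at htr
      have h5 : f i ≤ ∑ j, f j := Finset.single_le_sum (fun j _ => hf0 j) (Finset.mem_univ i)
      have h6 : f i = 1 := by simp only [hf, if_true]
      linarith
    have hPA : (U * diagonal f * Uᵀ) * A = e i • (U * diagonal f * Uᵀ) := by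
      rw [h3, QA1_mul h2, hfe]
      have h4 : diagonal (fun j => e i * f j) = e i • diagonal f := by
        rw [← Matrix.diagonal_smul]
        rfl
      rw [h4, Matrix.mul_smul, Matrix.smul_mul]
    have hPJ : (U * diagonal f * Uᵀ) * Jm G = 0 := by
      have h4 : e i • ((U * diagonal f * Uᵀ) * Jm G) = 0 := by
        rw [← Matrix.smul_mul, ← hPA, Matrix.mul_assoc, hJ, Matrix.mul_zero]
      rcases smul_eq_zero.mp h4 with h5 | h5
      · exact absurd h5 h.ne'
      · exact h5
    have h7 := hd _ hPr hPL hne hPJ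
    rw [htr] at h7
    calc d * e i ≤ (∑ j, f j) * e i := mul_le_mul_of_nonneg_right h7 (he i)
      _ = ∑ j, f j * e i := Finset.sum_mul _ _ _
      _ ≤ ∑ j, e j := by
        refine Finset.sum_le_sum fun j _ => ?_
        simp only [hf]
        split_ifs with h'
        · rw [one_mul, h']
        · rw [zero_mul]
          exact he j

theorem trace_sq_le {d : ℝ} (hd : QR G d) (A : Matrix G G ℝ) (hA : Aᵀ = A) (h0 : ∀ v, 0 ≤ qf A v) (hL : CommL A)
    (hJ : A * Jm G = 0) : d * (A * A).trace ≤ A.trace ^ 2 := by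
  obtain ⟨U, e, h1, h2, h3⟩ := L2_spec A hA
  have he : ∀ i, 0 ≤ e i := QA1_nonneg h2 e A h3 h0
  have hk : ∀ i, d * e i ≤ ∑ j, e j := QA1_key hd h1 h2 e A h3 he hL hJ
  have ht : A.trace = ∑ j, e j := by rw [h3, QA1_tr h2]
  have htt : (A * A).trace = ∑ j, e j * e j := by rw [h3, QA1_mul h2, QA1_tr h2]
  rw [ht, htt, Finset.mul_sum, pow_two, Finset.mul_sum]
  refine Finset.sum_le_sum fun j _ => ?_
  rw [← mul_assoc]
  exact mul_le_mul_of_nonneg_right (hk j) (he j)

end Pool.Agent.BC5
end

section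
set_option autoImplicit false
set_option linter.unusedSectionVars false
set_option linter.unusedVariables false
open scoped BigOperators Matrix
open Matrix
namespace Pool.Agent.BC5


variable {G : Type} [Group G] [Fintype G] [DecidableEq G]

/-- the conjugates of `X` -/
noncomputable def conj_var_Y (X : Matrix G G ℝ) (x : G) : Matrix G G ℝ := Rm x * X * Rm x⁻¹

theorem conj_var_Y_mul (X : Matrix G G ℝ) (g y : G) :
    conj_var_Y X (g * y) = Rm g * conj_var_Y X y * Rm g⁻¹ := by
  unfold conj_var_Y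
  rw [Rm_mul, _root_.mul_inv_rev, Rm_mul]
  simp only [Matrix.mul_assoc]

theorem conj_var_Y_symm {X : Matrix G G ℝ} (hX : Xᵀ = X) (x : G) : (conj_var_Y X x)ᵀ = conj_var_Y X x := by
  unfold conj_var_Y
  rw [Matrix.transpose_mul, Matrix.transpose_mul, Rm_transpose, Rm_transpose, hX, inv_inv, Matrix.mul_assoc]

theorem conj_var_tr_conj (g : G) (A : Matrix G G ℝ) : (Rm g * A * Rm g⁻¹).trace = A.trace := by
  rw [Matrix.trace_mul_comm, ← Matrix.mul_assoc, Rm_inv_mul, Matrix.one_mul]

theorem conj_var_tr_inv (X : Matrix G G ℝ) (g y x : G) :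
    (conj_var_Y X (g * y) * conj_var_Y X (g * x)).trace = (conj_var_Y X y * conj_var_Y X x).trace := by
  rw [conj_var_Y_mul, conj_var_Y_mul]
  have h : Rm g * conj_var_Y X y * Rm g⁻¹ * (Rm g * conj_var_Y X x * Rm g⁻¹)
      = Rm g * (conj_var_Y X y * conj_var_Y X x) * Rm g⁻¹ := by
    calc Rm g * conj_var_Y X y * Rm g⁻¹ * (Rm g * conj_var_Y X x * Rm g⁻¹)
        = Rm g * conj_var_Y X y * (Rm g⁻¹ * Rm g) * conj_var_Y X x * Rm g⁻¹ := by
          simp only [Matrix.mul_assoc]
      _ = Rm g * (conj_var_Y X y * conj_var_Y X x) * Rm g⁻¹ := by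
          rw [Rm_inv_mul, Matrix.mul_one]
          simp only [Matrix.mul_assoc]
  rw [h, conj_var_tr_conj]

theorem conj_var_Y_one (X : Matrix G G ℝ) : conj_var_Y X 1 = X := by
  unfold conj_var_Y
  rw [inv_one, Rm_one, Matrix.one_mul, Matrix.mul_one]

/-- the Gram matrix -/
noncomputable def conj_var_G (X : Matrix G G ℝ) : Matrix G G ℝ :=
  Matrix.of fun y x => (conj_var_Y X y * conj_var_Y X x).trace

theorem conj_var_G_symm (X : Matrix G G ℝ) : (conj_var_G X)ᵀ = conj_var_G X := by
  ext i j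
  show (conj_var_Y X j * conj_var_Y X i).trace = (conj_var_Y X i * conj_var_Y X j).trace
  exact Matrix.trace_mul_comm _ _

theorem conj_var_G_commL (X : Matrix G G ℝ) : CommL (conj_var_G X) := by
  intro g
  show conj_var_G X * Lm g = Lm g * conj_var_G X
  ext x y
  rw [G6_mul_Lm, G6_Lm_mul]
  show (conj_var_Y X x * conj_var_Y X (g * y)).trace = (conj_var_Y X (g⁻¹ * x) * conj_var_Y X y).trace
  have h := conj_var_tr_inv X g (g⁻¹ * x) y
  rw [mul_inv_cancel_left] at h
  exact h

theorem conj_var_G_qf {X : Matrix G G ℝ} (hX : Xᵀ = X) (v : G → ℝ) : 0 ≤ qf (conj_var_G X) v := by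
  have h : qf (conj_var_G X) v = hs (∑ x, v x • conj_var_Y X x) := by
    unfold qf hs
    have hT : (∑ x, v x • conj_var_Y X x)ᵀ = ∑ x, v x • conj_var_Y X x := by
      rw [Matrix.transpose_sum]
      refine Finset.sum_congr rfl fun x _ => ?_
      rw [Matrix.transpose_smul, conj_var_Y_symm hX]
    rw [hT, Matrix.sum_mul, Matrix.trace_sum]
    unfold dotProduct
    refine Finset.sum_congr rfl fun y _ => ?_
    rw [Matrix.mul_sum, Matrix.trace_sum]
    unfold Matrix.mulVec dotProduct
    rw [Finset.mul_sum]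
    refine Finset.sum_congr rfl fun x _ => ?_
    rw [Matrix.smul_mul, Matrix.mul_smul, Matrix.trace_smul, Matrix.trace_smul, smul_eq_mul, smul_eq_mul]
    show v y * ((conj_var_Y X y * conj_var_Y X x).trace * v x) = _
    ring
  rw [h]
  exact hs_nonneg _

theorem conj_var_G_Jm {X : Matrix G G ℝ} (hsum : ∑ x, conj_var_Y X x = 0) : conj_var_G X * Jm G = 0 := by
  ext y z
  rw [Matrix.mul_apply]
  show ∑ x, (conj_var_Y X y * conj_var_Y X x).trace * ((Fintype.card G : ℝ))⁻¹ = (0 : Matrix G G ℝ) y z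
  rw [← Finset.sum_mul, ← Matrix.trace_sum, ← Matrix.mul_sum, hsum, Matrix.mul_zero, Matrix.trace_zero, zero_mul]
  rfl

theorem conj_var_G_trace (X : Matrix G G ℝ) : (conj_var_G X).trace = (Fintype.card G : ℝ) * (X * X).trace := by
  unfold Matrix.trace
  have h : ∀ y : G, (conj_var_G X).diag y = (X * X).trace := by
    intro y
    show (conj_var_Y X y * conj_var_Y X y).trace = (X * X).trace
    have h1 := conj_var_tr_inv X y 1 1
    rw [mul_one, conj_var_Y_one] at h1
    exact h1
  rw [Finset.sum_congr rfl fun y _ => h y, Finset.sum_const, nsmul_eq_mul, Finset.card_univ]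
  rfl

theorem conj_var_G_sq (X : Matrix G G ℝ) : (conj_var_G X * conj_var_G X).trace
    = (Fintype.card G : ℝ) * ∑ x : G, ((X * conj_var_Y X x).trace) ^ 2 := by
  have h : ∀ y : G, (conj_var_G X * conj_var_G X) y y = ∑ x : G, ((X * conj_var_Y X x).trace) ^ 2 := by
    intro y
    rw [Matrix.mul_apply]
    have h1 : ∀ x : G, conj_var_G X y x * conj_var_G X x y = ((X * conj_var_Y X (y⁻¹ * x)).trace) ^ 2 := by
      intro x
      have h2 : conj_var_G X x y = conj_var_G X y x := Matrix.trace_mul_comm _ _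
      have h3 : conj_var_G X y x = (X * conj_var_Y X (y⁻¹ * x)).trace := by
        have h4 := conj_var_tr_inv X y⁻¹ y x
        rw [inv_mul_cancel, conj_var_Y_one] at h4
        exact h4.symm
      rw [h2, h3, sq]
    rw [Finset.sum_congr rfl fun x _ => h1 x]
    exact Fintype.sum_equiv (Equiv.mulLeft y⁻¹) _ _ (fun x => rfl)
  unfold Matrix.trace
  have h5 : ∀ y : G, (conj_var_G X * conj_var_G X).diag y = ∑ x : G, ((X * conj_var_Y X x).trace) ^ 2 := h
  rw [Finset.sum_congr rfl fun y _ => h5 y, Finset.sum_const, nsmul_eq_mul, Finset.card_univ]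
  rfl

theorem conj_var {d : ℝ} (hd : QR G d) {E P : Matrix G G ℝ} (hE : IsBlock E) (hP : IsPr P) (hPL : CommL P)
    (hPE : E * P = P) :
    d * avg (fun x : G => ((P * (Rm x * P * Rm x⁻¹)).trace - P.trace ^ 2 / E.trace) ^ 2) ≤ P.trace ^ 2 := by
  have htE : (0 : ℝ) < E.trace := lt_of_lt_of_le one_pos (block_trace_pos hE)
  have htE' : E.trace ≠ 0 := htE.ne'
  have hn : (0 : ℝ) < (Fintype.card G : ℝ) := by
    have : 0 < Fintype.card G := Fintype.card_pos
    exact_mod_cast this
  have hET : Eᵀ = E := hE.1.1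
  have hEE : E * E = E := hE.1.2
  have hPT : Pᵀ = P := hP.1
  have hPP : P * P = P := hP.2
  have hPE' : P * E = P := by
    have h := congrArg Matrix.transpose hPE
    rw [Matrix.transpose_mul, hET, hPT] at h
    exact h
  obtain ⟨w, hw⟩ : ∃ w : ℝ, w = P.trace / E.trace := ⟨_, rfl⟩
  have hwE : w * E.trace = P.trace := by rw [hw]; field_simp
  obtain ⟨X, hX⟩ : ∃ X : Matrix G G ℝ, X = P - w • E := ⟨_, rfl⟩
  have hXT : Xᵀ = X := by
    rw [hX, Matrix.transpose_sub, Matrix.transpose_smul, hPT, hET]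
  have hXL : CommL X := by
    intro g
    rw [hX]
    exact (hPL g).sub_left ((hE.2.1 g).smul_left w)
  have hXE : X * E = X := by
    rw [hX, Matrix.sub_mul, Matrix.smul_mul, hPE', hEE]
  have hXtr : X.trace = 0 := by
    rw [hX, Matrix.trace_sub, Matrix.trace_smul, smul_eq_mul, hwE, sub_self]
  have hYE : ∀ x : G, conj_var_Y X x * E = conj_var_Y X x := by
    intro x
    unfold conj_var_Y
    have h1 : Rm x * X * Rm x⁻¹ * E = Rm x * (X * E) * Rm x⁻¹ := by
      rw [Matrix.mul_assoc (Rm x * X), ← (hE.2.2.1 x⁻¹).eq]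
      simp only [Matrix.mul_assoc]
    rw [h1, hXE]
  have hsum : ∑ x, conj_var_Y X x = 0 := by
    have h1 := schurR hE hXT hXL
    rw [hXE, hXtr, zero_div, zero_smul, G4_avg_mul] at h1
    have h2 : avg (fun g : G => Rm g * X * Rm g⁻¹ * E) = avg (fun g : G => conj_var_Y X g) := by
      congr 1
      funext g
      exact hYE g
    rw [h2] at h1
    unfold avg at h1
    rcases smul_eq_zero.1 h1 with h3 | h3
    · exact absurd h3 (inv_ne_zero hn.ne')
    · exact h3
  -- F
  have hF : ∀ x : G, (X * conj_var_Y X x).trace = (P * (Rm x * P * Rm x⁻¹)).trace - P.trace ^ 2 / E.trace := by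
    intro x
    have hcE : Rm x * E * Rm x⁻¹ = E := by
      rw [← (hE.2.2.1 x).eq, Matrix.mul_assoc, Rm_mul_inv, Matrix.mul_one]
    have h1 : conj_var_Y X x = Rm x * P * Rm x⁻¹ - w • E := by
      unfold conj_var_Y
      rw [hX, Matrix.mul_sub, Matrix.sub_mul, Matrix.mul_smul, Matrix.smul_mul, hcE]
    have h2 : (E * (Rm x * P * Rm x⁻¹)).trace = P.trace := by
      have h3 : E * (Rm x * P * Rm x⁻¹) = Rm x * (E * P) * Rm x⁻¹ := by
        rw [← Matrix.mul_assoc, ← Matrix.mul_assoc, (hE.2.2.1 x).eq]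
        simp only [Matrix.mul_assoc]
      rw [h3, hPE, conj_var_tr_conj]
    rw [h1]
    have h4 : X * (Rm x * P * Rm x⁻¹ - w • E)
        = P * (Rm x * P * Rm x⁻¹) - w • (E * (Rm x * P * Rm x⁻¹)) - w • (P * E) + w • (w • (E * E)) := by
      rw [hX]
      simp only [Matrix.sub_mul, Matrix.mul_sub, Matrix.smul_mul, Matrix.mul_smul, smul_sub]
      abel
    rw [h4, Matrix.trace_add, Matrix.trace_sub, Matrix.trace_sub, Matrix.trace_smul, Matrix.trace_smul,
      Matrix.trace_smul, Matrix.trace_smul, h2, hPE', hEE]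
    simp only [smul_eq_mul]
    rw [hwE, hw]
    field_simp
    ring
  have hXX : (X * X).trace = P.trace - P.trace ^ 2 / E.trace := by
    have h1 := hF 1
    rw [conj_var_Y_one, inv_one, Rm_one, Matrix.one_mul, Matrix.mul_one, hPP] at h1
    exact h1
  have hXX0 : 0 ≤ (X * X).trace := by
    have h1 := hs_nonneg X
    unfold hs at h1
    rw [hXT] at h1
    exact h1
  have hP0 : 0 ≤ P.trace := trace_pr_nonneg hP
  have hXXle : (X * X).trace ≤ P.trace := by
    rw [hXX]
    have : 0 ≤ P.trace ^ 2 / E.trace := div_nonneg (sq_nonneg _) htE.le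
    linarith
  have hmain := trace_sq_le hd (conj_var_G X) (conj_var_G_symm X) (conj_var_G_qf hXT) (conj_var_G_commL X)
    (conj_var_G_Jm hsum)
  rw [conj_var_G_sq, conj_var_G_trace] at hmain
  have havg : avg (fun x : G => ((P * (Rm x * P * Rm x⁻¹)).trace - P.trace ^ 2 / E.trace) ^ 2)
      = ((Fintype.card G : ℝ))⁻¹ * ∑ x : G, ((X * conj_var_Y X x).trace) ^ 2 := by
    unfold avg
    rw [smul_eq_mul]
    congr 1
    refine Finset.sum_congr rfl fun x _ => ?_
    rw [hF x]
  rw [havg]
  obtain ⟨S, hS⟩ : ∃ S : ℝ, S = ∑ x : G, ((X * conj_var_Y X x).trace) ^ 2 := ⟨_, rfl⟩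
  rw [← hS] at hmain ⊢
  have h5 : d * (((Fintype.card G : ℝ))⁻¹ * S) ≤ (X * X).trace ^ 2 := by
    have h6 : (Fintype.card G : ℝ) ^ 2 * (d * (((Fintype.card G : ℝ))⁻¹ * S)) ≤ (Fintype.card G : ℝ) ^ 2 * (X * X).trace ^ 2 := by
      calc (Fintype.card G : ℝ) ^ 2 * (d * (((Fintype.card G : ℝ))⁻¹ * S))
          = d * ((Fintype.card G : ℝ) * S) := by field_simp
        _ ≤ _ := hmain
        _ = _ := by ring
    exact le_of_mul_le_mul_left h6 (by positivity)
  calc d * (((Fintype.card G : ℝ))⁻¹ * S) ≤ (X * X).trace ^ 2 := h5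
    _ ≤ P.trace ^ 2 := by
      exact pow_le_pow_left₀ hXX0 hXXle 2

end Pool.Agent.BC5
end

section
set_option autoImplicit false
set_option linter.unusedSectionVars false
set_option linter.unusedVariables false
open scoped BigOperators Matrix
open Matrix
namespace Pool.Agent.BC5


variable {G : Type} [Group G] [Fintype G] [DecidableEq G]


theorem conj_good {d : ℝ} (hd : QR G d) (hd0 : 0 < d) {E P : Matrix G G ℝ} (hE : IsBlock E) (hP : IsPr P)
    (hPL : CommL P) (hPE : E * P = P) (W : ℝ) (hW : 0 < W) (htr : P.trace ≤ W * E.trace) :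
    frac (fun x : G => 2 * W ^ 2 * E.trace < (P * (Rm x * P * Rm x⁻¹)).trace) ≤ 1 / (d * W ^ 2) := by
  have hD : 1 ≤ E.trace := block_trace_pos hE
  have hD0 : 0 < E.trace := by linarith
  have hP0 : 0 ≤ P.trace := by
    by_cases h0 : P = 0
    · rw [h0]
      simp
    · have := one_le_trace hP h0
      linarith
  have hW2 : 0 < W ^ 2 := by positivity
  have hc : 0 < (W ^ 2 * E.trace) ^ 2 := by positivity
  have hsq : P.trace ^ 2 ≤ (W * E.trace) ^ 2 := pow_le_pow_left₀ hP0 htr 2
  have hq : P.trace ^ 2 / E.trace ≤ W ^ 2 * E.trace := by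
    rw [div_le_iff₀ hD0]
    nlinarith [hsq]
  have h1 := frac_le_avg_div (P := fun x : G => 2 * W ^ 2 * E.trace < (P * (Rm x * P * Rm x⁻¹)).trace)
    (f := fun x : G => ((P * (Rm x * P * Rm x⁻¹)).trace - P.trace ^ 2 / E.trace) ^ 2)
    hc (fun a => sq_nonneg _) (by
      intro a ha
      have h2 : W ^ 2 * E.trace ≤ (P * (Rm a * P * Rm a⁻¹)).trace - P.trace ^ 2 / E.trace := by
        linarith
      exact pow_le_pow_left₀ (by positivity) h2 2)
  have h2 := conj_var hd hE hP hPL hPE
  have h3 : avg (fun x : G => ((P * (Rm x * P * Rm x⁻¹)).trace - P.trace ^ 2 / E.trace) ^ 2) ≤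
      (W * E.trace) ^ 2 / d := by
    rw [le_div_iff₀ hd0]
    linarith
  refine h1.trans ?_
  rw [div_le_div_iff₀ hc (by positivity)]
  have h4 : avg (fun x : G => ((P * (Rm x * P * Rm x⁻¹)).trace - P.trace ^ 2 / E.trace) ^ 2) * d ≤
      (W * E.trace) ^ 2 := by
    rw [le_div_iff₀ hd0] at h3
    exact h3
  nlinarith [mul_le_mul_of_nonneg_right h4 hW2.le]

end Pool.Agent.BC5
end

section
set_option autoImplicit false
set_option linter.unusedSectionVars false
set_option linter.unusedVariables false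
open scoped BigOperators Matrix
open Matrix
namespace Pool.Agent.BC5


theorem QA4_fixed {G : Type} [Fintype G] [Nonempty G] {n : ℕ} (Bad : Fin n → (Fin n → G) → Prop)
    (hdep : ∀ (j : Fin n) (x x' : Fin n → G), (∀ i, i ≤ j → x i = x' i) → Bad j x → Bad j x') (β : ℝ) (hβ : 0 ≤ β)
    (hf : ∀ (j : Fin n) (x : Fin n → G), frac (fun g : G => Bad j (Function.update x j g)) ≤ β) :
    ∀ (k : ℕ) (B : Finset (Fin n)), B.card = k →
      frac (fun x : Fin n → G => ∀ j ∈ B, Bad j x) ≤ β ^ k := by
  classical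
  intro k
  induction k with
  | zero =>
    intro B hB
    rw [pow_zero]
    exact frac_le_one _
  | succ k ih =>
    intro B hB
    have hne : B.Nonempty := by
      rw [← Finset.card_pos, hB]; exact Nat.succ_pos k
    have hjB : B.max' hne ∈ B := B.max'_mem hne
    generalize hj : B.max' hne = j at hjB
    have hmax : ∀ i ∈ B, i ≤ j := by
      intro i hi
      rw [← hj]
      exact B.le_max' i hi
    have hB' : (B.erase j).card = k := by
      rw [Finset.card_erase_of_mem hjB, hB]; rfl
    have hstep : ∀ x : Fin n → G,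
        avg (fun g : G => if (∀ i ∈ B, Bad i (Function.update x j g)) then (1 : ℝ) else 0)
          ≤ β * (if (∀ i ∈ B.erase j, Bad i x) then (1 : ℝ) else 0) := by
      intro x
      by_cases hx : ∀ i ∈ B.erase j, Bad i x
      · rw [if_pos hx, mul_one]
        refine le_trans ?_ (hf j x)
        unfold frac
        apply avg_mono
        intro g
        by_cases h1 : ∀ i ∈ B, Bad i (Function.update x j g)
        · rw [if_pos h1, if_pos (h1 j hjB)]
        · rw [if_neg h1]
          split_ifs <;> norm_num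
      · rw [if_neg hx, mul_zero]
        apply avg_le_of_le
        intro g
        rw [if_neg]
        intro h1
        apply hx
        intro i hi
        have hiB : i ∈ B := Finset.mem_of_mem_erase hi
        have hij : i ≠ j := Finset.ne_of_mem_erase hi
        have hlt : i < j := lt_of_le_of_ne (hmax i hiB) hij
        refine hdep i _ x ?_ (h1 i hiB)
        intro l hl
        exact Function.update_of_ne (ne_of_lt (lt_of_le_of_lt hl hlt)) _ _
    have h2 : frac (fun x : Fin n → G => ∀ i ∈ B, Bad i x)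
        = avg (fun x : Fin n → G => avg (fun g : G =>
            if (∀ i ∈ B, Bad i (Function.update x j g)) then (1 : ℝ) else 0)) := by
      have h2a : frac (fun x : Fin n → G => ∀ i ∈ B, Bad i x)
          = avg (fun x : Fin n → G => if (∀ i ∈ B, Bad i x) then (1 : ℝ) else 0) := by
        unfold frac
        refine congrArg avg ?_
        funext x
        congr
      rw [h2a]
      exact avg_update (fun x : Fin n → G => if (∀ i ∈ B, Bad i x) then (1 : ℝ) else 0) j
    rw [h2]
    calc avg (fun x : Fin n → G => avg (fun g : G =>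
            if (∀ i ∈ B, Bad i (Function.update x j g)) then (1 : ℝ) else 0))
        ≤ avg (fun x : Fin n → G => β * (if (∀ i ∈ B.erase j, Bad i x) then (1 : ℝ) else 0)) :=
          avg_mono hstep
      _ = β * avg (fun x : Fin n → G => (if (∀ i ∈ B.erase j, Bad i x) then (1 : ℝ) else 0)) :=
          avg_mul_left _ _
      _ ≤ β * β ^ k := by
          apply mul_le_mul_of_nonneg_left _ hβ
          have h3 := ih (B.erase j) hB'
          have h4 : frac (fun x : Fin n → G => ∀ i ∈ B.erase j, Bad i x)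
              = avg (fun x : Fin n → G => if (∀ i ∈ B.erase j, Bad i x) then (1 : ℝ) else 0) := by
            unfold frac
            refine congrArg avg ?_
            funext x
            congr
          rw [← h4]
          exact h3
      _ = β ^ (k + 1) := by ring

theorem count_adapt {G : Type} [Fintype G] [Nonempty G] {n : ℕ} (Bad : Fin n → (Fin n → G) → Prop)
    (hdep : ∀ (j : Fin n) (x x' : Fin n → G), (∀ i, i ≤ j → x i = x' i) → Bad j x → Bad j x') (β : ℝ) (hβ : 0 ≤ β)
    (hf : ∀ (j : Fin n) (x : Fin n → G), frac (fun g : G => Bad j (Function.update x j g)) ≤ β) (t : ℕ) :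
    frac (fun x : Fin n → G => ∃ B : Finset (Fin n), B.card = t ∧ ∀ j ∈ B, Bad j x) ≤ 2 ^ n * β ^ t := by
  classical
  let S : Finset (Finset (Fin n)) := Finset.univ.filter (fun B => B.card = t)
  have h1 : frac (fun x : Fin n → G => ∃ B : Finset (Fin n), B.card = t ∧ ∀ j ∈ B, Bad j x)
      ≤ frac (fun x : Fin n → G => ∃ B ∈ S, ∀ j ∈ B, Bad j x) := by
    apply frac_mono
    rintro x ⟨B, hB, h⟩
    exact ⟨B, Finset.mem_filter.mpr ⟨Finset.mem_univ _, hB⟩, h⟩
  have h2 := frac_exists_le S (fun (B : Finset (Fin n)) (x : Fin n → G) => ∀ j ∈ B, Bad j x)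
  refine le_trans h1 (le_trans h2 ?_)
  have h3 : ∑ B ∈ S, frac (fun x : Fin n → G => ∀ j ∈ B, Bad j x) ≤ ∑ B ∈ S, β ^ t := by
    apply Finset.sum_le_sum
    intro B hB
    exact QA4_fixed Bad hdep β hβ hf t B (Finset.mem_filter.mp hB).2
  refine le_trans h3 ?_
  rw [Finset.sum_const, nsmul_eq_mul]
  apply mul_le_mul_of_nonneg_right _ (pow_nonneg hβ t)
  have h4 : S.card ≤ 2 ^ n := by
    calc S.card ≤ (Finset.univ : Finset (Finset (Fin n))).card := Finset.card_filter_le _ _
      _ = 2 ^ n := by simp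
  exact_mod_cast h4

theorem count_indep {G : Type} [Fintype G] [Nonempty G] {n : ℕ} (Bad : G → Prop) (β : ℝ) (hβ : 0 ≤ β)
    (hf : frac Bad ≤ β) (t : ℕ) :
    frac (fun y : Fin n → G => ∃ B : Finset (Fin n), B.card = t ∧ ∀ j ∈ B, Bad (y j)) ≤ 2 ^ n * β ^ t := by
  refine count_adapt (fun j x => Bad (x j)) ?_ β hβ ?_ t
  · intro j x x' h hb
    rw [← h j le_rfl]
    exact hb
  · intro j x
    simpa using hf

end Pool.Agent.BC5
end

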