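import Pool.Agent.Lib.MP_bc5a73_al.SlDefsM

section
set_option autoImplicit false
set_option linter.unusedSectionVars false
set_option linter.unusedVariables false
open scoped BigOperators Matrix
open Matrix
namespace Pool.Agent.BC5

/-- The matrix with columns `v, A v, A² v, …`. -/
def cycM {R : Type} [CommRing R] {n : ℕ} (A : Matrix (Fin n) (Fin n) R) (v : Fin n → R) : Matrix (Fin n) (Fin n) R :=
  Matrix.of fun i j => ((A ^ (j : ℕ)) *ᵥ v) i

/-- Indicator of the even indices. -/
def evv (R : Type) [CommRing R] (n : ℕ) : Fin n → R := fun i => if i.val % 2 = 0 then 1 else 0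

/-- Product of transvections along a pattern. -/
def phiP {n K : ℕ} {F : Type} [Field F] (pat : Fin K → Fin n × Fin n) (t : Fin K → F) : SLn n F :=
  (List.ofFn fun k => tv (pat k).1 (pat k).2 (t k)).prod

/-- The matrices of the letters of a free group over `F[X]`. -/
noncomputable def Yl {ι F : Type} [Field F] (α β : ι → F) (c : ι × Bool) : Matrix (Fin 2) (Fin 2) (Polynomial F) :=
  if c.2 then !![Polynomial.C (α c.1) * Polynomial.X, Polynomial.C (α c.1 * β c.1) * Polynomial.X ^ 2 - 1;
      1, Polynomial.C (β c.1) * Polynomial.X]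
  else !![Polynomial.C (β c.1) * Polynomial.X, 1 - Polynomial.C (α c.1 * β c.1) * Polynomial.X ^ 2;
      -1, Polynomial.C (α c.1) * Polynomial.X]

/-- Block diagonal matrix with `2 × 2` blocks `B 0, B 1, …` (and a last entry `1` if `n` is odd). -/
def bd {R : Type} [CommRing R] (n : ℕ) (B : ℕ → Matrix (Fin 2) (Fin 2) R) : Matrix (Fin n) (Fin n) R :=
  Matrix.of fun i j =>
    if i.val / 2 = j.val / 2 then
      (if 2 * (i.val / 2) + 1 < n then B (i.val / 2) ⟨i.val % 2, Nat.mod_lt _ (by norm_num)⟩ ⟨j.val % 2, Nat.mod_lt _ (by norm_num)⟩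
        else 1)
    else 0

end Pool.Agent.BC5
end
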