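import Pool.Agent.Lib.MP_bc5a73_al.Averages

section
set_option autoImplicit false
set_option linter.unusedSectionVars false
set_option linter.unusedVariables false
open scoped BigOperators Matrix
open Matrix
namespace Pool.Agent.BC5


theorem RN1_log (y : ℝ) (hy : 0 ≤ y) : Real.log y ≤ 2 * √y := by
  have h1 := Real.log_sqrt hy
  have h2 := Real.log_le_self (Real.sqrt_nonneg y)
  linarith

theorem RN1_logbound (c : ℝ) (hc : 1 ≤ c) (lam : ℝ) (h3 : 3 ≤ lam) (hl : (16 * c) ^ 2 ≤ lam) :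
    4 * (c * Real.log (lam + 3)) ≤ lam := by
  have h0 : 0 ≤ lam := by linarith
  have h1 := RN1_log (lam + 3) (by linarith)
  have hs0 := Real.sqrt_nonneg lam
  have hs : √lam ^ 2 = lam := Real.sq_sqrt h0
  have h2 : √(lam + 3) ≤ 2 * √lam := by
    rw [show 2 * √lam = √(4 * lam) by
      rw [Real.sqrt_mul (by norm_num : (0 : ℝ) ≤ 4), show (4 : ℝ) = 2 ^ 2 by norm_num,
        Real.sqrt_sq (by norm_num : (0 : ℝ) ≤ 2)]]
    exact Real.sqrt_le_sqrt (by linarith)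
  have h4 : 16 * c ≤ √lam := Real.le_sqrt_of_sq_le hl
  have h5 : 16 * c * √lam ≤ √lam * √lam := mul_le_mul_of_nonneg_right h4 hs0
  have h6 : c * Real.log (lam + 3) ≤ c * (4 * √lam) := by
    apply mul_le_mul_of_nonneg_left _ (by linarith)
    linarith
  nlinarith [h5, h6, hs]

theorem RN1_n_le (n q lam : ℕ) (hn : 2 ≤ n) (hq : 2 ≤ q) (h : q ^ (n - 1) ≤ 2 ^ (lam + 2)) : n ≤ lam + 3 := by
  have h1 : 2 ^ (n - 1) ≤ 2 ^ (lam + 2) := le_trans (Nat.pow_le_pow_left hq _) h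
  have h2 : n - 1 ≤ lam + 2 := (Nat.pow_le_pow_iff_right (by norm_num)).mp h1
  omega

theorem RN1_k_le (n q lam k : ℕ) (hn : 2 ≤ n) (hq : 2 ≤ q) (h : q ^ (n - 1) ≤ 2 ^ (lam + 2))
    (hk : k ≤ 2 ^ n * q ^ (n + 1)) : k ≤ 2 ^ (5 * (lam + 2)) := by
  have hq1 : 1 ≤ q := by omega
  calc k ≤ 2 ^ n * q ^ (n + 1) := hk
    _ ≤ q ^ n * q ^ (n + 1) := Nat.mul_le_mul_right _ (Nat.pow_le_pow_left hq _)
    _ ≤ q ^ ((n - 1) * 2) * q ^ ((n - 1) * 3) :=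
        Nat.mul_le_mul (Nat.pow_le_pow_right hq1 (by omega)) (Nat.pow_le_pow_right hq1 (by omega))
    _ = (q ^ (n - 1)) ^ 5 := by rw [← pow_add, ← pow_mul]; congr 1; omega
    _ ≤ (2 ^ (lam + 2)) ^ 5 := Nat.pow_le_pow_left h _
    _ = 2 ^ (5 * (lam + 2)) := by rw [← pow_mul]; congr 1; omega

theorem RN1_g_lt (n q lam g I M : ℕ) (hn : 2 ≤ n) (hq : 2 ≤ q) (hl : 2 ≤ lam) (h : q ^ (n - 1) ≤ 2 ^ (lam + 2))
    (hg : g ≤ q ^ (n ^ 2)) (hI : 4 * n ≤ 2 ^ I) (hM : lam < M) : g < 2 ^ (2 ^ I * (4 * M)) := by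
  have hq1 : 1 ≤ q := by omega
  have e1 : n ^ 2 ≤ (n - 1) * (4 * n) := by
    obtain ⟨m, rfl⟩ : ∃ m, n = m + 2 := ⟨n - 2, by omega⟩
    have : m + 2 - 1 = m + 1 := by omega
    rw [this]
    nlinarith
  have e2 : (lam + 2) * (4 * n) < 2 ^ I * (4 * M) := by
    have h1 : (lam + 2) * (4 * n) < (4 * n) * (4 * M) := by
      have : lam + 2 < 4 * M := by omega
      rw [mul_comm (lam + 2)]
      exact Nat.mul_lt_mul_of_pos_left this (by omega)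
    exact lt_of_lt_of_le h1 (Nat.mul_le_mul_right _ hI)
  calc g ≤ q ^ (n ^ 2) := hg
    _ ≤ q ^ ((n - 1) * (4 * n)) := Nat.pow_le_pow_right hq1 e1
    _ = (q ^ (n - 1)) ^ (4 * n) := by rw [← pow_mul]
    _ ≤ (2 ^ (lam + 2)) ^ (4 * n) := Nat.pow_le_pow_left h _
    _ = 2 ^ ((lam + 2) * (4 * n)) := by rw [← pow_mul]
    _ < 2 ^ (2 ^ I * (4 * M)) := Nat.pow_lt_pow_right (by norm_num) e2

theorem RN1_succ_le (j N : ℕ) (h : j ≤ N) : ((j : ℝ) + 1) ≤ 2 ^ N := by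
  have h1 : j + 1 ≤ 2 ^ N := le_trans (Nat.lt_two_pow_self) (Nat.pow_le_pow_right (by norm_num) h)
  have h2 : ((j + 1 : ℕ) : ℝ) ≤ ((2 ^ N : ℕ) : ℝ) := by exact_mod_cast h1
  push_cast at h2
  exact h2

theorem RN1_final (k J I N lam : ℕ) (hk : k ≤ 2 ^ (5 * (lam + 2))) (hJ : J ≤ N) (hI : I ≤ N) (hN : 4 * N ≤ lam)
    (hl : 2600 ≤ lam) :
    (k : ℝ) * (((J : ℝ) + 1) * (4 ^ N * (1 / 2 : ℝ) ^ (80 * 8 * lam)) +
        ((I : ℝ) + 1) * (4 ^ (N + 1) * (1 / 2 : ℝ) ^ (8 * lam))) ≤ (1 / 2 : ℝ) ^ lam := by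
  have hk' : (k : ℝ) ≤ 2 ^ (5 * (lam + 2)) := by exact_mod_cast hk
  have hJ' := RN1_succ_le J N hJ
  have hI' := RN1_succ_le I N hI
  have h4 : (4 : ℝ) ^ N = 2 ^ (2 * N) := by rw [pow_mul]; norm_num
  have h5 : (1 / 2 : ℝ) ^ (80 * 8 * lam) ≤ (1 / 2 : ℝ) ^ (8 * lam) :=
    pow_le_pow_of_le_one (by norm_num) (by norm_num) (by omega)
  have hp : (0 : ℝ) < (1 / 2 : ℝ) ^ (8 * lam) := by positivity
  have h2N : (0 : ℝ) < 2 ^ (2 * N) := by positivity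
  have t1 : ((J : ℝ) + 1) * (4 ^ N * (1 / 2 : ℝ) ^ (80 * 8 * lam)) ≤ 2 ^ N * (2 ^ (2 * N) * (1 / 2 : ℝ) ^ (8 * lam)) := by
    rw [h4]
    exact mul_le_mul hJ' (mul_le_mul_of_nonneg_left h5 h2N.le) (by positivity) (by positivity)
  have t2 : ((I : ℝ) + 1) * (4 ^ (N + 1) * (1 / 2 : ℝ) ^ (8 * lam)) ≤
      2 ^ N * (2 ^ (2 * N) * 4 * (1 / 2 : ℝ) ^ (8 * lam)) := by
    rw [pow_succ, h4]
    exact mul_le_mul_of_nonneg_right hI' (by positivity)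
  have t3 : ((J : ℝ) + 1) * (4 ^ N * (1 / 2 : ℝ) ^ (80 * 8 * lam)) +
        ((I : ℝ) + 1) * (4 ^ (N + 1) * (1 / 2 : ℝ) ^ (8 * lam)) ≤ 2 ^ (3 * N + 3) * (1 / 2 : ℝ) ^ (8 * lam) := by
    have e : (2 : ℝ) ^ (3 * N + 3) = 2 ^ N * 2 ^ (2 * N) * 8 := by
      rw [pow_add, show 3 * N = N + 2 * N by omega, pow_add]; norm_num
    rw [e]
    have hq : (0 : ℝ) ≤ 2 ^ N * 2 ^ (2 * N) * (1 / 2 : ℝ) ^ (8 * lam) := by positivity
    linarith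
  have t4 : (2 : ℝ) ^ (5 * (lam + 2)) * (2 ^ (3 * N + 3) * (1 / 2 : ℝ) ^ (8 * lam)) ≤ (1 / 2 : ℝ) ^ lam := by
    have e1 : (1 / 2 : ℝ) ^ (8 * lam) = (1 / 2 : ℝ) ^ (7 * lam) * (1 / 2 : ℝ) ^ lam := by
      rw [← pow_add]; congr 1; omega
    have e2 : (2 : ℝ) ^ (5 * (lam + 2)) * 2 ^ (3 * N + 3) ≤ 2 ^ (7 * lam) := by
      rw [← pow_add]
      exact pow_le_pow_right₀ (by norm_num) (by omega)
    have e3 : (2 : ℝ) ^ (7 * lam) * (1 / 2 : ℝ) ^ (7 * lam) = 1 := by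
      rw [← mul_pow]; norm_num
    calc (2 : ℝ) ^ (5 * (lam + 2)) * (2 ^ (3 * N + 3) * (1 / 2 : ℝ) ^ (8 * lam))
        = ((2 : ℝ) ^ (5 * (lam + 2)) * 2 ^ (3 * N + 3)) * ((1 / 2 : ℝ) ^ (7 * lam) * (1 / 2 : ℝ) ^ lam) := by
          rw [e1]; ring
      _ ≤ 2 ^ (7 * lam) * ((1 / 2 : ℝ) ^ (7 * lam) * (1 / 2 : ℝ) ^ lam) :=
          mul_le_mul_of_nonneg_right e2 (by positivity)
      _ = (1 / 2 : ℝ) ^ lam := by rw [← mul_assoc, e3, one_mul]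
  calc _ ≤ (2 : ℝ) ^ (5 * (lam + 2)) * (2 ^ (3 * N + 3) * (1 / 2 : ℝ) ^ (8 * lam)) :=
        mul_le_mul hk' t3 (by positivity) (by positivity)
    _ ≤ _ := t4

theorem RN1_J (B n a lam J : ℕ) (ha : 10 ≤ a) (hn : 2 ≤ n) (h : 4 * a * 2 ^ J + 40 ≤ lam) (hB : lam ≤ B * n * a) :
    (J : ℝ) ≤ 2 * B + 2 * Real.log n := by
  have h1 : 2 ^ J ≤ B * n := by
    by_contra hc
    push Not at hc
    have h2 : B * n * a < 2 ^ J * a := Nat.mul_lt_mul_of_pos_right hc (by omega)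
    nlinarith
  have hB0 : 0 < B := by
    rcases Nat.eq_zero_or_pos B with h0 | h0
    · subst h0
      simp at hB
      omega
    · exact h0
  have h3 : ((2 : ℝ) ^ J) ≤ (B : ℝ) * n := by exact_mod_cast h1
  have hBr : (0 : ℝ) < B := by exact_mod_cast hB0
  have hnr : (0 : ℝ) < n := by
    have : 0 < n := by omega
    exact_mod_cast this
  have h4 := Real.log_le_log (by positivity) h3
  rw [Real.log_pow, Real.log_mul hBr.ne' hnr.ne'] at h4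
  have h5 : Real.log B ≤ B := Real.log_le_self hBr.le
  have h6 : (1 / 2 : ℝ) ≤ Real.log 2 := by have := Real.log_two_gt_d9; linarith
  have h7 : (J : ℝ) * (1 / 2) ≤ (J : ℝ) * Real.log 2 := mul_le_mul_of_nonneg_left h6 (Nat.cast_nonneg _)
  linarith

theorem RN1_I (n : ℕ) (hn : 2 ≤ n) : (Nat.clog 2 (4 * n) : ℝ) ≤ 3 + 2 * Real.log n := by
  set I := Nat.clog 2 (4 * n) with hI
  have hI1 : 1 ≤ I := by
    rw [hI]
    exact Nat.clog_pos (by norm_num) (by omega)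
  have h1 : 2 ^ (I - 1) < 4 * n := Nat.pow_pred_clog_lt_self (by norm_num) (by omega)
  have h1' : ((2 : ℝ) ^ (I - 1)) ≤ 2 ^ 2 * n := by
    have : ((2 ^ (I - 1) : ℕ) : ℝ) ≤ ((4 * n : ℕ) : ℝ) := by exact_mod_cast h1.le
    push_cast at this
    linarith
  have hnr : (0 : ℝ) < n := by
    have : 0 < n := by omega
    exact_mod_cast this
  have h4 := Real.log_le_log (by positivity) h1'
  rw [Real.log_pow, Real.log_mul (by norm_num) hnr.ne', Real.log_pow] at h4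
  have h6 : (1 / 2 : ℝ) ≤ Real.log 2 := by have := Real.log_two_gt_d9; linarith
  have hc : ((I - 1 : ℕ) : ℝ) = (I : ℝ) - 1 := by
    rw [Nat.cast_sub hI1]; norm_num
  rw [hc] at h4
  push_cast at h4
  have hn1 : (2 : ℝ) ≤ n := by exact_mod_cast hn
  have hln : 0 ≤ Real.log n := Real.log_nonneg (by linarith)
  by_contra hcon
  push Not at hcon
  have h8 : (2 * Real.log n) * Real.log 2 < ((I : ℝ) - 1 - 2) * Real.log 2 :=
    mul_lt_mul_of_pos_right (by linarith) (by linarith)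
  nlinarith

theorem rank_num (B : ℕ) : ∃ C : ℝ, 1 ≤ C ∧ ∃ L0 : ℕ, 2600 ≤ L0 ∧ ∀ n q lam a k g : ℕ, 2 ≤ n → 2 ≤ q → 10 ≤ a → L0 ≤ lam →
    q ^ (n - 1) ≤ 2 ^ (lam + 2) → 4 * a + 40 ≤ lam → lam ≤ B * n * a → k ≤ 2 ^ n * q ^ (n + 1) → g ≤ q ^ (n ^ 2) →
    ∃ N h I J : ℕ, 1 ≤ h ∧ 8 ≤ N ∧ 4 * a * 2 ^ J + 40 ≤ lam ∧ lam < 4 * a * 2 ^ (J + 1) + 40 ∧
      640 ≤ a * 2 ^ (J + 1) + 10 ∧ 96 * (h * (J + 2) + I) ≤ N ∧
      (g : ℝ) < 2 ^ (2 ^ I * (2 * h * (a * 2 ^ (J + 1) + 10))) ∧ (N : ℝ) ≤ C * Real.log n ∧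
      (k : ℝ) * (((J : ℝ) + 1) * (4 ^ N * (1 / 2 : ℝ) ^ (80 * h * lam)) +
        ((I : ℝ) + 1) * (4 ^ (N + 1) * (1 / 2 : ℝ) ^ (h * lam))) ≤ (1 / 2 : ℝ) ^ lam := by
  set c : ℝ := 3072 * (B : ℝ) + 5392 with hc
  have hBr : (0 : ℝ) ≤ (B : ℝ) := Nat.cast_nonneg B
  have hc1 : 1 ≤ c := by rw [hc]; linarith
  refine ⟨c, hc1, 2600 + (16 * (3072 * B + 5392)) ^ 2, by omega, ?_⟩
  intro n q lam a k g hn hq ha hL hqn haL hlB hk hg
  have hl : 2600 ≤ lam := by omega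
  have hlc : (16 * c) ^ 2 ≤ (lam : ℝ) := by
    have h1 : (16 * (3072 * B + 5392)) ^ 2 ≤ lam := by omega
    have h2 : (((16 * (3072 * B + 5392)) ^ 2 : ℕ) : ℝ) ≤ (lam : ℝ) := by exact_mod_cast h1
    push_cast at h2
    rw [hc]
    exact h2
  have hx1 : 1 ≤ (lam - 40) / (4 * a) := (Nat.one_le_div_iff (by omega)).mpr (by omega)
  set J := Nat.log 2 ((lam - 40) / (4 * a)) with hJ
  set I := Nat.clog 2 (4 * n) with hI
  have p1 : 2 ^ J ≤ (lam - 40) / (4 * a) := Nat.pow_log_le_self 2 (by omega)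
  have p2 : (lam - 40) / (4 * a) < 2 ^ (J + 1) := Nat.lt_pow_succ_log_self (by norm_num) _
  have q1 : 4 * a * 2 ^ J + 40 ≤ lam := by
    have h1 : 4 * a * 2 ^ J ≤ 4 * a * ((lam - 40) / (4 * a)) := Nat.mul_le_mul_left _ p1
    have h2 : 4 * a * ((lam - 40) / (4 * a)) ≤ lam - 40 := Nat.mul_div_le _ _
    omega
  have q2 : lam < 4 * a * 2 ^ (J + 1) + 40 := by
    have h1 : lam - 40 < 2 ^ (J + 1) * (4 * a) := (Nat.div_lt_iff_lt_mul (by omega)).mp p2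
    have h2 : 2 ^ (J + 1) * (4 * a) = 4 * a * 2 ^ (J + 1) := mul_comm _ _
    omega
  have hI4 : 4 * n ≤ 2 ^ I := Nat.le_pow_clog (by norm_num) _
  have rJ := RN1_J B n a lam J ha hn q1 hlB
  have rI := RN1_I n hn
  have hn2 : (2 : ℝ) ≤ n := by exact_mod_cast hn
  have hlog : (1 / 2 : ℝ) ≤ Real.log n := by
    have h1 := Real.log_two_gt_d9
    have h2 : Real.log 2 ≤ Real.log n := Real.log_le_log (by norm_num) hn2
    linarith
  have hN : ((96 * (8 * (J + 2) + I) + 8 : ℕ) : ℝ) ≤ c * Real.log n := by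
    push_cast
    rw [hc]
    nlinarith [mul_nonneg hBr (by linarith : (0 : ℝ) ≤ Real.log n - 1 / 2)]
  have hnl := RN1_n_le n q lam hn hq hqn
  have hN4 : 4 * (96 * (8 * (J + 2) + I) + 8) ≤ lam := by
    have h1 : Real.log n ≤ Real.log ((lam : ℝ) + 3) := by
      apply Real.log_le_log (by linarith)
      exact_mod_cast hnl
    have h2 := RN1_logbound c hc1 lam (by
      have : (2600 : ℝ) ≤ lam := by exact_mod_cast hl
      linarith) hlc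
    have h3 : c * Real.log n ≤ c * Real.log ((lam : ℝ) + 3) := mul_le_mul_of_nonneg_left h1 (by linarith)
    have h4 : (4 : ℝ) * ((96 * (8 * (J + 2) + I) + 8 : ℕ) : ℝ) ≤ lam := by linarith
    exact_mod_cast h4
  refine ⟨96 * (8 * (J + 2) + I) + 8, 8, I, J, by norm_num, by omega, q1, q2, ?_, by omega, ?_, hN, ?_⟩
  · have h1 : 4 * a * 2 ^ (J + 1) = 4 * (a * 2 ^ (J + 1)) := mul_assoc _ _ _
    omega
  · have h1 : 4 * a * 2 ^ (J + 1) = 4 * (a * 2 ^ (J + 1)) := mul_assoc _ _ _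
    have h2 := RN1_g_lt n q lam g I (4 * (a * 2 ^ (J + 1) + 10)) hn hq (by omega) hqn hg hI4 (by omega)
    have h3 : 2 * 8 * (a * 2 ^ (J + 1) + 10) = 4 * (4 * (a * 2 ^ (J + 1) + 10)) := by ring
    rw [h3]
    exact_mod_cast h2
  · exact RN1_final k J I _ lam (RN1_k_le n q lam k hn hq hqn hk) (by omega) (by omega) hN4 hl

end Pool.Agent.BC5
end

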