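import Pool.Agent.Lib.MP_bc5a73_al.QuasiBlock
import Pool.Agent.Lib.MP_bc5a73_al.QuasiStep

section
set_option autoImplicit false
set_option linter.unusedSectionVars false
set_option linter.unusedVariables false
open scoped BigOperators Matrix
open Matrix
namespace Pool.Agent.BC5


variable {G : Type} [Group G] [Fintype G] [DecidableEq G]


/-- one step -/
theorem RA1_step {N : ℕ} {d : ℝ} (hd : QR G d) (lam : ℕ) (hlam : 32 ≤ lam) (hdl : (2 : ℝ) ^ lam ≤ d)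
    {E : Matrix G G ℝ} (hE : IsBlock E) (h : ℕ) (hh : 1 ≤ h) (θ δ v : ℝ) (hθ : 5 / 8 ≤ θ) (hδ : 0 < δ) (hv0 : 0 ≤ v)
    (hv : 10 * (h : ℝ) ≤ v * δ) (a j : ℕ) (hj : 4 * a * 2 ^ j + 40 ≤ lam) :
    frac (fun x : Fin N × Fin 2560 → G => StartP x E (θ + j * δ) (v + j * h) ((1 / 2 : ℝ) ^ (a * 2 ^ j + 10)) ∧
      ¬ StartP x E (θ + (j + 1) * δ) (v + (j + 1) * h) ((1 / 2 : ℝ) ^ (a * 2 ^ (j + 1) + 10)))
      ≤ 4 ^ N * (1 / 2 : ℝ) ^ (80 * h * lam) := by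
  have hd0 : 0 < d := lt_of_lt_of_le (by positivity) hdl
  have hj0 : (0 : ℝ) ≤ j := Nat.cast_nonneg j
  have hh0 : (0 : ℝ) ≤ h := Nat.cast_nonneg h
  have hjδ : 0 ≤ (j : ℝ) * δ := mul_nonneg hj0 hδ.le
  have hjh : 0 ≤ (j : ℝ) * h := mul_nonneg hj0 hh0
  have hhδ : 0 ≤ (h : ℝ) * δ := mul_nonneg hh0 hδ.le
  have hs := early_step (N := N) hd hd0 hE h hh ((1 / 2 : ℝ) ^ (a * 2 ^ j + 10)) (θ + j * δ)
    (θ + (j + 1) * δ) (v + j * h) (v + (j + 1) * h) (by positivity) (by linarith) (by linarith)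
    (by linarith) (by linarith) (by linarith)
    (by
      have e : θ + ((j : ℝ) + 1) * δ - (θ + j * δ) = δ := by ring
      rw [e]
      have h1 : 0 ≤ (((j : ℝ) + 1) * h) * δ := by positivity
      linarith [add_mul v (((j : ℝ) + 1) * h) δ])
  have e1 : 1024 * ((1 / 2 : ℝ) ^ (a * 2 ^ j + 10)) ^ 2 = (1 / 2 : ℝ) ^ (a * 2 ^ (j + 1) + 10) := by
    have e2 : a * 2 ^ (j + 1) + 10 = a * 2 ^ j + a * 2 ^ j + 10 := by ring
    rw [e2, pow_add, pow_add, pow_add]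
    ring
  have e3 : ((1 / 2 : ℝ) ^ (a * 2 ^ j + 10)) ^ 2 = (1 / 2 : ℝ) ^ (2 * (a * 2 ^ j) + 20) := by
    rw [← pow_mul]
    congr 1
    ring
  rw [e1, e3] at hs
  refine hs.trans ?_
  refine mul_le_mul_of_nonneg_left ?_ (by positivity)
  refine QC5_num lam h _ hlam hdl ?_
  have e4 : 4 * a * 2 ^ j = 4 * (a * 2 ^ j) := by ring
  omega

theorem early_iter2 {N : ℕ} {d : ℝ} (hd : QR G d) (lam : ℕ) (hlam : 32 ≤ lam) (hdl : (2 : ℝ) ^ lam ≤ d)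
    {E : Matrix G G ℝ} (hE : IsBlock E) (h : ℕ) (hh : 1 ≤ h) (θ δ v : ℝ) (hθ : 5 / 8 ≤ θ) (hδ : 0 < δ) (hv0 : 0 ≤ v)
    (hv : 10 * (h : ℝ) ≤ v * δ) (a J : ℕ) (hJ : 4 * a * 2 ^ J + 40 ≤ lam) :
    frac (fun x : Fin N × Fin 2560 → G => StartP x E θ v ((1 / 2 : ℝ) ^ (a + 10)) ∧
      ¬ StartP x E (θ + (J + 1) * δ) (v + (J + 1) * h) ((1 / 2 : ℝ) ^ (a * 2 ^ (J + 1) + 10)))
      ≤ ((J : ℝ) + 1) * (4 ^ N * (1 / 2 : ℝ) ^ (80 * h * lam)) := by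
  induction J with
  | zero =>
    have hs := RA1_step (N := N) hd lam hlam hdl hE h hh θ δ v hθ hδ hv0 hv a 0 hJ
    have e1 : θ + ((0 : ℕ) : ℝ) * δ = θ := by rw [Nat.cast_zero, zero_mul, add_zero]
    have e2 : v + ((0 : ℕ) : ℝ) * h = v := by rw [Nat.cast_zero, zero_mul, add_zero]
    have e3 : a * 2 ^ 0 + 10 = a + 10 := by rw [pow_zero, mul_one]
    rw [e1, e2, e3] at hs
    have e4 : (((0 : ℕ) : ℝ) + 1) * (4 ^ N * (1 / 2 : ℝ) ^ (80 * h * lam)) = 4 ^ N * (1 / 2 : ℝ) ^ (80 * h * lam) := by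
      rw [Nat.cast_zero, zero_add, one_mul]
    rw [e4]
    exact hs
  | succ J ih =>
    have hJ' : 4 * a * 2 ^ J + 40 ≤ lam := by
      have h2 : 2 ^ J ≤ 2 ^ (J + 1) := Nat.pow_le_pow_right (by norm_num) (Nat.le_succ J)
      have h3 : 4 * a * 2 ^ J ≤ 4 * a * 2 ^ (J + 1) := Nat.mul_le_mul_left _ h2
      omega
    have hs := RA1_step (N := N) hd lam hlam hdl hE h hh θ δ v hθ hδ hv0 hv a (J + 1) hJ
    have e1 : (((J + 1 : ℕ) : ℝ)) = (J : ℝ) + 1 := by push_cast; ring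
    rw [e1] at hs ⊢
    have hc := N10_chain _ _ _ _ _ (ih hJ') hs
    refine hc.trans (le_of_eq ?_)
    ring

end Pool.Agent.BC5
end

section
set_option autoImplicit false
set_option linter.unusedSectionVars false
set_option linter.unusedVariables false
open scoped BigOperators Matrix
open Matrix
namespace Pool.Agent.BC5


variable {G : Type} [Group G] [Fintype G] [DecidableEq G]


theorem norm_block2 {N : ℕ} {d : ℝ} (hd : QR G d) (lam : ℕ) (hlam : 32 ≤ lam) (hdl : (2 : ℝ) ^ lam ≤ d)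
    {E : Matrix G G ℝ} (hE : IsBlock E) (h I J a : ℕ) (hh : 1 ≤ h) (hN1 : 8 ≤ N)
    (hJ1 : 4 * a * 2 ^ J + 40 ≤ lam) (hJ2 : lam < 4 * a * 2 ^ (J + 1) + 40) (hq : 640 ≤ a * 2 ^ (J + 1) + 10)
    (hN : 96 * (h * (J + 2) + I) ≤ N) (hG : (Fintype.card G : ℝ) < 2 ^ (2 ^ I * (2 * h * (a * 2 ^ (J + 1) + 10)))) :
    frac (fun x : Fin N × Fin 2560 → G => StartP x E (1 / 2) 1 ((1 / 2 : ℝ) ^ (a + 10)) ∧ ¬ NormP x E (3 / 4) N)
      ≤ ((J : ℝ) + 1) * (4 ^ N * (1 / 2 : ℝ) ^ (80 * h * lam)) +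
        ((I : ℝ) + 1) * (4 ^ (N + 1) * (1 / 2 : ℝ) ^ (h * lam)) := by
  have hlE0 : (0 : ℝ) ≤ 1 := zero_le_one
  obtain ⟨q, hq'⟩ : ∃ q : ℕ, q = a * 2 ^ (J + 1) + 10 := ⟨_, rfl⟩
  obtain ⟨v0, hv0⟩ : ∃ v0 : ℕ, v0 = N - N / 8 := ⟨_, rfl⟩
  have hq4 : lam < 4 * q := by
    have e : 4 * q = 4 * a * 2 ^ (J + 1) + 40 := by rw [hq']; ring
    omega
  rw [← hq'] at hq hG
  obtain ⟨b, hb⟩ : ∃ b : ℕ, b = h * (J + 2) := ⟨_, rfl⟩
  rw [← hb] at hN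
  have hv8 : 7 * N ≤ 8 * v0 := by omega
  have hvN : v0 + b + I ≤ N := by omega
  have hv1 : 1 ≤ v0 := by omega
  have hvr : 7 * (N : ℝ) ≤ 8 * v0 := by exact_mod_cast hv8
  have hN0 : (0 : ℝ) < N := by
    have : 1 ≤ N := by omega
    exact_mod_cast this
  have hh1 : (1 : ℝ) ≤ h := by exact_mod_cast hh
  have hh0 : (0 : ℝ) ≤ h := by linarith
  have hv00 : (0 : ℝ) ≤ (v0 : ℝ) := Nat.cast_nonneg _
  have hJ0 : (0 : ℝ) ≤ (J : ℝ) := Nat.cast_nonneg _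
  have hI0 : (0 : ℝ) ≤ (I : ℝ) := Nat.cast_nonneg _
  have hbr : (b : ℝ) = h * (J + 2) := by
    rw [hb]; push_cast; ring
  have hNr : 96 * ((b : ℝ) + I) ≤ N := by exact_mod_cast hN
  obtain ⟨δ, hδ⟩ : ∃ δ : ℝ, δ = 12 * h / N := ⟨_, rfl⟩
  have hδ0 : 0 < δ := by
    rw [hδ]
    have : (0 : ℝ) < 12 * h := by linarith
    positivity
  have hη0 : (0 : ℝ) < 12 / N := by positivity
  have hvδ : 10 * (h : ℝ) ≤ v0 * δ := by
    rw [hδ, mul_div_assoc', le_div_iff₀ hN0]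
    nlinarith
  have hvη : (10 : ℝ) ≤ v0 * (12 / N) := by
    rw [mul_div_assoc', le_div_iff₀ hN0]
    linarith
  have hB := early_iter2 (N := N) hd lam hlam hdl hE h hh (5 / 8) δ v0 le_rfl hδ0 hv00 hvδ a J hJ1
  rw [← hq'] at hB
  have hJh : (0 : ℝ) ≤ ((J : ℝ) + 1) * h := by positivity
  have hJδ : (0 : ℝ) ≤ ((J : ℝ) + 1) * δ := by positivity
  have htr : E.trace < 2 ^ (2 ^ I * (2 * h * q)) := lt_of_le_of_lt (P3_trace_le hE) hG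
  have hC := block_norm (N := N) hE h q I hh hq (5 / 8 + (J + 1) * δ) δ (12 / N) (v0 + (J + 1) * h)
    (by linarith) hδ0 (by linarith) hη0 (by linarith)
    (by
      have : 0 ≤ (((J : ℝ) + 1) * h + h) * δ := by positivity
      nlinarith)
    (by
      have : 0 ≤ (((J : ℝ) + 1) * h) * (12 / N) := by positivity
      nlinarith)
    htr
  have hC2 : ((I : ℝ) + 1) * (4 ^ (N + 1) * (1 / 2 : ℝ) ^ (4 * h * q)) ≤
      ((I : ℝ) + 1) * (4 ^ (N + 1) * (1 / 2 : ℝ) ^ (h * lam)) := by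
    have h1 : h * lam ≤ 4 * h * q := by
      calc h * lam ≤ h * (4 * q) := Nat.mul_le_mul_left h hq4.le
        _ = 4 * h * q := by ring
    have h2 : (1 / 2 : ℝ) ^ (4 * h * q) ≤ (1 / 2 : ℝ) ^ (h * lam) :=
      pow_le_pow_of_le_one (by norm_num) (by norm_num) h1
    exact mul_le_mul_of_nonneg_left (mul_le_mul_of_nonneg_left h2 (by positivity)) (by positivity)
  have hsub : frac (fun x : Fin N × Fin 2560 → G => StartP x E (1 / 2) 1 ((1 / 2 : ℝ) ^ (a + 10)) ∧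
        ¬ NormP x E (3 / 4) N) ≤
      frac (fun x : Fin N × Fin 2560 → G =>
        (StartP x E (5 / 8) v0 ((1 / 2 : ℝ) ^ (a + 10)) ∧
          ¬ StartP x E (5 / 8 + (J + 1) * δ) (v0 + (J + 1) * h) ((1 / 2 : ℝ) ^ q)) ∨
        (StartP x E (5 / 8 + (J + 1) * δ) (v0 + (J + 1) * h) ((1 / 2 : ℝ) ^ q) ∧
          ¬ NormP x E (5 / 8 + (J + 1) * δ + δ + I * (12 / N)) (v0 + (J + 1) * h + h + I))) := by
    refine frac_mono fun x hx => ?_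
    obtain ⟨hS, hx⟩ := hx
    by_cases hS1 : StartP x E (5 / 8 + (J + 1) * δ) (v0 + (J + 1) * h) ((1 / 2 : ℝ) ^ q)
    · right
      refine ⟨hS1, fun hNn => hx (hNn.mono ?_ ?_)⟩
      · have h1 : 5 / 8 + ((J : ℝ) + 1) * δ + δ + I * (12 / N) = 5 / 8 + 12 * (b + I) / N := by
          rw [hδ, hbr]
          field_simp
          ring
        rw [h1]
        have h2 : 12 * ((b : ℝ) + I) / N ≤ 1 / 8 := by
          rw [div_le_iff₀ hN0]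
          linarith
        linarith
      · have h1 : ((v0 + b + I : ℕ) : ℝ) ≤ N := by exact_mod_cast hvN
        push_cast at h1
        rw [hbr] at h1
        linarith
    · left
      refine ⟨QC6_start_mono hE (fun R hR => hS R ?_) (by norm_num), hS1⟩
      have h1 : (1 : ℝ) ≤ v0 := by exact_mod_cast hv1
      linarith
  have hor2 := frac_or_le (fun x : Fin N × Fin 2560 → G => StartP x E (5 / 8) v0 ((1 / 2 : ℝ) ^ (a + 10)) ∧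
          ¬ StartP x E (5 / 8 + (J + 1) * δ) (v0 + (J + 1) * h) ((1 / 2 : ℝ) ^ q))
    (fun x : Fin N × Fin 2560 → G => StartP x E (5 / 8 + (J + 1) * δ) (v0 + (J + 1) * h) ((1 / 2 : ℝ) ^ q) ∧
          ¬ NormP x E (5 / 8 + (J + 1) * δ + δ + I * (12 / N)) (v0 + (J + 1) * h + h + I))
  exact hsub.trans (hor2.trans (add_le_add hB (hC.trans hC2)))

theorem norm_all2 {N : ℕ} {d : ℝ} (hd : QR G d) (lam : ℕ) (hlam : 32 ≤ lam) (hdl : (2 : ℝ) ^ lam ≤ d)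
    (h I J a : ℕ) (hh : 1 ≤ h) (hN1 : 8 ≤ N)
    (hJ1 : 4 * a * 2 ^ J + 40 ≤ lam) (hJ2 : lam < 4 * a * 2 ^ (J + 1) + 40) (hq : 640 ≤ a * 2 ^ (J + 1) + 10)
    (hN : 96 * (h * (J + 2) + I) ≤ N) (hG : (Fintype.card G : ℝ) < 2 ^ (2 ^ I * (2 * h * (a * 2 ^ (J + 1) + 10))))
    {δ1 : ℝ} (hst : frac (fun x : Fin N × Fin 2560 → G => ¬ ∀ E : Matrix G G ℝ, IsBlock E → E ≠ Jm G →
      StartP x E (1 / 2) 1 ((1 / 2 : ℝ) ^ (a + 10))) ≤ δ1) :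
    frac (fun x : Fin N × Fin 2560 → G => ¬ ∀ E : Matrix G G ℝ, IsBlock E → E ≠ Jm G → NormP x E (3 / 4) N)
      ≤ δ1 + (kc G : ℝ) * (((J : ℝ) + 1) * (4 ^ N * (1 / 2 : ℝ) ^ (80 * h * lam)) +
        ((I : ℝ) + 1) * (4 ^ (N + 1) * (1 / 2 : ℝ) ^ (h * lam))) := by
  classical
  obtain ⟨K, hK⟩ : ∃ K : ℝ, K = ((J : ℝ) + 1) * (4 ^ N * (1 / 2 : ℝ) ^ (80 * h * lam)) +
        ((I : ℝ) + 1) * (4 ^ (N + 1) * (1 / 2 : ℝ) ^ (h * lam)) := ⟨_, rfl⟩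
  have hK0 : 0 ≤ K := by
    rw [hK]
    positivity
  rw [← hK]
  obtain ⟨B, hB, -⟩ := exists_blocks G
  have h1 : frac (fun x : Fin N × Fin 2560 → G =>
      ¬ ∀ E : Matrix G G ℝ, IsBlock E → E ≠ Jm G → NormP x E (3 / 4) N) ≤
      frac (fun x : Fin N × Fin 2560 → G => (¬ ∀ E : Matrix G G ℝ, IsBlock E → E ≠ Jm G →
        StartP x E (1 / 2) 1 ((1 / 2 : ℝ) ^ (a + 10))) ∨ ∃ E ∈ B.filter (fun E => E ≠ Jm G),
          (StartP x E (1 / 2) 1 ((1 / 2 : ℝ) ^ (a + 10)) ∧ ¬ NormP x E (3 / 4) N)) := by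
    refine frac_mono fun x hx => ?_
    by_cases hS : ∀ E : Matrix G G ℝ, IsBlock E → E ≠ Jm G → StartP x E (1 / 2) 1 ((1 / 2 : ℝ) ^ (a + 10))
    · right
      push Not at hx
      obtain ⟨E, hE, hEJ, hn⟩ := hx
      exact ⟨E, Finset.mem_filter.2 ⟨(hB E).2 hE, hEJ⟩, hS E hE hEJ, hn⟩
    · exact Or.inl hS
  have h2 := frac_exists_le (α := Fin N × Fin 2560 → G) (B.filter (fun E => E ≠ Jm G))
    (fun E x => StartP x E (1 / 2) 1 ((1 / 2 : ℝ) ^ (a + 10)) ∧ ¬ NormP x E (3 / 4) N)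
  have h3 : ∑ E ∈ B.filter (fun E => E ≠ Jm G), frac (fun x : Fin N × Fin 2560 → G =>
      StartP x E (1 / 2) 1 ((1 / 2 : ℝ) ^ (a + 10)) ∧ ¬ NormP x E (3 / 4) N) ≤
      ∑ E ∈ B.filter (fun E => E ≠ Jm G), K := by
    refine Finset.sum_le_sum fun E hE => ?_
    obtain ⟨hE1, hE2⟩ := Finset.mem_filter.1 hE
    rw [hK]
    exact norm_block2 hd lam hlam hdl ((hB E).1 hE1) h I J a hh hN1 hJ1 hJ2 hq hN hG
  rw [Finset.sum_const, nsmul_eq_mul] at h3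
  have h4 : ((B.filter (fun E => E ≠ Jm G)).card : ℝ) ≤ kc G := by
    have h5 : (B.filter (fun E => E ≠ Jm G)).card ≤ kc G :=
      (Finset.card_filter_le _ _).trans (card_blocks_le B fun E hE => (hB E).1 hE)
    exact_mod_cast h5
  have h6 := mul_le_mul_of_nonneg_right h4 hK0
  exact h1.trans ((frac_or_le _ _).trans (add_le_add hst (h2.trans (h3.trans h6))))

end Pool.Agent.BC5
end

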