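import Pool.Agent.Lib.MP_bc5a73_al.LinearAlgebra

section
set_option autoImplicit false
set_option linter.unusedSectionVars false
set_option linter.unusedVariables false
open scoped BigOperators Matrix
open Matrix
namespace Pool.Agent.BC5

variable {G : Type} [Group G] [Fintype G] [DecidableEq G]

/-- Right translation operator: `(Rm g *ᵥ f) x = f (x * g)`. -/
def Rm (g : G) : Matrix G G ℝ := Matrix.of fun x y => if y = x * g then 1 else 0

/-- Left translation operator: `(Lm g *ᵥ f) x = f (g⁻¹ * x)`. -/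
def Lm (g : G) : Matrix G G ℝ := Matrix.of fun x y => if y = g⁻¹ * x then 1 else 0

/-- The symmetrised right translation. -/
noncomputable def Sm (g : G) : Matrix G G ℝ := (1 / 2 : ℝ) • (Rm g + Rm g⁻¹)

/-- The projection on the constant functions. -/
noncomputable def Jm (G : Type) [Group G] [Fintype G] [DecidableEq G] : Matrix G G ℝ :=
  Matrix.of fun _ _ => ((Fintype.card G : ℝ))⁻¹

/-- `X` commutes with all left translations. -/
def CommL (X : Matrix G G ℝ) : Prop := ∀ g : G, Commute X (Lm g)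

/-- `X` commutes with all right translations. -/
def CommR (X : Matrix G G ℝ) : Prop := ∀ g : G, Commute X (Rm g)

/-- Blocks: minimal nonzero bi-invariant projections. -/
def IsBlock (E : Matrix G G ℝ) : Prop :=
  IsPr E ∧ CommL E ∧ CommR E ∧ E ≠ 0 ∧
    ∀ F : Matrix G G ℝ, IsPr F → CommL F → CommR F → E * F = F → F = 0 ∨ F = E

/-- The finite set `S` is (the carrier of) a subgroup. -/
structure IsGrp (S : Finset G) : Prop where
  one : (1 : G) ∈ S
  mul : ∀ a ∈ S, ∀ b ∈ S, a * b ∈ S
  inv : ∀ a ∈ S, a⁻¹ ∈ S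

/-- Average of the left translations by the elements of `S`. -/
noncomputable def avL (S : Finset G) : Matrix G G ℝ := ((S.card : ℝ))⁻¹ • ∑ h ∈ S, Lm h

/-- Average of the right translations by the elements of `S`. -/
noncomputable def avR (S : Finset G) : Matrix G G ℝ := ((S.card : ℝ))⁻¹ • ∑ h ∈ S, Rm h

theorem Rm_mulVec (g : G) (f : G → ℝ) (x : G) : (Rm g *ᵥ f) x = f (x * g) := by
  simp [Rm, Matrix.mulVec, dotProduct]

theorem Lm_mulVec (g : G) (f : G → ℝ) (x : G) : (Lm g *ᵥ f) x = f (g⁻¹ * x) := by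
  simp [Lm, Matrix.mulVec, dotProduct]

theorem ext_mulVec {M N : Matrix G G ℝ} (h : ∀ f, M *ᵥ f = N *ᵥ f) : M = N := by
  ext x y
  have := congrFun (h (Pi.single y 1)) x
  simpa using this

theorem Rm_mul (g h : G) : Rm (g * h) = Rm g * Rm h := by
  apply ext_mulVec; intro f; ext x
  rw [← Matrix.mulVec_mulVec, Rm_mulVec, Rm_mulVec, Rm_mulVec, mul_assoc]

theorem Lm_mul (g h : G) : Lm (g * h) = Lm g * Lm h := by
  apply ext_mulVec; intro f; ext x
  rw [← Matrix.mulVec_mulVec, Lm_mulVec, Lm_mulVec, Lm_mulVec, _root_.mul_inv_rev, mul_assoc]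

theorem Rm_one : Rm (1 : G) = 1 := by
  apply ext_mulVec; intro f; ext x; simp [Rm_mulVec]

theorem Lm_one : Lm (1 : G) = 1 := by
  apply ext_mulVec; intro f; ext x; simp [Lm_mulVec]

theorem Rm_transpose (g : G) : (Rm g)ᵀ = Rm g⁻¹ := by
  ext x y
  simp only [Rm, Matrix.transpose_apply, Matrix.of_apply]
  refine if_congr ?_ rfl rfl
  constructor
  · intro h; rw [h]; group
  · intro h; rw [h]; group

theorem Lm_transpose (g : G) : (Lm g)ᵀ = Lm g⁻¹ := by
  ext x y
  simp only [Lm, Matrix.transpose_apply, Matrix.of_apply, inv_inv]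
  refine if_congr ?_ rfl rfl
  constructor
  · intro h; rw [h]; group
  · intro h; rw [h]; group

theorem Rm_mul_inv (g : G) : Rm g * Rm g⁻¹ = 1 := by rw [← Rm_mul, mul_inv_cancel, Rm_one]
theorem Rm_inv_mul (g : G) : Rm g⁻¹ * Rm g = 1 := by rw [← Rm_mul, inv_mul_cancel, Rm_one]
theorem Lm_mul_inv (g : G) : Lm g * Lm g⁻¹ = 1 := by rw [← Lm_mul, mul_inv_cancel, Lm_one]
theorem Lm_inv_mul (g : G) : Lm g⁻¹ * Lm g = 1 := by rw [← Lm_mul, inv_mul_cancel, Lm_one]

theorem Rm_Lm_comm (g h : G) : Commute (Rm g) (Lm h) := by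
  apply ext_mulVec; intro f; ext x
  rw [← Matrix.mulVec_mulVec, ← Matrix.mulVec_mulVec, Rm_mulVec, Lm_mulVec, Lm_mulVec, Rm_mulVec, mul_assoc]

theorem commL_Rm (g : G) : CommL (Rm g) := fun h => Rm_Lm_comm g h
theorem commR_Lm (g : G) : CommR (Lm g) := fun h => (Rm_Lm_comm h g).symm

end Pool.Agent.BC5
end

section
set_option autoImplicit false
set_option linter.unusedSectionVars false
set_option linter.unusedVariables false
open scoped BigOperators Matrix
open Matrix
namespace Pool.Agent.BC5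

/-
ROW G1. commute_of_comm: X commutes with all Rm g ⇒ X (x*g) (y*g) = X x y ⇒ X x y = X (x*y⁻¹) 1, so X = ∑ h, X h 1 • Lm h (check entries: (Lm h) x y = 1 iff h = x*y⁻¹), and Y commutes
with every Lm h. dot_Rm: reindex the sum (Equiv.mulRight). qf_Sm: f·(Rm g f) = f·(Rm g⁻¹ f) (reindex), expand the square. abs_qf_Sm_le: from (f ± Rm g f)² ≥ 0.
-/

variable {G : Type} [Group G] [Fintype G] [DecidableEq G]

theorem G1_commR {X : Matrix G G ℝ} (hX : CommR X) (x y g : G) : X (x * g) (y * g) = X x y := by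
  have h := congrFun (congrFun (hX g).eq x) (y * g)
  simp only [Matrix.mul_apply, Rm, Matrix.of_apply] at h
  have h1 : ∀ z : G, (if y * g = z * g then (1:ℝ) else 0) = if z = y then 1 else 0 := by
    intro z
    refine if_congr ?_ rfl rfl
    rw [mul_left_inj]
    exact eq_comm
  simp only [h1, mul_ite, mul_one, mul_zero, ite_mul, one_mul, zero_mul, Finset.sum_ite_eq', Finset.mem_univ,
    if_true] at h
  exact h.symm

theorem G1_commL {Y : Matrix G G ℝ} (hY : CommL Y) (x y g : G) : Y (g * x) (g * y) = Y x y := by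
  have h := congrFun (congrFun (hY g).eq (g * x)) y
  simp only [Matrix.mul_apply, Lm, Matrix.of_apply] at h
  have h1 : ∀ z : G, (if y = g⁻¹ * z then (1:ℝ) else 0) = if z = g * y then 1 else 0 := by
    intro z
    refine if_congr ?_ rfl rfl
    rw [eq_inv_mul_iff_mul_eq]
    exact eq_comm
  simp only [h1, mul_ite, mul_one, mul_zero, ite_mul, one_mul, zero_mul, Finset.sum_ite_eq', Finset.mem_univ,
    if_true, inv_mul_cancel_left] at h
  exact h

/-- Paper 1.1: a matrix commuting with all right translations commutes with a matrix commuting with all left ones. -/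
theorem commute_of_comm {X Y : Matrix G G ℝ} (hX : CommR X) (hY : CommL Y) : Commute X Y := by
  ext x y
  rw [Matrix.mul_apply, Matrix.mul_apply]
  let e : G ≃ G := (Equiv.inv G).trans ((Equiv.mulLeft x).trans (Equiv.mulRight y))
  refine Fintype.sum_equiv e _ _ fun w => ?_
  have he : e w = x * w⁻¹ * y := rfl
  rw [he, mul_comm (Y _ _)]
  congr 1
  · have h := G1_commR hX x w (w⁻¹ * y)
    rw [← h]
    congr 1 <;> group
  · have h := G1_commL hY w y (x * w⁻¹)
    rw [← h]
    congr 1 <;> group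

theorem dot_Rm (g : G) (f h : G → ℝ) : (Rm g *ᵥ f) ⬝ᵥ (Rm g *ᵥ h) = f ⬝ᵥ h := by
  simp only [dotProduct, Rm_mulVec]
  exact Equiv.sum_comp (Equiv.mulRight g) (fun x => f x * h x)

theorem dot_Lm (g : G) (f h : G → ℝ) : (Lm g *ᵥ f) ⬝ᵥ (Lm g *ᵥ h) = f ⬝ᵥ h := by
  simp only [dotProduct, Lm_mulVec]
  exact Equiv.sum_comp (Equiv.mulLeft g⁻¹) (fun x => f x * h x)

theorem G1_dot_inv (g : G) (f : G → ℝ) : f ⬝ᵥ (Rm g *ᵥ f) = f ⬝ᵥ (Rm g⁻¹ *ᵥ f) := by
  have h := dot_Rm g (Rm g⁻¹ *ᵥ f) f
  rw [Matrix.mulVec_mulVec, Rm_mul_inv, Matrix.one_mulVec] at h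
  rw [h, dotProduct_comm]

theorem G1_qf_Sm (g : G) (f : G → ℝ) : qf (Sm g) f = f ⬝ᵥ (Rm g⁻¹ *ᵥ f) := by
  unfold Sm
  rw [qf_smul, qf_add]
  unfold qf
  rw [G1_dot_inv]
  ring

/-- `⟨(1 - S(g)) f, f⟩ = ‖R(g)⁻¹ f - f‖² / 2`. -/
theorem qf_Sm (g : G) (f : G → ℝ) :
    f ⬝ᵥ f - qf (Sm g) f = (1 / 2 : ℝ) * ((Rm g⁻¹ *ᵥ f - f) ⬝ᵥ (Rm g⁻¹ *ᵥ f - f)) := by
  rw [G1_qf_Sm, sub_dotProduct, dotProduct_sub, dotProduct_sub, dot_Rm,
    dotProduct_comm (Rm g⁻¹ *ᵥ f) f]
  ring

theorem abs_qf_Sm_le (g : G) (f : G → ℝ) : |qf (Sm g) f| ≤ f ⬝ᵥ f := by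
  have h1 := dot_self_nonneg (Rm g⁻¹ *ᵥ f - f)
  have h2 := dot_self_nonneg (Rm g⁻¹ *ᵥ f + f)
  rw [sub_dotProduct, dotProduct_sub, dotProduct_sub, dot_Rm,
    dotProduct_comm (Rm g⁻¹ *ᵥ f) f] at h1
  rw [add_dotProduct, dotProduct_add, dotProduct_add, dot_Rm,
    dotProduct_comm (Rm g⁻¹ *ᵥ f) f] at h2
  rw [G1_qf_Sm, abs_le]
  constructor <;> linarith

theorem Sm_transpose (g : G) : (Sm g)ᵀ = Sm g := by
  unfold Sm
  rw [Matrix.transpose_smul, Matrix.transpose_add, Rm_transpose, Rm_transpose, inv_inv, add_comm]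

theorem commL_Sm (g : G) : CommL (Sm g) := by
  intro h
  unfold Sm
  exact Commute.smul_left ((commL_Rm g h).add_left (commL_Rm g⁻¹ h)) _

end Pool.Agent.BC5
end

section
set_option autoImplicit false
set_option linter.unusedSectionVars false
set_option linter.unusedVariables false
open scoped BigOperators Matrix
open Matrix
namespace Pool.Agent.BC5

/-
ROW G2. Lm_mul_avL: reindex the sum by left multiplication by h in S (bijection of S by IsGrp). Idempotent: avL*avL = |S|⁻¹ ∑ Lm h * avL = avL. Symmetric: h ↦ h⁻¹.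
avL_mulVec_eq_iff: → f = avL f so Lm h f = Lm h avL f = avL f = f; ← average of equal terms (S nonempty as 1 ∈ S). trace_avL: trace (Lm h) = card G if h = 1, else 0.
avL_mul_avL_of_subset: by Lm_mul_avL applied to elements of S ⊆ S' (and transpose for the other side).
-/

variable {G : Type} [Group G] [Fintype G] [DecidableEq G]

theorem G2_card {S : Finset G} (hS : IsGrp S) : (S.card : ℝ) ≠ 0 := by
  have : 0 < S.card := Finset.card_pos.2 ⟨1, hS.one⟩
  exact_mod_cast this.ne'

theorem G2_sum_left {S : Finset G} (hS : IsGrp S) {h : G} (hh : h ∈ S) {M : Type} [AddCommMonoid M]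
    (f : G → M) : ∑ k ∈ S, f (h * k) = ∑ k ∈ S, f k := by
  refine Finset.sum_nbij' (fun k => h * k) (fun k => h⁻¹ * k) ?_ ?_ ?_ ?_ ?_
  · intro k hk
    exact hS.mul _ hh _ hk
  · intro k hk
    exact hS.mul _ (hS.inv _ hh) _ hk
  · intro k _
    simp
  · intro k _
    simp
  · intro k _
    rfl

theorem G2_sum_right {S : Finset G} (hS : IsGrp S) {h : G} (hh : h ∈ S) {M : Type} [AddCommMonoid M]
    (f : G → M) : ∑ k ∈ S, f (k * h) = ∑ k ∈ S, f k := by
  refine Finset.sum_nbij' (fun k => k * h) (fun k => k * h⁻¹) ?_ ?_ ?_ ?_ ?_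
  · intro k hk
    exact hS.mul _ hk _ hh
  · intro k hk
    exact hS.mul _ hk _ (hS.inv _ hh)
  · intro k _
    simp
  · intro k _
    simp
  · intro k _
    rfl

theorem G2_sum_inv {S : Finset G} (hS : IsGrp S) {M : Type} [AddCommMonoid M]
    (f : G → M) : ∑ k ∈ S, f k⁻¹ = ∑ k ∈ S, f k := by
  refine Finset.sum_nbij' (fun k => k⁻¹) (fun k => k⁻¹) ?_ ?_ ?_ ?_ ?_
  · intro k hk
    exact hS.inv _ hk
  · intro k hk
    exact hS.inv _ hk
  · intro k _
    simp
  · intro k _
    simp
  · intro k _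
    rfl

theorem G2_Lm_mul_avL {S : Finset G} (hS : IsGrp S) {h : G} (hh : h ∈ S) : Lm h * avL S = avL S := by
  unfold avL
  rw [Matrix.mul_smul, Matrix.mul_sum]
  congr 1
  rw [← G2_sum_left hS hh (fun k => Lm k)]
  exact Finset.sum_congr rfl fun k _ => (Lm_mul h k).symm

theorem G2_avL_mul_Lm {S : Finset G} (hS : IsGrp S) {h : G} (hh : h ∈ S) : avL S * Lm h = avL S := by
  unfold avL
  rw [Matrix.smul_mul, Matrix.sum_mul]
  congr 1
  rw [← G2_sum_right hS hh (fun k => Lm k)]
  exact Finset.sum_congr rfl fun k _ => (Lm_mul k h).symm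

theorem G2_avR_mul_Rm {S : Finset G} (hS : IsGrp S) {h : G} (hh : h ∈ S) : Rm h * avR S = avR S := by
  unfold avR
  rw [Matrix.mul_smul, Matrix.mul_sum]
  congr 1
  rw [← G2_sum_left hS hh (fun k => Rm k)]
  exact Finset.sum_congr rfl fun k _ => (Rm_mul h k).symm

/-- a sum of equal terms divided by their number -/
theorem G2_const {S : Finset G} (hS : IsGrp S) {M : Type} [AddCommGroup M] [Module ℝ M] (f : G → M) (a : M)
    (h : ∀ k ∈ S, f k = a) : ((S.card : ℝ))⁻¹ • ∑ k ∈ S, f k = a := by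
  rw [Finset.sum_congr rfl h, Finset.sum_const, ← Nat.cast_smul_eq_nsmul ℝ, smul_smul,
    inv_mul_cancel₀ (G2_card hS), one_smul]

theorem avL_isPr {S : Finset G} (hS : IsGrp S) : IsPr (avL S) := by
  constructor
  · unfold avL
    rw [Matrix.transpose_smul, Matrix.transpose_sum]
    congr 1
    rw [← G2_sum_inv hS (fun k => Lm k)]
    exact Finset.sum_congr rfl fun k _ => Lm_transpose k
  · have e : avL S * avL S = ((S.card : ℝ))⁻¹ • ∑ h ∈ S, Lm h * avL S := by
      conv_lhs => lhs; unfold avL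
      rw [Matrix.smul_mul, Matrix.sum_mul]
    rw [e]
    exact G2_const hS _ _ fun k hk => G2_Lm_mul_avL hS hk

theorem avR_isPr {S : Finset G} (hS : IsGrp S) : IsPr (avR S) := by
  constructor
  · unfold avR
    rw [Matrix.transpose_smul, Matrix.transpose_sum]
    congr 1
    rw [← G2_sum_inv hS (fun k => Rm k)]
    exact Finset.sum_congr rfl fun k _ => Rm_transpose k
  · have e : avR S * avR S = ((S.card : ℝ))⁻¹ • ∑ h ∈ S, Rm h * avR S := by
      conv_lhs => lhs; unfold avR
      rw [Matrix.smul_mul, Matrix.sum_mul]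
    rw [e]
    exact G2_const hS _ _ fun k hk => G2_avR_mul_Rm hS hk

theorem avL_commR (S : Finset G) : CommR (avL S) := by
  intro g
  unfold avL
  exact (Commute.sum_left S _ _ fun h _ => (Rm_Lm_comm g h).symm).smul_left _

theorem avR_commL (S : Finset G) : CommL (avR S) := by
  intro g
  unfold avR
  exact (Commute.sum_left S _ _ fun h _ => Rm_Lm_comm h g).smul_left _

/-- The range of `avL S` consists of the vectors fixed by the left translations in `S`. -/
theorem avL_mulVec_eq_iff {S : Finset G} (hS : IsGrp S) (f : G → ℝ) :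
    avL S *ᵥ f = f ↔ ∀ h ∈ S, Lm h *ᵥ f = f := by
  constructor
  · intro e h hh
    calc Lm h *ᵥ f = Lm h *ᵥ (avL S *ᵥ f) := by rw [e]
      _ = (Lm h * avL S) *ᵥ f := by rw [Matrix.mulVec_mulVec]
      _ = avL S *ᵥ f := by rw [G2_Lm_mul_avL hS hh]
      _ = f := e
  · intro e
    have e2 : avL S *ᵥ f = ((S.card : ℝ))⁻¹ • ∑ h ∈ S, Lm h *ᵥ f := by
      unfold avL
      rw [Matrix.smul_mulVec, Matrix.sum_mulVec]
    rw [e2]
    exact G2_const hS _ _ e

theorem Lm_mul_avL {S : Finset G} (hS : IsGrp S) {h : G} (hh : h ∈ S) : Lm h * avL S = avL S :=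
  G2_Lm_mul_avL hS hh

theorem G2_trace_Lm (h : G) : (Lm h).trace = if h = 1 then (Fintype.card G : ℝ) else 0 := by
  unfold Matrix.trace
  have e : ∀ x : G, (Lm h).diag x = if h = 1 then (1 : ℝ) else 0 := by
    intro x
    rw [Matrix.diag_apply]
    unfold Lm
    rw [Matrix.of_apply]
    refine if_congr ?_ rfl rfl
    constructor
    · intro e
      have e2 : h⁻¹ * x = 1 * x := by rw [one_mul]; exact e.symm
      exact inv_eq_one.1 (mul_right_cancel e2)
    · intro e
      rw [e, inv_one, one_mul]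
  rw [Finset.sum_congr rfl fun x _ => e x]
  by_cases h1 : h = 1
  · simp [h1]
  · simp [h1]

theorem trace_avL {S : Finset G} (hS : IsGrp S) : (avL S).trace = (Fintype.card G : ℝ) / (S.card : ℝ) := by
  unfold avL
  rw [Matrix.trace_smul, Matrix.trace_sum, Finset.sum_congr rfl fun h _ => G2_trace_Lm h,
    Finset.sum_ite_eq' S (1 : G) (fun _ => (Fintype.card G : ℝ)), if_pos hS.one, smul_eq_mul]
  rw [div_eq_inv_mul]

/-- `S ⊆ S'`: the average over the larger group absorbs the smaller one. -/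
theorem avL_mul_avL_of_subset {S S' : Finset G} (hS : IsGrp S) (hS' : IsGrp S') (h : S ⊆ S') :
    avL S' * avL S = avL S' ∧ avL S * avL S' = avL S' := by
  constructor
  · have e : avL S' * avL S = ((S.card : ℝ))⁻¹ • ∑ k ∈ S, avL S' * Lm k := by
      conv_lhs => rhs; unfold avL
      rw [Matrix.mul_smul, Matrix.mul_sum]
    rw [e]
    exact G2_const hS _ _ fun k hk => G2_avL_mul_Lm hS' (h hk)
  · have e : avL S * avL S' = ((S.card : ℝ))⁻¹ • ∑ k ∈ S, Lm k * avL S' := by
      conv_lhs => lhs; unfold avL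
      rw [Matrix.smul_mul, Matrix.sum_mul]
    rw [e]
    exact G2_const hS _ _ fun k hk => G2_Lm_mul_avL hS' (h hk)

end Pool.Agent.BC5
end

section
set_option autoImplicit false
set_option linter.unusedSectionVars false
set_option linter.unusedVariables false
open scoped BigOperators Matrix
open Matrix
namespace Pool.Agent.BC5

/-
ROW G3. Entries: (avg Rm) x y = card⁻¹ #{g : y = x*g} = card⁻¹. Jm projection; minimal: F ≤ Jm projection: F = Jm F Jm = (entry sum) multiple of Jm: F = c•Jm, F² = F ⇒ c = 0 or 1.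
(Jm*F = F and F symmetric ⇒ F*Jm = F; Jm*F*Jm = (∑ F x y / card) • Jm.)
-/

variable {G : Type} [Group G] [Fintype G] [DecidableEq G]

private theorem card_ne (G : Type) [Group G] [Fintype G] : (Fintype.card G : ℝ) ≠ 0 := by
  exact_mod_cast Fintype.card_ne_zero

theorem Jm_eq_avg_Rm : Jm G = avg (fun g : G => Rm g) := by
  ext x y
  have h : ∑ g : G, (if y = x * g then (1 : ℝ) else 0) = 1 := by
    rw [Finset.sum_eq_single (x⁻¹ * y)]
    · simp
    · intro b _ hb
      rw [if_neg]
      intro h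
      exact hb (by rw [h]; group)
    · intro h; exact absurd (Finset.mem_univ _) h
  simp only [avg, Matrix.smul_apply, Matrix.sum_apply, Rm, Jm, Matrix.of_apply, h, smul_eq_mul, mul_one]

theorem Jm_eq_avg_Lm : Jm G = avg (fun g : G => Lm g) := by
  ext x y
  have h : ∑ g : G, (if y = g⁻¹ * x then (1 : ℝ) else 0) = 1 := by
    rw [Finset.sum_eq_single (x * y⁻¹)]
    · simp
    · intro b _ hb
      rw [if_neg]
      intro h
      exact hb (by rw [h]; group)
    · intro h; exact absurd (Finset.mem_univ _) h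
  simp only [avg, Matrix.smul_apply, Matrix.sum_apply, Lm, Jm, Matrix.of_apply, h, smul_eq_mul, mul_one]

private theorem Jm_tr : (Jm G)ᵀ = Jm G := rfl

private theorem Lm_mul_Jm (g : G) : Lm g * Jm G = Jm G := by
  ext x y
  simp [Lm, Jm, Matrix.mul_apply]

private theorem Jm_mul_Lm (g : G) : Jm G * Lm g = Jm G := by
  have h := congrArg Matrix.transpose (Lm_mul_Jm g⁻¹)
  rwa [Matrix.transpose_mul, Jm_tr, Lm_transpose, inv_inv] at h

private theorem Rm_mul_Jm (g : G) : Rm g * Jm G = Jm G := by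
  ext x y
  simp [Rm, Jm, Matrix.mul_apply]

private theorem Jm_mul_Rm (g : G) : Jm G * Rm g = Jm G := by
  have h := congrArg Matrix.transpose (Rm_mul_Jm g⁻¹)
  rwa [Matrix.transpose_mul, Jm_tr, Rm_transpose, inv_inv] at h

private theorem Jm_mul_Jm : Jm G * Jm G = Jm G := by
  ext x y
  simp only [Matrix.mul_apply, Jm, Matrix.of_apply, Finset.sum_const, Finset.card_univ, nsmul_eq_mul]
  rw [← mul_assoc, mul_inv_cancel₀ (card_ne G), one_mul]

theorem Jm_isBlock : IsBlock (Jm G) := by
  refine ⟨⟨Jm_tr, Jm_mul_Jm⟩, fun g => ?_, fun g => ?_, ?_, ?_⟩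
  · show Jm G * Lm g = Lm g * Jm G
    rw [Jm_mul_Lm, Lm_mul_Jm]
  · show Jm G * Rm g = Rm g * Jm G
    rw [Jm_mul_Rm, Rm_mul_Jm]
  · intro h
    have h1 := congrFun (congrFun h (1 : G)) (1 : G)
    simp only [Jm, Matrix.of_apply, Matrix.zero_apply] at h1
    exact inv_ne_zero (card_ne G) h1
  · intro F hF _ _ hJ
    have h1 : ∀ x y : G, F x y = F 1 y := by
      intro x y
      conv_lhs => rw [← hJ]
      conv_rhs => rw [← hJ]
      simp only [Matrix.mul_apply, Jm, Matrix.of_apply]
    have h2 : ∀ x y : G, F x y = F y x := by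
      intro x y
      exact (congrFun (congrFun hF.1 x) y).symm
    have h3 : ∀ x y : G, F x y = F 1 1 := by
      intro x y
      rw [h1 x y, h2 1 y, h1 y 1]
    have h4 : F 1 1 = (Fintype.card G : ℝ) * (F 1 1 * F 1 1) := by
      have h5 := congrFun (congrFun hF.2 (1 : G)) (1 : G)
      rw [Matrix.mul_apply, Finset.sum_congr rfl (fun z _ => by rw [h3 1 z, h3 z 1]), Finset.sum_const,
        Finset.card_univ, nsmul_eq_mul] at h5
      exact h5.symm
    by_cases h0 : F 1 1 = 0
    · left
      ext x y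
      rw [h3, h0, Matrix.zero_apply]
    · right
      have h6 : F 1 1 = ((Fintype.card G : ℝ))⁻¹ := by
        have h7 : (Fintype.card G : ℝ) * F 1 1 = 1 := by
          apply mul_right_cancel₀ h0
          rw [one_mul, mul_assoc]
          exact h4.symm
        exact eq_inv_of_mul_eq_one_right h7
      ext x y
      rw [h3, h6]
      rfl

theorem trace_Jm : (Jm G).trace = 1 := by
  simp only [Matrix.trace, Matrix.diag, Jm, Matrix.of_apply, Finset.sum_const, Finset.card_univ, nsmul_eq_mul]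
  exact mul_inv_cancel₀ (card_ne G)

theorem avL_mul_Jm {S : Finset G} (hS : IsGrp S) : avL S * Jm G = Jm G := by
  have hc : (S.card : ℝ) ≠ 0 := by
    have : S.card ≠ 0 := Finset.card_ne_zero_of_mem hS.one
    exact_mod_cast this
  rw [avL, Matrix.smul_mul, Matrix.sum_mul, Finset.sum_congr rfl (fun h _ => Lm_mul_Jm h), Finset.sum_const,
    ← Nat.cast_smul_eq_nsmul ℝ, smul_smul, inv_mul_cancel₀ hc, one_smul]

end Pool.Agent.BC5
end

section
set_option autoImplicit false
set_option linter.unusedSectionVars false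
set_option linter.unusedVariables false
open scoped BigOperators Matrix
open Matrix
namespace Pool.Agent.BC5

/-
ROW G4. Paper 2.1-2.3. block_eq_or_mul_eq_zero: E, F commute (commute_of_comm), EF is a bi-invariant projection with E(EF) = EF, F(EF) = EF, so EF ∈ {0,E} and EF ∈ {0,F}.
schur: exists_top M := Z, Q := E (they commute by commute_of_comm) gives P ≤ E which commutes with Lm g and Rm g (these commute with Z and E), so P = E by minimality, Z*E = lam•E,
trace gives lam = trace(Z*E)/trace E. schurR: Z := avg (Rm g * X * Rm g⁻¹) is symmetric (transpose of each term), commutes with all Rm h (reindex g → h g) and with all Lm;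
trace(Z*E) = trace(X*E) because E commutes with Rm g (cyclicity). schurL: the same with Lm (h: reindex g → g h).
-/

variable {G : Type} [Group G] [Fintype G] [DecidableEq G]

/-- Paper 2.1. -/
theorem block_eq_or_mul_eq_zero {E F : Matrix G G ℝ} (hE : IsBlock E) (hF : IsBlock F) : E = F ∨ E * F = 0 := by
  obtain ⟨pE, lE, rE, nE, mE⟩ := hE
  obtain ⟨pF, lF, rF, nF, mF⟩ := hF
  have hc : Commute E F := commute_of_comm rE lF
  have pEF : IsPr (E * F) := pE.mul pF hc
  have lEF : CommL (E * F) := fun g => (lE g).mul_left (lF g)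
  have rEF : CommR (E * F) := fun g => (rE g).mul_left (rF g)
  have h1 : E * (E * F) = E * F := by rw [← Matrix.mul_assoc, pE.2]
  have h2 : F * (E * F) = E * F := by rw [hc.eq, ← Matrix.mul_assoc, pF.2]
  rcases mE _ pEF lEF rEF h1 with h | h
  · exact Or.inr h
  · rcases mF _ pEF lEF rEF h2 with h' | h'
    · exact Or.inr h'
    · exact Or.inl (h.symm.trans h')

theorem block_trace_pos {E : Matrix G G ℝ} (hE : IsBlock E) : 1 ≤ E.trace := one_le_trace hE.1 hE.2.2.2.1

/-- Paper 2.2 (Schur). -/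
theorem schur {E Z : Matrix G G ℝ} (hE : IsBlock E) (hZ : Zᵀ = Z) (hL : CommL Z) (hR : CommR Z) :
    Z * E = ((Z * E).trace / E.trace) • E := by
  have hc : Commute Z E := commute_of_comm hR hE.2.1
  obtain ⟨lam, P, prP, neP, hEP, hZP, _, hcomm⟩ := exists_top Z E hZ hE.1 hE.2.2.2.1 hc
  have lP : CommL P := fun g => (hcomm (Lm g) (hL g).symm (hE.2.1 g).symm).symm
  have rP : CommR P := fun g => (hcomm (Rm g) (hR g).symm (hE.2.2.1 g).symm).symm
  have hPE : P = E := by
    rcases hE.2.2.2.2 P prP lP rP hEP with h | h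
    · exact absurd h neP
    · exact h
  rw [hPE] at hZP
  have htr : E.trace ≠ 0 := by
    have := block_trace_pos hE
    intro h0
    rw [h0] at this
    norm_num at this
  have h1 : (Z * E).trace / E.trace = lam := by
    rw [hZP, Matrix.trace_smul, smul_eq_mul]
    field_simp
  rw [h1, hZP]

theorem G4_transpose_avg (F : G → Matrix G G ℝ) (h : ∀ g, (F g)ᵀ = F g) : (avg F)ᵀ = avg F := by
  unfold avg
  rw [Matrix.transpose_smul, Matrix.transpose_sum]
  simp only [h]

theorem G4_mul_avg (A : Matrix G G ℝ) (F : G → Matrix G G ℝ) : A * avg F = avg (fun g => A * F g) := by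
  unfold avg
  rw [Matrix.mul_smul, Matrix.mul_sum]

theorem G4_avg_mul (A : Matrix G G ℝ) (F : G → Matrix G G ℝ) : avg F * A = avg (fun g => F g * A) := by
  unfold avg
  rw [Matrix.smul_mul, Matrix.sum_mul]

theorem G4_commute_avg (A : Matrix G G ℝ) (F : G → Matrix G G ℝ) (h : ∀ g, Commute (F g) A) :
    Commute (avg F) A := by
  show avg F * A = A * avg F
  rw [G4_mul_avg, G4_avg_mul]
  congr 1
  funext g
  exact (h g).eq

theorem G4_trace_avg (F : G → Matrix G G ℝ) (c : ℝ) (h : ∀ g, (F g).trace = c) : (avg F).trace = c := by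
  have h1 : (avg F).trace = avg (fun g : G => (F g).trace) := by
    unfold avg
    rw [Matrix.trace_smul, Matrix.trace_sum]
  rw [h1]
  simp only [h]
  exact avg_const c

/-- Paper 2.3, right version. -/
theorem schurR {E X : Matrix G G ℝ} (hE : IsBlock E) (hX : Xᵀ = X) (hL : CommL X) :
    avg (fun g : G => Rm g * X * Rm g⁻¹) * E = ((X * E).trace / E.trace) • E := by
  have hsym : (avg (fun g : G => Rm g * X * Rm g⁻¹))ᵀ = avg (fun g : G => Rm g * X * Rm g⁻¹) := by
    apply G4_transpose_avg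
    intro g
    rw [Matrix.transpose_mul, Matrix.transpose_mul, Rm_transpose, Rm_transpose, hX, inv_inv, Matrix.mul_assoc]
  have hCL : CommL (avg (fun g : G => Rm g * X * Rm g⁻¹)) := by
    intro h
    apply G4_commute_avg
    intro g
    exact ((Rm_Lm_comm g h).mul_left (hL h)).mul_left (Rm_Lm_comm g⁻¹ h)
  have hCR : CommR (avg (fun g : G => Rm g * X * Rm g⁻¹)) := by
    intro h
    have h1 : Rm h * avg (fun g : G => Rm g * X * Rm g⁻¹) * Rm h⁻¹ = avg (fun g : G => Rm g * X * Rm g⁻¹) := by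
      rw [G4_mul_avg, G4_avg_mul]
      have h2 := avg_equiv (Equiv.mulLeft h) (fun g : G => Rm g * X * Rm g⁻¹)
      refine Eq.trans ?_ h2
      congr 1
      funext g
      simp only [Equiv.coe_mulLeft]
      rw [Rm_mul, _root_.mul_inv_rev, Rm_mul]
      simp only [Matrix.mul_assoc]
    show avg (fun g : G => Rm g * X * Rm g⁻¹) * Rm h = Rm h * avg (fun g : G => Rm g * X * Rm g⁻¹)
    conv_lhs => rw [← h1]
    rw [Matrix.mul_assoc, Rm_inv_mul, Matrix.mul_one]
  have htr : (avg (fun g : G => Rm g * X * Rm g⁻¹) * E).trace = (X * E).trace := by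
    rw [G4_avg_mul]
    apply G4_trace_avg
    intro g
    have h1 : Rm g * X * Rm g⁻¹ * E = Rm g * (X * E) * Rm g⁻¹ := by
      rw [Matrix.mul_assoc (Rm g * X), ← (hE.2.2.1 g⁻¹).eq]
      simp only [Matrix.mul_assoc]
    rw [h1, Matrix.trace_mul_comm, ← Matrix.mul_assoc, Rm_inv_mul, Matrix.one_mul]
  rw [schur hE hsym hCL hCR, htr]

/-- Paper 2.3, left version. -/
theorem schurL {E X : Matrix G G ℝ} (hE : IsBlock E) (hX : Xᵀ = X) (hR : CommR X) :
    avg (fun g : G => Lm g⁻¹ * X * Lm g) * E = ((X * E).trace / E.trace) • E := by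
  have hsym : (avg (fun g : G => Lm g⁻¹ * X * Lm g))ᵀ = avg (fun g : G => Lm g⁻¹ * X * Lm g) := by
    apply G4_transpose_avg
    intro g
    rw [Matrix.transpose_mul, Matrix.transpose_mul, Lm_transpose, Lm_transpose, hX, inv_inv, Matrix.mul_assoc]
  have hCR : CommR (avg (fun g : G => Lm g⁻¹ * X * Lm g)) := by
    intro h
    apply G4_commute_avg
    intro g
    exact (((Rm_Lm_comm h g⁻¹).symm).mul_left (hR h)).mul_left (Rm_Lm_comm h g).symm
  have hCL : CommL (avg (fun g : G => Lm g⁻¹ * X * Lm g)) := by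
    intro h
    have h1 : Lm h⁻¹ * avg (fun g : G => Lm g⁻¹ * X * Lm g) * Lm h = avg (fun g : G => Lm g⁻¹ * X * Lm g) := by
      rw [G4_mul_avg, G4_avg_mul]
      have h2 := avg_equiv (Equiv.mulRight h) (fun g : G => Lm g⁻¹ * X * Lm g)
      refine Eq.trans ?_ h2
      congr 1
      funext g
      simp only [Equiv.coe_mulRight]
      rw [Lm_mul, _root_.mul_inv_rev, Lm_mul]
      simp only [Matrix.mul_assoc]
    show avg (fun g : G => Lm g⁻¹ * X * Lm g) * Lm h = Lm h * avg (fun g : G => Lm g⁻¹ * X * Lm g)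
    conv_rhs => rw [← h1]
    rw [Matrix.mul_assoc (Lm h⁻¹), ← Matrix.mul_assoc (Lm h), Lm_mul_inv, Matrix.one_mul]
  have htr : (avg (fun g : G => Lm g⁻¹ * X * Lm g) * E).trace = (X * E).trace := by
    rw [G4_avg_mul]
    apply G4_trace_avg
    intro g
    have h1 : Lm g⁻¹ * X * Lm g * E = Lm g⁻¹ * (X * E) * Lm g := by
      rw [Matrix.mul_assoc (Lm g⁻¹ * X), ← (hE.2.1 g).eq]
      simp only [Matrix.mul_assoc]
    rw [h1, Matrix.trace_mul_comm, ← Matrix.mul_assoc, Lm_mul_inv, Matrix.one_mul]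
  rw [schur hE hsym hCL hCR, htr]

end Pool.Agent.BC5
end

section
set_option autoImplicit false
set_option linter.unusedSectionVars false
set_option linter.unusedVariables false
open scoped BigOperators Matrix
open Matrix
namespace Pool.Agent.BC5

/-
ROW G5. Paper 2.4. Orthogonality: block_eq_or_mul_eq_zero. A finite set of distinct blocks has card ≤ card G (∑ E is a projection, trace ≤ card G because 1 - ∑E is a projection, each trace ≥ 1),
so the set of all blocks is finite (Set.Finite from a uniform bound for the finite subsets, e.g. Set.infinite.exists_subset_card_eq). Let B be this finset, R = 1 - ∑ E: a bi-invariant projection.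
If R ≠ 0: choose among the nonzero bi-invariant projections F with R*F = F one with minimal rank (or: choose by well-founded minimality of Nat.floor of the trace; the trace of a projection is a
natural number = rank; if F' ≤ F, F' ≠ F then trace F' ≤ trace F - 1 because F - F' is a nonzero projection); it is a block, so in B, so R*F = 0, contradiction.
-/

variable {G : Type} [Group G] [Fintype G] [DecidableEq G]

theorem G5_sum_mul (B : Finset (Matrix G G ℝ)) (hB : ∀ E ∈ B, IsBlock E) (E : Matrix G G ℝ) (hE : E ∈ B) :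
    (∑ F ∈ B, F) * E = E := by
  rw [Finset.sum_mul, Finset.sum_eq_single E]
  · exact (hB E hE).1.2
  · intro F hF hne
    rcases block_eq_or_mul_eq_zero (hB F hF) (hB E hE) with h | h
    · exact absurd h hne
    · exact h
  · intro h
    exact absurd hE h

theorem G5_sum_isPr (B : Finset (Matrix G G ℝ)) (hB : ∀ E ∈ B, IsBlock E) : IsPr (∑ E ∈ B, E) := by
  refine ⟨?_, ?_⟩
  · rw [Matrix.transpose_sum]
    exact Finset.sum_congr rfl fun E hE => (hB E hE).1.1
  · rw [Finset.mul_sum]
    exact Finset.sum_congr rfl fun E hE => G5_sum_mul B hB E hE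

theorem G5_card_le (B : Finset (Matrix G G ℝ)) (hB : ∀ E ∈ B, IsBlock E) : B.card ≤ Fintype.card G := by
  have h1 := trace_pr_nonneg (G5_sum_isPr B hB).compl
  rw [Matrix.trace_sub, Matrix.trace_one, Matrix.trace_sum] at h1
  have h2 : (B.card : ℝ) ≤ ∑ E ∈ B, E.trace := by
    calc (B.card : ℝ) = ∑ E ∈ B, (1 : ℝ) := by simp
      _ ≤ ∑ E ∈ B, E.trace := Finset.sum_le_sum fun E hE => block_trace_pos (hB E hE)
  have h3 : (B.card : ℝ) ≤ (Fintype.card G : ℝ) := by linarith only [h1, h2]
  exact_mod_cast h3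

/-- Below every nonzero bi-invariant projection there is a block. -/
theorem G5_exists_block (n : ℕ) : ∀ F : Matrix G G ℝ, IsPr F → CommL F → CommR F → F ≠ 0 → F.trace ≤ n →
    ∃ E, IsBlock E ∧ F * E = E := by
  induction n with
  | zero =>
    intro F hF _ _ hne htr
    have := one_le_trace hF hne
    rw [Nat.cast_zero] at htr
    exact absurd htr (by linarith only [this])
  | succ n ih =>
    intro F hF hL hR hne htr
    by_cases hb : ∀ F' : Matrix G G ℝ, IsPr F' → CommL F' → CommR F' → F * F' = F' → F' = 0 ∨ F' = F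
    · exact ⟨F, ⟨hF, hL, hR, hne, hb⟩, hF.2⟩
    · push Not at hb
      obtain ⟨F', hF', hL', hR', hmul, h0, h1⟩ := hb
      have hmul' : F' * F = F' := by
        have := congrArg Matrix.transpose hmul
        rwa [Matrix.transpose_mul, hF.1, hF'.1] at this
      have hsub : IsPr (F - F') := by
        refine ⟨by rw [Matrix.transpose_sub, hF.1, hF'.1], ?_⟩
        rw [Matrix.sub_mul, Matrix.mul_sub, Matrix.mul_sub, hF.2, hF'.2, hmul, hmul', sub_self, sub_zero]
      have htr' := one_le_trace hsub (sub_ne_zero.mpr (Ne.symm h1))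
      rw [Matrix.trace_sub] at htr'
      rw [Nat.cast_succ] at htr
      obtain ⟨E, hE, hFE⟩ := ih F' hF' hL' hR' h0 (by linarith only [htr, htr'])
      refine ⟨E, hE, ?_⟩
      rw [← hFE, ← Matrix.mul_assoc, hmul]

/-- Paper 2.4: the blocks form a finite orthogonal family with sum one. -/
theorem exists_blocks (G : Type) [Group G] [Fintype G] [DecidableEq G] :
    ∃ B : Finset (Matrix G G ℝ), (∀ E, E ∈ B ↔ IsBlock E) ∧ ∑ E ∈ B, E = 1 := by
  have hfin : {E : Matrix G G ℝ | IsBlock E}.Finite := by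
    by_contra hinf
    obtain ⟨B, hB, hc⟩ := Set.Infinite.exists_subset_card_eq hinf (Fintype.card G + 1)
    have := G5_card_le B (fun E hE => hB hE)
    omega
  refine ⟨hfin.toFinset, fun E => by simp, ?_⟩
  obtain ⟨B, hBdef⟩ : ∃ B, B = hfin.toFinset := ⟨_, rfl⟩
  have hB : ∀ E ∈ B, IsBlock E := by
    intro E hE
    rw [hBdef] at hE
    simpa using hE
  have hB' : ∀ E, IsBlock E → E ∈ B := by
    intro E hE
    rw [hBdef]
    simpa using hE
  rw [← hBdef]
  by_contra hne
  have hR : IsPr (1 - ∑ E ∈ B, E) := (G5_sum_isPr B hB).compl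
  have hRL : CommL (1 - ∑ E ∈ B, E) := fun g =>
    (Commute.one_left _).sub_left (Commute.sum_left _ _ _ fun E hE => (hB E hE).2.1 g)
  have hRR : CommR (1 - ∑ E ∈ B, E) := fun g =>
    (Commute.one_left _).sub_left (Commute.sum_left _ _ _ fun E hE => (hB E hE).2.2.1 g)
  have hR0 : (1 - ∑ E ∈ B, E) ≠ 0 := fun h => hne (sub_eq_zero.mp h).symm
  obtain ⟨n, hn⟩ := exists_nat_ge (1 - ∑ E ∈ B, E).trace
  obtain ⟨E, hE, hRE⟩ := G5_exists_block n _ hR hRL hRR hR0 hn
  rw [Matrix.sub_mul, Matrix.one_mul, G5_sum_mul B hB E (hB' E hE), sub_self] at hRE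
  exact hE.2.2.2.1 hRE.symm

end Pool.Agent.BC5
end

section
set_option autoImplicit false
set_option linter.unusedSectionVars false
set_option linter.unusedVariables false
open scoped BigOperators Matrix
open Matrix
namespace Pool.Agent.BC5

/-
ROW G6. Paper 2.5. E x y = e(x*y⁻¹) with e x := E x 1 (CommR), e(h x h⁻¹) = e x (CommL), e x⁻¹ = e x (symmetric). trace(E*Rm g) = ∑_y E (y*g) y = card•e(g); trace(E*Lm g) = ∑ e(g⁻¹).
trace_mul_Lm_conj: Lm (hgh⁻¹) = Lm h Lm g Lm h⁻¹, cyclicity, E commutes with Lm h.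
-/

variable {G : Type} [Group G] [Fintype G] [DecidableEq G]

theorem G6_mul_Rm (E : Matrix G G ℝ) (g x y : G) : (E * Rm g) x (y * g) = E x y := by
  rw [Matrix.mul_apply, Finset.sum_eq_single y]
  · simp [Rm]
  · intro b _ hb
    have : y * g ≠ b * g := fun h => hb (mul_right_cancel h).symm
    simp [Rm, this]
  · intro h
    exact absurd (Finset.mem_univ y) h

theorem G6_Rm_mul (E : Matrix G G ℝ) (g x y : G) : (Rm g * E) x y = E (x * g) y := by
  rw [Matrix.mul_apply, Finset.sum_eq_single (x * g)]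
  · simp [Rm]
  · intro b _ hb
    simp [Rm, hb]
  · intro h
    exact absurd (Finset.mem_univ _) h

theorem G6_mul_Lm (E : Matrix G G ℝ) (g x y : G) : (E * Lm g) x y = E x (g * y) := by
  rw [Matrix.mul_apply, Finset.sum_eq_single (g * y)]
  · simp [Lm]
  · intro b _ hb
    have : y ≠ g⁻¹ * b := fun h => hb (by rw [h]; group)
    simp [Lm, this]
  · intro h
    exact absurd (Finset.mem_univ _) h

theorem G6_Lm_mul (E : Matrix G G ℝ) (g x y : G) : (Lm g * E) x y = E (g⁻¹ * x) y := by
  rw [Matrix.mul_apply, Finset.sum_eq_single (g⁻¹ * x)]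
  · simp [Lm]
  · intro b _ hb
    simp [Lm, hb]
  · intro h
    exact absurd (Finset.mem_univ _) h

theorem G6_R {E : Matrix G G ℝ} (hR : CommR E) (g x y : G) : E (x * g) (y * g) = E x y := by
  rw [← G6_Rm_mul E g x (y * g), ← (hR g).eq, G6_mul_Rm]

theorem G6_L {E : Matrix G G ℝ} (hL : CommL E) (g x y : G) : E (g * x) (g * y) = E x y := by
  rw [← G6_mul_Lm E g (g * x) y, (hL g).eq, G6_Lm_mul, inv_mul_cancel_left]

/-- Paper 2.5. -/
theorem trace_mul_Rm {E : Matrix G G ℝ} (hE : Eᵀ = E) (hL : CommL E) (hR : CommR E) (g : G) :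
    (E * Rm g).trace = (E * Lm g).trace := by
  unfold Matrix.trace
  refine Finset.sum_congr rfl fun x _ => ?_
  rw [Matrix.diag_apply, Matrix.diag_apply, G6_mul_Lm]
  have h1 : (E * Rm g) x x = E x (x * g⁻¹) := by
    have := G6_mul_Rm E g x (x * g⁻¹)
    rwa [inv_mul_cancel_right] at this
  have h2 : E x (x * g⁻¹) = E 1 g⁻¹ := by
    have := G6_L hL x 1 g⁻¹
    rwa [mul_one] at this
  have h3 : E x (g * x) = E 1 g := by
    have := G6_R hR x 1 g
    rwa [one_mul] at this
  have h4 : E 1 g⁻¹ = E g 1 := by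
    have := G6_L hL g 1 g⁻¹
    rw [mul_one, mul_inv_cancel] at this
    exact this.symm
  have h5 : E g 1 = E 1 g := congrFun (congrFun hE 1) g
  rw [h1, h2, h3, h4, h5]

theorem trace_mul_Lm_conj {E : Matrix G G ℝ} (hL : CommL E) (g h : G) :
    (E * Lm (h * g * h⁻¹)).trace = (E * Lm g).trace := by
  have e : E * Lm (h * g * h⁻¹) = Lm h * (E * Lm g * Lm h⁻¹) := by
    rw [Lm_mul, Lm_mul]
    calc E * (Lm h * Lm g * Lm h⁻¹) = (E * Lm h) * (Lm g * Lm h⁻¹) := by noncomm_ring
      _ = (Lm h * E) * (Lm g * Lm h⁻¹) := by rw [(hL h).eq]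
      _ = Lm h * (E * Lm g * Lm h⁻¹) := by noncomm_ring
  rw [e, Matrix.trace_mul_comm, mul_assoc, Lm_inv_mul, mul_one]

end Pool.Agent.BC5
end

section
set_option autoImplicit false
set_option linter.unusedSectionVars false
set_option linter.unusedVariables false
open scoped BigOperators Matrix
open Matrix
namespace Pool.Agent.BC5

/-
ROW G7. Paper 2.6. t := trace(avL S * E) (E commutes with avL S; avL S * E is a nonzero projection so t ≥ 1). schurL with X = avR? careful: conjugate avL by Lm: trace(E*avL*avR) = trace(E * (Lm g⁻¹ avL Lm g) * avR) for all g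
(E, avR commute with Lm g), average over g, schurL (X := avL S, CommR): = (t/trace E) trace(E*avR S), and trace(E*avR S) = trace(E*avL S) = t by trace_mul_Rm. So trace(E avL avR) = t²/trace E > 0, it is the
trace of a projection ≠ 0, so ≥ 1: trace E ≤ t². And t ≤ trace(avL S) = card G/card S since avL S - avL S * E is a projection. block_card_le: ∑_{E ∈ B} avL S * E is a projection (pairwise orthogonal) ≤ avL S, each term has trace ≥ 1.
-/

variable {G : Type} [Group G] [Fintype G] [DecidableEq G]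

theorem G7_trace_le {P : Matrix G G ℝ} (hP : IsPr P) {A : Matrix G G ℝ} (hA : IsPr A) (hc : Commute A P) :
    (A * P).trace ≤ A.trace := by
  have h1 : IsPr (A * (1 - P)) := hA.mul hP.compl ((Commute.one_right A).sub_right hc)
  have h2 := trace_pr_nonneg h1
  rw [mul_sub, mul_one, Matrix.trace_sub] at h2
  linarith

theorem G7_trace_avR {E : Matrix G G ℝ} (hE : Eᵀ = E) (hL : CommL E) (hR : CommR E) (S : Finset G) :
    (E * avR S).trace = (E * avL S).trace := by
  unfold avR avL
  rw [Matrix.mul_smul, Matrix.mul_smul, Matrix.trace_smul, Matrix.trace_smul, Finset.mul_sum, Finset.mul_sum,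
    Matrix.trace_sum, Matrix.trace_sum]
  congr 1
  exact Finset.sum_congr rfl fun g _ => trace_mul_Rm hE hL hR g

theorem G7_conj {E R : Matrix G G ℝ} (hL : CommL E) (hRL : CommL R) (A : Matrix G G ℝ) (g : G) :
    ((Lm g⁻¹ * A * Lm g) * E * R).trace = (A * E * R).trace := by
  have e1 : (Lm g⁻¹ * A * Lm g) * E * R = Lm g⁻¹ * (A * E * R * Lm g) := by
    calc (Lm g⁻¹ * A * Lm g) * E * R = Lm g⁻¹ * A * (Lm g * E) * R := by noncomm_ring
      _ = Lm g⁻¹ * A * (E * Lm g) * R := by rw [← (hL g).eq]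
      _ = Lm g⁻¹ * A * E * (Lm g * R) := by noncomm_ring
      _ = Lm g⁻¹ * A * E * (R * Lm g) := by rw [← (hRL g).eq]
      _ = Lm g⁻¹ * (A * E * R * Lm g) := by noncomm_ring
  rw [e1, Matrix.trace_mul_comm, mul_assoc, Lm_mul_inv, mul_one]

/-- Paper 2.6 (b). -/
theorem block_trace_le {E : Matrix G G ℝ} (hE : IsBlock E) {S : Finset G} (hS : IsGrp S) (h : avL S * E ≠ 0) :
    E.trace ≤ ((Fintype.card G : ℝ) / (S.card : ℝ)) ^ 2 := by
  have hPr := hE.1
  have hL := hE.2.1
  have hR := hE.2.2.1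
  have hA := avL_isPr hS
  have hB := avR_isPr hS
  have cAE : Commute (avL S) E := commute_of_comm (avL_commR S) hL
  have cAB : Commute (avL S) (avR S) := commute_of_comm (avL_commR S) (avR_commL S)
  have cEB : Commute E (avR S) := commute_of_comm hR (avR_commL S)
  have hAE : IsPr (avL S * E) := hA.mul hPr cAE
  have ht1 : 1 ≤ (avL S * E).trace := one_le_trace hAE h
  have hE1 : 1 ≤ E.trace := block_trace_pos hE
  have hAEB : IsPr (avL S * E * avR S) := hAE.mul hB (cAB.mul_left cEB)
  have haveq : (avL S * E * avR S).trace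
      = (avg (fun g : G => Lm g⁻¹ * avL S * Lm g) * E * avR S).trace := by
    have hlin : ∀ M : Matrix G G ℝ, (M * E * avR S).trace
        = ((Matrix.traceLinearMap G ℝ ℝ).comp
            ((LinearMap.mulRight ℝ (avR S)).comp (LinearMap.mulRight ℝ E))) M := by
      intro M
      simp [Matrix.traceLinearMap]
    rw [hlin (avg _), map_avg]
    have : (fun a : G => ((Matrix.traceLinearMap G ℝ ℝ).comp
            ((LinearMap.mulRight ℝ (avR S)).comp (LinearMap.mulRight ℝ E))) (Lm a⁻¹ * avL S * Lm a))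
        = fun _ : G => (avL S * E * avR S).trace := by
      funext g
      rw [← hlin]
      exact G7_conj hL (avR_commL S) (avL S) g
    rw [this, avg_const]
  have hsch := schurL hE hA.1 (avL_commR S)
  rw [hsch, Matrix.smul_mul, Matrix.trace_smul, G7_trace_avR hPr.1 hL hR S, smul_eq_mul,
    ← cAE.eq] at haveq
  have hEpos : 0 < E.trace := by linarith
  have hpos : 0 < (avL S * E * avR S).trace := by
    rw [haveq]
    have : 0 < (avL S * E).trace := by linarith
    positivity
  have hne : avL S * E * avR S ≠ 0 := by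
    intro h0
    rw [h0, Matrix.trace_zero] at hpos
    exact lt_irrefl _ hpos
  have h1 := one_le_trace hAEB hne
  rw [haveq] at h1
  have h2 : E.trace ≤ (avL S * E).trace * (avL S * E).trace := by
    have h3 : (avL S * E).trace / E.trace * (avL S * E).trace
        = ((avL S * E).trace * (avL S * E).trace) / E.trace := by ring
    rw [h3, le_div_iff₀ hEpos] at h1
    linarith
  have h4 : (avL S * E).trace ≤ (Fintype.card G : ℝ) / (S.card : ℝ) := by
    rw [← trace_avL hS]
    exact G7_trace_le hPr hA cAE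
  calc E.trace ≤ (avL S * E).trace * (avL S * E).trace := h2
    _ ≤ ((Fintype.card G : ℝ) / (S.card : ℝ)) * ((Fintype.card G : ℝ) / (S.card : ℝ)) :=
        mul_le_mul h4 h4 (by linarith) (by linarith)
    _ = ((Fintype.card G : ℝ) / (S.card : ℝ)) ^ 2 := by ring

theorem G7_sum_isPr (B : Finset (Matrix G G ℝ)) (hB : ∀ E ∈ B, IsBlock E) :
    IsPr (∑ E ∈ B, E) := by
  constructor
  · rw [Matrix.transpose_sum]
    exact Finset.sum_congr rfl fun E hE => (hB E hE).1.1
  · rw [Finset.sum_mul_sum]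
    refine Finset.sum_congr rfl fun E hE => ?_
    rw [Finset.sum_eq_single_of_mem E hE]
    · exact (hB E hE).1.2
    · intro F hF hne
      rcases block_eq_or_mul_eq_zero (hB E hE) (hB F hF) with h | h
      · exact absurd h.symm hne
      · exact h

/-- Paper 2.6 (a). -/
theorem block_card_le {S : Finset G} (hS : IsGrp S) (B : Finset (Matrix G G ℝ))
    (hB : ∀ E ∈ B, IsBlock E ∧ avL S * E ≠ 0) :
    (B.card : ℝ) ≤ (Fintype.card G : ℝ) / (S.card : ℝ) := by
  have hA := avL_isPr hS
  have hP := G7_sum_isPr B fun E hE => (hB E hE).1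
  have hc : Commute (avL S) (∑ E ∈ B, E) :=
    Commute.sum_right _ _ _ fun E hE => commute_of_comm (avL_commR S) (hB E hE).1.2.1
  have h1 := G7_trace_le hP hA hc
  rw [trace_avL hS, Finset.mul_sum, Matrix.trace_sum] at h1
  refine le_trans ?_ h1
  have h2 : ∀ E ∈ B, (1 : ℝ) ≤ (avL S * E).trace := by
    intro E hE
    refine one_le_trace (hA.mul (hB E hE).1.1 ?_) (hB E hE).2
    exact commute_of_comm (avL_commR S) (hB E hE).1.2.1
  calc (B.card : ℝ) = ∑ E ∈ B, (1 : ℝ) := by simp
    _ ≤ ∑ E ∈ B, (avL S * E).trace := Finset.sum_le_sum h2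

end Pool.Agent.BC5
end

section
set_option autoImplicit false
set_option linter.unusedSectionVars false
set_option linter.unusedVariables false
open scoped BigOperators Matrix
open Matrix
namespace Pool.Agent.BC5

/-
ROW G8. Paper 2.7. exists_top (M := T, Q := E): lam, P commuting with all Lm g (T and E do). trace(P * avL S) = trace(P * Lm g⁻¹ avL S Lm g) for all g, so by averaging and schurL (P = P*E = E*P):
= trace(avL S * E)/trace E * trace P > 0. So P*avL S ≠ 0: some u with f := P (avL S u) ≠ 0; P and avL S commute (P commutes with Lm), so P f = f, avL S f = f, E f = f, qf T f = lam f·f ≤ c f·f ⇒ lam ≤ c.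
-/

variable {G : Type} [Group G] [Fintype G] [DecidableEq G]

theorem G8_commL_avL {E : Matrix G G ℝ} (hE : CommL E) (S : Finset G) : Commute E (avL S) := by
  unfold avL
  refine Commute.smul_right ?_ _
  exact Commute.sum_right _ _ _ fun h _ => hE h

theorem G8_trace_conj {P X : Matrix G G ℝ} (hP : CommL P) (g : G) :
    (P * (Lm g⁻¹ * X * Lm g)).trace = (P * X).trace := by
  have h1 : (P * (Lm g⁻¹ * X * Lm g)).trace = (Lm g * (P * Lm g⁻¹) * X).trace := by
    have e : P * (Lm g⁻¹ * X * Lm g) = (P * Lm g⁻¹ * X) * Lm g := by noncomm_ring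
    rw [e, Matrix.trace_mul_comm]
    congr 1
    noncomm_ring
  rw [h1, (hP g⁻¹).eq, ← Matrix.mul_assoc, Lm_mul_inv, Matrix.one_mul]

theorem G8_trace_avg {P X : Matrix G G ℝ} (hP : CommL P) :
    (P * avg (fun g : G => Lm g⁻¹ * X * Lm g)).trace = (P * X).trace := by
  have hc : (Fintype.card G : ℝ) ≠ 0 := by
    have : 0 < Fintype.card G := Fintype.card_pos
    positivity
  unfold avg
  rw [Matrix.mul_smul, Matrix.trace_smul, Matrix.mul_sum, Matrix.trace_sum]
  rw [Finset.sum_congr rfl fun g _ => G8_trace_conj (X := X) hP g]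
  simp [hc]

/-- Paper 2.7 (transfer). -/
theorem transfer {E T : Matrix G G ℝ} {S : Finset G} {c : ℝ} (hE : IsBlock E) (hS : IsGrp S) (h : avL S * E ≠ 0)
    (hT : Tᵀ = T) (hTL : CommL T) (hTE : Commute T E)
    (hc : ∀ f, E *ᵥ f = f → avL S *ᵥ f = f → qf T f ≤ c * (f ⬝ᵥ f)) :
    ∀ f, E *ᵥ f = f → qf T f ≤ c * (f ⬝ᵥ f) := by
  obtain ⟨lam, P, hP, hPne, hEP, hTP, hle, hcomm⟩ := exists_top T E hT hE.1 hE.2.2.2.1 hTE
  have hPL : CommL P := fun g => (hcomm (Lm g) (hTL g).symm (hE.2.1 g).symm).symm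
  have hPS : Commute P (avL S) := G8_commL_avL hPL S
  have hES : Commute E (avL S) := G8_commL_avL hE.2.1 S
  have hPE : P * E = P := by
    have h1 := congrArg Matrix.transpose hEP
    rw [Matrix.transpose_mul, hP.1, hE.1.1] at h1
    exact h1
  have hpr : IsPr (avL S * E) := (avL_isPr hS).mul hE.1 hES.symm
  have ht1 : 1 ≤ (avL S * E).trace := one_le_trace hpr h
  have ht2 : 1 ≤ E.trace := block_trace_pos hE
  have ht3 : 1 ≤ P.trace := one_le_trace hP hPne
  have hsch := schurL hE (avL_isPr hS).1 (avL_commR S)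
  have htr : (P * avL S).trace = (avL S * E).trace / E.trace * P.trace := by
    rw [← G8_trace_avg (X := avL S) hPL]
    obtain ⟨A, hA⟩ : ∃ A, A = avg (fun g : G => Lm g⁻¹ * avL S * Lm g) := ⟨_, rfl⟩
    rw [← hA] at hsch ⊢
    calc (P * A).trace = (E * (P * A)).trace := by rw [← Matrix.mul_assoc, hEP]
      _ = (P * (A * E)).trace := by rw [Matrix.trace_mul_comm, Matrix.mul_assoc]
      _ = (avL S * E).trace / E.trace * (P * E).trace := by
        rw [hsch, Matrix.mul_smul, Matrix.trace_smul, smul_eq_mul]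
      _ = (avL S * E).trace / E.trace * P.trace := by rw [hPE]
  have hne : P * avL S ≠ 0 := by
    intro h0
    rw [h0, Matrix.trace_zero] at htr
    have : 0 < (avL S * E).trace / E.trace * P.trace := by positivity
    linarith
  obtain ⟨u, hu⟩ : ∃ u, (P * avL S) *ᵥ u ≠ 0 := by
    by_contra hcon
    push Not at hcon
    exact hne (ext_mulVec fun f => by rw [hcon f, Matrix.zero_mulVec])
  obtain ⟨w, hw⟩ : ∃ w, w = (P * avL S) *ᵥ u := ⟨_, rfl⟩
  rw [← hw] at hu
  have hPw : P *ᵥ w = w := by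
    rw [hw, Matrix.mulVec_mulVec, ← Matrix.mul_assoc, hP.2]
  have hSw : avL S *ᵥ w = w := by
    rw [hw, hPS.eq, Matrix.mulVec_mulVec, ← Matrix.mul_assoc, (avL_isPr hS).2]
  have hEw : E *ᵥ w = w := by
    rw [hw, Matrix.mulVec_mulVec, ← Matrix.mul_assoc, hEP]
  have hTw : qf T w = lam * (w ⬝ᵥ w) := by
    have h1 : T *ᵥ w = lam • w := by
      conv_lhs => rw [← hPw]
      rw [Matrix.mulVec_mulVec, hTP, Matrix.smul_mulVec, hPw]
    unfold qf
    rw [h1, dotProduct_smul, smul_eq_mul]
  have hw0 := dot_self_pos hu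
  have hlam : lam ≤ c := by
    have h1 := hc w hEw hSw
    rw [hTw] at h1
    exact le_of_mul_le_mul_right h1 hw0
  intro f hf
  exact (hle f hf).trans (mul_le_mul_of_nonneg_right hlam (dot_self_nonneg f))

end Pool.Agent.BC5
end

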