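import Pool.Agent.Lib.MP_bc5a73_al.RankNum
import Pool.Agent.Lib.MP_bc5a73_al.Averages

section
set_option autoImplicit false
set_option linter.unusedSectionVars false
set_option linter.unusedVariables false
open scoped BigOperators Matrix
open Matrix
namespace Pool.Agent.BC5


theorem GN1_clog (r : ℝ) (hr : 1 ≤ r) : r ≤ 2 ^ Nat.clog 2 ⌈r⌉₊ ∧ (2 : ℝ) ^ Nat.clog 2 ⌈r⌉₊ ≤ 2 * r := by
  have h0 : r ≤ (⌈r⌉₊ : ℝ) := Nat.le_ceil r
  have h1 : ⌈r⌉₊ ≤ 2 ^ Nat.clog 2 ⌈r⌉₊ := Nat.le_pow_clog (by norm_num) _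
  have h1' : ((⌈r⌉₊ : ℕ) : ℝ) ≤ 2 ^ Nat.clog 2 ⌈r⌉₊ := by exact_mod_cast h1
  refine ⟨h0.trans h1', ?_⟩
  rcases Nat.lt_or_ge 1 ⌈r⌉₊ with h2 | h2
  · have h3 : 2 ^ (Nat.clog 2 ⌈r⌉₊ - 1) < ⌈r⌉₊ := Nat.pow_pred_clog_lt_self (by norm_num) h2
    have h4 : 1 ≤ Nat.clog 2 ⌈r⌉₊ := Nat.clog_pos (by norm_num) h2
    have h5 : (⌈r⌉₊ : ℝ) < r + 1 := Nat.ceil_lt_add_one (by linarith)
    have h6 : ((2 : ℝ) ^ (Nat.clog 2 ⌈r⌉₊ - 1)) + 1 ≤ (⌈r⌉₊ : ℝ) := by exact_mod_cast h3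
    have h7 : (2 : ℝ) ^ Nat.clog 2 ⌈r⌉₊ = 2 * 2 ^ (Nat.clog 2 ⌈r⌉₊ - 1) := by
      rw [← pow_succ']
      congr 1
      omega
    rw [h7]
    linarith
  · have h3 : Nat.clog 2 ⌈r⌉₊ = 0 := Nat.clog_of_right_le_one h2 _
    rw [h3]
    norm_num
    linarith

theorem GN1_exp (Y L : ℝ) (I M : ℕ) (hY : 0 < Y) (h1 : Y ≤ 2 ^ I * (L * Real.log 2)) (h2 : L < 4 * M) :
    Real.exp (2 * Y) < 2 ^ (2 ^ I * (2 * 8 * M)) := by
  have hl : 0 < Real.log 2 := Real.log_pos (by norm_num)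
  have hp : (0 : ℝ) < 2 ^ (2 ^ I * (2 * 8 * M)) := by positivity
  rw [← Real.exp_log hp]
  apply Real.exp_lt_exp.mpr
  rw [Real.log_pow]
  push_cast
  have hI : (0 : ℝ) < 2 ^ I := by positivity
  have h3 : 2 ^ I * (L * Real.log 2) < 2 ^ I * ((4 * M) * Real.log 2) :=
    mul_lt_mul_of_pos_left (mul_lt_mul_of_pos_right h2 hl) hI
  have h4 : (2 : ℝ) ^ I * (2 * 8 * (M : ℝ)) * Real.log 2 = 4 * (2 ^ I * ((4 * M) * Real.log 2)) := by ring
  linarith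

theorem GN1_logq (n q lam : ℕ) (hn : 2 ≤ n) (hq : 2 ≤ q) (hl : 2 ≤ lam) (h : q ^ (n - 1) ≤ 2 ^ (lam + 2)) :
    Real.log q ≤ 2 * (lam * Real.log 2) := by
  have hq1 : 1 ≤ q := by omega
  have h1 : q ≤ 2 ^ (lam + 2) := le_trans (Nat.le_self_pow (by omega) q) h
  have h1' : (q : ℝ) ≤ 2 ^ (lam + 2) := by exact_mod_cast h1
  have hq0 : (0 : ℝ) < q := by exact_mod_cast hq1
  have h2 := Real.log_le_log hq0 h1'
  rw [Real.log_pow] at h2
  push_cast at h2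
  have h3 : (2 : ℝ) ≤ lam := by exact_mod_cast hl
  have h4 : 0 < Real.log 2 := Real.log_pos (by norm_num)
  nlinarith

theorem GN1_I (n I : ℕ) (hn : 2 ≤ n) (h : (2 : ℝ) ^ I ≤ 4 * (n : ℝ) ^ 2) : (I : ℝ) ≤ 2 + 4 * Real.log n := by
  have hnr : (0 : ℝ) < n := by
    have : 0 < n := by omega
    exact_mod_cast this
  have h4 := Real.log_le_log (by positivity) h
  rw [Real.log_pow, Real.log_mul (by norm_num) (by positivity), Real.log_pow, show (4 : ℝ) = 2 ^ 2 by norm_num,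
    Real.log_pow] at h4
  push_cast at h4
  have h6 : (1 / 2 : ℝ) ≤ Real.log 2 := by have := Real.log_two_gt_d9; linarith
  have hn1 : (2 : ℝ) ≤ n := by exact_mod_cast hn
  have hln : 0 ≤ Real.log n := Real.log_nonneg (by linarith)
  by_contra hcon
  push Not at hcon
  have h8 : (4 * Real.log n) * Real.log 2 < ((I : ℝ) - 2) * Real.log 2 :=
    mul_lt_mul_of_pos_right (by linarith) (by linarith)
  nlinarith

theorem GN1_IJ (B I J a lam : ℕ) (Y D : ℝ) (ha : 10 ≤ a) (hlam : 0 < lam) (hD : 0 < D) (hY : 0 < Y) (hDa : D ≤ B * a)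
    (hI : (2 : ℝ) ^ I ≤ 2 * (Y / (lam * Real.log 2))) (hJ : 4 * (a : ℝ) * 2 ^ J ≤ lam) :
    (I : ℝ) + J ≤ 2 * (B + Real.log (1 + Y / D)) := by
  have hl : (1 / 2 : ℝ) ≤ Real.log 2 := by have := Real.log_two_gt_d9; linarith
  have har : (10 : ℝ) ≤ a := by exact_mod_cast ha
  have hlr : (0 : ℝ) < lam := by exact_mod_cast hlam
  have hBr : (0 : ℝ) < B := by
    have : 0 < (B : ℝ) * a := lt_of_lt_of_le hD hDa
    by_contra hc
    have h0 : (B : ℝ) = 0 := le_antisymm (not_lt.mp hc) (Nat.cast_nonneg B)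
    rw [h0] at this
    simp at this
  have hB1 : (1 : ℝ) ≤ B := by
    have : 0 < B := by exact_mod_cast hBr
    exact_mod_cast this
  have h1 : (2 : ℝ) ^ J ≤ lam / (4 * a) := by
    rw [le_div_iff₀ (by linarith)]
    linarith
  have h2 : (2 : ℝ) ^ (I + J) ≤ B * (Y / D) := by
    calc (2 : ℝ) ^ (I + J) = 2 ^ I * 2 ^ J := pow_add _ _ _
      _ ≤ (2 * (Y / (lam * Real.log 2))) * (lam / (4 * a)) := mul_le_mul hI h1 (by positivity) (by positivity)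
      _ = Y / (2 * Real.log 2 * a) := by
          field_simp
          ring
      _ ≤ Y / (1 * a) := by
          apply div_le_div_of_nonneg_left hY.le (by linarith)
          apply mul_le_mul_of_nonneg_right (by linarith) (by linarith)
      _ ≤ Y / (D / B) := by
          apply div_le_div_of_nonneg_left hY.le (by positivity)
          rw [div_le_iff₀ hBr]
          linarith
      _ = B * (Y / D) := by
          field_simp
  have h3 : B * (Y / D) ≤ B * (1 + Y / D) := by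
    apply mul_le_mul_of_nonneg_left _ hBr.le
    linarith
  have hYD : 0 < Y / D := div_pos hY hD
  have h4 := Real.log_le_log (by positivity) (h2.trans h3)
  rw [Real.log_pow, Real.log_mul hBr.ne' (by linarith)] at h4
  push_cast at h4
  have h5 : Real.log B ≤ B := Real.log_le_self hBr.le
  have h6 : ((I : ℝ) + J) * (1 / 2) ≤ ((I : ℝ) + J) * Real.log 2 :=
    mul_le_mul_of_nonneg_left hl (by positivity)
  linarith

theorem rank_num_sat (B : ℕ) : ∃ C : ℝ, 1 ≤ C ∧ ∃ L0 : ℕ, 2600 ≤ L0 ∧ ∀ (n q lam a k : ℕ) (Y : ℝ), 2 ≤ n → 2 ≤ q → 10 ≤ a →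
    L0 ≤ lam → q ^ (n - 1) ≤ 2 ^ (lam + 2) → 4 * a + 40 ≤ lam → lam ≤ B * n * a → (n : ℝ) + Real.log q ≤ B * a →
    k ≤ 2 ^ n * q ^ (n + 1) → lam * Real.log 2 ≤ Y → Y ≤ (n : ℝ) ^ 2 * Real.log q →
    ∃ N h I J : ℕ, 1 ≤ h ∧ 8 ≤ N ∧ 4 * a * 2 ^ J + 40 ≤ lam ∧ lam < 4 * a * 2 ^ (J + 1) + 40 ∧
      640 ≤ a * 2 ^ (J + 1) + 10 ∧ 96 * (h * (J + 2) + I) ≤ N ∧
      Real.exp (2 * Y) < 2 ^ (2 ^ I * (2 * h * (a * 2 ^ (J + 1) + 10))) ∧ (N : ℝ) ≤ C * Real.log n ∧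
      (N : ℝ) ≤ C * (1 + Real.log (1 + Y / ((n : ℝ) + Real.log q))) ∧
      (k : ℝ) * (((J : ℝ) + 1) * (4 ^ N * (1 / 2 : ℝ) ^ (80 * h * lam)) +
        ((I : ℝ) + 1) * (4 ^ (N + 1) * (1 / 2 : ℝ) ^ (h * lam))) ≤ (1 / 2 : ℝ) ^ lam := by
  set c : ℝ := 3072 * (B : ℝ) + 5392 with hc
  have hBr : (0 : ℝ) ≤ (B : ℝ) := Nat.cast_nonneg B
  have hc1 : 1 ≤ c := by rw [hc]; linarith
  refine ⟨c, hc1, 2600 + (16 * (3072 * B + 5392)) ^ 2, by omega, ?_⟩
  intro n q lam a k Y hn hq ha hL hqn haL hlB hDB hk hYl hYu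
  have hl : 2600 ≤ lam := by omega
  have hlc : (16 * c) ^ 2 ≤ (lam : ℝ) := by
    have h1 : (16 * (3072 * B + 5392)) ^ 2 ≤ lam := by omega
    have h2 : (((16 * (3072 * B + 5392)) ^ 2 : ℕ) : ℝ) ≤ (lam : ℝ) := by exact_mod_cast h1
    push_cast at h2
    rw [hc]
    exact h2
  have hx1 : 1 ≤ (lam - 40) / (4 * a) := (Nat.one_le_div_iff (by omega)).mpr (by omega)
  have hl2 : 0 < Real.log 2 := Real.log_pos (by norm_num)
  have hlr : (2600 : ℝ) ≤ lam := by exact_mod_cast hl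
  have hll : 0 < (lam : ℝ) * Real.log 2 := by positivity
  have hY : 0 < Y := lt_of_lt_of_le hll hYl
  have hr1 : 1 ≤ Y / (lam * Real.log 2) := by
    rw [le_div_iff₀ hll]
    linarith
  obtain ⟨hI1, hI2⟩ := GN1_clog (Y / (lam * Real.log 2)) hr1
  set J := Nat.log 2 ((lam - 40) / (4 * a)) with hJ
  set I := Nat.clog 2 ⌈Y / (lam * Real.log 2)⌉₊ with hI
  have p1 : 2 ^ J ≤ (lam - 40) / (4 * a) := Nat.pow_log_le_self 2 (by omega)
  have p2 : (lam - 40) / (4 * a) < 2 ^ (J + 1) := Nat.lt_pow_succ_log_self (by norm_num) _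
  have q1 : 4 * a * 2 ^ J + 40 ≤ lam := by
    have h1 : 4 * a * 2 ^ J ≤ 4 * a * ((lam - 40) / (4 * a)) := Nat.mul_le_mul_left _ p1
    have h2 : 4 * a * ((lam - 40) / (4 * a)) ≤ lam - 40 := Nat.mul_div_le _ _
    omega
  have q2 : lam < 4 * a * 2 ^ (J + 1) + 40 := by
    have h1 : lam - 40 < 2 ^ (J + 1) * (4 * a) := (Nat.div_lt_iff_lt_mul (by omega)).mp p2
    have h2 : 2 ^ (J + 1) * (4 * a) = 4 * a * 2 ^ (J + 1) := mul_comm _ _
    omega
  have rJ := RN1_J B n a lam J ha hn q1 hlB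
  have hn2 : (2 : ℝ) ≤ n := by exact_mod_cast hn
  have hlq := GN1_logq n q lam hn hq (by omega) hqn
  have rI : (I : ℝ) ≤ 2 + 4 * Real.log n := by
    apply GN1_I n I hn
    refine hI2.trans ?_
    have h1 : Y / (lam * Real.log 2) ≤ 2 * (n : ℝ) ^ 2 := by
      rw [div_le_iff₀ hll]
      have h2 : (n : ℝ) ^ 2 * Real.log q ≤ (n : ℝ) ^ 2 * (2 * (lam * Real.log 2)) :=
        mul_le_mul_of_nonneg_left hlq (by positivity)
      linarith
    linarith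
  have hlog : (1 / 2 : ℝ) ≤ Real.log n := by
    have h1 := Real.log_two_gt_d9
    have h2 : Real.log 2 ≤ Real.log n := Real.log_le_log (by norm_num) hn2
    linarith
  have hN : ((96 * (8 * (J + 2) + I) + 8 : ℕ) : ℝ) ≤ c * Real.log n := by
    push_cast
    rw [hc]
    nlinarith [mul_nonneg hBr (by linarith : (0 : ℝ) ≤ Real.log n - 1 / 2)]
  have hlogq : 0 ≤ Real.log (q : ℝ) := Real.log_natCast_nonneg q
  have hD : 0 < (n : ℝ) + Real.log q := by linarith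
  have hIJ := GN1_IJ B I J a lam Y ((n : ℝ) + Real.log q) ha (by omega) hD hY hDB hI2 (by
    have h1 : ((4 * a * 2 ^ J + 40 : ℕ) : ℝ) ≤ (lam : ℝ) := by exact_mod_cast q1
    push_cast at h1
    linarith)
  have hYD : 0 < Y / ((n : ℝ) + Real.log q) := div_pos hY hD
  have hlt : 0 ≤ Real.log (1 + Y / ((n : ℝ) + Real.log q)) := Real.log_nonneg (by linarith)
  have hN2 : ((96 * (8 * (J + 2) + I) + 8 : ℕ) : ℝ) ≤ c * (1 + Real.log (1 + Y / ((n : ℝ) + Real.log q))) := by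
    push_cast
    rw [hc]
    have hIn : (0 : ℝ) ≤ I := Nat.cast_nonneg I
    nlinarith [mul_nonneg hBr hlt]
  have hnl := RN1_n_le n q lam hn hq hqn
  have hN4 : 4 * (96 * (8 * (J + 2) + I) + 8) ≤ lam := by
    have h1 : Real.log n ≤ Real.log ((lam : ℝ) + 3) := by
      apply Real.log_le_log (by linarith)
      exact_mod_cast hnl
    have h2 := RN1_logbound c hc1 lam (by linarith) hlc
    have h3 : c * Real.log n ≤ c * Real.log ((lam : ℝ) + 3) := mul_le_mul_of_nonneg_left h1 (by linarith)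
    have h4 : (4 : ℝ) * ((96 * (8 * (J + 2) + I) + 8 : ℕ) : ℝ) ≤ lam := by linarith
    exact_mod_cast h4
  have hM : lam < 4 * (a * 2 ^ (J + 1) + 10) := by
    have h1 : 4 * a * 2 ^ (J + 1) = 4 * (a * 2 ^ (J + 1)) := mul_assoc _ _ _
    omega
  refine ⟨96 * (8 * (J + 2) + I) + 8, 8, I, J, by norm_num, by omega, q1, q2, by omega, by omega, ?_, hN, hN2, ?_⟩
  · apply GN1_exp Y lam I (a * 2 ^ (J + 1) + 10) hY
    · rw [div_le_iff₀ hll] at hI1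
      exact hI1
    · exact_mod_cast hM
  · exact RN1_final k J I _ lam (RN1_k_le n q lam k hn hq hqn hk) (by omega) (by omega) hN4 hl

end Pool.Agent.BC5
end

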