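import Pool.Agent.Lib.MP_bc5a73_al.SlDefsM
import Pool.Agent.Lib.MP_bc5a73_al.General

section
set_option autoImplicit false
set_option linter.unusedSectionVars false
set_option linter.unusedVariables false
open scoped BigOperators Matrix
open Matrix
namespace Pool.Agent.BC5


/-- The normal form given by the successor map `φ`, the coefficients `c` and the block labels `β`. -/
def nform {n : ℕ} {F : Type} [Field F] (φ : Fin n → Option (Fin n)) (c : Fin n → F) (β : Fin n → Fin n) :
    Matrix (Fin n) (Fin n) F := by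
  classical
  exact Matrix.of fun i j => match φ j with
    | some k => if i = k then 1 else 0
    | none => if β i = β j then c i else 0

open Polynomial in
theorem SF1_struct {n : ℕ} {F : Type} [Field F] (T : (Fin n → F) →ₗ[F] (Fin n → F)) :
    ∃ (ι : Type) (_ : Fintype ι) (f : ι → F[X]), (∀ i, (f i).Monic) ∧
      Nonempty (Module.AEval' T ≃ₗ[F[X]] (∀ i, F[X] ⧸ Ideal.span {f i})) := by
  classical
  obtain ⟨ι, hι, p, hp, e, ⟨ψ⟩⟩ := Module.equiv_directSum_of_isTorsion
    (R := F[X]) (M := Module.AEval' T) (Module.AEval.isTorsion_of_finiteDimensional F (Fin n → F) T)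
  refine ⟨ι, hι, fun i => p i ^ e i * C (p i ^ e i).leadingCoeff⁻¹, ?_, ?_⟩
  · intro i
    exact monic_mul_leadingCoeff_inv (pow_ne_zero _ (hp i).ne_zero)
  · have h1 : ∀ i, (F[X] ∙ p i ^ e i) = Ideal.span {p i ^ e i * C (p i ^ e i).leadingCoeff⁻¹} := by
      intro i
      have h2 : IsUnit (C (p i ^ e i).leadingCoeff⁻¹ : F[X]) := by
        rw [isUnit_C]
        exact (inv_ne_zero (leadingCoeff_ne_zero.2 (pow_ne_zero _ (hp i).ne_zero))).isUnit
      exact (Ideal.span_singleton_mul_right_unit h2 (p i ^ e i)).symm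
    exact ⟨(ψ.trans (DirectSum.linearEquivFunOnFintype F[X] ι _)).trans
      (LinearEquiv.piCongrRight fun i => Submodule.quotEquivOfEq _ _ (h1 i))⟩

open Polynomial in
theorem SF1_pb {F : Type} [Field F] (f : F[X]) (hf : f.Monic) :
    ∃ b : Module.Basis (Fin f.natDegree) F (F[X] ⧸ Ideal.span {f}),
      ∀ j, b j = Ideal.Quotient.mk (Ideal.span {f}) (X ^ (j : ℕ)) := by
  refine ⟨(AdjoinRoot.powerBasis' hf).basis, ?_⟩
  intro j
  have h1 := (AdjoinRoot.powerBasis' hf).basis_eq_pow j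
  exact h1.trans (map_pow (Ideal.Quotient.mk (Ideal.span {f})) X (j : ℕ)).symm

open Polynomial in
theorem SF1_top {F : Type} [Field F] (f : F[X]) (hf : f.Monic) :
    Ideal.Quotient.mk (Ideal.span {f}) (X ^ f.natDegree) =
      ∑ j : Fin f.natDegree, (-f.coeff j) • Ideal.Quotient.mk (Ideal.span {f}) (X ^ (j : ℕ)) := by
  have h0 : Ideal.Quotient.mk (Ideal.span {f}) f = 0 :=
    Ideal.Quotient.eq_zero_iff_mem.2 (Ideal.mem_span_singleton_self f)
  have h1 := congrArg (Ideal.Quotient.mk (Ideal.span {f})) hf.as_sum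
  rw [h0, map_add, map_sum, ← Fin.sum_univ_eq_sum_range
    (fun i => Ideal.Quotient.mk (Ideal.span {f}) (C (f.coeff i) * X ^ i))] at h1
  rw [eq_neg_of_add_eq_zero_left h1.symm, ← Finset.sum_neg_distrib]
  refine Finset.sum_congr rfl fun j _ => ?_
  rw [← smul_eq_C_mul, neg_smul]
  rfl


open Polynomial in
theorem SF1_basis {n : ℕ} {F : Type} [Field F] (T : (Fin n → F) →ₗ[F] (Fin n → F)) :
    ∃ (ι : Type) (_ : Fintype ι) (d : ι → ℕ) (a : ∀ i, Fin (d i) → F)
      (b : Module.Basis (Σ i, Fin (d i)) F (Fin n → F)),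
      (∀ i (j : Fin (d i)) (h : (j : ℕ) + 1 < d i), T (b ⟨i, j⟩) = b ⟨i, ⟨j + 1, h⟩⟩) ∧
      (∀ i (j : Fin (d i)), ¬ (j : ℕ) + 1 < d i → T (b ⟨i, j⟩) = ∑ k, a i k • b ⟨i, k⟩) := by
  classical
  obtain ⟨ι, hι, f, hf, ⟨ψ⟩⟩ := SF1_struct T
  choose pb hpb using fun i => SF1_pb (f i) (hf i)
  let L : (∀ i, F[X] ⧸ Ideal.span {f i}) ≃ₗ[F] (Fin n → F) :=
    (ψ.restrictScalars F).symm ≪≫ₗ (Module.AEval'.of T).symm
  have hL : ∀ z, T (L z) = L ((X : F[X]) • z) := by
    intro z
    have h1 := Module.AEval'.X_smul_of T ((Module.AEval'.of T).symm (ψ.symm z))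
    rw [LinearEquiv.apply_symm_apply, ← map_smul] at h1
    have h2 := congrArg (Module.AEval'.of T).symm h1
    rw [LinearEquiv.symm_apply_apply] at h2
    exact h2.symm
  have hx : ∀ i (j : ℕ), (X : F[X]) • (Pi.single i (Ideal.Quotient.mk (Ideal.span {f i}) (X ^ j)) :
      ∀ i, F[X] ⧸ Ideal.span {f i}) = Pi.single i (Ideal.Quotient.mk (Ideal.span {f i}) (X ^ (j + 1))) := by
    intro i j
    rw [← Pi.single_smul]
    congr 1
    rw [pow_succ']
    rfl
  have hb : ∀ i (j : Fin (f i).natDegree), ((Pi.basis pb).map L) ⟨i, j⟩ =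
      L (Pi.single i (Ideal.Quotient.mk (Ideal.span {f i}) (X ^ (j : ℕ)))) := by
    intro i j
    rw [Module.Basis.map_apply, Pi.basis_apply, hpb]
  refine ⟨ι, hι, fun i => (f i).natDegree, fun i k => -(f i).coeff k, (Pi.basis pb).map L, ?_, ?_⟩
  · intro i j h
    rw [hb, hb, hL, hx]
  · intro i j h
    have h3 : (j : ℕ) + 1 = (f i).natDegree := by
      have h4 : (j : ℕ) < (f i).natDegree := j.2
      have h5 : ¬ (j : ℕ) + 1 < (f i).natDegree := h
      omega
    have h6 : ∀ k : Fin (f i).natDegree, (-(f i).coeff k) • ((Pi.basis pb).map L) ⟨i, k⟩ =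
        L (LinearMap.single F (fun i => F[X] ⧸ Ideal.span {f i}) i
          ((-(f i).coeff k) • Ideal.Quotient.mk (Ideal.span {f i}) (X ^ (k : ℕ)))) := by
      intro k
      rw [hb, map_smul, map_smul]
      rfl
    rw [hb, hL, hx, h3, SF1_top (f i) (hf i)]
    refine Eq.trans ?_ (Finset.sum_congr rfl fun k _ => (h6 k).symm)
    rw [← map_sum, ← map_sum]
    rfl

theorem exists_nform {n : ℕ} {F : Type} [Field F] [Fintype F] [DecidableEq F] (A : Matrix (Fin n) (Fin n) F) :
    ∃ (φ : Fin n → Option (Fin n)) (c : Fin n → F) (β : Fin n → Fin n) (P : Matrix (Fin n) (Fin n) F),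
      IsUnit P ∧ P * A = nform φ c β * P := by
  classical
  obtain ⟨ι, hι, d, a, b, h1, h2⟩ := SF1_basis (Matrix.toLin' A)
  have hcard : Fintype.card (Σ i, Fin (d i)) = n := by
    have h3 := Module.finrank_eq_card_basis b
    rw [Module.finrank_fin_fun] at h3
    exact h3.symm
  let e : (Σ i, Fin (d i)) ≃ Fin n := Fintype.equivFinOfCardEq hcard
  let B : Module.Basis (Fin n) F (Fin n → F) := b.reindex e
  let φ : Fin n → Option (Fin n) := fun j =>
    if h : ((e.symm j).2 : ℕ) + 1 < d (e.symm j).1 then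
      some (e ⟨(e.symm j).1, ⟨(e.symm j).2 + 1, h⟩⟩) else none
  let c : Fin n → F := fun j => a (e.symm j).1 (e.symm j).2
  let β : Fin n → Fin n := fun j => e ⟨(e.symm j).1, ⟨0, lt_of_le_of_lt (Nat.zero_le _) (e.symm j).2.2⟩⟩
  have hβ : ∀ i j, β i = β j ↔ (e.symm i).1 = (e.symm j).1 := by
    intro i j
    constructor
    · intro h
      have h' : e ⟨(e.symm i).1, ⟨0, lt_of_le_of_lt (Nat.zero_le _) (e.symm i).2.2⟩⟩ =
          e ⟨(e.symm j).1, ⟨0, lt_of_le_of_lt (Nat.zero_le _) (e.symm j).2.2⟩⟩ := h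
      have h'' := congrArg Sigma.fst (e.injective h')
      exact h''
    · intro h
      change e _ = e _
      congr 1
      rw [Sigma.mk.injEq]
      refine ⟨h, ?_⟩
      rw [Fin.heq_ext_iff (by rw [h])]
  have hc : ∀ x, c (e x) = a x.1 x.2 := by
    intro x
    change a (e.symm (e x)).1 (e.symm (e x)).2 = _
    rw [Equiv.symm_apply_apply]
  have hT : ∀ j, Matrix.toLin' A (B j) = ∑ i, nform φ c β i j • B i := by
    intro j
    have hBj : B j = b (e.symm j) := b.reindex_apply e j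
    by_cases h : ((e.symm j).2 : ℕ) + 1 < d (e.symm j).1
    · have hφ : φ j = some (e ⟨(e.symm j).1, ⟨(e.symm j).2 + 1, h⟩⟩) := dif_pos h
      have h3 : ∀ i, nform φ c β i j = if i = e ⟨(e.symm j).1, ⟨(e.symm j).2 + 1, h⟩⟩ then 1 else 0 := by
        intro i
        unfold nform
        rw [Matrix.of_apply, hφ]
      rw [hBj, Finset.sum_congr rfl fun i _ => by rw [h3 i]]
      simp only [ite_smul, one_smul, zero_smul, Finset.sum_ite_eq', Finset.mem_univ, if_true]
      rw [b.reindex_apply e, Equiv.symm_apply_apply]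
      exact h1 _ _ h
    · have hφ : φ j = none := dif_neg h
      have h3 : ∀ i, nform φ c β i j = if (e.symm i).1 = (e.symm j).1 then c i else 0 := by
        intro i
        unfold nform
        rw [Matrix.of_apply, hφ]
        simp only [hβ]
      rw [hBj, Finset.sum_congr rfl fun i _ => by rw [h3 i, b.reindex_apply e i]]
      rw [← Equiv.sum_comp e, Finset.sum_congr rfl fun x _ => by rw [Equiv.symm_apply_apply, hc x]]
      rw [Fintype.sum_sigma, Fintype.sum_eq_single (e.symm j).1]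
      · simp only [if_true]
        exact h2 _ _ h
      · intro i hi
        refine Finset.sum_eq_zero fun k _ => ?_
        rw [if_neg hi, zero_smul]
  have hM : LinearMap.toMatrix B B (Matrix.toLin' A) = nform φ c β := by
    ext i j
    rw [LinearMap.toMatrix_apply, hT j, Module.Basis.repr_sum_self]
  refine ⟨φ, c, β, B.toMatrix (Pi.basisFun F (Fin n)), ?_, ?_⟩
  · have := B.invertibleToMatrix (Pi.basisFun F (Fin n))
    exact isUnit_of_invertible _
  · have h4 := basis_toMatrix_mul_linearMap_toMatrix (Pi.basisFun F (Fin n)) B (Pi.basisFun F (Fin n)) (Matrix.toLin' A)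
    have h5 := linearMap_toMatrix_mul_basis_toMatrix (Pi.basisFun F (Fin n)) B B (Matrix.toLin' A)
    rw [hM] at h5
    have h6 : LinearMap.toMatrix (Pi.basisFun F (Fin n)) (Pi.basisFun F (Fin n)) (Matrix.toLin' A) = A := by
      rw [LinearMap.toMatrix_eq_toMatrix', LinearMap.toMatrix'_toLin']
    rw [h6] at h4
    rw [h4, h5]

end Pool.Agent.BC5
end

section
set_option autoImplicit false
set_option linter.unusedSectionVars false
set_option linter.unusedVariables false
open scoped BigOperators Matrix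
open Matrix
namespace Pool.Agent.BC5


theorem kc_SL_le (n : ℕ) (hn : 1 ≤ n) (F : Type) [Field F] [Fintype F] [DecidableEq F] :
    kc (SLn n F) ≤ (n + 1) ^ (2 * n) * Fintype.card F ^ (n + 1) := by
  classical
  have hnf : ∀ A : Matrix (Fin n) (Fin n) F, ∃ d : (Fin n → Option (Fin n)) × (Fin n → F) × (Fin n → Fin n),
      ∃ P : Matrix (Fin n) (Fin n) F, IsUnit P ∧ P * A = nform d.1 d.2.1 d.2.2 * P := by
    intro A
    obtain ⟨φ, c, β, P, h1, h2⟩ := exists_nform A
    exact ⟨(φ, c, β), P, h1, h2⟩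
  choose dt P hP hPA using hnf
  obtain ⟨rep, hrep⟩ : ∃ rep : ConjClasses (SLn n F) → SLn n F, ∀ c, ConjClasses.mk (rep c) = c :=
    ⟨fun c => (ConjClasses.exists_rep c).choose, fun c => (ConjClasses.exists_rep c).choose_spec⟩
  have hf : Function.Injective (fun c : ConjClasses (SLn n F) => (dt (rep c).1, (P (rep c).1).det)) := by
    intro c c' h
    obtain ⟨h1, h2⟩ := Prod.mk.inj h
    have hA := hPA (rep c).1
    have hB := hPA (rep c').1
    rw [h1] at hA
    have hdB : IsUnit (P (rep c').1).det := (Matrix.isUnit_iff_isUnit_det _).mp (hP _)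
    have hdet : ((P (rep c').1)⁻¹ * P (rep c).1).det = 1 := by
      rw [Matrix.det_mul, h2, ← Matrix.det_mul, Matrix.nonsing_inv_mul _ hdB, Matrix.det_one]
    have hcomm : ((P (rep c').1)⁻¹ * P (rep c).1) * (rep c).1 = (rep c').1 * ((P (rep c').1)⁻¹ * P (rep c).1) := by
      have e1 : (rep c').1 * (P (rep c').1)⁻¹ = (P (rep c').1)⁻¹ * nform (dt (rep c').1).1 (dt (rep c').1).2.1 (dt (rep c').1).2.2 := by
        calc (rep c').1 * (P (rep c').1)⁻¹
            = ((P (rep c').1)⁻¹ * P (rep c').1) * (rep c').1 * (P (rep c').1)⁻¹ := by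
              rw [Matrix.nonsing_inv_mul _ hdB, one_mul]
          _ = (P (rep c').1)⁻¹ * (P (rep c').1 * (rep c').1) * (P (rep c').1)⁻¹ := by simp only [mul_assoc]
          _ = (P (rep c').1)⁻¹ * (nform (dt (rep c').1).1 (dt (rep c').1).2.1 (dt (rep c').1).2.2 * P (rep c').1) *
              (P (rep c').1)⁻¹ := by rw [hB]
          _ = (P (rep c').1)⁻¹ * nform (dt (rep c').1).1 (dt (rep c').1).2.1 (dt (rep c').1).2.2 *
              (P (rep c').1 * (P (rep c').1)⁻¹) := by simp only [mul_assoc]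
          _ = _ := by rw [Matrix.mul_nonsing_inv _ hdB, mul_one]
      rw [← mul_assoc, e1, mul_assoc, hA, mul_assoc]
    rw [← hrep c, ← hrep c', ConjClasses.mk_eq_mk_iff_isConj, isConj_iff]
    obtain ⟨Q, hQ⟩ : ∃ Q : SLn n F, Q.1 = (P (rep c').1)⁻¹ * P (rep c).1 := ⟨⟨_, hdet⟩, rfl⟩
    refine ⟨Q, ?_⟩
    have hQc : Q * rep c = rep c' * Q := by
      refine Subtype.ext ?_
      have e2 : (Q * rep c).1 = Q.1 * (rep c).1 := rfl
      have e3 : (rep c' * Q).1 = (rep c').1 * Q.1 := rfl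
      rw [e2, e3, hQ]
      exact hcomm
    exact mul_inv_eq_iff_eq_mul.mpr hQc
  have h3 : kc (SLn n F) ≤ Nat.card (((Fin n → Option (Fin n)) × (Fin n → F) × (Fin n → Fin n)) × F) :=
    Nat.card_le_card_of_injective _ hf
  refine h3.trans ?_
  rw [Nat.card_eq_fintype_card, Fintype.card_prod, Fintype.card_prod, Fintype.card_prod, Fintype.card_fun, Fintype.card_fun,
    Fintype.card_fun, Fintype.card_option, Fintype.card_fin]
  have h4 : n ^ n ≤ (n + 1) ^ n := Nat.pow_le_pow_left (Nat.le_succ n) n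
  calc (n + 1) ^ n * (Fintype.card F ^ n * n ^ n) * Fintype.card F
      ≤ (n + 1) ^ n * (Fintype.card F ^ n * (n + 1) ^ n) * Fintype.card F := by gcongr
    _ = (n + 1) ^ (2 * n) * Fintype.card F ^ (n + 1) := by ring

theorem card_le_kc_SL (n : ℕ) (hn : 2 ≤ n) (F : Type) [Field F] [Fintype F] [DecidableEq F] :
    Fintype.card F ≤ kc (SLn n F) := by
  classical
  have h01 : (⟨0, by omega⟩ : Fin n) ≠ ⟨1, by omega⟩ := by
    intro h
    have := congrArg Fin.val h
    simp at this
  obtain ⟨g, hg⟩ : ∃ g : F → SLn n F, ∀ a, ((g a).1).trace = a := by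
    refine ⟨fun a => tv ⟨0, by omega⟩ ⟨1, by omega⟩ 1 * tv ⟨1, by omega⟩ ⟨0, by omega⟩ (a - n), fun a => ?_⟩
    have e1 : ((tv ⟨0, by omega⟩ ⟨1, by omega⟩ 1 * tv ⟨1, by omega⟩ ⟨0, by omega⟩ (a - n) : SLn n F)).1 =
        (1 + Matrix.single ⟨0, by omega⟩ ⟨1, by omega⟩ 1) * (1 + Matrix.single ⟨1, by omega⟩ ⟨0, by omega⟩ (a - n)) := by
      rw [← tv_coe h01, ← tv_coe h01.symm]
      rfl
    rw [e1, mul_add, add_mul, add_mul, mul_one, one_mul, Matrix.single_mul_single_same, Matrix.trace_add, Matrix.trace_add,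
      Matrix.trace_add, Matrix.trace_single_eq_same, Matrix.trace_one, mul_one,
      Matrix.trace_single_eq_of_ne _ _ _ h01, Matrix.trace_single_eq_of_ne _ _ _ h01.symm, Fintype.card_fin, one_mul]
    ring
  have hinj : Function.Injective (fun a : F => ConjClasses.mk (g a)) := by
    intro a b h
    have h' := ConjClasses.mk_eq_mk_iff_isConj.mp h
    rw [isConj_iff] at h'
    obtain ⟨c, hc⟩ := h'
    have e2 : ((c * g a * c⁻¹ : SLn n F)).1 = c.1 * (g a).1 * (c⁻¹).1 := rfl
    have e3 : (c⁻¹).1 * c.1 = (1 : Matrix (Fin n) (Fin n) F) := by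
      have : ((c⁻¹ * c : SLn n F)).1 = (c⁻¹).1 * c.1 := rfl
      rw [← this, inv_mul_cancel]
      rfl
    have e4 : ((c * g a * c⁻¹ : SLn n F)).1.trace = (g a).1.trace := by
      rw [e2, Matrix.trace_mul_comm, ← mul_assoc, e3, one_mul]
    rw [hc, hg, hg] at e4
    exact e4.symm
  have h5 : Nat.card F ≤ Nat.card (ConjClasses (SLn n F)) := Nat.card_le_card_of_injective _ hinj
  rw [Nat.card_eq_fintype_card] at h5
  exact h5

theorem card_SL_le (n : ℕ) (F : Type) [Field F] [Fintype F] [DecidableEq F] :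
    Fintype.card (SLn n F) ≤ Fintype.card F ^ (n ^ 2) := by
  classical
  have h := Fintype.card_le_of_injective (fun g : SLn n F => g.1) (fun a b hab => Subtype.ext hab)
  refine h.trans (le_of_eq ?_)
  rw [Fintype.card_congr (Matrix.of : (Fin n → Fin n → F) ≃ Matrix (Fin n) (Fin n) F).symm, Fintype.card_fun, Fintype.card_fun,
    Fintype.card_fin, ← pow_mul, sq]

end Pool.Agent.BC5
end

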