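import Pool.Agent.Lib.MP_bc5a73_al.SlDefsM

section
set_option autoImplicit false
set_option linter.unusedSectionVars false
set_option linter.unusedVariables false
open scoped BigOperators Matrix
open Matrix
namespace Pool.Agent.BC5


variable {n : ℕ} {F : Type} [Field F] [Fintype F] [DecidableEq F]

theorem SD1_ext {J V : Type} [AddCommGroup V] [Module F V] {s : J → V}
    (hs : LinearIndependent F s) (j : J) : Module.Basis.sumExtend hs (Sum.inl j) = s j := by
  classical
  have h : (Equiv.Set.sumDiffSubset (hs.linearIndepOn_id.subset_extend (Set.subset_univ _)))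
      (Sum.inl (Equiv.ofInjective s hs.injective j)) =
      ⟨s j, hs.linearIndepOn_id.subset_extend (Set.subset_univ _) (Set.mem_range_self j)⟩ := by
    apply Subtype.ext
    simp
  simp only [Module.Basis.sumExtend, Module.Basis.coe_reindex, Function.comp_apply,
    Equiv.symm_symm, Module.Basis.extend_apply_self]
  exact congrArg Subtype.val h

/-- `SL_n` is transitive on the independent families with fewer than `n` members. -/
theorem SD1_trans {J : Type} [Fintype J] {s w : J → (Fin n → F)} (hs : LinearIndependent F s)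
    (hw : LinearIndependent F w) (hJ : Fintype.card J < n) :
    ∃ g : SLn n F, ∀ j, g.1 *ᵥ s j = w j := by
  classical
  let b1 := Module.Basis.sumExtend hs
  let b2 := Module.Basis.sumExtend hw
  have f1 : Finite (J ⊕ Module.Basis.sumExtendIndex hs) := Module.Finite.finite_basis b1
  have f2 : Finite (J ⊕ Module.Basis.sumExtendIndex hw) := Module.Finite.finite_basis b2
  have g1 : Finite (Module.Basis.sumExtendIndex hs) := Finite.sum_right J
  have g2 : Finite (Module.Basis.sumExtendIndex hw) := Finite.sum_right J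
  have : Fintype (Module.Basis.sumExtendIndex hs) := Fintype.ofFinite _
  have : Fintype (Module.Basis.sumExtendIndex hw) := Fintype.ofFinite _
  have c1 := Module.finrank_eq_card_basis b1
  have c2 := Module.finrank_eq_card_basis b2
  rw [Module.finrank_fintype_fun_eq_card, Fintype.card_fin, Fintype.card_sum] at c1 c2
  have hcard : Fintype.card (Module.Basis.sumExtendIndex hs) =
      Fintype.card (Module.Basis.sumExtendIndex hw) := by omega
  have hpos : 0 < Fintype.card (Module.Basis.sumExtendIndex hw) := by omega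
  obtain ⟨i0⟩ := Fintype.card_pos_iff.1 hpos
  let e := Fintype.equivOfCardEq hcard
  let E : (J ⊕ Module.Basis.sumExtendIndex hs) ≃ (J ⊕ Module.Basis.sumExtendIndex hw) :=
    Equiv.sumCongr (Equiv.refl J) e
  let L := b1.equiv b2 E
  have hd : LinearMap.det L.toLinearMap ≠ 0 := (LinearEquiv.isUnit_det' L).ne_zero
  let c : F := (LinearMap.det L.toLinearMap)⁻¹
  let A : Matrix (J ⊕ Module.Basis.sumExtendIndex hw) (J ⊕ Module.Basis.sumExtendIndex hw) F :=
    Matrix.diagonal fun x => if x = Sum.inr i0 then c else 1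
  let D : (Fin n → F) →ₗ[F] (Fin n → F) := Matrix.toLin b2 b2 A
  have hdet : LinearMap.det (D ∘ₗ L.toLinearMap) = 1 := by
    rw [LinearMap.det_comp]
    have : LinearMap.det D = c := by
      rw [LinearMap.det_toLin, Matrix.det_diagonal, Finset.prod_ite_eq']
      simp
    rw [this]
    exact inv_mul_cancel₀ hd
  have h1 : ∀ j, L (s j) = w j := by
    intro j
    have e1 : b1 (Sum.inl j) = s j := SD1_ext hs j
    have e2 : b2 (Sum.inl j) = w j := SD1_ext hw j
    rw [← e1, ← e2]
    exact b1.equiv_apply (Sum.inl j) b2 E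
  have h2 : ∀ j, D (w j) = w j := by
    intro j
    have e2 : b2 (Sum.inl j) = w j := SD1_ext hw j
    rw [← e2, Matrix.toLin_self]
    simp [A, Matrix.diagonal_apply]
  refine ⟨⟨LinearMap.toMatrix' (D ∘ₗ L.toLinearMap), ?_⟩, ?_⟩
  · rw [LinearMap.det_toMatrix', hdet]
  · intro j
    rw [LinearMap.toMatrix'_mulVec]
    show D (L (s j)) = w j
    rw [h1, h2]

/-- `frac` as a quotient of cardinalities -/
theorem SD1_frac {α : Type} [Fintype α] (P : α → Prop) : ∃ S : Finset α, (∀ g, g ∈ S ↔ P g) ∧
    frac P = (S.card : ℝ) / (Fintype.card α : ℝ) := by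
  classical
  refine ⟨Finset.univ.filter (fun g => P g), fun g => by simp, ?_⟩
  unfold frac avg
  rw [smul_eq_mul, div_eq_inv_mul]
  congr 1
  rw [Finset.card_filter, Nat.cast_sum]
  refine Finset.sum_congr rfl fun g _ => ?_
  by_cases hg : P g
  · simp [hg]
  · simp [hg]

/-- number of independent families -/
theorem SD1_num {J : Type} [Fintype J] {ρ : ℕ} (hJ : Fintype.card J ≤ ρ) (hρ : ρ < n) :
    ((Fintype.card F : ℝ) ^ n - (Fintype.card F : ℝ) ^ ρ) ^ Fintype.card J ≤
      (Nat.card {w : J → (Fin n → F) // LinearIndependent F w} : ℝ) := by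
  classical
  have hq : (1 : ℝ) < Fintype.card F := by exact_mod_cast Fintype.one_lt_card
  have hgap : (0 : ℝ) < (Fintype.card F : ℝ) ^ n - (Fintype.card F : ℝ) ^ ρ :=
    sub_pos.2 (pow_lt_pow_right₀ hq hρ)
  have hJn : Fintype.card J < n := lt_of_le_of_lt hJ hρ
  have hN : Nat.card {w : J → (Fin n → F) // LinearIndependent F w} =
      ∏ i : Fin (Fintype.card J), (Fintype.card F ^ n - Fintype.card F ^ i.val) := by
    have h1 := card_linearIndependent (K := F) (V := Fin n → F) (k := Fintype.card J) (by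
      rw [Module.finrank_fintype_fun_eq_card, Fintype.card_fin]
      exact le_of_lt hJn)
    rw [Module.finrank_fintype_fun_eq_card, Fintype.card_fin] at h1
    rw [← h1]
    let e := Fintype.equivFin J
    refine Nat.card_congr ((Equiv.arrowCongr e (Equiv.refl _)).subtypeEquiv ?_)
    intro w
    constructor
    · intro hw'
      have := hw'.comp e.symm e.symm.injective
      exact this
    · intro hw'
      have := hw'.comp e e.injective
      have e3 : ((Equiv.arrowCongr e (Equiv.refl (Fin n → F))) w) ∘ e = w := by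
        funext j
        simp
      rwa [e3] at this
  rw [hN, Nat.cast_prod]
  calc ((Fintype.card F : ℝ) ^ n - (Fintype.card F : ℝ) ^ ρ) ^ Fintype.card J =
      ∏ _i : Fin (Fintype.card J), ((Fintype.card F : ℝ) ^ n - (Fintype.card F : ℝ) ^ ρ) := by
        rw [Finset.prod_const, Finset.card_univ, Fintype.card_fin]
    _ ≤ _ := by
        apply Finset.prod_le_prod
        · intro i _
          exact le_of_lt hgap
        · intro i _
          have hi : i.val ≤ ρ := (le_of_lt i.2).trans hJ
          have h1 : Fintype.card F ^ i.val ≤ Fintype.card F ^ n :=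
            Nat.pow_le_pow_right Fintype.card_pos (hi.trans (le_of_lt hρ))
          rw [Nat.cast_sub h1, Nat.cast_pow, Nat.cast_pow]
          have h2 : (Fintype.card F : ℝ) ^ i.val ≤ (Fintype.card F : ℝ) ^ ρ :=
            pow_le_pow_right₀ (le_of_lt hq) hi
          linarith

/-- counting with translates -/
theorem SD1_count {J : Type} [Fintype J] {s s' : J → (Fin n → F)} (hs' : LinearIndependent F s')
    (hJn : Fintype.card J < n) {S : Finset (SLn n F)}
    (hS : ∀ g, g ∈ S → ∀ j, g.1 *ᵥ s j = s' j) :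
    Nat.card {w : J → (Fin n → F) // LinearIndependent F w} * S.card ≤ Nat.card (SLn n F) := by
  choose hw hhw using fun w : {w : J → (Fin n → F) // LinearIndependent F w} =>
    SD1_trans hs' w.2 hJn
  have hΦ : Function.Injective
      (fun p : {w : J → (Fin n → F) // LinearIndependent F w} × S => hw p.1 * p.2.1) := by
    rintro ⟨w1, g1, m1⟩ ⟨w2, g2, m2⟩ he
    simp only at he
    have k1 : ∀ j, (hw w1 * g1).1 *ᵥ s j = w1.1 j := by
      intro j
      rw [sl_mul_apply, hS g1 m1 j]
      exact hhw w1 j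
    have k2 : ∀ j, (hw w2 * g2).1 *ᵥ s j = w2.1 j := by
      intro j
      rw [sl_mul_apply, hS g2 m2 j]
      exact hhw w2 j
    have hww : w1 = w2 := by
      apply Subtype.ext
      funext j
      rw [← k1, ← k2, he]
    subst hww
    have := mul_left_cancel he
    subst this
    rfl
  have hcount := Nat.card_le_card_of_injective _ hΦ
  rw [Nat.card_prod] at hcount
  simpa using hcount

theorem frac_SL_one {J : Type} [Fintype J] (s s' : J → (Fin n → F)) (h : LinearIndependent F s ∨ LinearIndependent F s')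
    (ρ : ℕ) (hJ : Fintype.card J ≤ ρ) (hρ : ρ < n) :
    frac (fun g : SLn n F => ∀ j, g.1 *ᵥ s j = s' j) ≤
      (1 / ((Fintype.card F : ℝ) ^ n - (Fintype.card F : ℝ) ^ ρ)) ^ Fintype.card J := by
  have hq : (1 : ℝ) < Fintype.card F := by exact_mod_cast Fintype.one_lt_card
  have hgap : (0 : ℝ) < (Fintype.card F : ℝ) ^ n - (Fintype.card F : ℝ) ^ ρ :=
    sub_pos.2 (pow_lt_pow_right₀ hq hρ)
  obtain ⟨S, hS, hfr⟩ := SD1_frac (fun g : SLn n F => ∀ j, g.1 *ᵥ s j = s' j)
  rw [hfr]
  by_cases hne : S.Nonempty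
  swap
  · rw [Finset.not_nonempty_iff_eq_empty] at hne
    rw [hne, Finset.card_empty, Nat.cast_zero, zero_div]
    positivity
  obtain ⟨g0, hg0⟩ := hne
  have hg0' : ∀ j, g0.1 *ᵥ s j = s' j := (hS g0).1 hg0
  have hs' : LinearIndependent F s' := by
    rcases h with h | h
    · have hinj : Function.Injective (Matrix.toLin' g0.1) := by
        intro x y hxy
        simp only [Matrix.toLin'_apply] at hxy
        have e1 := sl_inv_apply (g := g0) (v := x) rfl
        have e2 := sl_inv_apply (g := g0) (v := y) rfl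
        rw [← e1, ← e2, hxy]
      have := h.map' (Matrix.toLin' g0.1) (LinearMap.ker_eq_bot.2 hinj)
      have e : (Matrix.toLin' g0.1) ∘ s = s' := by
        funext j
        simp only [Function.comp_apply, Matrix.toLin'_apply]
        exact hg0' j
      rwa [e] at this
    · exact h
  have hcount := SD1_count (s := s) hs' (lt_of_le_of_lt hJ hρ) (fun g hg => (hS g).1 hg)
  rw [Nat.card_eq_fintype_card (α := SLn n F)] at hcount
  have hcard : (0 : ℝ) < Fintype.card (SLn n F) := by exact_mod_cast Fintype.card_pos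
  have hc2 : (Nat.card {w : J → (Fin n → F) // LinearIndependent F w} : ℝ) * (S.card : ℝ) ≤
      (Fintype.card (SLn n F) : ℝ) := by exact_mod_cast hcount
  rw [one_div, inv_pow, div_le_iff₀ hcard, ← div_eq_inv_mul, le_div_iff₀ (pow_pos hgap _)]
  refine le_trans ?_ hc2
  rw [mul_comm]
  exact mul_le_mul_of_nonneg_right (SD1_num hJ hρ) (Nat.cast_nonneg _)

end Pool.Agent.BC5
end

section
set_option autoImplicit false
set_option linter.unusedSectionVars false
set_option linter.unusedVariables false
open scoped BigOperators Matrix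
open Matrix
namespace Pool.Agent.BC5


variable {n : ℕ} {F : Type} [Field F] [Fintype F] [DecidableEq F]


theorem frac_SL_constraints {M : ℕ} {J : Type} [Fintype J] (k : J → Fin M) (s s' : J → (Fin n → F))
    (h : ∀ i : Fin M, LinearIndependent F (fun j : {j // k j = i} => s j.1) ∨
      LinearIndependent F (fun j : {j // k j = i} => s' j.1)) (hρ : Fintype.card J < n) :
    frac (fun x : Fin M → SLn n F => ∀ j, (x (k j)).1 *ᵥ s j = s' j) ≤
      (1 / ((Fintype.card F : ℝ) ^ n - (Fintype.card F : ℝ) ^ Fintype.card J)) ^ Fintype.card J := by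
  classical
  have e1 : (fun x : Fin M → SLn n F => ∀ j, (x (k j)).1 *ᵥ s j = s' j) =
      (fun x : Fin M → SLn n F => ∀ i, (fun (i : Fin M) (g : SLn n F) =>
        ∀ j : {j : J // k j = i}, g.1 *ᵥ s j.1 = s' j.1) i (x i)) := by
    funext x
    apply propext
    constructor
    · rintro h i ⟨j, hj⟩
      have := h j
      rw [hj] at this
      exact this
    · intro h j
      exact h (k j) ⟨j, rfl⟩
  rw [e1, VF3_frac_pi (ι := Fin M) (G := SLn n F) (fun (i : Fin M) (g : SLn n F) =>
        ∀ j : {j : J // k j = i}, g.1 *ᵥ s j.1 = s' j.1)]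
  have hc : ∑ i : Fin M, Fintype.card {j : J // k j = i} = Fintype.card J := by
    rw [← Fintype.card_sigma]
    exact Fintype.card_congr (Equiv.sigmaFiberEquiv k)
  calc ∏ i : Fin M, frac (fun g : SLn n F => ∀ j : {j : J // k j = i}, g.1 *ᵥ s j.1 = s' j.1)
      ≤ ∏ i : Fin M, (1 / ((Fintype.card F : ℝ) ^ n - (Fintype.card F : ℝ) ^ Fintype.card J)) ^
          Fintype.card {j : J // k j = i} := by
        refine Finset.prod_le_prod (fun i _ => frac_nonneg _) (fun i _ => ?_)
        exact frac_SL_one (fun j : {j : J // k j = i} => s j.1) (fun j => s' j.1) (h i) (Fintype.card J)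
          (Fintype.card_subtype_le _) hρ
    _ = (1 / ((Fintype.card F : ℝ) ^ n - (Fintype.card F : ℝ) ^ Fintype.card J)) ^ Fintype.card J := by
        rw [Finset.prod_pow_eq_pow_sum, hc]

end Pool.Agent.BC5
end

section
set_option autoImplicit false
set_option linter.unusedSectionVars false
set_option linter.unusedVariables false
open scoped BigOperators Matrix
open Matrix
namespace Pool.Agent.BC5


variable {n : ℕ} {F : Type} [Field F] [Fintype F] [DecidableEq F]

theorem SD3_inj {M t : ℕ} (b : ℕ → Fin M × Bool) (hb : RedW b t) (j : ℕ) (hj : j + 1 ≤ t) (s : Bool)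
    (i i' : Fin (j + 1)) (hk : (b i).1 = (b i').1)
    (h : (if (b i).2 = s then (i : ℕ) else i + 1) = (if (b i').2 = s then (i' : ℕ) else i' + 1)) : i = i' := by
  have key : ∀ a a' : ℕ, a' ≤ j → a < a' → (b a).1 = (b a').1 →
      (if (b a).2 = s then a else a + 1) = (if (b a').2 = s then a' else a' + 1) → False := by
    intro a a' ha' hlt hk' h'
    by_cases h1 : (b a).2 = s
    · rw [if_pos h1] at h'
      by_cases h2 : (b a').2 = s
      · rw [if_pos h2] at h'; omega
      · rw [if_neg h2] at h'; omega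
    · rw [if_neg h1] at h'
      by_cases h2 : (b a').2 = s
      · rw [if_pos h2] at h'
        have h3 := hb a (by omega)
        rw [h'] at h3
        apply h3
        refine Prod.ext hk'.symm ?_
        rw [h2]
        revert h1
        cases (b a).2 <;> cases s <;> simp
      · rw [if_neg h2] at h'; omega
  rcases lt_trichotomy (i : ℕ) (i' : ℕ) with hlt | heq | hgt
  · exact (key i i' (by omega) hlt hk h).elim
  · exact Fin.ext heq
  · exact (key i' i (by omega) hgt hk.symm h.symm).elim

theorem SD3_single {M t : ℕ} (b : ℕ → Fin M × Bool) (hb : RedW b t) (j : ℕ) (hj : j + 1 ≤ t)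
    (hn : j + 1 < n) (U : ℕ → (Fin n → F)) (hU : LinearIndependent F (fun i : Fin (j + 1) => U i)) :
    frac (fun x : Fin M → SLn n F => ∀ i : Fin (j + 1), (letv x (b i)).1 *ᵥ U i = U (i + 1)) ≤
      (1 / ((Fintype.card F : ℝ) ^ n - (Fintype.card F : ℝ) ^ (j + 1))) ^ (j + 1) := by
  classical
  let σ : Bool → ℕ → ℕ := fun s i => if (b i).2 = s then i else i + 1
  have hLI : ∀ s : Bool, (b j).2 = s → ∀ i0 : Fin M,
      LinearIndependent F (fun i : {i : Fin (j + 1) // (b i).1 = i0} => U (σ s i.1)) := by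
    intro s hs i0
    have hlt : ∀ i : Fin (j + 1), σ s i < j + 1 := by
      intro i
      show (if (b i).2 = s then (i : ℕ) else i + 1) < j + 1
      split_ifs with h
      · exact i.2
      · have : (i : ℕ) ≠ j := by
          intro h'
          rw [h'] at h
          exact h hs
        have := i.2
        omega
    have hcomp : (fun i : {i : Fin (j + 1) // (b i).1 = i0} => U (σ s i.1)) =
        (fun i : Fin (j + 1) => U i) ∘ (fun i : {i : Fin (j + 1) // (b i).1 = i0} => (⟨σ s i.1, hlt i.1⟩ : Fin (j + 1))) := rfl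
    rw [hcomp]
    apply hU.comp
    intro a a' haa
    apply Subtype.ext
    apply SD3_inj b hb j hj s a.1 a'.1 (a.2.trans a'.2.symm)
    exact congrArg Fin.val haa
  have h1 := frac_SL_constraints (F := F) (n := n) (fun i : Fin (j + 1) => (b i).1)
    (fun i => U (σ true i)) (fun i => U (σ false i)) (by
      intro i0
      rcases hbj : (b j).2 with _ | _
      · right
        exact hLI false hbj i0
      · left
        exact hLI true hbj i0) (by rw [Fintype.card_fin]; exact hn)
  rw [Fintype.card_fin] at h1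
  refine le_trans (frac_mono ?_) h1
  intro x hx i
  have hi := hx i
  unfold letv at hi
  show (x (b i).1).1 *ᵥ U (if (b i).2 = true then (i : ℕ) else i + 1) = U (if (b i).2 = false then (i : ℕ) else i + 1)
  rcases hbi : (b i).2 with _ | _
  · rw [hbi] at hi
    simp only [Bool.false_eq_true, if_false] at hi
    have h2 := sl_inv_apply hi
    rw [inv_inv] at h2
    simpa using h2
  · rw [hbi] at hi
    simpa using hi

theorem SD3_real (q j : ℕ) (hq : 2 ≤ q) (hn : 2 * (j + 1) ≤ n) (hn8 : 8 ≤ n) :
    (((q : ℝ) ^ n) ^ j * (q : ℝ) ^ (j + 1)) * (1 / ((q : ℝ) ^ n - (q : ℝ) ^ (j + 1))) ^ (j + 1) ≤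
      2 * (q : ℝ) ^ (j + 1) / (q : ℝ) ^ n := by
  have hq1 : (1 : ℝ) ≤ q := by exact_mod_cast (by omega : 1 ≤ q)
  have hq0 : (0 : ℝ) < q := by linarith
  obtain ⟨m, hm⟩ : ∃ m, n = m + (j + 1) := ⟨n - (j + 1), by omega⟩
  have hm1 : 1 ≤ m := by omega
  have hNm : j + 1 ≤ m := by omega
  have h2m : 2 * m ≤ 2 ^ m := by
    have : ∀ m : ℕ, 1 ≤ m → 2 * m ≤ 2 ^ m := by
      intro m hm
      induction m, hm using Nat.le_induction with
      | base => norm_num
      | succ k hk ih => rw [pow_succ]; omega
    exact this m hm1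
  have hnat : 2 * (j + 1) ≤ q ^ m := by
    calc 2 * (j + 1) ≤ 2 * m := by omega
      _ ≤ 2 ^ m := h2m
      _ ≤ q ^ m := Nat.pow_le_pow_left hq m
  have hreal : 2 * ((j : ℝ) + 1) ≤ (q : ℝ) ^ m := by exact_mod_cast hnat
  have hR : (0 : ℝ) < (q : ℝ) ^ (j + 1) := by positivity
  have hQ : (0 : ℝ) < (q : ℝ) ^ n := by positivity
  have hQR : (q : ℝ) ^ n = (q : ℝ) ^ m * (q : ℝ) ^ (j + 1) := by rw [hm, pow_add]
  have hm0 : (0 : ℝ) < (q : ℝ) ^ m := by positivity
  -- the ratio
  have hr : (q : ℝ) ^ (j + 1) / (q : ℝ) ^ n = 1 / (q : ℝ) ^ m := by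
    rw [hQR]; field_simp
  have hr1 : (1 : ℝ) / (q : ℝ) ^ m ≤ 1 := by
    rw [div_le_one hm0]
    exact one_le_pow₀ hq1
  have hbern : 1 + ((j + 1 : ℕ) : ℝ) * (-(1 / (q : ℝ) ^ m)) ≤ (1 + -(1 / (q : ℝ) ^ m)) ^ (j + 1) :=
    one_add_mul_le_pow (by linarith) (j + 1)
  have hhalf : (1 : ℝ) / 2 ≤ (1 - 1 / (q : ℝ) ^ m) ^ (j + 1) := by
    have h3 : ((j + 1 : ℕ) : ℝ) * (1 / (q : ℝ) ^ m) ≤ 1 / 2 := by
      rw [mul_one_div, div_le_iff₀ hm0]
      push_cast
      linarith
    have h4 : (1 + -(1 / (q : ℝ) ^ m)) = (1 - 1 / (q : ℝ) ^ m) := by ring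
    rw [h4] at hbern
    linarith
  have hpos : (0 : ℝ) < 1 - 1 / (q : ℝ) ^ m := by
    by_contra hcon
    have h5 : 1 - 1 / (q : ℝ) ^ m = 0 := by linarith
    rw [h5, zero_pow (by omega)] at hhalf
    linarith
  have hfac : (q : ℝ) ^ n - (q : ℝ) ^ (j + 1) = (q : ℝ) ^ n * (1 - 1 / (q : ℝ) ^ m) := by
    rw [hQR]; field_simp
  rw [hfac, one_div, inv_pow, mul_pow]
  have hP : (0 : ℝ) < (1 - 1 / (q : ℝ) ^ m) ^ (j + 1) := pow_pos hpos _
  rw [← div_eq_mul_inv, div_le_div_iff₀ (by positivity) hQ]
  have h6 : ((q : ℝ) ^ n) ^ (j + 1) = ((q : ℝ) ^ n) ^ j * (q : ℝ) ^ n := pow_succ _ _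
  rw [h6]
  have h7 : (0 : ℝ) ≤ ((q : ℝ) ^ n) ^ j * (q : ℝ) ^ (j + 1) * (q : ℝ) ^ n := by positivity
  nlinarith [mul_le_mul_of_nonneg_left hhalf h7]

theorem frac_dep_step {M t : ℕ} (b : ℕ → Fin M × Bool) (hb : RedW b t) (v : Fin n → F) (hv : v ≠ 0) (j : ℕ) (hj : j + 1 ≤ t)
    (hn : 2 * (j + 1) ≤ n) (hn8 : 8 ≤ n) :
    frac (fun x : Fin M → SLn n F => LinearIndependent F (fun i : Fin (j + 1) => walkV x b v i) ∧
      walkV x b v (j + 1) ∈ Submodule.span F (Set.range (fun i : Fin (j + 1) => walkV x b v i))) ≤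
      2 * (Fintype.card F : ℝ) ^ (j + 1) / (Fintype.card F : ℝ) ^ n := by
  classical
  have hq : 2 ≤ Fintype.card F := Fintype.one_lt_card
  let U : ((Fin j → (Fin n → F)) × (Fin (j + 1) → F)) → ℕ → (Fin n → F) := fun p i =>
    if h : i < j + 1 then (Fin.cons v p.1 : Fin (j + 1) → (Fin n → F)) ⟨i, h⟩
    else ∑ a, p.2 a • (Fin.cons v p.1 : Fin (j + 1) → (Fin n → F)) a
  have hmono : ∀ x : Fin M → SLn n F, (LinearIndependent F (fun i : Fin (j + 1) => walkV x b v i) ∧
      walkV x b v (j + 1) ∈ Submodule.span F (Set.range (fun i : Fin (j + 1) => walkV x b v i))) →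
      ∃ p ∈ (Finset.univ : Finset ((Fin j → (Fin n → F)) × (Fin (j + 1) → F))),
        LinearIndependent F (fun i : Fin (j + 1) => U p i) ∧
          ∀ i : Fin (j + 1), (letv x (b i)).1 *ᵥ U p i = U p (i + 1) := by
    rintro x ⟨h1, h2⟩
    obtain ⟨c, hc⟩ := (Submodule.mem_span_range_iff_exists_fun F).1 h2
    have hcons : (Fin.cons v (fun a : Fin j => walkV x b v (a + 1)) : Fin (j + 1) → (Fin n → F)) =
        fun i : Fin (j + 1) => walkV x b v i := by
      funext i
      refine Fin.cases ?_ (fun a => ?_) i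
      · simp [walkV]
      · simp
    have hUi : ∀ i, i ≤ j + 1 → U (fun a : Fin j => walkV x b v (a + 1), c) i = walkV x b v i := by
      intro i hi
      by_cases h : i < j + 1
      · show (if h : i < j + 1 then (Fin.cons v (fun a : Fin j => walkV x b v (a + 1)) : Fin (j + 1) → (Fin n → F)) ⟨i, h⟩
          else _) = _
        rw [dif_pos h, hcons]
      · have h' : i = j + 1 := by omega
        show (if h : i < j + 1 then (Fin.cons v (fun a : Fin j => walkV x b v (a + 1)) : Fin (j + 1) → (Fin n → F)) ⟨i, h⟩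
          else ∑ a, c a • (Fin.cons v (fun a : Fin j => walkV x b v (a + 1)) : Fin (j + 1) → (Fin n → F)) a) = _
        rw [dif_neg h, hcons, h']
        exact hc
    refine ⟨(fun a : Fin j => walkV x b v (a + 1), c), Finset.mem_univ _, ?_, ?_⟩
    · have : (fun i : Fin (j + 1) => U (fun a : Fin j => walkV x b v (a + 1), c) i) =
          fun i : Fin (j + 1) => walkV x b v i := by
        funext i
        exact hUi i (by omega)
      rw [this]
      exact h1
    · intro i
      rw [hUi i (by omega), hUi (i + 1) (by omega)]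
      rfl
  refine le_trans (frac_mono hmono) (le_trans (frac_exists_le _ _) ?_)
  have hB : ∀ p ∈ (Finset.univ : Finset ((Fin j → (Fin n → F)) × (Fin (j + 1) → F))),
      frac (fun x : Fin M → SLn n F => LinearIndependent F (fun i : Fin (j + 1) => U p i) ∧
          ∀ i : Fin (j + 1), (letv x (b i)).1 *ᵥ U p i = U p (i + 1)) ≤
      (1 / ((Fintype.card F : ℝ) ^ n - (Fintype.card F : ℝ) ^ (j + 1))) ^ (j + 1) := by
    intro p _
    by_cases hLI : LinearIndependent F (fun i : Fin (j + 1) => U p i)
    · exact le_trans (frac_mono fun x hx => hx.2) (SD3_single b hb j hj (by omega) (U p) hLI)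
    · have h0 : frac (fun x : Fin M → SLn n F => LinearIndependent F (fun i : Fin (j + 1) => U p i) ∧
          ∀ i : Fin (j + 1), (letv x (b i)).1 *ᵥ U p i = U p (i + 1)) ≤ frac (fun _ : Fin M → SLn n F => False) :=
        frac_mono fun x hx => hLI hx.1
      rw [N10_false] at h0
      refine h0.trans ?_
      apply pow_nonneg
      apply div_nonneg zero_le_one
      rw [sub_nonneg]
      apply pow_le_pow_right₀ _ (by omega)
      exact_mod_cast (by omega : 1 ≤ Fintype.card F)
  refine le_trans (Finset.sum_le_sum hB) ?_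
  rw [Finset.sum_const, Finset.card_univ, nsmul_eq_mul]
  have hcard : ((Fintype.card ((Fin j → (Fin n → F)) × (Fin (j + 1) → F)) : ℕ) : ℝ) =
      ((Fintype.card F : ℝ) ^ n) ^ j * (Fintype.card F : ℝ) ^ (j + 1) := by
    rw [Fintype.card_prod]
    simp
  rw [hcard]
  exact SD3_real (n := n) (Fintype.card F) j hq hn hn8

end Pool.Agent.BC5
end

section
set_option autoImplicit false
set_option linter.unusedSectionVars false
set_option linter.unusedVariables false
open scoped BigOperators Matrix
open Matrix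
namespace Pool.Agent.BC5


variable {n : ℕ} {F : Type} [Field F] [Fintype F] [DecidableEq F]

theorem SD4_geom (q : ℝ) (hq : 2 ≤ q) (t : ℕ) :
    ∑ j ∈ Finset.range t, q ^ (j + 1) ≤ 2 * q ^ t := by
  induction t with
  | zero => simp
  | succ t ih =>
    rw [Finset.sum_range_succ]
    have h1 : 0 ≤ q ^ t := by positivity
    have h2 : q ^ (t + 1) = q ^ t * q := pow_succ q t
    nlinarith

theorem SD4_card : (2 : ℝ) ≤ (Fintype.card F : ℝ) := by
  have : 1 < Fintype.card F := Fintype.one_lt_card
  exact_mod_cast this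

theorem frac_walk_line {M t : ℕ} (b : ℕ → Fin M × Bool) (hb : RedW b t) (ht : 1 ≤ t) (v : Fin n → F) (hv : v ≠ 0)
    (hn : 2 * t ≤ n) (hn8 : 8 ≤ n) :
    frac (fun x : Fin M → SLn n F => ∃ a : F, walkV x b v t = a • v) ≤
      4 * (Fintype.card F : ℝ) ^ t / (Fintype.card F : ℝ) ^ n := by
  have hq : (2 : ℝ) ≤ (Fintype.card F : ℝ) := SD4_card
  have h1 : frac (fun x : Fin M → SLn n F => ∃ a : F, walkV x b v t = a • v) ≤
      frac (fun x : Fin M → SLn n F => ∃ j ∈ Finset.range t,
        (LinearIndependent F (fun i : Fin (j + 1) => walkV x b v i) ∧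
        walkV x b v (j + 1) ∈
          Submodule.span F (Set.range (fun i : Fin (j + 1) => walkV x b v i)))) := by
    apply frac_mono
    rintro x ⟨a, ha⟩
    by_contra hno
    push Not at hno
    have hli : ∀ j < t, LinearIndependent F (fun i : Fin (j + 1) => walkV x b v i) := by
      intro j
      induction j with
      | zero =>
        intro _
        show LinearIndependent F (fun i : Fin 1 => walkV x b v i)
        exact LinearIndependent.of_subsingleton (0 : Fin 1) hv
      | succ j ih =>
        intro hj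
        have h2 := ih (by omega)
        have h3 := hno j (Finset.mem_range.2 (by omega)) h2
        rw [linearIndependent_finSucc']
        exact ⟨h2, h3⟩
    have h4 := hno (t - 1) (Finset.mem_range.2 (by omega)) (hli (t - 1) (by omega))
    apply h4
    have h5 : t - 1 + 1 = t := by omega
    rw [h5, ha]
    refine Submodule.smul_mem _ _ (Submodule.subset_span ⟨⟨0, by omega⟩, rfl⟩)
  refine h1.trans ((frac_exists_le _ _).trans ?_)
  have h2 : ∑ j ∈ Finset.range t, frac (fun x : Fin M → SLn n F =>
        (LinearIndependent F (fun i : Fin (j + 1) => walkV x b v i) ∧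
        walkV x b v (j + 1) ∈
          Submodule.span F (Set.range (fun i : Fin (j + 1) => walkV x b v i)))) ≤
      ∑ j ∈ Finset.range t, 2 * (Fintype.card F : ℝ) ^ (j + 1) / (Fintype.card F : ℝ) ^ n := by
    refine Finset.sum_le_sum fun j hj => ?_
    have hj' := Finset.mem_range.1 hj
    exact frac_dep_step b hb v hv j (by omega) (by omega) hn8
  refine h2.trans ?_
  rw [← Finset.sum_div]
  apply div_le_div_of_nonneg_right _ (by positivity)
  rw [← Finset.mul_sum]
  have := SD4_geom (Fintype.card F : ℝ) hq t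
  linarith

theorem SD4_walk {M : ℕ} (x : Fin M → SLn n F) (L : List (Fin M × Bool)) (d : Fin M × Bool)
    (v : Fin n → F) (j : ℕ) (hj : j ≤ L.length) :
    walkV x (fun j => L.getD (L.length - 1 - j) d) v j =
      ((((L.drop (L.length - j)).map (letv x)).prod : SLn n F)).1 *ᵥ v := by
  induction j with
  | zero =>
    simp only [walkV, Nat.sub_zero, List.drop_length, List.map_nil, List.prod_nil]
    exact (Matrix.one_mulVec v).symm
  | succ j ih =>
    have h1 : L.drop (L.length - (j + 1)) =
        L.getD (L.length - 1 - j) d :: L.drop (L.length - j) := by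
      have h2 : L.length - (j + 1) < L.length := by omega
      rw [List.drop_eq_getElem_cons h2]
      have h3 : L.length - (j + 1) + 1 = L.length - j := by omega
      have h4 : L.length - 1 - j = L.length - (j + 1) := by omega
      rw [h3, h4, List.getD_eq_getElem L d h2]
    rw [h1, List.map_cons, List.prod_cons, walkV, ih (by omega), sl_mul_apply]

theorem SD4_word {M : ℕ} (x : Fin M → SLn n F) (γ : FreeGroup (Fin M)) (d : Fin M × Bool)
    (v : Fin n → F) :
    walkV x (fun j => γ.toWord.getD (γ.norm - 1 - j) d) v γ.norm =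
      (FreeGroup.lift x γ : SLn n F).1 *ᵥ v := by
  have h2 := SD4_walk x γ.toWord d v γ.norm le_rfl
  have h3 : γ.toWord.length - γ.norm = 0 := by
    unfold FreeGroup.norm
    omega
  rw [h3, List.drop_zero] at h2
  have h4 : (γ.toWord.map (letv x)).prod = FreeGroup.lift x γ := by
    conv_rhs => rw [← FreeGroup.mk_toWord (x := γ), FreeGroup.lift_mk]
    congr 1
    apply List.map_congr_left
    intro c _
    unfold letv
    cases c.2 <;> simp
  rw [h4] at h2
  exact h2

theorem SD4_red {M : ℕ} (γ : FreeGroup (Fin M)) (d : Fin M × Bool) :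
    RedW (fun j => γ.toWord.getD (γ.norm - 1 - j) d) γ.norm := by
  intro j hj heq
  have hlen : γ.norm = γ.toWord.length := rfl
  have h1 : γ.norm - 1 - (j + 1) + 1 < γ.toWord.length := by omega
  have h2 : FreeGroup.IsReduced γ.toWord := FreeGroup.isReduced_toWord
  have h3 := (List.isChain_iff_getElem.mp h2) (γ.norm - 1 - (j + 1)) (by omega)
  have h4 : γ.norm - 1 - j = γ.norm - 1 - (j + 1) + 1 := by omega
  simp only at heq
  rw [h4, List.getD_eq_getElem _ d (by omega), List.getD_eq_getElem _ d h1] at heq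
  have h5 : γ.toWord[γ.norm - 1 - (j + 1)].1 = γ.toWord[γ.norm - 1 - (j + 1) + 1].1 := by
    rw [heq]
  have h6 := h3 h5
  rw [heq] at h6
  simp at h6

/-- If `g` is bad then many nonzero vectors are eigenvectors. -/
theorem SD4_many (g : SLn n F) (hg : BadSL g) :
    (Fintype.card F : ℝ) ^ (n / 2) ≤
      ∑ v ∈ Finset.univ.filter (fun v : Fin n → F => v ≠ 0),
        (open Classical in if (∃ a : F, g.1 *ᵥ v = a • v) then (1 : ℝ) else 0) := by
  classical
  obtain ⟨a, ha⟩ := hg
  set K := LinearMap.ker (Matrix.toLin' (g.1 - a • (1 : Matrix (Fin n) (Fin n) F))) with hK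
  have hcard : (Finset.univ.filter (fun v : Fin n → F => v ∈ K)).card =
      Fintype.card F ^ Module.finrank F K := by
    have h1 : Fintype.card K = Fintype.card F ^ Module.finrank F K := Module.card_eq_pow_finrank
    rw [← h1, Fintype.card_subtype]
  have hr : n / 2 + 1 ≤ Module.finrank F K := by omega
  have hq1 : 2 ≤ Fintype.card F := Fintype.one_lt_card
  have hpow : Fintype.card F ^ (n / 2) + 1 ≤ Fintype.card F ^ Module.finrank F K := by
    calc Fintype.card F ^ (n / 2) + 1 ≤ Fintype.card F ^ (n / 2) * 2 := by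
          have : 1 ≤ Fintype.card F ^ (n / 2) := Nat.one_le_pow _ _ (by omega)
          omega
      _ ≤ Fintype.card F ^ (n / 2) * Fintype.card F := Nat.mul_le_mul_left _ hq1
      _ = Fintype.card F ^ (n / 2 + 1) := (pow_succ _ _).symm
      _ ≤ _ := Nat.pow_le_pow_right (by omega) hr
  have h0 : (0 : Fin n → F) ∈ Finset.univ.filter (fun v : Fin n → F => v ∈ K) := by
    simp
  have hsub : (Finset.univ.filter (fun v : Fin n → F => v ∈ K)).erase 0 ⊆
      (Finset.univ.filter (fun v : Fin n → F => v ≠ 0)).filter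
        (fun v => ∃ a : F, g.1 *ᵥ v = a • v) := by
    intro v hv
    rw [Finset.mem_erase, Finset.mem_filter] at hv
    rw [Finset.mem_filter, Finset.mem_filter]
    refine ⟨⟨Finset.mem_univ _, hv.1⟩, a, ?_⟩
    have h2 := hv.2.2
    rw [hK, LinearMap.mem_ker, Matrix.toLin'_apply, Matrix.sub_mulVec, Matrix.smul_mulVec,
      Matrix.one_mulVec, sub_eq_zero] at h2
    exact h2
  have h3 := Finset.card_le_card hsub
  rw [Finset.card_erase_of_mem h0, hcard] at h3
  rw [Finset.sum_boole]
  have h4 : Fintype.card F ^ (n / 2) ≤ ((Finset.univ.filter (fun v : Fin n → F => v ≠ 0)).filter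
        (fun v => ∃ a : F, g.1 *ᵥ v = a • v)).card := by omega
  exact_mod_cast h4

theorem frac_bad {M t : ℕ} (γ : FreeGroup (Fin M)) (hγ : γ ≠ 1) (ht : γ.norm ≤ t) (hn : 2 * t ≤ n) (hn8 : 8 ≤ n) :
    frac (fun x : Fin M → SLn n F => BadSL (FreeGroup.lift x γ)) ≤
      4 * (Fintype.card F : ℝ) ^ t / (Fintype.card F : ℝ) ^ (n / 2) := by
  classical
  have hq : (2 : ℝ) ≤ (Fintype.card F : ℝ) := SD4_card
  have hq0 : (0 : ℝ) < (Fintype.card F : ℝ) := by linarith
  have hnorm : 1 ≤ γ.norm := by
    rcases Nat.eq_zero_or_pos γ.norm with h0 | h0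
    · exact absurd (FreeGroup.norm_eq_zero.mp h0) hγ
    · exact h0
  have hne : γ.toWord ≠ [] := by
    intro h0
    have : γ.norm = 0 := by unfold FreeGroup.norm; rw [h0]; rfl
    omega
  set b : ℕ → Fin M × Bool := fun j => γ.toWord.getD (γ.norm - 1 - j) (γ.toWord.head hne) with hb
  have hred : RedW b γ.norm := SD4_red γ _
  have hc : (0 : ℝ) < (Fintype.card F : ℝ) ^ (n / 2) := by positivity
  have h1 := frac_le_avg_div (P := fun x : Fin M → SLn n F => BadSL (FreeGroup.lift x γ))
    (f := fun x : Fin M → SLn n F => ∑ v ∈ Finset.univ.filter (fun v : Fin n → F => v ≠ 0),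
        (if (∃ a : F, walkV x b v γ.norm = a • v) then (1 : ℝ) else 0)) hc
    (fun x => Finset.sum_nonneg fun v _ => by split_ifs <;> norm_num) (by
      intro x hx
      have h2 := SD4_many (FreeGroup.lift x γ) hx
      refine h2.trans (le_of_eq ?_)
      refine Finset.sum_congr rfl fun v _ => ?_
      rw [hb, SD4_word])
  refine h1.trans ?_
  rw [avg_sum]
  apply div_le_div_of_nonneg_right _ hc.le
  have h3 : ∑ v ∈ Finset.univ.filter (fun v : Fin n → F => v ≠ 0),
      avg (fun x : Fin M → SLn n F =>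
        (if (∃ a : F, walkV x b v γ.norm = a • v) then (1 : ℝ) else 0)) ≤
      ∑ v ∈ Finset.univ.filter (fun v : Fin n → F => v ≠ 0),
        4 * (Fintype.card F : ℝ) ^ γ.norm / (Fintype.card F : ℝ) ^ n := by
    refine Finset.sum_le_sum fun v hv => ?_
    have hv' := (Finset.mem_filter.1 hv).2
    refine le_trans (le_of_eq ?_) (frac_walk_line b hred hnorm v hv' (by omega) hn8)
    unfold frac
    congr 1
    funext x
    congr
  refine h3.trans ?_
  rw [Finset.sum_const, nsmul_eq_mul]
  have h4 : ((Finset.univ.filter (fun v : Fin n → F => v ≠ 0)).card : ℝ) ≤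
      (Fintype.card F : ℝ) ^ n := by
    have h5 : (Finset.univ.filter (fun v : Fin n → F => v ≠ 0)).card ≤ Fintype.card F ^ n := by
      refine (Finset.card_filter_le _ _).trans (le_of_eq ?_)
      rw [Finset.card_univ, Fintype.card_fun, Fintype.card_fin]
    exact_mod_cast h5
  have h6 : (0 : ℝ) < (Fintype.card F : ℝ) ^ n := by positivity
  calc ((Finset.univ.filter (fun v : Fin n → F => v ≠ 0)).card : ℝ) *
        (4 * (Fintype.card F : ℝ) ^ γ.norm / (Fintype.card F : ℝ) ^ n)
      ≤ (Fintype.card F : ℝ) ^ n *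
        (4 * (Fintype.card F : ℝ) ^ γ.norm / (Fintype.card F : ℝ) ^ n) := by
        apply mul_le_mul_of_nonneg_right h4
        positivity
    _ = 4 * (Fintype.card F : ℝ) ^ γ.norm := by
        field_simp
    _ ≤ 4 * (Fintype.card F : ℝ) ^ t := by
        have : (Fintype.card F : ℝ) ^ γ.norm ≤ (Fintype.card F : ℝ) ^ t :=
          pow_le_pow_right₀ (by linarith) ht
        linarith

end Pool.Agent.BC5
end

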