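import Pool.Agent.Lib.MP_bc5a73_al.SlConfig
import Pool.Agent.Lib.MP_bc5a73_al.SlWords
import Pool.Agent.Lib.MP_bc5a73_al.Criterion
import Pool.Agent.Lib.MP_bc5a73_al.SlClasses
import Pool.Agent.Lib.MP_bc5a73_al.FinalGen
import Pool.Agent.Lib.MP_bc5a73_al.Statement

section
set_option autoImplicit false
set_option linter.unusedSectionVars false
set_option linter.unusedVariables false
open scoped BigOperators Matrix
open Matrix
namespace Pool.Agent.BC5


theorem SL_large : ∃ C : ℝ, 1 ≤ C ∧ ∃ κ : ℝ, 0 < κ ∧ κ ≤ 1 ∧ ∃ n0 : ℕ, 8 ≤ n0 ∧ ∀ n : ℕ, n0 ≤ n → ∀ (F : Type) [Field F] [Fintype F] [DecidableEq F],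
    ∀ m : ℕ, C * Real.log ((n : ℝ) * Fintype.card F) ≤ m →
      (1 - (Fintype.card F : ℝ) ^ (-(κ * n))) * (Nat.card (SLn n F) : ℝ) ^ m ≤
        (Nat.card {x : Fin m → SLn n F // ∀ A : Set (SLn n F), 2 * Nat.card A ≤ Nat.card (SLn n F) →
            1 / 8 * (Nat.card A : ℝ) ≤
              (Nat.card {g : SLn n F // g ∉ A ∧ ∃ a ∈ A, ∃ i : Fin m, g = a * x i ∨ g = a * (x i)⁻¹} : ℝ)} : ℝ) := by
  obtain ⟨C, hC, n1, hcrit⟩ := criterion (1 / 300) 4 (by norm_num) (by norm_num) (by norm_num)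
  obtain ⟨n2, hchar⟩ := char_SL
  refine ⟨C, hC, 1 / 2400, by norm_num, by norm_num, max n1 (max n2 8),
    le_max_of_le_right (le_max_right _ _), ?_⟩
  intro n hn F _ _ _ m hm
  have hn1 : n1 ≤ n := le_trans (le_max_left _ _) hn
  have hn2 : n2 ≤ n := le_trans (le_trans (le_max_left _ _) (le_max_right _ _)) hn
  have hn8 : 8 ≤ n := le_trans (le_trans (le_max_right _ _) (le_max_right _ _)) hn
  have hq : 2 ≤ Fintype.card F := Fintype.one_lt_card
  have hqR : (2 : ℝ) ≤ (Fintype.card F : ℝ) := by exact_mod_cast hq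
  have hq1 : (1 : ℝ) ≤ (Fintype.card F : ℝ) := by linarith
  have hq0 : (0 : ℝ) < (Fintype.card F : ℝ) := by linarith
  have hnR : (8 : ℝ) ≤ (n : ℝ) := by exact_mod_cast hn8
  have hcard : (Fintype.card (SLn n F) : ℝ) ≤ (Fintype.card F : ℝ) ^ ((4 : ℝ) * (n : ℝ) ^ 2) := by
    have h1 : (Fintype.card (SLn n F) : ℝ) ≤ (Fintype.card F : ℝ) ^ (n ^ 2) := by
      exact_mod_cast card_SL_le n F
    refine h1.trans ?_
    rw [← Real.rpow_natCast]
    refine Real.rpow_le_rpow_of_exponent_le hq1 ?_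
    push_cast
    nlinarith [sq_nonneg (n : ℝ)]
  have hkc : (kc (SLn n F) : ℝ) ≤ ((n : ℝ) * (Fintype.card F : ℝ)) ^ ((4 : ℝ) * (n : ℝ)) := by
    have h1 : kc (SLn n F) ≤ (n * Fintype.card F) ^ (4 * n) := by
      refine (kc_SL_le n (by omega) F).trans ?_
      rw [mul_pow]
      refine Nat.mul_le_mul ?_ (Nat.pow_le_pow_right (by omega) (by omega))
      have h2 : n + 1 ≤ n ^ 2 := by nlinarith
      calc (n + 1) ^ (2 * n) ≤ (n ^ 2) ^ (2 * n) := Nat.pow_le_pow_left h2 _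
        _ = n ^ (4 * n) := by rw [← pow_mul]; congr 1; ring
    have h3 : (kc (SLn n F) : ℝ) ≤ ((n : ℝ) * (Fintype.card F : ℝ)) ^ (4 * n) := by
      exact_mod_cast h1
    refine h3.trans (le_of_eq ?_)
    rw [← Real.rpow_natCast]
    congr 1
    push_cast
    ring
  have hfrac : ∀ M : ℕ, ∀ γ : FreeGroup (Fin M), γ ≠ 1 → (γ.norm : ℝ) ≤ 1 / 300 * n →
      frac (fun x : Fin M → SLn n F => BadSL (FreeGroup.lift x γ)) ≤ (Fintype.card F : ℝ) ^ (-(1 / 300 * (n : ℝ))) := by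
    intro M γ hγ hγn
    have ht : γ.norm ≤ n / 300 := by
      rw [Nat.le_div_iff_mul_le (by norm_num)]
      have : (γ.norm : ℝ) * 300 ≤ n := by linarith
      exact_mod_cast this
    refine (frac_bad γ hγ ht (by omega) hn8).trans ?_
    rw [div_le_iff₀ (by positivity), ← Real.rpow_natCast, ← Real.rpow_natCast, ← Real.rpow_add hq0]
    have h4 : (4 : ℝ) ≤ (Fintype.card F : ℝ) ^ (2 : ℝ) := by
      rw [Real.rpow_two]
      nlinarith
    calc 4 * (Fintype.card F : ℝ) ^ ((n / 300 : ℕ) : ℝ)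
        ≤ (Fintype.card F : ℝ) ^ (2 : ℝ) * (Fintype.card F : ℝ) ^ ((n / 300 : ℕ) : ℝ) :=
          mul_le_mul_of_nonneg_right h4 (Real.rpow_nonneg hq0.le _)
      _ = (Fintype.card F : ℝ) ^ ((2 : ℝ) + ((n / 300 : ℕ) : ℝ)) := by rw [Real.rpow_add hq0]
      _ ≤ _ := by
        refine Real.rpow_le_rpow_of_exponent_le hq1 ?_
        have h5 : ((n / 300 : ℕ) : ℝ) ≤ (n : ℝ) / 300 := Nat.cast_div_le
        have h6 : (n : ℝ) ≤ 2 * ((n / 2 : ℕ) : ℝ) + 1 := by
          have : n ≤ 2 * (n / 2) + 1 := by omega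
          exact_mod_cast this
        linarith
  have h := hcrit n (Fintype.card F) hn1 hq (SLn n F) hcard hkc BadSL
    (fun E hE hEJ g hg => hchar n hn2 F E hE hEJ g hg) hfrac m hm
  have e : (Fintype.card F : ℝ) ^ (-(1 / 300 * (n : ℝ) / 8)) = (Fintype.card F : ℝ) ^ (-(1 / 2400 * (n : ℝ))) := by
    congr 1
    ring
  rwa [e] at h

end Pool.Agent.BC5
end

section
set_option autoImplicit false
set_option linter.unusedSectionVars false
set_option linter.unusedVariables false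
open scoped BigOperators Matrix
open Matrix
namespace Pool.Agent.BC5


theorem SL_small (n0 : ℕ) : ∃ C : ℝ, 1 ≤ C ∧ ∀ n : ℕ, 2 ≤ n → n < n0 → ∀ (F : Type) [Field F] [Fintype F] [DecidableEq F],
    ∀ m : ℕ, C * Real.log ((n : ℝ) * Fintype.card F) ≤ m →
      1 - 1 / (Fintype.card F : ℝ) ≤ probExpd (SLn n F) m (1 / 8) := by
  obtain ⟨C0, hC0, hgen⟩ := general_log
  refine ⟨C0 * (2 * (n0 : ℝ) ^ 2 + 1), ?_, ?_⟩
  · have h1 : (1 : ℝ) ≤ 2 * (n0 : ℝ) ^ 2 + 1 := by nlinarith [sq_nonneg (n0 : ℝ)]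
    nlinarith
  · intro n hn hnn F _ _ _ m hm
    have hq : 2 ≤ Fintype.card F := Fintype.one_lt_card
    have hk : Fintype.card F ≤ Nat.card (ConjClasses (SLn n F)) := card_le_kc_SL n hn F
    have hkG : Nat.card (ConjClasses (SLn n F)) ≤ Nat.card (SLn n F) :=
      Nat.card_le_card_of_surjective (ConjClasses.mk (α := SLn n F)) ConjClasses.mk_surjective
    have hGq : Nat.card (SLn n F) ≤ Fintype.card F ^ (n0 ^ 2) := by
      rw [Nat.card_eq_fintype_card]
      refine (card_SL_le n F).trans (Nat.pow_le_pow_right (by omega) ?_)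
      exact Nat.pow_le_pow_left hnn.le 2
    have hqR : (2 : ℝ) ≤ (Fintype.card F : ℝ) := by exact_mod_cast hq
    have hkR : (Fintype.card F : ℝ) ≤ (Nat.card (ConjClasses (SLn n F)) : ℝ) := by exact_mod_cast hk
    have hkGR : (Nat.card (ConjClasses (SLn n F)) : ℝ) ≤ (Nat.card (SLn n F) : ℝ) := by exact_mod_cast hkG
    have hGqR : (Nat.card (SLn n F) : ℝ) ≤ (Fintype.card F : ℝ) ^ (n0 ^ 2) := by exact_mod_cast hGq
    have hlq : 0 ≤ Real.log (Fintype.card F : ℝ) := Real.log_nonneg (by linarith)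
    have hlG : Real.log (Nat.card (SLn n F) : ℝ) ≤ (n0 : ℝ) ^ 2 * Real.log (Fintype.card F : ℝ) := by
      have h1 := Real.log_le_log (by linarith) hGqR
      rw [Real.log_pow] at h1
      push_cast at h1
      exact h1
    have hlk : Real.log (Nat.card (ConjClasses (SLn n F)) : ℝ) ≤ Real.log (Nat.card (SLn n F) : ℝ) :=
      Real.log_le_log (by linarith) hkGR
    have hlG0 : 0 ≤ Real.log (Nat.card (SLn n F) : ℝ) := Real.log_nonneg (by linarith)
    have hll : Real.log (Real.log (Nat.card (SLn n F) : ℝ)) ≤ Real.log (Nat.card (SLn n F) : ℝ) :=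
      Real.log_le_self hlG0
    have hnq : Real.log (Fintype.card F : ℝ) ≤ Real.log ((n : ℝ) * Fintype.card F) := by
      apply Real.log_le_log (by linarith)
      have : (2 : ℝ) ≤ n := by exact_mod_cast hn
      nlinarith
    have hfin : C0 * (Real.log (Nat.card (ConjClasses (SLn n F))) + Real.log (Real.log (Nat.card (SLn n F)))) ≤ m := by
      refine le_trans ?_ hm
      rw [mul_assoc]
      apply mul_le_mul_of_nonneg_left _ (by linarith)
      have h2 : (n0 : ℝ) ^ 2 * Real.log (Fintype.card F : ℝ) ≤ (n0 : ℝ) ^ 2 * Real.log ((n : ℝ) * Fintype.card F) :=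
        mul_le_mul_of_nonneg_left hnq (sq_nonneg _)
      have h3 : 0 ≤ Real.log ((n : ℝ) * Fintype.card F) := le_trans hlq hnq
      linarith
    have h4 := hgen (SLn n F) m (by omega) hfin
    have h5 := le_probExpd h4
    refine le_trans ?_ h5
    have h6 : 1 / (Nat.card (ConjClasses (SLn n F)) : ℝ) ≤ 1 / (Fintype.card F : ℝ) :=
      one_div_le_one_div_of_le (by linarith) hkR
    linarith

private theorem SG2_expd {G : Type} [Group G] [Finite G] (N : Subgroup G) [N.Normal] (m : ℕ) (ε : ℝ)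
    (x : Fin m → G) (hx : x ∈ Expd G m ε) : (fun i => (x i : G ⧸ N)) ∈ Expd (G ⧸ N) m ε := by
  intro A hA
  have hGN : Nat.card G = Nat.card (G ⧸ N) * Nat.card N := Subgroup.card_eq_card_quotient_mul_card_subgroup N
  have hN : 0 < Nat.card N := Nat.card_pos
  have hA' : Nat.card (((↑) : G → G ⧸ N) ⁻¹' A) = Nat.card N * Nat.card A := QuotientGroup.card_preimage_mk N A
  have h1 := hx (((↑) : G → G ⧸ N) ⁻¹' A) (by
    rw [hA', hGN]
    calc 2 * (Nat.card N * Nat.card A) = (2 * Nat.card A) * Nat.card N := by ring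
      _ ≤ Nat.card (G ⧸ N) * Nat.card N := Nat.mul_le_mul_right _ hA)
  set B : Set (G ⧸ N) := {g | g ∉ A ∧ ∃ a ∈ A, ∃ i : Fin m, g = a * (x i : G ⧸ N) ∨ g = a * ((x i : G ⧸ N))⁻¹} with hB
  have hB' : Nat.card (((↑) : G → G ⧸ N) ⁻¹' B) = Nat.card N * Nat.card B := QuotientGroup.card_preimage_mk N B
  have h2 : Nat.card {g : G // g ∉ (((↑) : G → G ⧸ N) ⁻¹' A) ∧ ∃ a ∈ (((↑) : G → G ⧸ N) ⁻¹' A), ∃ i : Fin m,
      g = a * x i ∨ g = a * (x i)⁻¹} ≤ Nat.card (((↑) : G → G ⧸ N) ⁻¹' B) := by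
    apply Nat.card_mono (s := {g : G | g ∉ (((↑) : G → G ⧸ N) ⁻¹' A) ∧ ∃ a ∈ (((↑) : G → G ⧸ N) ⁻¹' A), ∃ i : Fin m,
      g = a * x i ∨ g = a * (x i)⁻¹}) (Set.toFinite _)
    rintro g ⟨hg, a, ha, i, hi⟩
    refine ⟨hg, (a : G ⧸ N), ha, i, ?_⟩
    rcases hi with hi | hi
    · left; rw [hi]; rfl
    · right; rw [hi]; rfl
  have h3 : (Nat.card {g : G // g ∉ (((↑) : G → G ⧸ N) ⁻¹' A) ∧ ∃ a ∈ (((↑) : G → G ⧸ N) ⁻¹' A), ∃ i : Fin m,
      g = a * x i ∨ g = a * (x i)⁻¹} : ℝ) ≤ (Nat.card N : ℝ) * Nat.card B := by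
    rw [hB'] at h2
    exact_mod_cast h2
  have h4 := h1.trans h3
  rw [hA'] at h4
  push_cast at h4
  have hNR : (0 : ℝ) < Nat.card N := by exact_mod_cast hN
  have h5 : (Nat.card N : ℝ) * (ε * Nat.card A) ≤ (Nat.card N : ℝ) * Nat.card B := by linarith
  exact le_of_mul_le_mul_left h5 hNR

theorem probExpd_quotient {G : Type} [Group G] [Finite G] (N : Subgroup G) [N.Normal] (m : ℕ) (ε : ℝ) :
    probExpd G m ε ≤ probExpd (G ⧸ N) m ε := by
  have hGN : Nat.card G = Nat.card (G ⧸ N) * Nat.card N := Subgroup.card_eq_card_quotient_mul_card_subgroup N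
  have hN : 0 < Nat.card N := Nat.card_pos
  have hQ : 0 < Nat.card (G ⧸ N) := Nat.card_pos
  have hmem : ∀ g : G, ((g : G ⧸ N).out)⁻¹ * g ∈ N := by
    intro g
    rw [← QuotientGroup.eq]
    exact Quotient.out_eq' _
  have hcard : Nat.card (Expd G m ε) ≤ Nat.card (Expd (G ⧸ N) m ε) * Nat.card N ^ m := by
    have h1 : Nat.card (Fin m → N) = Nat.card N ^ m := by
      rw [Nat.card_fun, Nat.card_fin]
    rw [← h1, ← Nat.card_prod]
    refine Nat.card_le_card_of_injective (fun x : Expd G m ε =>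
      ((⟨fun i => ((x.1 i : G) : G ⧸ N), SG2_expd N m ε x.1 x.2⟩ : Expd (G ⧸ N) m ε),
        (fun i => ⟨((x.1 i : G ⧸ N).out)⁻¹ * x.1 i, hmem (x.1 i)⟩ : Fin m → N))) ?_
    intro x y hxy
    simp only [Prod.mk.injEq, Subtype.mk.injEq] at hxy
    obtain ⟨h1, h2⟩ := hxy
    apply Subtype.ext
    funext i
    have h3 : ((x.1 i : G) : G ⧸ N) = (y.1 i : G ⧸ N) := congrFun h1 i
    have h4 := congrFun h2 i
    rw [Subtype.mk.injEq, h3] at h4
    exact mul_left_cancel h4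
  unfold probExpd
  have hQR : (0 : ℝ) < (Nat.card (G ⧸ N) : ℝ) := by exact_mod_cast hQ
  have hNR : (0 : ℝ) < (Nat.card N : ℝ) := by exact_mod_cast hN
  rw [hGN, div_le_div_iff₀ (by push_cast; positivity) (by positivity)]
  push_cast
  rw [mul_pow]
  have h5 : (Nat.card (Expd G m ε) : ℝ) ≤ (Nat.card (Expd (G ⧸ N) m ε) : ℝ) * (Nat.card N : ℝ) ^ m := by exact_mod_cast hcard
  calc (Nat.card (Expd G m ε) : ℝ) * (Nat.card (G ⧸ N) : ℝ) ^ m
      ≤ ((Nat.card (Expd (G ⧸ N) m ε) : ℝ) * (Nat.card N : ℝ) ^ m) * (Nat.card (G ⧸ N) : ℝ) ^ m :=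
        mul_le_mul_of_nonneg_right h5 (by positivity)
    _ = (Nat.card (Expd (G ⧸ N) m ε) : ℝ) * ((Nat.card (G ⧸ N) : ℝ) ^ m * (Nat.card N : ℝ) ^ m) := by ring

end Pool.Agent.BC5
end

section
set_option autoImplicit false
set_option linter.unusedSectionVars false
set_option linter.unusedVariables false
open scoped BigOperators Matrix
open Matrix
namespace Pool.Agent.BC5


theorem SL_all : ∃ C : ℝ, ∃ κ : ℝ, 0 < κ ∧ ∀ n : ℕ, 2 ≤ n → ∀ (F : Type) [Field F] [Finite F],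
    ∀ m : ℕ, C * Real.log ((n : ℝ) * Nat.card F) ≤ m →
      1 - (Nat.card F : ℝ) ^ (-(κ * n)) ≤ probExpd (Matrix.SpecialLinearGroup (Fin n) F) m (1 / 8) := by
  classical
  obtain ⟨C1, hC1, κ, hκ, hκ1, n0, hn0, hL⟩ := SL_large
  obtain ⟨C2, hC2, hS⟩ := SL_small n0
  have hn0pos : (0 : ℝ) < (n0 : ℝ) := by
    have : 0 < n0 := by omega
    exact_mod_cast this
  refine ⟨max C1 C2, min κ (1 / (n0 : ℝ)), lt_min hκ (by positivity), ?_⟩
  intro n hn F _ _ m hm
  have : Fintype F := Fintype.ofFinite F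
  have hq1 : (1 : ℝ) ≤ (Nat.card F : ℝ) := by
    have : 1 ≤ Nat.card F := Nat.card_pos
    exact_mod_cast this
  have hn1 : (1 : ℝ) ≤ (n : ℝ) := by
    have : 1 ≤ n := by omega
    exact_mod_cast this
  have hlog : 0 ≤ Real.log ((n : ℝ) * Nat.card F) := by
    apply Real.log_nonneg
    nlinarith
  have hcard : (Nat.card F : ℝ) = (Fintype.card F : ℝ) := by rw [Nat.card_eq_fintype_card]
  by_cases hnn : n0 ≤ n
  · have h1 : C1 * Real.log ((n : ℝ) * Fintype.card F) ≤ m := by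
      rw [← hcard]
      exact (mul_le_mul_of_nonneg_right (le_max_left C1 C2) hlog).trans hm
    have h2 := le_probExpd (hL n hnn F m h1)
    have h3 : (Nat.card F : ℝ) ^ (-(κ * n)) ≤ (Nat.card F : ℝ) ^ (-(min κ (1 / (n0 : ℝ)) * n)) := by
      apply Real.rpow_le_rpow_of_exponent_le hq1
      have : min κ (1 / (n0 : ℝ)) ≤ κ := min_le_left _ _
      nlinarith
    rw [← hcard] at h2
    exact (sub_le_sub_left h3 1).trans h2
  · have hlt : n < n0 := by omega
    have h1 : C2 * Real.log ((n : ℝ) * Fintype.card F) ≤ m := by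
      rw [← hcard]
      exact (mul_le_mul_of_nonneg_right (le_max_right C1 C2) hlog).trans hm
    have h2 := hS n hn hlt F m h1
    have h3 : 1 / (Nat.card F : ℝ) ≤ (Nat.card F : ℝ) ^ (-(min κ (1 / (n0 : ℝ)) * n)) := by
      have h4 : (Nat.card F : ℝ) ^ (-1 : ℝ) ≤ (Nat.card F : ℝ) ^ (-(min κ (1 / (n0 : ℝ)) * n)) := by
        apply Real.rpow_le_rpow_of_exponent_le hq1
        have h5 : min κ (1 / (n0 : ℝ)) ≤ 1 / (n0 : ℝ) := min_le_right _ _
        have h6 : min κ (1 / (n0 : ℝ)) * n ≤ 1 / (n0 : ℝ) * n :=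
          mul_le_mul_of_nonneg_right h5 (by linarith)
        have h7 : 1 / (n0 : ℝ) * n ≤ 1 := by
          rw [one_div, inv_mul_le_iff₀ hn0pos, mul_one]
          exact_mod_cast hlt.le
        linarith
      rw [Real.rpow_neg_one] at h4
      rw [one_div]
      exact h4
    rw [← hcard] at h2
    exact (sub_le_sub_left h3 1).trans h2

theorem PSL_all : ∃ C : ℝ, ∃ κ : ℝ, 0 < κ ∧ ∀ n : ℕ, 2 ≤ n → ∀ (F : Type) [Field F] [Finite F],
    ∀ m : ℕ, C * Real.log ((n : ℝ) * Nat.card F) ≤ m →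
      1 - (Nat.card F : ℝ) ^ (-(κ * n)) ≤
        probExpd (Matrix.SpecialLinearGroup (Fin n) F ⧸ Subgroup.center (Matrix.SpecialLinearGroup (Fin n) F)) m (1 / 8) := by
  classical
  obtain ⟨C, κ, hκ, h⟩ := SL_all
  refine ⟨C, κ, hκ, ?_⟩
  intro n hn F _ _ m hm
  have : Finite (Matrix.SpecialLinearGroup (Fin n) F) := by
    have : Fintype F := Fintype.ofFinite F
    infer_instance
  exact (h n hn F m hm).trans (probExpd_quotient _ m (1 / 8))

end Pool.Agent.BC5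
end

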