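import Pool.Agent.Lib.MP_bc5a73_al.QuasiDefs
import Pool.Agent.Lib.MP_bc5a73_al.SlClasses

section
set_option autoImplicit false
set_option linter.unusedSectionVars false
set_option linter.unusedVariables false
open scoped BigOperators Matrix
open Matrix
namespace Pool.Agent.BC5


theorem QK1_sum {m : ℕ} (D : Fin m → ℕ) (t : ℕ) (ht : t ≤ m) :
    ∑ i : Fin t, D (Fin.castLE ht i) = ∑ s ∈ Finset.range t, (if h : s < m then D ⟨s, h⟩ else 0) := by
  rw [← Fin.sum_univ_eq_sum_range (fun s => if h : s < m then D ⟨s, h⟩ else 0) t]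
  refine Finset.sum_congr rfl fun i _ => ?_
  have h1 : (i : ℕ) < m := lt_of_lt_of_le i.2 ht
  rw [dif_pos h1]
  rfl

/-- The lexicographic enumeration of the positions of the blocks. -/
theorem QK1_order {m : ℕ} (D : Fin m → ℕ) {n : ℕ} (h : ∑ i, D i = n) :
    ∃ e : (Σ i : Fin m, Fin (D i)) ≃ Fin n,
      (∀ (i1 i2 : Fin m) (j1 : Fin (D i1)) (j2 : Fin (D i2)), i1 < i2 → e ⟨i1, j1⟩ < e ⟨i2, j2⟩) ∧
      (∀ (i : Fin m) (j1 j2 : Fin (D i)), (e ⟨i, j2⟩).val + j1.val = (e ⟨i, j1⟩).val + j2.val) := by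
  subst h
  refine ⟨finSigmaFinEquiv, ?_, ?_⟩
  · intro i1 i2 j1 j2 hij
    rw [Fin.lt_def, finSigmaFinEquiv_apply, finSigmaFinEquiv_apply]
    change (∑ i : Fin i1.1, D (Fin.castLE i1.2.le i)) + j1.1 < (∑ i : Fin i2.1, D (Fin.castLE i2.2.le i)) + j2.1
    rw [QK1_sum, QK1_sum]
    have h1 : ∑ s ∈ Finset.range (i1.1 + 1), (if h : s < m then D ⟨s, h⟩ else 0) ≤
        ∑ s ∈ Finset.range i2.1, (if h : s < m then D ⟨s, h⟩ else 0) :=
      Finset.sum_le_sum_of_subset (Finset.range_mono (Nat.succ_le_of_lt (Fin.lt_def.1 hij)))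
    rw [Finset.sum_range_succ, dif_pos i1.2] at h1
    have h2 : (j1 : ℕ) < D i1 := j1.2
    have h3 : D ⟨i1.1, i1.2⟩ = D i1 := rfl
    omega
  · intro i j1 j2
    rw [finSigmaFinEquiv_apply, finSigmaFinEquiv_apply]
    change (∑ i' : Fin i.1, D (Fin.castLE i.2.le i')) + j2.1 + j1.1 = (∑ i' : Fin i.1, D (Fin.castLE i.2.le i')) + j1.1 + j2.1
    omega

theorem QK1_basis {n : ℕ} {F : Type} [Field F] (T : (Fin n → F) →ₗ[F] (Fin n → F)) :
    ∃ (m : ℕ) (d : Fin m → ℕ) (a : ∀ i, Fin (d i) → F)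
      (b : Module.Basis (Σ i, Fin (d i)) F (Fin n → F)),
      (∀ i (j : Fin (d i)) (h : (j : ℕ) + 1 < d i), T (b ⟨i, j⟩) = b ⟨i, ⟨j + 1, h⟩⟩) ∧
      (∀ i (j : Fin (d i)), ¬ (j : ℕ) + 1 < d i → T (b ⟨i, j⟩) = ∑ k, a i k • b ⟨i, k⟩) := by
  classical
  obtain ⟨ι, hι, d, a, b, h1, h2⟩ := SF1_basis T
  let eι : ι ≃ Fin (Fintype.card ι) := Fintype.equivFin ι
  let g : (Σ x : Fin (Fintype.card ι), Fin (d (eι.symm x))) ≃ Σ i : ι, Fin (d i) :=
    Equiv.sigmaCongrLeft (β := fun i => Fin (d i)) eι.symm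
  have hg : ∀ (x : Fin (Fintype.card ι)) (j : Fin (d (eι.symm x))), g ⟨x, j⟩ = ⟨eι.symm x, j⟩ := fun x j => rfl
  have hb : ∀ (x : Fin (Fintype.card ι)) (j : Fin (d (eι.symm x))), (b.reindex g.symm) ⟨x, j⟩ = b ⟨eι.symm x, j⟩ := by
    intro x j
    rw [Module.Basis.reindex_apply, Equiv.symm_symm, hg]
  refine ⟨Fintype.card ι, fun x => d (eι.symm x), fun x => a (eι.symm x), b.reindex g.symm, ?_, ?_⟩
  · intro x j h
    rw [hb, hb]
    exact h1 _ _ h
  · intro x j h
    rw [hb, h2 _ _ h]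
    exact Finset.sum_congr rfl fun k _ => by rw [hb]

theorem exists_nf2 {n : ℕ} {F : Type} [Field F] [Fintype F] [DecidableEq F] (A : Matrix (Fin n) (Fin n) F) :
    ∃ (S : Finset (Fin n)) (c : Fin n → F) (P : Matrix (Fin n) (Fin n) F), IsUnit P ∧ P * A = nf2 S c * P := by
  classical
  obtain ⟨m, d, a, b, h1, h2⟩ := QK1_basis (Matrix.toLin' A)
  have hcard : ∑ i, d i = n := by
    have h3 := Module.finrank_eq_card_basis b
    rw [Module.finrank_fin_fun, Fintype.card_sigma] at h3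
    simp only [Fintype.card_fin] at h3
    exact h3.symm
  obtain ⟨e, he1, he2⟩ := QK1_order d hcard
  let B : Module.Basis (Fin n) F (Fin n → F) := b.reindex e
  let S : Finset (Fin n) := Finset.univ.filter fun x => ¬ ((e.symm x).2 : ℕ) + 1 < d (e.symm x).1
  let c : Fin n → F := fun j => a (e.symm j).1 (e.symm j).2
  have hS : ∀ i (j : Fin (d i)), e ⟨i, j⟩ ∈ S ↔ ¬ (j : ℕ) + 1 < d i := by
    intro i j
    rw [Finset.mem_filter, Equiv.symm_apply_apply]
    simp only [Finset.mem_univ, true_and]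
  have hc : ∀ x, c (e x) = a x.1 x.2 := by
    intro x
    change a (e.symm (e x)).1 (e.symm (e x)).2 = _
    rw [Equiv.symm_apply_apply]
  have hB : ∀ x, B (e x) = b x := by
    intro x
    rw [b.reindex_apply e, Equiv.symm_apply_apply]
  -- the block condition
  have hblk : ∀ (i0 : Fin m) (j0 : Fin (d i0)), ¬ (j0 : ℕ) + 1 < d i0 → ∀ (i1 : Fin m) (j1 : Fin (d i1)),
      ((e ⟨i1, j1⟩ ≤ e ⟨i0, j0⟩ ∧ ∀ k ∈ S, k < e ⟨i0, j0⟩ → k < e ⟨i1, j1⟩) ↔ i1 = i0) := by
    intro i0 j0 hj0 i1 j1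
    constructor
    · rintro ⟨h3, h4⟩
      rcases lt_trichotomy i1 i0 with h5 | h5 | h5
      · exfalso
        have h6 : d i1 - 1 < d i1 := by
          have := j1.2
          omega
        have h7 : e ⟨i1, ⟨d i1 - 1, h6⟩⟩ ∈ S := by
          rw [hS]
          change ¬ d i1 - 1 + 1 < d i1
          omega
        have h8 := h4 _ h7 (he1 i1 i0 _ _ h5)
        rw [Fin.lt_def] at h8
        have h9 := he2 i1 j1 ⟨d i1 - 1, h6⟩
        have h10 : ((⟨d i1 - 1, h6⟩ : Fin (d i1)) : ℕ) = d i1 - 1 := rfl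
        rw [h10] at h9
        have h11 := j1.2
        omega
      · exact h5
      · exfalso
        exact absurd (he1 i0 i1 j0 j1 h5) (not_lt.2 h3)
    · rintro rfl
      refine ⟨?_, ?_⟩
      · have h9 := he2 i1 j1 j0
        have h11 := j1.2
        rw [Fin.le_def]
        omega
      · intro k hk hk2
        obtain ⟨⟨i2, j2⟩, rfl⟩ := e.surjective k
        have hj2 := (hS i2 j2).1 hk
        rcases lt_trichotomy i2 i1 with h5 | h5 | h5
        · exact he1 i2 i1 j2 j1 h5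
        · exfalso
          subst h5
          have h9 := he2 i2 j2 j0
          have h11 := j2.2
          have h12 := j0.2
          rw [Fin.lt_def] at hk2
          omega
        · exact absurd (he1 i1 i2 j0 j2 h5) (not_lt.2 hk2.le)
  have hT : ∀ j, Matrix.toLin' A (B j) = ∑ i, nf2 S c i j • B i := by
    intro j
    obtain ⟨⟨i0, j0⟩, rfl⟩ := e.surjective j
    rw [hB]
    by_cases h : (j0 : ℕ) + 1 < d i0
    · have hj : e ⟨i0, j0⟩ ∉ S := by
        rw [hS]
        exact not_not.2 h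
      have h4 := he2 i0 j0 ⟨j0 + 1, h⟩
      have h5 : ((⟨(j0 : ℕ) + 1, h⟩ : Fin (d i0)) : ℕ) = j0 + 1 := rfl
      rw [h5] at h4
      have h3 : ∀ i, nf2 S c i (e ⟨i0, j0⟩) = if i = e ⟨i0, ⟨j0 + 1, h⟩⟩ then 1 else 0 := by
        intro i
        unfold nf2
        rw [Matrix.of_apply, if_neg hj]
        by_cases h6 : i = e ⟨i0, ⟨j0 + 1, h⟩⟩
        · rw [if_pos h6, if_pos]
          rw [h6]
          omega
        · rw [if_neg h6, if_neg]
          intro h7
          apply h6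
          apply Fin.ext
          omega
      rw [Finset.sum_congr rfl fun i _ => by rw [h3 i]]
      simp only [ite_smul, one_smul, zero_smul, Finset.sum_ite_eq', Finset.mem_univ, if_true]
      rw [hB]
      exact h1 _ _ h
    · have hj : e ⟨i0, j0⟩ ∈ S := by
        rw [hS]
        exact h
      have h3 : ∀ x : (Σ i, Fin (d i)), nf2 S c (e x) (e ⟨i0, j0⟩) = if x.1 = i0 then a x.1 x.2 else 0 := by
        rintro ⟨i1, j1⟩
        unfold nf2
        rw [Matrix.of_apply, if_pos hj, hc]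
        by_cases h6 : i1 = i0
        · rw [if_pos h6, if_pos ((hblk i0 j0 h i1 j1).2 h6)]
        · rw [if_neg h6, if_neg (fun h7 => h6 ((hblk i0 j0 h i1 j1).1 h7))]
      rw [← Equiv.sum_comp e, Finset.sum_congr rfl fun x _ => by rw [h3 x, hB x]]
      rw [Fintype.sum_sigma, Fintype.sum_eq_single i0]
      · simp only [if_true]
        exact h2 _ _ h
      · intro i hi
        refine Finset.sum_eq_zero fun k _ => ?_
        rw [if_neg hi, zero_smul]
  have hM : LinearMap.toMatrix B B (Matrix.toLin' A) = nf2 S c := by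
    ext i j
    rw [LinearMap.toMatrix_apply, hT j, Module.Basis.repr_sum_self]
  refine ⟨S, c, B.toMatrix (Pi.basisFun F (Fin n)), ?_, ?_⟩
  · have := B.invertibleToMatrix (Pi.basisFun F (Fin n))
    exact isUnit_of_invertible _
  · have h4 := basis_toMatrix_mul_linearMap_toMatrix (Pi.basisFun F (Fin n)) B (Pi.basisFun F (Fin n)) (Matrix.toLin' A)
    have h5 := linearMap_toMatrix_mul_basis_toMatrix (Pi.basisFun F (Fin n)) B B (Matrix.toLin' A)
    rw [hM] at h5
    have h6 : LinearMap.toMatrix (Pi.basisFun F (Fin n)) (Pi.basisFun F (Fin n)) (Matrix.toLin' A) = A := by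
      rw [LinearMap.toMatrix_eq_toMatrix', LinearMap.toMatrix'_toLin']
    rw [h6] at h4
    rw [h4, h5]

end Pool.Agent.BC5
end

section
set_option autoImplicit false
set_option linter.unusedSectionVars false
set_option linter.unusedVariables false
open scoped BigOperators Matrix
open Matrix
namespace Pool.Agent.BC5


theorem kc_SL_le2 (n : ℕ) (hn : 1 ≤ n) (F : Type) [Field F] [Fintype F] [DecidableEq F] :
    kc (SLn n F) ≤ 2 ^ n * Fintype.card F ^ (n + 1) := by
  classical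
  have hnf : ∀ A : Matrix (Fin n) (Fin n) F, ∃ d : Finset (Fin n) × (Fin n → F),
      ∃ P : Matrix (Fin n) (Fin n) F, IsUnit P ∧ P * A = nf2 d.1 d.2 * P := by
    intro A
    obtain ⟨S, c, P, h1, h2⟩ := exists_nf2 A
    exact ⟨(S, c), P, h1, h2⟩
  choose dt P hP hPA using hnf
  obtain ⟨rep, hrep⟩ : ∃ rep : ConjClasses (SLn n F) → SLn n F, ∀ c, ConjClasses.mk (rep c) = c :=
    ⟨fun c => (ConjClasses.exists_rep c).choose, fun c => (ConjClasses.exists_rep c).choose_spec⟩
  have hf : Function.Injective (fun c : ConjClasses (SLn n F) => (dt (rep c).1, (P (rep c).1).det)) := by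
    intro c c' h
    obtain ⟨h1, h2⟩ := Prod.mk.inj h
    have hA := hPA (rep c).1
    have hB := hPA (rep c').1
    rw [h1] at hA
    have hdB : IsUnit (P (rep c').1).det := (Matrix.isUnit_iff_isUnit_det _).mp (hP _)
    have hdet : ((P (rep c').1)⁻¹ * P (rep c).1).det = 1 := by
      rw [Matrix.det_mul, h2, ← Matrix.det_mul, Matrix.nonsing_inv_mul _ hdB, Matrix.det_one]
    have hcomm : ((P (rep c').1)⁻¹ * P (rep c).1) * (rep c).1 = (rep c').1 * ((P (rep c').1)⁻¹ * P (rep c).1) := by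
      have e1 : (rep c').1 * (P (rep c').1)⁻¹ = (P (rep c').1)⁻¹ * nf2 (dt (rep c').1).1 (dt (rep c').1).2 := by
        calc (rep c').1 * (P (rep c').1)⁻¹
            = ((P (rep c').1)⁻¹ * P (rep c').1) * (rep c').1 * (P (rep c').1)⁻¹ := by
              rw [Matrix.nonsing_inv_mul _ hdB, one_mul]
          _ = (P (rep c').1)⁻¹ * (P (rep c').1 * (rep c').1) * (P (rep c').1)⁻¹ := by simp only [mul_assoc]
          _ = (P (rep c').1)⁻¹ * (nf2 (dt (rep c').1).1 (dt (rep c').1).2 * P (rep c').1) *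
              (P (rep c').1)⁻¹ := by rw [hB]
          _ = (P (rep c').1)⁻¹ * nf2 (dt (rep c').1).1 (dt (rep c').1).2 *
              (P (rep c').1 * (P (rep c').1)⁻¹) := by simp only [mul_assoc]
          _ = _ := by rw [Matrix.mul_nonsing_inv _ hdB, mul_one]
      rw [← mul_assoc, e1, mul_assoc, hA, mul_assoc]
    rw [← hrep c, ← hrep c', ConjClasses.mk_eq_mk_iff_isConj, isConj_iff]
    obtain ⟨Q, hQ⟩ : ∃ Q : SLn n F, Q.1 = (P (rep c').1)⁻¹ * P (rep c).1 := ⟨⟨_, hdet⟩, rfl⟩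
    refine ⟨Q, ?_⟩
    have hQc : Q * rep c = rep c' * Q := by
      refine Subtype.ext ?_
      have e2 : (Q * rep c).1 = Q.1 * (rep c).1 := rfl
      have e3 : (rep c' * Q).1 = (rep c').1 * Q.1 := rfl
      rw [e2, e3, hQ]
      exact hcomm
    exact mul_inv_eq_iff_eq_mul.mpr hQc
  have h3 : kc (SLn n F) ≤ Nat.card ((Finset (Fin n) × (Fin n → F)) × F) :=
    Nat.card_le_card_of_injective _ hf
  refine h3.trans ?_
  rw [Nat.card_eq_fintype_card, Fintype.card_prod, Fintype.card_prod, Fintype.card_fun, Fintype.card_finset,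
    Fintype.card_fin, pow_succ, mul_assoc]

end Pool.Agent.BC5
end

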