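import Pool.Agent.Lib.MP_bc5a73_al.InvProj

section
set_option autoImplicit false
set_option linter.unusedSectionVars false
set_option linter.unusedVariables false
open scoped BigOperators Matrix
open Matrix
namespace Pool.Agent.BC5


variable {n : ℕ} {F : Type} [Field F] [Fintype F] [DecidableEq F]

/-- the element `1 + u φᵀ` -/
theorem SB1_elt (Y : Finset (Fin n)) (u p : Fin n → F) (hu : ∀ i, i ∉ Y → u i = 0) (hp : ∀ i, i ∉ Y → p i = 0)
    (h : p ⬝ᵥ u = 0) : ∃ g ∈ (GX Y : Subgroup (SLn n F)), g.1 = 1 + Matrix.vecMulVec u p := by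
  have hdet : (1 + Matrix.vecMulVec u p).det = 1 := by
    rw [Matrix.vecMulVec_eq (Fin 1), Matrix.det_one_add_replicateCol_mul_replicateRow, h, add_zero]
  refine ⟨(⟨1 + Matrix.vecMulVec u p, hdet⟩ : SLn n F), ?_, rfl⟩
  refine (mem_GX Y _).2 ?_
  intro j hj
  constructor
  · change (1 + Matrix.vecMulVec u p) *ᵥ Pi.single j 1 = Pi.single j 1
    rw [Matrix.add_mulVec, Matrix.one_mulVec, Matrix.vecMulVec_mulVec, dotProduct_single_one, hp j hj]
    simp
  · change Pi.single j 1 ᵥ* (1 + Matrix.vecMulVec u p) = Pi.single j 1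
    rw [Matrix.vecMul_add, Matrix.vecMul_one, Matrix.vecMul_vecMulVec, single_one_dotProduct, hu j hj]
    simp

/-- a functional with the value `1` at two independent vectors -/
theorem SB1_fun (Y : Finset (Fin n)) (v w : Fin n → F) (i j : Fin n) (hi : i ∈ Y) (hj : j ∈ Y)
    (hd : v i * w j - v j * w i ≠ 0) : ∃ p : Fin n → F, (∀ k, k ∉ Y → p k = 0) ∧ p ⬝ᵥ v = 1 ∧ p ⬝ᵥ w = 1 := by
  have hij : i ≠ j := by
    rintro rfl
    exact hd (by ring)
  refine ⟨Pi.single i ((w j - v j) / (v i * w j - v j * w i)) + Pi.single j ((v i - w i) / (v i * w j - v j * w i)), ?_, ?_, ?_⟩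
  · intro k hk
    have h1 : k ≠ i := fun h => hk (h ▸ hi)
    have h2 : k ≠ j := fun h => hk (h ▸ hj)
    rw [Pi.add_apply, Pi.single_eq_of_ne h1, Pi.single_eq_of_ne h2, add_zero]
  · rw [add_dotProduct, single_dotProduct, single_dotProduct, div_mul_eq_mul_div, div_mul_eq_mul_div, ← add_div,
      div_eq_one_iff_eq hd]
    ring
  · rw [add_dotProduct, single_dotProduct, single_dotProduct, div_mul_eq_mul_div, div_mul_eq_mul_div, ← add_div,
      div_eq_one_iff_eq hd]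
    ring

theorem SB1_step (Y : Finset (Fin n)) (v w : Fin n → F) (i j : Fin n) (hi : i ∈ Y) (hj : j ∈ Y)
    (hd : v i * w j - v j * w i ≠ 0) (hvY : ∀ i, i ∉ Y → v i = 0) (hwY : ∀ i, i ∉ Y → w i = 0) :
    (∃ h ∈ (GX Y : Subgroup (SLn n F)), h.1 *ᵥ v = w) ∧ ∃ h ∈ (GX Y : Subgroup (SLn n F)), v ᵥ* h.1 = w := by
  obtain ⟨p, hp, h1, h2⟩ := SB1_fun Y v w i j hi hj hd
  have hu : ∀ k, k ∉ Y → (w - v) k = 0 := fun k hk => by rw [Pi.sub_apply, hvY k hk, hwY k hk, sub_zero]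
  have h0 : p ⬝ᵥ (w - v) = 0 := by rw [dotProduct_sub, h1, h2, sub_self]
  constructor
  · obtain ⟨g, hg, he⟩ := SB1_elt Y (w - v) p hu hp h0
    refine ⟨g, hg, ?_⟩
    rw [he, Matrix.add_mulVec, Matrix.one_mulVec, Matrix.vecMulVec_mulVec, h1]
    simp
  · obtain ⟨g, hg, he⟩ := SB1_elt Y p (w - v) hp hu (by rw [dotProduct_comm]; exact h0)
    refine ⟨g, hg, ?_⟩
    rw [he, Matrix.vecMul_add, Matrix.vecMul_one, Matrix.vecMul_vecMulVec, dotProduct_comm, h1]
    simp

/-- an intermediate vector -/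
theorem SB1_mid (Y : Finset (Fin n)) (hY : 2 ≤ Y.card) (v w : Fin n → F) (hv : v ≠ 0) (hw : w ≠ 0)
    (hvY : ∀ i, i ∉ Y → v i = 0) (hwY : ∀ i, i ∉ Y → w i = 0) :
    ∃ (z : Fin n → F) (i j i' j' : Fin n), (∀ k, k ∉ Y → z k = 0) ∧ i ∈ Y ∧ j ∈ Y ∧ i' ∈ Y ∧ j' ∈ Y ∧
      v i * z j - v j * z i ≠ 0 ∧ z i' * w j' - z j' * w i' ≠ 0 := by
  obtain ⟨i, hi⟩ := Function.ne_iff.1 hv
  obtain ⟨j, hj⟩ := Function.ne_iff.1 hw
  rw [Pi.zero_apply] at hi hj
  have hiY : i ∈ Y := by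
    by_contra h
    exact hi (hvY i h)
  have hjY : j ∈ Y := by
    by_contra h
    exact hj (hwY j h)
  by_cases hc : ∃ k, v k ≠ 0 ∧ w k ≠ 0
  · obtain ⟨k, hk1, hk2⟩ := hc
    have hkY : k ∈ Y := by
      by_contra h
      exact hk1 (hvY k h)
    obtain ⟨l, hlY, hlk⟩ := Finset.exists_mem_ne (by omega : 1 < Y.card) k
    refine ⟨Pi.single l 1, k, l, l, k, ?_, hkY, hlY, hlY, hkY, ?_, ?_⟩
    · intro m hm
      have h3 : m ≠ l := fun h => hm (h ▸ hlY)
      exact Pi.single_eq_of_ne h3 _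
    · rw [Pi.single_eq_same, Pi.single_eq_of_ne hlk.symm]
      simpa using hk1
    · rw [Pi.single_eq_same, Pi.single_eq_of_ne hlk.symm]
      simpa using hk2
  · push Not at hc
    have h1 : w i = 0 := hc i hi
    have h2 : v j = 0 := by
      by_contra h
      exact hj (hc j h)
    have hij : i ≠ j := by
      rintro rfl
      exact hj h1
    refine ⟨Pi.single i 1 + Pi.single j 1, i, j, i, j, ?_, hiY, hjY, hiY, hjY, ?_, ?_⟩
    · intro m hm
      have h3 : m ≠ i := fun h => hm (h ▸ hiY)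
      have h4 : m ≠ j := fun h => hm (h ▸ hjY)
      rw [Pi.add_apply, Pi.single_eq_of_ne h3, Pi.single_eq_of_ne h4, add_zero]
    · rw [Pi.add_apply, Pi.add_apply, Pi.single_eq_same, Pi.single_eq_same, Pi.single_eq_of_ne hij.symm, Pi.single_eq_of_ne hij, h2]
      simpa using hi
    · rw [Pi.add_apply, Pi.add_apply, Pi.single_eq_same, Pi.single_eq_same, Pi.single_eq_of_ne hij.symm, Pi.single_eq_of_ne hij, h1]
      simpa using hj

theorem vec_trans (Y : Finset (Fin n)) (hY : 2 ≤ Y.card) (v w : Fin n → F) (hv : v ≠ 0) (hw : w ≠ 0)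
    (hvY : ∀ i, i ∉ Y → v i = 0) (hwY : ∀ i, i ∉ Y → w i = 0) : ∃ h ∈ (GX Y : Subgroup (SLn n F)), h.1 *ᵥ v = w := by
  obtain ⟨z, i, j, i', j', hz, hi, hj, hi', hj', h1, h2⟩ := SB1_mid Y hY v w hv hw hvY hwY
  obtain ⟨g, hg, hgv⟩ := (SB1_step Y v z i j hi hj h1 hvY hz).1
  obtain ⟨h, hh, hhz⟩ := (SB1_step Y z w i' j' hi' hj' h2 hz hwY).1
  exact ⟨h * g, mul_mem hh hg, by rw [sl_mul_apply, hgv, hhz]⟩

theorem covec_trans (Y : Finset (Fin n)) (hY : 2 ≤ Y.card) (v w : Fin n → F) (hv : v ≠ 0) (hw : w ≠ 0)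
    (hvY : ∀ i, i ∉ Y → v i = 0) (hwY : ∀ i, i ∉ Y → w i = 0) : ∃ h ∈ (GX Y : Subgroup (SLn n F)), v ᵥ* h.1 = w := by
  obtain ⟨z, i, j, i', j', hz, hi, hj, hi', hj', h1, h2⟩ := SB1_mid Y hY v w hv hw hvY hwY
  obtain ⟨g, hg, hgv⟩ := (SB1_step Y v z i j hi hj h1 hvY hz).2
  obtain ⟨h, hh, hhz⟩ := (SB1_step Y z w i' j' hi' hj' h2 hz hwY).2
  exact ⟨g * h, mul_mem hg hh, by rw [sl_apply_mul, hgv, hhz]⟩

end Pool.Agent.BC5
end

section
set_option autoImplicit false
set_option linter.unusedSectionVars false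
set_option linter.unusedVariables false
open scoped BigOperators Matrix
open Matrix
namespace Pool.Agent.BC5


variable {n : ℕ} {F : Type} [Field F] [Fintype F] [DecidableEq F]

theorem SB2_suppC (Y : Finset (Fin n)) (h : SLn n F) (hh : h ∈ (GX Y : Subgroup (SLn n F))) (v : Fin n → F)
    (hv : ∀ i, i ∉ Y → v i = 0) : ∀ i, i ∉ Y → (h.1 *ᵥ v) i = 0 := by
  intro i hi
  have h1 : (h.1 *ᵥ v) i = Pi.single i 1 ⬝ᵥ (h.1 *ᵥ v) := by simp
  rw [h1, Matrix.dotProduct_mulVec, (hh i hi).2]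
  simp [hv i hi]

theorem SB2_suppR (Y : Finset (Fin n)) (h : SLn n F) (hh : h ∈ (GX Y : Subgroup (SLn n F))) (v : Fin n → F)
    (hv : ∀ i, i ∉ Y → v i = 0) : ∀ i, i ∉ Y → (v ᵥ* h.1) i = 0 := by
  intro i hi
  have h1 : (v ᵥ* h.1) i = (v ᵥ* h.1) ⬝ᵥ Pi.single i 1 := by simp
  rw [h1, ← Matrix.dotProduct_mulVec, (hh i hi).1]
  simp [hv i hi]

theorem SB2_conjC (Y : Finset (Fin n)) (z : Fin n) (hz : z ∉ Y) (h u : SLn n F) (hh : h ∈ (GX Y : Subgroup (SLn n F)))
    (v : Fin n → F) (hu : u.1 = 1 + Matrix.vecMulVec v (Pi.single z 1)) :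
    (h * u * h⁻¹).1 = 1 + Matrix.vecMulVec (h.1 *ᵥ v) (Pi.single z 1) := by
  have e1 : (h * u * h⁻¹).1 = h.1 * u.1 * (h⁻¹).1 := rfl
  have e2 : h.1 * (h⁻¹).1 = 1 := by
    have : (h * h⁻¹).1 = h.1 * (h⁻¹).1 := rfl
    rw [← this, mul_inv_cancel]; rfl
  have e3 : (Pi.single z 1 : Fin n → F) ᵥ* (h⁻¹).1 = Pi.single z 1 := (((GX Y).inv_mem hh) z hz).2
  rw [e1, hu, mul_add, add_mul, mul_one, e2, Matrix.mul_vecMulVec, Matrix.vecMulVec_mul, e3]

theorem SB2_conjR (Y : Finset (Fin n)) (z : Fin n) (hz : z ∉ Y) (h u : SLn n F) (hh : h ∈ (GX Y : Subgroup (SLn n F)))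
    (v : Fin n → F) (hu : u.1 = 1 + Matrix.vecMulVec (Pi.single z 1) v) :
    (h * u * h⁻¹).1 = 1 + Matrix.vecMulVec (Pi.single z 1) (v ᵥ* (h⁻¹).1) := by
  have e1 : (h * u * h⁻¹).1 = h.1 * u.1 * (h⁻¹).1 := rfl
  have e2 : h.1 * (h⁻¹).1 = 1 := by
    have : (h * h⁻¹).1 = h.1 * (h⁻¹).1 := rfl
    rw [← this, mul_inv_cancel]; rfl
  have e3 : h.1 *ᵥ (Pi.single z 1 : Fin n → F) = Pi.single z 1 := (hh z hz).1
  rw [e1, hu, mul_add, add_mul, mul_one, e2, Matrix.mul_vecMulVec, Matrix.vecMulVec_mul, e3]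

theorem SB2_injC (z : Fin n) (v w : Fin n → F)
    (h : (1 : Matrix (Fin n) (Fin n) F) + Matrix.vecMulVec v (Pi.single z 1) = 1 + Matrix.vecMulVec w (Pi.single z 1)) :
    v = w := by
  have h2 := add_left_cancel h
  funext i
  have h3 := congrFun (congrFun h2 i) z
  simpa [Matrix.vecMulVec_apply] using h3

theorem SB2_injR (z : Fin n) (v w : Fin n → F)
    (h : (1 : Matrix (Fin n) (Fin n) F) + Matrix.vecMulVec (Pi.single z 1) v = 1 + Matrix.vecMulVec (Pi.single z 1) w) :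
    v = w := by
  have h2 := add_left_cancel h
  funext i
  have h3 := congrFun (congrFun h2 z) i
  simpa [Matrix.vecMulVec_apply] using h3

theorem SB2_det (v w : Fin n → F) (h : w ⬝ᵥ v = 0) :
    (1 + Matrix.vecMulVec v w : Matrix (Fin n) (Fin n) F).det = 1 := by
  have h1 := Matrix.det_one_add_replicateCol_mul_replicateRow (ι := Unit) v w
  rw [h, add_zero] at h1
  rw [← h1]
  congr 2
  ext i j
  simp [Matrix.vecMulVec_apply, Matrix.mul_apply, Matrix.replicateCol_apply, Matrix.replicateRow_apply]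

/-- extension by zero -/
def SB2_ext (Y : Finset (Fin n)) (w : Y → F) : Fin n → F := fun i => if h : i ∈ Y then w ⟨i, h⟩ else 0

theorem SB2_ext_off (Y : Finset (Fin n)) (w : Y → F) (i : Fin n) (hi : i ∉ Y) : SB2_ext Y w i = 0 := by
  simp [SB2_ext, hi]

theorem SB2_ext_on (Y : Finset (Fin n)) (w : Y → F) (i : Y) : SB2_ext Y w i.1 = w i := by
  simp [SB2_ext]

theorem UC_card (Y : Finset (Fin n)) (z : Fin n) (hz : z ∉ Y) :
    Nat.card (UC Y z : Subgroup (SLn n F)) = Fintype.card F ^ Y.card := by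
  have hdet : ∀ w : Y → F, (1 + Matrix.vecMulVec (SB2_ext Y w) (Pi.single z 1) : Matrix (Fin n) (Fin n) F).det = 1 := by
    intro w
    apply SB2_det
    simp [SB2_ext_off Y w z hz]
  let f : (Y → F) → (UC Y z : Subgroup (SLn n F)) := fun w =>
    ⟨⟨1 + Matrix.vecMulVec (SB2_ext Y w) (Pi.single z 1), hdet w⟩,
      ⟨SB2_ext Y w, SB2_ext_off Y w, SB2_ext_off Y w z hz, rfl⟩⟩
  have hf : Function.Bijective f := by
    constructor
    · intro w w' hww
      have h1 : (f w).1.1 = (f w').1.1 := by rw [hww]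
      have h2 := SB2_injC z _ _ h1
      funext i
      rw [← SB2_ext_on Y w i, ← SB2_ext_on Y w' i, h2]
    · rintro ⟨g, v, hv, hvz, hg⟩
      refine ⟨fun i => v i.1, ?_⟩
      apply Subtype.ext
      apply Subtype.ext
      have : SB2_ext Y (fun i => v i.1) = v := by
        funext i
        by_cases hi : i ∈ Y
        · simp [SB2_ext, hi]
        · rw [SB2_ext_off _ _ _ hi, hv i hi]
      show 1 + Matrix.vecMulVec (SB2_ext Y (fun i => v i.1)) (Pi.single z 1) = g.1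
      rw [this, hg]
  rw [← Nat.card_eq_of_bijective f hf, Nat.card_eq_fintype_card, Fintype.card_fun, Fintype.card_coe]

theorem UR_card (Y : Finset (Fin n)) (z : Fin n) (hz : z ∉ Y) :
    Nat.card (UR Y z : Subgroup (SLn n F)) = Fintype.card F ^ Y.card := by
  have hdet : ∀ w : Y → F, (1 + Matrix.vecMulVec (Pi.single z 1) (SB2_ext Y w) : Matrix (Fin n) (Fin n) F).det = 1 := by
    intro w
    apply SB2_det
    simp [SB2_ext_off Y w z hz]
  let f : (Y → F) → (UR Y z : Subgroup (SLn n F)) := fun w =>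
    ⟨⟨1 + Matrix.vecMulVec (Pi.single z 1) (SB2_ext Y w), hdet w⟩,
      ⟨SB2_ext Y w, SB2_ext_off Y w, SB2_ext_off Y w z hz, rfl⟩⟩
  have hf : Function.Bijective f := by
    constructor
    · intro w w' hww
      have h1 : (f w).1.1 = (f w').1.1 := by rw [hww]
      have h2 := SB2_injR z _ _ h1
      funext i
      rw [← SB2_ext_on Y w i, ← SB2_ext_on Y w' i, h2]
    · rintro ⟨g, v, hv, hvz, hg⟩
      refine ⟨fun i => v i.1, ?_⟩
      apply Subtype.ext
      apply Subtype.ext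
      have : SB2_ext Y (fun i => v i.1) = v := by
        funext i
        by_cases hi : i ∈ Y
        · simp [SB2_ext, hi]
        · rw [SB2_ext_off _ _ _ hi, hv i hi]
      show 1 + Matrix.vecMulVec (Pi.single z 1) (SB2_ext Y (fun i => v i.1)) = g.1
      rw [this, hg]
  rw [← Nat.card_eq_of_bijective f hf, Nat.card_eq_fintype_card, Fintype.card_fun, Fintype.card_coe]

theorem UC_norm (Y : Finset (Fin n)) (z : Fin n) (hz : z ∉ Y) :
    ∀ h ∈ (GX Y : Subgroup (SLn n F)), ∀ u ∈ (UC Y z : Subgroup (SLn n F)), h * u * h⁻¹ ∈ (UC Y z : Subgroup (SLn n F)) := by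
  rintro h hh u ⟨v, hv, hvz, hu⟩
  exact ⟨h.1 *ᵥ v, SB2_suppC Y h hh v hv, SB2_suppC Y h hh v hv z hz, SB2_conjC Y z hz h u hh v hu⟩

theorem UR_norm (Y : Finset (Fin n)) (z : Fin n) (hz : z ∉ Y) :
    ∀ h ∈ (GX Y : Subgroup (SLn n F)), ∀ u ∈ (UR Y z : Subgroup (SLn n F)), h * u * h⁻¹ ∈ (UR Y z : Subgroup (SLn n F)) := by
  rintro h hh u ⟨v, hv, hvz, hu⟩
  exact ⟨v ᵥ* (h⁻¹).1, SB2_suppR Y h⁻¹ ((GX Y).inv_mem hh) v hv, SB2_suppR Y h⁻¹ ((GX Y).inv_mem hh) v hv z hz,
    SB2_conjR Y z hz h u hh v hu⟩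

theorem UC_trans (Y : Finset (Fin n)) (z : Fin n) (hz : z ∉ Y) (hY : 2 ≤ Y.card) :
    ∀ u ∈ (UC Y z : Subgroup (SLn n F)), ∀ u' ∈ (UC Y z : Subgroup (SLn n F)), u ≠ 1 → u' ≠ 1 →
      ∃ h ∈ (GX Y : Subgroup (SLn n F)), h * u * h⁻¹ = u' := by
  rintro u ⟨v, hv, hvz, hu⟩ u' ⟨w, hw, hwz, hu'⟩ hne hne'
  have hv0 : v ≠ 0 := by
    rintro rfl
    apply hne
    apply Subtype.ext
    rw [hu]
    show (1 : Matrix (Fin n) (Fin n) F) + _ = 1
    simp
  have hw0 : w ≠ 0 := by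
    rintro rfl
    apply hne'
    apply Subtype.ext
    rw [hu']
    show (1 : Matrix (Fin n) (Fin n) F) + _ = 1
    simp
  obtain ⟨h, hh, hhv⟩ := vec_trans Y hY v w hv0 hw0 hv hw
  refine ⟨h, hh, ?_⟩
  apply Subtype.ext
  rw [SB2_conjC Y z hz h u hh v hu, hhv, hu']

theorem UR_trans (Y : Finset (Fin n)) (z : Fin n) (hz : z ∉ Y) (hY : 2 ≤ Y.card) :
    ∀ u ∈ (UR Y z : Subgroup (SLn n F)), ∀ u' ∈ (UR Y z : Subgroup (SLn n F)), u ≠ 1 → u' ≠ 1 →
      ∃ h ∈ (GX Y : Subgroup (SLn n F)), h * u * h⁻¹ = u' := by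
  rintro u ⟨v, hv, hvz, hu⟩ u' ⟨w, hw, hwz, hu'⟩ hne hne'
  have hv0 : v ≠ 0 := by
    rintro rfl
    apply hne
    apply Subtype.ext
    rw [hu]
    show (1 : Matrix (Fin n) (Fin n) F) + _ = 1
    simp
  have hw0 : w ≠ 0 := by
    rintro rfl
    apply hne'
    apply Subtype.ext
    rw [hu']
    show (1 : Matrix (Fin n) (Fin n) F) + _ = 1
    simp
  obtain ⟨h, hh, hhv⟩ := covec_trans Y hY v w hv0 hw0 hv hw
  refine ⟨h⁻¹, (GX Y).inv_mem hh, ?_⟩
  apply Subtype.ext
  rw [SB2_conjR Y z hz h⁻¹ u ((GX Y).inv_mem hh) v hu, inv_inv, hhv, hu']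

end Pool.Agent.BC5
end

section
set_option autoImplicit false
set_option linter.unusedSectionVars false
set_option linter.unusedVariables false
open scoped BigOperators Matrix
open Matrix
namespace Pool.Agent.BC5


variable {n : ℕ} {F : Type} [Field F] [Fintype F] [DecidableEq F]

theorem SB3_mem (X : Finset (Fin n)) (g : SLn n F) : g ∈ (GX X : Subgroup (SLn n F)) ↔
    ∀ j, j ∉ X → ∀ i, g.1 i j = (1 : Matrix (Fin n) (Fin n) F) i j ∧
      g.1 j i = (1 : Matrix (Fin n) (Fin n) F) j i := by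
  rw [mem_GX]
  constructor
  · intro h j hj i
    obtain ⟨h1, h2⟩ := h j hj
    constructor
    · have h3 := congrFun h1 i
      rw [Matrix.mulVec_single_one] at h3
      rw [show g.1 i j = g.1.col j i from rfl, h3, Matrix.one_apply, Pi.single_apply]
    · have h3 := congrFun h2 i
      rw [Matrix.single_one_vecMul] at h3
      rw [show g.1 j i = g.1.row j i from rfl, h3, Matrix.one_apply, Pi.single_apply]
      by_cases hij : i = j
      · rw [if_pos hij, if_pos hij.symm]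
      · rw [if_neg hij, if_neg (Ne.symm hij)]
  · intro h j hj
    constructor
    · rw [Matrix.mulVec_single_one]
      funext i
      rw [show g.1.col j i = g.1 i j from rfl, (h j hj i).1, Matrix.one_apply, Pi.single_apply]
    · rw [Matrix.single_one_vecMul]
      funext i
      rw [show g.1.row j i = g.1 j i from rfl, (h j hj i).2, Matrix.one_apply, Pi.single_apply]
      by_cases hij : i = j
      · rw [if_pos hij, if_pos hij.symm]
      · rw [if_neg hij, if_neg (Ne.symm hij)]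

theorem tv_mem_GX (X : Finset (Fin n)) {i j : Fin n} (hi : i ∈ X) (hj : j ∈ X) (a : F) : tv i j a ∈ (GX X : Subgroup (SLn n F)) := by
  by_cases hij : i = j
  · have h1 : (tv i j a : SLn n F) = 1 := by
      unfold tv
      rw [dif_neg (not_not.mpr hij)]
    rw [h1]
    exact one_mem _
  · rw [SB3_mem]
    intro k hk l
    have hik : i ≠ k := fun h => hk (h ▸ hi)
    have hjk : j ≠ k := fun h => hk (h ▸ hj)
    rw [show (tv i j a : SLn n F).1 = 1 + Matrix.single i j a from tv_coe hij a]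
    constructor
    · rw [Matrix.add_apply, Matrix.single_apply_of_col_ne _ _ hjk, add_zero]
    · rw [Matrix.add_apply, Matrix.single_apply_of_row_ne hik, add_zero]

theorem GX_mono {X Y : Finset (Fin n)} (h : X ⊆ Y) : (GX X : Subgroup (SLn n F)) ≤ GX Y := by
  intro g hg j hj
  exact hg j (fun hjX => hj (h hjX))

theorem GX_univ : (GX (Finset.univ : Finset (Fin n)) : Subgroup (SLn n F)) = ⊤ := by
  rw [eq_top_iff]
  intro g _ j hj
  exact absurd (Finset.mem_univ j) hj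

theorem SB3_tv_mul {i j : Fin n} (hij : i ≠ j) (a : F) (g : SLn n F) (k l : Fin n) :
    (tv i j a * g).1 k l = g.1 k l + if k = i then a * g.1 j l else 0 := by
  rw [show (tv i j a * g).1 = (tv i j a : SLn n F).1 * g.1 from rfl,
    show (tv i j a : SLn n F).1 = 1 + Matrix.single i j a from tv_coe hij a, add_mul, one_mul,
    Matrix.add_apply]
  congr 1
  by_cases h : k = i
  · subst h
    rw [if_pos rfl, Matrix.single_mul_apply_same]
  · rw [if_neg h, Matrix.single_mul_apply_of_ne _ _ _ _ _ h]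

theorem SB3_mul_tv {i j : Fin n} (hij : i ≠ j) (a : F) (g : SLn n F) (k l : Fin n) :
    (g * tv i j a).1 k l = g.1 k l + if l = j then g.1 k i * a else 0 := by
  rw [show (g * tv i j a).1 = g.1 * (tv i j a : SLn n F).1 from rfl,
    show (tv i j a : SLn n F).1 = 1 + Matrix.single i j a from tv_coe hij a, mul_add, mul_one,
    Matrix.add_apply]
  congr 1
  by_cases h : l = j
  · subst h
    rw [if_pos rfl, Matrix.mul_single_apply_same]
  · rw [if_neg h, Matrix.mul_single_apply_of_ne _ _ _ _ _ h]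

/-- The generating set. -/
def SB3_T (F : Type) [Field F] {n : ℕ} (X : Finset (Fin n)) : Subgroup (SLn n F) :=
  Subgroup.closure {g | ∃ i ∈ X, ∃ j ∈ X, i ≠ j ∧ ∃ a : F, g = tv i j a}

theorem SB3_tv_mem {X : Finset (Fin n)} {i j : Fin n} (hi : i ∈ X) (hj : j ∈ X) (hij : i ≠ j)
    (a : F) : tv i j a ∈ SB3_T F X :=
  Subgroup.subset_closure ⟨i, hi, j, hj, hij, a, rfl⟩

theorem SB3_T_le (X : Finset (Fin n)) : SB3_T F X ≤ GX X := by
  unfold SB3_T
  rw [Subgroup.closure_le]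
  rintro g ⟨i, hi, j, hj, _, a, rfl⟩
  exact tv_mem_GX X hi hj a

theorem SB3_T_mono {X Y : Finset (Fin n)} (h : X ⊆ Y) : SB3_T F X ≤ SB3_T F Y := by
  unfold SB3_T
  refine Subgroup.closure_mono ?_
  rintro g ⟨i, hi, j, hj, hij, a, rfl⟩
  exact ⟨i, h hi, j, h hj, hij, a, rfl⟩

theorem SB3_small (X : Finset (Fin n)) (z : Fin n) (hX : X ⊆ {z}) (g : SLn n F)
    (hg : g ∈ (GX X : Subgroup (SLn n F))) : g = 1 := by
  rw [SB3_mem] at hg
  have hoff : ∀ i j, (i ≠ z ∨ j ≠ z) → g.1 i j = (1 : Matrix (Fin n) (Fin n) F) i j := by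
    intro i j h
    rcases h with h | h
    · exact (hg i (fun hi => h (Finset.mem_singleton.mp (hX hi))) j).2
    · exact (hg j (fun hj => h (Finset.mem_singleton.mp (hX hj))) i).1
  have hd : g.1 = Matrix.diagonal (fun i => g.1 i i) := by
    ext i j
    by_cases hij : i = j
    · subst hij
      rw [Matrix.diagonal_apply_eq]
    · rw [Matrix.diagonal_apply_ne _ hij]
      have h1 : i ≠ z ∨ j ≠ z := by
        by_contra hcon
        push Not at hcon
        exact hij (hcon.1.trans hcon.2.symm)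
      rw [hoff i j h1, Matrix.one_apply_ne hij]
  have hdet : ∏ i, g.1 i i = 1 := by
    have h1 := g.2
    rw [hd, Matrix.det_diagonal] at h1
    exact h1
  have hz : g.1 z z = 1 := by
    have h5 : ∏ i, g.1 i i = g.1 z z := by
      refine Finset.prod_eq_single z (fun i _ hi => ?_) (fun h => absurd (Finset.mem_univ z) h)
      rw [hoff i i (Or.inl hi), Matrix.one_apply_eq]
    exact h5.symm.trans hdet
  refine Subtype.ext ?_
  change g.1 = (1 : Matrix (Fin n) (Fin n) F)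
  ext i j
  by_cases h : i ≠ z ∨ j ≠ z
  · exact hoff i j h
  · push Not at h
    rw [h.1, h.2, hz, Matrix.one_apply_eq]

/-- Step 1: make the corner equal to one. -/
theorem SB3_step1 (X : Finset (Fin n)) {z w : Fin n} (hz : z ∈ X) (hw : w ∈ X) (hwz : w ≠ z)
    (g : SLn n F) (hg : g ∈ (GX X : Subgroup (SLn n F))) :
    ∃ h ∈ SB3_T F X, (h * g).1 z z = 1 := by
  have key : ∀ (g : SLn n F), (∃ i ∈ X, i ≠ z ∧ g.1 i z ≠ 0) →
      ∃ h ∈ SB3_T F X, (h * g).1 z z = 1 := by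
    rintro g ⟨i, hi, hiz, hne⟩
    refine ⟨tv z i ((1 - g.1 z z) / g.1 i z), SB3_tv_mem hz hi (Ne.symm hiz) _, ?_⟩
    rw [SB3_tv_mul (Ne.symm hiz), if_pos rfl, div_mul_cancel₀ _ hne, add_sub_cancel]
  by_cases h : ∃ i ∈ X, i ≠ z ∧ g.1 i z ≠ 0
  · exact key g h
  · push Not at h
    have hcol : ∀ i, i ≠ z → g.1 i z = 0 := by
      intro i hi
      by_cases hiX : i ∈ X
      · exact h i hiX hi
      · rw [((SB3_mem X g).mp hg i hiX z).2, Matrix.one_apply_ne hi]
    have hzz : g.1 z z ≠ 0 := by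
      intro h0
      have h1 : (g⁻¹ * g).1 z z = 1 := by
        rw [inv_mul_cancel]
        exact Matrix.one_apply_eq z
      rw [show (g⁻¹ * g).1 = (g⁻¹).1 * g.1 from rfl, Matrix.mul_apply] at h1
      rw [Finset.sum_eq_zero] at h1
      · exact zero_ne_one h1
      · intro i _
        by_cases hi : i = z
        · rw [hi, h0, mul_zero]
        · rw [hcol i hi, mul_zero]
    obtain ⟨h2, hh2, he⟩ := key (tv w z 1 * g) ⟨w, hw, hwz, by
      rw [SB3_tv_mul hwz, if_pos rfl, hcol w hwz, one_mul, zero_add]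
      exact hzz⟩
    refine ⟨h2 * tv w z 1, mul_mem hh2 (SB3_tv_mem hw hz hwz 1), ?_⟩
    rw [mul_assoc]
    exact he

/-- Step 2: clear the column. -/
theorem SB3_step2 (X : Finset (Fin n)) {z : Fin n} (hz : z ∈ X) (g : SLn n F)
    (hg : g.1 z z = 1) (s : Finset (Fin n)) (hs : s ⊆ X.erase z) :
    ∃ h ∈ SB3_T F X, (h * g).1 z z = 1 ∧ ∀ i ∈ s, (h * g).1 i z = 0 := by
  induction s using Finset.induction_on with
  | empty => exact ⟨1, one_mem _, by rw [one_mul]; exact hg, fun i hi => absurd hi (Finset.notMem_empty i)⟩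
  | insert i s hi ih =>
    obtain ⟨h, hh, h1, h2⟩ := ih (fun a ha => hs (Finset.mem_insert_of_mem ha))
    have hiX := hs (Finset.mem_insert_self i s)
    rw [Finset.mem_erase] at hiX
    refine ⟨tv i z (-(h * g).1 i z) * h, mul_mem (SB3_tv_mem hiX.2 hz hiX.1 _) hh, ?_, ?_⟩
    · rw [mul_assoc, SB3_tv_mul hiX.1, if_neg (Ne.symm hiX.1), add_zero]
      exact h1
    · intro k hk
      rw [mul_assoc, SB3_tv_mul hiX.1]
      by_cases hki : k = i
      · rw [if_pos hki, h1, mul_one, hki, add_neg_cancel]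
      · rw [if_neg hki, add_zero]
        exact h2 k (Finset.mem_of_mem_insert_of_ne hk hki)

/-- Step 3: clear the row. -/
theorem SB3_step3 (X : Finset (Fin n)) {z : Fin n} (hz : z ∈ X) (g : SLn n F)
    (hg : ∀ i, g.1 i z = (1 : Matrix (Fin n) (Fin n) F) i z) (s : Finset (Fin n))
    (hs : s ⊆ X.erase z) :
    ∃ h ∈ SB3_T F X, (∀ i, (g * h).1 i z = (1 : Matrix (Fin n) (Fin n) F) i z) ∧
      ∀ i ∈ s, (g * h).1 z i = 0 := by
  induction s using Finset.induction_on with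
  | empty => exact ⟨1, one_mem _, by rw [mul_one]; exact hg, fun i hi => absurd hi (Finset.notMem_empty i)⟩
  | insert i s hi ih =>
    obtain ⟨h, hh, h1, h2⟩ := ih (fun a ha => hs (Finset.mem_insert_of_mem ha))
    have hiX := hs (Finset.mem_insert_self i s)
    rw [Finset.mem_erase] at hiX
    refine ⟨h * tv z i (-(g * h).1 z i), mul_mem hh (SB3_tv_mem hz hiX.2 (Ne.symm hiX.1) _), ?_, ?_⟩
    · intro k
      rw [← mul_assoc, SB3_mul_tv (Ne.symm hiX.1), if_neg (Ne.symm hiX.1), add_zero]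
      exact h1 k
    · intro k hk
      rw [← mul_assoc, SB3_mul_tv (Ne.symm hiX.1)]
      by_cases hki : k = i
      · rw [if_pos hki, h1, Matrix.one_apply_eq, one_mul, hki, add_neg_cancel]
      · rw [if_neg hki, add_zero]
        exact h2 k (Finset.mem_of_mem_insert_of_ne hk hki)

theorem SB3_main (m : ℕ) : ∀ X : Finset (Fin n), X.card ≤ m →
    (GX X : Subgroup (SLn n F)) ≤ SB3_T F X := by
  induction m with
  | zero =>
    intro X hX g hg
    by_cases hn : Nonempty (Fin n)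
    · obtain ⟨z⟩ := hn
      have h0 : X = ∅ := Finset.card_eq_zero.mp (Nat.le_zero.mp hX)
      rw [SB3_small X z (by rw [h0]; exact Finset.empty_subset _) g hg]
      exact one_mem _
    · have : g = 1 := by
        refine Subtype.ext ?_
        ext i j
        exact absurd ⟨i⟩ hn
      rw [this]
      exact one_mem _
  | succ m ih =>
    intro X hX g hg
    by_cases h2 : ∃ z ∈ X, ∃ w ∈ X, w ≠ z
    · obtain ⟨z, hz, w, hw, hwz⟩ := h2
      obtain ⟨h1, hh1, e1⟩ := SB3_step1 X hz hw hwz g hg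
      obtain ⟨h2, hh2, e2, e2'⟩ := SB3_step2 X hz (h1 * g) e1 (X.erase z) (fun _ h => h)
      have hg2 : h2 * (h1 * g) ∈ (GX X : Subgroup (SLn n F)) :=
        mul_mem (SB3_T_le X hh2) (mul_mem (SB3_T_le X hh1) hg)
      have hcol : ∀ i, (h2 * (h1 * g)).1 i z = (1 : Matrix (Fin n) (Fin n) F) i z := by
        intro i
        by_cases hiz : i = z
        · rw [hiz, e2, Matrix.one_apply_eq]
        · by_cases hiX : i ∈ X
          · rw [e2' i (Finset.mem_erase.mpr ⟨hiz, hiX⟩), Matrix.one_apply_ne hiz]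
          · exact ((SB3_mem X _).mp hg2 i hiX z).2
      obtain ⟨h3, hh3, e3, e3'⟩ := SB3_step3 X hz (h2 * (h1 * g)) hcol (X.erase z) (fun _ h => h)
      have hg3 : h2 * (h1 * g) * h3 ∈ (GX X : Subgroup (SLn n F)) := mul_mem hg2 (SB3_T_le X hh3)
      have hrow : ∀ i, (h2 * (h1 * g) * h3).1 z i = (1 : Matrix (Fin n) (Fin n) F) z i := by
        intro i
        by_cases hiz : i = z
        · rw [hiz, e3]
        · by_cases hiX : i ∈ X
          · rw [e3' i (Finset.mem_erase.mpr ⟨hiz, hiX⟩), Matrix.one_apply_ne (Ne.symm hiz)]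
          · exact ((SB3_mem X _).mp hg3 i hiX z).1
      have hg4 : h2 * (h1 * g) * h3 ∈ (GX (X.erase z) : Subgroup (SLn n F)) := by
        rw [SB3_mem]
        intro j hj i
        by_cases hjz : j = z
        · rw [hjz]
          exact ⟨e3 i, hrow i⟩
        · exact (SB3_mem X _).mp hg3 j (fun hjX => hj (Finset.mem_erase.mpr ⟨hjz, hjX⟩)) i
      have hc : (X.erase z).card ≤ m := by
        rw [Finset.card_erase_of_mem hz]
        omega
      have h5 := SB3_T_mono (F := F) (Finset.erase_subset z X) (ih (X.erase z) hc hg4)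
      have h6 : g = (h2 * h1)⁻¹ * (h2 * (h1 * g) * h3) * h3⁻¹ := by group
      rw [h6]
      exact mul_mem (mul_mem (inv_mem (mul_mem hh2 hh1)) h5) (inv_mem hh3)
    · push Not at h2
      by_cases hne : X.Nonempty
      · obtain ⟨z, hz⟩ := hne
        rw [SB3_small X z (fun w hw => Finset.mem_singleton.mpr (h2 z hz w hw)) g hg]
        exact one_mem _
      · rw [Finset.not_nonempty_iff_eq_empty] at hne
        refine ih X ?_ hg
        rw [hne, Finset.card_empty]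
        exact Nat.zero_le m

theorem GX_le_closure (X : Finset (Fin n)) : (GX X : Subgroup (SLn n F)) ≤
    Subgroup.closure {g | ∃ i ∈ X, ∃ j ∈ X, i ≠ j ∧ ∃ a : F, g = tv i j a} :=
  SB3_main X.card X le_rfl

theorem SB3_vmv (i j : Fin n) (a b : F) : Matrix.vecMulVec (Pi.single i a) (Pi.single j b) =
    Matrix.single i j (a * b) := by
  ext k l
  rw [Matrix.vecMulVec_apply, Matrix.single_apply, Pi.single_apply, Pi.single_apply]
  by_cases hk : k = i
  · by_cases hl : l = j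
    · rw [if_pos hk, if_pos hl, if_pos ⟨hk.symm, hl.symm⟩]
    · rw [if_pos hk, if_neg hl, if_neg (fun h : i = k ∧ j = l => hl h.2.symm), mul_zero]
  · rw [if_neg hk, if_neg (fun h : i = k ∧ j = l => hk h.1.symm), zero_mul]

theorem GX_insert_le (Y : Finset (Fin n)) (z : Fin n) (hz : z ∉ Y) :
    (GX (insert z Y) : Subgroup (SLn n F)) ≤ GX Y ⊔ UC Y z ⊔ UR Y z := by
  refine (GX_le_closure (insert z Y)).trans ?_
  rw [Subgroup.closure_le]
  rintro g ⟨i, hi, j, hj, hij, a, rfl⟩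
  rw [SetLike.mem_coe]
  rw [Finset.mem_insert] at hi hj
  have hU : (tv i j a : SLn n F).1 = 1 + Matrix.single i j a := tv_coe hij a
  rcases hi with hi | hi
  · rcases hj with hj | hj
    · exact absurd (hi.trans hj.symm) hij
    · refine Subgroup.mem_sup_right ?_
      refine ⟨Pi.single j a, fun k hk => ?_, ?_, ?_⟩
      · rw [Pi.single_apply, if_neg (fun h : k = j => hk (by rw [h]; exact hj))]
      · rw [Pi.single_apply, if_neg (fun h : z = j => hz (by rw [h]; exact hj))]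
      · rw [hU, hi, SB3_vmv, one_mul]
  · rcases hj with hj | hj
    · refine Subgroup.mem_sup_left (Subgroup.mem_sup_right ?_)
      refine ⟨Pi.single i a, fun k hk => ?_, ?_, ?_⟩
      · rw [Pi.single_apply, if_neg (fun h : k = i => hk (by rw [h]; exact hi))]
      · rw [Pi.single_apply, if_neg (fun h : z = i => hz (by rw [h]; exact hi))]
      · rw [hU, hj, SB3_vmv, mul_one]
    · exact Subgroup.mem_sup_left (Subgroup.mem_sup_left (tv_mem_GX Y hi hj a))

end Pool.Agent.BC5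
end

section
set_option autoImplicit false
set_option linter.unusedSectionVars false
set_option linter.unusedVariables false
open scoped BigOperators Matrix
open Matrix
namespace Pool.Agent.BC5


variable {n : ℕ} {F : Type} [Field F] [Fintype F] [DecidableEq F]

theorem SB4_UC_le (Y : Finset (Fin n)) (z : Fin n) : (UC Y z : Subgroup (SLn n F)) ≤ GX (insert z Y) := by
  rintro g ⟨v, hv, hvz, hg⟩ j hj
  rw [Finset.mem_insert, not_or] at hj
  have h1 : (Pi.single z 1 : Fin n → F) ⬝ᵥ Pi.single j 1 = 0 := by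
    rw [dotProduct_single, Pi.single_eq_of_ne hj.1, zero_mul]
  have h2 : (Pi.single j 1 : Fin n → F) ⬝ᵥ v = 0 := by
    rw [single_dotProduct, hv j hj.2, mul_zero]
  constructor
  · rw [hg, Matrix.add_mulVec, Matrix.one_mulVec, Matrix.vecMulVec_mulVec, h1]
    simp
  · rw [hg, Matrix.vecMul_add, Matrix.vecMul_one, Matrix.vecMul_vecMulVec, h2]
    simp

theorem SB4_UR_le (Y : Finset (Fin n)) (z : Fin n) : (UR Y z : Subgroup (SLn n F)) ≤ GX (insert z Y) := by
  rintro g ⟨v, hv, hvz, hg⟩ j hj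
  rw [Finset.mem_insert, not_or] at hj
  have h1 : v ⬝ᵥ (Pi.single j 1 : Fin n → F) = 0 := by
    rw [dotProduct_single, hv j hj.2, zero_mul]
  have h2 : (Pi.single j 1 : Fin n → F) ⬝ᵥ Pi.single z 1 = 0 := by
    rw [single_dotProduct, Pi.single_eq_of_ne hj.1, mul_zero]
  constructor
  · rw [hg, Matrix.add_mulVec, Matrix.one_mulVec, Matrix.vecMulVec_mulVec, h1]
    simp
  · rw [hg, Matrix.vecMul_add, Matrix.vecMul_one, Matrix.vecMul_vecMulVec, h2]
    simp

theorem SB4_card (k : ℕ) : (2 : ℝ) ^ k ≤ ((Fintype.card F ^ k : ℕ) : ℝ) := by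
  have h1 : 2 ≤ Fintype.card F := Fintype.one_lt_card
  have h2 : 2 ^ k ≤ Fintype.card F ^ k := Nat.pow_le_pow_left h1 k
  calc (2 : ℝ) ^ k = ((2 ^ k : ℕ) : ℝ) := by push_cast; rfl
    _ ≤ _ := by exact_mod_cast h2

theorem step_GX (Y : Finset (Fin n)) (z : Fin n) (hz : z ∉ Y) (hY : 2 ≤ Y.card) {Q : Matrix (SLn n F) (SLn n F) ℝ}
    (hQ : IsPr Q) (hc : ∀ g ∈ (GX (insert z Y) : Subgroup (SLn n F)), Commute Q (Lm g)) :
    (PK (GX Y : Subgroup (SLn n F)) * Q).trace ≤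
      (PK (GX (insert z Y) : Subgroup (SLn n F)) * Q).trace + 2 / ((2 : ℝ) ^ Y.card - 1) * Q.trace := by
  refine two_step (GX Y) (UC Y z) (UR Y z) (GX (insert z Y)) (UC_norm Y z hz) (UC_trans Y z hz hY) (UR_norm Y z hz)
    (UR_trans Y z hz hY) (GX_insert_le Y z hz) _ ?_ ?_ ?_ hQ ?_
  · have : (1 : ℝ) < 2 ^ Y.card := one_lt_pow₀ (by norm_num) (by omega)
    linarith
  · rw [UC_card Y z hz]
    have := SB4_card (F := F) Y.card
    linarith
  · rw [UR_card Y z hz]
    have := SB4_card (F := F) Y.card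
    linarith
  · intro k hk
    apply hc
    exact sup_le (sup_le (GX_mono (Finset.subset_insert z Y)) (SB4_UC_le Y z)) (SB4_UR_le Y z) hk

theorem SB4_real (j : ℕ) (hj : 3 ≤ j) : 2 / ((2 : ℝ) ^ j - 1) ≤ 16 / 7 * (1 / 2 : ℝ) ^ j := by
  have h8 : (8 : ℝ) ≤ 2 ^ j := by
    calc (8 : ℝ) = 2 ^ 3 := by norm_num
      _ ≤ 2 ^ j := pow_le_pow_right₀ (by norm_num) hj
  rw [div_le_iff₀ (by linarith), one_div, inv_pow]
  have h0 : (0 : ℝ) < 2 ^ j := by positivity
  have h1 : 16 / 7 * ((2 : ℝ) ^ j)⁻¹ * (2 ^ j - 1) = 16 / 7 - 16 / 7 * ((2 : ℝ) ^ j)⁻¹ := by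
    field_simp
  rw [h1]
  have h2 : ((2 : ℝ) ^ j)⁻¹ ≤ 1 / 8 := by
    rw [inv_le_comm₀ h0 (by norm_num)]
    linarith
  linarith

theorem SB4_chain (X : Finset (Fin n)) {Q : Matrix (SLn n F) (SLn n F) ℝ}
    (hQ : IsPr Q) (hc : ∀ g ∈ (GX X : Subgroup (SLn n F)), Commute Q (Lm g))
    (h0 : PK (GX X : Subgroup (SLn n F)) * Q = 0) (m : ℕ) : ∀ (Y : Finset (Fin n)), Y ⊆ X → 3 ≤ Y.card → (X \ Y).card = m →
    (PK (GX Y : Subgroup (SLn n F)) * Q).trace ≤ 32 / 7 * ((1 / 2 : ℝ) ^ Y.card - (1 / 2 : ℝ) ^ X.card) * Q.trace := by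
  induction m with
  | zero =>
    intro Y hYX hY hm
    have hXY : X ⊆ Y := by
      rw [← Finset.sdiff_eq_empty_iff_subset]
      exact Finset.card_eq_zero.mp hm
    have : Y = X := Finset.Subset.antisymm hYX hXY
    subst this
    rw [h0]
    simp
  | succ m ih =>
    intro Y hYX hY hm
    obtain ⟨z, hz⟩ : (X \ Y).Nonempty := by
      rw [← Finset.card_pos]; omega
    rw [Finset.mem_sdiff] at hz
    have hsub : insert z Y ⊆ X := Finset.insert_subset hz.1 hYX
    have hcard : (insert z Y).card = Y.card + 1 := Finset.card_insert_of_notMem hz.2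
    have hm' : (X \ insert z Y).card = m := by
      have h1 := Finset.card_sdiff_add_card_eq_card hsub
      have h2 := Finset.card_sdiff_add_card_eq_card hYX
      omega
    have h1 := ih (insert z Y) hsub (by omega) hm'
    have h2 := step_GX Y z hz.2 (by omega) hQ (fun g hg => hc g (GX_mono hsub hg))
    have h3 := SB4_real Y.card hY
    have h4 : 0 ≤ Q.trace := trace_pr_nonneg hQ
    have h5 := mul_le_mul_of_nonneg_right h3 h4
    rw [hcard, pow_succ] at h1
    nlinarith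

theorem chain_GX (X Y : Finset (Fin n)) (hYX : Y ⊆ X) (hY : 3 ≤ Y.card) {Q : Matrix (SLn n F) (SLn n F) ℝ}
    (hQ : IsPr Q) (hc : ∀ g ∈ (GX X : Subgroup (SLn n F)), Commute Q (Lm g))
    (h0 : PK (GX X : Subgroup (SLn n F)) * Q = 0) :
    (PK (GX Y : Subgroup (SLn n F)) * Q).trace ≤ 32 / 7 * (1 / 2 : ℝ) ^ Y.card * Q.trace := by
  have h1 := SB4_chain X hQ hc h0 _ Y hYX hY rfl
  have h4 : 0 ≤ Q.trace := trace_pr_nonneg hQ
  have h5 : (0 : ℝ) ≤ (1 / 2 : ℝ) ^ X.card := by positivity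
  nlinarith [mul_nonneg h5 h4]

end Pool.Agent.BC5
end

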