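import Pool.Agent.Lib.MP_bc5a73_al.QuasiDefs
import Pool.Agent.Lib.MP_bc5a73_al.SlGroups
import Pool.Agent.Lib.MP_bc5a73_al.Regular
import Pool.Agent.Lib.MP_bc5a73_al.LinearAlgebra

section
set_option autoImplicit false
set_option linter.unusedSectionVars false
set_option linter.unusedVariables false
open scoped BigOperators Matrix
open Matrix
namespace Pool.Agent.BC5


theorem trace_idem_nat {V : Type} [Fintype V] [DecidableEq V] (A : Matrix V V ℂ) (hA : A * A = A) :
    ∃ k : ℕ, A.trace = k := by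
  refine ⟨Module.finrank ℂ (LinearMap.range (Matrix.toLin' A)), ?_⟩
  have hi : IsIdempotentElem (Matrix.toLin' A) := by
    unfold IsIdempotentElem
    rw [Module.End.mul_eq_comp, ← Matrix.toLin'_mul, hA]
  rw [← Matrix.trace_toLin'_eq A]
  exact (LinearMap.IsIdempotentElem.isProj_range _ hi).trace

theorem exists_char (F : Type) [Field F] [Fintype F] [DecidableEq F] : ∃ ψ : F → ℂ, ψ 0 = 1 ∧ (∀ x y, ψ (x + y) = ψ x * ψ y) ∧
    ∀ b : F, ∑ x : F, ψ (x * b) = if b = 0 then (Fintype.card F : ℂ) else 0 := by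
  obtain ⟨χ, hχ⟩ := (AddChar.exists_apply_ne_zero (α := F) (a := (1 : F))).2 one_ne_zero
  have hne : χ ≠ 1 := by
    intro h
    apply hχ
    rw [h]
    rfl
  have hp : χ.IsPrimitive := AddChar.IsPrimitive.of_ne_one hne
  refine ⟨fun x => χ x, AddChar.map_zero_eq_one χ, fun x y => AddChar.map_add_eq_mul χ x y, fun b => ?_⟩
  have h := AddChar.sum_mulShift b hp
  rw [Nat.cast_ite, Nat.cast_zero] at h
  exact h

theorem char_vec {F : Type} [Field F] [Fintype F] [DecidableEq F] {ι : Type} [Fintype ι] [DecidableEq ι] (ψ : F → ℂ) (h0 : ψ 0 = 1)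
    (hadd : ∀ x y, ψ (x + y) = ψ x * ψ y)
    (horth : ∀ b : F, ∑ x : F, ψ (x * b) = if b = 0 then (Fintype.card F : ℂ) else 0) (w : ι → F) :
    ∑ a : ι → F, ψ (∑ i, a i * w i) = if w = 0 then ((Fintype.card F : ℂ) ^ Fintype.card ι) else 0 := by
  have h1 : ∀ (s : Finset ι) (f : ι → F), ψ (∑ i ∈ s, f i) = ∏ i ∈ s, ψ (f i) := by
    intro s f
    induction s using Finset.induction_on with
    | empty => simp [h0]
    | insert a s ha ih => rw [Finset.sum_insert ha, Finset.prod_insert ha, hadd, ih]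
  have h2 : ∑ a : ι → F, ψ (∑ i, a i * w i) = ∏ i, ∑ x : F, ψ (x * w i) := by
    rw [Finset.prod_univ_sum, Fintype.piFinset_univ]
    exact Finset.sum_congr rfl fun a _ => h1 _ _
  rw [h2]
  simp only [horth]
  split_ifs with hw
  · subst hw
    simp
  · obtain ⟨i, hi⟩ : ∃ i, w i ≠ 0 := by
      by_contra hcon
      push Not at hcon
      exact hw (funext hcon)
    exact Finset.prod_eq_zero (Finset.mem_univ i) (by simp [hi])

end Pool.Agent.BC5
end

section
set_option autoImplicit false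
set_option linter.unusedSectionVars false
set_option linter.unusedVariables false
open scoped BigOperators Matrix
open Matrix
namespace Pool.Agent.BC5


variable {G : Type} [Group G] [Fintype G] [DecidableEq G]

theorem QD2_trace_map (M : Matrix G G ℝ) :
    (Complex.ofRealHom.mapMatrix M).trace = ((M.trace : ℝ) : ℂ) := by
  simp [Matrix.trace]

theorem QD2_idem {A : Type} [AddCommGroup A] [Fintype A] (χ : A → ℂ)
    (hadd : ∀ v w, χ (v + w) = χ v * χ w) (L : A → Matrix G G ℂ) (hL : ∀ v w, L (v + w) = L v * L w) :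
    (((Fintype.card A : ℂ))⁻¹ • ∑ w : A, χ (-w) • L w) * (((Fintype.card A : ℂ))⁻¹ • ∑ w : A, χ (-w) • L w) =
      ((Fintype.card A : ℂ))⁻¹ • ∑ w : A, χ (-w) • L w := by
  have hA : (Fintype.card A : ℂ) ≠ 0 := by
    have : Nonempty A := ⟨0⟩
    exact_mod_cast Fintype.card_ne_zero
  have h1 : (∑ w : A, χ (-w) • L w) * (∑ w : A, χ (-w) • L w) =
      (Fintype.card A : ℂ) • ∑ w : A, χ (-w) • L w := by
    rw [Finset.sum_mul]
    have h2 : ∀ v : A, (χ (-v) • L v) * (∑ w : A, χ (-w) • L w) = ∑ w : A, χ (-w) • L w := by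
      intro v
      rw [Finset.mul_sum]
      have h3 : ∀ w : A, (χ (-v) • L v) * (χ (-w) • L w) = χ (-(v + w)) • L (v + w) := by
        intro w
        rw [smul_mul_smul_comm, hL, neg_add, hadd]
      simp only [h3]
      exact Equiv.sum_comp (Equiv.addLeft v) (fun w => χ (-w) • L w)
    simp only [h2]
    rw [Finset.sum_const, Finset.card_univ, Nat.cast_smul_eq_nsmul]
  rw [smul_mul_smul_comm, h1, smul_smul]
  congr 1
  field_simp

theorem char_dim {A : Type} [AddCommGroup A] [Fintype A] [DecidableEq A] (u : A → G) (hu : ∀ a b, u (a + b) = u a * u b)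
    (χ : A → A → ℂ) (h0 : ∀ a, χ a 0 = 1) (hadd : ∀ a v w, χ a (v + w) = χ a v * χ a w)
    (horth : ∀ w, ∑ a : A, χ a w = if w = 0 then (Fintype.card A : ℂ) else 0) {Q : Matrix G G ℝ} (hQ : IsPr Q)
    (hc : ∀ w, Commute Q (Lm (u w))) (S : Finset A)
    (hS : ∀ a ∈ S, ∀ b ∈ S, ∑ w : A, χ a (-w) * (((Lm (u w) * Q).trace : ℝ) : ℂ) =
      ∑ w : A, χ b (-w) * (((Lm (u w) * Q).trace : ℝ) : ℂ))
    (hne : ∃ a ∈ S, ∑ w : A, χ a (-w) * (((Lm (u w) * Q).trace : ℝ) : ℂ) ≠ 0) : (S.card : ℝ) ≤ Q.trace := by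
  have hA : (Fintype.card A : ℂ) ≠ 0 := by
    have : Nonempty A := ⟨0⟩
    exact_mod_cast Fintype.card_ne_zero
  have hu0 : u 0 = 1 := by
    have h := hu 0 0
    rw [add_zero] at h
    exact (mul_eq_left.1 h.symm)
  have hQQ : Q * Q = Q := hQ.2
  -- naturality of the multiplicities
  have hnat : ∀ a : A, ∃ k : ℕ, (Fintype.card A : ℂ)⁻¹ * ∑ w : A, χ a (-w) * (((Lm (u w) * Q).trace : ℝ) : ℂ) = k := by
    intro a
    have hid := QD2_idem (G := G) (χ a) (hadd a) (fun w => Complex.ofRealHom.mapMatrix (Lm (u w)))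
      (fun v w => by rw [hu, Lm_mul, map_mul])
    set e : Matrix G G ℂ := ((Fintype.card A : ℂ))⁻¹ • ∑ w : A, χ a (-w) • Complex.ofRealHom.mapMatrix (Lm (u w)) with he
    have hcomm : Commute e (Complex.ofRealHom.mapMatrix Q) := by
      rw [he]
      refine Commute.smul_left ?_ _
      refine Commute.sum_left _ _ _ fun w _ => ?_
      refine Commute.smul_left ?_ _
      exact ((hc w).symm).map Complex.ofRealHom.mapMatrix
    have hidem : (e * Complex.ofRealHom.mapMatrix Q) * (e * Complex.ofRealHom.mapMatrix Q) =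
        e * Complex.ofRealHom.mapMatrix Q := by
      have h1 : (e * Complex.ofRealHom.mapMatrix Q) * (e * Complex.ofRealHom.mapMatrix Q) =
          (e * e) * (Complex.ofRealHom.mapMatrix Q * Complex.ofRealHom.mapMatrix Q) := by
        rw [mul_assoc, ← mul_assoc (Complex.ofRealHom.mapMatrix Q) e, ← hcomm.eq, mul_assoc, mul_assoc]
      rw [h1, hid, ← map_mul, hQQ]
    obtain ⟨k, hk⟩ := trace_idem_nat _ hidem
    refine ⟨k, ?_⟩
    rw [← hk, he, Matrix.smul_mul, Matrix.trace_smul, smul_eq_mul, Finset.sum_mul, Matrix.trace_sum]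
    congr 1
    refine Finset.sum_congr rfl fun w _ => ?_
    rw [Matrix.smul_mul, Matrix.trace_smul, smul_eq_mul, ← map_mul, QD2_trace_map]
  choose n hn using hnat
  -- the sum of all multiplicities
  have hsum : ∑ a : A, (n a : ℂ) = ((Q.trace : ℝ) : ℂ) := by
    have h1 : ∑ a : A, (n a : ℂ) = (Fintype.card A : ℂ)⁻¹ *
        ∑ w : A, (∑ a : A, χ a (-w)) * (((Lm (u w) * Q).trace : ℝ) : ℂ) := by
      simp only [← hn]
      rw [← Finset.mul_sum, Finset.sum_comm]
      simp only [Finset.sum_mul]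
    rw [h1]
    simp only [horth, neg_eq_zero, ite_mul, zero_mul, Finset.sum_ite_eq', Finset.mem_univ, if_true]
    rw [hu0, Lm_one, one_mul, inv_mul_cancel_left₀ hA]
  have hsumR : ∑ a : A, (n a : ℝ) = Q.trace := by
    exact_mod_cast hsum
  obtain ⟨a₀, ha₀, hne₀⟩ := hne
  have hpos : ∀ a ∈ S, 1 ≤ n a := by
    intro a ha
    rcases Nat.eq_zero_or_pos (n a) with h | h
    · exfalso
      have h2 := hn a
      rw [h, Nat.cast_zero, hS a ha a₀ ha₀] at h2
      rcases mul_eq_zero.1 h2 with h3 | h3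
      · exact hA (inv_eq_zero.1 h3)
      · exact hne₀ h3
    · exact h
  calc (S.card : ℝ) = ∑ a ∈ S, (1 : ℝ) := by rw [Finset.sum_const, nsmul_eq_mul, mul_one]
    _ ≤ ∑ a ∈ S, (n a : ℝ) := Finset.sum_le_sum fun a ha => by exact_mod_cast hpos a ha
    _ ≤ ∑ a : A, (n a : ℝ) := Finset.sum_le_sum_of_subset_of_nonneg (Finset.subset_univ _)
        (fun a _ _ => Nat.cast_nonneg _)
    _ = Q.trace := hsumR

end Pool.Agent.BC5
end

section
set_option autoImplicit false
set_option linter.unusedSectionVars false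
set_option linter.unusedVariables false
set_option linter.unusedSimpArgs false
open scoped BigOperators Matrix
open Matrix
namespace Pool.Agent.BC5


variable {n : ℕ} {F : Type} [Field F] [Fintype F] [DecidableEq F]

theorem QD5_w {z j : Fin n} (h : z ≠ j) (a : F) :
    (tv z j 1 : SLn n F) * (tv j z (-1) * (tv z j 1 * tv j z (-a))) =
      tv z j a * (tv z j 1 * (tv j z (-1) * tv z j 1)) := by
  have e1 : (tv j z (-a) : SLn n F) = tv j z (-a) * 1 := (mul_one _).symm
  have e2 : (tv z j 1 : SLn n F) * (tv j z (-1) * tv z j 1) = tv z j 1 * (tv j z (-1) * (tv z j 1 * 1)) := by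
    rw [mul_one]
  rw [e1, e2]
  refine Subtype.ext (Matrix.ext fun k l => ?_)
  simp only [SB3_tv_mul h, SB3_tv_mul h.symm]
  by_cases hz : k = z
  · subst hz
    simp [h, h.symm]
    ring
  · by_cases hj : k = j
    · subst hj
      simp [h, h.symm]
      try ring
    · simp [hz, hj]

theorem QD5_c {i j z : Fin n} (hiz : i ≠ z) (hjz : j ≠ z) (hij : i ≠ j) (a : F) :
    (tv i z a : SLn n F) * tv z j 1 = tv i j a * (tv z j 1 * tv i z a) := by
  have e1 : (tv z j 1 : SLn n F) = tv z j 1 * 1 := (mul_one _).symm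
  have e2 : (tv i z a : SLn n F) = tv i z a * 1 := (mul_one _).symm
  have e3 : (tv i z a : SLn n F) * tv z j 1 = tv i z a * (tv z j 1 * 1) := by rw [mul_one]
  have e4 : (tv i j a : SLn n F) * (tv z j 1 * tv i z a) = tv i j a * (tv z j 1 * (tv i z a * 1)) := by rw [mul_one]
  rw [e3, e4]
  refine Subtype.ext (Matrix.ext fun k l => ?_)
  simp only [SB3_tv_mul hiz, SB3_tv_mul hij, SB3_tv_mul hjz.symm]
  by_cases hi : k = i
  · subst hi
    simp [hiz, hiz.symm, hij, hij.symm, hjz, hjz.symm]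
    try ring
  · by_cases hz : k = z
    · subst hz
      simp [hiz, hiz.symm, hij, hij.symm, hjz, hjz.symm]
    · simp [hi, hz]

/-- the stabiliser -/
def QD5_K (P : Matrix (SLn n F) (SLn n F) ℝ) : Subgroup (SLn n F) where
  carrier := {g | Lm g * P = P}
  mul_mem' := by
    intro g h hg hh
    show Lm (g * h) * P = P
    rw [Lm_mul, mul_assoc, show Lm h * P = P from hh]
    exact hg
  one_mem' := by
    show Lm 1 * P = P
    rw [Lm_one, one_mul]
  inv_mem' := by
    intro g hg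
    show Lm g⁻¹ * P = P
    conv_lhs => rw [← show Lm g * P = P from hg]
    rw [← mul_assoc, Lm_inv_mul, one_mul]

theorem QD5_conj {P : Matrix (SLn n F) (SLn n F) ℝ} (hL : CommL P) {g : SLn n F} (hg : g ∈ QD5_K P) (h : SLn n F) :
    h * g * h⁻¹ ∈ QD5_K P := by
  show Lm (h * g * h⁻¹) * P = P
  have h1 : Lm g * P = P := hg
  have h2 : P * Lm h⁻¹ = Lm h⁻¹ * P := hL h⁻¹
  rw [Lm_mul, Lm_mul, mul_assoc, ← h2, mul_assoc, ← mul_assoc (Lm g), h1, h2, ← mul_assoc, Lm_mul_inv, one_mul]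

theorem fix_zero (hn : 2 ≤ n) (z : Fin n) {P : Matrix (SLn n F) (SLn n F) ℝ} (hP : IsPr P) (hL : CommL P)
    (hJ : P * Jm (SLn n F) = 0) (h : ∀ i : Fin n, i ≠ z → ∀ a : F, Lm (tv i z a : SLn n F) * P = P) : P = 0 := by
  have c1 : ∀ i : Fin n, i ≠ z → ∀ a : F, (tv i z a : SLn n F) ∈ QD5_K P := fun i hi a => h i hi a
  have c2 : ∀ j : Fin n, j ≠ z → ∀ a : F, (tv z j a : SLn n F) ∈ QD5_K P := by
    intro j hj a
    have e := QD5_w (F := F) hj.symm a
    have e2 : (tv z j a : SLn n F) = (tv z j 1 * (tv j z (-1) * tv z j 1)) * tv j z (-a) *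
        (tv z j 1 * (tv j z (-1) * tv z j 1))⁻¹ := by
      rw [eq_mul_inv_iff_mul_eq, ← e]
      simp only [mul_assoc]
    rw [e2]
    exact QD5_conj hL (c1 j hj (-a)) _
  have c3 : ∀ i j : Fin n, i ≠ z → j ≠ z → i ≠ j → ∀ a : F, (tv i j a : SLn n F) ∈ QD5_K P := by
    intro i j hi hj hij a
    have e := QD5_c (F := F) hi hj hij a
    have e2 : (tv i j a : SLn n F) = tv i z a * (tv z j 1 * (tv i z a)⁻¹ * (tv z j 1)⁻¹) := by
      rw [← mul_inv_eq_iff_eq_mul] at e
      rw [← e, _root_.mul_inv_rev]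
      simp only [mul_assoc]
    rw [e2]
    exact mul_mem (c1 i hi a) (QD5_conj hL (inv_mem (c1 i hi a)) _)
  have hall : ∀ g : SLn n F, g ∈ QD5_K P := by
    intro g
    have hg : g ∈ (GX (Finset.univ : Finset (Fin n)) : Subgroup (SLn n F)) := by
      rw [GX_univ]; exact Subgroup.mem_top g
    have h1 := GX_le_closure _ hg
    refine (Subgroup.closure_le (QD5_K P)).2 ?_ h1
    rintro x ⟨i, _, j, _, hij, a, rfl⟩
    by_cases hj : j = z
    · subst hj
      exact c1 i hij a
    · by_cases hi : i = z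
      · subst hi
        exact c2 j hj a
      · exact c3 i j hi hj hij a
  have hJP : Jm (SLn n F) * P = P := by
    rw [Jm_eq_avg_Lm]
    unfold avg
    rw [Matrix.smul_mul, Finset.sum_mul]
    have h2 : ∀ g ∈ (Finset.univ : Finset (SLn n F)), Lm g * P = P := fun g _ => hall g
    rw [Finset.sum_congr rfl h2, Finset.sum_const, Finset.card_univ, ← Nat.cast_smul_eq_nsmul ℝ, smul_smul,
      inv_mul_cancel₀ (Nat.cast_ne_zero.2 Fintype.card_ne_zero), one_smul]
  have hJt : (Jm (SLn n F))ᵀ = Jm (SLn n F) := rfl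
  have h0 : Jm (SLn n F) * P = 0 := by
    have h3 := congrArg Matrix.transpose hJ
    rw [Matrix.transpose_mul, hJt, hP.1, Matrix.transpose_zero] at h3
    exact h3
  rw [← hJP, h0]

end Pool.Agent.BC5
end

section
set_option autoImplicit false
set_option linter.unusedSectionVars false
set_option linter.unusedVariables false
open scoped BigOperators Matrix
open Matrix
namespace Pool.Agent.BC5


section
variable {G : Type} [Group G] [Fintype G] [DecidableEq G]

theorem QD3_sq {P : Matrix G G ℝ} (hP : IsPr P) (g : G) :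
    ((Lm g * P - P)ᵀ * (Lm g * P - P)).trace = 2 * (P.trace - (Lm g * P).trace) := by
  have e1 : (Lm g * P - P)ᵀ * (Lm g * P - P) =
      Pᵀ * ((Lm g)ᵀ * Lm g) * P - Pᵀ * (Lm g)ᵀ * P - Pᵀ * (Lm g * P) + Pᵀ * P := by
    rw [Matrix.transpose_sub, Matrix.transpose_mul, Matrix.sub_mul, Matrix.mul_sub, Matrix.mul_sub]
    simp only [Matrix.mul_assoc]
    abel
  have e2 : (Lm g)ᵀ * Lm g = (1 : Matrix G G ℝ) := by
    rw [Lm_transpose, Lm_inv_mul]
  have e3 : (Pᵀ * (Lm g)ᵀ * P).trace = (Lm g * P).trace := by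
    have : (Pᵀ * (Lm g)ᵀ * P).trace = ((P * Pᵀ) * (Lm g)ᵀ).trace := by
      rw [Matrix.trace_mul_comm, ← Matrix.mul_assoc]
    rw [this, hP.1, hP.2, ← Matrix.trace_transpose, Matrix.transpose_mul, Matrix.transpose_transpose, hP.1]
  have e4 : (Pᵀ * (Lm g * P)).trace = (Lm g * P).trace := by
    rw [Matrix.trace_mul_comm, hP.1, Matrix.mul_assoc, hP.2]
  rw [e1, Matrix.trace_add, Matrix.trace_sub, Matrix.trace_sub, e2, Matrix.mul_one, e3, e4, hP.1, hP.2]
  ring

theorem QD3_nonneg (M : Matrix G G ℝ) : 0 ≤ (Mᵀ * M).trace := by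
  unfold Matrix.trace
  refine Finset.sum_nonneg (fun i _ => ?_)
  simp only [Matrix.diag_apply, Matrix.mul_apply, Matrix.transpose_apply]
  exact Finset.sum_nonneg (fun j _ => mul_self_nonneg _)

theorem QD3_zero (M : Matrix G G ℝ) (h : (Mᵀ * M).trace = 0) : M = 0 := by
  unfold Matrix.trace at h
  have h1 := (Finset.sum_eq_zero_iff_of_nonneg (fun i _ => by
    simp only [Matrix.diag_apply, Matrix.mul_apply, Matrix.transpose_apply]
    exact Finset.sum_nonneg (fun j _ => mul_self_nonneg _))).mp h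
  ext j i
  have h2 := h1 i (Finset.mem_univ i)
  simp only [Matrix.diag_apply, Matrix.mul_apply, Matrix.transpose_apply] at h2
  have h3 := (Finset.sum_eq_zero_iff_of_nonneg (fun j _ => mul_self_nonneg _)).mp h2 j (Finset.mem_univ j)
  simpa using h3

theorem QD3_le {P : Matrix G G ℝ} (hP : IsPr P) (g : G) : (Lm g * P).trace ≤ P.trace := by
  have h1 := QD3_sq hP g
  have h2 := QD3_nonneg (Lm g * P - P)
  linarith

theorem QD3_eq {P : Matrix G G ℝ} (hP : IsPr P) (g : G) (h : (Lm g * P).trace = P.trace) : Lm g * P = P := by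
  have h1 := QD3_sq hP g
  rw [h, sub_self, mul_zero] at h1
  exact sub_eq_zero.mp (QD3_zero _ h1)

theorem QD3_conj {P : Matrix G G ℝ} (hL : CommL P) (h g : G) : (Lm (h * g * h⁻¹) * P).trace = (Lm g * P).trace := by
  rw [Lm_mul, Lm_mul, Matrix.mul_assoc, ← (hL h⁻¹).eq, Matrix.mul_assoc, Matrix.trace_mul_comm,
    Matrix.mul_assoc, Matrix.mul_assoc, Lm_inv_mul, Matrix.mul_one]

end

variable {n : ℕ} {F : Type} [Field F] [Fintype F] [DecidableEq F]

theorem QD3_ext_add (Y : Finset (Fin n)) (v w : Y → F) : SB2_ext Y (v + w) = SB2_ext Y v + SB2_ext Y w := by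
  funext i
  by_cases hi : i ∈ Y
  · simp [SB2_ext, hi]
  · simp [SB2_ext, hi]

theorem QD3_det (Y : Finset (Fin n)) (z : Fin n) (hz : z ∉ Y) (w : Y → F) :
    (1 + Matrix.vecMulVec (SB2_ext Y w) (Pi.single z 1) : Matrix (Fin n) (Fin n) F).det = 1 := by
  apply SB2_det
  simp [SB2_ext_off Y w z hz]

/-- the unipotent elements -/
def QD3_u (Y : Finset (Fin n)) (z : Fin n) (hz : z ∉ Y) (w : Y → F) : SLn n F :=
  ⟨1 + Matrix.vecMulVec (SB2_ext Y w) (Pi.single z 1), QD3_det Y z hz w⟩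

theorem QD3_u_add (Y : Finset (Fin n)) (z : Fin n) (hz : z ∉ Y) (v w : Y → F) :
    QD3_u Y z hz (v + w) = QD3_u Y z hz v * QD3_u Y z hz w := by
  apply Subtype.ext
  show (1 + Matrix.vecMulVec (SB2_ext Y (v + w)) (Pi.single z 1) : Matrix (Fin n) (Fin n) F) =
    (1 + Matrix.vecMulVec (SB2_ext Y v) (Pi.single z 1)) * (1 + Matrix.vecMulVec (SB2_ext Y w) (Pi.single z 1))
  have h0 : Matrix.vecMulVec (SB2_ext Y v) (Pi.single z 1) * Matrix.vecMulVec (SB2_ext Y w) (Pi.single z 1) =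
      (0 : Matrix (Fin n) (Fin n) F) := by
    rw [Matrix.vecMulVec_mul, Matrix.vecMul_vecMulVec]
    ext i j
    simp [Matrix.vecMulVec_apply, SB2_ext_off Y w z hz]
  rw [Matrix.add_mul, Matrix.mul_add, Matrix.mul_add, h0, QD3_ext_add, Matrix.add_vecMulVec]
  simp only [Matrix.one_mul, Matrix.mul_one]
  abel

/-- the action on vectors supported in `Y` -/
def QD3_act (Y : Finset (Fin n)) (h : SLn n F) (w : Y → F) : Y → F := fun i => (h.1 *ᵥ SB2_ext Y w) i.1

theorem QD3_act_ext (Y : Finset (Fin n)) (h : SLn n F) (hh : h ∈ (GX Y : Subgroup (SLn n F))) (w : Y → F) :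
    SB2_ext Y (QD3_act Y h w) = h.1 *ᵥ SB2_ext Y w := by
  funext i
  by_cases hi : i ∈ Y
  · have := SB2_ext_on Y (QD3_act Y h w) ⟨i, hi⟩
    exact this
  · rw [SB2_ext_off _ _ _ hi, SB2_suppC Y h hh _ (SB2_ext_off Y w) i hi]

theorem QD3_ext_inj (Y : Finset (Fin n)) {v w : Y → F} (h : SB2_ext Y v = SB2_ext Y w) : v = w := by
  funext i
  rw [← SB2_ext_on Y v i, ← SB2_ext_on Y w i, h]

theorem QD3_act_bij (Y : Finset (Fin n)) (h : SLn n F) (hh : h ∈ (GX Y : Subgroup (SLn n F))) :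
    Function.Bijective (QD3_act Y h) := by
  rw [Fintype.bijective_iff_injective_and_card]
  refine ⟨fun v w hvw => ?_, rfl⟩
  apply QD3_ext_inj Y
  have h1 : h.1 *ᵥ SB2_ext Y v = h.1 *ᵥ SB2_ext Y w := by
    rw [← QD3_act_ext Y h hh, ← QD3_act_ext Y h hh, hvw]
  have h2 := sl_inv_apply h1
  rw [← h2]
  exact sl_inv_apply rfl

theorem QD3_conj_u (Y : Finset (Fin n)) (z : Fin n) (hz : z ∉ Y) (h : SLn n F) (hh : h ∈ (GX Y : Subgroup (SLn n F)))
    (w : Y → F) : h * QD3_u Y z hz w * h⁻¹ = QD3_u Y z hz (QD3_act Y h w) := by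
  apply Subtype.ext
  rw [SB2_conjC Y z hz h (QD3_u Y z hz w) hh (SB2_ext Y w) rfl]
  show _ = 1 + Matrix.vecMulVec (SB2_ext Y (QD3_act Y h w)) (Pi.single z 1)
  rw [QD3_act_ext Y h hh]

theorem QD3_dot (Y : Finset (Fin n)) (a w : Y → F) : ∑ i, a i * w i = SB2_ext Y a ⬝ᵥ SB2_ext Y w := by
  unfold dotProduct
  rw [← Finset.sum_subset (Finset.subset_univ Y) (fun i _ hi => by rw [SB2_ext_off Y a i hi, zero_mul]),
    ← Finset.sum_coe_sort Y (fun i => SB2_ext Y a i * SB2_ext Y w i)]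
  exact Finset.sum_congr rfl (fun i _ => by rw [SB2_ext_on, SB2_ext_on])

theorem QD3_tv (Y : Finset (Fin n)) (z : Fin n) (hz : z ∉ Y) (i : Fin n) (hi : i ∈ Y) (a : F) :
    QD3_u Y z hz (Pi.single ⟨i, hi⟩ a) = tv i z a := by
  have hiz : i ≠ z := fun e => hz (e ▸ hi)
  apply Subtype.ext
  rw [tv_coe hiz]
  show 1 + Matrix.vecMulVec (SB2_ext Y (Pi.single ⟨i, hi⟩ a)) (Pi.single z 1) = _
  have h1 : SB2_ext Y (Pi.single ⟨i, hi⟩ a) = Pi.single i a := by
    funext j
    by_cases hj : j = i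
    · subst hj
      have := SB2_ext_on Y (Pi.single ⟨j, hi⟩ a) ⟨j, hi⟩
      rw [this]
      simp
    · by_cases hjY : j ∈ Y
      · have := SB2_ext_on Y (Pi.single ⟨i, hi⟩ a) ⟨j, hjY⟩
        rw [this, Pi.single_eq_of_ne hj, Pi.single_eq_of_ne]
        intro e
        exact hj (congrArg Subtype.val e)
      · rw [SB2_ext_off _ _ _ hjY, Pi.single_eq_of_ne hj]
  rw [h1, SB3_vmv, mul_one]

theorem QD3_main (Y : Finset (Fin n)) (z : Fin n) (hz : z ∉ Y) (hY : 2 ≤ Y.card) (hYz : ∀ i, i ≠ z → i ∈ Y) (hn : 2 ≤ n)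
    {P : Matrix (SLn n F) (SLn n F) ℝ} (hP : IsPr P) (hL : CommL P) (hne : P ≠ 0) (hJ : P * Jm (SLn n F) = 0) :
    ((Fintype.card F : ℝ)) ^ Y.card - 1 ≤ P.trace := by
  classical
  obtain ⟨ψ, hψ0, hψa, hψo⟩ := exists_char F
  set u : (Y → F) → SLn n F := QD3_u Y z hz with hu
  set χ : (Y → F) → (Y → F) → ℂ := fun a w => ψ (∑ i, a i * w i) with hχ
  have hcardA : (Fintype.card (Y → F) : ℂ) = (Fintype.card F : ℂ) ^ Fintype.card Y := by
    rw [Fintype.card_fun]; push_cast; rfl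
  have horth : ∀ w : Y → F, ∑ a : Y → F, χ a w = if w = 0 then (Fintype.card (Y → F) : ℂ) else 0 := by
    intro w
    rw [hcardA]
    exact char_vec ψ hψ0 hψa hψo w
  have h0 : ∀ a, χ a 0 = 1 := by
    intro a
    simp only [hχ, Pi.zero_apply, mul_zero, Finset.sum_const_zero, hψ0]
  have hadd : ∀ a v w, χ a (v + w) = χ a v * χ a w := by
    intro a v w
    simp only [hχ, Pi.add_apply, mul_add, Finset.sum_add_distrib, hψa]
  set τ : (Y → F) → ℝ := fun w => (Lm (u w) * P).trace with hτ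
  have hinv : ∀ h ∈ (GX Y : Subgroup (SLn n F)), ∀ w, τ (QD3_act Y h w) = τ w := by
    intro h hh w
    simp only [hτ, hu]
    rw [← QD3_conj_u Y z hz h hh w, QD3_conj hL]
  have hcard : ((Finset.univ.erase (0 : Y → F)).card : ℝ) = (Fintype.card F : ℝ) ^ Y.card - 1 := by
    rw [Finset.card_erase_of_mem (Finset.mem_univ _), Finset.card_univ, Fintype.card_fun, Fintype.card_coe,
      Nat.cast_sub (Nat.one_le_pow _ _ Fintype.card_pos)]
    push_cast
    rfl
  rw [← hcard]
  refine char_dim u (fun a b => QD3_u_add Y z hz a b) χ h0 hadd horth hP (fun w => hL _)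
    (Finset.univ.erase (0 : Y → F)) ?_ ?_
  · intro a ha b hb
    have ha0 : SB2_ext Y a ≠ 0 := by
      intro e
      apply (Finset.mem_erase.mp ha).1
      apply QD3_ext_inj Y
      rw [e]
      funext i
      by_cases hi : i ∈ Y
      · simp [SB2_ext, hi]
      · simp [SB2_ext, hi]
    have hb0 : SB2_ext Y b ≠ 0 := by
      intro e
      apply (Finset.mem_erase.mp hb).1
      apply QD3_ext_inj Y
      rw [e]
      funext i
      by_cases hi : i ∈ Y
      · simp [SB2_ext, hi]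
      · simp [SB2_ext, hi]
    obtain ⟨h, hh, hab⟩ := covec_trans Y hY _ _ ha0 hb0 (SB2_ext_off Y a) (SB2_ext_off Y b)
    have key : ∀ w : Y → F, χ b (-w) * ((τ w : ℝ) : ℂ) =
        χ a (-(QD3_act Y h w)) * ((τ (QD3_act Y h w) : ℝ) : ℂ) := by
      intro w
      rw [hinv h hh w]
      congr 1
      simp only [hχ]
      congr 1
      have e1 : ∑ i, b i * (-w) i = -(SB2_ext Y b ⬝ᵥ SB2_ext Y w) := by
        rw [← QD3_dot]; simp
      have e2 : ∑ i, a i * (-(QD3_act Y h w)) i = -(SB2_ext Y a ⬝ᵥ SB2_ext Y (QD3_act Y h w)) := by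
        rw [← QD3_dot]; simp
      rw [e1, e2, QD3_act_ext Y h hh, Matrix.dotProduct_mulVec, hab]
    symm
    calc ∑ w : Y → F, χ b (-w) * ((τ w : ℝ) : ℂ)
        = ∑ w : Y → F, χ a (-(QD3_act Y h w)) * ((τ (QD3_act Y h w) : ℝ) : ℂ) :=
          Finset.sum_congr rfl (fun w _ => key w)
      _ = ∑ w : Y → F, χ a (-w) * ((τ w : ℝ) : ℂ) :=
          (QD3_act_bij Y h hh).sum_comp (fun w => χ a (-w) * ((τ w : ℝ) : ℂ))
  · by_contra hcon
    push Not at hcon
    have hcon' : ∀ a : Y → F, a ≠ 0 → ∑ w : Y → F, χ a (-w) * ((τ w : ℝ) : ℂ) = 0 := fun a ha =>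
      hcon a (Finset.mem_erase.mpr ⟨ha, Finset.mem_univ a⟩)
    have s1 : ∑ a : Y → F, ∑ w : Y → F, χ a (-w) * ((τ w : ℝ) : ℂ) = ∑ w : Y → F, ((τ w : ℝ) : ℂ) := by
      rw [Finset.sum_eq_single (0 : Y → F) (fun a _ ha => hcon' a ha) (fun h => absurd (Finset.mem_univ _) h)]
      refine Finset.sum_congr rfl (fun w _ => ?_)
      have : χ 0 (-w) = 1 := by
        simp only [hχ, Pi.zero_apply, zero_mul, Finset.sum_const_zero, hψ0]
      rw [this, one_mul]
    have s2 : ∑ a : Y → F, ∑ w : Y → F, χ a (-w) * ((τ w : ℝ) : ℂ) =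
        (Fintype.card (Y → F) : ℂ) * ((P.trace : ℝ) : ℂ) := by
      rw [Finset.sum_comm]
      have : ∀ w : Y → F, ∑ a : Y → F, χ a (-w) * ((τ w : ℝ) : ℂ) =
          (if w = 0 then (Fintype.card (Y → F) : ℂ) else 0) * ((τ w : ℝ) : ℂ) := by
        intro w
        rw [← Finset.sum_mul, horth]
        simp only [neg_eq_zero]
      rw [Finset.sum_congr rfl (fun w _ => this w)]
      rw [Finset.sum_eq_single (0 : Y → F) (fun w _ hw => by rw [if_neg hw, zero_mul])
        (fun h => absurd (Finset.mem_univ _) h), if_pos rfl]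
      congr 2
      simp only [hτ]
      have hu0 : u 0 = 1 := by
        have h1 : u (0 + 0) = u 0 * u 0 := QD3_u_add Y z hz 0 0
        rw [add_zero] at h1
        exact (mul_eq_left.mp h1.symm)
      rw [hu0, Lm_one, Matrix.one_mul]
    have s3 : ∑ w : Y → F, τ w = (Fintype.card (Y → F) : ℝ) * P.trace := by
      have := s1.symm.trans s2
      exact_mod_cast this
    have s4 : ∑ w : Y → F, (P.trace - τ w) = 0 := by
      rw [Finset.sum_sub_distrib, s3, Finset.sum_const, Finset.card_univ, nsmul_eq_mul, sub_self]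
    have s5 := (Finset.sum_eq_zero_iff_of_nonneg (fun w _ => sub_nonneg.mpr (QD3_le hP (u w)))).mp s4
    apply hne
    refine fix_zero hn z hP hL hJ (fun i hi a => ?_)
    rw [← QD3_tv Y z hz i (hYz i hi) a]
    have := s5 (Pi.single ⟨i, hYz i hi⟩ a) (Finset.mem_univ _)
    exact QD3_eq hP _ (by linarith)

theorem QR_SL_big (hn : 3 ≤ n) : QR (SLn n F) ((Fintype.card F : ℝ) ^ (n - 1) - 1) := by
  intro P hP hL hne hJ
  have hz : (⟨0, by omega⟩ : Fin n) ∉ Finset.univ.erase (⟨0, by omega⟩ : Fin n) := Finset.notMem_erase _ _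
  have hc : (Finset.univ.erase (⟨0, by omega⟩ : Fin n)).card = n - 1 := by
    rw [Finset.card_erase_of_mem (Finset.mem_univ _), Finset.card_univ, Fintype.card_fin]
  have := QD3_main (F := F) (Finset.univ.erase (⟨0, by omega⟩ : Fin n)) ⟨0, by omega⟩ hz (by rw [hc]; omega)
    (fun i hi => Finset.mem_erase.mpr ⟨hi, Finset.mem_univ i⟩) (by omega) hP hL hne hJ
  rw [hc] at this
  exact this

end Pool.Agent.BC5
end

section
set_option autoImplicit false
set_option linter.unusedSectionVars false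
set_option linter.unusedVariables false
open scoped BigOperators Matrix
open Matrix
namespace Pool.Agent.BC5


variable {n : ℕ} {F : Type} [Field F] [Fintype F] [DecidableEq F]


theorem QD4_u_add (a b : F) : (tv 0 1 (a + b) : SLn 2 F) = tv 0 1 a * tv 0 1 b := by
  have h01 : (0 : Fin 2) ≠ 1 := by decide
  apply Subtype.ext
  have h2 : ((tv 0 1 a * tv 0 1 b : SLn 2 F)).1 = (tv 0 1 a : SLn 2 F).1 * (tv 0 1 b : SLn 2 F).1 := rfl
  rw [h2]
  have e : ∀ t : F, (tv 0 1 t : SLn 2 F).1 = !![1, t; 0, 1] := by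
    intro t
    have := tv_coe (n := 2) (F := F) h01 t
    rw [this]
    ext i j
    fin_cases i <;> fin_cases j <;> simp [Matrix.single]
  rw [e, e, e]
  ext i j
  fin_cases i <;> fin_cases j <;> simp [Matrix.mul_apply, Fin.sum_univ_two, add_comm]

theorem QD4_coe (t : F) : (tv 0 1 t : SLn 2 F).1 = !![1, t; 0, 1] := by
  have h01 : (0 : Fin 2) ≠ 1 := by decide
  have := tv_coe (n := 2) (F := F) h01 t
  rw [this]
  ext i j
  fin_cases i <;> fin_cases j <;> simp [Matrix.single]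

theorem QD4_inj {s t : F} (h : (tv 0 1 s : SLn 2 F) = tv 0 1 t) : s = t := by
  have h1 := congrArg (fun g : SLn 2 F => g.1 0 1) h
  simpa [QD4_coe] using h1

theorem QD4_conj (s t : F) (hs : s ≠ 0) : ∃ h : SLn 2 F, h * tv 0 1 t * h⁻¹ = tv 0 1 (s ^ 2 * t) := by
  have hdet : (!![s, 0; 0, s⁻¹] : Matrix (Fin 2) (Fin 2) F).det = 1 := by simp [Matrix.det_fin_two, hs]
  obtain ⟨h, hh⟩ : ∃ h : SLn 2 F, h.1 = !![s, 0; 0, s⁻¹] := ⟨⟨!![s, 0; 0, s⁻¹], hdet⟩, rfl⟩
  refine ⟨h, ?_⟩
  rw [mul_inv_eq_iff_eq_mul]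
  apply Subtype.ext
  have h2 : ∀ a b : SLn 2 F, (a * b).1 = a.1 * b.1 := fun _ _ => rfl
  rw [h2, h2, QD4_coe, QD4_coe, hh]
  ext i j
  fin_cases i <;> fin_cases j <;> simp [Matrix.mul_apply, Fin.sum_univ_two]
  field_simp

theorem QD4_card (a : F) (ha : a ≠ 0) :
    ((Fintype.card F : ℝ) - 1) / 2 ≤ (((Finset.univ.filter (fun s : F => s ≠ 0)).image (fun s => s ^ 2 * a)).card : ℝ) := by
  have h1 : (Finset.univ.filter (fun s : F => s ≠ 0)).card ≤
      2 * ((Finset.univ.filter (fun s : F => s ≠ 0)).image (fun s => s ^ 2 * a)).card := by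
    apply Finset.card_le_mul_card_image
    intro b hb
    obtain ⟨s, -, rfl⟩ := Finset.mem_image.mp hb
    calc _ ≤ ({s, -s} : Finset F).card := by
          apply Finset.card_le_card
          intro x hx
          have hx2 := (Finset.mem_filter.mp hx).2
          have h3 : x ^ 2 = s ^ 2 := mul_right_cancel₀ ha hx2
          rcases sq_eq_sq_iff_eq_or_eq_neg.mp h3 with h | h
          · simp [h]
          · simp [h]
      _ ≤ 2 := Finset.card_le_two
  have h2 : (Finset.univ.filter (fun s : F => s ≠ 0)).card = Fintype.card F - 1 := by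
    rw [Finset.filter_ne' Finset.univ (0 : F), Finset.card_erase_of_mem (Finset.mem_univ _), Finset.card_univ]
  have h3 : 1 ≤ Fintype.card F := Fintype.card_pos
  rw [h2] at h1
  have h4 : ((Fintype.card F - 1 : ℕ) : ℝ) = (Fintype.card F : ℝ) - 1 := by
    rw [Nat.cast_sub h3]; simp
  have h5 : ((Fintype.card F - 1 : ℕ) : ℝ) ≤ 2 *
      ((((Finset.univ.filter (fun s : F => s ≠ 0)).image (fun s => s ^ 2 * a)).card : ℕ) : ℝ) := by
    exact_mod_cast h1
  rw [h4] at h5
  linarith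

theorem QD4_isGrp : IsGrp (Finset.univ.image (fun t : F => (tv 0 1 t : SLn 2 F))) := by
  have h0 : (tv 0 1 (0 : F) : SLn 2 F) = 1 := by
    have h := QD4_u_add (F := F) 0 0
    rw [add_zero] at h
    exact (left_eq_mul.mp h)
  refine ⟨?_, ?_, ?_⟩
  · exact Finset.mem_image.mpr ⟨0, Finset.mem_univ _, h0⟩
  · intro a ha b hb
    obtain ⟨s, -, rfl⟩ := Finset.mem_image.mp ha
    obtain ⟨t, -, rfl⟩ := Finset.mem_image.mp hb
    exact Finset.mem_image.mpr ⟨s + t, Finset.mem_univ _, QD4_u_add s t⟩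
  · intro a ha
    obtain ⟨s, -, rfl⟩ := Finset.mem_image.mp ha
    refine Finset.mem_image.mpr ⟨-s, Finset.mem_univ _, ?_⟩
    have h := QD4_u_add (F := F) s (-s)
    rw [add_neg_cancel, h0] at h
    exact (inv_eq_of_mul_eq_one_right h.symm).symm

theorem QR_SL_two : QR (SLn 2 F) (((Fintype.card F : ℝ) - 1) / 2) := by
  intro P hP hL hne hJ
  obtain ⟨ψ, hψ0, hψadd, hψorth⟩ := exists_char F
  set u : F → SLn 2 F := fun t => tv 0 1 t with hu
  have huadd : ∀ a b, u (a + b) = u a * u b := fun a b => QD4_u_add a b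
  have hu0 : u 0 = 1 := by
    have h := huadd 0 0
    rw [add_zero] at h
    exact left_eq_mul.mp h
  set τ : F → ℂ := fun t => (((Lm (u t) * P).trace : ℝ) : ℂ) with hτ
  have hτinv : ∀ s t : F, s ≠ 0 → τ (s ^ 2 * t) = τ t := by
    intro s t hs
    obtain ⟨h, hh⟩ := QD4_conj s t hs
    simp only [hτ]
    have e1 : (Lm (u (s ^ 2 * t)) * P).trace = (P * Lm (h * u t * h⁻¹)).trace := by
      rw [Matrix.trace_mul_comm, hu]
      simp only
      rw [hh]
    rw [e1, trace_mul_Lm_conj hL, Matrix.trace_mul_comm]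
  set c : F → ℂ := fun a => ∑ t : F, ψ (a * (-t)) * τ t with hc
  have hcinv : ∀ s a : F, s ≠ 0 → c (s ^ 2 * a) = c a := by
    intro s a hs
    simp only [hc]
    have hs2 : s ^ 2 ≠ 0 := pow_ne_zero 2 hs
    refine Fintype.sum_equiv (Equiv.mulLeft₀ (s ^ 2) hs2) _ _ fun t => ?_
    simp only [Equiv.mulLeft₀, Units.mulLeft_apply, Units.val_mk0]
    rw [hτinv s t hs]
    congr 2
    ring
  have hcomm : ∀ w, Commute P (Lm (u w)) := fun w => hL (u w)
  by_cases hex : ∃ a : F, a ≠ 0 ∧ c a ≠ 0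
  · obtain ⟨a, ha, hca⟩ := hex
    refine le_trans (QD4_card a ha) ?_
    refine char_dim u huadd (fun a t => ψ (a * t)) (fun a => by simp [hψ0]) (fun a v w => by rw [mul_add, hψadd])
      (fun w => hψorth w) hP hcomm _ ?_ ?_
    · intro x hx y hy
      obtain ⟨s, hs, rfl⟩ := Finset.mem_image.mp hx
      obtain ⟨t, ht, rfl⟩ := Finset.mem_image.mp hy
      have h1 := hcinv s a (Finset.mem_filter.mp hs).2
      have h2 := hcinv t a (Finset.mem_filter.mp ht).2
      exact h1.trans h2.symm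
    · refine ⟨1 ^ 2 * a, Finset.mem_image.mpr ⟨1, Finset.mem_filter.mpr ⟨Finset.mem_univ _, one_ne_zero⟩, rfl⟩, ?_⟩
      have h1 := hcinv 1 a one_ne_zero
      intro h
      apply hca
      rw [← h1]
      exact h
  · exfalso
    push Not at hex
    have hsum : ∑ a : F, c a = (Fintype.card F : ℂ) * τ 0 := by
      simp only [hc]
      rw [Finset.sum_comm]
      have e : ∀ t : F, ∑ a : F, ψ (a * (-t)) * τ t = (if t = 0 then (Fintype.card F : ℂ) else 0) * τ t := by
        intro t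
        rw [← Finset.sum_mul, hψorth]
        simp [neg_eq_zero]
      rw [Finset.sum_congr rfl fun t _ => e t]
      simp
    have hsum2 : ∑ a : F, c a = ∑ t : F, τ t := by
      rw [Finset.sum_eq_single (0 : F)]
      · simp only [hc]
        refine Finset.sum_congr rfl fun t _ => ?_
        rw [zero_mul, hψ0, one_mul]
      · intro a _ ha
        exact hex a ha
      · intro h; exact absurd (Finset.mem_univ _) h
    have hq : (Fintype.card F : ℝ) * P.trace = ∑ t : F, (Lm (u t) * P).trace := by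
      have h1 : (Fintype.card F : ℂ) * τ 0 = ∑ t : F, τ t := hsum.symm.trans hsum2
      simp only [hτ] at h1
      rw [hu0, Lm_one, one_mul] at h1
      exact_mod_cast h1
    set S : Finset (SLn 2 F) := Finset.univ.image (fun t : F => (tv 0 1 t : SLn 2 F)) with hS
    have hSg : IsGrp S := QD4_isGrp
    have hScard : S.card = Fintype.card F := by
      rw [hS, Finset.card_image_of_injective _ (fun a b hab => QD4_inj hab), Finset.card_univ]
    have hq0 : (Fintype.card F : ℝ) ≠ 0 := by exact_mod_cast Fintype.card_ne_zero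
    have htr : (P * avL S).trace = P.trace := by
      rw [Matrix.trace_mul_comm]
      unfold avL
      rw [hScard, Matrix.smul_mul, Matrix.trace_smul, Finset.sum_mul, Matrix.trace_sum, hS,
        Finset.sum_image (fun a _ b _ hab => QD4_inj hab), ← hq, smul_eq_mul, ← mul_assoc,
        inv_mul_cancel₀ hq0, one_mul]
    have hcA : Commute P (avL S) := G8_commL_avL hL S
    have hpr : IsPr (P * (1 - avL S)) := by
      refine hP.mul (avL_isPr hSg).compl ?_
      exact (Commute.one_right P).sub_right hcA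
    have hz : P * (1 - avL S) = 0 := by
      by_contra hcon
      have h1 := one_le_trace hpr hcon
      rw [mul_sub, mul_one, Matrix.trace_sub, htr, sub_self] at h1
      linarith
    have hPA : P = avL S * P := by
      rw [mul_sub, mul_one, sub_eq_zero] at hz
      rw [← hcA.eq]
      exact hz
    refine hne (fix_zero (n := 2) le_rfl 1 hP hL hJ ?_)
    intro i hi a
    have hi0 : i = 0 := by
      fin_cases i
      · rfl
      · exact absurd rfl hi
    subst hi0
    have hmem : (tv 0 1 a : SLn 2 F) ∈ S := Finset.mem_image.mpr ⟨a, Finset.mem_univ _, rfl⟩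
    calc Lm (tv 0 1 a : SLn 2 F) * P = Lm (tv 0 1 a : SLn 2 F) * (avL S * P) := by rw [← hPA]
      _ = (Lm (tv 0 1 a : SLn 2 F) * avL S) * P := by rw [mul_assoc]
      _ = avL S * P := by rw [Lm_mul_avL hSg hmem]
      _ = P := hPA.symm

end Pool.Agent.BC5
end

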