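import Pool.Agent.Lib.MP_bc5a73_al.RankDefs
import Pool.Agent.Lib.MP_bc5a73_al.Averages

section
set_option autoImplicit false
set_option linter.unusedSectionVars false
set_option linter.unusedVariables false
open scoped BigOperators Matrix
open Matrix
namespace Pool.Agent.BC5


/-- First parameter of a letter. -/
def RD1_fst {ι F : Type} [Field F] (α β : ι → F) (c : ι × Bool) : F := if c.2 then α c.1 else - β c.1
/-- Last parameter of a letter. -/
def RD1_lst {ι F : Type} [Field F] (α β : ι → F) (c : ι × Bool) : F := if c.2 then β c.1 else - α c.1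
/-- Sign of a letter. -/
def RD1_sg {ι : Type} (F : Type) [Field F] (c : ι × Bool) : F := if c.2 then 1 else - 1
/-- Degree less than `k`. -/
def RD1_dl {F : Type} [Field F] (p : Polynomial F) (k : ℕ) : Prop := ∀ m, k ≤ m → p.coeff m = 0
/-- Upper unitriangular matrix. -/
noncomputable def RD1_u {F : Type} [Field F] (f : F) : Matrix (Fin 2) (Fin 2) (Polynomial F) :=
  !![1, Polynomial.C f * Polynomial.X; 0, 1]
/-- The matrix `s w u(f)`. -/
noncomputable def RD1_v {F : Type} [Field F] (s f : F) : Matrix (Fin 2) (Fin 2) (Polynomial F) :=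
  !![0, - Polynomial.C s; Polynomial.C s, Polynomial.C s * (Polynomial.C f * Polynomial.X)]

theorem RD1_sg_ne {ι : Type} (F : Type) [Field F] (c : ι × Bool) : RD1_sg F c ≠ 0 := by
  unfold RD1_sg
  split_ifs <;> simp

theorem RD1_yl {ι F : Type} [Field F] (α β : ι → F) (c : ι × Bool) :
    Yl α β c = RD1_u (RD1_fst α β c) * RD1_v (RD1_sg F c) (RD1_lst α β c) := by
  obtain ⟨i, b⟩ := c
  cases b
  · simp only [Yl, RD1_u, RD1_v, RD1_fst, RD1_lst, RD1_sg]
    refine Matrix.ext fun a b => ?_
    fin_cases a <;> fin_cases b <;> (simp [Matrix.mul_apply, Fin.sum_univ_two]; try ring)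
  · simp only [Yl, RD1_u, RD1_v, RD1_fst, RD1_lst, RD1_sg]
    refine Matrix.ext fun a b => ?_
    fin_cases a <;> fin_cases b <;> (simp [Matrix.mul_apply, Fin.sum_univ_two]; try ring)

theorem RD1_vu {F : Type} [Field F] (s f g : F) : RD1_v s f * RD1_u g = RD1_v s (f + g) := by
  simp only [RD1_u, RD1_v]
  refine Matrix.ext fun a b => ?_
  fin_cases a <;> fin_cases b <;> (simp [Matrix.mul_apply, Fin.sum_univ_two]; try ring)

theorem RD1_inv {ι F : Type} [Field F] (α β : ι → F) (i : ι) (b : Bool) :
    Yl α β (i, !b) * Yl α β (i, b) = 1 := by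
  cases b
  · simp only [Yl]
    refine Matrix.ext fun a b => ?_
    fin_cases a <;> fin_cases b <;> (simp [Matrix.mul_apply, Fin.sum_univ_two]; try ring)
  · simp only [Yl]
    refine Matrix.ext fun a b => ?_
    fin_cases a <;> fin_cases b <;> (simp [Matrix.mul_apply, Fin.sum_univ_two]; try ring)

theorem RD1_row0 {F : Type} [Field F] (s f : F) (R : Matrix (Fin 2) (Fin 2) (Polynomial F)) (j : Fin 2) :
    (RD1_v s f * R) 0 j = - (Polynomial.C s * R 1 j) := by
  simp [RD1_v, Matrix.mul_apply, Fin.sum_univ_two]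

theorem RD1_row1 {F : Type} [Field F] (s f : F) (R : Matrix (Fin 2) (Fin 2) (Polynomial F)) (j : Fin 2) :
    (RD1_v s f * R) 1 j = Polynomial.C s * R 0 j + Polynomial.C (s * f) * (Polynomial.X * R 1 j) := by
  simp only [RD1_v, Matrix.mul_apply, Fin.sum_univ_two]
  simp
  ring

theorem RD1_key {ι F : Type} [Field F] (α β : ι → F) : ∀ (L : List (ι × Bool)) (l : ι × Bool),
    List.IsChain (fun a b => RD1_lst α β a + RD1_fst α β b ≠ 0) (l :: L) →
    ∃ (R : Matrix (Fin 2) (Fin 2) (Polynomial F)) (p : F), p ≠ 0 ∧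
      ((l :: L).map (Yl α β)).prod = RD1_u (RD1_fst α β l) * R ∧
      RD1_dl (R 0 0) L.length ∧ RD1_dl (R 0 1) (L.length + 1) ∧ RD1_dl (R 1 0) (L.length + 1) ∧
      (R 1 0).coeff L.length = p ∧ RD1_dl (R 1 1) (L.length + 2) ∧
      (R 1 1).coeff (L.length + 1) = p * RD1_lst α β ((l :: L).getLast (List.cons_ne_nil _ _)) := by
  intro L
  induction L with
  | nil =>
    intro l _
    refine ⟨RD1_v (RD1_sg F l) (RD1_lst α β l), RD1_sg F l, RD1_sg_ne F l, ?_, ?_, ?_, ?_, ?_, ?_, ?_⟩
    · simp [RD1_yl]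
    · intro m _
      simp [RD1_v]
    · intro m hm
      simp only [RD1_v, List.length_nil] at *
      simp [Polynomial.coeff_C, show m ≠ 0 by omega]
    · intro m hm
      simp only [RD1_v, List.length_nil] at *
      simp [Polynomial.coeff_C, show m ≠ 0 by omega]
    · simp [RD1_v]
    · intro m hm
      simp only [RD1_v, List.length_nil] at *
      obtain ⟨m, rfl⟩ : ∃ k, m = k + 1 := ⟨m - 1, by omega⟩
      have h0 : m ≠ 0 := by omega
      simp [Polynomial.coeff_C_mul, Polynomial.coeff_C, h0]
    · simp [RD1_v]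
  | cons l' L ih =>
    intro l hc
    rw [List.isChain_cons_cons] at hc
    obtain ⟨R, p, hp, hprod, h00, h01, h10, hp10, h11, hp11⟩ := ih l' hc.2
    have hs := RD1_sg_ne F l
    refine ⟨RD1_v (RD1_sg F l) (RD1_lst α β l + RD1_fst α β l') * R,
      RD1_sg F l * (RD1_lst α β l + RD1_fst α β l') * p, ?_, ?_, ?_, ?_, ?_, ?_, ?_, ?_⟩
    · exact mul_ne_zero (mul_ne_zero hs hc.1) hp
    · rw [List.map_cons, List.prod_cons, hprod, RD1_yl, Matrix.mul_assoc, ← RD1_vu, Matrix.mul_assoc]
    · intro m hm
      simp only [List.length_cons] at hm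
      rw [RD1_row0, Polynomial.coeff_neg, Polynomial.coeff_C_mul, h10 m (by omega), mul_zero, neg_zero]
    · intro m hm
      simp only [List.length_cons] at hm
      rw [RD1_row0, Polynomial.coeff_neg, Polynomial.coeff_C_mul, h11 m (by omega), mul_zero, neg_zero]
    · intro m hm
      simp only [List.length_cons] at hm
      obtain ⟨m, rfl⟩ : ∃ k, m = k + 1 := ⟨m - 1, by omega⟩
      rw [RD1_row1, Polynomial.coeff_add, Polynomial.coeff_C_mul, Polynomial.coeff_C_mul, Polynomial.coeff_X_mul,
        h00 (m + 1) (by omega), h10 m (by omega), mul_zero, mul_zero, add_zero]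
    · rw [List.length_cons, RD1_row1, Polynomial.coeff_add, Polynomial.coeff_C_mul, Polynomial.coeff_C_mul, Polynomial.coeff_X_mul,
        h00 (L.length + 1) (by omega), hp10, mul_zero, zero_add]
    · intro m hm
      simp only [List.length_cons] at hm
      obtain ⟨m, rfl⟩ : ∃ k, m = k + 1 := ⟨m - 1, by omega⟩
      rw [RD1_row1, Polynomial.coeff_add, Polynomial.coeff_C_mul, Polynomial.coeff_C_mul, Polynomial.coeff_X_mul,
        h01 (m + 1) (by omega), h11 m (by omega), mul_zero, mul_zero, add_zero]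
    · rw [List.length_cons, RD1_row1, Polynomial.coeff_add, Polynomial.coeff_C_mul, Polynomial.coeff_C_mul, Polynomial.coeff_X_mul,
        h01 (L.length + 1 + 1) (by omega), hp11, mul_zero, zero_add, List.getLast_cons (List.cons_ne_nil _ _)]
      ring

theorem RD1_ne {ι F : Type} [Field F] (α β : ι → F) (L : List (ι × Bool))
    (h1 : ∀ c ∈ L, ∀ c' ∈ L, c.1 ≠ c'.1 → α c.1 ≠ α c'.1 ∧ β c.1 ≠ β c'.1)
    (h2 : ∀ c ∈ L, ∀ c' ∈ L, α c.1 + β c'.1 ≠ 0) (a b : ι × Bool) (ha : a ∈ L) (hb : b ∈ L)
    (hab : a.1 = b.1 → a.2 = b.2) : RD1_lst α β a + RD1_fst α β b ≠ 0 := by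
  obtain ⟨i, s⟩ := a
  obtain ⟨j, t⟩ := b
  intro h
  simp only [RD1_lst, RD1_fst] at h
  simp only at hab
  cases s <;> cases t <;> simp at h hab
  · apply h2 _ ha _ hb
    simp only
    linear_combination -h
  · apply (h1 _ ha _ hb hab).1
    simp only
    linear_combination -h
  · apply (h1 _ ha _ hb hab).2
    simp only
    linear_combination h
  · apply h2 _ hb _ ha
    simp only
    linear_combination h

theorem RD1_nd {F : Type} [Field F] (p : Polynomial F) (k : ℕ) (h : RD1_dl p (k + 1)) : p.natDegree ≤ k := by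
  rw [Polynomial.natDegree_le_iff_coeff_eq_zero]
  intro m hm
  exact h m (by omega)

theorem RD1_aux {ι F : Type} [Field F] (α β : ι → F) : ∀ (n : ℕ) (L : List (ι × Bool)), L.length ≤ n → 
    FreeGroup.IsReduced L → L ≠ [] →
    (∀ c ∈ L, ∀ c' ∈ L, c.1 ≠ c'.1 → α c.1 ≠ α c'.1 ∧ β c.1 ≠ β c'.1) →
    (∀ c ∈ L, ∀ c' ∈ L, α c.1 + β c'.1 ≠ 0) →
    (L.map (Yl α β)).prod 1 0 ≠ 0 ∧ ((L.map (Yl α β)).prod 1 0).natDegree ≤ L.length ∧
      1 ≤ ((L.map (Yl α β)).prod.trace).natDegree ∧ ((L.map (Yl α β)).prod.trace).natDegree ≤ L.length := by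
  intro n
  induction n with
  | zero =>
    intro L hn _ hne
    exact absurd (List.length_eq_zero_iff.mp (by omega)) hne
  | succ n ih =>
    intro L hn hL hne h1 h2
    obtain ⟨l, L', rfl⟩ := List.exists_cons_of_ne_nil hne
    have hch : List.IsChain (fun a b => RD1_lst α β a + RD1_fst α β b ≠ 0) (l :: L') := by
      have hall : ∀ a ∈ l :: L', a ∈ l :: L' := fun a ha => ha
      have : List.IsChain (fun a b => (a.1 = b.1 → a.2 = b.2)) (l :: L') := hL
      refine List.IsChain.imp_of_mem_imp ?_ this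
      intro a b ha hb hab
      exact RD1_ne α β _ h1 h2 a b ha hb hab
    obtain ⟨R, p, hp, hprod, h00, h01, h10, hp10, h11, hp11⟩ := RD1_key α β L' l hch
    have e10 : ((l :: L').map (Yl α β)).prod 1 0 = R 1 0 := by
      rw [hprod]
      simp [RD1_u, Matrix.mul_apply, Fin.sum_univ_two]
    have etr : ((l :: L').map (Yl α β)).prod.trace
        = R 0 0 + Polynomial.C (RD1_fst α β l) * (Polynomial.X * R 1 0) + R 1 1 := by
      rw [hprod, Matrix.trace_fin_two]
      simp [RD1_u, Matrix.mul_apply, Fin.sum_univ_two]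
      ring
    have hA : ((l :: L').map (Yl α β)).prod 1 0 ≠ 0 := by
      rw [e10]
      intro h0
      apply hp
      rw [← hp10, h0]
      simp
    have hB : (((l :: L').map (Yl α β)).prod 1 0).natDegree ≤ (l :: L').length := by
      rw [e10]
      refine le_trans (RD1_nd _ _ h10) ?_
      simp
    have hD : (((l :: L').map (Yl α β)).prod.trace).natDegree ≤ (l :: L').length := by
      rw [etr]
      apply RD1_nd
      intro m hm
      simp only [List.length_cons] at hm
      obtain ⟨m, rfl⟩ : ∃ k, m = k + 1 := ⟨m - 1, by omega⟩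
      simp [Polynomial.coeff_C_mul, Polynomial.coeff_X_mul, h00 (m + 1) (by omega), h10 m (by omega), h11 (m + 1) (by omega)]
    refine ⟨hA, hB, ?_, hD⟩
    set b := (l :: L').getLast (List.cons_ne_nil _ _) with hb
    have hbm : b ∈ l :: L' := List.getLast_mem _
    by_cases hlast : b.1 = l.1 → b.2 = l.2
    · have hc := RD1_ne α β _ h1 h2 b l hbm (List.mem_cons_self) hlast
      have : (((l :: L').map (Yl α β)).prod.trace).coeff (L'.length + 1) ≠ 0 := by
        rw [etr]
        simp only [Polynomial.coeff_add, Polynomial.coeff_C_mul, Polynomial.coeff_X_mul, hp11, hp10, h00 (L'.length + 1) (by omega)]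
        have : (0 : F) + RD1_fst α β l * p + p * RD1_lst α β b = p * (RD1_lst α β b + RD1_fst α β l) := by ring
        rw [this]
        exact mul_ne_zero hp hc
      have := Polynomial.le_natDegree_of_ne_zero this
      omega
    · push Not at hlast
      -- `b` is the inverse of `l`
      obtain ⟨hq1, hq2⟩ := hlast
      rcases List.eq_nil_or_concat L' with h | ⟨M, b', h⟩
      · exfalso
        subst h
        apply hq2
        simp [hb]
      · have hb' : b = b' := by
          rw [hb]
          subst h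
          simp
        have hL' : L' = M ++ [b'] := by simpa using h
        subst hL'
        have hM : M ≠ [] := by
          rintro rfl
          rw [List.nil_append, FreeGroup.isReduced_cons_cons] at hL
          apply hq2
          rw [hb']
          exact (hL.1 (by rw [← hq1, hb'])).symm
        have hMr : FreeGroup.IsReduced M := by
          have h0 : FreeGroup.IsReduced ([l] ++ (M ++ [b'])) := hL
          exact List.IsChain.left_of_append (List.IsChain.right_of_append h0)
        have hsub : ∀ c ∈ M, c ∈ l :: (M ++ [b']) := fun c hc => by simp [hc]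
        have := ih M (by simp at hn; omega) hMr hM (fun c hc c' hc' => h1 c (hsub c hc) c' (hsub c' hc'))
          (fun c hc c' hc' => h2 c (hsub c hc) c' (hsub c' hc'))
        have ht : ((l :: (M ++ [b'])).map (Yl α β)).prod.trace = (M.map (Yl α β)).prod.trace := by
          rw [List.map_cons, List.prod_cons, List.map_append, List.prod_append, List.map_singleton, List.prod_singleton,
            Matrix.trace_mul_comm, Matrix.mul_assoc]
          have : Yl α β b' * Yl α β l = 1 := by
            have e : b' = (l.1, !l.2) := by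
              rw [← hb']
              apply Prod.ext
              · exact hq1
              · simp only
                revert hq2
                cases b.2 <;> cases l.2 <;> simp
            rw [e]
            exact RD1_inv α β l.1 l.2
          rw [this, Matrix.mul_one]
        rw [ht]
        exact this.2.2.1

theorem word_two {ι F : Type} [Field F] (α β : ι → F) (L : List (ι × Bool)) (hL : FreeGroup.IsReduced L) (hne : L ≠ [])
    (h1 : ∀ c ∈ L, ∀ c' ∈ L, c.1 ≠ c'.1 → α c.1 ≠ α c'.1 ∧ β c.1 ≠ β c'.1)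
    (h2 : ∀ c ∈ L, ∀ c' ∈ L, α c.1 + β c'.1 ≠ 0) :
    (L.map (Yl α β)).prod 1 0 ≠ 0 ∧ ((L.map (Yl α β)).prod 1 0).natDegree ≤ L.length ∧
      1 ≤ ((L.map (Yl α β)).prod.trace).natDegree ∧ ((L.map (Yl α β)).prod.trace).natDegree ≤ L.length :=
  RD1_aux α β L.length L le_rfl hL hne h1 h2

end Pool.Agent.BC5
end

section
set_option autoImplicit false
set_option linter.unusedSectionVars false
set_option linter.unusedVariables false
open scoped BigOperators Matrix
open Matrix
namespace Pool.Agent.BC5


theorem exists_letters {M : ℕ} {F : Type} [Field F] [Fintype F] [DecidableEq F] (γ : FreeGroup (Fin M))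
    (hq : 2 * γ.norm ≤ Fintype.card F) : ∃ α β : Fin M → F,
      (∀ c ∈ γ.toWord, ∀ c' ∈ γ.toWord, c.1 ≠ c'.1 → α c.1 ≠ α c'.1 ∧ β c.1 ≠ β c'.1) ∧
      ∀ c ∈ γ.toWord, ∀ c' ∈ γ.toWord, α c.1 + β c'.1 ≠ 0 := by
  classical
  set s : Finset (Fin M) := (γ.toWord.map Prod.fst).toFinset with hs
  have hcard : s.card ≤ γ.norm := by
    refine (List.toFinset_card_le _).trans ?_
    rw [List.length_map]
    exact le_rfl
  have hle : Fintype.card (s ⊕ s) ≤ Fintype.card F := by
    rw [Fintype.card_sum, Fintype.card_coe]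
    omega
  obtain ⟨e⟩ := Function.Embedding.nonempty_of_card_le hle
  have hmem : ∀ c ∈ γ.toWord, c.1 ∈ s := by
    intro c hc
    rw [hs, List.mem_toFinset]
    exact List.mem_map.2 ⟨c, hc, rfl⟩
  refine ⟨fun i => if h : i ∈ s then e (Sum.inl ⟨i, h⟩) else 0,
    fun i => if h : i ∈ s then - e (Sum.inr ⟨i, h⟩) else 0, ?_, ?_⟩
  · intro c hc c' hc' hne
    simp only [dif_pos (hmem c hc), dif_pos (hmem c' hc')]
    constructor
    · intro h
      have h1 := e.injective h
      exact hne (congrArg Subtype.val (Sum.inl_injective h1))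
    · intro h
      have h1 := e.injective (neg_injective h)
      exact hne (congrArg Subtype.val (Sum.inr_injective h1))
  · intro c hc c' hc'
    simp only [dif_pos (hmem c hc), dif_pos (hmem c' hc')]
    intro h
    have h1 : e (Sum.inl ⟨c.1, hmem c hc⟩) = e (Sum.inr ⟨c'.1, hmem c' hc'⟩) := by
      rw [← sub_eq_add_neg] at h
      exact sub_eq_zero.1 h
    have h2 := e.injective h1
    exact absurd h2 (by simp)

theorem choose_pts {F : Type} [Field F] [Fintype F] [DecidableEq F] (p τ : Polynomial F) (l r : ℕ) (hp : p ≠ 0)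
    (hpd : p.natDegree ≤ l) (hτ1 : 1 ≤ τ.natDegree) (hτ : τ.natDegree ≤ l) (hq : (r + 2) * l < Fintype.card F) :
    ∃ t : ℕ → F, (∀ j, j < r → p.eval (t j) ≠ 0 ∧ τ.eval (t j) ≠ 2) ∧
      ∀ i, i < r → ∀ j, j < r → i ≠ j → τ.eval (t i) ≠ τ.eval (t j) := by
  classical
  have hsub : ∀ a : F, τ - Polynomial.C a ≠ 0 := by
    intro a h
    have h1 : τ = Polynomial.C a := sub_eq_zero.1 h
    rw [h1, Polynomial.natDegree_C] at hτ1
    omega
  have hroots : ∀ a : F, ((τ - Polynomial.C a).roots.toFinset).card ≤ l := by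
    intro a
    refine (Multiset.toFinset_card_le _).trans ((Polynomial.card_roots' _).trans ?_)
    rw [Polynomial.natDegree_sub_C]
    exact hτ
  have hrp : (p.roots.toFinset).card ≤ l :=
    (Multiset.toFinset_card_le _).trans ((Polynomial.card_roots' _).trans hpd)
  have main : ∀ r', r' ≤ r → ∃ t : ℕ → F, (∀ j, j < r' → p.eval (t j) ≠ 0 ∧ τ.eval (t j) ≠ 2) ∧
      ∀ i, i < r' → ∀ j, j < r' → i ≠ j → τ.eval (t i) ≠ τ.eval (t j) := by
    intro r'
    induction r' with
    | zero => intro _; exact ⟨fun _ => 0, fun j hj => by omega, fun i hi => by omega⟩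
    | succ r' ih =>
      intro hr'
      obtain ⟨t, ht1, ht2⟩ := ih (by omega)
      set B : Finset F := (p.roots.toFinset ∪ (τ - Polynomial.C 2).roots.toFinset) ∪
        (Finset.range r').biUnion (fun i => (τ - Polynomial.C (τ.eval (t i))).roots.toFinset) with hB
      have hBc : B.card < Fintype.card F := by
        have h1 : ((Finset.range r').biUnion
            (fun i => (τ - Polynomial.C (τ.eval (t i))).roots.toFinset)).card ≤ r' * l := by
          refine (Finset.card_biUnion_le).trans ?_
          refine (Finset.sum_le_card_nsmul _ _ l (fun i _ => hroots _)).trans ?_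
          rw [Finset.card_range, smul_eq_mul]
        have h2 : B.card ≤ (l + l) + r' * l := by
          refine (Finset.card_union_le _ _).trans (add_le_add ?_ h1)
          exact (Finset.card_union_le _ _).trans (add_le_add hrp (hroots 2))
        have h3 : (r' + 2) * l ≤ (r + 2) * l := Nat.mul_le_mul_right _ (by omega)
        have h4 : (l + l) + r' * l = (r' + 2) * l := by ring
        omega
      obtain ⟨x, hx⟩ : ∃ x, x ∉ B := by
        by_contra hc
        push Not at hc
        have : B = Finset.univ := Finset.eq_univ_of_forall hc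
        rw [this, Finset.card_univ] at hBc
        exact lt_irrefl _ hBc
      have hx1 : p.eval x ≠ 0 := by
        intro h
        apply hx
        rw [hB]
        refine Finset.mem_union_left _ (Finset.mem_union_left _ ?_)
        rw [Multiset.mem_toFinset, Polynomial.mem_roots hp]
        exact h
      have hx2 : τ.eval x ≠ 2 := by
        intro h
        apply hx
        rw [hB]
        refine Finset.mem_union_left _ (Finset.mem_union_right _ ?_)
        rw [Multiset.mem_toFinset, Polynomial.mem_roots (hsub 2)]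
        simp [h]
      have hx3 : ∀ i, i < r' → τ.eval x ≠ τ.eval (t i) := by
        intro i hi h
        apply hx
        rw [hB]
        refine Finset.mem_union_right _ ?_
        rw [Finset.mem_biUnion]
        refine ⟨i, Finset.mem_range.2 hi, ?_⟩
        rw [Multiset.mem_toFinset, Polynomial.mem_roots (hsub _)]
        simp [h]
      refine ⟨Function.update t r' x, ?_, ?_⟩
      · intro j hj
        by_cases hjr : j = r'
        · subst hjr
          simp only [Function.update_self]
          exact ⟨hx1, hx2⟩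
        · rw [Function.update_of_ne hjr]
          exact ht1 j (by omega)
      · intro i hi j hj hij
        by_cases hir : i = r'
        · subst hir
          rw [Function.update_self, Function.update_of_ne (fun h => hij h.symm)]
          exact hx3 j (by omega)
        · by_cases hjr : j = r'
          · subst hjr
            rw [Function.update_self, Function.update_of_ne hir]
            exact (hx3 i (by omega)).symm
          · rw [Function.update_of_ne hir, Function.update_of_ne hjr]
            exact ht2 i (by omega) j (by omega) hij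
  exact main r le_rfl

end Pool.Agent.BC5
end

section
set_option autoImplicit false
set_option linter.unusedSectionVars false
set_option linter.unusedVariables false
open scoped BigOperators Matrix
open Matrix
namespace Pool.Agent.BC5


theorem RD3_step {R : Type} [CommRing R] (n : ℕ) (B : ℕ → Matrix (Fin 2) (Fin 2) R) :
    bd (2 + n) B = Matrix.reindex finSumFinEquiv finSumFinEquiv
      (Matrix.fromBlocks (B 0) 0 0 (bd n (fun j => B (j + 1)))) := by
  have key : ∀ a b : Fin 2 ⊕ Fin n, bd (2 + n) B (finSumFinEquiv a) (finSumFinEquiv b) =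
      Matrix.fromBlocks (B 0) 0 0 (bd n (fun j => B (j + 1))) a b := by
    rintro (i | i) (j | j)
    · have hi : i.val / 2 = 0 := by omega
      have hj : j.val / 2 = 0 := by omega
      have hi2 : i.val % 2 = i.val := by omega
      have hj2 : j.val % 2 = j.val := by omega
      have hn : 2 * 0 + 1 < 2 + n := by omega
      simp only [bd, Matrix.of_apply, finSumFinEquiv_apply_left, Fin.val_castAdd, hi, hj, hi2, hj2,
        Matrix.fromBlocks_apply₁₁, if_true, if_pos hn]
    · have hi : i.val / 2 = 0 := by omega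
      have hj : (2 + j.val) / 2 = j.val / 2 + 1 := by omega
      have hne : ¬ (0 = j.val / 2 + 1) := by omega
      simp only [bd, Matrix.of_apply, finSumFinEquiv_apply_left, finSumFinEquiv_apply_right,
        Fin.val_castAdd, Fin.val_natAdd, hi, hj, if_neg hne, Matrix.fromBlocks_apply₁₂,
        Matrix.zero_apply]
    · have hi : (2 + i.val) / 2 = i.val / 2 + 1 := by omega
      have hj : j.val / 2 = 0 := by omega
      have hne : ¬ (i.val / 2 + 1 = 0) := by omega
      simp only [bd, Matrix.of_apply, finSumFinEquiv_apply_left, finSumFinEquiv_apply_right,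
        Fin.val_castAdd, Fin.val_natAdd, hi, hj, if_neg hne, Matrix.fromBlocks_apply₂₁,
        Matrix.zero_apply]
    · have hi : (2 + i.val) / 2 = i.val / 2 + 1 := by omega
      have hj : (2 + j.val) / 2 = j.val / 2 + 1 := by omega
      have hi2 : (2 + i.val) % 2 = i.val % 2 := by omega
      have hj2 : (2 + j.val) % 2 = j.val % 2 := by omega
      have h1 : (i.val / 2 + 1 = j.val / 2 + 1) ↔ (i.val / 2 = j.val / 2) := by omega
      have h2 : (2 * (i.val / 2 + 1) + 1 < 2 + n) ↔ (2 * (i.val / 2) + 1 < n) := by omega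
      simp only [bd, Matrix.of_apply, finSumFinEquiv_apply_right,
        Fin.val_natAdd, hi, hj, hi2, hj2, h1, h2, Matrix.fromBlocks_apply₂₂]
  ext i j
  have h := key (finSumFinEquiv.symm i) (finSumFinEquiv.symm j)
  rw [Equiv.apply_symm_apply, Equiv.apply_symm_apply] at h
  rw [h]
  rfl

theorem RD3_zero {R : Type} [CommRing R] (B : ℕ → Matrix (Fin 2) (Fin 2) R) : bd 0 B = 1 := by
  ext i j
  exact i.elim0

theorem RD3_oneSize {R : Type} [CommRing R] (B : ℕ → Matrix (Fin 2) (Fin 2) R) : bd 1 B = 1 := by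
  ext i j
  have hi : i = 0 := Subsingleton.elim _ _
  have hj : j = 0 := Subsingleton.elim _ _
  subst hi
  subst hj
  simp [bd]

theorem bd_one {R : Type} [CommRing R] (n : ℕ) : bd n (fun _ => (1 : Matrix (Fin 2) (Fin 2) R)) = 1 := by
  induction n using Nat.strong_induction_on with
  | _ n ih =>
    rcases n with _ | _ | n
    · exact RD3_zero _
    · exact RD3_oneSize _
    · have e : n + 1 + 1 = 2 + n := by omega
      rw [e, RD3_step, ih n (by omega), Matrix.fromBlocks_one, Matrix.reindex_apply,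
        Matrix.submatrix_one_equiv]

theorem bd_mul {R : Type} [CommRing R] (n : ℕ) (B B' : ℕ → Matrix (Fin 2) (Fin 2) R) :
    bd n (fun j => B j * B' j) = bd n B * bd n B' := by
  induction n using Nat.strong_induction_on generalizing B B' with
  | _ n ih =>
    rcases n with _ | _ | n
    · simp only [RD3_zero, one_mul]
    · show bd 1 _ = bd 1 _ * bd 1 _
      rw [RD3_oneSize, RD3_oneSize, RD3_oneSize, one_mul]
    · have e : n + 1 + 1 = 2 + n := by omega
      rw [e, RD3_step, RD3_step (B := B), RD3_step (B := B'),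
        ih n (by omega) (fun j => B (j + 1)) (fun j => B' (j + 1)), Matrix.reindex_apply,
        Matrix.reindex_apply, Matrix.reindex_apply, Matrix.submatrix_mul_equiv,
        Matrix.fromBlocks_multiply]
      simp only [Matrix.mul_zero, Matrix.zero_mul, add_zero, zero_add]

theorem bd_det {R : Type} [CommRing R] (n : ℕ) (B : ℕ → Matrix (Fin 2) (Fin 2) R) (h : ∀ j, (B j).det = 1) :
    (bd n B).det = 1 := by
  induction n using Nat.strong_induction_on generalizing B with
  | _ n ih =>
    rcases n with _ | _ | n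
    · rw [RD3_zero, Matrix.det_one]
    · rw [zero_add, RD3_oneSize, Matrix.det_one]
    · have e : n + 1 + 1 = 2 + n := by omega
      rw [e, RD3_step, Matrix.det_reindex_self, Matrix.det_fromBlocks_zero₂₁, h 0,
        ih n (by omega) (fun j => B (j + 1)) (fun j => h (j + 1)), one_mul]

/-- Block diagonal matrices as a homomorphism. -/
noncomputable def RD3_hom (n : ℕ) (F : Type) [Field F] :
    (ℕ → Matrix.SpecialLinearGroup (Fin 2) F) →* SLn n F where
  toFun B := ⟨bd n (fun j => (B j).1), bd_det n _ (fun j => (B j).2)⟩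
  map_one' := by
    apply Subtype.ext
    exact bd_one n
  map_mul' B B' := by
    apply Subtype.ext
    exact bd_mul n (fun j => (B j).1) (fun j => (B' j).1)

theorem bd_word {n M : ℕ} {F : Type} [Field F] (y : Fin M → ℕ → Matrix.SpecialLinearGroup (Fin 2) F) :
    ∃ x : Fin M → SLn n F, ∀ γ : FreeGroup (Fin M),
      (FreeGroup.lift x γ).1 = bd n (fun j => (FreeGroup.lift (fun i => y i j) γ).1) := by
  refine ⟨fun i => RD3_hom n F (y i), fun γ => ?_⟩
  have h : FreeGroup.lift (fun i => RD3_hom n F (y i)) =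
      (RD3_hom n F).comp (MonoidHom.pi fun j => FreeGroup.lift (fun i => y i j)) := by
    apply FreeGroup.ext_hom
    intro a
    rw [FreeGroup.lift_apply_of, MonoidHom.comp_apply]
    congr 1
    funext j
    show y a j = FreeGroup.lift (fun i => y i j) (FreeGroup.of a)
    rw [FreeGroup.lift_apply_of]
  rw [h]
  rfl

end Pool.Agent.BC5
end

section
set_option autoImplicit false
set_option linter.unusedSectionVars false
set_option linter.unusedVariables false
open scoped BigOperators Matrix
open Matrix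
namespace Pool.Agent.BC5


theorem bd_cyc_row {F : Type} [Field F] (n : ℕ) (B : ℕ → Matrix (Fin 2) (Fin 2) F) (w : Fin n → F) (j : ℕ)
    (h : 2 * j + 1 < n) (r : Fin 2) (hr : 2 * j + r.val < n) :
    (bd n B *ᵥ w) ⟨2 * j + r.val, hr⟩ = (B j *ᵥ ![w ⟨2 * j, by omega⟩, w ⟨2 * j + 1, h⟩]) r := by
  have hsum : (bd n B *ᵥ w) ⟨2 * j + r.val, hr⟩ =
      ∑ i ∈ ({⟨2 * j, by omega⟩, ⟨2 * j + 1, h⟩} : Finset (Fin n)), bd n B ⟨2 * j + r.val, hr⟩ i * w i := by
    rw [Matrix.mulVec, dotProduct]
    symm
    apply Finset.sum_subset (Finset.subset_univ _)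
    intro i _ hi
    have hne : ¬ ((2 * j + r.val) / 2 = i.val / 2) := by
      intro he
      apply hi
      have hr2 := r.isLt
      rw [Finset.mem_insert, Finset.mem_singleton]
      rcases Nat.mod_two_eq_zero_or_one i.val with h0 | h1
      · left
        apply Fin.ext
        show i.val = 2 * j
        omega
      · right
        apply Fin.ext
        show i.val = 2 * j + 1
        omega
    have : bd n B ⟨2 * j + r.val, hr⟩ i = 0 := by
      unfold bd
      rw [Matrix.of_apply]
      rw [if_neg hne]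
    rw [this, zero_mul]
  rw [hsum, Finset.sum_pair (by intro he; have := congrArg Fin.val he; simp at this)]
  have hr2 := r.isLt
  have hd : (2 * j + r.val) / 2 = j := by omega
  have hm : (2 * j + r.val) % 2 = r.val := by omega
  have e0 : bd n B ⟨2 * j + r.val, hr⟩ ⟨2 * j, by omega⟩ = B j r 0 := by
    unfold bd
    rw [Matrix.of_apply]
    simp only [hd]
    rw [if_pos (by omega), if_pos h]
    have r0 : (⟨(2 * j + r.val) % 2, Nat.mod_lt _ (by norm_num)⟩ : Fin 2) = r := Fin.ext hm
    have s0 : (⟨(2 * j) % 2, Nat.mod_lt _ (by norm_num)⟩ : Fin 2) = 0 := Fin.ext (by show (2 * j) % 2 = 0; omega)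
    rw [r0, s0]
  have e1 : bd n B ⟨2 * j + r.val, hr⟩ ⟨2 * j + 1, h⟩ = B j r 1 := by
    unfold bd
    rw [Matrix.of_apply]
    simp only [hd]
    rw [if_pos (by omega), if_pos h]
    have r0 : (⟨(2 * j + r.val) % 2, Nat.mod_lt _ (by norm_num)⟩ : Fin 2) = r := Fin.ext hm
    have s0 : (⟨(2 * j + 1) % 2, Nat.mod_lt _ (by norm_num)⟩ : Fin 2) = 1 := Fin.ext (by show (2 * j + 1) % 2 = 1; omega)
    rw [r0, s0]
  rw [e0, e1, Matrix.mulVec, dotProduct, Fin.sum_univ_two]
  simp

theorem bd_cyc_last {F : Type} [Field F] (n : ℕ) (B : ℕ → Matrix (Fin 2) (Fin 2) F) (w : Fin n → F) (hodd : n % 2 = 1)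
    (hl : n - 1 < n) :
    (bd n B *ᵥ w) ⟨n - 1, hl⟩ = w ⟨n - 1, hl⟩ := by
  rw [Matrix.mulVec, dotProduct]
  rw [Finset.sum_eq_single (⟨n - 1, hl⟩ : Fin n)]
  · have : bd n B ⟨n - 1, hl⟩ ⟨n - 1, hl⟩ = 1 := by
      unfold bd
      rw [Matrix.of_apply]
      rw [if_pos rfl, if_neg (by show ¬ (2 * ((n - 1) / 2) + 1 < n); omega)]
    rw [this, one_mul]
  · intro i _ hi
    have hne : ¬ ((n - 1) / 2 = i.val / 2) := by
      intro he
      apply hi
      apply Fin.ext
      show i.val = n - 1
      have := i.isLt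
      omega
    have : bd n B ⟨n - 1, hl⟩ i = 0 := by
      unfold bd
      rw [Matrix.of_apply]
      rw [if_neg hne]
    rw [this, zero_mul]
  · intro h
    exact absurd (Finset.mem_univ _) h

theorem bd_cyc_pow {F : Type} [Field F] (n : ℕ) (B : ℕ → Matrix (Fin 2) (Fin 2) F) (j : ℕ) (h : 2 * j + 1 < n) (l : ℕ) :
    (![((bd n B) ^ l *ᵥ evv F n) ⟨2 * j, by omega⟩, ((bd n B) ^ l *ᵥ evv F n) ⟨2 * j + 1, h⟩] : Fin 2 → F) =
      (B j) ^ l *ᵥ ![1, 0] := by
  induction l with
  | zero =>
    rw [pow_zero, pow_zero, Matrix.one_mulVec, Matrix.one_mulVec]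
    unfold evv
    have a : (2 * j) % 2 = 0 := by omega
    have b : (2 * j + 1) % 2 = 1 := by omega
    simp [a, b]
  | succ l ih =>
    rw [pow_succ', pow_succ', ← Matrix.mulVec_mulVec, ← Matrix.mulVec_mulVec, ← ih]
    funext r
    have h0 := bd_cyc_row n B ((bd n B) ^ l *ᵥ evv F n) j h 0 (by simp; omega)
    have h1 := bd_cyc_row n B ((bd n B) ^ l *ᵥ evv F n) j h 1 (by simpa using h)
    fin_cases r
    · simpa using h0
    · simpa using h1

theorem bd_cyc_pow_last {F : Type} [Field F] (n : ℕ) (B : ℕ → Matrix (Fin 2) (Fin 2) F) (hodd : n % 2 = 1)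
    (hl : n - 1 < n) (l : ℕ) : ((bd n B) ^ l *ᵥ evv F n) ⟨n - 1, hl⟩ = 1 := by
  induction l with
  | zero =>
    rw [pow_zero, Matrix.one_mulVec]
    unfold evv
    have a : (n - 1) % 2 = 0 := by omega
    simp [a]
  | succ l ih =>
    rw [pow_succ', ← Matrix.mulVec_mulVec, bd_cyc_last n B _ hodd hl, ih]

open Polynomial in
theorem bd_cyc_dvd {F : Type} [Field F] (M : Matrix (Fin 2) (Fin 2) F) (hdet : M.det = 1) (h10 : M 1 0 ≠ 0)
    (p : Polynomial F) (hp : (aeval M p) *ᵥ ![1, 0] = 0) :
    (X ^ 2 - C M.trace * X + 1 : Polynomial F) ∣ p := by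
  have hchi : M.charpoly = X ^ 2 - C M.trace * X + 1 := by
    rw [Matrix.charpoly_fin_two, hdet, C_1]
  rw [← hchi]
  have hmon : M.charpoly.Monic := Matrix.charpoly_monic M
  rw [← modByMonic_eq_zero_iff_dvd hmon]
  set r := p %ₘ M.charpoly with hr
  have hval : aeval M r = aeval M p := by
    have h1 := modByMonic_add_div p M.charpoly
    have h2 := congrArg (aeval M) h1
    rw [map_add, map_mul, Matrix.aeval_self_charpoly, zero_mul, add_zero] at h2
    exact h2
  have hdeg : r.degree < 2 := by
    have := degree_modByMonic_lt p hmon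
    rwa [Matrix.charpoly_degree_eq_dim, Fintype.card_fin] at this
  have hnat : r.natDegree ≤ 1 := by
    by_cases h0 : r = 0
    · rw [h0]; simp
    · have h3 : r.natDegree < 2 := (natDegree_lt_iff_degree_lt h0).2 (by exact_mod_cast hdeg)
      omega
  have hform : r = C (r.coeff 1) * X + C (r.coeff 0) := eq_X_add_C_of_natDegree_le_one hnat
  have hM : aeval M r = (r.coeff 1) • M + (r.coeff 0) • (1 : Matrix (Fin 2) (Fin 2) F) := by
    conv_lhs => rw [hform]
    rw [map_add, map_mul, aeval_C, aeval_C, aeval_X, Algebra.algebraMap_eq_smul_one, Algebra.algebraMap_eq_smul_one,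
      smul_mul_assoc, one_mul]
  rw [← hval, hM] at hp
  have g1 := congrFun hp 1
  have g0 := congrFun hp 0
  simp [Matrix.mulVec, dotProduct, Fin.sum_univ_two, Matrix.one_apply] at g1 g0
  have a0 : r.coeff 1 = 0 := by
    rcases g1 with h | h
    · exact h
    · exact absurd h h10
  have b0 : r.coeff 0 = 0 := by
    rw [a0] at g0
    simpa using g0
  rw [hform, a0, b0]
  simp

open Polynomial in
theorem bd_cyc_cop {F : Type} [Field F] (s t : F) (h : s ≠ t) :
    IsCoprime (X ^ 2 - C s * X + 1 : Polynomial F) (X ^ 2 - C t * X + 1) := by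
  have hne : t - s ≠ 0 := sub_ne_zero.2 (Ne.symm h)
  refine ⟨1 - (X - C s) * C (t - s)⁻¹, (X - C s) * C (t - s)⁻¹, ?_⟩
  have hinv : (C (t - s)⁻¹ : Polynomial F) * (C t - C s) = 1 := by
    rw [← C_sub, ← C_mul, inv_mul_cancel₀ hne, C_1]
  linear_combination (-(X - C s) * X) * hinv

open Polynomial in
theorem bd_cyc_cop1 {F : Type} [Field F] (t : F) (h : t ≠ 2) :
    IsCoprime (X - C (1 : F) : Polynomial F) (X ^ 2 - C t * X + 1) := by
  have hne : 2 - t ≠ 0 := sub_ne_zero.2 (Ne.symm h)
  have hinv : (C (2 - t)⁻¹ : Polynomial F) * (2 - C t) = 1 := by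
    have h2 : (2 : Polynomial F) = C 2 := (map_ofNat C 2).symm
    rw [h2, ← C_sub, ← C_mul, inv_mul_cancel₀ hne, C_1]
  refine ⟨-(C (2 - t)⁻¹ * (X + 1 - C t)), C (2 - t)⁻¹, ?_⟩
  rw [C_1]
  linear_combination hinv

open Polynomial in
theorem bd_cyc {F : Type} [Field F] (n : ℕ) (hn : 1 ≤ n) (B : ℕ → Matrix (Fin 2) (Fin 2) F) (hdet : ∀ j, (B j).det = 1)
    (h10 : ∀ j, j < n / 2 → B j 1 0 ≠ 0) (htr : ∀ i, i < n / 2 → ∀ j, j < n / 2 → i ≠ j → (B i).trace ≠ (B j).trace)
    (h2 : ∀ j, j < n / 2 → (B j).trace ≠ 2) : (cycM (bd n B) (evv F n)).det ≠ 0 := by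
  intro h0
  obtain ⟨c, hc0, hc⟩ := Matrix.exists_mulVec_eq_zero_iff.2 h0
  set p : Polynomial F := ∑ l : Fin n, C (c l) * X ^ (l : ℕ) with hp
  have hcoef : ∀ l : Fin n, p.coeff l = c l := by
    intro l
    rw [hp, finsetSum_coeff]
    simp only [coeff_C_mul, coeff_X_pow]
    rw [Finset.sum_eq_single l]
    · simp
    · intro b _ hb
      rw [if_neg (fun he => hb (Fin.ext he.symm)), mul_zero]
    · intro h; exact absurd (Finset.mem_univ _) h
  have hpne : p ≠ 0 := by
    intro he
    apply hc0
    funext l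
    rw [← hcoef l, he]
    simp
  have hdeg : p.degree < n := by
    rw [hp]
    apply lt_of_le_of_lt (degree_sum_le _ _)
    rw [Finset.sup_lt_iff (by exact WithBot.bot_lt_coe n)]
    intro l _
    exact lt_of_le_of_lt (degree_C_mul_X_pow_le _ _) (by exact_mod_cast l.isLt)
  have hrow : ∀ i : Fin n, ∑ l : Fin n, ((bd n B) ^ (l : ℕ) *ᵥ evv F n) i * c l = 0 := by
    intro i
    have := congrFun hc i
    rw [Matrix.mulVec, dotProduct] at this
    exact this
  -- the factors
  have hdvd : ∀ j ∈ Finset.range (n / 2), (X ^ 2 - C (B j).trace * X + 1 : Polynomial F) ∣ p := by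
    intro j hj
    rw [Finset.mem_range] at hj
    apply bd_cyc_dvd (B j) (hdet j) (h10 j hj)
    have hlt : 2 * j + 1 < n := by omega
    have e : (aeval (B j)) p = ∑ l : Fin n, c l • (B j) ^ (l : ℕ) := by
      rw [hp, map_sum]
      apply Finset.sum_congr rfl
      intro l _
      rw [map_mul, aeval_C, map_pow, aeval_X, Algebra.algebraMap_eq_smul_one, smul_mul_assoc, one_mul]
    rw [e, Matrix.sum_mulVec]
    have e2 : ∀ l : Fin n, (c l • (B j) ^ (l : ℕ)) *ᵥ (![1, 0] : Fin 2 → F) =
        c l • ![((bd n B) ^ (l : ℕ) *ᵥ evv F n) ⟨2 * j, by omega⟩, ((bd n B) ^ (l : ℕ) *ᵥ evv F n) ⟨2 * j + 1, hlt⟩] := by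
      intro l
      rw [Matrix.smul_mulVec, bd_cyc_pow n B j hlt l]
    rw [Finset.sum_congr rfl (fun l _ => e2 l)]
    funext r
    rw [Finset.sum_apply]
    have f0 := hrow ⟨2 * j, by omega⟩
    have f1 := hrow ⟨2 * j + 1, hlt⟩
    fin_cases r
    · simp only [Pi.smul_apply, smul_eq_mul, Pi.zero_apply]
      rw [← f0]
      apply Finset.sum_congr rfl
      intro l _
      simp [mul_comm]
    · simp only [Pi.smul_apply, smul_eq_mul, Pi.zero_apply]
      rw [← f1]
      apply Finset.sum_congr rfl
      intro l _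
      simp [mul_comm]
  have hcop : ((Finset.range (n / 2) : Finset ℕ) : Set ℕ).Pairwise
      (Function.onFun IsCoprime fun j => (X ^ 2 - C (B j).trace * X + 1 : Polynomial F)) := by
    intro i hi j hj hij
    simp only [Finset.coe_range, Set.mem_Iio] at hi hj
    exact bd_cyc_cop _ _ (htr i hi j hj hij)
  have hprod := Finset.prod_dvd_of_coprime hcop hdvd
  have hmonic : ∀ j, (X ^ 2 - C (B j).trace * X + 1 : Polynomial F).Monic := by
    intro j
    have : (X ^ 2 - C (B j).trace * X + 1 : Polynomial F) = (B j).charpoly := by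
      rw [Matrix.charpoly_fin_two, hdet, C_1]
    rw [this]
    exact Matrix.charpoly_monic _
  have hndeg : ∀ j, (X ^ 2 - C (B j).trace * X + 1 : Polynomial F).natDegree = 2 := by
    intro j
    have : (X ^ 2 - C (B j).trace * X + 1 : Polynomial F) = (B j).charpoly := by
      rw [Matrix.charpoly_fin_two, hdet, C_1]
    rw [this, Matrix.charpoly_natDegree_eq_dim, Fintype.card_fin]
  have hPm : (∏ j ∈ Finset.range (n / 2), (X ^ 2 - C (B j).trace * X + 1 : Polynomial F)).Monic :=
    monic_prod_of_monic _ _ (fun j _ => hmonic j)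
  have hPd : (∏ j ∈ Finset.range (n / 2), (X ^ 2 - C (B j).trace * X + 1 : Polynomial F)).natDegree = 2 * (n / 2) := by
    rw [natDegree_prod_of_monic _ _ (fun j _ => hmonic j), Finset.sum_congr rfl (fun j _ => hndeg j),
      Finset.sum_const, Finset.card_range, smul_eq_mul, mul_comm]
  have hpn : p.natDegree < n := by
    rw [natDegree_lt_iff_degree_lt hpne]
    exact hdeg
  rcases Nat.mod_two_eq_zero_or_one n with hev | hodd
  · have := natDegree_le_of_dvd hprod hpne
    rw [hPd] at this
    omega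
  · have hroot : (X - C (1 : F) : Polynomial F) ∣ p := by
      rw [dvd_iff_isRoot, IsRoot, hp, eval_finsetSum]
      have hl : n - 1 < n := by omega
      have := hrow ⟨n - 1, hl⟩
      rw [← this]
      apply Finset.sum_congr rfl
      intro l _
      rw [bd_cyc_pow_last n B hodd hl]
      simp
    have hcop1 : IsCoprime (X - C (1 : F) : Polynomial F)
        (∏ j ∈ Finset.range (n / 2), (X ^ 2 - C (B j).trace * X + 1 : Polynomial F)) := by
      apply IsCoprime.prod_right
      intro j hj
      rw [Finset.mem_range] at hj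
      exact bd_cyc_cop1 _ (h2 j hj)
    have hall := hcop1.mul_dvd hroot hprod
    have := natDegree_le_of_dvd hall hpne
    rw [(monic_X_sub_C (1 : F)).natDegree_mul hPm, natDegree_X_sub_C, hPd] at this
    omega

end Pool.Agent.BC5
end

section
set_option autoImplicit false
set_option linter.unusedSectionVars false
set_option linter.unusedVariables false
open scoped BigOperators Matrix
open Matrix
namespace Pool.Agent.BC5


variable {n : ℕ} {F : Type} [Field F] [Fintype F] [DecidableEq F]

/-- The element of `SL_2` attached to `a, b, t`. -/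
def RD5_y {F : Type} [Field F] (a b t : F) : Matrix.SpecialLinearGroup (Fin 2) F :=
  ⟨!![a * t, a * b * t ^ 2 - 1; 1, b * t], by rw [Matrix.det_fin_two_of]; ring⟩

theorem RD5_y_coe {F : Type} [Field F] (a b t : F) :
    (RD5_y a b t).1 = !![a * t, a * b * t ^ 2 - 1; 1, b * t] := rfl

theorem RD5_y_inv {F : Type} [Field F] (a b t : F) :
    ((RD5_y a b t)⁻¹).1 = !![b * t, 1 - a * b * t ^ 2; -1, a * t] := by
  have h : ((RD5_y a b t)⁻¹).1 = (RD5_y a b t).1.adjugate := Matrix.SpecialLinearGroup.coe_inv _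
  rw [h, RD5_y_coe, Matrix.adjugate_fin_two_of]
  congr 1
  ext i j
  fin_cases i <;> fin_cases j <;> simp

theorem RD5_letter {ι F : Type} [Field F] (α β : ι → F) (t : F) (c : ι × Bool) :
    (Polynomial.evalRingHom t).mapMatrix (Yl α β c) =
      (cond c.2 (RD5_y (α c.1) (β c.1) t) (RD5_y (α c.1) (β c.1) t)⁻¹ :
        Matrix.SpecialLinearGroup (Fin 2) F).1 := by
  obtain ⟨i, b⟩ := c
  cases b
  · rw [show (cond false (RD5_y (α i) (β i) t) (RD5_y (α i) (β i) t)⁻¹ :
      Matrix.SpecialLinearGroup (Fin 2) F) = (RD5_y (α i) (β i) t)⁻¹ from rfl, RD5_y_inv]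
    ext a b
    fin_cases a <;> fin_cases b <;> simp [Yl]
  · rw [show (cond true (RD5_y (α i) (β i) t) (RD5_y (α i) (β i) t)⁻¹ :
      Matrix.SpecialLinearGroup (Fin 2) F) = (RD5_y (α i) (β i) t) from rfl, RD5_y_coe]
    ext a b
    fin_cases a <;> fin_cases b <;> simp [Yl]

theorem RD5_list {ι F : Type} [Field F] (α β : ι → F) (t : F) (L : List (ι × Bool)) :
    (Polynomial.evalRingHom t).mapMatrix (L.map (Yl α β)).prod =
      ((L.map fun c => (cond c.2 (RD5_y (α c.1) (β c.1) t) (RD5_y (α c.1) (β c.1) t)⁻¹ :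
        Matrix.SpecialLinearGroup (Fin 2) F)).prod).1 := by
  induction L with
  | nil => rw [List.map_nil, List.prod_nil, map_one]; rfl
  | cons c L ih =>
    rw [List.map_cons, List.prod_cons, map_mul, ih, RD5_letter, List.map_cons, List.prod_cons]
    rfl

theorem RD5_word {ι F : Type} [DecidableEq ι] [Field F] (α β : ι → F) (t : F) (γ : FreeGroup ι) :
    (FreeGroup.lift (fun i => RD5_y (α i) (β i) t) γ).1 =
      (Polynomial.evalRingHom t).mapMatrix (γ.toWord.map (Yl α β)).prod := by
  rw [RD5_list]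
  conv_lhs => rw [← FreeGroup.mk_toWord (x := γ)]
  rw [FreeGroup.lift_mk]

theorem exists_good {M : ℕ} (hn : 2 ≤ n) (γ : FreeGroup (Fin M)) (hγ : γ ≠ 1) (hq : (n + 2) * γ.norm < Fintype.card F) :
    ∃ x : Fin M → SLn n F, (cycM (FreeGroup.lift x γ).1 (evv F n)).det ≠ 0 := by
  have hn2 : 2 * γ.norm ≤ (n + 2) * γ.norm := Nat.mul_le_mul_right _ (by omega)
  have hn3 : (n / 2 + 2) * γ.norm ≤ (n + 2) * γ.norm := Nat.mul_le_mul_right _ (by omega)
  obtain ⟨α, β, h1, h2⟩ := exists_letters γ (hn2.trans hq.le)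
  have hred : FreeGroup.IsReduced γ.toWord := FreeGroup.isReduced_toWord
  have hne : γ.toWord ≠ [] := by
    intro h
    exact hγ (FreeGroup.toWord_eq_nil_iff.1 h)
  obtain ⟨hp, hpd, hτ1, hτ⟩ := word_two α β γ.toWord hred hne h1 h2
  obtain ⟨t, ht1, ht2⟩ := choose_pts _ _ γ.norm (n / 2) hp hpd hτ1 hτ (lt_of_le_of_lt hn3 hq)
  obtain ⟨x, hx⟩ := bd_word (n := n) (fun i j => RD5_y (α i) (β i) (t j))
  refine ⟨x, ?_⟩
  rw [hx γ]
  have key : ∀ j, (FreeGroup.lift (fun i => RD5_y (α i) (β i) (t j)) γ).1 =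
      (Polynomial.evalRingHom (t j)).mapMatrix (γ.toWord.map (Yl α β)).prod := fun j => RD5_word α β (t j) γ
  have htr : ∀ j, (FreeGroup.lift (fun i => RD5_y (α i) (β i) (t j)) γ).1.trace =
      ((γ.toWord.map (Yl α β)).prod.trace).eval (t j) := by
    intro j
    rw [key, Matrix.trace_fin_two, Matrix.trace_fin_two, Polynomial.eval_add]
    rfl
  apply bd_cyc n (by omega)
  · intro j
    exact (FreeGroup.lift (fun i => RD5_y (α i) (β i) (t j)) γ).2
  · intro j hj
    rw [key]
    exact (ht1 j hj).1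
  · intro i hi j hj hij
    rw [htr, htr]
    exact ht2 i hi j hj hij
  · intro j hj
    rw [htr]
    exact (ht1 j hj).2

end Pool.Agent.BC5
end

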