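import Pool.Agent.Lib.MP_bc5a73_al.RankDefs
import Pool.Agent.Lib.MP_bc5a73_al.SlDegree
import Pool.Agent.Lib.MP_bc5a73_al.SmallIndex

section
set_option autoImplicit false
set_option linter.unusedSectionVars false
set_option linter.unusedVariables false
open scoped BigOperators Matrix
open Matrix
namespace Pool.Agent.BC5


theorem RB1_trace_map {V : Type} [Fintype V] [DecidableEq V] (M : Matrix V V ℝ) :
    (Complex.ofRealHom.mapMatrix M).trace = ((M.trace : ℝ) : ℂ) := by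
  simp [Matrix.trace]

theorem RB1_idem {V : Type} [Fintype V] [DecidableEq V] {A : Type} [AddCommGroup A] [Fintype A] (χ : A → ℂ)
    (hadd : ∀ v w, χ (v + w) = χ v * χ w) (L : A → Matrix V V ℂ) (hL : ∀ v w, L (v + w) = L v * L w) :
    (((Fintype.card A : ℂ))⁻¹ • ∑ w : A, χ (-w) • L w) * (((Fintype.card A : ℂ))⁻¹ • ∑ w : A, χ (-w) • L w) =
      ((Fintype.card A : ℂ))⁻¹ • ∑ w : A, χ (-w) • L w := by
  have hA : (Fintype.card A : ℂ) ≠ 0 := by
    have : Nonempty A := ⟨0⟩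
    exact_mod_cast Fintype.card_ne_zero
  have h1 : (∑ w : A, χ (-w) • L w) * (∑ w : A, χ (-w) • L w) =
      (Fintype.card A : ℂ) • ∑ w : A, χ (-w) • L w := by
    rw [Finset.sum_mul]
    have h2 : ∀ v : A, (χ (-v) • L v) * (∑ w : A, χ (-w) • L w) = ∑ w : A, χ (-w) • L w := by
      intro v
      rw [Finset.mul_sum]
      have h3 : ∀ w : A, (χ (-v) • L v) * (χ (-w) • L w) = χ (-(v + w)) • L (v + w) := by
        intro w
        rw [smul_mul_smul_comm, hL, neg_add, hadd]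
      simp only [h3]
      exact Equiv.sum_comp (Equiv.addLeft v) (fun w => χ (-w) • L w)
    simp only [h2]
    rw [Finset.sum_const, Finset.card_univ, Nat.cast_smul_eq_nsmul]
  rw [smul_mul_smul_comm, h1, smul_smul]
  congr 1
  field_simp

theorem char_dim2 {V : Type} [Fintype V] [DecidableEq V] {A : Type} [AddCommGroup A] [Fintype A] [DecidableEq A]
    (Mt : A → Matrix V V ℝ) (hM0 : Mt 0 = 1) (hM : ∀ a b, Mt (a + b) = Mt a * Mt b)
    (χ : A → A → ℂ) (h0 : ∀ a, χ a 0 = 1) (hadd : ∀ a v w, χ a (v + w) = χ a v * χ a w)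
    (horth : ∀ w, ∑ a : A, χ a w = if w = 0 then (Fintype.card A : ℂ) else 0) {Q : Matrix V V ℝ} (hQ : IsPr Q)
    (hc : ∀ w, Commute Q (Mt w)) (S : Finset A)
    (hS : ∀ a ∈ S, ∀ b ∈ S, ∑ w : A, χ a (-w) * (((Mt w * Q).trace : ℝ) : ℂ) =
      ∑ w : A, χ b (-w) * (((Mt w * Q).trace : ℝ) : ℂ))
    (hne : ∃ a ∈ S, ∑ w : A, χ a (-w) * (((Mt w * Q).trace : ℝ) : ℂ) ≠ 0) : (S.card : ℝ) ≤ Q.trace := by
  have hA : (Fintype.card A : ℂ) ≠ 0 := by
    have : Nonempty A := ⟨0⟩
    exact_mod_cast Fintype.card_ne_zero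
  have hQQ : Q * Q = Q := hQ.2
  have hnat : ∀ a : A, ∃ k : ℕ, (Fintype.card A : ℂ)⁻¹ * ∑ w : A, χ a (-w) * (((Mt w * Q).trace : ℝ) : ℂ) = k := by
    intro a
    have hid := RB1_idem (V := V) (χ a) (hadd a) (fun w => Complex.ofRealHom.mapMatrix (Mt w))
      (fun v w => by rw [hM, map_mul])
    set e : Matrix V V ℂ := ((Fintype.card A : ℂ))⁻¹ • ∑ w : A, χ a (-w) • Complex.ofRealHom.mapMatrix (Mt w) with he
    have hcomm : Commute e (Complex.ofRealHom.mapMatrix Q) := by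
      rw [he]
      refine Commute.smul_left ?_ _
      refine Commute.sum_left _ _ _ fun w _ => ?_
      refine Commute.smul_left ?_ _
      exact ((hc w).symm).map Complex.ofRealHom.mapMatrix
    have hidem : (e * Complex.ofRealHom.mapMatrix Q) * (e * Complex.ofRealHom.mapMatrix Q) =
        e * Complex.ofRealHom.mapMatrix Q := by
      have h1 : (e * Complex.ofRealHom.mapMatrix Q) * (e * Complex.ofRealHom.mapMatrix Q) =
          (e * e) * (Complex.ofRealHom.mapMatrix Q * Complex.ofRealHom.mapMatrix Q) := by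
        rw [mul_assoc, ← mul_assoc (Complex.ofRealHom.mapMatrix Q) e, ← hcomm.eq, mul_assoc, mul_assoc]
      rw [h1, hid, ← map_mul, hQQ]
    obtain ⟨k, hk⟩ := trace_idem_nat _ hidem
    refine ⟨k, ?_⟩
    rw [← hk, he, Matrix.smul_mul, Matrix.trace_smul, smul_eq_mul, Finset.sum_mul, Matrix.trace_sum]
    congr 1
    refine Finset.sum_congr rfl fun w _ => ?_
    rw [Matrix.smul_mul, Matrix.trace_smul, smul_eq_mul, ← map_mul, RB1_trace_map]
  choose n hn using hnat
  have hsum : ∑ a : A, (n a : ℂ) = ((Q.trace : ℝ) : ℂ) := by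
    have h1 : ∑ a : A, (n a : ℂ) = (Fintype.card A : ℂ)⁻¹ *
        ∑ w : A, (∑ a : A, χ a (-w)) * (((Mt w * Q).trace : ℝ) : ℂ) := by
      simp only [← hn]
      rw [← Finset.mul_sum, Finset.sum_comm]
      simp only [Finset.sum_mul]
    rw [h1]
    simp only [horth, neg_eq_zero, ite_mul, zero_mul, Finset.sum_ite_eq', Finset.mem_univ, if_true]
    rw [hM0, one_mul, inv_mul_cancel_left₀ hA]
  have hsumR : ∑ a : A, (n a : ℝ) = Q.trace := by
    exact_mod_cast hsum
  obtain ⟨a₀, ha₀, hne₀⟩ := hne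
  have hpos : ∀ a ∈ S, 1 ≤ n a := by
    intro a ha
    rcases Nat.eq_zero_or_pos (n a) with h | h
    · exfalso
      have h2 := hn a
      rw [h, Nat.cast_zero, hS a ha a₀ ha₀] at h2
      rcases mul_eq_zero.1 h2 with h3 | h3
      · exact hA (inv_eq_zero.1 h3)
      · exact hne₀ h3
    · exact h
  calc (S.card : ℝ) = ∑ a ∈ S, (1 : ℝ) := by rw [Finset.sum_const, nsmul_eq_mul, mul_one]
    _ ≤ ∑ a ∈ S, (n a : ℝ) := Finset.sum_le_sum fun a ha => by exact_mod_cast hpos a ha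
    _ ≤ ∑ a : A, (n a : ℝ) := Finset.sum_le_sum_of_subset_of_nonneg (Finset.subset_univ _)
        (fun a _ _ => Nat.cast_nonneg _)
    _ = Q.trace := hsumR

end Pool.Agent.BC5
end

section
set_option autoImplicit false
set_option linter.unusedSectionVars false
set_option linter.unusedVariables false
open scoped BigOperators Matrix
open Matrix
namespace Pool.Agent.BC5


variable {n : ℕ} {F : Type} [Field F] [Fintype F] [DecidableEq F]

def RB2_K (P : Matrix (SLn n F) (SLn n F) ℝ) : Subgroup (SLn n F) where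
  carrier := {g | Rm g * P = P}
  mul_mem' := by
    intro g h hg hh
    show Rm (g * h) * P = P
    rw [Rm_mul, mul_assoc, show Rm h * P = P from hh]
    exact hg
  one_mem' := by
    show Rm 1 * P = P
    rw [Rm_one, one_mul]
  inv_mem' := by
    intro g hg
    show Rm g⁻¹ * P = P
    conv_lhs => rw [← show Rm g * P = P from hg]
    rw [← mul_assoc, Rm_inv_mul, one_mul]

theorem RB2_conj {P : Matrix (SLn n F) (SLn n F) ℝ} (hL : CommR P) {g : SLn n F} (hg : g ∈ RB2_K P) (h : SLn n F) :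
    h * g * h⁻¹ ∈ RB2_K P := by
  show Rm (h * g * h⁻¹) * P = P
  have h1 : Rm g * P = P := hg
  have h2 : P * Rm h⁻¹ = Rm h⁻¹ * P := hL h⁻¹
  rw [Rm_mul, Rm_mul, mul_assoc, ← h2, mul_assoc, ← mul_assoc (Rm g), h1, h2, ← mul_assoc, Rm_mul_inv, one_mul]

theorem fix_zeroR (hn : 2 ≤ n) (z : Fin n) {X : Matrix (SLn n F) (SLn n F) ℝ} (hR : CommR X)
    (hJ : Jm (SLn n F) * X = 0) (h : ∀ i : Fin n, i ≠ z → ∀ a : F, Rm (tv i z a : SLn n F) * X = X) : X = 0 := by
  have c1 : ∀ i : Fin n, i ≠ z → ∀ a : F, (tv i z a : SLn n F) ∈ RB2_K X := fun i hi a => h i hi a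
  have c2 : ∀ j : Fin n, j ≠ z → ∀ a : F, (tv z j a : SLn n F) ∈ RB2_K X := by
    intro j hj a
    have e := QD5_w (F := F) hj.symm a
    have e2 : (tv z j a : SLn n F) = (tv z j 1 * (tv j z (-1) * tv z j 1)) * tv j z (-a) *
        (tv z j 1 * (tv j z (-1) * tv z j 1))⁻¹ := by
      rw [eq_mul_inv_iff_mul_eq, ← e]
      simp only [mul_assoc]
    rw [e2]
    exact RB2_conj hR (c1 j hj (-a)) _
  have c3 : ∀ i j : Fin n, i ≠ z → j ≠ z → i ≠ j → ∀ a : F, (tv i j a : SLn n F) ∈ RB2_K X := by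
    intro i j hi hj hij a
    have e := QD5_c (F := F) hi hj hij a
    have e2 : (tv i j a : SLn n F) = tv i z a * (tv z j 1 * (tv i z a)⁻¹ * (tv z j 1)⁻¹) := by
      rw [← mul_inv_eq_iff_eq_mul] at e
      rw [← e, _root_.mul_inv_rev]
      simp only [mul_assoc]
    rw [e2]
    exact mul_mem (c1 i hi a) (RB2_conj hR (inv_mem (c1 i hi a)) _)
  have hall : ∀ g : SLn n F, g ∈ RB2_K X := by
    intro g
    have hg : g ∈ (GX (Finset.univ : Finset (Fin n)) : Subgroup (SLn n F)) := by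
      rw [GX_univ]; exact Subgroup.mem_top g
    have h1 := GX_le_closure _ hg
    refine (Subgroup.closure_le (RB2_K X)).2 ?_ h1
    rintro x ⟨i, _, j, _, hij, a, rfl⟩
    by_cases hj : j = z
    · subst hj
      exact c1 i hij a
    · by_cases hi : i = z
      · subst hi
        exact c2 j hj a
      · exact c3 i j hi hj hij a
  have hJP : Jm (SLn n F) * X = X := by
    rw [Jm_eq_avg_Rm]
    unfold avg
    rw [Matrix.smul_mul, Finset.sum_mul]
    have h2 : ∀ g ∈ (Finset.univ : Finset (SLn n F)), Rm g * X = X := fun g _ => hall g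
    rw [Finset.sum_congr rfl h2, Finset.sum_const, Finset.card_univ, ← Nat.cast_smul_eq_nsmul ℝ, smul_smul,
      inv_mul_cancel₀ (Nat.cast_ne_zero.2 Fintype.card_ne_zero), one_smul]
  rw [← hJP, hJ]

theorem RB2_Jm_mul_avL {G : Type} [Group G] [Fintype G] [DecidableEq G] {S : Finset G} (hS : IsGrp S) :
    Jm G * avL S = Jm G := by
  have h := congrArg Matrix.transpose (avL_mul_Jm hS)
  rw [Matrix.transpose_mul, (Jm_isBlock (G := G)).1.1, (avL_isPr hS).1] at h
  exact h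

theorem exists_corner (hn : 2 ≤ n) (z : Fin n) {E : Matrix (SLn n F) (SLn n F) ℝ} (hE : IsBlock E)
    (hEJ : E ≠ Jm (SLn n F)) {S : Finset (SLn n F)} (hS : IsGrp S) (hz : ∀ i : Fin n, i ≠ z → ∀ a : F, tv i z a ∈ S) :
    (1 - avL S) * (1 - avR S) * E ≠ 0 := by
  obtain ⟨pE, lE, rE, nE, mE⟩ := id hE
  have hEJ0 : E * Jm (SLn n F) = 0 := (block_eq_or_mul_eq_zero hE Jm_isBlock).resolve_left hEJ
  intro h0
  have hc : Commute (avL S) (avR S) := commute_of_comm (avL_commR S) (avR_commL S)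
  have hreo : (1 - avL S) * (1 - avR S) * E = (1 - avR S) * ((1 - avL S) * E) := by
    have : (1 - avL S) * (1 - avR S) = (1 - avR S) * (1 - avL S) := by
      have h1 := hc.eq
      simp only [Matrix.sub_mul, Matrix.mul_sub, Matrix.one_mul, Matrix.mul_one, h1]
      abel
    rw [this, Matrix.mul_assoc]
  rw [hreo] at h0
  have hXR : CommR ((1 - avL S) * E) := fun g =>
    ((Commute.one_left (Rm g)).sub_left (avL_commR S g)).mul_left (rE g)
  have hJX : Jm (SLn n F) * ((1 - avL S) * E) = 0 := by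
    rw [← Matrix.mul_assoc, Matrix.mul_sub, Matrix.mul_one, RB2_Jm_mul_avL hS, sub_self, Matrix.zero_mul]
  have hX : (1 - avL S) * E = avR S * ((1 - avL S) * E) := by
    rw [Matrix.sub_mul (1 : Matrix (SLn n F) (SLn n F) ℝ) (avR S), Matrix.one_mul, sub_eq_zero] at h0
    exact h0
  have hX0 : (1 - avL S) * E = 0 := by
    refine fix_zeroR hn z hXR hJX ?_
    intro i hi a
    rw [hX, ← Matrix.mul_assoc, G2_avR_mul_Rm hS (hz i hi a)]
  have hE1 : E = avL S * E := by
    rw [Matrix.sub_mul, Matrix.one_mul, sub_eq_zero] at hX0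
    exact hX0
  refine nE (fix_zero hn z pE lE hEJ0 ?_)
  intro i hi a
  rw [hE1, ← Matrix.mul_assoc, Lm_mul_avL hS (hz i hi a)]

end Pool.Agent.BC5
end

section
set_option autoImplicit false
set_option linter.unusedSectionVars false
set_option linter.unusedVariables false
open scoped BigOperators Matrix
open Matrix
namespace Pool.Agent.BC5


section
variable {G : Type} [Group G] [Fintype G] [DecidableEq G]

theorem RB3_conjL {E : Matrix G G ℝ} (hL : CommL E) (g x y : G) :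
    (Lm (g * x * g⁻¹) * Rm y * E).trace = (Lm x * Rm y * E).trace := by
  have h1 : Lm (g * x * g⁻¹) * Rm y * E = Lm g * (Lm x * Rm y * E * Lm g⁻¹) := by
    rw [Lm_mul, Lm_mul]
    calc Lm g * Lm x * Lm g⁻¹ * Rm y * E = Lm g * Lm x * (Lm g⁻¹ * Rm y) * E := by simp only [Matrix.mul_assoc]
      _ = Lm g * Lm x * (Rm y * Lm g⁻¹) * E := by rw [(Rm_Lm_comm y g⁻¹).eq]
      _ = Lm g * Lm x * Rm y * (Lm g⁻¹ * E) := by simp only [Matrix.mul_assoc]
      _ = Lm g * Lm x * Rm y * (E * Lm g⁻¹) := by rw [(hL g⁻¹).eq]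
      _ = Lm g * (Lm x * Rm y * E * Lm g⁻¹) := by simp only [Matrix.mul_assoc]
  rw [h1, Matrix.trace_mul_comm, Matrix.mul_assoc, Lm_inv_mul, Matrix.mul_one]

theorem RB3_conjR {E : Matrix G G ℝ} (hR : CommR E) (g x y : G) :
    (Lm x * Rm (g * y * g⁻¹) * E).trace = (Lm x * Rm y * E).trace := by
  have h1 : Lm x * Rm (g * y * g⁻¹) * E = Rm g * (Lm x * Rm y * E * Rm g⁻¹) := by
    rw [Rm_mul, Rm_mul]
    calc Lm x * (Rm g * Rm y * Rm g⁻¹) * E = (Lm x * Rm g) * Rm y * (Rm g⁻¹ * E) := by simp only [Matrix.mul_assoc]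
      _ = (Rm g * Lm x) * Rm y * (E * Rm g⁻¹) := by rw [(hR g⁻¹).eq, (Rm_Lm_comm g x).eq]
      _ = Rm g * (Lm x * Rm y * E * Rm g⁻¹) := by simp only [Matrix.mul_assoc]
  rw [h1, Matrix.trace_mul_comm, Matrix.mul_assoc, Rm_inv_mul, Matrix.mul_one]

theorem RB3_sum {A : Type} [Fintype A] [DecidableEq A] (f : A → ℝ) (X : A → Matrix G G ℝ) (Y : A → Matrix G G ℝ)
    (E : Matrix G G ℝ) : ((∑ w : A, f w • X w) * (∑ w : A, f w • Y w) * E).trace =
      ∑ w : A × A, f w.1 * f w.2 * (X w.1 * Y w.2 * E).trace := by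
  rw [Finset.sum_mul_sum, Finset.sum_mul, Matrix.trace_sum, Fintype.sum_prod_type]
  refine Finset.sum_congr rfl fun v _ => ?_
  rw [Finset.sum_mul, Matrix.trace_sum]
  refine Finset.sum_congr rfl fun w _ => ?_
  rw [smul_mul_smul_comm, Matrix.smul_mul, Matrix.trace_smul, smul_eq_mul]

end

variable {n : ℕ} {F : Type} [Field F] [Fintype F] [DecidableEq F]

theorem RB3_u_inj (Y : Finset (Fin n)) (z : Fin n) (hz : z ∉ Y) : Function.Injective (QD3_u (F := F) Y z hz) := by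
  intro v w h
  apply QD3_ext_inj Y
  have h1 := congrArg Subtype.val h
  have h2 : (1 : Matrix (Fin n) (Fin n) F) + Matrix.vecMulVec (SB2_ext Y v) (Pi.single z 1) =
      1 + Matrix.vecMulVec (SB2_ext Y w) (Pi.single z 1) := h1
  have h3 := add_left_cancel h2
  funext i
  have h4 := congrFun (congrFun h3 i) z
  simpa [Matrix.vecMulVec_apply] using h4

theorem RB3_u_zero (Y : Finset (Fin n)) (z : Fin n) (hz : z ∉ Y) : QD3_u (F := F) Y z hz 0 = 1 := by
  have h1 : QD3_u (F := F) Y z hz (0 + 0) = QD3_u Y z hz 0 * QD3_u Y z hz 0 := QD3_u_add Y z hz 0 0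
  rw [add_zero] at h1
  exact (mul_eq_left.mp h1.symm)

/-- the set of the unipotent elements -/
def RB3_S (Y : Finset (Fin n)) (z : Fin n) (hz : z ∉ Y) : Finset (SLn n F) :=
  Finset.univ.image (QD3_u (F := F) Y z hz)

theorem RB3_isGrp (Y : Finset (Fin n)) (z : Fin n) (hz : z ∉ Y) : IsGrp (RB3_S (F := F) Y z hz) := by
  refine ⟨?_, ?_, ?_⟩
  · exact Finset.mem_image.mpr ⟨0, Finset.mem_univ _, RB3_u_zero Y z hz⟩
  · intro a ha b hb
    obtain ⟨s, -, rfl⟩ := Finset.mem_image.mp ha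
    obtain ⟨t, -, rfl⟩ := Finset.mem_image.mp hb
    exact Finset.mem_image.mpr ⟨s + t, Finset.mem_univ _, QD3_u_add Y z hz s t⟩
  · intro a ha
    obtain ⟨s, -, rfl⟩ := Finset.mem_image.mp ha
    refine Finset.mem_image.mpr ⟨-s, Finset.mem_univ _, ?_⟩
    have h := QD3_u_add (F := F) Y z hz s (-s)
    rw [add_neg_cancel, RB3_u_zero] at h
    exact (inv_eq_of_mul_eq_one_right h.symm).symm

theorem RB3_scaled {M : Type} [Ring M] [Module ℝ M] (Y : Finset (Fin n)) (z : Fin n) (hz : z ∉ Y) (T : SLn n F → M)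
    (hT : T 1 = 1) : ((Fintype.card (Y → F) : ℝ)) • ((1 : M) - ((RB3_S (F := F) Y z hz).card : ℝ)⁻¹ •
      ∑ h ∈ RB3_S (F := F) Y z hz, T h) =
    ∑ w : Y → F, ((if w = 0 then (Fintype.card (Y → F) : ℝ) else 0) - 1) • T (QD3_u Y z hz w) := by
  have hc : (RB3_S (F := F) Y z hz).card = Fintype.card (Y → F) := by
    unfold RB3_S
    rw [Finset.card_image_of_injective _ (RB3_u_inj Y z hz), Finset.card_univ]
  have hne : (Fintype.card (Y → F) : ℝ) ≠ 0 := by
    have : Nonempty (Y → F) := ⟨0⟩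
    exact_mod_cast Fintype.card_ne_zero
  have hs : ∑ h ∈ RB3_S (F := F) Y z hz, T h = ∑ w : Y → F, T (QD3_u Y z hz w) := by
    unfold RB3_S
    rw [Finset.sum_image (fun a _ b _ hab => RB3_u_inj Y z hz hab)]
  rw [hc, hs, smul_sub, smul_smul, mul_inv_cancel₀ hne, one_smul]
  simp only [sub_smul, one_smul, Finset.sum_sub_distrib, ite_smul, zero_smul, Finset.sum_ite_eq', Finset.mem_univ,
    if_true]
  rw [RB3_u_zero, hT]

theorem RB3_main (Y : Finset (Fin n)) (z : Fin n) (hz : z ∉ Y) (hY : 2 ≤ Y.card) (hYz : ∀ i, i ≠ z → i ∈ Y) (hn : 2 ≤ n)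
    {E : Matrix (SLn n F) (SLn n F) ℝ} (hE : IsBlock E) (hEJ : E ≠ Jm (SLn n F)) :
    ((Fintype.card F : ℝ) ^ Y.card - 1) ^ 2 ≤ E.trace := by
  classical
  obtain ⟨ψ, hψ0, hψa, hψo⟩ := exists_char F
  have hPr : IsPr E := hE.1
  have hL : CommL E := hE.2.1
  have hR : CommR E := hE.2.2.1
  set u : (Y → F) → SLn n F := QD3_u Y z hz with hu
  set χ0 : (Y → F) → (Y → F) → ℂ := fun a w => ψ (∑ i, a i * w i) with hχ0
  set χ : (Y → F) × (Y → F) → (Y → F) × (Y → F) → ℂ := fun a w => χ0 a.1 w.1 * χ0 a.2 w.2 with hχ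
  set Mt : (Y → F) × (Y → F) → Matrix (SLn n F) (SLn n F) ℝ := fun w => Lm (u w.1) * Rm (u w.2) with hMt
  have hcardA0 : (Fintype.card (Y → F) : ℂ) = (Fintype.card F : ℂ) ^ Fintype.card Y := by
    rw [Fintype.card_fun]; push_cast; rfl
  have horth0 : ∀ w : Y → F, ∑ a : Y → F, χ0 a w = if w = 0 then (Fintype.card (Y → F) : ℂ) else 0 := by
    intro w
    rw [hcardA0]
    exact char_vec ψ hψ0 hψa hψo w
  have h00 : ∀ a, χ0 a 0 = 1 := by
    intro a
    simp only [hχ0, Pi.zero_apply, mul_zero, Finset.sum_const_zero, hψ0]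
  have h0' : ∀ w, χ0 0 w = 1 := by
    intro a
    simp only [hχ0, Pi.zero_apply, zero_mul, Finset.sum_const_zero, hψ0]
  have hadd0 : ∀ a v w, χ0 a (v + w) = χ0 a v * χ0 a w := by
    intro a v w
    simp only [hχ0, Pi.add_apply, mul_add, Finset.sum_add_distrib, hψa]
  have horth : ∀ w : (Y → F) × (Y → F), ∑ a : (Y → F) × (Y → F), χ a w =
      if w = 0 then (Fintype.card ((Y → F) × (Y → F)) : ℂ) else 0 := by
    intro w
    have e1 : ∑ a : (Y → F) × (Y → F), χ a w = (∑ a : Y → F, χ0 a w.1) * (∑ b : Y → F, χ0 b w.2) := by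
      rw [Finset.sum_mul_sum, Fintype.sum_prod_type]
    rw [e1, horth0, horth0, Fintype.card_prod]
    obtain ⟨w1, w2⟩ := w
    by_cases h1 : w1 = 0
    · by_cases h2 : w2 = 0
      · rw [if_pos h1, if_pos h2, if_pos (by rw [h1, h2]; rfl)]
        push_cast
        rfl
      · rw [if_pos h1, if_neg h2, if_neg (fun h => h2 (congrArg Prod.snd h)), mul_zero]
    · rw [if_neg h1, if_neg (fun h => h1 (congrArg Prod.fst h)), zero_mul]
  have h0 : ∀ a, χ a 0 = 1 := by
    intro a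
    simp only [hχ, Prod.fst_zero, Prod.snd_zero, h00, mul_one]
  have hadd : ∀ a v w, χ a (v + w) = χ a v * χ a w := by
    intro a v w
    simp only [hχ, Prod.fst_add, Prod.snd_add, hadd0]
    ring
  have hM0 : Mt 0 = 1 := by
    simp only [hMt, Prod.fst_zero, Prod.snd_zero, hu, RB3_u_zero, Lm_one, Rm_one, Matrix.one_mul]
  have hM : ∀ a b, Mt (a + b) = Mt a * Mt b := by
    intro a b
    simp only [hMt, Prod.fst_add, Prod.snd_add, hu, QD3_u_add, Lm_mul, Rm_mul]
    calc Lm (QD3_u Y z hz a.1) * Lm (QD3_u Y z hz b.1) * (Rm (QD3_u Y z hz a.2) * Rm (QD3_u Y z hz b.2))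
        = Lm (QD3_u Y z hz a.1) * (Lm (QD3_u Y z hz b.1) * Rm (QD3_u Y z hz a.2)) * Rm (QD3_u Y z hz b.2) := by
          simp only [Matrix.mul_assoc]
      _ = Lm (QD3_u Y z hz a.1) * (Rm (QD3_u Y z hz a.2) * Lm (QD3_u Y z hz b.1)) * Rm (QD3_u Y z hz b.2) := by
          rw [(Rm_Lm_comm (QD3_u Y z hz a.2) (QD3_u Y z hz b.1)).eq]
      _ = _ := by simp only [Matrix.mul_assoc]
  have hcomm : ∀ w, Commute E (Mt w) := fun w => (hL (u w.1)).mul_right (hR (u w.2))
  set τ : (Y → F) → (Y → F) → ℝ := fun v w => (Lm (u v) * Rm (u w) * E).trace with hτ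
  have hinvL : ∀ h ∈ (GX Y : Subgroup (SLn n F)), ∀ v w, τ (QD3_act Y h v) w = τ v w := by
    intro h hh v w
    simp only [hτ, hu]
    rw [← QD3_conj_u Y z hz h hh v, RB3_conjL hL]
  have hinvR : ∀ h ∈ (GX Y : Subgroup (SLn n F)), ∀ v w, τ v (QD3_act Y h w) = τ v w := by
    intro h hh v w
    simp only [hτ, hu]
    rw [← QD3_conj_u Y z hz h hh w, RB3_conjR hR]
  set B : Finset (Y → F) := Finset.univ.erase 0 with hB
  have hBcard : (B.card : ℝ) = (Fintype.card F : ℝ) ^ Y.card - 1 := by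
    rw [hB, Finset.card_erase_of_mem (Finset.mem_univ _), Finset.card_univ, Fintype.card_fun, Fintype.card_coe,
      Nat.cast_sub (Nat.one_le_pow _ _ Fintype.card_pos)]
    push_cast
    rfl
  have hScard : (((B ×ˢ B : Finset ((Y → F) × (Y → F))).card : ℕ) : ℝ) = ((Fintype.card F : ℝ) ^ Y.card - 1) ^ 2 := by
    rw [Finset.card_product, Nat.cast_mul, hBcard, pow_two]
  have hext : ∀ a ∈ B, SB2_ext Y a ≠ 0 := by
    intro a ha e
    apply (Finset.mem_erase.mp ha).1
    apply QD3_ext_inj Y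
    rw [e]
    funext i
    by_cases hi : i ∈ Y
    · simp [SB2_ext, hi]
    · simp [SB2_ext, hi]
  have hχact : ∀ a ∈ B, ∀ b ∈ B, ∃ h ∈ (GX Y : Subgroup (SLn n F)), ∀ w : Y → F,
      χ0 b (-w) = χ0 a (-(QD3_act Y h w)) := by
    intro a ha b hb
    obtain ⟨h, hh, hab⟩ := covec_trans Y hY _ _ (hext a ha) (hext b hb) (SB2_ext_off Y a) (SB2_ext_off Y b)
    refine ⟨h, hh, fun w => ?_⟩
    simp only [hχ0]
    congr 1
    have e1 : ∑ i, b i * (-w) i = -(SB2_ext Y b ⬝ᵥ SB2_ext Y w) := by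
      rw [← QD3_dot]; simp
    have e2 : ∑ i, a i * (-(QD3_act Y h w)) i = -(SB2_ext Y a ⬝ᵥ SB2_ext Y (QD3_act Y h w)) := by
      rw [← QD3_dot]; simp
    rw [e1, e2, QD3_act_ext Y h hh, Matrix.dotProduct_mulVec, hab]
  have hcsum : ∀ a : (Y → F) × (Y → F), ∑ w : (Y → F) × (Y → F), χ a (-w) * (((Mt w * E).trace : ℝ) : ℂ) =
      ∑ v : Y → F, ∑ w : Y → F, χ0 a.1 (-v) * χ0 a.2 (-w) * ((τ v w : ℝ) : ℂ) := by
    intro a
    rw [Fintype.sum_prod_type]
    rfl
  rw [← hScard]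
  refine char_dim2 Mt hM0 hM χ h0 hadd horth hPr hcomm (B ×ˢ B) ?_ ?_
  · intro a ha b hb
    obtain ⟨ha1, ha2⟩ := Finset.mem_product.mp ha
    obtain ⟨hb1, hb2⟩ := Finset.mem_product.mp hb
    obtain ⟨g, hg, hgab⟩ := hχact a.1 ha1 b.1 hb1
    obtain ⟨h, hh, hhab⟩ := hχact a.2 ha2 b.2 hb2
    rw [hcsum, hcsum]
    symm
    calc ∑ v : Y → F, ∑ w : Y → F, χ0 b.1 (-v) * χ0 b.2 (-w) * ((τ v w : ℝ) : ℂ)
        = ∑ v : Y → F, ∑ w : Y → F, χ0 a.1 (-(QD3_act Y g v)) * χ0 a.2 (-(QD3_act Y h w)) *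
            ((τ (QD3_act Y g v) (QD3_act Y h w) : ℝ) : ℂ) := by
          refine Finset.sum_congr rfl fun v _ => Finset.sum_congr rfl fun w _ => ?_
          rw [hgab, hhab, hinvL g hg, hinvR h hh]
      _ = ∑ v : Y → F, ∑ w : Y → F, χ0 a.1 (-(QD3_act Y g v)) * χ0 a.2 (-w) *
            ((τ (QD3_act Y g v) w : ℝ) : ℂ) := by
          refine Finset.sum_congr rfl fun v _ => ?_
          exact (QD3_act_bij Y h hh).sum_comp (fun w => χ0 a.1 (-(QD3_act Y g v)) * χ0 a.2 (-w) *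
            ((τ (QD3_act Y g v) w : ℝ) : ℂ))
      _ = ∑ v : Y → F, ∑ w : Y → F, χ0 a.1 (-v) * χ0 a.2 (-w) * ((τ v w : ℝ) : ℂ) :=
          (QD3_act_bij Y g hg).sum_comp (fun v => ∑ w : Y → F, χ0 a.1 (-v) * χ0 a.2 (-w) * ((τ v w : ℝ) : ℂ))
  · by_contra hcon
    push Not at hcon
    -- the sum of all `c (a, b)`
    have hBsum : ∀ w : Y → F, ∑ a ∈ B, χ0 a (-w) =
        ((((if w = 0 then (Fintype.card (Y → F) : ℝ) else 0) - 1 : ℝ)) : ℂ) := by
      intro w
      have e1 : ∑ a ∈ B, χ0 a (-w) + χ0 0 (-w) = ∑ a : Y → F, χ0 a (-w) :=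
        Finset.sum_erase_add _ _ (Finset.mem_univ _)
      rw [horth0, h0'] at e1
      simp only [neg_eq_zero] at e1
      rw [eq_sub_of_add_eq e1]
      split_ifs <;> push_cast <;> rfl
    have s1 : ∑ a ∈ B ×ˢ B, ∑ v : Y → F, ∑ w : Y → F, χ0 a.1 (-v) * χ0 a.2 (-w) * ((τ v w : ℝ) : ℂ) = 0 := by
      refine Finset.sum_eq_zero fun a ha => ?_
      rw [← hcsum]
      exact hcon a ha
    have s2 : ∑ a ∈ B ×ˢ B, ∑ v : Y → F, ∑ w : Y → F, χ0 a.1 (-v) * χ0 a.2 (-w) * ((τ v w : ℝ) : ℂ) =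
        ∑ v : Y → F, ∑ w : Y → F, (∑ a ∈ B, χ0 a (-v)) * (∑ b ∈ B, χ0 b (-w)) * ((τ v w : ℝ) : ℂ) := by
      rw [Finset.sum_comm]
      refine Finset.sum_congr rfl fun v _ => ?_
      rw [Finset.sum_comm]
      refine Finset.sum_congr rfl fun w _ => ?_
      rw [← Finset.sum_mul, Finset.sum_product, Finset.sum_mul_sum]
    have s3 : ∑ v : Y → F, ∑ w : Y → F, ((if v = 0 then (Fintype.card (Y → F) : ℝ) else 0) - 1) *
        ((if w = 0 then (Fintype.card (Y → F) : ℝ) else 0) - 1) * τ v w = 0 := by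
      have h1 := s2.symm.trans s1
      simp only [hBsum] at h1
      exact_mod_cast h1
    have hg := RB3_isGrp (F := F) Y z hz
    have hLR : Commute (1 - avL (RB3_S (F := F) Y z hz)) (1 - avR (RB3_S (F := F) Y z hz)) := by
      have h1 : Commute (avL (RB3_S (F := F) Y z hz)) (avR (RB3_S (F := F) Y z hz)) :=
        commute_of_comm (avL_commR _) (avR_commL _)
      exact ((Commute.one_left _).sub_left ((Commute.one_right _).sub_right h1))
    have hpr : IsPr ((1 - avL (RB3_S (F := F) Y z hz)) * (1 - avR (RB3_S (F := F) Y z hz)) * E) := by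
      refine ((avL_isPr hg).compl.mul (avR_isPr hg).compl hLR).mul hPr ?_
      refine Commute.mul_left ?_ ?_
      · exact (Commute.one_left _).sub_left (G8_commL_avL hL _).symm
      · refine (Commute.one_left _).sub_left ?_
        unfold avR
        exact (Commute.sum_left _ _ _ fun h _ => (hR h).symm).smul_left _
    have hne : (1 - avL (RB3_S (F := F) Y z hz)) * (1 - avR (RB3_S (F := F) Y z hz)) * E ≠ 0 := by
      refine exists_corner hn z hE hEJ hg (fun i hi a => ?_)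
      rw [← QD3_tv Y z hz i (hYz i hi) a]
      exact Finset.mem_image.mpr ⟨_, Finset.mem_univ _, rfl⟩
    have h1 := one_le_trace hpr hne
    have hN : (0 : ℝ) < (Fintype.card (Y → F) : ℝ) := by
      have : Nonempty (Y → F) := ⟨0⟩
      exact_mod_cast Fintype.card_pos
    have h2 : (Fintype.card (Y → F) : ℝ) * ((Fintype.card (Y → F) : ℝ) *
        ((1 - avL (RB3_S (F := F) Y z hz)) * (1 - avR (RB3_S (F := F) Y z hz)) * E).trace) = 0 := by
      have e1 : (Fintype.card (Y → F) : ℝ) * ((Fintype.card (Y → F) : ℝ) *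
          ((1 - avL (RB3_S (F := F) Y z hz)) * (1 - avR (RB3_S (F := F) Y z hz)) * E).trace) =
          (((Fintype.card (Y → F) : ℝ) • (1 - avL (RB3_S (F := F) Y z hz))) *
            ((Fintype.card (Y → F) : ℝ) • (1 - avR (RB3_S (F := F) Y z hz))) * E).trace := by
        rw [smul_mul_smul_comm, Matrix.smul_mul, Matrix.trace_smul, smul_eq_mul]
        ring
      rw [e1]
      unfold avL avR
      rw [RB3_scaled Y z hz (fun g => (Lm g : Matrix (SLn n F) (SLn n F) ℝ)) Lm_one,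
        RB3_scaled Y z hz (fun g => (Rm g : Matrix (SLn n F) (SLn n F) ℝ)) Rm_one, RB3_sum, Fintype.sum_prod_type]
      exact s3
    have h3 := mul_pos hN (mul_pos hN (lt_of_lt_of_le one_pos h1))
    linarith

theorem trace_SL_ge_big (hn : 3 ≤ n) {E : Matrix (SLn n F) (SLn n F) ℝ} (hE : IsBlock E) (hEJ : E ≠ Jm (SLn n F)) :
    ((Fintype.card F : ℝ) ^ (n - 1) - 1) ^ 2 ≤ E.trace := by
  have hz : (⟨0, by omega⟩ : Fin n) ∉ Finset.univ.erase (⟨0, by omega⟩ : Fin n) := Finset.notMem_erase _ _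
  have hc : (Finset.univ.erase (⟨0, by omega⟩ : Fin n)).card = n - 1 := by
    rw [Finset.card_erase_of_mem (Finset.mem_univ _), Finset.card_univ, Fintype.card_fin]
  have := RB3_main (F := F) (Finset.univ.erase (⟨0, by omega⟩ : Fin n)) ⟨0, by omega⟩ hz (by rw [hc]; omega)
    (fun i hi => Finset.mem_erase.mpr ⟨hi, Finset.mem_univ i⟩) (by omega) hE hEJ
  rw [hc] at this
  exact this

end Pool.Agent.BC5
end

section
set_option autoImplicit false
set_option linter.unusedSectionVars false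
set_option linter.unusedVariables false
open scoped BigOperators Matrix
open Matrix
namespace Pool.Agent.BC5


variable {n : ℕ} {F : Type} [Field F] [Fintype F] [DecidableEq F]


theorem RB4_Lm_sum (q : ℝ) (hq : q = (Fintype.card F : ℝ)) :
    ∑ t : F, ((if t = 0 then q else 0) - 1) • Lm (tv 0 1 t : SLn 2 F) =
      q • (1 - avL (Finset.univ.image (fun t : F => (tv 0 1 t : SLn 2 F)))) := by
  have hq0 : (Fintype.card F : ℝ) ≠ 0 := by exact_mod_cast Fintype.card_ne_zero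
  have h0 : (tv 0 1 (0 : F) : SLn 2 F) = 1 := by
    have h := QD4_u_add (F := F) 0 0
    rw [add_zero] at h
    exact (left_eq_mul.mp h)
  unfold avL
  rw [Finset.card_image_of_injective _ (fun a b hab => QD4_inj hab), Finset.card_univ,
    Finset.sum_image (fun a _ b _ hab => QD4_inj hab), smul_sub, smul_smul, hq, mul_inv_cancel₀ hq0, one_smul]
  simp only [sub_smul, ite_smul, zero_smul, one_smul, Finset.sum_sub_distrib, Finset.sum_ite_eq', Finset.mem_univ, if_true]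
  rw [h0, Lm_one]

theorem RB4_Rm_sum (q : ℝ) (hq : q = (Fintype.card F : ℝ)) :
    ∑ t : F, ((if t = 0 then q else 0) - 1) • Rm (tv 0 1 t : SLn 2 F) =
      q • (1 - avR (Finset.univ.image (fun t : F => (tv 0 1 t : SLn 2 F)))) := by
  have hq0 : (Fintype.card F : ℝ) ≠ 0 := by exact_mod_cast Fintype.card_ne_zero
  have h0 : (tv 0 1 (0 : F) : SLn 2 F) = 1 := by
    have h := QD4_u_add (F := F) 0 0
    rw [add_zero] at h
    exact (left_eq_mul.mp h)
  unfold avR
  rw [Finset.card_image_of_injective _ (fun a b hab => QD4_inj hab), Finset.card_univ,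
    Finset.sum_image (fun a _ b _ hab => QD4_inj hab), smul_sub, smul_smul, hq, mul_inv_cancel₀ hq0, one_smul]
  simp only [sub_smul, ite_smul, zero_smul, one_smul, Finset.sum_sub_distrib, Finset.sum_ite_eq', Finset.mem_univ, if_true]
  rw [h0, Rm_one]

theorem RB4_conjL {E : Matrix (SLn 2 F) (SLn 2 F) ℝ} (hL : CommL E) (g h k : SLn 2 F) :
    (Lm (h * g * h⁻¹) * Rm k * E).trace = (Lm g * Rm k * E).trace := by
  have e1 : Lm (h * g * h⁻¹) * Rm k * E = Lm h * (Lm g * Rm k * E * Lm h⁻¹) := by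
    have c1 : Lm h⁻¹ * Rm k = Rm k * Lm h⁻¹ := ((Rm_Lm_comm k h⁻¹).eq).symm
    have c2 : Lm h⁻¹ * E = E * Lm h⁻¹ := ((hL h⁻¹).eq).symm
    rw [Lm_mul, Lm_mul]
    simp only [mul_assoc]
    rw [← mul_assoc (Lm h⁻¹) (Rm k), c1, mul_assoc (Rm k), c2]
  rw [e1, Matrix.trace_mul_comm]
  simp only [mul_assoc]
  rw [Lm_inv_mul, mul_one]

theorem RB4_conjR {E : Matrix (SLn 2 F) (SLn 2 F) ℝ} (hR : CommR E) (g h k : SLn 2 F) :
    (Lm k * Rm (h * g * h⁻¹) * E).trace = (Lm k * Rm g * E).trace := by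
  have e1 : Lm k * Rm (h * g * h⁻¹) * E = Rm h * (Lm k * Rm g * E * Rm h⁻¹) := by
    have c1 : Lm k * Rm h = Rm h * Lm k := ((Rm_Lm_comm h k).eq).symm
    have c2 : Rm h⁻¹ * E = E * Rm h⁻¹ := ((hR h⁻¹).eq).symm
    rw [Rm_mul, Rm_mul]
    simp only [mul_assoc]
    rw [← mul_assoc (Lm k) (Rm h), c1, mul_assoc (Rm h), c2]
  rw [e1, Matrix.trace_mul_comm]
  simp only [mul_assoc]
  rw [Rm_inv_mul, mul_one]

theorem trace_SL_ge_two {E : Matrix (SLn 2 F) (SLn 2 F) ℝ} (hE : IsBlock E) (hEJ : E ≠ Jm (SLn 2 F)) :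
    (((Fintype.card F : ℝ) - 1) / 2) ^ 2 ≤ E.trace := by
  obtain ⟨ψ, hψ0, hψadd, hψorth⟩ := exists_char F
  have hL : CommL E := hE.2.1
  have hR : CommR E := hE.2.2.1
  have huadd : ∀ a b : F, (tv 0 1 (a + b) : SLn 2 F) = tv 0 1 a * tv 0 1 b := fun a b => QD4_u_add a b
  have hu0 : (tv 0 1 (0 : F) : SLn 2 F) = 1 := by
    have h := huadd 0 0
    rw [add_zero] at h
    exact left_eq_mul.mp h
  set Mt : F × F → Matrix (SLn 2 F) (SLn 2 F) ℝ := fun p => Lm (tv 0 1 p.1 : SLn 2 F) * Rm (tv 0 1 p.2 : SLn 2 F) with hMt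
  have hM0 : Mt 0 = 1 := by
    simp only [hMt, Prod.fst_zero, Prod.snd_zero]
    rw [hu0, Lm_one, Rm_one, one_mul]
  have hM : ∀ a b, Mt (a + b) = Mt a * Mt b := by
    intro a b
    simp only [hMt, Prod.fst_add, Prod.snd_add]
    rw [huadd, huadd, Lm_mul, Rm_mul]
    have c1 : Rm (tv 0 1 a.2 : SLn 2 F) * Lm (tv 0 1 b.1 : SLn 2 F) = Lm (tv 0 1 b.1 : SLn 2 F) * Rm (tv 0 1 a.2 : SLn 2 F) :=
      (Rm_Lm_comm _ _).eq
    simp only [mul_assoc]
    rw [← mul_assoc (Rm (tv 0 1 a.2 : SLn 2 F)), c1, mul_assoc]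
  set χ : F × F → F × F → ℂ := fun a w => ψ (a.1 * w.1) * ψ (a.2 * w.2) with hχ
  have h0 : ∀ a, χ a 0 = 1 := by
    intro a
    simp only [hχ, Prod.fst_zero, Prod.snd_zero, mul_zero, hψ0, mul_one]
  have hadd : ∀ a v w, χ a (v + w) = χ a v * χ a w := by
    intro a v w
    simp only [hχ, Prod.fst_add, Prod.snd_add, mul_add, hψadd]
    ring
  have horth : ∀ w : F × F, ∑ a : F × F, χ a w = if w = 0 then (Fintype.card (F × F) : ℂ) else 0 := by
    intro w
    have e1 : ∑ a : F × F, χ a w = (∑ x : F, ψ (x * w.1)) * ∑ y : F, ψ (y * w.2) := by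
      rw [Finset.sum_mul_sum, ← Finset.sum_product']
      rfl
    rw [e1, hψorth, hψorth, Fintype.card_prod]
    by_cases h1 : w.1 = 0
    · by_cases h2 : w.2 = 0
      · rw [if_pos h1, if_pos h2, if_pos (Prod.ext h1 h2)]
        push_cast
        rfl
      · rw [if_neg h2, mul_zero, if_neg]
        intro h
        exact h2 (by rw [h]; rfl)
    · rw [if_neg h1, zero_mul, if_neg]
      intro h
      exact h1 (by rw [h]; rfl)
  have hcomm : ∀ w, Commute E (Mt w) := fun w => (hL _).mul_right (hR _)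
  set τ : F × F → ℂ := fun w => (((Mt w * E).trace : ℝ) : ℂ) with hτ
  have hinv1 : ∀ s t t' : F, s ≠ 0 → τ (s ^ 2 * t, t') = τ (t, t') := by
    intro s t t' hs
    obtain ⟨h, hh⟩ := QD4_conj s t hs
    simp only [hτ, hMt]
    rw [← hh, RB4_conjL hL]
  have hinv2 : ∀ s t t' : F, s ≠ 0 → τ (t, s ^ 2 * t') = τ (t, t') := by
    intro s t t' hs
    obtain ⟨h, hh⟩ := QD4_conj s t' hs
    simp only [hτ, hMt]
    rw [← hh, RB4_conjR hR]
  set c : F × F → ℂ := fun a => ∑ w : F × F, χ a (-w) * τ w with hc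
  have hcinv : ∀ s s' a b : F, s ≠ 0 → s' ≠ 0 → c (s ^ 2 * a, s' ^ 2 * b) = c (a, b) := by
    intro s s' a b hs hs'
    simp only [hc]
    have hs2 : s ^ 2 ≠ 0 := pow_ne_zero 2 hs
    have hs2' : s' ^ 2 ≠ 0 := pow_ne_zero 2 hs'
    refine Fintype.sum_equiv ((Equiv.mulLeft₀ (s ^ 2) hs2).prodCongr (Equiv.mulLeft₀ (s' ^ 2) hs2')) _ _ fun w => ?_
    obtain ⟨t, t'⟩ := w
    simp only [Equiv.prodCongr_apply, Prod.map_apply, Equiv.mulLeft₀, Units.mulLeft_apply, Units.val_mk0]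
    rw [hinv1 s t (s' ^ 2 * t') hs, hinv2 s' t t' hs']
    simp only [hχ, Prod.fst_neg, Prod.snd_neg]
    congr 2
    · congr 1; ring
    · congr 1; ring
  by_cases hex : ∃ a b : F, a ≠ 0 ∧ b ≠ 0 ∧ c (a, b) ≠ 0
  · obtain ⟨a, b, ha, hb, hcab⟩ := hex
    set S1 := (Finset.univ.filter (fun s : F => s ≠ 0)).image (fun s => s ^ 2 * a) with hS1
    set S2 := (Finset.univ.filter (fun s : F => s ≠ 0)).image (fun s => s ^ 2 * b) with hS2
    have hcard : (((Fintype.card F : ℝ) - 1) / 2) ^ 2 ≤ ((S1 ×ˢ S2).card : ℝ) := by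
      rw [Finset.card_product, Nat.cast_mul, sq]
      have h1 := QD4_card a ha
      have h2 := QD4_card b hb
      have h3 : (1 : ℝ) ≤ (Fintype.card F : ℝ) := by exact_mod_cast Fintype.card_pos
      exact mul_le_mul h1 h2 (by linarith) (Nat.cast_nonneg _)
    refine le_trans hcard ?_
    refine char_dim2 Mt hM0 hM χ h0 hadd horth hE.1 hcomm _ ?_ ?_
    · have key : ∀ x ∈ S1 ×ˢ S2, c x = c (a, b) := by
        intro x hx
        obtain ⟨hx1, hx2⟩ := Finset.mem_product.mp hx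
        obtain ⟨s, hs, hs'⟩ := Finset.mem_image.mp hx1
        obtain ⟨t, ht, ht'⟩ := Finset.mem_image.mp hx2
        have h1 := hcinv s t a b (Finset.mem_filter.mp hs).2 (Finset.mem_filter.mp ht).2
        rw [hs', ht'] at h1
        exact h1
      intro x hx y hy
      exact (key x hx).trans (key y hy).symm
    · refine ⟨(1 ^ 2 * a, 1 ^ 2 * b), Finset.mem_product.mpr ⟨Finset.mem_image.mpr ⟨1, Finset.mem_filter.mpr
        ⟨Finset.mem_univ _, one_ne_zero⟩, rfl⟩, Finset.mem_image.mpr ⟨1, Finset.mem_filter.mpr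
        ⟨Finset.mem_univ _, one_ne_zero⟩, rfl⟩⟩, ?_⟩
      have h1 := hcinv 1 1 a b one_ne_zero one_ne_zero
      intro h
      apply hcab
      rw [← h1]
      exact h
  · exfalso
    push Not at hex
    set q : ℝ := (Fintype.card F : ℝ) with hq
    have hq0 : q ≠ 0 := by
      rw [hq]
      exact_mod_cast Fintype.card_ne_zero
    set S : Finset (SLn 2 F) := Finset.univ.image (fun t : F => (tv 0 1 t : SLn 2 F)) with hS
    have hSg : IsGrp S := QD4_isGrp
    have hne : (1 - avL S) * (1 - avR S) * E ≠ 0 := by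
      refine exists_corner (n := 2) le_rfl 1 hE hEJ hSg ?_
      intro i hi a
      have hi0 : i = 0 := by
        fin_cases i
        · rfl
        · exact absurd rfl hi
      subst hi0
      exact Finset.mem_image.mpr ⟨a, Finset.mem_univ _, rfl⟩
    have cAB : Commute (avL S) (avR S) := commute_of_comm (avL_commR S) (avR_commL S)
    have cAE : Commute (avL S) E := commute_of_comm (avL_commR S) hL
    have cBE : Commute (avR S) E := (commute_of_comm hR (avR_commL S)).symm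
    have c1 : Commute (1 - avL S) (1 - avR S) :=
      (Commute.one_left _).sub_left ((Commute.one_right _).sub_right cAB)
    have c2 : Commute (1 - avL S) E := (Commute.one_left _).sub_left cAE
    have c3 : Commute (1 - avR S) E := (Commute.one_left _).sub_left cBE
    have hpr : IsPr ((1 - avL S) * (1 - avR S) * E) :=
      ((avL_isPr hSg).compl.mul (avR_isPr hSg).compl c1).mul hE.1 (c2.mul_left c3)
    have htr := one_le_trace hpr hne
    -- the character sum
    set κ : F → ℝ := fun t => (if t = 0 then q else 0) - 1 with hκ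
    have hκC : ∀ w : F, ∑ a ∈ Finset.univ.erase (0 : F), ψ (a * (-w)) = ((κ w : ℝ) : ℂ) := by
      intro w
      have h1 := hψorth (-w)
      rw [← Finset.add_sum_erase Finset.univ _ (Finset.mem_univ (0 : F)), zero_mul, hψ0] at h1
      simp only [hκ]
      rw [Complex.ofReal_sub, Complex.ofReal_one]
      rw [eq_sub_iff_add_eq, add_comm, h1]
      simp only [neg_eq_zero, hq]
      split_ifs <;> simp
    have hzero : ∑ a ∈ Finset.univ.erase (0 : F), ∑ b ∈ Finset.univ.erase (0 : F), c (a, b) = 0 := by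
      refine Finset.sum_eq_zero fun a ha => Finset.sum_eq_zero fun b hb => ?_
      exact hex a b (Finset.mem_erase.mp ha).1 (Finset.mem_erase.mp hb).1
    have hsum : ∑ a ∈ Finset.univ.erase (0 : F), ∑ b ∈ Finset.univ.erase (0 : F), c (a, b) =
        ∑ w : F × F, ((κ w.1 : ℝ) : ℂ) * ((κ w.2 : ℝ) : ℂ) * τ w := by
      have e1 : ∀ a b : F, c (a, b) = ∑ w : F × F, ψ (a * (-w.1)) * ψ (b * (-w.2)) * τ w := fun a b => rfl
      simp only [e1]
      have e2 : ∀ a : F, ∑ b ∈ Finset.univ.erase (0 : F), ∑ w : F × F, ψ (a * (-w.1)) * ψ (b * (-w.2)) * τ w =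
          ∑ w : F × F, ψ (a * (-w.1)) * ((κ w.2 : ℝ) : ℂ) * τ w := by
        intro a
        rw [Finset.sum_comm]
        refine Finset.sum_congr rfl fun w _ => ?_
        rw [← hκC w.2, Finset.mul_sum, Finset.sum_mul]
      simp only [e2]
      rw [Finset.sum_comm]
      refine Finset.sum_congr rfl fun w _ => ?_
      rw [← hκC w.1, Finset.sum_mul, Finset.sum_mul]
    have hreal : ∑ w : F × F, κ w.1 * κ w.2 * (Mt w * E).trace = 0 := by
      have h1 := hsum.symm.trans hzero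
      simp only [hτ] at h1
      exact_mod_cast h1
    have hexp : ∑ w : F × F, κ w.1 * κ w.2 * (Mt w * E).trace =
        (((∑ t : F, κ t • Lm (tv 0 1 t : SLn 2 F)) * (∑ t : F, κ t • Rm (tv 0 1 t : SLn 2 F))) * E).trace := by
      rw [Finset.sum_mul_sum, ← Finset.sum_product', Finset.sum_mul, Matrix.trace_sum]
      refine Finset.sum_congr rfl fun w _ => ?_
      rw [smul_mul_smul_comm, Matrix.smul_mul, Matrix.trace_smul, smul_eq_mul]
    rw [hexp, RB4_Lm_sum q rfl, RB4_Rm_sum q rfl, smul_mul_smul_comm, Matrix.smul_mul, Matrix.trace_smul, smul_eq_mul] at hreal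
    rcases mul_eq_zero.mp hreal with h | h
    · rcases mul_eq_zero.mp h with h | h <;> exact hq0 h
    · rw [← hS] at h
      linarith

end Pool.Agent.BC5
end

section
set_option autoImplicit false
set_option linter.unusedSectionVars false
set_option linter.unusedVariables false
open scoped BigOperators Matrix
open Matrix
namespace Pool.Agent.BC5


variable {G : Type} [Group G] [Fintype G] [DecidableEq G]

theorem RB5_conj {E : Matrix G G ℝ} (hR : CommR E) (g h : G) :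
    (E * Rm (h * g * h⁻¹)).trace = (E * Rm g).trace := by
  have h1 : E * Rm (h * g * h⁻¹) = (E * Rm h * Rm g) * Rm h⁻¹ := by
    rw [Rm_mul, Rm_mul]; simp only [Matrix.mul_assoc]
  have h2 : Rm h⁻¹ * (E * Rm h * Rm g) = E * Rm g := by
    have h3 : Rm h⁻¹ * E = E * Rm h⁻¹ := (hR h⁻¹).eq.symm
    have h4 : Rm h⁻¹ * Rm h = 1 := by rw [← Rm_mul, inv_mul_cancel, Rm_one]
    calc Rm h⁻¹ * (E * Rm h * Rm g) = (Rm h⁻¹ * E) * Rm h * Rm g := by simp only [Matrix.mul_assoc]
      _ = E * (Rm h⁻¹ * Rm h) * Rm g := by rw [h3]; simp only [Matrix.mul_assoc]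
      _ = E * Rm g := by rw [h4, Matrix.mul_one]
  rw [h1, Matrix.trace_mul_comm, h2]

theorem RB5_fibre (g x : G) :
    (Finset.univ.filter (fun h : G => h * g * h⁻¹ = x)).card ≤ Nat.card (Subgroup.centralizer ({g} : Set G)) := by
  classical
  rcases (Finset.univ.filter (fun h : G => h * g * h⁻¹ = x)).eq_empty_or_nonempty with he | ⟨h0, hh0⟩
  · rw [he, Finset.card_empty]; exact Nat.zero_le _
  · have hx : h0 * g * h0⁻¹ = x := (Finset.mem_filter.mp hh0).2
    rw [Nat.card_eq_fintype_card, ← Fintype.card_coe]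
    refine Fintype.card_le_of_injective
      (fun h => (⟨h0⁻¹ * h.1, ?_⟩ : Subgroup.centralizer ({g} : Set G))) ?_
    · rw [Subgroup.mem_centralizer_singleton_iff]
      have hh : h.1 * g * h.1⁻¹ = x := (Finset.mem_filter.mp h.2).2
      have h1 : h.1 * g = x * h.1 := by
        have h5 := congrArg (fun y => y * h.1) hh
        simpa [mul_assoc] using h5
      have h2 : h0 * g = x * h0 := by
        have h5 := congrArg (fun y => y * h0) hx
        simpa [mul_assoc] using h5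
      have h3 : g * h0⁻¹ = h0⁻¹ * x := by
        have : h0⁻¹ * (h0 * g) * h0⁻¹ = h0⁻¹ * (x * h0) * h0⁻¹ := by rw [h2]
        simpa [mul_assoc] using this
      calc h0⁻¹ * h.1 * g = h0⁻¹ * (h.1 * g) := mul_assoc _ _ _
        _ = (h0⁻¹ * x) * h.1 := by rw [h1, mul_assoc]
        _ = g * h0⁻¹ * h.1 := by rw [h3]
        _ = g * (h0⁻¹ * h.1) := mul_assoc _ _ _
    · intro a b hab
      have h1 := congrArg Subtype.val hab
      have h2 : h0⁻¹ * a.1 = h0⁻¹ * b.1 := h1
      exact Subtype.ext (mul_left_cancel h2)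

theorem sq_trace_le_centralizer {E : Matrix G G ℝ} (hE : IsBlock E) (g : G) :
    (E * Rm g).trace ^ 2 ≤ (Nat.card (Subgroup.centralizer ({g} : Set G)) : ℝ) * E.trace := by
  classical
  have hR : CommR E := hE.2.2.1
  have hc : (0 : ℝ) < (Fintype.card G : ℝ) := by exact_mod_cast Fintype.card_pos
  have hav := avg_trace_sq hE
  unfold avg at hav
  rw [smul_eq_mul] at hav
  have hsum : ∑ x : G, (E * Rm x).trace ^ 2 = (Fintype.card G : ℝ) * E.trace := by
    rw [← hav]; field_simp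
  have h1 : ∑ h : G, (E * Rm (h * g * h⁻¹)).trace ^ 2 = (Fintype.card G : ℝ) * (E * Rm g).trace ^ 2 := by
    rw [Finset.sum_congr rfl fun h _ => by rw [RB5_conj hR g h], Finset.sum_const, Finset.card_univ,
      nsmul_eq_mul]
  have h2 : ∑ h : G, (E * Rm (h * g * h⁻¹)).trace ^ 2
      ≤ (Nat.card (Subgroup.centralizer ({g} : Set G)) : ℝ) * ∑ x : G, (E * Rm x).trace ^ 2 := by
    rw [← Finset.sum_fiberwise_of_maps_to (s := Finset.univ) (t := Finset.univ)
      (g := fun h : G => h * g * h⁻¹) (fun _ _ => Finset.mem_univ _), Finset.mul_sum]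
    refine Finset.sum_le_sum fun x _ => ?_
    have h3 : ∑ h ∈ Finset.univ.filter (fun h : G => h * g * h⁻¹ = x), (E * Rm (h * g * h⁻¹)).trace ^ 2
        = ((Finset.univ.filter (fun h : G => h * g * h⁻¹ = x)).card : ℝ) * (E * Rm x).trace ^ 2 := by
      rw [Finset.sum_congr rfl (g := fun _ => (E * Rm x).trace ^ 2), Finset.sum_const, nsmul_eq_mul]
      intro h hh
      rw [(Finset.mem_filter.mp hh).2]
    rw [h3]
    exact mul_le_mul_of_nonneg_right (by exact_mod_cast RB5_fibre g x) (sq_nonneg _)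
  rw [h1, hsum] at h2
  have h4 : (Fintype.card G : ℝ) * (E * Rm g).trace ^ 2
      ≤ (Fintype.card G : ℝ) * ((Nat.card (Subgroup.centralizer ({g} : Set G)) : ℝ) * E.trace) := by
    calc _ ≤ _ := h2
      _ = _ := by ring
  exact le_of_mul_le_mul_left h4 hc

end Pool.Agent.BC5
end

section
set_option autoImplicit false
set_option linter.unusedSectionVars false
set_option linter.unusedVariables false
open scoped BigOperators Matrix
open Matrix
namespace Pool.Agent.BC5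


variable {n : ℕ} {F : Type} [Field F] [Fintype F] [DecidableEq F]

theorem RB6_zero {A X : Matrix (Fin n) (Fin n) F} {v : Fin n → F} (hv : (cycM A v).det ≠ 0)
    (hc : Commute X A) (h0 : X *ᵥ v = 0) : X = 0 := by
  have h1 : X * cycM A v = 0 := by
    ext i j
    have h2 : (X * cycM A v) i j = (X *ᵥ ((A ^ (j : ℕ)) *ᵥ v)) i := by
      simp [Matrix.mul_apply, cycM, Matrix.mulVec, dotProduct]
    rw [h2, Matrix.mulVec_mulVec, (hc.pow_right (j : ℕ)).eq, ← Matrix.mulVec_mulVec, h0, Matrix.mulVec_zero]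
    rfl
  have hu : IsUnit (cycM A v) := by
    rw [Matrix.isUnit_iff_isUnit_det]
    exact isUnit_iff_ne_zero.mpr hv
  obtain ⟨u, hu⟩ := hu
  have h3 : X * (u : Matrix (Fin n) (Fin n) F) = 0 := by rw [hu]; exact h1
  calc X = X * (u : Matrix (Fin n) (Fin n) F) * (↑u⁻¹ : Matrix (Fin n) (Fin n) F) := by
        rw [Matrix.mul_assoc, Units.mul_inv, Matrix.mul_one]
    _ = 0 := by rw [h3, Matrix.zero_mul]

theorem RB6_ne {A : Matrix (Fin n) (Fin n) F} (hn : 1 ≤ n) {v : Fin n → F} (hv : (cycM A v).det ≠ 0) :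
    ∃ i, v i ≠ 0 := by
  by_contra hcon
  push Not at hcon
  have h0 : v = 0 := funext hcon
  apply hv
  have h1 : cycM A v = 0 := by
    ext i j
    simp [cycM, h0]
  rw [h1]
  have : Nonempty (Fin n) := ⟨⟨0, hn⟩⟩
  exact Matrix.det_zero

theorem RB6_roots (hn : 1 ≤ n) (H : Matrix (Fin n) (Fin n) F) :
    ((-H).charpoly - 1).roots.toFinset.card ≤ n ∧ (-H).charpoly - 1 ≠ 0 := by
  have hd : (-H).charpoly.natDegree = n := by
    rw [Matrix.charpoly_natDegree_eq_dim, Fintype.card_fin]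
  have hne : (-H).charpoly - 1 ≠ 0 := by
    intro h
    have h1 : (-H).charpoly = 1 := sub_eq_zero.mp h
    rw [h1, Polynomial.natDegree_one] at hd
    omega
  refine ⟨?_, hne⟩
  calc ((-H).charpoly - 1).roots.toFinset.card ≤ Multiset.card ((-H).charpoly - 1).roots :=
        Multiset.toFinset_card_le _
    _ ≤ ((-H).charpoly - 1).natDegree := Polynomial.card_roots' _
    _ ≤ max (-H).charpoly.natDegree (1 : Polynomial F).natDegree := Polynomial.natDegree_sub_le _ _
    _ ≤ n := by rw [hd, Polynomial.natDegree_one]; simp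

theorem RB6_diff {g : SLn n F} {v : Fin n → F} (hv : (cycM g.1 v).det ≠ 0) {i : Fin n} (hi : v i ≠ 0)
    {h h' : SLn n F} (hh : Commute h.1 g.1) (hh' : Commute h'.1 g.1)
    (he : ∀ j, j ≠ i → (h.1 *ᵥ v) j - (h.1 *ᵥ v) i / v i * v j = (h'.1 *ᵥ v) j - (h'.1 *ᵥ v) i / v i * v j) :
    h.1 = h'.1 + (((h.1 *ᵥ v) i - (h'.1 *ᵥ v) i) / v i) • (1 : Matrix (Fin n) (Fin n) F) := by
  set α : F := ((h.1 *ᵥ v) i - (h'.1 *ᵥ v) i) / v i with hα
  have hz : h.1 - h'.1 - α • (1 : Matrix (Fin n) (Fin n) F) = 0 := by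
    apply RB6_zero hv
    · exact (hh.sub_left hh').sub_left ((Commute.one_left g.1).smul_left α)
    · ext j
      rw [Matrix.sub_mulVec, Matrix.sub_mulVec, Matrix.smul_mulVec, Matrix.one_mulVec]
      simp only [Pi.sub_apply, Pi.smul_apply, Pi.zero_apply, smul_eq_mul]
      by_cases hj : j = i
      · subst hj
        rw [hα]
        field_simp
        ring
      · have h1 := he j hj
        rw [hα, sub_div, sub_mul]
        linear_combination h1
  have h2 := sub_eq_zero.mp hz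
  rw [← h2]; abel

theorem card_centralizer_SL_le (hn : 1 ≤ n) (g : SLn n F) (v : Fin n → F) (hv : (cycM g.1 v).det ≠ 0) :
    Nat.card (Subgroup.centralizer ({g} : Set (SLn n F))) ≤ n * Fintype.card F ^ (n - 1) := by
  classical
  obtain ⟨i, hi⟩ := RB6_ne hn hv
  have hcomm : ∀ h : Subgroup.centralizer ({g} : Set (SLn n F)), Commute h.1.1 g.1 := by
    intro h
    have h1 := Subgroup.mem_centralizer_singleton_iff.mp h.2
    have h2 := congrArg Subtype.val h1
    exact h2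
  let φ : Subgroup.centralizer ({g} : Set (SLn n F)) → ({j : Fin n // j ≠ i} → F) :=
    fun h j => (h.1.1 *ᵥ v) j.1 - (h.1.1 *ᵥ v) i / v i * v j.1
  have hcard : Nat.card (Subgroup.centralizer ({g} : Set (SLn n F)))
      = (Finset.univ : Finset (Subgroup.centralizer ({g} : Set (SLn n F)))).card := by
    rw [Nat.card_eq_fintype_card, Finset.card_univ]
  rw [hcard]
  have hfib : ∀ y ∈ (Finset.univ : Finset (Subgroup.centralizer ({g} : Set (SLn n F)))).image φ,
      ((Finset.univ : Finset (Subgroup.centralizer ({g} : Set (SLn n F)))).filter (fun h => φ h = y)).card ≤ n := by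
    intro y hy
    obtain ⟨h0, -, hh0⟩ := Finset.mem_image.mp hy
    obtain ⟨hr, hne⟩ := RB6_roots hn h0.1.1
    refine le_trans (Finset.card_le_card_of_injOn
      (fun h => ((h.1.1 *ᵥ v) i - (h0.1.1 *ᵥ v) i) / v i) ?_ ?_) hr
    · intro h hh
      have hφ : φ h = φ h0 := by
        rw [hh0]; exact (Finset.mem_filter.mp (Finset.mem_coe.mp hh)).2
      have hd := RB6_diff hv hi (hcomm h) (hcomm h0) (fun j hj => congrFun hφ ⟨j, hj⟩)
      rw [Finset.mem_coe, Multiset.mem_toFinset, Polynomial.mem_roots hne, Polynomial.IsRoot.def,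
        Polynomial.eval_sub, Polynomial.eval_one, Matrix.eval_charpoly, sub_eq_zero]
      have h1 : (Matrix.scalar (Fin n)) (((h.1.1 *ᵥ v) i - (h0.1.1 *ᵥ v) i) / v i) - -h0.1.1 = h.1.1 := by
        rw [sub_neg_eq_add, add_comm]
        conv_rhs => rw [hd]
        rw [Matrix.smul_one_eq_diagonal]
        rfl
      rw [h1]
      exact h.1.2
    · intro h hh h' hh' hab
      have hφ : φ h = φ h0 := by
        rw [hh0]; exact (Finset.mem_filter.mp (Finset.mem_coe.mp hh)).2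
      have hφ' : φ h' = φ h0 := by
        rw [hh0]; exact (Finset.mem_filter.mp (Finset.mem_coe.mp hh')).2
      have hd := RB6_diff hv hi (hcomm h) (hcomm h0) (fun j hj => congrFun hφ ⟨j, hj⟩)
      have hd' := RB6_diff hv hi (hcomm h') (hcomm h0) (fun j hj => congrFun hφ' ⟨j, hj⟩)
      have hab' : ((h.1.1 *ᵥ v) i - (h0.1.1 *ᵥ v) i) / v i = ((h'.1.1 *ᵥ v) i - (h0.1.1 *ᵥ v) i) / v i := hab
      apply Subtype.ext
      apply Subtype.ext
      rw [hd, hd', hab']
  refine le_trans (Finset.card_le_mul_card_image _ n hfib) (Nat.mul_le_mul_left n ?_)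
  refine le_trans (Finset.card_le_univ _) (le_of_eq ?_)
  rw [Fintype.card_fun, Fintype.card_subtype_compl, Fintype.card_fin, Fintype.card_subtype_eq]

end Pool.Agent.BC5
end

section
set_option autoImplicit false
set_option linter.unusedSectionVars false
set_option linter.unusedVariables false
open scoped BigOperators Matrix
open Matrix
namespace Pool.Agent.BC5


theorem RB7_num (k : ℕ) (s : ℝ) (hs : 32 ≤ s) : 16 * ((k : ℝ) + 2) ≤ s ^ (2 * k + 1) := by
  induction k with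
  | zero =>
    simp only [Nat.cast_zero, zero_add, mul_zero, pow_one]
    linarith
  | succ k ih =>
    have e : s ^ (2 * (k + 1) + 1) = s ^ (2 * k + 1) * s ^ 2 := by ring
    rw [e]
    have h2 : (1024 : ℝ) ≤ s ^ 2 := by nlinarith
    have hpos : 0 < s ^ (2 * k + 1) := by positivity
    have h3 : s ^ (2 * k + 1) * 1024 ≤ s ^ (2 * k + 1) * s ^ 2 := mul_le_mul_of_nonneg_left h2 hpos.le
    have hk : (0 : ℝ) ≤ (k : ℝ) := Nat.cast_nonneg k
    push_cast
    nlinarith

theorem RB7_final {D T c q : ℝ} {k : ℕ} (hq : 1024 ≤ q) (hD : ((q ^ (k + 1) - 1) / 2) ^ 2 ≤ D)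
    (hT : T ^ 2 ≤ c * D) (hc : c ≤ ((k : ℝ) + 2) * q ^ (k + 1)) : |T| ≤ q ^ (-(1 / 4 : ℝ)) * D := by
  have hq0 : 0 < q := by linarith
  obtain ⟨s, hs⟩ : ∃ s : ℝ, s = Real.sqrt q := ⟨_, rfl⟩
  have hs2 : s ^ 2 = q := by rw [hs]; exact Real.sq_sqrt hq0.le
  have hs32 : 32 ≤ s := by
    rw [hs]; exact Real.le_sqrt_of_sq_le (by norm_num; linarith)
  have hs0 : 0 < s := by linarith
  obtain ⟨r, hr⟩ : ∃ r : ℝ, r = q ^ (-(1 / 4 : ℝ)) := ⟨_, rfl⟩
  have hr0 : 0 < r := by rw [hr]; positivity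
  have hrs : r ^ 2 * s = 1 := by
    rw [hr, hs, Real.sqrt_eq_rpow, ← Real.rpow_natCast, ← Real.rpow_mul hq0.le, ← Real.rpow_add hq0]
    norm_num
  have hn := RB7_num k s hs32
  obtain ⟨Q, hQ⟩ : ∃ Q : ℝ, Q = q ^ (k + 1) := ⟨_, rfl⟩
  rw [← hQ] at hD hc
  have hQs : Q = s ^ (2 * k + 1) * s := by
    rw [hQ, ← hs2]; ring
  have h16 : 16 * ((k : ℝ) + 2) * s ≤ Q := by
    rw [hQs]; exact mul_le_mul_of_nonneg_right hn hs0.le
  have hk : (0 : ℝ) ≤ (k : ℝ) := Nat.cast_nonneg k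
  have hQ2 : 2 ≤ Q := by nlinarith
  have hD16 : Q ^ 2 / 16 ≤ D := by
    refine le_trans ?_ hD
    have : (0:ℝ) ≤ Q / 2 := by linarith
    nlinarith
  have hD0 : 0 ≤ D := le_trans (by positivity) hD16
  have hkey : ((k : ℝ) + 2) * Q * s ≤ D := by
    refine le_trans ?_ hD16
    have := mul_le_mul_of_nonneg_left h16 (by linarith : (0:ℝ) ≤ Q)
    nlinarith
  rw [← hr]
  refine abs_le_of_sq_le_sq ?_ (by positivity)
  calc T ^ 2 ≤ c * D := hT
    _ ≤ (((k : ℝ) + 2) * Q) * D := mul_le_mul_of_nonneg_right hc hD0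
    _ = (((k : ℝ) + 2) * Q * s) * (r ^ 2 * D) := by
        have : (((k : ℝ) + 2) * Q * s) * (r ^ 2 * D) = (((k : ℝ) + 2) * Q) * D * (r ^ 2 * s) := by ring
        rw [this, hrs, mul_one]
    _ ≤ D * (r ^ 2 * D) := mul_le_mul_of_nonneg_right hkey (by positivity)
    _ = (r * D) ^ 2 := by ring

variable {n : ℕ} {F : Type} [Field F] [Fintype F] [DecidableEq F]

theorem RB7_dim (k : ℕ) (hn : n = k + 2) {E : Matrix (SLn n F) (SLn n F) ℝ} (hE : IsBlock E)
    (hEJ : E ≠ Jm (SLn n F)) : (((Fintype.card F : ℝ) ^ (k + 1) - 1) / 2) ^ 2 ≤ E.trace := by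
  subst hn
  rcases Nat.eq_zero_or_pos k with hk | hk
  · subst hk
    have h := trace_SL_ge_two (F := F) (E := E) hE hEJ
    simpa using h
  · have h := trace_SL_ge_big (n := k + 2) (F := F) (by omega) hE hEJ
    have e : k + 2 - 1 = k + 1 := by omega
    rw [e] at h
    refine le_trans ?_ h
    rw [div_pow]
    have h0 : 0 ≤ ((Fintype.card F : ℝ) ^ (k + 1) - 1) ^ 2 := sq_nonneg _
    linarith


theorem char_reg (hn : 2 ≤ n) (hq : 1024 ≤ Fintype.card F) (g : SLn n F) (v : Fin n → F) (hv : (cycM g.1 v).det ≠ 0)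
    {E : Matrix (SLn n F) (SLn n F) ℝ} (hE : IsBlock E) (hEJ : E ≠ Jm (SLn n F)) :
    |(E * Rm g).trace| ≤ (Fintype.card F : ℝ) ^ (-(1 / 4 : ℝ)) * E.trace := by
  obtain ⟨k, hk⟩ : ∃ k, n = k + 2 := ⟨n - 2, by omega⟩
  have h1 := sq_trace_le_centralizer hE g
  have h2 := card_centralizer_SL_le (by omega : 1 ≤ n) g v hv
  have h3 := RB7_dim k hk hE hEJ
  have hqR : (1024 : ℝ) ≤ (Fintype.card F : ℝ) := by exact_mod_cast hq
  refine RB7_final hqR h3 h1 ?_
  have e : n - 1 = k + 1 := by omega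
  rw [e] at h2
  have h4 : ((Nat.card (Subgroup.centralizer ({g} : Set (SLn n F))) : ℕ) : ℝ) ≤
      ((n * Fintype.card F ^ (k + 1) : ℕ) : ℝ) := by exact_mod_cast h2
  refine le_trans h4 (le_of_eq ?_)
  have hnk : (n : ℝ) = (k : ℝ) + 2 := by rw [hk]; push_cast; ring
  push_cast
  rw [hnk]

end Pool.Agent.BC5
end

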