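import Pool.Agent.Lib.MP_bc5a73_al.RankDefs
import Pool.Agent.Lib.MP_bc5a73_al.SlGroups
import Pool.Agent.Lib.MP_bc5a73_al.SlBlocks

section
set_option autoImplicit false
set_option linter.unusedSectionVars false
set_option linter.unusedVariables false
open scoped BigOperators Matrix
open Matrix
namespace Pool.Agent.BC5


variable {n : ℕ} {F : Type} [Field F] [Fintype F] [DecidableEq F]

/-- Words of length at most `k` in the transvections with indices in `X`. -/
def RC1_W (X : Finset (Fin n)) (k : ℕ) (g : SLn n F) : Prop :=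
  ∃ L : List (Fin n × Fin n × F), L.length ≤ k ∧ (∀ c ∈ L, c.1 ∈ X ∧ c.2.1 ∈ X ∧ c.1 ≠ c.2.1) ∧
    (L.map fun c => tv c.1 c.2.1 c.2.2).prod = g

theorem RC1_one (X : Finset (Fin n)) (k : ℕ) : RC1_W X k (1 : SLn n F) :=
  ⟨[], Nat.zero_le k, fun c hc => absurd hc List.not_mem_nil, rfl⟩

theorem RC1_mul {X : Finset (Fin n)} {k l : ℕ} {g h : SLn n F} (hg : RC1_W X k g) (hh : RC1_W X l h) :
    RC1_W X (k + l) (g * h) := by
  obtain ⟨L, h1, h2, h3⟩ := hg
  obtain ⟨M, h4, h5, h6⟩ := hh
  refine ⟨L ++ M, ?_, ?_, ?_⟩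
  · rw [List.length_append]
    omega
  · intro c hc
    rcases List.mem_append.mp hc with hc | hc
    · exact h2 c hc
    · exact h5 c hc
  · rw [List.map_append, List.prod_append, h3, h6]

theorem RC1_tv {X : Finset (Fin n)} {i j : Fin n} (hi : i ∈ X) (hj : j ∈ X) (hij : i ≠ j) (a : F) :
    RC1_W X 1 (tv i j a : SLn n F) := by
  refine ⟨[(i, j, a)], le_rfl, ?_, ?_⟩
  · intro c hc
    rw [List.mem_singleton] at hc
    subst hc
    exact ⟨hi, hj, hij⟩
  · simp

theorem RC1_mono {X Y : Finset (Fin n)} (hXY : X ⊆ Y) {k l : ℕ} (hkl : k ≤ l) {g : SLn n F} (hg : RC1_W X k g) :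
    RC1_W Y l g := by
  obtain ⟨L, h1, h2, h3⟩ := hg
  exact ⟨L, h1.trans hkl, fun c hc => ⟨hXY (h2 c hc).1, hXY (h2 c hc).2.1, (h2 c hc).2.2⟩, h3⟩

theorem RC1_tv_inv {i j : Fin n} (hij : i ≠ j) (a : F) : (tv i j a : SLn n F)⁻¹ = tv i j (-a) := by
  refine inv_eq_of_mul_eq_one_left ?_
  refine Subtype.ext ?_
  have h1 : ((tv i j (-a) : SLn n F) * tv i j a).1 = (tv i j (-a) : SLn n F).1 * (tv i j a : SLn n F).1 := rfl
  have h2 : (tv i j a : SLn n F).1 = 1 + Matrix.single i j a := tv_coe hij a
  have h3 : (tv i j (-a) : SLn n F).1 = 1 + Matrix.single i j (-a) := tv_coe hij (-a)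
  change ((tv i j (-a) : SLn n F) * tv i j a).1 = 1
  rw [h1, h2, h3, mul_add, add_mul, add_mul, Matrix.single_mul_single_of_ne _ _ _ _ (Ne.symm hij)]
  have h4 : Matrix.single i j (-a) + Matrix.single i j a = (0 : Matrix (Fin n) (Fin n) F) := by
    rw [← Matrix.single_add, neg_add_cancel, Matrix.single_zero]
  rw [mul_one, one_mul, mul_one, add_zero, add_assoc, h4, add_zero]

theorem RC1_inv {X : Finset (Fin n)} {k : ℕ} {g : SLn n F} (hg : RC1_W X k g) : RC1_W X k g⁻¹ := by
  obtain ⟨L, h1, h2, h3⟩ := hg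
  subst h3
  induction L generalizing k with
  | nil =>
    rw [List.map_nil, List.prod_nil, inv_one]
    exact RC1_one X k
  | cons c L ih =>
    rw [List.length_cons] at h1
    obtain ⟨m, rfl⟩ : ∃ m, k = m + 1 := ⟨k - 1, by omega⟩
    have hc := h2 c List.mem_cons_self
    rw [List.map_cons, List.prod_cons, _root_.mul_inv_rev, RC1_tv_inv hc.2.2]
    exact RC1_mul (ih (by omega) (fun d hd => h2 d (List.mem_cons_of_mem c hd))) (RC1_tv hc.1 hc.2.1 hc.2.2 _)

theorem RC1_le {X : Finset (Fin n)} {k : ℕ} {g : SLn n F} (hg : RC1_W X k g) : g ∈ (GX X : Subgroup (SLn n F)) := by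
  obtain ⟨L, h1, h2, h3⟩ := hg
  subst h3
  refine Subgroup.list_prod_mem _ ?_
  intro x hx
  obtain ⟨c, hc, rfl⟩ := List.mem_map.mp hx
  exact tv_mem_GX X (h2 c hc).1 (h2 c hc).2.1 _

theorem RC1_step1 (X : Finset (Fin n)) {z w : Fin n} (hz : z ∈ X) (hw : w ∈ X) (hwz : w ≠ z)
    (g : SLn n F) (hg : g ∈ (GX X : Subgroup (SLn n F))) :
    ∃ h, RC1_W X 2 h ∧ (h * g).1 z z = 1 := by
  have key : ∀ (g : SLn n F), (∃ i ∈ X, i ≠ z ∧ g.1 i z ≠ 0) →
      ∃ h, RC1_W X 1 h ∧ (h * g).1 z z = 1 := by
    rintro g ⟨i, hi, hiz, hne⟩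
    refine ⟨tv z i ((1 - g.1 z z) / g.1 i z), RC1_tv hz hi (Ne.symm hiz) _, ?_⟩
    rw [SB3_tv_mul (Ne.symm hiz), if_pos rfl, div_mul_cancel₀ _ hne, add_sub_cancel]
  by_cases h : ∃ i ∈ X, i ≠ z ∧ g.1 i z ≠ 0
  · obtain ⟨h1, hh1, e1⟩ := key g h
    exact ⟨h1, RC1_mono (Finset.Subset.refl X) (by norm_num) hh1, e1⟩
  · push Not at h
    have hcol : ∀ i, i ≠ z → g.1 i z = 0 := by
      intro i hi
      by_cases hiX : i ∈ X
      · exact h i hiX hi
      · rw [((SB3_mem X g).mp hg i hiX z).2, Matrix.one_apply_ne hi]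
    have hzz : g.1 z z ≠ 0 := by
      intro h0
      have h1 : (g⁻¹ * g).1 z z = 1 := by
        rw [inv_mul_cancel]
        exact Matrix.one_apply_eq z
      rw [show (g⁻¹ * g).1 = (g⁻¹).1 * g.1 from rfl, Matrix.mul_apply] at h1
      rw [Finset.sum_eq_zero] at h1
      · exact zero_ne_one h1
      · intro i _
        by_cases hi : i = z
        · rw [hi, h0, mul_zero]
        · rw [hcol i hi, mul_zero]
    obtain ⟨h2, hh2, he⟩ := key (tv w z 1 * g) ⟨w, hw, hwz, by
      rw [SB3_tv_mul hwz, if_pos rfl, hcol w hwz, one_mul, zero_add]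
      exact hzz⟩
    refine ⟨h2 * tv w z 1, RC1_mul hh2 (RC1_tv hw hz hwz 1), ?_⟩
    rw [mul_assoc]
    exact he

theorem RC1_step2 (X : Finset (Fin n)) {z : Fin n} (hz : z ∈ X) (g : SLn n F)
    (hg : g.1 z z = 1) (s : Finset (Fin n)) (hs : s ⊆ X.erase z) :
    ∃ h, RC1_W X s.card h ∧ (h * g).1 z z = 1 ∧ ∀ i ∈ s, (h * g).1 i z = 0 := by
  induction s using Finset.induction_on with
  | empty => exact ⟨1, RC1_one X _, by rw [one_mul]; exact hg, fun i hi => absurd hi (Finset.notMem_empty i)⟩
  | insert i s hi ih =>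
    obtain ⟨h, hh, h1, h2⟩ := ih (fun a ha => hs (Finset.mem_insert_of_mem ha))
    have hiX := hs (Finset.mem_insert_self i s)
    rw [Finset.mem_erase] at hiX
    refine ⟨tv i z (-(h * g).1 i z) * h, ?_, ?_, ?_⟩
    · rw [Finset.card_insert_of_notMem hi, Nat.add_comm]
      exact RC1_mul (RC1_tv hiX.2 hz hiX.1 _) hh
    · rw [mul_assoc, SB3_tv_mul hiX.1, if_neg (Ne.symm hiX.1), add_zero]
      exact h1
    · intro k hk
      rw [mul_assoc, SB3_tv_mul hiX.1]
      by_cases hki : k = i
      · rw [if_pos hki, h1, mul_one, hki, add_neg_cancel]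
      · rw [if_neg hki, add_zero]
        exact h2 k (Finset.mem_of_mem_insert_of_ne hk hki)

theorem RC1_step3 (X : Finset (Fin n)) {z : Fin n} (hz : z ∈ X) (g : SLn n F)
    (hg : ∀ i, g.1 i z = (1 : Matrix (Fin n) (Fin n) F) i z) (s : Finset (Fin n))
    (hs : s ⊆ X.erase z) :
    ∃ h, RC1_W X s.card h ∧ (∀ i, (g * h).1 i z = (1 : Matrix (Fin n) (Fin n) F) i z) ∧
      ∀ i ∈ s, (g * h).1 z i = 0 := by
  induction s using Finset.induction_on with
  | empty => exact ⟨1, RC1_one X _, by rw [mul_one]; exact hg, fun i hi => absurd hi (Finset.notMem_empty i)⟩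
  | insert i s hi ih =>
    obtain ⟨h, hh, h1, h2⟩ := ih (fun a ha => hs (Finset.mem_insert_of_mem ha))
    have hiX := hs (Finset.mem_insert_self i s)
    rw [Finset.mem_erase] at hiX
    refine ⟨h * tv z i (-(g * h).1 z i), ?_, ?_, ?_⟩
    · rw [Finset.card_insert_of_notMem hi]
      exact RC1_mul hh (RC1_tv hz hiX.2 (Ne.symm hiX.1) _)
    · intro k
      rw [← mul_assoc, SB3_mul_tv (Ne.symm hiX.1), if_neg (Ne.symm hiX.1), add_zero]
      exact h1 k
    · intro k hk
      rw [← mul_assoc, SB3_mul_tv (Ne.symm hiX.1)]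
      by_cases hki : k = i
      · rw [if_pos hki, h1, Matrix.one_apply_eq, one_mul, hki, add_neg_cancel]
      · rw [if_neg hki, add_zero]
        exact h2 k (Finset.mem_of_mem_insert_of_ne hk hki)

theorem RC1_main (m : ℕ) : ∀ X : Finset (Fin n), X.card ≤ m →
    ∀ g ∈ (GX X : Subgroup (SLn n F)), RC1_W X (2 * m ^ 2) g := by
  induction m with
  | zero =>
    intro X hX g hg
    by_cases hn : Nonempty (Fin n)
    · obtain ⟨z⟩ := hn
      have h0 : X = ∅ := Finset.card_eq_zero.mp (Nat.le_zero.mp hX)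
      rw [SB3_small X z (by rw [h0]; exact Finset.empty_subset _) g hg]
      exact RC1_one X _
    · have : g = 1 := by
        refine Subtype.ext ?_
        ext i j
        exact absurd ⟨i⟩ hn
      rw [this]
      exact RC1_one X _
  | succ m ih =>
    intro X hX g hg
    by_cases h2 : ∃ z ∈ X, ∃ w ∈ X, w ≠ z
    · obtain ⟨z, hz, w, hw, hwz⟩ := h2
      have hc : (X.erase z).card ≤ m := by
        rw [Finset.card_erase_of_mem hz]
        omega
      obtain ⟨h1, hh1, e1⟩ := RC1_step1 X hz hw hwz g hg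
      obtain ⟨h2, hh2, e2, e2'⟩ := RC1_step2 X hz (h1 * g) e1 (X.erase z) (fun _ h => h)
      have hg2 : h2 * (h1 * g) ∈ (GX X : Subgroup (SLn n F)) :=
        mul_mem (RC1_le hh2) (mul_mem (RC1_le hh1) hg)
      have hcol : ∀ i, (h2 * (h1 * g)).1 i z = (1 : Matrix (Fin n) (Fin n) F) i z := by
        intro i
        by_cases hiz : i = z
        · rw [hiz, e2, Matrix.one_apply_eq]
        · by_cases hiX : i ∈ X
          · rw [e2' i (Finset.mem_erase.mpr ⟨hiz, hiX⟩), Matrix.one_apply_ne hiz]
          · exact ((SB3_mem X _).mp hg2 i hiX z).2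
      obtain ⟨h3, hh3, e3, e3'⟩ := RC1_step3 X hz (h2 * (h1 * g)) hcol (X.erase z) (fun _ h => h)
      have hg3 : h2 * (h1 * g) * h3 ∈ (GX X : Subgroup (SLn n F)) := mul_mem hg2 (RC1_le hh3)
      have hrow : ∀ i, (h2 * (h1 * g) * h3).1 z i = (1 : Matrix (Fin n) (Fin n) F) z i := by
        intro i
        by_cases hiz : i = z
        · rw [hiz, e3]
        · by_cases hiX : i ∈ X
          · rw [e3' i (Finset.mem_erase.mpr ⟨hiz, hiX⟩), Matrix.one_apply_ne (Ne.symm hiz)]
          · exact ((SB3_mem X _).mp hg3 i hiX z).1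
      have hg4 : h2 * (h1 * g) * h3 ∈ (GX (X.erase z) : Subgroup (SLn n F)) := by
        rw [SB3_mem]
        intro j hj i
        by_cases hjz : j = z
        · rw [hjz]
          exact ⟨e3 i, hrow i⟩
        · exact (SB3_mem X _).mp hg3 j (fun hjX => hj (Finset.mem_erase.mpr ⟨hjz, hjX⟩)) i
      have h5 := RC1_mono (Finset.erase_subset z X) (le_refl (2 * m ^ 2)) (ih (X.erase z) hc _ hg4)
      have h6 : g = (h2 * h1)⁻¹ * (h2 * (h1 * g) * h3) * h3⁻¹ := by group
      have h7 := RC1_mul (RC1_mul (RC1_inv (RC1_mul hh2 hh1)) h5) (RC1_inv hh3)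
      rw [← h6] at h7
      refine RC1_mono (Finset.Subset.refl X) ?_ h7
      nlinarith [hc]
    · push Not at h2
      by_cases hne : X.Nonempty
      · obtain ⟨z, hz⟩ := hne
        rw [SB3_small X z (fun w hw => Finset.mem_singleton.mpr (h2 z hz w hw)) g hg]
        exact RC1_one X _
      · rw [Finset.not_nonempty_iff_eq_empty] at hne
        refine RC1_mono (Finset.Subset.refl X) ?_ (ih X ?_ g hg)
        · nlinarith
        · rw [hne, Finset.card_empty]
          exact Nat.zero_le m

theorem tv_list (g : SLn n F) : ∃ L : List (Fin n × Fin n × F), L.length ≤ 4 * n ^ 2 ∧ (∀ c ∈ L, c.1 ≠ c.2.1) ∧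
    (L.map fun c => tv c.1 c.2.1 c.2.2).prod = g := by
  have hg : g ∈ (GX (Finset.univ : Finset (Fin n)) : Subgroup (SLn n F)) := by
    rw [GX_univ]
    exact Subgroup.mem_top g
  obtain ⟨L, h1, h2, h3⟩ := RC1_main (F := F) n Finset.univ (by rw [Finset.card_univ, Fintype.card_fin]) g hg
  exact ⟨L, by omega, fun c hc => (h2 c hc).2.2, h3⟩

end Pool.Agent.BC5
end

section
set_option autoImplicit false
set_option linter.unusedSectionVars false
set_option linter.unusedVariables false
open scoped BigOperators Matrix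
open Matrix
namespace Pool.Agent.BC5

theorem RC2_tv_zero {n : ℕ} {F : Type} [Field F] [Fintype F] [DecidableEq F] (i j : Fin n) : (tv i j (0 : F) : SLn n F) = 1 := by
  by_cases h : i ≠ j
  · apply Subtype.ext
    rw [tv_coe h, Matrix.single_zero, add_zero]
    rfl
  · unfold tv
    rw [dif_neg h]

theorem RC2_zero {n : ℕ} {F : Type} [Field F] [Fintype F] [DecidableEq F] (P : List (Fin n × Fin n)) :
    ((P.zip (List.replicate P.length (0 : F))).map (fun u => (tv u.1.1 u.1.2 u.2 : SLn n F))).prod = 1 := by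
  induction P with
  | nil => simp
  | cons a P ih =>
    rw [List.length_cons, List.replicate_succ, List.zip_cons_cons, List.map_cons, List.prod_cons, ih, mul_one]
    exact RC2_tv_zero _ _

theorem RC2_one {n : ℕ} {F : Type} [Field F] [Fintype F] [DecidableEq F] (P : List (Fin n × Fin n)) (i j : Fin n) (a : F)
    (hc : (i, j) ∈ P) : ∃ ts : List F, ts.length = P.length ∧
      ((P.zip ts).map (fun u => (tv u.1.1 u.1.2 u.2 : SLn n F))).prod = tv i j a := by
  obtain ⟨s, t, rfl⟩ := List.append_of_mem hc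
  refine ⟨List.replicate s.length 0 ++ a :: List.replicate t.length 0, by simp, ?_⟩
  rw [List.zip_append (by simp), List.map_append, List.prod_append, RC2_zero, one_mul, List.zip_cons_cons, List.map_cons,
    List.prod_cons, RC2_zero, mul_one]

theorem RC2_list {n : ℕ} {F : Type} [Field F] [Fintype F] [DecidableEq F] (P : List (Fin n × Fin n)) (m : ℕ) :
    ∀ M : List (Fin n × Fin n × F), M.length ≤ m → (∀ c ∈ M, (c.1, c.2.1) ∈ P) →
    ∃ ts : List F, ts.length = ((List.replicate m P).flatten).length ∧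
      ((((List.replicate m P).flatten).zip ts).map (fun u => (tv u.1.1 u.1.2 u.2 : SLn n F))).prod =
        (M.map fun c => (tv c.1 c.2.1 c.2.2 : SLn n F)).prod := by
  induction m with
  | zero =>
    intro M hM hmem
    have : M = [] := List.length_eq_zero_iff.1 (by omega)
    subst this
    exact ⟨[], by simp, by simp⟩
  | succ m ih =>
    intro M hM hmem
    rw [List.replicate_succ, List.flatten_cons]
    cases M with
    | nil =>
      refine ⟨List.replicate (P ++ (List.replicate m P).flatten).length 0, by simp, ?_⟩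
      rw [RC2_zero]
      simp
    | cons c M =>
      obtain ⟨ts1, h1, h2⟩ := RC2_one P c.1 c.2.1 c.2.2 (hmem c (by simp))
      obtain ⟨ts2, h3, h4⟩ := ih M (by rw [List.length_cons] at hM; omega) (fun d hd => hmem d (by simp [hd]))
      refine ⟨ts1 ++ ts2, by rw [List.length_append, List.length_append, h1, h3], ?_⟩
      rw [List.zip_append h1.symm, List.map_append, List.prod_append, h2, h4, List.map_cons, List.prod_cons]

theorem exists_pattern (n : ℕ) : ∃ (K : ℕ) (pat : Fin K → Fin n × Fin n), K ≤ 4 * n ^ 4 ∧ (∀ k, (pat k).1 ≠ (pat k).2) ∧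
    ∀ (F : Type) [Field F] [Fintype F] [DecidableEq F] (g : SLn n F), ∃ t : Fin K → F, phiP pat t = g := by
  classical
  obtain ⟨P, hP⟩ : ∃ P : List (Fin n × Fin n), P = (Finset.univ.filter (fun p : Fin n × Fin n => p.1 ≠ p.2)).toList := ⟨_, rfl⟩
  have hlen : P.length ≤ n ^ 2 := by
    rw [hP, Finset.length_toList]
    refine (Finset.card_filter_le _ _).trans ?_
    rw [Finset.card_univ, Fintype.card_prod, Fintype.card_fin]
    exact le_of_eq (by ring)
  have hmemP : ∀ p : Fin n × Fin n, p ∈ P ↔ p.1 ≠ p.2 := by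
    intro p
    rw [hP, Finset.mem_toList, Finset.mem_filter]
    exact ⟨fun h => h.2, fun h => ⟨Finset.mem_univ _, h⟩⟩
  obtain ⟨L, hL⟩ : ∃ L : List (Fin n × Fin n), L = (List.replicate (4 * n ^ 2) P).flatten := ⟨_, rfl⟩
  have hLlen : L.length ≤ 4 * n ^ 4 := by
    rw [hL, List.length_flatten, List.map_replicate, List.sum_replicate, smul_eq_mul]
    calc 4 * n ^ 2 * P.length ≤ 4 * n ^ 2 * n ^ 2 := Nat.mul_le_mul_left _ hlen
      _ = 4 * n ^ 4 := by ring
  have hLmem : ∀ p ∈ L, p.1 ≠ p.2 := by
    intro p hp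
    rw [hL, List.mem_flatten] at hp
    obtain ⟨l, hl, hpl⟩ := hp
    rw [List.mem_replicate] at hl
    rw [hl.2] at hpl
    exact (hmemP p).1 hpl
  refine ⟨L.length, fun k => L.get k, hLlen, fun k => hLmem _ (List.get_mem L k), ?_⟩
  intro F _ _ _ g
  obtain ⟨M, hM1, hM2, hM3⟩ := tv_list g
  obtain ⟨ts, h1, h2⟩ := RC2_list P (4 * n ^ 2) M hM1 (fun c hc => (hmemP _).2 (hM2 c hc))
  rw [← hL] at h1 h2
  refine ⟨fun k => ts.get (Fin.cast h1.symm k), ?_⟩
  rw [← hM3, ← h2]
  unfold phiP
  congr 1
  apply List.ext_getElem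
  · simp [h1]
  · intro i hi1 hi2
    simp
end Pool.Agent.BC5
end

section
set_option autoImplicit false
set_option linter.unusedSectionVars false
set_option linter.unusedVariables false
open scoped BigOperators Matrix
open Matrix
namespace Pool.Agent.BC5


variable {n : ℕ} {F : Type} [Field F] [Fintype F] [DecidableEq F]

/-- a matrix valued function of the parameters that is given by polynomials of degree at most `d` -/
def RC3_good {K M : ℕ} (d : ℕ) (f : (Fin M → Fin K → F) → Matrix (Fin n) (Fin n) F) : Prop :=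
  ∃ W : Matrix (Fin n) (Fin n) (MvPolynomial (Fin M × Fin K) F),
    (∀ i j, (W i j).totalDegree ≤ d) ∧ ∀ t : Fin M → Fin K → F,
      W.map (MvPolynomial.eval (fun u => t u.1 u.2)) = f t

theorem RC3_const {K M : ℕ} (A : Matrix (Fin n) (Fin n) F) :
    RC3_good (K := K) (M := M) 0 (fun _ => A) := by
  refine ⟨A.map MvPolynomial.C, fun i j => ?_, fun t => ?_⟩
  · rw [Matrix.map_apply, MvPolynomial.totalDegree_C]
  · ext i j
    simp [Matrix.map_apply]

theorem RC3_mul {K M : ℕ} {d e : ℕ} {f g : (Fin M → Fin K → F) → Matrix (Fin n) (Fin n) F}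
    (hf : RC3_good d f) (hg : RC3_good e g) : RC3_good (d + e) (fun t => f t * g t) := by
  obtain ⟨W, hW, hW'⟩ := hf
  obtain ⟨V, hV, hV'⟩ := hg
  refine ⟨W * V, fun i j => ?_, fun t => ?_⟩
  · rw [Matrix.mul_apply]
    refine MvPolynomial.totalDegree_finsetSum_le fun k _ => ?_
    exact (MvPolynomial.totalDegree_mul _ _).trans (Nat.add_le_add (hW i k) (hV k j))
  · show (W * V).map (MvPolynomial.eval (fun u => t u.1 u.2)) = f t * g t
    rw [← hW' t, ← hV' t]
    exact Matrix.map_mul

theorem RC3_tv {K M : ℕ} {i j : Fin n} (h : i ≠ j) (p : MvPolynomial (Fin M × Fin K) F)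
    (hp : p.totalDegree ≤ 1) :
    RC3_good 1 (fun t : Fin M → Fin K → F =>
      (tv i j (MvPolynomial.eval (fun u => t u.1 u.2) p) : SLn n F).1) := by
  refine ⟨1 + Matrix.single i j p, fun a b => ?_, fun t => ?_⟩
  · rw [Matrix.add_apply]
    refine (MvPolynomial.totalDegree_add _ _).trans (max_le ?_ ?_)
    · rw [Matrix.one_apply]
      split_ifs
      · rw [MvPolynomial.totalDegree_one]; exact Nat.zero_le _
      · rw [MvPolynomial.totalDegree_zero]; exact Nat.zero_le _
    · rw [Matrix.single_apply]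
      split_ifs
      · exact hp
      · rw [MvPolynomial.totalDegree_zero]; exact Nat.zero_le _
  · have h1 := tv_coe (F := F) h (MvPolynomial.eval (fun u => t u.1 u.2) p)
    refine Eq.trans ?_ h1.symm
    ext a b
    simp only [Matrix.map_apply, Matrix.add_apply, map_add]
    congr 1
    · rw [Matrix.one_apply, Matrix.one_apply]; split_ifs <;> simp
    · rw [Matrix.single_apply, Matrix.single_apply]; split_ifs <;> simp

theorem RC3_list {K M : ℕ} (pat : Fin K → Fin n × Fin n) (hpat : ∀ k, (pat k).1 ≠ (pat k).2) (i : Fin M)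
    (L : List (Fin K)) :
    RC3_good L.length (fun t : Fin M → Fin K → F =>
      ((L.map fun k => tv (pat k).1 (pat k).2 (t i k)).prod : SLn n F).1) := by
  induction L with
  | nil => exact RC3_const 1
  | cons k L ih =>
    have h1 := RC3_tv (F := F) (n := n) (M := M) (hpat k) (MvPolynomial.X (i, k))
      (MvPolynomial.totalDegree_X _).le
    have h2 := RC3_mul h1 ih
    rw [List.length_cons, Nat.add_comm]
    simpa [MvPolynomial.eval_X] using h2

theorem RC3_list_inv {K M : ℕ} (pat : Fin K → Fin n × Fin n) (hpat : ∀ k, (pat k).1 ≠ (pat k).2) (i : Fin M)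
    (L : List (Fin K)) :
    RC3_good L.length (fun t : Fin M → Fin K → F =>
      ((L.map fun k => tv (pat k).1 (pat k).2 (t i k)).prod⁻¹ : SLn n F).1) := by
  induction L with
  | nil =>
    have h1 := RC3_const (F := F) (K := K) (M := M) (1 : Matrix (Fin n) (Fin n) F)
    simpa using h1
  | cons k L ih =>
    have h1 := RC3_tv (F := F) (n := n) (M := M) (hpat k) (-MvPolynomial.X (i, k))
      (by rw [MvPolynomial.totalDegree_neg]; exact (MvPolynomial.totalDegree_X _).le)
    have h2 := RC3_mul ih h1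
    rw [List.length_cons]
    have h3 : ∀ t : Fin M → Fin K → F,
        (((k :: L).map fun k => tv (pat k).1 (pat k).2 (t i k)).prod⁻¹ : SLn n F).1 =
        (((L.map fun k => tv (pat k).1 (pat k).2 (t i k)).prod⁻¹ : SLn n F).1 : Matrix (Fin n) (Fin n) F) *
          (tv (pat k).1 (pat k).2 (MvPolynomial.eval (fun u : Fin M × Fin K => t u.1 u.2)
            (-MvPolynomial.X (i, k))) : SLn n F).1 := by
      intro t
      have h4 : (tv (pat k).1 (pat k).2 (t i k) : SLn n F)⁻¹ = tv (pat k).1 (pat k).2 (-(t i k)) := by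
        rw [inv_eq_iff_mul_eq_one]
        apply Subtype.ext
        have e1 := tv_coe (F := F) (hpat k) (t i k)
        have e2 := tv_coe (F := F) (hpat k) (-(t i k))
        rw [Matrix.SpecialLinearGroup.coe_mul, Matrix.SpecialLinearGroup.coe_one]
        refine (congrArg₂ (· * ·) e1 e2).trans ?_
        have e3 := Matrix.transvection_mul_transvection_same _ _ (hpat k) (t i k) (-(t i k))
        rw [add_neg_cancel, Matrix.transvection_zero] at e3
        exact e3
      rw [List.map_cons, List.prod_cons, _root_.mul_inv_rev, h4, map_neg, MvPolynomial.eval_X]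
      rfl
    rw [show (fun t : Fin M → Fin K → F =>
        (((k :: L).map fun k => tv (pat k).1 (pat k).2 (t i k)).prod⁻¹ : SLn n F).1) = _ from funext h3]
    exact h2

theorem word_poly {K M : ℕ} (pat : Fin K → Fin n × Fin n) (hpat : ∀ k, (pat k).1 ≠ (pat k).2) (x : Fin M → SLn n F)
    (γ : FreeGroup (Fin M)) : ∃ W : Matrix (Fin n) (Fin n) (MvPolynomial (Fin M × Fin K) F),
      (∀ i j, (W i j).totalDegree ≤ γ.norm * K) ∧ ∀ t : Fin M → Fin K → F,
        W.map (MvPolynomial.eval (fun u => t u.1 u.2)) = (FreeGroup.lift (fun i => x i * phiP pat (t i)) γ).1 := by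
  have hphi : ∀ s : Fin K → F, (phiP pat s : SLn n F) = ((List.finRange K).map fun k => tv (pat k).1 (pat k).2 (s k)).prod := by
    intro s
    unfold phiP
    rw [List.ofFn_eq_map]
  have hlen : (List.finRange K).length = K := List.length_finRange
  have hw : ∀ L : List (Fin M × Bool), RC3_good (L.length * K) (fun t : Fin M → Fin K → F =>
      (FreeGroup.lift (fun i => x i * phiP pat (t i)) (FreeGroup.mk L) : SLn n F).1) := by
    intro L
    induction L with
    | nil =>
      have h1 := RC3_const (F := F) (K := K) (M := M) (1 : Matrix (Fin n) (Fin n) F)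
      simpa using h1
    | cons c L ih =>
      have h1 : RC3_good K (fun t : Fin M → Fin K → F =>
          (cond c.2 (x c.1 * phiP pat (t c.1)) (x c.1 * phiP pat (t c.1))⁻¹ : SLn n F).1) := by
        obtain ⟨i, s⟩ := c
        cases s with
        | true =>
          have h2 := RC3_mul (RC3_const (K := K) (M := M) (x i).1) (RC3_list pat hpat i (List.finRange K))
          rw [hlen, Nat.zero_add] at h2
          simpa [hphi] using h2
        | false =>
          have h2 := RC3_mul (RC3_list_inv pat hpat i (List.finRange K)) (RC3_const (K := K) (M := M) ((x i)⁻¹).1)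
          rw [hlen, Nat.add_zero] at h2
          simpa [hphi, _root_.mul_inv_rev] using h2
      have h2 := RC3_mul h1 ih
      have h3 : (c :: L).length * K = K + L.length * K := by rw [List.length_cons]; ring
      rw [h3]
      have h4 : ∀ t : Fin M → Fin K → F,
          (FreeGroup.lift (fun i => x i * phiP pat (t i)) (FreeGroup.mk (c :: L)) : SLn n F).1 =
          (cond c.2 (x c.1 * phiP pat (t c.1)) (x c.1 * phiP pat (t c.1))⁻¹ : SLn n F).1 *
            (FreeGroup.lift (fun i => x i * phiP pat (t i)) (FreeGroup.mk L) : SLn n F).1 := by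
        intro t
        rw [FreeGroup.lift_mk, FreeGroup.lift_mk, List.map_cons, List.prod_cons]
        rfl
      rw [show (fun t : Fin M → Fin K → F =>
          (FreeGroup.lift (fun i => x i * phiP pat (t i)) (FreeGroup.mk (c :: L)) : SLn n F).1) = _ from funext h4]
      exact h2
  have h := hw γ.toWord
  rw [FreeGroup.mk_toWord] at h
  exact h

end Pool.Agent.BC5
end

section
set_option autoImplicit false
set_option linter.unusedSectionVars false
set_option linter.unusedVariables false
open scoped BigOperators Matrix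
open Matrix
namespace Pool.Agent.BC5


variable {n : ℕ} {F : Type} [Field F] [Fintype F] [DecidableEq F]

theorem RC4_pow_deg {σ : Type} (W : Matrix (Fin n) (Fin n) (MvPolynomial σ F)) (D : ℕ)
    (hW : ∀ i j, (W i j).totalDegree ≤ D) (k : ℕ) :
    ∀ i j, ((W ^ k) i j).totalDegree ≤ k * D := by
  induction k with
  | zero =>
    intro i j
    rw [pow_zero, Matrix.one_apply]
    split_ifs <;> simp
  | succ k ih =>
    intro i j
    rw [pow_succ, Matrix.mul_apply]
    apply (MvPolynomial.totalDegree_finsetSum _ _).trans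
    apply Finset.sup_le
    intro l _
    apply (MvPolynomial.totalDegree_mul _ _).trans
    have h1 := ih i l
    have h2 := hW l j
    calc _ ≤ k * D + D := Nat.add_le_add h1 h2
      _ = (k + 1) * D := by ring

theorem cyc_poly {σ : Type} (W : Matrix (Fin n) (Fin n) (MvPolynomial σ F)) (D : ℕ)
    (hW : ∀ i j, (W i j).totalDegree ≤ D) (v : Fin n → F) :
    ((cycM W (fun i => MvPolynomial.C (v i))).det).totalDegree ≤ n ^ 2 * D ∧
      ∀ t : σ → F, MvPolynomial.eval t (cycM W (fun i => MvPolynomial.C (v i))).det =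
        (cycM (W.map (MvPolynomial.eval t)) v).det := by
  constructor
  · have hent : ∀ i j : Fin n, (cycM W (fun i => MvPolynomial.C (v i)) i j).totalDegree ≤
        n * D := by
      intro i j
      unfold cycM
      rw [Matrix.of_apply]
      simp only [Matrix.mulVec, dotProduct]
      apply (MvPolynomial.totalDegree_finsetSum _ _).trans
      apply Finset.sup_le
      intro l _
      apply (MvPolynomial.totalDegree_mul _ _).trans
      rw [MvPolynomial.totalDegree_C, add_zero]
      exact (RC4_pow_deg W D hW _ i l).trans (Nat.mul_le_mul_right _ j.isLt.le)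
    rw [Matrix.det_apply]
    apply (MvPolynomial.totalDegree_finsetSum _ _).trans
    apply Finset.sup_le
    intro s _
    have h1 : (Equiv.Perm.sign s • ∏ i, cycM W (fun i => MvPolynomial.C (v i)) (s i) i).totalDegree
        ≤ (∏ i, cycM W (fun i => MvPolynomial.C (v i)) (s i) i).totalDegree := by
      rcases Int.units_eq_one_or (Equiv.Perm.sign s) with h | h
      · rw [h, one_smul]
      · rw [h, Units.neg_smul, one_smul, MvPolynomial.totalDegree_neg]
    apply h1.trans
    apply (MvPolynomial.totalDegree_finsetProd _ _).trans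
    calc _ ≤ ∑ i : Fin n, n * D := Finset.sum_le_sum (fun i _ => hent _ _)
      _ = n ^ 2 * D := by
        rw [Finset.sum_const, Finset.card_univ, Fintype.card_fin, smul_eq_mul]; ring
  · intro t
    rw [RingHom.map_det]
    congr 1
    ext i j
    unfold cycM
    rw [RingHom.mapMatrix_apply, Matrix.map_apply, Matrix.of_apply, Matrix.of_apply]
    have h1 : (W.map (MvPolynomial.eval t)) ^ (j : ℕ) = (W ^ (j : ℕ)).map (MvPolynomial.eval t) := by
      have := map_pow (RingHom.mapMatrix (m := Fin n) (MvPolynomial.eval t)) W (j : ℕ)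
      simpa [RingHom.mapMatrix_apply] using this.symm
    rw [h1]
    simp only [Matrix.mulVec, dotProduct, map_sum, map_mul, MvPolynomial.eval_C, Matrix.map_apply]

theorem sz_frac {σ : Type} [Fintype σ] [DecidableEq σ] (p : MvPolynomial σ F) (hp : ∃ t : σ → F, MvPolynomial.eval t p ≠ 0) :
    frac (fun t : σ → F => MvPolynomial.eval t p = 0) ≤ (p.totalDegree : ℝ) / (Fintype.card F : ℝ) := by
  classical
  let e : σ ≃ Fin (Fintype.card σ) := Fintype.equivFin σ
  let q : MvPolynomial (Fin (Fintype.card σ)) F := MvPolynomial.renameEquiv F e p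
  have hq : q ≠ 0 := by
    intro h0
    obtain ⟨t, ht⟩ := hp
    apply ht
    have : p = 0 := by
      apply (MvPolynomial.renameEquiv F e).injective
      rw [map_zero]; exact h0
    rw [this, map_zero]
  have hdeg : q.totalDegree = p.totalDegree := MvPolynomial.totalDegree_renameEquiv e p
  have hev : ∀ s : Fin (Fintype.card σ) → F, MvPolynomial.eval s q = MvPolynomial.eval (s ∘ e) p := by
    intro s
    show MvPolynomial.eval s (MvPolynomial.rename e p) = _
    rw [MvPolynomial.eval_rename]
  have hz := MvPolynomial.schwartz_zippel_totalDegree hq (Finset.univ : Finset F)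
  rw [hdeg] at hz
  have hc : (Finset.univ.filter (fun t : σ → F => MvPolynomial.eval t p = 0)).card =
      (Finset.filter (fun f => MvPolynomial.eval f q = 0)
        (Fintype.piFinset fun _ : Fin (Fintype.card σ) => (Finset.univ : Finset F))).card := by
    apply Finset.card_bij' (fun t _ => fun i => t (e.symm i)) (fun s _ => fun i => s (e i))
    · intro t ht
      simp only [Finset.mem_filter, Finset.mem_univ, true_and, Fintype.mem_piFinset,
        implies_true] at ht ⊢
      rw [hev]
      have : ((fun i => t (e.symm i)) ∘ e) = t := by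
        funext i; simp
      rw [this]; exact ht
    · intro s hs
      simp only [Finset.mem_filter, Finset.mem_univ, true_and, Fintype.mem_piFinset,
        implies_true] at hs ⊢
      rw [hev] at hs
      exact hs
    · intro t _; funext i; simp
    · intro s _; funext i; simp
  have hR : ((Finset.univ.filter (fun t : σ → F => MvPolynomial.eval t p = 0)).card : ℝ) /
      ((Fintype.card F : ℝ) ^ (Fintype.card σ)) ≤ (p.totalDegree : ℝ) / (Fintype.card F : ℝ) := by
    rw [hc]
    have h2 : (((Finset.filter (fun f => MvPolynomial.eval f q = 0)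
        (Fintype.piFinset fun _ : Fin (Fintype.card σ) => (Finset.univ : Finset F))).card /
          ((Finset.univ : Finset F).card ^ (Fintype.card σ) : ℚ≥0) : ℚ≥0) : ℝ) ≤
        ((p.totalDegree / (Finset.univ : Finset F).card : ℚ≥0) : ℝ) := by
      exact_mod_cast hz
    push_cast at h2
    rw [Finset.card_univ] at h2
    exact h2
  have hfr : frac (fun t : σ → F => MvPolynomial.eval t p = 0) =
      ((Finset.univ.filter (fun t : σ → F => MvPolynomial.eval t p = 0)).card : ℝ) /
      ((Fintype.card F : ℝ) ^ (Fintype.card σ)) := by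
    unfold frac avg
    rw [Fintype.card_fun, smul_eq_mul, div_eq_inv_mul]
    have h3 : (∑ t : σ → F, (if MvPolynomial.eval t p = 0 then (1 : ℝ) else 0)) =
        ((Finset.univ.filter (fun t : σ → F => MvPolynomial.eval t p = 0)).card : ℝ) := by
      rw [Finset.sum_boole]
    push_cast
    rw [← h3]
    congr 1
    apply Finset.sum_congr rfl
    intro t _
    congr
  rw [hfr]
  exact hR

theorem RC4_avg_comm {α β : Type} [Fintype α] [Fintype β] (f : α → β → ℝ) :
    avg (fun a => avg (fun b => f a b)) = avg (fun b => avg (fun a => f a b)) := by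
  unfold avg
  simp only [smul_eq_mul, Finset.mul_sum]
  rw [Finset.sum_comm]
  apply Finset.sum_congr rfl
  intro b _
  apply Finset.sum_congr rfl
  intro a _
  ring

theorem frac_translate {G : Type} [Group G] [Fintype G] {M K : ℕ} (φ : (Fin K → F) → G) (Bad : (Fin M → G) → Prop) (b : ℝ)
    (h : ∀ x : Fin M → G, frac (fun t : Fin M → Fin K → F => Bad (fun i => x i * φ (t i))) ≤ b) : frac Bad ≤ b := by
  classical
  have h1 : ∀ t : Fin M → Fin K → F, frac (fun x : Fin M → G => Bad (fun i => x i * φ (t i))) = frac Bad := by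
    intro t
    have := avg_equiv (α := Fin M → G) (β := Fin M → G)
      (Equiv.piCongrRight fun i => Equiv.mulRight (φ (t i)))
      (fun x => if Bad x then (1 : ℝ) else 0)
    exact this
  have h2 : frac Bad = avg (fun t : Fin M → Fin K → F => frac (fun x : Fin M → G => Bad (fun i => x i * φ (t i)))) := by
    simp only [h1]
    rw [avg_const]
  rw [h2]
  unfold frac
  rw [RC4_avg_comm]
  apply avg_le_of_le
  intro x
  exact h x

end Pool.Agent.BC5
end

section
set_option autoImplicit false
set_option linter.unusedSectionVars false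
set_option linter.unusedVariables false
open scoped BigOperators Matrix
open Matrix
namespace Pool.Agent.BC5


variable {n : ℕ} {F : Type} [Field F] [Fintype F] [DecidableEq F]


theorem frac_noncyc {M : ℕ} (γ : FreeGroup (Fin M))
    (hgood : ∃ x : Fin M → SLn n F, (cycM (FreeGroup.lift x γ).1 (evv F n)).det ≠ 0) :
    frac (fun x : Fin M → SLn n F => (cycM (FreeGroup.lift x γ).1 (evv F n)).det = 0)
      ≤ 4 * (n : ℝ) ^ 6 * γ.norm / (Fintype.card F : ℝ) := by
  classical
  obtain ⟨K, pat, hK, hpat, hall⟩ := exists_pattern n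
  have hF : (0:ℝ) < (Fintype.card F : ℝ) := by exact_mod_cast Fintype.card_pos
  refine frac_translate (phiP (F := F) pat)
    (fun x : Fin M → SLn n F => (cycM (FreeGroup.lift x γ).1 (evv F n)).det = 0) _ ?_
  intro x
  obtain ⟨W, hWd, hWe⟩ := word_poly pat hpat x γ
  obtain ⟨hdeg, hev⟩ := cyc_poly W (γ.norm * K) hWd (evv F n)
  generalize hp : (cycM W (fun i => MvPolynomial.C (evv F n i))).det = p at hdeg hev
  have key : ∀ t : Fin M → Fin K → F,
      MvPolynomial.eval (fun u : Fin M × Fin K => t u.1 u.2) p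
        = (cycM (FreeGroup.lift (fun i => x i * phiP pat (t i)) γ).1 (evv F n)).det := by
    intro t
    rw [hev, hWe]
  have hne : ∃ t : Fin M × Fin K → F, MvPolynomial.eval t p ≠ 0 := by
    obtain ⟨x0, hx0⟩ := hgood
    choose t ht using fun i => hall F ((x i)⁻¹ * x0 i)
    refine ⟨fun u => t u.1 u.2, ?_⟩
    rw [key]
    have hx : (fun i => x i * phiP pat (t i)) = x0 := by
      funext i
      rw [ht]
      group
    rw [hx]
    exact hx0
  have h1 := sz_frac p hne
  have h2 : frac (fun t : Fin M → Fin K → F =>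
      (cycM (FreeGroup.lift (fun i => x i * phiP pat (t i)) γ).1 (evv F n)).det = 0)
      = frac (fun t : Fin M × Fin K → F => MvPolynomial.eval t p = 0) := by
    rw [← frac_equiv (Equiv.curry (Fin M) (Fin K) F) (fun t : Fin M → Fin K → F =>
      (cycM (FreeGroup.lift (fun i => x i * phiP pat (t i)) γ).1 (evv F n)).det = 0)]
    congr 1
    funext t
    rw [← key]
    rfl
  show frac (fun t : Fin M → Fin K → F =>
      (cycM (FreeGroup.lift (fun i => x i * phiP pat (t i)) γ).1 (evv F n)).det = 0) ≤ _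
  rw [h2]
  refine h1.trans ?_
  gcongr
  have h3 : p.totalDegree ≤ 4 * n ^ 6 * γ.norm := by
    calc p.totalDegree ≤ n ^ 2 * (γ.norm * K) := hdeg
      _ ≤ n ^ 2 * (γ.norm * (4 * n ^ 4)) := by gcongr
      _ = 4 * n ^ 6 * γ.norm := by ring
  exact_mod_cast h3

end Pool.Agent.BC5
end

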