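import Pool.Agent.Lib.MP_bc5a73_al.SlBlocks
import Pool.Agent.Lib.MP_bc5a73_al.SlLongWords
import Pool.Agent.Lib.MP_bc5a73_al.SlGoodPoint
import Pool.Agent.Lib.MP_bc5a73_al.Criterion
import Pool.Agent.Lib.MP_bc5a73_al.SlFinal

section
set_option autoImplicit false
set_option linter.unusedSectionVars false
set_option linter.unusedVariables false
open scoped BigOperators Matrix
open Matrix
namespace Pool.Agent.BC5


theorem RE1_log_le {x : ℝ} (hx : (28 : ℝ) ^ 28 ≤ x) : Real.log x ^ 7 ≤ x ^ (1 / 2 : ℝ) := by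
  have hx0 : 0 < x := lt_of_lt_of_le (by norm_num) hx
  have h1 := Real.log_le_rpow_div hx0.le (by norm_num : (0 : ℝ) < 1 / 28)
  have h2 : (28 : ℝ) ≤ x ^ (1 / 28 : ℝ) := by
    have h3 : ((28 : ℝ) ^ 28) ^ (1 / 28 : ℝ) = 28 := by
      rw [← Real.rpow_natCast, ← Real.rpow_mul (by norm_num)]
      norm_num
    calc (28 : ℝ) = ((28 : ℝ) ^ 28) ^ (1 / 28 : ℝ) := h3.symm
      _ ≤ x ^ (1 / 28 : ℝ) := Real.rpow_le_rpow (by norm_num) hx (by norm_num)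
  have h4 : (x ^ (1 / 28 : ℝ)) ^ 14 = x ^ (1 / 2 : ℝ) := by
    rw [← Real.rpow_natCast, ← Real.rpow_mul hx0.le]
    norm_num
  have h5 : 0 ≤ Real.log x := Real.log_nonneg (le_trans (by norm_num) hx)
  have h6 : Real.log x ≤ (x ^ (1 / 28 : ℝ)) ^ 2 := by
    have h7 : x ^ (1 / 28 : ℝ) / (1 / 28) = x ^ (1 / 28 : ℝ) * 28 := by ring
    rw [h7] at h1
    refine h1.trans ?_
    rw [sq]
    exact mul_le_mul_of_nonneg_left h2 (by positivity)
  calc Real.log x ^ 7 ≤ ((x ^ (1 / 28 : ℝ)) ^ 2) ^ 7 := pow_le_pow_left₀ h5 h6 7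
    _ = x ^ (1 / 2 : ℝ) := by rw [← pow_mul, h4]

theorem RE1_T (q : ℕ) (hq : 1 ≤ q) : 8 * ((Nat.log 2 q / 64 : ℕ) : ℝ) ≤ Real.log q := by
  have h1 : (2 : ℕ) ^ (Nat.log 2 q) ≤ q := Nat.pow_log_le_self 2 (by omega)
  have h2 : ((2 : ℝ) ^ (Nat.log 2 q)) ≤ q := by exact_mod_cast h1
  have h3 := Real.log_le_log (by positivity) h2
  rw [Real.log_pow] at h3
  have h4 := Real.log_two_gt_d9
  have h5 : 16 * (Nat.log 2 q / 64) ≤ Nat.log 2 q := by omega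
  have h6 : (16 : ℝ) * ((Nat.log 2 q / 64 : ℕ) : ℝ) ≤ (Nat.log 2 q : ℝ) := by exact_mod_cast h5
  have h7 : (0 : ℝ) ≤ ((Nat.log 2 q / 64 : ℕ) : ℝ) := Nat.cast_nonneg _
  nlinarith

theorem RE1_b (q : ℕ) (hq : 1 ≤ q) : (q : ℝ) ^ (-(1 / 4 : ℝ)) ≤ (1 / 2 : ℝ) ^ (16 * (Nat.log 2 q / 64)) := by
  generalize hT : Nat.log 2 q / 64 = T
  have h1 : (2 : ℕ) ^ (64 * T) ≤ q := by
    refine le_trans (Nat.pow_le_pow_right (by norm_num) ?_) (Nat.pow_log_le_self 2 (by omega))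
    omega
  have h2 : ((2 : ℝ) ^ (64 * T)) ≤ q := by exact_mod_cast h1
  have h3 : (q : ℝ) ^ (-(1 / 4 : ℝ)) ≤ ((2 : ℝ) ^ (64 * T)) ^ (-(1 / 4 : ℝ)) :=
    Real.rpow_le_rpow_of_nonpos (by positivity) h2 (by norm_num)
  refine h3.trans (le_of_eq ?_)
  rw [← Real.rpow_natCast, ← Real.rpow_mul (by norm_num)]
  have h4 : (1 / 2 : ℝ) ^ (16 * T) = (2 : ℝ) ^ (-((16 * T : ℕ) : ℝ)) := by
    rw [Real.rpow_neg (by norm_num), Real.rpow_natCast, one_div, inv_pow]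
  rw [h4]
  congr 1
  push_cast
  ring

theorem RE1_hq (T : ℕ) (hT : 1 ≤ T) (b : ℝ) (hb : b ≤ (1 / 2 : ℝ) ^ (16 * T)) :
    4 ^ T * ((1 / 1280 : ℝ) ^ T + b + b) ≤ (1 / 2 : ℝ) ^ T := by
  have h1 : (1 / 1280 : ℝ) ^ T ≤ (1 / 32) ^ T := pow_le_pow_left₀ (by norm_num) (by norm_num) T
  have h2 : (1 / 2 : ℝ) ^ (16 * T) ≤ (1 / 32) ^ T := by
    rw [pow_mul]
    exact pow_le_pow_left₀ (by norm_num) (by norm_num) T
  have h3 : (1 / 4 : ℝ) ^ T ≤ 1 / 4 := by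
    calc (1 / 4 : ℝ) ^ T ≤ (1 / 4 : ℝ) ^ 1 := pow_le_pow_of_le_one (by norm_num) (by norm_num) hT
      _ = 1 / 4 := by norm_num
  have h4 : (4 : ℝ) ^ T * (1 / 32 : ℝ) ^ T = (1 / 4 : ℝ) ^ T * (1 / 2 : ℝ) ^ T := by
    rw [← mul_pow, ← mul_pow]
    norm_num
  have h5 : (0 : ℝ) < (1 / 2 : ℝ) ^ T := by positivity
  calc (4 : ℝ) ^ T * ((1 / 1280 : ℝ) ^ T + b + b) ≤ 4 ^ T * (3 * (1 / 32) ^ T) :=
        mul_le_mul_of_nonneg_left (by linarith) (by positivity)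
    _ = 3 * ((1 / 4 : ℝ) ^ T * (1 / 2 : ℝ) ^ T) := by rw [← h4]; ring
    _ ≤ (1 / 2 : ℝ) ^ T := by nlinarith

theorem start_A : ∃ Q0 : ℕ, 1024 ≤ Q0 ∧ ∀ (n : ℕ) (F : Type) [Field F] [Fintype F] [DecidableEq F], 2 ≤ n →
    Q0 ≤ Fintype.card F → (n : ℝ) ≤ Real.log (Fintype.card F) → ∀ N : ℕ,
    frac (fun x : Fin N × Fin 2560 → SLn n F => ¬ ∀ E : Matrix (SLn n F) (SLn n F) ℝ, IsBlock E → E ≠ Jm (SLn n F) →
      StartP x E (1 / 2) 1 ((1 / 2 : ℝ) ^ (Nat.log 2 (Fintype.card F) / 64)))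
      ≤ 2 ^ N * (Fintype.card F : ℝ) ^ (-(1 / 4 : ℝ)) := by
  refine ⟨28 ^ 28, by norm_num, ?_⟩
  intro n F _ _ _ hn hQ hnl N
  have h1024 : 1024 ≤ Fintype.card F := le_trans (by norm_num) hQ
  have hQr : (28 : ℝ) ^ 28 ≤ (Fintype.card F : ℝ) := by exact_mod_cast hQ
  have hq0 : (0 : ℝ) < (Fintype.card F : ℝ) := lt_of_lt_of_le (by norm_num) hQr
  have hq1 : (1 : ℝ) < (Fintype.card F : ℝ) := lt_of_lt_of_le (by norm_num) hQr
  have h7 := RE1_log_le hQr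
  have hT := RE1_T (Fintype.card F) (by omega)
  have hb := RE1_b (Fintype.card F) (by omega)
  have hT1 : 1 ≤ Nat.log 2 (Fintype.card F) / 64 := by
    have h1 : 64 ≤ Nat.log 2 (Fintype.card F) :=
      Nat.le_log_of_pow_le (by norm_num) (le_trans (by norm_num) hQ)
    omega
  have hlog : 2 ≤ Real.log (Fintype.card F) := by
    rw [Real.le_log_iff_exp_le hq0]
    have h1 := Real.exp_one_lt_d9
    have h2 : Real.exp 2 = Real.exp 1 ^ 2 := by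
      rw [← Real.exp_nat_mul]
      norm_num
    rw [h2]
    have h3 : Real.exp 1 ^ 2 ≤ 28 ^ 2 := pow_le_pow_left₀ (Real.exp_pos 1).le (by linarith) 2
    exact h3.trans (le_trans (by norm_num) hQr)
  generalize hTd : Nat.log 2 (Fintype.card F) / 64 = T at hT hb hT1 ⊢
  -- bounds on the words
  have hlt : (Fintype.card F : ℝ) ^ (1 / 2 : ℝ) < (Fintype.card F : ℝ) := by
    calc (Fintype.card F : ℝ) ^ (1 / 2 : ℝ) < (Fintype.card F : ℝ) ^ (1 : ℝ) :=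
          Real.rpow_lt_rpow_of_exponent_lt hq1 (by norm_num)
      _ = (Fintype.card F : ℝ) := Real.rpow_one _
  obtain ⟨L, hL⟩ : ∃ L, L = Real.log (Fintype.card F) := ⟨_, rfl⟩
  rw [← hL] at h7 hT hlog hnl
  have hwords : ∀ M : ℕ, ∀ γ : FreeGroup (Fin M), γ ≠ 1 → γ.norm ≤ 2 * T →
      frac (fun x : Fin M → SLn n F => (cycM (FreeGroup.lift x γ).1 (evv F n)).det = 0)
        ≤ (Fintype.card F : ℝ) ^ (-(1 / 2 : ℝ)) := by
    intro M γ hγ hγT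
    have hγr : (γ.norm : ℝ) ≤ L := by
      have h1 : (γ.norm : ℝ) ≤ 2 * (T : ℝ) := by exact_mod_cast hγT
      have h2 : (0 : ℝ) ≤ (T : ℝ) := Nat.cast_nonneg T
      linarith
    have hγ0 : (0 : ℝ) ≤ (γ.norm : ℝ) := Nat.cast_nonneg _
    have hn0 : (0 : ℝ) ≤ (n : ℝ) := Nat.cast_nonneg _
    have hgood := exists_good (F := F) hn γ hγ (by
      have h1 : (((n + 2) * γ.norm : ℕ) : ℝ) < (Fintype.card F : ℝ) := by
        push_cast
        calc ((n : ℝ) + 2) * (γ.norm : ℝ) ≤ (L + L) * L :=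
              mul_le_mul (by linarith) hγr hγ0 (by linarith)
          _ = 2 * L ^ 2 := by ring
          _ ≤ L ^ 5 * L ^ 2 := by
              apply mul_le_mul_of_nonneg_right _ (by positivity)
              calc (2 : ℝ) ≤ 2 ^ 5 := by norm_num
                _ ≤ L ^ 5 := pow_le_pow_left₀ (by norm_num) hlog 5
          _ = L ^ 7 := by ring
          _ ≤ (Fintype.card F : ℝ) ^ (1 / 2 : ℝ) := h7
          _ < (Fintype.card F : ℝ) := hlt
      exact_mod_cast h1)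
    refine (frac_noncyc γ hgood).trans ?_
    have hγs : 4 * (γ.norm : ℝ) ≤ L := by
      have h1 : (γ.norm : ℝ) ≤ 2 * (T : ℝ) := by exact_mod_cast hγT
      linarith
    have h8 : 4 * (n : ℝ) ^ 6 * γ.norm ≤ (Fintype.card F : ℝ) ^ (1 / 2 : ℝ) := by
      calc 4 * (n : ℝ) ^ 6 * γ.norm = (n : ℝ) ^ 6 * (4 * γ.norm) := by ring
        _ ≤ L ^ 6 * L := mul_le_mul (pow_le_pow_left₀ hn0 hnl 6) hγs (by positivity) (by positivity)
        _ = L ^ 7 := by ring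
        _ ≤ (Fintype.card F : ℝ) ^ (1 / 2 : ℝ) := h7
    refine (div_le_div_of_nonneg_right h8 hq0.le).trans (le_of_eq ?_)
    rw [div_eq_iff hq0.ne']
    nth_rewrite 3 [← Real.rpow_one (Fintype.card F : ℝ)]
    rw [← Real.rpow_add hq0]
    norm_num
  have hfin := start_all (G := SLn n F) (N := N) T T (fun g => (cycM g.1 (evv F n)).det = 0)
    ((Fintype.card F : ℝ) ^ (-(1 / 2 : ℝ))) ((Fintype.card F : ℝ) ^ (-(1 / 4 : ℝ)))
    ((Fintype.card F : ℝ) ^ (-(1 / 4 : ℝ))) (by positivity) (by positivity) (by positivity) hwords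
    (fun E hE hEJ g hg => char_reg hn h1024 g (evv F n) hg hE hEJ)
    (RE1_hq T hT1 _ hb)
  refine hfin.trans (le_of_eq ?_)
  congr 1
  rw [← Real.rpow_sub hq0]
  norm_num

end Pool.Agent.BC5
end

section
set_option autoImplicit false
set_option linter.unusedSectionVars false
set_option linter.unusedVariables false
open scoped BigOperators Matrix
open Matrix
namespace Pool.Agent.BC5


theorem start_B : ∃ n0 : ℕ, 2400 ≤ n0 ∧ ∀ (n : ℕ) (F : Type) [Field F] [Fintype F] [DecidableEq F], n0 ≤ n → ∀ N : ℕ,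
    frac (fun x : Fin N × Fin 2560 → SLn n F => ¬ ∀ E : Matrix (SLn n F) (SLn n F) ℝ, IsBlock E → E ≠ Jm (SLn n F) →
      StartP x E (1 / 2) 1 ((1 / 2 : ℝ) ^ (n / 2400)))
      ≤ 2 ^ N * (Fintype.card F : ℝ) ^ (-((n : ℝ) / 600)) := by
  obtain ⟨n1, hn1⟩ := crit_num1 (1 / 300) 4 (by norm_num) (by norm_num) (by norm_num)
  obtain ⟨n2, hchar⟩ := char_SL
  refine ⟨max n1 (max n2 2400), le_max_of_le_right (le_max_right _ _), ?_⟩
  intro n F _ _ _ hn N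
  have hn1' : n1 ≤ n := le_trans (le_max_left _ _) hn
  have hn2' : n2 ≤ n := le_trans (le_trans (le_max_left _ _) (le_max_right _ _)) hn
  have hn3 : 2400 ≤ n := le_trans (le_trans (le_max_right _ _) (le_max_right _ _)) hn
  have hn8 : 8 ≤ n := by omega
  have hq : 2 ≤ Fintype.card F := Fintype.one_lt_card
  have hqR : (2 : ℝ) ≤ (Fintype.card F : ℝ) := by exact_mod_cast hq
  have hq1 : (1 : ℝ) ≤ (Fintype.card F : ℝ) := by linarith
  have hq0 : (0 : ℝ) < (Fintype.card F : ℝ) := by linarith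
  have hnR : (2400 : ℝ) ≤ (n : ℝ) := by exact_mod_cast hn3
  have hfl : ⌊(1 / 300 : ℝ) * (n : ℝ) / 8⌋₊ = n / 2400 := by
    have e : (1 / 300 : ℝ) * (n : ℝ) / 8 = (n : ℝ) / (2400 : ℕ) := by push_cast; ring
    rw [e, Nat.floor_div_natCast, Nat.floor_natCast]
  obtain ⟨hnum, -⟩ := hn1 n (Fintype.card F) hn1' hq
  rw [hfl] at hnum
  have hfrac : ∀ M : ℕ, ∀ γ : FreeGroup (Fin M), γ ≠ 1 → γ.norm ≤ 2 * (n / 2400) →
      frac (fun x : Fin M → SLn n F => BadSL (FreeGroup.lift x γ)) ≤ (Fintype.card F : ℝ) ^ (-(1 / 300 * (n : ℝ))) := by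
    intro M γ hγ hγn
    have ht : γ.norm ≤ n / 300 := by omega
    refine (frac_bad γ hγ ht (by omega) hn8).trans ?_
    rw [div_le_iff₀ (by positivity), ← Real.rpow_natCast, ← Real.rpow_natCast, ← Real.rpow_add hq0]
    have h4 : (4 : ℝ) ≤ (Fintype.card F : ℝ) ^ (2 : ℝ) := by
      rw [Real.rpow_two]
      nlinarith
    calc 4 * (Fintype.card F : ℝ) ^ ((n / 300 : ℕ) : ℝ)
        ≤ (Fintype.card F : ℝ) ^ (2 : ℝ) * (Fintype.card F : ℝ) ^ ((n / 300 : ℕ) : ℝ) :=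
          mul_le_mul_of_nonneg_right h4 (Real.rpow_nonneg hq0.le _)
      _ = (Fintype.card F : ℝ) ^ ((2 : ℝ) + ((n / 300 : ℕ) : ℝ)) := by rw [Real.rpow_add hq0]
      _ ≤ _ := by
        refine Real.rpow_le_rpow_of_exponent_le hq1 ?_
        have h5 : ((n / 300 : ℕ) : ℝ) ≤ (n : ℝ) / 300 := Nat.cast_div_le
        have h6 : (n : ℝ) ≤ 2 * ((n / 2 : ℕ) : ℝ) + 1 := by
          have : n ≤ 2 * (n / 2) + 1 := by omega
          exact_mod_cast this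
        linarith
  have hst := start_all (N := N) (G := SLn n F) (n / 2400) (n / 2400) BadSL
    ((Fintype.card F : ℝ) ^ (-(1 / 300 * (n : ℝ)))) (Real.exp (-(1 / 300 * (n : ℝ))))
    ((2 : ℝ) ^ (-(1 / 300 * (n : ℝ) / 2))) (Real.rpow_nonneg hq0.le _) (Real.exp_pos _).le
    (Real.rpow_pos_of_pos (by norm_num) _) hfrac
    (fun E hE hEJ g hg => hchar n hn2' F E hE hEJ g hg) hnum
  refine hst.trans (mul_le_mul_of_nonneg_left ?_ (by positivity))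
  have hb : (Fintype.card F : ℝ) ^ (-(1 / 300 * (n : ℝ) / 2)) ≤ (2 : ℝ) ^ (-(1 / 300 * (n : ℝ) / 2)) :=
    Real.rpow_le_rpow_of_nonpos (by norm_num) hqR (by linarith)
  rw [div_le_iff₀ (Real.rpow_pos_of_pos (by norm_num) _)]
  calc (Fintype.card F : ℝ) ^ (-(1 / 300 * (n : ℝ)))
      = (Fintype.card F : ℝ) ^ (-((n : ℝ) / 600)) * (Fintype.card F : ℝ) ^ (-(1 / 300 * (n : ℝ) / 2)) := by
        rw [← Real.rpow_add hq0]
        congr 1
        ring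
    _ ≤ _ := mul_le_mul_of_nonneg_left hb (Real.rpow_nonneg hq0.le _)

end Pool.Agent.BC5
end

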