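import Pool.Agent.Lib.MP_bc5a73_al.RankStep
import Pool.Agent.Lib.MP_bc5a73_al.RankNum
import Pool.Agent.Lib.MP_bc5a73_al.SlStart
import Pool.Agent.Lib.MP_bc5a73_al.SlClasses2
import Pool.Agent.Lib.MP_bc5a73_al.SlDegree
import Pool.Agent.Lib.MP_bc5a73_al.FinalGen
import Pool.Agent.Lib.MP_bc5a73_al.SlFinal

section
set_option autoImplicit false
set_option linter.unusedSectionVars false
set_option linter.unusedVariables false
open scoped BigOperators Matrix
open Matrix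
namespace Pool.Agent.BC5


theorem RF1_QR (n : ℕ) (hn : 2 ≤ n) (F : Type) [Field F] [Fintype F] [DecidableEq F] :
    QR (SLn n F) (((Fintype.card F ^ (n - 1) - 1) / 2 : ℕ) : ℝ) := by
  intro P hP hC hne hJ
  have hq : 1 ≤ Fintype.card F := Fintype.card_pos
  have hqn : 1 ≤ Fintype.card F ^ (n - 1) := Nat.one_le_pow _ _ hq
  have h1 : (((Fintype.card F ^ (n - 1) - 1) / 2 : ℕ) : ℝ) ≤ ((Fintype.card F : ℝ) ^ (n - 1) - 1) / 2 := by
    have h2 := @Nat.cast_div_le ℝ _ _ _ (Fintype.card F ^ (n - 1) - 1) 2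
    rw [Nat.cast_sub hqn] at h2
    push_cast at h2
    exact h2
  refine h1.trans ?_
  rcases Nat.lt_or_ge n 3 with h3 | h3
  · have hn2 : n = 2 := by omega
    subst hn2
    have h4 := QR_SL_two (F := F) P hP hC hne hJ
    have h5 : (Fintype.card F : ℝ) ^ (2 - 1) = (Fintype.card F : ℝ) := by norm_num
    rw [h5]
    exact h4
  · have h4 := QR_SL_big (F := F) h3 P hP hC hne hJ
    have h5 : (1 : ℝ) ≤ (Fintype.card F : ℝ) ^ (n - 1) := by exact_mod_cast hqn
    linarith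

theorem rank_core (B : ℕ) : ∃ C : ℝ, 1 ≤ C ∧ ∃ L0 : ℕ, 2600 ≤ L0 ∧ ∀ (n : ℕ) (F : Type) [Field F] [Fintype F] [DecidableEq F],
    2 ≤ n → ∀ (lam a : ℕ) (δ1 : ℝ), lam = Nat.log 2 ((Fintype.card F ^ (n - 1) - 1) / 2) → 10 ≤ a → L0 ≤ lam → 4 * a + 40 ≤ lam →
    lam ≤ B * n * a →
    (∀ N : ℕ, (N : ℝ) ≤ C * Real.log n → frac (fun x : Fin N × Fin 2560 → SLn n F => ¬ ∀ E : Matrix (SLn n F) (SLn n F) ℝ, IsBlock E → E ≠ Jm (SLn n F) →
      StartP x E (1 / 2) 1 ((1 / 2 : ℝ) ^ (a + 10)))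
      ≤ δ1) → ∀ m : ℕ, 2560 * C * Real.log n ≤ m →
    (1 - (δ1 + (1 / 2 : ℝ) ^ lam)) * (Nat.card (SLn n F) : ℝ) ^ m ≤
        (Nat.card {x : Fin m → SLn n F // ∀ A : Set (SLn n F), 2 * Nat.card A ≤ Nat.card (SLn n F) →
            1 / 8 * (Nat.card A : ℝ) ≤
              (Nat.card {g : SLn n F // g ∉ A ∧ ∃ a ∈ A, ∃ i : Fin m, g = a * x i ∨ g = a * (x i)⁻¹} : ℝ)} : ℝ) := by
  obtain ⟨C, hC, L0, hL0, hnum⟩ := rank_num B
  refine ⟨C, hC, L0, hL0, ?_⟩
  intro n F _ _ _ hn lam a δ1 hlam ha hLam h4a hB hst m hm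
  have hq : 2 ≤ Fintype.card F := Fintype.one_lt_card
  have hqn : 1 ≤ Fintype.card F ^ (n - 1) := Nat.one_le_pow _ _ (by omega)
  have hlam1 : 2600 ≤ lam := hL0.trans hLam
  have hd0 : (Fintype.card F ^ (n - 1) - 1) / 2 ≠ 0 := by
    intro h0
    rw [h0, Nat.log_zero_right] at hlam
    omega
  have hd1 : 2 ^ lam ≤ (Fintype.card F ^ (n - 1) - 1) / 2 := by
    rw [hlam]
    exact Nat.pow_log_le_self 2 hd0
  have hd2 : (Fintype.card F ^ (n - 1) - 1) / 2 < 2 ^ (lam + 1) := by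
    rw [hlam]
    exact Nat.lt_pow_succ_log_self (by norm_num) _
  have hq2 : Fintype.card F ^ (n - 1) ≤ 2 ^ (lam + 2) := by
    have h1 : 2 ^ (lam + 2) = 2 * 2 ^ (lam + 1) := by ring
    rw [h1]
    omega
  obtain ⟨N, h, I, J, hh, hN8, hJ1, hJ2, h640, hN, hG, hNC, hfin⟩ :=
    hnum n (Fintype.card F) lam a (kc (SLn n F)) (Fintype.card (SLn n F)) hn hq ha hLam hq2 h4a hB
      (kc_SL_le2 n (by omega) F) (card_SL_le n F)
  have hdl : (2 : ℝ) ^ lam ≤ (((Fintype.card F ^ (n - 1) - 1) / 2 : ℕ) : ℝ) := by exact_mod_cast hd1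
  have h1 := norm_all2 (N := N) (RF1_QR n hn F) lam (by omega) hdl h I J a hh hN8 hJ1 hJ2 h640 hN hG (hst N hNC)
  have h2 := h1.trans (add_le_add (le_refl δ1) hfin)
  have h3 : 2560 * N ≤ m := by
    have h4 : (2560 : ℝ) * N ≤ m := by
      have h5 : (2560 : ℝ) * N ≤ 2560 * (C * Real.log n) := mul_le_mul_of_nonneg_left hNC (by norm_num)
      linarith
    exact_mod_cast h4
  exact final_B (N := N) (by omega) h3 h2

end Pool.Agent.BC5
end

section
set_option autoImplicit false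
set_option linter.unusedSectionVars false
set_option linter.unusedVariables false
open scoped BigOperators Matrix
open Matrix
namespace Pool.Agent.BC5


theorem RF2_lam {q n L0 : ℕ} (hL0 : 2600 ≤ L0) (hn : 2 ≤ n) (hq : 2 ^ (L0 + 3) ≤ q) :
    L0 ≤ Nat.log 2 ((q ^ (n - 1) - 1) / 2) ∧ 10 ≤ Nat.log 2 q / 64 - 10 ∧
    4 * (Nat.log 2 q / 64 - 10) + 40 ≤ Nat.log 2 ((q ^ (n - 1) - 1) / 2) ∧
    Nat.log 2 ((q ^ (n - 1) - 1) / 2) ≤ 512 * n * (Nat.log 2 q / 64 - 10) ∧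
    q ≤ 2 ^ (Nat.log 2 ((q ^ (n - 1) - 1) / 2) + 2) := by
  have hq1 : 1 ≤ q := le_trans Nat.one_le_two_pow hq
  have hl : L0 + 3 ≤ Nat.log 2 q := Nat.le_log_of_pow_le (by norm_num) hq
  have hqq : q ≤ q ^ (n - 1) := Nat.le_self_pow (by omega) q
  obtain ⟨k, hk⟩ : ∃ k, Nat.log 2 q = k + 2 := ⟨Nat.log 2 q - 2, by omega⟩
  have h2l : 2 ^ (k + 2) ≤ q := by
    rw [← hk]; exact Nat.pow_log_le_self 2 (by omega)
  have h4 : 2 ^ (k + 2) = 4 * 2 ^ k := by rw [pow_add]; ring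
  have hk1 : 1 ≤ 2 ^ k := Nat.one_le_two_pow
  have hx : 2 ^ k ≤ (q ^ (n - 1) - 1) / 2 := by omega
  have hlk : k ≤ Nat.log 2 ((q ^ (n - 1) - 1) / 2) := Nat.le_log_of_pow_le (by norm_num) hx
  have hx0 : (q ^ (n - 1) - 1) / 2 ≠ 0 := by omega
  have hup : 2 ^ Nat.log 2 ((q ^ (n - 1) - 1) / 2) ≤ (q ^ (n - 1) - 1) / 2 := Nat.pow_log_le_self 2 hx0
  have hlt : (q ^ (n - 1) - 1) / 2 < 2 ^ (Nat.log 2 ((q ^ (n - 1) - 1) / 2) + 1) :=
    Nat.lt_pow_succ_log_self (by norm_num) _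
  have hqlt : q < 2 ^ (Nat.log 2 q + 1) := Nat.lt_pow_succ_log_self (by norm_num) _
  have hlamlt : Nat.log 2 ((q ^ (n - 1) - 1) / 2) < (Nat.log 2 q + 1) * (n - 1) := by
    rw [← Nat.pow_lt_pow_iff_right (a := 2) (by norm_num)]
    calc 2 ^ Nat.log 2 ((q ^ (n - 1) - 1) / 2) ≤ (q ^ (n - 1) - 1) / 2 := hup
      _ < q ^ (n - 1) := by omega
      _ ≤ (2 ^ (Nat.log 2 q + 1)) ^ (n - 1) := Nat.pow_le_pow_left hqlt.le _
      _ = 2 ^ ((Nat.log 2 q + 1) * (n - 1)) := by rw [← pow_mul]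
  refine ⟨by omega, by omega, by omega, ?_, ?_⟩
  · have h5 : Nat.log 2 q + 1 ≤ 512 * (Nat.log 2 q / 64 - 10) := by omega
    calc Nat.log 2 ((q ^ (n - 1) - 1) / 2) ≤ (Nat.log 2 q + 1) * (n - 1) := hlamlt.le
      _ ≤ (512 * (Nat.log 2 q / 64 - 10)) * n := Nat.mul_le_mul h5 (Nat.sub_le _ _)
      _ = 512 * n * (Nat.log 2 q / 64 - 10) := by ring
  · have h6 : 2 ^ (Nat.log 2 ((q ^ (n - 1) - 1) / 2) + 2) = 2 * 2 ^ (Nat.log 2 ((q ^ (n - 1) - 1) / 2) + 1) := by
      rw [pow_succ]; ring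
    omega

theorem RF2_real {q n : ℕ} {C0 : ℝ} (hC0 : 1 ≤ C0) (hn : 2 ≤ n) (hexp : Real.exp (256 * C0 ^ 2 + 40) ≤ q)
    (hnq : (n : ℝ) ≤ Real.log q) :
    (∀ N : ℕ, (N : ℝ) ≤ C0 * Real.log n → (2 : ℝ) ^ N * (q : ℝ) ^ (-(1 / 4 : ℝ)) ≤ (q : ℝ) ^ (-(1 / 8 : ℝ))) ∧
    (q : ℝ) ^ (-(1 / 8 : ℝ)) + 4 / (q : ℝ) ≤ ((q : ℝ) * Real.exp n) ^ (-(1 / 20 : ℝ)) := by
  have hq0 : (0 : ℝ) < q := lt_of_lt_of_le (Real.exp_pos _) hexp
  have hy : 256 * C0 ^ 2 + 40 ≤ Real.log q := by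
    rw [← Real.log_exp (256 * C0 ^ 2 + 40)]
    exact Real.log_le_log (Real.exp_pos _) hexp
  have hn0 : (0 : ℝ) < n := by
    have : (2 : ℝ) ≤ n := by exact_mod_cast hn
    linarith
  set y := Real.log (q : ℝ) with hydef
  have hqy : (q : ℝ) = Real.exp y := (Real.exp_log hq0).symm
  have hy40 : 40 ≤ y := by nlinarith [sq_nonneg C0]
  constructor
  · intro N hN
    have hlogn : Real.log n ≤ Real.log y := Real.log_le_log hn0 hnq
    have hlogy : Real.log y ≤ 2 * Real.sqrt y := by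
      have h1 : Real.log y = 2 * Real.log (Real.sqrt y) := by
        rw [Real.log_sqrt (by linarith)]; ring
      rw [h1]
      have h2 : Real.log (Real.sqrt y) ≤ Real.sqrt y - 1 :=
        Real.log_le_sub_one_of_pos (Real.sqrt_pos.mpr (by linarith))
      linarith
    have hs : 16 * C0 ≤ Real.sqrt y := by
      apply Real.le_sqrt_of_sq_le
      nlinarith
    have hsy : Real.sqrt y * Real.sqrt y = y := Real.mul_self_sqrt (by linarith)
    have hsp : 0 ≤ Real.sqrt y := Real.sqrt_nonneg y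
    have hNy : (N : ℝ) ≤ y / 8 := by
      have h3 : C0 * Real.log n ≤ C0 * (2 * Real.sqrt y) :=
        mul_le_mul_of_nonneg_left (hlogn.trans hlogy) (by linarith)
      nlinarith
    have h2N : (2 : ℝ) ^ N ≤ Real.exp (y / 8) := by
      have h4 : (2 : ℝ) ≤ Real.exp 1 := by
        have := Real.add_one_le_exp (1 : ℝ)
        linarith
      calc (2 : ℝ) ^ N ≤ (Real.exp 1) ^ N := pow_le_pow_left₀ (by norm_num) h4 N
        _ = Real.exp (N * 1) := (Real.exp_nat_mul 1 N).symm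
        _ ≤ Real.exp (y / 8) := Real.exp_le_exp.mpr (by linarith)
    have e4 : (q : ℝ) ^ (-(1 / 4 : ℝ)) = Real.exp (-(y / 4)) := by
      rw [Real.rpow_def_of_pos hq0]; congr 1; ring
    have e8 : (q : ℝ) ^ (-(1 / 8 : ℝ)) = Real.exp (-(y / 8)) := by
      rw [Real.rpow_def_of_pos hq0]; congr 1; ring
    rw [e4, e8]
    calc (2 : ℝ) ^ N * Real.exp (-(y / 4)) ≤ Real.exp (y / 8) * Real.exp (-(y / 4)) :=
          mul_le_mul_of_nonneg_right h2N (Real.exp_pos _).le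
      _ = Real.exp (-(y / 8)) := by rw [← Real.exp_add]; congr 1; ring
  · have e8 : (q : ℝ) ^ (-(1 / 8 : ℝ)) = Real.exp (-(y / 8)) := by
      rw [Real.rpow_def_of_pos hq0]; congr 1; ring
    have e1 : 4 / (q : ℝ) = 4 * Real.exp (-y) := by
      rw [hqy, Real.exp_neg]; ring
    have e20 : ((q : ℝ) * Real.exp n) ^ (-(1 / 20 : ℝ)) = Real.exp (-((y + n) / 20)) := by
      rw [Real.rpow_def_of_pos (mul_pos hq0 (Real.exp_pos _)), Real.log_mul hq0.ne' (Real.exp_pos _).ne', Real.log_exp]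
      congr 1; ring
    rw [e8, e1, e20]
    have h1 : Real.exp (-(y / 10)) ≤ Real.exp (-((y + n) / 20)) := Real.exp_le_exp.mpr (by linarith)
    have h2 : Real.exp (-(y / 8)) = Real.exp (-(y / 10)) * Real.exp (-(y / 40)) := by
      rw [← Real.exp_add]; congr 1; ring
    have h3 : Real.exp (-y) = Real.exp (-(y / 10)) * Real.exp (-(9 * y / 10)) := by
      rw [← Real.exp_add]; congr 1; ring
    have h4 : Real.exp (-(y / 40)) ≤ 1 / 2 := by
      rw [Real.exp_neg]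
      have h5 := Real.add_one_le_exp (y / 40)
      have h6 : (2 : ℝ) ≤ Real.exp (y / 40) := by linarith
      rw [inv_eq_one_div]
      exact one_div_le_one_div_of_le (by norm_num) h6
    have h7 : Real.exp (-(9 * y / 10)) ≤ 1 / 8 := by
      rw [Real.exp_neg]
      have h5 := Real.add_one_le_exp (9 * y / 10)
      have h6 : (8 : ℝ) ≤ Real.exp (9 * y / 10) := by linarith
      rw [inv_eq_one_div]
      exact one_div_le_one_div_of_le (by norm_num) h6
    have h8 : 0 < Real.exp (-(y / 10)) := Real.exp_pos _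
    rw [h2, h3]
    nlinarith

theorem rank_A : ∃ C κ : ℝ, 1 ≤ C ∧ 0 < κ ∧ ∃ Q1 : ℕ, ∀ (n : ℕ) (F : Type) [Field F] [Fintype F] [DecidableEq F], 2 ≤ n →
    Q1 ≤ Fintype.card F → (n : ℝ) ≤ Real.log (Fintype.card F) → ∀ m : ℕ, C * Real.log n ≤ m →
    (1 - ((Fintype.card F : ℝ) * Real.exp n) ^ (-κ)) * (Nat.card (SLn n F) : ℝ) ^ m ≤
        (Nat.card {x : Fin m → SLn n F // ∀ A : Set (SLn n F), 2 * Nat.card A ≤ Nat.card (SLn n F) →
            1 / 8 * (Nat.card A : ℝ) ≤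
              (Nat.card {g : SLn n F // g ∉ A ∧ ∃ a ∈ A, ∃ i : Fin m, g = a * x i ∨ g = a * (x i)⁻¹} : ℝ)} : ℝ) := by
  obtain ⟨C0, hC0, L0, hL0, H⟩ := rank_core 512
  obtain ⟨Q0, hQ0, HS⟩ := start_A
  obtain ⟨Q2, hQ2⟩ : ∃ Q : ℕ, Real.exp (256 * C0 ^ 2 + 40) ≤ (Q : ℝ) := exists_nat_ge _
  refine ⟨2560 * C0, 1 / 20, by linarith, by norm_num, Q0 + 2 ^ (L0 + 3) + Q2, ?_⟩
  intro n F _ _ _ hn hq hnq m hm
  have hpos : 1 ≤ 2 ^ (L0 + 3) := Nat.one_le_two_pow
  have hq0 : Q0 ≤ Fintype.card F := by omega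
  have hq1 : 2 ^ (L0 + 3) ≤ Fintype.card F := by omega
  have hq2 : Q2 ≤ Fintype.card F := by omega
  have hexp : Real.exp (256 * C0 ^ 2 + 40) ≤ (Fintype.card F : ℝ) := hQ2.trans (by exact_mod_cast hq2)
  obtain ⟨hA, hB, hC, hD, hE⟩ := RF2_lam hL0 hn hq1
  obtain ⟨hF, hG⟩ := RF2_real hC0 hn hexp hnq
  have ha : Nat.log 2 (Fintype.card F) / 64 - 10 + 10 = Nat.log 2 (Fintype.card F) / 64 := by omega
  have hmain := H n F hn (Nat.log 2 ((Fintype.card F ^ (n - 1) - 1) / 2)) (Nat.log 2 (Fintype.card F) / 64 - 10)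
    ((Fintype.card F : ℝ) ^ (-(1 / 8 : ℝ))) rfl hB hA hC hD (by
      intro N hN
      rw [ha]
      exact (HS n F hn hq0 hnq N).trans (hF N hN)) m hm
  refine le_trans (mul_le_mul_of_nonneg_right ?_ (by positivity)) hmain
  have hqpos : (0 : ℝ) < Fintype.card F := lt_of_lt_of_le (Real.exp_pos _) hexp
  have hlam : (1 / 2 : ℝ) ^ (Nat.log 2 ((Fintype.card F ^ (n - 1) - 1) / 2)) ≤ 4 / (Fintype.card F : ℝ) := by
    have h1 : (Fintype.card F : ℝ) ≤ 2 ^ (Nat.log 2 ((Fintype.card F ^ (n - 1) - 1) / 2) + 2) := by exact_mod_cast hE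
    rw [one_div, inv_pow, inv_eq_one_div, div_le_div_iff₀ (by positivity) hqpos]
    rw [pow_add] at h1
    linarith
  linarith

end Pool.Agent.BC5
end

section
set_option autoImplicit false
set_option linter.unusedSectionVars false
set_option linter.unusedVariables false
open scoped BigOperators Matrix
open Matrix
namespace Pool.Agent.BC5


theorem rank_B_evlog (C : ℝ) : ∃ n2 : ℕ, ∀ n : ℕ, n2 ≤ n → C * Real.log n ≤ (n : ℝ) / 2400 := by
  have h := (Real.isLittleO_log_id_atTop).bound (show (0:ℝ) < 1 / (2400 * (|C| + 1)) by positivity)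
  have h2 := tendsto_natCast_atTop_atTop (R := ℝ) |>.eventually h
  obtain ⟨n2, hn2⟩ := Filter.eventually_atTop.1 h2
  refine ⟨max n2 1, fun n hn => ?_⟩
  have hn1 : (1 : ℝ) ≤ n := by exact_mod_cast le_trans (le_max_right _ _) hn
  have h3 := hn2 n (le_trans (le_max_left _ _) hn)
  have hl0 : 0 ≤ Real.log n := Real.log_nonneg hn1
  simp only [id, Real.norm_eq_abs] at h3
  rw [abs_of_nonneg hl0, abs_of_nonneg (by linarith : (0:ℝ) ≤ n)] at h3
  have h4 : C * Real.log n ≤ (|C| + 1) * Real.log n :=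
    mul_le_mul_of_nonneg_right (by linarith [le_abs_self C]) hl0
  have hpos : 0 < |C| + 1 := by positivity
  calc C * Real.log n ≤ (|C| + 1) * Real.log n := h4
    _ ≤ (|C| + 1) * (1 / (2400 * (|C| + 1)) * n) := mul_le_mul_of_nonneg_left h3 hpos.le
    _ = (n : ℝ) / 2400 := by field_simp

theorem rank_B_num (n q : ℕ) (hn : 132000 ≤ n) (hq : 2 ≤ q) (hql : Real.log q ≤ n) :
    n - 3 ≤ Nat.log 2 ((q ^ (n - 1) - 1) / 2) ∧
    Nat.log 2 ((q ^ (n - 1) - 1) / 2) ≤ 5000 * n * (n / 2400 - 10) ∧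
    (q : ℝ) ^ (-((n : ℝ) / 800)) + (1 / 2 : ℝ) ^ (Nat.log 2 ((q ^ (n - 1) - 1) / 2)) ≤
      ((q : ℝ) * Real.exp n) ^ (-(1 / 3000 : ℝ)) := by
  obtain ⟨k, rfl⟩ : ∃ k, n = k + 3 := ⟨n - 3, by omega⟩
  have hnn : k + 3 - 1 = k + 2 := by omega
  rw [hnn]
  have hQ : 2 ^ (k + 2) ≤ q ^ (k + 2) := Nat.pow_le_pow_left hq _
  have hQ2 : 4 ≤ q ^ (k + 2) := by
    refine le_trans ?_ hQ
    rw [pow_add]
    have := Nat.one_le_two_pow (n := k)
    omega
  have hdiv : 2 ^ k ≤ (q ^ (k + 2) - 1) / 2 := by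
    rw [Nat.le_div_iff_mul_le (by norm_num)]
    have : 2 ^ (k + 2) = 2 ^ k * 4 := by rw [pow_add]; norm_num
    have h1 := Nat.one_le_two_pow (n := k)
    omega
  obtain ⟨lam, hlam⟩ : ∃ lam, lam = Nat.log 2 ((q ^ (k + 2) - 1) / 2) := ⟨_, rfl⟩
  rw [← hlam]
  have hD0 : (q ^ (k + 2) - 1) / 2 ≠ 0 := by
    have h1 := Nat.one_le_two_pow (n := k)
    omega
  have hl1 : k ≤ lam := by rw [hlam]; exact Nat.le_log_of_pow_le (by norm_num) hdiv
  have hl2 : 2 ^ lam ≤ q ^ (k + 2) := by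
    have := Nat.pow_log_le_self 2 hD0
    rw [← hlam] at this
    omega
  have hl3 : q ^ (k + 2) ≤ 2 ^ (lam + 2) := by
    have := Nat.lt_pow_succ_log_self (b := 2) (by norm_num) ((q ^ (k + 2) - 1) / 2)
    rw [← hlam] at this
    have h4 : 2 ^ (lam + 2) = 2 ^ lam.succ * 2 := by rw [Nat.succ_eq_add_one, ← pow_succ]
    omega
  have hq0 : (0 : ℝ) < q := by
    have : (2 : ℝ) ≤ q := by exact_mod_cast hq
    linarith
  have hq2 : (2 : ℝ) ≤ q := by exact_mod_cast hq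
  have hlog2 := Real.log_two_gt_d9
  have hlq : Real.log 2 ≤ Real.log q := Real.log_le_log (by norm_num) hq2
  have hk : (131997 : ℝ) ≤ k := by
    have : 131997 ≤ k := by omega
    exact_mod_cast this
  push_cast at hql
  have h10 : (10 : ℕ) ≤ (k + 3) / 2400 := by omega
  have h2r : ((2 : ℝ) ^ lam) ≤ (q : ℝ) ^ (k + 2) := by exact_mod_cast hl2
  have h3r : (q : ℝ) ^ (k + 2) ≤ 2 ^ (lam + 2) := by exact_mod_cast hl3
  have hl1' : k + 3 - 3 ≤ lam := by omega
  clear hlam hn hq hnn hQ hQ2 hdiv hD0 hl1 hl2 hl3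
  refine ⟨hl1', ?_, ?_⟩
  · -- lam bound
    have h1 : (lam : ℝ) * Real.log 2 ≤ (k + 2 : ℝ) * Real.log q := by
      have h3 := Real.log_le_log (by positivity) h2r
      rw [Real.log_pow, Real.log_pow] at h3
      push_cast at h3
      exact h3
    have ha : ((k : ℝ) + 3) / 3000 ≤ (((k + 3) / 2400 - 10 : ℕ) : ℝ) := by
      have h5 : k + 3 < 2400 * ((k + 3) / 2400 + 1) := by
        have := Nat.lt_mul_div_succ (k + 3) (show 0 < 2400 by norm_num)
        exact this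
      have h6 := h10
      have h7 : ((k : ℝ) + 3) < 2400 * ((((k + 3) / 2400 : ℕ) : ℝ) + 1) := by exact_mod_cast h5
      rw [Nat.cast_sub h6]
      push_cast at h7 ⊢
      linarith
    have h8 : (lam : ℝ) ≤ 5000 * (k + 3 : ℝ) * (((k + 3) / 2400 - 10 : ℕ) : ℝ) := by
      have h9 : (lam : ℝ) * 0.69 ≤ (k + 3 : ℝ) * (k + 3) := by
        have h10 : (lam : ℝ) * 0.69 ≤ (lam : ℝ) * Real.log 2 :=
          mul_le_mul_of_nonneg_left (by linarith) (Nat.cast_nonneg _)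
        have h11 : (k + 2 : ℝ) * Real.log q ≤ (k + 3 : ℝ) * (k + 3) := by
          have : (0:ℝ) ≤ Real.log q := by linarith
          nlinarith
        linarith
      have h12 : 5000 * (k + 3 : ℝ) * (((k : ℝ) + 3) / 3000) ≤ 5000 * (k + 3 : ℝ) * (((k + 3) / 2400 - 10 : ℕ) : ℝ) :=
        mul_le_mul_of_nonneg_left ha (by positivity)
      nlinarith
    exact_mod_cast h8
  · have e1 : (q : ℝ) ^ (-(((k : ℕ) + 3 : ℕ) : ℝ) / 800) = Real.exp (-(((k : ℝ) + 3) / 800) * Real.log q) := by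
      rw [Real.rpow_def_of_pos hq0]
      congr 1
      push_cast
      ring
    have e2 : ((q : ℝ) * Real.exp ((k + 3 : ℕ) : ℝ)) ^ (-(1 / 3000 : ℝ)) = Real.exp (-(1 / 3000) * (Real.log q + (k + 3))) := by
      rw [Real.rpow_def_of_pos (by positivity), Real.log_mul hq0.ne' (Real.exp_pos _).ne', Real.log_exp]
      congr 1
      push_cast
      ring
    have e3 : (1 / 2 : ℝ) ^ lam ≤ Real.exp (-(((k : ℝ) + 3) / 800) * Real.log q) := by
      have h1 := h3r
      have h2 : (1 / 2 : ℝ) ^ lam ≤ 4 * ((q : ℝ) ^ (k + 2))⁻¹ := by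
        rw [one_div, inv_pow]
        have h3 : (2 : ℝ) ^ (lam + 2) = 2 ^ lam * 4 := by rw [pow_add]; norm_num
        rw [h3] at h1
        have hp : (0 : ℝ) < 2 ^ lam := by positivity
        have hp2 : (0 : ℝ) < (q : ℝ) ^ (k + 2) := by positivity
        rw [← div_eq_mul_inv, inv_le_iff_one_le_mul₀ hp, div_mul_eq_mul_div, le_div_iff₀ hp2]
        linarith
      have h4 : (4 : ℝ) * ((q : ℝ) ^ (k + 2))⁻¹ ≤ ((q : ℝ) ^ k)⁻¹ := by
        rw [pow_add, mul_inv]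
        have hp : (0 : ℝ) < ((q : ℝ) ^ k)⁻¹ := by positivity
        have h5 : (4 : ℝ) * ((q : ℝ) ^ 2)⁻¹ ≤ 1 := by
          rw [← div_eq_mul_inv, div_le_one (by positivity)]
          nlinarith
        nlinarith
      refine (h2.trans h4).trans ?_
      have h6 : ((q : ℝ) ^ k)⁻¹ = Real.exp (-(k : ℝ) * Real.log q) := by
        rw [neg_mul, Real.exp_neg, ← Real.log_pow, Real.exp_log (by positivity)]
      rw [h6]
      apply Real.exp_le_exp.2
      have : (0:ℝ) ≤ Real.log q := by linarith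
      nlinarith
    have e4 : Real.exp (-(((k : ℝ) + 3) / 800) * Real.log q) + Real.exp (-(((k : ℝ) + 3) / 800) * Real.log q) ≤
        Real.exp (-(1 / 3000) * (Real.log q + (k + 3))) := by
      have h1 : Real.exp (-(((k : ℝ) + 3) / 800) * Real.log q) + Real.exp (-(((k : ℝ) + 3) / 800) * Real.log q)
          ≤ Real.exp (Real.log q) * Real.exp (-(((k : ℝ) + 3) / 800) * Real.log q) := by
        rw [Real.exp_log hq0]
        have := Real.exp_pos (-(((k : ℝ) + 3) / 800) * Real.log q)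
        nlinarith
      refine h1.trans ?_
      rw [← Real.exp_add]
      apply Real.exp_le_exp.2
      have h2 : ((k : ℝ) + 3) * 0.69 ≤ (k + 3) * Real.log q := by
        apply mul_le_mul_of_nonneg_left _ (by positivity)
        linarith
      nlinarith
    have e5 : (-((((k : ℕ) + 3 : ℕ) : ℝ) / 800)) = (-(((k : ℕ) + 3 : ℕ) : ℝ) / 800) := by ring
    rw [e5, e1, e2]
    linarith

theorem rank_B : ∃ C κ : ℝ, 1 ≤ C ∧ 0 < κ ∧ ∃ n1 : ℕ, ∀ (n : ℕ) (F : Type) [Field F] [Fintype F] [DecidableEq F], n1 ≤ n →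
    Real.log (Fintype.card F) ≤ n → ∀ m : ℕ, C * Real.log n ≤ m →
    (1 - ((Fintype.card F : ℝ) * Real.exp n) ^ (-κ)) * (Nat.card (SLn n F) : ℝ) ^ m ≤
        (Nat.card {x : Fin m → SLn n F // ∀ A : Set (SLn n F), 2 * Nat.card A ≤ Nat.card (SLn n F) →
            1 / 8 * (Nat.card A : ℝ) ≤
              (Nat.card {g : SLn n F // g ∉ A ∧ ∃ a ∈ A, ∃ i : Fin m, g = a * x i ∨ g = a * (x i)⁻¹} : ℝ)} : ℝ) := by
  classical
  obtain ⟨C0, hC0, L0, hL0, hcore⟩ := rank_core 5000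
  obtain ⟨n0, hn0, hstart⟩ := start_B
  obtain ⟨n2, hn2⟩ := rank_B_evlog C0
  refine ⟨2560 * C0, 1 / 3000, by linarith, by norm_num, max (max n0 n2) (max 132000 (L0 + 3)), ?_⟩
  intro n F _ _ _ hn hlog m hm
  have h1 : n0 ≤ n := le_trans (le_trans (le_max_left _ _) (le_max_left _ _)) hn
  have h2 : n2 ≤ n := le_trans (le_trans (le_max_right _ _) (le_max_left _ _)) hn
  have h3 : 132000 ≤ n := le_trans (le_trans (le_max_left _ _) (le_max_right _ _)) hn
  have h4 : L0 + 3 ≤ n := le_trans (le_trans (le_max_right _ _) (le_max_right _ _)) hn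
  have hq : 2 ≤ Fintype.card F := Fintype.one_lt_card
  obtain ⟨hA, hB, hC⟩ := rank_B_num n (Fintype.card F) h3 hq hlog
  have hqr : (2 : ℝ) ≤ (Fintype.card F : ℝ) := by exact_mod_cast hq
  have key := hcore n F (by omega) (Nat.log 2 ((Fintype.card F ^ (n - 1) - 1) / 2)) (n / 2400 - 10)
    ((Fintype.card F : ℝ) ^ (-((n : ℝ) / 800))) rfl (by omega) (by omega) (by omega) hB ?_ m hm
  · refine le_trans ?_ key
    apply mul_le_mul_of_nonneg_right _ (by positivity)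
    linarith
  · intro N hN
    have ha : n / 2400 - 10 + 10 = n / 2400 := by omega
    rw [ha]
    refine (hstart n F h1 N).trans ?_
    have hN2 : (N : ℝ) ≤ (n : ℝ) / 2400 := hN.trans (hn2 n h2)
    have h5 : (2 : ℝ) ^ N ≤ (Fintype.card F : ℝ) ^ ((n : ℝ) / 2400) := by
      calc (2 : ℝ) ^ N ≤ (Fintype.card F : ℝ) ^ N := pow_le_pow_left₀ (by norm_num) hqr N
        _ = (Fintype.card F : ℝ) ^ (N : ℝ) := (Real.rpow_natCast _ _).symm
        _ ≤ (Fintype.card F : ℝ) ^ ((n : ℝ) / 2400) := Real.rpow_le_rpow_of_exponent_le (by linarith) hN2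
    calc (2 : ℝ) ^ N * (Fintype.card F : ℝ) ^ (-((n : ℝ) / 600))
        ≤ (Fintype.card F : ℝ) ^ ((n : ℝ) / 2400) * (Fintype.card F : ℝ) ^ (-((n : ℝ) / 600)) :=
          mul_le_mul_of_nonneg_right h5 (by positivity)
      _ = (Fintype.card F : ℝ) ^ (-((n : ℝ) / 800)) := by
          rw [← Real.rpow_add (by linarith)]
          congr 1
          ring

end Pool.Agent.BC5
end

section
set_option autoImplicit false
set_option linter.unusedSectionVars false
set_option linter.unusedVariables false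
open scoped BigOperators Matrix
open Matrix
namespace Pool.Agent.BC5


theorem rank_small (n2 Q2 : ℕ) : ∃ C κ : ℝ, 1 ≤ C ∧ 0 < κ ∧ ∀ (n : ℕ) (F : Type) [Field F] [Fintype F] [DecidableEq F], 2 ≤ n →
    n ≤ n2 → Fintype.card F ≤ Q2 → ∀ m : ℕ, C * Real.log n ≤ m →
    1 - ((Fintype.card F : ℝ) * Real.exp n) ^ (-κ) ≤ probExpd (SLn n F) m (1 / 8) := by
  obtain ⟨C0, hC0, hgen⟩ := general_log
  set g0 : ℝ := (Q2 : ℝ) ^ (n2 ^ 2) + 3 with hg0
  have hg3 : (3 : ℝ) ≤ g0 := by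
    have : (0 : ℝ) ≤ (Q2 : ℝ) ^ (n2 ^ 2) := by positivity
    linarith
  have hlog1 : (1 : ℝ) ≤ Real.log g0 := by
    rw [Real.le_log_iff_exp_le (by linarith)]
    have := Real.exp_one_lt_d9
    linarith
  have hll : (0 : ℝ) ≤ Real.log (Real.log g0) := Real.log_nonneg hlog1
  set A : ℝ := Real.log g0 + Real.log (Real.log g0) with hA
  have hA0 : 0 ≤ A := by linarith
  have hl2 : (0 : ℝ) < Real.log 2 := Real.log_pos (by norm_num)
  set B : ℝ := ((Q2 : ℝ) + 2) * Real.exp n2 with hB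
  have hB2 : (2 : ℝ) ≤ B := by
    have h1 : (1 : ℝ) ≤ Real.exp n2 := Real.one_le_exp (by positivity)
    have h2 : (2 : ℝ) ≤ (Q2 : ℝ) + 2 := by
      have : (0 : ℝ) ≤ (Q2 : ℝ) := by positivity
      linarith
    nlinarith
  have hlB : (0 : ℝ) < Real.log B := Real.log_pos (by linarith)
  refine ⟨max 1 (C0 * A / Real.log 2), Real.log 2 / Real.log B, le_max_left _ _, div_pos hl2 hlB, ?_⟩
  intro n F _ _ _ hn hn2 hQ m hm
  have hq2 : 2 ≤ Fintype.card F := Fintype.one_lt_card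
  have hk : Fintype.card F ≤ Nat.card (ConjClasses (SLn n F)) := card_le_kc_SL n hn F
  have hk2 : 2 ≤ Nat.card (ConjClasses (SLn n F)) := hq2.trans hk
  have hkG : Nat.card (ConjClasses (SLn n F)) ≤ Nat.card (SLn n F) :=
    Nat.card_le_card_of_surjective ConjClasses.mk ConjClasses.mk_surjective
  have hG1 : Nat.card (SLn n F) ≤ Fintype.card F ^ (n ^ 2) := by
    rw [Nat.card_eq_fintype_card]; exact card_SL_le n F
  have hG2 : Fintype.card F ^ (n ^ 2) ≤ Q2 ^ (n2 ^ 2) :=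
    (Nat.pow_le_pow_left hQ _).trans
      (Nat.pow_le_pow_right (by omega) (Nat.pow_le_pow_left hn2 2))
  have hG3 : (Nat.card (SLn n F) : ℝ) ≤ g0 := by
    have : (Nat.card (SLn n F) : ℝ) ≤ (Q2 : ℝ) ^ (n2 ^ 2) := by exact_mod_cast hG1.trans hG2
    linarith
  have hkR : (2 : ℝ) ≤ (Nat.card (ConjClasses (SLn n F)) : ℝ) := by exact_mod_cast hk2
  have hkGR : (Nat.card (ConjClasses (SLn n F)) : ℝ) ≤ (Nat.card (SLn n F) : ℝ) := by exact_mod_cast hkG
  have hlk : Real.log (Nat.card (ConjClasses (SLn n F))) ≤ Real.log g0 :=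
    Real.log_le_log (by linarith) (by linarith)
  have hlG : (0 : ℝ) < Real.log (Nat.card (SLn n F)) := Real.log_pos (by linarith)
  have hllG : Real.log (Real.log (Nat.card (SLn n F))) ≤ Real.log (Real.log g0) :=
    Real.log_le_log hlG (Real.log_le_log (by linarith) hG3)
  have hn' : (2 : ℝ) ≤ n := by exact_mod_cast hn
  have hln : Real.log 2 ≤ Real.log n := Real.log_le_log (by norm_num) hn'
  have hmain : C0 * (Real.log (Nat.card (ConjClasses (SLn n F))) + Real.log (Real.log (Nat.card (SLn n F)))) ≤ m := by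
    have h1 : C0 * (Real.log (Nat.card (ConjClasses (SLn n F))) + Real.log (Real.log (Nat.card (SLn n F)))) ≤ C0 * A :=
      mul_le_mul_of_nonneg_left (by rw [hA]; linarith) (by linarith)
    have h2 : C0 * A = C0 * A / Real.log 2 * Real.log 2 := by field_simp
    have h3 : C0 * A / Real.log 2 * Real.log 2 ≤ max 1 (C0 * A / Real.log 2) * Real.log 2 :=
      mul_le_mul_of_nonneg_right (le_max_right _ _) hl2.le
    have h4 : max 1 (C0 * A / Real.log 2) * Real.log 2 ≤ max 1 (C0 * A / Real.log 2) * Real.log n :=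
      mul_le_mul_of_nonneg_left hln (le_trans zero_le_one (le_max_left _ _))
    linarith
  have hres := le_probExpd (hgen (SLn n F) m hk2 hmain)
  refine le_trans ?_ hres
  have hX0 : (0 : ℝ) < (Fintype.card F : ℝ) * Real.exp n := by
    have : (0 : ℝ) < (Fintype.card F : ℝ) := by exact_mod_cast (by omega : 0 < Fintype.card F)
    positivity
  have hXB : (Fintype.card F : ℝ) * Real.exp n ≤ B := by
    have h1 : (Fintype.card F : ℝ) ≤ (Q2 : ℝ) + 2 := by
      have : (Fintype.card F : ℝ) ≤ (Q2 : ℝ) := by exact_mod_cast hQ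
      linarith
    have h2 : Real.exp n ≤ Real.exp n2 := Real.exp_le_exp.2 (by exact_mod_cast hn2)
    exact mul_le_mul h1 h2 (Real.exp_pos _).le (by positivity)
  have hpow : (1 / 2 : ℝ) ≤ ((Fintype.card F : ℝ) * Real.exp n) ^ (-(Real.log 2 / Real.log B)) := by
    have h1 : B ^ (-(Real.log 2 / Real.log B)) ≤ ((Fintype.card F : ℝ) * Real.exp n) ^ (-(Real.log 2 / Real.log B)) :=
      Real.rpow_le_rpow_of_nonpos hX0 hXB (neg_nonpos.2 (div_pos hl2 hlB).le)
    have h2 : B ^ (-(Real.log 2 / Real.log B)) = 1 / 2 := by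
      rw [Real.rpow_def_of_pos (by linarith)]
      have : Real.log B * -(Real.log 2 / Real.log B) = -Real.log 2 := by field_simp
      rw [this, Real.exp_neg, Real.exp_log (by norm_num)]
      norm_num
    linarith
  have hk1 : 1 / (Nat.card (ConjClasses (SLn n F)) : ℝ) ≤ 1 / 2 :=
    one_div_le_one_div_of_le (by norm_num) hkR
  linarith

end Pool.Agent.BC5
end

section
set_option autoImplicit false
set_option linter.unusedSectionVars false
set_option linter.unusedVariables false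
open scoped BigOperators Matrix
open Matrix
namespace Pool.Agent.BC5


theorem SL_rank : ∃ C κ : ℝ, 0 < κ ∧ ∀ n : ℕ, 2 ≤ n → ∀ (F : Type) [Field F] [Finite F]
    (N : Subgroup (Matrix.SpecialLinearGroup (Fin n) F)) [N.Normal] (m : ℕ), C * Real.log n ≤ m →
      1 - ((Nat.card F : ℝ) * Real.exp n) ^ (-κ) ≤ probExpd (Matrix.SpecialLinearGroup (Fin n) F ⧸ N) m (1 / 8) := by
  obtain ⟨CA, kA, hCA, hkA, Q1, hA⟩ := rank_A
  obtain ⟨CB, kB, hCB, hkB, n1, hB⟩ := rank_B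
  obtain ⟨CS, kS, hCS, hkS, hS⟩ := rank_small (max n1 ⌈Real.log Q1⌉₊) (max Q1 ⌈Real.exp n1⌉₊)
  refine ⟨max CA (max CB CS), min kA (min kB kS), lt_min hkA (lt_min hkB hkS), ?_⟩
  intro n hn F _ _ N _ m hm
  classical
  have : Fintype F := Fintype.ofFinite F
  rw [Nat.card_eq_fintype_card]
  refine le_trans ?_ (probExpd_quotient N m (1 / 8))
  have hq2 : 2 ≤ Fintype.card F := Fintype.one_lt_card
  have hqR : (2 : ℝ) ≤ (Fintype.card F : ℝ) := by exact_mod_cast hq2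
  have hn' : (2 : ℝ) ≤ n := by exact_mod_cast hn
  have hln : (0 : ℝ) ≤ Real.log n := Real.log_nonneg (by linarith)
  have hX1 : (1 : ℝ) ≤ (Fintype.card F : ℝ) * Real.exp n := by
    have h1 : (1 : ℝ) ≤ Real.exp n := Real.one_le_exp (by linarith)
    nlinarith
  have hmono : ∀ k : ℝ, min kA (min kB kS) ≤ k →
      1 - ((Fintype.card F : ℝ) * Real.exp n) ^ (-(min kA (min kB kS))) ≤
        1 - ((Fintype.card F : ℝ) * Real.exp n) ^ (-k) := by
    intro k hk
    have := Real.rpow_le_rpow_of_exponent_le hX1 (neg_le_neg hk)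
    linarith
  have hCmono : ∀ c : ℝ, c ≤ max CA (max CB CS) → c * Real.log n ≤ m := fun c hc =>
    (mul_le_mul_of_nonneg_right hc hln).trans hm
  by_cases h1 : Q1 ≤ Fintype.card F ∧ (n : ℝ) ≤ Real.log (Fintype.card F)
  · exact (hmono kA (min_le_left _ _)).trans
      (le_probExpd (hA n F hn h1.1 h1.2 m (hCmono CA (le_max_left _ _))))
  · by_cases h2 : n1 ≤ n ∧ Real.log (Fintype.card F) ≤ n
    · exact (hmono kB ((min_le_right _ _).trans (min_le_left _ _))).trans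
        (le_probExpd (hB n F h2.1 h2.2 m (hCmono CB ((le_max_left _ _).trans (le_max_right _ _)))))
    · refine (hmono kS ((min_le_right _ _).trans (min_le_right _ _))).trans ?_
      have hcase : n ≤ max n1 ⌈Real.log Q1⌉₊ ∧ Fintype.card F ≤ max Q1 ⌈Real.exp n1⌉₊ := by
        rcases le_or_gt (n : ℝ) (Real.log (Fintype.card F)) with h3 | h3
        · have hq : Fintype.card F < Q1 := by
            by_contra hc
            exact h1 ⟨not_lt.1 hc, h3⟩
          have hlq : Real.log (Fintype.card F) ≤ Real.log Q1 :=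
            Real.log_le_log (by linarith) (by exact_mod_cast hq.le)
          refine ⟨le_trans ?_ (le_max_right _ _), le_trans hq.le (le_max_left _ _)⟩
          have : (n : ℝ) ≤ (⌈Real.log Q1⌉₊ : ℝ) := (h3.trans hlq).trans (Nat.le_ceil _)
          exact_mod_cast this
        · have hnn : n < n1 := by
            by_contra hc
            exact h2 ⟨not_lt.1 hc, h3.le⟩
          refine ⟨le_trans hnn.le (le_max_left _ _), le_trans ?_ (le_max_right _ _)⟩
          have h4 : (Fintype.card F : ℝ) ≤ Real.exp n1 := by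
            rw [← Real.exp_log (by linarith : (0 : ℝ) < (Fintype.card F : ℝ))]
            refine Real.exp_le_exp.2 (h3.le.trans ?_)
            exact_mod_cast hnn.le
          have : (Fintype.card F : ℝ) ≤ (⌈Real.exp n1⌉₊ : ℝ) := h4.trans (Nat.le_ceil _)
          exact_mod_cast this
      exact hS n F hn hcase.1 hcase.2 m (hCmono CS ((le_max_right _ _).trans (le_max_right _ _)))

end Pool.Agent.BC5
end

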