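import Pool.Agent.Lib.MP_bc5a73_al.SatTools
import Pool.Agent.Lib.MP_bc5a73_al.SatNum
import Pool.Agent.Lib.MP_bc5a73_al.SlRank
import Pool.Agent.Lib.MP_bc5a73_al.SlFinal
import Pool.Agent.Lib.MP_bc5a73_al.StatementSat

section
set_option autoImplicit false
set_option linter.unusedSectionVars false
set_option linter.unusedVariables false
open scoped BigOperators Matrix
open Matrix
namespace Pool.Agent.BC5


theorem GQ1_sat {G : Type} [Group G] [Finite G] (N : Subgroup G) [N.Normal] (m : ℕ) (X ε : ℝ)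
    (x : Fin m → G) (hx : x ∈ SatExpd G m X ε) : (fun i => (x i : G ⧸ N)) ∈ SatExpd (G ⧸ N) m X ε := by
  intro K hK A hA
  have hGN : Nat.card G = Nat.card (G ⧸ N) * Nat.card N := Subgroup.card_eq_card_quotient_mul_card_subgroup N
  have hN : 0 < Nat.card N := Nat.card_pos
  have hA' : Nat.card (((↑) : G → G ⧸ N) ⁻¹' A) = Nat.card N * Nat.card A := QuotientGroup.card_preimage_mk N A
  have hidx : (K.comap (QuotientGroup.mk' N)).index = K.index :=
    Subgroup.index_comap_of_surjective K (QuotientGroup.mk'_surjective N)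
  set D : Set (G ⧸ N) := {g | ∃ h ∈ K, h * g ∈ A} with hD
  have hD' : Nat.card (((↑) : G → G ⧸ N) ⁻¹' D) = Nat.card N * Nat.card D := QuotientGroup.card_preimage_mk N D
  have hDA : 2 * Nat.card D ≤ Nat.card (G ⧸ N) := hA
  have h0 : Nat.card {g : G // ∃ h ∈ K.comap (QuotientGroup.mk' N), h * g ∈ (((↑) : G → G ⧸ N) ⁻¹' A)} ≤
      Nat.card (((↑) : G → G ⧸ N) ⁻¹' D) := by
    apply Nat.card_mono (s := {g : G | ∃ h ∈ K.comap (QuotientGroup.mk' N), h * g ∈ (((↑) : G → G ⧸ N) ⁻¹' A)})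
      (Set.toFinite _)
    rintro g ⟨h, hh, hg⟩
    exact ⟨(h : G ⧸ N), hh, hg⟩
  have h1 := hx (K.comap (QuotientGroup.mk' N)) (by rw [hidx]; exact hK) (((↑) : G → G ⧸ N) ⁻¹' A) (by
    rw [hGN]
    calc 2 * Nat.card {g : G // ∃ h ∈ K.comap (QuotientGroup.mk' N), h * g ∈ (((↑) : G → G ⧸ N) ⁻¹' A)}
        ≤ 2 * Nat.card (((↑) : G → G ⧸ N) ⁻¹' D) := Nat.mul_le_mul_left _ h0
      _ = (2 * Nat.card D) * Nat.card N := by rw [hD']; ring
      _ ≤ Nat.card (G ⧸ N) * Nat.card N := Nat.mul_le_mul_right _ hDA)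
  set B : Set (G ⧸ N) := {g | g ∉ A ∧ ∃ a ∈ A, ∃ i : Fin m, g = a * (x i : G ⧸ N) ∨ g = a * ((x i : G ⧸ N))⁻¹} with hB
  have hB' : Nat.card (((↑) : G → G ⧸ N) ⁻¹' B) = Nat.card N * Nat.card B := QuotientGroup.card_preimage_mk N B
  have h2 : Nat.card {g : G // g ∉ (((↑) : G → G ⧸ N) ⁻¹' A) ∧ ∃ a ∈ (((↑) : G → G ⧸ N) ⁻¹' A), ∃ i : Fin m,
      g = a * x i ∨ g = a * (x i)⁻¹} ≤ Nat.card (((↑) : G → G ⧸ N) ⁻¹' B) := by
    apply Nat.card_mono (s := {g : G | g ∉ (((↑) : G → G ⧸ N) ⁻¹' A) ∧ ∃ a ∈ (((↑) : G → G ⧸ N) ⁻¹' A), ∃ i : Fin m,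
      g = a * x i ∨ g = a * (x i)⁻¹}) (Set.toFinite _)
    rintro g ⟨hg, a, ha, i, hi⟩
    refine ⟨hg, (a : G ⧸ N), ha, i, ?_⟩
    rcases hi with hi | hi
    · left; rw [hi]; rfl
    · right; rw [hi]; rfl
  have h3 : (Nat.card {g : G // g ∉ (((↑) : G → G ⧸ N) ⁻¹' A) ∧ ∃ a ∈ (((↑) : G → G ⧸ N) ⁻¹' A), ∃ i : Fin m,
      g = a * x i ∨ g = a * (x i)⁻¹} : ℝ) ≤ (Nat.card N : ℝ) * Nat.card B := by
    rw [hB'] at h2
    exact_mod_cast h2
  have h4 := h1.trans h3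
  rw [hA'] at h4
  push_cast at h4
  have hNR : (0 : ℝ) < Nat.card N := by exact_mod_cast hN
  have h5 : (Nat.card N : ℝ) * (ε * Nat.card A) ≤ (Nat.card N : ℝ) * Nat.card B := by linarith
  exact le_of_mul_le_mul_left h5 hNR

theorem sat_quotient {G : Type} [Group G] [Finite G] (N : Subgroup G) [N.Normal] (m : ℕ) (X ε : ℝ) :
    (Nat.card (SatExpd G m X ε) : ℝ) / (Nat.card G : ℝ) ^ m ≤
      (Nat.card (SatExpd (G ⧸ N) m X ε) : ℝ) / (Nat.card (G ⧸ N) : ℝ) ^ m := by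
  have hGN : Nat.card G = Nat.card (G ⧸ N) * Nat.card N := Subgroup.card_eq_card_quotient_mul_card_subgroup N
  have hN : 0 < Nat.card N := Nat.card_pos
  have hQ : 0 < Nat.card (G ⧸ N) := Nat.card_pos
  have hmem : ∀ g : G, ((g : G ⧸ N).out)⁻¹ * g ∈ N := by
    intro g
    rw [← QuotientGroup.eq]
    exact Quotient.out_eq' _
  have hcard : Nat.card (SatExpd G m X ε) ≤ Nat.card (SatExpd (G ⧸ N) m X ε) * Nat.card N ^ m := by
    have h1 : Nat.card (Fin m → N) = Nat.card N ^ m := by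
      rw [Nat.card_fun, Nat.card_fin]
    rw [← h1, ← Nat.card_prod]
    refine Nat.card_le_card_of_injective (fun x : SatExpd G m X ε =>
      ((⟨fun i => ((x.1 i : G) : G ⧸ N), GQ1_sat N m X ε x.1 x.2⟩ : SatExpd (G ⧸ N) m X ε),
        (fun i => ⟨((x.1 i : G ⧸ N).out)⁻¹ * x.1 i, hmem (x.1 i)⟩ : Fin m → N))) ?_
    intro x y hxy
    simp only [Prod.mk.injEq, Subtype.mk.injEq] at hxy
    obtain ⟨h1, h2⟩ := hxy
    apply Subtype.ext
    funext i
    have h3 : ((x.1 i : G) : G ⧸ N) = (y.1 i : G ⧸ N) := congrFun h1 i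
    have h4 := congrFun h2 i
    rw [Subtype.mk.injEq, h3] at h4
    exact mul_left_cancel h4
  have hQR : (0 : ℝ) < (Nat.card (G ⧸ N) : ℝ) := by exact_mod_cast hQ
  have hNR : (0 : ℝ) < (Nat.card N : ℝ) := by exact_mod_cast hN
  rw [hGN, div_le_div_iff₀ (by push_cast; positivity) (by positivity)]
  push_cast
  rw [mul_pow]
  have h5 : (Nat.card (SatExpd G m X ε) : ℝ) ≤ (Nat.card (SatExpd (G ⧸ N) m X ε) : ℝ) * (Nat.card N : ℝ) ^ m := by
    exact_mod_cast hcard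
  calc (Nat.card (SatExpd G m X ε) : ℝ) * (Nat.card (G ⧸ N) : ℝ) ^ m
      ≤ ((Nat.card (SatExpd (G ⧸ N) m X ε) : ℝ) * (Nat.card N : ℝ) ^ m) * (Nat.card (G ⧸ N) : ℝ) ^ m :=
        mul_le_mul_of_nonneg_right h5 (by positivity)
    _ = (Nat.card (SatExpd (G ⧸ N) m X ε) : ℝ) * ((Nat.card (G ⧸ N) : ℝ) ^ m * (Nat.card N : ℝ) ^ m) := by ring

end Pool.Agent.BC5
end

section
set_option autoImplicit false
set_option linter.unusedSectionVars false
set_option linter.unusedVariables false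
open scoped BigOperators Matrix
open Matrix
namespace Pool.Agent.BC5


theorem GC1_logs {n q g lam : ℕ} {X : ℝ} (hn : 2 ≤ n) (hq : 2 ≤ q) (hg1 : 1 ≤ g) (hg : g ≤ q ^ (n ^ 2))
    (hlq : 2 ^ lam ≤ q ^ (n - 1)) (hX : (2 : ℝ) ^ lam ≤ X) :
    ∃ Y : ℝ, lam * Real.log 2 ≤ Y ∧ Y ≤ (n : ℝ) ^ 2 * Real.log q ∧ Y ≤ Real.log X ∧
      min X (g : ℝ) ^ 2 ≤ Real.exp (2 * Y) := by
  have hX1 : (1 : ℝ) ≤ X := le_trans (one_le_pow₀ (by norm_num)) hX
  have hX0 : (0 : ℝ) < X := by linarith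
  have hg1' : (1 : ℝ) ≤ (g : ℝ) := by exact_mod_cast hg1
  have hM1 : (1 : ℝ) ≤ min X (g : ℝ) := le_min hX1 hg1'
  have hM0 : (0 : ℝ) < min X (g : ℝ) := by linarith
  have hq2 : (2 : ℝ) ≤ (q : ℝ) := by exact_mod_cast hq
  have hq0 : (0 : ℝ) < (q : ℝ) := by linarith
  have hlq0 : 0 ≤ Real.log (q : ℝ) := Real.log_nonneg (by linarith)
  refine ⟨max (Real.log (min X (g : ℝ))) (lam * Real.log 2), le_max_right _ _, ?_, ?_, ?_⟩
  · refine max_le ?_ ?_
    · have h1 : Real.log (min X (g : ℝ)) ≤ Real.log ((q : ℝ) ^ (n ^ 2)) := by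
        refine Real.log_le_log hM0 ((min_le_right _ _).trans ?_)
        exact_mod_cast hg
      rw [Real.log_pow] at h1
      push_cast at h1
      exact h1
    · have h1 : Real.log ((2 : ℝ) ^ lam) ≤ Real.log ((q : ℝ) ^ (n - 1)) := by
        refine Real.log_le_log (by positivity) ?_
        exact_mod_cast hlq
      rw [Real.log_pow, Real.log_pow] at h1
      refine h1.trans (mul_le_mul_of_nonneg_right ?_ hlq0)
      have h2 : n - 1 ≤ n ^ 2 := by nlinarith [Nat.sub_le n 1]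
      exact_mod_cast h2
  · refine max_le (Real.log_le_log hM0 (min_le_left _ _)) ?_
    have h1 : Real.log ((2 : ℝ) ^ lam) ≤ Real.log X := Real.log_le_log (by positivity) hX
    rw [Real.log_pow] at h1
    exact h1
  · have h1 : min X (g : ℝ) = Real.exp (Real.log (min X (g : ℝ))) := (Real.exp_log hM0).symm
    have h2 : min X (g : ℝ) ≤ Real.exp (max (Real.log (min X (g : ℝ))) (lam * Real.log 2)) := by
      conv_lhs => rw [h1]
      exact Real.exp_le_exp.2 (le_max_left _ _)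
    have h3 : Real.exp (2 * max (Real.log (min X (g : ℝ))) (lam * Real.log 2)) =
        Real.exp (max (Real.log (min X (g : ℝ))) (lam * Real.log 2)) ^ 2 := by
      rw [two_mul, Real.exp_add, sq]
    rw [h3]
    exact pow_le_pow_left₀ hM0.le h2 2

theorem GC1_m {C Y LX t : ℝ} {N m : ℕ} (hC : 1 ≤ C) (ht : 0 < t) (hY0 : 0 ≤ Y) (hY : Y ≤ LX)
    (hN : (N : ℝ) ≤ C * (1 + Real.log (1 + Y / t))) (hm : 2560 * C * (1 + Real.log (1 + LX / t)) ≤ m) :
    2560 * N ≤ m := by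
  have h1 : Y / t ≤ LX / t := div_le_div_of_nonneg_right hY ht.le
  have h0 : 0 ≤ Y / t := div_nonneg hY0 ht.le
  have h2 : Real.log (1 + Y / t) ≤ Real.log (1 + LX / t) := Real.log_le_log (by linarith) (by linarith)
  have h3 : C * (1 + Real.log (1 + Y / t)) ≤ C * (1 + Real.log (1 + LX / t)) :=
    mul_le_mul_of_nonneg_left (by linarith) (by linarith)
  have h4 : (2560 : ℝ) * N ≤ m := by
    have h5 : (2560 : ℝ) * N ≤ 2560 * (C * (1 + Real.log (1 + LX / t))) :=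
      mul_le_mul_of_nonneg_left (hN.trans h3) (by norm_num)
    have h6 : 2560 * (C * (1 + Real.log (1 + LX / t))) = 2560 * C * (1 + Real.log (1 + LX / t)) := by ring
    linarith
  exact_mod_cast h4

theorem sat_core (B : ℕ) : ∃ C : ℝ, 1 ≤ C ∧ ∃ L0 : ℕ, 2600 ≤ L0 ∧ ∀ (n : ℕ) (F : Type) [Field F] [Fintype F] [DecidableEq F],
    2 ≤ n → ∀ (lam a : ℕ) (δ1 : ℝ), 0 ≤ δ1 → lam = Nat.log 2 ((Fintype.card F ^ (n - 1) - 1) / 2) → 10 ≤ a → L0 ≤ lam →
    4 * a + 40 ≤ lam → lam ≤ B * n * a → (n : ℝ) + Real.log (Fintype.card F) ≤ B * a →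
    (∀ N : ℕ, (N : ℝ) ≤ C * Real.log n → frac (fun x : Fin N × Fin 2560 → SLn n F => ¬ ∀ E : Matrix (SLn n F) (SLn n F) ℝ, IsBlock E → E ≠ Jm (SLn n F) →
      StartP x E (1 / 2) 1 ((1 / 2 : ℝ) ^ (a + 10)))
      ≤ δ1) → ∀ (X : ℝ) (m : ℕ), 2560 * C * (1 + Real.log (1 + Real.log X / ((n : ℝ) + Real.log (Fintype.card F)))) ≤ m →
    (1 - (δ1 + (1 / 2 : ℝ) ^ lam)) * (Nat.card (SLn n F) : ℝ) ^ m ≤ (Nat.card (SatExpd (SLn n F) m X (1 / 8)) : ℝ) := by
  obtain ⟨C, hC, L0, hL0, hnum⟩ := rank_num_sat B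
  refine ⟨C, hC, L0, hL0, ?_⟩
  intro n F _ _ _ hn lam a δ1 hδ1 hlam ha hLam h4a hB hBlog hst X m hm
  have hq : 2 ≤ Fintype.card F := Fintype.one_lt_card
  have hqn : 1 ≤ Fintype.card F ^ (n - 1) := Nat.one_le_pow _ _ (by omega)
  have hlam1 : 2600 ≤ lam := hL0.trans hLam
  have hd0 : (Fintype.card F ^ (n - 1) - 1) / 2 ≠ 0 := by
    intro h0
    rw [h0, Nat.log_zero_right] at hlam
    omega
  have hd1 : 2 ^ lam ≤ (Fintype.card F ^ (n - 1) - 1) / 2 := by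
    rw [hlam]
    exact Nat.pow_log_le_self 2 hd0
  have hd2 : (Fintype.card F ^ (n - 1) - 1) / 2 < 2 ^ (lam + 1) := by
    rw [hlam]
    exact Nat.lt_pow_succ_log_self (by norm_num) _
  have hq2 : Fintype.card F ^ (n - 1) ≤ 2 ^ (lam + 2) := by
    have h1 : 2 ^ (lam + 2) = 2 * 2 ^ (lam + 1) := by ring
    rw [h1]
    omega
  have hdl : (2 : ℝ) ^ lam ≤ (((Fintype.card F ^ (n - 1) - 1) / 2 : ℕ) : ℝ) := by exact_mod_cast hd1
  have hpow0 : (0 : ℝ) ≤ (1 / 2 : ℝ) ^ lam := by positivity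
  rcases lt_or_ge X ((2 : ℝ) ^ lam) with hX | hX
  · rw [sat_top (RF1_QR n hn F) (lt_of_lt_of_le hX hdl) (1 / 8)]
    have h1 : (0 : ℝ) ≤ (Nat.card (SLn n F) : ℝ) ^ m := by positivity
    have h2 : (1 - (δ1 + (1 / 2 : ℝ) ^ lam)) * (Nat.card (SLn n F) : ℝ) ^ m ≤ 1 * (Nat.card (SLn n F) : ℝ) ^ m :=
      mul_le_mul_of_nonneg_right (by linarith) h1
    rw [one_mul] at h2
    exact h2
  · have hlq : 2 ^ lam ≤ Fintype.card F ^ (n - 1) := hd1.trans ((Nat.div_le_self _ _).trans (Nat.sub_le _ _))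
    have hcard : 1 ≤ Nat.card (SLn n F) := by
      rw [Nat.card_eq_fintype_card]
      exact Fintype.card_pos
    have hcard2 : Nat.card (SLn n F) ≤ Fintype.card F ^ (n ^ 2) := by
      rw [Nat.card_eq_fintype_card]
      exact card_SL_le n F
    obtain ⟨Y, hY1, hY2, hY3, hY4⟩ := GC1_logs (X := X) hn hq hcard hcard2 hlq hX
    obtain ⟨N, h, I, J, hh, hN8, hJ1, hJ2, h640, hN, hD, hNC, hNC2, hfin⟩ :=
      hnum n (Fintype.card F) lam a (kc (SLn n F)) Y hn hq ha hLam hq2 h4a hB hBlog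
        (kc_SL_le2 n (by omega) F) hY1 hY2
    have h1 := norm_all3 (N := N) (RF1_QR n hn F) lam (by omega) hdl h I J a hh hN8 hJ1 hJ2 h640 hN
      (Real.exp (2 * Y)) hD (hst N hNC)
    have h2 := h1.trans (add_le_add (le_refl δ1) hfin)
    have hq0 : (0 : ℝ) ≤ Real.log (Fintype.card F : ℝ) := Real.log_nonneg (by exact_mod_cast (by omega : 1 ≤ Fintype.card F))
    have hn0 : (2 : ℝ) ≤ (n : ℝ) := by exact_mod_cast hn
    have ht : (0 : ℝ) < (n : ℝ) + Real.log (Fintype.card F : ℝ) := by linarith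
    have hY0 : 0 ≤ Y := le_trans (mul_nonneg (Nat.cast_nonneg _) (Real.log_nonneg (by norm_num))) hY1
    have h3 : 2560 * N ≤ m := GC1_m hC ht hY0 hY3 hNC2 hm
    have h4 := (frac_mono (P := fun x : Fin N × Fin 2560 → SLn n F => ¬ ∀ E : Matrix (SLn n F) (SLn n F) ℝ, IsBlock E → E ≠ Jm (SLn n F) →
        E.trace ≤ (min X (Nat.card (SLn n F) : ℝ)) ^ 2 → NormP x E (3 / 4) N)
      (Q := fun x : Fin N × Fin 2560 → SLn n F => ¬ ∀ E : Matrix (SLn n F) (SLn n F) ℝ, IsBlock E → E ≠ Jm (SLn n F) →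
        E.trace ≤ Real.exp (2 * Y) → NormP x E (3 / 4) N)
      (fun x hx hall => hx fun E hE hJ htr => hall E hE hJ (htr.trans hY4))).trans h2
    exact (final_sat (by omega) h3 _ _ h4).trans (sat_mono (le_refl _))

end Pool.Agent.BC5
end

section
set_option autoImplicit false
set_option linter.unusedSectionVars false
set_option linter.unusedVariables false
open scoped BigOperators Matrix
open Matrix
namespace Pool.Agent.BC5


theorem GF2_hyp {q n L0 : ℕ} (hL0 : 2600 ≤ L0) (hq : 2 ^ (L0 + 3) ≤ q) (hnq : (n : ℝ) ≤ Real.log q) :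
    (n : ℝ) + Real.log q ≤ ((512 : ℕ) : ℝ) * ((Nat.log 2 q / 64 - 10 : ℕ) : ℝ) := by
  have hl : L0 + 3 ≤ Nat.log 2 q := Nat.le_log_of_pow_le (by norm_num) hq
  have hqlt : q < 2 ^ (Nat.log 2 q + 1) := Nat.lt_pow_succ_log_self (by norm_num) _
  have hq1 : 1 ≤ q := le_trans Nat.one_le_two_pow hq
  have hq0 : (0 : ℝ) < (q : ℝ) := by exact_mod_cast hq1
  have h1 : Real.log q ≤ ((Nat.log 2 q + 1 : ℕ) : ℝ) * Real.log 2 := by
    rw [← Real.log_pow]
    apply Real.log_le_log hq0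
    exact_mod_cast hqlt.le
  have h2 : Real.log 2 ≤ 1 := by
    have := Real.log_two_lt_d9
    linarith
  have h3 : Real.log q ≤ ((Nat.log 2 q + 1 : ℕ) : ℝ) := by
    refine h1.trans ?_
    have h4 : (0 : ℝ) ≤ ((Nat.log 2 q + 1 : ℕ) : ℝ) := Nat.cast_nonneg _
    nlinarith
  have h5 : 2 * (Nat.log 2 q + 1) ≤ 512 * (Nat.log 2 q / 64 - 10) := by omega
  have h6 : (2 : ℝ) * ((Nat.log 2 q + 1 : ℕ) : ℝ) ≤ ((512 : ℕ) : ℝ) * ((Nat.log 2 q / 64 - 10 : ℕ) : ℝ) := by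
    exact_mod_cast h5
  linarith

theorem sat_A : ∃ C κ : ℝ, 1 ≤ C ∧ 0 < κ ∧ ∃ Q1 : ℕ, ∀ (n : ℕ) (F : Type) [Field F] [Fintype F] [DecidableEq F], 2 ≤ n →
    Q1 ≤ Fintype.card F → (n : ℝ) ≤ Real.log (Fintype.card F) → ∀ (X : ℝ) (m : ℕ), C * (1 + Real.log (1 + Real.log X / ((n : ℝ) + Real.log (Fintype.card F)))) ≤ m →
    (1 - ((Fintype.card F : ℝ) * Real.exp n) ^ (-κ)) * (Nat.card (SLn n F) : ℝ) ^ m ≤
      (Nat.card (SatExpd (SLn n F) m X (1 / 8)) : ℝ) := by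
  obtain ⟨C0, hC0, L0, hL0, H⟩ := sat_core 512
  obtain ⟨Q0, hQ0, HS⟩ := start_A
  obtain ⟨Q2, hQ2⟩ : ∃ Q : ℕ, Real.exp (256 * C0 ^ 2 + 40) ≤ (Q : ℝ) := exists_nat_ge _
  refine ⟨2560 * C0, 1 / 20, by linarith, by norm_num, Q0 + 2 ^ (L0 + 3) + Q2, ?_⟩
  intro n F _ _ _ hn hq hnq X m hm
  have hpos : 1 ≤ 2 ^ (L0 + 3) := Nat.one_le_two_pow
  have hq0 : Q0 ≤ Fintype.card F := by omega
  have hq1 : 2 ^ (L0 + 3) ≤ Fintype.card F := by omega
  have hq2 : Q2 ≤ Fintype.card F := by omega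
  have hexp : Real.exp (256 * C0 ^ 2 + 40) ≤ (Fintype.card F : ℝ) := hQ2.trans (by exact_mod_cast hq2)
  obtain ⟨hA, hB, hC, hD, hE⟩ := RF2_lam hL0 hn hq1
  obtain ⟨hF, hG⟩ := RF2_real hC0 hn hexp hnq
  have ha : Nat.log 2 (Fintype.card F) / 64 - 10 + 10 = Nat.log 2 (Fintype.card F) / 64 := by omega
  have hqpos : (0 : ℝ) < Fintype.card F := lt_of_lt_of_le (Real.exp_pos _) hexp
  have hmain := H n F hn (Nat.log 2 ((Fintype.card F ^ (n - 1) - 1) / 2)) (Nat.log 2 (Fintype.card F) / 64 - 10)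
    ((Fintype.card F : ℝ) ^ (-(1 / 8 : ℝ))) (Real.rpow_nonneg hqpos.le _) rfl hB hA hC hD
    (GF2_hyp hL0 hq1 hnq) (by
      intro N hN
      rw [ha]
      exact (HS n F hn hq0 hnq N).trans (hF N hN)) X m hm
  refine le_trans (mul_le_mul_of_nonneg_right ?_ (by positivity)) hmain
  have hlam : (1 / 2 : ℝ) ^ (Nat.log 2 ((Fintype.card F ^ (n - 1) - 1) / 2)) ≤ 4 / (Fintype.card F : ℝ) := by
    have h1 : (Fintype.card F : ℝ) ≤ 2 ^ (Nat.log 2 ((Fintype.card F ^ (n - 1) - 1) / 2) + 2) := by exact_mod_cast hE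
    rw [one_div, inv_pow, inv_eq_one_div, div_le_div_iff₀ (by positivity) hqpos]
    rw [pow_add] at h1
    linarith
  linarith

end Pool.Agent.BC5
end

section
set_option autoImplicit false
set_option linter.unusedSectionVars false
set_option linter.unusedVariables false
open scoped BigOperators Matrix
open Matrix
namespace Pool.Agent.BC5

theorem sat_B : ∃ C κ : ℝ, 1 ≤ C ∧ 0 < κ ∧ ∃ n1 : ℕ, ∀ (n : ℕ) (F : Type) [Field F] [Fintype F] [DecidableEq F], n1 ≤ n →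
    Real.log (Fintype.card F) ≤ n → ∀ (X : ℝ) (m : ℕ), C * (1 + Real.log (1 + Real.log X / ((n : ℝ) + Real.log (Fintype.card F)))) ≤ m →
    (1 - ((Fintype.card F : ℝ) * Real.exp n) ^ (-κ)) * (Nat.card (SLn n F) : ℝ) ^ m ≤
      (Nat.card (SatExpd (SLn n F) m X (1 / 8)) : ℝ) := by
  classical
  obtain ⟨C0, hC0, L0, hL0, hcore⟩ := sat_core 5000
  obtain ⟨n0, hn0, hstart⟩ := start_B
  obtain ⟨n2, hn2⟩ := rank_B_evlog C0
  refine ⟨2560 * C0, 1 / 3000, by linarith, by norm_num, max (max n0 n2) (max 700000 (L0 + 3)), ?_⟩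
  intro n F _ _ _ hn hlog X m hm
  have h1 : n0 ≤ n := le_trans (le_trans (le_max_left _ _) (le_max_left _ _)) hn
  have h2 : n2 ≤ n := le_trans (le_trans (le_max_right _ _) (le_max_left _ _)) hn
  have h3a : 700000 ≤ n := le_trans (le_trans (le_max_left _ _) (le_max_right _ _)) hn
  have h3 : 132000 ≤ n := le_trans (by norm_num) h3a
  have h4 : L0 + 3 ≤ n := le_trans (le_trans (le_max_right _ _) (le_max_right _ _)) hn
  have hq : 2 ≤ Fintype.card F := Fintype.one_lt_card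
  obtain ⟨hA, hB, hC⟩ := rank_B_num n (Fintype.card F) h3 hq hlog
  have hqr : (2 : ℝ) ≤ (Fintype.card F : ℝ) := by exact_mod_cast hq
  have hD : (n : ℝ) + Real.log (Fintype.card F) ≤ ((5000 : ℕ) : ℝ) * ((n / 2400 - 10 : ℕ) : ℝ) := by
    have h5 : n < 2400 * (n / 2400 + 1) := Nat.lt_mul_div_succ n (by norm_num)
    have h6 : 10 ≤ n / 2400 := by omega
    have h7 : (n : ℝ) < 2400 * (((n / 2400 : ℕ) : ℝ) + 1) := by exact_mod_cast h5
    have h8 : (700000 : ℝ) ≤ n := by exact_mod_cast h3a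
    rw [Nat.cast_sub h6]
    push_cast
    linarith
  have key := hcore n F (by omega) (Nat.log 2 ((Fintype.card F ^ (n - 1) - 1) / 2)) (n / 2400 - 10)
    ((Fintype.card F : ℝ) ^ (-((n : ℝ) / 800))) (by positivity) rfl (by omega) (by omega) (by omega) hB hD ?_ X m hm
  · refine le_trans ?_ key
    apply mul_le_mul_of_nonneg_right _ (by positivity)
    linarith
  · intro N hN
    have ha : n / 2400 - 10 + 10 = n / 2400 := by omega
    rw [ha]
    refine (hstart n F h1 N).trans ?_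
    have hN2 : (N : ℝ) ≤ (n : ℝ) / 2400 := hN.trans (hn2 n h2)
    have h5 : (2 : ℝ) ^ N ≤ (Fintype.card F : ℝ) ^ ((n : ℝ) / 2400) := by
      calc (2 : ℝ) ^ N ≤ (Fintype.card F : ℝ) ^ N := pow_le_pow_left₀ (by norm_num) hqr N
        _ = (Fintype.card F : ℝ) ^ (N : ℝ) := (Real.rpow_natCast _ _).symm
        _ ≤ (Fintype.card F : ℝ) ^ ((n : ℝ) / 2400) := Real.rpow_le_rpow_of_exponent_le (by linarith) hN2
    calc (2 : ℝ) ^ N * (Fintype.card F : ℝ) ^ (-((n : ℝ) / 600))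
        ≤ (Fintype.card F : ℝ) ^ ((n : ℝ) / 2400) * (Fintype.card F : ℝ) ^ (-((n : ℝ) / 600)) :=
          mul_le_mul_of_nonneg_right h5 (by positivity)
      _ = (Fintype.card F : ℝ) ^ (-((n : ℝ) / 800)) := by
          rw [← Real.rpow_add (by linarith)]
          congr 1
          ring

end Pool.Agent.BC5
end

section
set_option autoImplicit false
set_option linter.unusedSectionVars false
set_option linter.unusedVariables false
open scoped BigOperators Matrix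
open Matrix
namespace Pool.Agent.BC5


theorem sat_of_expd {G : Type} [Group G] [Finite G] (m : ℕ) (X ε : ℝ) :
    probExpd G m ε ≤ (Nat.card (SatExpd G m X ε) : ℝ) / (Nat.card G : ℝ) ^ m := by
  unfold probExpd
  have hsub : Expd G m ε ⊆ SatExpd G m X ε := by
    intro x hx H hH A h2
    refine hx A (le_trans ?_ h2)
    have hle : Nat.card A ≤ Nat.card {g : G // ∃ h ∈ H, h * g ∈ A} := by
      apply Nat.card_le_card_of_injective (fun a : A => (⟨(a : G), 1, H.one_mem, by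
        rw [one_mul]; exact a.2⟩ : {g : G // ∃ h ∈ H, h * g ∈ A}))
      intro a b hab
      have := congrArg (fun t : {g : G // ∃ h ∈ H, h * g ∈ A} => (t : G)) hab
      exact Subtype.ext this
    omega
  have hc : Nat.card (Expd G m ε) ≤ Nat.card (SatExpd G m X ε) :=
    Nat.card_mono (Set.toFinite _) hsub
  have hc' : (Nat.card (Expd G m ε) : ℝ) ≤ (Nat.card (SatExpd G m X ε) : ℝ) := by exact_mod_cast hc
  exact div_le_div_of_nonneg_right hc' (by positivity)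

theorem sat_small (n2 Q2 : ℕ) : ∃ C κ : ℝ, 1 ≤ C ∧ 0 < κ ∧ ∀ (n : ℕ) (F : Type) [Field F] [Fintype F] [DecidableEq F], 2 ≤ n →
    n ≤ n2 → Fintype.card F ≤ Q2 → ∀ (X : ℝ) (m : ℕ), 1 ≤ X → C * (1 + Real.log (1 + Real.log X / ((n : ℝ) + Real.log (Fintype.card F)))) ≤ m →
    (1 - ((Fintype.card F : ℝ) * Real.exp n) ^ (-κ)) * (Nat.card (SLn n F) : ℝ) ^ m ≤
      (Nat.card (SatExpd (SLn n F) m X (1 / 8)) : ℝ) := by
  obtain ⟨C0, κ, hC0, hκ, h⟩ := rank_small n2 Q2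
  have hl2 : (0 : ℝ) ≤ Real.log ((n2 : ℝ) + 2) := Real.log_nonneg (by
    have : (0 : ℝ) ≤ (n2 : ℝ) := Nat.cast_nonneg _
    linarith)
  refine ⟨C0 * (1 + Real.log ((n2 : ℝ) + 2)), κ, by nlinarith, hκ, ?_⟩
  intro n F _ _ _ hn hn2 hQ2 X m hX hm
  have hq1 : (1 : ℝ) ≤ (Fintype.card F : ℝ) := by exact_mod_cast Fintype.card_pos
  have hlq : (0 : ℝ) ≤ Real.log (Fintype.card F) := Real.log_nonneg hq1
  have hlX : (0 : ℝ) ≤ Real.log X := Real.log_nonneg hX
  have hnR : (2 : ℝ) ≤ (n : ℝ) := by exact_mod_cast hn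
  have hn2R : (n : ℝ) ≤ (n2 : ℝ) := by exact_mod_cast hn2
  have hbr : (0 : ℝ) ≤ Real.log (1 + Real.log X / ((n : ℝ) + Real.log (Fintype.card F))) := by
    apply Real.log_nonneg
    have : (0 : ℝ) ≤ Real.log X / ((n : ℝ) + Real.log (Fintype.card F)) := by positivity
    linarith
  have hlog : Real.log n ≤ Real.log ((n2 : ℝ) + 2) := Real.log_le_log (by linarith) (by linarith)
  have hCpos : (0 : ℝ) ≤ C0 * (1 + Real.log ((n2 : ℝ) + 2)) := by nlinarith
  have h1 : C0 * Real.log n ≤ m := by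
    have e1 : C0 * Real.log n ≤ C0 * (1 + Real.log ((n2 : ℝ) + 2)) := by nlinarith
    have e2 : C0 * (1 + Real.log ((n2 : ℝ) + 2)) ≤ C0 * (1 + Real.log ((n2 : ℝ) + 2)) *
        (1 + Real.log (1 + Real.log X / ((n : ℝ) + Real.log (Fintype.card F)))) := by nlinarith
    linarith
  have h2 := le_trans (h n F hn hn2 hQ2 m h1) (sat_of_expd (G := SLn n F) m X (1 / 8))
  have hpos : (0 : ℝ) < (Nat.card (SLn n F) : ℝ) ^ m := by
    have : (0 : ℝ) < (Nat.card (SLn n F) : ℝ) := by exact_mod_cast Nat.card_pos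
    positivity
  rwa [le_div_iff₀ hpos] at h2

end Pool.Agent.BC5
end

section
set_option autoImplicit false
set_option linter.unusedSectionVars false
set_option linter.unusedVariables false
open scoped BigOperators Matrix
open Matrix
namespace Pool.Agent.BC5


theorem GF5_le {n m : ℕ} {F : Type} [Field F] [Fintype F] [DecidableEq F] {X c : ℝ}
    (h : c * (Nat.card (SLn n F) : ℝ) ^ m ≤ (Nat.card (SatExpd (SLn n F) m X (1 / 8)) : ℝ)) :
    c ≤ (Nat.card (SatExpd (SLn n F) m X (1 / 8)) : ℝ) / (Nat.card (SLn n F) : ℝ) ^ m := by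
  have : Finite (SLn n F) := inferInstance
  have h0 : (0 : ℝ) < (Nat.card (SLn n F) : ℝ) := by exact_mod_cast Nat.card_pos
  rw [le_div_iff₀ (pow_pos h0 m)]
  exact h

theorem SL_graded : ∃ C κ : ℝ, 0 < κ ∧ ∀ n : ℕ, 2 ≤ n → ∀ (F : Type) [Field F] [Finite F]
    (N : Subgroup (Matrix.SpecialLinearGroup (Fin n) F)) [N.Normal] (X : ℝ) (m : ℕ), 1 ≤ X →
    C * (1 + Real.log (1 + Real.log X / ((n : ℝ) + Real.log (Nat.card F)))) ≤ m →
      1 - ((Nat.card F : ℝ) * Real.exp n) ^ (-κ) ≤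
        (Nat.card (SatExpd (Matrix.SpecialLinearGroup (Fin n) F ⧸ N) m X (1 / 8)) : ℝ) /
          (Nat.card (Matrix.SpecialLinearGroup (Fin n) F ⧸ N) : ℝ) ^ m := by
  obtain ⟨CA, kA, hCA, hkA, Q1, hA⟩ := sat_A
  obtain ⟨CB, kB, hCB, hkB, n1, hB⟩ := sat_B
  obtain ⟨CS, kS, hCS, hkS, hS⟩ := sat_small (max n1 ⌈Real.log Q1⌉₊) (max Q1 ⌈Real.exp n1⌉₊)
  refine ⟨max CA (max CB CS), min kA (min kB kS), lt_min hkA (lt_min hkB hkS), ?_⟩
  intro n hn F _ _ N _ X m hX hm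
  classical
  have : Fintype F := Fintype.ofFinite F
  rw [Nat.card_eq_fintype_card (α := F)] at hm
  rw [Nat.card_eq_fintype_card (α := F)]
  refine le_trans ?_ (sat_quotient N m X (1 / 8))
  have hq2 : 2 ≤ Fintype.card F := Fintype.one_lt_card
  have hqR : (2 : ℝ) ≤ (Fintype.card F : ℝ) := by exact_mod_cast hq2
  have hn' : (2 : ℝ) ≤ n := by exact_mod_cast hn
  have hlF : (0 : ℝ) ≤ Real.log (Fintype.card F) := Real.log_nonneg (by linarith)
  have hbr : (0 : ℝ) ≤ 1 + Real.log (1 + Real.log X / ((n : ℝ) + Real.log (Fintype.card F))) := by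
    have h1 : (0 : ℝ) ≤ Real.log X / ((n : ℝ) + Real.log (Fintype.card F)) :=
      div_nonneg (Real.log_nonneg hX) (by linarith)
    have h2 : (0 : ℝ) ≤ Real.log (1 + Real.log X / ((n : ℝ) + Real.log (Fintype.card F))) :=
      Real.log_nonneg (by linarith)
    linarith
  have hX1 : (1 : ℝ) ≤ (Fintype.card F : ℝ) * Real.exp n := by
    have h1 : (1 : ℝ) ≤ Real.exp n := Real.one_le_exp (by linarith)
    nlinarith
  have hmono : ∀ k : ℝ, min kA (min kB kS) ≤ k →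
      1 - ((Fintype.card F : ℝ) * Real.exp n) ^ (-(min kA (min kB kS))) ≤
        1 - ((Fintype.card F : ℝ) * Real.exp n) ^ (-k) := by
    intro k hk
    have := Real.rpow_le_rpow_of_exponent_le hX1 (neg_le_neg hk)
    linarith
  have hCmono : ∀ c : ℝ, c ≤ max CA (max CB CS) →
      c * (1 + Real.log (1 + Real.log X / ((n : ℝ) + Real.log (Fintype.card F)))) ≤ m := fun c hc =>
    (mul_le_mul_of_nonneg_right hc hbr).trans hm
  by_cases h1 : Q1 ≤ Fintype.card F ∧ (n : ℝ) ≤ Real.log (Fintype.card F)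
  · exact (hmono kA (min_le_left _ _)).trans
      (GF5_le (hA n F hn h1.1 h1.2 X m (hCmono CA (le_max_left _ _))))
  · by_cases h2 : n1 ≤ n ∧ Real.log (Fintype.card F) ≤ n
    · exact (hmono kB ((min_le_right _ _).trans (min_le_left _ _))).trans
        (GF5_le (hB n F h2.1 h2.2 X m (hCmono CB ((le_max_left _ _).trans (le_max_right _ _)))))
    · refine (hmono kS ((min_le_right _ _).trans (min_le_right _ _))).trans ?_
      have hcase : n ≤ max n1 ⌈Real.log Q1⌉₊ ∧ Fintype.card F ≤ max Q1 ⌈Real.exp n1⌉₊ := by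
        rcases le_or_gt (n : ℝ) (Real.log (Fintype.card F)) with h3 | h3
        · have hq : Fintype.card F < Q1 := by
            by_contra hc
            exact h1 ⟨not_lt.1 hc, h3⟩
          have hlq : Real.log (Fintype.card F) ≤ Real.log Q1 :=
            Real.log_le_log (by linarith) (by exact_mod_cast hq.le)
          refine ⟨le_trans ?_ (le_max_right _ _), le_trans hq.le (le_max_left _ _)⟩
          have : (n : ℝ) ≤ (⌈Real.log Q1⌉₊ : ℝ) := (h3.trans hlq).trans (Nat.le_ceil _)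
          exact_mod_cast this
        · have hnn : n < n1 := by
            by_contra hc
            exact h2 ⟨not_lt.1 hc, h3.le⟩
          refine ⟨le_trans hnn.le (le_max_left _ _), le_trans ?_ (le_max_right _ _)⟩
          have h4 : (Fintype.card F : ℝ) ≤ Real.exp n1 := by
            rw [← Real.exp_log (by linarith : (0 : ℝ) < (Fintype.card F : ℝ))]
            refine Real.exp_le_exp.2 (h3.le.trans ?_)
            exact_mod_cast hnn.le
          have : (Fintype.card F : ℝ) ≤ (⌈Real.exp n1⌉₊ : ℝ) := h4.trans (Nat.le_ceil _)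
          exact_mod_cast this
      exact GF5_le (hS n F hn hcase.1 hcase.2 X m hX (hCmono CS ((le_max_right _ _).trans (le_max_right _ _))))

end Pool.Agent.BC5
end

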