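import Pool.Agent.Lib.MP_bc5a73_al.QuasiVar
import Pool.Agent.Lib.MP_bc5a73_al.General
import Pool.Agent.Lib.MP_bc5a73_al.BoundedFinal
import Pool.Agent.Lib.MP_bc5a73_al.StatementSat
import Pool.Agent.Lib.MP_bc5a73_al.RankStep
import Pool.Agent.Lib.MP_bc5a73_al.QuasiDefs
import Pool.Agent.Lib.MP_bc5a73_al.Stage
import Mathlib.LinearAlgebra.Matrix.Kronecker
import Pool.Agent.Lib.MP_bc5a73_al.SmallIndex
import Mathlib.LinearAlgebra.Matrix.Vec

section
set_option autoImplicit false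
set_option linter.unusedSectionVars false
set_option linter.unusedVariables false
open scoped BigOperators Matrix
open Matrix
namespace Pool.Agent.BC5


variable {G : Type} [Group G] [Fintype G] [DecidableEq G]

theorem GA1_avg_sq {P : Matrix G G ℝ} (hP : IsPr P) (hPL : CommL P) (hne : P ≠ 0) :
    1 ≤ avg (fun h : G => (P * Lm h).trace ^ 2) := by
  have hc : (Fintype.card G : ℝ) ≠ 0 := by exact_mod_cast Fintype.card_ne_zero
  have hPP : ∀ h k : G, (P * Lm h) * (P * Lm k) = P * Lm (h * k) := by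
    intro h k
    calc (P * Lm h) * (P * Lm k) = P * (Lm h * P) * Lm k := by noncomm_ring
      _ = P * (P * Lm h) * Lm k := by rw [(hPL h).eq]
      _ = (P * P) * (Lm h * Lm k) := by noncomm_ring
      _ = P * Lm (h * k) := by rw [hP.2, Lm_mul]
  have hPt : ∀ h : G, (P * Lm h)ᵀ = P * Lm h⁻¹ := by
    intro h
    rw [Matrix.transpose_mul, Lm_transpose, hP.1, (hPL h⁻¹).eq]
  obtain ⟨Q, hQ⟩ : ∃ Q : Matrix (G × G) (G × G) ℝ, Q = ((Fintype.card G : ℝ))⁻¹ • ∑ h : G,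
      Matrix.kronecker (P * Lm h) (P * Lm h) := ⟨_, rfl⟩
  have hQt : Qᵀ = Q := by
    rw [hQ, Matrix.transpose_smul, Matrix.transpose_sum]
    congr 1
    rw [← Equiv.sum_comp (Equiv.inv G)]
    refine Finset.sum_congr rfl fun h _ => ?_
    simp only [Equiv.inv_apply]
    unfold Matrix.kronecker
    rw [← Matrix.kroneckerMap_transpose, hPt, inv_inv]
  have hQQ : Q * Q = Q := by
    have h1 : ∀ h : G, Matrix.kronecker (P * Lm h) (P * Lm h) * (∑ k : G, Matrix.kronecker (P * Lm k) (P * Lm k)) =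
        ∑ k : G, Matrix.kronecker (P * Lm k) (P * Lm k) := by
      intro h
      rw [Matrix.mul_sum, ← Equiv.sum_comp (Equiv.mulLeft h) (fun k => Matrix.kronecker (P * Lm k) (P * Lm k))]
      refine Finset.sum_congr rfl fun k _ => ?_
      have h3 := Matrix.mul_kronecker_mul (P * Lm h) (P * Lm k) (P * Lm h) (P * Lm k)
      rw [hPP] at h3
      exact h3.symm
    rw [hQ, Matrix.smul_mul, Matrix.mul_smul, Matrix.sum_mul, Finset.sum_congr rfl fun h _ => h1 h,
      Finset.sum_const, Finset.card_univ, ← Nat.cast_smul_eq_nsmul ℝ, smul_smul, smul_smul, mul_assoc,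
      inv_mul_cancel₀ hc, mul_one]
  have hvec : Q *ᵥ Matrix.vec P = Matrix.vec P := by
    rw [hQ, Matrix.smul_mulVec, Matrix.sum_mulVec]
    have h1 : ∀ h : G, Matrix.kronecker (P * Lm h) (P * Lm h) *ᵥ Matrix.vec P = Matrix.vec P := by
      intro h
      have h2 := Matrix.kronecker_mulVec_vec (P * Lm h) P (P * Lm h)
      have h3 : (P * Lm h) * P * (P * Lm h)ᵀ = P := by
        rw [hPt]
        calc (P * Lm h) * P * (P * Lm h⁻¹) = P * (Lm h * (P * P)) * Lm h⁻¹ := by noncomm_ring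
          _ = P * (P * Lm h) * Lm h⁻¹ := by rw [hP.2, (hPL h).eq]
          _ = (P * P) * (Lm h * Lm h⁻¹) := by noncomm_ring
          _ = P := by rw [hP.2, Lm_mul_inv, mul_one]
      rw [h3] at h2
      exact h2
    rw [Finset.sum_congr rfl fun h _ => h1 h,
      Finset.sum_const, Finset.card_univ, ← Nat.cast_smul_eq_nsmul ℝ, smul_smul, inv_mul_cancel₀ hc, one_smul]
  have hQne : Q ≠ 0 := by
    intro h0
    rw [h0, Matrix.zero_mulVec] at hvec
    exact hne ((Matrix.vec_eq_zero_iff).1 hvec.symm)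
  have htr : Q.trace = avg (fun h : G => (P * Lm h).trace ^ 2) := by
    rw [hQ, Matrix.trace_smul, Matrix.trace_sum]
    unfold avg
    congr 1
    refine Finset.sum_congr rfl fun h _ => ?_
    have h3 := Matrix.trace_kronecker (P * Lm h) (P * Lm h)
    rw [← sq] at h3
    exact h3
  rw [← htr]
  exact one_le_trace ⟨hQt, hQQ⟩ hQne

theorem GA1_char {E P : Matrix G G ℝ} (hE : IsBlock E) (hP : IsPr P) (hPL : CommL P) (hPE : E * P = P) (h : G) :
    (P * Lm h).trace = P.trace / E.trace * (E * Lm h).trace := by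
  have hEP : P * E = P := by
    have h1 := congrArg Matrix.transpose hPE
    rw [Matrix.transpose_mul, hP.1, hE.1.1] at h1
    exact h1
  have hsch := schurR hE hP.1 hPL
  rw [hEP, G4_avg_mul] at hsch
  have h2 := congrArg (fun M : Matrix G G ℝ => (M * Lm h).trace) hsch
  beta_reduce at h2
  rw [G4_avg_mul, Matrix.smul_mul, Matrix.trace_smul, smul_eq_mul] at h2
  rw [← h2]
  symm
  apply G4_trace_avg
  intro g
  have e1 : Rm g * P * Rm g⁻¹ * E * Lm h = Rm g * (P * (E * Lm h) * Rm g⁻¹) := by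
    calc Rm g * P * Rm g⁻¹ * E * Lm h = Rm g * P * (Rm g⁻¹ * (E * Lm h)) := by noncomm_ring
      _ = Rm g * P * ((E * Lm h) * Rm g⁻¹) := by
        have hc : Commute (E * Lm h) (Rm g⁻¹) := (hE.2.2.1 g⁻¹).mul_left (commR_Lm h g⁻¹)
        rw [hc.eq]
      _ = Rm g * (P * (E * Lm h) * Rm g⁻¹) := by noncomm_ring
  rw [e1, Matrix.trace_mul_comm, mul_assoc, Rm_inv_mul, mul_one, ← Matrix.mul_assoc, hEP]

theorem GA1_avg_trace_sq {E : Matrix G G ℝ} (hE : IsBlock E) :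
    avg (fun g : G => (E * Lm g).trace ^ 2) = E.trace := by
  rw [← avg_trace_sq hE]
  congr 1
  funext g
  rw [trace_mul_Rm hE.1.1 hE.2.1 hE.2.2.1]

theorem trace_le_sq {E P : Matrix G G ℝ} (hE : IsBlock E) (hP : IsPr P) (hPL : CommL P) (hPE : E * P = P) (hne : P ≠ 0) :
    E.trace ≤ P.trace ^ 2 := by
  have hEpos : 0 < E.trace := lt_of_lt_of_le one_pos (block_trace_pos hE)
  have h1 := GA1_avg_sq hP hPL hne
  have h2 : (fun h : G => (P * Lm h).trace ^ 2) = fun h : G => (P.trace / E.trace) ^ 2 * (E * Lm h).trace ^ 2 := by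
    funext h
    rw [GA1_char hE hP hPL hPE h, mul_pow]
  rw [h2, avg_mul_left, GA1_avg_trace_sq hE] at h1
  have h3 : (P.trace / E.trace) ^ 2 * E.trace = P.trace ^ 2 / E.trace := by
    field_simp
  rw [h3, le_div_iff₀ hEpos, one_mul] at h1
  exact h1

end Pool.Agent.BC5
end

section
set_option autoImplicit false
set_option linter.unusedSectionVars false
set_option linter.unusedVariables false
open scoped BigOperators Matrix
open Matrix
namespace Pool.Agent.BC5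


variable {G : Type} [Group G] [Fintype G] [DecidableEq G]


theorem trace_le_index_sq {E : Matrix G G ℝ} (hE : IsBlock E) (H : Subgroup G) (h : avL (subF H) * E ≠ 0) :
    E.trace ≤ (H.index : ℝ) ^ 2 := by
  have h1 := block_trace_le hE (subF_isGrp H) h
  rwa [card_div_subF] at h1

theorem GA2_Rm_mul_Jm (g : G) : Rm g * Jm G = Jm G := by
  ext x y
  simp [Rm, Jm, Matrix.mul_apply]

theorem GA2_avR_mul_Jm {S : Finset G} (hS : IsGrp S) : avR S * Jm G = Jm G := by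
  have hc : (S.card : ℝ) ≠ 0 := by
    have : S.card ≠ 0 := Finset.card_ne_zero_of_mem hS.one
    exact_mod_cast this
  rw [avR, Matrix.smul_mul, Matrix.sum_mul, Finset.sum_congr rfl (fun h _ => GA2_Rm_mul_Jm h), Finset.sum_const,
    ← Nat.cast_smul_eq_nsmul ℝ, smul_smul, inv_mul_cancel₀ hc, one_smul]

theorem GA2_Jm_mul_avR {S : Finset G} (hS : IsGrp S) : Jm G * avR S = Jm G := by
  have h := congrArg Matrix.transpose (GA2_avR_mul_Jm hS)
  rw [Matrix.transpose_mul, (Jm_isBlock (G := G)).1.1, (avR_isPr hS).1] at h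
  exact h

theorem GA2_Q_isPr {S : Finset G} (hS : IsGrp S) : IsPr (avR S - Jm G) := by
  constructor
  · rw [Matrix.transpose_sub, (Jm_isBlock (G := G)).1.1, (avR_isPr hS).1]
  · have h1 : (avR S - Jm G) * (avR S - Jm G)
        = avR S * avR S - avR S * Jm G - Jm G * avR S + Jm G * Jm G := by noncomm_ring
    rw [h1, (avR_isPr hS).2, GA2_avR_mul_Jm hS, GA2_Jm_mul_avR hS, (Jm_isBlock (G := G)).1.2]
    abel

theorem GA2_Q_commL (S : Finset G) : CommL (avR S - Jm G) := by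
  intro g
  exact (avR_commL S g).sub_left ((Jm_isBlock (G := G)).2.1 g)

theorem GA2_trace_avR {S : Finset G} (hS : IsGrp S) : (avR S).trace = (Fintype.card G : ℝ) / (S.card : ℝ) := by
  have h := G7_trace_avR (G := G) (E := 1) Matrix.transpose_one (fun g => Commute.one_left _) (fun g => Commute.one_left _) S
  rw [one_mul, one_mul] at h
  rw [h, trace_avL hS]

theorem QR_index_top {d : ℝ} (hd : QR G d) (H : Subgroup G) (hH : (H.index : ℝ) < d) : H = ⊤ := by
  have hS := subF_isGrp H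
  have ht : (avR (subF H) - Jm G).trace = (H.index : ℝ) - 1 := by
    rw [Matrix.trace_sub, GA2_trace_avR hS, trace_Jm, card_div_subF]
  have h0 : avR (subF H) - Jm G = 0 := by
    by_contra hne
    have h1 := hd _ (GA2_Q_isPr hS) (GA2_Q_commL _) hne
      (by rw [Matrix.sub_mul, GA2_avR_mul_Jm hS, (Jm_isBlock (G := G)).1.2, sub_self])
    rw [ht] at h1
    linarith
  rw [h0, Matrix.trace_zero] at ht
  have h2 : (H.index : ℝ) = 1 := by linarith
  have h3 : H.index = 1 := by exact_mod_cast h2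
  exact Subgroup.index_eq_one.1 h3

end Pool.Agent.BC5
end

section
set_option autoImplicit false
set_option linter.unusedSectionVars false
set_option linter.unusedVariables false
open scoped BigOperators Matrix
open Matrix
namespace Pool.Agent.BC5


variable {G : Type} [Group G] [Fintype G] [DecidableEq G]


theorem final_sat {N m : ℕ} (hN : 1 ≤ N) (hm : 2560 * N ≤ m) (X δ' : ℝ)
    (h : frac (fun x : Fin N × Fin 2560 → G => ¬ ∀ E : Matrix G G ℝ, IsBlock E → E ≠ Jm G → E.trace ≤ X ^ 2 →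
      NormP x E (3 / 4) N) ≤ δ') :
    (1 - δ') * (Nat.card G : ℝ) ^ m ≤ (Nat.card (SatExpd G m X (1 / 8)) : ℝ) := by
  classical
  obtain ⟨e, he⟩ : ∃ e : Fin N × Fin 2560 → Fin m, Function.Injective e := by
    have hc : Fintype.card (Fin N × Fin 2560) ≤ Fintype.card (Fin m) := by
      rw [Fintype.card_prod, Fintype.card_fin, Fintype.card_fin, Fintype.card_fin]
      omega
    obtain ⟨f⟩ := Function.Embedding.nonempty_of_card_le hc
    exact ⟨f, f.injective⟩
  have hne : Nonempty (Fin m → G) := ⟨fun _ => 1⟩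
  obtain ⟨P, hP⟩ : ∃ P : (Fin N × Fin 2560 → G) → Prop, P = fun x =>
      ∀ E : Matrix G G ℝ, IsBlock E → E ≠ Jm G → E.trace ≤ X ^ 2 → NormP x E (3 / 4) N := ⟨_, rfl⟩
  have h0 : frac (fun x : Fin N × Fin 2560 → G => ¬ P x) ≤ δ' := by rw [hP]; exact h
  have h1 : frac (fun x : Fin m → G => ¬ P (fun i => x (e i))) ≤ δ' :=
    (frac_comp_injective e he (fun x => ¬ P x)).trans_le h0
  rw [frac_not] at h1
  have h2 : 1 - δ' ≤ frac (fun x : Fin m → G => P (fun i => x (e i))) := by linarith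
  have h3 : frac (fun x : Fin m → G => P (fun i => x (e i))) ≤ frac (fun x : Fin m → G =>
      x ∈ SatExpd G m X (1 / 8)) := by
    refine frac_mono fun x hx => ?_
    rw [hP] at hx
    intro H hH A hA
    have hne2 : Nonempty (Fin N × Fin 2560) := ⟨(⟨0, by omega⟩, ⟨0, by norm_num⟩)⟩
    have hinv : ∀ B : Finset G, (∀ h ∈ H, ∀ g ∈ B, h * g ∈ B) → 2 * B.card ≤ Fintype.card G →
        1 / 8 * (B.card : ℝ) ≤
          avg (fun i : Fin N × Fin 2560 => ((B.image (fun g => g * x (e i)) \ B).card : ℝ)) := by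
      intro B hB hcard
      refine inv_expand hN (by norm_num) (fun i => x (e i)) H ?_ B hB hcard
      intro E hE hEJ hav f hf
      have htr : E.trace ≤ X ^ 2 := (trace_le_index_sq hE H hav).trans
        (pow_le_pow_left₀ (Nat.cast_nonneg _) hH 2)
      have h5 := hx E hE hEJ htr (Finset.univ : Finset (Fin N)) (by
        rw [Finset.card_univ, Fintype.card_fin]) f hf
      exact (le_abs_self _).trans h5
    have hmem : ∀ g : G, g ∈ A.toFinset ↔ g ∈ A := fun g => Set.mem_toFinset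
    have hco := coarea H (fun i : Fin N × Fin 2560 => x (e i)) hinv A.toFinset (by
      rw [Nat.card_eq_fintype_card (α := G)] at hA
      have hAA : Nat.card {g : G // ∃ h ∈ H, h * g ∈ A.toFinset} = Nat.card {g : G // ∃ h ∈ H, h * g ∈ A} := by
        refine Nat.card_congr (Equiv.subtypeEquivRight fun g => ?_)
        simp only [hmem]
      rw [hAA]
      exact hA)
    have hcA : (Nat.card A : ℝ) = (A.toFinset.card : ℝ) := by
      rw [Nat.card_eq_fintype_card, Set.toFinset_card]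
    rw [hcA]
    refine hco.trans (avg_le_of_le fun i => ?_)
    have hT : (Nat.card {g : G // g ∉ A ∧ ∃ a ∈ A, ∃ i : Fin m, g = a * x i ∨ g = a * (x i)⁻¹}) =
        (Finset.univ.filter (fun g : G => g ∉ A ∧ ∃ a ∈ A, ∃ i : Fin m, g = a * x i ∨ g = a * (x i)⁻¹)).card := by
      rw [Nat.card_eq_fintype_card, Fintype.card_subtype]
    rw [hT]
    refine Nat.cast_le.2 (Finset.card_le_card fun g hg => ?_)
    rw [Finset.mem_sdiff, Finset.mem_image] at hg
    obtain ⟨⟨a, ha, rfl⟩, hg2⟩ := hg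
    rw [Finset.mem_filter]
    exact ⟨Finset.mem_univ _, fun h => hg2 ((hmem _).2 h), a, (hmem a).1 ha, e i, Or.inl rfl⟩
  have h4 := frac_eq_card (fun x : Fin m → G => x ∈ SatExpd G m X (1 / 8))
  have h5 : (Nat.card (Fin m → G) : ℝ) = (Nat.card G : ℝ) ^ m := by
    rw [Nat.card_fun, Nat.card_eq_fintype_card (α := Fin m), Fintype.card_fin]
    push_cast; rfl
  rw [h5] at h4
  have h6 : (Nat.card (SatExpd G m X (1 / 8)) : ℝ) =
      (Nat.card {x : Fin m → G // x ∈ SatExpd G m X (1 / 8)} : ℝ) := rfl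
  rw [h6, ← h4]
  exact mul_le_mul_of_nonneg_right (le_trans h2 h3) (by positivity)

theorem sat_top {m : ℕ} {X : ℝ} {d : ℝ} (hd : QR G d) (hX : X < d) (ε : ℝ) :
    (Nat.card (SatExpd G m X ε) : ℝ) = (Nat.card G : ℝ) ^ m := by
  have hall : SatExpd G m X ε = Set.univ := by
    refine Set.eq_univ_of_forall fun x => ?_
    intro H hH A hA
    have hHt : H = ⊤ := QR_index_top hd H (lt_of_le_of_lt hH hX)
    by_cases hne : A.Nonempty
    · exfalso
      obtain ⟨a, ha⟩ := hne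
      have h1 : Nat.card {g : G // ∃ h ∈ H, h * g ∈ A} = Nat.card G := by
        refine Nat.card_congr ((Equiv.subtypeUnivEquiv fun g => ?_))
        refine ⟨a * g⁻¹, ?_, ?_⟩
        · rw [hHt]; exact Subgroup.mem_top _
        · rw [inv_mul_cancel_right]; exact ha
      rw [h1] at hA
      have h2 : 0 < Nat.card G := Nat.card_pos
      omega
    · rw [Set.not_nonempty_iff_eq_empty] at hne
      have h1 : (Nat.card A : ℝ) = 0 := by
        rw [hne]
        simp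
      rw [h1, mul_zero]
      exact Nat.cast_nonneg _
  have h5 : (Nat.card (Fin m → G) : ℝ) = (Nat.card G : ℝ) ^ m := by
    rw [Nat.card_fun, Nat.card_eq_fintype_card (α := Fin m), Fintype.card_fin]
    push_cast; rfl
  rw [hall, ← h5, Nat.card_univ]

theorem sat_mono {m : ℕ} {X X' ε : ℝ} (hX : min X (Nat.card G) ≤ X') :
    (Nat.card (SatExpd G m X' ε) : ℝ) ≤ (Nat.card (SatExpd G m X ε) : ℝ) := by
  have hsub : SatExpd G m X' ε ⊆ SatExpd G m X ε := by
    intro x hx H hH A hA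
    refine hx H ?_ A hA
    refine le_trans ?_ hX
    refine le_min hH ?_
    have h1 : H.index ≤ Nat.card G := Nat.le_of_dvd Nat.card_pos H.index_dvd_card
    exact_mod_cast h1
  have h2 : Nat.card (SatExpd G m X' ε) ≤ Nat.card (SatExpd G m X ε) :=
    Nat.card_le_card_of_injective (Set.inclusion hsub) (Set.inclusion_injective hsub)
  exact_mod_cast h2

end Pool.Agent.BC5
end

section
set_option autoImplicit false
set_option linter.unusedSectionVars false
set_option linter.unusedVariables false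
open scoped BigOperators Matrix
open Matrix
namespace Pool.Agent.BC5


variable {G : Type} [Group G] [Fintype G] [DecidableEq G]


theorem norm_block3 {N : ℕ} {d : ℝ} (hd : QR G d) (lam : ℕ) (hlam : 32 ≤ lam) (hdl : (2 : ℝ) ^ lam ≤ d)
    {E : Matrix G G ℝ} (hE : IsBlock E) (h I J a : ℕ) (hh : 1 ≤ h) (hN1 : 8 ≤ N)
    (hJ1 : 4 * a * 2 ^ J + 40 ≤ lam) (hJ2 : lam < 4 * a * 2 ^ (J + 1) + 40) (hq : 640 ≤ a * 2 ^ (J + 1) + 10)
    (hN : 96 * (h * (J + 2) + I) ≤ N) (hD : E.trace < 2 ^ (2 ^ I * (2 * h * (a * 2 ^ (J + 1) + 10)))) :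
    frac (fun x : Fin N × Fin 2560 → G => StartP x E (1 / 2) 1 ((1 / 2 : ℝ) ^ (a + 10)) ∧ ¬ NormP x E (3 / 4) N)
      ≤ ((J : ℝ) + 1) * (4 ^ N * (1 / 2 : ℝ) ^ (80 * h * lam)) +
        ((I : ℝ) + 1) * (4 ^ (N + 1) * (1 / 2 : ℝ) ^ (h * lam)) := by
  have hlE0 : (0 : ℝ) ≤ 1 := zero_le_one
  obtain ⟨q, hq'⟩ : ∃ q : ℕ, q = a * 2 ^ (J + 1) + 10 := ⟨_, rfl⟩
  obtain ⟨v0, hv0⟩ : ∃ v0 : ℕ, v0 = N - N / 8 := ⟨_, rfl⟩
  have hq4 : lam < 4 * q := by
    have e : 4 * q = 4 * a * 2 ^ (J + 1) + 40 := by rw [hq']; ring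
    omega
  rw [← hq'] at hq hD
  obtain ⟨b, hb⟩ : ∃ b : ℕ, b = h * (J + 2) := ⟨_, rfl⟩
  rw [← hb] at hN
  have hv8 : 7 * N ≤ 8 * v0 := by omega
  have hvN : v0 + b + I ≤ N := by omega
  have hv1 : 1 ≤ v0 := by omega
  have hvr : 7 * (N : ℝ) ≤ 8 * v0 := by exact_mod_cast hv8
  have hN0 : (0 : ℝ) < N := by
    have : 1 ≤ N := by omega
    exact_mod_cast this
  have hh1 : (1 : ℝ) ≤ h := by exact_mod_cast hh
  have hh0 : (0 : ℝ) ≤ h := by linarith
  have hv00 : (0 : ℝ) ≤ (v0 : ℝ) := Nat.cast_nonneg _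
  have hJ0 : (0 : ℝ) ≤ (J : ℝ) := Nat.cast_nonneg _
  have hI0 : (0 : ℝ) ≤ (I : ℝ) := Nat.cast_nonneg _
  have hbr : (b : ℝ) = h * (J + 2) := by
    rw [hb]; push_cast; ring
  have hNr : 96 * ((b : ℝ) + I) ≤ N := by exact_mod_cast hN
  obtain ⟨δ, hδ⟩ : ∃ δ : ℝ, δ = 12 * h / N := ⟨_, rfl⟩
  have hδ0 : 0 < δ := by
    rw [hδ]
    have : (0 : ℝ) < 12 * h := by linarith
    positivity
  have hη0 : (0 : ℝ) < 12 / N := by positivity
  have hvδ : 10 * (h : ℝ) ≤ v0 * δ := by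
    rw [hδ, mul_div_assoc', le_div_iff₀ hN0]
    nlinarith
  have hvη : (10 : ℝ) ≤ v0 * (12 / N) := by
    rw [mul_div_assoc', le_div_iff₀ hN0]
    linarith
  have hB := early_iter2 (N := N) hd lam hlam hdl hE h hh (5 / 8) δ v0 le_rfl hδ0 hv00 hvδ a J hJ1
  rw [← hq'] at hB
  have hJh : (0 : ℝ) ≤ ((J : ℝ) + 1) * h := by positivity
  have hJδ : (0 : ℝ) ≤ ((J : ℝ) + 1) * δ := by positivity
  have htr : E.trace < 2 ^ (2 ^ I * (2 * h * q)) := hD
  have hC := block_norm (N := N) hE h q I hh hq (5 / 8 + (J + 1) * δ) δ (12 / N) (v0 + (J + 1) * h)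
    (by linarith) hδ0 (by linarith) hη0 (by linarith)
    (by
      have : 0 ≤ (((J : ℝ) + 1) * h + h) * δ := by positivity
      nlinarith)
    (by
      have : 0 ≤ (((J : ℝ) + 1) * h) * (12 / N) := by positivity
      nlinarith)
    htr
  have hC2 : ((I : ℝ) + 1) * (4 ^ (N + 1) * (1 / 2 : ℝ) ^ (4 * h * q)) ≤
      ((I : ℝ) + 1) * (4 ^ (N + 1) * (1 / 2 : ℝ) ^ (h * lam)) := by
    have h1 : h * lam ≤ 4 * h * q := by
      calc h * lam ≤ h * (4 * q) := Nat.mul_le_mul_left h hq4.le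
        _ = 4 * h * q := by ring
    have h2 : (1 / 2 : ℝ) ^ (4 * h * q) ≤ (1 / 2 : ℝ) ^ (h * lam) :=
      pow_le_pow_of_le_one (by norm_num) (by norm_num) h1
    exact mul_le_mul_of_nonneg_left (mul_le_mul_of_nonneg_left h2 (by positivity)) (by positivity)
  have hsub : frac (fun x : Fin N × Fin 2560 → G => StartP x E (1 / 2) 1 ((1 / 2 : ℝ) ^ (a + 10)) ∧
        ¬ NormP x E (3 / 4) N) ≤
      frac (fun x : Fin N × Fin 2560 → G =>
        (StartP x E (5 / 8) v0 ((1 / 2 : ℝ) ^ (a + 10)) ∧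
          ¬ StartP x E (5 / 8 + (J + 1) * δ) (v0 + (J + 1) * h) ((1 / 2 : ℝ) ^ q)) ∨
        (StartP x E (5 / 8 + (J + 1) * δ) (v0 + (J + 1) * h) ((1 / 2 : ℝ) ^ q) ∧
          ¬ NormP x E (5 / 8 + (J + 1) * δ + δ + I * (12 / N)) (v0 + (J + 1) * h + h + I))) := by
    refine frac_mono fun x hx => ?_
    obtain ⟨hS, hx⟩ := hx
    by_cases hS1 : StartP x E (5 / 8 + (J + 1) * δ) (v0 + (J + 1) * h) ((1 / 2 : ℝ) ^ q)
    · right
      refine ⟨hS1, fun hNn => hx (hNn.mono ?_ ?_)⟩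
      · have h1 : 5 / 8 + ((J : ℝ) + 1) * δ + δ + I * (12 / N) = 5 / 8 + 12 * (b + I) / N := by
          rw [hδ, hbr]
          field_simp
          ring
        rw [h1]
        have h2 : 12 * ((b : ℝ) + I) / N ≤ 1 / 8 := by
          rw [div_le_iff₀ hN0]
          linarith
        linarith
      · have h1 : ((v0 + b + I : ℕ) : ℝ) ≤ N := by exact_mod_cast hvN
        push_cast at h1
        rw [hbr] at h1
        linarith
    · left
      refine ⟨QC6_start_mono hE (fun R hR => hS R ?_) (by norm_num), hS1⟩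
      have h1 : (1 : ℝ) ≤ v0 := by exact_mod_cast hv1
      linarith
  have hor2 := frac_or_le (fun x : Fin N × Fin 2560 → G => StartP x E (5 / 8) v0 ((1 / 2 : ℝ) ^ (a + 10)) ∧
          ¬ StartP x E (5 / 8 + (J + 1) * δ) (v0 + (J + 1) * h) ((1 / 2 : ℝ) ^ q))
    (fun x : Fin N × Fin 2560 → G => StartP x E (5 / 8 + (J + 1) * δ) (v0 + (J + 1) * h) ((1 / 2 : ℝ) ^ q) ∧
          ¬ NormP x E (5 / 8 + (J + 1) * δ + δ + I * (12 / N)) (v0 + (J + 1) * h + h + I))
  exact hsub.trans (hor2.trans (add_le_add hB (hC.trans hC2)))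

theorem norm_all3 {N : ℕ} {d : ℝ} (hd : QR G d) (lam : ℕ) (hlam : 32 ≤ lam) (hdl : (2 : ℝ) ^ lam ≤ d)
    (h I J a : ℕ) (hh : 1 ≤ h) (hN1 : 8 ≤ N)
    (hJ1 : 4 * a * 2 ^ J + 40 ≤ lam) (hJ2 : lam < 4 * a * 2 ^ (J + 1) + 40) (hq : 640 ≤ a * 2 ^ (J + 1) + 10)
    (hN : 96 * (h * (J + 2) + I) ≤ N) (D : ℝ) (hD : D < 2 ^ (2 ^ I * (2 * h * (a * 2 ^ (J + 1) + 10))))
    {δ1 : ℝ} (hst : frac (fun x : Fin N × Fin 2560 → G => ¬ ∀ E : Matrix G G ℝ, IsBlock E → E ≠ Jm G →
      StartP x E (1 / 2) 1 ((1 / 2 : ℝ) ^ (a + 10))) ≤ δ1) :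
    frac (fun x : Fin N × Fin 2560 → G => ¬ ∀ E : Matrix G G ℝ, IsBlock E → E ≠ Jm G → E.trace ≤ D → NormP x E (3 / 4) N)
      ≤ δ1 + (kc G : ℝ) * (((J : ℝ) + 1) * (4 ^ N * (1 / 2 : ℝ) ^ (80 * h * lam)) +
        ((I : ℝ) + 1) * (4 ^ (N + 1) * (1 / 2 : ℝ) ^ (h * lam))) := by
  classical
  obtain ⟨K, hK⟩ : ∃ K : ℝ, K = ((J : ℝ) + 1) * (4 ^ N * (1 / 2 : ℝ) ^ (80 * h * lam)) +
        ((I : ℝ) + 1) * (4 ^ (N + 1) * (1 / 2 : ℝ) ^ (h * lam)) := ⟨_, rfl⟩
  have hK0 : 0 ≤ K := by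
    rw [hK]
    positivity
  rw [← hK]
  obtain ⟨B, hB, -⟩ := exists_blocks G
  have h1 : frac (fun x : Fin N × Fin 2560 → G =>
      ¬ ∀ E : Matrix G G ℝ, IsBlock E → E ≠ Jm G → E.trace ≤ D → NormP x E (3 / 4) N) ≤
      frac (fun x : Fin N × Fin 2560 → G => (¬ ∀ E : Matrix G G ℝ, IsBlock E → E ≠ Jm G →
        StartP x E (1 / 2) 1 ((1 / 2 : ℝ) ^ (a + 10))) ∨ ∃ E ∈ B.filter (fun E => E ≠ Jm G ∧ E.trace ≤ D),
          (StartP x E (1 / 2) 1 ((1 / 2 : ℝ) ^ (a + 10)) ∧ ¬ NormP x E (3 / 4) N)) := by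
    refine frac_mono fun x hx => ?_
    by_cases hS : ∀ E : Matrix G G ℝ, IsBlock E → E ≠ Jm G → StartP x E (1 / 2) 1 ((1 / 2 : ℝ) ^ (a + 10))
    · right
      push Not at hx
      obtain ⟨E, hE, hEJ, hED, hn⟩ := hx
      exact ⟨E, Finset.mem_filter.2 ⟨(hB E).2 hE, hEJ, hED⟩, hS E hE hEJ, hn⟩
    · exact Or.inl hS
  have h2 := frac_exists_le (α := Fin N × Fin 2560 → G) (B.filter (fun E => E ≠ Jm G ∧ E.trace ≤ D))
    (fun E x => StartP x E (1 / 2) 1 ((1 / 2 : ℝ) ^ (a + 10)) ∧ ¬ NormP x E (3 / 4) N)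
  have h3 : ∑ E ∈ B.filter (fun E => E ≠ Jm G ∧ E.trace ≤ D), frac (fun x : Fin N × Fin 2560 → G =>
      StartP x E (1 / 2) 1 ((1 / 2 : ℝ) ^ (a + 10)) ∧ ¬ NormP x E (3 / 4) N) ≤
      ∑ E ∈ B.filter (fun E => E ≠ Jm G ∧ E.trace ≤ D), K := by
    refine Finset.sum_le_sum fun E hE => ?_
    obtain ⟨hE1, hE2⟩ := Finset.mem_filter.1 hE
    rw [hK]
    exact norm_block3 hd lam hlam hdl ((hB E).1 hE1) h I J a hh hN1 hJ1 hJ2 hq hN (lt_of_le_of_lt hE2.2 hD)
  rw [Finset.sum_const, nsmul_eq_mul] at h3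
  have h4 : ((B.filter (fun E => E ≠ Jm G ∧ E.trace ≤ D)).card : ℝ) ≤ kc G := by
    have h5 : (B.filter (fun E => E ≠ Jm G ∧ E.trace ≤ D)).card ≤ kc G :=
      (Finset.card_filter_le _ _).trans (card_blocks_le B fun E hE => (hB E).1 hE)
    exact_mod_cast h5
  have h6 := mul_le_mul_of_nonneg_right h4 hK0
  exact h1.trans ((frac_or_le _ _).trans (add_le_add hst (h2.trans (h3.trans h6))))

end Pool.Agent.BC5
end

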