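import Pool.Agent.Lib.MP_bc5a73_al.SlDecay

section
set_option autoImplicit false
set_option linter.unusedSectionVars false
set_option linter.unusedVariables false
open scoped BigOperators Matrix
open Matrix
namespace Pool.Agent.BC5


section SC1_group
variable {G : Type} [Group G]

theorem SC1_comm_closure {S T : Set G} (h : ∀ x ∈ S, ∀ y ∈ T, Commute x y) :
    ∀ x ∈ Subgroup.closure S, ∀ y ∈ Subgroup.closure T, Commute x y := by
  have h1 : ∀ x ∈ Subgroup.closure S, ∀ y ∈ T, Commute x y := by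
    intro x hx y hy
    induction hx using Subgroup.closure_induction with
    | mem x hx => exact h x hx y hy
    | one => exact Commute.one_left y
    | mul a b _ _ ha hb => exact ha.mul_left hb
    | inv a _ ha => exact ha.inv_left
  intro x hx y hy
  induction hy using Subgroup.closure_induction with
  | mem y hy => exact h1 x hx y hy
  | one => exact Commute.one_right x
  | mul a b _ _ ha hb => exact ha.mul_right hb
  | inv a _ ha => exact ha.inv_right

/-- In the group generated by the commutators `g⁻¹ x⁻¹ g x`, `x ∈ S`, all the elements are such commutators. -/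
theorem SC1_comm (g : G) (S : Set G) (h1 : ∀ x ∈ S, ∀ y ∈ S, Commute x y)
    (h2 : ∀ x ∈ S, ∀ y ∈ S, Commute x (g⁻¹ * y * g)) :
    ∀ k ∈ Subgroup.closure {z | ∃ x ∈ S, z = g⁻¹ * x⁻¹ * g * x}, ∃ τ : G, k = g⁻¹ * τ⁻¹ * g * τ := by
  have c1 := SC1_comm_closure h1
  have c2 : ∀ x ∈ Subgroup.closure S, ∀ y ∈ Subgroup.closure S, Commute x (g⁻¹ * y * g) := by
    have c3 : ∀ x ∈ S, ∀ y ∈ {z | ∃ y ∈ S, z = g⁻¹ * y * g}, Commute x y := by
      rintro x hx _ ⟨y, hy, rfl⟩
      exact h2 x hx y hy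
    have c4 := SC1_comm_closure c3
    intro x hx y hy
    refine c4 x hx _ ?_
    clear hx
    induction hy using Subgroup.closure_induction with
    | mem y hy => exact Subgroup.subset_closure ⟨y, hy, rfl⟩
    | one => simp
    | mul a b _ _ ha hb =>
      have : g⁻¹ * (a * b) * g = (g⁻¹ * a * g) * (g⁻¹ * b * g) := by group
      rw [this]; exact Subgroup.mul_mem _ ha hb
    | inv a _ ha =>
      have : g⁻¹ * a⁻¹ * g = (g⁻¹ * a * g)⁻¹ := by group
      rw [this]; exact Subgroup.inv_mem _ ha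
  intro k hk
  have key : ∃ τ ∈ Subgroup.closure S, k = g⁻¹ * τ⁻¹ * g * τ := by
    induction hk using Subgroup.closure_induction with
    | mem y hy =>
      obtain ⟨x, hx, rfl⟩ := hy
      exact ⟨x, Subgroup.subset_closure hx, rfl⟩
    | one => exact ⟨1, Subgroup.one_mem _, by group⟩
    | mul a b _ _ ha hb =>
      obtain ⟨x, hx, rfl⟩ := ha
      obtain ⟨y, hy, rfl⟩ := hb
      refine ⟨x * y, Subgroup.mul_mem _ hx hy, ?_⟩
      have e1 : x * (g⁻¹ * y⁻¹ * g) = (g⁻¹ * y⁻¹ * g) * x := (c2 x hx y⁻¹ (Subgroup.inv_mem _ hy)).eq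
      have e2 : x⁻¹ * y⁻¹ = y⁻¹ * x⁻¹ := (c1 x⁻¹ (Subgroup.inv_mem _ hx) y⁻¹ (Subgroup.inv_mem _ hy)).eq
      calc g⁻¹ * x⁻¹ * g * x * (g⁻¹ * y⁻¹ * g * y) = g⁻¹ * x⁻¹ * g * (x * (g⁻¹ * y⁻¹ * g)) * y := by group
        _ = g⁻¹ * x⁻¹ * g * ((g⁻¹ * y⁻¹ * g) * x) * y := by rw [e1]
        _ = g⁻¹ * (x⁻¹ * y⁻¹) * g * (x * y) := by group
        _ = g⁻¹ * (y⁻¹ * x⁻¹) * g * (x * y) := by rw [e2]
        _ = g⁻¹ * (x * y)⁻¹ * g * (x * y) := by group
    | inv a _ ha =>
      obtain ⟨x, hx, rfl⟩ := ha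
      refine ⟨x⁻¹, Subgroup.inv_mem _ hx, ?_⟩
      have e1 : x⁻¹ * (g⁻¹ * x * g) = (g⁻¹ * x * g) * x⁻¹ := (c2 x⁻¹ (Subgroup.inv_mem _ hx) x hx).eq
      calc (g⁻¹ * x⁻¹ * g * x)⁻¹ = x⁻¹ * (g⁻¹ * x * g) := by group
        _ = (g⁻¹ * x * g) * x⁻¹ := e1
        _ = g⁻¹ * x⁻¹⁻¹ * g * x⁻¹ := by group
  obtain ⟨τ, _, h⟩ := key
  exact ⟨τ, h⟩

theorem SC1_qf [Fintype G] [DecidableEq G] (g : G) (v : G → ℝ) : |qf (Lm g) v| ≤ v ⬝ᵥ v := by
  have h1 : 0 ≤ (v + Lm g *ᵥ v) ⬝ᵥ (v + Lm g *ᵥ v) := dot_self_nonneg _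
  have h2 : 0 ≤ (v - Lm g *ᵥ v) ⬝ᵥ (v - Lm g *ᵥ v) := dot_self_nonneg _
  have h3 : (Lm g *ᵥ v) ⬝ᵥ (Lm g *ᵥ v) = v ⬝ᵥ v := dot_Lm g v v
  have h4 : (Lm g *ᵥ v) ⬝ᵥ v = v ⬝ᵥ (Lm g *ᵥ v) := dotProduct_comm _ _
  rw [add_dotProduct, dotProduct_add, dotProduct_add, h3, h4] at h1
  rw [sub_dotProduct, dotProduct_sub, dotProduct_sub, h3, h4] at h2
  rw [abs_le]
  unfold qf
  constructor <;> linarith

theorem SC1_trace [Fintype G] [DecidableEq G] {E : Matrix G G ℝ} (hE : IsBlock E) (g : G) (K : Subgroup G)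
    (h : ∀ k ∈ K, ∃ τ : G, k = g⁻¹ * τ⁻¹ * g * τ) : |(E * Lm g).trace| ≤ (PK K * E).trace := by
  have hk : ∀ k ∈ K, (E * Lm g * Lm k).trace = (E * Lm g).trace := by
    intro k hk
    obtain ⟨τ, rfl⟩ := h k hk
    have e1 : Lm g * Lm (g⁻¹ * τ⁻¹ * g * τ) = Lm τ⁻¹ * (Lm g * Lm τ) := by
      rw [← Lm_mul, ← Lm_mul, ← Lm_mul]
      congr 1
      group
    rw [mul_assoc, e1, ← mul_assoc, (hE.2.1 τ⁻¹).eq, mul_assoc, Matrix.trace_mul_comm, ← mul_assoc, mul_assoc,
      Lm_mul_inv, mul_one]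
  have hcard : ((subF K).card : ℝ) ≠ 0 := by
    have : 0 < (subF K).card := Finset.card_pos.2 ⟨1, (mem_subF K 1).2 (Subgroup.one_mem _)⟩
    exact_mod_cast this.ne'
  have hav : (E * Lm g * PK K).trace = (E * Lm g).trace := by
    unfold PK avL
    rw [Matrix.mul_smul, Matrix.trace_smul, Matrix.mul_sum, Matrix.trace_sum,
      Finset.sum_congr rfl (fun k hk' => hk k ((mem_subF K k).1 hk')), Finset.sum_const, nsmul_eq_mul, smul_eq_mul,
      ← mul_assoc, inv_mul_cancel₀ hcard, one_mul]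
  have hc : Commute E (PK K) := PK_commute K (fun k _ => hE.2.1 k)
  have hP : IsPr (PK K * E) := (PK_isPr K).mul hE.1 hc.symm
  have e2 : (E * Lm g * PK K).trace = (PK K * E * Lm g).trace := by
    rw [Matrix.trace_mul_comm, mul_assoc]
  rw [← hav, e2]
  refine (abs_trace_le (PK K * E) (Lm g) 1 hP (fun v _ => ?_)).trans ?_
  · rw [one_mul]; exact SC1_qf g v
  · rw [one_mul]

end SC1_group

variable {n : ℕ} {F : Type} [Field F] [Fintype F] [DecidableEq F]

theorem SC1_mat_inv (i j : Fin n) (h : i ≠ j) (a : F) :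
    (1 + Matrix.single i j a) * (1 + Matrix.single i j (-a)) = (1 : Matrix (Fin n) (Fin n) F) := by
  have h0 : (Matrix.single i j a : Matrix (Fin n) (Fin n) F) * Matrix.single i j (-a) = 0 :=
    Matrix.single_mul_single_of_ne a i j i h.symm (-a)
  have h1 : (Matrix.single i j (-a) : Matrix (Fin n) (Fin n) F) = -Matrix.single i j a := by
    ext x y
    simp only [Matrix.single, Matrix.of_apply, Matrix.neg_apply]
    split_ifs <;> simp
  rw [mul_add, add_mul, add_mul, h0, h1]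
  simp

theorem SC1_mat_comm (i j k l : Fin n) (hjk : j ≠ k) (hil : i ≠ l) (a b : F) :
    (1 + Matrix.single i j a) * (1 + Matrix.single k l b) =
      (1 + Matrix.single k l b) * (1 + Matrix.single i j a : Matrix (Fin n) (Fin n) F) := by
  have h0 : (Matrix.single i j a : Matrix (Fin n) (Fin n) F) * Matrix.single k l b = 0 :=
    Matrix.single_mul_single_of_ne a i j k hjk b
  have h1 : (Matrix.single k l b : Matrix (Fin n) (Fin n) F) * Matrix.single i j a = 0 :=
    Matrix.single_mul_single_of_ne b k l i hil.symm a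
  rw [mul_add, add_mul, add_mul, mul_add, add_mul, add_mul, h0, h1]
  simp only [one_mul, mul_one, add_zero]
  abel

theorem SC1_mat_conj (M : Matrix (Fin n) (Fin n) F) (a b c d : Fin n)
    (h1 : M *ᵥ Pi.single b 1 = Pi.single a 1) (h2 : Pi.single c 1 ᵥ* M = Pi.single d 1) (t : F) :
    (1 + Matrix.single a c t) * M = M * (1 + Matrix.single b d t) := by
  have hb : ∀ x, M x b = (Pi.single a 1 : Fin n → F) x := by
    intro x
    rw [← h1]
    simp
  have hc : ∀ y, M c y = (Pi.single d 1 : Fin n → F) y := by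
    intro y
    rw [← h2]
    simp
  rw [add_mul, mul_add, one_mul, mul_one]
  congr 1
  ext x y
  by_cases hx : x = a
  · subst hx
    rw [Matrix.single_mul_apply_same, hc]
    by_cases hy : y = d
    · subst hy
      rw [Matrix.mul_single_apply_same, hb]
      simp
    · rw [Matrix.mul_single_apply_of_ne t b d x y hy]
      simp [hy]
  · rw [Matrix.single_mul_apply_of_ne t a c x y hx]
    by_cases hy : y = d
    · subst hy
      rw [Matrix.mul_single_apply_same, hb]
      simp [hx]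
    · rw [Matrix.mul_single_apply_of_ne t b d x y hy]

theorem SC1_tv_inv (i j : Fin n) (h : i ≠ j) (a : F) : (tv i j a)⁻¹ = tv i j (-a) := by
  rw [inv_eq_iff_mul_eq_one]
  apply Subtype.ext
  have : (tv i j a * tv i j (-a)).1 = (tv i j a).1 * (tv i j (-a)).1 := rfl
  rw [this, tv_coe h, tv_coe h]
  exact SC1_mat_inv i j h a

theorem SC1_tv_comm (i j k l : Fin n) (hij : i ≠ j) (hkl : k ≠ l) (hjk : j ≠ k) (hil : i ≠ l) (a b : F) :
    Commute (tv i j a : SLn n F) (tv k l b) := by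
  apply Subtype.ext
  have e1 : (tv i j a * tv k l b).1 = (tv i j a).1 * (tv k l b).1 := rfl
  have e2 : (tv k l b * tv i j a).1 = (tv k l b).1 * (tv i j a).1 := rfl
  rw [e1, e2, tv_coe hij, tv_coe hkl]
  exact SC1_mat_comm i j k l hjk hil a b

theorem SC1_conj (g : SLn n F) (a b c d : Fin n) (hac : a ≠ c) (hbd : b ≠ d)
    (h1 : g.1 *ᵥ Pi.single b 1 = Pi.single a 1) (h2 : Pi.single c 1 ᵥ* g.1 = Pi.single d 1) (t : F) :
    g⁻¹ * (tv a c t)⁻¹ * g = tv b d (-t) := by
  have h3 : (tv a c t)⁻¹ * g = g * tv b d (-t) := by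
    rw [SC1_tv_inv a c hac]
    apply Subtype.ext
    have e1 : (tv a c (-t) * g).1 = (tv a c (-t)).1 * g.1 := rfl
    have e2 : (g * tv b d (-t)).1 = g.1 * (tv b d (-t)).1 := rfl
    rw [e1, e2, tv_coe hac, tv_coe hbd]
    exact SC1_mat_conj g.1 a b c d h1 h2 (-t)
  rw [mul_assoc, h3, ← mul_assoc, inv_mul_cancel, one_mul]

theorem SC1_fi (hn : 0 < n) {i j : ℕ} (hi : i < n) (hj : j < n) (h : i ≠ j) : fi hn i ≠ fi hn j := by
  intro he
  have := congrArg Fin.val he
  simp only [fi, Nat.mod_eq_of_lt hi, Nat.mod_eq_of_lt hj] at this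
  exact h this

theorem comm_trick (hn : 0 < n) {E : Matrix (SLn n F) (SLn n F) ℝ} (hE : IsBlock E) (g : SLn n F) (r : ℕ) (hr : 4 * r ≤ n)
    (h1 : ∀ i, i < r → g.1 *ᵥ Pi.single (fi hn (4 * i + 1)) 1 = Pi.single (fi hn (4 * i)) 1)
    (h2 : ∀ i, i < r → Pi.single (fi hn (4 * i + 2)) 1 ᵥ* g.1 = Pi.single (fi hn (4 * i + 3)) 1) :
    |(E * Lm g).trace| ≤ (PK (SS F hn r) * E).trace := by
  refine SC1_trace hE g _ ?_
  have hconj : ∀ i, i < r → ∀ t : F, g⁻¹ * (tv (fi hn (4 * i)) (fi hn (4 * i + 2)) t)⁻¹ * g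
      = tv (fi hn (4 * i + 1)) (fi hn (4 * i + 3)) (-t) := fun i hi t =>
    SC1_conj g _ _ _ _ (SC1_fi hn (by omega) (by omega) (by omega)) (SC1_fi hn (by omega) (by omega) (by omega))
      (h1 i hi) (h2 i hi) t
  have hconj' : ∀ i, i < r → ∀ t : F, g⁻¹ * (tv (fi hn (4 * i)) (fi hn (4 * i + 2)) t) * g
      = tv (fi hn (4 * i + 1)) (fi hn (4 * i + 3)) t := by
    intro i hi t
    have h3 := hconj i hi (-t)
    rw [SC1_tv_inv _ _ (SC1_fi hn (by omega) (by omega) (by omega)), neg_neg] at h3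
    exact h3
  let S : Set (SLn n F) := {x | ∃ i, i < r ∧ ∃ t : F, x = tv (fi hn (4 * i)) (fi hn (4 * i + 2)) t}
  have hS1 : ∀ x ∈ S, ∀ y ∈ S, Commute x y := by
    rintro _ ⟨i, hi, t, rfl⟩ _ ⟨j, hj, s, rfl⟩
    refine SC1_tv_comm _ _ _ _ ?_ ?_ ?_ ?_ _ _ <;> exact SC1_fi hn (by omega) (by omega) (by omega)
  have hS2 : ∀ x ∈ S, ∀ y ∈ S, Commute x (g⁻¹ * y * g) := by
    rintro _ ⟨i, hi, t, rfl⟩ _ ⟨j, hj, s, rfl⟩
    rw [hconj' j hj s]
    refine SC1_tv_comm _ _ _ _ ?_ ?_ ?_ ?_ _ _ <;> exact SC1_fi hn (by omega) (by omega) (by omega)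
  have hle : ∀ j, j ≤ r → SS F hn j ≤ Subgroup.closure {z | ∃ x ∈ S, z = g⁻¹ * x⁻¹ * g * x} := by
    intro j
    induction j with
    | zero => intro _; exact bot_le
    | succ j ih =>
      intro hj
      refine sup_le (ih (by omega)) ?_
      unfold sG
      rw [Subgroup.closure_le]
      rintro _ ⟨t, rfl⟩
      refine Subgroup.subset_closure ⟨tv (fi hn (4 * j)) (fi hn (4 * j + 2)) t, ⟨j, by omega, t, rfl⟩, ?_⟩
      rw [hconj j (by omega) t]
      refine (SC1_tv_comm _ _ _ _ ?_ ?_ ?_ ?_ _ _).eq <;> exact SC1_fi hn (by omega) (by omega) (by omega)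
  intro k hk
  exact SC1_comm g S hS1 hS2 k (hle r le_rfl hk)

end Pool.Agent.BC5
end

section
set_option autoImplicit false
set_option linter.unusedSectionVars false
set_option linter.unusedVariables false
open scoped BigOperators Matrix
open Matrix
namespace Pool.Agent.BC5


variable {n : ℕ} {F : Type} [Field F] [Fintype F] [DecidableEq F]

private theorem SC2_comap (f : (Fin n → F) →ₗ[F] (Fin n → F)) (Z : Submodule F (Fin n → F)) :
    Module.finrank F (Z.comap f) ≤ Module.finrank F Z + Module.finrank F (LinearMap.ker f) := by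
  let g : (Z.comap f) →ₗ[F] Z := f.restrict (fun x hx => hx)
  have h1 := LinearMap.finrank_range_add_finrank_ker g
  have h2 : Module.finrank F (LinearMap.range g) ≤ Module.finrank F Z := Submodule.finrank_le _
  have h3 : Module.finrank F (LinearMap.ker g) ≤ Module.finrank F (LinearMap.ker f) := by
    rw [← Submodule.finrank_map_subtype_eq (Z.comap f) (LinearMap.ker g)]
    apply Submodule.finrank_mono
    rintro x ⟨y, hy, rfl⟩
    have hy' : g y = 0 := hy
    have : ((g y : Z) : Fin n → F) = 0 := by rw [hy']; rfl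
    exact this
  omega

open Classical in
private theorem SC2_card (U : Submodule F (Fin n → F)) :
    (Finset.univ.filter (fun x : Fin n → F => x ∈ U)).card = Fintype.card F ^ Module.finrank F U := by
  rw [← Fintype.card_subtype]
  have := Module.card_eq_pow_finrank (K := F) (V := U)
  convert this

open Classical in
private theorem SC2_exists (A : Matrix (Fin n) (Fin n) F)
    (hker : ∀ a : F, 2 * Module.finrank F (LinearMap.ker (Matrix.toLin' (A - a • (1 : Matrix (Fin n) (Fin n) F)))) ≤ n)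
    (W Z : Submodule F (Fin n → F)) (i : ℕ) (hZ : Module.finrank F Z ≤ 2 * i)
    (hW : n + 4 * i + 6 ≤ 2 * Module.finrank F W) :
    ∃ w ∈ W, w ∉ Z ∧ ∀ a : F, (A - a • (1 : Matrix (Fin n) (Fin n) F)) *ᵥ w ∉ Z := by
  by_contra hcon
  push Not at hcon
  set Za : F → Submodule F (Fin n → F) := fun a => Z.comap (Matrix.toLin' (A - a • (1 : Matrix (Fin n) (Fin n) F))) with hZa
  have hsub : (Finset.univ.filter (fun x : Fin n → F => x ∈ W)) ⊆
      (Finset.univ.filter (fun x : Fin n → F => x ∈ Z)) ∪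
        (Finset.univ : Finset F).biUnion (fun a => Finset.univ.filter (fun x : Fin n → F => x ∈ Za a)) := by
    intro w hw
    rw [Finset.mem_filter] at hw
    rw [Finset.mem_union]
    by_cases h1 : w ∈ Z
    · left; simp [h1]
    · right
      obtain ⟨a, ha⟩ := hcon w hw.2 h1
      rw [Finset.mem_biUnion]
      refine ⟨a, Finset.mem_univ _, ?_⟩
      rw [Finset.mem_filter]
      refine ⟨Finset.mem_univ _, ?_⟩
      rw [hZa]
      show Matrix.toLin' (A - a • (1 : Matrix (Fin n) (Fin n) F)) w ∈ Z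
      rw [Matrix.toLin'_apply]
      exact ha
  have hq : 2 ≤ Fintype.card F := Fintype.one_lt_card
  obtain ⟨q, hqd⟩ : ∃ q, q = Fintype.card F := ⟨_, rfl⟩
  rw [← hqd] at hq
  have hZ' : ∀ a, Module.finrank F (Za a) ≤ 2 * i + n / 2 := by
    intro a
    have h1 := SC2_comap (Matrix.toLin' (A - a • (1 : Matrix (Fin n) (Fin n) F))) Z
    have h2 := hker a
    have h3 : Module.finrank F (Za a) ≤ Module.finrank F Z + Module.finrank F (LinearMap.ker (Matrix.toLin' (A - a • (1 : Matrix (Fin n) (Fin n) F)))) := h1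
    omega
  have hc := Finset.card_le_card hsub
  have hc2 := hc.trans (Finset.card_union_le _ _)
  rw [SC2_card, SC2_card, ← hqd] at hc2
  have hc3 : ((Finset.univ : Finset F).biUnion (fun a => Finset.univ.filter (fun x : Fin n → F => x ∈ Za a))).card ≤
      q * q ^ (2 * i + n / 2) := by
    refine (Finset.card_biUnion_le).trans ?_
    have : ∀ a ∈ (Finset.univ : Finset F), (Finset.univ.filter (fun x : Fin n → F => x ∈ Za a)).card ≤ q ^ (2 * i + n / 2) := by
      intro a _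
      rw [SC2_card, ← hqd]
      exact Nat.pow_le_pow_right (by omega) (hZ' a)
    refine (Finset.sum_le_card_nsmul _ _ _ this).trans ?_
    rw [smul_eq_mul, Finset.card_univ, ← hqd]
  have hc4 : q ^ Module.finrank F Z ≤ q ^ (2 * i + n / 2 + 1) := Nat.pow_le_pow_right (by omega) (by omega)
  have hc5 : q ^ (2 * i + n / 2 + 3) ≤ q ^ Module.finrank F W := Nat.pow_le_pow_right (by omega) (by omega)
  have hc6 : q * q ^ (2 * i + n / 2) = q ^ (2 * i + n / 2 + 1) := by rw [pow_succ]; ring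
  rw [hc6] at hc3
  generalize q ^ Module.finrank F Z = z1 at hc2 hc4
  generalize q ^ Module.finrank F W = z2 at hc2 hc5
  have hc7 : q ^ (2 * i + n / 2 + 3) = q * q * q ^ (2 * i + n / 2 + 1) := by
    rw [pow_succ, pow_succ (n := 2 * i + n / 2 + 1)]; ring
  have hpos : 0 < q ^ (2 * i + n / 2 + 1) := Nat.pow_pos (by omega)
  have h4 : 4 ≤ q * q := Nat.mul_le_mul hq hq
  have h5 : 4 * q ^ (2 * i + n / 2 + 1) ≤ q * q * q ^ (2 * i + n / 2 + 1) := Nat.mul_le_mul_right _ h4
  rw [hc7] at hc5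
  generalize q * q * q ^ (2 * i + n / 2 + 1) = z3 at hc5 h5
  generalize q ^ (2 * i + n / 2 + 1) = z4 at hc3 hc4 h5 hpos
  omega

private theorem SC2_step (A : Matrix (Fin n) (Fin n) F) (i : ℕ) (v : Fin i → (Fin n → F))
    (hv : LinearIndependent F (Sum.elim v (fun j => A *ᵥ v j))) (w : Fin n → F)
    (hw1 : w ∉ Submodule.span F (Set.range (Sum.elim v (fun j => A *ᵥ v j))))
    (hw2 : ∀ a : F, (A - a • (1 : Matrix (Fin n) (Fin n) F)) *ᵥ w ∉ Submodule.span F (Set.range (Sum.elim v (fun j => A *ᵥ v j)))) :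
    LinearIndependent F (Sum.elim (Fin.snoc v w : Fin (i+1) → (Fin n → F)) (fun j => A *ᵥ (Fin.snoc v w : Fin (i+1) → (Fin n → F)) j)) := by
  classical
  set Z := Submodule.span F (Set.range (Sum.elim v (fun j => A *ᵥ v j))) with hZ
  rw [Fintype.linearIndependent_iff] at hv ⊢
  intro g hg
  rw [Fintype.sum_sum_type] at hg
  simp only [Sum.elim_inl, Sum.elim_inr, Fin.sum_univ_castSucc, Fin.snoc_castSucc, Fin.snoc_last] at hg
  set x := ∑ j : Fin i, g (Sum.inl j.castSucc) • v j with hx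
  set y := ∑ j : Fin i, g (Sum.inr j.castSucc) • (A *ᵥ v j) with hy
  set α := g (Sum.inl (Fin.last i)) with hα
  set β := g (Sum.inr (Fin.last i)) with hβ
  have hxZ : x ∈ Z := by
    apply Submodule.sum_mem
    intro j _
    exact Submodule.smul_mem _ _ (Submodule.subset_span ⟨Sum.inl j, rfl⟩)
  have hyZ : y ∈ Z := by
    apply Submodule.sum_mem
    intro j _
    exact Submodule.smul_mem _ _ (Submodule.subset_span ⟨Sum.inr j, rfl⟩)
  have hab : α • w + β • (A *ᵥ w) ∈ Z := by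
    have : α • w + β • (A *ᵥ w) = -(x + y) := by
      have h := hg
      linear_combination (exp := 1) h
    rw [this]
    exact Submodule.neg_mem _ (Submodule.add_mem _ hxZ hyZ)
  have hb0 : β = 0 := by
    by_contra hb
    apply hw2 (-(β⁻¹ * α))
    have h1 : (A - (-(β⁻¹ * α)) • (1 : Matrix (Fin n) (Fin n) F)) *ᵥ w = β⁻¹ • (α • w + β • (A *ᵥ w)) := by
      rw [Matrix.sub_mulVec, Matrix.smul_mulVec, Matrix.one_mulVec, smul_add, smul_smul, smul_smul, inv_mul_cancel₀ hb, one_smul, neg_smul]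
      abel
    rw [h1]
    exact Submodule.smul_mem _ _ hab
  have ha0 : α = 0 := by
    by_contra ha
    apply hw1
    rw [hb0, zero_smul, add_zero] at hab
    have := Submodule.smul_mem Z α⁻¹ hab
    rwa [smul_smul, inv_mul_cancel₀ ha, one_smul] at this
  have h0 := hv (Sum.elim (fun j => g (Sum.inl j.castSucc)) (fun j => g (Sum.inr j.castSucc))) (by
    rw [Fintype.sum_sum_type]
    simp only [Sum.elim_inl, Sum.elim_inr]
    rw [ha0, hb0, zero_smul, zero_smul, add_zero, add_zero] at hg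
    exact hg)
  rintro (j | j)
  · refine Fin.lastCases ha0 (fun j => ?_) j
    exact h0 (Sum.inl j)
  · refine Fin.lastCases hb0 (fun j => ?_) j
    exact h0 (Sum.inr j)

theorem greedy_vec (A : Matrix (Fin n) (Fin n) F) (hA : IsUnit A)
    (hker : ∀ a : F, 2 * Module.finrank F (LinearMap.ker (Matrix.toLin' (A - a • (1 : Matrix (Fin n) (Fin n) F)))) ≤ n)
    (W : Submodule F (Fin n → F)) (r : ℕ) (hW : n + 4 * r + 2 ≤ 2 * Module.finrank F W) :
    ∃ v : Fin r → (Fin n → F), (∀ i, v i ∈ W) ∧ LinearIndependent F (Sum.elim v (fun i => A *ᵥ v i)) := by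
  induction r with
  | zero =>
    refine ⟨fun i => i.elim0, fun i => i.elim0, ?_⟩
    exact linearIndependent_empty_type
  | succ i ih =>
    obtain ⟨v, hvW, hv⟩ := ih (by omega)
    have hZ : Module.finrank F (Submodule.span F (Set.range (Sum.elim v (fun j => A *ᵥ v j)))) ≤ 2 * i := by
      refine (finrank_range_le_card _).trans ?_
      simp only [Fintype.card_sum, Fintype.card_fin]
      omega
    obtain ⟨w, hwW, hw1, hw2⟩ := SC2_exists A hker W _ i hZ (by omega)
    refine ⟨Fin.snoc v w, ?_, SC2_step A i v hv w hw1 hw2⟩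
    intro j
    refine Fin.lastCases ?_ (fun j => ?_) j
    · rw [Fin.snoc_last]; exact hwW
    · rw [Fin.snoc_castSucc]; exact hvW j

end Pool.Agent.BC5
end

section
set_option autoImplicit false
set_option linter.unusedSectionVars false
set_option linter.unusedVariables false
open scoped BigOperators Matrix
open Matrix
namespace Pool.Agent.BC5


variable {n : ℕ} {F : Type} [Field F] [Fintype F] [DecidableEq F]

/-- the index map of the columns -/
def SC3_col {n r : ℕ} (hr : 4 * r < n) (k : Fin n) : Fin (n - 2 * r) ⊕ (Fin r ⊕ Fin r) :=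
  if h : k.1 < 4 * r then
    if k.1 % 4 = 0 then Sum.inl ⟨2 * (k.1 / 4), by omega⟩
    else if k.1 % 4 = 1 then Sum.inl ⟨2 * (k.1 / 4) + 1, by omega⟩
    else if k.1 % 4 = 2 then Sum.inr (Sum.inl ⟨k.1 / 4, by omega⟩)
    else Sum.inr (Sum.inr ⟨k.1 / 4, by omega⟩)
  else Sum.inl ⟨k.1 - 2 * r, by omega⟩

theorem SC3_col_inj {n r : ℕ} (hr : 4 * r < n) : Function.Injective (SC3_col hr) := by
  intro a b h
  unfold SC3_col at h
  apply Fin.ext
  split_ifs at h <;> simp only [Sum.inl.injEq, Sum.inr.injEq, Fin.mk.injEq, reduceCtorEq] at h <;> omega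

/-- a complement-free extension inside the kernel -/
theorem SC3_ext (r : ℕ) (hr : 4 * r < n) (v v' : Fin r → (Fin n → F)) (hv : LinearIndependent F (Sum.elim v v'))
    (K0 : Submodule F (Fin n → F)) (hK : Module.finrank F K0 = n - 2 * r) (h1 : ∀ i, v i ∈ K0) (h2 : ∀ i, v' i ∈ K0) :
    ∃ κ : Fin (n - 2 * r) → (Fin n → F), LinearIndependent F κ ∧ (∀ j, κ j ∈ K0) ∧
      ∀ i : Fin r, κ ⟨2 * i.1, by omega⟩ = v i ∧ κ ⟨2 * i.1 + 1, by omega⟩ = v' i := by
  classical
  set w : Fin r ⊕ Fin r → (Fin n → F) := Sum.elim v v' with hw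
  have hsub : Set.range w ⊆ (K0 : Set (Fin n → F)) := by
    rintro _ ⟨a, rfl⟩
    rcases a with a | a
    · exact h1 a
    · exact h2 a
  have hs : LinearIndepOn F id (Set.range w) := hv.linearIndepOn_id
  set S : Set (Fin n → F) := hs.extend hsub with hS
  have hSK : S ⊆ (K0 : Set (Fin n → F)) := hs.extend_subset hsub
  have hwS : Set.range w ⊆ S := hs.subset_extend hsub
  have hKS : (K0 : Set (Fin n → F)) ⊆ Submodule.span F S := hs.subset_span_extend hsub
  have hSI : LinearIndepOn F id S := hs.linearIndepOn_extend hsub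
  have hspan : Submodule.span F S = K0 := le_antisymm (Submodule.span_le.2 hSK) hKS
  have : Fintype S := Fintype.ofFinite S
  have hcard : S.toFinset.card = n - 2 * r := by
    rw [← finrank_span_set_eq_card hSI, hspan, hK]
  set f0 : Fin (n - 2 * r) → (Fin n → F) := fun j =>
    if h : j.1 < 2 * r then w (if j.1 % 2 = 0 then Sum.inl ⟨j.1 / 2, by omega⟩ else Sum.inr ⟨j.1 / 2, by omega⟩) else 0 with hf0
  obtain ⟨g, hg⟩ := Set.MapsTo.exists_equiv_extend_of_card_eq (α := Fin (n - 2 * r)) (t := S.toFinset)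
    (by rw [Fintype.card_fin, hcard]) (s := {j | j.1 < 2 * r}) (f := f0) (by
      intro j hj
      have hj' : j.1 < 2 * r := hj
      simp only [hf0, dif_pos hj']
      rw [Finset.mem_coe, Set.mem_toFinset]
      exact hwS ⟨_, rfl⟩) (by
      intro a ha b hb hab
      have ha' : a.1 < 2 * r := ha
      have hb' : b.1 < 2 * r := hb
      simp only [hf0, dif_pos ha', dif_pos hb'] at hab
      have := hv.injective hab
      apply Fin.ext
      split_ifs at this <;> simp only [Sum.inl.injEq, Sum.inr.injEq, Fin.mk.injEq, reduceCtorEq] at this <;> omega)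
  refine ⟨fun j => (g j : Fin n → F), ?_, ?_, ?_⟩
  · have hli : LinearIndependent F (fun x : S => (x : Fin n → F)) := hSI
    let e : Fin (n - 2 * r) → S := fun j => ⟨(g j : Fin n → F), by
      have := (g j).2
      rwa [Set.mem_toFinset] at this⟩
    have he : Function.Injective e := by
      intro a b hab
      have : (g a : Fin n → F) = g b := congrArg (fun z : S => (z : Fin n → F)) hab
      exact g.injective (Subtype.ext this)
    exact hli.comp e he
  · intro j
    have := (g j).2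
    rw [Set.mem_toFinset] at this
    exact hSK this
  · intro i
    constructor
    · have h := hg (⟨2 * i.1, by omega⟩ : Fin (n - 2 * r)) (show 2 * i.1 < 2 * r by omega)
      refine h.trans ?_
      have e1 : (2 * i.1) % 2 = 0 := by omega
      have e2 : (2 * i.1) / 2 = i.1 := by omega
      simp only [hf0, dif_pos (show 2 * i.1 < 2 * r by omega), e1, if_true, e2]
      rfl
    · have h := hg (⟨2 * i.1 + 1, by omega⟩ : Fin (n - 2 * r)) (show 2 * i.1 + 1 < 2 * r by omega)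
      refine h.trans ?_
      have e1 : (2 * i.1 + 1) % 2 = 1 := by omega
      have e2 : (2 * i.1 + 1) / 2 = i.1 := by omega
      simp only [hf0, dif_pos (show 2 * i.1 + 1 < 2 * r by omega), e1, one_ne_zero, if_false, e2]
      rfl

theorem adapted_basis (hn : 0 < n) (r : ℕ) (hr : 4 * r < n) (v v' φ φ' : Fin r → (Fin n → F))
    (hv : LinearIndependent F (Sum.elim v v')) (hφ : LinearIndependent F (Sum.elim φ φ'))
    (h1 : ∀ i j, φ i ⬝ᵥ v j = 0) (h2 : ∀ i j, φ i ⬝ᵥ v' j = 0) (h3 : ∀ i j, φ' i ⬝ᵥ v j = 0) (h4 : ∀ i j, φ' i ⬝ᵥ v' j = 0) :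
    ∃ P : SLn n F, ∀ i : Fin r, P.1 *ᵥ Pi.single (fi hn (4 * i)) 1 = v i ∧ P.1 *ᵥ Pi.single (fi hn (4 * i + 1)) 1 = v' i ∧
      φ i ᵥ* P.1 = Pi.single (fi hn (4 * i + 2)) 1 ∧ φ' i ᵥ* P.1 = Pi.single (fi hn (4 * i + 3)) 1 := by
  classical
  set ψ : Fin r ⊕ Fin r → (Fin n → F) := Sum.elim φ φ' with hψ
  set M : Matrix (Fin r ⊕ Fin r) (Fin n) F := Matrix.of ψ with hM
  have hrank : M.rank = Fintype.card (Fin r ⊕ Fin r) := LinearIndependent.rank_matrix hφ
  have hcard : Fintype.card (Fin r ⊕ Fin r) = 2 * r := by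
    rw [Fintype.card_sum, Fintype.card_fin]; ring
  have hrg : LinearMap.range M.mulVecLin = ⊤ := by
    apply Submodule.eq_top_of_finrank_eq
    rw [Module.finrank_fintype_fun_eq_card]
    exact hrank
  have hsurj : Function.Surjective M.mulVecLin := LinearMap.range_eq_top.1 hrg
  have hker : Module.finrank F (LinearMap.ker M.mulVecLin) = n - 2 * r := by
    have := LinearMap.finrank_range_add_finrank_ker M.mulVecLin
    rw [hrg, finrank_top, Module.finrank_fintype_fun_eq_card, Module.finrank_fintype_fun_eq_card, hcard, Fintype.card_fin] at this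
    omega
  have hMψ : ∀ (x : Fin n → F) (a : Fin r ⊕ Fin r), M.mulVecLin x a = ψ a ⬝ᵥ x := fun x a => rfl
  have hvK : ∀ i, v i ∈ LinearMap.ker M.mulVecLin := by
    intro i
    rw [LinearMap.mem_ker]
    ext a
    rw [hMψ]
    rcases a with a | a
    · exact h1 a i
    · exact h3 a i
  have hvK' : ∀ i, v' i ∈ LinearMap.ker M.mulVecLin := by
    intro i
    rw [LinearMap.mem_ker]
    ext a
    rw [hMψ]
    rcases a with a | a
    · exact h2 a i
    · exact h4 a i
  obtain ⟨κ, hκ, hκK, hκv⟩ := SC3_ext r hr v v' hv (LinearMap.ker M.mulVecLin) hker hvK hvK'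
  choose U hU using fun a : Fin r ⊕ Fin r => hsurj (Pi.single a 1)
  have hψU : ∀ a b, ψ a ⬝ᵥ U b = if a = b then 1 else 0 := by
    intro a b
    rw [← hMψ, hU, Pi.single_apply]
  have hψκ : ∀ a j, ψ a ⬝ᵥ κ j = 0 := by
    intro a j
    rw [← hMψ, LinearMap.mem_ker.1 (hκK j)]
    rfl
  have hUli : LinearIndependent F U := by
    rw [Fintype.linearIndependent_iff]
    intro c hc a
    have := congrArg (fun x => ψ a ⬝ᵥ x) hc
    simp only [dotProduct_sum, dotProduct_smul, hψU, dotProduct_zero, smul_eq_mul, mul_ite, mul_one, mul_zero] at this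
    simpa using this
  have hfam : LinearIndependent F (Sum.elim κ U) := by
    rw [Fintype.linearIndependent_iff]
    intro c hc
    rw [Fintype.sum_sum_type] at hc
    simp only [Sum.elim_inl, Sum.elim_inr] at hc
    have hr0 : ∀ a, c (Sum.inr a) = 0 := by
      intro a
      have := congrArg (fun x => ψ a ⬝ᵥ x) hc
      simp only [dotProduct_add, dotProduct_sum, dotProduct_smul, hψU, hψκ, dotProduct_zero, smul_eq_mul, mul_ite, mul_one, mul_zero,
        Finset.sum_const_zero, zero_add] at this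
      simpa using this
    have hl0 : ∀ j, c (Sum.inl j) = 0 := by
      have : ∑ j, c (Sum.inl j) • κ j = 0 := by
        simpa [hr0] using hc
      exact (Fintype.linearIndependent_iff.1 hκ) _ this
    rintro (j | a)
    · exact hl0 j
    · exact hr0 a
  set Θ : Fin n → (Fin n → F) := fun k => Sum.elim κ U (SC3_col hr k) with hΘ
  have hΘli : LinearIndependent F Θ := hfam.comp _ (SC3_col_inj hr)
  set P0 : Matrix (Fin n) (Fin n) F := Matrix.of fun i k => Θ k i with hP0
  have hcol : P0.col = Θ := by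
    ext k i
    rfl
  have hunit : IsUnit P0 := by
    rw [← Matrix.linearIndependent_cols_iff_isUnit, hcol]
    exact hΘli
  have hdet : P0.det ≠ 0 := ((Matrix.isUnit_iff_isUnit_det P0).1 hunit).ne_zero
  set k0 : Fin n := ⟨n - 1, by omega⟩ with hk0
  set δ : Fin n → F := fun k => if k = k0 then (P0.det)⁻¹ else 1 with hδ
  have hdetP : (P0 * Matrix.diagonal δ).det = 1 := by
    rw [Matrix.det_mul, Matrix.det_diagonal]
    have : ∏ k, δ k = (P0.det)⁻¹ := by
      simp only [hδ, Finset.prod_ite_eq', Finset.mem_univ, if_true]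
    rw [this, mul_inv_cancel₀ hdet]
  have hmul : ∀ k, (P0 * Matrix.diagonal δ) *ᵥ Pi.single k 1 = δ k • Θ k := by
    intro k
    ext i
    rw [Matrix.mulVec_single_one]
    simp only [Matrix.col_apply, Matrix.mul_diagonal, hP0, Matrix.of_apply, Pi.smul_apply, smul_eq_mul]
    exact mul_comm _ _
  have hvm : ∀ (x : Fin n → F) (k : Fin n), (x ᵥ* (P0 * Matrix.diagonal δ)) k = δ k * (x ⬝ᵥ Θ k) := by
    intro x k
    have e1 : (x ᵥ* (P0 * Matrix.diagonal δ)) k = (x ᵥ* (P0 * Matrix.diagonal δ)) ⬝ᵥ Pi.single k 1 := by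
      rw [dotProduct_single_one]
    rw [e1, ← Matrix.dotProduct_mulVec, hmul, dotProduct_smul, smul_eq_mul]
  have hfi : ∀ (t : ℕ), t < 4 → ∀ i : Fin r, (fi hn (4 * i.1 + t)).1 = 4 * i.1 + t := by
    intro t ht i
    have : 4 * i.1 + t < n := by have := i.2; omega
    simp [fi, Nat.mod_eq_of_lt this]
  have hδ1 : ∀ (t : ℕ), t < 4 → ∀ i : Fin r, δ (fi hn (4 * i.1 + t)) = 1 := by
    intro t ht i
    have hne : fi hn (4 * i.1 + t) ≠ k0 := by
      intro h
      have := congrArg Fin.val h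
      rw [hfi t ht i] at this
      simp only [hk0] at this
      have := i.2
      omega
    simp only [hδ, if_neg hne]
  have hc0 : ∀ i : Fin r, SC3_col hr (fi hn (4 * i.1)) = Sum.inl ⟨2 * i.1, by omega⟩ := by
    intro i
    have h := hfi 0 (by norm_num) i
    rw [add_zero] at h
    unfold SC3_col
    have e1 : (4 * i.1) % 4 = 0 := by omega
    have e2 : (4 * i.1) / 4 = i.1 := by omega
    simp only [h, dif_pos (show 4 * i.1 < 4 * r by omega), e1, if_true, e2]
  have hc1 : ∀ i : Fin r, SC3_col hr (fi hn (4 * i.1 + 1)) = Sum.inl ⟨2 * i.1 + 1, by omega⟩ := by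
    intro i
    have h := hfi 1 (by norm_num) i
    unfold SC3_col
    have e1 : (4 * i.1 + 1) % 4 = 1 := by omega
    have e2 : (4 * i.1 + 1) / 4 = i.1 := by omega
    simp only [h, dif_pos (show 4 * i.1 + 1 < 4 * r by omega), e1, one_ne_zero, if_false, if_true, e2]
  have hc2 : ∀ i : Fin r, SC3_col hr (fi hn (4 * i.1 + 2)) = Sum.inr (Sum.inl i) := by
    intro i
    have h := hfi 2 (by norm_num) i
    unfold SC3_col
    have e1 : (4 * i.1 + 2) % 4 = 2 := by omega
    have e2 : (4 * i.1 + 2) / 4 = i.1 := by omega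
    simp only [h, dif_pos (show 4 * i.1 + 2 < 4 * r by omega), e1, e2]
    simp
  have hc3 : ∀ i : Fin r, SC3_col hr (fi hn (4 * i.1 + 3)) = Sum.inr (Sum.inr i) := by
    intro i
    have h := hfi 3 (by norm_num) i
    unfold SC3_col
    have e1 : (4 * i.1 + 3) % 4 = 3 := by omega
    have e2 : (4 * i.1 + 3) / 4 = i.1 := by omega
    simp only [h, dif_pos (show 4 * i.1 + 3 < 4 * r by omega), e1, e2]
    simp
  have hrow : ∀ (a : Fin r ⊕ Fin r) (k' : Fin n), SC3_col hr k' = Sum.inr a → δ k' = 1 →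
      ψ a ᵥ* (P0 * Matrix.diagonal δ) = Pi.single k' 1 := by
    intro a k' hk' hδk
    ext k
    rw [hvm, Pi.single_apply]
    by_cases hkk : k = k'
    · subst hkk
      rw [if_pos rfl, hδk, one_mul]
      simp only [hΘ, hk', Sum.elim_inr]
      rw [hψU, if_pos rfl]
    · rw [if_neg hkk]
      rcases hcc : SC3_col hr k with j | b
      · simp only [hΘ, hcc, Sum.elim_inl]
        rw [hψκ, mul_zero]
      · simp only [hΘ, hcc, Sum.elim_inr]
        rw [hψU]
        have hab : a ≠ b := by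
          rintro rfl
          exact hkk (SC3_col_inj hr (hcc.trans hk'.symm))
        rw [if_neg hab, mul_zero]
  refine ⟨⟨P0 * Matrix.diagonal δ, hdetP⟩, fun i => ⟨?_, ?_, ?_, ?_⟩⟩
  · show (P0 * Matrix.diagonal δ) *ᵥ Pi.single (fi hn (4 * i.1)) 1 = v i
    rw [hmul]
    have := hδ1 0 (by norm_num) i
    rw [add_zero] at this
    rw [this, one_smul]
    simp only [hΘ, hc0, Sum.elim_inl]
    exact (hκv i).1
  · show (P0 * Matrix.diagonal δ) *ᵥ Pi.single (fi hn (4 * i.1 + 1)) 1 = v' i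
    rw [hmul, hδ1 1 (by norm_num) i, one_smul]
    simp only [hΘ, hc1, Sum.elim_inl]
    exact (hκv i).2
  · exact hrow (Sum.inl i) _ (hc2 i) (hδ1 2 (by norm_num) i)
  · exact hrow (Sum.inr i) _ (hc3 i) (hδ1 3 (by norm_num) i)

end Pool.Agent.BC5
end

section
set_option autoImplicit false
set_option linter.unusedSectionVars false
set_option linter.unusedVariables false
open scoped BigOperators Matrix
open Matrix
namespace Pool.Agent.BC5


variable {n : ℕ} {F : Type} [Field F] [Fintype F] [DecidableEq F]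

theorem SC4_mem {A : Matrix (Fin n) (Fin n) F} {a : F} {v : Fin n → F} :
    v ∈ LinearMap.ker (Matrix.toLin' (A - a • (1 : Matrix (Fin n) (Fin n) F))) ↔ A *ᵥ v = a • v := by
  rw [LinearMap.mem_ker, Matrix.toLin'_apply, Matrix.sub_mulVec, Matrix.smul_mulVec,
    Matrix.one_mulVec, sub_eq_zero]

theorem SC4_inv (g : SLn n F) (v : Fin n → F) : g.1 *ᵥ ((g⁻¹).1 *ᵥ v) = v := by
  rw [← sl_mul_apply, mul_inv_cancel]
  exact Matrix.one_mulVec v

theorem SC4_inv' (g : SLn n F) (v : Fin n → F) : (g⁻¹).1 *ᵥ (g.1 *ᵥ v) = v := by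
  rw [← sl_mul_apply, inv_mul_cancel]
  exact Matrix.one_mulVec v

theorem SC4_unit (g : SLn n F) : IsUnit g.1 := by
  rw [Matrix.isUnit_iff_isUnit_det, g.2]
  exact isUnit_one

theorem SC4_ker_inv (g : SLn n F) (hg : ¬ BadSL g) (a : F) :
    2 * Module.finrank F (LinearMap.ker (Matrix.toLin' ((g⁻¹).1 - a • (1 : Matrix (Fin n) (Fin n) F)))) ≤ n := by
  by_cases ha : a = 0
  · have h1 : LinearMap.ker (Matrix.toLin' ((g⁻¹).1 - a • (1 : Matrix (Fin n) (Fin n) F))) = ⊥ := by
      rw [Submodule.eq_bot_iff]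
      intro v hv
      rw [SC4_mem, ha, zero_smul] at hv
      rw [← SC4_inv g v, hv, Matrix.mulVec_zero]
    rw [h1, finrank_bot]
    omega
  · have h1 : LinearMap.ker (Matrix.toLin' ((g⁻¹).1 - a • (1 : Matrix (Fin n) (Fin n) F))) =
        LinearMap.ker (Matrix.toLin' (g.1 - a⁻¹ • (1 : Matrix (Fin n) (Fin n) F))) := by
      ext v
      rw [SC4_mem, SC4_mem]
      constructor
      · intro h
        have h2 := SC4_inv g v
        rw [h, Matrix.mulVec_smul] at h2
        rw [← h2, smul_smul, inv_mul_cancel₀ ha, one_smul, h2]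
      · intro h
        have h2 := SC4_inv' g v
        rw [h, Matrix.mulVec_smul] at h2
        rw [← h2, smul_smul, mul_inv_cancel₀ ha, one_smul, h2]
    rw [h1]
    by_contra h2
    exact hg ⟨a⁻¹, by omega⟩

theorem SC4_ker_tr (g : SLn n F) (hg : ¬ BadSL g) (a : F) :
    2 * Module.finrank F (LinearMap.ker (Matrix.toLin' ((g.1)ᵀ - a • (1 : Matrix (Fin n) (Fin n) F)))) ≤ n := by
  have h0 : ∀ M : Matrix (Fin n) (Fin n) F, M.rank + Module.finrank F (LinearMap.ker (Matrix.toLin' M)) = n := by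
    intro M
    have := LinearMap.finrank_range_add_finrank_ker (Matrix.toLin' M)
    rw [Module.finrank_fin_fun] at this
    exact this
  have h1 := h0 (g.1 - a • (1 : Matrix (Fin n) (Fin n) F))
  have h2 := h0 ((g.1)ᵀ - a • (1 : Matrix (Fin n) (Fin n) F))
  have h3 : ((g.1)ᵀ - a • (1 : Matrix (Fin n) (Fin n) F)).rank =
      (g.1 - a • (1 : Matrix (Fin n) (Fin n) F)).rank := by
    rw [← Matrix.rank_transpose (g.1 - a • (1 : Matrix (Fin n) (Fin n) F)), Matrix.transpose_sub,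
      Matrix.transpose_smul, Matrix.transpose_one]
  by_contra h4
  exact hg ⟨a, by omega⟩

theorem exists_conj (hn : 0 < n) (g : SLn n F) (hg : ¬ BadSL g) (r : ℕ) (hr : 10 * r + 4 ≤ n) :
    ∃ P : SLn n F,
      (∀ i, i < r → (P⁻¹ * g * P).1 *ᵥ Pi.single (fi hn (4 * i + 1)) 1 = Pi.single (fi hn (4 * i)) 1) ∧
      (∀ i, i < r → Pi.single (fi hn (4 * i + 2)) 1 ᵥ* (P⁻¹ * g * P).1 = Pi.single (fi hn (4 * i + 3)) 1) := by
  obtain ⟨v, -, hv⟩ := greedy_vec (g⁻¹).1 (SC4_unit g⁻¹) (SC4_ker_inv g hg) ⊤ r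
    (by rw [finrank_top, Module.finrank_fin_fun]; omega)
  set K : Matrix (Fin r ⊕ (Fin r ⊕ Fin r)) (Fin n) F :=
    Matrix.of (Sum.elim v (Sum.elim (fun i => g.1 *ᵥ v i) (fun i => (g⁻¹).1 *ᵥ v i))) with hK
  set W : Submodule F (Fin n → F) := LinearMap.ker (Matrix.toLin' K) with hW
  have hWf : n ≤ 3 * r + Module.finrank F W := by
    have h1 := LinearMap.finrank_range_add_finrank_ker (Matrix.toLin' K)
    rw [Module.finrank_fin_fun] at h1
    have h2 := Submodule.finrank_le (LinearMap.range (Matrix.toLin' K))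
    rw [Module.finrank_fintype_fun_eq_card] at h2
    simp only [Fintype.card_sum, Fintype.card_fin] at h2
    have h3 : Module.finrank F W = Module.finrank F (LinearMap.ker (Matrix.toLin' K)) := rfl
    omega
  obtain ⟨φ, hφW, hφ⟩ := greedy_vec (g.1)ᵀ
    (by rw [Matrix.isUnit_iff_isUnit_det, Matrix.det_transpose, g.2]; exact isUnit_one)
    (SC4_ker_tr g hg) W r (by omega)
  have hz : ∀ i j, K j ⬝ᵥ φ i = 0 := by
    intro i j
    have h1 := hφW i
    rw [hW, LinearMap.mem_ker, Matrix.toLin'_apply] at h1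
    exact congrFun h1 j
  have z1 : ∀ i j, φ i ⬝ᵥ v j = 0 := fun i j => by
    rw [dotProduct_comm]; exact hz i (Sum.inl j)
  have z2 : ∀ i j, φ i ⬝ᵥ (g.1 *ᵥ v j) = 0 := fun i j => by
    rw [dotProduct_comm]; exact hz i (Sum.inr (Sum.inl j))
  have z3 : ∀ i j, φ i ⬝ᵥ ((g⁻¹).1 *ᵥ v j) = 0 := fun i j => by
    rw [dotProduct_comm]; exact hz i (Sum.inr (Sum.inr j))
  obtain ⟨P, hP⟩ := adapted_basis hn r (by omega) v (fun i => (g⁻¹).1 *ᵥ v i) φ
    (fun i => (g.1)ᵀ *ᵥ φ i) hv hφ z1 z3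
    (fun i j => by
      rw [Matrix.mulVec_transpose, ← Matrix.dotProduct_mulVec]
      exact z2 i j)
    (fun i j => by
      rw [Matrix.mulVec_transpose, ← Matrix.dotProduct_mulVec, SC4_inv]
      exact z1 i j)
  refine ⟨P, ?_, ?_⟩
  · intro i hi
    obtain ⟨h1, h2, -, -⟩ := hP ⟨i, hi⟩
    rw [sl_mul_apply, sl_mul_apply]
    have h2' : P.1 *ᵥ Pi.single (fi hn (4 * i + 1)) 1 = (g⁻¹).1 *ᵥ v ⟨i, hi⟩ := h2
    have h1' : P.1 *ᵥ Pi.single (fi hn (4 * i)) 1 = v ⟨i, hi⟩ := h1
    rw [h2', SC4_inv]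
    exact sl_inv_apply h1'
  · intro i hi
    obtain ⟨-, -, h3, h4⟩ := hP ⟨i, hi⟩
    rw [sl_apply_mul, sl_apply_mul]
    have h3' : φ ⟨i, hi⟩ ᵥ* P.1 = Pi.single (fi hn (4 * i + 2)) 1 := h3
    have h4' : ((g.1)ᵀ *ᵥ φ ⟨i, hi⟩) ᵥ* P.1 = Pi.single (fi hn (4 * i + 3)) 1 := h4
    rw [sl_apply_inv h3', ← h4', Matrix.mulVec_transpose]

end Pool.Agent.BC5
end

section
set_option autoImplicit false
set_option linter.unusedSectionVars false
set_option linter.unusedVariables false
open scoped BigOperators Matrix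
open Matrix
namespace Pool.Agent.BC5


theorem SC5_num (n : ℕ) (hn : 8400 ≤ n) :
    (27 / 28 : ℝ) ^ (n / 10 - 1) + 130 * (1 / 2 : ℝ) ^ (n / 2) ≤ Real.exp (-(1 / 300 * (n : ℝ))) := by
  have hn' : (8400 : ℝ) ≤ n := by exact_mod_cast hn
  have h1 : (27 / 28 : ℝ) ^ (n / 10 - 1) ≤ 1 / 2 * Real.exp (-(1 / 300 * (n : ℝ))) := by
    have e1 : (27 / 28 : ℝ) ≤ Real.exp (-(1 / 28)) := by
      have := Real.add_one_le_exp (-(1 / 28 : ℝ))
      linarith
    have e2 : (27 / 28 : ℝ) ^ (n / 10 - 1) ≤ Real.exp (((n / 10 - 1 : ℕ) : ℝ) * (-(1 / 28))) := by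
      rw [Real.exp_nat_mul]
      exact pow_le_pow_left₀ (by norm_num) e1 _
    have e3 : (n : ℝ) ≤ 10 * (((n / 10 - 1 : ℕ) : ℝ) + 2) := by
      have : n ≤ 10 * ((n / 10 - 1) + 2) := by omega
      exact_mod_cast this
    have e4 : Real.exp (((n / 10 - 1 : ℕ) : ℝ) * (-(1 / 28))) ≤ Real.exp (-(27 / 14) + -(1 / 300 * (n : ℝ))) := by
      refine Real.exp_le_exp.2 ?_
      linarith
    have e5 : Real.exp (-(27 / 14)) ≤ 1 / 2 := by
      rw [Real.exp_neg, inv_le_comm₀ (Real.exp_pos _) (by norm_num)]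
      have := Real.add_one_le_exp (27 / 14 : ℝ)
      norm_num at this ⊢
      linarith
    rw [Real.exp_add] at e4
    exact e2.trans (e4.trans (mul_le_mul_of_nonneg_right e5 (Real.exp_pos _).le))
  have h2 : 130 * (1 / 2 : ℝ) ^ (n / 2) ≤ 1 / 2 * Real.exp (-(1 / 300 * (n : ℝ))) := by
    have e1 : (1 / 2 : ℝ) ≤ Real.exp (-(1 / 2)) := by
      have := Real.add_one_le_exp (-(1 / 2 : ℝ))
      linarith
    have e2 : (1 / 2 : ℝ) ^ (n / 2) ≤ Real.exp (((n / 2 : ℕ) : ℝ) * (-(1 / 2))) := by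
      rw [Real.exp_nat_mul]
      exact pow_le_pow_left₀ (by norm_num) e1 _
    have e3 : (n : ℝ) ≤ 2 * ((n / 2 : ℕ) : ℝ) + 1 := by
      have : n ≤ 2 * (n / 2) + 1 := by omega
      exact_mod_cast this
    have e4 : Real.exp (((n / 2 : ℕ) : ℝ) * (-(1 / 2))) ≤ Real.exp (-1000 + -(1 / 300 * (n : ℝ))) := by
      refine Real.exp_le_exp.2 ?_
      linarith
    have e5 : Real.exp (-1000) ≤ 1 / 260 := by
      rw [Real.exp_neg, inv_le_comm₀ (Real.exp_pos _) (by norm_num)]
      have := Real.add_one_le_exp (1000 : ℝ)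
      norm_num at this ⊢
      linarith
    rw [Real.exp_add] at e4
    have e6 := e2.trans (e4.trans (mul_le_mul_of_nonneg_right e5 (Real.exp_pos _).le))
    linarith
  linarith

theorem char_SL : ∃ n0 : ℕ, ∀ n : ℕ, n0 ≤ n → ∀ (F : Type) [Field F] [Fintype F] [DecidableEq F],
    ∀ E : Matrix (SLn n F) (SLn n F) ℝ, IsBlock E → E ≠ Jm (SLn n F) → ∀ g : SLn n F, ¬ BadSL g →
      |(E * Rm g).trace| ≤ Real.exp (-(1 / 300 * (n : ℝ))) * E.trace := by
  refine ⟨8400, ?_⟩
  intro n hn F _ _ _ E hE hEJ g hg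
  have hn0 : 0 < n := by omega
  obtain ⟨P, hP1, hP2⟩ := exists_conj hn0 g hg (n / 10 - 1) (by omega)
  have htr : 0 ≤ E.trace := by
    have := block_trace_pos hE
    linarith
  rw [trace_mul_Rm hE.1.1 hE.2.1 hE.2.2.1]
  have h1 : (E * Lm (P⁻¹ * g * P)).trace = (E * Lm g).trace := by
    have := trace_mul_Lm_conj hE.2.1 g P⁻¹
    rwa [inv_inv] at this
  rw [← h1]
  have h2 := comm_trick hn0 hE (P⁻¹ * g * P) (n / 10 - 1) (by omega) hP1 hP2
  have h3 := decay hn0 (by omega) hE hEJ (n / 10 - 1) (by omega)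
  exact h2.trans (h3.trans (mul_le_mul_of_nonneg_right (SC5_num n hn) htr))

end Pool.Agent.BC5
end

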