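import Pool.Agent.Lib.MP_bc5a73_al.SlGroups

section
set_option autoImplicit false
set_option linter.unusedSectionVars false
set_option linter.unusedVariables false
open scoped BigOperators Matrix
open Matrix
namespace Pool.Agent.BC5


variable {n : ℕ} {F : Type} [Field F] [Fintype F] [DecidableEq F]

theorem SB5_tv_mul_tv {i j : Fin n} (h : i ≠ j) (a b : F) : tv i j a * tv i j b = (tv i j (a + b) : SLn n F) := by
  apply Subtype.ext
  show (tv i j a : SLn n F).1 * (tv i j b : SLn n F).1 = (tv i j (a + b) : SLn n F).1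
  rw [tv_coe h a, tv_coe h b, tv_coe h (a + b), mul_add, add_mul, add_mul, one_mul, one_mul, mul_one,
    Matrix.single_mul_single_of_ne _ _ _ _ h.symm, add_zero, Matrix.single_add, add_assoc]

theorem SB5_tv_zero (i j : Fin n) : (tv i j 0 : SLn n F) = 1 := by
  by_cases h : i = j
  · unfold tv
    rw [dif_neg (not_not.mpr h)]
  · apply Subtype.ext
    rw [tv_coe h]
    simp

theorem mem_rootG {i j : Fin n} (h : i ≠ j) (g : SLn n F) : g ∈ rootG F i j ↔ ∃ a : F, g = tv i j a := by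
  constructor
  · intro hg
    let S : Subgroup (SLn n F) :=
      { carrier := {g | ∃ a : F, g = tv i j a}
        mul_mem' := by
          rintro x y ⟨a, rfl⟩ ⟨b, rfl⟩
          exact ⟨a + b, SB5_tv_mul_tv h a b⟩
        one_mem' := ⟨0, (SB5_tv_zero i j).symm⟩
        inv_mem' := by
          rintro x ⟨a, rfl⟩
          refine ⟨-a, ?_⟩
          rw [inv_eq_iff_mul_eq_one, SB5_tv_mul_tv h, add_neg_cancel, SB5_tv_zero] }
    have hle : rootG F i j ≤ S := by
      unfold rootG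
      rw [Subgroup.closure_le]
      rintro _ ⟨a, rfl⟩
      exact ⟨a, rfl⟩
    exact hle hg
  · rintro ⟨a, rfl⟩
    exact Subgroup.subset_closure ⟨a, rfl⟩

theorem SB5_le_GX (X : Finset (Fin n)) {i j : Fin n} (hi : i ∈ X) (hj : j ∈ X) :
    rootG F i j ≤ (GX X : Subgroup (SLn n F)) := by
  unfold rootG
  rw [Subgroup.closure_le]
  rintro _ ⟨a, rfl⟩
  exact tv_mem_GX X hi hj a

/-- The pair of indices as a two-element set. -/
theorem SB5_single_ne (i : Fin n) : (Pi.single i 1 : Fin n → F) ≠ 0 := by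
  intro h
  have := congrFun h i
  simp at this

theorem SB5_single_off (Y : Finset (Fin n)) (i : Fin n) (hi : i ∈ Y) :
    ∀ p, p ∉ Y → (Pi.single i 1 : Fin n → F) p = 0 := by
  intro p hp
  have : p ≠ i := fun h => hp (h ▸ hi)
  simp [this]

theorem SB5_card_pair {i k : Fin n} (h : i ≠ k) : 2 ≤ ({i, k} : Finset (Fin n)).card := by
  rw [Finset.card_pair h]

theorem SB5_subset_pair {X : Finset (Fin n)} {i k : Fin n} (hi : i ∈ X) (hk : k ∈ X) : ({i, k} : Finset (Fin n)) ⊆ X := by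
  intro p hp
  simp only [Finset.mem_insert, Finset.mem_singleton] at hp
  rcases hp with rfl | rfl
  · exact hi
  · exact hk

/-- Move A. -/
theorem SB5_moveA (X : Finset (Fin n)) {Q : Matrix (SLn n F) (SLn n F) ℝ} (hQ : IsPr Q)
    (hc : ∀ g ∈ (GX X : Subgroup (SLn n F)), Commute Q (Lm g)) {i j k : Fin n} (hi : i ∈ X) (hj : j ∈ X) (hk : k ∈ X)
    (hij : i ≠ j) (hik : i ≠ k) (hkj : k ≠ j) : (PK (rootG F i j) * Q).trace ≤ (PK (rootG F k j) * Q).trace := by
  obtain ⟨h, hh, he⟩ := vec_trans (F := F) ({i, k} : Finset (Fin n)) (SB5_card_pair hik) (Pi.single k 1) (Pi.single i 1)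
    (SB5_single_ne k) (SB5_single_ne i) (SB5_single_off _ _ (by simp)) (SB5_single_off _ _ (by simp))
  have hX : h ∈ (GX X : Subgroup (SLn n F)) := GX_mono (SB5_subset_pair hi hk) hh
  refine PK_conj hQ h (hc h hX) (rootG F k j) (rootG F i j) (fun g hg => hc g (SB5_le_GX X hi hj hg)) ?_
  intro g hg
  rw [mem_rootG hkj] at hg
  obtain ⟨a, rfl⟩ := hg
  rw [mem_rootG hij]
  refine ⟨a, ?_⟩
  rw [mul_inv_eq_iff_eq_mul]
  apply Subtype.ext
  ext p q
  have hrow : ∀ q, h.1 j q = (1 : Matrix (Fin n) (Fin n) F) j q := by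
    have hj' : j ∉ ({i, k} : Finset (Fin n)) := by simp [hij.symm, hkj.symm]
    exact fun q => ((SB3_mem _ h).1 hh j hj' q).2
  have hcol : ∀ p, h.1 p k = (Pi.single i 1 : Fin n → F) p := by
    intro p
    have := congrFun he p
    rw [Matrix.mulVec_single_one] at this
    exact this
  have e1 := SB3_mul_tv hkj a h p q
  have e2 := SB3_tv_mul hij a h p q
  rw [e1, e2, hrow, hcol]
  by_cases hp : p = i
  · by_cases hq : q = j
    · subst hp
      subst hq
      simp
    · have hq' : ¬ j = q := fun h => hq h.symm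
      simp [hp, hq, hq']
  · by_cases hq : q = j
    · simp [hp, hq]
    · simp [hp, hq]

/-- Move B. -/
theorem SB5_moveB (X : Finset (Fin n)) {Q : Matrix (SLn n F) (SLn n F) ℝ} (hQ : IsPr Q)
    (hc : ∀ g ∈ (GX X : Subgroup (SLn n F)), Commute Q (Lm g)) {i j k : Fin n} (hi : i ∈ X) (hj : j ∈ X) (hk : k ∈ X)
    (hij : i ≠ j) (hik : i ≠ k) (hkj : k ≠ j) : (PK (rootG F j i) * Q).trace ≤ (PK (rootG F j k) * Q).trace := by
  obtain ⟨h, hh, he⟩ := covec_trans (F := F) ({i, k} : Finset (Fin n)) (SB5_card_pair hik) (Pi.single i 1) (Pi.single k 1)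
    (SB5_single_ne i) (SB5_single_ne k) (SB5_single_off _ _ (by simp)) (SB5_single_off _ _ (by simp))
  have hX : h ∈ (GX X : Subgroup (SLn n F)) := GX_mono (SB5_subset_pair hi hk) hh
  refine PK_conj hQ h (hc h hX) (rootG F j k) (rootG F j i) (fun g hg => hc g (SB5_le_GX X hj hi hg)) ?_
  intro g hg
  rw [mem_rootG hkj.symm] at hg
  obtain ⟨a, rfl⟩ := hg
  rw [mem_rootG hij.symm]
  refine ⟨a, ?_⟩
  rw [mul_inv_eq_iff_eq_mul]
  apply Subtype.ext
  ext p q
  have hcol : ∀ p, h.1 p j = (1 : Matrix (Fin n) (Fin n) F) p j := by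
    have hj' : j ∉ ({i, k} : Finset (Fin n)) := by simp [hij.symm, hkj.symm]
    exact fun p => ((SB3_mem _ h).1 hh j hj' p).1
  have hrow : ∀ q, h.1 i q = (Pi.single k 1 : Fin n → F) q := by
    intro q
    have := congrFun he q
    rw [Matrix.single_one_vecMul] at this
    exact this
  have e1 := SB3_mul_tv hkj.symm a h p q
  have e2 := SB3_tv_mul hij.symm a h p q
  rw [e1, e2, hrow, hcol]
  by_cases hp : p = j
  · by_cases hq : q = k
    · subst hp
      subst hq
      simp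
    · simp [hp, hq]
  · by_cases hq : q = k
    · simp [hp, hq]
    · simp [hp, hq]

theorem root_conj (X : Finset (Fin n)) (hX : 3 ≤ X.card) {Q : Matrix (SLn n F) (SLn n F) ℝ} (hQ : IsPr Q)
    (hc : ∀ g ∈ (GX X : Subgroup (SLn n F)), Commute Q (Lm g)) (i j k l : Fin n) (hi : i ∈ X) (hj : j ∈ X) (hk : k ∈ X)
    (hl : l ∈ X) (hij : i ≠ j) (hkl : k ≠ l) : (PK (rootG F i j) * Q).trace ≤ (PK (rootG F k l) * Q).trace := by
  have A : ∀ {i j k : Fin n}, i ∈ X → j ∈ X → k ∈ X → i ≠ j → i ≠ k → k ≠ j →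
      (PK (rootG F i j) * Q).trace ≤ (PK (rootG F k j) * Q).trace := fun hi hj hk a b c => SB5_moveA X hQ hc hi hj hk a b c
  have B : ∀ {i j k : Fin n}, i ∈ X → j ∈ X → k ∈ X → i ≠ j → i ≠ k → k ≠ j →
      (PK (rootG F j i) * Q).trace ≤ (PK (rootG F j k) * Q).trace := fun hi hj hk a b c => SB5_moveB X hQ hc hi hj hk a b c
  by_cases hik : i = k
  · subst hik
    by_cases hjl : j = l
    · subst hjl
      exact le_rfl
    · exact B hj hi hl hij.symm hjl hkl.symm
  · by_cases hjk : j = k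
    · subst hjk
      by_cases hli : l = i
      · subst hli
        have hex : ∃ m ∈ X, m ≠ l ∧ m ≠ j := by
          by_contra hno
          push Not at hno
          have hsub : X ⊆ ({l, j} : Finset (Fin n)) := by
            intro m hm
            simp only [Finset.mem_insert, Finset.mem_singleton]
            by_cases h : m = l
            · exact Or.inl h
            · exact Or.inr (hno m hm h)
          have := Finset.card_le_card hsub
          have h2 := Finset.card_le_two (a := l) (b := j)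
          omega
        obtain ⟨m, hm, hml, hmj⟩ := hex
        calc (PK (rootG F l j) * Q).trace ≤ (PK (rootG F m j) * Q).trace := A hi hj hm hij hml.symm hmj
          _ ≤ (PK (rootG F m l) * Q).trace := B hj hm hl hmj.symm hij.symm hml.symm
          _ ≤ (PK (rootG F j l) * Q).trace := A hm hl hj hml hmj hkl
      · calc (PK (rootG F i j) * Q).trace ≤ (PK (rootG F i l) * Q).trace := B hj hi hl hij.symm hkl hli
          _ ≤ (PK (rootG F j l) * Q).trace := A hi hl hj (Ne.symm hli) hij hkl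
    · have h1 : (PK (rootG F i j) * Q).trace ≤ (PK (rootG F k j) * Q).trace := A hi hj hk hij hik (Ne.symm hjk)
      by_cases hjl : j = l
      · subst hjl
        exact h1
      · exact h1.trans (B hj hk hl hjk hjl hkl.symm)

theorem root_bound (X : Finset (Fin n)) (hX : 3 ≤ X.card) {Q : Matrix (SLn n F) (SLn n F) ℝ} (hQ : IsPr Q)
    (hc : ∀ g ∈ (GX X : Subgroup (SLn n F)), Commute Q (Lm g)) (h0 : PK (GX X : Subgroup (SLn n F)) * Q = 0)
    (i j : Fin n) (hi : i ∈ X) (hj : j ∈ X) (hij : i ≠ j) : (PK (rootG F i j) * Q).trace ≤ 13 / 14 * Q.trace := by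
  obtain ⟨Y, hYX, hY⟩ := Finset.exists_subset_card_eq hX
  have hch := chain_GX X Y hYX hY.ge hQ hc h0
  rw [hY] at hch
  obtain ⟨a, b, c, hab, hac, hbc, rfl⟩ := Finset.card_eq_three.1 hY
  have ha : a ∈ X := hYX (by simp)
  have hb : b ∈ X := hYX (by simp)
  have hcX : c ∈ X := hYX (by simp)
  have hle : ∀ {p q : Fin n}, p ∈ X → q ∈ X → rootG F p q ≤ (GX X : Subgroup (SLn n F)) := fun hp hq => SB5_le_GX X hp hq
  have hroot : ∀ {p q : Fin n}, p ∈ X → q ∈ X → p ≠ q →
      Q.trace - (PK (rootG F p q) * Q).trace ≤ Q.trace - (PK (rootG F i j) * Q).trace := by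
    intro p q hp hq hpq
    have := root_conj X hX hQ hc i j p q hi hj hp hq hij hpq
    linarith
  have s1 := PK_sup (K1 := rootG F a b) (K2 := rootG F a c) (K0 := rootG F a b ⊔ rootG F a c) le_rfl hQ
    (fun k hk => hc k ((sup_le (hle ha hb) (hle ha hcX)) hk))
  have s2 := PK_sup (K1 := rootG F a b ⊔ rootG F a c) (K2 := rootG F b a) (K0 := rootG F a b ⊔ rootG F a c ⊔ rootG F b a) le_rfl hQ
    (fun k hk => hc k ((sup_le (sup_le (hle ha hb) (hle ha hcX)) (hle hb ha)) hk))
  have s3 := PK_sup (K1 := rootG F a b ⊔ rootG F a c ⊔ rootG F b a) (K2 := rootG F b c)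
    (K0 := rootG F a b ⊔ rootG F a c ⊔ rootG F b a ⊔ rootG F b c) le_rfl hQ
    (fun k hk => hc k ((sup_le (sup_le (sup_le (hle ha hb) (hle ha hcX)) (hle hb ha)) (hle hb hcX)) hk))
  have s4 := PK_sup (K1 := rootG F a b ⊔ rootG F a c ⊔ rootG F b a ⊔ rootG F b c) (K2 := rootG F c a)
    (K0 := rootG F a b ⊔ rootG F a c ⊔ rootG F b a ⊔ rootG F b c ⊔ rootG F c a) le_rfl hQ
    (fun k hk => hc k ((sup_le (sup_le (sup_le (sup_le (hle ha hb) (hle ha hcX)) (hle hb ha)) (hle hb hcX)) (hle hcX ha)) hk))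
  have hgen : (GX ({a, b, c} : Finset (Fin n)) : Subgroup (SLn n F)) ≤
      (rootG F a b ⊔ rootG F a c ⊔ rootG F b a ⊔ rootG F b c ⊔ rootG F c a) ⊔ rootG F c b := by
    refine (GX_le_closure _).trans ?_
    rw [Subgroup.closure_le]
    rintro g ⟨p, hp, q, hq, hpq, t, rfl⟩
    have hmem : tv p q t ∈ rootG F p q := Subgroup.subset_closure ⟨t, rfl⟩
    have l1 : rootG F a b ≤ (rootG F a b ⊔ rootG F a c ⊔ rootG F b a ⊔ rootG F b c ⊔ rootG F c a) ⊔ rootG F c b :=
      le_sup_of_le_left (le_sup_of_le_left (le_sup_of_le_left (le_sup_of_le_left le_sup_left)))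
    have l2 : rootG F a c ≤ (rootG F a b ⊔ rootG F a c ⊔ rootG F b a ⊔ rootG F b c ⊔ rootG F c a) ⊔ rootG F c b :=
      le_sup_of_le_left (le_sup_of_le_left (le_sup_of_le_left (le_sup_of_le_left le_sup_right)))
    have l3 : rootG F b a ≤ (rootG F a b ⊔ rootG F a c ⊔ rootG F b a ⊔ rootG F b c ⊔ rootG F c a) ⊔ rootG F c b :=
      le_sup_of_le_left (le_sup_of_le_left (le_sup_of_le_left le_sup_right))
    have l4 : rootG F b c ≤ (rootG F a b ⊔ rootG F a c ⊔ rootG F b a ⊔ rootG F b c ⊔ rootG F c a) ⊔ rootG F c b :=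
      le_sup_of_le_left (le_sup_of_le_left le_sup_right)
    have l5 : rootG F c a ≤ (rootG F a b ⊔ rootG F a c ⊔ rootG F b a ⊔ rootG F b c ⊔ rootG F c a) ⊔ rootG F c b :=
      le_sup_of_le_left le_sup_right
    have l6 : rootG F c b ≤ (rootG F a b ⊔ rootG F a c ⊔ rootG F b a ⊔ rootG F b c ⊔ rootG F c a) ⊔ rootG F c b := le_sup_right
    simp only [Finset.mem_insert, Finset.mem_singleton] at hp hq
    rcases hp with rfl | rfl | rfl <;> rcases hq with rfl | rfl | rfl
    · exact absurd rfl hpq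
    · exact l1 hmem
    · exact l2 hmem
    · exact l3 hmem
    · exact absurd rfl hpq
    · exact l4 hmem
    · exact l5 hmem
    · exact l6 hmem
    · exact absurd rfl hpq
  have s5 := PK_sup hgen hQ
    (fun k hk => hc k ((sup_le (sup_le (sup_le (sup_le (sup_le (hle ha hb) (hle ha hcX)) (hle hb ha)) (hle hb hcX)) (hle hcX ha)) (hle hcX hb)) hk))
  have r1 := hroot ha hb hab
  have r2 := hroot ha hcX hac
  have r3 := hroot hb ha hab.symm
  have r4 := hroot hb hcX hbc
  have r5 := hroot hcX ha hac.symm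
  have r6 := hroot hcX hb hbc.symm
  norm_num at hch
  linarith

end Pool.Agent.BC5
end

section
set_option autoImplicit false
set_option linter.unusedSectionVars false
set_option linter.unusedVariables false
open scoped BigOperators Matrix
open Matrix
namespace Pool.Agent.BC5


variable {n : ℕ} {F : Type} [Field F] [Fintype F] [DecidableEq F]


private theorem SB6_coe_mul (g h : SLn n F) : (g * h).1 = g.1 * h.1 := rfl

private theorem SB6_z {j k : Fin n} (h : j ≠ k) (i l : Fin n) (x y : F) :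
    Matrix.single i j x * Matrix.single k l y = 0 := Matrix.single_mul_single_of_ne _ _ _ _ h _

private theorem SB6_neg (i j : Fin n) (x : F) :
    Matrix.single i j (-x) = -Matrix.single i j x := by
  ext a b
  simp only [Matrix.neg_apply, Matrix.single_apply]
  split_ifs <;> simp

private theorem SB6_s_coe {a b c d : Fin n} (hac : a ≠ c) (hbd : b ≠ d) (hcb : c ≠ b) (t : F) :
    (tv a c t * tv b d (-t) : SLn n F).1 = 1 + Matrix.single a c t + Matrix.single b d (-t) := by
  rw [SB6_coe_mul]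
  have h1 : ((tv a c t : SLn n F) : Matrix (Fin n) (Fin n) F) = 1 + Matrix.single a c t := tv_coe hac t
  have h2 : ((tv b d (-t) : SLn n F) : Matrix (Fin n) (Fin n) F) = 1 + Matrix.single b d (-t) :=
    tv_coe hbd (-t)
  rw [show (tv a c t : SLn n F).1 = 1 + Matrix.single a c t from h1,
    show (tv b d (-t) : SLn n F).1 = 1 + Matrix.single b d (-t) from h2]
  rw [mul_add, mul_one, add_mul, one_mul, SB6_z hcb, add_zero]

private theorem SB6_s_mul {a b c d : Fin n} (h : [a, b, c, d].Nodup) (t u : F) :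
    (tv a c t * tv b d (-t)) * (tv a c u * tv b d (-u)) =
      (tv a c (t + u) * tv b d (-(t + u)) : SLn n F) := by
  simp only [List.nodup_cons, List.mem_cons, List.not_mem_nil, or_false, not_or, List.nodup_nil,
    and_true, not_false_eq_true] at h
  obtain ⟨⟨hab, hac, had⟩, ⟨hbc, hbd⟩, hcd⟩ := h
  apply Subtype.ext
  show ((tv a c t * tv b d (-t)) * (tv a c u * tv b d (-u)) : SLn n F).1 = _
  rw [SB6_coe_mul, SB6_s_coe hac hbd (Ne.symm hbc), SB6_s_coe hac hbd (Ne.symm hbc)]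
  have h3 := SB6_s_coe (F := F) hac hbd (Ne.symm hbc) (t + u)
  rw [h3]
  simp only [mul_add, add_mul, mul_one, one_mul,
    SB6_z (Ne.symm hac), SB6_z (Ne.symm hbc),
    SB6_z (Ne.symm had), SB6_z (Ne.symm hbd),
    add_zero, neg_add, Matrix.single_add]
  abel

private theorem SB6_s_zero {a b c d : Fin n} : (tv a c 0 * tv b d (-0) : SLn n F) = 1 := by
  have h1 : ∀ i j : Fin n, (tv i j 0 : SLn n F) = 1 := by
    intro i j
    by_cases h : i = j
    · subst h
      unfold tv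
      rw [dif_neg (by simp)]
    · apply Subtype.ext
      show (tv i j 0 : SLn n F).1 = _
      rw [show (tv i j 0 : SLn n F).1 = 1 + Matrix.single i j 0 from tv_coe h 0]
      simp
  rw [neg_zero, h1, h1, one_mul]

theorem mem_sG {a b c d : Fin n} (h : [a, b, c, d].Nodup) (g : SLn n F) :
    g ∈ sG F a b c d ↔ ∃ t : F, g = tv a c t * tv b d (-t) := by
  constructor
  · intro hg
    unfold sG at hg
    induction hg using Subgroup.closure_induction with
    | mem x hx =>
      obtain ⟨t, rfl⟩ := hx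
      exact ⟨t, rfl⟩
    | one => exact ⟨0, SB6_s_zero.symm⟩
    | mul x y _ _ hx hy =>
      obtain ⟨t, rfl⟩ := hx
      obtain ⟨u, rfl⟩ := hy
      exact ⟨t + u, SB6_s_mul h t u⟩
    | inv x _ hx =>
      obtain ⟨t, rfl⟩ := hx
      refine ⟨-t, ?_⟩
      rw [inv_eq_iff_mul_eq_one, SB6_s_mul h, add_neg_cancel, SB6_s_zero]
  · rintro ⟨t, rfl⟩
    exact Subgroup.subset_closure ⟨t, rfl⟩

private theorem SB6_sG_le {X : Finset (Fin n)} {a b c d : Fin n} (ha : a ∈ X) (hb : b ∈ X)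
    (hc : c ∈ X) (hd : d ∈ X) : (sG F a b c d : Subgroup (SLn n F)) ≤ GX X := by
  unfold sG
  rw [Subgroup.closure_le]
  rintro _ ⟨t, rfl⟩
  exact (GX X).mul_mem (tv_mem_GX X ha hc t) (tv_mem_GX X hb hd (-t))

/-- the Weyl element -/
private theorem SB6_weyl {a b c d e : Fin n} (hnd : [a, b, c, d, e].Nodup) (t : F) :
    (tv d e 1 * tv e d (-1) * tv d e 1) * (tv a c t * tv b e (-t)) *
      (tv d e 1 * tv e d (-1) * tv d e 1)⁻¹ = (tv a c t * tv b d (-t) : SLn n F) := by
  simp only [List.nodup_cons, List.mem_cons, List.not_mem_nil, or_false, not_or, List.nodup_nil,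
    and_true, not_false_eq_true] at hnd
  obtain ⟨⟨hab, hac, had, hae⟩, ⟨hbc, hbd, hbe⟩, ⟨hcd, hce⟩, hde⟩ := hnd
  rw [mul_inv_eq_iff_eq_mul]
  apply Subtype.ext
  show ((tv d e 1 * tv e d (-1) * tv d e 1) * (tv a c t * tv b e (-t)) : SLn n F).1 =
    ((tv a c t * tv b d (-t)) * (tv d e 1 * tv e d (-1) * tv d e 1) : SLn n F).1
  have hw : (tv d e 1 * tv e d (-1) * tv d e 1 : SLn n F).1 =
      1 + Matrix.single d e 1 - Matrix.single e d 1 - Matrix.single d d 1 - Matrix.single e e 1 := by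
    rw [SB6_coe_mul, SB6_coe_mul,
      show (tv d e 1 : SLn n F).1 = 1 + Matrix.single d e 1 from tv_coe hde 1,
      show (tv e d (-1) : SLn n F).1 = 1 + Matrix.single e d (-1) from tv_coe (Ne.symm hde) (-1)]
    simp only [mul_add, add_mul, mul_one, one_mul, Matrix.single_mul_single_same,
      SB6_z (Ne.symm hde), SB6_neg, add_zero, neg_mul,
      mul_neg]
    abel
  generalize (tv d e 1 * tv e d (-1) * tv d e 1 : SLn n F) = W at hw ⊢
  rw [SB6_coe_mul W, SB6_coe_mul _ W, hw, SB6_s_coe hac hbe (Ne.symm hbc),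
    SB6_s_coe hac hbd (Ne.symm hbc)]
  simp only [mul_add, add_mul, mul_sub, sub_mul, mul_one, one_mul, Matrix.single_mul_single_same,
    SB6_z (Ne.symm hae), SB6_z (Ne.symm had),
    SB6_z (Ne.symm hbe), SB6_z (Ne.symm hbd),
    SB6_z hcd, SB6_z hce,
    SB6_z hde, SB6_neg, add_zero, neg_mul,
    mul_neg, sub_zero, neg_zero]
  abel

private theorem SB6_root {a b c d e : Fin n} (hnd : [a, b, c, d, e].Nodup) (t : F) :
    tv e d 1 * tv b e t * (tv e d 1)⁻¹ =
      ((tv a c (-t) * tv b e (-(-t))) * (tv a c t * tv b d (-t)) : SLn n F) := by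
  simp only [List.nodup_cons, List.mem_cons, List.not_mem_nil, or_false, not_or, List.nodup_nil,
    and_true, not_false_eq_true] at hnd
  obtain ⟨⟨hab, hac, had, hae⟩, ⟨hbc, hbd, hbe⟩, ⟨hcd, hce⟩, hde⟩ := hnd
  rw [mul_inv_eq_iff_eq_mul]
  apply Subtype.ext
  show (tv e d 1 * tv b e t : SLn n F).1 =
    ((tv a c (-t) * tv b e (-(-t))) * (tv a c t * tv b d (-t)) * tv e d 1 : SLn n F).1
  rw [SB6_coe_mul, SB6_coe_mul, SB6_coe_mul, SB6_s_coe hac hbe (Ne.symm hbc),
    SB6_s_coe hac hbd (Ne.symm hbc),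
    show (tv e d 1 : SLn n F).1 = 1 + Matrix.single e d 1 from tv_coe (Ne.symm hde) 1,
    show (tv b e t : SLn n F).1 = 1 + Matrix.single b e t from tv_coe hbe t]
  simp only [mul_add, add_mul, mul_one, one_mul, Matrix.single_mul_single_same,
    SB6_z (Ne.symm hae), SB6_z (Ne.symm hbe), SB6_z (Ne.symm hbd),
    SB6_z (Ne.symm hac), SB6_z (Ne.symm hbc), SB6_z hce, SB6_z hde,
    SB6_neg, add_zero, neg_mul, mul_neg, neg_zero, neg_neg]
  abel

theorem s_bound (X : Finset (Fin n)) {Q : Matrix (SLn n F) (SLn n F) ℝ} (hQ : IsPr Q)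
    (hc : ∀ g ∈ (GX X : Subgroup (SLn n F)), Commute Q (Lm g)) (h0 : PK (GX X : Subgroup (SLn n F)) * Q = 0)
    (a b c d e : Fin n) (hX : ∀ i ∈ [a, b, c, d, e], i ∈ X) (hnd : [a, b, c, d, e].Nodup) :
    (PK (sG F a b c d) * Q).trace ≤ 27 / 28 * Q.trace := by
  have ha : a ∈ X := hX a (by simp)
  have hb : b ∈ X := hX b (by simp)
  have hcX : c ∈ X := hX c (by simp)
  have hd : d ∈ X := hX d (by simp)
  have he : e ∈ X := hX e (by simp)
  have hnd' := hnd
  simp only [List.nodup_cons, List.mem_cons, List.not_mem_nil, or_false, not_or, List.nodup_nil,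
    and_true, not_false_eq_true] at hnd'
  obtain ⟨⟨hab, hac, had, hae⟩, ⟨hbc, hbd, hbe⟩, ⟨hcd, hce⟩, hde⟩ := hnd'
  have hcard : 3 ≤ X.card := by
    have h1 : ({a, b, c} : Finset (Fin n)) ⊆ X := by
      intro x hx
      simp only [Finset.mem_insert, Finset.mem_singleton] at hx
      rcases hx with rfl | rfl | rfl
      · exact ha
      · exact hb
      · exact hcX
    have h2 : ({a, b, c} : Finset (Fin n)).card = 3 := Finset.card_eq_three.2 ⟨a, b, c, hab, hac, hbc, rfl⟩
    rw [← h2]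
    exact Finset.card_le_card h1
  have hK1 : (sG F a b c d : Subgroup (SLn n F)) ≤ GX X := SB6_sG_le ha hb hcX hd
  have hK2 : (sG F a b c e : Subgroup (SLn n F)) ≤ GX X := SB6_sG_le ha hb hcX he
  -- the conjugate of the root group
  let K0 : Subgroup (SLn n F) := (rootG F b e).map (MulAut.conj (tv e d 1 : SLn n F)).toMonoidHom
  have hK0 : K0 ≤ sG F a b c d ⊔ sG F a b c e := by
    rw [Subgroup.map_le_iff_le_comap]
    unfold rootG
    rw [Subgroup.closure_le]
    rintro _ ⟨t, rfl⟩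
    show (MulAut.conj (tv e d 1 : SLn n F)) (tv b e t) ∈ sG F a b c d ⊔ sG F a b c e
    rw [MulAut.conj_apply, SB6_root (a := a) (c := c) hnd t]
    refine Subgroup.mul_mem _ ?_ ?_
    · exact (le_sup_right : sG F a b c e ≤ sG F a b c d ⊔ sG F a b c e)
        (Subgroup.subset_closure ⟨-t, rfl⟩)
    · exact (le_sup_left : sG F a b c d ≤ sG F a b c d ⊔ sG F a b c e)
        (Subgroup.subset_closure ⟨t, rfl⟩)
  have hsup : sG F a b c d ⊔ sG F a b c e ≤ (GX X : Subgroup (SLn n F)) := sup_le hK1 hK2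
  have h1 := PK_sup hK0 hQ (fun k hk => hc k (hsup hk))
  -- the trace of `K0`
  have h2 : (PK K0 * Q).trace ≤ (PK (rootG F b e) * Q).trace := by
    refine PK_conj hQ (tv e d 1) (hc _ (tv_mem_GX X he hd 1)) (rootG F b e) K0
      (fun k hk => hc k (hsup (hK0 hk))) (fun k hk => ?_)
    exact ⟨k, hk, by simp [MulAut.conj_apply]⟩
  have h3 := root_bound X hcard hQ hc h0 b e hb he hbe
  -- the two groups `sG` are conjugate
  have h4 : (PK (sG F a b c d) * Q).trace ≤ (PK (sG F a b c e) * Q).trace := by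
    have hw : (tv d e 1 * tv e d (-1) * tv d e 1 : SLn n F) ∈ (GX X : Subgroup (SLn n F)) :=
      (GX X).mul_mem ((GX X).mul_mem (tv_mem_GX X hd he 1) (tv_mem_GX X he hd (-1)))
        (tv_mem_GX X hd he 1)
    refine PK_conj hQ (tv d e 1 * tv e d (-1) * tv d e 1) (hc _ hw) (sG F a b c e) (sG F a b c d)
      (fun k hk => hc k (hK1 hk)) (fun k hk => ?_)
    rw [mem_sG (by
      simp only [List.nodup_cons, List.mem_cons, List.not_mem_nil, or_false, not_or, List.nodup_nil,
        and_true, not_false_eq_true]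
      exact ⟨⟨hab, hac, hae⟩, ⟨hbc, hbe⟩, hce⟩)] at hk
    obtain ⟨t, rfl⟩ := hk
    rw [SB6_weyl hnd t]
    exact Subgroup.subset_closure ⟨t, rfl⟩
  linarith

end Pool.Agent.BC5
end

section
set_option autoImplicit false
set_option linter.unusedSectionVars false
set_option linter.unusedVariables false
open scoped BigOperators Matrix
open Matrix
namespace Pool.Agent.BC5


variable {n : ℕ} {F : Type} [Field F] [Fintype F] [DecidableEq F]

theorem SB7_entry (X : Finset (Fin n)) {g : SLn n F} (hg : g ∈ (GX X : Subgroup (SLn n F))) (i j : Fin n)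
    (h : i ∉ X ∨ j ∉ X) : g.1 i j = (1 : Matrix (Fin n) (Fin n) F) i j := by
  rcases h with h | h
  · have h1 := congrFun (hg i h).2 j
    rw [Matrix.single_one_vecMul] at h1
    rw [Matrix.row_apply] at h1
    rw [h1, Matrix.one_apply, Pi.single_apply]
    by_cases hij : i = j
    · subst hij; simp
    · rw [if_neg hij, if_neg (fun h => hij h.symm)]
  · have h1 := congrFun (hg j h).1 i
    rw [Matrix.mulVec_single_one, Matrix.col_apply] at h1
    rw [h1, Matrix.one_apply, Pi.single_apply]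

theorem SB7_comm (A B : Finset (Fin n)) (hAB : Disjoint A B) {g h : SLn n F}
    (hg : g ∈ (GX A : Subgroup (SLn n F))) (hh : h ∈ (GX B : Subgroup (SLn n F))) : g * h = h * g := by
  have key : ∀ (A B : Finset (Fin n)), Disjoint A B → ∀ g h : SLn n F, g ∈ (GX A : Subgroup (SLn n F)) →
      h ∈ (GX B : Subgroup (SLn n F)) → (g.1 - 1) * (h.1 - 1) = 0 := by
    intro A B hAB g h hg hh
    ext i j
    rw [Matrix.mul_apply, Matrix.zero_apply]
    refine Finset.sum_eq_zero fun k _ => ?_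
    by_cases hk : k ∈ A
    · have hkB : k ∉ B := Finset.disjoint_left.1 hAB hk
      rw [Matrix.sub_apply h.1, SB7_entry B hh k j (Or.inl hkB), sub_self, mul_zero]
    · rw [Matrix.sub_apply g.1, SB7_entry A hg i k (Or.inr hk), sub_self, zero_mul]
  have h1 := key A B hAB g h hg hh
  have h2 := key B A hAB.symm h g hh hg
  apply Subtype.ext
  have e1 : (g * h).1 = g.1 * h.1 := rfl
  have e2 : (h * g).1 = h.1 * g.1 := rfl
  rw [e1, e2]
  have h3 : g.1 * h.1 = g.1 + h.1 - 1 := by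
    have : (g.1 - 1) * (h.1 - 1) = g.1 * h.1 - g.1 - h.1 + 1 := by noncomm_ring
    rw [this] at h1
    have h4 : g.1 * h.1 = (g.1 * h.1 - g.1 - h.1 + 1) + (g.1 + h.1 - 1) := by abel
    rw [h4, h1, zero_add]
  have h5 : h.1 * g.1 = g.1 + h.1 - 1 := by
    have : (h.1 - 1) * (g.1 - 1) = h.1 * g.1 - h.1 - g.1 + 1 := by noncomm_ring
    rw [this] at h2
    have h4 : h.1 * g.1 = (h.1 * g.1 - h.1 - g.1 + 1) + (g.1 + h.1 - 1) := by abel
    rw [h4, h2, zero_add]
  rw [h3, h5]

section gen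
variable {G : Type} [Group G] [Fintype G] [DecidableEq G]

theorem SB7_Lm_comm {a b : G} (h : a * b = b * a) : Commute (Lm a : Matrix G G ℝ) (Lm b) := by
  show Lm a * Lm b = Lm b * Lm a
  rw [← Lm_mul, ← Lm_mul, h]

theorem SB7_PK_sup (K1 K2 : Subgroup G) (h : ∀ a ∈ K1, ∀ b ∈ K2, a * b = b * a) :
    PK (K1 ⊔ K2) = PK K2 * PK K1 := by
  have hc : Commute (PK K2) (PK K1) := by
    refine PK_commute K1 fun k hk => ?_
    exact (PK_commute K2 fun b hb => SB7_Lm_comm (h k hk b hb)).symm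
  have hP := PK_isPr (K1 ⊔ K2)
  have hR : IsPr (PK K2 * PK K1) := (PK_isPr K2).mul (PK_isPr K1) hc
  have h1 : PK (K1 ⊔ K2) * (PK K2 * PK K1) = PK K2 * PK K1 := by
    refine ext_mulVec fun f => ?_
    rw [← Matrix.mulVec_mulVec, PK_fix]
    set u := (PK K2 * PK K1) *ᵥ f with hu
    have hu1 : ∀ k ∈ K1, Lm k *ᵥ u = u := by
      rw [← PK_fix, hu, Matrix.mulVec_mulVec, ← mul_assoc, ← hc.eq, mul_assoc, (PK_isPr K1).2]
    have hu2 : ∀ k ∈ K2, Lm k *ᵥ u = u := by
      rw [← PK_fix, hu, Matrix.mulVec_mulVec, ← mul_assoc, (PK_isPr K2).2]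
    intro k hk
    rw [Subgroup.sup_eq_closure_mul] at hk
    induction hk using Subgroup.closure_induction with
    | mem x hx =>
      obtain ⟨a, ha, b, hb, rfl⟩ := Set.mem_mul.1 hx
      rw [Lm_mul, ← Matrix.mulVec_mulVec, hu2 b hb, hu1 a ha]
    | one => rw [Lm_one, Matrix.one_mulVec]
    | mul x y _ _ hx hy => rw [Lm_mul, ← Matrix.mulVec_mulVec, hy, hx]
    | inv x _ hx =>
      calc Lm x⁻¹ *ᵥ u = Lm x⁻¹ *ᵥ (Lm x *ᵥ u) := by rw [hx]
        _ = u := by rw [Matrix.mulVec_mulVec, Lm_inv_mul, Matrix.one_mulVec]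
  have h2 : (PK K2 * PK K1) * PK (K1 ⊔ K2) = PK (K1 ⊔ K2) := by
    refine ext_mulVec fun f => ?_
    have hf : ∀ k ∈ K1 ⊔ K2, Lm k *ᵥ (PK (K1 ⊔ K2) *ᵥ f) = PK (K1 ⊔ K2) *ᵥ f := by
      rw [← PK_fix, Matrix.mulVec_mulVec, hP.2]
    rw [← Matrix.mulVec_mulVec, ← Matrix.mulVec_mulVec,
      (PK_fix K1 _).2 (fun k hk => hf k (Subgroup.mem_sup_left hk)),
      (PK_fix K2 _).2 (fun k hk => hf k (Subgroup.mem_sup_right hk))]
  have h3 : (PK K2 * PK K1) * PK (K1 ⊔ K2) = PK K2 * PK K1 := by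
    have := congrArg Matrix.transpose h1
    rwa [Matrix.transpose_mul, hP.1, hR.1] at this
  rw [← h2, h3]

theorem SB7_trace_le {A B : Matrix G G ℝ} (hA : IsPr A) (hB : IsPr B) (h : Commute A B) : (A * B).trace ≤ B.trace := by
  have h1 : Commute (1 - A) B := (Commute.one_left B).sub_left h
  have h2 := trace_pr_nonneg (hA.compl.mul hB h1)
  rw [sub_mul, one_mul, Matrix.trace_sub] at h2
  linarith

theorem SB7_PK_top : PK (⊤ : Subgroup G) = Jm G := by
  have h1 : subF (⊤ : Subgroup G) = Finset.univ := by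
    ext g; simp [mem_subF]
  unfold PK avL
  rw [h1, Jm_eq_avg_Lm]
  unfold avg
  simp

theorem SB7_PK_bot : PK (⊥ : Subgroup G) = 1 := by
  refine ext_mulVec fun f => ?_
  rw [Matrix.one_mulVec, PK_fix]
  intro k hk
  rw [Subgroup.mem_bot] at hk
  rw [hk, Lm_one, Matrix.one_mulVec]

end gen

theorem SB7_fi (hn : 0 < n) {k : ℕ} (hk : k < n) : (fi hn k).val = k := Nat.mod_eq_of_lt hk

theorem SB7_sG_le (X : Finset (Fin n)) {a b c d : Fin n} (ha : a ∈ X) (hb : b ∈ X) (hc : c ∈ X) (hd : d ∈ X) :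
    sG F a b c d ≤ GX X := by
  unfold sG
  rw [Subgroup.closure_le]
  rintro _ ⟨t, rfl⟩
  exact (GX X).mul_mem (tv_mem_GX X ha hc t) (tv_mem_GX X hb hd (-t))

/-- the first `4 i` coordinates -/
def SB7_Y (n i : ℕ) : Finset (Fin n) := Finset.univ.filter (fun x => x.val < 4 * i)

/-- the other coordinates -/
def SB7_X (n i : ℕ) : Finset (Fin n) := Finset.univ.filter (fun x => 4 * i ≤ x.val)

theorem SB7_disj (n i : ℕ) : Disjoint (SB7_Y n i) (SB7_X n i) := by
  rw [Finset.disjoint_left]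
  intro x hx hx'
  rw [SB7_Y, Finset.mem_filter] at hx
  rw [SB7_X, Finset.mem_filter] at hx'
  omega

theorem SB7_SS_le (hn : 0 < n) : ∀ i : ℕ, 4 * i ≤ n → SS F hn i ≤ GX (SB7_Y n i)
  | 0, _ => bot_le
  | i + 1, hi => by
    have ih := SB7_SS_le hn i (by omega)
    have hm : (GX (SB7_Y n i) : Subgroup (SLn n F)) ≤ GX (SB7_Y n (i + 1)) := by
      refine GX_mono fun x hx => ?_
      rw [SB7_Y, Finset.mem_filter] at hx ⊢
      exact ⟨hx.1, by omega⟩
    refine sup_le (ih.trans hm) (SB7_sG_le _ ?_ ?_ ?_ ?_) <;>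
    · rw [SB7_Y, Finset.mem_filter, SB7_fi hn (by omega)]
      exact ⟨Finset.mem_univ _, by omega⟩

theorem SB7_card (i : ℕ) (hi : 4 * i ≤ n) : (SB7_X n i).card = n - 4 * i := by
  have h1 : (SB7_X n i).card + (SB7_Y n i).card = n := by
    have := Finset.card_filter_add_card_filter_not (s := (Finset.univ : Finset (Fin n))) (fun x => 4 * i ≤ x.val)
    rw [Finset.card_univ, Fintype.card_fin] at this
    have h2 : SB7_Y n i = Finset.univ.filter (fun x : Fin n => ¬ 4 * i ≤ x.val) := by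
      unfold SB7_Y
      congr 1
      funext x
      simp
    rw [h2]
    exact this
  have h3 : (SB7_Y n i).card = 4 * i := by
    have h4 : SB7_Y n i = Finset.univ.map (Fin.castLEEmb hi) := by
      ext x
      rw [SB7_Y, Finset.mem_filter, Finset.mem_map]
      constructor
      · rintro ⟨_, hx⟩
        exact ⟨⟨x.val, hx⟩, Finset.mem_univ _, rfl⟩
      · rintro ⟨y, _, rfl⟩
        exact ⟨Finset.mem_univ _, y.isLt⟩
    rw [h4, Finset.card_map, Finset.card_univ, Fintype.card_fin]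
  omega

theorem SB7_step (hn : 0 < n) (hn8 : 16 ≤ n) {E : Matrix (SLn n F) (SLn n F) ℝ} (hE : IsBlock E) (hEJ : E ≠ Jm (SLn n F))
    (i : ℕ) (hi : 8 * (i + 1) ≤ n) :
    (PK (SS F hn (i + 1)) * E).trace ≤ 27 / 28 * (PK (SS F hn i) * E).trace + 32 / 7 * (1 / 2 : ℝ) ^ (n / 2) * E.trace := by
  obtain ⟨pE, lE, rE, nE, mE⟩ := id hE
  set K := SS F hn i with hK
  set s := sG F (fi hn (4 * i)) (fi hn (4 * i + 1)) (fi hn (4 * i + 2)) (fi hn (4 * i + 3)) with hs
  set H : Subgroup (SLn n F) := GX (SB7_X n i) with hH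
  have hKY : K ≤ GX (SB7_Y n i) := SB7_SS_le hn i (by omega)
  have hcomm : ∀ a ∈ K, ∀ b ∈ H, a * b = b * a := fun a ha b hb =>
    SB7_comm _ _ (SB7_disj n i) (hKY ha) hb
  have hX : ∀ j : ℕ, j ≤ 4 → fi hn (4 * i + j) ∈ SB7_X n i := by
    intro j hj
    rw [SB7_X, Finset.mem_filter, SB7_fi hn (by omega)]
    exact ⟨Finset.mem_univ _, by omega⟩
  have hsH : s ≤ H := SB7_sG_le _ (hX 0 (by omega)) (hX 1 (by omega)) (hX 2 (by omega)) (hX 3 (by omega))
  have hSS : SS F hn (i + 1) = K ⊔ s := rfl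
  have hPK : PK (SS F hn (i + 1)) = PK s * PK K := by
    rw [hSS]
    exact SB7_PK_sup K s fun a ha b hb => hcomm a ha b (hsH hb)
  have cKE : Commute (PK K) E := (PK_commute K fun k _ => lE k).symm
  have cHE : Commute (PK H) E := (PK_commute H fun k _ => lE k).symm
  have cKL : ∀ h ∈ H, Commute (PK K) (Lm h) := fun h hh =>
    (PK_commute K fun k hk => SB7_Lm_comm ((hcomm k hk h hh).symm)).symm
  have cKH : Commute (PK K) (PK H) := PK_commute H cKL
  have hQ : IsPr (PK K * E) := (PK_isPr K).mul pE cKE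
  have hQL : ∀ h ∈ H, Commute (PK K * E) (Lm h) := fun h hh => (cKL h hh).mul_left (lE h)
  have hQH : Commute (PK K * E) (PK H) := PK_commute H hQL
  have hHL : ∀ h ∈ H, Commute (PK H) (Lm h) := fun h hh => by
    have := PK_mul_left H h hh
    show PK H * Lm h = Lm h * PK H
    rw [this.1, this.2]
  have h1H : ∀ h ∈ H, Commute (1 - PK H) (Lm h) := fun h hh => (Commute.one_left _).sub_left (hHL h hh)
  -- the part without fixed vectors
  have hc1 : Commute (1 - PK H) (PK K * E) := (Commute.one_left _).sub_left hQH.symm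
  have hQ' : IsPr ((1 - PK H) * (PK K * E)) := (PK_isPr H).compl.mul hQ hc1
  have hQ'L : ∀ h ∈ (GX (SB7_X n i) : Subgroup (SLn n F)), Commute ((1 - PK H) * (PK K * E)) (Lm h) :=
    fun h hh => (h1H h hh).mul_left (hQL h hh)
  have hz : PK (GX (SB7_X n i) : Subgroup (SLn n F)) * ((1 - PK H) * (PK K * E)) = 0 := by
    rw [← mul_assoc, mul_sub, mul_one, (PK_isPr H).2, sub_self, zero_mul]
  have hsb := s_bound (SB7_X n i) hQ' hQ'L hz (fi hn (4 * i)) (fi hn (4 * i + 1)) (fi hn (4 * i + 2)) (fi hn (4 * i + 3))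
    (fi hn (4 * i + 4)) (by
      intro x hx
      simp only [List.mem_cons, List.not_mem_nil, or_false] at hx
      rcases hx with rfl | rfl | rfl | rfl | rfl
      · exact hX 0 (by omega)
      · exact hX 1 (by omega)
      · exact hX 2 (by omega)
      · exact hX 3 (by omega)
      · exact hX 4 (by omega)) (by
      have e : ∀ a b : ℕ, a ≤ 4 → b ≤ 4 → a ≠ b → fi hn (4 * i + a) ≠ fi hn (4 * i + b) := by
        intro a b ha hb hab h
        have := congrArg Fin.val h
        rw [SB7_fi hn (by omega), SB7_fi hn (by omega)] at this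
        omega
      have e0 : fi hn (4 * i) = fi hn (4 * i + 0) := rfl
      rw [e0]
      simp only [List.nodup_cons, List.mem_cons, List.not_mem_nil, or_false, not_or, not_false_eq_true,
        List.nodup_nil, and_true]
      refine ⟨⟨e 0 1 ?_ ?_ ?_, e 0 2 ?_ ?_ ?_, e 0 3 ?_ ?_ ?_, e 0 4 ?_ ?_ ?_⟩, ⟨e 1 2 ?_ ?_ ?_, e 1 3 ?_ ?_ ?_, e 1 4 ?_ ?_ ?_⟩,
        ⟨e 2 3 ?_ ?_ ?_, e 2 4 ?_ ?_ ?_⟩, e 3 4 ?_ ?_ ?_⟩ <;> omega)
  rw [← hs] at hsb
  -- traces
  have hsPKH : PK s * PK H = PK H := by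
    refine ext_mulVec fun f => ?_
    rw [← Matrix.mulVec_mulVec, PK_fix]
    intro k hk
    rw [Matrix.mulVec_mulVec, (PK_mul_left H k (hsH hk)).1]
  have t1 : (PK (SS F hn (i + 1)) * E).trace =
      (PK H * (PK K * E)).trace + (PK s * ((1 - PK H) * (PK K * E))).trace := by
    rw [hPK, ← Matrix.trace_add]
    congr 1
    have : PK s * ((1 - PK H) * (PK K * E)) = PK s * (PK K * E) - (PK s * PK H) * (PK K * E) := by noncomm_ring
    rw [this, hsPKH, mul_assoc]
    abel
  have t2 : ((1 - PK H) * (PK K * E)).trace = (PK K * E).trace - (PK H * (PK K * E)).trace := by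
    rw [sub_mul, one_mul, Matrix.trace_sub]
  have t3 : 0 ≤ (PK H * (PK K * E)).trace := trace_pr_nonneg ((PK_isPr H).mul hQ hQH.symm)
  have t4 : (PK H * (PK K * E)).trace ≤ (PK H * E).trace := by
    have e1 : PK H * (PK K * E) = PK K * (PK H * E) := by
      rw [← mul_assoc, ← cKH.eq, mul_assoc]
    rw [e1]
    refine SB7_trace_le (PK_isPr K) ((PK_isPr H).mul pE cHE) ?_
    exact cKH.mul_right cKE
  have t5 : (PK H * E).trace ≤ 32 / 7 * (1 / 2 : ℝ) ^ (n / 2) * E.trace := by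
    have hcard : (SB7_X n i).card = n - 4 * i := SB7_card i (by omega)
    have h0 : PK (GX (Finset.univ : Finset (Fin n)) : Subgroup (SLn n F)) * E = 0 := by
      rw [GX_univ, SB7_PK_top]
      rcases block_eq_or_mul_eq_zero Jm_isBlock hE with h | h
      · exact absurd h.symm hEJ
      · exact h
    have h1 := chain_GX (Finset.univ : Finset (Fin n)) (SB7_X n i) (Finset.subset_univ _) (by rw [hcard]; omega) pE
      (fun g _ => lE g) h0
    refine h1.trans ?_
    have h2 : (1 / 2 : ℝ) ^ (SB7_X n i).card ≤ (1 / 2 : ℝ) ^ (n / 2) :=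
      pow_le_pow_of_le_one (by norm_num) (by norm_num) (by rw [hcard]; omega)
    have h3 : 0 ≤ E.trace := trace_pr_nonneg pE
    have h4 : 32 / 7 * (1 / 2 : ℝ) ^ (SB7_X n i).card ≤ 32 / 7 * (1 / 2 : ℝ) ^ (n / 2) := by linarith
    exact mul_le_mul_of_nonneg_right h4 h3
  rw [t1]
  rw [t2] at hsb
  linarith

theorem decay (hn : 0 < n) (hn8 : 16 ≤ n) {E : Matrix (SLn n F) (SLn n F) ℝ} (hE : IsBlock E) (hEJ : E ≠ Jm (SLn n F))
    (r : ℕ) (hr : 8 * r ≤ n) :
    (PK (SS F hn r) * E).trace ≤ ((27 / 28 : ℝ) ^ r + 130 * (1 / 2 : ℝ) ^ (n / 2)) * E.trace := by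
  have h3 : 0 ≤ E.trace := trace_pr_nonneg hE.1
  have hp : (0 : ℝ) ≤ (1 / 2 : ℝ) ^ (n / 2) := by positivity
  have key : ∀ i : ℕ, i ≤ r → (PK (SS F hn i) * E).trace ≤ ((27 / 28 : ℝ) ^ i + 128 * (1 / 2 : ℝ) ^ (n / 2)) * E.trace := by
    intro i
    induction i with
    | zero =>
      intro _
      have : PK (SS F hn 0) = 1 := SB7_PK_bot
      rw [this, one_mul, pow_zero]
      nlinarith [mul_nonneg hp h3]
    | succ i ih =>
      intro hi
      have h1 := SB7_step hn hn8 hE hEJ i (by omega)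
      have h2 := ih (by omega)
      have h4 : (27 / 28 : ℝ) ^ (i + 1) = 27 / 28 * (27 / 28 : ℝ) ^ i := by rw [pow_succ]; ring
      rw [h4]
      nlinarith [mul_nonneg hp h3]
  have h5 := key r le_rfl
  nlinarith [mul_nonneg hp h3]

end Pool.Agent.BC5
end

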