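import Pool.Agent.Lib.MP_bc5a73_al.WordWalks

section
set_option autoImplicit false
set_option linter.unusedSectionVars false
set_option linter.unusedVariables false
open scoped BigOperators Matrix
open Matrix
namespace Pool.Agent.BC5

/-- `SL_n(F)`. -/
abbrev SLn (n : ℕ) (F : Type) [Field F] : Type := Matrix.SpecialLinearGroup (Fin n) F

/-- Projection on the functions that are invariant under left translation by the subgroup `K`. -/
noncomputable def PK {G : Type} [Group G] [Fintype G] [DecidableEq G] (K : Subgroup G) : Matrix G G ℝ := avL (subF K)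

section
variable {n : ℕ} {F : Type} [Field F]

theorem sl_mul_apply (g h : SLn n F) (v : Fin n → F) : (g * h).1 *ᵥ v = g.1 *ᵥ (h.1 *ᵥ v) := by
  rw [Matrix.mulVec_mulVec]; rfl

theorem sl_apply_mul (g h : SLn n F) (v : Fin n → F) : v ᵥ* (g * h).1 = (v ᵥ* g.1) ᵥ* h.1 := by
  rw [Matrix.vecMul_vecMul]; rfl

theorem sl_inv_apply {g : SLn n F} {v w : Fin n → F} (h : g.1 *ᵥ v = w) : (g⁻¹).1 *ᵥ w = v := by
  rw [← h, ← sl_mul_apply, inv_mul_cancel]
  exact Matrix.one_mulVec v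

theorem sl_apply_inv {g : SLn n F} {v w : Fin n → F} (h : v ᵥ* g.1 = w) : w ᵥ* (g⁻¹).1 = v := by
  rw [← h, ← sl_apply_mul, mul_inv_cancel]
  exact Matrix.vecMul_one v

/-- The transvection `1 + a E_{ij}`. -/
def tv (i j : Fin n) (a : F) : SLn n F := if h : i ≠ j then Matrix.SpecialLinearGroup.transvection h a else 1

theorem tv_coe {i j : Fin n} (h : i ≠ j) (a : F) :
    ((tv i j a : SLn n F) : Matrix (Fin n) (Fin n) F) = 1 + Matrix.single i j a := by
  unfold tv
  rw [dif_pos h]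
  rfl

/-- The elements that fix the basis vectors and the coordinate functionals outside `X`. -/
def GX (X : Finset (Fin n)) : Subgroup (SLn n F) where
  carrier := {g | ∀ j, j ∉ X → g.1 *ᵥ Pi.single j 1 = Pi.single j 1 ∧ Pi.single j 1 ᵥ* g.1 = Pi.single j 1}
  mul_mem' := by
    intro g h hg hh j hj
    rw [sl_mul_apply, sl_apply_mul, (hh j hj).1, (hg j hj).1, (hg j hj).2, (hh j hj).2]
    exact ⟨rfl, rfl⟩
  one_mem' := by
    intro j _
    exact ⟨Matrix.one_mulVec _, Matrix.vecMul_one _⟩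
  inv_mem' := by
    intro g hg j hj
    exact ⟨sl_inv_apply (hg j hj).1, sl_apply_inv (hg j hj).2⟩

theorem mem_GX (X : Finset (Fin n)) (g : SLn n F) : g ∈ GX X ↔
    ∀ j, j ∉ X → g.1 *ᵥ Pi.single j 1 = Pi.single j 1 ∧ Pi.single j 1 ᵥ* g.1 = Pi.single j 1 := Iff.rfl

/-- The elements `1 + v e_zᵀ`, `v` supported in `Y`. -/
def UC (Y : Finset (Fin n)) (z : Fin n) : Subgroup (SLn n F) where
  carrier := {g | ∃ v : Fin n → F, (∀ i, i ∉ Y → v i = 0) ∧ v z = 0 ∧
    g.1 = 1 + Matrix.vecMulVec v (Pi.single z 1)}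
  mul_mem' := by
    rintro g h ⟨v, hv, hvz, hg⟩ ⟨w, hw, hwz, hh⟩
    refine ⟨v + w, fun i hi => by rw [Pi.add_apply, hv i hi, hw i hi, add_zero], by rw [Pi.add_apply, hvz, hwz, add_zero], ?_⟩
    have : (g * h).1 = g.1 * h.1 := rfl
    rw [this, hg, hh, mul_add, add_mul, add_mul, Matrix.vecMulVec_mul_vecMulVec]
    simp [hwz, Matrix.add_vecMulVec]
    abel
  one_mem' := ⟨0, fun _ _ => rfl, rfl, by
    have : (1 : SLn n F).1 = 1 := rfl
    rw [this]; simp⟩
  inv_mem' := by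
    rintro g ⟨v, hv, hvz, hg⟩
    refine ⟨-v, fun i hi => by rw [Pi.neg_apply, hv i hi, neg_zero], by rw [Pi.neg_apply, hvz, neg_zero], ?_⟩
    have h1 : g.1 * (1 + Matrix.vecMulVec (-v) (Pi.single z 1)) = 1 := by
      rw [hg, mul_add, add_mul, add_mul, Matrix.vecMulVec_mul_vecMulVec]
      simp [hvz, Matrix.neg_vecMulVec]
    have h2 : (g⁻¹).1 * g.1 = 1 := by
      have : (g⁻¹ * g).1 = (g⁻¹).1 * g.1 := rfl
      rw [← this, inv_mul_cancel]; rfl
    calc (g⁻¹).1 = (g⁻¹).1 * (g.1 * (1 + Matrix.vecMulVec (-v) (Pi.single z 1))) := by rw [h1, mul_one]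
      _ = 1 + Matrix.vecMulVec (-v) (Pi.single z 1) := by rw [← mul_assoc, h2, one_mul]

/-- The elements `1 + e_z vᵀ`, `v` supported in `Y`. -/
def UR (Y : Finset (Fin n)) (z : Fin n) : Subgroup (SLn n F) where
  carrier := {g | ∃ v : Fin n → F, (∀ i, i ∉ Y → v i = 0) ∧ v z = 0 ∧
    g.1 = 1 + Matrix.vecMulVec (Pi.single z 1) v}
  mul_mem' := by
    rintro g h ⟨v, hv, hvz, hg⟩ ⟨w, hw, hwz, hh⟩
    refine ⟨v + w, fun i hi => by rw [Pi.add_apply, hv i hi, hw i hi, add_zero], by rw [Pi.add_apply, hvz, hwz, add_zero], ?_⟩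
    have : (g * h).1 = g.1 * h.1 := rfl
    rw [this, hg, hh, mul_add, add_mul, add_mul, Matrix.vecMulVec_mul_vecMulVec]
    simp [hvz, Matrix.vecMulVec_add]
    abel
  one_mem' := ⟨0, fun _ _ => rfl, rfl, by
    have : (1 : SLn n F).1 = 1 := rfl
    rw [this]; simp⟩
  inv_mem' := by
    rintro g ⟨v, hv, hvz, hg⟩
    refine ⟨-v, fun i hi => by rw [Pi.neg_apply, hv i hi, neg_zero], by rw [Pi.neg_apply, hvz, neg_zero], ?_⟩
    have h1 : g.1 * (1 + Matrix.vecMulVec (Pi.single z 1) (-v)) = 1 := by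
      rw [hg, mul_add, add_mul, add_mul, Matrix.vecMulVec_mul_vecMulVec]
      simp [hvz, Matrix.vecMulVec_neg]
    have h2 : (g⁻¹).1 * g.1 = 1 := by
      have : (g⁻¹ * g).1 = (g⁻¹).1 * g.1 := rfl
      rw [← this, inv_mul_cancel]; rfl
    calc (g⁻¹).1 = (g⁻¹).1 * (g.1 * (1 + Matrix.vecMulVec (Pi.single z 1) (-v))) := by rw [h1, mul_one]
      _ = 1 + Matrix.vecMulVec (Pi.single z 1) (-v) := by rw [← mul_assoc, h2, one_mul]

/-- The root subgroup `{1 + a E_{ij}}`. -/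
def rootG (F : Type) [Field F] {n : ℕ} (i j : Fin n) : Subgroup (SLn n F) :=
  Subgroup.closure (Set.range (fun a : F => tv i j a))

/-- The subgroup `{1 + t E_{ac} - t E_{bd}}`. -/
def sG (F : Type) [Field F] {n : ℕ} (a b c d : Fin n) : Subgroup (SLn n F) :=
  Subgroup.closure (Set.range (fun t : F => tv a c t * tv b d (-t)))

end

/-- The number `k` as an element of `Fin n` (used for `k < n`). -/
def fi {n : ℕ} (hn : 0 < n) (k : ℕ) : Fin n := ⟨k % n, Nat.mod_lt _ hn⟩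

/-- The join of the first `r` standard subgroups `sG`. -/
def SS (F : Type) [Field F] {n : ℕ} (hn : 0 < n) : ℕ → Subgroup (SLn n F)
  | 0 => ⊥
  | r + 1 => SS F hn r ⊔ sG F (fi hn (4 * r)) (fi hn (4 * r + 1)) (fi hn (4 * r + 2)) (fi hn (4 * r + 3))

/-- `g` has an eigenspace of dimension more than `n / 2`. -/
def BadSL {n : ℕ} {F : Type} [Field F] (g : SLn n F) : Prop :=
  ∃ a : F, n < 2 * Module.finrank F (LinearMap.ker (Matrix.toLin' (g.1 - a • (1 : Matrix (Fin n) (Fin n) F))))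

/-- The walk of the vector `v` under the letters `b 0, b 1, …`. -/
def walkV {M n : ℕ} {F : Type} [Field F] (x : Fin M → SLn n F) (b : ℕ → Fin M × Bool) (v : Fin n → F) : ℕ → (Fin n → F)
  | 0 => v
  | j + 1 => (letv x (b j)).1 *ᵥ walkV x b v j

end Pool.Agent.BC5
end

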