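import Pool.Agent.Lib.MP_bc5a73_al.QuasiMain
import Pool.Agent.Lib.MP_bc5a73_al.SlClasses2
import Pool.Agent.Lib.MP_bc5a73_al.SlDegree
import Pool.Agent.Lib.MP_bc5a73_al.SlFinal
import Pool.Agent.Lib.MP_bc5a73_al.Averages

section
set_option autoImplicit false
set_option linter.unusedSectionVars false
set_option linter.unusedVariables false
open scoped BigOperators Matrix
open Matrix
namespace Pool.Agent.BC5


theorem QG1_log3 : (1 : ℝ) < Real.log 3 := by
  have h : Real.exp 1 < 3 := lt_trans Real.exp_one_lt_d9 (by norm_num)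
  have := Real.log_lt_log (Real.exp_pos 1) h
  rwa [Real.log_exp] at this

theorem QG1_exp_half : Real.exp (1 / 4 : ℝ) < 1.38 := by
  by_contra hcon
  push Not at hcon
  have h1 : Real.exp 1 = Real.exp (1 / 4 : ℝ) ^ 4 := by
    rw [← Real.exp_nat_mul]; norm_num
  have h2 : (1.38 : ℝ) ^ 4 ≤ Real.exp (1 / 4 : ℝ) ^ 4 := pow_le_pow_left₀ (by norm_num) hcon 4
  have h3 := Real.exp_one_lt_d9
  rw [h1] at h3
  norm_num at h2 h3
  linarith

theorem QG1_logL {L : ℝ} (h : 1.38 ≤ L) : (1 / 4 : ℝ) ≤ Real.log L := by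
  rw [Real.le_log_iff_exp_le (by linarith)]
  exact le_trans QG1_exp_half.le h

theorem QG1_log2lo : (0.693 : ℝ) < Real.log 2 := lt_trans (by norm_num) Real.log_two_gt_d9
theorem QG1_log2hi : Real.log 2 < (0.694 : ℝ) := lt_trans Real.log_two_lt_d9 (by norm_num)

theorem QG1_loglog2 {t : ℝ} (h : 0.5 ≤ t) : (-0.694 : ℝ) ≤ Real.log t := by
  have h1 : Real.log 0.5 ≤ Real.log t := Real.log_le_log (by norm_num) h
  have h2 : Real.log (0.5 : ℝ) = - Real.log 2 := by
    rw [← Real.log_inv]; norm_num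
  have := QG1_log2hi
  linarith

theorem QG1_ycalc {A B y L : ℝ} (hA0 : 0 ≤ A) (hA : A ≤ 3 * L) (hB0 : 0 ≤ B) (hy : L / 8 ≤ y) (hL : 0 < L) :
    A * (B / y) ≤ 24 * B := by
  have hy0 : 0 < y := by linarith
  rw [mul_div_assoc', div_le_iff₀ hy0]
  have h1 : A ≤ 24 * y := by linarith
  nlinarith [mul_le_mul_of_nonneg_right h1 hB0]

theorem sl_num : ∃ C : ℝ, 1 ≤ C ∧ ∀ n q k g d : ℕ, 2 ≤ n → 2 ≤ q → q ≤ k → k ≤ 2 ^ n * q ^ (n + 1) → 3 ≤ g →
    g ≤ q ^ (n ^ 2) → d = max 1 ((q ^ (n - 1) - 1) / 2) →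
    Real.log (Real.log g) + Real.log k * (Real.log (Real.log ((d : ℝ) + 2)) / Real.log ((d : ℝ) + 2)) ≤
      C * Real.log (n * Real.log q) ∧
    1 / ((k : ℝ) * d) ≤ (q : ℝ) ^ (-((1 / 8 : ℝ) * n)) := by
  refine ⟨200, by norm_num, ?_⟩
  intro n q k g d hn hq hqk hk hg hgq hd
  have hnR : (2 : ℝ) ≤ n := by exact_mod_cast hn
  have hqR : (2 : ℝ) ≤ q := by exact_mod_cast hq
  have hkR : (q : ℝ) ≤ k := by exact_mod_cast hqk
  have hq0 : (0 : ℝ) < q := by linarith
  have hk0 : (0 : ℝ) < k := by linarith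
  have hlq : Real.log 2 ≤ Real.log q := Real.log_le_log (by norm_num) hqR
  have h2lo := QG1_log2lo
  have h2hi := QG1_log2hi
  have hlq0 : 0 < Real.log q := by linarith
  -- facts on d
  have hd1 : 1 ≤ d := by rw [hd]; exact le_max_left _ _
  have hd2 : (q ^ (n - 1) - 1) / 2 ≤ d := by rw [hd]; exact le_max_right _ _
  have hQpos : 1 ≤ q ^ (n - 1) := Nat.one_le_pow _ _ (by omega)
  have hd3 : q ^ (n - 1) ≤ 2 * d + 2 := by omega
  have hd4 : d ≤ q ^ (n - 1) := by
    rw [hd]; apply max_le hQpos; omega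
  have hd1R : (1 : ℝ) ≤ d := by exact_mod_cast hd1
  have hd3R : (q : ℝ) ^ (n - 1) ≤ 2 * d + 2 := by exact_mod_cast hd3
  have hd4R : (d : ℝ) ≤ (q : ℝ) ^ (n - 1) := by exact_mod_cast hd4
  have hn1 : ((n - 1 : ℕ) : ℝ) = (n : ℝ) - 1 := by
    rw [Nat.cast_sub (by omega)]; norm_num
  have hQR : (1 : ℝ) ≤ (q : ℝ) ^ (n - 1) := one_le_pow₀ (by linarith)
  constructor
  · set L : ℝ := n * Real.log q with hLdef
    have hL : 1.386 ≤ L := by
      have : 2 * 0.693 ≤ (n : ℝ) * Real.log q := by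
        apply mul_le_mul hnR (by linarith) (by norm_num) (by linarith)
      norm_num at this ⊢
      linarith
    have hL0 : 0 < L := by linarith
    have hlL : (1 / 4 : ℝ) ≤ Real.log L := QG1_logL (by linarith)
    -- log log g
    have hg3 : (3 : ℝ) ≤ g := by exact_mod_cast hg
    have hlg : 0 < Real.log g := Real.log_pos (by linarith)
    have hgle : Real.log g ≤ n ^ 2 * Real.log q := by
      have h1 : (g : ℝ) ≤ (q : ℝ) ^ (n ^ 2) := by exact_mod_cast hgq
      have h2 := Real.log_le_log (by linarith) h1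
      rw [Real.log_pow] at h2
      push_cast at h2
      exact h2
    have hllg : Real.log (Real.log g) ≤ 2 * Real.log L + 0.694 := by
      have h1 := Real.log_le_log hlg hgle
      have h2 : Real.log ((n : ℝ) ^ 2 * Real.log q) = 2 * Real.log n + Real.log (Real.log q) := by
        rw [Real.log_mul (by positivity) hlq0.ne', Real.log_pow]
        norm_num
      have h3 : Real.log L = Real.log n + Real.log (Real.log q) := by
        rw [hLdef, Real.log_mul (by positivity) hlq0.ne']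
      have h4 := QG1_loglog2 (t := Real.log q) (by linarith)
      linarith
    -- log k
    have hlk0 : 0 ≤ Real.log k := Real.log_nonneg (by linarith)
    have hlk : Real.log k ≤ 3 * L := by
      have h1 : (k : ℝ) ≤ 2 ^ n * (q : ℝ) ^ (n + 1) := by exact_mod_cast hk
      have h2 := Real.log_le_log hk0 h1
      rw [Real.log_mul (by positivity) (by positivity), Real.log_pow, Real.log_pow] at h2
      push_cast at h2
      have h3 : (n : ℝ) * Real.log 2 ≤ n * Real.log q := mul_le_mul_of_nonneg_left hlq (by linarith)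
      have h4 : ((n : ℝ) + 1) * Real.log q ≤ 2 * n * Real.log q :=
        mul_le_mul_of_nonneg_right (by linarith) hlq0.le
      rw [hLdef]
      linarith
    -- y
    set y : ℝ := Real.log ((d : ℝ) + 2) with hydef
    have hy1 : 1 < y := by
      have := Real.log_le_log (by norm_num) (show (3 : ℝ) ≤ (d : ℝ) + 2 by linarith)
      have h3 := QG1_log3
      rw [hydef]
      linarith
    have hy2 : L / 2 - 0.694 ≤ y := by
      have h1 : (q : ℝ) ^ (n - 1) / 2 ≤ (d : ℝ) + 2 := by linarith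
      have h2 := Real.log_le_log (by positivity) h1
      rw [Real.log_div (by positivity) (by norm_num), Real.log_pow, hn1] at h2
      have h3 : L / 2 ≤ ((n : ℝ) - 1) * Real.log q := by
        rw [hLdef]
        have : ((n : ℝ) / 2) * Real.log q ≤ ((n : ℝ) - 1) * Real.log q :=
          mul_le_mul_of_nonneg_right (by linarith) hlq0.le
        linarith
      rw [hydef]
      linarith
    have hy3 : L / 8 ≤ y := by
      rcases le_total L 8 with h | h
      · linarith
      · linarith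
    have hy4 : y ≤ 2 * L := by
      have h1 : (d : ℝ) + 2 ≤ (q : ℝ) ^ (n + 1) := by
        have h2 : (q : ℝ) ^ (n + 1) = (q : ℝ) ^ (n - 1) * (q : ℝ) ^ 2 := by
          rw [← pow_add]; congr 1; omega
        have h3 : (4 : ℝ) ≤ (q : ℝ) ^ 2 := by nlinarith
        have h4 : (q : ℝ) ^ (n - 1) * 4 ≤ (q : ℝ) ^ (n - 1) * (q : ℝ) ^ 2 :=
          mul_le_mul_of_nonneg_left h3 (by positivity)
        rw [h2]; linarith
      have h2 := Real.log_le_log (by linarith) h1
      rw [Real.log_pow] at h2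
      push_cast at h2
      have h4 : ((n : ℝ) + 1) * Real.log q ≤ 2 * n * Real.log q :=
        mul_le_mul_of_nonneg_right (by linarith) hlq0.le
      rw [hydef, hLdef]
      linarith
    have hly0 : 0 ≤ Real.log y := Real.log_nonneg hy1.le
    have hly : Real.log y ≤ Real.log L + 0.694 := by
      have h1 := Real.log_le_log (by linarith) hy4
      rw [Real.log_mul (by norm_num) hL0.ne'] at h1
      linarith
    have hmain := QG1_ycalc hlk0 hlk hly0 hy3 hL0
    linarith
  · have hd0 : (0 : ℝ) < d := by linarith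
    have hkd : (q : ℝ) ^ ((1 / 8 : ℝ) * n) ≤ (k : ℝ) * d := by
      rcases le_or_gt n 8 with h8 | h8
      · have h8R : (n : ℝ) ≤ 8 := by exact_mod_cast h8
        have h1 : (q : ℝ) ^ ((1 / 8 : ℝ) * n) ≤ (q : ℝ) ^ (1 : ℝ) :=
          Real.rpow_le_rpow_of_exponent_le (by linarith) (by linarith)
        rw [Real.rpow_one] at h1
        nlinarith
      · have h8R : (9 : ℝ) ≤ n := by exact_mod_cast h8
        have h1 : (q : ℝ) ^ ((1 / 8 : ℝ) * n) ≤ (q : ℝ) ^ (((n - 2 : ℕ) : ℝ)) := by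
          apply Real.rpow_le_rpow_of_exponent_le (by linarith)
          rw [Nat.cast_sub (by omega)]
          push_cast
          linarith
        rw [Real.rpow_natCast] at h1
        have h2 : (q : ℝ) ^ (n - 1) = (q : ℝ) ^ (n - 2) * q := by
          rw [← pow_succ]; congr 1; omega
        have h5 : (4 : ℝ) ≤ (q : ℝ) ^ (n - 1) := by
          have h6 : (q : ℝ) ^ 2 ≤ (q : ℝ) ^ (n - 1) := pow_le_pow_right₀ (by linarith) (by omega)
          nlinarith
        have h3 : (q : ℝ) ^ (n - 1) / 4 ≤ d := by linarith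
        have h6 : (q : ℝ) ^ (n - 2) ≤ (q : ℝ) * ((q : ℝ) ^ (n - 1) / 4) := by
          rw [h2]
          have h7 : 0 < (q : ℝ) ^ (n - 2) := by positivity
          have h8 : (4 : ℝ) ≤ (q : ℝ) * q := by nlinarith
          nlinarith
        have h9 : (q : ℝ) * ((q : ℝ) ^ (n - 1) / 4) ≤ (k : ℝ) * d :=
          mul_le_mul hkR h3 (by positivity) (by linarith)
        linarith
    rw [Real.rpow_neg hq0.le, one_div]
    exact inv_anti₀ (by positivity) hkd

end Pool.Agent.BC5
end

section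
set_option autoImplicit false
set_option linter.unusedSectionVars false
set_option linter.unusedVariables false
open scoped BigOperators Matrix
open Matrix
namespace Pool.Agent.BC5

theorem QG2_card (n : ℕ) (hn : 2 ≤ n) (F : Type) [Field F] [Fintype F] [DecidableEq F] :
    3 ≤ Nat.card (SLn n F) := by
  classical
  have h01 : (⟨0, by omega⟩ : Fin n) ≠ ⟨1, by omega⟩ := by
    intro h
    have := congrArg Fin.val h
    simp at this
  rw [Nat.card_eq_fintype_card]
  have h3 : 2 < Fintype.card (SLn n F) := by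
    rw [Fintype.two_lt_card_iff]
    refine ⟨tv ⟨0, by omega⟩ ⟨1, by omega⟩ 1, tv ⟨1, by omega⟩ ⟨0, by omega⟩ 1, 1, ?_, ?_, ?_⟩
    · intro h
      have h1 := congrArg (fun M : SLn n F => (M : Matrix (Fin n) (Fin n) F) ⟨0, by omega⟩ ⟨1, by omega⟩) h
      simp only [tv_coe h01, tv_coe h01.symm] at h1
      simp [Matrix.add_apply, Matrix.single_apply, Matrix.one_apply] at h1
    · intro h
      have h1 := congrArg (fun M : SLn n F => (M : Matrix (Fin n) (Fin n) F) ⟨0, by omega⟩ ⟨1, by omega⟩) h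
      simp only [tv_coe h01] at h1
      simp [Matrix.add_apply, Matrix.single_apply, Matrix.one_apply] at h1
    · intro h
      have h1 := congrArg (fun M : SLn n F => (M : Matrix (Fin n) (Fin n) F) ⟨1, by omega⟩ ⟨0, by omega⟩) h
      simp only [tv_coe h01.symm] at h1
      simp [Matrix.add_apply, Matrix.single_apply, Matrix.one_apply] at h1
  omega

theorem QG2_QR (n : ℕ) (hn : 2 ≤ n) (F : Type) [Field F] [Fintype F] [DecidableEq F] :
    QR (SLn n F) ((max 1 ((Fintype.card F ^ (n - 1) - 1) / 2) : ℕ) : ℝ) := by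
  intro P hP hC hne hJ
  have hq : 1 ≤ Fintype.card F := Fintype.card_pos
  have hqn : 1 ≤ Fintype.card F ^ (n - 1) := Nat.one_le_pow _ _ hq
  rw [Nat.cast_max]
  apply max_le
  · rw [Nat.cast_one]
    exact one_le_trace hP hne
  · have h1 : (((Fintype.card F ^ (n - 1) - 1) / 2 : ℕ) : ℝ) ≤ ((Fintype.card F : ℝ) ^ (n - 1) - 1) / 2 := by
      have h2 := @Nat.cast_div_le ℝ _ _ _ (Fintype.card F ^ (n - 1) - 1) 2
      rw [Nat.cast_sub hqn] at h2
      push_cast at h2
      exact h2
    refine h1.trans ?_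
    rcases Nat.lt_or_ge n 3 with h3 | h3
    · have hn2 : n = 2 := by omega
      subst hn2
      have h4 := QR_SL_two (F := F) P hP hC hne hJ
      have h5 : (Fintype.card F : ℝ) ^ (2 - 1) = (Fintype.card F : ℝ) := by norm_num
      rw [h5]
      exact h4
    · have h4 := QR_SL_big (F := F) h3 P hP hC hne hJ
      have h5 : (1 : ℝ) ≤ (Fintype.card F : ℝ) ^ (n - 1) := by exact_mod_cast hqn
      linarith

theorem SL_loglog : ∃ C : ℝ, ∃ κ : ℝ, 0 < κ ∧ ∀ n : ℕ, 2 ≤ n → ∀ (F : Type) [Field F] [Finite F],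
    ∀ m : ℕ, C * Real.log ((n : ℝ) * Real.log (Nat.card F)) ≤ m →
      1 - (Nat.card F : ℝ) ^ (-(κ * n)) ≤ probExpd (Matrix.SpecialLinearGroup (Fin n) F) m (1 / 8) := by
  classical
  obtain ⟨C1, hC1, hqm⟩ := quasi_main
  obtain ⟨C2, hC2, hnum⟩ := sl_num
  refine ⟨C1 * C2, 1 / 8, by norm_num, ?_⟩
  intro n hn F _ _ m hm
  have : Fintype F := Fintype.ofFinite F
  have hcF : Nat.card F = Fintype.card F := Nat.card_eq_fintype_card
  rw [hcF] at hm ⊢
  have hq : 2 ≤ Fintype.card F := Fintype.one_lt_card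
  have hk : Fintype.card F ≤ kc (SLn n F) := card_le_kc_SL n hn F
  have hk2 : kc (SLn n F) ≤ 2 ^ n * Fintype.card F ^ (n + 1) := kc_SL_le2 n (by omega) F
  have h3 : 3 ≤ Nat.card (SLn n F) := QG2_card n hn F
  have hg : Nat.card (SLn n F) ≤ Fintype.card F ^ (n ^ 2) := by
    rw [Nat.card_eq_fintype_card]
    exact card_SL_le n F
  obtain ⟨ha, hb⟩ := hnum n (Fintype.card F) (kc (SLn n F)) (Nat.card (SLn n F))
    (max 1 ((Fintype.card F ^ (n - 1) - 1) / 2)) hn hq hk hk2 h3 hg rfl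
  have hQR := QG2_QR n hn F
  have hbound : C1 * (Real.log (Real.log (Nat.card (SLn n F))) + Real.log (Nat.card (ConjClasses (SLn n F))) *
      (Real.log (Real.log (((max 1 ((Fintype.card F ^ (n - 1) - 1) / 2) : ℕ) : ℝ) + 2)) /
        Real.log (((max 1 ((Fintype.card F ^ (n - 1) - 1) / 2) : ℕ) : ℝ) + 2))) ≤ m := by
    refine le_trans ?_ hm
    rw [mul_assoc]
    exact mul_le_mul_of_nonneg_left ha (by linarith)
  have h4 := hqm (SLn n F) (max 1 ((Fintype.card F ^ (n - 1) - 1) / 2)) m h3 (le_max_left _ _) hQR hbound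
  have h5 := le_probExpd h4
  exact (sub_le_sub_left hb 1).trans h5

theorem SL_quot_loglog : ∃ C : ℝ, ∃ κ : ℝ, 0 < κ ∧ ∀ n : ℕ, 2 ≤ n → ∀ (F : Type) [Field F] [Finite F]
    (N : Subgroup (Matrix.SpecialLinearGroup (Fin n) F)) [N.Normal],
    ∀ m : ℕ, C * Real.log ((n : ℝ) * Real.log (Nat.card F)) ≤ m →
      1 - (Nat.card F : ℝ) ^ (-(κ * n)) ≤ probExpd (Matrix.SpecialLinearGroup (Fin n) F ⧸ N) m (1 / 8) := by
  classical
  obtain ⟨C, κ, hκ, h⟩ := SL_loglog
  refine ⟨C, κ, hκ, ?_⟩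
  intro n hn F _ _ N _ m hm
  have : Finite (Matrix.SpecialLinearGroup (Fin n) F) := by
    have : Fintype F := Fintype.ofFinite F
    infer_instance
  exact (h n hn F m hm).trans (probExpd_quotient _ m (1 / 8))

end Pool.Agent.BC5
end

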