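import Mathlib

section
set_option autoImplicit false
set_option linter.unusedSectionVars false
set_option linter.unusedVariables false
open scoped BigOperators Matrix
open Matrix
namespace Pool.Agent.BC5


/-- The parameters of paper 30.1. -/
noncomputable def pF (δ : ℝ) (n : ℕ) : ℕ := ⌈(n : ℝ) ^ (1 - δ)⌉₊
noncomputable def pT (δ : ℝ) (n l : ℕ) : ℕ := ⌊δ * l * Real.log n / 72⌋₊
noncomputable def pq (δ : ℝ) (n l : ℕ) : ℕ := ⌊δ * l * Real.log n / 36⌋₊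

theorem VN1_large (δ : ℝ) (hδ : 0 < δ) : ∃ n1 : ℕ, ∀ n : ℕ, n1 ≤ n →
    5 ≤ n ∧ 72 ≤ (n : ℝ) ^ δ ∧ Real.log n ^ 2 ≤ (n : ℝ) ^ δ ∧ 23040 / δ ≤ Real.log n := by
  have h1 : ∀ᶠ x : ℝ in Filter.atTop, 72 ≤ x ^ δ :=
    (tendsto_rpow_atTop hδ).eventually_ge_atTop 72
  have h2 : ∀ᶠ x : ℝ in Filter.atTop, 23040 / δ ≤ Real.log x :=
    Real.tendsto_log_atTop.eventually_ge_atTop _
  have h3 : ∀ᶠ x : ℝ in Filter.atTop, ‖Real.log x‖ ≤ 1 * ‖x ^ (δ / 2)‖ :=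
    (isLittleO_log_rpow_atTop (half_pos hδ)).bound one_pos
  have h4 : ∀ᶠ x : ℝ in Filter.atTop, 5 ≤ x := Filter.eventually_ge_atTop 5
  have h5 := ((h1.and h2).and (h3.and h4))
  obtain ⟨n1, hn1⟩ := Filter.eventually_atTop.mp
    ((tendsto_natCast_atTop_atTop (R := ℝ)).eventually h5)
  refine ⟨n1, fun n hn => ?_⟩
  obtain ⟨⟨a1, a2⟩, a3, a4⟩ := hn1 n hn
  have hn0 : (0 : ℝ) ≤ n := Nat.cast_nonneg n
  refine ⟨by exact_mod_cast a4, a1, ?_, a2⟩
  have b1 : ‖(n : ℝ) ^ (δ / 2)‖ = (n : ℝ) ^ (δ / 2) :=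
    Real.norm_of_nonneg (Real.rpow_nonneg hn0 _)
  rw [one_mul, b1] at a3
  have b2 : Real.log n ^ 2 ≤ ((n : ℝ) ^ (δ / 2)) ^ 2 := by
    rw [← sq_abs (Real.log n), ← Real.norm_eq_abs]
    exact pow_le_pow_left₀ (norm_nonneg _) a3 2
  have b3 : ((n : ℝ) ^ (δ / 2)) ^ 2 = (n : ℝ) ^ δ := by
    rw [← Real.rpow_natCast, ← Real.rpow_mul hn0]
    congr 1
    push_cast
    ring
  rwa [b3] at b2

theorem num_side (c1 δ : ℝ) (hc1 : 0 < c1) (hδ : 0 < δ) (hδ1 : δ ≤ 1 / 100) (hcd : 3 * c1 + 2 * δ ≤ 1) :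
    ∃ n1 : ℕ, ∀ n : ℕ, n1 ≤ n → ∀ l : ℕ, 1 ≤ l → (l : ℝ) ≤ (n : ℝ) ^ c1 →
      1 ≤ pF δ n ∧ l ≤ pF δ n ∧ 36 * pF δ n ≤ n ∧ 2 * (l * (2 * pT δ n l) ^ 2) ≤ pF δ n ∧
      2 * (l * (2 * pT δ n l)) + 4 ≤ n ∧ 640 ≤ pq δ n l := by
  obtain ⟨n1, hn1⟩ := VN1_large δ hδ
  refine ⟨n1, fun n hn l hl hlc => ?_⟩
  obtain ⟨hn5, h72, hL2, hLb⟩ := hn1 n hn
  have hn5' : (5 : ℝ) ≤ n := by exact_mod_cast hn5
  have hnpos : (0 : ℝ) < n := by linarith
  have hn1' : (1 : ℝ) ≤ n := by linarith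
  have hl1 : (1 : ℝ) ≤ l := by exact_mod_cast hl
  have hL0 : 0 ≤ Real.log n := Real.log_nonneg hn1'
  set L := Real.log (n : ℝ) with hLdef
  have hpos : (0 : ℝ) < (n : ℝ) ^ (1 - δ) := Real.rpow_pos_of_pos hnpos _
  have hone : (1 : ℝ) ≤ (n : ℝ) ^ (1 - δ) := Real.one_le_rpow hn1' (by linarith)
  have hFge : (n : ℝ) ^ (1 - δ) ≤ pF δ n := Nat.le_ceil _
  have hFle : (pF δ n : ℝ) < (n : ℝ) ^ (1 - δ) + 1 := Nat.ceil_lt_add_one hpos.le
  -- `36 F ≤ n`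
  have hmul : (n : ℝ) ^ δ * (n : ℝ) ^ (1 - δ) = n := by
    rw [← Real.rpow_add hnpos]
    have : δ + (1 - δ) = 1 := by ring
    rw [this, Real.rpow_one]
  have h36 : (36 : ℝ) * pF δ n ≤ n := by
    calc (36 : ℝ) * pF δ n ≤ 36 * (2 * (n : ℝ) ^ (1 - δ)) := by linarith
      _ = 72 * (n : ℝ) ^ (1 - δ) := by ring
      _ ≤ (n : ℝ) ^ δ * (n : ℝ) ^ (1 - δ) := mul_le_mul_of_nonneg_right h72 hpos.le
      _ = n := hmul
  have h36' : 36 * pF δ n ≤ n := by exact_mod_cast h36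
  -- `8 l T² ≤ F`
  have hT0 : 0 ≤ δ * l * L / 72 := by positivity
  have hT : (pT δ n l : ℝ) ≤ δ * l * L / 72 := Nat.floor_le hT0
  have hT' : (pT δ n l : ℝ) ≤ l * L / 7200 := by
    refine hT.trans ?_
    have : δ * (l * L) ≤ 1 / 100 * (l * L) := mul_le_mul_of_nonneg_right hδ1 (by positivity)
    calc δ * l * L / 72 = δ * (l * L) / 72 := by ring
      _ ≤ 1 / 100 * (l * L) / 72 := by
        apply div_le_div_of_nonneg_right this (by norm_num)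
      _ = l * L / 7200 := by ring
  have hT2 : (pT δ n l : ℝ) ^ 2 ≤ (l * L / 7200) ^ 2 :=
    pow_le_pow_left₀ (Nat.cast_nonneg _) hT' 2
  have hl3 : (l : ℝ) ^ 3 ≤ (n : ℝ) ^ (1 - 2 * δ) := by
    calc (l : ℝ) ^ 3 ≤ ((n : ℝ) ^ c1) ^ 3 := pow_le_pow_left₀ (by linarith) hlc 3
      _ = (n : ℝ) ^ (c1 * 3) := by
        rw [← Real.rpow_natCast, ← Real.rpow_mul hnpos.le]
        norm_num
      _ ≤ (n : ℝ) ^ (1 - 2 * δ) := Real.rpow_le_rpow_of_exponent_le hn1' (by linarith)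
  have hmul2 : (n : ℝ) ^ (1 - 2 * δ) * (n : ℝ) ^ δ = (n : ℝ) ^ (1 - δ) := by
    rw [← Real.rpow_add hnpos]
    congr 1
    ring
  have h8 : (8 : ℝ) * (l * (pT δ n l : ℝ) ^ 2) ≤ pF δ n := by
    calc (8 : ℝ) * (l * (pT δ n l : ℝ) ^ 2) ≤ 8 * (l * (l * L / 7200) ^ 2) := by
          have : (l : ℝ) * (pT δ n l : ℝ) ^ 2 ≤ l * (l * L / 7200) ^ 2 :=
            mul_le_mul_of_nonneg_left hT2 (by linarith)
          linarith
      _ = (l : ℝ) ^ 3 * L ^ 2 * (8 / 7200 ^ 2) := by ring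
      _ ≤ (l : ℝ) ^ 3 * L ^ 2 * 1 := by
          apply mul_le_mul_of_nonneg_left (by norm_num)
          positivity
      _ = (l : ℝ) ^ 3 * L ^ 2 := mul_one _
      _ ≤ (n : ℝ) ^ (1 - 2 * δ) * (n : ℝ) ^ δ :=
          mul_le_mul hl3 hL2 (by positivity) (Real.rpow_nonneg hnpos.le _)
      _ = (n : ℝ) ^ (1 - δ) := hmul2
      _ ≤ pF δ n := hFge
  have h8' : 8 * (l * pT δ n l ^ 2) ≤ pF δ n := by exact_mod_cast h8
  have h8'' : 2 * (l * (2 * pT δ n l) ^ 2) ≤ pF δ n := by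
    calc 2 * (l * (2 * pT δ n l) ^ 2) = 8 * (l * pT δ n l ^ 2) := by ring
      _ ≤ pF δ n := h8'
  refine ⟨?_, ?_, h36', h8'', ?_, ?_⟩
  · have : (0 : ℝ) < pF δ n := lt_of_lt_of_le hpos hFge
    exact_mod_cast this
  · have : (l : ℝ) ≤ pF δ n := by
      calc (l : ℝ) ≤ (n : ℝ) ^ c1 := hlc
        _ ≤ (n : ℝ) ^ (1 - δ) := Real.rpow_le_rpow_of_exponent_le hn1' (by linarith)
        _ ≤ pF δ n := hFge
    exact_mod_cast this
  · have h9 : l * pT δ n l ≤ l * pT δ n l ^ 2 :=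
      Nat.mul_le_mul_left l (Nat.le_self_pow (by norm_num) _)
    have h10 : 2 * (l * (2 * pT δ n l)) = 4 * (l * pT δ n l) := by ring
    rw [h10]
    omega
  · refine Nat.le_floor ?_
    have h11 : 23040 ≤ δ * L := by
      rw [div_le_iff₀ hδ] at hLb
      linarith
    have h12 : δ * L ≤ δ * l * L := by
      calc δ * L = δ * 1 * L := by ring
        _ ≤ δ * l * L := by
          apply mul_le_mul_of_nonneg_right _ hL0
          exact mul_le_mul_of_nonneg_left hl1 hδ.le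
    push_cast
    rw [le_div_iff₀ (by norm_num)]
    linarith

end Pool.Agent.BC5
end

section
set_option autoImplicit false
set_option linter.unusedSectionVars false
set_option linter.unusedVariables false
open scoped BigOperators Matrix
open Matrix
namespace Pool.Agent.BC5


theorem VN2_n1 (δ : ℝ) (hδ : 0 < δ) : ∃ n1 : ℕ, ∀ n : ℕ, n1 ≤ n → 1 ≤ n ∧ 1000 ≤ δ * Real.log n := by
  refine ⟨⌈Real.exp (1000 / δ)⌉₊ + 1, fun n hn => ?_⟩
  have h1 : Real.exp (1000 / δ) ≤ n :=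
    (Nat.le_ceil _).trans (by exact_mod_cast (Nat.le_succ _).trans hn)
  refine ⟨by omega, ?_⟩
  have h2 : 1000 / δ ≤ Real.log n := by
    rw [← Real.log_exp (1000 / δ)]
    exact Real.log_le_log (Real.exp_pos _) h1
  rwa [div_le_iff₀' hδ] at h2

theorem VN2_two_pow (q : ℕ) : (2 : ℝ) ^ q = Real.exp (q * Real.log 2) := by
  rw [Real.exp_nat_mul, Real.exp_log (by norm_num)]

theorem VN2_four_pow (T : ℕ) : (4 : ℝ) ^ T = Real.exp (T * (2 * Real.log 2)) := by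
  rw [Real.exp_nat_mul]
  congr 1
  rw [two_mul, Real.exp_add, Real.exp_log (by norm_num)]
  norm_num

theorem VN2_rhs (δ : ℝ) (n l : ℕ) (hn : 1 ≤ n) :
    (n : ℝ) ^ (-(δ * l / 25)) = Real.exp (-(δ * l * Real.log n) / 25) := by
  have : (0 : ℝ) < n := by exact_mod_cast hn
  rw [Real.rpow_def_of_pos this]
  congr 1
  ring

theorem num_triv (c1 δ : ℝ) (hc1 : 0 < c1) (hδ : 0 < δ) (hδ1 : δ ≤ 1 / 100) (hcd : 3 * c1 + 2 * δ ≤ 1) :
    ∃ n1 : ℕ, ∀ n : ℕ, n1 ≤ n → ∀ l : ℕ, 1 ≤ l → (l : ℝ) ≤ (n : ℝ) ^ c1 →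
      (2 : ℝ) ^ pq δ n l * 4 ^ pT δ n l * (1 / 1280 : ℝ) ^ pT δ n l ≤ 1 / 3 * (n : ℝ) ^ (-(δ * l / 25)) := by
  obtain ⟨n1, hn1⟩ := VN2_n1 δ hδ
  refine ⟨n1, fun n hn l hl _ => ?_⟩
  obtain ⟨hn0, hL⟩ := hn1 n hn
  have hl1 : (1 : ℝ) ≤ l := by exact_mod_cast hl
  have hlog : 0 ≤ Real.log n := Real.log_natCast_nonneg n
  rw [VN2_rhs δ n l hn0]
  set y : ℝ := δ * l * Real.log n with hy
  have hy1 : 1000 ≤ y := by
    have : y = (l : ℝ) * (δ * Real.log n) := by rw [hy]; ring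
    rw [this]
    nlinarith
  have hq : (pq δ n l : ℝ) ≤ y / 36 := Nat.floor_le (by positivity)
  have hT : y / 72 - 1 ≤ (pT δ n l : ℝ) := (Nat.sub_one_lt_floor _).le
  have hlg1 := Real.log_two_gt_d9
  have hlg2 := Real.log_two_lt_d9
  have h4 : (4 : ℝ) ^ pT δ n l * (1 / 1280 : ℝ) ^ pT δ n l ≤
      Real.exp (-(pT δ n l * (8 * Real.log 2))) := by
    rw [← mul_pow, Real.exp_neg, Real.exp_nat_mul, ← inv_pow]
    refine pow_le_pow_left₀ (by norm_num) ?_ _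
    have : Real.exp (8 * Real.log 2) = 256 := by
      rw [show (8 : ℝ) * Real.log 2 = ((8 : ℕ) : ℝ) * Real.log 2 by norm_num, ← VN2_two_pow]
      norm_num
    rw [this]
    norm_num
  have he : (3 : ℝ) ≤ Real.exp 2 := by
    have := Real.add_one_le_exp (2 : ℝ)
    linarith
  calc (2 : ℝ) ^ pq δ n l * 4 ^ pT δ n l * (1 / 1280 : ℝ) ^ pT δ n l
      = (2 : ℝ) ^ pq δ n l * (4 ^ pT δ n l * (1 / 1280 : ℝ) ^ pT δ n l) := by ring
    _ ≤ Real.exp (pq δ n l * Real.log 2) * Real.exp (-(pT δ n l * (8 * Real.log 2))) := by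
        rw [VN2_two_pow]
        exact mul_le_mul_of_nonneg_left h4 (Real.exp_pos _).le
    _ = Real.exp (pq δ n l * Real.log 2 - pT δ n l * (8 * Real.log 2)) := by
        rw [← Real.exp_add]; ring_nf
    _ ≤ Real.exp (-y / 25 - 2) := by
        apply Real.exp_le_exp.2
        have h1 : (pq δ n l : ℝ) * Real.log 2 ≤ y / 36 * Real.log 2 :=
          mul_le_mul_of_nonneg_right hq (by linarith)
        have h2 : (y / 72 - 1) * (8 * Real.log 2) ≤ (pT δ n l : ℝ) * (8 * Real.log 2) :=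
          mul_le_mul_of_nonneg_right hT (by linarith)
        nlinarith
    _ ≤ 1 / 3 * Real.exp (-y / 25) := by
        rw [Real.exp_sub, div_eq_mul_inv, mul_comm]
        refine mul_le_mul_of_nonneg_right ?_ (Real.exp_pos _).le
        rw [one_div]
        exact inv_anti₀ (by norm_num) he

theorem num_char (c1 δ : ℝ) (hc1 : 0 < c1) (hδ : 0 < δ) (hδ1 : δ ≤ 1 / 100) (hcd : 3 * c1 + 2 * δ ≤ 1) :
    ∃ n1 : ℕ, ∀ n : ℕ, n1 ≤ n → ∀ l : ℕ, 1 ≤ l → (l : ℝ) ≤ (n : ℝ) ^ c1 →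
      (2 : ℝ) ^ pq δ n l * 4 ^ pT δ n l * (3 * (36 * (pF δ n : ℝ) / n) ^ ((l : ℝ) / 12)) ≤
        1 / 3 * (n : ℝ) ^ (-(δ * l / 25)) := by
  obtain ⟨n1, hn1⟩ := VN2_n1 δ hδ
  refine ⟨n1, fun n hn l hl _ => ?_⟩
  obtain ⟨hn0, hL⟩ := hn1 n hn
  have hl1 : (1 : ℝ) ≤ l := by exact_mod_cast hl
  have hlog : 0 ≤ Real.log n := Real.log_natCast_nonneg n
  have hnr : (1 : ℝ) ≤ n := by exact_mod_cast hn0
  have hnpos : (0 : ℝ) < n := by linarith
  rw [VN2_rhs δ n l hn0]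
  set y : ℝ := δ * l * Real.log n with hy
  have hyl : y = (l : ℝ) * (δ * Real.log n) := by rw [hy]; ring
  have hy1 : 1000 * l ≤ y := by
    rw [hyl]
    nlinarith
  have hq : (pq δ n l : ℝ) ≤ y / 36 := Nat.floor_le (by positivity)
  have hT : (pT δ n l : ℝ) ≤ y / 72 := Nat.floor_le (by positivity)
  have hlg1 := Real.log_two_gt_d9
  have hlg2 := Real.log_two_lt_d9
  have hF : (pF δ n : ℝ) ≤ 2 * (n : ℝ) ^ (1 - δ) := by
    have h1 : (pF δ n : ℝ) < (n : ℝ) ^ (1 - δ) + 1 := Nat.ceil_lt_add_one (by positivity)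
    have h2 : (1 : ℝ) ≤ (n : ℝ) ^ (1 - δ) := Real.one_le_rpow hnr (by linarith)
    linarith
  have hbase : 36 * (pF δ n : ℝ) / n ≤ Real.exp (12 * Real.log 2 - δ * Real.log n) := by
    rw [div_le_iff₀ hnpos, Real.exp_sub]
    have h12 : Real.exp (12 * Real.log 2) = 4096 := by
      rw [show (12 : ℝ) * Real.log 2 = ((12 : ℕ) : ℝ) * Real.log 2 by norm_num, ← VN2_two_pow]
      norm_num
    rw [h12]
    have h3 : (n : ℝ) ^ (1 - δ) = n / Real.exp (δ * Real.log n) := by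
      rw [Real.rpow_sub hnpos, Real.rpow_one, Real.rpow_def_of_pos hnpos, mul_comm (Real.log n)]
    rw [h3] at hF
    have h4 : 0 ≤ (n : ℝ) / Real.exp (δ * Real.log n) := by positivity
    calc 36 * (pF δ n : ℝ) ≤ 4096 * (n / Real.exp (δ * Real.log n)) := by linarith
      _ = 4096 / Real.exp (δ * Real.log n) * n := by ring
  have hbase0 : 0 ≤ 36 * (pF δ n : ℝ) / n := by positivity
  have hpow : (36 * (pF δ n : ℝ) / n) ^ ((l : ℝ) / 12) ≤ Real.exp (l * Real.log 2 - y / 12) := by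
    refine (Real.rpow_le_rpow hbase0 hbase (by positivity)).trans (le_of_eq ?_)
    rw [← Real.exp_mul]
    congr 1
    rw [hyl]
    ring
  have he : (9 : ℝ) ≤ Real.exp 3 := by
    have h1 := Real.exp_one_gt_d9
    have h2 : Real.exp 3 = Real.exp 1 ^ 3 := by
      rw [← Real.exp_nat_mul]
      norm_num
    rw [h2]
    have h3 : (2.7 : ℝ) ^ 3 ≤ Real.exp 1 ^ 3 := pow_le_pow_left₀ (by norm_num) (by linarith) 3
    norm_num at h3 ⊢
    linarith
  calc (2 : ℝ) ^ pq δ n l * 4 ^ pT δ n l * (3 * (36 * (pF δ n : ℝ) / n) ^ ((l : ℝ) / 12))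
      ≤ Real.exp (pq δ n l * Real.log 2) * Real.exp (pT δ n l * (2 * Real.log 2)) *
          (3 * Real.exp (l * Real.log 2 - y / 12)) := by
        rw [VN2_two_pow, VN2_four_pow]
        refine mul_le_mul_of_nonneg_left ?_ (by positivity)
        linarith
    _ = 3 * Real.exp (pq δ n l * Real.log 2 + pT δ n l * (2 * Real.log 2) +
          (l * Real.log 2 - y / 12)) := by
        rw [Real.exp_add, Real.exp_add]; ring
    _ ≤ 3 * Real.exp (-y / 25 - 3) := by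
        refine mul_le_mul_of_nonneg_left (Real.exp_le_exp.2 ?_) (by norm_num)
        have h1 : (pq δ n l : ℝ) * Real.log 2 ≤ y / 36 * Real.log 2 :=
          mul_le_mul_of_nonneg_right hq (by linarith)
        have h2 : (pT δ n l : ℝ) * (2 * Real.log 2) ≤ y / 72 * (2 * Real.log 2) :=
          mul_le_mul_of_nonneg_right hT (by linarith)
        have h3 : (l : ℝ) * Real.log 2 ≤ l * 0.6931471808 :=
          mul_le_mul_of_nonneg_left hlg2.le (by linarith)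
        have h4 : y * Real.log 2 ≤ y * 0.6931471808 :=
          mul_le_mul_of_nonneg_left hlg2.le (by linarith)
        nlinarith
    _ ≤ 1 / 3 * Real.exp (-y / 25) := by
        rw [Real.exp_sub]
        have h5 := Real.exp_pos (-y / 25)
        have h6 : Real.exp (-y / 25) / Real.exp 3 ≤ Real.exp (-y / 25) / 9 :=
          div_le_div_of_nonneg_left h5.le (by norm_num) he
        linarith

end Pool.Agent.BC5
end

section
set_option autoImplicit false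
set_option linter.unusedSectionVars false
set_option linter.unusedVariables false
open scoped BigOperators Matrix
open Matrix
namespace Pool.Agent.BC5


theorem VN3_logsq (a : ℝ) (ha : 0 < a) :
    ∃ n1 : ℕ, ∀ n : ℕ, n1 ≤ n → Real.log n ^ 2 ≤ (n : ℝ) ^ a := by
  have h3 : ∀ᶠ x : ℝ in Filter.atTop, ‖Real.log x‖ ≤ 1 * ‖x ^ (a / 2)‖ :=
    (isLittleO_log_rpow_atTop (half_pos ha)).bound one_pos
  obtain ⟨n1, hn1⟩ := Filter.eventually_atTop.mp
    ((tendsto_natCast_atTop_atTop (R := ℝ)).eventually h3)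
  refine ⟨n1, fun n hn => ?_⟩
  have a3 := hn1 n hn
  have hn0 : (0 : ℝ) ≤ n := Nat.cast_nonneg n
  rw [one_mul, Real.norm_of_nonneg (Real.rpow_nonneg hn0 _)] at a3
  have b2 : Real.log n ^ 2 ≤ ((n : ℝ) ^ (a / 2)) ^ 2 := by
    rw [← sq_abs (Real.log n), ← Real.norm_eq_abs]
    exact pow_le_pow_left₀ (norm_nonneg _) a3 2
  have b3 : ((n : ℝ) ^ (a / 2)) ^ 2 = (n : ℝ) ^ a := by
    rw [← Real.rpow_natCast, ← Real.rpow_mul hn0]
    congr 1
    push_cast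
    ring
  rwa [b3] at b2

theorem VN3_big (a C : ℝ) (ha : 0 < a) :
    ∃ n1 : ℕ, ∀ n : ℕ, n1 ≤ n → C ≤ (n : ℝ) ^ a := by
  have h1 : ∀ᶠ x : ℝ in Filter.atTop, C ≤ x ^ a :=
    (tendsto_rpow_atTop ha).eventually_ge_atTop C
  obtain ⟨n1, hn1⟩ := Filter.eventually_atTop.mp
    ((tendsto_natCast_atTop_atTop (R := ℝ)).eventually h1)
  exact ⟨n1, fun n hn => hn1 n hn⟩

theorem num_mid (c1 δ : ℝ) (hc1 : 0 < c1) (hδ : 0 < δ) (hδ1 : δ ≤ 1 / 100) (hcd : 3 * c1 + 2 * δ ≤ 1) :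
    ∃ n1 : ℕ, ∀ n : ℕ, n1 ≤ n → ∀ l : ℕ, 1 ≤ l → (l : ℝ) ≤ (n : ℝ) ^ c1 →
      (2 : ℝ) ^ pq δ n l * 4 ^ pT δ n l * ((2 * (2 * (pT δ n l : ℝ)) ^ 2 / pF δ n) ^ l *
        Real.exp (2 * ((l : ℝ) * (2 * pT δ n l)) ^ 2 / n)) ≤ 1 / 3 * (n : ℝ) ^ (-(δ * l / 25)) := by
  obtain ⟨n1, h1⟩ := VN3_logsq (2 * δ) (by linarith)
  obtain ⟨n2, h2⟩ := VN3_logsq (1 / 10) (by norm_num)
  obtain ⟨n3, h3⟩ := VN3_big (1 / 5) 9 (by norm_num)
  refine ⟨max (max n1 n2) (max n3 5), fun n hn l hl hlc => ?_⟩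
  have hn1 : n1 ≤ n := (le_max_left _ _).trans ((le_max_left _ _).trans hn)
  have hn2 : n2 ≤ n := (le_max_right _ _).trans ((le_max_left _ _).trans hn)
  have hn3 : n3 ≤ n := (le_max_left _ _).trans ((le_max_right _ _).trans hn)
  have hn5 : 5 ≤ n := (le_max_right _ _).trans ((le_max_right _ _).trans hn)
  have hL2 := h1 n hn1
  have hL3 := h2 n hn2
  have h9 := h3 n hn3
  have hn5' : (5 : ℝ) ≤ n := by exact_mod_cast hn5
  have hx : (0 : ℝ) < n := by linarith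
  have hx1 : (1 : ℝ) ≤ n := by linarith
  have hl1 : (1 : ℝ) ≤ l := by exact_mod_cast hl
  have hl0 : (0 : ℝ) ≤ l := by linarith
  have hL0 : 0 ≤ Real.log n := Real.log_nonneg hx1
  set L := Real.log (n : ℝ) with hLdef
  have hpos : (0 : ℝ) < (n : ℝ) ^ (1 - δ) := Real.rpow_pos_of_pos hx _
  have hFge : (n : ℝ) ^ (1 - δ) ≤ pF δ n := Nat.le_ceil _
  have hT0 : 0 ≤ δ * l * L / 72 := by positivity
  have hT : (pT δ n l : ℝ) ≤ δ * l * L / 72 := Nat.floor_le hT0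
  have hq0 : 0 ≤ δ * l * L / 36 := by positivity
  have hq : (pq δ n l : ℝ) ≤ δ * l * L / 36 := Nat.floor_le hq0
  have hlL : 0 ≤ (l : ℝ) * L := by positivity
  have hT' : (pT δ n l : ℝ) ≤ l * L / 7200 := by
    refine hT.trans ?_
    have : δ * (l * L) ≤ 1 / 100 * (l * L) := mul_le_mul_of_nonneg_right hδ1 hlL
    nlinarith
  have hTnn : (0 : ℝ) ≤ pT δ n l := Nat.cast_nonneg _
  -- step A
  have hA : (2 : ℝ) ^ pq δ n l * 4 ^ pT δ n l ≤ (n : ℝ) ^ (δ * l / 25) := by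
    have e1 : (2 : ℝ) ^ pq δ n l * 4 ^ pT δ n l =
        Real.exp (((pq δ n l : ℝ) + 2 * pT δ n l) * Real.log 2) := by
      have e2 : (4 : ℝ) = 2 ^ 2 := by norm_num
      rw [e2, ← pow_mul, ← pow_add, ← Real.rpow_natCast,
        Real.rpow_def_of_pos (by norm_num : (0 : ℝ) < 2)]
      congr 1
      push_cast
      ring
    rw [e1, Real.rpow_def_of_pos hx]
    apply Real.exp_le_exp.mpr
    have hlog2 : Real.log 2 ≤ 18 / 25 := by
      have := Real.log_two_lt_d9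
      linarith
    have hlog0 : 0 ≤ Real.log 2 := Real.log_nonneg (by norm_num)
    calc ((pq δ n l : ℝ) + 2 * pT δ n l) * Real.log 2
        ≤ (δ * l * L / 36 + 2 * (δ * l * L / 72)) * Real.log 2 := by gcongr
      _ = (δ * l * L / 18) * Real.log 2 := by ring
      _ ≤ (δ * l * L / 18) * (18 / 25) := by
        apply mul_le_mul_of_nonneg_left hlog2
        positivity
      _ = L * (δ * l / 25) := by ring
  -- step B
  have hB : 2 * (2 * (pT δ n l : ℝ)) ^ 2 / pF δ n ≤ L ^ 2 * (n : ℝ) ^ (-(1 / 3 : ℝ)) := by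
    have b1 : 2 * (2 * (pT δ n l : ℝ)) ^ 2 ≤ (l : ℝ) ^ 2 * L ^ 2 := by
      have b2 : (pT δ n l : ℝ) ^ 2 ≤ (l * L / 7200) ^ 2 := pow_le_pow_left₀ hTnn hT' 2
      have b3 : 0 ≤ (l : ℝ) ^ 2 * L ^ 2 := by positivity
      nlinarith
    have b4 : (l : ℝ) ^ 2 ≤ (n : ℝ) ^ (2 * c1) := by
      calc (l : ℝ) ^ 2 ≤ ((n : ℝ) ^ c1) ^ 2 := pow_le_pow_left₀ hl0 hlc 2
        _ = (n : ℝ) ^ (2 * c1) := by
          rw [← Real.rpow_natCast, ← Real.rpow_mul hx.le]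
          congr 1
          push_cast
          ring
    calc 2 * (2 * (pT δ n l : ℝ)) ^ 2 / pF δ n
        ≤ ((l : ℝ) ^ 2 * L ^ 2) / (n : ℝ) ^ (1 - δ) := by
          apply div_le_div₀ (by positivity) b1 hpos hFge
      _ ≤ ((n : ℝ) ^ (2 * c1) * L ^ 2) / (n : ℝ) ^ (1 - δ) := by gcongr
      _ = L ^ 2 * (n : ℝ) ^ (2 * c1 - (1 - δ)) := by
          rw [Real.rpow_sub hx (2 * c1) (1 - δ)]
          ring
      _ ≤ L ^ 2 * (n : ℝ) ^ (-(1 / 3 : ℝ)) := by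
          apply mul_le_mul_of_nonneg_left _ (by positivity)
          apply Real.rpow_le_rpow_of_exponent_le hx1
          linarith
  -- step C
  have hC : 2 * ((l : ℝ) * (2 * pT δ n l)) ^ 2 / n ≤ l := by
    have c2 : (pT δ n l : ℝ) ^ 2 ≤ (l * L / 7200) ^ 2 := pow_le_pow_left₀ hTnn hT' 2
    have c3 : (l : ℝ) ^ 3 ≤ (n : ℝ) ^ (1 - 2 * δ) := by
      calc (l : ℝ) ^ 3 ≤ ((n : ℝ) ^ c1) ^ 3 := pow_le_pow_left₀ hl0 hlc 3
        _ = (n : ℝ) ^ (3 * c1) := by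
          rw [← Real.rpow_natCast, ← Real.rpow_mul hx.le]
          congr 1
          push_cast
          ring
        _ ≤ (n : ℝ) ^ (1 - 2 * δ) := by
          apply Real.rpow_le_rpow_of_exponent_le hx1
          linarith
    have c4 : (l : ℝ) ^ 3 * L ^ 2 ≤ n := by
      calc (l : ℝ) ^ 3 * L ^ 2 ≤ (n : ℝ) ^ (1 - 2 * δ) * (n : ℝ) ^ (2 * δ) :=
            mul_le_mul c3 hL2 (by positivity) (by positivity)
        _ = (n : ℝ) ^ (1 - 2 * δ + 2 * δ) := (Real.rpow_add hx _ _).symm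
        _ = n := by
          have : 1 - 2 * δ + 2 * δ = (1 : ℝ) := by ring
          rw [this, Real.rpow_one]
    rw [div_le_iff₀ hx]
    calc 2 * ((l : ℝ) * (2 * pT δ n l)) ^ 2 = 8 * (l : ℝ) ^ 2 * (pT δ n l : ℝ) ^ 2 := by ring
      _ ≤ 8 * (l : ℝ) ^ 2 * (l * L / 7200) ^ 2 := by gcongr
      _ = (8 / 7200 ^ 2) * ((l : ℝ) * (l ^ 3 * L ^ 2)) := by ring
      _ ≤ 1 * ((l : ℝ) * (l ^ 3 * L ^ 2)) := by
        apply mul_le_mul_of_nonneg_right (by norm_num)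
        positivity
      _ ≤ (l : ℝ) * n := by
        rw [one_mul]
        exact mul_le_mul_of_nonneg_left c4 hl0
  -- the base
  have hbase : (n : ℝ) ^ (2 * δ / 25) * (L ^ 2 * (n : ℝ) ^ (-(1 / 3 : ℝ))) * Real.exp 1 ≤
      1 / 3 := by
    have d1 : (n : ℝ) ^ (2 * δ / 25) ≤ (n : ℝ) ^ (1 / 1250 : ℝ) := by
      apply Real.rpow_le_rpow_of_exponent_le hx1
      linarith
    have d2 : (n : ℝ) ^ (2 * δ / 25) * (L ^ 2 * (n : ℝ) ^ (-(1 / 3 : ℝ))) ≤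
        (n : ℝ) ^ (-(1 / 5 : ℝ)) := by
      calc (n : ℝ) ^ (2 * δ / 25) * (L ^ 2 * (n : ℝ) ^ (-(1 / 3 : ℝ)))
          ≤ (n : ℝ) ^ (1 / 1250 : ℝ) * ((n : ℝ) ^ (1 / 10 : ℝ) * (n : ℝ) ^ (-(1 / 3 : ℝ))) := by
            gcongr
        _ = (n : ℝ) ^ (1 / 1250 + (1 / 10 + -(1 / 3)) : ℝ) := by
            rw [Real.rpow_add hx, Real.rpow_add hx]
        _ ≤ (n : ℝ) ^ (-(1 / 5 : ℝ)) := by
            apply Real.rpow_le_rpow_of_exponent_le hx1
            norm_num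
    have d3 : (n : ℝ) ^ (-(1 / 5 : ℝ)) ≤ 1 / 9 := by
      rw [Real.rpow_neg hx.le, ← one_div]
      exact one_div_le_one_div_of_le (by norm_num) h9
    have d4 : Real.exp 1 ≤ 3 := by
      have := Real.exp_one_lt_d9
      linarith
    calc (n : ℝ) ^ (2 * δ / 25) * (L ^ 2 * (n : ℝ) ^ (-(1 / 3 : ℝ))) * Real.exp 1
        ≤ 1 / 9 * 3 := by
          apply mul_le_mul (d2.trans d3) d4 (Real.exp_pos _).le (by norm_num)
      _ = 1 / 3 := by norm_num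
  have hb0 : 0 ≤ (n : ℝ) ^ (2 * δ / 25) * (L ^ 2 * (n : ℝ) ^ (-(1 / 3 : ℝ))) * Real.exp 1 := by
    positivity
  have hpow : ((n : ℝ) ^ (2 * δ / 25) * (L ^ 2 * (n : ℝ) ^ (-(1 / 3 : ℝ))) * Real.exp 1) ^ l ≤
      1 / 3 := by
    calc _ ≤ ((n : ℝ) ^ (2 * δ / 25) * (L ^ 2 * (n : ℝ) ^ (-(1 / 3 : ℝ))) * Real.exp 1) ^ 1 :=
          pow_le_pow_of_le_one hb0 (hbase.trans (by norm_num)) hl
      _ ≤ 1 / 3 := by rw [pow_one]; exact hbase
  have hB0 : 0 ≤ 2 * (2 * (pT δ n l : ℝ)) ^ 2 / pF δ n := by positivity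
  have hexp : Real.exp (l : ℝ) = Real.exp 1 ^ l := by
    rw [← Real.exp_nat_mul, mul_one]
  have hsplit : (n : ℝ) ^ (δ * l / 25) =
      (n : ℝ) ^ (-(δ * l / 25)) * ((n : ℝ) ^ (2 * δ / 25)) ^ l := by
    rw [← Real.rpow_natCast ((n : ℝ) ^ (2 * δ / 25)), ← Real.rpow_mul hx.le, ← Real.rpow_add hx]
    congr 1
    ring
  calc (2 : ℝ) ^ pq δ n l * 4 ^ pT δ n l * ((2 * (2 * (pT δ n l : ℝ)) ^ 2 / pF δ n) ^ l *
        Real.exp (2 * ((l : ℝ) * (2 * pT δ n l)) ^ 2 / n))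
      ≤ (n : ℝ) ^ (δ * l / 25) * ((L ^ 2 * (n : ℝ) ^ (-(1 / 3 : ℝ))) ^ l * Real.exp l) := by
        apply mul_le_mul hA _ (by positivity) (by positivity)
        apply mul_le_mul (pow_le_pow_left₀ hB0 hB l) (Real.exp_le_exp.mpr hC)
          (Real.exp_pos _).le (by positivity)
    _ = (n : ℝ) ^ (-(δ * l / 25)) *
        ((n : ℝ) ^ (2 * δ / 25) * (L ^ 2 * (n : ℝ) ^ (-(1 / 3 : ℝ))) * Real.exp 1) ^ l := by
        rw [hsplit, hexp]
        ring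
    _ ≤ (n : ℝ) ^ (-(δ * l / 25)) * (1 / 3) := by
        apply mul_le_mul_of_nonneg_left hpow (by positivity)
    _ = 1 / 3 * (n : ℝ) ^ (-(δ * l / 25)) := by ring

end Pool.Agent.BC5
end

section
set_option autoImplicit false
set_option linter.unusedSectionVars false
set_option linter.unusedVariables false
open scoped BigOperators Matrix
open Matrix
namespace Pool.Agent.BC5


theorem num_norm (c1 δ : ℝ) (hc1 : 0 < c1) (hδ : 0 < δ) (hδ1 : δ ≤ 1 / 100) (hcd : 3 * c1 + 2 * δ ≤ 1) :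
    ∃ n1 : ℕ, ∀ n : ℕ, n1 ≤ n → ∀ l : ℕ, 1 ≤ l → (l : ℝ) ≤ (n : ℝ) ^ c1 →
      (∀ I : ℕ, 110 / δ ≤ (2 : ℝ) ^ I → (n : ℝ) ^ (2 * l) < 2 ^ (2 ^ I * (2 * 1 * pq δ n l))) ∧
      (1 / 2 : ℝ) ^ (4 * 1 * pq δ n l) ≤ (n : ℝ) ^ (-(δ * l / 25)) := by
  obtain ⟨n1, hn1⟩ := Filter.eventually_atTop.mp
    ((Real.tendsto_log_atTop.comp tendsto_natCast_atTop_atTop).eventually_ge_atTop (1332 / δ))
  refine ⟨max n1 2, ?_⟩
  intro n hn l hl _
  have hn1' : n1 ≤ n := le_trans (le_max_left _ _) hn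
  have hn2 : 2 ≤ n := le_trans (le_max_right _ _) hn
  have hL : 1332 / δ ≤ Real.log n := by
    have h := hn1 n hn1'
    simpa using h
  have hn0 : (0 : ℝ) < n := by
    have : (2 : ℝ) ≤ n := by exact_mod_cast hn2
    linarith
  have hL0 : 0 < Real.log n := lt_of_lt_of_le (by positivity) hL
  have hl1 : (1 : ℝ) ≤ l := by exact_mod_cast hl
  have hdL : 1332 ≤ δ * Real.log n := by
    rw [div_le_iff₀ hδ] at hL
    linarith
  have hy : 1332 ≤ δ * l * Real.log n := by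
    have h1 : δ * Real.log n ≤ l * (δ * Real.log n) := by
      have h0 : 0 ≤ δ * Real.log n := by positivity
      nlinarith
    calc (1332 : ℝ) ≤ δ * Real.log n := hdL
      _ ≤ l * (δ * Real.log n) := h1
      _ = δ * l * Real.log n := by ring
  have hq : δ * l * Real.log n / 37 ≤ (pq δ n l : ℝ) := by
    have h1 : δ * l * Real.log n / 36 < (pq δ n l : ℝ) + 1 := by
      unfold pq
      exact Nat.lt_floor_add_one _
    linarith
  have hlog2 : (0.6931 : ℝ) < Real.log 2 := by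
    have := Real.log_two_gt_d9
    linarith
  have hlL : 0 < (l : ℝ) * Real.log n := by positivity
  constructor
  · intro I hI
    have h2I : 0 < (2 : ℝ) ^ I := by positivity
    have key : (2 * (l : ℝ)) * Real.log n < ((2 : ℝ) ^ I * (2 * (pq δ n l : ℝ))) * Real.log 2 := by
      have a1 : (110 / δ) * (2 * (δ * l * Real.log n / 37)) ≤ (2 : ℝ) ^ I * (2 * (pq δ n l : ℝ)) := by
        apply mul_le_mul hI _ _ h2I.le
        · linarith
        · positivity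
      have a2 : (110 / δ) * (2 * (δ * l * Real.log n / 37)) = 220 / 37 * (l * Real.log n) := by
        field_simp
        ring
      have a3 : 220 / 37 * (l * Real.log n) * 0.6931 ≤
          ((2 : ℝ) ^ I * (2 * (pq δ n l : ℝ))) * Real.log 2 := by
        apply mul_le_mul _ hlog2.le (by norm_num) (by positivity)
        rw [← a2]
        exact a1
      nlinarith
    have e1 : (n : ℝ) ^ (2 * l) = Real.exp ((2 * (l : ℝ)) * Real.log n) := by
      rw [← Real.rpow_natCast, Real.rpow_def_of_pos hn0]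
      congr 1
      push_cast
      ring
    have e2 : (2 : ℝ) ^ (2 ^ I * (2 * 1 * pq δ n l)) =
        Real.exp (((2 : ℝ) ^ I * (2 * (pq δ n l : ℝ))) * Real.log 2) := by
      rw [← Real.rpow_natCast, Real.rpow_def_of_pos (by norm_num : (0 : ℝ) < 2)]
      congr 1
      push_cast
      ring
    rw [e1, e2]
    exact Real.exp_lt_exp.mpr key
  · have e1 : (1 / 2 : ℝ) ^ (4 * 1 * pq δ n l) = Real.exp (-(4 * (pq δ n l : ℝ) * Real.log 2)) := by
      rw [← Real.rpow_natCast, Real.rpow_def_of_pos (by norm_num : (0 : ℝ) < 1 / 2)]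
      congr 1
      rw [Real.log_div (by norm_num) (by norm_num), Real.log_one]
      push_cast
      ring
    have e2 : (n : ℝ) ^ (-(δ * l / 25)) = Real.exp (-(δ * l * Real.log n / 25)) := by
      rw [Real.rpow_def_of_pos hn0]
      congr 1
      ring
    rw [e1, e2]
    apply Real.exp_le_exp.mpr
    have a3 : (δ * l * Real.log n / 37) * 0.6931 ≤ (pq δ n l : ℝ) * Real.log 2 := by
      apply mul_le_mul hq hlog2.le (by norm_num) (by positivity)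
    nlinarith

end Pool.Agent.BC5
end

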