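import Pool.Agent.Lib.MP_bc5a73_al.WordStart
import Pool.Agent.Lib.MP_bc5a73_al.CharExact
import Pool.Agent.Lib.MP_bc5a73_al.WordNum
import Pool.Agent.Lib.MP_bc5a73_al.BlockCount

section
set_option autoImplicit false
set_option linter.unusedSectionVars false
set_option linter.unusedVariables false
open scoped BigOperators Matrix
open Matrix
namespace Pool.Agent.BC5


theorem norm_exact (c1 δ : ℝ) (hc1 : 0 < c1) (hδ : 0 < δ) (hδ1 : δ ≤ 1 / 100) (hcd : 3 * c1 + 2 * δ ≤ 1) :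
    ∃ N : ℕ, 1 ≤ N ∧ ∃ C : ℝ, 0 ≤ C ∧ ∃ n1 : ℕ, ∀ n : ℕ, n1 ≤ n → ∀ l : ℕ, 1 ≤ l → (l : ℝ) ≤ (n : ℝ) ^ c1 →
      ∀ E : Matrix (Alt n) (Alt n) ℝ, IsBlock E → LevLe l E → ¬ LevLe (l - 1) E →
        frac (fun x : Fin N × Fin 2560 → Alt n => ¬ NormP x E (3 / 4) N) ≤ C * (n : ℝ) ^ (-(δ * l / 25)) := by
  obtain ⟨n2, hside⟩ := num_side c1 δ hc1 hδ hδ1 hcd
  obtain ⟨n3, htriv⟩ := num_triv c1 δ hc1 hδ hδ1 hcd
  obtain ⟨n4, hchar⟩ := num_char c1 δ hc1 hδ hδ1 hcd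
  obtain ⟨n5, hmid⟩ := num_mid c1 δ hc1 hδ hδ1 hcd
  obtain ⟨n6, hnorm⟩ := num_norm c1 δ hc1 hδ hδ1 hcd
  obtain ⟨I, hI⟩ := pow_unbounded_of_one_lt (110 / δ) (by norm_num : (1 : ℝ) < 2)
  obtain ⟨N, hN⟩ : ∃ N : ℕ, N = 81 * (I + 1) := ⟨_, rfl⟩
  refine ⟨N, by omega, 2 ^ N + ((I : ℝ) + 1) * 4 ^ (N + 1), by positivity,
    n2 + n3 + n4 + n5 + n6 + 3, ?_⟩
  intro n hn l hl hln E hE hlev hnlev
  obtain ⟨hF1, hlF, hF36, hF, hTn, hq⟩ := hside n (by omega) l hl hln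
  have ht := htriv n (by omega) l hl hln
  have hc := hchar n (by omega) l hl hln
  have hm := hmid n (by omega) l hl hln
  obtain ⟨hno1, hno2⟩ := hnorm n (by omega) l hl hln
  have hn0 : (0 : ℝ) < n := by
    have : 0 < n := by omega
    exact_mod_cast this
  have hI0 : (0 : ℝ) ≤ I := Nat.cast_nonneg I
  have hI1 : (0 : ℝ) < (I : ℝ) + 1 := by linarith
  have hβ : (0 : ℝ) ≤ 3 * (36 * (pF δ n : ℝ) / n) ^ ((l : ℝ) / 12) := by positivity
  have hS := start_low (N := N) hE (pT δ n l) (pF δ n) l (pq δ n l)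
    (3 * (36 * (pF δ n : ℝ) / n) ^ ((l : ℝ) / 12)) hβ hF1 hF hTn
    (fun g hg => char_exact hE l (pF δ n) hl hnlev hlev hlF hF36 g hg)
  have hS2 : frac (fun x : Fin N × Fin 2560 → Alt n =>
      ¬ StartP x E (1 / 2) 1 ((1 / 2 : ℝ) ^ pq δ n l)) ≤ 2 ^ N * (n : ℝ) ^ (-(δ * l / 25)) := by
    refine hS.trans (mul_le_mul_of_nonneg_left ?_ (by positivity))
    have e : (2 : ℝ) ^ pq δ n l * 4 ^ pT δ n l * ((1 / 1280 : ℝ) ^ pT δ n l +
        (2 * (2 * (pT δ n l : ℝ)) ^ 2 / pF δ n) ^ l *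
          Real.exp (2 * ((l : ℝ) * (2 * pT δ n l)) ^ 2 / n) +
        3 * (36 * (pF δ n : ℝ) / n) ^ ((l : ℝ) / 12)) =
        (2 : ℝ) ^ pq δ n l * 4 ^ pT δ n l * (1 / 1280 : ℝ) ^ pT δ n l +
        (2 : ℝ) ^ pq δ n l * 4 ^ pT δ n l * ((2 * (2 * (pT δ n l : ℝ)) ^ 2 / pF δ n) ^ l *
          Real.exp (2 * ((l : ℝ) * (2 * pT δ n l)) ^ 2 / n)) +
        (2 : ℝ) ^ pq δ n l * 4 ^ pT δ n l * (3 * (36 * (pF δ n : ℝ) / n) ^ ((l : ℝ) / 12)) := by
      ring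
    rw [e]
    linarith
  have hDr : E.trace < 2 ^ (2 ^ I * (2 * 1 * pq δ n l)) :=
    lt_of_le_of_lt (levLe_trace_le (by omega) l hl hE hlev) (hno1 I hI.le)
  have hδ' : (0 : ℝ) < 1 / (8 * ((I : ℝ) + 1)) := by positivity
  have h0 : 10 * ((1 : ℕ) : ℝ) ≤ (80 * ((I : ℝ) + 1) + ((1 : ℕ) : ℝ)) * (1 / 8) := by
    push_cast
    linarith
  have h1 : (10 : ℝ) ≤ 80 * ((I : ℝ) + 1) * (1 / (8 * ((I : ℝ) + 1))) := by
    have e : 80 * ((I : ℝ) + 1) * (1 / (8 * ((I : ℝ) + 1))) = 10 := by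
      field_simp
      norm_num
    rw [e]
  have hB := block_norm (N := N) hE 1 (pq δ n l) I le_rfl hq (1 / 2) (1 / 8)
    (1 / (8 * ((I : ℝ) + 1))) (80 * ((I : ℝ) + 1)) (by norm_num) (by norm_num) (by norm_num) hδ'
    (by positivity) h0 h1 hDr
  have hB2 : ((I : ℝ) + 1) * (4 ^ (N + 1) * (1 / 2 : ℝ) ^ (4 * 1 * pq δ n l)) ≤
      ((I : ℝ) + 1) * 4 ^ (N + 1) * (n : ℝ) ^ (-(δ * l / 25)) := by
    have e5 : ((I : ℝ) + 1) * 4 ^ (N + 1) * (n : ℝ) ^ (-(δ * l / 25)) =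
        ((I : ℝ) + 1) * (4 ^ (N + 1) * (n : ℝ) ^ (-(δ * l / 25))) := by ring
    rw [e5]
    have h4 : (0 : ℝ) ≤ 4 ^ (N + 1) := by positivity
    exact mul_le_mul_of_nonneg_left (mul_le_mul_of_nonneg_left hno2 h4) hI1.le
  have hsub : frac (fun x : Fin N × Fin 2560 → Alt n => ¬ NormP x E (3 / 4) N) ≤
      frac (fun x : Fin N × Fin 2560 → Alt n =>
        (¬ StartP x E (1 / 2) 1 ((1 / 2 : ℝ) ^ pq δ n l)) ∨
        (StartP x E (1 / 2) (80 * ((I : ℝ) + 1)) ((1 / 2 : ℝ) ^ pq δ n l) ∧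
          ¬ NormP x E (1 / 2 + 1 / 8 + I * (1 / (8 * ((I : ℝ) + 1))))
            (80 * ((I : ℝ) + 1) + ((1 : ℕ) : ℝ) + I))) := by
    refine frac_mono fun x hx => ?_
    by_cases hSx : StartP x E (1 / 2) 1 ((1 / 2 : ℝ) ^ pq δ n l)
    · right
      refine ⟨fun R hR => hSx R (le_trans (by linarith) hR), fun hNn => hx (hNn.mono ?_ ?_)⟩
      · have : (I : ℝ) * (1 / (8 * ((I : ℝ) + 1))) ≤ 1 / 8 := by
          rw [mul_one_div, div_le_div_iff₀ (by positivity) (by norm_num)]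
          linarith
        linarith
      · rw [hN]
        push_cast
        linarith
    · exact Or.inl hSx
  have hor := frac_or_le (fun x : Fin N × Fin 2560 → Alt n =>
      ¬ StartP x E (1 / 2) 1 ((1 / 2 : ℝ) ^ pq δ n l))
    (fun x : Fin N × Fin 2560 → Alt n =>
      StartP x E (1 / 2) (80 * ((I : ℝ) + 1)) ((1 / 2 : ℝ) ^ pq δ n l) ∧
          ¬ NormP x E (1 / 2 + 1 / 8 + I * (1 / (8 * ((I : ℝ) + 1))))
            (80 * ((I : ℝ) + 1) + ((1 : ℕ) : ℝ) + I))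
  have e : (2 ^ N + ((I : ℝ) + 1) * 4 ^ (N + 1)) * (n : ℝ) ^ (-(δ * l / 25)) =
      2 ^ N * (n : ℝ) ^ (-(δ * l / 25)) +
        ((I : ℝ) + 1) * 4 ^ (N + 1) * (n : ℝ) ^ (-(δ * l / 25)) := by ring
  rw [e]
  linarith

end Pool.Agent.BC5
end

section
set_option autoImplicit false
set_option linter.unusedSectionVars false
set_option linter.unusedVariables false
open scoped BigOperators Matrix
open Matrix
namespace Pool.Agent.BC5


theorem partition_le_two_pow (l : ℕ) : Fintype.card (Nat.Partition l) ≤ 2 ^ l := by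
  have h1 : Fintype.card (Nat.Partition l) ≤ Fintype.card (Composition l) :=
    Fintype.card_le_of_surjective _ (Nat.Partition.ofComposition_surj (n := l))
  rw [composition_card] at h1
  exact h1.trans (Nat.pow_le_pow_right (by norm_num) (Nat.sub_le l 1))

/-- Geometric sum from one. -/
theorem VB2_geom (r : ℝ) (hr : 0 ≤ r) (hr1 : r ≤ 1 / 2) (K : ℕ) :
    ∑ l ∈ Finset.Icc 1 K, r ^ l ≤ 2 * r := by
  have h1 : ∑ l ∈ Finset.Icc 1 K, r ^ l = r * ∑ j ∈ Finset.range K, r ^ j := by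
    have h2 : Finset.Icc 1 K = Finset.Ico 1 (K + 1) := by
      ext x
      simp only [Finset.mem_Icc, Finset.mem_Ico]
      omega
    rw [h2, Finset.sum_Ico_eq_sum_range, Finset.mul_sum]
    refine Finset.sum_congr (by simp) (fun j _ => ?_)
    rw [pow_add, pow_one]
  rw [h1]
  have h3 : ∑ j ∈ Finset.range K, r ^ j ≤ 2 := by
    refine le_trans (Finset.sum_le_sum (fun j _ => pow_le_pow_left₀ hr hr1 j)) ?_
    exact sum_geometric_two_le K
  nlinarith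

/-- Powers of `n` are eventually large. -/
theorem VB2_large (a A : ℝ) (ha : 0 < a) : ∃ n0 : ℕ, ∀ n : ℕ, n0 ≤ n → A ≤ (n : ℝ) ^ a := by
  have h1 : Filter.Tendsto (fun n : ℕ => (n : ℝ) ^ a) Filter.atTop Filter.atTop :=
    (tendsto_rpow_atTop ha).comp tendsto_natCast_atTop_atTop
  exact Filter.eventually_atTop.1 (h1.eventually_ge_atTop A)

theorem norm_low (c1 δ : ℝ) (hc1 : 0 < c1) (hδ : 0 < δ) (hδ1 : δ ≤ 1 / 100) (hcd : 3 * c1 + 2 * δ ≤ 1) :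
    ∃ N : ℕ, 1 ≤ N ∧ ∃ n1 : ℕ, ∀ n : ℕ, n1 ≤ n →
      frac (fun x : Fin N × Fin 2560 → Alt n => ¬ ∀ E : Matrix (Alt n) (Alt n) ℝ, IsBlock E → E ≠ Jm (Alt n) →
        LevLe ⌊(n : ℝ) ^ c1⌋₊ E → NormP x E (3 / 4) N) ≤ (n : ℝ) ^ (-(δ / 30)) := by
  classical
  obtain ⟨N, hN, C, hC, n1, hmain⟩ := norm_exact c1 δ hc1 hδ hδ1 hcd
  obtain ⟨n2, hn2⟩ := VB2_large (δ / 25) 4 (by positivity)
  obtain ⟨n3, hn3⟩ := VB2_large (δ / 150) (4 * C) (by positivity)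
  refine ⟨N, hN, max n1 (max n2 (max n3 8)), fun n hn => ?_⟩
  have hn1 : n1 ≤ n := le_trans (le_max_left _ _) hn
  have hn2' : n2 ≤ n := le_trans (le_trans (le_max_left _ _) (le_max_right _ _)) hn
  have hn3' : n3 ≤ n :=
    le_trans (le_trans (le_max_left _ _) (le_trans (le_max_right _ _) (le_max_right _ _))) hn
  have hn8 : 8 ≤ n :=
    le_trans (le_trans (le_max_right _ _) (le_trans (le_max_right _ _) (le_max_right _ _))) hn
  have hn0 : (0 : ℝ) < n := by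
    have : (8 : ℝ) ≤ n := by exact_mod_cast hn8
    linarith
  have hq4 := hn2 n hn2'
  have hC4 := hn3 n hn3'
  obtain ⟨K, hK⟩ : ∃ K, K = ⌊(n : ℝ) ^ c1⌋₊ := ⟨_, rfl⟩
  obtain ⟨q, hq⟩ : ∃ q, q = (n : ℝ) ^ (-(δ / 25)) := ⟨_, rfl⟩
  have hq0 : 0 < q := by rw [hq]; exact Real.rpow_pos_of_pos hn0 _
  have hq1 : q ≤ 1 / 4 := by
    rw [hq, Real.rpow_neg hn0.le, one_div]
    exact inv_anti₀ (by norm_num) hq4
  -- the levels are small
  have hKn : ∀ l : ℕ, l ≤ K → (l : ℝ) ≤ (n : ℝ) ^ c1 := by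
    intro l hl
    have h1 : (K : ℝ) ≤ (n : ℝ) ^ c1 := by
      rw [hK]; exact Nat.floor_le (Real.rpow_nonneg hn0.le _)
    have h2 : (l : ℝ) ≤ K := by exact_mod_cast hl
    linarith
  have hln : ∀ l : ℕ, l ≤ K → 2 * l + 4 ≤ n := by
    intro l hl
    have h1 := hKn l hl
    obtain ⟨y, hy⟩ : ∃ y, y = (n : ℝ) ^ (1 / 3 : ℝ) := ⟨_, rfl⟩
    have hy3 : y ^ 3 = n := by
      rw [hy, ← Real.rpow_natCast, ← Real.rpow_mul hn0.le]
      norm_num
    have hy2 : 2 ≤ y := by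
      have h8 : (2 : ℝ) ^ 3 ≤ y ^ 3 := by
        rw [hy3]
        have : (8 : ℝ) ≤ n := by exact_mod_cast hn8
        linarith
      have hy0 : 0 ≤ y := by rw [hy]; exact Real.rpow_nonneg hn0.le _
      exact le_of_pow_le_pow_left₀ (by norm_num) hy0 h8
    have h2 : (n : ℝ) ^ c1 ≤ y := by
      rw [hy]
      have hn1r : (1 : ℝ) ≤ n := by
        have : (8 : ℝ) ≤ n := by exact_mod_cast hn8
        linarith
      exact Real.rpow_le_rpow_of_exponent_le hn1r (by linarith)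
    have h3 : 2 * (l : ℝ) + 4 ≤ n := by
      rw [← hy3]
      nlinarith [mul_nonneg (sub_nonneg.2 hy2) (sub_nonneg.2 hy2), pow_two_nonneg y]
    exact_mod_cast h3
  obtain ⟨B, hB, -⟩ := exists_blocks (Alt n)
  let Bl : ℕ → Finset (Matrix (Alt n) (Alt n) ℝ) := fun l =>
    B.filter (fun E => LevLe l E ∧ ¬ LevLe (l - 1) E)
  have hcard : ∀ l ∈ Finset.Icc 1 K, ((Bl l).card : ℝ) ≤ 2 ^ l := by
    intro l hl
    rw [Finset.mem_Icc] at hl
    have h1 : (Bl l).card ≤ Fintype.card (Nat.Partition l) := by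
      refine exact_count l hl.1 (hln l hl.2) (Bl l) (fun E hE => ?_)
      have hE' := (Finset.mem_filter.1 hE)
      exact ⟨(hB E).1 hE'.1, hE'.2.1, hE'.2.2⟩
    have h2 := h1.trans (partition_le_two_pow l)
    exact_mod_cast h2
  -- the union bound
  have hsub : frac (fun x : Fin N × Fin 2560 → Alt n => ¬ ∀ E : Matrix (Alt n) (Alt n) ℝ, IsBlock E →
      E ≠ Jm (Alt n) → LevLe ⌊(n : ℝ) ^ c1⌋₊ E → NormP x E (3 / 4) N) ≤
      frac (fun x : Fin N × Fin 2560 → Alt n => ∃ l ∈ Finset.Icc 1 K, ∃ E ∈ Bl l,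
        ¬ NormP x E (3 / 4) N) := by
    refine frac_mono (fun x hx => ?_)
    push Not at hx
    obtain ⟨E, hE, hEJ, hEL, hEN⟩ := hx
    rw [← hK] at hEL
    have hex : ∃ l, LevLe l E := ⟨K, hEL⟩
    obtain ⟨l, hldef⟩ : ∃ l, l = Nat.find hex := ⟨_, rfl⟩
    have hl1 : LevLe l E := by rw [hldef]; exact Nat.find_spec hex
    have hlK : l ≤ K := by rw [hldef]; exact Nat.find_min' hex hEL
    have hl0 : 1 ≤ l := by
      by_contra h0
      have h0' : l = 0 := by omega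
      rw [h0'] at hl1
      exact hEJ (eq_Jm_of_levLe_zero hE hl1)
    have hl2 : ¬ LevLe (l - 1) E := by
      have : l - 1 < Nat.find hex := by rw [← hldef]; omega
      exact Nat.find_min hex this
    exact ⟨l, Finset.mem_Icc.2 ⟨hl0, hlK⟩, E, Finset.mem_filter.2 ⟨(hB E).2 hE, hl1, hl2⟩, hEN⟩
  refine hsub.trans ?_
  have hstep : ∀ l ∈ Finset.Icc 1 K,
      frac (fun x : Fin N × Fin 2560 → Alt n => ∃ E ∈ Bl l, ¬ NormP x E (3 / 4) N) ≤
        C * (2 * q) ^ l := by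
    intro l hl
    have hl' := Finset.mem_Icc.1 hl
    refine (frac_exists_le (Bl l) (fun E x => ¬ NormP x E (3 / 4) N)).trans ?_
    have h1 : ∀ E ∈ Bl l, frac (fun x : Fin N × Fin 2560 → Alt n => ¬ NormP x E (3 / 4) N) ≤ C * q ^ l := by
      intro E hE
      have hE' := (Finset.mem_filter.1 hE)
      have h2 := hmain n hn1 l hl'.1 (hKn l hl'.2) E ((hB E).1 hE'.1) hE'.2.1 hE'.2.2
      have h3 : (n : ℝ) ^ (-(δ * l / 25)) = q ^ l := by
        rw [hq, ← Real.rpow_natCast, ← Real.rpow_mul hn0.le]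
        congr 1
        ring
      rw [h3] at h2
      exact h2
    refine (Finset.sum_le_sum h1).trans ?_
    rw [Finset.sum_const, nsmul_eq_mul]
    have h4 : (0 : ℝ) ≤ C * q ^ l := mul_nonneg hC (pow_nonneg hq0.le l)
    calc ((Bl l).card : ℝ) * (C * q ^ l) ≤ 2 ^ l * (C * q ^ l) :=
          mul_le_mul_of_nonneg_right (hcard l hl) h4
      _ = C * (2 * q) ^ l := by rw [mul_pow]; ring
  refine (frac_exists_le (Finset.Icc 1 K) (fun l x => ∃ E ∈ Bl l, ¬ NormP x E (3 / 4) N)).trans ?_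
  refine (Finset.sum_le_sum hstep).trans ?_
  rw [← Finset.mul_sum]
  have hg := VB2_geom (2 * q) (by positivity) (by linarith) K
  have h5 : C * ∑ l ∈ Finset.Icc 1 K, (2 * q) ^ l ≤ (4 * C) * q := by
    have := mul_le_mul_of_nonneg_left hg hC
    linarith
  refine h5.trans ?_
  have h6 : (n : ℝ) ^ (-(δ / 30)) = (n : ℝ) ^ (δ / 150) * q := by
    rw [hq, ← Real.rpow_add hn0]
    congr 1
    ring
  rw [h6]
  exact mul_le_mul_of_nonneg_right hC4 hq0.le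

end Pool.Agent.BC5
end

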