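import Pool.Agent.Lib.MP_bc5a73_al.WordWalks
import Pool.Agent.Lib.MP_bc5a73_al.AllNorm

section
set_option autoImplicit false
set_option linter.unusedSectionVars false
set_option linter.unusedVariables false
open scoped BigOperators Matrix
open Matrix
namespace Pool.Agent.BC5


theorem abs_trace_Rm_le {n : ℕ} {E : Matrix (Alt n) (Alt n) ℝ} (hE : IsBlock E) (g : Alt n) :
    |(E * Rm g).trace| ≤ E.trace := H5_abs hE.1 g

theorem VS1_avg_comm {α β : Type} [Fintype α] [Fintype β] (f : α → β → ℝ) :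
    avg (fun a => avg (fun b => f a b)) = avg (fun b => avg (fun a => f a b)) := by
  rw [← avg_prod (fun p : α × β => f p.1 p.2), ← avg_prod (fun p : β × α => f p.2 p.1),
    ← avg_equiv (Equiv.prodComm α β) (fun p : β × α => f p.2 p.1)]
  rfl

theorem VS1_trace_avg {n : ℕ} {α : Type} [Fintype α] (E : Matrix (Alt n) (Alt n) ℝ)
    (f : α → Matrix (Alt n) (Alt n) ℝ) :
    (E * avg f).trace = avg (fun a => (E * f a).trace) := by
  unfold avg
  rw [Matrix.mul_smul, Matrix.trace_smul, Finset.mul_sum, Matrix.trace_sum]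

theorem VS1_avg_ite {α : Type} [Fintype α] [Nonempty α] (P : α → Prop) [DecidablePred P] (c d : ℝ) :
    avg (fun a => c * (if P a then (1 : ℝ) else 0) + d) = c * frac P + d := by
  rw [avg_add, avg_const, avg_mul_left]
  have h : (fun a => if P a then (1 : ℝ) else 0) =
      fun a => @ite ℝ (P a) (Classical.propDecidable (P a)) 1 0 := by
    funext a
    by_cases hp : P a <;> simp [hp]
  rw [h]
  rfl

theorem avg_trace_words_le {n M : ℕ} {E : Matrix (Alt n) (Alt n) ℝ} (hE : IsBlock E) (T F : ℕ) (hM : 1 ≤ M)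
    (P β : ℝ) (hP : 0 ≤ P) (hβ : 0 ≤ β)
    (h1 : ∀ γ : FreeGroup (Fin M), γ ≠ 1 → γ.norm ≤ 2 * T →
      frac (fun x : Fin M → Alt n => F ≤ fixc (FreeGroup.lift x γ)) ≤ P)
    (h2 : ∀ g : Alt n, fixc g ≤ F → |(E * Rm g).trace| ≤ β * E.trace) :
    avg (fun x : Fin M → Alt n => (E * (avg fun i => Sm (x i)) ^ (2 * T)).trace) ≤
      ((2 / (M : ℝ)) ^ T + P + β) * E.trace := by
  classical
  have hτ : 0 ≤ E.trace := trace_pr_nonneg hE.1
  haveI : Nonempty (Fin M) := ⟨⟨0, hM⟩⟩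
  have e1 : avg (fun x : Fin M → Alt n => (E * (avg fun i => Sm (x i)) ^ (2 * T)).trace) =
      avg (fun a : Fin (2 * T) → Fin M × Bool => avg (fun x : Fin M → Alt n =>
        (E * Rm (FreeGroup.lift x (FreeGroup.mk (List.ofFn a)))).trace)) := by
    rw [← VS1_avg_comm]
    refine congrArg avg (funext fun x => ?_)
    rw [pow_eq_avg_words hM x (2 * T), VS1_trace_avg]
  rw [e1]
  have key : ∀ a : Fin (2 * T) → Fin M × Bool, avg (fun x : Fin M → Alt n =>
        (E * Rm (FreeGroup.lift x (FreeGroup.mk (List.ofFn a)))).trace) ≤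
      E.trace * (if FreeGroup.mk (List.ofFn a) = 1 then (1 : ℝ) else 0) + (P + β) * E.trace := by
    intro a
    by_cases ha : FreeGroup.mk (List.ofFn a) = 1
    · rw [if_pos ha, ha]
      have e2 : (fun x : Fin M → Alt n => (E * Rm (FreeGroup.lift x (1 : FreeGroup (Fin M)))).trace) =
          fun _ => E.trace := by
        funext x
        rw [map_one, Rm_one, Matrix.mul_one]
      rw [e2, avg_const]
      have : 0 ≤ (P + β) * E.trace := mul_nonneg (add_nonneg hP hβ) hτ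
      linarith only [this]
    · rw [if_neg ha, mul_zero, zero_add]
      obtain ⟨γ, hγ⟩ : ∃ γ, γ = FreeGroup.mk (List.ofFn a) := ⟨_, rfl⟩
      have hn : γ.norm ≤ 2 * T := by
        rw [hγ]
        refine FreeGroup.norm_mk_le.trans ?_
        rw [List.length_ofFn]
      rw [← hγ] at ha ⊢
      have e3 : ∀ x : Fin M → Alt n, (E * Rm (FreeGroup.lift x γ)).trace ≤
          E.trace * (if F ≤ fixc (FreeGroup.lift x γ) then (1 : ℝ) else 0) + β * E.trace := by
        intro x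
        by_cases hx : F ≤ fixc (FreeGroup.lift x γ)
        · rw [if_pos hx, mul_one]
          have h3 := (abs_le.mp (abs_trace_Rm_le hE (FreeGroup.lift x γ))).2
          have h4 : 0 ≤ β * E.trace := mul_nonneg hβ hτ
          linarith only [h3, h4]
        · rw [if_neg hx, mul_zero, zero_add]
          exact (abs_le.mp (h2 _ (by omega))).2
      refine (avg_mono e3).trans ?_
      rw [VS1_avg_ite (fun x : Fin M → Alt n => F ≤ fixc (FreeGroup.lift x γ))]
      have h6 := mul_le_mul_of_nonneg_left (h1 γ ha hn) hτ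
      have h7 : (P + β) * E.trace = E.trace * P + β * E.trace := by ring
      rw [h7]
      exact add_le_add h6 le_rfl
  refine (avg_mono key).trans ?_
  rw [VS1_avg_ite (fun a : Fin (2 * T) → Fin M × Bool => FreeGroup.mk (List.ofFn a) = 1)]
  have h8 := trivial_words hM T
  have h9 := mul_le_mul_of_nonneg_left h8 hτ
  have h10 : ((2 / (M : ℝ)) ^ T + P + β) * E.trace = E.trace * (2 / (M : ℝ)) ^ T + (P + β) * E.trace := by ring
  rw [h10]
  exact add_le_add h9 le_rfl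

end Pool.Agent.BC5
end

section
set_option autoImplicit false
set_option linter.unusedSectionVars false
set_option linter.unusedVariables false
open scoped BigOperators Matrix
open Matrix
namespace Pool.Agent.BC5


theorem VS2_markov {n : ℕ} {E : Matrix (Alt n) (Alt n) ℝ} (hE : IsBlock E) (T F h q : ℕ) (β : ℝ) (hβ : 0 ≤ β)
    (hF1 : 1 ≤ F) (hF : 2 * (h * (2 * T) ^ 2) ≤ F) (hn : 2 * (h * (2 * T)) + 4 ≤ n)
    (h2 : ∀ g : Alt n, fixc g ≤ F → |(E * Rm g).trace| ≤ β * E.trace) (M : ℕ) (hM : 2560 ≤ M) :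
    frac (fun y : Fin M → Alt n =>
      (1 / 4 : ℝ) ^ T * (1 / 2 : ℝ) ^ q * E.trace < (E * (avg fun i => Sm (y i)) ^ (2 * T)).trace) ≤
      2 ^ q * 4 ^ T * ((1 / 1280 : ℝ) ^ T +
        (2 * (2 * (T : ℝ)) ^ 2 / F) ^ h * Real.exp (2 * ((h : ℝ) * (2 * T)) ^ 2 / n) + β) := by
  have hE1 : 1 ≤ E.trace := one_le_trace hE.1 hE.2.2.2.1
  have hc : 0 < (1 / 4 : ℝ) ^ T * (1 / 2 : ℝ) ^ q * E.trace := by
    have h0 : 0 < E.trace := by linarith
    positivity
  have h3 := frac_le_avg_div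
    (P := fun y : Fin M → Alt n =>
      (1 / 4 : ℝ) ^ T * (1 / 2 : ℝ) ^ q * E.trace < (E * (avg fun i => Sm (y i)) ^ (2 * T)).trace)
    (f := fun y : Fin M → Alt n => (E * (avg fun i => Sm (y i)) ^ (2 * T)).trace)
    hc (fun x => Q4_trace_nonneg hE x T) (fun x hx => hx.le)
  refine h3.trans ?_
  rw [div_le_iff₀ hc]
  have hP0 : (0 : ℝ) ≤ (2 * (2 * (T : ℝ)) ^ 2 / F) ^ h * Real.exp (2 * ((h : ℝ) * (2 * T)) ^ 2 / n) := by
    positivity
  have h4 := avg_trace_words_le (M := M) hE T F (by omega)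
    ((2 * (2 * (T : ℝ)) ^ 2 / F) ^ h * Real.exp (2 * ((h : ℝ) * (2 * T)) ^ 2 / n)) β hP0 hβ
    (fun γ hγ hγn => by
      have h5 := frac_word_fix (h := h) (t := 2 * T) (F := F) (n := n) γ hγ hγn hF1 hF hn
      push_cast at h5
      exact h5) h2
  refine h4.trans ?_
  have h6 : (2 / (M : ℝ)) ^ T ≤ (1 / 1280 : ℝ) ^ T := by
    refine pow_le_pow_left₀ (by positivity) ?_ T
    have hM' : (2560 : ℝ) ≤ M := by exact_mod_cast hM
    rw [div_le_div_iff₀ (by linarith) (by norm_num)]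
    linarith
  have h7 : (2 : ℝ) ^ q * 4 ^ T * ((1 / 4 : ℝ) ^ T * (1 / 2 : ℝ) ^ q) = 1 := by
    have e1 : (4 : ℝ) ^ T * (1 / 4 : ℝ) ^ T = 1 := by
      rw [← mul_pow]
      norm_num
    have e2 : (2 : ℝ) ^ q * (1 / 2 : ℝ) ^ q = 1 := by
      rw [← mul_pow]
      norm_num
    calc (2 : ℝ) ^ q * 4 ^ T * ((1 / 4 : ℝ) ^ T * (1 / 2 : ℝ) ^ q)
        = ((4 : ℝ) ^ T * (1 / 4 : ℝ) ^ T) * ((2 : ℝ) ^ q * (1 / 2 : ℝ) ^ q) := by ring
      _ = 1 := by rw [e1, e2, one_mul]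
  set P : ℝ := (2 * (2 * (T : ℝ)) ^ 2 / F) ^ h * Real.exp (2 * ((h : ℝ) * (2 * T)) ^ 2 / n) with hPdef
  have h8 : (2 : ℝ) ^ q * 4 ^ T * ((1 / 1280 : ℝ) ^ T + P + β) * ((1 / 4 : ℝ) ^ T * (1 / 2 : ℝ) ^ q * E.trace) =
      ((1 / 1280 : ℝ) ^ T + P + β) * E.trace := by
    calc (2 : ℝ) ^ q * 4 ^ T * ((1 / 1280 : ℝ) ^ T + P + β) * ((1 / 4 : ℝ) ^ T * (1 / 2 : ℝ) ^ q * E.trace)
        = ((2 : ℝ) ^ q * 4 ^ T * ((1 / 4 : ℝ) ^ T * (1 / 2 : ℝ) ^ q)) * (((1 / 1280 : ℝ) ^ T + P + β) * E.trace) := by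
          ring
      _ = ((1 / 1280 : ℝ) ^ T + P + β) * E.trace := by rw [h7, one_mul]
  rw [h8]
  refine mul_le_mul_of_nonneg_right ?_ (by linarith)
  linarith

theorem VS2_one {n N : ℕ} {E : Matrix (Alt n) (Alt n) ℝ} (hE : IsBlock E) (T F h q : ℕ) (β : ℝ) (hβ : 0 ≤ β)
    (hF1 : 1 ≤ F) (hF : 2 * (h * (2 * T) ^ 2) ≤ F) (hn : 2 * (h * (2 * T)) + 4 ≤ n)
    (h2 : ∀ g : Alt n, fixc g ≤ F → |(E * Rm g).trace| ≤ β * E.trace) (R : Finset (Fin N)) :
    frac (fun x : Fin N × Fin 2560 → Alt n => (1 : ℝ) ≤ R.card ∧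
      (1 / 2 : ℝ) ^ q * E.trace < (E * spr (AR x R) (1 / 2)).trace) ≤
      2 ^ q * 4 ^ T * ((1 / 1280 : ℝ) ^ T +
        (2 * (2 * (T : ℝ)) ^ 2 / F) ^ h * Real.exp (2 * ((h : ℝ) * (2 * T)) ^ 2 / n) + β) := by
  classical
  by_cases hR : (1 : ℝ) ≤ R.card
  · have hRn : 1 ≤ R.card := by exact_mod_cast hR
    have hcard : (cyl R : Finset (Fin N × Fin 2560)).card = R.card * 2560 := by
      unfold cyl
      rw [Finset.card_product, Finset.card_univ, Fintype.card_fin]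
    obtain ⟨e, he, heU⟩ := exists_enum (cyl R : Finset (Fin N × Fin 2560))
    have hs : 2560 ≤ (cyl R : Finset (Fin N × Fin 2560)).card := by
      rw [hcard]
      omega
    have hM := VS2_markov hE T F h q β hβ hF1 hF hn h2 _ hs
    have hinj := frac_comp_injective (H := Alt n) e he
      (fun y : Fin (cyl R : Finset (Fin N × Fin 2560)).card → Alt n =>
        (1 / 4 : ℝ) ^ T * (1 / 2 : ℝ) ^ q * E.trace < (E * (avg fun i => Sm (y i)) ^ (2 * T)).trace)
    refine le_trans ?_ (hinj.le.trans hM)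
    refine frac_mono ?_
    intro x hx
    have h3 : AR x R = avg (fun i => Sm (x (e i))) := by
      unfold AR
      exact AU_eq_avg x (cyl R) e he heU
    have hAt : (AR x R)ᵀ = AR x R := by
      rw [h3]
      exact Q4_transpose (fun i => x (e i))
    have h4 := spr_trace (AR x R) hAt (1 / 2) (by norm_num) E hE.1 T
    have h5 : (1 / 4 : ℝ) ^ T = (1 / 2) ^ (2 * T) := by
      rw [pow_mul]
      norm_num
    have h6 : (0 : ℝ) < (1 / 2) ^ (2 * T) := by positivity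
    have h7 := mul_lt_mul_of_pos_left hx.2 h6
    have h8 : (1 / 4 : ℝ) ^ T * (1 / 2 : ℝ) ^ q * E.trace < (E * (AR x R) ^ (2 * T)).trace := by
      rw [h5, mul_assoc]
      exact lt_of_lt_of_le h7 h4
    rw [h3] at h8
    exact h8
  · have h7 : frac (fun x : Fin N × Fin 2560 → Alt n => False) = 0 := by
      unfold frac avg
      simp
    have h8 : frac (fun x : Fin N × Fin 2560 → Alt n => (1 : ℝ) ≤ R.card ∧
        (1 / 2 : ℝ) ^ q * E.trace < (E * spr (AR x R) (1 / 2)).trace) ≤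
        frac (fun x : Fin N × Fin 2560 → Alt n => False) := frac_mono (fun x hx => hR hx.1)
    refine h8.trans ?_
    rw [h7]
    positivity

theorem start_low {n N : ℕ} {E : Matrix (Alt n) (Alt n) ℝ} (hE : IsBlock E) (T F h q : ℕ) (β : ℝ) (hβ : 0 ≤ β)
    (hF1 : 1 ≤ F) (hF : 2 * (h * (2 * T) ^ 2) ≤ F) (hn : 2 * (h * (2 * T)) + 4 ≤ n)
    (h2 : ∀ g : Alt n, fixc g ≤ F → |(E * Rm g).trace| ≤ β * E.trace) :
    frac (fun x : Fin N × Fin 2560 → Alt n => ¬ StartP x E (1 / 2) 1 ((1 / 2 : ℝ) ^ q)) ≤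
      2 ^ N * (2 ^ q * 4 ^ T * ((1 / 1280 : ℝ) ^ T +
        (2 * (2 * (T : ℝ)) ^ 2 / F) ^ h * Real.exp (2 * ((h : ℝ) * (2 * T)) ^ 2 / n) + β)) := by
  classical
  have h1 : frac (fun x : Fin N × Fin 2560 → Alt n => ¬ StartP x E (1 / 2) 1 ((1 / 2 : ℝ) ^ q)) ≤
      frac (fun x : Fin N × Fin 2560 → Alt n => ∃ R ∈ (Finset.univ : Finset (Finset (Fin N))),
        ((1 : ℝ) ≤ R.card ∧ (1 / 2 : ℝ) ^ q * E.trace < (E * spr (AR x R) (1 / 2)).trace)) := by
    refine frac_mono ?_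
    intro x hx
    by_contra hcon
    apply hx
    intro R hR
    by_contra hlt
    exact hcon ⟨R, Finset.mem_univ R, hR, not_le.1 hlt⟩
  refine h1.trans ((frac_exists_le (Finset.univ : Finset (Finset (Fin N)))
    (fun (R : Finset (Fin N)) (x : Fin N × Fin 2560 → Alt n) => (1 : ℝ) ≤ R.card ∧
      (1 / 2 : ℝ) ^ q * E.trace < (E * spr (AR x R) (1 / 2)).trace)).trans ?_)
  refine (Finset.sum_le_sum (fun R _ => VS2_one hE T F h q β hβ hF1 hF hn h2 R)).trans (le_of_eq ?_)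
  rw [Finset.sum_const, Finset.card_univ, Fintype.card_finset, Fintype.card_fin, nsmul_eq_mul]
  push_cast
  ring

end Pool.Agent.BC5
end

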