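import Pool.Agent.Lib.MP_bc5a73_al.LeaveOut

section
set_option autoImplicit false
set_option linter.unusedSectionVars false
set_option linter.unusedVariables false
open scoped BigOperators Matrix
open Matrix
namespace Pool.Agent.BC5

/-- The value of the letter `c = (i, sign)`. -/
def letv {G : Type} [Group G] {M : ℕ} (x : Fin M → G) (c : Fin M × Bool) : G := if c.2 then x c.1 else (x c.1)⁻¹

/-- The walk of the point `p` under the letters `b 0, b 1, …`. -/
def walk {M n : ℕ} (x : Fin M → Alt n) (b : ℕ → Fin M × Bool) (p : Fin n) : ℕ → Fin n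
  | 0 => p
  | j + 1 => ((letv x (b j) : Alt n) : Equiv.Perm (Fin n)) (walk x b p j)

/-- The letters `b 0, …, b (t - 1)` form a reduced word. -/
def RedW {M : ℕ} (b : ℕ → Fin M × Bool) (t : ℕ) : Prop :=
  ∀ j, j + 1 < t → b (j + 1) ≠ ((b j).1, !(b j).2)

/-- The possible types `(i, r - 1)` of a simple closed subwalk. -/
def TT (t : ℕ) : Finset (ℕ × ℕ) := (Finset.range t ×ˢ Finset.range t).filter (fun u => u.1 + u.2 + 1 ≤ t)

/-- `v` is a family of disjoint simple closed walks of the types `τ`. -/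
def CycC {M n h : ℕ} (x : Fin M → Alt n) (b : ℕ → Fin M × Bool) (τ : Fin h → ℕ × ℕ)
    (v : (Σ c : Fin h, Fin ((τ c).2 + 1)) → Fin n) : Prop :=
  Function.Injective v ∧ ∀ (c : Fin h) (a : Fin ((τ c).2 + 1)),
    ((letv x (b ((τ c).1 + a)) : Alt n) : Equiv.Perm (Fin n)) (v ⟨c, a⟩) = v ⟨c, a + 1⟩

/-- The elements of a subgroup, as a finite set. -/
noncomputable def subF {G : Type} [Group G] [Fintype G] (H : Subgroup G) : Finset G := by
  classical exact Finset.univ.filter (fun g => g ∈ H)

theorem mem_subF {G : Type} [Group G] [Fintype G] (H : Subgroup G) (g : G) : g ∈ subF H ↔ g ∈ H := by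
  simp [subF]

theorem TT_card (t : ℕ) : (TT t).card ≤ t ^ 2 := by
  unfold TT
  refine (Finset.card_filter_le _ _).trans ?_
  rw [Finset.card_product, Finset.card_range, sq]

theorem mem_TT (t : ℕ) (u : ℕ × ℕ) : u ∈ TT t ↔ u.1 + u.2 + 1 ≤ t := by
  unfold TT
  rw [Finset.mem_filter, Finset.mem_product, Finset.mem_range, Finset.mem_range]
  constructor
  · exact fun h => h.2
  · intro h
    exact ⟨⟨by omega, by omega⟩, h⟩

end Pool.Agent.BC5
end

section
set_option autoImplicit false
set_option linter.unusedSectionVars false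
set_option linter.unusedVariables false
open scoped BigOperators Matrix
open Matrix
namespace Pool.Agent.BC5


theorem exists_simple_cycle {α : Type} (f : ℕ → α) (t : ℕ) (ht : 1 ≤ t) (h : f t = f 0) :
    ∃ i r : ℕ, 1 ≤ r ∧ i + r ≤ t ∧ f (i + r) = f i ∧ ∀ a b, a < r → b < r → f (i + a) = f (i + b) → a = b := by
  classical
  have hex : ∃ r : ℕ, 1 ≤ r ∧ ∃ i, i + r ≤ t ∧ f (i + r) = f i :=
    ⟨t, ht, 0, by omega, by rw [zero_add]; exact h⟩
  obtain ⟨hr1, i, hi, hfi⟩ := Nat.find_spec hex
  have key : ∀ a b, a < b → b < Nat.find hex → f (i + a) ≠ f (i + b) := by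
    intro a b hab hb heq
    apply Nat.find_min hex (m := b - a) (by omega)
    refine ⟨by omega, i + a, by omega, ?_⟩
    have h1 : i + a + (b - a) = i + b := by omega
    rw [h1]
    exact heq.symm
  refine ⟨i, Nat.find hex, hr1, hi, hfi, ?_⟩
  intro a b ha hb hab
  rcases lt_trichotomy a b with h1 | h1 | h1
  · exact absurd hab (key a b h1 hb)
  · exact h1
  · exact absurd hab.symm (key b a h1 ha)

theorem VF1_step {α : Type} [Fintype α] (r : α → α → Prop) (d : ℕ)
    (hd : ∀ a : α, Nat.card {b : α // r a b} ≤ d) (k : ℕ) (f : Fin k → α) :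
    Nat.card α - k * d ≤ Nat.card {b : α // ∀ c, ¬ r (f c) b} := by
  classical
  have h1 : Nat.card {b : α // ∀ c, ¬ r (f c) b} =
      (Finset.univ.filter fun b : α => ∀ c, ¬ r (f c) b).card := by
    rw [Nat.card_eq_fintype_card, Fintype.card_subtype]
  have h2 : (Finset.univ : Finset α) ⊆ (Finset.univ.filter fun b : α => ∀ c, ¬ r (f c) b) ∪
      Finset.univ.biUnion fun c : Fin k => Finset.univ.filter fun b : α => r (f c) b := by
    intro b _
    by_cases hb : ∀ c, ¬ r (f c) b
    · exact Finset.mem_union_left _ (by simp [hb])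
    · push Not at hb
      obtain ⟨c, hc⟩ := hb
      refine Finset.mem_union_right _ ?_
      simp only [Finset.mem_biUnion, Finset.mem_univ, Finset.mem_filter, true_and]
      exact ⟨c, hc⟩
  have h3 := (Finset.card_le_card h2).trans (Finset.card_union_le _ _)
  have h4 : (Finset.univ.biUnion fun c : Fin k => Finset.univ.filter fun b : α => r (f c) b).card ≤
      k * d := by
    refine Finset.card_biUnion_le.trans ?_
    calc ∑ c : Fin k, (Finset.univ.filter fun b : α => r (f c) b).card
        ≤ ∑ c : Fin k, d := Finset.sum_le_sum fun c _ => by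
          have := hd (f c)
          rwa [Nat.card_eq_fintype_card, Fintype.card_subtype] at this
      _ = k * d := by simp
  rw [h1, Nat.card_eq_fintype_card]
  rw [Finset.card_univ] at h3
  omega

theorem VF1_ind {α : Type} [Fintype α] (r : α → α → Prop) (d h : ℕ)
    (hd : ∀ a : α, Nat.card {b : α // r a b} ≤ d) (k : ℕ) (hk : k ≤ h) :
    (Nat.card α - h * d) ^ k ≤
      Nat.card {f : Fin k → α // ∀ c c', c < c' → ¬ r (f c) (f c')} := by
  classical
  induction k with
  | zero =>
    rw [pow_zero]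
    have : Nonempty {f : Fin 0 → α // ∀ c c', c < c' → ¬ r (f c) (f c')} :=
      ⟨⟨fun i => i.elim0, fun c => c.elim0⟩⟩
    exact Nat.card_pos
  | succ k ih =>
    have ih' := ih (by omega)
    set F := {f : Fin k → α // ∀ c c', c < c' → ¬ r (f c) (f c')} with hF
    let g : (Σ f : F, {b : α // ∀ c, ¬ r (f.1 c) b}) →
        {f : Fin (k + 1) → α // ∀ c c', c < c' → ¬ r (f c) (f c')} := fun x =>
      ⟨Fin.snoc (α := fun _ => α) x.1.1 x.2.1, by
        intro c c' hcc
        have hc : c.val < k := by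
          have h1 := c'.2
          have h2 : c.val < c'.val := hcc
          omega
        obtain ⟨c0, rfl⟩ : ∃ c0 : Fin k, c = Fin.castSucc c0 := ⟨⟨c.val, hc⟩, rfl⟩
        rw [Fin.snoc_castSucc]
        induction c' using Fin.lastCases with
        | last => rw [Fin.snoc_last]; exact x.2.2 c0
        | cast c1 =>
          rw [Fin.snoc_castSucc]
          exact x.1.2 c0 c1 (by simpa using hcc)⟩
    have hg : Function.Injective g := by
      rintro ⟨⟨f, hf⟩, ⟨b, hb⟩⟩ ⟨⟨f', hf'⟩, ⟨b', hb'⟩⟩ hxy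
      have h1 : (Fin.snoc (α := fun _ => α) f b : Fin (k + 1) → α) =
          Fin.snoc (α := fun _ => α) f' b' := congrArg Subtype.val hxy
      have h2 : f = f' := by
        funext i
        have := congrFun h1 (Fin.castSucc i)
        rwa [Fin.snoc_castSucc, Fin.snoc_castSucc] at this
      have h3 : b = b' := by
        have := congrFun h1 (Fin.last k)
        rwa [Fin.snoc_last, Fin.snoc_last] at this
      subst h2
      subst h3
      rfl
    have h1 := Nat.card_le_card_of_injective g hg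
    refine le_trans ?_ h1
    rw [Nat.card_sigma, pow_succ]
    calc (Nat.card α - h * d) ^ k * (Nat.card α - h * d)
        ≤ Nat.card F * (Nat.card α - h * d) := Nat.mul_le_mul_right _ ih'
      _ = ∑ x : F, (Nat.card α - h * d) := by
          rw [Finset.sum_const, Finset.card_univ, Nat.card_eq_fintype_card, smul_eq_mul]
      _ ≤ ∑ x : F, Nat.card {b : α // ∀ c, ¬ r (x.1 c) b} := by
          refine Finset.sum_le_sum fun x _ => le_trans ?_ (VF1_step r d hd k x.1)
          have : k * d ≤ h * d := Nat.mul_le_mul_right _ (by omega)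
          omega

theorem greedy_count {α : Type} [Fintype α] (r : α → α → Prop) (d h : ℕ)
    (hd : ∀ a : α, Nat.card {b : α // r a b} ≤ d) (hh : h * d ≤ Nat.card α) :
    (Nat.card α - h * d) ^ h ≤ Nat.card {f : Fin h → α // ∀ c c', c < c' → ¬ r (f c) (f c')} :=
  VF1_ind r d h hd h le_rfl

end Pool.Agent.BC5
end

section
set_option autoImplicit false
set_option linter.unusedSectionVars false
set_option linter.unusedVariables false
open scoped BigOperators Matrix
open Matrix
namespace Pool.Agent.BC5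


theorem VF2_frac_empty {n : ℕ} (P : Alt n → Prop) (h : ∀ g, ¬ P g) : frac P = 0 := by
  have h1 := frac_eq_card P
  have h2 : (Nat.card {g : Alt n // P g} : ℝ) = 0 := by
    have : IsEmpty {g : Alt n // P g} := ⟨fun g => h g.1 g.2⟩
    simp
  rw [h2] at h1
  have h3 : (Nat.card (Alt n) : ℝ) ≠ 0 := by
    rw [Nat.card_eq_fintype_card]
    exact_mod_cast Fintype.card_ne_zero
  exact (mul_eq_zero.1 h1).resolve_right h3

theorem VF2_card_le {n : ℕ} {J : Type} [Fintype J] (s s' : J → Fin n) (g₀ : Alt n)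
    (hg₀ : ∀ j, (g₀ : Equiv.Perm (Fin n)) (s j) = s' j) :
    Nat.card {g : Alt n // ∀ j, (g : Equiv.Perm (Fin n)) (s j) = s' j} ≤
      (AY ((Finset.univ : Finset (Fin n)) \ Finset.univ.image s)).card := by
  classical
  have hmem : ∀ g : {g : Alt n // ∀ j, (g : Equiv.Perm (Fin n)) (s j) = s' j},
      g₀⁻¹ * g.1 ∈ AY ((Finset.univ : Finset (Fin n)) \ Finset.univ.image s) := by
    intro g
    rw [mem_AY]
    intro x hx
    have hx' : x ∈ Finset.univ.image s := by
      by_contra hc
      exact hx (Finset.mem_sdiff.2 ⟨Finset.mem_univ _, hc⟩)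
    obtain ⟨j, -, rfl⟩ := Finset.mem_image.1 hx'
    rw [Subgroup.coe_mul, Equiv.Perm.mul_apply, g.2 j, ← hg₀ j, Subgroup.coe_inv]
    exact Equiv.symm_apply_apply (g₀ : Equiv.Perm (Fin n)) (s j)
  rw [Nat.card_eq_fintype_card, ← Finset.card_univ]
  refine Finset.card_le_card_of_injOn (fun g => g₀⁻¹ * g.1) (fun g _ => hmem g) ?_
  intro a _ b _ hab
  exact Subtype.ext (mul_left_cancel hab)

theorem frac_one_perm {n : ℕ} {J : Type} [Fintype J] (s s' : J → Fin n)
    (hinj : ∀ j j', s j = s j' → s' j = s' j' → j = j') (K : ℕ) (hJ : Fintype.card J ≤ K) (hK : K + 2 ≤ n) :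
    frac (fun g : Alt n => ∀ j, (g : Equiv.Perm (Fin n)) (s j) = s' j) ≤
      (1 / ((n : ℝ) - K)) ^ Fintype.card J := by
  classical
  have hnK : (0 : ℝ) < (n : ℝ) - K := by
    have : ((K + 2 : ℕ) : ℝ) ≤ (n : ℝ) := by exact_mod_cast hK
    push_cast at this
    linarith
  have hR : (0 : ℝ) ≤ (1 / ((n : ℝ) - K)) ^ Fintype.card J := by positivity
  by_cases hs : Function.Injective s
  · by_cases hex : ∃ g₀ : Alt n, ∀ j, (g₀ : Equiv.Perm (Fin n)) (s j) = s' j
    · obtain ⟨g₀, hg₀⟩ := hex
      have h1 := frac_eq_card (fun g : Alt n => ∀ j, (g : Equiv.Perm (Fin n)) (s j) = s' j)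
      have h2 := VF2_card_le s s' g₀ hg₀
      have hI : (Finset.univ.image s).card = Fintype.card J := by
        rw [Finset.card_image_of_injective _ hs, Finset.card_univ]
      have hY : ((Finset.univ : Finset (Fin n)) \ Finset.univ.image s).card + Fintype.card J = n := by
        rw [← hI, Finset.card_sdiff_add_card_eq_card (Finset.subset_univ _), Finset.card_univ, Fintype.card_fin]
      have h3 := card_alt_div _ (Fintype.card J) hY (by omega)
      have hA : (0 : ℝ) < ((AY ((Finset.univ : Finset (Fin n)) \ Finset.univ.image s)).card : ℝ) := by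
        have : 0 < (AY ((Finset.univ : Finset (Fin n)) \ Finset.univ.image s)).card :=
          Finset.card_pos.2 ⟨1, (AY_isGrp _).1⟩
        exact_mod_cast this
      have h5 : (Fintype.card (Alt n) : ℝ) = (n.descFactorial (Fintype.card J) : ℝ) *
          ((AY ((Finset.univ : Finset (Fin n)) \ Finset.univ.image s)).card : ℝ) := by
        rw [← h3]
        field_simp
      rw [Nat.card_eq_fintype_card (α := Alt n), h5] at h1
      have h6 : frac (fun g : Alt n => ∀ j, (g : Equiv.Perm (Fin n)) (s j) = s' j) *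
          (n.descFactorial (Fintype.card J) : ℝ) ≤ 1 := by
        have h7 : (frac (fun g : Alt n => ∀ j, (g : Equiv.Perm (Fin n)) (s j) = s' j) *
            (n.descFactorial (Fintype.card J) : ℝ)) *
            ((AY ((Finset.univ : Finset (Fin n)) \ Finset.univ.image s)).card : ℝ) ≤
            1 * ((AY ((Finset.univ : Finset (Fin n)) \ Finset.univ.image s)).card : ℝ) := by
          rw [mul_assoc, h1, one_mul]
          exact_mod_cast h2
        exact le_of_mul_le_mul_right h7 hA
      have h8 : ((n : ℝ) - K) ^ Fintype.card J ≤ (n.descFactorial (Fintype.card J) : ℝ) := by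
        have h9 := Nat.pow_sub_le_descFactorial n (Fintype.card J)
        have h10 : ((n - K : ℕ) : ℝ) = (n : ℝ) - K := Nat.cast_sub (by omega)
        rw [← h10]
        have h11 : (n - K) ^ Fintype.card J ≤ n.descFactorial (Fintype.card J) :=
          le_trans (Nat.pow_le_pow_left (by omega) _) h9
        exact_mod_cast h11
      have hf := frac_nonneg (fun g : Alt n => ∀ j, (g : Equiv.Perm (Fin n)) (s j) = s' j)
      have hpos : (0 : ℝ) < ((n : ℝ) - K) ^ Fintype.card J := pow_pos hnK _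
      rw [one_div, inv_pow, ← one_div, le_div_iff₀ hpos]
      exact le_trans (mul_le_mul_of_nonneg_left h8 hf) h6
    · rw [VF2_frac_empty _ (fun g hg => hex ⟨g, hg⟩)]
      exact hR
  · have hno : ∀ g : Alt n, ¬ ∀ j, (g : Equiv.Perm (Fin n)) (s j) = s' j := by
      intro g hg
      apply hs
      intro j j' hjj
      exact hinj j j' hjj (by rw [← hg j, ← hg j', hjj])
    rw [VF2_frac_empty _ hno]
    exact hR

end Pool.Agent.BC5
end

section
set_option autoImplicit false
set_option linter.unusedSectionVars false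
set_option linter.unusedVariables false
open scoped BigOperators Matrix
open Matrix
namespace Pool.Agent.BC5


theorem VF3_frac_pi {ι G : Type} [Fintype ι] [DecidableEq ι] [Fintype G] [Nonempty G] (P : ι → G → Prop) :
    frac (fun x : ι → G => ∀ i, P i (x i)) = ∏ i, frac (P i) := by
  classical
  have hG : (Nat.card G : ℝ) ≠ 0 := by
    rw [Nat.card_eq_fintype_card]
    exact_mod_cast Fintype.card_ne_zero
  have h1 := frac_eq_card (fun x : ι → G => ∀ i, P i (x i))
  have h2 : Nat.card {x : ι → G // ∀ i, P i (x i)} = ∏ i, Nat.card {g : G // P i g} := by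
    rw [← Nat.card_pi]
    exact Nat.card_congr (Equiv.subtypePiEquivPi (p := P))
  have h3 : (Nat.card (ι → G) : ℝ) = ∏ _i : ι, (Nat.card G : ℝ) := by
    rw [Nat.card_pi]
    push_cast
    rfl
  have h4 : (∏ _i : ι, (Nat.card G : ℝ)) ≠ 0 := Finset.prod_ne_zero_iff.mpr (fun _ _ => hG)
  rw [h3] at h1
  apply mul_right_cancel₀ h4
  rw [h1, h2, ← Finset.prod_mul_distrib]
  push_cast
  refine Finset.prod_congr rfl (fun i _ => ?_)
  exact (frac_eq_card (P i)).symm

theorem frac_constraints {M n : ℕ} {J : Type} [Fintype J] (k : J → Fin M) (s s' : J → Fin n)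
    (hinj : ∀ j j', k j = k j' → s j = s j' → s' j = s' j' → j = j') (hJ : Fintype.card J + 2 ≤ n) :
    frac (fun x : Fin M → Alt n => ∀ j, (x (k j) : Equiv.Perm (Fin n)) (s j) = s' j) ≤
      (1 / ((n : ℝ) - Fintype.card J)) ^ Fintype.card J := by
  classical
  have hn : (0 : ℝ) ≤ 1 / ((n : ℝ) - Fintype.card J) := by
    have : ((Fintype.card J : ℕ) : ℝ) + 2 ≤ (n : ℝ) := by exact_mod_cast hJ
    apply div_nonneg zero_le_one
    linarith
  have e1 : (fun x : Fin M → Alt n => ∀ j, (x (k j) : Equiv.Perm (Fin n)) (s j) = s' j) =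
      (fun x : Fin M → Alt n => ∀ i, (fun (i : Fin M) (g : Alt n) =>
        ∀ j : {j : J // k j = i}, (g : Equiv.Perm (Fin n)) (s j) = s' j) i (x i)) := by
    funext x
    apply propext
    constructor
    · rintro h i ⟨j, hj⟩
      have := h j
      rw [hj] at this
      exact this
    · intro h j
      exact h (k j) ⟨j, rfl⟩
  rw [e1, VF3_frac_pi (ι := Fin M) (G := Alt n) (fun (i : Fin M) (g : Alt n) =>
        ∀ j : {j : J // k j = i}, (g : Equiv.Perm (Fin n)) (s j) = s' j)]
  have hc : ∑ i : Fin M, Fintype.card {j : J // k j = i} = Fintype.card J := by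
    rw [← Fintype.card_sigma]
    exact Fintype.card_congr (Equiv.sigmaFiberEquiv k)
  calc ∏ i : Fin M, frac (fun g : Alt n => ∀ j : {j : J // k j = i}, (g : Equiv.Perm (Fin n)) (s j) = s' j)
      ≤ ∏ i : Fin M, (1 / ((n : ℝ) - Fintype.card J)) ^ Fintype.card {j : J // k j = i} := by
        refine Finset.prod_le_prod (fun i _ => frac_nonneg _) (fun i _ => ?_)
        refine frac_one_perm (fun j : {j : J // k j = i} => s j) (fun j => s' j) ?_ (Fintype.card J) ?_ hJ
        · rintro ⟨j, hj⟩ ⟨j', hj'⟩ h h'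
          exact Subtype.ext (hinj j j' (hj.trans hj'.symm) h h')
        · exact Fintype.card_subtype_le _
    _ = (1 / ((n : ℝ) - Fintype.card J)) ^ Fintype.card J := by
        rw [Finset.prod_pow_eq_pow_sum, hc]

end Pool.Agent.BC5
end

section
set_option autoImplicit false
set_option linter.unusedSectionVars false
set_option linter.unusedVariables false
open scoped BigOperators Matrix
open Matrix
namespace Pool.Agent.BC5


theorem VF4_fin (r : ℕ) (a a' : Fin (r + 1)) (h1 : a = a' + 1) (h2 : a' = a + 1) :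
    a = a' ∨ (r = 1 ∧ ((a.val = 0 ∧ a'.val = 1) ∨ (a.val = 1 ∧ a'.val = 0))) := by
  rcases Nat.eq_zero_or_pos r with hr | hr
  · subst hr
    left
    apply Fin.ext
    have l1 := a.isLt
    have l2 := a'.isLt
    omega
  · right
    have e1 := congrArg Fin.val h1
    have e2 := congrArg Fin.val h2
    rw [Fin.val_add, Fin.val_one', Nat.mod_eq_of_lt (by omega : 1 < r + 1)] at e1 e2
    have l1 := a.isLt
    have l2 := a'.isLt
    rcases Nat.lt_or_ge (a'.val + 1) (r + 1) with h | h
    · rw [Nat.mod_eq_of_lt h] at e1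
      rcases Nat.lt_or_ge (a.val + 1) (r + 1) with g | g
      · rw [Nat.mod_eq_of_lt g] at e2
        omega
      · have : a.val + 1 = r + 1 := by omega
        rw [this, Nat.mod_self] at e2
        omega
    · have h3 : a'.val + 1 = r + 1 := by omega
      rw [h3, Nat.mod_self] at e1
      rw [e1, Nat.zero_add, Nat.mod_eq_of_lt (by omega : 1 < r + 1)] at e2
      omega

theorem VF4_opp {M n h t : ℕ} (b : ℕ → Fin M × Bool) (hb : RedW b t) (τ : Fin h → ℕ × ℕ)
    (hτ : ∀ c, τ c ∈ TT t) (j j' : Σ c : Fin h, Fin ((τ c).2 + 1))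
    (hk : (b ((τ j.1).1 + j.2)).1 = (b ((τ j'.1).1 + j'.2)).1)
    (ht : (b ((τ j.1).1 + j.2)).2 = true) (hf : (b ((τ j'.1).1 + j'.2)).2 = false)
    (h1 : j = ⟨j'.1, j'.2 + 1⟩) (h2 : j' = ⟨j.1, j.2 + 1⟩) : False := by
  obtain ⟨c, a⟩ := j
  obtain ⟨c', a'⟩ := j'
  have hc : c = c' := congrArg Sigma.fst h1
  subst hc
  have h1' : a = a' + 1 := by
    have := h1
    rw [Sigma.mk.inj_iff] at this
    exact eq_of_heq this.2
  have h2' : a' = a + 1 := by
    have := h2
    rw [Sigma.mk.inj_iff] at this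
    exact eq_of_heq this.2
  simp only at hk ht hf
  have hT := (mem_TT t (τ c)).1 (hτ c)
  rcases VF4_fin _ a a' h1' h2' with h | ⟨hr, h | h⟩
  · subst h
    rw [ht] at hf
    exact absurd hf (by simp)
  · rw [h.1] at hk ht
    rw [h.2] at hk hf
    apply hb (τ c).1 (by omega)
    apply Prod.ext
    · exact hk.symm
    · rw [Nat.add_zero] at ht
      simp only
      rw [hf, ht]
      rfl
  · rw [h.1] at hk ht
    rw [h.2] at hk hf
    apply hb (τ c).1 (by omega)
    apply Prod.ext
    · exact hk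
    · rw [Nat.add_zero] at hf
      simp only
      rw [ht, hf]
      rfl

theorem VF4_one {M n h t : ℕ} (b : ℕ → Fin M × Bool) (hb : RedW b t) (τ : Fin h → ℕ × ℕ)
    (hτ : ∀ c, τ c ∈ TT t) (v : (Σ c : Fin h, Fin ((τ c).2 + 1)) → Fin n)
    (hn : Fintype.card (Σ c : Fin h, Fin ((τ c).2 + 1)) + 2 ≤ n) :
    frac (fun x : Fin M → Alt n => CycC x b τ v) ≤
      (1 / ((n : ℝ) - Fintype.card (Σ c : Fin h, Fin ((τ c).2 + 1)))) ^ Fintype.card (Σ c : Fin h, Fin ((τ c).2 + 1)) := by
  have hpos : (0:ℝ) < (n : ℝ) - Fintype.card (Σ c : Fin h, Fin ((τ c).2 + 1)) := by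
    have : ((Fintype.card (Σ c : Fin h, Fin ((τ c).2 + 1)) + 2 : ℕ) : ℝ) ≤ n := by exact_mod_cast hn
    push_cast at this
    linarith
  by_cases hv : Function.Injective v
  · set k : (Σ c : Fin h, Fin ((τ c).2 + 1)) → Fin M := fun j => (b ((τ j.1).1 + j.2)).1 with hkdef
    set s : (Σ c : Fin h, Fin ((τ c).2 + 1)) → Fin n :=
      fun j => if (b ((τ j.1).1 + j.2)).2 = true then v j else v ⟨j.1, j.2 + 1⟩ with hsdef
    set s' : (Σ c : Fin h, Fin ((τ c).2 + 1)) → Fin n :=
      fun j => if (b ((τ j.1).1 + j.2)).2 = true then v ⟨j.1, j.2 + 1⟩ else v j with hs'def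
    have hinj : ∀ j j', k j = k j' → s j = s j' → s' j = s' j' → j = j' := by
      intro j j' h1 h2 h3
      simp only [hkdef] at h1
      simp only [hsdef] at h2
      simp only [hs'def] at h3
      rcases Bool.eq_false_or_eq_true (b ((τ j.1).1 + j.2)).2 with e | e <;>
        rcases Bool.eq_false_or_eq_true (b ((τ j'.1).1 + j'.2)).2 with e' | e'
      · rw [if_pos e, if_pos e'] at h2
        exact hv h2
      · rw [if_pos e, if_neg (by rw [e']; simp)] at h2
        rw [if_pos e, if_neg (by rw [e']; simp)] at h3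
        exact (VF4_opp (n := n) b hb τ hτ j j' h1 e e' (hv h2) (hv h3).symm).elim
      · rw [if_neg (by rw [e]; simp), if_pos e'] at h2
        rw [if_neg (by rw [e]; simp), if_pos e'] at h3
        exact (VF4_opp (n := n) b hb τ hτ j' j h1.symm e' e (hv h2).symm (hv h3)).elim
      · rw [if_neg (by rw [e]; simp), if_neg (by rw [e']; simp)] at h3
        exact hv h3
    refine (frac_mono ?_).trans (frac_constraints k s s' hinj hn)
    intro x hx j
    have h0 := hx.2 j.1 j.2
    simp only [hkdef, hsdef, hs'def]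
    unfold letv at h0
    rcases Bool.eq_false_or_eq_true (b ((τ j.1).1 + j.2)).2 with e | e
    · rw [if_pos e] at h0
      rw [if_pos e, if_pos e]
      exact h0
    · rw [if_neg (by rw [e]; simp)] at h0
      rw [if_neg (by rw [e]; simp), if_neg (by rw [e]; simp)]
      rw [Subgroup.coe_inv, Equiv.Perm.inv_eq_iff_eq] at h0
      exact h0.symm
  · have h0 : frac (fun x : Fin M → Alt n => CycC x b τ v) ≤ frac (fun _ : Fin M → Alt n => False) :=
      frac_mono (fun x hx => hv hx.1)
    rw [N10_false] at h0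
    exact h0.trans (by positivity)

theorem avg_cycles_le {M n h t : ℕ} (b : ℕ → Fin M × Bool) (hb : RedW b t) (τ : Fin h → ℕ × ℕ)
    (hτ : ∀ c, τ c ∈ TT t) (hn : 2 * (h * t) + 4 ≤ n) :
    avg (fun x : Fin M → Alt n => (Nat.card {v : (Σ c : Fin h, Fin ((τ c).2 + 1)) → Fin n // CycC x b τ v} : ℝ)) ≤
      Real.exp (2 * ((h : ℝ) * t) ^ 2 / n) := by
  classical
  set ρ : ℕ := Fintype.card (Σ c : Fin h, Fin ((τ c).2 + 1)) with hρ
  have hρle : ρ ≤ h * t := by
    rw [hρ, Fintype.card_sigma]
    calc ∑ c : Fin h, Fintype.card (Fin ((τ c).2 + 1)) ≤ ∑ _c : Fin h, t := by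
          refine Finset.sum_le_sum fun c _ => ?_
          rw [Fintype.card_fin]
          have := (mem_TT t (τ c)).1 (hτ c)
          omega
      _ = h * t := by simp
  have hn2 : ρ + 2 ≤ n := by omega
  have hnR : (0:ℝ) < n := by
    have : 0 < n := by omega
    exact_mod_cast this
  have h2ρ : 2 * (ρ : ℝ) ≤ n := by
    have : 2 * ρ ≤ n := by omega
    exact_mod_cast this
  have hpos : (0:ℝ) < (n : ℝ) - ρ := by
    have : ((ρ + 2 : ℕ) : ℝ) ≤ n := by exact_mod_cast hn2
    push_cast at this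
    linarith
  have hρht : (ρ : ℝ) ≤ (h : ℝ) * t := by exact_mod_cast hρle
  have h1 : avg (fun x : Fin M → Alt n =>
      (Nat.card {v : (Σ c : Fin h, Fin ((τ c).2 + 1)) → Fin n // CycC x b τ v} : ℝ)) =
      ∑ v : (Σ c : Fin h, Fin ((τ c).2 + 1)) → Fin n, frac (fun x : Fin M → Alt n => CycC x b τ v) := by
    unfold frac
    rw [← avg_sum]
    congr 1
    funext x
    rw [Nat.card_eq_fintype_card, Fintype.card_subtype, Finset.sum_boole]
  rw [h1]
  calc ∑ v : (Σ c : Fin h, Fin ((τ c).2 + 1)) → Fin n, frac (fun x : Fin M → Alt n => CycC x b τ v)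
      ≤ ∑ _v : (Σ c : Fin h, Fin ((τ c).2 + 1)) → Fin n, (1 / ((n : ℝ) - ρ)) ^ ρ :=
        Finset.sum_le_sum fun v _ => VF4_one b hb τ hτ v hn2
    _ = ((n : ℝ) / ((n : ℝ) - ρ)) ^ ρ := by
        rw [Finset.sum_const, Finset.card_univ, Fintype.card_fun, Fintype.card_fin, ← hρ, nsmul_eq_mul,
          Nat.cast_pow, ← mul_pow, mul_one_div]
    _ ≤ (Real.exp (2 * ρ / n)) ^ ρ := by
        refine pow_le_pow_left₀ (by positivity) ?_ ρ
        have h3 : (n : ℝ) / ((n : ℝ) - ρ) ≤ 2 * ρ / n + 1 := by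
          rw [div_le_iff₀ hpos]
          have h4 : (2 * (ρ : ℝ) / n + 1) * ((n : ℝ) - ρ) = n + ρ * (n - 2 * ρ) / n := by
            field_simp
            ring
          rw [h4]
          have h5 : (0:ℝ) ≤ ρ * (n - 2 * ρ) / n := by
            apply div_nonneg _ hnR.le
            apply mul_nonneg (by positivity)
            linarith
          linarith
        exact h3.trans (Real.add_one_le_exp _)
    _ = Real.exp (2 * (ρ : ℝ) ^ 2 / n) := by
        rw [← Real.exp_nat_mul]
        congr 1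
        ring
    _ ≤ Real.exp (2 * ((h : ℝ) * t) ^ 2 / n) := by
        apply Real.exp_le_exp.2
        apply div_le_div_of_nonneg_right _ hnR.le
        have : (ρ : ℝ) ^ 2 ≤ ((h : ℝ) * t) ^ 2 := pow_le_pow_left₀ (by positivity) hρht 2
        linarith

end Pool.Agent.BC5
end

section
set_option autoImplicit false
set_option linter.unusedSectionVars false
set_option linter.unusedVariables false
open scoped BigOperators Matrix
open Matrix
namespace Pool.Agent.BC5


theorem walk_injective {M n : ℕ} (x : Fin M → Alt n) (b : ℕ → Fin M × Bool) (j : ℕ) :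
    Function.Injective (fun p : Fin n => walk x b p j) := by
  induction j with
  | zero => exact fun p q h => h
  | succ j ih =>
    intro p q h
    exact ih (((letv x (b j) : Alt n) : Equiv.Perm (Fin n)).injective h)

theorem VF5_step {M n : ℕ} (x : Fin M → Alt n) (b : ℕ → Fin M × Bool) (p : Fin n) (i ρ : ℕ)
    (hclose : walk x b p (i + (ρ + 1)) = walk x b p i) (a : Fin (ρ + 1)) :
    ((letv x (b (i + a)) : Alt n) : Equiv.Perm (Fin n)) (walk x b p (i + a)) =
      walk x b p (i + ((a + 1 : Fin (ρ + 1)) : ℕ)) := by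
  have h1 : ((letv x (b (i + a)) : Alt n) : Equiv.Perm (Fin n)) (walk x b p (i + a)) =
      walk x b p (i + a + 1) := rfl
  rw [h1]
  rcases lt_or_eq_of_le (Fin.le_last a) with h | h
  · rw [Fin.val_add_one_of_lt h, add_assoc]
  · subst h
    rw [Fin.last_add_one, Fin.val_zero, Fin.val_last, add_zero, add_assoc]
    exact hclose

theorem VF5_rel {M n t : ℕ} (x : Fin M → Alt n) (b : ℕ → Fin M × Bool)
    (i ρ : {p : Fin n // walk x b p t = p} → ℕ) (hi : ∀ p, i p + (ρ p + 1) ≤ t)
    (p : {p : Fin n // walk x b p t = p}) :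
    Nat.card {p' : {p : Fin n // walk x b p t = p} // ∃ a a', a < ρ p + 1 ∧ a' < ρ p' + 1 ∧
      walk x b p.1 (i p + a) = walk x b p'.1 (i p' + a')} ≤ t ^ 2 := by
  classical
  have hch : ∀ q : {p' : {p : Fin n // walk x b p t = p} // ∃ a a', a < ρ p + 1 ∧ a' < ρ p' + 1 ∧
      walk x b p.1 (i p + a) = walk x b p'.1 (i p' + a')}, ∃ z : Fin t × Fin t,
      walk x b p.1 z.1 = walk x b q.1.1 z.2 := by
    rintro ⟨p', a, a', ha, ha', h⟩
    have h1 := hi p
    have h2 := hi p'
    exact ⟨(⟨i p + a, by omega⟩, ⟨i p' + a', by omega⟩), h⟩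
  choose g hg using hch
  have hinj : Function.Injective g := by
    intro q q' h
    have h1 := hg q
    have h2 := hg q'
    rw [← h] at h2
    have h3 : walk x b q.1.1 (g q).2 = walk x b q'.1.1 (g q).2 := h1.symm.trans h2
    exact Subtype.ext (Subtype.ext (walk_injective x b _ h3))
  have h := Nat.card_le_card_of_injective g hinj
  rw [Nat.card_prod, Nat.card_fin] at h
  rw [sq]
  exact h

theorem cycles_ge {M n h t F : ℕ} (x : Fin M → Alt n) (b : ℕ → Fin M × Bool) (ht : 1 ≤ t) (hF : h * t ^ 2 ≤ F)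
    (hfix : F ≤ Nat.card {p : Fin n // walk x b p t = p}) :
    (F - h * t ^ 2) ^ h ≤ ∑ τ ∈ Fintype.piFinset (fun _ : Fin h => TT t),
      Nat.card {v : (Σ c : Fin h, Fin ((τ c).2 + 1)) → Fin n // CycC x b τ v} := by
  classical
  have hex : ∀ p : {p : Fin n // walk x b p t = p}, ∃ i ρ : ℕ, i + (ρ + 1) ≤ t ∧
      walk x b p.1 (i + (ρ + 1)) = walk x b p.1 i ∧
      ∀ a c, a < ρ + 1 → c < ρ + 1 → walk x b p.1 (i + a) = walk x b p.1 (i + c) → a = c := by
    intro p
    obtain ⟨i, r, hr, h1, h2, h3⟩ := exists_simple_cycle (walk x b p.1) t ht p.2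
    obtain ⟨ρ, rfl⟩ : ∃ ρ, r = ρ + 1 := ⟨r - 1, by omega⟩
    exact ⟨i, ρ, h1, h2, h3⟩
  choose i ρ hi hclose hsimple using hex
  have hgr := greedy_count (fun p p' : {p : Fin n // walk x b p t = p} =>
    ∃ a a', a < ρ p + 1 ∧ a' < ρ p' + 1 ∧ walk x b p.1 (i p + a) = walk x b p'.1 (i p' + a'))
    (t ^ 2) h (VF5_rel x b i ρ hi) (hF.trans hfix)
  refine le_trans (Nat.pow_le_pow_left (Nat.sub_le_sub_right hfix _) h) (hgr.trans ?_)
  rw [← Finset.sum_coe_sort, ← Nat.card_sigma]
  let g : {f : Fin h → {p : Fin n // walk x b p t = p} // ∀ c c', c < c' →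
      ¬ ∃ a a', a < ρ (f c) + 1 ∧ a' < ρ (f c') + 1 ∧
        walk x b (f c).1 (i (f c) + a) = walk x b (f c').1 (i (f c') + a')} →
      (Σ τ : ↥(Fintype.piFinset (fun _ : Fin h => TT t)),
        {v : (Σ c : Fin h, Fin ((τ.1 c).2 + 1)) → Fin n // CycC x b τ.1 v}) := fun f =>
    ⟨⟨fun c => (i (f.1 c), ρ (f.1 c)), by
        rw [Fintype.mem_piFinset]
        intro c
        rw [mem_TT]
        have := hi (f.1 c)
        omega⟩,
      ⟨fun s => walk x b (f.1 s.1).1 (i (f.1 s.1) + s.2), by
        refine ⟨?_, ?_⟩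
        · rintro ⟨c, a⟩ ⟨c', a'⟩ hvv
          rcases lt_trichotomy c c' with hc | hc | hc
          · exact absurd ⟨a, a', a.2, a'.2, hvv⟩ (f.2 c c' hc)
          · subst hc
            have := hsimple (f.1 c) a a' a.2 a'.2 hvv
            rw [Fin.ext this]
          · exact absurd ⟨a', a, a'.2, a.2, hvv.symm⟩ (f.2 c' c hc)
        · intro c a
          exact VF5_step x b (f.1 c).1 (i (f.1 c)) (ρ (f.1 c)) (hclose (f.1 c)) a⟩⟩
  have hg : Function.Injective g := by
    intro f f' hff
    have h1 : ∀ c, ((g f).1.1 c, (g f).2.1 ⟨c, 0⟩) = ((g f').1.1 c, (g f').2.1 ⟨c, 0⟩) := by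
      intro c
      rw [hff]
    apply Subtype.ext
    funext c
    have h2 := h1 c
    rw [Prod.ext_iff] at h2
    obtain ⟨h3, h4⟩ := h2
    have h5 : i (f.1 c) = i (f'.1 c) := congrArg Prod.fst h3
    have h6 : walk x b (f.1 c).1 (i (f.1 c) + 0) = walk x b (f'.1 c).1 (i (f'.1 c) + 0) := h4
    rw [← h5] at h6
    exact Subtype.ext (walk_injective x b _ h6)
  exact Nat.card_le_card_of_injective g hg

end Pool.Agent.BC5
end

section
set_option autoImplicit false
set_option linter.unusedSectionVars false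
set_option linter.unusedVariables false
open scoped BigOperators Matrix
open Matrix
namespace Pool.Agent.BC5


theorem frac_walk_fix {M n h t F : ℕ} (b : ℕ → Fin M × Bool) (hb : RedW b t) (ht : 1 ≤ t) (hF1 : 1 ≤ F)
    (hF : 2 * (h * t ^ 2) ≤ F) (hn : 2 * (h * t) + 4 ≤ n) :
    frac (fun x : Fin M → Alt n => F ≤ Nat.card {p : Fin n // walk x b p t = p}) ≤
      (2 * (t : ℝ) ^ 2 / F) ^ h * Real.exp (2 * ((h : ℝ) * t) ^ 2 / n) := by
  have hFpos : (0 : ℝ) < F := by exact_mod_cast hF1
  have hc : (0 : ℝ) < ((F : ℝ) / 2) ^ h := by positivity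
  have hle : h * t ^ 2 ≤ F := by omega
  have h1 := frac_le_avg_div (P := fun x : Fin M → Alt n => F ≤ Nat.card {p : Fin n // walk x b p t = p})
    (f := fun x : Fin M → Alt n => ∑ τ ∈ Fintype.piFinset (fun _ : Fin h => TT t),
      (Nat.card {v : (Σ c : Fin h, Fin ((τ c).2 + 1)) → Fin n // CycC x b τ v} : ℝ))
    hc (fun x => Finset.sum_nonneg fun τ _ => Nat.cast_nonneg _) (by
      intro x hx
      have h2 := cycles_ge x b ht hle hx
      have h3 : (((F - h * t ^ 2 : ℕ) : ℝ)) ^ h ≤ ∑ τ ∈ Fintype.piFinset (fun _ : Fin h => TT t),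
          (Nat.card {v : (Σ c : Fin h, Fin ((τ c).2 + 1)) → Fin n // CycC x b τ v} : ℝ) := by
        exact_mod_cast h2
      refine le_trans ?_ h3
      apply pow_le_pow_left₀ (by positivity)
      rw [Nat.cast_sub hle]
      have h4 : (2 : ℝ) * ((h * t ^ 2 : ℕ) : ℝ) ≤ F := by exact_mod_cast hF
      linarith)
  refine h1.trans ?_
  rw [avg_sum]
  have h5 : ∑ τ ∈ Fintype.piFinset (fun _ : Fin h => TT t),
      avg (fun x : Fin M → Alt n =>
        (Nat.card {v : (Σ c : Fin h, Fin ((τ c).2 + 1)) → Fin n // CycC x b τ v} : ℝ)) ≤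
      ((t : ℝ) ^ 2) ^ h * Real.exp (2 * ((h : ℝ) * t) ^ 2 / n) := by
    calc ∑ τ ∈ Fintype.piFinset (fun _ : Fin h => TT t),
          avg (fun x : Fin M → Alt n =>
            (Nat.card {v : (Σ c : Fin h, Fin ((τ c).2 + 1)) → Fin n // CycC x b τ v} : ℝ))
        ≤ ∑ τ ∈ Fintype.piFinset (fun _ : Fin h => TT t),
          Real.exp (2 * ((h : ℝ) * t) ^ 2 / n) := by
          refine Finset.sum_le_sum fun τ hτ => ?_
          exact avg_cycles_le b hb τ (fun c => Fintype.mem_piFinset.mp hτ c) hn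
      _ = ((TT t).card : ℝ) ^ h * Real.exp (2 * ((h : ℝ) * t) ^ 2 / n) := by
          rw [Finset.sum_const, Fintype.card_piFinset]
          simp
      _ ≤ _ := by
          apply mul_le_mul_of_nonneg_right _ (Real.exp_pos _).le
          apply pow_le_pow_left₀ (Nat.cast_nonneg _)
          exact_mod_cast TT_card t
  rw [div_le_iff₀ hc]
  refine h5.trans (le_of_eq ?_)
  have h6 : ((2 * (t : ℝ) ^ 2 / F)) ^ h * ((F : ℝ) / 2) ^ h = ((t : ℝ) ^ 2) ^ h := by
    rw [← mul_pow]
    congr 1
    field_simp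
  calc ((t : ℝ) ^ 2) ^ h * Real.exp (2 * ((h : ℝ) * t) ^ 2 / n)
      = ((2 * (t : ℝ) ^ 2 / F)) ^ h * ((F : ℝ) / 2) ^ h * Real.exp (2 * ((h : ℝ) * t) ^ 2 / n) := by
        rw [h6]
    _ = _ := by ring

theorem VF6_walk {M n : ℕ} (x : Fin M → Alt n) (L : List (Fin M × Bool)) (d : Fin M × Bool) (p : Fin n)
    (j : ℕ) (hj : j ≤ L.length) :
    walk x (fun j => L.getD (L.length - 1 - j) d) p j =
      ((((L.drop (L.length - j)).map (letv x)).prod : Alt n) : Equiv.Perm (Fin n)) p := by
  induction j with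
  | zero => simp [walk]
  | succ j ih =>
    have h1 : L.drop (L.length - (j + 1)) =
        L.getD (L.length - 1 - j) d :: L.drop (L.length - j) := by
      have h2 : L.length - (j + 1) < L.length := by omega
      rw [List.drop_eq_getElem_cons h2]
      have h3 : L.length - (j + 1) + 1 = L.length - j := by omega
      have h4 : L.length - 1 - j = L.length - (j + 1) := by omega
      rw [h3, h4, List.getD_eq_getElem L d h2]
    rw [h1, List.map_cons, List.prod_cons, walk, ih (by omega)]
    rfl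

theorem VF6_fixc {M n : ℕ} (x : Fin M → Alt n) (γ : FreeGroup (Fin M)) (d : Fin M × Bool) :
    Nat.card {p : Fin n // walk x (fun j => γ.toWord.getD (γ.norm - 1 - j) d) p γ.norm = p} =
      fixc (FreeGroup.lift x γ) := by
  have h1 : ∀ p : Fin n, walk x (fun j => γ.toWord.getD (γ.norm - 1 - j) d) p γ.norm =
      ((FreeGroup.lift x γ : Alt n) : Equiv.Perm (Fin n)) p := by
    intro p
    have h2 := VF6_walk x γ.toWord d p γ.norm le_rfl
    have h3 : γ.toWord.length - γ.norm = 0 := by
      unfold FreeGroup.norm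
      omega
    rw [h3, List.drop_zero] at h2
    have h4 : (γ.toWord.map (letv x)).prod = FreeGroup.lift x γ := by
      conv_rhs => rw [← FreeGroup.mk_toWord (x := γ), FreeGroup.lift_mk]
      congr 1
      apply List.map_congr_left
      intro c _
      unfold letv
      cases c.2 <;> simp
    rw [h4] at h2
    exact h2
  unfold fixc
  rw [Nat.card_eq_fintype_card, Fintype.card_subtype]
  congr 1
  ext p
  simp only [Finset.mem_filter, Finset.mem_univ, true_and]
  rw [h1 p]

theorem VF6_red {M : ℕ} (γ : FreeGroup (Fin M)) (d : Fin M × Bool) :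
    RedW (fun j => γ.toWord.getD (γ.norm - 1 - j) d) γ.norm := by
  intro j hj heq
  have hlen : γ.norm = γ.toWord.length := rfl
  have h1 : γ.norm - 1 - (j + 1) + 1 < γ.toWord.length := by omega
  have h2 : FreeGroup.IsReduced γ.toWord := FreeGroup.isReduced_toWord
  have h3 := (List.isChain_iff_getElem.mp h2) (γ.norm - 1 - (j + 1)) (by omega)
  have h4 : γ.norm - 1 - j = γ.norm - 1 - (j + 1) + 1 := by omega
  simp only at heq
  rw [h4, List.getD_eq_getElem _ d (by omega), List.getD_eq_getElem _ d h1] at heq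
  have h5 : γ.toWord[γ.norm - 1 - (j + 1)].1 = γ.toWord[γ.norm - 1 - (j + 1) + 1].1 := by
    rw [heq]
  have h6 := h3 h5
  rw [heq] at h6
  simp at h6

theorem frac_word_fix {M n h t F : ℕ} (γ : FreeGroup (Fin M)) (hγ : γ ≠ 1) (ht : γ.norm ≤ t) (hF1 : 1 ≤ F)
    (hF : 2 * (h * t ^ 2) ≤ F) (hn : 2 * (h * t) + 4 ≤ n) :
    frac (fun x : Fin M → Alt n => F ≤ fixc (FreeGroup.lift x γ)) ≤
      (2 * (t : ℝ) ^ 2 / F) ^ h * Real.exp (2 * ((h : ℝ) * t) ^ 2 / n) := by
  have hnorm : 1 ≤ γ.norm := by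
    rcases Nat.eq_zero_or_pos γ.norm with h0 | h0
    · exact absurd (FreeGroup.norm_eq_zero.mp h0) hγ
    · exact h0
  have hne : γ.toWord ≠ [] := by
    intro h0
    have : γ.norm = 0 := by unfold FreeGroup.norm; rw [h0]; rfl
    omega
  have hFpos : (0 : ℝ) < F := by exact_mod_cast hF1
  have hnpos : (0 : ℝ) < n := by
    have : 0 < n := by omega
    exact_mod_cast this
  have hF' : 2 * (h * γ.norm ^ 2) ≤ F := by
    have h1 : h * γ.norm ^ 2 ≤ h * t ^ 2 := Nat.mul_le_mul_left _ (Nat.pow_le_pow_left ht 2)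
    omega
  have hn' : 2 * (h * γ.norm) + 4 ≤ n := by
    have h1 : h * γ.norm ≤ h * t := Nat.mul_le_mul_left _ ht
    omega
  have h1 := frac_walk_fix (M := M) (n := n) (h := h) (t := γ.norm) (F := F)
    (fun j => γ.toWord.getD (γ.norm - 1 - j) (γ.toWord.head hne)) (VF6_red γ _) hnorm hF1 hF' hn'
  have h2 : frac (fun x : Fin M → Alt n => F ≤ fixc (FreeGroup.lift x γ)) ≤
      frac (fun x : Fin M → Alt n => F ≤ Nat.card {p : Fin n // walk x
        (fun j => γ.toWord.getD (γ.norm - 1 - j) (γ.toWord.head hne)) p γ.norm = p}) := by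
    apply frac_mono
    intro x hx
    rw [VF6_fixc]
    exact hx
  refine h2.trans (h1.trans ?_)
  have ht' : (γ.norm : ℝ) ≤ t := by exact_mod_cast ht
  apply mul_le_mul
  · apply pow_le_pow_left₀ (by positivity)
    apply div_le_div_of_nonneg_right _ hFpos.le
    gcongr
  · apply Real.exp_le_exp.mpr
    apply div_le_div_of_nonneg_right _ hnpos.le
    gcongr
  · exact (Real.exp_pos _).le
  · positivity

end Pool.Agent.BC5
end

section
set_option autoImplicit false
set_option linter.unusedSectionVars false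
set_option linter.unusedVariables false
open scoped BigOperators Matrix
open Matrix
namespace Pool.Agent.BC5


theorem letter_norm {M : ℕ} (γ : FreeGroup (Fin M)) (c : Fin M × Bool) :
    ((FreeGroup.mk [c])⁻¹ * γ).norm = γ.norm + 1 ∨
      (((FreeGroup.mk [c])⁻¹ * γ).norm + 1 = γ.norm ∧ γ.toWord.head? = some c) := by
  have h1 : ((FreeGroup.mk [c])⁻¹ * γ).toWord = FreeGroup.reduce ((c.1, !c.2) :: γ.toWord) := by
    have h2 : (FreeGroup.mk [c])⁻¹ * γ = FreeGroup.mk ((c.1, !c.2) :: γ.toWord) := by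
      conv_lhs => rw [← FreeGroup.mk_toWord (x := γ)]
      rw [FreeGroup.inv_mk, FreeGroup.mul_mk]
      rfl
    rw [h2, FreeGroup.toWord_mk]
  have h3 := FreeGroup.reduce_toWord γ
  unfold FreeGroup.norm
  rw [h1, FreeGroup.reduce.cons, h3]
  rcases hw : γ.toWord with _ | ⟨hd, tl⟩
  · left; rfl
  · dsimp only
    split_ifs with h
    · right
      refine ⟨rfl, ?_⟩
      obtain ⟨e1, e2⟩ := h
      rw [List.head?_cons]
      congr 1
      refine Prod.ext e1.symm ?_
      revert e2
      generalize c.2 = x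
      generalize hd.2 = y
      revert x y
      decide
    · left; rfl

theorem VW1_equiv {M p : ℕ} (γ : FreeGroup (Fin M)) :
    Nat.card {a : Fin (p + 1) → Fin M × Bool // FreeGroup.mk (List.ofFn a) = γ} =
      ∑ c : Fin M × Bool, Nat.card {a : Fin p → Fin M × Bool //
        FreeGroup.mk (List.ofFn a) = (FreeGroup.mk [c])⁻¹ * γ} := by
  classical
  rw [← Nat.card_sigma]
  have key : ∀ (c : Fin M × Bool) (a : Fin p → Fin M × Bool),
      FreeGroup.mk (List.ofFn (Fin.cons c a : Fin (p + 1) → Fin M × Bool)) = γ ↔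
        FreeGroup.mk (List.ofFn a) = (FreeGroup.mk [c])⁻¹ * γ := by
    intro c a
    rw [List.ofFn_cons, eq_inv_mul_iff_mul_eq, FreeGroup.mul_mk]
    rfl
  apply Nat.card_congr
  refine
    { toFun := fun a => ⟨a.1 0, ⟨Fin.tail a.1, (key _ _).1 (by rw [Fin.cons_self_tail]; exact a.2)⟩⟩
      invFun := fun s => ⟨Fin.cons s.1 s.2.1, (key _ _).2 s.2.2⟩
      left_inv := fun a => Subtype.ext (Fin.cons_self_tail a.1)
      right_inv := ?_ }
  rintro ⟨c, a, h⟩
  rfl

theorem word_count {M : ℕ} (hM : 1 ≤ M) (p : ℕ) (γ : FreeGroup (Fin M)) :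
    (Nat.card {a : Fin p → Fin M × Bool // FreeGroup.mk (List.ofFn a) = γ} : ℝ) * (Real.sqrt (2 * M)) ^ γ.norm
      ≤ 2 ^ p * (Real.sqrt (2 * M)) ^ p := by
  have hM' : (1 : ℝ) ≤ M := by exact_mod_cast hM
  have hs : 0 < Real.sqrt (2 * M) := Real.sqrt_pos.2 (by linarith)
  have hs2 : Real.sqrt (2 * M) * Real.sqrt (2 * M) = 2 * M := Real.mul_self_sqrt (by linarith)
  set s := Real.sqrt (2 * M) with hsdef
  clear_value s
  induction p generalizing γ with
  | zero =>
    rcases eq_or_ne γ 1 with rfl | hγ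
    · rw [FreeGroup.norm_one, pow_zero, pow_zero, mul_one, mul_one]
      have : Subsingleton {a : Fin 0 → Fin M × Bool // FreeGroup.mk (List.ofFn a) = 1} :=
        ⟨fun a b => Subtype.ext (Subsingleton.elim _ _)⟩
      exact_mod_cast Finite.card_le_one_iff_subsingleton.2 this
    · have : IsEmpty {a : Fin 0 → Fin M × Bool // FreeGroup.mk (List.ofFn a) = γ} :=
        ⟨fun a => hγ (by rw [← a.2, List.ofFn_zero]; rfl)⟩
      rw [Nat.card_of_isEmpty, Nat.cast_zero, zero_mul]
      positivity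
  | succ p ih =>
    classical
    rw [VW1_equiv, Nat.cast_sum, Finset.sum_mul]
    have hC : 0 < 2 ^ p * s ^ p := by positivity
    have step : ∀ c : Fin M × Bool, (Nat.card {a : Fin p → Fin M × Bool //
        FreeGroup.mk (List.ofFn a) = (FreeGroup.mk [c])⁻¹ * γ} : ℝ) * s ^ γ.norm ≤
        2 ^ p * s ^ p * (s⁻¹ + if γ.toWord.head? = some c then s else 0) := by
      intro c
      have h := ih ((FreeGroup.mk [c])⁻¹ * γ)
      rcases letter_norm γ c with e | ⟨e, e'⟩
      · rw [e, pow_succ, ← mul_assoc] at h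
        have h2 := mul_le_mul_of_nonneg_right h (inv_nonneg.2 hs.le)
        rw [mul_assoc _ s, mul_inv_cancel₀ hs.ne', mul_one] at h2
        refine h2.trans (mul_le_mul_of_nonneg_left ?_ hC.le)
        split_ifs <;> linarith
      · rw [if_pos e', ← e, pow_succ, ← mul_assoc]
        refine (mul_le_mul_of_nonneg_right h hs.le).trans
          (mul_le_mul_of_nonneg_left ?_ hC.le)
        have := inv_pos.2 hs
        linarith
    refine (Finset.sum_le_sum fun c _ => step c).trans ?_
    rw [← Finset.mul_sum, Finset.sum_add_distrib, Finset.sum_const, Finset.card_univ,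
      Fintype.card_prod, Fintype.card_fin, Fintype.card_bool, nsmul_eq_mul]
    have h1 : ((M * 2 : ℕ) : ℝ) * s⁻¹ = s := by
      rw [Nat.cast_mul, Nat.cast_ofNat, mul_comm (M : ℝ), ← hs2, mul_assoc,
        mul_inv_cancel₀ hs.ne', mul_one]
    have h2 : (∑ c : Fin M × Bool, if γ.toWord.head? = some c then s else 0) ≤ s := by
      rcases hw : γ.toWord.head? with _ | d
      · simp [hs.le]
      · simp only [Option.some.injEq, Finset.sum_ite_eq, Finset.mem_univ, if_true, le_refl]
    rw [h1, pow_succ, pow_succ]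
    have h3 : s + (∑ c : Fin M × Bool, if γ.toWord.head? = some c then s else 0) ≤ 2 * s := by
      linarith
    calc 2 ^ p * s ^ p * (s + ∑ c : Fin M × Bool, if γ.toWord.head? = some c then s else 0)
        ≤ 2 ^ p * s ^ p * (2 * s) := mul_le_mul_of_nonneg_left h3 hC.le
      _ = 2 ^ p * 2 * (s ^ p * s) := by ring

theorem trivial_words {M : ℕ} (hM : 1 ≤ M) (T : ℕ) :
    frac (fun a : Fin (2 * T) → Fin M × Bool => FreeGroup.mk (List.ofFn a) = 1) ≤ (2 / (M : ℝ)) ^ T := by
  have hM' : (1 : ℝ) ≤ M := by exact_mod_cast hM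
  have hM0 : (0 : ℝ) < M := by linarith
  have : Nonempty (Fin M × Bool) := ⟨⟨⟨0, hM⟩, true⟩⟩
  have h := word_count hM (2 * T) 1
  rw [FreeGroup.norm_one, pow_zero, mul_one, ← frac_eq_card, Nat.card_fun, Nat.card_prod,
    Nat.card_fin, Nat.card_fin, show Nat.card Bool = 2 by simp] at h
  rw [pow_mul (Real.sqrt _), Real.sq_sqrt (by linarith)] at h
  push_cast at h
  have h1 : (0 : ℝ) < ((M : ℝ) * 2) ^ (2 * T) := by positivity
  rw [← le_div_iff₀ h1] at h
  refine h.trans (le_of_eq ?_)
  rw [div_pow, pow_mul 2 2 T, mul_comm (M : ℝ) 2, pow_mul (2 * (M : ℝ)) 2 T,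
    div_eq_div_iff (by positivity) (by positivity), ← mul_pow, ← mul_pow, ← mul_pow]
  congr 1
  ring

end Pool.Agent.BC5
end

section
set_option autoImplicit false
set_option linter.unusedSectionVars false
set_option linter.unusedVariables false
open scoped BigOperators Matrix
open Matrix
namespace Pool.Agent.BC5


variable {G : Type} [Group G] [Fintype G] [DecidableEq G]


theorem avg_Sm_eq {M : ℕ} (hM : 1 ≤ M) (x : Fin M → G) :
    avg (fun i => Sm (x i)) = avg (fun c : Fin M × Bool => Rm (letv x c)) := by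
  rw [avg_prod]
  congr 1
  funext i
  unfold avg Sm letv
  simp [Fintype.card_bool]

theorem VW2_avg_mul {α β : Type} [Fintype α] [Fintype β] (F : α → Matrix G G ℝ)
    (F' : β → Matrix G G ℝ) : avg F * avg F' = avg (fun c : α × β => F c.1 * F' c.2) := by
  unfold avg
  rw [Matrix.smul_mul, Matrix.mul_smul, smul_smul, Finset.sum_mul_sum, Fintype.card_prod,
    ← Finset.sum_product', Finset.univ_product_univ]
  congr 1
  push_cast
  rw [mul_inv]

theorem pow_eq_avg_words {M : ℕ} (hM : 1 ≤ M) (x : Fin M → G) (p : ℕ) :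
    (avg (fun i => Sm (x i))) ^ p =
      avg (fun a : Fin p → Fin M × Bool => Rm (FreeGroup.lift x (FreeGroup.mk (List.ofFn a)))) := by
  induction p with
  | zero =>
    have h1 : (fun a : Fin 0 → Fin M × Bool =>
        Rm (FreeGroup.lift x (FreeGroup.mk (List.ofFn a)))) = fun _ => 1 := by
      funext a
      rw [List.ofFn_zero]
      have : FreeGroup.lift x (FreeGroup.mk ([] : List (Fin M × Bool))) = 1 := by
        rw [FreeGroup.lift_mk]; rfl
      rw [this, Rm_one]
    rw [h1, avg_const, pow_zero]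
  | succ p ih =>
    rw [pow_succ', ih, avg_Sm_eq hM, VW2_avg_mul,
      ← avg_equiv (Fin.consEquiv (fun _ : Fin (p + 1) => Fin M × Bool))]
    congr 1
    funext c
    have h1 : FreeGroup.lift x (FreeGroup.mk (List.ofFn
        (Fin.consEquiv (fun _ : Fin (p + 1) => Fin M × Bool) c))) =
        letv x c.1 * FreeGroup.lift x (FreeGroup.mk (List.ofFn c.2)) := by
      rw [List.ofFn_succ, FreeGroup.lift_mk, FreeGroup.lift_mk, List.map_cons, List.prod_cons]
      congr 1
      · unfold letv
        rcases c with ⟨⟨i, b⟩, a⟩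
        cases b <;> rfl
    rw [h1, Rm_mul]

end Pool.Agent.BC5
end

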